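import Pool.Agent.P.MP_2cea5e_gt.I.St3
import Pool.Agent.P.MP_2cea5e_gt.St

/-!
Chapter I: the Legendre transform, the global estimates, and the way back to complex charts.
-/

open scoped ContDiff Topology ComplexOrder
open MeasureTheory Set Filter

noncomputable section

set_option linter.dupNamespace false

namespace Pool.Agent.P.MP_2cea5e_gt.I

/-! ### One chart -/

/-- The real point with logarithmic coordinates `ζ`. -/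
def ez (ζ : ℝ × ℝ) : C2 := ![(Real.exp (ζ.1 / 2) : ℝ), (Real.exp (ζ.2 / 2) : ℝ)]
/-- The logarithmic coordinates of a point. -/
def lz (z : C2) : ℝ × ℝ := (Real.log (‖z 0‖ ^ 2), Real.log (‖z 1‖ ^ 2))
/-- The potential in logarithmic coordinates. -/
def lg (f : ℝ × C2 → ℝ) : X → ℝ := fun p => f (p.1, ez p.2)
/-- The potential on the real slice. -/
def rl (f : ℝ × C2 → ℝ) : X → ℝ := fun p => f (p.1, ![(p.2.1 : ℂ), (p.2.2 : ℂ)])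
/-- The moment map on the real slice. -/
def mm (f : ℝ × C2 → ℝ) (p : X) : ℝ × ℝ :=
  (p.2.1 * D e1 (rl f) p / 2, p.2.2 * D e2 (rl f) p / 2)
/-- The moment map at time `t` in logarithmic coordinates. -/
def gr (Φ : X → ℝ) (t : ℝ) (ζ : ℝ × ℝ) : ℝ × ℝ := grad Φ (t, ζ)
/-- The vector `v_k / conj z_k`. -/
def av (z v : C2) : C2 := fun k => v k / (starRingEnd ℂ) (z k)

/-- The normalised flow in one chart. -/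
structure C1 (I : Set ℝ) (f : ℝ × C2 → ℝ) : Prop where
  oI : IsOpen I
  sm : ContDiffOn ℝ ∞ f (I ×ˢ univ)
  inv : ∀ t ∈ I, Inv (sl f t)
  pos : ∀ t ∈ I, ∀ z, (hess (sl f t) z).PosDef
  flow : ∀ t ∈ I, ∀ z, HasDerivAt (fun s => f (s, z)) (scal (sl f t) z) t

/-- Strictly convex potentials for times in `I`. -/
structure PotI (I : Set ℝ) (Φ : X → ℝ) : Prop where
  oI : IsOpen I
  sm : ContDiffOn ℝ ∞ Φ (I ×ˢ univ)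
  p11 : ∀ p : X, p.1 ∈ I → 0 < h11 Φ p
  pw : ∀ p : X, p.1 ∈ I → 0 < W Φ p

/-- The flow in logarithmic coordinates and on the real slice. -/
structure LogP (I : Set ℝ) (f : ℝ × C2 → ℝ) : Prop where
  pot : PotI I (lg f)
  eqn : ∀ p : X, p.1 ∈ I → D e0 (lg f) p = RR (lg f) p
  smr : ContDiffOn ℝ ∞ (rl f) (I ×ˢ univ)
  ev1 : ∀ p : X, p.1 ∈ I → rl f (p.1, -p.2.1, p.2.2) = rl f p
  ev2 : ∀ p : X, p.1 ∈ I → rl f (p.1, p.2.1, -p.2.2) = rl f p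
  ax1 : ∀ p : X, p.1 ∈ I → (p.2.1 = 0 → 0 < h11 (rl f) p) ∧
    (p.2.1 ≠ 0 → 0 < p.2.1 * (D e1 (rl f) p + p.2.1 * h11 (rl f) p))
  ax2 : ∀ p : X, p.1 ∈ I → (p.2.2 = 0 → 0 < h22 (rl f) p) ∧
    (p.2.2 ≠ 0 → 0 < p.2.2 * (D e2 (rl f) p + p.2.2 * h22 (rl f) p))
  vl : ∃ V : X → ℝ, ContinuousOn V (I ×ˢ univ) ∧ (∀ p : X, p.1 ∈ I → 0 < V p) ∧
    ∀ p : X, p.1 ∈ I → W (lg f) p = Real.exp (p.2.1 + p.2.2) *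
      V (p.1, Real.exp (p.2.1 / 2), Real.exp (p.2.2 / 2))
  gm : ∀ p : X, p.1 ∈ I →
    grad (lg f) p = mm f (p.1, Real.exp (p.2.1 / 2), Real.exp (p.2.2 / 2))
  qe : ∀ t ∈ I, ∀ z v : C2, (∀ k, z k ≠ 0) → qf (sl f t) z v =
    hq (lg f) ((av z v 0).re, (av z v 1).re) (t, lz z) +
      hq (lg f) ((av z v 0).im, (av z v 1).im) (t, lz z)
  qc : ∀ t ∈ I, ∀ v : C2, Continuous fun z => qf (sl f t) z v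

def StLog : Prop := ∀ I f, C1 I f → LogP I f

/-- Convexity and change of variables for the moment map. -/
def StChg : Prop := ∀ I Φ, PotI I Φ → ∀ t ∈ I, Function.Injective (gr Φ t) ∧
  (∀ ζ ζ', ip (gr Φ t ζ) ζ' - Φ (t, ζ') ≤ UU Φ (t, ζ)) ∧
  (∀ ζ ζ', 0 ≤ ip (gr Φ t ζ - gr Φ t ζ') (ζ - ζ')) ∧
  ∀ (A : Set (ℝ × ℝ)) (G : ℝ × ℝ → ENNReal), MeasurableSet A →
    ∫⁻ y in gr Φ t '' A, G y = ∫⁻ ζ in A, ENNReal.ofReal (W Φ (t, ζ)) * G (gr Φ t ζ)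

/-- The calculus of the Legendre transform, Abreu's formula. -/
def StAbreu : Prop := ∀ (I : Set ℝ) (Φ u : X → ℝ) (P : Set (ℝ × ℝ)), PotI I Φ → IsOpen P →
  ContDiffOn ℝ ∞ u (I ×ˢ P) →
  (∀ p : X, p.1 ∈ I → grad Φ p ∈ P ∧ u (p.1, grad Φ p) = UU Φ p) → ∀ p : X, p.1 ∈ I →
  D e1 u (p.1, grad Φ p) = p.2.1 ∧ D e2 u (p.1, grad Φ p) = p.2.2 ∧
  D e0 u (p.1, grad Φ p) = -D e0 Φ p ∧ W u (p.1, grad Φ p) = (W Φ p)⁻¹ ∧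
  0 < h11 u (p.1, grad Φ p) ∧ (∀ n, iq u n (p.1, grad Φ p) = hq Φ n p) ∧
  ab u (p.1, grad Φ p) = -RR Φ p

/-- The square root of the moment map. -/
def sg (g₁ g₂ : X → ℝ) (p : X) : X := (p.1, p.2.1 * √(g₁ p), p.2.2 * √(g₂ p))

def StSig : Prop := ∀ I f, LogP I f → ∃ (g₁ g₂ : X → ℝ) (Θ : X → X),
  ContDiffOn ℝ ∞ g₁ (I ×ˢ univ) ∧ ContDiffOn ℝ ∞ g₂ (I ×ˢ univ) ∧
  (∀ p : X, p.1 ∈ I → 0 < g₁ p ∧ 0 < g₂ p ∧ mm f p = (p.2.1 ^ 2 * g₁ p, p.2.2 ^ 2 * g₂ p) ∧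
    g₁ (p.1, -p.2.1, p.2.2) = g₁ p ∧ g₁ (p.1, p.2.1, -p.2.2) = g₁ p ∧
    g₂ (p.1, -p.2.1, p.2.2) = g₂ p ∧ g₂ (p.1, p.2.1, -p.2.2) = g₂ p ∧ Θ (sg g₁ g₂ p) = p) ∧
  IsOpen (sg g₁ g₂ '' (I ×ˢ univ)) ∧ ContDiffOn ℝ ∞ Θ (sg g₁ g₂ '' (I ×ˢ univ))

/-- `u` is the symplectic potential of `f`. -/
structure Leg (f : ℝ × C2 → ℝ) (d : Dm) (u : X → ℝ) : Prop where
  ty : d.τ = (true, true)
  gs : GS0 d u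
  rg : ∀ t ∈ d.I, range (gr (lg f) t) = d.S
  eq : ∀ p : X, p.1 ∈ d.I → u (p.1, grad (lg f) p) = UU (lg f) p
  cl : ∀ p : X, p.1 ∈ d.I → mm f p ∈ d.Sc

def StLeg : Prop := ∀ (I : Set ℝ) (f : ℝ × C2 → ℝ) (P : Set (ℝ × ℝ)), LogP I f → I.Nonempty →
  (∀ t ∈ I, range (gr (lg f) t) = P) → (∀ t ∈ I, ∃ C, ∀ ζ, |UU (lg f) (t, ζ)| ≤ C) →
  ∃ d u, d.I = I ∧ Leg f d u

/-- The logarithmic gradient bound. -/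
def StLogB : Prop := ∀ δ C : ℝ, 0 < δ → ∃ Λ, ∀ I Φ, PotI I Φ → ∀ t ∈ I,
  ∫⁻ ζ : ℝ × ℝ, ENNReal.ofReal (Real.exp (δ * ‖ζ‖) * W Φ (t, ζ)) ≤ ENNReal.ofReal C →
  ∀ ζ r, 0 < r → r ≤ 1 → Metric.ball (gr Φ t ζ) r ⊆ range (gr Φ t) →
    |ζ.1| ≤ Λ * (1 - Real.log r) ∧ |ζ.2| ≤ Λ * (1 - Real.log r)

/-! ### All charts -/

/-- The normalised flow in all charts. -/
structure CF {ι : Type} (m : ι → Matrix (Fin 2) (Fin 2) ℤ) (f : ι → ℝ × C2 → ℝ) (T : ℝ) :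
    Prop where
  c1 : ∀ σ, C1 (Ioo 0 T) (f σ)
  glue : ∀ σ τ, ∃ (a : ℝ) (b : Fin 2 → ℝ), ∀ t ∈ Ioo 0 T, ∀ w : C2, (∀ k, w k ≠ 0) →
    f σ (t, mon (m σ) w) - f τ (t, mon (m τ) w) = a + ∑ k, b k * Real.log ‖w k‖

/-- The chart map in logarithmic coordinates. -/
def mz (m : Matrix (Fin 2) (Fin 2) ℤ) (ξ : ℝ × ℝ) : ℝ × ℝ :=
  (m 0 0 * ξ.1 + m 0 1 * ξ.2, m 1 0 * ξ.1 + m 1 1 * ξ.2)

/-- The transition from the moment coordinates of `f'` to those of `f`. -/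
structure Tr (m m' : Matrix (Fin 2) (Fin 2) ℤ) (f f' : ℝ × C2 → ℝ) (I : Set ℝ) (fr : Fr) :
    Prop where
  t1 : fr.t1 = 0
  ρ : fr.ρ = 1
  det : |fr.det| = 1
  l1 : fr.l1 = 0
  l2 : fr.l2 = 0
  gr : ∀ t ∈ I, ∀ ξ, gr (lg f) t (mz m ξ) = fr.sp (gr (lg f') t (mz m' ξ))
  uu : ∀ t ∈ I, ∀ ξ, UU (lg f') (t, mz m' ξ) = UU (lg f) (t, mz m ξ) - fr.l0

def StTrans : Prop :=
  (∀ m : Matrix (Fin 2) (Fin 2) ℤ, IsUnit m.det → Function.Surjective (mz m) ∧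
    (∀ ξ, mon m (ez ξ) = ez (mz m ξ)) ∧
    ∀ w : C2, (∀ k, w k ≠ 0) → (∀ k, mon m w k ≠ 0) ∧ lz (mon m w) = mz m (lz w)) ∧
  ∀ (ι : Type) (m : ι → Matrix (Fin 2) (Fin 2) ℤ) (f : ι → ℝ × C2 → ℝ) (T : ℝ), IsFan m →
    CF m f T → ∀ σ τ, ∃ fr, Tr (m σ) (m τ) (f σ) (f τ) (Ioo 0 T) fr

/-- The moment polygon and the estimates of part A. -/
def StAB : Prop := ∀ (ι : Type) [Finite ι] (m : ι → Matrix (Fin 2) (Fin 2) ℤ)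
  (f : ι → ℝ × C2 → ℝ) (T : ℝ), IsFan m → CF m f T → ∀ σ,
  (∃ P : Set (ℝ × ℝ), Convex ℝ P ∧ Bornology.IsBounded P ∧
    ∀ t ∈ Ioo 0 T, range (gr (lg (f σ)) t) = P) ∧
  ∀ t₀, 0 < t₀ → ∃ δ C : ℝ, 0 < δ ∧ ∀ t ∈ Ico t₀ T, (∀ ζ, |UU (lg (f σ)) (t, ζ)| ≤ C) ∧
    ∫⁻ ζ : ℝ × ℝ, ENNReal.ofReal (W (lg (f σ)) (t, ζ) * √(√(W (lg (f σ)) (t, ζ)))) ≤
      ENNReal.ofReal C ∧
    ∫⁻ ζ : ℝ × ℝ, ENNReal.ofReal (Real.exp (δ * ‖ζ‖) * W (lg (f σ)) (t, ζ)) ≤ ENNReal.ofReal C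

/-- A solution on a bounded domain whose closure is covered by charts. -/
structure Glob {ι : Type} (d : Dm) (u : X → ℝ) (d' : ι → Dm) (u' : ι → X → ℝ) (fr : ι → Fr) :
    Prop where
  gs : GS0 d u
  bdd : Bornology.IsBounded d.S
  gs' : ∀ σ, GS0 (d' σ) (u' σ)
  tI : ∀ σ, (d' σ).I = d.I
  t1 : ∀ σ, (fr σ).t1 = 0
  ρ : ∀ σ, (fr σ).ρ = 1
  det : ∀ σ, |(fr σ).det| = 1
  S : ∀ σ, (d' σ).S = (fr σ).sp ⁻¹' d.S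
  eq : ∀ σ, EqOn (u' σ) ((fr σ).pull u) (d' σ).U
  cov : closure d.S ⊆ ⋃ σ, (fr σ).sp '' (d' σ).Sc

def StGLc : Prop := ∀ (ι : Type) [Finite ι] (m : ι → Matrix (Fin 2) (Fin 2) ℤ)
  (f : ι → ℝ × C2 → ℝ) (T : ℝ) (d : ι → Dm) (u : ι → X → ℝ) (σ : ι) (fr : ι → Fr), IsFan m →
  0 < T → (∀ τ, LogP (Ioo 0 T) (f τ) ∧ (d τ).I = Ioo 0 T ∧ Leg (f τ) (d τ) (u τ) ∧
    Tr (m σ) (m τ) (f σ) (f τ) (Ioo 0 T) (fr τ)) →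
  Bornology.IsBounded (d σ).S → Glob (d σ) (u σ) d u fr

/-- Integrals over the whole domain. -/
def StGB : Prop := ∀ (ι : Type) (d : Dm) (u : X → ℝ) (d' : ι → Dm) (u' : ι → X → ℝ)
  (fr : ι → Fr), Glob d u d' u' fr → (∀ σ, (d' σ).U = (fr σ).fm ⁻¹' d.U ∧
    (fr σ).sp '' (d' σ).S = d.S ∧ ∀ t y, (fr σ).fm (t, y) = (t, (fr σ).sp y)) ∧
  ∀ f : X → ℝ,
  ((∀ σ, Bd0 (d' σ) (f ∘ (fr σ).fm)) → ∀ J, IsCompact J → J ⊆ d.I →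
    ∃ C, ∀ t ∈ J, ∀ y ∈ d.S, |f (t, y)| ≤ C) ∧
  (ContinuousOn f d.U → (∀ σ, Bd0 (d' σ) (f ∘ (fr σ).fm)) →
    (∀ t ∈ d.I, IntegrableOn (fun y => f (t, y)) d.S) ∧
    ContinuousOn (fun t => ∫ y in d.S, f (t, y)) d.I) ∧
  (ContDiffOn ℝ ∞ f d.U → (∀ σ, Bd (d' σ) (f ∘ (fr σ).fm)) → ∀ t ∈ d.I,
    HasDerivAt (fun s => ∫ y in d.S, f (s, y)) (∫ y in d.S, D e0 f (t, y)) t)

/-- A function of the space variables. -/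
def cx (χ : ℝ × ℝ → ℝ) : X → ℝ := fun p => χ p.2
def T2.mul (g : X → ℝ) (H : T2) : T2 := ⟨g * H.a, g * H.b, g * H.c⟩

/-- Local integration by parts near any point of the closed domain. -/
def StLoc : Prop := ∀ (d : Dm), ∀ p ∈ d.Sc, ∃ V, IsOpen V ∧ p ∈ V ∧ ∀ χ : ℝ × ℝ → ℝ,
  ContDiff ℝ ∞ χ → tsupport χ ⊆ V → ∀ t ∈ d.I, ∀ (H : T2) (k₁ k₂ k₃ : X → ℝ), NT d H k₁ k₂ k₃ →
  (∀ f, Bd d f →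
    ∫ y in d.S, H.ctr (cx χ * f) (t, y) = ∫ y in d.S, (cx χ * f * H.dd) (t, y)) ∧
  ∀ (G : T2) (g₁ g₂ g₃ : X → ℝ), NT d G g₁ g₂ g₃ →
    ∫ y in d.S, (H.mul (cx χ)).rr G (t, y) = ∫ y in d.S, ((H.mul (cx χ)).dd * G.dd) (t, y)

/-- Global integration by parts. -/
def StGI : Prop := ∀ (ι : Type) (d : Dm) (u : X → ℝ) (d' : ι → Dm) (u' : ι → X → ℝ)
  (fr : ι → Fr), Glob d u d' u' fr → ∀ H : T2, H.SmOn d.U →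
  (∀ σ, ∃ k₁ k₂ k₃, NT (d' σ) ((fr σ).pullT H) k₁ k₂ k₃) → ∀ t ∈ d.I,
  (∀ f, ContDiffOn ℝ ∞ f d.U → (∀ σ, Bd (d' σ) (f ∘ (fr σ).fm)) →
    ∫ y in d.S, H.ctr f (t, y) = ∫ y in d.S, (f * H.dd) (t, y)) ∧
  ∫ y in d.S, H.rr (iv2 u) (t, y) = ∫ y in d.S, (H.dd * ab u) (t, y)

/-- The soft estimate for the velocity. -/
def StSoft : Prop := ∀ (ι : Type) (d : Dm) (u : X → ℝ) (d' : ι → Dm) (u' : ι → X → ℝ)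
  (fr : ι → Fr), Glob d u d' u' fr → d.I.OrdConnected →
  AntitoneOn (fun t => ∫ y in d.S, D e0 u (t, y) ^ 2) d.I ∧
  (∀ s ∈ d.I, ContinuousOn (fun r => ∫ y in d.S, (D e0 u (r, y) - D e0 u (s, y)) ^ 2) d.I) ∧
  ∀ s ∈ d.I, ∀ t ∈ d.I, s < t →
    ∫ r in s..t, ∫ y in d.S, (D e0 u (r, y) - D e0 u (s, y)) ^ 2 ≤
      (t - s) * ((∫ y in d.S, D e0 u (s, y) ^ 2) - ∫ y in d.S, D e0 u (t, y) ^ 2)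

/-- The curvature energy does not increase. -/
def StEner : Prop := ∀ (ι : Type) (d : Dm) (u : X → ℝ) (d' : ι → Dm) (u' : ι → X → ℝ)
  (fr : ι → Fr), Glob d u d' u' fr → d.I.OrdConnected →
  (∀ t ∈ d.I, IntegrableOn (fun y => rm u (t, y)) d.S) ∧
  AntitoneOn (fun t => ∫ y in d.S, rm u (t, y)) d.I

/-- The same domain for times in `(a,b)`. -/
def Dm.res (d : Dm) (a b : ℝ) : Dm := ⟨d.τ, Ioo a b, d.O, isOpen_Ioo, d.oO⟩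

def StCS : Prop := ∀ (ι : Type) (f : ℝ × C2 → ℝ) (T δ C : ℝ) (d : Dm) (u : X → ℝ) (d' : ι → Dm)
  (u' : ι → X → ℝ) (fr : ι → Fr), 0 < T → 0 < δ → d.I = Ioo 0 T → LogP d.I f → Leg f d u →
  Glob d u d' u' fr →
  (∀ t ∈ Ico (T / 2) T, (∀ ζ, |UU (lg f) (t, ζ)| ≤ C) ∧
    ∫⁻ ζ : ℝ × ℝ, ENNReal.ofReal (W (lg f) (t, ζ) * √(√(W (lg f) (t, ζ)))) ≤ ENNReal.ofReal C ∧
    ∫⁻ ζ : ℝ × ℝ, ENNReal.ofReal (Real.exp (δ * ‖ζ‖) * W (lg f) (t, ζ)) ≤ ENNReal.ofReal C) →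
  ∃ Λ, CS (d.res (T / 2) T) u (fc u) (T / 2) T Λ

/-! ### Back to complex charts -/

/-- The moment map of the flat model of a frame. -/
def ms (fr : Fr) (τ : Ty) (z : C2) : ℝ × ℝ :=
  (if τ.1 then ‖z 0‖ ^ 2 * Real.exp (-1 - fr.l1 / fr.ρ ^ 2)
    else ((fr.St (lz z)).1 - fr.l1) / fr.ρ ^ 2,
   if τ.2 then ‖z 1‖ ^ 2 * Real.exp (-1 - fr.l2 / fr.ρ ^ 2)
    else ((fr.St (lz z)).2 - fr.l2) / fr.ρ ^ 2)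

/-- The metric of the flat model of a frame. -/
def q0 (fr : Fr) (τ : Ty) (z v : C2) : ℝ :=
  (if τ.1 then fr.ρ ^ 2 * Real.exp (-1 - fr.l1 / fr.ρ ^ 2) * ‖v 0‖ ^ 2
    else ‖fr.a * av z v 0 + fr.c * av z v 1‖ ^ 2 / fr.ρ ^ 2) +
  if τ.2 then fr.ρ ^ 2 * Real.exp (-1 - fr.l2 / fr.ρ ^ 2) * ‖v 1‖ ^ 2
    else ‖fr.b * av z v 0 + fr.e * av z v 1‖ ^ 2 / fr.ρ ^ 2

/-- Comparison with the model at one point. -/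
def StBk1 : Prop := ∀ (f : ℝ × C2 → ℝ) (d : Dm) (u : X → ℝ) (fr : Fr) (τ : Ty) (δ : ℝ) (q : X)
  (z : C2), LogP d.I f → Leg f d u → fr.Cp d.τ τ → 0 ≤ δ → (∀ k, z k ≠ 0) → fr.tm q.1 ∈ d.I →
  fr.sp q.2 = gr (lg f) (fr.tm q.1) (lz z) → Near τ (fr.pull u) δ q →
  (∀ v, qf (sl f (fr.tm q.1)) z v ≤ (1 + δ) * Real.exp δ * q0 fr τ z v ∧
    q0 fr τ z v ≤ (1 + δ) * Real.exp δ * qf (sl f (fr.tm q.1)) z v) ∧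
  (if τ.1 then (ms fr τ z).1 ≤ Real.exp δ * q.2.1 else |(ms fr τ z).1 - q.2.1| ≤ δ) ∧
  (if τ.2 then (ms fr τ z).2 ≤ Real.exp δ * q.2.2 else |(ms fr τ z).2 - q.2.2| ≤ δ)

/-- Localisation of the moment map. -/
def StBk2 : Prop := ∀ (f : ℝ × C2 → ℝ) (d : Dm) (u : X → ℝ) (fr : Fr) (τ : Ty) (δ s : ℝ)
  (z : C2), LogP d.I f → Leg f d u → Convex ℝ d.S → fr.Cp d.τ τ → bxc τ 1 ⊆ (fr.dm d τ).O →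
  δ ≤ 1 / 1000 → (∀ k, z k ≠ 0) → fr.tm s ∈ d.I →
  (∀ y ∈ bx τ (1 / 16), Near τ (fr.pull u) δ (s, y)) → ms fr τ z ∈ bx τ (1 / 24) →
  gr (lg f) (fr.tm s) (lz z) ∈ fr.sp '' bx τ (1 / 16)

/-- The model is uniformly continuous. -/
def StBk3 : Prop := ∀ (fr : Fr) (τ : Ty) (δ : ℝ), fr.Cp (true, true) τ → 0 < δ →
  ∃ ρ Λ : ℝ, 0 < ρ ∧ 0 < Λ ∧ ∀ z₀ : C2, (∀ k, z₀ k ≠ 0) → ms fr τ z₀ ∈ bx τ (1 / 40) →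
  ‖z₀‖ ≤ Λ ∧ (∀ v, ‖v‖ ^ 2 ≤ Λ * q0 fr τ z₀ v ∧ q0 fr τ z₀ v ≤ Λ * ‖v‖ ^ 2) ∧
  ∀ z : C2, (∀ k, z k ≠ 0) → ‖z - z₀‖ ≤ ρ → ms fr τ z ∈ bx τ (1 / 24) ∧
    ∀ v, q0 fr τ z v ≤ (1 + δ) * q0 fr τ z₀ v ∧ q0 fr τ z₀ v ≤ (1 + δ) * q0 fr τ z v

/-- The conclusion of `StOsc` at one point. -/
def Osc (f : ℝ × C2 → ℝ) (δ ρ Λ t : ℝ) (z₀ : C2) : Prop :=
  ‖z₀‖ ≤ Λ ∧ (∀ v, ‖v‖ ^ 2 ≤ Λ * qf (sl f t) z₀ v ∧ qf (sl f t) z₀ v ≤ Λ * ‖v‖ ^ 2) ∧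
  ∀ s ∈ Icc (t - ρ) t, ∀ z, ‖z - z₀‖ ≤ ρ → ∀ v,
    |qf (sl f s) z v - qf (sl f t) z₀ v| ≤ δ * qf (sl f t) z₀ v

def StBack : Prop := ∀ (f : ℝ × C2 → ℝ) (d : Dm) (u : X → ℝ) (fr : Fr) (τ : Ty) (T δ : ℝ),
  LogP d.I f → Leg f d u → Convex ℝ d.S → fr.t1 = T → fr.Cp d.τ τ → bxc τ 1 ⊆ (fr.dm d τ).O →
  Ioo (T - fr.ρ ^ 4) T ⊆ d.I → 0 < δ → δ ≤ 1 / 1000 →
  (∀ s ∈ Ioo (-1 / 2 : ℝ) 0, ∀ y ∈ bx τ (1 / 16), Near τ (fr.pull u) δ (s, y)) →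
  ∃ ρ Λ : ℝ, 0 < ρ ∧ ∀ ρ' Λ', ρ' ≤ ρ → Λ ≤ Λ' → ∀ t ∈ Ioo (T - fr.ρ ^ 4 / 4) T, ∀ z₀ : C2,
    (∀ k, z₀ k ≠ 0) → gr (lg f) t (lz z₀) ∈ fr.sp '' bx τ (1 / 48) → Osc f (10 * δ) ρ' Λ' t z₀

/-- `StOsc` for the normalised flow. -/
def StOsc1 : Prop := ∀ (ι : Type) [Finite ι] (m : ι → Matrix (Fin 2) (Fin 2) ℤ)
  (f : ι → ℝ × C2 → ℝ) (T : ℝ), IsFan m → 0 < T → CF m f T → ∀ δ : ℝ, 0 < δ →
  ∃ τ ρ Λ : ℝ, 0 < τ ∧ 0 < ρ ∧ τ + ρ < T ∧ ∀ t ∈ Ico (T - τ) T, ∀ w : C2, (∀ k, w k ≠ 0) →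
    ∃ σ, Osc (f σ) δ ρ Λ t (mon (m σ) w)

end Pool.Agent.P.MP_2cea5e_gt.I
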