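import Pool.Agent.P.MP_2cea5e_gt.I.St5

/-!
Chapter I: the calculus of the Legendre transform and Abreu's formula.
-/

open scoped ContDiff Topology
open MeasureTheory Set Filter

noncomputable section

set_option linter.dupNamespace false

namespace Pool.Agent.P.MP_2cea5e_gt.I

namespace Abreu

/-- The moment map with time. -/
def Y (Φ : X → ℝ) (p : X) : X := (p.1, grad Φ p)

variable {I : Set ℝ} {Φ : X → ℝ} {p : X}

theorem opU (h : PotI I Φ) : IsOpen (I ×ˢ (univ : Set (ℝ × ℝ))) := h.oI.prod isOpen_univ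

theorem memU (hp : p.1 ∈ I) : p ∈ I ×ˢ (univ : Set (ℝ × ℝ)) := ⟨hp, mem_univ _⟩

theorem chain (h : PotI I Φ) {g G : X → ℝ} (hG : ∀ q : X, q.1 ∈ I → g (Y Φ q) = G q)
    (hp : p.1 ∈ I) (hg : DifferentiableAt ℝ g (Y Φ p)) (v : X) :
    D v G p = v.1 * D e0 g (Y Φ p) + D v (D e1 Φ) p * D e1 g (Y Φ p) +
      D v (D e2 Φ) p * D e2 g (Y Φ p) := by
  have h1 := diffAt (opU h) (smO_D (opU h) e1 h.sm) (memU hp)
  have h2 := diffAt (opU h) (smO_D (opU h) e2 h.sm) (memU hp)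
  have hY : HasFDerivAt (Y Φ) ((ContinuousLinearMap.fst ℝ ℝ (ℝ × ℝ)).prod
      ((fderiv ℝ (D e1 Φ) p).prod (fderiv ℝ (D e2 Φ) p))) p :=
    hasFDerivAt_fst.prodMk (h1.hasFDerivAt.prodMk h2.hasFDerivAt)
  have e := D_congr (opU h) v (f := G) (g := g ∘ Y Φ) (fun q hq => (hG q hq.1).symm) (memU hp)
  have e' : D v (g ∘ Y Φ) p = D (v.1, D v (D e1 Φ) p, D v (D e2 Φ) p) g (Y Φ p) := by
    simp only [D]
    rw [(hg.hasFDerivAt.comp p hY).fderiv]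
    rfl
  rw [e, e', D_dir3]
  simp only [Pi.add_apply, Pi.mul_apply, K_apply]

theorem h21 (h : PotI I Φ) (hp : p.1 ∈ I) : D e2 (D e1 Φ) p = h12 Φ p :=
  D_comm_on (opU h) h.sm _ _ (memU hp)

theorem W_eq (Φ : X → ℝ) (p : X) : W Φ p = h11 Φ p * h22 Φ p - h12 Φ p * h12 Φ p := rfl

/-- The spatial derivatives of `g` in terms of those of `g ∘ Y`. -/
theorem two (h : PotI I Φ) {g G : X → ℝ} (hG : ∀ q : X, q.1 ∈ I → g (Y Φ q) = G q)
    (hp : p.1 ∈ I) (hg : DifferentiableAt ℝ g (Y Φ p)) :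
    D e1 g (Y Φ p) = (h22 Φ p * D e1 G p - h12 Φ p * D e2 G p) / W Φ p ∧
    D e2 g (Y Φ p) = (h11 Φ p * D e2 G p - h12 Φ p * D e1 G p) / W Φ p := by
  have a1 := chain h hG hp hg e1
  have a2 := chain h hG hp hg e2
  rw [h21 h hp] at a2
  have hw := (h.pw p hp).ne'
  have z1 : e1.1 = 0 := rfl
  have z2 : e2.1 = 0 := rfl
  rw [z1] at a1
  rw [z2] at a2
  rw [eq_div_iff hw, eq_div_iff hw, a1, a2, W_eq]
  unfold h11 h12 h22
  constructor <;> ring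

theorem D_UU (h : PotI I Φ) (hp : p.1 ∈ I) (v : X) :
    D v (UU Φ) p = v.2.1 * D e1 Φ p + p.2.1 * D v (D e1 Φ) p +
      (v.2.2 * D e2 Φ p + p.2.2 * D v (D e2 Φ) p) - D v Φ p := by
  have h0 := diffAt (opU h) h.sm (memU hp)
  have h1 := diffAt (opU h) (smO_D (opU h) e1 h.sm) (memU hp)
  have h2 := diffAt (opU h) (smO_D (opU h) e2 h.sm) (memU hp)
  have l1 := (sm_Li 1 0).diff p
  have l2 := (sm_Li 0 1).diff p
  unfold UU
  rw [D_sub_at v ((l1.mul h1).add (l2.mul h2)) h0, D_add_at v (l1.mul h1) (l2.mul h2),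
    D_mul_at v l1 h1, D_mul_at v l2 h2, D_Li, D_Li]
  simp only [K_apply, Li_apply]
  ring

theorem smW {U : Set X} (hU : IsOpen U) {f : X → ℝ} (hf : ContDiffOn ℝ ∞ f U) :
    ContDiffOn ℝ ∞ (W f) U :=
  ((smO_D hU _ (smO_D hU _ hf)).mul (smO_D hU _ (smO_D hU _ hf))).sub
    ((smO_D hU _ (smO_D hU _ hf)).mul (smO_D hU _ (smO_D hU _ hf)))

theorem D_LL (h : PotI I Φ) (hp : p.1 ∈ I) (v : X) :
    D v (LL Φ) p = (D v (h11 Φ) p * h22 Φ p + h11 Φ p * D v (h22 Φ) p -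
      2 * h12 Φ p * D v (h12 Φ) p) / W Φ p := by
  have hU := opU h
  have d11 : DifferentiableAt ℝ (h11 Φ) p := diffAt hU (smO_D hU _ (smO_D hU _ h.sm)) (memU hp)
  have d12 : DifferentiableAt ℝ (h12 Φ) p := diffAt hU (smO_D hU _ (smO_D hU _ h.sm)) (memU hp)
  have d22 : DifferentiableAt ℝ (h22 Φ) p := diffAt hU (smO_D hU _ (smO_D hU _ h.sm)) (memU hp)
  have e1 : D v (LL Φ) p = (W Φ p)⁻¹ * D v (W Φ) p :=
    D_comp_at v (Real.hasDerivAt_log (h.pw p hp).ne') (diffAt hU (smW hU h.sm) (memU hp))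
  have e2 : D v (W Φ) p = D v (h11 Φ * h22 Φ - h12 Φ * h12 Φ) p := rfl
  rw [e1, e2, D_sub_at v (d11.mul d22) (d12.mul d12), D_mul_at v d11 d22, D_mul_at v d12 d12]
  ring

theorem t1 (h : PotI I Φ) (hp : p.1 ∈ I) : D e2 (h11 Φ) p = D e1 (h12 Φ) p :=
  (D_comm_on (opU h) (smO_D (opU h) e1 h.sm) e2 e1 (memU hp)).trans
    (D_congr (opU h) e1 (fun _ hq => h21 h hq.1) (memU hp))

theorem t2 (h : PotI I Φ) (hp : p.1 ∈ I) : D e2 (h12 Φ) p = D e1 (h22 Φ) p :=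
  D_comm_on (opU h) (smO_D (opU h) e2 h.sm) e2 e1 (memU hp)

section Main

variable {u : X → ℝ} {P : Set (ℝ × ℝ)} (h : PotI I Φ) (hP : IsOpen P)
  (hu : ContDiffOn ℝ ∞ u (I ×ˢ P))
  (hY : ∀ p : X, p.1 ∈ I → grad Φ p ∈ P ∧ u (p.1, grad Φ p) = UU Φ p)
include h hP hu hY

theorem first (hp : p.1 ∈ I) :
    D e1 u (Y Φ p) = p.2.1 ∧ D e2 u (Y Φ p) = p.2.2 ∧ D e0 u (Y Φ p) = -D e0 Φ p := by
  have hd : DifferentiableAt ℝ u (Y Φ p) := diffAt (h.oI.prod hP) hu ⟨hp, (hY p hp).1⟩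
  obtain ⟨a1, a2⟩ := two h (fun q hq => (hY q hq).2) hp hd
  have a0 := chain h (fun q hq => (hY q hq).2) hp hd e0
  have hw := (h.pw p hp).ne'
  rw [D_UU h hp, D_UU h hp, h21 h hp] at a1 a2
  have b1 : D e1 u (Y Φ p) = p.2.1 := by
    rw [a1, div_eq_iff hw, W_eq]
    simp only [h11, h12, h22, show e1.2.1 = 1 from rfl, show e1.2.2 = 0 from rfl,
      show e2.2.1 = 0 from rfl, show e2.2.2 = 1 from rfl]
    ring
  have b2 : D e2 u (Y Φ p) = p.2.2 := by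
    rw [a2, div_eq_iff hw, W_eq]
    simp only [h11, h12, h22, show e1.2.1 = 1 from rfl, show e1.2.2 = 0 from rfl,
      show e2.2.1 = 0 from rfl, show e2.2.2 = 1 from rfl]
    ring
  refine ⟨b1, b2, ?_⟩
  rw [D_UU h hp, b1, b2] at a0
  simp only [show e0.2.1 = 0 from rfl, show e0.2.2 = 0 from rfl, show e0.1 = 1 from rfl] at a0
  linarith

theorem second (hp : p.1 ∈ I) :
    h11 u (Y Φ p) = h22 Φ p / W Φ p ∧ h12 u (Y Φ p) = -h12 Φ p / W Φ p ∧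
      h22 u (Y Φ p) = h11 Φ p / W Φ p := by
  have hV := h.oI.prod hP
  have hm : Y Φ p ∈ I ×ˢ P := ⟨hp, (hY p hp).1⟩
  obtain ⟨a1, -⟩ := two h (g := D e1 u) (G := Li 1 0)
    (fun q hq => by rw [(first h hP hu hY hq).1, Li_apply]; ring) hp
    (diffAt hV (smO_D hV _ hu) hm)
  obtain ⟨a2, a3⟩ := two h (g := D e2 u) (G := Li 0 1)
    (fun q hq => by rw [(first h hP hu hY hq).2.1, Li_apply]; ring) hp
    (diffAt hV (smO_D hV _ hu) hm)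
  rw [D_Li, D_Li] at a1 a2 a3
  simp only [K_apply, show e1.2.1 = 1 from rfl, show e1.2.2 = 0 from rfl,
    show e2.2.1 = 0 from rfl, show e2.2.2 = 1 from rfl] at a1 a2 a3
  refine ⟨a1.trans ?_, a2.trans ?_, a3.trans ?_⟩ <;> ring

theorem Wu (hp : p.1 ∈ I) : W u (Y Φ p) = (W Φ p)⁻¹ := by
  obtain ⟨a1, a2, a3⟩ := second h hP hu hY hp
  have hw := (h.pw p hp).ne'
  rw [W_eq, a1, a2, a3]
  field_simp
  rw [W_eq]
  ring

theorem inv (hp : p.1 ∈ I) :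
    i11 u (Y Φ p) = h11 Φ p ∧ i12 u (Y Φ p) = h12 Φ p ∧ i22 u (Y Φ p) = h22 Φ p := by
  obtain ⟨a1, a2, a3⟩ := second h hP hu hY hp
  have hw := (h.pw p hp).ne'
  have a4 := Wu h hP hu hY hp
  simp only [i11, i12, i22, Pi.mul_apply, Pi.neg_apply, Iv_apply, a1, a2, a3, a4, inv_inv]
  refine ⟨?_, ?_, ?_⟩ <;> field_simp

theorem abreu (hp : p.1 ∈ I) : ab u (Y Φ p) = -RR Φ p := by
  have hV0 := h.oI.prod hP
  have hV : IsOpen (I ×ˢ P ∩ W u ⁻¹' {0}ᶜ) :=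
    (smW hV0 hu).continuousOn.isOpen_inter_preimage hV0 isOpen_compl_singleton
  have hm : ∀ q : X, q.1 ∈ I → Y Φ q ∈ I ×ˢ P ∩ W u ⁻¹' {0}ᶜ := fun q hq =>
    ⟨⟨hq, (hY q hq).1⟩, by
      show W u (Y Φ q) ≠ 0
      rw [Wu h hP hu hY hq]
      exact inv_ne_zero (h.pw q hq).ne'⟩
  set V := I ×ˢ P ∩ W u ⁻¹' {0}ᶜ with hVdef
  have hu' : ContDiffOn ℝ ∞ u V := hu.mono inter_subset_left
  have hI : ContDiffOn ℝ ∞ (Iv (W u)) V := (smW hV hu').inv fun q hq => hq.2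
  have s11 : ContDiffOn ℝ ∞ (i11 u) V := (smO_D hV _ (smO_D hV _ hu')).mul hI
  have s12 : ContDiffOn ℝ ∞ (i12 u) V := ((smO_D hV _ (smO_D hV _ hu')).mul hI).neg
  have s22 : ContDiffOn ℝ ∞ (i22 u) V := (smO_D hV _ (smO_D hV _ hu')).mul hI
  have key : ∀ q : X, q.1 ∈ I →
      (D e1 (i11 u) + D e2 (i12 u)) (Y Φ q) = D e1 (LL Φ) q ∧
      (D e1 (i12 u) + D e2 (i22 u)) (Y Φ q) = D e2 (LL Φ) q := by
    intro q hq
    obtain ⟨a1, -⟩ := two h (fun r hr => (inv h hP hu hY hr).1) hq (diffAt hV s11 (hm q hq))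
    obtain ⟨a2, a3⟩ := two h (fun r hr => (inv h hP hu hY hr).2.1) hq (diffAt hV s12 (hm q hq))
    obtain ⟨-, a4⟩ := two h (fun r hr => (inv h hP hu hY hr).2.2) hq (diffAt hV s22 (hm q hq))
    rw [Pi.add_apply, Pi.add_apply, a1, a2, a3, a4, D_LL h hq, D_LL h hq, t1 h hq, t2 h hq]
    constructor <;> ring
  have d1 : ∀ (v : X) {g : X → ℝ}, ContDiffOn ℝ ∞ g V → DifferentiableAt ℝ (D v g) (Y Φ p) :=
    fun v _ w => diffAt hV (smO_D hV v w) (hm p hp)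
  obtain ⟨a1, -⟩ := two h (fun r hr => (key r hr).1) hp ((d1 _ s11).add (d1 _ s12))
  obtain ⟨-, a2⟩ := two h (fun r hr => (key r hr).2) hp ((d1 _ s12).add (d1 _ s22))
  rw [D_add_at _ (d1 _ s11) (d1 _ s12)] at a1
  rw [D_add_at _ (d1 _ s12) (d1 _ s22), D_comm_on hV s12 e2 e1 (hm p hp)] at a2
  have sL : ContDiffOn ℝ ∞ (LL Φ) (I ×ˢ univ) :=
    (smW (opU h) h.sm).log fun q hq => (h.pw q hq.1).ne'
  rw [D_comm_on (opU h) sL e2 e1 (memU hp)] at a1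
  have e : ab u (Y Φ p) = (D e1 (D e1 (i11 u)) (Y Φ p) + D e1 (D e2 (i12 u)) (Y Φ p)) +
      (D e1 (D e2 (i12 u)) (Y Φ p) + D e2 (D e2 (i22 u)) (Y Φ p)) := by
    simp only [ab, T2.dd, iv2, h11, h12, h22, Pi.add_apply, Pi.mul_apply, K_apply]
    ring
  rw [e, a1, a2]
  simp only [RR, Lap, DD, DDv, iW, h11, h12, h22, Pi.add_apply, Pi.sub_apply, Pi.mul_apply,
    Pi.neg_apply, K_apply, Iv_apply]
  ring

end Main

end Abreu

theorem abreu_ok : StAbreu := by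
  intro I Φ u P h hP hu hY p hp
  obtain ⟨a1, a2, a3⟩ := Abreu.first h hP hu hY hp
  obtain ⟨b1, b2, b3⟩ := Abreu.inv h hP hu hY hp
  refine ⟨a1, a2, a3, Abreu.Wu h hP hu hY hp, ?_, fun n => ?_, Abreu.abreu h hP hu hY hp⟩
  · have e := (Abreu.second h hP hu hY hp).1
    have h1 := h.p11 p hp
    have h2 := h.pw p hp
    have h3 : 0 < h22 Φ p := by
      rw [Abreu.W_eq] at h2
      by_contra hc
      nlinarith [mul_self_nonneg (h12 Φ p), not_lt.1 hc]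
    exact lt_of_lt_of_eq (div_pos h3 h2) e.symm
  · show i11 u (Abreu.Y Φ p) * n.1 * n.1 + i12 u (Abreu.Y Φ p) * (n.1 * n.2 + n.2 * n.1) +
      i22 u (Abreu.Y Φ p) * n.2 * n.2 = _
    rw [b1, b2, b3]
    rfl

end Pool.Agent.P.MP_2cea5e_gt.I
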