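import Pool.Agent.P.MP_2cea5e_gt.I.St1

/-! Pointwise algebra of positive two by two matrices. -/

noncomputable section

namespace Pool.Agent.P.MP_2cea5e_gt.I

namespace Alg

theorem diag {a b c : ℝ} (ha : 0 < a) (hd : 0 < a * c - b ^ 2) :
    ∃ l₁ l₂ co si : ℝ, 0 < l₁ ∧ 0 < l₂ ∧ co ^ 2 + si ^ 2 = 1 ∧ a = l₁ * co ^ 2 + l₂ * si ^ 2 ∧
      b = (l₁ - l₂) * co * si ∧ c = l₁ * si ^ 2 + l₂ * co ^ 2 := by
  have hc : 0 < c := by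
    by_contra h
    have : a * c ≤ 0 := mul_nonpos_of_nonneg_of_nonpos ha.le (not_lt.1 h)
    nlinarith [sq_nonneg b]
  let z : ℂ := ⟨(a - c) / 2, b⟩
  have h1 : ‖z‖ * Real.cos z.arg = (a - c) / 2 := Complex.norm_mul_cos_arg z
  have h2 : ‖z‖ * Real.sin z.arg = b := Complex.norm_mul_sin_arg z
  have h3 : Real.cos z.arg = Real.cos (z.arg / 2) ^ 2 - Real.sin (z.arg / 2) ^ 2 := by
    rw [← Real.cos_two_mul']; congr 1; ring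
  have h4 : Real.sin z.arg = 2 * Real.sin (z.arg / 2) * Real.cos (z.arg / 2) := by
    rw [← Real.sin_two_mul]; congr 1; ring
  have h5 := Real.cos_sq_add_sin_sq (z.arg / 2)
  have h6 := Real.cos_sq_add_sin_sq z.arg
  have h0 : 0 ≤ ‖z‖ := norm_nonneg z
  have h7 : ‖z‖ ^ 2 = ((a - c) / 2) ^ 2 + b ^ 2 := by
    rw [← h1, ← h2]; linear_combination (-‖z‖ ^ 2) * h6
  rw [h3] at h1
  rw [h4] at h2
  generalize ‖z‖ = ρ at *
  generalize Real.cos (z.arg / 2) = co at *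
  generalize Real.sin (z.arg / 2) = si at *
  refine ⟨(a + c) / 2 + ρ, (a + c) / 2 - ρ, co, si, by positivity, ?_, h5, ?_, ?_, ?_⟩
  · by_contra h
    have h8 : (a + c) / 2 ≤ ρ := by linarith
    have h9 : ((a + c) / 2) ^ 2 ≤ ρ ^ 2 := pow_le_pow_left₀ (by positivity) h8 2
    nlinarith
  · linear_combination (-(a + c) / 2) * h5 - h1
  · linear_combination -h2
  · linear_combination (-(a + c) / 2) * h5 + h1

theorem g_nonneg {l : ℝ} (hl : 0 < l) : 0 ≤ l + l⁻¹ - 2 := by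
  have : l + l⁻¹ - 2 = (l - 1) ^ 2 / l := by field_simp; ring
  rw [this]; positivity

theorem one_le {l g : ℝ} (hl : 0 < l) (hg : l + l⁻¹ - 2 ≤ g) : |l - 1| ≤ √g + g := by
  have h0 : 0 ≤ g := (g_nonneg hl).trans hg
  have h1 : (l - 1) ^ 2 ≤ g * l := by
    have : (l - 1) ^ 2 = (l + l⁻¹ - 2) * l := by field_simp; ring
    rw [this]; exact mul_le_mul_of_nonneg_right hg hl.le
  have hs := Real.sqrt_nonneg g
  have hq := Real.sq_sqrt h0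
  generalize √g = s at *
  subst hq
  rw [abs_le]
  constructor
  · by_contra h
    have h2 : s + s ^ 2 < 1 - l := by linarith
    have h3 : s ^ 2 * l ≤ s ^ 2 := by nlinarith [sq_nonneg s]
    nlinarith [sq_nonneg s]
  · by_contra h
    have h2 : s + s ^ 2 < l - 1 := by linarith
    have h3 : (s + s ^ 2) * s ≤ (l - 1) * (l - 1 - s ^ 2) :=
      mul_le_mul h2.le (by linarith) hs (by nlinarith [sq_nonneg s])
    have h4 : 0 < (l - 1) * (l - 1 - s ^ 2) := mul_pos (by nlinarith [sq_nonneg s]) (by linarith)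
    rcases hs.eq_or_lt with rfl | hs'
    · nlinarith
    · nlinarith [pow_pos hs' 3]

theorem inv_le {l g : ℝ} (hl : 0 < l) (hg : l + l⁻¹ - 2 ≤ g) : |l⁻¹ - 1| ≤ √g + g :=
  one_le (inv_pos.2 hl) (by rw [inv_inv]; linarith)

theorem conv {x y M co si : ℝ} (h : co ^ 2 + si ^ 2 = 1) (hx : |x| ≤ M) (hy : |y| ≤ M) :
    |x * co ^ 2 + y * si ^ 2| ≤ M := by
  rw [abs_le] at *
  constructor <;> nlinarith [sq_nonneg co, sq_nonneg si]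

theorem off {x y M co si : ℝ} (h : co ^ 2 + si ^ 2 = 1) (hx : |x| ≤ M) (hy : |y| ≤ M) :
    |(x - y) * co * si| ≤ M := by
  have h1 : |x - y| ≤ 2 * M := (abs_sub x y).trans (by linarith)
  have h2 : |co * si| ≤ 1 / 2 := by
    rw [abs_le]; constructor <;> nlinarith [sq_nonneg (co + si), sq_nonneg (co - si)]
  rw [mul_assoc, abs_mul]
  have := mul_le_mul h1 h2 (abs_nonneg _) ((abs_nonneg _).trans h1)
  linarith

theorem det_eq {l₁ l₂ co si : ℝ} (h : co ^ 2 + si ^ 2 = 1) :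
    (l₁ * co ^ 2 + l₂ * si ^ 2) * (l₁ * si ^ 2 + l₂ * co ^ 2) - ((l₁ - l₂) * co * si) ^ 2 =
      l₁ * l₂ := by
  linear_combination (l₁ * l₂ * (co ^ 2 + si ^ 2 + 1)) * h

theorem gx_eq {l₁ l₂ co si : ℝ} (h1 : 0 < l₁) (h2 : 0 < l₂) (h : co ^ 2 + si ^ 2 = 1) :
    gx (l₁ * co ^ 2 + l₂ * si ^ 2) ((l₁ - l₂) * co * si) (l₁ * si ^ 2 + l₂ * co ^ 2) =
      (l₁ + l₁⁻¹ - 2) + (l₂ + l₂⁻¹ - 2) := by
  have e : l₁ * co ^ 2 + l₂ * si ^ 2 + (l₁ * si ^ 2 + l₂ * co ^ 2) = l₁ + l₂ := by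
    linear_combination (l₁ + l₂) * h
  rw [gx, det_eq h, e]
  field_simp
  ring

theorem qi_eq {l₁ l₂ co si : ℝ} (h1 : 0 < l₁) (h2 : 0 < l₂) (h : co ^ 2 + si ^ 2 = 1)
    (q : ℝ × ℝ) :
    qi (l₁ * co ^ 2 + l₂ * si ^ 2) ((l₁ - l₂) * co * si) (l₁ * si ^ 2 + l₂ * co ^ 2) q =
      l₁⁻¹ * (co * q.1 + si * q.2) ^ 2 + l₂⁻¹ * (co * q.2 - si * q.1) ^ 2 := by
  rw [qi, det_eq h]
  field_simp
  ring

theorem part1 (a b c : ℝ) (ha : 0 < a) (hd : 0 < a * c - b ^ 2) : 0 ≤ gx a b c ∧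
    (|a - 1| ≤ √(gx a b c) + gx a b c ∧ |b| ≤ √(gx a b c) + gx a b c ∧
      |c - 1| ≤ √(gx a b c) + gx a b c) ∧
    (|c / (a * c - b ^ 2) - 1| ≤ √(gx a b c) + gx a b c ∧
      |b / (a * c - b ^ 2)| ≤ √(gx a b c) + gx a b c ∧
      |a / (a * c - b ^ 2) - 1| ≤ √(gx a b c) + gx a b c) ∧
    (|c / (a * c - b ^ 2) - 1 + (a - 1)| ≤ gx a b c ∧ |-b / (a * c - b ^ 2) + b| ≤ gx a b c ∧
      |a / (a * c - b ^ 2) - 1 + (c - 1)| ≤ gx a b c) ∧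
    (∀ p q : ℝ × ℝ, ((c / (a * c - b ^ 2) - 1) * p.1 * q.1 +
        -b / (a * c - b ^ 2) * (p.1 * q.2 + p.2 * q.1) + (a / (a * c - b ^ 2) - 1) * p.2 * q.2) ^ 2 ≤
      gx a b c * (p.1 ^ 2 + p.2 ^ 2) * qi a b c q) ∧
    (∀ q : ℝ × ℝ, q.1 ^ 2 + q.2 ^ 2 ≤ (1 + √(gx a b c)) ^ 2 * qi a b c q) ∧
    (∀ q : ℝ × ℝ, 0 ≤ qi a b c q ∧ qi a b c q ≤ (2 + 2 * gx a b c) * (q.1 ^ 2 + q.2 ^ 2)) := by
  obtain ⟨l₁, l₂, co, si, h1, h2, h, rfl, rfl, rfl⟩ := diag ha hd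
  have g1 := g_nonneg h1
  have g2 := g_nonneg h2
  simp only [qi_eq h1 h2 h]
  rw [gx_eq h1 h2 h, det_eq h]
  have eA : (l₁ * si ^ 2 + l₂ * co ^ 2) / (l₁ * l₂) = l₁⁻¹ * co ^ 2 + l₂⁻¹ * si ^ 2 := by
    field_simp; ring
  have eC : (l₁ * co ^ 2 + l₂ * si ^ 2) / (l₁ * l₂) = l₂⁻¹ * co ^ 2 + l₁⁻¹ * si ^ 2 := by
    field_simp
  have eB : (l₁ - l₂) * co * si / (l₁ * l₂) = (l₂⁻¹ - l₁⁻¹) * co * si := by
    field_simp
  have eB' : -((l₁ - l₂) * co * si) / (l₁ * l₂) = (l₁⁻¹ - l₂⁻¹) * co * si := by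
    rw [neg_div, eB]; ring
  rw [eA, eB, eC, eB']
  obtain ⟨g, hg⟩ : ∃ g, g = (l₁ + l₁⁻¹ - 2) + (l₂ + l₂⁻¹ - 2) := ⟨_, rfl⟩
  rw [← hg]
  have k1 : l₁ + l₁⁻¹ - 2 ≤ g := by linarith
  have k2 : l₂ + l₂⁻¹ - 2 ≤ g := by linarith
  have h0 : 0 ≤ g := by linarith
  have a1 := one_le h1 k1
  have a2 := one_le h2 k2
  have b1 := inv_le h1 k1
  have b2 := inv_le h2 k2
  have c1 : |l₁ + l₁⁻¹ - 2| ≤ g := by rwa [abs_of_nonneg g1]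
  have c2 : |l₂ + l₂⁻¹ - 2| ≤ g := by rwa [abs_of_nonneg g2]
  have i1 : l₁ * l₁⁻¹ = 1 := mul_inv_cancel₀ h1.ne'
  have i2 : l₂ * l₂⁻¹ = 1 := mul_inv_cancel₀ h2.ne'
  have j1 : 0 < l₁⁻¹ := inv_pos.2 h1
  have j2 : 0 < l₂⁻¹ := inv_pos.2 h2
  generalize l₁⁻¹ = m₁ at *
  generalize l₂⁻¹ = m₂ at *
  refine ⟨h0, ⟨?_, ?_, ?_⟩, ⟨?_, ?_, ?_⟩, ⟨?_, ?_, ?_⟩, fun p q => ?_, fun q => ?_, fun q => ?_⟩
  · convert conv h a1 a2 using 2; linear_combination h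
  · convert off h a1 a2 using 2; ring
  · convert conv h a2 a1 using 2; linear_combination h
  · convert conv h b1 b2 using 2; linear_combination h
  · convert off h b2 b1 using 2; ring
  · convert conv h b2 b1 using 2; linear_combination h
  · convert conv h c1 c2 using 2; linear_combination 2 * h
  · convert off h c1 c2 using 2; ring
  · convert conv h c2 c1 using 2; linear_combination 2 * h
  · have e1 : (m₁ * co ^ 2 + m₂ * si ^ 2 - 1) * p.1 * q.1 +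
        (m₁ - m₂) * co * si * (p.1 * q.2 + p.2 * q.1) +
        (m₂ * co ^ 2 + m₁ * si ^ 2 - 1) * p.2 * q.2 =
        (m₁ - 1) * (co * p.1 + si * p.2) * (co * q.1 + si * q.2) +
          (m₂ - 1) * (co * p.2 - si * p.1) * (co * q.2 - si * q.1) := by
      linear_combination (p.1 * q.1 + p.2 * q.2) * h
    have e2 : p.1 ^ 2 + p.2 ^ 2 = (co * p.1 + si * p.2) ^ 2 + (co * p.2 - si * p.1) ^ 2 := by
      linear_combination (-(p.1 ^ 2 + p.2 ^ 2)) * h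
    rw [e1, e2]
    generalize co * p.1 + si * p.2 = p₁
    generalize co * p.2 - si * p.1 = p₂
    generalize co * q.1 + si * q.2 = q₁
    generalize co * q.2 - si * q.1 = q₂
    have f1 : (m₁ - 1) ^ 2 = (l₁ + m₁ - 2) * m₁ := by linear_combination -i1
    have f2 : (m₂ - 1) ^ 2 = (l₂ + m₂ - 2) * m₂ := by linear_combination -i2
    have s1 : ((m₁ - 1) * p₁ * q₁ + (m₂ - 1) * p₂ * q₂) ^ 2 ≤
        (p₁ ^ 2 + p₂ ^ 2) * ((m₁ - 1) ^ 2 * q₁ ^ 2 + (m₂ - 1) ^ 2 * q₂ ^ 2) := by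
      nlinarith [sq_nonneg (p₁ * ((m₂ - 1) * q₂) - p₂ * ((m₁ - 1) * q₁))]
    have s2 : (m₁ - 1) ^ 2 * q₁ ^ 2 + (m₂ - 1) ^ 2 * q₂ ^ 2 ≤ g * (m₁ * q₁ ^ 2 + m₂ * q₂ ^ 2) := by
      rw [f1, f2]
      have t1 := mul_le_mul_of_nonneg_right k1 (mul_nonneg j1.le (sq_nonneg q₁))
      have t2 := mul_le_mul_of_nonneg_right k2 (mul_nonneg j2.le (sq_nonneg q₂))
      linarith
    have s3 := mul_le_mul_of_nonneg_left s2 (add_nonneg (sq_nonneg p₁) (sq_nonneg p₂))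
    linarith
  · have e2 : q.1 ^ 2 + q.2 ^ 2 = (co * q.1 + si * q.2) ^ 2 + (co * q.2 - si * q.1) ^ 2 := by
      linear_combination (-(q.1 ^ 2 + q.2 ^ 2)) * h
    rw [e2]
    generalize co * q.1 + si * q.2 = q₁
    generalize co * q.2 - si * q.1 = q₂
    have hs := Real.sqrt_nonneg g
    have hq := Real.sq_sqrt h0
    have u1 : l₁ ≤ (1 + √g) ^ 2 := by have := (abs_le.1 a1).2; nlinarith
    have u2 : l₂ ≤ (1 + √g) ^ 2 := by have := (abs_le.1 a2).2; nlinarith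
    have t1 := mul_le_mul_of_nonneg_right u1 (mul_nonneg j1.le (sq_nonneg q₁))
    have t2 := mul_le_mul_of_nonneg_right u2 (mul_nonneg j2.le (sq_nonneg q₂))
    have v1 : l₁ * (m₁ * q₁ ^ 2) = q₁ ^ 2 := by linear_combination q₁ ^ 2 * i1
    have v2 : l₂ * (m₂ * q₂ ^ 2) = q₂ ^ 2 := by linear_combination q₂ ^ 2 * i2
    linarith
  · have e2 : q.1 ^ 2 + q.2 ^ 2 = (co * q.1 + si * q.2) ^ 2 + (co * q.2 - si * q.1) ^ 2 := by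
      linear_combination (-(q.1 ^ 2 + q.2 ^ 2)) * h
    rw [e2]
    generalize co * q.1 + si * q.2 = q₁
    generalize co * q.2 - si * q.1 = q₂
    refine ⟨by positivity, ?_⟩
    have u1 : m₁ ≤ 2 + 2 * g := by linarith
    have u2 : m₂ ≤ 2 + 2 * g := by linarith
    have t1 := mul_le_mul_of_nonneg_right u1 (sq_nonneg q₁)
    have t2 := mul_le_mul_of_nonneg_right u2 (sq_nonneg q₂)
    linarith

theorem step {l m n κ : ℝ} (hl : 0 < l) (hκ : κ ≤ 1 / 4) (hm : |m - 1| ≤ κ) (hn : |n - 1| ≤ κ) :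
    l * m + n * l⁻¹ - 2 ≤ 2 * (l + l⁻¹ - 2) + 2 * κ ^ 2 + (m + n - 2) := by
  have g0 := g_nonneg hl
  have a1 := one_le hl le_rfl
  have b1 := inv_le hl le_rfl
  have hs := Real.sqrt_nonneg (l + l⁻¹ - 2)
  have hq := Real.sq_sqrt g0
  have k0 : 0 ≤ κ := (abs_nonneg _).trans hm
  have t1 : (m - 1) * (l - 1) ≤ κ * (√(l + l⁻¹ - 2) + (l + l⁻¹ - 2)) := by
    refine (le_abs_self _).trans ?_
    rw [abs_mul]; exact mul_le_mul hm a1 (abs_nonneg _) k0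
  have t2 : (n - 1) * (l⁻¹ - 1) ≤ κ * (√(l + l⁻¹ - 2) + (l + l⁻¹ - 2)) := by
    refine (le_abs_self _).trans ?_
    rw [abs_mul]; exact mul_le_mul hn b1 (abs_nonneg _) k0
  have t3 := mul_le_mul_of_nonneg_right hκ g0
  generalize √(l + l⁻¹ - 2) = s at *
  nlinarith [sq_nonneg (s - 2 * κ)]

theorem near0 {m v D η : ℝ} (h0 : 0 ≤ η) (hη : η ≤ 1 / 50) (D1 : 95 / 100 ≤ D)
    (m1 : |m - 1| ≤ 21 / 10 * η) (v1 : |v| ≤ 21 / 10 * η) :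
    |m⁻¹ + v ^ 2 / (m * D ^ 2) - 1| ≤ 3 * η ∧
      m + (m⁻¹ + v ^ 2 / (m * D ^ 2)) - 2 ≤ 20 * η ^ 2 := by
  have m2 := abs_le.1 m1
  have m0 : 95 / 100 ≤ m := by linarith
  have D2 : 9 / 10 ≤ D ^ 2 := by nlinarith
  have v2 : v ^ 2 ≤ (21 / 10 * η) ^ 2 := by
    rw [← sq_abs]; exact pow_le_pow_left₀ (abs_nonneg _) v1 2
  have m3 : (m - 1) ^ 2 ≤ (21 / 10 * η) ^ 2 := by
    rw [← sq_abs]; exact pow_le_pow_left₀ (abs_nonneg _) m1 2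
  have mp : 0 < m := by linarith
  have Dp : 0 < D := by linarith
  have p0 : 0 < m * D ^ 2 := by positivity
  have p1 : 4 / 5 ≤ m * D ^ 2 := by
    have := mul_le_mul m0 D2 (by norm_num) mp.le
    linarith
  have r0 : 0 ≤ v ^ 2 / (m * D ^ 2) := by positivity
  have e0 := sq_nonneg η
  have r1 : v ^ 2 / (m * D ^ 2) ≤ 6 * η ^ 2 := by
    rw [div_le_iff₀ p0]
    have := mul_le_mul_of_nonneg_left p1 e0
    linarith
  have r2 : m + m⁻¹ - 2 ≤ 6 * η ^ 2 := by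
    have : m + m⁻¹ - 2 = (m - 1) ^ 2 / m := by field_simp; ring
    rw [this, div_le_iff₀ mp]
    have := mul_le_mul_of_nonneg_left m0 e0
    linarith
  have r3 := g_nonneg mp
  have r4 : η ^ 2 ≤ η / 50 := by
    have := mul_le_mul_of_nonneg_left hη h0
    linarith
  refine ⟨?_, by linarith⟩
  rw [abs_le]
  constructor <;> linarith

theorem near {x y z w η : ℝ} (hη : η ≤ 1 / 50) (hx : |x| ≤ η) (hy : |y| ≤ η) (hz : |z| ≤ η)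
    (hw : |w| ≤ η) : |(1 + x) ^ 2 + y ^ 2 - 1| ≤ 3 * η ∧
      |(z ^ 2 + (1 + w) ^ 2) / ((1 + x) * (1 + w) - y * z) ^ 2 - 1| ≤ 3 * η ∧
      (1 + x) ^ 2 + y ^ 2 + (z ^ 2 + (1 + w) ^ 2) / ((1 + x) * (1 + w) - y * z) ^ 2 - 2 ≤
        20 * η ^ 2 ∧ 0 < (1 + x) * (1 + w) - y * z := by
  have h0 : 0 ≤ η := (abs_nonneg _).trans hx
  have sq : ∀ u v : ℝ, |u| ≤ η → |v| ≤ η → |u * v| ≤ η / 50 := fun u v hu hv => by
    rw [abs_mul]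
    have := mul_le_mul hu (hv.trans hη) (abs_nonneg _) h0
    linarith
  have xx := abs_le.1 (sq x x hx hx)
  have yy := abs_le.1 (sq y y hy hy)
  have xw := abs_le.1 (sq x w hx hw)
  have yz := abs_le.1 (sq y z hy hz)
  have xz := abs_le.1 (sq x z hx hz)
  have yw := abs_le.1 (sq y w hy hw)
  have hx' := abs_le.1 hx
  have hy' := abs_le.1 hy
  have hz' := abs_le.1 hz
  have hw' := abs_le.1 hw
  have D1 : 95 / 100 ≤ (1 + x) * (1 + w) - y * z := by linarith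
  have m1 : |(1 + x) ^ 2 + y ^ 2 - 1| ≤ 21 / 10 * η := by
    rw [abs_le]; constructor <;> linarith
  have v1 : |(1 + x) * z + y * (1 + w)| ≤ 21 / 10 * η := by
    rw [abs_le]; constructor <;> linarith
  have e0 : ((1 + x) ^ 2 + y ^ 2) * (z ^ 2 + (1 + w) ^ 2) =
      ((1 + x) * (1 + w) - y * z) ^ 2 + ((1 + x) * z + y * (1 + w)) ^ 2 := by ring
  have k := near0 h0 hη D1 m1 v1
  have m0 : 0 < (1 + x) ^ 2 + y ^ 2 := by linarith [(abs_le.1 m1).1]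
  clear xx yy xw yz xz yw hx' hy' hz' hw' sq hx hy hz hw
  generalize (1 + x) * (1 + w) - y * z = D at D1 e0 k ⊢
  generalize (1 + x) ^ 2 + y ^ 2 = m at m1 e0 k m0 ⊢
  generalize (1 + x) * z + y * (1 + w) = v at e0 k
  generalize z ^ 2 + (1 + w) ^ 2 = N at e0 ⊢
  have e : N / D ^ 2 = m⁻¹ + v ^ 2 / (m * D ^ 2) := by
    have hm0 : m ≠ 0 := m0.ne'
    have hD0 : D ≠ 0 := by linarith
    field_simp
    linear_combination e0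
  rw [e]
  exact ⟨m1.trans (by linarith), k.1, k.2, by linarith⟩

theorem fin {l₁ l₂ x y z w γ : ℝ} (h1 : 0 < l₁) (h2 : 0 < l₂) (hγ : γ ≤ 1 / 100)
    (hx : |x| ≤ 2 * γ) (hy : |y| ≤ 2 * γ) (hz : |z| ≤ 2 * γ) (hw : |w| ≤ 2 * γ) :
    l₁ * ((1 + x) ^ 2 + y ^ 2) + l₂ * (z ^ 2 + (1 + w) ^ 2) +
      (l₁ * ((1 + x) ^ 2 + y ^ 2) + l₂ * (z ^ 2 + (1 + w) ^ 2)) /
        (l₁ * l₂ * ((1 + x) * (1 + w) - y * z) ^ 2) - 4 ≤
      2 * ((l₁ + l₁⁻¹ - 2) + (l₂ + l₂⁻¹ - 2)) + 1000 * γ ^ 2 := by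
  obtain ⟨n1, n2, n3, n0⟩ := near (η := 2 * γ) (by linarith) hx hy hz hw
  obtain ⟨o1, o2, o3, -⟩ := near (η := 2 * γ) (by linarith) hw hz hy hx
  have c1 : (1 + w) * (1 + x) - z * y = (1 + x) * (1 + w) - y * z := by ring
  rw [c1, add_comm (y ^ 2)] at o2 o3
  rw [add_comm ((1 + w) ^ 2)] at o1 o3
  clear c1 hx hy hz hw
  generalize (1 + x) * (1 + w) - y * z = D at n0 n2 n3 o2 o3 ⊢
  generalize (1 + x) ^ 2 + y ^ 2 = M₁ at n1 n3 o2 o3 ⊢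
  generalize z ^ 2 + (1 + w) ^ 2 = M₂ at n2 n3 o1 o3 ⊢
  have s1 := step h1 (κ := 3 * (2 * γ)) (by linarith) n1 n2
  have s2 := step h2 (κ := 3 * (2 * γ)) (by linarith) o1 o2
  have e : (l₁ * M₁ + l₂ * M₂) / (l₁ * l₂ * D ^ 2) = M₂ / D ^ 2 * l₁⁻¹ + M₁ / D ^ 2 * l₂⁻¹ := by
    field_simp; ring
  rw [e]
  have := sq_nonneg γ
  linarith

theorem rot {e₁₁ e₁₂ e₂₁ e₂₂ γ u₁ u₂ v₁ v₂ : ℝ} (hu : u₁ ^ 2 + u₂ ^ 2 = 1)
    (hv : v₁ ^ 2 + v₂ ^ 2 = 1) (h11 : |e₁₁| ≤ γ) (h12 : |e₁₂| ≤ γ) (h21 : |e₂₁| ≤ γ)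
    (h22 : |e₂₂| ≤ γ) :
    |u₁ * e₁₁ * v₁ + u₁ * e₁₂ * v₂ + u₂ * e₂₁ * v₁ + u₂ * e₂₂ * v₂| ≤ 2 * γ := by
  have h0 : 0 ≤ γ := (abs_nonneg _).trans h11
  have t : ∀ e p q : ℝ, |e| ≤ γ → |p * e * q| ≤ γ * ((p ^ 2 + q ^ 2) / 2) := fun e p q he => by
    have : |p * q| ≤ (p ^ 2 + q ^ 2) / 2 := by
      rw [abs_le]; constructor <;> nlinarith [sq_nonneg (p + q), sq_nonneg (p - q)]
    rw [show p * e * q = e * (p * q) by ring, abs_mul]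
    exact mul_le_mul he this (abs_nonneg _) h0
  have t1 := abs_le.1 (t _ u₁ v₁ h11)
  have t2 := abs_le.1 (t _ u₁ v₂ h12)
  have t3 := abs_le.1 (t _ u₂ v₁ h21)
  have t4 := abs_le.1 (t _ u₂ v₂ h22)
  have e : γ * ((u₁ ^ 2 + v₁ ^ 2) / 2) + γ * ((u₁ ^ 2 + v₂ ^ 2) / 2) +
      γ * ((u₂ ^ 2 + v₁ ^ 2) / 2) + γ * ((u₂ ^ 2 + v₂ ^ 2) / 2) = 2 * γ := by
    linear_combination γ * hu + γ * hv
  rw [abs_le]
  constructor <;> linarith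

theorem part2 (a b c s₁₁ s₁₂ s₂₁ s₂₂ γ : ℝ) (ha : 0 < a) (hd : 0 < a * c - b ^ 2)
    (hγ : γ ≤ 1 / 100) (h11 : |s₁₁ - 1| ≤ γ) (h12 : |s₁₂| ≤ γ) (h21 : |s₂₁| ≤ γ)
    (h22 : |s₂₂ - 1| ≤ γ) :
    gx (qx a b c (s₁₁, s₂₁))
      (a * s₁₁ * s₁₂ + b * (s₁₁ * s₂₂ + s₂₁ * s₁₂) + c * s₂₁ * s₂₂) (qx a b c (s₁₂, s₂₂)) ≤
      2 * gx a b c + 1000 * γ ^ 2 := by
  obtain ⟨l₁, l₂, co, si, h1, h2, h, rfl, rfl, rfl⟩ := diag ha hd
  have h' : (-si) ^ 2 + co ^ 2 = 1 := by linear_combination h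
  have hx := rot h h h11 h12 h21 h22
  have hy := rot h h' h11 h12 h21 h22
  have hz := rot h' h h11 h12 h21 h22
  have hw := rot h' h' h11 h12 h21 h22
  obtain ⟨x, ex⟩ : ∃ x, x = co * (s₁₁ - 1) * co + co * s₁₂ * si + si * s₂₁ * co +
    si * (s₂₂ - 1) * si := ⟨_, rfl⟩
  obtain ⟨y, ey⟩ : ∃ y, y = co * (s₁₁ - 1) * -si + co * s₁₂ * co + si * s₂₁ * -si +
    si * (s₂₂ - 1) * co := ⟨_, rfl⟩
  obtain ⟨z, ez⟩ : ∃ z, z = -si * (s₁₁ - 1) * co + -si * s₁₂ * si + co * s₂₁ * co +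
    co * (s₂₂ - 1) * si := ⟨_, rfl⟩
  obtain ⟨w, ew⟩ : ∃ w, w = -si * (s₁₁ - 1) * -si + -si * s₁₂ * co + co * s₂₁ * -si +
    co * (s₂₂ - 1) * co := ⟨_, rfl⟩
  rw [← ex] at hx
  rw [← ey] at hy
  rw [← ez] at hz
  rw [← ew] at hw
  obtain ⟨t₁₁, e11⟩ : ∃ t, t = co * s₁₁ + si * s₂₁ := ⟨_, rfl⟩
  obtain ⟨t₁₂, e12⟩ : ∃ t, t = co * s₁₂ + si * s₂₂ := ⟨_, rfl⟩
  obtain ⟨t₂₁, e21⟩ : ∃ t, t = co * s₂₁ - si * s₁₁ := ⟨_, rfl⟩
  obtain ⟨t₂₂, e22⟩ : ∃ t, t = co * s₂₂ - si * s₁₂ := ⟨_, rfl⟩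
  have fx : 1 + x = t₁₁ * co + t₁₂ * si := by rw [ex, e11, e12]; linear_combination -h
  have fy : y = t₁₂ * co - t₁₁ * si := by rw [ey, e11, e12]; ring
  have fz : z = t₂₁ * co + t₂₂ * si := by rw [ez, e21, e22]; ring
  have fw : 1 + w = t₂₂ * co - t₂₁ * si := by rw [ew, e21, e22]; linear_combination -h
  have m1 : t₁₁ ^ 2 + t₁₂ ^ 2 = (1 + x) ^ 2 + y ^ 2 := by
    rw [fx, fy]; linear_combination (-(t₁₁ ^ 2 + t₁₂ ^ 2)) * h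
  have m2 : t₂₁ ^ 2 + t₂₂ ^ 2 = z ^ 2 + (1 + w) ^ 2 := by
    rw [fz, fw]; linear_combination (-(t₂₁ ^ 2 + t₂₂ ^ 2)) * h
  have dD : t₁₁ * t₂₂ - t₁₂ * t₂₁ = (1 + x) * (1 + w) - y * z := by
    rw [fx, fw, fy, fz]; linear_combination (-(t₁₁ * t₂₂ - t₁₂ * t₂₁)) * h
  have q1 : qx (l₁ * co ^ 2 + l₂ * si ^ 2) ((l₁ - l₂) * co * si) (l₁ * si ^ 2 + l₂ * co ^ 2)
      (s₁₁, s₂₁) = l₁ * t₁₁ ^ 2 + l₂ * t₂₁ ^ 2 := by rw [qx, e11, e21]; ring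
  have q2 : qx (l₁ * co ^ 2 + l₂ * si ^ 2) ((l₁ - l₂) * co * si) (l₁ * si ^ 2 + l₂ * co ^ 2)
      (s₁₂, s₂₂) = l₁ * t₁₂ ^ 2 + l₂ * t₂₂ ^ 2 := by rw [qx, e12, e22]; ring
  have q3 : (l₁ * co ^ 2 + l₂ * si ^ 2) * s₁₁ * s₁₂ +
      (l₁ - l₂) * co * si * (s₁₁ * s₂₂ + s₂₁ * s₁₂) + (l₁ * si ^ 2 + l₂ * co ^ 2) * s₂₁ * s₂₂ =
      l₁ * t₁₁ * t₁₂ + l₂ * t₂₁ * t₂₂ := by rw [e11, e12, e21, e22]; ring
  rw [q1, q2, q3, gx_eq h1 h2 h, gx]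
  have d1 : (l₁ * t₁₁ ^ 2 + l₂ * t₂₁ ^ 2) * (l₁ * t₁₂ ^ 2 + l₂ * t₂₂ ^ 2) -
      (l₁ * t₁₁ * t₁₂ + l₂ * t₂₁ * t₂₂) ^ 2 = l₁ * l₂ * ((1 + x) * (1 + w) - y * z) ^ 2 := by
    rw [← dD]; ring
  have d2 : l₁ * t₁₁ ^ 2 + l₂ * t₂₁ ^ 2 + (l₁ * t₁₂ ^ 2 + l₂ * t₂₂ ^ 2) =
      l₁ * ((1 + x) ^ 2 + y ^ 2) + l₂ * (z ^ 2 + (1 + w) ^ 2) := by
    rw [← m1, ← m2]; ring
  rw [d1, d2]
  exact fin h1 h2 hγ hx hy hz hw

theorem cs {a b c : ℝ} (hd : 0 < a * c - b ^ 2) (n e : ℝ × ℝ) :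
    (n.1 * e.1 + n.2 * e.2) ^ 2 ≤ qi a b c n * qx a b c e := by
  rw [qi, qx, div_mul_eq_mul_div, le_div_iff₀ hd]
  nlinarith [sq_nonneg (n.2 * (a * e.1 + b * e.2) - n.1 * (b * e.1 + c * e.2))]

theorem qx_nonneg {a b c : ℝ} (ha : 0 < a) (hd : 0 < a * c - b ^ 2) (e : ℝ × ℝ) :
    0 ≤ qx a b c e := by
  have : a * qx a b c e = (a * e.1 + b * e.2) ^ 2 + (a * c - b ^ 2) * e.2 ^ 2 := by rw [qx]; ring
  have h2 : 0 ≤ a * qx a b c e := by rw [this]; positivity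
  exact nonneg_of_mul_nonneg_right h2 ha |> fun h => h

theorem cancel {x y : ℝ} (hx : 0 ≤ x) (hy : 0 ≤ y) (h : x ^ 2 ≤ x * y) : x ≤ y := by
  rcases hx.eq_or_lt with rfl | hx'
  · exact hy
  · exact le_of_mul_le_mul_left (by nlinarith) hx'

theorem part3 (a b c a' b' c' μ : ℝ) (ha : 0 < a) (hd : 0 < a * c - b ^ 2) (ha' : 0 < a')
    (hd' : 0 < a' * c' - b' ^ 2) :
    (∀ n, qi a b c n ≤ μ * qi a' b' c' n) ↔ ∀ e, qx a' b' c' e ≤ μ * qx a b c e := by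
  have qin := fun n => ((part1 a b c ha hd).2.2.2.2.2.2 n).1
  have qin' := fun n => ((part1 a' b' c' ha' hd').2.2.2.2.2.2 n).1
  constructor
  · intro h e
    have hμ : 0 ≤ μ := by
      have h1 := h (0, 1)
      have h2 : 0 < qi a b c (0, 1) := by simp only [qi]; apply div_pos _ hd; simpa using ha
      by_contra hn
      have := mul_nonpos_of_nonpos_of_nonneg (not_le.1 hn).le (qin' (0, 1))
      linarith
    have h1 := cs hd (a' * e.1 + b' * e.2, b' * e.1 + c' * e.2) e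
    have h2 := h (a' * e.1 + b' * e.2, b' * e.1 + c' * e.2)
    have h3 : qi a' b' c' (a' * e.1 + b' * e.2, b' * e.1 + c' * e.2) = qx a' b' c' e := by
      rw [qi, qx, div_eq_iff hd'.ne']; ring
    have h4 : (a' * e.1 + b' * e.2) * e.1 + (b' * e.1 + c' * e.2) * e.2 = qx a' b' c' e := by
      rw [qx]; ring
    rw [h3] at h2
    simp only [h4] at h1
    have h5 := mul_le_mul_of_nonneg_right h2 (qx_nonneg ha hd e)
    refine cancel (qx_nonneg ha' hd' e) (mul_nonneg hμ (qx_nonneg ha hd e)) ?_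
    linarith
  · intro h n
    have hμ : 0 ≤ μ := by
      have h1 := h (1, 0)
      simp only [qx] at h1
      by_contra hn
      have := mul_nonpos_of_nonpos_of_nonneg (not_le.1 hn).le ha.le
      nlinarith
    have hd0 := hd.ne'
    have h1 := cs hd' n ((c * n.1 - b * n.2) / (a * c - b ^ 2),
      (a * n.2 - b * n.1) / (a * c - b ^ 2))
    have h2 := h ((c * n.1 - b * n.2) / (a * c - b ^ 2), (a * n.2 - b * n.1) / (a * c - b ^ 2))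
    have h3 : qx a b c ((c * n.1 - b * n.2) / (a * c - b ^ 2),
        (a * n.2 - b * n.1) / (a * c - b ^ 2)) = qi a b c n := by
      rw [qi, qx]; field_simp; ring
    have h4 : n.1 * ((c * n.1 - b * n.2) / (a * c - b ^ 2)) +
        n.2 * ((a * n.2 - b * n.1) / (a * c - b ^ 2)) = qi a b c n := by
      rw [qi]; field_simp; ring
    rw [h3] at h2
    simp only [h4] at h1
    have h5 := mul_le_mul_of_nonneg_left h2 (qin' n)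
    refine cancel (qin n) (mul_nonneg hμ (qin' n)) ?_
    linarith

theorem part4 (a b c δ : ℝ) (hd : 0 < a * c - b ^ 2) (hδ : δ ≤ 1 / 10)
    (h1 : |c / (a * c - b ^ 2) - 1| ≤ δ) (h2 : |b / (a * c - b ^ 2)| ≤ δ)
    (h3 : |a / (a * c - b ^ 2) - 1| ≤ δ) : |a - 1| ≤ 4 * δ ∧ |b| ≤ 4 * δ ∧ |c - 1| ≤ 4 * δ := by
  have hd0 := hd.ne'
  obtain ⟨A, hA⟩ : ∃ A, A = c / (a * c - b ^ 2) := ⟨_, rfl⟩
  obtain ⟨B, hB⟩ : ∃ B, B = b / (a * c - b ^ 2) := ⟨_, rfl⟩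
  obtain ⟨C, hC⟩ : ∃ C, C = a / (a * c - b ^ 2) := ⟨_, rfl⟩
  have fa : A * (a * c - b ^ 2) = c := by rw [hA]; exact div_mul_cancel₀ _ hd0
  have fb : B * (a * c - b ^ 2) = b := by rw [hB]; exact div_mul_cancel₀ _ hd0
  have fc : C * (a * c - b ^ 2) = a := by rw [hC]; exact div_mul_cancel₀ _ hd0
  have fd : (A * C - B ^ 2) * (a * c - b ^ 2) = 1 := by
    apply mul_right_cancel₀ hd0
    linear_combination (C * (a * c - b ^ 2)) * fa + c * fc - (B * (a * c - b ^ 2) + b) * fb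
  have ea : (a - 1) * (A * C - B ^ 2) = C * (1 - A) + B ^ 2 := by
    linear_combination C * fd - (A * C - B ^ 2) * fc
  have eb : b * (A * C - B ^ 2) = B := by linear_combination B * fd - (A * C - B ^ 2) * fb
  have ec : (c - 1) * (A * C - B ^ 2) = A * (1 - C) + B ^ 2 := by
    linear_combination A * fd - (A * C - B ^ 2) * fa
  rw [← hA] at h1
  rw [← hB] at h2
  rw [← hC] at h3
  have h0 : 0 ≤ δ := (abs_nonneg _).trans h1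
  have k1 := abs_le.1 h1
  have k2 := abs_le.1 h2
  have k3 := abs_le.1 h3
  have b2 : B ^ 2 ≤ δ / 10 := by nlinarith
  have d1 : 4 / 5 ≤ A * C - B ^ 2 := by nlinarith
  have key : ∀ u v : ℝ, u * (A * C - B ^ 2) = v → |v| ≤ 2 * δ → |u| ≤ 4 * δ := by
    intro u v e hv
    rw [← e, abs_mul, abs_of_nonneg (by linarith : 0 ≤ A * C - B ^ 2)] at hv
    have := mul_le_mul_of_nonneg_left d1 (abs_nonneg u)
    linarith
  refine ⟨key _ _ ea ?_, key _ _ eb (by linarith), key _ _ ec ?_⟩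
  · rw [abs_le]; constructor <;> nlinarith [sq_nonneg B]
  · rw [abs_le]; constructor <;> nlinarith [sq_nonneg B]

theorem part5 (p q r p' q' r' k : ℝ) (h : ∀ n : ℝ × ℝ, |qx p' q' r' n| ≤ k * qx p q r n)
    (n n' : ℝ × ℝ) : (p' * n.1 * n'.1 + q' * (n.1 * n'.2 + n.2 * n'.1) + r' * n.2 * n'.2) ^ 2 ≤
      k ^ 2 * qx p q r n * qx p q r n' := by
  have h1 : ∀ t : ℝ, 0 ≤ (k * qx p q r n') * (t * t) +
      (-2 * (p' * n.1 * n'.1 + q' * (n.1 * n'.2 + n.2 * n'.1) + r' * n.2 * n'.2)) * t +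
      k * qx p q r n := by
    intro t
    have h2 := (abs_le.1 (h (n.1 + t * n'.1, n.2 + t * n'.2))).2
    have h3 := (abs_le.1 (h (n.1 - t * n'.1, n.2 - t * n'.2))).1
    simp only [qx] at h2 h3 ⊢
    linarith
  have h2 := discrim_le_zero h1
  rw [discrim] at h2
  linarith

end Alg

theorem alg_ok : StAlg :=
  ⟨Alg.part1, Alg.part2, Alg.part3, fun a b c δ _ => Alg.part4 a b c δ, Alg.part5⟩

end Pool.Agent.P.MP_2cea5e_gt.I
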