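import Pool.Agent.P.MP_2cea5e_gt.I.St2

/-!
Chapter I: the consequences of `GS0`.
-/

open scoped ContDiff Topology
open MeasureTheory Set Filter

noncomputable section

set_option linter.dupNamespace false

namespace Pool.Agent.P.MP_2cea5e_gt.I

namespace ApiP

/-- The derivative of the model. -/
def m1 (b : Bool) (x : ℝ) : ℝ := if b then Real.log x + 1 else x

theorem md_d {b : Bool} {x : ℝ} (h : x ∈ ok b) : HasDerivAt (md b) (m1 b x) x := by
  cases b
  · show HasDerivAt (fun x : ℝ => x ^ 2 / 2) x x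
    simpa using (hasDerivAt_pow 2 x).div_const 2
  · exact Real.hasDerivAt_mul_log (ne_of_gt h)

theorem m1_d {b : Bool} {x : ℝ} (h : x ∈ ok b) : HasDerivAt (m1 b) (om b x)⁻¹ x := by
  cases b
  · show HasDerivAt (fun x : ℝ => x) (1 : ℝ)⁻¹ x
    rw [inv_one]; exact hasDerivAt_id' x
  · exact (Real.hasDerivAt_log (ne_of_gt h)).add_const 1

theorem md_sm (b : Bool) : ContDiffOn ℝ ∞ (md b) (ok b) := by
  cases b
  · exact ((contDiff_id.pow 2).div_const 2).contDiffOn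
  · exact contDiffOn_id.mul (contDiffOn_id.log fun x hx => ne_of_gt hx)

theorem ok_comb {β : Bool} {z x a b : ℝ} (hz : z ∈ ok β) (hx : x ∈ okc β) (ha : 0 < a)
    (hb : 0 ≤ b) : a * z + b * x ∈ ok β := by
  cases β
  · trivial
  · exact add_pos_of_pos_of_nonneg (mul_pos ha hz) (mul_nonneg hb hx)

theorem c1_diff (p : X) : DifferentiableAt ℝ (fun q : X => q.2.1) p := by fun_prop
theorem c2_diff (p : X) : DifferentiableAt ℝ (fun q : X => q.2.2) p := by fun_prop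

theorem D_c1 (v p : X) : D v (fun q : X => q.2.1) p = v.2.1 := by
  have := congrFun (D_Li v 1 0) p
  simp only [K_apply, one_mul, zero_mul, add_zero] at this
  rw [← this]; congr 1; funext q; simp [Li]

theorem D_c2 (v p : X) : D v (fun q : X => q.2.2) p = v.2.2 := by
  have := congrFun (D_Li v 0 1) p
  simp only [K_apply, one_mul, zero_mul, zero_add] at this
  rw [← this]; congr 1; funext q; simp [Li]

theorem DD_o1 (τ : Ty) (v w : X) : D v (D w (o1 τ)) = 0 := by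
  have : D w (o1 τ) = K (if τ.1 then w.2.1 else 0) := by
    funext p
    obtain ⟨b, c⟩ := τ
    cases b
    · exact congrFun (D_K w 1) p
    · exact D_c1 w p
  rw [this, D_K]

theorem DD_o2 (τ : Ty) (v w : X) : D v (D w (o2 τ)) = 0 := by
  have : D w (o2 τ) = K (if τ.2 then w.2.2 else 0) := by
    funext p
    obtain ⟨b, c⟩ := τ
    cases c
    · exact congrFun (D_K w 1) p
    · exact D_c2 w p
  rw [this, D_K]

variable {d : Dm} {u : X → ℝ} {p : X}

theorem u0_sm (d : Dm) : ContDiffOn ℝ ∞ (u0 d.τ) d.U :=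
  ((md_sm _).comp (contDiff_fst.comp contDiff_snd).contDiffOn fun _ hp => hp.2.2.1).add
    ((md_sm _).comp (contDiff_snd.comp contDiff_snd).contDiffOn fun _ hp => hp.2.2.2)

theorem D_u0 (v : X) (hp : p ∈ d.U) :
    D v (u0 d.τ) p = m1 d.τ.1 p.2.1 * v.2.1 + m1 d.τ.2 p.2.2 * v.2.2 := by
  have a1 := md_d hp.2.2.1
  have a2 := md_d hp.2.2.2
  have := D_add_at v (p := p) (f := fun q : X => md d.τ.1 q.2.1)
    (g := fun q : X => md d.τ.2 q.2.2)
    (DifferentiableAt.comp (g := md d.τ.1) p a1.differentiableAt (c1_diff p))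
    (DifferentiableAt.comp (g := md d.τ.2) p a2.differentiableAt (c2_diff p))
  rw [D_comp_at v (f := fun q : X => q.2.1) a1 (c1_diff p),
    D_comp_at v (f := fun q : X => q.2.2) a2 (c2_diff p), D_c1, D_c2] at this
  exact this

theorem DD_sub {f g : X → ℝ} (hf : ContDiffOn ℝ ∞ f d.U) (hg : ContDiffOn ℝ ∞ g d.U) (v w : X)
    (hp : p ∈ d.U) : D v (D w (f - g)) p = D v (D w f) p - D v (D w g) p := by
  have hU := d.isOpen_U
  rw [← D_sub_at v (diffAt hU (smO_D hU w hf) hp) (diffAt hU (smO_D hU w hg) hp)]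
  exact D_congr hU v (fun q hq => D_sub_at w (diffAt hU hf hq) (diffAt hU hg hq)) hp

theorem sv_eq (e : ℝ × ℝ) : sv e = e.1 • e1 + e.2 • e2 := by
  ext <;> simp [sv, e1, e2]

theorem hqD (hs : ContDiffOn ℝ ∞ u d.U) (hp : p ∈ d.U) (e e' : ℝ × ℝ) :
    D (sv e) (D (sv e') u) p = hb u e e' p := by
  have hU := d.isOpen_U
  have d1 := diffAt hU (smO_D hU e1 hs) hp
  have d2 := diffAt hU (smO_D hU e2 hs) hp
  have dK : ∀ c, DifferentiableAt ℝ (K c) p := fun c => (sm_K c).diff p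
  have key : ∀ v, D v (D (sv e') u) p = e'.1 * D v (D e1 u) p + e'.2 * D v (D e2 u) p := by
    intro v
    rw [sv_eq, D_dir, D_add_at v ((dK _).mul d1) ((dK _).mul d2), D_mul_at v (dK _) d1,
      D_mul_at v (dK _) d2, D_K, D_K]
    simp
  rw [sv_eq e, D_lin, key, key, D_comm_on hU hs e2 e1 hp]
  simp only [hb, T2.ap, I.hs, h11, h12, h22]
  ring

variable (h : GS0 d u)
include h

theorem sm : ContDiffOn ℝ ∞ u d.U :=
  (h.bd.sm.add (u0_sm d)).congr fun p _ => by simp [wv]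

theorem qD (v : X) (hp : p ∈ d.U) :
    D v u p = D v (wv d.τ u) p + (m1 d.τ.1 p.2.1 * v.2.1 + m1 d.τ.2 p.2.2 * v.2.2) := by
  have hU := d.isOpen_U
  rw [wv, D_sub_at v (diffAt hU (sm h) hp) (diffAt hU (u0_sm d) hp), D_u0 v hp]
  ring

theorem qDD (v w : X) (hp : p ∈ d.U) : D v (D w u) p = D v (D w (wv d.τ u)) p +
    ((o1 d.τ p)⁻¹ * v.2.1 * w.2.1 + (o2 d.τ p)⁻¹ * v.2.2 * w.2.2) := by
  have hU := d.isOpen_U
  have a1 := (m1_d hp.2.2.1).mul_const w.2.1
  have a2 := (m1_d hp.2.2.2).mul_const w.2.2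
  have := D_add_at v (p := p) (f := fun q : X => m1 d.τ.1 q.2.1 * w.2.1)
    (g := fun q : X => m1 d.τ.2 q.2.2 * w.2.2)
    (DifferentiableAt.comp (g := fun x => m1 d.τ.1 x * w.2.1) p a1.differentiableAt (c1_diff p))
    (DifferentiableAt.comp (g := fun x => m1 d.τ.2 x * w.2.2) p a2.differentiableAt (c2_diff p))
  rw [D_comp_at v (f := fun q : X => q.2.1) a1 (c1_diff p),
    D_comp_at v (f := fun q : X => q.2.2) a2 (c2_diff p), D_c1, D_c2] at this
  rw [wv, DD_sub (sm h) (u0_sm d) v w hp,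
    (D_congr hU v (f := D w (u0 d.τ)) (fun q hq => D_u0 w hq) hp).trans this]
  simp only [o1, o2]
  ring

theorem q11 (hp : p ∈ d.U) : h11 u p = h11 (wv d.τ u) p + (o1 d.τ p)⁻¹ := by
  simpa [e1, h11] using qDD h e1 e1 hp

theorem q12 (hp : p ∈ d.U) : h12 u p = h12 (wv d.τ u) p := by
  simpa [e1, e2, h12] using qDD h e1 e2 hp

theorem q22 (hp : p ∈ d.U) : h22 u p = h22 (wv d.τ u) p + (o2 d.τ p)⁻¹ := by
  simpa [e2, h22] using qDD h e2 e2 hp

theorem pW (hp : p ∈ d.U) : 0 < W u p :=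
  (pos_iff_pos_of_mul_pos (h.nd.pos hp)).1 (mul_pos (Dm.o1_pos hp) (Dm.o2_pos hp))

omit h in
theorem W_eq (u : X → ℝ) (p : X) : W u p = h11 u p * h22 u p - h12 u p ^ 2 := by
  simp only [W, h11, h12, h22, Pi.sub_apply, Pi.mul_apply]; ring

theorem hqp (hp : p ∈ d.U) {e : ℝ × ℝ} (he : e ≠ 0) : 0 < hq u e p ∧ 0 < iq u e p := by
  have h1 := h.p11 p hp
  have h2 := pW h hp
  have key : ∀ x y : ℝ, (x ≠ 0 ∨ y ≠ 0) →
      0 < h11 u p * x * x + h12 u p * (x * y + y * x) + h22 u p * y * y := by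
    intro x y hxy
    refine (pos_iff_pos_of_mul_pos (a := h11 u p) ?_).1 h1
    have e : h11 u p * (h11 u p * x * x + h12 u p * (x * y + y * x) + h22 u p * y * y) =
        (h11 u p * x + h12 u p * y) ^ 2 + W u p * y ^ 2 := by rw [W_eq]; ring
    rw [e]
    by_cases hy : y = 0
    · have hx := hxy.resolve_right (not_not.2 hy)
      rw [hy]
      have := mul_ne_zero h1.ne' hx
      simpa using by positivity
    · positivity
  have hne : e.1 ≠ 0 ∨ e.2 ≠ 0 := by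
    by_contra hc
    push Not at hc
    exact he (Prod.ext hc.1 hc.2)
  refine ⟨key _ _ hne, ?_⟩
  have := mul_pos (key e.2 (-e.1) (hne.symm.imp id neg_ne_zero.2)) (inv_pos.2 h2)
  refine this.trans_eq ?_
  simp only [iq, ib, T2.ap, iv2, i11, i12, i22, Pi.mul_apply, Pi.neg_apply, Iv_apply]
  ring

omit h in
theorem line_d {t : ℝ} (ht : t ∈ d.I) {y e : ℝ × ℝ} {s : ℝ} (hs : y + s • e ∈ d.S) {f : X → ℝ}
    (hf : ContDiffOn ℝ ∞ f d.U) :
    HasDerivAt (fun s : ℝ => f (t, y + s • e)) (D (sv e) f (t, y + s • e)) s := by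
  have eq : ∀ s : ℝ, ((t, y) : X) + s • sv e = (t, y + s • e) := fun s => by simp [sv]
  have := hasDerivAt_ln (f := f) (sv e) (t, y) (x := s)
    (by rw [eq]; exact diffAt d.isOpen_U hf ⟨ht, hs⟩)
  simpa only [eq] using this

theorem line_c {t : ℝ} (ht : t ∈ d.I) {y e : ℝ × ℝ} (hc : ∀ s ∈ Icc (0 : ℝ) 1, y + s • e ∈ d.Sc) :
    ContinuousOn (fun s : ℝ => u (t, y + s • e)) (Icc 0 1) :=
  h.cont.comp (f := fun s : ℝ => ((t, y + s • e) : X)) (by fun_prop) fun s hs => ⟨ht, hc s hs⟩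

theorem seg {t : ℝ} (ht : t ∈ d.I) {y e : ℝ × ℝ} (hc : ∀ s ∈ Icc (0 : ℝ) 1, y + s • e ∈ d.Sc)
    (ho : ∀ s ∈ Ioo (0 : ℝ) 1, y + s • e ∈ d.S) :
    ConvexOn ℝ (Icc 0 1) fun s : ℝ => u (t, y + s • e) := by
  refine convexOn_of_hasDerivWithinAt2_nonneg (convex_Icc 0 1)
    (f' := fun s => D (sv e) u (t, y + s • e))
    (f'' := fun s => D (sv e) (D (sv e) u) (t, y + s • e)) (line_c h ht hc) ?_ ?_ ?_ <;>
    rw [interior_Icc] <;> intro s hs
  · exact (line_d ht (ho s hs) (sm h)).hasDerivWithinAt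
  · exact (line_d ht (ho s hs) (smO_D d.isOpen_U _ (sm h))).hasDerivWithinAt
  · rw [hqD (sm h) ⟨ht, ho s hs⟩]
    by_cases he : e = 0
    · simp [he, hb, T2.ap]
    · exact (hqp h ⟨ht, ho s hs⟩ he).1.le

omit h in
theorem inS {z x : ℝ × ℝ} {a b : ℝ} (hz : z ∈ d.S) (hx : x ∈ d.Sc) (ha : 0 < a) (hb : 0 ≤ b)
    (hO : a • z + b • x ∈ d.Sc) : a • z + b • x ∈ d.S :=
  ⟨hO.1, ok_comb hz.2.1 hx.2.1 ha hb, ok_comb hz.2.2 hx.2.2 ha hb⟩

theorem tan {t : ℝ} (ht : t ∈ d.I) {y y' : ℝ × ℝ} (hy : y ∈ d.S) (hs : segment ℝ y y' ⊆ d.Sc) :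
    u (t, y) + D (sv (y' - y)) u (t, y) ≤ u (t, y') := by
  have eq : ∀ s : ℝ, y + s • (y' - y) = (1 - s) • y + s • y' := fun s => by module
  have hc : ∀ s ∈ Icc (0 : ℝ) 1, y + s • (y' - y) ∈ d.Sc := fun s hs' =>
    hs ⟨1 - s, s, by linarith [hs'.2], hs'.1, by ring, (eq s).symm⟩
  have := (seg h ht hc fun s hs' => by
    rw [eq]
    exact inS hy (hs (right_mem_segment _ _ _)) (by linarith [hs'.2]) hs'.1.le
      (eq s ▸ hc s (Ioo_subset_Icc_self hs'))).le_slope_of_hasDerivAt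
    (left_mem_Icc.2 zero_le_one) (right_mem_Icc.2 zero_le_one) zero_lt_one
    (line_d ht (s := 0) (by simpa using hy) (sm h))
  simp [slope] at this
  linarith

theorem cvx {t : ℝ} (ht : t ∈ d.I) {C : Set (ℝ × ℝ)} (hC : Convex ℝ C) (hs : C ⊆ d.Sc)
    (hne : (C ∩ d.S).Nonempty) : ConvexOn ℝ C fun y => u (t, y) := by
  obtain ⟨z, hzC, hzS⟩ := hne
  have mem : ∀ x ∈ C, ∀ y ∈ C, ∀ s ∈ Icc (0 : ℝ) 1, x + s • (y - x) ∈ C := fun x hx y hy s hs' =>
    hC.add_smul_sub_mem hx hy hs'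
  have eq : ∀ (x y : ℝ × ℝ) (s : ℝ), x + s • (y - x) = s • y + (1 - s) • x := fun x y s => by
    module
  have memS : ∀ x ∈ C, ∀ y ∈ C, y ∈ d.S → ∀ s ∈ Ioc (0 : ℝ) 1, x + s • (y - x) ∈ d.S :=
    fun x hx y hy hyS s hs' => by
      rw [eq]
      exact inS hyS (hs hx) hs'.1 (by linarith [hs'.2])
        (eq x y s ▸ hs (mem x hx y hy s (Ioc_subset_Icc_self hs')))
  have inner : ∀ x ∈ C, ∀ y ∈ C, y ∈ d.S → ∀ a b : ℝ, 0 ≤ a → 0 ≤ b → a + b = 1 →
      u (t, a • x + b • y) ≤ a * u (t, x) + b * u (t, y) := by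
    intro x hx y hy hyS a b ha hb hab
    have := (seg h ht (fun s hs' => hs (mem x hx y hy s hs'))
      fun s hs' => memS x hx y hy hyS s (Ioo_subset_Ioc_self hs')).2
      (left_mem_Icc.2 zero_le_one) (right_mem_Icc.2 zero_le_one) ha hb hab
    simp only [smul_eq_mul, mul_zero, mul_one, zero_add, zero_smul, add_zero, one_smul,
      add_sub_cancel] at this
    rwa [eq, show 1 - b = a by linarith, add_comm] at this
  refine ⟨hC, fun x hx y hy a b ha hb hab => ?_⟩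
  have hm : a • x + b • y ∈ C := hC hx hy ha hb hab
  have cont : ∀ x ∈ C, ContinuousWithinAt (fun s : ℝ => u (t, x + s • (z - x))) (Ioc 0 1) 0 :=
    fun x hx => (line_c h ht (fun s hs' => hs (mem x hx z hzC s hs')) 0
      (left_mem_Icc.2 zero_le_one)).mono Ioc_subset_Icc_self
  have := ContinuousWithinAt.closure_le (s := Ioc (0 : ℝ) 1) (x := 0)
    (g := fun s => a * u (t, x + s • (z - x)) + b * u (t, y + s • (z - y)))
    (by rw [closure_Ioc zero_ne_one]; exact left_mem_Icc.2 zero_le_one) (cont _ hm)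
    ((continuousWithinAt_const.mul (cont x hx)).add (continuousWithinAt_const.mul (cont y hy)))
    (fun s hs' => by
      have := inner _ (mem x hx z hzC s (Ioc_subset_Icc_self hs')) _
        (mem y hy z hzC s (Ioc_subset_Icc_self hs')) (memS y hy z hzC hzS s hs') a b ha hb hab
      refine le_of_eq_of_le ?_ this
      obtain rfl : a = 1 - b := by linarith
      congr 2
      module)
  simpa using this

end ApiP

open ApiP in
theorem api_ok : StApi := fun d u h => by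
  have bw := h.bd
  have w11 : Bd d (h11 (wv d.τ u)) := (bw.D e1).D e1
  have w12 : Bd d (h12 (wv d.τ u)) := (bw.D e2).D e1
  have w22 : Bd d (h22 (wv d.τ u)) := (bw.D e2).D e2
  have b11 : Bd d (o1 d.τ * h11 u) := ((bd_o1.mul w11).add (bd_K 1)).congr fun p hp => by
    have := (Dm.o1_pos hp).ne'
    simp only [Pi.add_apply, Pi.mul_apply, K_apply, q11 h hp]
    field_simp
  have b12 : Bd d (h12 u) := w12.congr fun p hp => (q12 h hp).symm
  have b22 : Bd d (o2 d.τ * h22 u) := ((bd_o2.mul w22).add (bd_K 1)).congr fun p hp => by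
    have := (Dm.o2_pos hp).ne'
    simp only [Pi.add_apply, Pi.mul_apply, K_apply, q22 h hp]
    field_simp
  have bW : Bd d (o1 d.τ * o2 d.τ * W u) :=
    ((b11.mul b22).sub ((bd_o1.mul bd_o2).mul (b12.mul b12))).congr fun p _ => by
      simp only [Pi.sub_apply, Pi.mul_apply, W_eq]; ring
  have bJ := bW.inv h.nd
  have nz : ∀ p ∈ d.U, o1 d.τ p ≠ 0 ∧ o2 d.τ p ≠ 0 ∧ W u p ≠ 0 := fun p hp =>
    ⟨(Dm.o1_pos hp).ne', (Dm.o2_pos hp).ne', (pW h hp).ne'⟩
  have bi11 : Bd d (i11 u) := ((bd_o1.mul b22).mul bJ).congr fun p hp => by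
    obtain ⟨n1, n2, n3⟩ := nz p hp
    simp only [Pi.mul_apply, Iv_apply, i11]
    field_simp
  have bi12 : Bd d (i12 u) := (((bd_o1.mul bd_o2).mul b12).mul bJ).neg.congr fun p hp => by
    obtain ⟨n1, n2, n3⟩ := nz p hp
    simp only [Pi.mul_apply, Pi.neg_apply, Iv_apply, i12]
    field_simp
  have bi22 : Bd d (i22 u) := ((bd_o2.mul b11).mul bJ).congr fun p hp => by
    obtain ⟨n1, n2, n3⟩ := nz p hp
    simp only [Pi.mul_apply, Iv_apply, i22]
    field_simp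
  have q0 : ∀ p ∈ d.U, D e0 u p = D e0 (wv d.τ u) p := fun p hp => by
    simpa [e0] using qD h e0 hp
  have sq : ∀ p ∈ d.U, (√(o1 d.τ p * o2 d.τ p) * h12 u p) ^ 2 =
      o1 d.τ p * o2 d.τ p * h12 u p ^ 2 := fun p hp => by
    rw [mul_pow, Real.sq_sqrt (mul_pos (Dm.o1_pos hp) (Dm.o2_pos hp)).le]
  have den : ∀ p ∈ d.U, o1 d.τ p * h11 u p * (o2 d.τ p * h22 u p) -
      (√(o1 d.τ p * o2 d.τ p) * h12 u p) ^ 2 = o1 d.τ p * o2 d.τ p * W u p := fun p hp => by
    rw [sq p hp, W_eq]; ring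
  refine ⟨sm h, fun p hp => pW h hp, fun p hp => ?_, fun p hp => q11 h hp, fun p hp => q12 h hp,
    fun p hp => q22 h hp, q0, fun p hp => ?_, fun p hp => ?_, b11, b12, b22, bW, bi11, bi12, bi22,
    (bw.D e0).congr fun p hp => (q0 p hp).symm, ?_, ?_, fun p hp => ?_,
    fun p hp e he => hqp h hp he, fun p hp e e' => hqD (sm h) hp e e', fun p hp => ?_,
    fun p hp => ?_, fun p hp n => ?_, fun p hp => ?_, fun t ht C hC hs hne => cvx h ht hC hs hne,
    fun t ht y hy y' hs => tan h ht hy hs⟩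
  · have := (hqp h hp (e := (0, 1)) (by simp)).1
    simpa [hq, hb, T2.ap, hs] using this
  · simpa [e1, m1] using qD h e1 hp
  · simpa [e2, m1] using qD h e2 hp
  · exact ((((b11.add b22).add (b22.mul bJ)).add (b11.mul bJ)).sub (bd_K 4)).congr fun p hp => by
      obtain ⟨n1, n2, n3⟩ := nz p hp
      simp only [Pi.add_apply, Pi.sub_apply, Pi.mul_apply, Iv_apply, K_apply, gex, i11, i22]
      field_simp
  · refine ⟨_, _, _, ((bd_o2.mul (b12.mul b12)).sub (w11.mul b22)).mul bJ, (b12.mul bJ).neg,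
      ((bd_o1.mul (b12.mul b12)).sub (w22.mul b11)).mul bJ, fun p hp => ?_, fun p hp => ?_,
      fun p hp => ?_⟩ <;> obtain ⟨n1, n2, n3⟩ := nz p hp
    · have e : h11 (wv d.τ u) p = h11 u p - (o1 d.τ p)⁻¹ := by rw [q11 h hp]; ring
      simp only [nn, Pi.sub_apply, Pi.mul_apply, Iv_apply, i11, e]
      field_simp
      rw [W_eq]; ring
    · simp only [nn, Pi.neg_apply, Pi.mul_apply, Iv_apply, i12]
      field_simp
    · have e : h22 (wv d.τ u) p = h22 u p - (o2 d.τ p)⁻¹ := by rw [q22 h hp]; ring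
      simp only [nn, Pi.sub_apply, Pi.mul_apply, Iv_apply, i22, e]
      field_simp
      rw [W_eq]; ring
  · rw [h.eqn p hp]
    simp only [ab, T2.dd, nn, iv2, Pi.add_apply, h11, h22, DD_sub bi11.sm bd_o1.sm e1 e1 hp,
      DD_sub bi22.sm bd_o2.sm e2 e2 hp, DD_o1, DD_o2, Pi.zero_apply, sub_zero]
  · exact ⟨mul_pos (Dm.o1_pos hp) (h.p11 p hp), by rw [den p hp]; exact h.nd.pos hp⟩
  · obtain ⟨n1, n2, n3⟩ := nz p hp
    simp only [gex, gx, den p hp, i11, i22, Pi.mul_apply, Iv_apply]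
    field_simp
    ring
  · obtain ⟨n1, n2, n3⟩ := nz p hp
    have s1 := Real.sq_sqrt (Dm.o1_pos hp).le
    have s2 := Real.sq_sqrt (Dm.o2_pos hp).le
    simp only [qi, den p hp, iq, ib, T2.ap, iv2, i11, i12, i22, Pi.mul_apply, Pi.neg_apply,
      Iv_apply]
    rw [Real.sqrt_mul (Dm.o1_pos hp).le, eq_div_iff (mul_ne_zero (mul_ne_zero n1 n2) n3)]
    set a := √(o1 d.τ p)
    set b := √(o2 d.τ p)
    rw [← s1, ← s2]
    field_simp
    ring
  · obtain ⟨n1, n2, n3⟩ := nz p hp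
    have e1 : h11 (wv d.τ u) p = h11 u p - (o1 d.τ p)⁻¹ := by rw [q11 h hp]; ring
    have e2 : h22 (wv d.τ u) p = h22 u p - (o2 d.τ p)⁻¹ := by rw [q22 h hp]; ring
    simp only [T2.ctr, nn, gex, Pi.add_apply, Pi.sub_apply, Pi.mul_apply, Pi.neg_apply, K_apply,
      e1, e2, ← q12 h hp, i11, i12, i22, Iv_apply]
    field_simp
    rw [W_eq]; ring

end Pool.Agent.P.MP_2cea5e_gt.I
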