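import Pool.Agent.P.MP_2cea5e_gt.I.St3
import Pool.Agent.P.MP_2cea5e_gt.II.Basic

/-!
Chapter I: approximation of the solution by a polynomial.
-/

open scoped ContDiff Topology
open MeasureTheory Set Filter

noncomputable section

set_option linter.dupNamespace false

namespace Pool.Agent.P.MP_2cea5e_gt.I

namespace Approx

theorem gx_nonneg {a b c : ℝ} (ha : 0 < a) (h : 0 < a * c - b ^ 2) : 0 ≤ gx a b c := by
  have hac : 0 < a * c := by nlinarith [sq_nonneg b]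
  have hc : 0 < c := (mul_pos_iff_of_pos_left ha).1 hac
  have h1 : (a + c) / (a * c) ≤ (a + c) / (a * c - b ^ 2) :=
    div_le_div_of_nonneg_left (by positivity) h (by nlinarith [sq_nonneg b])
  have h2 : a + c + (a + c) / (a * c) - 4 = (a - 1) ^ 2 / a + (c - 1) ^ 2 / c := by
    field_simp; ring
  have h3 : 0 ≤ (a - 1) ^ 2 / a + (c - 1) ^ 2 / c := by positivity
  unfold gx
  linarith

theorem vol_iv (b : Bool) {r : ℝ} (hr : 0 ≤ r) : volume.real (iv b r) ≤ 2 * r ^ wt b := by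
  cases b
  · simp only [iv, wt, Bool.false_eq_true, if_false]
    rw [Real.volume_real_Ioo_of_le (by linarith)]
    linarith [pow_one r]
  · simp only [iv, wt, if_true]
    rw [Real.volume_real_Ioo_of_le (by positivity)]
    nlinarith [sq_nonneg r]

theorem vol_bx (τ : Ty) {r : ℝ} (hr : 0 ≤ r) :
    volume.real (bx τ r) ≤ 4 * r ^ (wt τ.1 + wt τ.2) := by
  rw [bx, Measure.volume_eq_prod, measureReal_prod_prod, pow_add]
  calc _ ≤ (2 * r ^ wt τ.1) * (2 * r ^ wt τ.2) :=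
        mul_le_mul (vol_iv _ hr) (vol_iv _ hr) measureReal_nonneg (by positivity)
    _ = _ := by ring

theorem abs_th_lt {b : Bool} {r x : ℝ} (hr : 0 < r) (hx : x ∈ iv b r) : |th b x| < 2 * r := by
  cases b
  · simp only [iv, Bool.false_eq_true, if_false] at hx
    simp only [th, Bool.false_eq_true, if_false]
    exact abs_lt.2 ⟨by linarith [hx.1], by linarith [hx.2]⟩
  · simp only [iv, if_true] at hx
    simp only [th, if_true]
    have : √x < r := Real.sqrt_lt' hr |>.2 hx.2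
    rw [abs_of_nonneg (by positivity)]
    linarith

theorem tz_mem {τ : Ty} {r : ℝ} (hr : 0 < r) (hr' : r ≤ 1 / 16) {y : ℝ × ℝ} (hy : y ∈ bx τ r) :
    tz τ y ∈ Metric.ball (0 : C2) (1 / 8) := by
  rw [mem_ball_zero_iff, pi_norm_lt_iff (by norm_num)]
  intro i
  fin_cases i
  · have := abs_th_lt hr hy.1
    simp only [tz, Fin.zero_eta, Matrix.cons_val_zero, Complex.norm_real, Real.norm_eq_abs]
    linarith
  · have := abs_th_lt hr hy.2
    simp only [tz, Fin.mk_one, Matrix.cons_val_one, Matrix.cons_val_zero, Complex.norm_real,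
      Real.norm_eq_abs]
    linarith

theorem cont_th (b : Bool) : Continuous (th b) := by
  cases b
  · exact continuous_id
  · exact continuous_const.mul Real.continuous_sqrt

theorem cont_tz (τ : Ty) : Continuous (tz τ) := by
  refine continuous_pi fun i => ?_
  fin_cases i
  · exact Complex.continuous_ofReal.comp ((cont_th _).comp continuous_fst)
  · exact Complex.continuous_ofReal.comp ((cont_th _).comp continuous_snd)

theorem lc_tz {d : Dm} {v : ℝ → C2 → ℝ} (hv : Cl d.I v) :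
    Lc d fun p => v p.1 (tz d.τ p.2) := by
  have h : ContinuousOn (fun p : X => v p.1 (tz d.τ p.2)) d.Uc :=
    ContinuousOn.comp (f := fun p : X => (p.1, tz d.τ p.2)) (hv.cont [])
      (continuous_fst.prodMk ((cont_tz _).comp continuous_snd)).continuousOn
      fun p hp => ⟨hp.1, mem_univ _⟩
  exact ⟨h.mono d.U_subset, bd0_of_cont h⟩

theorem int_mono_set {d : Dm} {f : X → ℝ} (hf : Lc d f) {A B : Set (ℝ × ℝ)} (hB : Reg d B)
    (hAB : A ⊆ B) {t : ℝ} (ht : t ∈ d.I) (h0 : ∀ y ∈ B, 0 ≤ f (t, y)) :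
    ∫ y in A, f (t, y) ≤ ∫ y in B, f (t, y) :=
  setIntegral_mono_set (hf.integrableOn hB ht)
    ((ae_restrict_iff' hB.ms).2 (ae_of_all _ h0)) hAB.eventuallyLE

theorem abs_lap_lap {f : C2 → ℝ} (hf : ContDiff ℝ ∞ f) {z : C2} {B : ℝ}
    (h : ∀ l : List (Fin 4), l.length ≤ 4 → |pdl l f z| ≤ B) : |lap (lap f) z| ≤ 16 * B := by
  rw [II.lap_lap hf]
  calc _ ≤ ∑ p, ∑ q, |pd p (pd q (pd p (pd q f))) z| :=
        (Finset.abs_sum_le_sum_abs _ _).trans
          (Finset.sum_le_sum fun p _ => Finset.abs_sum_le_sum_abs _ _)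
    _ ≤ ∑ _p : Fin 4, ∑ _q : Fin 4, B :=
        Finset.sum_le_sum fun p _ => Finset.sum_le_sum fun q _ => h [p, q, p, q] (by simp)
    _ = 16 * B := by simp; ring

/-- The final integration. -/
theorem final {d : Dm} {w V q : X → ℝ} (hw : Lc d w) (hV : Lc d V) (hq : Lc d q)
    (hI : Icc (-1 : ℝ) 0 ⊆ d.I) (hO : bxc d.τ 1 ⊆ d.O) {r E M : ℝ} (hr : 0 < r) (hr' : r ≤ 1 / 16)
    (hE : ∫ t in (-1 : ℝ)..0, ∫ y in bx d.τ (1 / 8), (w (t, y) - V (t, y)) ^ 2 ≤ E)
    (hM : ∀ t ∈ Icc (-r ^ 4) 0, ∀ y ∈ bx d.τ r, |V (t, y) - q (t, y)| ≤ M) :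
    ∫ t in (-r ^ 4)..0, ∫ y in bx d.τ r, (w (t, y) - q (t, y)) ^ 2 ≤
      2 * E + 8 * M ^ 2 * r ^ (wt d.τ.1 + wt d.τ.2 + 4) := by
  have h4 : r ^ 4 ≤ 1 := pow_le_one₀ hr.le (by linarith)
  have h40 : -r ^ 4 ≤ 0 := neg_nonpos.2 (by positivity)
  have R8 : Reg d (bx d.τ (1 / 8)) := reg_bx ((bxc_mono _ (by norm_num) (by norm_num)).trans hO)
  have Rr : Reg d (bx d.τ r) := reg_bx ((bxc_mono _ hr.le (by linarith)).trans hO)
  have l1 : Lc d fun p => (w p - V p) ^ 2 := (hw.sub hV).pow 2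
  have l2 : Lc d fun p => (w p - q p) ^ 2 := (hw.sub hq).pow 2
  have hs : Icc (-r ^ 4) 0 ⊆ d.I := (Icc_subset_Icc (by linarith) le_rfl).trans hI
  have i1 : IntervalIntegrable (fun t => ∫ y in bx d.τ (1 / 8), (w (t, y) - V (t, y)) ^ 2)
      volume (-1) 0 :=
    ((l1.continuousOn_int R8).mono hI).intervalIntegrable_of_Icc (by norm_num)
  have i1' : IntervalIntegrable (fun t => ∫ y in bx d.τ (1 / 8), (w (t, y) - V (t, y)) ^ 2)
      volume (-r ^ 4) 0 :=
    ((l1.continuousOn_int R8).mono hs).intervalIntegrable_of_Icc h40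
  have i2 : IntervalIntegrable (fun t => ∫ y in bx d.τ r, (w (t, y) - q (t, y)) ^ 2)
      volume (-r ^ 4) 0 :=
    ((l2.continuousOn_int Rr).mono hs).intervalIntegrable_of_Icc h40
  have key : ∀ t ∈ Icc (-r ^ 4) 0, ∫ y in bx d.τ r, (w (t, y) - q (t, y)) ^ 2 ≤
      2 * (∫ y in bx d.τ (1 / 8), (w (t, y) - V (t, y)) ^ 2) +
        8 * M ^ 2 * r ^ (wt d.τ.1 + wt d.τ.2) := by
    intro t ht
    have j1 := l1.integrableOn Rr (hs ht)
    have jc : IntegrableOn (fun _ : ℝ × ℝ => 2 * M ^ 2) (bx d.τ r) :=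
      integrableOn_const Rr.finite
    have a1 : ∫ y in bx d.τ r, (w (t, y) - q (t, y)) ^ 2 ≤
        ∫ y in bx d.τ r, (2 * (w (t, y) - V (t, y)) ^ 2 + 2 * M ^ 2) := by
      refine setIntegral_mono_on (l2.integrableOn Rr (hs ht)) ((j1.const_mul 2).add jc) Rr.ms
        fun y hy => ?_
      have b1 := sq_le_sq' (abs_le.1 (hM t ht y hy)).1 (abs_le.1 (hM t ht y hy)).2
      nlinarith [sq_nonneg (w (t, y) - V (t, y) - (V (t, y) - q (t, y)))]
    rw [integral_add (j1.const_mul 2) jc, integral_const_mul, setIntegral_const, smul_eq_mul] at a1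
    have a2 := int_mono_set l1 R8 (bx_mono d.τ hr.le (by linarith)) (hs ht)
      fun y _ => sq_nonneg _
    have a3 := mul_le_mul_of_nonneg_right (vol_bx d.τ hr.le) (by positivity : 0 ≤ 2 * M ^ 2)
    linarith
  have a4 := intervalIntegral.integral_mono_on h40 i2
    ((i1'.const_mul 2).add intervalIntegrable_const) key
  rw [intervalIntegral.integral_add (i1'.const_mul 2) intervalIntegrable_const,
    intervalIntegral.integral_const_mul, intervalIntegral.integral_const, smul_eq_mul] at a4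
  have a5 := intervalIntegral.integral_mono_interval (by linarith : -1 ≤ -r ^ 4) h40 le_rfl
    (ae_of_all _ fun t => integral_nonneg fun y => sq_nonneg _) i1
  rw [pow_add r (wt d.τ.1 + wt d.τ.2) 4]
  linarith

end Approx

open Approx in
theorem approx_ok (h0 : StLin) (h1 : StApi) (h2 : StSup) (h3 : StKer3) (h4 : StMoll1)
    (h5 : StMoll2) (h6 : StMoll3) (h7 : StComp) (h8 : StTay) : StApprox := by
  intro τ Λ
  obtain ⟨CL, hL⟩ := h0 (1 / 4) (by norm_num)
  obtain ⟨CT, hCT, hT⟩ := h8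
  set K : ℝ := CT * (13 * |CL|) + 16 * (13 * |CL|) + 1 with hK
  have hK1 : 1 ≤ K := by
    have : 0 ≤ CT * (13 * |CL|) + 16 * (13 * |CL|) := by positivity
    linarith
  refine ⟨2 + 8 * K ^ 2 + K, by nlinarith [sq_nonneg K], fun θ hθ => ?_⟩
  obtain ⟨δ, hδ, hδ', σ, ε₀, hσ, hε₀, hC⟩ := h7 τ (θ ^ 14) (by positivity)
  obtain ⟨k, k1, k2, k3, k4⟩ := h3.1 δ hδ
  have hP : Prob δ k := ⟨k1, k2, k3, k4⟩
  obtain ⟨Cd, hCd, hM2⟩ := h5 τ δ k k hδ' k1 k1 10
  obtain ⟨εs, hεs, hS⟩ := h2 τ Λ σ hσ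
  refine ⟨min (min ε₀ εs) (min 1 (θ ^ 3) / (Cd + 1)), by positivity, ?_⟩
  rintro d u F ε rfl hN hε hε1 hE
  have e0' : ε ≤ ε₀ := hε1.trans ((min_le_left _ _).trans (min_le_left _ _))
  have es : ε ≤ εs := hε1.trans ((min_le_left _ _).trans (min_le_right _ _))
  have eC : Cd * ε ^ 2 ≤ min 1 (θ ^ 3) * ε := by
    have a1 := (le_div_iff₀ (by positivity)).1 (hε1.trans (min_le_right _ _))
    nlinarith
  have hI := hN.tI
  have hO := hN.bO
  have hSS : ∀ t ∈ Icc (-1 : ℝ) 0, SS 1 d u F t := fun t ht => ⟨hN.gs, hI ht, hO⟩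
  have hA := h1 d u hN.gs.toGS0
  have hw := hN.gs.bd
  have R1 : Reg d (bx d.τ 1) := reg_bx hO
  have R2 : Reg d (bx d.τ (1 / 2)) := reg_bx ((bxc_mono _ (by norm_num) (by norm_num)).trans hO)
  have b21 : bx d.τ (1 / 2) ⊆ bx d.τ 1 := bx_mono _ (by norm_num) (by norm_num)
  have hG0 : ∀ t ∈ d.I, ∀ y ∈ bx d.τ 1, 0 ≤ gex d.τ u (t, y) := by
    intro t ht y hy
    have hp : (t, y) ∈ d.U := ⟨ht, R1.sub hy⟩
    rw [hA.gx2 _ hp]
    exact gx_nonneg (hA.gx1 _ hp).1 (hA.gx1 _ hp).2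
  obtain ⟨cv, dv, -⟩ := h4 d _ δ k k hw k1 k1 hO
  obtain ⟨cvt, -, -⟩ := h4 d _ δ k k (hw.D e0) k1 k1 hO
  set v := mv d.τ k k (wv d.τ u) with hv
  set vt := mv d.τ k k (D e0 (wv d.τ u)) with hvt
  set g : ℝ → ℝ := fun t => Cd * ∫ y in bx d.τ (1 / 2), gex d.τ u (t, y) with hg
  have gc : ContinuousOn g d.I := continuousOn_const.mul (hA.bg.lc.continuousOn_int R2)
  have gi : ∀ a ∈ Icc (-1 : ℝ) 0, IntervalIntegrable g volume a 0 := fun a ha =>
    (gc.mono ((Icc_subset_Icc ha.1 le_rfl).trans hI)).intervalIntegrable_of_Icc ha.2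
  have gI : ∀ a ∈ Icc (-1 : ℝ) 0, ∫ t in a..0, g t ≤ min 1 (θ ^ 3) * ε := by
    intro a ha
    have a1 := intervalIntegral.integral_mono_interval ha.1 ha.2 le_rfl
      ((ae_restrict_iff' measurableSet_Ioc).2 (ae_of_all _ fun t ht => mul_nonneg hCd
        (setIntegral_nonneg R2.ms fun y hy => hG0 t (hI (Ioc_subset_Icc_self ht)) y (b21 hy))))
      (gi (-1) (by norm_num))
    have a2 := intervalIntegral.integral_mono_on (μ := volume) (by norm_num : (-1 : ℝ) ≤ 0)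
      (((hA.bg.lc.continuousOn_int R2).mono hI).intervalIntegrable_of_Icc (by norm_num))
      (((hA.bg.lc.continuousOn_int R1).mono hI).intervalIntegrable_of_Icc (by norm_num))
      fun t ht => int_mono_set hA.bg.lc R1 b21 (hI ht) (hG0 t (hI ht))
    have a3 := mul_le_mul_of_nonneg_left (a2.trans hE.2) hCd
    rw [← intervalIntegral.integral_const_mul] at a3
    exact a1.trans (a3.trans eC)
  have s4 : Icc (-(1 / 4) : ℝ) 0 ⊆ Icc (-1) 0 := Icc_subset_Icc (by norm_num) le_rfl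
  have cm : ∀ {f : ℝ → C2 → ℝ}, Cl d.I f → Cl (Icc (-(1 / 4)) 0) f := fun hf =>
    ⟨fun t ht => hf.sm t (hI (s4 ht)), fun l => (hf.cont l).mono (prod_mono (s4.trans hI) le_rfl)⟩
  have m2 : ∀ t ∈ Icc (-1 : ℝ) 0, ∀ z ∈ Metric.ball (0 : C2) (1 / 4), ∀ l : List (Fin 4),
      l.length ≤ 10 → |pdl l (vt t + lap (lap (v t))) z| ≤ g t :=
    fun t ht z hz l hl => hM2 d u F t rfl (hSS t ht) z hz l hl
  have hB := hL v vt g (13 * ε) (by positivity) (cm cv) (cm cvt)
    (fun t ht z => dv t (hI (s4 (Ioo_subset_Icc_self ht))) z) (by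
      have a1 := intervalIntegral.norm_integral_le_of_norm_le_const (a := -(1 / 4)) (b := 0)
        (C := (13 * ε) ^ 2) (f := fun t => ∫ z in Metric.ball (0 : C2) (1 / 4), v t z ^ 2) (by
          intro t ht
          rw [uIoc_of_le (by norm_num)] at ht
          have ht' := s4 (Ioc_subset_Icc_self ht)
          rw [Real.norm_of_nonneg (integral_nonneg fun z => sq_nonneg _)]
          have b1 := (h6 d _ δ t k hw.lc hP hδ' (hI ht') hO).1
          have b2 := int_mono_set (hw.lc.pow 2) R1 b21 (hI ht') fun y _ => sq_nonneg _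
          have b3 := hE.1 t ht'
          nlinarith)
      have a2 := (le_abs_self _).trans a1
      rw [sub_neg_eq_add, zero_add, abs_of_pos (by norm_num)] at a2
      nlinarith [sq_nonneg (13 * ε)])
    (gc.mono (s4.trans hI)) ((gI _ (by norm_num)).trans (by
      have := mul_le_mul_of_nonneg_right (min_le_left 1 (θ ^ 3)) hε.le
      linarith))
    fun t ht => m2 t (s4 ht)
  have hB' : ∀ t ∈ Icc (-(1 / 8) : ℝ) 0, ∀ z ∈ Metric.ball (0 : C2) (1 / 8), ∀ l : List (Fin 4),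
      l.length ≤ 4 → |pdl l (v t) z| ≤ 13 * |CL| * ε := by
    intro t ht z hz l hl
    refine (hB t (by norm_num at ht ⊢; exact ht) z (by norm_num at hz ⊢; exact hz) l hl).trans ?_
    have := mul_le_mul_of_nonneg_right (le_abs_self CL) (by positivity : 0 ≤ 13 * ε)
    linarith
  have h00 : (0 : ℝ) ∈ d.I := hI (by norm_num)
  obtain ⟨-, -, -, ev1, ev2⟩ := h6 d _ δ 0 k hw.lc hP hδ' h00 hO
  obtain ⟨l₀, l₁, l₂, q₁, q₂, q₃, hc, p1, p2, hq⟩ := hT d.τ (v 0) (13 * |CL| * ε) (cv.sm 0 h00)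
    (fun z hz l hl => hB' 0 (by norm_num) z hz l (by omega)) ev1 ev2
  have hCK : CT * (13 * |CL| * ε) ≤ (2 + 8 * K ^ 2 + K) * ε := by
    rw [← mul_assoc]
    refine mul_le_mul_of_nonneg_right ?_ hε.le
    have : 0 ≤ 16 * (13 * |CL|) := by positivity
    nlinarith [sq_nonneg K]
  refine ⟨l₀, l₁, l₂, q₁, q₂, q₃, ⟨hc.1.trans hCK, hc.2.1.trans hCK, hc.2.2.1.trans hCK,
    hc.2.2.2.1.trans hCK, hc.2.2.2.2.1.trans hCK, hc.2.2.2.2.2.trans hCK⟩, p1, p2,
    fun r hθr hr' => ?_⟩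
  have hr : 0 < r := hθ.trans_le hθr
  have hr1 : r ≤ 1 := by linarith
  have r43 : r ^ 4 ≤ r ^ 3 := pow_le_pow_of_le_one hr.le hr1 (by norm_num)
  have r41 : r ^ 4 ≤ r := by simpa using pow_le_pow_of_le_one hr.le hr1 (by norm_num : 1 ≤ 4)
  have hComp := (hC δ k hδ le_rfl hP d u F ε rfl hN.toN0 (fun t ht =>
    (hS d u F t rfl (hSS t ht) (hN.en t ht) ((hE.1 t ht).trans
      (pow_le_pow_left₀ hε.le es 2))).1) hε.le e0' hE).2
  have fin := final (V := fun p => v p.1 (tz d.τ p.2))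
    (q := fun p => qp l₀ l₁ l₂ q₁ q₂ q₃ p.2) (M := K * r ^ 3 * ε) hw.lc (lc_tz cv)
    (lc_of_cont (by unfold qp; fun_prop)) hI hO hr hr' hComp (by
      intro t ht y hy
      have hz := tz_mem hr hr' hy
      have ht1 : t ∈ Icc (-1 : ℝ) 0 := ⟨by linarith [ht.1], ht.2⟩
      have hsI : Icc t 0 ⊆ d.I := (Icc_subset_Icc ht1.1 le_rfl).trans hI
      have vi : IntervalIntegrable (fun s => vt s (tz d.τ y)) volume t 0 :=
        (ContinuousOn.comp (f := fun s : ℝ => (s, tz d.τ y)) (cvt.cont []) (by fun_prop)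
          fun s hs => ⟨hsI hs, mem_univ _⟩).intervalIntegrable_of_Icc ht.2
      have a1 := intervalIntegral.integral_eq_sub_of_hasDerivAt
        (fun s hs => dv s (hsI (by rwa [uIcc_of_le ht.2] at hs)) (tz d.τ y)) vi
      have a2 := intervalIntegral.norm_integral_le_of_norm_le (μ := volume)
        (f := fun s => vt s (tz d.τ y)) (g := fun s => g s + 16 * (13 * |CL| * ε)) ht.2
        (ae_of_all _ fun s hs => by
          have hs1 : s ∈ Icc (-1 : ℝ) 0 := ⟨by linarith [ht1.1, hs.1], hs.2⟩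
          have b1 := m2 s hs1 (tz d.τ y) (Metric.ball_subset_ball (by norm_num) hz) [] (by simp)
          have b2 := abs_lap_lap (cv.sm s (hI hs1))
            (hB' s ⟨by linarith [ht.1, hs.1], hs.2⟩ _ hz)
          simp only [pdl, Pi.add_apply] at b1
          rw [Real.norm_eq_abs, abs_le]
          constructor <;> linarith [(abs_le.1 b1).1, (abs_le.1 b1).2, (abs_le.1 b2).1,
            (abs_le.1 b2).2])
        ((gi t ht1).add intervalIntegrable_const)
      rw [a1, intervalIntegral.integral_add (gi t ht1) intervalIntegrable_const,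
        intervalIntegral.integral_const, smul_eq_mul, Real.norm_eq_abs] at a2
      have a3 := gI t ht1
      have a4 := hq r hr hr' y hy
      have a5 : min 1 (θ ^ 3) * ε ≤ r ^ 3 * ε := mul_le_mul_of_nonneg_right
        ((min_le_right _ _).trans (pow_le_pow_left₀ hθ.le hθr 3)) hε.le
      have a6 : (0 - t) * (16 * (13 * |CL| * ε)) ≤ r ^ 3 * (16 * (13 * |CL| * ε)) :=
        mul_le_mul_of_nonneg_right (by linarith [ht.1]) (by positivity)
      have a7 : K * r ^ 3 * ε = CT * (13 * |CL| * ε) * r ^ 3 +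
          r ^ 3 * (16 * (13 * |CL| * ε)) + r ^ 3 * ε := by rw [hK]; ring
      show |v t (tz d.τ y) - qp l₀ l₁ l₂ q₁ q₂ q₃ y| ≤ K * r ^ 3 * ε
      rw [abs_le]
      constructor <;> linarith [(abs_le.1 a2).1, (abs_le.1 a2).2, (abs_le.1 a4).1,
        (abs_le.1 a4).2])
  refine fin.trans ?_
  have w4 : wt d.τ.1 + wt d.τ.2 + 10 ≤ 14 := by
    unfold wt; split_ifs <;> norm_num
  have c1 : θ ^ 14 ≤ r ^ (wt d.τ.1 + wt d.τ.2 + 10) :=
    (pow_le_pow_left₀ hθ.le hθr 14).trans (pow_le_pow_of_le_one hr.le hr1 w4)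
  have c2 : 8 * (K * r ^ 3 * ε) ^ 2 * r ^ (wt d.τ.1 + wt d.τ.2 + 4) =
      8 * K ^ 2 * r ^ (wt d.τ.1 + wt d.τ.2 + 10) * ε ^ 2 := by ring
  have c3 := mul_le_mul_of_nonneg_right c1 (sq_nonneg ε)
  have c4 : 0 ≤ K * r ^ (wt d.τ.1 + wt d.τ.2 + 10) * ε ^ 2 := by positivity
  rw [c2]
  nlinarith

end Pool.Agent.P.MP_2cea5e_gt.I
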