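import Pool.Agent.P.MP_2cea5e_gt.I.St5

/-!
Chapter I: comparison with the flat model of a frame, localisation of the moment map.
-/

open scoped ContDiff Topology
open MeasureTheory Set Filter

noncomputable section

set_option linter.dupNamespace false

namespace Pool.Agent.P.MP_2cea5e_gt.I

namespace Bk1

/-- The derivative of the model. -/
def g0 (b : Bool) (x : ℝ) : ℝ := if b then Real.log x + 1 else x

variable {f : ℝ × C2 → ℝ} {d : Dm} {u : X → ℝ} {fr : Fr} {τ : Ty}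

theorem memS (hg : Leg f d u) {t : ℝ} (ht : t ∈ d.I) (ζ : ℝ × ℝ) : gr (lg f) t ζ ∈ d.S := by
  rw [← hg.rg t ht]
  exact mem_range_self ζ

/-- The gradient and the inverse Hessian in a frame. -/
theorem frame (h0 : StApi) (h2 : StFC) (h4 : StAbreu) (hL : LogP d.I f) (hg : Leg f d u)
    {q : X} {ζ : ℝ × ℝ} (ht : fr.tm q.1 ∈ d.I) (hq : fr.sp q.2 = gr (lg f) (fr.tm q.1) ζ) :
    D e1 (fr.pull u) q = ((fr.St ζ).1 - fr.l1) / fr.ρ ^ 2 ∧
    D e2 (fr.pull u) q = ((fr.St ζ).2 - fr.l2) / fr.ρ ^ 2 ∧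
    ∀ n, iq (fr.pull u) (fr.St n) q = fr.ρ ^ 2 * I.hq (lg f) n (fr.tm q.1, ζ) := by
  have A := h0 d u hg.gs
  obtain ⟨a1, a2, -, -, -, a3, -⟩ := h4 d.I (lg f) u d.S hL.pot d.isOpen_S A.sm
    (fun p hp => ⟨memS hg hp p.2, hg.eq p hp⟩) (fr.tm q.1, ζ) ht
  have e : fr.fm q = (fr.tm q.1, grad (lg f) (fr.tm q.1, ζ)) := by
    unfold Fr.fm
    rw [hq]
    rfl
  have hU : fr.fm q ∈ d.U := by
    rw [e]
    exact ⟨ht, memS hg ht ζ⟩
  obtain ⟨-, b1, -, -, -, b2, -⟩ :=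
    ((h2 fr d.U d.isOpen_U).2.2 u A.sm fun p hp => (A.pW p hp).ne').2 q hU
  have c : ∀ n : ℝ × ℝ, D (sv n) u (fr.fm q) = n.1 * ζ.1 + n.2 * ζ.2 := by
    intro n
    have hv : sv n = n.1 • e1 + n.2 • e2 := by ext <;> simp [sv, e1, e2]
    rw [hv, D_lin, e, a1, a2]
  refine ⟨(b1 (1, 0)).trans ?_, (b1 (0, 1)).trans ?_, fun n => (b2 n n).trans ?_⟩
  · rw [c]
    simp only [Fr.S, Fr.St]
    ring
  · rw [c]
    simp only [Fr.S, Fr.St]
    ring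
  · rw [← a3 n, e]
    rfl

theorem ms1 (hc : fr.Cp (true, true) τ) {z : C2} (hz : ∀ k, z k ≠ 0) :
    (fr.St (lz z)).1 - fr.l1 = fr.ρ ^ 2 * g0 τ.1 (ms fr τ z).1 ∧ (ms fr τ z).1 ∈ ok τ.1 ∧
    ∀ v : C2, (if τ.1 then fr.ρ ^ 2 * Real.exp (-1 - fr.l1 / fr.ρ ^ 2) * ‖v 0‖ ^ 2
      else ‖fr.a * av z v 0 + fr.c * av z v 1‖ ^ 2 / fr.ρ ^ 2) =
      om τ.1 (ms fr τ z).1 * ‖fr.a * av z v 0 + fr.c * av z v 1‖ ^ 2 / fr.ρ ^ 2 := by
  have hρ := fr.ρ_pos.ne'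
  have hn : 0 < ‖z 0‖ := norm_pos_iff.2 (hz 0)
  cases h : τ.1
  · simp only [ms, g0, ok, om, h, Bool.false_eq_true, if_false, mem_univ, one_mul, implies_true,
      and_true]
    field_simp
  · obtain ⟨-, -, ha, -, hc'⟩ := hc.1 h
    simp only [ms, g0, ok, om, h, if_true, mem_Ioi]
    refine ⟨?_, by positivity, fun v => ?_⟩
    · rw [Real.log_mul (by positivity) (Real.exp_pos _).ne', Real.log_exp]
      simp only [Fr.St, lz, ha, hc']
      field_simp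
      ring
    · simp only [ha, hc', av, Complex.ofReal_zero, zero_mul, add_zero, norm_mul, norm_div,
        Complex.norm_real, Complex.norm_conj, Real.norm_eq_abs, mul_pow, div_pow, sq_abs]
      field_simp

theorem ms2 (hc : fr.Cp (true, true) τ) {z : C2} (hz : ∀ k, z k ≠ 0) :
    (fr.St (lz z)).2 - fr.l2 = fr.ρ ^ 2 * g0 τ.2 (ms fr τ z).2 ∧ (ms fr τ z).2 ∈ ok τ.2 ∧
    ∀ v : C2, (if τ.2 then fr.ρ ^ 2 * Real.exp (-1 - fr.l2 / fr.ρ ^ 2) * ‖v 1‖ ^ 2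
      else ‖fr.b * av z v 0 + fr.e * av z v 1‖ ^ 2 / fr.ρ ^ 2) =
      om τ.2 (ms fr τ z).2 * ‖fr.b * av z v 0 + fr.e * av z v 1‖ ^ 2 / fr.ρ ^ 2 := by
  have hρ := fr.ρ_pos.ne'
  have hn : 0 < ‖z 1‖ := norm_pos_iff.2 (hz 1)
  cases h : τ.2
  · simp only [ms, g0, ok, om, h, Bool.false_eq_true, if_false, mem_univ, one_mul, implies_true,
      and_true]
    field_simp
  · obtain ⟨-, -, ha, hc', -⟩ := hc.2 h
    simp only [ms, g0, ok, om, h, if_true, mem_Ioi]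
    refine ⟨?_, by positivity, fun v => ?_⟩
    · rw [Real.log_mul (by positivity) (Real.exp_pos _).ne', Real.log_exp]
      simp only [Fr.St, lz, ha, hc']
      field_simp
      ring
    · simp only [ha, hc', av, Complex.ofReal_zero, zero_mul, zero_add, norm_mul, norm_div,
        Complex.norm_real, Complex.norm_conj, Real.norm_eq_abs, mul_pow, div_pow, sq_abs]
      field_simp

theorem om_cmp {b : Bool} {x y δ : ℝ} (hx : x ∈ ok b) (hy : y ∈ ok b) (hδ : 0 ≤ δ)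
    (h : |g0 b x - g0 b y| ≤ δ) : om b x ≤ Real.exp δ * om b y := by
  cases b
  · simpa [om] using hδ
  · have hx' : 0 < x := hx
    have hy' : 0 < y := hy
    simp only [g0, om, if_true] at h ⊢
    rw [← Real.exp_log hx', ← Real.exp_log hy', ← Real.exp_add]
    exact Real.exp_le_exp.2 (by linarith [(abs_le.1 h).2])

theorem g0_exp {b : Bool} {x y : ℝ} (hx : x ∈ iv b 1) (hy : y ∈ iv b 1) :
    (x - y) ^ 2 ≤ (x - y) * (g0 b x - g0 b y) := by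
  cases b
  · simp only [g0, Bool.false_eq_true, if_false]
    nlinarith
  · have key : ∀ a c : ℝ, 0 < a → a ≤ c → c ≤ 1 → c - a ≤ Real.log c - Real.log a := by
      intro a c ha hac hc
      have hc0 : 0 < c := ha.trans_le hac
      have h1 := Real.log_le_sub_one_of_pos (div_pos ha hc0)
      rw [Real.log_div ha.ne' hc0.ne'] at h1
      have h2 : a / c - 1 ≤ a - c := by
        rw [div_sub_one hc0.ne', div_le_iff₀ hc0]
        nlinarith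
      linarith
    simp only [iv, if_true, mem_Ioo, one_pow] at hx hy
    simp only [g0, if_true]
    rcases le_total x y with h | h
    · nlinarith [key x y hx.1 h hy.2.le]
    · nlinarith [key y x hy.1 h hx.2.le]

theorem mem_iv {b : Bool} {x y : ℝ} (hx : x ∈ iv b (1 / 24)) (hy : y ∈ ok b)
    (h : |y - x| ≤ 1 / 480) : y ∈ iv b (1 / 16) := by
  have h' := abs_le.1 h
  cases b
  · simp only [iv, Bool.false_eq_true, if_false, mem_Ioo] at hx ⊢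
    constructor <;> linarith [hx.1, hx.2]
  · simp only [iv, if_true, mem_Ioo] at hx ⊢
    exact ⟨hy, by linarith [hx.2]⟩

theorem norm_sq_lin (a c : ℝ) (x y : ℂ) :
    ‖a * x + c * y‖ ^ 2 = (a * x.re + c * y.re) ^ 2 + (a * x.im + c * y.im) ^ 2 := by
  rw [Complex.sq_norm, Complex.normSq_apply]
  simp only [Complex.add_re, Complex.add_im, Complex.re_ofReal_mul, Complex.im_ofReal_mul]
  ring

/-- The inverse Hessian is close to the model. -/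
theorem iq_cmp (h1 : StAlg) {w : X → ℝ} (A : Api d w) (hw : GS0 d w) {q : X} (hq : q ∈ d.U)
    {δ : ℝ} (hn : NearH d.τ w δ q) (n : ℝ × ℝ) :
    iq w n q ≤ (1 + δ) * (o1 d.τ q * n.1 ^ 2 + o2 d.τ q * n.2 ^ 2) ∧
      o1 d.τ q * n.1 ^ 2 + o2 d.τ q * n.2 ^ 2 ≤ (1 + δ) * iq w n q := by
  have p1 := Dm.o1_pos hq
  have p2 := Dm.o2_pos hq
  have eW : W w q = h11 w q * h22 w q - h12 w q ^ 2 := by
    simp only [W, h11, h12, h22, Pi.sub_apply, Pi.mul_apply]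
    ring
  have pW := A.pW q hq
  have e1 : ∀ e, I.hq w e q = qx (h11 w q) (h12 w q) (h22 w q) e := fun e => by
    simp only [I.hq, hb, hs, T2.ap, qx]
    ring
  have e2 : ∀ e, hq0 d.τ e q = qx (o1 d.τ q)⁻¹ 0 (o2 d.τ q)⁻¹ e := fun e => by
    simp only [hq0, qx]
    ring
  have e3 : iq w n q = qi (h11 w q) (h12 w q) (h22 w q) n := by
    simp only [iq, ib, iv2, T2.ap, i11, i12, i22, qi, Pi.mul_apply, Pi.neg_apply, Iv_apply, eW]
    ring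
  have e4 : o1 d.τ q * n.1 ^ 2 + o2 d.τ q * n.2 ^ 2 = qi (o1 d.τ q)⁻¹ 0 (o2 d.τ q)⁻¹ n := by
    simp only [qi]
    field_simp
    ring
  have p3 : 0 < (o1 d.τ q)⁻¹ * (o2 d.τ q)⁻¹ - 0 ^ 2 := by
    rw [zero_pow two_ne_zero, sub_zero]
    positivity
  rw [eW] at pW
  rw [e3, e4]
  exact ⟨(h1.2.2.1 _ _ _ _ _ _ _ (hw.p11 q hq) pW (inv_pos.2 p1) p3).2
      (fun e => by rw [← e1, ← e2]; exact (hn e).2) n,
    (h1.2.2.1 _ _ _ _ _ _ _ (inv_pos.2 p1) p3 (hw.p11 q hq) pW).2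
      (fun e => by rw [← e1, ← e2]; exact (hn e).1) n⟩

theorem sp_surj (fr : Fr) (x : ℝ × ℝ) : ∃ y, fr.sp y = x := by
  have h := mul_inv_cancel₀ fr.det_ne
  refine ⟨((fr.e * (x.1 - fr.p.1) - fr.b * (x.2 - fr.p.2)) * (fr.a * fr.e - fr.b * fr.c)⁻¹,
    (fr.a * (x.2 - fr.p.2) - fr.c * (x.1 - fr.p.1)) * (fr.a * fr.e - fr.b * fr.c)⁻¹), ?_⟩
  ext
  · simp only [Fr.sp, Fr.S, Prod.fst_add]
    linear_combination (x.1 - fr.p.1) * h
  · simp only [Fr.sp, Fr.S, Prod.snd_add]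
    linear_combination (x.2 - fr.p.2) * h

theorem sp_comb (fr : Fr) (x y : ℝ × ℝ) (θ : ℝ) :
    fr.sp (x + θ • (y - x)) = (1 - θ) • fr.sp x + θ • fr.sp y := by
  ext <;> simp [Fr.sp, Fr.S] <;> ring

end Bk1

open Bk1

theorem bk1_ok (h0 : StApi) (h1 : StAlg) (h2 : StFC) (h3 : StFG) (h4 : StAbreu) : StBk1 := by
  intro f d u fr τ δ q z hL hg hc hδ hz ht hq hn
  obtain ⟨-, hU, -, -, -, -, hG, -⟩ := h3.1 fr d τ hc
  have G := hG u hg.gs
  have A := h0 _ _ G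
  have hqU : q ∈ (fr.dm d τ).U := by
    rw [hU]
    exact ⟨ht, by show fr.sp q.2 ∈ d.S; rw [hq]; exact memS hg ht _⟩
  obtain ⟨a1, a2, a3⟩ := frame h0 h2 h4 hL hg ht hq
  rw [hg.ty] at hc
  obtain ⟨b1, b2, b3⟩ := ms1 hc hz
  obtain ⟨c1, c2, c3⟩ := ms2 hc hz
  have hρ := fr.ρ_pos
  have hρ2 : 0 < fr.ρ ^ 2 := by positivity
  have d1 : |g0 τ.1 (ms fr τ z).1 - g0 τ.1 q.2.1| ≤ δ := by
    have e : D e1 (fr.pull u) q = D e1 (wv τ (fr.pull u)) q + g0 τ.1 q.2.1 := A.q1 q hqU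
    rw [a1, b1, mul_div_cancel_left₀ _ hρ2.ne'] at e
    rw [e, add_sub_cancel_right]
    exact hn.2.1
  have d2 : |g0 τ.2 (ms fr τ z).2 - g0 τ.2 q.2.2| ≤ δ := by
    have e : D e2 (fr.pull u) q = D e2 (wv τ (fr.pull u)) q + g0 τ.2 q.2.2 := A.q2 q hqU
    rw [a2, c1, mul_div_cancel_left₀ _ hρ2.ne'] at e
    rw [e, add_sub_cancel_right]
    exact hn.2.2
  have k1 : q.2.1 ∈ ok τ.1 := hqU.2.2.1
  have k2 : q.2.2 ∈ ok τ.2 := hqU.2.2.2
  have m1 := om_cmp b2 k1 hδ d1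
  have m2 := om_cmp c2 k2 hδ d2
  have m1' := om_cmp k1 b2 hδ (by rwa [abs_sub_comm])
  have m2' := om_cmp k2 c2 hδ (by rwa [abs_sub_comm])
  refine ⟨fun v => ?_, ?_, ?_⟩
  · have e1 := hL.qe _ ht z v hz
    obtain ⟨r1, r2⟩ := iq_cmp h1 A G hqU hn.1 (fr.St ((av z v 0).re, (av z v 1).re))
    obtain ⟨s1, s2⟩ := iq_cmp h1 A G hqU hn.1 (fr.St ((av z v 0).im, (av z v 1).im))
    rw [a3] at r1 r2 s1 s2
    have e2 : q0 fr τ z v = (om τ.1 (ms fr τ z).1 * ‖fr.a * av z v 0 + fr.c * av z v 1‖ ^ 2 +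
        om τ.2 (ms fr τ z).2 * ‖fr.b * av z v 0 + fr.e * av z v 1‖ ^ 2) / fr.ρ ^ 2 := by
      unfold q0
      rw [b3, c3, add_div]
    have n1 := norm_sq_lin fr.a fr.c (av z v 0) (av z v 1)
    have n2 := norm_sq_lin fr.b fr.e (av z v 0) (av z v 1)
    have p1 := sq_nonneg ‖fr.a * av z v 0 + fr.c * av z v 1‖
    have p2 := sq_nonneg ‖fr.b * av z v 0 + fr.e * av z v 1‖
    generalize ‖fr.a * av z v 0 + fr.c * av z v 1‖ ^ 2 = N₁ at e2 n1 p1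
    generalize ‖fr.b * av z v 0 + fr.e * av z v 1‖ ^ 2 = N₂ at e2 n2 p2
    have u1 : fr.ρ ^ 2 * qf (sl f (fr.tm q.1)) z v ≤
        (1 + δ) * (om τ.1 q.2.1 * N₁ + om τ.2 q.2.2 * N₂) := by
      have := add_le_add r1 s1
      rw [e1, n1, n2]
      simp only [Fr.St, o1, o2, Fr.dm] at this
      linarith
    have u2 : om τ.1 q.2.1 * N₁ + om τ.2 q.2.2 * N₂ ≤
        (1 + δ) * (fr.ρ ^ 2 * qf (sl f (fr.tm q.1)) z v) := by
      have := add_le_add r2 s2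
      rw [e1, n1, n2]
      simp only [Fr.St, o1, o2, Fr.dm] at this
      linarith
    have v1 := add_le_add (mul_le_mul_of_nonneg_right m1 p1) (mul_le_mul_of_nonneg_right m2 p2)
    have v2 := add_le_add (mul_le_mul_of_nonneg_right m1' p1) (mul_le_mul_of_nonneg_right m2' p2)
    have hE := (Real.exp_pos δ).le
    have h1δ : 0 ≤ 1 + δ := by linarith
    rw [e2]
    constructor
    · rw [← mul_div_assoc, le_div_iff₀ hρ2]
      have := mul_le_mul_of_nonneg_left v2 h1δ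
      linarith
    · rw [div_le_iff₀ hρ2]
      have := mul_le_mul_of_nonneg_left u2 hE
      linarith
  · cases h : τ.1
    · simpa only [g0, h, Bool.false_eq_true, if_false] using d1
    · simpa only [om, h, if_true] using m1
  · cases h : τ.2
    · simpa only [g0, h, Bool.false_eq_true, if_false] using d2
    · simpa only [om, h, if_true] using m2

theorem bk2_ok (h0 : StApi) (h1 : StAlg) (h2 : StFC) (h3 : StFG) (h4 : StAbreu) (h5 : StChg) :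
    StBk2 := by
  intro f d u fr τ δ s z hL hg hcv hc hO hδ hz ht hn hm
  have _ := h1
  obtain ⟨hS, -, -, -, -, -, hG, -⟩ := h3.1 fr d τ hc
  have A := h0 _ _ (hG u hg.gs)
  obtain ⟨y, hy⟩ := sp_surj fr (gr (lg f) (fr.tm s) (lz z))
  have hyS : fr.sp y ∈ d.S := by rw [hy]; exact memS hg ht _
  have hm1 : ms fr τ z ∈ bx τ 1 := bx_mono τ (by norm_num) (by norm_num) hm
  have hmS : fr.sp (ms fr τ z) ∈ d.S := by
    have := (reg_bx (d := fr.dm d τ) hO).sub hm1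
    rwa [hS] at this
  have hin : ∀ x, fr.sp x ∈ d.S → ‖x - ms fr τ z‖ ≤ 1 / 480 → x ∈ bx τ (1 / 16) := by
    intro x hx hd
    have hx' : x ∈ (fr.dm d τ).S := by rwa [hS]
    exact ⟨mem_iv hm.1 hx'.2.1 ((norm_fst_le (x - ms fr τ z)).trans hd),
      mem_iv hm.2 hx'.2.2 ((norm_snd_le (x - ms fr τ z)).trans hd)⟩
  refine ⟨y, hin y hyS ?_, hy⟩
  by_contra hd
  have hd' : 1 / 480 < ‖y - ms fr τ z‖ := not_le.1 hd
  have hN : 0 < ‖y - ms fr τ z‖ := lt_trans (by norm_num) hd'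
  obtain ⟨θ, hθ⟩ : ∃ θ : ℝ, θ = 1 / 480 / ‖y - ms fr τ z‖ := ⟨_, rfl⟩
  have θ0 : 0 < θ := by rw [hθ]; positivity
  have θ1 : θ < 1 := by rw [hθ, div_lt_one hN]; exact hd'
  obtain ⟨x, hx⟩ : ∃ x, x = ms fr τ z + θ • (y - ms fr τ z) := ⟨_, rfl⟩
  have hxS : fr.sp x ∈ d.S := by
    rw [hx, sp_comb]
    exact hcv hmS hyS (by linarith) θ0.le (by ring)
  have hxn : ‖x - ms fr τ z‖ = 1 / 480 := by
    rw [hx, add_sub_cancel_left, norm_smul, Real.norm_of_nonneg θ0.le, hθ,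
      div_mul_cancel₀ _ hN.ne']
  have hxb := hin x hxS hxn.le
  have hxb1 : x ∈ bx τ 1 := bx_mono τ (by norm_num) (by norm_num) hxb
  have hxU : ((s, x) : X) ∈ (fr.dm d τ).U := ⟨ht, by rwa [hS]⟩
  obtain ⟨ζ, hζ⟩ : fr.sp x ∈ range (gr (lg f) (fr.tm s)) := by rwa [hg.rg _ ht]
  obtain ⟨a1, a2, -⟩ := frame (q := (s, x)) h0 h2 h4 hL hg ht hζ.symm
  have mono := (h5 d.I (lg f) hL.pot _ ht).2.2.1 (lz z) ζ
  rw [← hy, hζ] at mono
  rw [hg.ty] at hc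
  have b1 := (ms1 hc hz).1
  have c1 := (ms2 hc hz).1
  have hρ2 : 0 < fr.ρ ^ 2 := pow_pos fr.ρ_pos 2
  have e1' : D e1 (fr.pull u) (s, x) = D e1 (wv τ (fr.pull u)) (s, x) + g0 τ.1 x.1 := A.q1 _ hxU
  have e2' : D e2 (fr.pull u) (s, x) = D e2 (wv τ (fr.pull u)) (s, x) + g0 τ.2 x.2 := A.q2 _ hxU
  rw [a1, div_eq_iff hρ2.ne'] at e1'
  rw [a2, div_eq_iff hρ2.ne'] at e2'
  obtain ⟨-, w1, w2⟩ := hn x hxb
  have g1 := g0_exp hxb1.1 hm1.1
  have g2 := g0_exp hxb1.2 hm1.2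
  have k1 : |x.1 - (ms fr τ z).1| ≤ 1 / 480 := (norm_fst_le (x - ms fr τ z)).trans hxn.le
  have k2 : |x.2 - (ms fr τ z).2| ≤ 1 / 480 := (norm_snd_le (x - ms fr τ z)).trans hxn.le
  have k3 : (1 / 480) ^ 2 ≤ (x.1 - (ms fr τ z).1) ^ 2 + (x.2 - (ms fr τ z).2) ^ 2 := by
    rw [Prod.norm_def] at hxn
    rw [← hxn]
    rcases max_cases ‖(x - ms fr τ z).1‖ ‖(x - ms fr τ z).2‖ with ⟨e, -⟩ | ⟨e, -⟩
    · rw [e, Real.norm_eq_abs, sq_abs]
      exact le_add_of_nonneg_right (sq_nonneg _)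
    · rw [e, Real.norm_eq_abs, sq_abs]
      exact le_add_of_nonneg_left (sq_nonneg _)
  have x1 : x.1 - (ms fr τ z).1 = θ * (y.1 - (ms fr τ z).1) := by rw [hx]; simp
  have x2 : x.2 - (ms fr τ z).2 = θ * (y.2 - (ms fr τ z).2) := by rw [hx]; simp
  have y1 : y.1 - x.1 = (1 - θ) * (y.1 - (ms fr τ z).1) := by linarith
  have y2 : y.2 - x.2 = (1 - θ) * (y.2 - (ms fr τ z).2) := by linarith
  have eip : ip (fr.sp y - fr.sp x) (lz z - ζ) =
      (y.1 - x.1) * (((fr.St (lz z)).1 - fr.l1) - ((fr.St ζ).1 - fr.l1)) +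
      (y.2 - x.2) * (((fr.St (lz z)).2 - fr.l2) - ((fr.St ζ).2 - fr.l2)) := by
    simp only [ip, Fr.sp, Fr.S, Fr.St, Prod.fst_sub, Prod.snd_sub, Prod.fst_add, Prod.snd_add]
    ring
  rw [eip, b1, c1, e1', e2', y1, y2] at mono
  generalize D e1 (wv τ (fr.pull u)) (s, x) = ω₁ at mono w1
  generalize D e2 (wv τ (fr.pull u)) (s, x) = ω₂ at mono w2
  have fin : 0 ≤ (x.1 - (ms fr τ z).1) * (g0 τ.1 (ms fr τ z).1 - g0 τ.1 x.1 - ω₁) +
      (x.2 - (ms fr τ z).2) * (g0 τ.2 (ms fr τ z).2 - g0 τ.2 x.2 - ω₂) := by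
    have hp : 0 < (1 - θ) * fr.ρ ^ 2 := mul_pos (by linarith) hρ2
    refine le_of_mul_le_mul_left ?_ hp
    have := mul_nonneg θ0.le mono
    rw [x1, x2]
    linarith
  have t1 : |(x.1 - (ms fr τ z).1) * ω₁| ≤ 1 / 480 * (1 / 1000) := by
    rw [abs_mul]
    exact mul_le_mul k1 (w1.trans hδ) (abs_nonneg _) (by norm_num)
  have t2 : |(x.2 - (ms fr τ z).2) * ω₂| ≤ 1 / 480 * (1 / 1000) := by
    rw [abs_mul]
    exact mul_le_mul k2 (w2.trans hδ) (abs_nonneg _) (by norm_num)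
  have t3 := (abs_le.1 t1).1
  have t4 := (abs_le.1 t2).1
  norm_num at k3 t3 t4
  linarith

end Pool.Agent.P.MP_2cea5e_gt.I
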