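import Pool.Agent.P.MP_2cea5e_gt.I.St5

/-!
Chapter I: uniform continuity of the flat model and the way back to complex charts.
-/

open scoped ContDiff Topology
open MeasureTheory Set Filter

noncomputable section

set_option linter.dupNamespace false

namespace Pool.Agent.P.MP_2cea5e_gt.I

namespace Bk3

variable {fr : Fr} {τ : Ty} {z v : C2}

/-- The coordinates without face do not vanish. -/
def Om (τ : Ty) (z : C2) : Prop := (τ.1 = false → z 0 ≠ 0) ∧ (τ.2 = false → z 1 ≠ 0)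

theorem Om.c (h : Om τ z) (hC : fr.Cp (true, true) τ) : fr.c = 0 ∨ z 1 ≠ 0 := by
  cases e : τ.2
  · exact Or.inr (h.2 e)
  · exact Or.inl (hC.2 e).2.2.2.2

theorem Om.b (h : Om τ z) (hC : fr.Cp (true, true) τ) : fr.b = 0 ∨ z 0 ≠ 0 := by
  cases e : τ.1
  · exact Or.inr (h.1 e)
  · exact Or.inl (hC.1 e).2.2.2.1

theorem cont_av (c : ℝ) (k : Fin 2) (h : c = 0 ∨ z k ≠ 0) :
    ContinuousAt (fun p : C2 × C2 => (c : ℂ) * av p.1 p.2 k) (z, v) := by
  rcases h with h | h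
  · simp only [h, Complex.ofReal_zero, zero_mul]
    exact continuousAt_const
  · refine continuousAt_const.mul (ContinuousAt.div (by fun_prop)
      (Complex.continuous_conj.continuousAt.comp (by fun_prop)) ?_)
    simpa using h

theorem cont_lg (c : ℝ) (k : Fin 2) (h : c = 0 ∨ z k ≠ 0) :
    ContinuousAt (fun z : C2 => c * Real.log (‖z k‖ ^ 2)) z := by
  rcases h with h | h
  · simp only [h, zero_mul]
    exact continuousAt_const
  · exact continuousAt_const.mul (ContinuousAt.log ((continuous_apply k).continuousAt.norm.pow 2)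
      (by simpa using h))

theorem cont_q0 (h : Om τ z) (hC : fr.Cp (true, true) τ) :
    ContinuousAt (fun p : C2 × C2 => q0 fr τ p.1 p.2) (z, v) := by
  unfold q0
  refine ContinuousAt.add ?_ ?_
  · cases e : τ.1
    · simp only [Bool.false_eq_true, if_false]
      exact (((cont_av _ 0 (Or.inr (h.1 e))).add (cont_av _ 1 (h.c hC))).norm.pow 2).div_const _
    · simp only [if_true]
      fun_prop
  · cases e : τ.2
    · simp only [Bool.false_eq_true, if_false]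
      exact (((cont_av _ 0 (h.b hC)).add (cont_av _ 1 (Or.inr (h.2 e)))).norm.pow 2).div_const _
    · simp only [if_true]
      fun_prop

theorem cont_ms (h : Om τ z) (hC : fr.Cp (true, true) τ) : ContinuousAt (ms fr τ) z := by
  unfold ms
  refine ContinuousAt.prodMk ?_ ?_
  · cases e : τ.1
    · simp only [Bool.false_eq_true, if_false]
      exact (((cont_lg _ 0 (Or.inr (h.1 e))).add (cont_lg _ 1 (h.c hC))).sub
        continuousAt_const).div_const _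
    · simp only [if_true]
      exact ((continuous_apply _).continuousAt.norm.pow 2).mul continuousAt_const
  · cases e : τ.2
    · simp only [Bool.false_eq_true, if_false]
      exact (((cont_lg _ 0 (h.b hC)).add (cont_lg _ 1 (Or.inr (h.2 e)))).sub
        continuousAt_const).div_const _
    · simp only [if_true]
      exact ((continuous_apply _).continuousAt.norm.pow 2).mul continuousAt_const

theorem q0_nn (fr : Fr) (τ : Ty) (z v : C2) : 0 ≤ q0 fr τ z v := by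
  unfold q0
  split_ifs <;> positivity

theorem q0_smul (fr : Fr) (τ : Ty) (z v : C2) (r : ℝ) :
    q0 fr τ z (r • v) = r ^ 2 * q0 fr τ z v := by
  have e : ∀ (x y : ℝ), ‖(x : ℂ) * av z (r • v) 0 + y * av z (r • v) 1‖ ^ 2 =
      r ^ 2 * ‖(x : ℂ) * av z v 0 + y * av z v 1‖ ^ 2 := fun x y => by
    have : (x : ℂ) * av z (r • v) 0 + y * av z (r • v) 1 =
        r * ((x : ℂ) * av z v 0 + y * av z v 1) := by
      simp only [av, Pi.smul_apply, Complex.real_smul]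
      ring
    rw [this, norm_mul, mul_pow, Complex.norm_real, Real.norm_eq_abs, sq_abs]
  have e2 : ∀ k, ‖(r • v) k‖ ^ 2 = r ^ 2 * ‖v k‖ ^ 2 := fun k => by
    rw [Pi.smul_apply, norm_smul, mul_pow, Real.norm_eq_abs, sq_abs]
  unfold q0
  rw [e, e, e2, e2]
  split_ifs <;> ring

theorem av_zero {k : Fin 2} (hz : z k ≠ 0) (h : av z v k = 0) : v k = 0 := by
  simpa [av, hz] using h

theorem q0_pos (h : Om τ z) (hC : fr.Cp (true, true) τ) (hv : v ≠ 0) : 0 < q0 fr τ z v := by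
  refine (q0_nn fr τ z v).lt_of_ne fun e => hv ?_
  have hρ := fr.ρ_pos
  have hd : ((fr.a : ℂ) * fr.e - fr.b * fr.c) ≠ 0 := by exact_mod_cast fr.det_ne
  have p1 : 0 ≤ (if τ.1 then fr.ρ ^ 2 * Real.exp (-1 - fr.l1 / fr.ρ ^ 2) * ‖v 0‖ ^ 2
      else ‖fr.a * av z v 0 + fr.c * av z v 1‖ ^ 2 / fr.ρ ^ 2) := by split_ifs <;> positivity
  have p2 : 0 ≤ (if τ.2 then fr.ρ ^ 2 * Real.exp (-1 - fr.l2 / fr.ρ ^ 2) * ‖v 1‖ ^ 2
      else ‖fr.b * av z v 0 + fr.e * av z v 1‖ ^ 2 / fr.ρ ^ 2) := by split_ifs <;> positivity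
  obtain ⟨z1, z2⟩ := (add_eq_zero_iff_of_nonneg p1 p2).1 e.symm
  have a1 : τ.1 = true → v 0 = 0 := fun e1 => by simpa [e1, hρ.ne'] using z1
  have a2 : τ.2 = true → v 1 = 0 := fun e2 => by simpa [e2, hρ.ne'] using z2
  have b1 : τ.1 = false → (fr.a : ℂ) * av z v 0 + fr.c * av z v 1 = 0 := fun e1 => by
    simpa [e1, hρ.ne'] using z1
  have b2 : τ.2 = false → (fr.b : ℂ) * av z v 0 + fr.e * av z v 1 = 0 := fun e2 => by
    simpa [e2, hρ.ne'] using z2
  have c1 : v 0 = 0 := by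
    cases e1 : τ.1
    · refine av_zero (h.1 e1) (mul_left_cancel₀ hd ?_)
      cases e2 : τ.2
      · linear_combination (fr.e : ℂ) * b1 e1 - (fr.c : ℂ) * b2 e2
      · have hc : (fr.c : ℂ) = 0 := by exact_mod_cast (hC.2 e2).2.2.2.2
        linear_combination (fr.e : ℂ) * b1 e1 - (fr.e * av z v 1 + fr.b * av z v 0) * hc
    · exact a1 e1
  have c2 : v 1 = 0 := by
    cases e2 : τ.2
    · refine av_zero (h.2 e2) (mul_left_cancel₀ hd ?_)
      cases e1 : τ.1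
      · linear_combination (fr.a : ℂ) * b2 e2 - (fr.b : ℂ) * b1 e1
      · have hb : (fr.b : ℂ) = 0 := by exact_mod_cast (hC.1 e1).2.2.2.1
        linear_combination (fr.a : ℂ) * b2 e2 - (fr.a * av z v 0 + fr.c * av z v 1) * hb
    · exact a2 e2
  funext k
  fin_cases k
  · exact c1
  · exact c2

theorem L_bd {x l ρ : ℝ} (hρ : 0 < ρ) (h : (x - l) / ρ ^ 2 ∈ iv false (1 / 40)) :
    |x| ≤ |l| + ρ ^ 2 := by
  have h2 : 0 < ρ ^ 2 := by positivity
  simp only [iv, Bool.false_eq_true, if_false, mem_Ioo] at h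
  rw [lt_div_iff₀ h2, div_lt_iff₀ h2] at h
  rw [abs_le]
  constructor <;> linarith [h.1, h.2, le_abs_self l, neg_abs_le l]

theorem P_bd {x E : ℝ} (h : x * Real.exp E ∈ iv true (1 / 40)) : x ≤ Real.exp (-E) := by
  simp only [iv, if_true, mem_Ioo] at h
  rw [Real.exp_neg, ← one_div, le_div_iff₀ (Real.exp_pos E)]
  linarith [h.2]

theorem solve {a b x y dt w B1 B2 : ℝ} (hd : dt ≠ 0) (e : dt * w = a * x - b * y)
    (h1 : |x| ≤ B1) (h2 : b = 0 ∨ |y| ≤ B2) :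
    |w| ≤ (|a| * B1 + |b| * B2) / |dt| := by
  rw [le_div_iff₀ (abs_pos.mpr hd), mul_comm, ← abs_mul, e]
  refine (abs_sub _ _).trans (add_le_add ?_ ?_)
  · rw [abs_mul]; exact mul_le_mul_of_nonneg_left h1 (abs_nonneg a)
  · rcases h2 with h2 | h2
    · simp [h2]
    · rw [abs_mul]; exact mul_le_mul_of_nonneg_left h2 (abs_nonneg b)

theorem log_bd {x B : ℝ} (hx : 0 < x) (h : |Real.log x| ≤ B) :
    Real.exp (-B) ≤ x ∧ x ≤ Real.exp B := by
  rw [abs_le] at h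
  exact ⟨(Real.le_log_iff_exp_le hx).1 h.1, (Real.log_le_iff_le_exp hx).1 h.2⟩

/-- The points with small model moment map lie in a compact set. -/
theorem exists_cpt (hC : fr.Cp (true, true) τ) : ∃ K : Set C2, IsCompact K ∧ (∀ z ∈ K, Om τ z) ∧
    ∀ z : C2, (∀ k, z k ≠ 0) → ms fr τ z ∈ bx τ (1 / 40) → z ∈ K := by
  have key : ∃ c R : ℝ, 0 < c ∧ ∀ z : C2, (∀ k, z k ≠ 0) → ms fr τ z ∈ bx τ (1 / 40) →
      (‖z 0‖ ^ 2 ≤ R ∧ (τ.1 = false → c ≤ ‖z 0‖ ^ 2)) ∧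
        ‖z 1‖ ^ 2 ≤ R ∧ (τ.2 = false → c ≤ ‖z 1‖ ^ 2) := by
    have hρ := fr.ρ_pos
    obtain ⟨B, hB1, hB2⟩ : ∃ B,
        (|fr.e| * (|fr.l1| + fr.ρ ^ 2) + |fr.c| * (|fr.l2| + fr.ρ ^ 2)) / |fr.det| ≤ B ∧
        (|fr.a| * (|fr.l2| + fr.ρ ^ 2) + |fr.b| * (|fr.l1| + fr.ρ ^ 2)) / |fr.det| ≤ B :=
      ⟨max _ _, le_max_left _ _, le_max_right _ _⟩
    refine ⟨Real.exp (-B), Real.exp B + Real.exp (-(-1 - fr.l1 / fr.ρ ^ 2)) +
      Real.exp (-(-1 - fr.l2 / fr.ρ ^ 2)), Real.exp_pos _, fun z hz hm => ?_⟩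
    have x0 := Real.exp_pos B
    have x1 := Real.exp_pos (-(-1 - fr.l1 / fr.ρ ^ 2))
    have x2 := Real.exp_pos (-(-1 - fr.l2 / fr.ρ ^ 2))
    obtain ⟨m1, m2⟩ := hm
    simp only [ms] at m1 m2
    have s1 : τ.1 = false → |(fr.St (lz z)).1| ≤ |fr.l1| + fr.ρ ^ 2 := fun e => by
      rw [e] at m1; exact L_bd hρ m1
    have s2 : τ.2 = false → |(fr.St (lz z)).2| ≤ |fr.l2| + fr.ρ ^ 2 := fun e => by
      rw [e] at m2; exact L_bd hρ m2
    have n0 : ∀ k, 0 < ‖z k‖ ^ 2 := fun k => pow_pos (norm_pos_iff.mpr (hz k)) 2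
    have t1 : τ.1 = false → |Real.log (‖z 0‖ ^ 2)| ≤ B := fun e =>
      (solve (w := (lz z).1) (y := (fr.St (lz z)).2) fr.det_ne (by simp only [Fr.St]; ring) (s1 e) (by
        cases e2 : τ.2
        · exact Or.inr (s2 e2)
        · exact Or.inl (hC.2 e2).2.2.2.2)).trans hB1
    have t2 : τ.2 = false → |Real.log (‖z 1‖ ^ 2)| ≤ B := fun e =>
      (solve (w := (lz z).2) (y := (fr.St (lz z)).1) fr.det_ne (by simp only [Fr.St]; ring) (s2 e) (by
        cases e1 : τ.1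
        · exact Or.inr (s1 e1)
        · exact Or.inl (hC.1 e1).2.2.2.1)).trans hB2
    refine ⟨⟨?_, fun e => (log_bd (n0 0) (t1 e)).1⟩, ?_, fun e => (log_bd (n0 1) (t2 e)).1⟩
    · cases e : τ.1
      · linarith [(log_bd (n0 0) (t1 e)).2]
      · rw [e] at m1
        linarith [P_bd m1]
    · cases e : τ.2
      · linarith [(log_bd (n0 1) (t2 e)).2]
      · rw [e] at m2
        linarith [P_bd m2]
  obtain ⟨c, R, hc, key⟩ := key
  have cl : ∀ (b : Bool) (k : Fin 2), IsClosed {z : C2 | b = false → c ≤ ‖z k‖ ^ 2} := fun b k => by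
    cases b
    · simp only [forall_const]
      exact isClosed_le continuous_const (by fun_prop)
    · simp
  refine ⟨Metric.closedBall 0 (√R) ∩ ({z | τ.1 = false → c ≤ ‖z 0‖ ^ 2} ∩
    {z | τ.2 = false → c ≤ ‖z 1‖ ^ 2}),
    (isCompact_closedBall _ _).inter_right ((cl _ 0).inter (cl _ 1)), fun z hz => ⟨?_, ?_⟩,
    fun z hz hm => ⟨?_, (key z hz hm).1.2, (key z hz hm).2.2⟩⟩
  · intro e e0
    have := hz.2.1 e
    rw [e0, norm_zero] at this
    linarith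
  · intro e e0
    have := hz.2.2 e
    rw [e0, norm_zero] at this
    linarith
  · rw [mem_closedBall_zero_iff, pi_norm_le_iff_of_nonneg (Real.sqrt_nonneg R)]
    intro k
    refine Real.le_sqrt_of_sq_le ?_
    fin_cases k
    · exact (key z hz hm).1.1
    · exact (key z hz hm).2.1

theorem unif {α β : Type} [PseudoMetricSpace α] [PseudoMetricSpace β] {K : Set α} (hK : IsCompact K)
    {f : α → β} (hf : ∀ a ∈ K, ContinuousAt f a) {η : ℝ} (hη : 0 < η) :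
    ∃ ρ, 0 < ρ ∧ ∀ a ∈ K, ∀ b, dist a b ≤ ρ → dist (f a) (f b) < η := by
  obtain ⟨ρ, h1, h2⟩ := Metric.mem_uniformity_dist.1
    (hK.uniformContinuousAt_of_continuousAt f hf (Metric.dist_mem_uniformity hη))
  exact ⟨ρ / 2, by positivity, fun a ha b hb => h2 (a := a) (b := b) (by linarith) ha⟩

theorem iv_near {b : Bool} {x y : ℝ} (hx : x ∈ iv b (1 / 40)) (hy : b = true → 0 < y)
    (h : |x - y| < 1 / 1000) : y ∈ iv b (1 / 24) := by
  rw [abs_lt] at h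
  cases b
  · simp only [iv, Bool.false_eq_true, if_false, mem_Ioo] at hx ⊢
    constructor <;> linarith [hx.1, hx.2, h.1, h.2]
  · simp only [iv, if_true, mem_Ioo] at hx ⊢
    exact ⟨hy rfl, by linarith [hx.2, h.1]⟩

theorem ms_pos (fr : Fr) (τ : Ty) (hz : ∀ k, z k ≠ 0) :
    (τ.1 = true → 0 < (ms fr τ z).1) ∧ (τ.2 = true → 0 < (ms fr τ z).2) := by
  have n0 : ∀ k, 0 < ‖z k‖ := fun k => norm_pos_iff.mpr (hz k)
  constructor <;> intro e <;> simp only [ms, e, if_true]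
  · have := n0 0
    positivity
  · have := n0 1
    positivity

theorem iv_start {b : Bool} {x y δ : ℝ} (hδ : δ ≤ 1 / 1000) (he : Real.exp δ ≤ 1 + 2 * δ)
    (hy : y ∈ iv b (1 / 48)) (hx : b = true → 0 < x)
    (h : if b then x ≤ Real.exp δ * y else |x - y| ≤ δ) : x ∈ iv b (1 / 40) := by
  cases b
  · simp only [iv, Bool.false_eq_true, if_false, mem_Ioo, abs_le] at hy h ⊢
    constructor <;> linarith [hy.1, hy.2, h.1, h.2]
  · simp only [iv, if_true, mem_Ioo] at hy h ⊢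
    exact ⟨hx rfl, by nlinarith [hy.1, hy.2]⟩

end Bk3

open Bk3

theorem bk3_ok : StBk3 := by
  intro fr τ δ hC hδ
  obtain ⟨K, hK, hO, hm⟩ := exists_cpt hC
  have hKS : IsCompact (K ×ˢ Metric.sphere (0 : C2) 1) := hK.prod (isCompact_sphere _ _)
  have hc : ∀ p ∈ K ×ˢ Metric.sphere (0 : C2) 1,
      ContinuousAt (fun p : C2 × C2 => q0 fr τ p.1 p.2) p := fun p hp => cont_q0 (hO _ hp.1) hC
  have hco : ContinuousOn (fun p : C2 × C2 => q0 fr τ p.1 p.2) (K ×ˢ Metric.sphere (0 : C2) 1) :=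
    fun p hp => (hc p hp).continuousWithinAt
  obtain ⟨m, m0, hlo⟩ := hKS.exists_forall_le' hco (a := 0) (fun p hp =>
    q0_pos (hO _ hp.1) hC (by
      intro e
      have := hp.2
      rw [e] at this
      simp at this))
  obtain ⟨M, hM⟩ := hKS.exists_bound_of_continuousOn hco
  obtain ⟨R, hR⟩ := hK.isBounded.exists_norm_le
  obtain ⟨ρ₁, r1, u1⟩ := unif hKS hc (η := m * (δ / (1 + δ))) (by positivity)
  obtain ⟨ρ₂, r2, u2⟩ := unif hK (f := ms fr τ) (fun z hz => cont_ms (hO z hz) hC)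
    (η := 1 / 1000) (by norm_num)
  have hom : ∀ (P : C2 → Prop), P 0 → (∀ (r : ℝ) v, P v → P (r • v)) →
      (∀ v ∈ Metric.sphere (0 : C2) 1, P v) → ∀ v, P v := by
    intro P h0 h1 h2 v
    by_cases e : v = 0
    · rw [e]; exact h0
    · have n : ‖v‖ ≠ 0 := norm_ne_zero_iff.mpr e
      have := h1 ‖v‖ _ (h2 (‖v‖⁻¹ • v) (by simp [norm_smul, n]))
      rwa [smul_smul, mul_inv_cancel₀ n, one_smul] at this
  have q00 : ∀ z, q0 fr τ z 0 = 0 := fun z => by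
    have := q0_smul fr τ z 0 0
    simpa using this
  have mi : 0 < m⁻¹ := inv_pos.mpr m0
  refine ⟨min ρ₁ ρ₂, |R| + |M| + m⁻¹, lt_min r1 r2, by positivity, fun z₀ h0 hz₀ => ?_⟩
  have hK0 := hm z₀ h0 hz₀
  refine ⟨by linarith [hR z₀ hK0, le_abs_self R, abs_nonneg M], ?_, fun z hz hd => ⟨?_, ?_⟩⟩
  · refine hom _ (by simp [q00]) (fun r v h => ?_) (fun v hv => ?_)
    · rw [q0_smul, norm_smul, mul_pow, Real.norm_eq_abs, sq_abs]
      constructor <;> nlinarith [h.1, h.2, sq_nonneg r]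
    · have a1 : m ≤ q0 fr τ z₀ v := hlo (z₀, v) ⟨hK0, hv⟩
      have a2 : q0 fr τ z₀ v ≤ M := (le_abs_self _).trans (hM (z₀, v) ⟨hK0, hv⟩)
      have a3 : m⁻¹ * m = 1 := inv_mul_cancel₀ m0.ne'
      rw [mem_sphere_zero_iff_norm.1 hv]
      constructor
      · nlinarith [abs_nonneg R, abs_nonneg M]
      · linarith [le_abs_self M, abs_nonneg R]
  · have := u2 z₀ hK0 z (by rw [dist_comm, dist_eq_norm]; exact hd.trans (min_le_right _ _))
    rw [Prod.dist_eq, max_lt_iff, Real.dist_eq, Real.dist_eq] at this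
    exact ⟨iv_near hz₀.1 (ms_pos fr τ hz).1 this.1, iv_near hz₀.2 (ms_pos fr τ hz).2 this.2⟩
  · refine hom _ (by simp [q00]) (fun r v h => ?_) (fun v hv => ?_)
    · rw [q0_smul, q0_smul]
      constructor <;> nlinarith [h.1, h.2, sq_nonneg r]
    · have a1 : m ≤ q0 fr τ z₀ v := hlo (z₀, v) ⟨hK0, hv⟩
      have a2 := u1 (z₀, v) ⟨hK0, hv⟩ (z, v) (by
        rw [Prod.dist_eq, dist_self, max_le_iff, dist_comm, dist_eq_norm]
        exact ⟨hd.trans (min_le_left _ _), r1.le⟩)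
      rw [Real.dist_eq, abs_lt] at a2
      dsimp only at a2
      have a3 : δ / (1 + δ) * (1 + δ) = δ := by field_simp
      have a4 : 0 < δ / (1 + δ) := by positivity
      generalize δ / (1 + δ) = η at a2 a3 a4
      have a5 : m * η * (1 + δ) ≤ δ * q0 fr τ z₀ v := by nlinarith
      have a6 : 0 < m * η := by positivity
      constructor <;> nlinarith [a2.1, a2.2]

theorem back_ok (h1 : StBk1) (h2 : StBk2) (h3 : StBk3) : StBack := by
  intro f d u fr τ T δ hL hG hcv hT hC hO hI hδ hδ1 hN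
  obtain ⟨ρ₃, Λ₃, r3, l3, h3⟩ := h3 fr τ δ (hG.ty ▸ hC) hδ
  have h4 : 0 < fr.ρ ^ 4 := pow_pos fr.ρ_pos 4
  have he : Real.exp δ ≤ 1 + 2 * δ := by
    have := Real.abs_exp_sub_one_le (x := δ) (by rw [abs_of_pos hδ]; linarith)
    rw [abs_of_pos hδ] at this
    linarith [le_abs_self (Real.exp δ - 1)]
  have he0 := Real.exp_pos δ
  obtain ⟨κ, hκ, k0, k1⟩ : ∃ κ, κ = (1 + δ) * Real.exp δ ∧ 0 < κ ∧ κ ≤ 1 + 4 * δ :=
    ⟨_, rfl, by positivity, by nlinarith⟩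
  have k2 : κ * (1 + δ) * κ ≤ 1 + 10 * δ := by
    have : κ * κ ≤ (1 + 4 * δ) * (1 + 4 * δ) := mul_le_mul k1 k1 k0.le (by linarith)
    have h5 : κ * (1 + δ) * κ ≤ (1 + 4 * δ) * (1 + 4 * δ) * (1 + δ) := by
      rw [mul_right_comm]; exact mul_le_mul_of_nonneg_right this (by linarith)
    have h6 : δ * δ ≤ δ / 1000 := by nlinarith
    have h7 : δ * δ * δ ≤ δ / 1000 := by nlinarith
    nlinarith
  have htm : ∀ s, fr.tm ((s - T) / fr.ρ ^ 4) = s := fun s => by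
    simp only [Fr.tm, hT]
    rw [mul_div_cancel₀ _ h4.ne']
    ring
  have hs : ∀ s, T - fr.ρ ^ 4 / 2 < s → s < T →
      (s - T) / fr.ρ ^ 4 ∈ Ioo (-1 / 2 : ℝ) 0 ∧ s ∈ d.I := fun s s1 s2 =>
    ⟨⟨by rw [lt_div_iff₀ h4]; linarith, div_neg_of_neg_of_pos (by linarith) h4⟩,
      hI ⟨by linarith, s2⟩⟩
  have key : ∀ s, T - fr.ρ ^ 4 / 2 < s → s < T → ∀ z : C2, (∀ k, z k ≠ 0) → ∀ y ∈ bx τ (1 / 16),
      fr.sp y = gr (lg f) s (lz z) →
      (∀ v, qf (sl f s) z v ≤ κ * q0 fr τ z v ∧ q0 fr τ z v ≤ κ * qf (sl f s) z v) ∧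
      (if τ.1 then (ms fr τ z).1 ≤ Real.exp δ * y.1 else |(ms fr τ z).1 - y.1| ≤ δ) ∧
      (if τ.2 then (ms fr τ z).2 ≤ Real.exp δ * y.2 else |(ms fr τ z).2 - y.2| ≤ δ) := by
    intro s s1 s2 z hz y hy e
    have := h1 f d u fr τ δ ((s - T) / fr.ρ ^ 4, y) z hL hG hC hδ.le hz
      (by rw [htm]; exact (hs s s1 s2).2) (by rw [htm]; exact e) (hN _ (hs s s1 s2).1 y hy)
    rw [htm, ← hκ] at this
    exact this
  refine ⟨min (ρ₃ / 2) (fr.ρ ^ 4 / 4), 2 * Λ₃, lt_min (by positivity) (by positivity), ?_⟩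
  rintro ρ' Λ' hρ hΛ t ht z₀ h0 ⟨y₀, hy₀, e₀⟩
  have p1 : ρ' ≤ ρ₃ / 2 := hρ.trans (min_le_left _ _)
  have p2 : ρ' ≤ fr.ρ ^ 4 / 4 := hρ.trans (min_le_right _ _)
  obtain ⟨a1, a2, a3⟩ := key t (by linarith [ht.1]) ht.2 z₀ h0 y₀
    (bx_mono τ (by norm_num) (by norm_num) hy₀) e₀
  obtain ⟨b1, b2, b3⟩ := h3 z₀ h0 ⟨iv_start hδ1 he hy₀.1 (ms_pos fr τ h0).1 a2,
    iv_start hδ1 he hy₀.2 (ms_pos fr τ h0).2 a3⟩
  have nn : ∀ v, 0 ≤ qf (sl f t) z₀ v := fun v =>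
    nonneg_of_mul_nonneg_right ((q0_nn fr τ z₀ v).trans (a1 v).2) k0
  have k3 : κ * Λ₃ ≤ Λ' := by nlinarith
  refine ⟨by linarith, fun v => ⟨?_, ?_⟩, fun s hs' z hz v => ?_⟩
  · calc _ ≤ Λ₃ * (κ * qf (sl f t) z₀ v) :=
          (b2 v).1.trans (mul_le_mul_of_nonneg_left (a1 v).2 l3.le)
      _ = κ * Λ₃ * qf (sl f t) z₀ v := by ring
      _ ≤ _ := mul_le_mul_of_nonneg_right k3 (nn v)
  · calc _ ≤ κ * (Λ₃ * ‖v‖ ^ 2) := (a1 v).1.trans (mul_le_mul_of_nonneg_left (b2 v).2 k0.le)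
      _ = κ * Λ₃ * ‖v‖ ^ 2 := by ring
      _ ≤ _ := mul_le_mul_of_nonneg_right k3 (sq_nonneg _)
  · have s1 : T - fr.ρ ^ 4 / 2 < s := by linarith [ht.1, hs'.1]
    have s2 : s < T := hs'.2.trans_lt ht.2
    have dn : Dense (Set.pi univ fun _ : Fin 2 => ({0}ᶜ : Set ℂ)) :=
      dense_pi univ fun _ _ => dense_compl_singleton 0
    have cl : IsClosed {z : C2 | |qf (sl f s) z v - qf (sl f t) z₀ v| ≤
        10 * δ * qf (sl f t) z₀ v} :=
      isClosed_le ((hL.qc s (hs s s1 s2).2 v).sub continuous_const).abs continuous_const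
    refine closure_minimal ?_ cl (dn.open_subset_closure_inter (Metric.isOpen_ball (x := z₀)
      (ε := ρ₃)) (mem_ball_iff_norm.2 (by linarith)))
    rintro w ⟨w1, w2⟩
    have w3 : ∀ k, w k ≠ 0 := fun k => w2 k trivial
    obtain ⟨c1, c2⟩ := b3 w w3 (mem_ball_iff_norm.1 w1).le
    obtain ⟨y, hy, e⟩ := h2 f d u fr τ δ ((s - T) / fr.ρ ^ 4) w hL hG hcv hC hO hδ1 w3
      (by rw [htm]; exact (hs s s1 s2).2) (hN _ (hs s s1 s2).1) c1
    rw [htm] at e
    obtain ⟨d1, d2⟩ := (key s s1 s2 w w3 y hy e).1 v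
    obtain ⟨d3, d4⟩ := a1 v
    obtain ⟨d5, d6⟩ := c2 v
    have n1 := nn v
    have n2 : 0 ≤ qf (sl f s) w v := nonneg_of_mul_nonneg_right ((q0_nn fr τ w v).trans d2) k0
    have hδ' : 0 ≤ 1 + δ := by linarith
    have f1 : qf (sl f s) w v ≤ (1 + 10 * δ) * qf (sl f t) z₀ v :=
      calc _ ≤ κ * ((1 + δ) * (κ * qf (sl f t) z₀ v)) := d1.trans (mul_le_mul_of_nonneg_left
            (d5.trans (mul_le_mul_of_nonneg_left d4 hδ')) k0.le)
        _ = κ * (1 + δ) * κ * qf (sl f t) z₀ v := by ring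
        _ ≤ _ := mul_le_mul_of_nonneg_right k2 n1
    have f2 : qf (sl f t) z₀ v ≤ (1 + 10 * δ) * qf (sl f s) w v :=
      calc _ ≤ κ * ((1 + δ) * (κ * qf (sl f s) w v)) := d3.trans (mul_le_mul_of_nonneg_left
            (d6.trans (mul_le_mul_of_nonneg_left d2 hδ')) k0.le)
        _ = κ * (1 + δ) * κ * qf (sl f s) w v := by ring
        _ ≤ _ := mul_le_mul_of_nonneg_right k2 n2
    rw [mem_ofPred_eq, abs_le]
    constructor
    · rcases le_total (qf (sl f s) w v) (qf (sl f t) z₀ v) with h | h <;> nlinarith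
    · linarith

end Pool.Agent.P.MP_2cea5e_gt.I
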