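import Pool.Agent.P.MP_2cea5e_gt.I.St5

/-!
Chapter I: the data of one vertex chart.
-/

open scoped ContDiff Topology
open MeasureTheory Set Filter

noncomputable section

set_option linter.dupNamespace false

namespace Pool.Agent.P.MP_2cea5e_gt.I

namespace CSa

variable {d : Dm} {a b : ℝ} {f u F : X → ℝ}

theorem U_sub (h : Ioo a b ⊆ d.I) : (d.res a b).U ⊆ d.U := prod_mono h Subset.rfl

theorem Uc_sub (h : Ioo a b ⊆ d.I) : (d.res a b).Uc ⊆ d.Uc := prod_mono h Subset.rfl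

theorem bd0 (h : Ioo a b ⊆ d.I) (hf : Bd0 d f) : Bd0 (d.res a b) f := fun K h1 h2 =>
  let ⟨C, hC⟩ := hf K h1 (h2.trans (Uc_sub h)); ⟨C, fun p hp hU => hC p hp (U_sub h hU)⟩

theorem lw (h : Ioo a b ⊆ d.I) (hf : Lw d f) : Lw (d.res a b) f := fun K h1 h2 =>
  let ⟨C, h0, hC⟩ := hf K h1 (h2.trans (Uc_sub h)); ⟨C, h0, fun p hp hU => hC p hp (U_sub h hU)⟩

theorem bk (h : Ioo a b ⊆ d.I) {k : ℕ} (hf : Bk d k f) : Bk (d.res a b) k f := by
  induction k generalizing f with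
  | zero => exact bd0 h hf
  | succ k ih => exact ⟨bd0 h hf.1, fun v => ih (hf.2 v)⟩

theorem bd (h : Ioo a b ⊆ d.I) (hf : Bd d f) : Bd (d.res a b) f :=
  ⟨hf.sm.mono (U_sub h), fun k => bk h (hf.bk k)⟩

theorem gs (h : Ioo a b ⊆ d.I) (hg : GS d u F) : GS (d.res a b) u F where
  bd := bd h hg.bd
  cont := hg.cont.mono (Uc_sub h)
  p11 := fun p hp => hg.p11 p (U_sub h hp)
  nd := lw h hg.nd
  eqn := fun p hp => hg.eqn p (U_sub h hp)
  lcF := ⟨hg.lcF.cont.mono (U_sub h), bd0 h hg.lcF.bd⟩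
  f1 := fun p hp => hg.f1 p (U_sub h hp)
  f2 := fun p hp => hg.f2 p (U_sub h hp)

theorem contW (hA : Api d u) : ContinuousOn (W u) d.U := by
  refine ((hA.bW.sm.continuousOn.div (f := o1 d.τ * o2 d.τ * W u) (g := o1 d.τ * o2 d.τ)
    ((sm_o1 _).continuous.mul (sm_o2 _).continuous).continuousOn) fun p hp =>
      (mul_pos (Dm.o1_pos hp) (Dm.o2_pos hp)).ne').congr fun p hp => ?_
  have h1 := (Dm.o1_pos hp).ne'
  have h2 := (Dm.o2_pos hp).ne'
  simp only [Pi.div_apply, Pi.mul_apply]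
  field_simp

end CSa

theorem cs_ok (h0 : StApi) (h1 : StCurv) (h2 : StChg) (h3 : StAbreu) (h4 : StLogB) (h5 : StSoft)
    (h6 : StEner) : StCS := by
  intro ι f T δ C d u d' u' fr hT hδ hI hL hG hGl hb
  have hA := h0 d u hG.gs
  obtain ⟨c1, -, c3⟩ := h1 d u hG.gs
  have hoc : d.I.OrdConnected := hI ▸ ordConnected_Ioo
  obtain ⟨-, s2, s3⟩ := h5 ι d u d' u' fr hGl hoc
  obtain ⟨n1, n2⟩ := h6 ι d u d' u' fr hGl hoc
  obtain ⟨L, hLB⟩ := h4 δ C hδ
  have hsub : Ioo (T / 2) T ⊆ d.I := hI ▸ Ioo_subset_Ioo (by linarith) le_rfl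
  have hhalf : T / 2 ∈ d.I := hI ▸ ⟨by linarith, by linarith⟩
  have hb' := fun t (ht : t ∈ Ioo (T / 2) T) => hb t ⟨ht.1.le, ht.2⟩
  have hC : 0 ≤ C := (abs_nonneg _).trans ((hb (T / 2) ⟨le_rfl, by linarith⟩).1 0)
  have hab := h3 d.I (lg f) u d.S hL.pot d.isOpen_S hA.sm fun p hp =>
    ⟨hG.rg p.1 hp ▸ mem_range_self p.2, hG.eq p hp⟩
  set E : ℝ := ∫ y in d.S, rm u (T / 2, y) with hE
  refine ⟨max (max 1 C) (max L (4 * E)), CSa.gs hsub c1, hG.ty, by linarith, rfl,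
    le_max_of_le_left (le_max_left _ _), ?_, ?_, ?_, ?_, ?_, ?_⟩
  · rintro ⟨t, y⟩ ⟨ht, hy⟩
    obtain ⟨ζ, rfl⟩ : y ∈ range (gr (lg f) t) := by rw [hG.rg t (hsub ht)]; exact hy
    have := hG.eq (t, ζ) (hsub ht)
    refine le_max_of_le_left (le_max_of_le_right ?_)
    change |u (t, grad (lg f) (t, ζ))| ≤ C
    rw [this]
    exact (hb' t ht).1 ζ
  · intro t ht y r hr hr1 hball
    change Metric.ball y r ⊆ d.S at hball
    rw [← hG.rg t (hsub ht)] at hball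
    obtain ⟨ζ, rfl⟩ := hball (Metric.mem_ball_self hr)
    obtain ⟨k1, k2⟩ := hLB d.I (lg f) hL.pot t (hsub ht) (hb' t ht).2.2 ζ r hr hr1 hball
    obtain ⟨a1, a2, -⟩ := hab (t, ζ) (hsub ht)
    have hl : 0 ≤ 1 - Real.log r := by linarith [Real.log_nonpos hr.le hr1]
    have hm := mul_le_mul_of_nonneg_right
      (le_max_of_le_right (le_max_left L (4 * E)) : L ≤ max (max 1 C) (max L (4 * E))) hl
    change |D e1 u (t, grad (lg f) (t, ζ))| ≤ _ ∧ |D e2 u (t, grad (lg f) (t, ζ))| ≤ _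
    rw [a1, a2]
    exact ⟨k1.trans hm, k2.trans hm⟩
  · intro t ht
    change IntegrableOn _ d.S ∧ ∫ y in d.S, _ ≤ _
    have hnn : 0 ≤ᵐ[volume.restrict d.S] fun y => (√(√(W u (t, y))))⁻¹ :=
      Eventually.of_forall fun y => inv_nonneg.2 (Real.sqrt_nonneg _)
    have hms : AEStronglyMeasurable (fun y => (√(√(W u (t, y))))⁻¹) (volume.restrict d.S) := by
      have : ContinuousOn (fun y => W u (t, y)) d.S :=
        (CSa.contW hA).comp (continuous_const.prodMk continuous_id).continuousOn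
          fun _ hy => ⟨hsub ht, hy⟩
      exact ((this.sqrt.sqrt.aemeasurable d.isOpen_S.measurableSet).inv).aestronglyMeasurable
    have hl : ∫⁻ y in d.S, ENNReal.ofReal (√(√(W u (t, y))))⁻¹ ≤ ENNReal.ofReal C := by
      rw [← hG.rg t (hsub ht), ← image_univ,
        (h2 d.I (lg f) hL.pot t (hsub ht)).2.2.2 univ _ MeasurableSet.univ, Measure.restrict_univ]
      refine le_trans (le_of_eq (lintegral_congr fun ζ => ?_)) (hb' t ht).2.1
      have a4 : W u (t, gr (lg f) t ζ) = (W (lg f) (t, ζ))⁻¹ := (hab (t, ζ) (hsub ht)).2.2.2.1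
      rw [a4, Real.sqrt_inv, Real.sqrt_inv, inv_inv,
        ENNReal.ofReal_mul (hL.pot.pw (t, ζ) (hsub ht)).le]
    refine ⟨⟨hms, (hasFiniteIntegral_iff_ofReal hnn).2 (hl.trans_lt ENNReal.ofReal_lt_top)⟩, ?_⟩
    rw [integral_eq_lintegral_of_nonneg_ae hnn hms]
    exact le_max_of_le_left (le_max_of_le_right (ENNReal.toReal_le_of_le_ofReal hC hl))
  · intro t ht
    change IntegrableOn _ d.S ∧ ∫ y in d.S, _ ≤ _
    have he : EqOn (fun y => 4 * rm u (t, y)) (fun y => fc u (t, y) ^ 2) d.S := fun y hy => by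
      simp only [fc, mul_pow, Real.sq_sqrt (c3 (t, y) ⟨hsub ht, hy⟩)]
      norm_num
    refine ⟨IntegrableOn.congr_fun ((n1 t (hsub ht)).const_mul 4) he d.isOpen_S.measurableSet, ?_⟩
    rw [← setIntegral_congr_fun d.isOpen_S.measurableSet he, integral_const_mul]
    refine le_max_of_le_right (le_max_of_le_right ?_)
    have : ∫ y in d.S, rm u (t, y) ≤ E := n2 hhalf (hsub ht) ht.1.le
    linarith
  · exact fun s hs => (s2 s (hsub hs)).mono hsub
  · exact fun s hs t ht => s3 s (hsub hs) t (hsub ⟨hs.1.trans ht.1, ht.2⟩) ht.1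

end Pool.Agent.P.MP_2cea5e_gt.I
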