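import Pool.Agent.P.MP_2cea5e_gt.I.St3

/-!
Chapter I: the Caccioppoli inequality.
-/

open scoped ContDiff Topology
open MeasureTheory Set Filter

noncomputable section

set_option linter.dupNamespace false

namespace Pool.Agent.P.MP_2cea5e_gt.I

namespace Cac

/-- A product of functions of the two space variables. -/
def tp (α β : ℝ → ℝ) : X → ℝ := fun p => α p.2.1 * β p.2.2
/-- A function of the space variables. -/
def up (f : ℝ × ℝ → ℝ) : X → ℝ := fun p => f p.2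

section Tp

variable {α β : ℝ → ℝ}

theorem sm_tp (hα : ContDiff ℝ ∞ α) (hβ : ContDiff ℝ ∞ β) : Sm (tp α β) :=
  (hα.comp (contDiff_fst.comp contDiff_snd)).mul (hβ.comp (contDiff_snd.comp contDiff_snd))

theorem tp1 (hα : ContDiff ℝ ∞ α) (hβ : ContDiff ℝ ∞ β) : D e1 (tp α β) = tp (deriv α) β := by
  funext ⟨t, a, b⟩
  exact (hasDerivAt_y1 ((sm_tp hα hβ).diff _)).unique
    ((hα.differentiable (by simp) a).hasDerivAt.mul_const (β b))

theorem tp2 (hα : ContDiff ℝ ∞ α) (hβ : ContDiff ℝ ∞ β) : D e2 (tp α β) = tp α (deriv β) := by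
  funext ⟨t, a, b⟩
  exact (hasDerivAt_y2 ((sm_tp hα hβ).diff _)).unique
    ((hβ.differentiable (by simp) b).hasDerivAt.const_mul (α a))

theorem sm_deriv (hα : ContDiff ℝ ∞ α) : ContDiff ℝ ∞ (deriv α) := (contDiff_infty_iff_deriv.1 hα).2

end Tp

theorem out_zero {b : Bool} {R : ℝ} {χ : ℝ → ℝ} (h : ∀ x ∈ okc b, χ x ≠ 0 → x ∈ ivc b R) {x : ℝ}
    (hx : x ∈ ok b) (hn : x ∉ ivc b R) : χ x = 0 ∧ deriv χ x = 0 ∧ deriv (deriv χ) x = 0 := by
  have hV : IsOpen (ok b \ ivc b R) := (isOpen_ok b).sdiff (isCompact_ivc b R).isClosed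
  have key : ∀ g : ℝ → ℝ, (∀ y ∈ ok b \ ivc b R, g y = 0) → ∀ y ∈ ok b \ ivc b R, deriv g y = 0 := by
    intro g hg y hy
    have : g =ᶠ[𝓝 y] fun _ => 0 := by
      filter_upwards [hV.mem_nhds hy] with z hz using hg z hz
    rw [this.deriv_eq, deriv_const]
  have h0 : ∀ y ∈ ok b \ ivc b R, χ y = 0 := fun y hy => by
    by_contra hne
    exact hy.2 (h y (ok_subset b hy.1) hne)
  exact ⟨h0 x ⟨hx, hn⟩, key _ h0 x ⟨hx, hn⟩, key _ (key _ h0) x ⟨hx, hn⟩⟩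

theorem om_ge {b : Bool} {r x : ℝ} (hr : r ^ 2 ≤ 1) (hx : x ∈ ok b) (hn : x ∉ ivc b r) :
    r ^ 2 ≤ om b x := by
  cases b
  · simpa [om] using hr
  · simp only [ok, ivc, om, if_true, mem_Ioi, mem_Icc, not_and, not_le] at hx hn ⊢
    exact (hn hx.le).le

theorem om_le {b : Bool} {x : ℝ} (hx : x ∈ iv b 1) : om b x ≤ 1 := by
  cases b
  · simp [om]
  · simp only [iv, om, if_true, mem_Ioo, one_pow] at hx ⊢
    exact hx.2.le

theorem an_mono (τ : Ty) {r s r' s' : ℝ} (h0 : 0 ≤ r) (h : r ≤ r') (h' : s' ^ 2 ≤ s ^ 2) :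
    An τ r s ⊆ An τ r' s' := fun _ hy =>
  ⟨bx_mono τ h0 h hy.1, hy.2.imp h'.trans h'.trans⟩

theorem abs_mul_le {a b A B : ℝ} (ha : |a| ≤ A) (hb : |b| ≤ B) : |a * b| ≤ A * B := by
  rw [abs_mul]
  exact mul_le_mul ha hb (abs_nonneg _) ((abs_nonneg _).trans ha)

/-- The two cutoff functions. -/
structure Cu (τ : Ty) (η ς : ℝ × ℝ → ℝ) (L : ℝ) : Prop where
  one : 1 ≤ L
  sη : Sm (up η)
  sς : ContDiff ℝ ∞ ς
  η0 : ∀ y, 0 ≤ η y ∧ η y ≤ 1
  ς0 : ∀ y, ς y ^ 2 ≤ 1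
  η1 : ∀ y ∈ bx τ (1 / 2), η y = 1
  van : ∀ y ∈ bx τ 1, y ∉ bx τ (11 / 20) → η y = 0
  an : ∀ y ∈ bx τ 1, ς y ≠ 0 → y ∈ An τ (29 / 50) (3 / 10)
  bd : ∀ p, |D e1 (up η) p| ≤ L ∧ |D e2 (up η) p| ≤ L ∧ |h11 (up η) p| ≤ L ∧
    |h12 (up η) p| ≤ L ∧ |h22 (up η) p| ≤ L
  alt : ∀ t, ∀ y ∈ bx τ 1, ς y = 1 ∨ (D e1 (up η) (t, y) = 0 ∧ D e2 (up η) (t, y) = 0 ∧
    h11 (up η) (t, y) = 0 ∧ h12 (up η) (t, y) = 0 ∧ h22 (up η) (t, y) = 0)

theorem cut (h0 : StCut) (τ : Ty) : ∃ η ς L, Cu τ η ς L := by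
  obtain ⟨α, sα, α0, α1, α2, A, hA⟩ := h0 τ.1 (1 / 2) (11 / 20) (by norm_num) (by norm_num)
  obtain ⟨β, sβ, β0, β1, β2, B, hB⟩ := h0 τ.2 (1 / 2) (11 / 20) (by norm_num) (by norm_num)
  obtain ⟨γ, sγ, γ0, γ1, γ2, -⟩ := h0 τ.1 (11 / 20) (29 / 50) (by norm_num) (by norm_num)
  obtain ⟨δ, sδ, δ0, δ1, δ2, -⟩ := h0 τ.2 (11 / 20) (29 / 50) (by norm_num) (by norm_num)
  obtain ⟨μ, sμ, μ0, μ1, μ2, -⟩ := h0 τ.1 (3 / 10) (1 / 2) (by norm_num) (by norm_num)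
  obtain ⟨ν, sν, ν0, ν1, ν2, -⟩ := h0 τ.2 (3 / 10) (1 / 2) (by norm_num) (by norm_num)
  have eη : up (fun y => α y.1 * β y.2) = tp α β := rfl
  have d11 : h11 (tp α β) = tp (deriv (deriv α)) β := by
    rw [h11, tp1 sα sβ, tp1 (sm_deriv sα) sβ]
  have d12 : h12 (tp α β) = tp (deriv α) (deriv β) := by
    rw [h12, tp2 sα sβ, tp1 sα (sm_deriv sβ)]
  have d22 : h22 (tp α β) = tp α (deriv (deriv β)) := by
    rw [h22, tp2 sα sβ, tp2 sα (sm_deriv sβ)]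
  have A0 : 0 ≤ A := (abs_nonneg _).trans (hA 0).1
  have B0 : 0 ≤ B := (abs_nonneg _).trans (hB 0).1
  have AB := mul_nonneg A0 B0
  refine ⟨fun y => α y.1 * β y.2, fun y => γ y.1 * δ y.2 * (1 - μ y.1 * ν y.2),
    (1 + A) * (1 + B), by nlinarith, sm_tp sα sβ, by fun_prop,
    fun y => ⟨mul_nonneg (α0 _).1 (β0 _).1, mul_le_one₀ (α0 _).2 (β0 _).1 (β0 _).2⟩,
    fun y => ?_, fun y hy => ?_, fun y hy hn => ?_, fun y hy hn => ?_, fun p => ?_,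
    fun t y hy => ?_⟩
  · have h1 := mul_nonneg (γ0 y.1).1 (δ0 y.2).1
    have h2 := mul_le_one₀ (γ0 y.1).2 (δ0 y.2).1 (δ0 y.2).2
    have h3 := mul_nonneg (μ0 y.1).1 (ν0 y.2).1
    have h4 := mul_le_one₀ (μ0 y.1).2 (ν0 y.2).1 (ν0 y.2).2
    exact pow_le_one₀ (mul_nonneg h1 (by linarith)) (mul_le_one₀ h2 (by linarith) (by linarith))
  · rw [(α1 _ (iv_subset_ivc _ _ hy.1)).1, (β1 _ (iv_subset_ivc _ _ hy.2)).1, one_mul]
  · by_contra hne
    have o1 := iv_subset_ok _ _ hy.1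
    have o2 := iv_subset_ok _ _ hy.2
    exact hn ⟨(α2 _ (ok_subset _ o1) (left_ne_zero_of_mul hne)).2 o1,
      (β2 _ (ok_subset _ o2) (right_ne_zero_of_mul hne)).2 o2⟩
  · have o1 := iv_subset_ok _ _ hy.1
    have o2 := iv_subset_ok _ _ hy.2
    have h1 := left_ne_zero_of_mul hn
    refine ⟨⟨(γ2 _ (ok_subset _ o1) (left_ne_zero_of_mul h1)).2 o1,
      (δ2 _ (ok_subset _ o2) (right_ne_zero_of_mul h1)).2 o2⟩, ?_⟩
    by_cases c1 : y.1 ∈ ivc τ.1 (3 / 10)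
    · refine Or.inr (om_ge (by norm_num) o2 fun c2 => right_ne_zero_of_mul hn ?_)
      rw [(μ1 _ c1).1, (ν1 _ c2).1]
      norm_num
    · exact Or.inl (om_ge (by norm_num) o1 c1)
  · have a0 : |α p.2.1| ≤ 1 + A := by rw [abs_of_nonneg (α0 _).1]; linarith [(α0 p.2.1).2]
    have b0 : |β p.2.2| ≤ 1 + B := by rw [abs_of_nonneg (β0 _).1]; linarith [(β0 p.2.2).2]
    have a1 : |deriv α p.2.1| ≤ 1 + A := by linarith [(hA p.2.1).1]
    have a2 : |deriv (deriv α) p.2.1| ≤ 1 + A := by linarith [(hA p.2.1).2]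
    have b1 : |deriv β p.2.2| ≤ 1 + B := by linarith [(hB p.2.2).1]
    have b2 : |deriv (deriv β) p.2.2| ≤ 1 + B := by linarith [(hB p.2.2).2]
    rw [eη, tp1 sα sβ, tp2 sα sβ, d11, d12, d22]
    exact ⟨abs_mul_le a1 b0, abs_mul_le a0 b1, abs_mul_le a2 b0, abs_mul_le a1 b1,
      abs_mul_le a0 b2⟩
  · have o1 := iv_subset_ok _ _ hy.1
    have o2 := iv_subset_ok _ _ hy.2
    rw [eη, tp1 sα sβ, tp2 sα sβ, d11, d12, d22]
    simp only [tp]
    by_cases c1 : y.1 ∈ ivc τ.1 (11 / 20)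
    swap
    · obtain ⟨k1, k2, k3⟩ := out_zero (fun x hx h => (α2 x hx h).1) o1 c1
      right
      simp [k1, k2, k3]
    by_cases c2 : y.2 ∈ ivc τ.2 (11 / 20)
    swap
    · obtain ⟨k1, k2, k3⟩ := out_zero (fun x hx h => (β2 x hx h).1) o2 c2
      right
      simp [k1, k2, k3]
    by_cases c3 : y.1 ∈ ivc τ.1 (1 / 2) ∧ y.2 ∈ ivc τ.2 (1 / 2)
    · obtain ⟨-, k1, k2⟩ := α1 _ c3.1
      obtain ⟨-, k3, k4⟩ := β1 _ c3.2
      right
      simp [k1, k2, k3, k4]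
    · left
      have : μ y.1 * ν y.2 = 0 := by
        by_contra hne
        exact c3 ⟨(μ2 _ (ok_subset _ o1) (left_ne_zero_of_mul hne)).1,
          (ν2 _ (ok_subset _ o2) (right_ne_zero_of_mul hne)).1⟩
      rw [this, (γ1 _ c1).1, (δ1 _ c2).1]
      norm_num

theorem young {x G M g k : ℝ} (hk : 0 < k) (hG : 0 ≤ G) (hM : 0 ≤ M) (hg : 0 ≤ g)
    (h : x ^ 2 ≤ G * M * g) : 2 * x ≤ k * G + M / k * g := by
  have e : k * (M / k) = M := mul_div_cancel₀ _ hk.ne'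
  have h1 : 0 ≤ k * G + M / k * g := by positivity
  refine (le_abs_self _).trans (abs_le_of_sq_le_sq ?_ h1)
  have : (k * G + M / k * g) ^ 2 = (k * G - M / k * g) ^ 2 + 4 * (G * (k * (M / k)) * g) := by ring
  rw [this, e]
  nlinarith [sq_nonneg (k * G - M / k * g)]

theorem alg {m₁ m₂ m₃ s₁ s₂ G g η₁ η₂ η₁₁ η₁₂ η₂₂ w w₁ w₂ L k σ : ℝ} (hG : 0 ≤ G)
    (h1 : |m₁| ≤ √G + G) (h2 : |m₂| ≤ √G + G) (h3 : |m₃| ≤ √G + G) (s1 : |s₁| ≤ 1)
    (s2 : |s₂| ≤ 1) (hg : 0 ≤ g)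
    (hq : (m₁ * (s₁ * η₁) * (s₁ * w₁) + m₂ * (s₁ * η₁ * (s₂ * w₂) + s₂ * η₂ * (s₁ * w₁)) +
      m₃ * (s₂ * η₂) * (s₂ * w₂)) ^ 2 ≤ G * ((s₁ * η₁) ^ 2 + (s₂ * η₂) ^ 2) * g)
    (e1 : |η₁| ≤ L) (e2 : |η₂| ≤ L) (e11 : |η₁₁| ≤ L) (e12 : |η₁₂| ≤ L) (e22 : |η₂₂| ≤ L)
    (hw : |w| ≤ σ) (hk : 0 < k) (hσ : 4 * L * σ ≤ k) :
    2 * (m₁ * (s₁ * η₁) * (s₁ * w₁) + m₂ * (s₁ * η₁ * (s₂ * w₂) + s₂ * η₂ * (s₁ * w₁)) +
      m₃ * (s₂ * η₂) * (s₂ * w₂)) +
      w * (m₁ * (s₁ * s₁) * η₁₁ + 2 * (m₂ * (s₁ * s₂) * η₁₂) + m₃ * (s₂ * s₂) * η₂₂) ≤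
      3 * k * G + 2 * L ^ 2 / k * g + 4 * L ^ 2 / k * w ^ 2 := by
  have L0 : 0 ≤ L := (abs_nonneg _).trans e1
  have a1 : (s₁ * η₁) ^ 2 ≤ L ^ 2 := sq_le_sq' (by simpa using (abs_le.1 (abs_mul_le s1 e1)).1)
    (by simpa using (abs_le.1 (abs_mul_le s1 e1)).2)
  have a2 : (s₂ * η₂) ^ 2 ≤ L ^ 2 := sq_le_sq' (by simpa using (abs_le.1 (abs_mul_le s2 e2)).1)
    (by simpa using (abs_le.1 (abs_mul_le s2 e2)).2)
  have b1 := young hk hG (M := 2 * L ^ 2) (by positivity) hg (hq.trans (by gcongr; linarith))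
  have c1 := abs_le.1 (abs_mul_le (abs_mul_le h1 (abs_mul_le s1 s1)) e11)
  have c2 := abs_le.1 (abs_mul_le (abs_mul_le h2 (abs_mul_le s1 s2)) e12)
  have c3 := abs_le.1 (abs_mul_le (abs_mul_le h3 (abs_mul_le s2 s2)) e22)
  have c4 : |m₁ * (s₁ * s₁) * η₁₁ + 2 * (m₂ * (s₁ * s₂) * η₁₂) + m₃ * (s₂ * s₂) * η₂₂| ≤
      4 * L * (√G + G) := abs_le.2 ⟨by linarith [c1.1, c2.1, c3.1], by linarith [c1.2, c2.2, c3.2]⟩
  have c5 := (le_abs_self _).trans (abs_mul_le (le_refl |w|) c4)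
  have c6 := young (x := 2 * L * |w| * √G) hk hG (M := 4 * L ^ 2) (by positivity) (sq_nonneg w)
    (le_of_eq (by rw [mul_pow, mul_pow, Real.sq_sqrt hG, sq_abs]; ring))
  have c7 : 4 * L * |w| * G ≤ k * G := by
    gcongr
    exact le_trans (by gcongr) hσ
  nlinarith

theorem DD_mul {U : Set X} (hU : IsOpen U) {f g : X → ℝ} (hf : ContDiffOn ℝ ∞ f U)
    (hg : ContDiffOn ℝ ∞ g U) (v v' : X) {p : X} (hp : p ∈ U) :
    D v (D v' (f * g)) p = D v (D v' f) p * g p + D v' f p * D v g p +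
      (D v f p * D v' g p + f p * D v (D v' g) p) := by
  have e : EqOn (D v' (f * g)) (D v' f * g + f * D v' g) U := fun q hq =>
    D_mul_at v' (diffAt hU hf hq) (diffAt hU hg hq)
  have f0 := diffAt hU hf hp
  have g0 := diffAt hU hg hp
  have f1 := diffAt hU (smO_D hU v' hf) hp
  have g1 := diffAt hU (smO_D hU v' hg) hp
  rw [D_congr hU v e hp, D_add_at v (f1.mul g0) (f0.mul g1), D_mul_at v f1 g0, D_mul_at v f0 g1]

theorem ctr_mul {U : Set X} (hU : IsOpen U) {f g : X → ℝ} (hf : ContDiffOn ℝ ∞ f U)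
    (hg : ContDiffOn ℝ ∞ g U) (H : T2) {p : X} (hp : p ∈ U) :
    H.ctr (f * g) p = f p * H.ctr g p +
      2 * H.ap (D e1 f p, D e2 f p) (D e1 g p, D e2 g p) p + g p * H.ctr f p := by
  simp only [T2.ctr, T2.ap, h11, h12, h22, Pi.add_apply, Pi.mul_apply, K_apply,
    DD_mul hU hf hg _ _ hp]
  ring

variable {d : Dm} {u : X → ℝ}

theorem g_nn (h2 : StAlg) (A : Api d u) {p : X} (hp : p ∈ d.U) : 0 ≤ gex d.τ u p := by
  rw [A.gx2 p hp]
  exact (h2.1 _ _ _ (A.gx1 p hp).1 (A.gx1 p hp).2).1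

theorem gu_nn (h2 : StAlg) (A : Api d u) (f : X → ℝ) {p : X} (hp : p ∈ d.U) : 0 ≤ gu u f p := by
  rw [gu, A.gx3 p hp]
  exact ((h2.1 _ _ _ (A.gx1 p hp).1 (A.gx1 p hp).2).2.2.2.2.2.2 _).1

theorem lc_gu (A : Api d u) {f : X → ℝ} (hf : Bd d f) : Lc d (gu u f) :=
  ((((A.bi11.mul (hf.D e1)).mul (hf.D e1)).add (A.bi12.mul (((hf.D e1).mul (hf.D e2)).add
    ((hf.D e2).mul (hf.D e1))))).add ((A.bi22.mul (hf.D e2)).mul (hf.D e2))).lc

/-- The pointwise inequality. -/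
theorem pt (h2 : StAlg) (A : Api d u) (hw : Bd d (wv d.τ u)) {η ς : ℝ × ℝ → ℝ} {L k σ t : ℝ}
    (c : Cu d.τ η ς L) (hk : 0 < k) (hσ : 4 * L * σ ≤ k) (hs : SupB d u σ t) {y : ℝ × ℝ}
    (hy : y ∈ bx d.τ 1) (hp : (t, y) ∈ d.U) :
    (nn d.τ u).ctr (up η * wv d.τ u) (t, y) ≤ -(η y * gex d.τ u (t, y)) +
      3 * k * (ς y ^ 2 * gex d.τ u (t, y)) + 2 * L ^ 2 / k * (ς y ^ 2 * gu u (wv d.τ u) (t, y)) +
      4 * L ^ 2 / k * wv d.τ u (t, y) ^ 2 := by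
  rw [ctr_mul d.isOpen_U c.sη.contDiffOn hw.sm _ hp, A.gxn _ hp]
  have G0 := g_nn h2 A hp
  have g0 := gu_nn h2 A (wv d.τ u) hp
  have eη : up η (t, y) = η y := rfl
  rcases c.alt t y hy with h | ⟨z1, z2, z3, z4, z5⟩
  swap
  · simp only [T2.ap, T2.ctr, Pi.add_apply, Pi.mul_apply, z1, z2, z3, z4, z5, eη]
    have : 0 ≤ 3 * k * (ς y ^ 2 * gex d.τ u (t, y)) +
      2 * L ^ 2 / k * (ς y ^ 2 * gu u (wv d.τ u) (t, y)) +
      4 * L ^ 2 / k * wv d.τ u (t, y) ^ 2 := by positivity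
    linarith
  have hσ' := hs y (an_mono d.τ (by norm_num) (by norm_num) (by norm_num)
    (c.an y hy (by rw [h]; norm_num)))
  obtain ⟨b1, b2, b3, b4, b5⟩ := c.bd (t, y)
  obtain ⟨-, -, ⟨m1, m2, m3⟩, -, q, -, -⟩ := h2.1 _ _ _ (A.gx1 _ hp).1 (A.gx1 _ hp).2
  have i1 := A.gx3 _ hp (1, 0)
  have i2 := A.gx3 _ hp (0, 1)
  have i3 := A.gx3 _ hp (1, 1)
  have i4 := A.gx3 _ hp (D e1 (wv d.τ u) (t, y), D e2 (wv d.τ u) (t, y))
  have q1 := q (√(o1 d.τ (t, y)) * D e1 (up η) (t, y), √(o2 d.τ (t, y)) * D e2 (up η) (t, y))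
    (√(o1 d.τ (t, y)) * D e1 (wv d.τ u) (t, y), √(o2 d.τ (t, y)) * D e2 (wv d.τ u) (t, y))
  rw [← i4] at q1
  rw [← A.gx2 _ hp] at m1 m2 m3 q1
  have r1 := Real.mul_self_sqrt (d.o1_pos hp).le
  have r2 := Real.mul_self_sqrt (d.o2_pos hp).le
  have s1 : |√(o1 d.τ (t, y))| ≤ 1 := by
    rw [abs_of_nonneg (Real.sqrt_nonneg _)]
    exact Real.sqrt_le_one.2 (om_le hy.1)
  have s2 : |√(o2 d.τ (t, y))| ≤ 1 := by
    rw [abs_of_nonneg (Real.sqrt_nonneg _)]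
    exact Real.sqrt_le_one.2 (om_le hy.2)
  rw [← abs_neg, ← neg_div] at m2
  have key := alg G0 m1 m2 m3 s1 s2 g0 q1 b1 b2 b3 b4 b5 hσ' hk hσ
  simp only [iq, ib, iv2, T2.ap, qi] at i1 i2 i3
  simp only [T2.ap, T2.ctr, nn, Pi.add_apply, Pi.mul_apply, Pi.sub_apply, K_apply, eη, h]
  generalize √(o1 d.τ (t, y) * o2 d.τ (t, y)) * h12 u (t, y) = b at *
  generalize o1 d.τ (t, y) * h11 u (t, y) = a at *
  generalize o2 d.τ (t, y) * h22 u (t, y) = c at *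
  generalize √(o1 d.τ (t, y)) = s₁ at *
  generalize √(o2 d.τ (t, y)) = s₂ at *
  have j1 : i11 u (t, y) = c / (a * c - b ^ 2) * (s₁ * s₁) := by linear_combination i1
  have j2 : i22 u (t, y) = a / (a * c - b ^ 2) * (s₂ * s₂) := by linear_combination i2
  have j3 : i12 u (t, y) = -b / (a * c - b ^ 2) * (s₁ * s₂) := by
    linear_combination (i3 - i1 - i2) / 2
  rw [j1, j2, j3, ← r1, ← r2]
  linear_combination key

/-- The energy density. -/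
def en (τ : Ty) (u : X → ℝ) (η ς : ℝ × ℝ → ℝ) (M : ℝ) : X → ℝ := fun p =>
  1 / 2 * (η p.2 * wv τ u p ^ 2) - M / 3 * (ς p.2 ^ 2 * wv τ u p ^ 3)

theorem bd_up {f : ℝ × ℝ → ℝ} (h : ContDiff ℝ ∞ f) : Bd d (up f) :=
  bd_of_sm (h.comp contDiff_snd)

theorem bd_pow {f : X → ℝ} (h : Bd d f) (n : ℕ) : Bd d fun p => f p ^ n :=
  h.comp (Φ := fun x => x ^ n) (contDiff_id.pow n)

variable {η ς : ℝ × ℝ → ℝ} {L M k σ t C : ℝ} {F : X → ℝ}

theorem bd_en (hw : Bd d (wv d.τ u)) (c : Cu d.τ η ς L) : Bd d (en d.τ u η ς M) :=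
  ((bd_K (1 / 2)).mul ((bd_of_sm c.sη).mul (bd_pow hw 2))).sub
    ((bd_K (M / 3)).mul ((bd_pow (bd_up c.sς) 2).mul (bd_pow hw 3)))

theorem D_en (A : Api d u) (hw : Bd d (wv d.τ u)) (c : Cu d.τ η ς L) {y : ℝ × ℝ}
    (hp : (t, y) ∈ d.U) : D e0 (en d.τ u η ς M) (t, y) =
      (up η * wv d.τ u * (nn d.τ u).dd) (t, y) -
        M * (ς y ^ 2 * wv d.τ u (t, y) ^ 2 * D e0 u (t, y)) := by
  have h := hasDerivAt_t (hw.diffAt hp)
  refine (hasDerivAt_t ((bd_en hw c).diffAt hp)).unique ?_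
  have := (((h.pow 2).const_mul (η y)).const_mul (1 / 2)).sub
    (((h.pow 3).const_mul (ς y ^ 2)).const_mul (M / 3))
  refine HasDerivAt.congr_deriv this ?_
  simp only [Pi.mul_apply, A.ddn _ hp, A.q0 _ hp, up]
  push_cast
  ring

theorem an_le (R : Reg d (bx d.τ 1)) (ht : t ∈ d.I) {f : X → ℝ} (hf : Lc d f)
    (h0 : ∀ p ∈ d.U, 0 ≤ f p) (c : Cu d.τ η ς L) :
    ∫ y in bx d.τ 1, ς y ^ 2 * f (t, y) ≤ ∫ y in An d.τ (3 / 5) (1 / 5), f (t, y) := by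
  have hs : An d.τ (3 / 5) (1 / 5) ⊆ bx d.τ 1 :=
    (An_subset _ _ _).trans (bx_mono _ (by norm_num) (by norm_num))
  have R' := R.mono (measurableSet_An _ _ _) hs
  rw [setIntegral_eq_of_subset_of_forall_sdiff_eq_zero R.ms hs fun y hy => ?_]
  · refine setIntegral_mono_on (((bd_pow (bd_up c.sς) 2).lc.mul hf).integrableOn R' ht)
      (hf.integrableOn R' ht) R'.ms fun y hy => ?_
    exact mul_le_of_le_one_left (h0 _ ⟨ht, R'.sub hy⟩) (c.ς0 y)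
  · have : ς y = 0 := by
      by_contra hne
      exact hy.2 (an_mono d.τ (by norm_num) (by norm_num) (by norm_num) (c.an y hy.1 hne))
    simp [this]

/-- The differential inequality. -/
theorem slice (h1 : StApi) (h2 : StAlg) (h4 : StIBP2) (S : SS 1 d u F t) (c : Cu d.τ η ς L)
    (hk : 0 < k) (hσ : 4 * L * σ ≤ k) (hs : SupB d u σ t)
    (hg : ∫ y in bx d.τ 1, ς y ^ 2 * gu u (wv d.τ u) (t, y) ≤
      (∫ y in bx d.τ 1, ς y ^ 2 * wv d.τ u (t, y) ^ 2 * D e0 u (t, y)) +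
      k / (2 * L ^ 2 / k) * (∫ y in An d.τ (3 / 5) (1 / 5), gex d.τ u (t, y)) +
      C * ∫ y in An d.τ (3 / 5) (1 / 5), wv d.τ u (t, y) ^ 2) :
    ∫ y in bx d.τ 1, D e0 (en d.τ u η ς (2 * L ^ 2 / k)) (t, y) ≤
      -(∫ y in bx d.τ 1, η y * gex d.τ u (t, y)) +
      4 * k * (∫ y in An d.τ (3 / 5) (1 / 5), gex d.τ u (t, y)) +
      (4 * L ^ 2 / k + 2 * L ^ 2 / k * |C|) * ∫ y in bx d.τ 1, wv d.τ u (t, y) ^ 2 := by
  have A := h1 d u S.gs.toGS0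
  have hw := S.gs.bd
  have R := reg_bx S.bO
  have ht := S.tI
  have hU : ∀ y ∈ bx d.τ 1, ((t, y) : X) ∈ d.U := fun y hy => ⟨ht, R.sub hy⟩
  have bη := bd_of_sm (d := d) c.sη
  have bς := (bd_pow (bd_up (d := d) c.sς) 2).lc
  obtain ⟨k₁, k₂, k₃, hn⟩ := A.nt
  have hM : 0 < 2 * L ^ 2 / k := by have := c.one; positivity
  have ibp := (h4 d _ k₁ k₂ k₃ t hn ht S.bO).1 _ (bη.mul hw) (Or.inl
    ⟨11 / 20, by norm_num, by norm_num, fun y hy hn => by simp [up, c.van y hy hn]⟩)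
  have I1 : IntegrableOn (fun y => (up η * wv d.τ u * (nn d.τ u).dd) (t, y)) (bx d.τ 1) :=
    ((bη.mul hw).mul (A.bt.congr fun p hp => (A.ddn p hp).symm)).lc.integrableOn R ht
  have I2 : IntegrableOn (fun y => ς y ^ 2 * wv d.τ u (t, y) ^ 2 * D e0 u (t, y)) (bx d.τ 1) :=
    ((bς.mul (hw.lc.pow 2)).mul A.bt.lc).integrableOn R ht
  have I3 : IntegrableOn (fun y => η y * gex d.τ u (t, y)) (bx d.τ 1) :=
    (bη.mul A.bg).lc.integrableOn R ht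
  have I4 : IntegrableOn (fun y => ς y ^ 2 * gex d.τ u (t, y)) (bx d.τ 1) :=
    (bς.mul A.bg.lc).integrableOn R ht
  have I5 : IntegrableOn (fun y => ς y ^ 2 * gu u (wv d.τ u) (t, y)) (bx d.τ 1) :=
    (bς.mul (lc_gu A hw)).integrableOn R ht
  have I6 : IntegrableOn (fun y => wv d.τ u (t, y) ^ 2) (bx d.τ 1) :=
    (hw.lc.pow 2).integrableOn R ht
  have I7 : IntegrableOn (fun y => (nn d.τ u).ctr (up η * wv d.τ u) (t, y)) (bx d.τ 1) := by
    have b := bη.mul hw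
    exact ((((A.bi11.sub bd_o1).mul ((b.D e1).D e1)).add (((bd_K 2).mul A.bi12).mul
      ((b.D e2).D e1))).add ((A.bi22.sub bd_o2).mul ((b.D e2).D e2))).lc.integrableOn R ht
  have e1 := setIntegral_mono_on I7 (((I3.neg.add (I4.const_mul (3 * k))).add
    (I5.const_mul (2 * L ^ 2 / k))).add (I6.const_mul (4 * L ^ 2 / k))) R.ms
    fun y hy => pt h2 A hw c hk hσ hs hy (hU y hy)
  rw [integral_add' _ (I6.const_mul _), integral_add' _ (I5.const_mul _),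
    integral_add' I3.neg (I4.const_mul _), integral_neg', integral_const_mul, integral_const_mul,
    integral_const_mul] at e1
  rotate_left
  · exact I3.neg.add (I4.const_mul _)
  · exact (I3.neg.add (I4.const_mul _)).add (I5.const_mul _)
  have e2 := an_le R ht A.bg.lc (fun p hp => g_nn h2 A hp) c
  have e3 : ∫ y in An d.τ (3 / 5) (1 / 5), wv d.τ u (t, y) ^ 2 ≤
      ∫ y in bx d.τ 1, wv d.τ u (t, y) ^ 2 :=
    setIntegral_mono_set I6 (Eventually.of_forall fun y => sq_nonneg _)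
      ((An_subset _ _ _).trans (bx_mono _ (by norm_num) (by norm_num))).eventuallyLE
  have e4 : 0 ≤ ∫ y in An d.τ (3 / 5) (1 / 5), wv d.τ u (t, y) ^ 2 :=
    integral_nonneg fun y => sq_nonneg _
  have e5 := (mul_le_mul_of_nonneg_right (le_abs_self C) e4).trans
    (mul_le_mul_of_nonneg_left e3 (abs_nonneg C))
  rw [setIntegral_congr_fun R.ms fun y hy => D_en A hw c (hU y hy),
    integral_sub I1 (I2.const_mul _), integral_const_mul, ← ibp]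
  have e6 := mul_le_mul_of_nonneg_left hg hM.le
  have e7 := mul_le_mul_of_nonneg_left e5 hM.le
  have e8 := mul_le_mul_of_nonneg_left e2 hk.le
  rw [mul_add, mul_add, ← mul_assoc, mul_div_cancel₀ _ hM.ne'] at e6
  linarith

theorem ode {E E' g n a : ℝ → ℝ} {k C s t : ℝ} (hs : -1 ≤ s) (hst : s ≤ t) (ht : t ≤ 0)
    (hk : 0 ≤ k) (hC : 0 ≤ C) (hE : ∀ x ∈ Icc (-1 : ℝ) 0, HasDerivAt E (E' x) x)
    (cg : ContinuousOn g (Icc (-1) 0)) (cn : ContinuousOn n (Icc (-1) 0))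
    (ca : ContinuousOn a (Icc (-1) 0)) (n0 : ∀ x ∈ Icc (-1 : ℝ) 0, 0 ≤ n x)
    (a0 : ∀ x ∈ Icc (-1 : ℝ) 0, 0 ≤ a x)
    (h : ∀ x ∈ Icc (-1 : ℝ) 0, E' x ≤ -g x + k * n x + C * a x) :
    E t + ∫ x in s..t, g x ≤
      E s + k * (∫ x in (-1 : ℝ)..0, n x) + C * ∫ x in (-1 : ℝ)..0, a x := by
  have hsub : Icc s t ⊆ Icc (-1) 0 := Icc_subset_Icc hs ht
  have ii : ∀ f : ℝ → ℝ, ContinuousOn f (Icc (-1) 0) → IntervalIntegrable f volume s t :=
    fun f hf => (hf.mono hsub).intervalIntegrable_of_Icc hst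
  have mono : ∀ f : ℝ → ℝ, ContinuousOn f (Icc (-1) 0) → (∀ x ∈ Icc (-1 : ℝ) 0, 0 ≤ f x) →
      ∫ x in s..t, f x ≤ ∫ x in (-1 : ℝ)..0, f x := fun f hf h0 =>
    intervalIntegral.integral_mono_interval hs hst ht
      ((ae_restrict_iff' measurableSet_Ioc).2 (Eventually.of_forall fun x hx =>
        h0 x (Ioc_subset_Icc_self hx))) (hf.intervalIntegrable_of_Icc (by norm_num))
  have e := intervalIntegral.sub_le_integral_of_hasDeriv_right_of_le (g := E) (g' := E')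
    (φ := fun x => -g x + k * n x + C * a x) hst
    (fun x hx => (hE x (hsub hx)).continuousAt.continuousWithinAt)
    (fun x hx => (hE x (hsub (Ioo_subset_Icc_self hx))).hasDerivWithinAt)
    ((((cg.neg.add (cn.const_smul k)).add (ca.const_smul C)).mono hsub).integrableOn_Icc)
    fun x hx => h x (hsub (Ioo_subset_Icc_self hx))
  have ig : IntervalIntegrable (fun x => -g x) volume s t := (ii g cg).neg
  rw [intervalIntegral.integral_add (ig.add ((ii n cn).const_mul k))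
    ((ii a ca).const_mul C), intervalIntegral.integral_add ig ((ii n cn).const_mul k),
    intervalIntegral.integral_const_mul, intervalIntegral.integral_const_mul,
    intervalIntegral.integral_neg] at e
  have e1 := mul_le_mul_of_nonneg_left (mono n cn n0) hk
  have e2 := mul_le_mul_of_nonneg_left (mono a ca a0) hC
  linarith

theorem start {a : ℝ → ℝ} (ca : ContinuousOn a (Icc (-1) 0))
    (a0 : ∀ x ∈ Icc (-1 : ℝ) 0, 0 ≤ a x) :
    ∃ s ∈ Icc (-1 : ℝ) (-1 / 16), a s ≤ 2 * ∫ x in (-1 : ℝ)..0, a x := by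
  have hsub : Icc (-1 : ℝ) (-1 / 16) ⊆ Icc (-1) 0 := Icc_subset_Icc le_rfl (by norm_num)
  obtain ⟨s, hs, hm⟩ := isCompact_Icc.exists_isMinOn (nonempty_Icc.2 (by norm_num))
    (ca.mono hsub)
  refine ⟨s, hs, ?_⟩
  have e1 := intervalIntegral.integral_mono_on (μ := volume) (a := -1) (b := -1 / 16)
    (by norm_num) (intervalIntegrable_const (c := a s))
    ((ca.mono hsub).intervalIntegrable_of_Icc (by norm_num)) fun x hx => hm hx
  have e2 : ∫ x in (-1 : ℝ)..(-1 / 16), a x ≤ ∫ x in (-1 : ℝ)..0, a x :=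
    intervalIntegral.integral_mono_interval le_rfl (by norm_num) (by norm_num)
      ((ae_restrict_iff' measurableSet_Ioc).2 (Eventually.of_forall fun x hx =>
        a0 x (Ioc_subset_Icc_self hx))) (ca.intervalIntegrable_of_Icc (by norm_num))
  rw [intervalIntegral.integral_const, smul_eq_mul] at e1
  linarith [a0 s (hsub hs)]

/-- The energy is comparable with the weighted square integral. -/
theorem en_cmp (S : SS 1 d u F t) (c : Cu d.τ η ς L) (hM : 0 ≤ M) (hσ : 0 ≤ σ)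
    (hs : SupB d u σ t) :
    1 / 2 * (∫ y in bx d.τ (1 / 2), wv d.τ u (t, y) ^ 2) -
        M * σ * (∫ y in bx d.τ 1, wv d.τ u (t, y) ^ 2) ≤ ∫ y in bx d.τ 1, en d.τ u η ς M (t, y) ∧
      ∫ y in bx d.τ 1, en d.τ u η ς M (t, y) ≤
        (1 / 2 + M * σ) * ∫ y in bx d.τ 1, wv d.τ u (t, y) ^ 2 := by
  have hw := S.gs.bd
  have R := reg_bx S.bO
  have ht := S.tI
  have I1 := (bd_en (M := M) hw c).lc.integrableOn R ht
  have I2 : IntegrableOn (fun y => η y * wv d.τ u (t, y) ^ 2) (bx d.τ 1) :=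
    ((bd_of_sm c.sη).lc.mul (hw.lc.pow 2)).integrableOn R ht
  have I6 : IntegrableOn (fun y => wv d.τ u (t, y) ^ 2) (bx d.τ 1) :=
    (hw.lc.pow 2).integrableOn R ht
  have key : ∀ y ∈ bx d.τ 1, |M / 3 * (ς y ^ 2 * wv d.τ u (t, y) ^ 3)| ≤
      M * σ * wv d.τ u (t, y) ^ 2 := by
    intro y hy
    by_cases h : ς y = 0
    · simp only [h]
      norm_num
      positivity
    have h1 := hs y (an_mono d.τ (by norm_num) (by norm_num) (by norm_num) (c.an y hy h))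
    have h2 : |M / 3| ≤ M := by rw [abs_of_nonneg (by positivity)]; linarith
    have h3 : |ς y ^ 2| ≤ 1 := by rw [abs_of_nonneg (sq_nonneg _)]; exact c.ς0 y
    have h4 := abs_mul_le h2 (abs_mul_le h3 (abs_mul_le h1 (abs_sq (wv d.τ u (t, y))).le))
    rw [← pow_succ'] at h4
    linarith
  have hsub := bx_mono d.τ (r := 1 / 2) (s := 1) (by norm_num) (by norm_num)
  constructor
  · have e1 : ∫ y in bx d.τ (1 / 2), wv d.τ u (t, y) ^ 2 ≤
        ∫ y in bx d.τ 1, η y * wv d.τ u (t, y) ^ 2 := by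
      refine le_trans (le_of_eq ?_) (setIntegral_mono_set I2
        (Eventually.of_forall fun y => mul_nonneg (c.η0 y).1 (sq_nonneg _)) hsub.eventuallyLE)
      exact setIntegral_congr_fun (isOpen_bx _ _).measurableSet fun y hy => by
        simp [c.η1 y hy]
    have e2 := setIntegral_mono_on ((I2.const_mul (1 / 2)).sub (I6.const_mul (M * σ))) I1 R.ms
      fun y hy => by
        have := (abs_le.1 (key y hy)).2
        simp only [en, Pi.sub_apply]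
        linarith
    rw [integral_sub' (I2.const_mul _) (I6.const_mul _), integral_const_mul,
      integral_const_mul] at e2
    linarith
  · rw [← integral_const_mul]
    refine setIntegral_mono_on I1 (I6.const_mul _) R.ms fun y hy => ?_
    have h1 := (abs_le.1 (key y hy)).1
    have h2 := mul_le_of_le_one_left (sq_nonneg (wv d.τ u (t, y))) (c.η0 y).2
    simp only [en]
    linarith

end Cac

open Cac in
theorem cac_ok (h0 : StCut) (h1 : StApi) (h2 : StAlg) (h4 : StIBP2) (h5 : StGradA) : StCac := by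
  intro τ κ hκ
  obtain ⟨η, ς, L, c⟩ := cut h0 τ
  have hL : 0 < L := one_pos.trans_le c.one
  set k := κ / 8 with hk'
  have hk : 0 < k := by positivity
  set M := 2 * L ^ 2 / k with hM'
  have hM : 0 < M := by positivity
  obtain ⟨C, σ₁, hσ₁, hG⟩ := h5 τ ς c.sς c.an (k / M) (by positivity)
  set C' := 4 * L ^ 2 / k + M * |C| with hC'
  have hC : 0 ≤ C' := by positivity
  set σ := min σ₁ (min (k / (4 * L)) (k / M)) with hσ'
  have hσ : 0 < σ := by positivity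
  have σ1 : 4 * L * σ ≤ k := by
    have : σ ≤ k / (4 * L) := (min_le_right _ _).trans (min_le_left _ _)
    rwa [le_div_iff₀' (by positivity)] at this
  have σ2 : M * σ ≤ k := by
    have : σ ≤ k / M := (min_le_right _ _).trans (min_le_right _ _)
    rwa [le_div_iff₀' hM] at this
  refine ⟨2 + 2 * C', σ, by positivity, hσ, ?_⟩
  rintro d u F Z Y rfl N hs hZ hY
  have A := h1 d u N.gs.toGS0
  have hw := N.gs.bd
  have R := reg_bx N.bO
  have S : ∀ t ∈ Icc (-1 : ℝ) 0, SS 1 d u F t := fun t ht => ⟨N.gs, N.tI ht, N.bO⟩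
  have RA : Reg d (An d.τ (3 / 5) (1 / 5)) := R.mono (measurableSet_An _ _ _)
    ((An_subset _ _ _).trans (bx_mono _ (by norm_num) (by norm_num)))
  have hsub := bx_mono d.τ (r := 1 / 2) (s := 1) (by norm_num) (by norm_num)
  have RB : Reg d (bx d.τ (1 / 2)) := R.mono (isOpen_bx _ _).measurableSet hsub
  have lg := ((bd_of_sm (d := d) c.sη).mul A.bg).lc
  have cg : ContinuousOn (fun t => ∫ y in bx d.τ 1, η y * gex d.τ u (t, y)) (Icc (-1) 0) :=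
    (lg.continuousOn_int R).mono N.tI
  have ca := ((hw.lc.pow 2).continuousOn_int R).mono N.tI
  have a0 : ∀ t ∈ Icc (-1 : ℝ) 0, 0 ≤ ∫ y in bx d.τ 1, wv d.τ u (t, y) ^ 2 := fun t _ =>
    integral_nonneg fun y => sq_nonneg _
  have n0 : ∀ t ∈ Icc (-1 : ℝ) 0, 0 ≤ ∫ y in An d.τ (3 / 5) (1 / 5), gex d.τ u (t, y) :=
    fun t ht => setIntegral_nonneg RA.ms fun y hy => g_nn h2 A ⟨N.tI ht, RA.sub hy⟩
  have b0 : ∀ t ∈ Icc (-1 : ℝ) 0, 0 ≤ ∫ y in bx d.τ (1 / 2), gex d.τ u (t, y) :=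
    fun t ht => setIntegral_nonneg RB.ms fun y hy => g_nn h2 A ⟨N.tI ht, RB.sub hy⟩
  have g0 : ∀ t ∈ Icc (-1 : ℝ) 0, ∫ y in bx d.τ (1 / 2), gex d.τ u (t, y) ≤
      ∫ y in bx d.τ 1, η y * gex d.τ u (t, y) := by
    intro t ht
    refine le_trans (le_of_eq ?_) (setIntegral_mono_set (lg.integrableOn R (N.tI ht))
      ((ae_restrict_iff' R.ms).2 (Eventually.of_forall fun y hy =>
        mul_nonneg (c.η0 y).1 (g_nn h2 A ⟨N.tI ht, R.sub hy⟩))) hsub.eventuallyLE)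
    exact setIntegral_congr_fun RB.ms fun y hy => by simp [c.η1 y hy]
  obtain ⟨s, ⟨s1, s2⟩, s3⟩ := start ca a0
  have sI : s ∈ Icc (-1 : ℝ) 0 := ⟨s1, by linarith⟩
  have Z0 : 0 ≤ Z := (a0 s sI).trans (hZ s sI)
  have N0 : 0 ≤ ∫ t in (-1 : ℝ)..0, ∫ y in An d.τ (3 / 5) (1 / 5), gex d.τ u (t, y) :=
    intervalIntegral.integral_nonneg (by norm_num) n0
  have key : ∀ t, s ≤ t → t ≤ 0 → (∫ y in bx d.τ (1 / 2), wv d.τ u (t, y) ^ 2) +
      2 * ∫ x in s..t, ∫ y in bx d.τ 1, η y * gex d.τ u (x, y) ≤ Y := by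
    intro t t1 t2
    have tI : t ∈ Icc (-1 : ℝ) 0 := ⟨s1.trans t1, t2⟩
    have e := ode s1 t1 t2 (k := 4 * k) (by positivity) hC
      (fun x hx => (bd_en (M := M) hw c).hasDerivAt_int R (N.tI hx)) cg
      ((A.bg.lc.continuousOn_int RA).mono N.tI) ca n0 a0 fun x hx =>
        slice h1 h2 h4 (S x hx) c hk σ1 (hs x hx) (hG d u F x rfl (S x hx)
          fun y hy => (hs x hx y hy).trans (min_le_left _ _))
    have e1 := (en_cmp (S t tI) c hM.le hσ.le (hs t tI)).1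
    have e2 := (en_cmp (S s sI) c hM.le hσ.le (hs s sI)).2
    have e3 := mul_le_mul σ2 (hZ t tI) (a0 t tI) hk.le
    have e4 := mul_le_mul σ2 (hZ s sI) (a0 s sI) hk.le
    have e5 := mul_nonneg hk.le Z0
    have e6 : κ = 8 * k := by rw [hk']; ring
    rw [e6] at hY
    linarith
  have gp : ∀ t ∈ Icc (-1 : ℝ) 0, 0 ≤ ∫ y in bx d.τ 1, η y * gex d.τ u (t, y) := fun t ht =>
    (b0 t ht).trans (g0 t ht)
  refine ⟨fun t ht => ?_, ?_⟩
  · have e := key t (s2.trans ht.1) ht.2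
    have : 0 ≤ ∫ x in s..t, ∫ y in bx d.τ 1, η y * gex d.τ u (x, y) :=
      intervalIntegral.integral_nonneg (s2.trans ht.1) fun x hx =>
        gp x ⟨s1.trans hx.1, hx.2.trans ht.2⟩
    linarith
  · have e := key 0 sI.2 le_rfl
    have hJ : Icc (-1 / 16 : ℝ) 0 ⊆ Icc (-1) 0 := Icc_subset_Icc (by norm_num) le_rfl
    have hJ' : Icc s 0 ⊆ Icc (-1) 0 := Icc_subset_Icc s1 le_rfl
    have e1 := intervalIntegral.integral_mono_on (μ := volume) (a := -1 / 16) (b := 0)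
      (by norm_num) ((((A.bg.lc.continuousOn_int RB).mono N.tI).mono hJ).intervalIntegrable_of_Icc
        (by norm_num)) ((cg.mono hJ).intervalIntegrable_of_Icc (by norm_num))
      fun x hx => g0 x (hJ hx)
    have e2 := intervalIntegral.integral_mono_interval (μ := volume) s2 (by norm_num) (le_refl 0)
      ((ae_restrict_iff' measurableSet_Ioc).2 (Eventually.of_forall fun x hx =>
        gp x (hJ' (Ioc_subset_Icc_self hx)))) ((cg.mono hJ').intervalIntegrable_of_Icc sI.2)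
    have e3 : 0 ≤ ∫ y in bx d.τ (1 / 2), wv d.τ u (0, y) ^ 2 := integral_nonneg fun y => sq_nonneg _
    have e4 : 0 ≤ ∫ x in s..0, ∫ y in bx d.τ 1, η y * gex d.τ u (x, y) :=
      intervalIntegral.integral_nonneg sI.2 fun x hx => gp x (hJ' hx)
    linarith

end Pool.Agent.P.MP_2cea5e_gt.I
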