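import Pool.Agent.P.MP_2cea5e_gt.I.St5
import Pool.Agent.P.MP_2cea5e_gt.Conv

/-!
Convexity, change of variables for the moment map, and the logarithmic gradient bound.
-/

open scoped ContDiff Topology
open MeasureTheory Set Filter

noncomputable section

set_option linter.dupNamespace false

namespace Pool.Agent.P.MP_2cea5e_gt.I

namespace Chg

variable {I : Set ℝ} {t : ℝ}

theorem sm_fz {g : X → ℝ} (hg : ContDiffOn ℝ ∞ g (I ×ˢ univ)) (ht : t ∈ I) : Sm (fz t g) :=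
  hg.comp_contDiff (f := fun p : X => ((t, p.2) : X)) (by fun_prop) fun _ => ⟨ht, trivial⟩

theorem D_fz {g : X → ℝ} (hI : IsOpen I) (hg : ContDiffOn ℝ ∞ g (I ×ˢ univ)) (ht : t ∈ I)
    {v : X} (hv : v.1 = 0) : D v (fz t g) = fz t (D v g) := by
  funext p
  have h1 : DifferentiableAt ℝ g (t, p.2) := diffAt (hI.prod isOpen_univ) hg ⟨ht, trivial⟩
  have h2 : HasFDerivAt (fun q : X => ((t, q.2) : X))
      ((0 : X →L[ℝ] ℝ).prod (ContinuousLinearMap.snd ℝ ℝ (ℝ × ℝ))) p :=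
    (hasFDerivAt_const t p).prodMk hasFDerivAt_snd
  have h3 := (h1.hasFDerivAt.comp p h2).fderiv
  change fderiv ℝ (g ∘ fun q : X => ((t, q.2) : X)) p v = fderiv ℝ g (t, p.2) v
  rw [h3]
  simp only [ContinuousLinearMap.comp_apply, ContinuousLinearMap.prod_apply,
    zero_apply, ContinuousLinearMap.coe_snd']
  congr 1
  ext <;> simp [hv]

variable {Φ : X → ℝ}

theorem DD_fz (P : PotI I Φ) (ht : t ∈ I) {v w : X} (hv : v.1 = 0) (hw : w.1 = 0) :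
    D v (D w (fz t Φ)) = fz t (D v (D w Φ)) := by
  rw [D_fz P.oI P.sm ht hw, D_fz P.oI (smO_D (P.oI.prod isOpen_univ) w P.sm) ht hv]

theorem W_fz (P : PotI I Φ) (ht : t ∈ I) (s : ℝ) (ζ : ℝ × ℝ) :
    W (fz t Φ) (s, ζ) = W Φ (t, ζ) := by
  simp only [W, DD_fz P ht (v := e1) (w := e1) rfl rfl, DD_fz P ht (v := e1) (w := e2) rfl rfl,
    DD_fz P ht (v := e2) (w := e2) rfl rfl, Pi.sub_apply, Pi.mul_apply, fz]

theorem grad_fz (P : PotI I Φ) (ht : t ∈ I) (s : ℝ) (ζ : ℝ × ℝ) :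
    grad (fz t Φ) (s, ζ) = gr Φ t ζ := by
  simp only [gr, grad, D_fz P.oI P.sm ht (v := e1) rfl, D_fz P.oI P.sm ht (v := e2) rfl, fz]

theorem UU_fz (P : PotI I Φ) (ht : t ∈ I) (s : ℝ) (ζ : ℝ × ℝ) :
    UU (fz t Φ) (s, ζ) = UU Φ (t, ζ) := by
  simp only [UU, D_fz P.oI P.sm ht (v := e1) rfl, D_fz P.oI P.sm ht (v := e2) rfl, fz,
    Pi.sub_apply, Pi.add_apply, Pi.mul_apply, Li_apply]

theorem pot_fz (P : PotI I Φ) (ht : t ∈ I) : Pot (fz t Φ) where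
  sm := sm_fz P.sm ht
  p11 p := by
    rw [DD_fz P ht (v := e1) (w := e1) rfl rfl]
    exact P.p11 (t, p.2) ht
  pw p := by
    rw [show p = (p.1, p.2) from rfl, W_fz P ht]
    exact P.pw (t, p.2) ht

theorem inj {φ : X → ℝ} (P : Pot φ) (s : ℝ) : Function.Injective fun ξ => grad φ (s, ξ) := by
  intro ξ η h
  by_contra hne
  set v : X := (0, η.1 - ξ.1, η.2 - ξ.2) with hv
  have hab : η.1 - ξ.1 ≠ 0 ∨ η.2 - ξ.2 ≠ 0 := by
    by_contra hc
    push Not at hc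
    exact hne (Prod.ext (by linarith [hc.1]) (by linarith [hc.2]))
  have hm : StrictMono fun r : ℝ => D v φ ((s, ξ) + r • v) :=
    strictMono_of_deriv_pos fun r => by
      rw [(hasDerivAt_line (sm_D v P.sm) _ v r).deriv]
      exact P.pos_dir hab _
  have h1 : D v φ ((s, ξ) + (0 : ℝ) • v) < D v φ ((s, ξ) + (1 : ℝ) • v) := hm zero_lt_one
  have h2 : ((s, ξ) : X) + (1 : ℝ) • v = (s, η) := by
    ext <;> simp [hv]
  rw [h2, zero_smul, add_zero, D_dir3 v φ] at h1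
  simp only [hv, Pi.add_apply, Pi.mul_apply, K_apply] at h1
  simp only [grad, Prod.mk.injEq] at h
  rw [h.1, h.2] at h1
  linarith

theorem chv {φ : X → ℝ} (P : Pot φ) (s : ℝ) (A : Set (ℝ × ℝ)) (G : ℝ × ℝ → ENNReal)
    (hA : MeasurableSet A) : ∫⁻ y in (fun ξ => grad φ (s, ξ)) '' A, G y =
      ∫⁻ ξ in A, ENNReal.ofReal (W φ (s, ξ)) * G (grad φ (s, ξ)) := by
  refine (lintegral_image_eq_lintegral_abs_det_fderiv_mul volume hA (fun ξ _ =>
    ((hasFDerivAt_space (sm_D e1 P.sm) s ξ).prodMk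
      (hasFDerivAt_space (sm_D e2 P.sm) s ξ)).hasFDerivWithinAt) (inj P s).injOn G).trans ?_
  refine lintegral_congr fun ξ => ?_
  rw [Conv.det_prod, ← abs_of_pos (P.pw (s, ξ))]
  congr 3
  change D e1 (D e1 φ) (s, ξ) * D e2 (D e2 φ) (s, ξ) -
    D e2 (D e1 φ) (s, ξ) * D e1 (D e2 φ) (s, ξ) = _
  rw [D_comm e2 e1 P.sm]
  rfl

/-- An interval on the side of `y` given by the sign of `x`. -/
theorem exists_iv (x y a b : ℝ) (ha : 0 ≤ a) : ∃ J : Set ℝ, MeasurableSet J ∧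
    volume J = ENNReal.ofReal (b - a) ∧ ∀ q ∈ J, |q - y| < b ∧ a * |x| ≤ (q - y) * x := by
  by_cases hx : 0 ≤ x
  · refine ⟨Ioo (y + a) (y + b), measurableSet_Ioo, by rw [Real.volume_Ioo]; congr 1; ring,
      fun q hq => ⟨abs_lt.2 ⟨by linarith [hq.1, hq.2], by linarith [hq.2]⟩, ?_⟩⟩
    rw [abs_of_nonneg hx]
    exact mul_le_mul_of_nonneg_right (by linarith [hq.1]) hx
  · push Not at hx
    refine ⟨Ioo (y - b) (y - a), measurableSet_Ioo, by rw [Real.volume_Ioo]; congr 1; ring,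
      fun q hq => ⟨abs_lt.2 ⟨by linarith [hq.1], by linarith [hq.1, hq.2]⟩, ?_⟩⟩
    rw [abs_of_neg hx]
    nlinarith [hq.2]

theorem cont_gr (P : PotI I Φ) (ht : t ∈ I) : Continuous (gr Φ t) := by
  have h := pot_fz P ht
  have : gr Φ t = fun ζ => grad (fz t Φ) (t, ζ) := funext fun ζ => (grad_fz P ht t ζ).symm
  rw [this]
  exact (((sm_D e1 h.sm).cont).comp (Continuous.prodMk_right t)).prodMk
    (((sm_D e2 h.sm).cont).comp (Continuous.prodMk_right t))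

theorem key (h : StChg) {δ C : ℝ} (hδ : 0 < δ) (P : PotI I Φ) (ht : t ∈ I)
    (hC : ∫⁻ ζ : ℝ × ℝ, ENNReal.ofReal (Real.exp (δ * ‖ζ‖) * W Φ (t, ζ)) ≤ ENNReal.ofReal C)
    {ζ : ℝ × ℝ} {r m : ℝ} (hr : 0 < r) (hr1 : r ≤ 1)
    (hb : Metric.ball (gr Φ t ζ) r ⊆ range (gr Φ t)) {Q : Set (ℝ × ℝ)} (hQ : MeasurableSet Q)
    (hv : volume Q = ENNReal.ofReal (r ^ 2 / 2))
    (hq : ∀ q ∈ Q, |q.1 - (gr Φ t ζ).1| < r ∧ |q.2 - (gr Φ t ζ).2| < r ∧
      r / 2 * m ≤ ip (q - gr Φ t ζ) ζ) :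
    m ≤ 4 / δ * (Real.log (2 * max C 1) + 2) * (1 - Real.log r) := by
  obtain ⟨-, -, hmon, hch⟩ := h I Φ P t ht
  have hA : MeasurableSet (gr Φ t ⁻¹' Q) := (cont_gr P ht).measurable hQ
  have hsub : Q ⊆ range (gr Φ t) := fun q hq' => hb (by
    rw [Metric.mem_ball, Prod.dist_eq, max_lt_iff, Real.dist_eq, Real.dist_eq]
    exact ⟨(hq q hq').1, (hq q hq').2.1⟩)
  have h1 := hch (gr Φ t ⁻¹' Q) (fun _ => ENNReal.ofReal (Real.exp (δ * (m / 4)))) hA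
  rw [image_preimage_eq_of_subset hsub, setLIntegral_const, hv,
    ← ENNReal.ofReal_mul (Real.exp_pos _).le] at h1
  have h2 : ∫⁻ ξ in gr Φ t ⁻¹' Q, ENNReal.ofReal (W Φ (t, ξ)) *
      ENNReal.ofReal (Real.exp (δ * (m / 4))) ≤ ENNReal.ofReal (max C 1) := by
    refine le_trans ?_ (hC.trans (ENNReal.ofReal_le_ofReal (le_max_left _ _)))
    refine le_trans (setLIntegral_mono' hA fun ξ hξ => ?_) (setLIntegral_le_lintegral _ _)
    have hw := (P.pw (t, ξ) ht).le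
    rw [← ENNReal.ofReal_mul hw, mul_comm]
    refine ENNReal.ofReal_le_ofReal (mul_le_mul_of_nonneg_right (Real.exp_le_exp.2
      (mul_le_mul_of_nonneg_left ?_ hδ.le)) hw)
    obtain ⟨q1, q2, q3⟩ := hq _ hξ
    have m1 := hmon ξ ζ
    have n1 : |ξ.1| ≤ ‖ξ‖ := norm_fst_le ξ
    have n2 : |ξ.2| ≤ ‖ξ‖ := norm_snd_le ξ
    simp only [ip, Prod.fst_sub, Prod.snd_sub] at m1 q3
    have a1 : ((gr Φ t ξ).1 - (gr Φ t ζ).1) * ξ.1 ≤ r * ‖ξ‖ :=
      (le_abs_self _).trans (by rw [abs_mul]; exact mul_le_mul q1.le n1 (abs_nonneg _) hr.le)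
    have a2 : ((gr Φ t ξ).2 - (gr Φ t ζ).2) * ξ.2 ≤ r * ‖ξ‖ :=
      (le_abs_self _).trans (by rw [abs_mul]; exact mul_le_mul q2.le n2 (abs_nonneg _) hr.le)
    have a3 : r * (m / 4) ≤ r * ‖ξ‖ := by nlinarith
    exact le_of_mul_le_mul_left a3 hr
  have hM : (1 : ℝ) ≤ max C 1 := le_max_right _ _
  rw [← h1, ENNReal.ofReal_le_ofReal_iff (by linarith)] at h2
  have h3 : Real.exp (δ * (m / 4)) * r ^ 2 ≤ 2 * max C 1 := by linarith
  have h4 := Real.log_le_log (by positivity) h3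
  rw [Real.log_mul (Real.exp_pos _).ne' (by positivity), Real.log_exp, Real.log_pow] at h4
  have h5 : Real.log r ≤ 0 := Real.log_nonpos hr.le hr1
  have h6 : 0 ≤ Real.log (2 * max C 1) := Real.log_nonneg (by linarith)
  have h7 : δ * (m / 4) ≤ (Real.log (2 * max C 1) + 2) * (1 - Real.log r) := by
    push_cast at h4
    nlinarith
  rw [mul_assoc, div_mul_eq_mul_div, le_div_iff₀ hδ]
  linarith

end Chg

open Chg

theorem chg_ok : StChg := by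
  intro I Φ P t ht
  have h := pot_fz P ht
  have e : gr Φ t = fun ζ => grad (fz t Φ) (t, ζ) := funext fun ζ => (grad_fz P ht t ζ).symm
  have c : ∀ ζ ζ', ip (gr Φ t ζ) ζ' - Φ (t, ζ') ≤ UU Φ (t, ζ) := fun ζ ζ' => by
    have := conv_ok _ h t ζ ζ'
    rwa [grad_fz P ht, UU_fz P ht] at this
  refine ⟨e ▸ inj h t, c, fun ζ ζ' => ?_, fun A G hA => ?_⟩
  · have c1 := c ζ ζ'
    have c2 := c ζ' ζ
    simp only [ip, gr, grad, UU, Pi.add_apply, Pi.sub_apply, Pi.mul_apply, Li_apply,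
      Prod.fst_sub, Prod.snd_sub] at c1 c2 ⊢
    linarith
  · have := chv h t A G hA
    simp only [grad_fz P ht, W_fz P ht] at this
    exact this

theorem logB_ok (h : StChg) : StLogB := by
  intro δ C hδ
  refine ⟨4 / δ * (Real.log (2 * max C 1) + 2), fun I Φ P t ht hC ζ r hr hr1 hb => ⟨?_, ?_⟩⟩
  · obtain ⟨J₁, m1, v1, q1⟩ := exists_iv ζ.1 (gr Φ t ζ).1 (r / 2) r (by linarith)
    obtain ⟨J₂, m2, v2, q2⟩ := exists_iv ζ.2 (gr Φ t ζ).2 0 r le_rfl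
    refine key h hδ P ht hC hr hr1 hb (m1.prod m2) ?_ fun q hq => ⟨(q1 _ hq.1).1, (q2 _ hq.2).1, ?_⟩
    · rw [Measure.volume_eq_prod, Measure.prod_prod, v1, v2, ← ENNReal.ofReal_mul (by linarith)]
      congr 1; ring
    · have a := (q1 _ hq.1).2
      have b := (q2 _ hq.2).2
      simp only [ip, Prod.fst_sub, Prod.snd_sub]
      linarith
  · obtain ⟨J₁, m1, v1, q1⟩ := exists_iv ζ.1 (gr Φ t ζ).1 0 r le_rfl
    obtain ⟨J₂, m2, v2, q2⟩ := exists_iv ζ.2 (gr Φ t ζ).2 (r / 2) r (by linarith)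
    refine key h hδ P ht hC hr hr1 hb (m1.prod m2) ?_ fun q hq => ⟨(q1 _ hq.1).1, (q2 _ hq.2).1, ?_⟩
    · rw [Measure.volume_eq_prod, Measure.prod_prod, v1, v2, ← ENNReal.ofReal_mul (by linarith)]
      congr 1; ring
    · have a := (q1 _ hq.1).2
      have b := (q2 _ hq.2).2
      simp only [ip, Prod.fst_sub, Prod.snd_sub]
      linarith


end Pool.Agent.P.MP_2cea5e_gt.I
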