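import Pool.Agent.P.MP_2cea5e_gt.I.St1

/-!
Regularity of the fibre integrals of a test function on the complex plane.
-/

open scoped ContDiff Topology
open MeasureTheory Set Filter

noncomputable section

namespace Pool.Agent.P.MP_2cea5e_gt.I

namespace Ker1

/-- Differentiation under the integral sign for a jointly smooth integrand. -/
theorem hasFDerivAt_param {E : Type} [NormedAddCommGroup E] [NormedSpace ℝ E] [ProperSpace E]
    (F : E × ℝ → ℝ) (hF : ContDiff ℝ ∞ F) (a b : ℝ) (x₀ : E) :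
    HasFDerivAt (fun x => ∫ t in a..b, F (x, t))
      (∫ t in a..b, (fderiv ℝ F (x₀, t)).comp (ContinuousLinearMap.inl ℝ E ℝ)) x₀ := by
  have hc : Continuous F := hF.continuous
  have hd : Continuous (fderiv ℝ F) := hF.continuous_fderiv (by simp)
  have hd' : Continuous fun p : E × ℝ =>
      (fderiv ℝ F p).comp (ContinuousLinearMap.inl ℝ E ℝ) := hd.clm_comp continuous_const
  have hK : IsCompact (Metric.closedBall x₀ 1 ×ˢ uIcc a b) :=
    (isCompact_closedBall x₀ 1).prod isCompact_uIcc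
  obtain ⟨M, hM⟩ := hK.exists_bound_of_continuousOn hd'.continuousOn
  refine intervalIntegral.hasFDerivAt_integral_of_dominated_of_fderiv_le
    (F := fun x t => F (x, t))
    (F' := fun x t => (fderiv ℝ F (x, t)).comp (ContinuousLinearMap.inl ℝ E ℝ))
    (s := Metric.closedBall x₀ 1) (bound := fun _ => M)
    (Metric.closedBall_mem_nhds x₀ one_pos) ?_ ?_ ?_ ?_ ?_ ?_
  · exact Eventually.of_forall fun x =>
      (hc.comp (continuous_const.prodMk continuous_id)).aestronglyMeasurable
  · exact (hc.comp (continuous_const.prodMk continuous_id)).intervalIntegrable _ _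
  · exact (hd'.comp (continuous_const.prodMk continuous_id)).aestronglyMeasurable
  · exact Eventually.of_forall fun t ht x hx => hM (x, t) ⟨hx, uIoc_subset_uIcc ht⟩
  · exact intervalIntegrable_const
  · refine Eventually.of_forall fun t _ x _ => ?_
    have h1 : HasFDerivAt F (fderiv ℝ F (x, t)) (x, t) :=
      (hF.differentiable (by simp) _).hasFDerivAt
    exact h1.comp x (hasFDerivAt_prodMk_left x t)

theorem fderiv_param {E : Type} [NormedAddCommGroup E] [NormedSpace ℝ E] [ProperSpace E]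
    (F : E × ℝ → ℝ) (hF : ContDiff ℝ ∞ F) (a b : ℝ) (x₀ v : E) :
    fderiv ℝ (fun x => ∫ t in a..b, F (x, t)) x₀ v =
      ∫ t in a..b, fderiv ℝ F (x₀, t) (v, 0) := by
  rw [(hasFDerivAt_param F hF a b x₀).fderiv, ContinuousLinearMap.intervalIntegral_apply]
  · simp
  · have hd : Continuous (fderiv ℝ F) := hF.continuous_fderiv (by simp)
    exact ((hd.comp (continuous_const.prodMk continuous_id)).clm_comp
      continuous_const).intervalIntegrable _ _

theorem contDiff_param (F : ℝ × ℝ → ℝ) (hF : ContDiff ℝ ∞ F) (a b : ℝ) :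
    ContDiff ℝ ∞ fun x => ∫ t in a..b, F (x, t) := by
  rw [contDiff_infty]
  intro n
  induction n generalizing F with
  | zero =>
    simp only [Nat.cast_zero, contDiff_zero]
    exact intervalIntegral.continuous_parametric_intervalIntegral_of_continuous'
      (f := fun x t => F (x, t)) hF.continuous a b
  | succ n ih =>
    rw [Nat.cast_succ, contDiff_succ_iff_deriv]
    refine ⟨fun x => (hasFDerivAt_param F hF a b x).differentiableAt, by simp, ?_⟩
    have h1 : ContDiff ℝ ∞ fun p : ℝ × ℝ => fderiv ℝ F p (1, 0) :=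
      (hF.fderiv_right (m := ∞) (by simp)).clm_apply contDiff_const
    have h2 : deriv (fun x => ∫ t in a..b, F (x, t)) =
        fun x => ∫ t in a..b, (fun p : ℝ × ℝ => fderiv ℝ F p (1, 0)) (x, t) := by
      funext x
      rw [← fderiv_apply_one_eq_deriv, fderiv_param F hF]
    rw [h2]
    exact ih _ h1

theorem tst_dc {δ : ℝ} {r : ℂ → ℝ} (h : Tst δ r) (v : ℂ) : Tst δ (dc v r) := by
  refine ⟨(h.sm.fderiv_right (m := ∞) (by simp)).clm_apply contDiff_const, fun z hz => ?_⟩
  have h1 : r =ᶠ[𝓝 z] fun _ => 0 := by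
    have : ∀ᶠ w in 𝓝 z, δ < ‖w‖ := continuous_norm.continuousAt.eventually (lt_mem_nhds hz)
    exact this.mono fun w hw => h.supp w hw
  simp [dc, h1.fderiv_eq]

theorem kk_true (r : ℂ → ℝ) (Z : ℂ) (y : ℝ) : kk true r Z y =
    2 * ∫ θ in (0 : ℝ)..2 * Real.pi,
      r (Z - (2 * √y : ℝ) * Complex.exp (θ * Complex.I)) := by simp [kk]

theorem kk_false' (r : ℂ → ℝ) (Z : ℂ) (y : ℝ) : kk false r Z y =
    ∫ s : ℝ, r (Z - y - s * Complex.I) := by simp [kk]

theorem kk_false {δ : ℝ} {r : ℂ → ℝ} (h : Tst δ r) (Z : ℂ) (y D : ℝ)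
    (hD : |δ| + |Z.im| < D) :
    kk false r Z y = ∫ s in (-D)..D, r (Z - y - s * Complex.I) := by
  rw [kk_false']
  symm
  apply intervalIntegral.integral_eq_integral_of_support_subset
  intro s hs
  have h1 : ‖Z - y - s * Complex.I‖ ≤ δ := by
    by_contra hc
    exact hs (h.supp _ (not_le.1 hc))
  have h2 := Complex.abs_im_le_norm (Z - y - s * Complex.I)
  have h3 : (Z - y - s * Complex.I).im = Z.im - s := by simp
  rw [h3] at h2
  have h4 := abs_le.1 (h2.trans h1)
  have h5 := le_abs_self δ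
  have h6 := le_abs_self Z.im
  have h7 := neg_abs_le Z.im
  constructor <;> linarith [h4.1, h4.2]

theorem kk_false_ev {δ : ℝ} {r : ℂ → ℝ} (h : Tst δ r) (Z₀ : ℂ) :
    ∀ᶠ Z in 𝓝 Z₀, ∀ y : ℝ, kk false r Z y =
      ∫ s in (-(|δ| + |Z₀.im| + 1))..(|δ| + |Z₀.im| + 1), r (Z - y - s * Complex.I) := by
  have hc : Continuous fun Z : ℂ => |δ| + |Z.im| := by fun_prop
  have : ∀ᶠ Z in 𝓝 Z₀, |δ| + |Z.im| < |δ| + |Z₀.im| + 1 :=
    hc.continuousAt.eventually (gt_mem_nhds (by simp))
  exact this.mono fun Z hZ y => kk_false h Z y _ hZ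

theorem fderiv_shift {r : ℂ → ℝ} (hr : ContDiff ℝ ∞ r) (γ : ℝ → ℂ) (hγ : ContDiff ℝ ∞ γ)
    (Z v : ℂ) (t : ℝ) :
    fderiv ℝ (fun p : ℂ × ℝ => r (p.1 - γ p.2)) (Z, t) (v, 0) = dc v r (Z - γ t) := by
  have h1 : HasFDerivAt r (fderiv ℝ r (Z - γ t)) (Z - γ t) :=
    (hr.differentiable (by simp) _).hasFDerivAt
  have h2 : HasFDerivAt γ (fderiv ℝ γ t) t := (hγ.differentiable (by simp) _).hasFDerivAt
  have h3 : HasFDerivAt (fun p : ℂ × ℝ => p.1 - γ p.2)
      (ContinuousLinearMap.fst ℝ ℂ ℝ - (fderiv ℝ γ t).comp (ContinuousLinearMap.snd ℝ ℂ ℝ))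
      (Z, t) := hasFDerivAt_fst.sub (HasFDerivAt.comp (Z, t) h2 hasFDerivAt_snd)
  have h4 := HasFDerivAt.comp (Z, t) (g := r) (f := fun p : ℂ × ℝ => p.1 - γ p.2) h1 h3
  have h5 : fderiv ℝ (fun p : ℂ × ℝ => r (p.1 - γ p.2)) (Z, t) = _ := h4.fderiv
  rw [h5]
  simp [dc]

theorem shift_deriv {r : ℂ → ℝ} (hr : ContDiff ℝ ∞ r) (γ : ℝ → ℂ) (hγ : ContDiff ℝ ∞ γ)
    (a b : ℝ) (Z : ℂ) :
    DifferentiableAt ℝ (fun Z => ∫ t in a..b, r (Z - γ t)) Z ∧
      ∀ v, fderiv ℝ (fun Z => ∫ t in a..b, r (Z - γ t)) Z v =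
        ∫ t in a..b, dc v r (Z - γ t) := by
  have hF : ContDiff ℝ ∞ fun p : ℂ × ℝ => r (p.1 - γ p.2) :=
    hr.comp (contDiff_fst.sub (hγ.comp contDiff_snd))
  refine ⟨(hasFDerivAt_param _ hF a b Z).differentiableAt, fun v => ?_⟩
  have := fderiv_param _ hF a b Z v
  simp only [fderiv_shift hr γ hγ] at this
  exact this

theorem contDiff_ofReal : ContDiff ℝ ∞ fun t : ℝ => (t : ℂ) := Complex.ofRealCLM.contDiff

theorem contDiff_circ : ContDiff ℝ ∞ fun t : ℝ => Complex.exp (t * Complex.I) :=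
  Complex.contDiff_exp.comp (contDiff_ofReal.mul contDiff_const)

theorem exists_bound {δ : ℝ} {r : ℂ → ℝ} (h : Tst δ r) : ∃ M, ∀ z, |r z| ≤ M := by
  obtain ⟨M, hM⟩ := (isCompact_closedBall (0 : ℂ) δ).exists_bound_of_continuousOn
    h.sm.continuous.continuousOn
  refine ⟨max M 0, fun z => ?_⟩
  by_cases hz : δ < ‖z‖
  · simp [h.supp z hz]
  · exact le_max_of_le_left (hM z (by simpa using hz))

theorem cont_part (b : Bool) {δ : ℝ} {r : ℂ → ℝ} (h : Tst δ r) :
    Continuous fun q : ℂ × ℝ => kk b r q.1 q.2 := by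
  have hr := h.sm.continuous
  cases b with
  | true =>
    simp only [kk_true]
    refine continuous_const.mul ?_
    refine intervalIntegral.continuous_parametric_intervalIntegral_of_continuous'
      (f := fun (q : ℂ × ℝ) (θ : ℝ) =>
        r (q.1 - (2 * √q.2 : ℝ) * Complex.exp (θ * Complex.I))) ?_ _ _
    refine hr.comp ?_
    fun_prop
  | false =>
    rw [continuous_iff_continuousAt]
    intro q₀
    have h1 : Continuous fun q : ℂ × ℝ =>
        ∫ s in (-(|δ| + |q₀.1.im| + 1))..(|δ| + |q₀.1.im| + 1),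
          r (q.1 - q.2 - s * Complex.I) := by
      refine intervalIntegral.continuous_parametric_intervalIntegral_of_continuous'
        (f := fun (q : ℂ × ℝ) (s : ℝ) => r (q.1 - q.2 - s * Complex.I)) ?_ _ _
      refine hr.comp ?_
      fun_prop
    refine h1.continuousAt.congr ?_
    have h2 := continuous_fst.continuousAt.eventually (kk_false_ev h q₀.1)
    exact h2.mono fun q hq => (hq q.2).symm

theorem diff_part (b : Bool) {δ : ℝ} {r : ℂ → ℝ} (h : Tst δ r) (y : ℝ) (Z : ℂ) :
    DifferentiableAt ℝ (fun Z => kk b r Z y) Z ∧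
      ∀ v, fderiv ℝ (fun Z => kk b r Z y) Z v = kk b (dc v r) Z y := by
  cases b with
  | true =>
    obtain ⟨h1, h2⟩ := shift_deriv h.sm
      (fun θ : ℝ => ((2 * √y : ℝ) : ℂ) * Complex.exp (θ * Complex.I))
      (contDiff_const.mul contDiff_circ) 0 (2 * Real.pi) Z
    simp only [kk_true]
    refine ⟨h1.const_mul 2, fun v => ?_⟩
    rw [fderiv_const_mul h1, ← h2 v]
    simp
  | false =>
    obtain ⟨h1, h2⟩ := shift_deriv h.sm (fun s : ℝ => (y : ℂ) + s * Complex.I)
      (contDiff_const.add (contDiff_ofReal.mul contDiff_const))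
      (-(|δ| + |Z.im| + 1)) (|δ| + |Z.im| + 1) Z
    have h3 : (fun Z => kk false r Z y) =ᶠ[𝓝 Z] fun W =>
        ∫ t in (-(|δ| + |Z.im| + 1))..(|δ| + |Z.im| + 1), r (W - (y + t * Complex.I)) := by
      refine (kk_false_ev h Z).mono fun W hW => ?_
      simp only [hW y, sub_sub]
    refine ⟨h1.congr_of_eventuallyEq h3, fun v => ?_⟩
    rw [h3.fderiv_eq, h2 v, kk_false (tst_dc h v) Z y (|δ| + |Z.im| + 1) (by linarith)]
    simp only [sub_sub]

theorem supp_part (b : Bool) {δ : ℝ} {r : ℂ → ℝ} (h : Tst δ r) (Z : ℂ) (y : ℝ)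
    (hk : kk b r Z y ≠ 0) : |th b y - (if b then ‖Z‖ else Z.re)| ≤ δ := by
  by_contra hc
  push Not at hc
  apply hk
  cases b with
  | true =>
    rw [kk_true]
    have : ∀ θ : ℝ, r (Z - (2 * √y : ℝ) * Complex.exp (θ * Complex.I)) = 0 := by
      intro θ
      apply h.supp
      have h1 := abs_norm_sub_norm_le Z (((2 * √y : ℝ) : ℂ) * Complex.exp (θ * Complex.I))
      have h2 : ‖((2 * √y : ℝ) : ℂ) * Complex.exp (θ * Complex.I)‖ = 2 * √y := by
        rw [norm_mul, Complex.norm_exp_ofReal_mul_I, mul_one, Complex.norm_real,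
          Real.norm_of_nonneg (by positivity)]
      rw [h2, abs_sub_comm] at h1
      simp only [th, if_true] at hc
      exact hc.trans_le h1
    simp only [this, intervalIntegral.integral_zero, mul_zero]
  | false =>
    rw [kk_false']
    have : ∀ s : ℝ, r (Z - y - s * Complex.I) = 0 := by
      intro s
      apply h.supp
      have h1 := Complex.abs_re_le_norm (Z - y - s * Complex.I)
      have h2 : (Z - y - s * Complex.I).re = Z.re - y := by simp
      rw [h2, abs_sub_comm] at h1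
      simp only [th, Bool.false_eq_true, if_false] at hc
      exact hc.trans_le h1
    simp only [this, integral_zero]

theorem smooth_part (b : Bool) {δ : ℝ} {r : ℂ → ℝ} (h : Tst δ r) (Z : ℂ) :
    ∃ g : ℝ → ℝ, ContDiff ℝ ∞ g ∧ (b = true → ∀ x, g (-x) = g x) ∧
      ∀ y ∈ ok b, kk b r Z y = g (if b then √y else y) := by
  cases b with
  | true =>
    refine ⟨fun x => 2 * ∫ θ in (0 : ℝ)..2 * Real.pi,
      r (Z - (2 * x : ℝ) * Complex.exp (θ * Complex.I)), ?_, fun _ x => ?_, fun y _ => ?_⟩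
    · refine contDiff_const.mul (contDiff_param
        (fun p : ℝ × ℝ => r (Z - (2 * p.1 : ℝ) * Complex.exp (p.2 * Complex.I))) ?_ _ _)
      exact h.sm.comp (contDiff_const.sub
        ((contDiff_ofReal.comp (contDiff_const.mul contDiff_fst)).mul
          (contDiff_circ.comp contDiff_snd)))
    · show 2 * (∫ θ in (0 : ℝ)..2 * Real.pi,
          r (Z - (2 * -x : ℝ) * Complex.exp (θ * Complex.I))) =
        2 * ∫ θ in (0 : ℝ)..2 * Real.pi, r (Z - (2 * x : ℝ) * Complex.exp (θ * Complex.I))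
      congr 1
      set f : ℝ → ℝ := fun θ => r (Z - (2 * x : ℝ) * Complex.exp (θ * Complex.I)) with hf
      have hp : Function.Periodic f (2 * Real.pi) := by
        intro θ
        simp only [hf]
        congr 3
        push_cast
        rw [add_mul, Complex.exp_add, Complex.exp_two_pi_mul_I, mul_one]
      have h1 : ∀ θ : ℝ, r (Z - (2 * -x : ℝ) * Complex.exp (θ * Complex.I)) =
          f (θ + Real.pi) := by
        intro θ
        simp only [hf]
        congr 2
        push_cast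
        rw [add_mul, Complex.exp_add, Complex.exp_pi_mul_I]
        ring
      rw [intervalIntegral.integral_congr (g := fun θ => f (θ + Real.pi)) fun θ _ => h1 θ]
      rw [intervalIntegral.integral_comp_add_right]
      have h2 := hp.intervalIntegral_add_eq (0 + Real.pi) 0
      rw [zero_add (2 * Real.pi)] at h2
      rw [← h2]
      congr 1
      ring
    · rfl
  | false =>
    refine ⟨fun x => ∫ s in (-(|δ| + |Z.im| + 1))..(|δ| + |Z.im| + 1),
      r (Z - x - s * Complex.I), ?_, fun hb => absurd hb (by simp), fun y _ => ?_⟩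
    · refine contDiff_param (fun p : ℝ × ℝ => r (Z - p.1 - p.2 * Complex.I)) ?_ _ _
      exact h.sm.comp ((contDiff_const.sub (contDiff_ofReal.comp contDiff_fst)).sub
        ((contDiff_ofReal.comp contDiff_snd).mul contDiff_const))
    · simp only [Bool.false_eq_true, if_false]
      exact kk_false h Z y _ (by linarith)

theorem bound_part (b : Bool) {δ : ℝ} {r : ℂ → ℝ} (h : Tst δ r) :
    ∃ C : ℝ, ∀ Z y, |kk b r Z y| ≤ C := by
  obtain ⟨M, hM⟩ := exists_bound h
  cases b with
  | true =>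
    refine ⟨2 * (M * |2 * Real.pi - 0|), fun Z y => ?_⟩
    rw [kk_true, abs_mul, abs_two]
    refine mul_le_mul_of_nonneg_left ?_ zero_le_two
    rw [← Real.norm_eq_abs]
    exact intervalIntegral.norm_integral_le_of_norm_le_const fun θ _ => by
      rw [Real.norm_eq_abs]; exact hM _
  | false =>
    refine ⟨M * |(|δ| + 1) - -(|δ| + 1)|, fun Z y => ?_⟩
    have h1 : kk false r Z y = kk false r (Z.re : ℂ) y := by
      rw [kk_false', kk_false',
        ← integral_add_right_eq_self (fun s : ℝ => r (Z - y - s * Complex.I)) Z.im]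
      congr 1
      funext s
      congr 1
      apply Complex.ext <;> simp
    rw [h1, kk_false h _ y (|δ| + 1) (by simp)]
    rw [← Real.norm_eq_abs]
    exact intervalIntegral.norm_integral_le_of_norm_le_const fun θ _ => by
      rw [Real.norm_eq_abs]; exact hM _

end Ker1

theorem ker1_ok : StKer1 := by
  intro b δ r h
  refine ⟨Ker1.tst_dc h, (Ker1.cont_part b h).continuousOn, fun y _ Z => Ker1.diff_part b h y Z,
    fun Z y _ hk => Ker1.supp_part b h Z y hk, Ker1.smooth_part b h, ?_⟩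
  obtain ⟨C, hC⟩ := Ker1.bound_part b h
  exact ⟨C, fun Z y _ => hC Z y⟩

end Pool.Agent.P.MP_2cea5e_gt.I
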