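import Pool.Agent.P.MP_2cea5e_gt.I.St3
import Pool.Agent.P.MP_2cea5e_gt.I.Ker1

/-!
Chapter I: compactness (a solution with small excess is close to its smoothing).
-/

open scoped ContDiff Topology
open MeasureTheory Set Filter

noncomputable section

set_option linter.dupNamespace false

namespace Pool.Agent.P.MP_2cea5e_gt.I

namespace Comp

theorem atan_lip {c x : ℝ} {s : Set ℝ} (hs : Convex ℝ s) (h0 : (0 : ℝ) ∈ s) (hx : x ∈ s)
    (hc : ∀ y ∈ s, y ^ 2 / (1 + y ^ 2) ≤ c) : |x - Real.arctan x| ≤ c * |x| := by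
  have h := hs.norm_image_sub_le_of_norm_hasDerivWithin_le (f := fun y => y - Real.arctan y)
    (f' := fun y => y ^ 2 / (1 + y ^ 2)) (C := c) (fun y _ => by
      have h1 := (hasDerivAt_id y).sub (Real.hasDerivAt_arctan y)
      have h2 : (1 : ℝ) - 1 / (1 + y ^ 2) = y ^ 2 / (1 + y ^ 2) := by
        field_simp
        ring
      rw [h2] at h1
      exact h1.hasDerivWithinAt)
    (fun y hy => by
      rw [Real.norm_eq_abs, abs_of_nonneg (by positivity)]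
      exact hc y hy) h0 hx
  simpa using h

theorem atan_sq {s : ℝ} (hs : 0 < s) (x : ℝ) :
    (x - Real.arctan x) ^ 2 ≤ 16 * s ^ 4 * x ^ 2 + 4 * max (|x| - s) 0 ^ 2 := by
  rcases le_total |x| (2 * s) with h | h
  · have h1 := atan_lip (c := 4 * s ^ 2) (convex_Icc (-(2 * s)) (2 * s)) ⟨by linarith, by linarith⟩
      (abs_le.1 h) fun y hy => by
        have : y ^ 2 ≤ (2 * s) ^ 2 := sq_le_sq' hy.1 hy.2
        refine (div_le_self (sq_nonneg _) (by nlinarith [sq_nonneg y])).trans (by nlinarith)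
    have h2 := pow_le_pow_left₀ (abs_nonneg _) h1 2
    rw [sq_abs, mul_pow, sq_abs] at h2
    nlinarith [sq_nonneg (max (|x| - s) 0)]
  · have h1 := atan_lip (c := 1) convex_univ (mem_univ _) (mem_univ x) fun y _ => by
      rw [div_le_one (by positivity)]
      linarith
    have h3 : |x - Real.arctan x| ≤ 2 * max (|x| - s) 0 := by
      have := le_max_left (|x| - s) 0
      linarith
    have h2 := pow_le_pow_left₀ (abs_nonneg _) h3 2
    rw [sq_abs, mul_pow] at h2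
    have : 0 ≤ 16 * s ^ 4 * x ^ 2 := by positivity
    linarith

variable {d : Dm} {δ : ℝ} {r : ℂ → ℝ}

theorem lc_ker (hr : Tst δ r) (Z : C2) :
    Lc d fun p => kk d.τ.1 r (Z 0) p.2.1 * kk d.τ.2 r (Z 1) p.2.2 := by
  obtain ⟨-, a1, -, -, -, C1, b1⟩ := ker1_ok d.τ.1 δ r hr
  obtain ⟨-, a2, -, -, -, C2, b2⟩ := ker1_ok d.τ.2 δ r hr
  have l1 : Lc d fun p => kk d.τ.1 r (Z 0) p.2.1 :=
    ⟨a1.comp (f := fun p : X => (Z 0, p.2.1)) (by fun_prop) fun p hp => ⟨mem_univ _, hp.2.2.1⟩,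
      fun _ _ _ => ⟨C1, fun p _ hp => b1 _ _ hp.2.2.1⟩⟩
  have l2 : Lc d fun p => kk d.τ.2 r (Z 1) p.2.2 :=
    ⟨a2.comp (f := fun p : X => (Z 1, p.2.2)) (by fun_prop) fun p hp => ⟨mem_univ _, hp.2.2.2⟩,
      fun _ _ _ => ⟨C2, fun p _ hp => b2 _ _ hp.2.2.2⟩⟩
  exact l1.mul l2

theorem mv_sub {f g : X → ℝ} (hf : Lc d f) (hg : Lc d g) (hr : Tst δ r) {t : ℝ} (ht : t ∈ d.I)
    (hb : bxc d.τ 1 ⊆ d.O) (Z : C2) :
    mv d.τ r r (f - g) t Z = mv d.τ r r f t Z - mv d.τ r r g t Z := by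
  have h1 := (hf.mul (lc_ker hr Z)).integrableOn (reg_bx hb) ht
  have h2 := (hg.mul (lc_ker hr Z)).integrableOn (reg_bx hb) ht
  unfold mv
  refine Eq.trans (integral_congr_ae (Eventually.of_forall fun y => ?_)) (integral_sub h1 h2)
  simp only [Pi.sub_apply, Pi.mul_apply]
  ring

theorem cont_th (b : Bool) : Continuous (th b) := by
  cases b
  · exact continuous_id
  · exact continuous_const.mul Real.continuous_sqrt

theorem cont_tz (τ : Ty) : Continuous (tz τ) := by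
  refine continuous_pi fun i => ?_
  fin_cases i
  · exact Complex.continuous_ofReal.comp ((cont_th _).comp continuous_fst)
  · exact Complex.continuous_ofReal.comp ((cont_th _).comp continuous_snd)

theorem lc_mv (h5 : StMoll1) {f : X → ℝ} (hf : Bd d f) (hr : Tst δ r) (hb : bxc d.τ 1 ⊆ d.O) :
    Lc d fun p => mv d.τ r r f p.1 (tz d.τ p.2) := by
  have h1 := (h5 d f δ r r hf hr hr hb).1.cont []
  have h2 : ContinuousOn (fun p : X => mv d.τ r r f p.1 (tz d.τ p.2)) d.Uc :=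
    h1.comp (f := fun p : X => (p.1, tz d.τ p.2))
      (continuous_fst.prodMk ((cont_tz _).comp continuous_snd)).continuousOn
      fun p hp => ⟨hp.1, mem_univ _⟩
  exact ⟨h2.mono d.U_subset, bd0_of_cont h2⟩

variable {u : X → ℝ}

theorem lc_gu (ha : Api d u) {f : X → ℝ} (hf : Bd d f) : Lc d (gu u f) :=
  ((((ha.bi11.mul (hf.D e1)).mul (hf.D e1)).add
    (ha.bi12.mul (((hf.D e1).mul (hf.D e2)).add ((hf.D e2).mul (hf.D e1))))).add
    ((ha.bi22.mul (hf.D e2)).mul (hf.D e2))).lc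

theorem pointwise (h2 : StAlg) (ha : Api d u) (f : X → ℝ) {p : X} (hp : p ∈ d.U) :
    0 ≤ gex d.τ u p ∧ 0 ≤ gu u f p ∧
    √(o1 d.τ p) * |D e1 f p| ≤ (1 + √(gex d.τ u p)) * √(gu u f p) ∧
    √(o2 d.τ p) * |D e2 f p| ≤ (1 + √(gex d.τ u p)) * √(gu u f p) := by
  obtain ⟨a0, -, -, -, -, a1, a2⟩ := h2.1 _ _ _ (ha.gx1 p hp).1 (ha.gx1 p hp).2
  have e := ha.gx3 p hp (D e1 f p, D e2 f p)
  have b1 := a1 (√(o1 d.τ p) * D e1 f p, √(o2 d.τ p) * D e2 f p)
  have b2 := (a2 (√(o1 d.τ p) * D e1 f p, √(o2 d.τ p) * D e2 f p)).1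
  rw [← ha.gx2 p hp] at a0 b1
  have e' : gu u f p = _ := e
  rw [← e'] at b1 b2
  have key : ∀ x : ℝ, x ^ 2 ≤ (1 + √(gex d.τ u p)) ^ 2 * gu u f p →
      |x| ≤ (1 + √(gex d.τ u p)) * √(gu u f p) := fun x hx => by
    refine abs_le_of_sq_le_sq' ?_ (by positivity) |> abs_le.2
    rwa [mul_pow, Real.sq_sqrt b2]
  refine ⟨a0, b2, ?_, ?_⟩
  · have := key (√(o1 d.τ p) * D e1 f p) (by nlinarith [sq_nonneg (√(o2 d.τ p) * D e2 f p)])
    rwa [abs_mul, abs_of_nonneg (Real.sqrt_nonneg _)] at this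
  · have := key (√(o2 d.τ p) * D e2 f p) (by nlinarith [sq_nonneg (√(o1 d.τ p) * D e1 f p)])
    rwa [abs_mul, abs_of_nonneg (Real.sqrt_nonneg _)] at this

theorem lc_A (ha : Api d u) (hw : Bd d (wv d.τ u)) :
    Lc d fun p => gu u (wv d.τ u) p / (1 + wv d.τ u p ^ 2) ^ 2 :=
  Lc.comp₂ (Φ := fun q => q.1 / (1 + q.2 ^ 2) ^ 2)
    (continuous_fst.div (by fun_prop) fun q => by positivity) (lc_gu ha hw) hw.lc

/-- The bounded part. -/
theorem atan_part (h2 : StAlg) (h7 : StMark2) (ha : Api d u) (hw : Bd d (wv d.τ u))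
    (hr : Prob δ r) (h0 : 0 < δ) (h1 : δ ≤ 1 / 20) {t : ℝ} (ht : t ∈ d.I) (hb : bxc d.τ 1 ⊆ d.O) :
    ∫ y in bx d.τ (1 / 8), (Real.arctan (wv d.τ u (t, y)) -
        mv d.τ r r (fun p => Real.arctan (wv d.τ u p)) t (tz d.τ y)) ^ 2 ≤
      64 * δ * (∫ y in bx d.τ (1 / 2), gu u (wv d.τ u) (t, y) / (1 + wv d.τ u (t, y) ^ 2) ^ 2) +
        32 * δ * ∫ y in bx d.τ (1 / 2), gex d.τ u (t, y) := by
  have hR : Reg d (bx d.τ (1 / 2)) := reg_bx ((bxc_mono _ (by norm_num) (by norm_num)).trans hb)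
  have hU : ∀ y ∈ bx d.τ (1 / 2), ((t, y) : X) ∈ d.U := fun y hy => ⟨ht, hR.sub hy⟩
  have lα : Lc d fun p => √(gu u (wv d.τ u) p) / (1 + wv d.τ u p ^ 2) :=
    Lc.comp₂ (Φ := fun q => √q.1 / (1 + q.2 ^ 2))
      ((Real.continuous_sqrt.comp continuous_fst).div (by fun_prop) fun q => by positivity)
      (lc_gu ha hw) hw.lc
  have lβ := ha.bg.lc.sqrt.mul lα
  have lA := lc_A ha hw
  refine (h7 d _ _ _ δ t r (hw.comp Real.contDiff_arctan) lα lβ hr h0 h1 ht hb fun y hy => ?_).trans ?_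
  · obtain ⟨a0, a1, a2, a3⟩ := pointwise h2 ha (wv d.τ u) (hU y hy)
    have hpos : 0 < 1 + wv d.τ u (t, y) ^ 2 := by positivity
    have key : ∀ (v : X) (o : ℝ), o * |D v (wv d.τ u) (t, y)| ≤
        (1 + √(gex d.τ u (t, y))) * √(gu u (wv d.τ u) (t, y)) →
        o * |D v (fun p => Real.arctan (wv d.τ u p)) (t, y)| ≤
          √(gu u (wv d.τ u) (t, y)) / (1 + wv d.τ u (t, y) ^ 2) +
          √(gex d.τ u (t, y)) * (√(gu u (wv d.τ u) (t, y)) / (1 + wv d.τ u (t, y) ^ 2)) := by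
      intro v o h
      rw [D_comp_at v (Real.hasDerivAt_arctan _) (hw.diffAt (hU y hy)), abs_mul,
        abs_of_pos (by positivity : 0 < 1 / (1 + wv d.τ u (t, y) ^ 2))]
      have := div_le_div_of_nonneg_right h hpos.le
      calc _ = o * |D v (wv d.τ u) (t, y)| / (1 + wv d.τ u (t, y) ^ 2) := by ring
        _ ≤ _ := this
        _ = _ := by ring
    refine ⟨?_, by positivity, ?_, key _ _ a2, key _ _ a3⟩
    · have b1 := Real.arctan_lt_pi_div_two (wv d.τ u (t, y))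
      have b2 := Real.neg_pi_div_two_lt_arctan (wv d.τ u (t, y))
      have := Real.pi_lt_four
      exact abs_le.2 ⟨by linarith, by linarith⟩
    · show 0 ≤ √(gex d.τ u (t, y)) * (√(gu u (wv d.τ u) (t, y)) / (1 + wv d.τ u (t, y) ^ 2))
      positivity
  · have i1 := lA.integrableOn hR ht
    have i2 := ha.bg.lc.integrableOn hR ht
    rw [← integral_const_mul, ← integral_const_mul, ← integral_add (i1.const_mul _) (i2.const_mul _)]
    refine setIntegral_mono_on ?_ ((i1.const_mul _).add (i2.const_mul _)) hR.ms fun y hy => ?_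
    · exact (((lα.pow 2).integrableOn hR ht).const_mul _).add ((lβ.integrableOn hR ht).const_mul _)
    · obtain ⟨a0, a1, -, -⟩ := pointwise h2 ha (wv d.τ u) (hU y hy)
      simp only [Pi.mul_apply]
      have e1 : gu u (wv d.τ u) (t, y) / (1 + wv d.τ u (t, y) ^ 2) ^ 2 =
          (√(gu u (wv d.τ u) (t, y)) / (1 + wv d.τ u (t, y) ^ 2)) ^ 2 := by
        rw [div_pow, Real.sq_sqrt a1]
      rw [e1]
      generalize √(gu u (wv d.τ u) (t, y)) / (1 + wv d.τ u (t, y) ^ 2) = a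
      have e2 := Real.sq_sqrt a0
      generalize √(gex d.τ u (t, y)) = g at e2 ⊢
      rw [← e2]
      have b1 : δ * (δ * a ^ 2) ≤ δ * a ^ 2 := mul_le_mul_of_nonneg_left
        (mul_le_of_le_one_left (sq_nonneg _) (by linarith)) h0.le
      have b2 : 0 ≤ δ * (g - a) ^ 2 := by positivity
      nlinarith

/-- The estimate at one time. -/
theorem slice (h2 : StAlg) (h5 : StMoll1) (h6 : StMoll3) (h7 : StMark2) (ha : Api d u)
    (hw : Bd d (wv d.τ u)) (hr : Prob δ r) (h0 : 0 < δ) (h1 : δ ≤ 1 / 20) {t s ε C : ℝ}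
    (ht : t ∈ d.I) (hb : bxc d.τ 1 ⊆ d.O) (hs : 0 < s) (hε : 0 ≤ ε) (hC : 0 ≤ C)
    (hcl : ∫ y in bx d.τ 1, wv d.τ u (t, y) ^ 2 ≤ ε ^ 2)
    (hV : ∫ y in bx d.τ (1 / 2), max (|wv d.τ u (t, y)| - s) 0 ^ 2 ≤
      (C * ∫ y in bx d.τ (1 / 2), gex d.τ u (t, y)) ^ 2) :
    ∫ y in bx d.τ (1 / 8), (wv d.τ u (t, y) - mv d.τ r r (wv d.τ u) t (tz d.τ y)) ^ 2 ≤
      192 * δ * (∫ y in bx d.τ (1 / 2), gu u (wv d.τ u) (t, y) / (1 + wv d.τ u (t, y) ^ 2) ^ 2) +
        (96 * δ + 24 * ε * C) * (∫ y in bx d.τ 1, gex d.τ u (t, y)) + 96 * s ^ 4 * ε ^ 2 := by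
  have R1 : Reg d (bx d.τ 1) := reg_bx hb
  have R2 : Reg d (bx d.τ (1 / 2)) := reg_bx ((bxc_mono _ (by norm_num) (by norm_num)).trans hb)
  have R8 : Reg d (bx d.τ (1 / 8)) := reg_bx ((bxc_mono _ (by norm_num) (by norm_num)).trans hb)
  have mono : ∀ {f : X → ℝ} {A B : Set (ℝ × ℝ)}, Lc d f → Reg d B → A ⊆ B →
      (∀ p ∈ d.U, 0 ≤ f p) → ∫ y in A, f (t, y) ≤ ∫ y in B, f (t, y) := by
    intro f A B hf hB hs hn
    refine setIntegral_mono_set (hf.integrableOn hB ht) ?_ hs.eventuallyLE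
    exact (ae_restrict_iff' hB.ms).mpr (Eventually.of_forall fun y hy => hn _ ⟨ht, hB.sub hy⟩)
  have hf := hw.comp Real.contDiff_arctan
  have hz := hw.sub hf
  set f : X → ℝ := fun p => Real.arctan (wv d.τ u p) with hfd
  have p1 := atan_part h2 h7 ha hw hr h0 h1 ht hb
  have p2 := (h6 d _ δ t r hz.lc hr h1 ht hb).2.1
  have p3 := mono (hz.lc.pow 2) R2 (bx_mono _ (by norm_num) (by norm_num) : bx d.τ (1 / 8) ⊆ _)
    fun p _ => sq_nonneg _
  have g0 : ∀ p ∈ d.U, 0 ≤ gex d.τ u p := fun p hp => (pointwise h2 ha (wv d.τ u) hp).1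
  have p4 := mono ha.bg.lc R1 (bx_mono _ (by norm_num) (by norm_num) : bx d.τ (1 / 2) ⊆ _) g0
  have p5 := mono (hw.lc.pow 2) R1 (bx_mono _ (by norm_num) (by norm_num) : bx d.τ (1 / 2) ⊆ _)
    fun p _ => sq_nonneg _
  have p6 : 0 ≤ ∫ y in bx d.τ (1 / 2), gex d.τ u (t, y) :=
    setIntegral_nonneg R2.ms fun y hy => g0 _ ⟨ht, R2.sub hy⟩
  have lV : Lc d fun p => max (|wv d.τ u p| - s) 0 ^ 2 :=
    hw.lc.comp (Φ := fun x => max (|x| - s) 0 ^ 2) (by fun_prop)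
  have iV := lV.integrableOn R2 ht
  have iw := (hw.lc.pow 2).integrableOn R2 ht
  have p7 : ∫ y in bx d.τ (1 / 2), max (|wv d.τ u (t, y)| - s) 0 ^ 2 ≤
      ∫ y in bx d.τ (1 / 2), wv d.τ u (t, y) ^ 2 :=
    setIntegral_mono_on iV iw R2.ms fun y _ => by
      rw [← sq_abs (wv d.τ u (t, y))]
      exact pow_le_pow_left₀ (le_max_right _ _) (max_le (by linarith) (abs_nonneg _)) 2
  have p8 : ∫ y in bx d.τ (1 / 2), (wv d.τ u - f) (t, y) ^ 2 ≤
      16 * s ^ 4 * (∫ y in bx d.τ (1 / 2), wv d.τ u (t, y) ^ 2) +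
        4 * ∫ y in bx d.τ (1 / 2), max (|wv d.τ u (t, y)| - s) 0 ^ 2 := by
    rw [← integral_const_mul, ← integral_const_mul, ← integral_add (iw.const_mul _) (iV.const_mul _)]
    exact setIntegral_mono_on ((hz.lc.pow 2).integrableOn R2 ht)
      ((iw.const_mul _).add (iV.const_mul _)) R2.ms fun y _ => atan_sq hs _
  have p9 : ∫ y in bx d.τ (1 / 2), max (|wv d.τ u (t, y)| - s) 0 ^ 2 ≤
      ε * (C * ∫ y in bx d.τ (1 / 2), gex d.τ u (t, y)) := by
    have q0 : 0 ≤ ∫ y in bx d.τ (1 / 2), max (|wv d.τ u (t, y)| - s) 0 ^ 2 :=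
      integral_nonneg fun y => sq_nonneg _
    refine abs_le_of_sq_le_sq' ?_ (by positivity) |>.2
    rw [mul_pow, sq]
    exact mul_le_mul (p7.trans (p5.trans hcl)) hV q0 (sq_nonneg _)
  have i1 : IntegrableOn (fun y => (f (t, y) - mv d.τ r r f t (tz d.τ y)) ^ 2) (bx d.τ (1 / 8)) :=
    ((hf.lc.sub (lc_mv h5 hf hr.tst hb)).pow 2).integrableOn R8 ht
  have i2 := (hz.lc.pow 2).integrableOn R8 ht
  have i3 : IntegrableOn (fun y => mv d.τ r r (wv d.τ u - f) t (tz d.τ y) ^ 2) (bx d.τ (1 / 8)) :=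
    ((lc_mv h5 hz hr.tst hb).pow 2).integrableOn R8 ht
  have p10 : ∫ y in bx d.τ (1 / 8), (wv d.τ u (t, y) - mv d.τ r r (wv d.τ u) t (tz d.τ y)) ^ 2 ≤
      3 * ((∫ y in bx d.τ (1 / 8), (f (t, y) - mv d.τ r r f t (tz d.τ y)) ^ 2) +
        (∫ y in bx d.τ (1 / 8), (wv d.τ u - f) (t, y) ^ 2) +
        ∫ y in bx d.τ (1 / 8), mv d.τ r r (wv d.τ u - f) t (tz d.τ y) ^ 2) := by
    have i4 : IntegrableOn (fun y => (f (t, y) - mv d.τ r r f t (tz d.τ y)) ^ 2 +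
        (wv d.τ u - f) (t, y) ^ 2) (bx d.τ (1 / 8)) := i1.add i2
    rw [← integral_add i1 i2, ← integral_add i4 i3, ← integral_const_mul]
    refine setIntegral_mono_on (((hw.lc.sub (lc_mv h5 hw hr.tst hb)).pow 2).integrableOn R8 ht)
      (((i1.add i2).add i3).const_mul _) R8.ms fun y _ => ?_
    simp only [Pi.sub_apply, Pi.add_apply]
    rw [mv_sub hw.lc hf.lc hr.tst ht hb]
    generalize mv d.τ r r (wv d.τ u) t (tz d.τ y) = a
    generalize mv d.τ r r f t (tz d.τ y) = b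
    generalize wv d.τ u (t, y) = c
    generalize f (t, y) = e
    nlinarith [sq_nonneg (e - b - (c - e)), sq_nonneg (e - b + (a - b)), sq_nonneg (c - e + (a - b))]
  have q1 : 16 * s ^ 4 * (∫ y in bx d.τ (1 / 2), wv d.τ u (t, y) ^ 2) ≤ 16 * s ^ 4 * ε ^ 2 :=
    mul_le_mul_of_nonneg_left (p5.trans hcl) (by positivity)
  have q2 := mul_le_mul_of_nonneg_left p4 (by positivity : 0 ≤ 96 * δ + 24 * ε * C)
  nlinarith

end Comp

open _root_.Pool.Agent.P.MP_2cea5e_gt.I.Comp in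
theorem comp_ok (h1 : StApi) (h2 : StAlg) (h3 : StGradB) (h4 : StVT) (h5 : StMoll1) (h6 : StMoll3)
    (h7 : StMark2) : StComp := by
  intro τ γ hγ
  obtain ⟨B, hB⟩ := h3 τ
  have hs : 0 < min 1 (γ / 288) := lt_min one_pos (by positivity)
  obtain ⟨C, σ', hC, hσ', hV⟩ := h4 τ _ hs
  have hB0 : 0 < 192 * |B| + 96 := by positivity
  refine ⟨min (1 / 20) (γ / 3 / (192 * |B| + 96)), lt_min (by norm_num) (by positivity),
    min_le_left _ _, min 1 σ', γ / 3 / (24 * (C + 1)), lt_min one_pos hσ', by positivity, ?_⟩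
  rintro δ r h0 hδ hr d u F ε rfl hN hsup hε hε0 hE
  have ha := h1 d u hN.gs.toGS0
  have hw := hN.gs.bd
  have R1 : Reg d (bx d.τ 1) := reg_bx hN.bO
  have R2 : Reg d (bx d.τ (1 / 2)) := reg_bx ((bxc_mono _ (by norm_num) (by norm_num)).trans hN.bO)
  have R8 : Reg d (bx d.τ (1 / 8)) := reg_bx ((bxc_mono _ (by norm_num) (by norm_num)).trans hN.bO)
  have ii : ∀ {f : X → ℝ} {A : Set (ℝ × ℝ)}, Lc d f → Reg d A →
      IntervalIntegrable (fun t => ∫ y in A, f (t, y)) volume (-1) 0 := fun hf hA =>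
    ((hf.continuousOn_int hA).mono hN.tI).intervalIntegrable_of_Icc (by norm_num)
  have j0 := ii ((hw.lc.sub (lc_mv h5 hw hr.tst hN.bO)).pow 2) R8
  have j1 := ii (lc_A ha hw) R2
  have j2 := ii ha.bg.lc R1
  refine ⟨j0, ?_⟩
  have k1 := hB d u F ε rfl hN (fun t ht y hy => (hsup t ht y hy).trans (min_le_left _ _)) hE
  have k0 := intervalIntegral.integral_mono_on (by norm_num : (-1 : ℝ) ≤ 0) j0
    (((j1.const_mul (192 * δ)).add (j2.const_mul (96 * δ + 24 * ε * C))).add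
      (intervalIntegrable_const (c := 96 * min 1 (γ / 288) ^ 4 * ε ^ 2))) fun t ht =>
    slice h2 h5 h6 h7 ha hw hr h0 (hδ.trans (min_le_left _ _)) (hN.tI ht) hN.bO hs hε hC
      (hE.1 t ht) (hV d u F t rfl ⟨hN.gs, hN.tI ht, hN.bO⟩
        fun y hy => (hsup t ht y hy).trans (min_le_right _ _))
  rw [intervalIntegral.integral_add ((j1.const_mul _).add (j2.const_mul _)) intervalIntegrable_const,
    intervalIntegral.integral_add (j1.const_mul _) (j2.const_mul _),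
    intervalIntegral.integral_const_mul, intervalIntegral.integral_const_mul,
    intervalIntegral.integral_const] at k0
  refine k0.trans ?_
  have m1 := mul_le_mul_of_nonneg_left
    (k1.trans (mul_le_mul_of_nonneg_right (le_abs_self B) (sq_nonneg ε)))
    (by positivity : 0 ≤ 192 * δ)
  have m2 := mul_le_mul_of_nonneg_left hE.2 (by positivity : 0 ≤ 96 * δ + 24 * ε * C)
  have n1 : δ * (192 * |B| + 96) ≤ γ / 3 := (le_div_iff₀ hB0).1 (hδ.trans (min_le_right _ _))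
  have n2 : ε * (24 * (C + 1)) ≤ γ / 3 := (le_div_iff₀ (by positivity)).1 hε0
  have n3 : min 1 (γ / 288) ^ 4 ≤ γ / 288 :=
    (pow_le_of_le_one hs.le (min_le_left _ _) (by norm_num)).trans (min_le_right _ _)
  have n4 : 192 * δ * |B| + (96 * δ + 24 * ε * C) + 96 * min 1 (γ / 288) ^ 4 ≤ γ := by nlinarith
  have n5 := mul_le_mul_of_nonneg_right n4 (sq_nonneg ε)
  simp only [sub_neg_eq_add, zero_add, smul_eq_mul, one_mul]
  nlinarith

end Pool.Agent.P.MP_2cea5e_gt.I
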