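import Pool.Agent.P.MP_2cea5e_gt.I.St2

/-!
Chapter I: the curvature bound.
-/

open scoped ContDiff Topology
open MeasureTheory Set Filter

noncomputable section

set_option linter.dupNamespace false

namespace Pool.Agent.P.MP_2cea5e_gt.I

namespace Curv

variable {U : Set X} {f g v : X → ℝ} {p : X}

theorem DD_add (hU : IsOpen U) (hf : ContDiffOn ℝ ∞ f U) (hg : ContDiffOn ℝ ∞ g U) (hp : p ∈ U)
    (k l : X) : D k (D l (f + g)) p = D k (D l f) p + D k (D l g) p := by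
  have e : EqOn (D l (f + g)) (D l f + D l g) U := fun q hq =>
    D_add_at l (diffAt hU hf hq) (diffAt hU hg hq)
  rw [D_congr hU k e hp, D_add_at k (diffAt hU (smO_D hU l hf) hp) (diffAt hU (smO_D hU l hg) hp)]

theorem DD_mul (hU : IsOpen U) (hf : ContDiffOn ℝ ∞ f U) (hg : ContDiffOn ℝ ∞ g U) (hp : p ∈ U)
    (k l : X) : D k (D l (f * g)) p =
      D k (D l f) p * g p + D l f p * D k g p + D k f p * D l g p + f p * D k (D l g) p := by
  have e : EqOn (D l (f * g)) (D l f * g + f * D l g) U := fun q hq =>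
    D_mul_at l (diffAt hU hf hq) (diffAt hU hg hq)
  have d1 := diffAt hU (smO_D hU l hf) hp
  have d2 := diffAt hU (smO_D hU l hg) hp
  have d3 := diffAt hU hf hp
  have d4 := diffAt hU hg hp
  rw [D_congr hU k e hp, D_add_at k (d1.mul d4) (d3.mul d2), D_mul_at k d1 d4, D_mul_at k d3 d2]
  ring

theorem D_const (hU : IsOpen U) {c : ℝ} (h : EqOn f (K c) U) (l : X) : EqOn (D l f) (K 0) U := by
  intro q hq
  rw [D_congr hU l h hq, D_K]
  rfl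

theorem smK (c : ℝ) : ContDiffOn ℝ ∞ (K c) U := (sm_K c).contDiffOn

theorem smMul (hf : ContDiffOn ℝ ∞ f U) (hg : ContDiffOn ℝ ∞ g U) : ContDiffOn ℝ ∞ (f * g) U :=
  hf.mul hg

theorem smAdd (hf : ContDiffOn ℝ ∞ f U) (hg : ContDiffOn ℝ ∞ g U) : ContDiffOn ℝ ∞ (f + g) U :=
  hf.add hg

theorem DD_mulK (hU : IsOpen U) (hf : ContDiffOn ℝ ∞ f U) (hp : p ∈ U) (c : ℝ) (k l : X) :
    D k (D l (f * K c)) p = D k (D l f) p * c := by
  rw [DD_mul hU hf (smK c) hp, D_K, D_K, D_zero]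
  simp

theorem sv_eq (e : ℝ × ℝ) : sv e = e.1 • e1 + e.2 • e2 := by
  ext <;> simp [sv, e1, e2]

theorem DD_sv (hU : IsOpen U) (hf : ContDiffOn ℝ ∞ f U) (hp : p ∈ U) (e : ℝ × ℝ) :
    D (sv e) (D (sv e) f) p =
      h11 f p * e.1 ^ 2 + 2 * h12 f p * (e.1 * e.2) + h22 f p * e.2 ^ 2 := by
  have d1 := diffAt hU (smO_D hU e1 hf) hp
  have d2 := diffAt hU (smO_D hU e2 hf) hp
  have dk : ∀ c : ℝ, DifferentiableAt ℝ (K c) p := fun c => (sm_K c).diff p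
  have hc := D_comm_on hU hf e2 e1 hp
  rw [sv_eq, D_lin, D_dir, D_add_at _ ((dk _).mul d1) ((dk _).mul d2),
    D_add_at _ ((dk _).mul d1) ((dk _).mul d2), D_mul_at _ (dk _) d1, D_mul_at _ (dk _) d2,
    D_mul_at _ (dk _) d1, D_mul_at _ (dk _) d2, D_K, D_K, D_K, D_K, hc]
  simp only [h11, h12, h22, Pi.zero_apply, K_apply]
  ring

theorem sm11 (hU : IsOpen U) (hv : ContDiffOn ℝ ∞ v U) : ContDiffOn ℝ ∞ (h11 v) U :=
  smO_D hU _ (smO_D hU _ hv)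
theorem sm12 (hU : IsOpen U) (hv : ContDiffOn ℝ ∞ v U) : ContDiffOn ℝ ∞ (h12 v) U :=
  smO_D hU _ (smO_D hU _ hv)
theorem sm22 (hU : IsOpen U) (hv : ContDiffOn ℝ ∞ v U) : ContDiffOn ℝ ∞ (h22 v) U :=
  smO_D hU _ (smO_D hU _ hv)

theorem W_eq (v : X → ℝ) (p : X) : W v p = h11 v p * h22 v p - h12 v p * h12 v p := rfl

theorem smI (hU : IsOpen U) (hv : ContDiffOn ℝ ∞ v U) (hW : ∀ q ∈ U, W v q ≠ 0) :
    ContDiffOn ℝ ∞ (i11 v) U ∧ ContDiffOn ℝ ∞ (i12 v) U ∧ ContDiffOn ℝ ∞ (i22 v) U := by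
  have a := sm11 hU hv
  have b := sm12 hU hv
  have c := sm22 hU hv
  have w : ContDiffOn ℝ ∞ (W v) U := (a.mul c).sub (b.mul b)
  have iw : ContDiffOn ℝ ∞ (Iv (W v)) U := w.inv hW
  exact ⟨c.mul iw, (b.mul iw).neg, a.mul iw⟩

theorem sm_iq (hU : IsOpen U) (hv : ContDiffOn ℝ ∞ v U) (hW : ∀ q ∈ U, W v q ≠ 0) (n : ℝ × ℝ) :
    ContDiffOn ℝ ∞ (iq v n) U := by
  obtain ⟨x, y, z⟩ := smI hU hv hW
  exact (((x.mul contDiffOn_const).mul contDiffOn_const).add (y.mul contDiffOn_const)).add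
    ((z.mul contDiffOn_const).mul contDiffOn_const)

theorem DD_iq (hU : IsOpen U) (hv : ContDiffOn ℝ ∞ v U) (hW : ∀ q ∈ U, W v q ≠ 0) (hp : p ∈ U)
    (n : ℝ × ℝ) (k l : X) : D k (D l (iq v n)) p = D k (D l (i11 v)) p * n.1 ^ 2 +
      2 * D k (D l (i12 v)) p * (n.1 * n.2) + D k (D l (i22 v)) p * n.2 ^ 2 := by
  obtain ⟨x, y, z⟩ := smI hU hv hW
  have e : iq v n = i11 v * K (n.1 ^ 2) + i12 v * K (2 * (n.1 * n.2)) + i22 v * K (n.2 ^ 2) := by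
    funext q
    simp only [iq, ib, iv2, T2.ap, Pi.add_apply, Pi.mul_apply, K_apply]
    ring
  rw [e, DD_add hU (smAdd (smMul x (smK _)) (smMul y (smK _))) (smMul z (smK _)) hp,
    DD_add hU (smMul x (smK _)) (smMul y (smK _)) hp, DD_mulK hU x hp, DD_mulK hU y hp,
    DD_mulK hU z hp]
  ring

/-- Differentiating a relation `x a + y b = c` once and twice. -/
theorem rel (hU : IsOpen U) {x a y b : X → ℝ} (hx : ContDiffOn ℝ ∞ x U) (ha : ContDiffOn ℝ ∞ a U)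
    (hy : ContDiffOn ℝ ∞ y U) (hb : ContDiffOn ℝ ∞ b U) {c : ℝ} (h : EqOn (x * a + y * b) (K c) U)
    (hp : p ∈ U) :
    (∀ k, D k x p * a p + x p * D k a p + (D k y p * b p + y p * D k b p) = 0) ∧
    ∀ k l, D k (D l x) p * a p + D l x p * D k a p + D k x p * D l a p + x p * D k (D l a) p +
      (D k (D l y) p * b p + D l y p * D k b p + D k y p * D l b p + y p * D k (D l b) p) = 0 := by
  constructor
  · intro k
    have := D_const hU h k hp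
    rwa [D_add_at k ((diffAt hU hx hp).mul (diffAt hU ha hp))
      ((diffAt hU hy hp).mul (diffAt hU hb hp)), D_mul_at k (diffAt hU hx hp) (diffAt hU ha hp),
      D_mul_at k (diffAt hU hy hp) (diffAt hU hb hp)] at this
  · intro k l
    have := D_const hU (D_const hU h l) k hp
    rwa [DD_add hU (smMul hx ha) (smMul hy hb) hp, DD_mul hU hx ha hp, DD_mul hU hy hb hp] at this

/-- The symmetry of the curvature tensor at a point where the Hessian is the identity. -/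
theorem symm (hU : IsOpen U) (hv : ContDiffOn ℝ ∞ v U) (hW : ∀ q ∈ U, W v q ≠ 0) (hp : p ∈ U)
    (a1 : h11 v p = 1) (b0 : h12 v p = 0) (c1 : h22 v p = 1) :
    (i11 v p = 1 ∧ i12 v p = 0 ∧ i22 v p = 1) ∧ h22 (i11 v) p = h11 (i22 v) p ∧
      h12 (i11 v) p = h11 (i12 v) p ∧ h12 (i22 v) p = h22 (i12 v) p := by
  obtain ⟨x, y, z⟩ := smI hU hv hW
  have a := sm11 hU hv
  have b := sm12 hU hv
  have c := sm22 hU hv
  have w1 : W v p = 1 := by rw [W_eq, a1, b0, c1]; norm_num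
  have x1 : i11 v p = 1 := by simp [i11, Iv_apply, w1, c1]
  have y0 : i12 v p = 0 := by simp [i12, b0]
  have z1 : i22 v p = 1 := by simp [i22, Iv_apply, w1, a1]
  have r1 : EqOn (i11 v * h11 v + i12 v * h12 v) (K 1) U := fun q hq => by
    have := hW q hq
    simp only [i11, i12, Pi.add_apply, Pi.mul_apply, Pi.neg_apply, Iv_apply, K_apply]
    field_simp
    rw [W_eq]; ring
  have r2 : EqOn (i11 v * h12 v + i12 v * h22 v) (K 0) U := fun q hq => by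
    simp only [i11, i12, Pi.add_apply, Pi.mul_apply, Pi.neg_apply, Iv_apply, K_apply]
    ring
  have r3 : EqOn (i12 v * h12 v + i22 v * h22 v) (K 1) U := fun q hq => by
    have := hW q hq
    simp only [i22, i12, Pi.add_apply, Pi.mul_apply, Pi.neg_apply, Iv_apply, K_apply]
    field_simp
    rw [W_eq]; ring
  obtain ⟨s1, t1⟩ := rel hU x a y b r1 hp
  obtain ⟨s2, t2⟩ := rel hU x b y c r2 hp
  obtain ⟨s3, t3⟩ := rel hU y b z c r3 hp
  simp only [a1, b0, c1, x1, y0, z1, mul_one, one_mul, mul_zero, zero_mul, add_zero, zero_add]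
    at s1 s2 s3 t1 t2 t3
  have dx : ∀ k, D k (i11 v) p = -D k (h11 v) p := fun k => by linarith [s1 k]
  have dy : ∀ k, D k (i12 v) p = -D k (h12 v) p := fun k => by linarith [s2 k]
  have dz : ∀ k, D k (i22 v) p = -D k (h22 v) p := fun k => by linarith [s3 k]
  simp only [dx, dy, dz] at t1 t2 t3
  have c0 : EqOn (D e2 (D e1 v)) (D e1 (D e2 v)) U := fun q hq => D_comm_on hU hv e2 e1 hq
  have E1 : EqOn (D e2 (h11 v)) (D e1 (h12 v)) U := fun q hq =>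
    (D_comm_on hU (smO_D hU e1 hv) e2 e1 hq).trans (D_congr hU e1 c0 hq)
  have E2 : EqOn (D e2 (h12 v)) (D e1 (h22 v)) U := fun q hq =>
    D_comm_on hU (smO_D hU e2 hv) e2 e1 hq
  have F1 : D e2 (D e2 (h11 v)) p = D e1 (D e1 (h22 v)) p :=
    ((D_congr hU e2 E1 hp).trans (D_comm_on hU b e2 e1 hp)).trans (D_congr hU e1 E2 hp)
  have F2 : D e1 (D e2 (h11 v)) p = D e1 (D e1 (h12 v)) p := D_congr hU e1 E1 hp
  have F3 : D e1 (D e2 (h22 v)) p = D e2 (D e2 (h12 v)) p :=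
    (D_comm_on hU c e1 e2 hp).trans (D_congr hU e2 E2 hp).symm
  have G1 := E1 hp
  have G2 := E2 hp
  refine ⟨⟨x1, y0, z1⟩, ?_, ?_, ?_⟩
  · have u1 := t1 e2 e2
    have u2 := t3 e1 e1
    rw [F1, G1, G2] at u1
    show D e2 (D e2 (i11 v)) p = D e1 (D e1 (i22 v)) p
    linarith
  · have u1 := t1 e1 e2
    have u2 := t2 e1 e1
    rw [F2, G1, G2] at u1
    show D e1 (D e2 (i11 v)) p = D e1 (D e1 (i12 v)) p
    linarith
  · have u1 := t3 e1 e2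
    have u2 := t2 e2 e2
    rw [F3, G2] at u1
    rw [G1, G2] at u2
    show D e1 (D e2 (i22 v)) p = D e2 (D e2 (i12 v)) p
    linarith

theorem cs3 (x y z s t : ℝ) :
    (x * s ^ 2 + 2 * y * (s * t) + z * t ^ 2) ^ 2 ≤
      (x ^ 2 + 2 * y ^ 2 + z ^ 2) * (s ^ 2 + t ^ 2) ^ 2 := by
  nlinarith [sq_nonneg (x * (s * t) - y * s ^ 2), sq_nonneg (x * t ^ 2 - z * s ^ 2),
    sq_nonneg (y * t ^ 2 - z * (s * t))]

theorem alg (a b c d e f n₁ n₂ s t : ℝ) :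
    |(a * n₁ ^ 2 + 2 * b * (n₁ * n₂) + c * n₂ ^ 2) * s ^ 2 +
      2 * (b * n₁ ^ 2 + 2 * d * (n₁ * n₂) + e * n₂ ^ 2) * (s * t) +
      (c * n₁ ^ 2 + 2 * e * (n₁ * n₂) + f * n₂ ^ 2) * t ^ 2| ≤
    2 * √(a ^ 2 + f ^ 2 + 2 * c ^ 2 + 4 * d ^ 2 + 4 * b ^ 2 + 4 * e ^ 2) * (n₁ ^ 2 + n₂ ^ 2) *
      (s ^ 2 + t ^ 2) := by
  set R := a ^ 2 + f ^ 2 + 2 * c ^ 2 + 4 * d ^ 2 + 4 * b ^ 2 + 4 * e ^ 2 with hR
  have R0 : 0 ≤ R := by positivity
  have h1 := cs3 a b c n₁ n₂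
  have h2 := cs3 b d e n₁ n₂
  have h3 := cs3 c e f n₁ n₂
  set u₁ := a * n₁ ^ 2 + 2 * b * (n₁ * n₂) + c * n₂ ^ 2
  set u₂ := b * n₁ ^ 2 + 2 * d * (n₁ * n₂) + e * n₂ ^ 2
  set u₃ := c * n₁ ^ 2 + 2 * e * (n₁ * n₂) + f * n₂ ^ 2
  have h4 := cs3 u₁ u₂ u₃ s t
  have h5 : u₁ ^ 2 + 2 * u₂ ^ 2 + u₃ ^ 2 ≤ R * (n₁ ^ 2 + n₂ ^ 2) ^ 2 := by
    rw [hR]; nlinarith
  have h6 := mul_le_mul_of_nonneg_right h5 (sq_nonneg (s ^ 2 + t ^ 2))
  refine abs_le_of_sq_le_sq' ?_ (by positivity) |> fun h => abs_le.2 h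
  rw [mul_pow, mul_pow, mul_pow, Real.sq_sqrt R0]
  have : 0 ≤ R * (n₁ ^ 2 + n₂ ^ 2) ^ 2 * (s ^ 2 + t ^ 2) ^ 2 := by positivity
  nlinarith

theorem alg2 (a b c d e f : ℝ) :
    |a + 2 * d + f| ≤ 2 * √(a ^ 2 + f ^ 2 + 2 * c ^ 2 + 4 * d ^ 2 + 4 * b ^ 2 + 4 * e ^ 2) := by
  have R0 : 0 ≤ a ^ 2 + f ^ 2 + 2 * c ^ 2 + 4 * d ^ 2 + 4 * b ^ 2 + 4 * e ^ 2 := by positivity
  refine abs_le_of_sq_le_sq' ?_ (by positivity) |> fun h => abs_le.2 h
  rw [mul_pow, Real.sq_sqrt R0]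
  nlinarith [sq_nonneg (a - 2 * d), sq_nonneg (a - f), sq_nonneg (2 * d - f), sq_nonneg a,
    sq_nonneg b, sq_nonneg c, sq_nonneg d, sq_nonneg e, sq_nonneg f]

/-- The bounds at a point where the Hessian is the identity. -/
theorem key (hU : IsOpen U) (hv : ContDiffOn ℝ ∞ v U) (hW : ∀ q ∈ U, W v q ≠ 0) (hp : p ∈ U)
    (a1 : h11 v p = 1) (b0 : h12 v p = 0) (c1 : h22 v p = 1) :
    0 ≤ rm v p ∧ |ab v p| ≤ 2 * √(rm v p) ∧
      ∀ e n, |D (sv e) (D (sv e) (iq v n)) p| ≤ 2 * √(rm v p) * iq v n p * hq v e p := by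
  obtain ⟨⟨x1, y0, z1⟩, s1, s2, s3⟩ := symm hU hv hW hp a1 b0 c1
  have hr : rm v p = h11 (i11 v) p ^ 2 + h22 (i22 v) p ^ 2 + 2 * h11 (i22 v) p ^ 2 +
      4 * h12 (i12 v) p ^ 2 + 4 * h11 (i12 v) p ^ 2 + 4 * h22 (i12 v) p ^ 2 := by
    simp only [rm, iv2, T2.rr, Pi.add_apply, Pi.mul_apply, K_apply, s1, s2, s3]
    ring
  refine ⟨by rw [hr]; positivity, ?_, fun e n => ?_⟩
  · rw [hr]
    exact alg2 _ _ _ _ _ _
  · have q1 : iq v n p = n.1 ^ 2 + n.2 ^ 2 := by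
      simp only [iq, ib, iv2, T2.ap, x1, y0, z1]; ring
    have q2 : hq v e p = e.1 ^ 2 + e.2 ^ 2 := by
      simp only [hq, hb, hs, T2.ap, a1, b0, c1]; ring
    have k1 : h11 (iq v n) p = h11 (i11 v) p * n.1 ^ 2 + 2 * h11 (i12 v) p * (n.1 * n.2) +
        h11 (i22 v) p * n.2 ^ 2 := DD_iq hU hv hW hp n e1 e1
    have k2 : h12 (iq v n) p = h12 (i11 v) p * n.1 ^ 2 + 2 * h12 (i12 v) p * (n.1 * n.2) +
        h12 (i22 v) p * n.2 ^ 2 := DD_iq hU hv hW hp n e1 e2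
    have k3 : h22 (iq v n) p = h22 (i11 v) p * n.1 ^ 2 + 2 * h22 (i12 v) p * (n.1 * n.2) +
        h22 (i22 v) p * n.2 ^ 2 := DD_iq hU hv hW hp n e2 e2
    rw [DD_sv hU (sm_iq hU hv hW n) hp, k1, k2, k3, q1, q2, hr, s1, s2, s3]
    exact alg _ _ _ _ _ _ _ _ _ _

/-- The bounds at any point where the Hessian is positive. -/
theorem gen (h3 : StFC) (hU : IsOpen U) (hv : ContDiffOn ℝ ∞ v U) (hW : ∀ q ∈ U, 0 < W v q)
    (hp : p ∈ U) (hA : 0 < h11 v p) :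
    0 ≤ rm v p ∧ |ab v p| ≤ 2 * √(rm v p) ∧
      ∀ e n, |D (sv e) (D (sv e) (iq v n)) p| ≤ 2 * √(rm v p) * iq v n p * hq v e p := by
  have hW' : ∀ q ∈ U, W v q ≠ 0 := fun q hq => (hW q hq).ne'
  have hWp := hW p hp
  obtain ⟨α, α0, hα⟩ : ∃ α : ℝ, 0 < α ∧ α ^ 2 * h11 v p = 1 :=
    ⟨√(h11 v p)⁻¹, by positivity, by rw [Real.sq_sqrt (by positivity)]; field_simp⟩
  obtain ⟨ε, ε0, hε⟩ : ∃ ε : ℝ, 0 < ε ∧ ε ^ 2 * W v p = h11 v p :=
    ⟨√(h11 v p / W v p), by positivity, by rw [Real.sq_sqrt (by positivity)]; field_simp⟩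
  let fr : Fr :=
    { t1 := p.1, ρ := 1, p := p.2, a := α, b := -(h12 v p * ε / h11 v p), c := 0, e := ε,
      l0 := 0, l1 := 0, l2 := 0, ρ_pos := one_pos,
      det_ne := by simpa using ⟨α0.ne', ε0.ne'⟩ }
  have hq0 : fr.fm 0 = p := by
    ext <;> simp [fr, Fr.fm, Fr.tm, Fr.sp, Fr.S]
  have hρ : fr.ρ = 1 := rfl
  have hcont : Continuous fr.fm :=
    (fr.cont_tm.comp continuous_fst).prodMk (fr.cont_sp.comp continuous_snd)
  have hU' : IsOpen (fr.fm ⁻¹' U) := hU.preimage hcont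
  have h0 : fr.fm 0 ∈ U := by rw [hq0]; exact hp
  obtain ⟨c1, -, c3⟩ := h3 fr U hU
  obtain ⟨sv', c4⟩ := c3 v hv hW'
  have hW2 : ∀ q ∈ fr.fm ⁻¹' U, W (fr.pull v) q ≠ 0 := fun q hq => by
    rw [(c4 q hq).2.2.2.1]
    exact mul_ne_zero (div_ne_zero (pow_ne_zero _ fr.det_ne) (pow_ne_zero _ fr.ρ_pos.ne'))
      (hW' _ hq)
  obtain ⟨-, -, d1, -, -, d2, d3, d4⟩ := c4 0 h0
  simp only [hρ, hq0, one_pow, div_one, one_mul] at d1 d2 d3 d4
  have w := W_eq v p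
  have a1 : h11 (fr.pull v) 0 = 1 := by
    have := d1 (1, 0) (1, 0)
    simp only [hb, hs, T2.ap, fr, Fr.S] at this
    linear_combination this + hα
  have b0 : h12 (fr.pull v) 0 = 0 := by
    have := d1 (1, 0) (0, 1)
    simp only [hb, hs, T2.ap, fr, Fr.S] at this
    have e : h11 v p * (h12 v p * ε / h11 v p) = h12 v p * ε := by field_simp
    linear_combination this - α * e
  have c1' : h22 (fr.pull v) 0 = 1 := by
    have := d1 (0, 1) (0, 1)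
    simp only [hb, hs, T2.ap, fr, Fr.S] at this
    have e : h11 v p * -(h12 v p * ε / h11 v p) * -(h12 v p * ε / h11 v p) +
        h12 v p * (-(h12 v p * ε / h11 v p) * ε + ε * -(h12 v p * ε / h11 v p)) +
        h22 v p * ε * ε = 1 := by
      rw [w] at hε
      field_simp
      linear_combination hε
    linear_combination this + e
  obtain ⟨k1, k2, k3⟩ := key hU' sv' hW2 h0 a1 b0 c1'
  rw [d4] at k1 k2 k3
  rw [d3] at k2
  refine ⟨k1, k2, fun e n => ?_⟩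
  obtain ⟨e', he⟩ : ∃ e', fr.S e' = e := by
    refine ⟨((e.1 + h12 v p / h11 v p * e.2) / α, e.2 / ε), ?_⟩
    ext
    · simp only [fr, Fr.S]; field_simp; ring
    · simp only [fr, Fr.S]; field_simp; ring
  have k4 := k3 e' (fr.St n)
  have sq := sm_iq hU hv hW' n
  have m1 : EqOn (iq (fr.pull v) (fr.St n)) (iq v n ∘ fr.fm) (fr.fm ⁻¹' U) := fun q hq => by
    have := (c4 q hq).2.2.2.2.2.1 n n
    rw [hρ, one_pow, one_mul] at this
    exact this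
  have m2 : EqOn (D (sv e') (iq (fr.pull v) (fr.St n))) (D (sv e) (iq v n) ∘ fr.fm)
      (fr.fm ⁻¹' U) := fun q hq => by
    rw [D_congr hU' _ m1 hq, ((c1 _ sq).2 q hq).2 e', he]
    rfl
  have m3 : D (sv e') (D (sv e') (iq (fr.pull v) (fr.St n))) 0 =
      D (sv e) (D (sv e) (iq v n)) p := by
    rw [D_congr hU' _ m2 h0, ((c1 _ (smO_D hU _ sq)).2 0 h0).2 e', he, hq0]
  have m4 : iq (fr.pull v) (fr.St n) 0 = iq v n p := d2 n n
  have m5 : hq (fr.pull v) e' 0 = hq v e p := by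
    have := d1 e' e'
    rw [he] at this
    exact this
  rwa [m3, m4, m5] at k4

end Curv

theorem curv_ok (h1 : StApi) (_h2 : StAlg) (h3 : StFC) : StCurv := by
  intro d u hu
  have A := h1 d u hu
  have key := fun p (hp : p ∈ d.U) => Curv.gen h3 d.isOpen_U A.sm A.pW hp (hu.p11 p hp)
  have hb : Bd d (rm u) := by
    have x := A.bi11
    have y := A.bi12
    have z := A.bi22
    unfold rm T2.rr iv2 h11 h12 h22
    repeat' with_reducible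
      first | assumption | apply Bd.add | apply Bd.mul | apply Bd.D | apply bd_K
  refine ⟨⟨hu, ((bd_K 2).lc.mul hb.lc.sqrt).congr fun p _ => rfl, fun p hp => (key p hp).2.2,
    fun p hp => ?_⟩, hb, fun p hp => (key p hp).1⟩
  rw [hu.eqn p hp]
  exact (key p hp).2.1

end Pool.Agent.P.MP_2cea5e_gt.I
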