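import Pool.Agent.P.MP_2cea5e_gt.I.St3

/-!
Chapter I: smooth cutoffs.
-/

open scoped ContDiff Topology
open MeasureTheory Set Filter

noncomputable section

set_option linter.dupNamespace false

namespace Pool.Agent.P.MP_2cea5e_gt.I

namespace Cut

theorem bump {a A : ℝ} (ha : 0 < a) (h : a < A) : ∃ χ : ℝ → ℝ, ContDiff ℝ ∞ χ ∧
    (∀ x, 0 ≤ χ x ∧ χ x ≤ 1) ∧
    (∀ x, |x| ≤ a → χ x = 1 ∧ deriv χ x = 0 ∧ deriv (deriv χ) x = 0) ∧
    (∀ x, χ x ≠ 0 → |x| < A) ∧ ∃ C, ∀ x, |deriv χ x| ≤ C ∧ |deriv (deriv χ) x| ≤ C := by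
  let f : ContDiffBump (0 : ℝ) := ⟨(a + A) / 2, A, by linarith, by linarith⟩
  have hf : ContDiff ℝ ∞ f := f.contDiff
  have hf1 : ContDiff ℝ ∞ (deriv f) := (contDiff_infty_iff_deriv.1 hf).2
  have hf2 : ContDiff ℝ ∞ (deriv (deriv f)) := (contDiff_infty_iff_deriv.1 hf1).2
  refine ⟨f, hf, fun x => ⟨f.nonneg, f.le_one⟩, fun x hx => ?_, fun x hx => ?_, ?_⟩
  · have hb : x ∈ Metric.ball (0 : ℝ) f.rIn := by
      rw [mem_ball_zero_iff, Real.norm_eq_abs]
      show |x| < (a + A) / 2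
      linarith
    have h1 : (f : ℝ → ℝ) =ᶠ[𝓝 x] fun _ => 1 := f.eventuallyEq_one_of_mem_ball hb
    have h2 : deriv f =ᶠ[𝓝 x] fun _ => 0 := by
      have := h1.deriv
      simpa only [deriv_const'] using this
    refine ⟨h1.eq_of_nhds, h2.eq_of_nhds, ?_⟩
    rw [h2.deriv_eq, deriv_const]
  · have : x ∈ Function.support f := hx
    rw [f.support_eq, mem_ball_zero_iff, Real.norm_eq_abs] at this
    exact this
  · obtain ⟨C₁, h1⟩ := hf1.continuous.bounded_above_of_compact_support f.hasCompactSupport.deriv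
    obtain ⟨C₂, h2⟩ :=
      hf2.continuous.bounded_above_of_compact_support f.hasCompactSupport.deriv.deriv
    exact ⟨max C₁ C₂, fun x => ⟨(h1 x).trans (le_max_left _ _), (h2 x).trans (le_max_right _ _)⟩⟩

end Cut

theorem cut_ok : StCut := by
  intro b r R hr hR
  cases b with
  | true =>
    obtain ⟨χ, h1, h2, h3, h4, h5⟩ := Cut.bump (a := r ^ 2) (A := R ^ 2) (by positivity)
      (by nlinarith)
    refine ⟨χ, h1, h2, fun x hx => ?_, fun x hx hne => ?_, h5⟩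
    · have hx' : 0 ≤ x ∧ x ≤ r ^ 2 := by simpa [ivc] using hx
      exact h3 x (by rw [abs_of_nonneg hx'.1]; exact hx'.2)
    · have hx' : 0 ≤ x := by simpa [okc] using hx
      have := h4 x hne
      rw [abs_of_nonneg hx'] at this
      refine ⟨by simpa [ivc] using ⟨hx', this.le⟩, fun h => ?_⟩
      have h' : 0 < x := by simpa [ok] using h
      simpa [iv] using ⟨h', this⟩
  | false =>
    obtain ⟨χ, h1, h2, h3, h4, h5⟩ := Cut.bump hr hR
    refine ⟨χ, h1, h2, fun x hx => ?_, fun x _ hne => ?_, h5⟩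
    · have hx' : -r ≤ x ∧ x ≤ r := by simpa [ivc] using hx
      exact h3 x (abs_le.2 hx')
    · have := abs_lt.1 (h4 x hne)
      exact ⟨by simpa [ivc] using ⟨this.1.le, this.2.le⟩, fun _ => by simpa [iv] using this⟩

end Pool.Agent.P.MP_2cea5e_gt.I
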