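import Pool.Agent.P.MP_2cea5e_gt.I.St2

/-!
Chapter I: pointwise transformation rules under a frame.
-/

open scoped ContDiff Topology
open MeasureTheory Set Filter

noncomputable section

set_option linter.dupNamespace false

namespace Pool.Agent.P.MP_2cea5e_gt.I

namespace FC

variable (fr : Fr) {U : Set X} {g : X → ℝ} {p q : X}

theorem sm_fm : ContDiff ℝ ∞ fr.fm := by
  unfold Fr.fm Fr.tm Fr.sp Fr.S
  fun_prop

theorem open_pre (hU : IsOpen U) : IsOpen (fr.fm ⁻¹' U) := hU.preimage (sm_fm fr).continuous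

theorem smO_comp (hg : ContDiffOn ℝ ∞ g U) : ContDiffOn ℝ ∞ (g ∘ fr.fm) (fr.fm ⁻¹' U) :=
  hg.comp (sm_fm fr).contDiffOn fun _ h => h

theorem fm_line (q v : X) (s : ℝ) :
    fr.fm (q + s • v) = fr.fm q + s • ((fr.ρ ^ 4 * v.1, fr.S v.2) : X) := by
  ext <;> simp [Fr.fm, Fr.tm, Fr.sp, Fr.S] <;> ring

theorem D_fm (hg : DifferentiableAt ℝ g (fr.fm q)) (v : X) :
    D v (g ∘ fr.fm) q = D (fr.ρ ^ 4 * v.1, fr.S v.2) g (fr.fm q) := by
  have h0 : DifferentiableAt ℝ (g ∘ fr.fm) q :=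
    hg.comp q (((sm_fm fr).differentiable (by simp)) q)
  have h1 := hasDerivAt_ln (f := g ∘ fr.fm) v q (x := 0) (by simpa using h0)
  have h2 := hasDerivAt_ln (f := g) (fr.ρ ^ 4 * v.1, fr.S v.2) (fr.fm q) (x := 0)
    (by simpa using hg)
  simp only [Function.comp_apply, fm_line] at h1
  simpa using h1.unique h2

theorem D_sv (hU : IsOpen U) (hg : ContDiffOn ℝ ∞ g U) (hq : fr.fm q ∈ U) (e : ℝ × ℝ) :
    D (sv e) (g ∘ fr.fm) q = D (sv (fr.S e)) g (fr.fm q) := by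
  rw [D_fm fr (diffAt hU hg hq)]
  simp [sv]

theorem D_t (hU : IsOpen U) (hg : ContDiffOn ℝ ∞ g U) (hq : fr.fm q ∈ U) :
    D e0 (g ∘ fr.fm) q = fr.ρ ^ 4 * D e0 g (fr.fm q) := by
  rw [D_fm fr (diffAt hU hg hq)]
  have : ((fr.ρ ^ 4 * e0.1, fr.S e0.2) : X) = fr.ρ ^ 4 • e0 := by
    ext <;> simp [e0, Fr.S]
  rw [this]
  simp [D]

theorem sv_eq (e : ℝ × ℝ) : sv e = e.1 • e1 + e.2 • e2 := by
  ext <;> simp [sv, e1, e2]

theorem D_cmul (hU : IsOpen U) (hg : ContDiffOn ℝ ∞ g U) (c : ℝ) (v : X) :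
    EqOn (D v fun p => c * g p) (fun p => c * D v g p) U := fun p hp => by
  have := ((diffAt hU hg hp).hasFDerivAt.const_mul c).fderiv
  simp only [D, this]
  simp

theorem D_add3 (hU : IsOpen U) {a b c : X → ℝ} (ha : ContDiffOn ℝ ∞ a U) (hb : ContDiffOn ℝ ∞ b U)
    (hc : ContDiffOn ℝ ∞ c U) (x y z : ℝ) (v : X) :
    EqOn (D v fun p => x * a p + y * b p + z * c p)
      (fun p => x * D v a p + y * D v b p + z * D v c p) U := fun p hp => by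
  have := ((((diffAt hU ha hp).hasFDerivAt.const_mul x).fun_add
    ((diffAt hU hb hp).hasFDerivAt.const_mul y)).fun_add
    ((diffAt hU hc hp).hasFDerivAt.const_mul z)).fderiv
  simp only [D, this]
  simp

theorem DD_sv (hU : IsOpen U) (hg : ContDiffOn ℝ ∞ g U) (hp : p ∈ U) (e e' : ℝ × ℝ) :
    D (sv e) (D (sv e') g) p = hb g e e' p := by
  have h1 : D (sv e') g = fun p => e'.1 * D e1 g p + e'.2 * D e2 g p + 0 * g p := by
    funext p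
    rw [sv_eq, D_lin]
    ring
  rw [h1, D_add3 hU (smO_D hU _ hg) (smO_D hU _ hg) hg _ _ _ _ hp]
  simp only [sv_eq e, D_lin, D_comm_on hU hg e2 e1 hp, hb, hs, T2.ap, h11, h12, h22]
  ring

theorem sv1 : sv (1, 0) = e1 := rfl
theorem sv2 : sv (0, 1) = e2 := rfl

theorem DD_fm (hU : IsOpen U) (hg : ContDiffOn ℝ ∞ g U) (hq : fr.fm q ∈ U) (e e' : ℝ × ℝ) :
    D (sv e) (D (sv e') (g ∘ fr.fm)) q = hb g (fr.S e) (fr.S e') (fr.fm q) := by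
  have h1 : EqOn (D (sv e') (g ∘ fr.fm)) (D (sv (fr.S e')) g ∘ fr.fm) (fr.fm ⁻¹' U) :=
    fun q hq => D_sv fr hU hg hq e'
  rw [D_congr (open_pre fr hU) _ h1 hq, D_sv fr hU (smO_D hU _ hg) hq, DD_sv hU hg hq]

theorem h11_fm (hU : IsOpen U) (hg : ContDiffOn ℝ ∞ g U) (hq : fr.fm q ∈ U) :
    h11 (g ∘ fr.fm) q = hb g (fr.a, fr.c) (fr.a, fr.c) (fr.fm q) := by
  simpa [Fr.S, sv1, h11] using DD_fm fr hU hg hq (1, 0) (1, 0)

theorem h12_fm (hU : IsOpen U) (hg : ContDiffOn ℝ ∞ g U) (hq : fr.fm q ∈ U) :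
    h12 (g ∘ fr.fm) q = hb g (fr.a, fr.c) (fr.b, fr.e) (fr.fm q) := by
  simpa [Fr.S, sv1, sv2, h12] using DD_fm fr hU hg hq (1, 0) (0, 1)

theorem h22_fm (hU : IsOpen U) (hg : ContDiffOn ℝ ∞ g U) (hq : fr.fm q ∈ U) :
    h22 (g ∘ fr.fm) q = hb g (fr.b, fr.e) (fr.b, fr.e) (fr.fm q) := by
  simpa [Fr.S, sv2, h22] using DD_fm fr hU hg hq (0, 1) (0, 1)

/-- A component of a field, with a constant factor. -/
def cmp (H : T2) (c : ℝ) (n n' : ℝ × ℝ) : X → ℝ := fun p =>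
  c * (n.1 * n'.1) * H.a p + c * (n.1 * n'.2 + n.2 * n'.1) * H.b p + c * (n.2 * n'.2) * H.c p

theorem sm_cmp {H : T2} (hH : H.SmOn U) (c : ℝ) (n n' : ℝ × ℝ) :
    ContDiffOn ℝ ∞ (cmp H c n n') U :=
  ((contDiffOn_const.mul hH.1).add (contDiffOn_const.mul hH.2.1)).add (contDiffOn_const.mul hH.2.2)

theorem cmp_eq (H : T2) (c : ℝ) (n n' : ℝ × ℝ) :
    (fun q => c * H.ap n n' (fr.fm q)) = cmp H c n n' ∘ fr.fm := by
  funext q
  simp only [cmp, T2.ap, Function.comp_apply]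
  ring

theorem DD_cmp (hU : IsOpen U) {H : T2} (hH : H.SmOn U) (c : ℝ) (n n' : ℝ × ℝ) (v w : X)
    (hp : p ∈ U) : D v (D w (cmp H c n n')) p =
      c * (n.1 * n'.1) * D v (D w H.a) p + c * (n.1 * n'.2 + n.2 * n'.1) * D v (D w H.b) p +
        c * (n.2 * n'.2) * D v (D w H.c) p := by
  unfold cmp
  rw [D_congr hU v (D_add3 hU hH.1 hH.2.1 hH.2.2 _ _ _ w) hp,
    D_add3 hU (smO_D hU _ hH.1) (smO_D hU _ hH.2.1) (smO_D hU _ hH.2.2) _ _ _ v hp]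

theorem hb_cmp (hU : IsOpen U) {H : T2} (hH : H.SmOn U) (c : ℝ) (n n' e e' : ℝ × ℝ)
    (hp : p ∈ U) : hb (cmp H c n n') e e' p =
      c * (n.1 * n'.1 * hb H.a e e' p + (n.1 * n'.2 + n.2 * n'.1) * hb H.b e e' p +
        n.2 * n'.2 * hb H.c e e' p) := by
  simp only [hb, hs, T2.ap, h11, h12, h22, DD_cmp hU hH c n n' _ _ hp]
  ring

theorem pa (H : T2) : (fr.pullT H).a =
    cmp H (fr.ρ ^ 2 / fr.det ^ 2) (fr.e, -fr.b) (fr.e, -fr.b) ∘ fr.fm := cmp_eq fr H _ _ _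

theorem pb (H : T2) : (fr.pullT H).b =
    cmp H (fr.ρ ^ 2 / fr.det ^ 2) (fr.e, -fr.b) (-fr.c, fr.a) ∘ fr.fm := cmp_eq fr H _ _ _

theorem pc (H : T2) : (fr.pullT H).c =
    cmp H (fr.ρ ^ 2 / fr.det ^ 2) (-fr.c, fr.a) (-fr.c, fr.a) ∘ fr.fm := cmp_eq fr H _ _ _

theorem sm_pullT {H : T2} (hH : H.SmOn U) : (fr.pullT H).SmOn (fr.fm ⁻¹' U) := by
  refine ⟨?_, ?_, ?_⟩
  · rw [pa]; exact smO_comp fr (sm_cmp hH _ _ _)
  · rw [pb]; exact smO_comp fr (sm_cmp hH _ _ _)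
  · rw [pc]; exact smO_comp fr (sm_cmp hH _ _ _)

theorem det_ne : fr.det ≠ 0 := fr.det_ne

theorem ap_pullT (H : T2) (n n' : ℝ × ℝ) (q : X) :
    (fr.pullT H).ap (fr.St n) (fr.St n') q = fr.ρ ^ 2 * H.ap n n' (fr.fm q) := by
  have h := det_ne fr
  simp only [T2.ap, Fr.pullT, Fr.St]
  field_simp
  simp only [Fr.det]
  ring

theorem dd_pullT (hU : IsOpen U) {H : T2} (hH : H.SmOn U) (hq : fr.fm q ∈ U) :
    (fr.pullT H).dd q = fr.ρ ^ 2 * H.dd (fr.fm q) := by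
  have h := det_ne fr
  simp only [T2.dd, Pi.add_apply, Pi.mul_apply, K_apply, pa, pb, pc,
    h11_fm fr hU (sm_cmp hH _ _ _) hq, h12_fm fr hU (sm_cmp hH _ _ _) hq,
    h22_fm fr hU (sm_cmp hH _ _ _) hq, hb_cmp hU hH _ _ _ _ _ hq]
  simp only [hb, hs, T2.ap]
  field_simp
  simp only [Fr.det]
  ring

theorem rr_pullT (hU : IsOpen U) {H G : T2} (hH : H.SmOn U) (hG : G.SmOn U) (hq : fr.fm q ∈ U) :
    (fr.pullT H).rr (fr.pullT G) q = fr.ρ ^ 4 * H.rr G (fr.fm q) := by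
  have h := det_ne fr
  have e : fr.ρ ^ 4 = (fr.ρ ^ 2 / fr.det ^ 2) ^ 2 * (fr.a * fr.e - fr.b * fr.c) ^ 4 := by
    change _ = _ * fr.det ^ 4
    field_simp
  simp only [T2.rr, Pi.add_apply, Pi.mul_apply, K_apply, pa, pb, pc,
    h11_fm fr hU (sm_cmp hH _ _ _) hq, h12_fm fr hU (sm_cmp hH _ _ _) hq,
    h22_fm fr hU (sm_cmp hH _ _ _) hq, hb_cmp hU hH _ _ _ _ _ hq,
    h11_fm fr hU (sm_cmp hG _ _ _) hq, h12_fm fr hU (sm_cmp hG _ _ _) hq,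
    h22_fm fr hU (sm_cmp hG _ _ _) hq, hb_cmp hU hG _ _ _ _ _ hq]
  simp only [hb, hs, T2.ap]
  rw [e]
  generalize fr.ρ ^ 2 / fr.det ^ 2 = k
  ring

theorem ctr_pullT (hU : IsOpen U) (H : T2) (hg : ContDiffOn ℝ ∞ g U) (hq : fr.fm q ∈ U) :
    (fr.pullT H).ctr (g ∘ fr.fm) q = fr.ρ ^ 2 * H.ctr g (fr.fm q) := by
  have h := det_ne fr
  simp only [T2.ctr, Pi.add_apply, Pi.mul_apply, K_apply, h11_fm fr hU hg hq, h12_fm fr hU hg hq,
    h22_fm fr hU hg hq]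
  simp only [hb, hs, T2.ap, Fr.pullT]
  field_simp
  simp only [Fr.det]
  ring

theorem sm_af (a b c : ℝ) : ContDiff ℝ ∞ (af a b c) := by
  unfold af
  fun_prop

theorem D_af (a b c : ℝ) (v : X) : D v (af a b c) = fun _ => b * v.2.1 + c * v.2.2 := by
  funext q
  have h1 := hasDerivAt_ln (f := af a b c) v q (x := 0)
    (((sm_af a b c).differentiable (by simp)) _)
  have h2 : HasDerivAt (fun s : ℝ => af a b c q + s * (b * v.2.1 + c * v.2.2))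
      (b * v.2.1 + c * v.2.2) 0 := by
    simpa using ((hasDerivAt_id (0 : ℝ)).mul_const (b * v.2.1 + c * v.2.2)).const_add (af a b c q)
  have e : (fun s : ℝ => af a b c (q + s • v)) =
      fun s : ℝ => af a b c q + s * (b * v.2.1 + c * v.2.2) := by
    funext s
    simp [af]
    ring
  rw [e] at h1
  simpa using h1.unique h2

variable {u : X → ℝ}

theorem pull_eq (u : X → ℝ) : fr.pull u = fun q => (fr.ρ ^ 2)⁻¹ * (u ∘ fr.fm) q +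
    -(fr.ρ ^ 2)⁻¹ * af fr.l0 fr.l1 fr.l2 q + 0 * (u ∘ fr.fm) q := by
  funext q
  simp only [Fr.pull, Function.comp_apply]
  ring

theorem sm_pull (hu : ContDiffOn ℝ ∞ u U) : ContDiffOn ℝ ∞ (fr.pull u) (fr.fm ⁻¹' U) :=
  ((smO_comp fr hu).sub (sm_af _ _ _).contDiffOn).div_const _

theorem D_pull (hU : IsOpen U) (hu : ContDiffOn ℝ ∞ u U) (v : X) (hq : fr.fm q ∈ U) :
    D v (fr.pull u) q =
      (D v (u ∘ fr.fm) q - (fr.l1 * v.2.1 + fr.l2 * v.2.2)) / fr.ρ ^ 2 := by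
  rw [pull_eq, D_add3 (open_pre fr hU) (smO_comp fr hu) (sm_af _ _ _).contDiffOn (smO_comp fr hu)
    _ _ _ v hq, D_af]
  ring

theorem DD_pull (hU : IsOpen U) (hu : ContDiffOn ℝ ∞ u U) (v w : X) (hq : fr.fm q ∈ U) :
    D v (D w (fr.pull u)) q = D v (D w (u ∘ fr.fm)) q / fr.ρ ^ 2 := by
  have hV := open_pre fr hU
  have s := smO_D hV w (smO_comp fr hu)
  have h1 : EqOn (D w (fr.pull u)) (fun q => (fr.ρ ^ 2)⁻¹ * D w (u ∘ fr.fm) q +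
      -(fr.ρ ^ 2)⁻¹ * K (fr.l1 * w.2.1 + fr.l2 * w.2.2) q + 0 * D w (u ∘ fr.fm) q)
      (fr.fm ⁻¹' U) := fun q hq => by
    rw [D_pull fr hU hu w hq]
    simp only [K_apply]
    ring
  rw [D_congr hV v h1 hq, D_add3 hV s (sm_K _).contDiffOn s _ _ _ v hq, D_K]
  simp only [Pi.zero_apply]
  ring

theorem h11_pull (hU : IsOpen U) (hu : ContDiffOn ℝ ∞ u U) (hq : fr.fm q ∈ U) :
    h11 (fr.pull u) q = hb u (fr.a, fr.c) (fr.a, fr.c) (fr.fm q) / fr.ρ ^ 2 := by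
  rw [← h11_fm fr hU hu hq]; exact DD_pull fr hU hu _ _ hq

theorem h12_pull (hU : IsOpen U) (hu : ContDiffOn ℝ ∞ u U) (hq : fr.fm q ∈ U) :
    h12 (fr.pull u) q = hb u (fr.a, fr.c) (fr.b, fr.e) (fr.fm q) / fr.ρ ^ 2 := by
  rw [← h12_fm fr hU hu hq]; exact DD_pull fr hU hu _ _ hq

theorem h22_pull (hU : IsOpen U) (hu : ContDiffOn ℝ ∞ u U) (hq : fr.fm q ∈ U) :
    h22 (fr.pull u) q = hb u (fr.b, fr.e) (fr.b, fr.e) (fr.fm q) / fr.ρ ^ 2 := by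
  rw [← h22_fm fr hU hu hq]; exact DD_pull fr hU hu _ _ hq

theorem W_eq (u : X → ℝ) (p : X) : W u p = h11 u p * h22 u p - h12 u p * h12 u p := rfl

theorem W_pull (hU : IsOpen U) (hu : ContDiffOn ℝ ∞ u U) (hq : fr.fm q ∈ U) :
    W (fr.pull u) q = fr.det ^ 2 / fr.ρ ^ 4 * W u (fr.fm q) := by
  have h := fr.ρ_pos.ne'
  rw [W_eq, W_eq, h11_pull fr hU hu hq, h12_pull fr hU hu hq, h22_pull fr hU hu hq]
  simp only [hb, hs, T2.ap, Fr.det]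
  field_simp
  ring

theorem i_pull (hU : IsOpen U) (hu : ContDiffOn ℝ ∞ u U) (hW : ∀ p ∈ U, W u p ≠ 0)
    (hq : fr.fm q ∈ U) :
    i11 (fr.pull u) q = (fr.pullT (iv2 u)).a q ∧ i12 (fr.pull u) q = (fr.pullT (iv2 u)).b q ∧
      i22 (fr.pull u) q = (fr.pullT (iv2 u)).c q := by
  have h := fr.ρ_pos.ne'
  have h1 := det_ne fr
  have h2 := hW _ hq
  simp only [i11, i12, i22, Pi.mul_apply, Pi.neg_apply, Iv_apply, W_pull fr hU hu hq,
    h11_pull fr hU hu hq, h12_pull fr hU hu hq, h22_pull fr hU hu hq, Fr.pullT, iv2, T2.ap, hb, hs]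
  refine ⟨?_, ?_, ?_⟩ <;> field_simp <;> ring

theorem sm_iv2 (hU : IsOpen U) (hu : ContDiffOn ℝ ∞ u U) (hW : ∀ p ∈ U, W u p ≠ 0) :
    (iv2 u).SmOn U := by
  have s : ∀ v w, ContDiffOn ℝ ∞ (D v (D w u)) U := fun v w => smO_D hU v (smO_D hU w hu)
  have sW : ContDiffOn ℝ ∞ (Iv (W u)) U :=
    ContDiffOn.inv (((s e1 e1).mul (s e2 e2)).sub ((s e1 e2).mul (s e1 e2))) hW
  exact ⟨(s e2 e2).mul sW, ((s e1 e2).mul sW).neg, (s e1 e1).mul sW⟩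

theorem DD_congr (hU : IsOpen U) {f : X → ℝ} (h : EqOn f g U) (v w : X) (hp : p ∈ U) :
    D v (D w f) p = D v (D w g) p := D_congr hU v (D_congr hU w h) hp

end FC

open FC in
theorem fc_ok : StFC := by
  intro fr U hU
  refine ⟨fun g hg => ⟨smO_comp fr hg, fun q hq => ⟨D_t fr hU hg hq, D_sv fr hU hg hq⟩⟩,
    fun H G hH hG => ⟨sm_pullT fr hH, fun q hq => ⟨fun n n' => ap_pullT fr H n n' q,
      dd_pullT fr hU hH hq, rr_pullT fr hU hH hG hq, fun g hg => ctr_pullT fr hU H hg hq⟩⟩,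
    fun u hu hW => ⟨sm_pull fr hu, fun q hq => ?_⟩⟩
  have hV := open_pre fr hU
  have h0 := fr.ρ_pos.ne'
  have ea : EqOn (i11 (fr.pull u)) (fr.pullT (iv2 u)).a (fr.fm ⁻¹' U) :=
    fun q hq => (i_pull fr hU hu hW hq).1
  have eb : EqOn (i12 (fr.pull u)) (fr.pullT (iv2 u)).b (fr.fm ⁻¹' U) :=
    fun q hq => (i_pull fr hU hu hW hq).2.1
  have ec : EqOn (i22 (fr.pull u)) (fr.pullT (iv2 u)).c (fr.fm ⁻¹' U) :=
    fun q hq => (i_pull fr hU hu hW hq).2.2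
  have s := sm_iv2 hU hu hW
  refine ⟨?_, fun e => ?_, fun e e' => ?_, W_pull fr hU hu hq, i_pull fr hU hu hW hq,
    fun n n' => ?_, ?_, ?_⟩
  · rw [D_pull fr hU hu _ hq, D_t fr hU hu hq]
    simp only [e0]
    field_simp
    ring
  · rw [D_pull fr hU hu _ hq, D_sv fr hU hu hq]
    rfl
  · rw [← DD_sv hV (sm_pull fr hu) hq, DD_pull fr hU hu _ _ hq, DD_fm fr hU hu hq]
  · rw [ib, ib, ← ap_pullT]
    simp only [T2.ap, iv2, ea hq, eb hq, ec hq]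
  · rw [ab, ab, ← dd_pullT fr hU s hq]
    simp only [T2.dd, Pi.add_apply, Pi.mul_apply, iv2, h11, h12, h22, DD_congr hV ea _ _ hq,
      DD_congr hV eb _ _ hq, DD_congr hV ec _ _ hq]
  · rw [rm, rm, ← rr_pullT fr hU s s hq]
    simp only [T2.rr, Pi.add_apply, Pi.mul_apply, iv2, h11, h12, h22, DD_congr hV ea _ _ hq,
      DD_congr hV eb _ _ hq, DD_congr hV ec _ _ hq]

end Pool.Agent.P.MP_2cea5e_gt.I
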