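import Pool.Agent.P.MP_2cea5e_gt.I.St2

/-!
Chapter I: change of variables, and the Chebyshev bound for families of lines.
-/

open scoped ContDiff Topology
open MeasureTheory Set Filter

noncomputable section

set_option linter.dupNamespace false

namespace Pool.Agent.P.MP_2cea5e_gt.I

namespace FI

/-- The linear part of a frame. -/
def lin (fr : Fr) : ℝ × ℝ →L[ℝ] ℝ × ℝ :=
  (Matrix.toLin (.finTwoProd ℝ) (.finTwoProd ℝ) !![fr.a, fr.b; fr.c, fr.e]).toContinuousLinearMap

theorem lin_apply (fr : Fr) (y : ℝ × ℝ) : lin fr y = fr.S y :=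
  Matrix.toLin_finTwoProd_apply _ _ _ _ y

theorem det_lin (fr : Fr) : (lin fr).det = fr.det := by
  simp only [lin, LinearMap.det_toContinuousLinearMap, LinearMap.det_toLin, Matrix.det_fin_two_of,
    Fr.det]

theorem hasF (fr : Fr) (y : ℝ × ℝ) : HasFDerivAt fr.sp (lin fr) y := by
  have e : fr.sp = fun y => fr.p + lin fr y := funext fun y => by rw [lin_apply]; rfl
  rw [e]
  exact (lin fr).hasFDerivAt.const_add _

theorem inj (fr : Fr) : Function.Injective fr.sp := by
  intro y y' h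
  have h0 := add_left_cancel h
  have h1 : fr.a * y.1 + fr.b * y.2 = fr.a * y'.1 + fr.b * y'.2 := congrArg Prod.fst h0
  have h2 : fr.c * y.1 + fr.e * y.2 = fr.c * y'.1 + fr.e * y'.2 := congrArg Prod.snd h0
  refine Prod.ext (mul_left_cancel₀ fr.det_ne ?_) (mul_left_cancel₀ fr.det_ne ?_)
  · linear_combination fr.e * h1 - fr.b * h2
  · linear_combination fr.a * h2 - fr.c * h1

theorem abs_pos' (fr : Fr) : 0 < |fr.det| := abs_pos.2 fr.det_ne

/-- A small square integral makes a line cheap. -/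
theorem cheap_of_sq {F : ℝ → ℝ} {a b ε L : ℝ} (hε : 0 < ε) (hL : 0 < L) (hab : b - a ≤ L)
    (hc : ContinuousOn F (Ioo a b)) (h0 : ∀ x ∈ Ioo a b, 0 ≤ F x)
    (h : ∫⁻ x in Ioo a b, ENNReal.ofReal (F x ^ 2) ≤ ENNReal.ofReal (ε ^ 2 / L)) :
    Cheap F a b ε := by
  have m1 : AEStronglyMeasurable F (volume.restrict (Ioo a b)) :=
    hc.aestronglyMeasurable measurableSet_Ioo
  have nn : 0 ≤ᵐ[volume.restrict (Ioo a b)] fun x => F x ^ 2 :=
    Eventually.of_forall fun x => sq_nonneg _
  have i2 : IntegrableOn (fun x => F x ^ 2) (Ioo a b) :=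
    ⟨m1.pow 2, (hasFiniteIntegral_iff_ofReal nn).2 (h.trans_lt ENNReal.ofReal_lt_top)⟩
  have b2 : ∫ x in Ioo a b, F x ^ 2 ≤ ε ^ 2 / L := by
    rw [← ofReal_integral_eq_lintegral_ofReal i2 nn] at h
    exact (ENNReal.ofReal_le_ofReal_iff (by positivity)).1 h
  have ic : IntegrableOn (fun _ : ℝ => ε / (2 * L)) (Ioo a b) :=
    integrableOn_const (by simp)
  have iK : IntegrableOn (fun x => L / (2 * ε) * F x ^ 2 + ε / (2 * L)) (Ioo a b) :=
    (i2.const_mul _).add ic
  have le : ∀ x, F x ≤ L / (2 * ε) * F x ^ 2 + ε / (2 * L) := fun x => by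
    have e : L / (2 * ε) * F x ^ 2 + ε / (2 * L) - F x = (L * F x - ε) ^ 2 / (2 * ε * L) := by
      field_simp; ring
    have : 0 ≤ (L * F x - ε) ^ 2 / (2 * ε * L) := by positivity
    linarith
  have i1 : IntegrableOn F (Ioo a b) := by
    refine Integrable.mono' iK m1 ((ae_restrict_iff' measurableSet_Ioo).2
      (Eventually.of_forall fun x hx => ?_))
    rw [Real.norm_of_nonneg (h0 x hx)]
    exact le x
  refine ⟨h0, i1, (integral_mono i1 iK le).trans ?_⟩
  rw [integral_add (i2.const_mul _) ic, integral_const_mul, setIntegral_const, smul_eq_mul,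
    Real.volume_real_Ioo]
  have c1 : L / (2 * ε) * ∫ x in Ioo a b, F x ^ 2 ≤ L / (2 * ε) * (ε ^ 2 / L) :=
    mul_le_mul_of_nonneg_left b2 (by positivity)
  have c2 : max (b - a) 0 * (ε / (2 * L)) ≤ L * (ε / (2 * L)) :=
    mul_le_mul_of_nonneg_right (max_le hab hL.le) (by positivity)
  have c3 : L / (2 * ε) * (ε ^ 2 / L) + L * (ε / (2 * L)) = ε := by
    field_simp; ring
  linarith

end FI

open FI

theorem fi_ok : StFI := by
  intro fr A hA
  have hd : ∀ x ∈ A, HasFDerivWithinAt fr.sp (lin fr) A x := fun x _ => (hasF fr x).hasFDerivWithinAt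
  have hi : InjOn fr.sp A := (inj fr).injOn
  have hp := abs_pos' fr
  refine ⟨measurable_image_of_fderivWithin hA hd hi, fun f => ⟨?_, ?_⟩, fun f => ?_,
    fun g a b => ?_⟩
  · rw [integrableOn_image_iff_integrableOn_abs_det_fderiv_smul volume hA hd hi, det_lin]
    exact (integrable_smul_iff hp.ne' (fun y => f (fr.sp y))).symm
  · rw [integral_image_eq_integral_abs_det_fderiv_smul volume hA hd hi, det_lin, integral_smul,
      smul_eq_mul, inv_mul_cancel_left₀ hp.ne']
  · rw [lintegral_image_eq_lintegral_abs_det_fderiv_mul volume hA hd hi, det_lin,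
      lintegral_const_mul' _ _ ENNReal.ofReal_ne_top, ← mul_assoc,
      ← ENNReal.ofReal_mul (inv_nonneg.2 hp.le), inv_mul_cancel₀ hp.ne', ENNReal.ofReal_one,
      one_mul]
  · exact intervalIntegral.integral_comp_add_mul g (pow_pos fr.ρ_pos 4).ne' fr.t1

theorem cheb_ok : StCheb := by
  intro f A E ε L y e r a a' B hA hf h0 hi hE hdet _ _ _ hε hL hB
  rcases hL.eq_or_lt with rfl | hL
  · have : {b ∈ B | ¬Cheap (fun x => f (y + b • r + x • e)) (a b) (a' b) ε} = ∅ := by
      refine eq_empty_of_forall_notMem fun b hb => hb.2 ?_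
      have he : Ioo (a b) (a' b) = ∅ := Ioo_eq_empty (by linarith [(hB b hb.1).1])
      exact ⟨by simp [he], by simp [he], by simp [he, hε.le]⟩
    rw [this, measure_empty]
    exact zero_le
  let fr : Fr := ⟨0, 1, y, r.1, e.1, r.2, e.2, 0, 0, 0, one_pos, fun h => hdet (by linarith)⟩
  have hsp : ∀ b x : ℝ, fr.sp (b, x) = y + b • r + x • e := fun b x => by
    refine Prod.ext ?_ ?_ <;> simp [fr, Fr.sp, Fr.S] <;> ring
  have hdet' : |fr.det| = |e.1 * r.2 - e.2 * r.1| := by
    rw [← abs_neg]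
    congr 1
    simp only [fr, Fr.det]
    ring
  have hA' : MeasurableSet (fr.sp ⁻¹' A) := fr.cont_sp.measurable hA
  let g : ℝ × ℝ → ENNReal := (fr.sp ⁻¹' A).indicator fun z => ENNReal.ofReal (f (fr.sp z) ^ 2)
  have hg : AEMeasurable g (volume.prod volume) := by
    refine (aemeasurable_indicator_iff hA').2 ?_
    refine ContinuousOn.aemeasurable ?_ hA'
    exact ENNReal.continuous_ofReal.comp_continuousOn
      ((hf.comp fr.cont_sp.continuousOn (mapsTo_preimage _ _)).pow 2)
  have hsub : {b ∈ B | ¬Cheap (fun x => f (y + b • r + x • e)) (a b) (a' b) ε} ⊆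
      {b | ENNReal.ofReal (ε ^ 2 / L) ≤ ∫⁻ x, g (b, x)} := by
    intro b hb
    by_contra hlt
    obtain ⟨h1, h2⟩ := hB b hb.1
    refine hb.2 (cheap_of_sq hε hL h1 (hf.comp (by fun_prop) h2) (fun x hx => h0 _ (h2 x hx))
      (le_trans ?_ (not_le.1 hlt).le))
    refine le_trans (le_of_eq ?_) (setLIntegral_le_lintegral (Ioo (a b) (a' b)) _)
    refine setLIntegral_congr_fun measurableSet_Ioo fun x hx => ?_
    have : (b, x) ∈ fr.sp ⁻¹' A := by rw [mem_preimage, hsp]; exact h2 x hx
    simp only [g, indicator_of_mem this, hsp]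
  have hpos : 0 < ε ^ 2 / L := by positivity
  refine (measure_mono hsub).trans ((meas_ge_le_lintegral_div hg.lintegral_prod_right'
    (ENNReal.ofReal_pos.2 hpos).ne' ENNReal.ofReal_ne_top).trans ?_)
  have hT : ∫⁻ b, ∫⁻ x, g (b, x) ≤ ENNReal.ofReal (|fr.det|⁻¹ * E) := by
    rw [← lintegral_prod g hg, lintegral_indicator hA', ENNReal.ofReal_mul (by positivity)]
    refine le_trans (le_of_eq ((fi_ok fr _ hA').2.2.1 fun z => ENNReal.ofReal (f z ^ 2))) ?_
    refine mul_le_mul_right ((lintegral_mono_set (image_preimage_subset _ _)).trans ?_) _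
    rw [← ofReal_integral_eq_lintegral_ofReal hi (Eventually.of_forall fun x => sq_nonneg _)]
    exact ENNReal.ofReal_le_ofReal hE
  refine (ENNReal.div_le_div_right hT _).trans (le_of_eq ?_)
  rw [← ENNReal.ofReal_div_of_pos hpos, hdet']
  congr 1
  have := abs_pos.2 hdet
  field_simp

end Pool.Agent.P.MP_2cea5e_gt.I
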