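import Pool.Agent.P.MP_2cea5e_gt.I.St2

/-!
Chapter I: parabolic rescaling inside the unit cylinder.
-/

open scoped ContDiff Topology
open MeasureTheory Set Filter

noncomputable section

set_option linter.dupNamespace false

namespace Pool.Agent.P.MP_2cea5e_gt.I

namespace Resc

variable {b : Bool} {ρ c : ℝ}

theorem ivc_map (hρ : 0 < ρ) (h1 : ρ ≤ 1) (hc : if b then c = 0 else |c| + ρ ≤ 1) {x : ℝ}
    (hx : x ∈ ivc b 1) : c + ρ ^ wt b * x ∈ ivc b 1 := by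
  cases b
  · simp only [Bool.false_eq_true, if_false, ivc, wt, pow_one, mem_Icc] at hc hx ⊢
    have := abs_le.mp (show |c| ≤ 1 - ρ by linarith)
    constructor <;> nlinarith
  · simp only [if_true, ivc, wt, one_pow, mem_Icc] at hc hx ⊢
    have h2 : ρ ^ 2 ≤ 1 := pow_le_one₀ hρ.le h1
    have h3 : 0 < ρ ^ 2 := by positivity
    rw [hc]
    constructor <;> nlinarith

theorem iv_map (hρ : 0 < ρ) (h1 : ρ ≤ 1) (hc : if b then c = 0 else |c| + ρ ≤ 1) {x : ℝ}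
    (hx : x ∈ iv b 1) : c + ρ ^ wt b * x ∈ iv b 1 := by
  cases b
  · simp only [Bool.false_eq_true, if_false, iv, wt, pow_one, mem_Ioo] at hc hx ⊢
    have := abs_le.mp (show |c| ≤ 1 - ρ by linarith)
    constructor <;> nlinarith
  · simp only [if_true, iv, wt, one_pow, mem_Ioo] at hc hx ⊢
    have h2 : ρ ^ 2 ≤ 1 := pow_le_one₀ hρ.le h1
    have h3 : 0 < ρ ^ 2 := by positivity
    rw [hc]
    constructor <;> nlinarith

theorem iv_iff (hρ : 0 < ρ) (r x : ℝ) : ρ ^ wt b * x ∈ iv b (ρ * r) ↔ x ∈ iv b r := by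
  cases b
  · simp only [Bool.false_eq_true, if_false, iv, wt, pow_one, mem_Ioo]
    rw [← mul_neg, mul_lt_mul_iff_right₀ hρ, mul_lt_mul_iff_right₀ hρ]
  · have h3 : 0 < ρ ^ 2 := by positivity
    simp only [if_true, iv, wt, mem_Ioo]
    rw [mul_pow, mul_lt_mul_iff_right₀ h3, mul_pos_iff_of_pos_left h3]

theorem md_map (hρ : 0 < ρ) (hc : if b then c = 0 else |c| + ρ ≤ 1) (x : ℝ) :
    md b (c + ρ ^ wt b * x) =
      ρ ^ 2 * md b x + md b c + (if b then ρ ^ 2 * Real.log (ρ ^ 2) else ρ * c) * x := by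
  cases b
  · simp only [Bool.false_eq_true, if_false, md, wt, pow_one]
    ring
  · simp only [if_true, md, wt] at hc ⊢
    rw [hc]
    by_cases hx : x = 0
    · simp [hx]
    · rw [zero_add, Real.log_mul (by positivity) hx]
      ring

theorem om_map (hρ : 0 < ρ) (hc : if b then c = 0 else |c| + ρ ≤ 1) (x : ℝ) :
    om b (c + ρ ^ wt b * x) = (ρ ^ wt b) ^ 2 / ρ ^ 2 * om b x := by
  cases b
  · simp only [Bool.false_eq_true, if_false, om, wt, pow_one]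
    field_simp
  · simp only [if_true, om, wt] at hc ⊢
    rw [hc]
    field_simp
    ring

theorem wt_le (b : Bool) : wt b ≤ 2 := by cases b <;> simp [wt]

theorem if_univ (b : Bool) : (if b then univ else ok b) = (univ : Set ℝ) := by
  cases b <;> simp [ok]

theorem hb_11 (u : X → ℝ) (a : ℝ) (p : X) : hb u (a, 0) (a, 0) p = a ^ 2 * h11 u p := by
  simp only [hb, hs, T2.ap]; ring

theorem hb_22 (u : X → ℝ) (a : ℝ) (p : X) : hb u (0, a) (0, a) p = a ^ 2 * h22 u p := by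
  simp only [hb, hs, T2.ap]; ring

theorem D_sv1 (a : ℝ) (f : X → ℝ) (p : X) : D (sv (a, 0)) f p = a * D e1 f p := by
  have : sv (a, 0) = a • e1 := by simp [sv, e1]
  rw [this]; simp [D]

theorem D_sv2 (a : ℝ) (f : X → ℝ) (p : X) : D (sv (0, a)) f p = a * D e2 f p := by
  have : sv (0, a) = a • e2 := by simp [sv, e2]
  rw [this]; simp [D]

theorem abs_le_of {a x δ : ℝ} (hρ : 0 < ρ) (ha : ρ ^ 2 ≤ a) (h : |(ρ ^ 2)⁻¹ * (a * x)| ≤ δ) :
    |x| ≤ δ := by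
  have h2 : 0 < ρ ^ 2 := by positivity
  rw [abs_mul, abs_mul, abs_of_pos (inv_pos.mpr h2), abs_of_pos (h2.trans_le ha)] at h
  refine le_trans ?_ h
  rw [← mul_assoc]
  refine le_mul_of_one_le_left (abs_nonneg x) ?_
  rw [inv_mul_eq_div, le_div_iff₀ h2, one_mul]
  exact ha

end Resc

open Resc in
theorem resc_ok (h1 : StApi) (h2 : StAlg) (h3 : StFC) (h4 : StFI) (h5 : StFG) : StResc := by
  intro d u F ρ hρ t₁ p l₀ l₁ l₂ hρ1 ht0 ht1 hp1 hp2 hN fr d'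
  have sp1 : ∀ y : ℝ × ℝ, (fr.sp y).1 = p.1 + ρ ^ wt d.τ.1 * y.1 := fun y => by
    simp [fr, scl, Fr.sp, Fr.S]
  have sp2 : ∀ y : ℝ × ℝ, (fr.sp y).2 = p.2 + ρ ^ wt d.τ.2 * y.2 := fun y => by
    simp [fr, scl, Fr.sp, Fr.S]
  have hS : ∀ y : ℝ × ℝ, fr.S y = (ρ ^ wt d.τ.1 * y.1, ρ ^ wt d.τ.2 * y.2) := fun y => by
    simp [fr, scl, Fr.S]
  have htm : ∀ t, fr.tm t = t₁ + ρ ^ 4 * t := fun t => rfl
  have hfρ : fr.ρ = ρ := rfl
  have hdet : fr.det = ρ ^ (wt d.τ.1 + wt d.τ.2) := by simp [fr, scl, Fr.det, pow_add]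
  have hρ4 : 0 < ρ ^ 4 := by positivity
  have hρ2 : 0 < ρ ^ 2 := by positivity
  have hw : 0 < ρ ^ (wt d.τ.1 + wt d.τ.2) := by positivity
  have hw4 : (ρ ^ (wt d.τ.1 + wt d.τ.2))⁻¹ ≤ (ρ ^ 4)⁻¹ :=
    inv_anti₀ hρ4 (pow_le_pow_of_le_one hρ.le hρ1 (by
      have := wt_le d.τ.1
      have := wt_le d.τ.2
      omega))
  have ha1 : ρ ^ 2 ≤ ρ ^ wt d.τ.1 := pow_le_pow_of_le_one hρ.le hρ1 (wt_le _)
  have ha2 : ρ ^ 2 ≤ ρ ^ wt d.τ.2 := pow_le_pow_of_le_one hρ.le hρ1 (wt_le _)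
  have hCp : fr.Cp d.τ d.τ := by
    constructor
    · intro h
      rw [if_pos h] at hp1
      exact ⟨h, hp1, by simp [fr, scl, wt, h], rfl, rfl⟩
    · intro h
      rw [if_pos h] at hp2
      exact ⟨h, hp2, by simp [fr, scl, wt, h], rfl, rfl⟩
  obtain ⟨-, gU, -, -, -, -, -, gGS⟩ := h5.1 fr d d.τ hCp
  have htI : ∀ t ∈ Icc (-1 : ℝ) 0, fr.tm t ∈ Icc (-1 : ℝ) 0 := fun t ht => by
    rw [htm]
    constructor <;> nlinarith [ht.1, ht.2]
  have hN' : N0 d' (fr.pull u) (fr.pullF F) := by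
    refine ⟨gGS u F hN.gs, fun t ht => hN.tI (htI t ht), fun y hy => ?_⟩
    refine ⟨hN.bO ⟨?_, ?_⟩, ?_⟩
    · rw [sp1]; exact ivc_map hρ hρ1 hp1 hy.1
    · rw [sp2]; exact ivc_map hρ hρ1 hp2 hy.2
    · rw [if_univ, if_univ]; exact ⟨trivial, trivial⟩
  have hsub : fr.sp '' bx d.τ 1 ⊆ bx d.τ 1 := by
    rintro _ ⟨y, hy, rfl⟩
    constructor
    · rw [sp1]; exact iv_map hρ hρ1 hp1 hy.1
    · rw [sp2]; exact iv_map hρ hρ1 hp2 hy.2
  have hint : ∀ (g : X → ℝ) (t : ℝ) (A : Set (ℝ × ℝ)), MeasurableSet A →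
      ∫ y in A, g (fr.fm (t, y)) =
        (ρ ^ (wt d.τ.1 + wt d.τ.2))⁻¹ * ∫ y in fr.sp '' A, g (t₁ + ρ ^ 4 * t, y) := by
    intro g t A hA
    have := ((h4 fr A hA).2.1 fun y => g (t₁ + ρ ^ 4 * t, y)).2
    rw [hdet, abs_of_pos hw] at this
    exact this
  have hR : Reg d (bx d.τ 1) := reg_bx hN.bO
  have hR' : Reg d' (bx d.τ 1) := reg_bx hN'.bO
  have hnn : ∀ g : X → ℝ, (∀ q ∈ d.U, 0 ≤ g q) → ∀ t ∈ Icc (-1 : ℝ) 0,
      0 ≤ ∫ y in bx d.τ 1, g (t, y) := fun g hg t ht =>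
    setIntegral_nonneg hR.ms fun y hy => hg _ ⟨hN.tI ht, hR.sub hy⟩
  have key : ∀ g : X → ℝ, Lc d g → (∀ q ∈ d.U, 0 ≤ g q) → ∀ t ∈ Icc (-1 : ℝ) 0,
      ∫ y in bx d.τ 1, g (fr.fm (t, y)) ≤
        (ρ ^ (wt d.τ.1 + wt d.τ.2))⁻¹ * ∫ y in bx d.τ 1, g (fr.tm t, y) := by
    intro g hg h0 t ht
    rw [hint g t _ hR.ms]
    refine mul_le_mul_of_nonneg_left ?_ (inv_pos.mpr hw).le
    have hI := hN.tI (htI t ht)
    refine setIntegral_mono_set (hg.integrableOn hR hI) ?_ hsub.eventuallyLE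
    exact (ae_restrict_iff' hR.ms).mpr (Eventually.of_forall fun y hy => h0 _ ⟨hI, hR.sub hy⟩)
  have A := h1 d u hN.gs.toGS0
  have A' := h1 d' _ hN'.gs.toGS0
  have hU : ∀ q ∈ d'.U, fr.fm q ∈ d.U := fun q hq => by
    have : q ∈ fr.fm ⁻¹' d.U := gU ▸ hq
    exact this
  have ho1 : ∀ q : X, o1 d.τ (fr.fm q) = (ρ ^ wt d.τ.1) ^ 2 / ρ ^ 2 * o1 d.τ q := fun q => by
    show om _ (fr.sp q.2).1 = _
    rw [sp1]; exact om_map hρ hp1 _
  have ho2 : ∀ q : X, o2 d.τ (fr.fm q) = (ρ ^ wt d.τ.2) ^ 2 / ρ ^ 2 * o2 d.τ q := fun q => by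
    show om _ (fr.sp q.2).2 = _
    rw [sp2]; exact om_map hρ hp2 _
  have hwv : ∀ q : X,
      wv d.τ (fr.pull u) q = (wv d.τ u (fr.fm q) - af l₀ l₁ l₂ q) / ρ ^ 2 := fun q => by
    have e1 : u0 d.τ (fr.fm q) = md d.τ.1 (fr.sp q.2).1 + md d.τ.2 (fr.sp q.2).2 := rfl
    rw [sp1, sp2, md_map hρ hp1, md_map hρ hp2] at e1
    simp only [wv, Pi.sub_apply, Fr.pull]
    rw [e1]
    simp only [fr, scl, af, u0]
    field_simp
    ring
  obtain ⟨-, hFC⟩ := (h3 fr d.U d.isOpen_U).2.2 u A.sm fun q hq => (A.pW q hq).ne'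
  have hgex : ∀ q ∈ d'.U, gex d.τ (fr.pull u) q = gex d.τ u (fr.fm q) := fun q hq => by
    obtain ⟨-, -, c1, -, ⟨c2, -, c3⟩, -⟩ := hFC q (hU q hq)
    have d1 := c1 (1, 0) (1, 0)
    have d2 := c1 (0, 1) (0, 1)
    rw [hS] at d1 d2
    simp only [mul_one, mul_zero] at d1 d2
    rw [hb_11, hb_11] at d1
    rw [hb_22, hb_22] at d2
    have p1 : o1 d.τ q ≠ 0 := (Dm.o1_pos (d := d') hq).ne'
    have p2 : o2 d.τ q ≠ 0 := (Dm.o2_pos (d := d') hq).ne'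
    simp only [one_pow, one_mul] at d1 d2
    simp only [Fr.pullT, hdet, T2.ap, iv2] at c2 c3
    simp only [gex]
    rw [d1, d2, c2, c3, ho1, ho2, hfρ, pow_add]
    simp only [fr, scl]
    field_simp
    ring
  have hg0 : ∀ q ∈ d.U, 0 ≤ gex d.τ u q := fun q hq => by
    rw [A.gx2 q hq]
    exact (h2.1 _ _ _ (A.gx1 q hq).1 (A.gx1 q hq).2).1
  have hclose : ∀ ε, l₀ = 0 → l₁ = 0 → l₂ = 0 → Close d u ε →
      Close d' (fr.pull u) (ε / ρ ^ 4) := by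
    intro ε e0 e1 e2 hc t ht
    have k := key (fun q => wv d.τ u q ^ 2) (hN.gs.bd.lc.pow 2) (fun q _ => sq_nonneg _) t ht
    have k2 := hc _ (htI t ht)
    have k3 : ∀ y, wv d.τ (fr.pull u) (t, y) ^ 2 = (ρ ^ 4)⁻¹ * wv d.τ u (fr.fm (t, y)) ^ 2 :=
      fun y => by
        rw [hwv, e0, e1, e2]
        simp only [af, zero_mul, add_zero, sub_zero]
        field_simp
    show ∫ y in bx d.τ 1, wv d.τ (fr.pull u) (t, y) ^ 2 ≤ _
    simp only [k3]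
    rw [integral_const_mul]
    calc _ ≤ (ρ ^ 4)⁻¹ * ((ρ ^ 4)⁻¹ * ε ^ 2) := by
          refine mul_le_mul_of_nonneg_left (k.trans ?_) (inv_pos.mpr hρ4).le
          exact mul_le_mul hw4 k2 (hnn (fun q => wv d.τ u q ^ 2) (fun q _ => sq_nonneg _) _
            (htI t ht)) (inv_pos.mpr hρ4).le
      _ = _ := by field_simp
  refine ⟨hCp, hN', fun Λ hs => ⟨hN', fun t ht => ?_⟩, hsub, fun hp r => ?_,
    fun q hq => ⟨hwv q, hgex q hq, fun δ z1 z2 hn => ?_⟩, hint,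
    fun ε e0 e1 e2 _ => ⟨hclose ε e0 e1 e2, fun hx => ⟨hclose ε e0 e1 e2 hx.1, ?_⟩⟩⟩
  · have k := key (fun q => F q ^ 2) (hN.gs.lcF.pow 2) (fun q _ => sq_nonneg _) t ht
    have k2 := hs.en _ (htI t ht)
    have k0 := hnn (fun q => F q ^ 2) (fun q _ => sq_nonneg _) _ (htI t ht)
    have k3 : ∀ y, fr.pullF F (t, y) ^ 2 = ρ ^ 4 * F (fr.fm (t, y)) ^ 2 := fun y => by
      simp only [Fr.pullF, hfρ]; ring
    show ∫ y in bx d.τ 1, fr.pullF F (t, y) ^ 2 ≤ _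
    simp only [k3]
    rw [integral_const_mul]
    calc _ ≤ ρ ^ 4 * ((ρ ^ 4)⁻¹ * Λ) :=
          mul_le_mul_of_nonneg_left (k.trans (mul_le_mul hw4 k2 k0 (inv_pos.mpr hρ4).le)) hρ4.le
      _ = Λ := by field_simp
  · ext y
    constructor
    · rintro ⟨z, hz, rfl⟩
      constructor
      · rw [sp1, hp, Prod.fst_zero, zero_add, iv_iff hρ]; exact hz.1
      · rw [sp2, hp, Prod.snd_zero, zero_add, iv_iff hρ]; exact hz.2
    · intro hy
      have q1 : ρ ^ wt d.τ.1 * (y.1 / ρ ^ wt d.τ.1) = y.1 := by field_simp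
      have q2 : ρ ^ wt d.τ.2 * (y.2 / ρ ^ wt d.τ.2) = y.2 := by field_simp
      refine ⟨(y.1 / ρ ^ wt d.τ.1, y.2 / ρ ^ wt d.τ.2), ⟨?_, ?_⟩, ?_⟩
      · rw [← iv_iff hρ, q1]; exact hy.1
      · rw [← iv_iff hρ, q2]; exact hy.2
      · ext
        · rw [sp1, hp, Prod.fst_zero, zero_add, q1]
        · rw [sp2, hp, Prod.snd_zero, zero_add, q2]
  · obtain ⟨-, -, c1, -⟩ := hFC q (hU q hq)
    have p1 : o1 d.τ q ≠ 0 := (Dm.o1_pos (d := d') hq).ne'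
    have p2 : o2 d.τ q ≠ 0 := (Dm.o2_pos (d := d') hq).ne'
    obtain ⟨sm, hD⟩ := (h3 fr d.U d.isOpen_U).1 _ hN.gs.bd.sm
    have hdf : DifferentiableAt ℝ (wv d.τ u ∘ fr.fm) q :=
      diffAt d'.isOpen_U (gU ▸ sm) hq
    have hDw : ∀ e, D (sv e) (wv d.τ (fr.pull u)) q =
        (ρ ^ 2)⁻¹ * D (sv (fr.S e)) (wv d.τ u) (fr.fm q) := fun e => by
      have e3 : wv d.τ (fr.pull u) =
          fun q => (fun x : ℝ => (x - l₀) / ρ ^ 2) ((wv d.τ u ∘ fr.fm) q) := by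
        funext q
        rw [hwv, z1, z2]
        simp [af]
      rw [e3, D_comp_at (Φ := fun x : ℝ => (x - l₀) / ρ ^ 2) _
        (((hasDerivAt_id _).sub_const l₀).div_const (ρ ^ 2)) hdf,
        (hD q (hU q hq)).2, one_div]
    refine ⟨fun e => ?_, ?_, ?_⟩
    · obtain ⟨n1, n2⟩ := hn.1 (e.1 / ρ ^ wt d.τ.1, e.2 / ρ ^ wt d.τ.2)
      have hSe : fr.S (e.1 / ρ ^ wt d.τ.1, e.2 / ρ ^ wt d.τ.2) = e := by
        rw [hS]
        ext <;> field_simp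
      have r1 : I.hq (fr.pull u) (e.1 / ρ ^ wt d.τ.1, e.2 / ρ ^ wt d.τ.2) q =
          I.hq u e (fr.fm q) / ρ ^ 2 := by
        simp only [I.hq]
        rw [c1, hSe, hfρ]
      have r2 : hq0 d.τ (e.1 / ρ ^ wt d.τ.1, e.2 / ρ ^ wt d.τ.2) q =
          hq0 d.τ e (fr.fm q) / ρ ^ 2 := by
        simp only [hq0]
        rw [ho1, ho2]
        field_simp
      rw [r1, r2, ← mul_div_assoc, div_le_div_iff_of_pos_right hρ2] at n1 n2
      exact ⟨n1, n2⟩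
    · have := hn.2.1
      rw [show e1 = sv (1, 0) from rfl, hDw, hS, mul_one, mul_zero, D_sv1] at this
      exact abs_le_of hρ ha1 this
    · have := hn.2.2
      rw [show e2 = sv (0, 1) from rfl, hDw, hS, mul_one, mul_zero, D_sv2] at this
      exact abs_le_of hρ ha2 this
  · have hc : ContinuousOn (fun t => ∫ y in bx d.τ 1, gex d.τ u (t, y)) (Icc (-1 : ℝ) 0) :=
      (A.bg.lc.continuousOn_int hR).mono hN.tI
    have hc' : ContinuousOn (fun t => ∫ y in bx d.τ 1, gex d.τ (fr.pull u) (t, y))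
        (Icc (-1 : ℝ) 0) := (A'.bg.lc.continuousOn_int hR').mono hN'.tI
    have hc2 : ContinuousOn (fun t => (ρ ^ 4)⁻¹ * ∫ y in bx d.τ 1, gex d.τ u (fr.tm t, y))
        (Icc (-1 : ℝ) 0) :=
      continuousOn_const.mul (hc.comp fr.cont_tm.continuousOn htI)
    have hle : (-1 : ℝ) ≤ 0 := by norm_num
    show ∫ t in (-1 : ℝ)..0, ∫ y in bx d.τ 1, gex d.τ (fr.pull u) (t, y) ≤ _
    calc _ ≤ ∫ t in (-1 : ℝ)..0, (ρ ^ 4)⁻¹ * ∫ y in bx d.τ 1, gex d.τ u (fr.tm t, y) := by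
          refine intervalIntegral.integral_mono_on hle (hc'.intervalIntegrable_of_Icc hle)
            (hc2.intervalIntegrable_of_Icc hle) fun t ht => ?_
          rw [setIntegral_congr_fun hR.ms (fun y hy => hgex (t, y) ⟨hN'.tI ht, hR'.sub hy⟩)]
          exact (key _ A.bg.lc hg0 t ht).trans
            (mul_le_mul_of_nonneg_right hw4 (hnn _ hg0 _ (htI t ht)))
      _ = (ρ ^ 4)⁻¹ * ((ρ ^ 4)⁻¹ *
            ∫ t in fr.tm (-1)..fr.tm 0, ∫ y in bx d.τ 1, gex d.τ u (t, y)) := by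
          rw [intervalIntegral.integral_const_mul,
            (h4 fr univ MeasurableSet.univ).2.2.2 (fun t => ∫ y in bx d.τ 1, gex d.τ u (t, y)),
            hfρ]
      _ ≤ (ρ ^ 4)⁻¹ * ((ρ ^ 4)⁻¹ * ε ^ 2) := by
          refine mul_le_mul_of_nonneg_left (mul_le_mul_of_nonneg_left (le_trans ?_ hx.2)
            (inv_pos.mpr hρ4).le) (inv_pos.mpr hρ4).le
          refine intervalIntegral.integral_mono_interval (htI _ ⟨le_rfl, hle⟩).1
            (by rw [htm, htm]; nlinarith) (htI _ ⟨hle, le_rfl⟩).2 ?_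
            (hc.intervalIntegrable_of_Icc hle)
          exact (ae_restrict_iff' measurableSet_Ioc).mpr
            (Eventually.of_forall fun t ht => hnn _ hg0 t (Ioc_subset_Icc_self ht))
      _ = _ := by field_simp

end Pool.Agent.P.MP_2cea5e_gt.I
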