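import Pool.Agent.P.MP_2cea5e_gt.I.St3
import Pool.Agent.P.MP_2cea5e_gt.I.Alg
import Pool.Agent.P.MP_2cea5e_gt.I.Api
import Pool.Agent.P.MP_2cea5e_gt.I.FC
import Pool.Agent.P.MP_2cea5e_gt.I.FI
import Pool.Agent.P.MP_2cea5e_gt.I.Resc

/-!
Chapter I: decay of the excess.
-/

open scoped ContDiff Topology
open MeasureTheory Set Filter

noncomputable section

set_option linter.dupNamespace false

namespace Pool.Agent.P.MP_2cea5e_gt.I

namespace Dyad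

variable {d : Dm} {u F : X → ℝ}

/-- The scaling centred at the origin. -/
abbrev sc (τ : Ty) (ρ : ℝ) (hρ : 0 < ρ) : Fr := scl τ ρ hρ 0 0 0 0 0

def Wq (d : Dm) (u : X → ℝ) (r t : ℝ) : ℝ := ∫ y in bx d.τ r, wv d.τ u (t, y) ^ 2
def Gq (d : Dm) (u : X → ℝ) (r t : ℝ) : ℝ := ∫ y in bx d.τ r, gex d.τ u (t, y)
def aa (d : Dm) : ℕ := wt d.τ.1 + wt d.τ.2

theorem aa_le (d : Dm) : aa d ≤ 4 := by
  unfold aa wt
  split_ifs <;> omega

theorem hyp {ρ : ℝ} (hρ : 0 < ρ) (h1 : ρ ≤ 1) : (-1 : ℝ) ≤ 0 - ρ ^ 4 := by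
  have := pow_le_one₀ (n := 4) hρ.le h1
  linarith

theorem hp1 (b : Bool) {ρ : ℝ} (h1 : ρ ≤ 1) :
    if b then (0 : ℝ × ℝ).1 = 0 else |(0 : ℝ × ℝ).1| + ρ ≤ 1 := by
  cases b <;> simp [h1]

theorem hp2 (b : Bool) {ρ : ℝ} (h1 : ρ ≤ 1) :
    if b then (0 : ℝ × ℝ).2 = 0 else |(0 : ℝ × ℝ).2| + ρ ≤ 1 := by
  cases b <;> simp [h1]

theorem key (h4 : StResc) (hN : N0 d u F) {ρ s t : ℝ} (hρ : 0 < ρ) (h1 : ρ ≤ 1) (hs : 0 ≤ s)
    (hs1 : s ≤ 1) (ht : t ∈ Icc (-1 : ℝ) 0) :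
    Wq ((sc d.τ ρ hρ).dm d d.τ) ((sc d.τ ρ hρ).pull u) s t =
      (ρ ^ (aa d + 4))⁻¹ * Wq d u (ρ * s) (ρ ^ 4 * t) ∧
    Gq ((sc d.τ ρ hρ).dm d d.τ) ((sc d.τ ρ hρ).pull u) s t =
      (ρ ^ aa d)⁻¹ * Gq d u (ρ * s) (ρ ^ 4 * t) := by
  obtain ⟨-, hN', -, -, him, hpt, hint, -⟩ :=
    h4 d u F ρ hρ 0 0 0 0 0 h1 le_rfl (hyp hρ h1) (hp1 _ h1) (hp2 _ h1) hN
  have hm : MeasurableSet (bx d.τ s) := (isOpen_bx _ _).measurableSet
  have hU : ∀ y ∈ bx d.τ s, (t, y) ∈ ((sc d.τ ρ hρ).dm d d.τ).U := fun y hy =>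
    ⟨hN'.tI ht, (reg_bx hN'.bO).sub (bx_mono _ hs hs1 hy)⟩
  constructor
  · have e := hint (fun q => wv d.τ u q ^ 2) t _ hm
    rw [him rfl, zero_add] at e
    have e2 : Wq ((sc d.τ ρ hρ).dm d d.τ) ((sc d.τ ρ hρ).pull u) s t =
        ∫ y in bx d.τ s, (ρ ^ 4)⁻¹ * wv d.τ u ((sc d.τ ρ hρ).fm (t, y)) ^ 2 :=
      setIntegral_congr_fun hm fun y hy => by
        have := (hpt _ (hU y hy)).1
        simp only [af, zero_mul, add_zero, sub_zero] at this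
        show wv d.τ _ _ ^ 2 = _
        rw [this]
        field_simp
    rw [e2, integral_const_mul, e]
    unfold Wq aa
    rw [pow_add _ _ 4, mul_inv]
    ring
  · have e := hint (gex d.τ u) t _ hm
    rw [him rfl, zero_add] at e
    exact (setIntegral_congr_fun hm fun y hy => (hpt _ (hU y hy)).2.1).trans e

theorem time_int {f g : ℝ → ℝ} {ρ s c : ℝ} (hρ : 0 < ρ) (hs : 0 ≤ s) (hs1 : s ≤ 1)
    (h : ∀ t ∈ Icc (-1 : ℝ) 0, f t = c * g (ρ ^ 4 * t)) :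
    ∫ t in (-s ^ 4)..0, f t = c * (ρ ^ 4)⁻¹ * ∫ t in (-(ρ * s) ^ 4)..0, g t := by
  have h4 : s ^ 4 ≤ 1 := pow_le_one₀ hs hs1
  have h0 : 0 ≤ s ^ 4 := by positivity
  rw [intervalIntegral.integral_congr (g := fun t => c * g (ρ ^ 4 * t)) fun t ht => by
    rw [uIcc_of_le (by linarith)] at ht
    exact h t ⟨by linarith [ht.1], ht.2⟩]
  rw [intervalIntegral.integral_const_mul, intervalIntegral.integral_comp_mul_left _ (by positivity),
    smul_eq_mul, mul_assoc]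
  congr 3
  · ring
  · ring

/-- The excess at the scale `r` is at most `η`. -/
def PP (d : Dm) (u : X → ℝ) (r η : ℝ) : Prop :=
  (∀ t ∈ Icc (-r ^ 4) 0, Wq d u r t ≤ r ^ (aa d + 4) * η ^ 2) ∧
    ∫ t in (-r ^ 4)..0, Gq d u r t ≤ r ^ (aa d + 4) * η ^ 2

theorem exc_of (h4 : StResc) (hN : N0 d u F) {ρ η : ℝ} (hρ : 0 < ρ) (h1 : ρ ≤ 1)
    (h : PP d u ρ η) : Exc ((sc d.τ ρ hρ).dm d d.τ) ((sc d.τ ρ hρ).pull u) η := by
  have h0 : 0 < ρ ^ 4 := by positivity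
  refine ⟨fun t ht => ?_, ?_⟩
  · refine (key h4 hN hρ h1 zero_le_one le_rfl ht).1.trans_le ?_
    rw [mul_one, inv_mul_le_iff₀ (by positivity)]
    exact h.1 _ ⟨by nlinarith [ht.1], by nlinarith [ht.2]⟩
  · have e := time_int hρ zero_le_one le_rfl
      fun t ht => (key h4 hN hρ h1 zero_le_one le_rfl ht).2
    rw [one_pow, mul_one] at e
    refine e.trans_le ?_
    rw [← mul_inv, ← pow_add, inv_mul_le_iff₀ (by positivity)]
    exact h.2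

theorem gex_nn (h1 : StApi) (hN : N0 d u F) {p : X} (hp : p ∈ d.U) : 0 ≤ gex d.τ u p := by
  have A := h1 d u hN.gs.toGS0
  rw [A.gx2 p hp]
  exact (alg_ok.1 _ _ _ (A.gx1 p hp).1 (A.gx1 p hp).2).1

theorem an_le (h1 : StApi) (hN : N0 d u F) :
    ∫ t in (-1 : ℝ)..0, ∫ y in An d.τ (3 / 5) (1 / 5), gex d.τ u (t, y) ≤
      ∫ t in (-1 : ℝ)..0, ∫ y in bx d.τ 1, gex d.τ u (t, y) := by
  have hL := (h1 d u hN.gs.toGS0).bg.lc
  have hR := reg_bx hN.bO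
  have hs : An d.τ (3 / 5) (1 / 5) ⊆ bx d.τ 1 :=
    (An_subset _ _ _).trans (bx_mono _ (by norm_num) (by norm_num))
  have hR' := hR.mono (measurableSet_An _ _ _) hs
  refine intervalIntegral.integral_mono_on (by norm_num)
    (ContinuousOn.intervalIntegrable_of_Icc (by norm_num) ((hL.continuousOn_int hR').mono hN.tI))
    (ContinuousOn.intervalIntegrable_of_Icc (by norm_num) ((hL.continuousOn_int hR).mono hN.tI))
    fun t ht => ?_
  refine setIntegral_mono_set (hL.integrableOn hR (hN.tI ht)) ?_ hs.eventuallyLE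
  exact (ae_restrict_mem hR.ms).mono fun y hy => gex_nn h1 hN ⟨hN.tI ht, hR.sub hy⟩

theorem Exc.mono {ε ε' : ℝ} (h : Exc d u ε) (h0 : 0 ≤ ε) (hε : ε ≤ ε') : Exc d u ε' :=
  have e : ε ^ 2 ≤ ε' ^ 2 := pow_le_pow_left₀ h0 hε 2
  ⟨fun t ht => (h.1 t ht).trans e, h.2.trans e⟩

theorem dm_ext {d d' : Dm} (h1 : d.τ = d'.τ) (h2 : d.I = d'.I) (h3 : d.O = d'.O) : d = d' := by
  cases d
  cases d'
  simp only at h1 h2 h3
  subst h1 h2 h3
  rfl

theorem pow_wt_le (b : Bool) {x : ℝ} (h0 : 0 ≤ x) (h1 : x ≤ 1) : x ^ wt b ≤ x := by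
  cases b
  · simp [wt]
  · simp only [wt, if_true]
    nlinarith

theorem pert_comp {τ : Ty} {fr : Fr} {θ γ ρ : ℝ} (h : Pert τ fr θ γ) (hρ : 0 < ρ) (h1 : ρ ≤ 1)
    (hc : (fr.comp (sc τ ρ hρ)).Cp τ τ) : Pert τ (fr.comp (sc τ ρ hρ)) (θ * ρ) γ := by
  have hθ : 0 < θ := h.ρ ▸ fr.ρ_pos
  have sca : ∀ (k : ℕ) (x y : ℝ), |x| ≤ γ * y → |x * ρ ^ k| ≤ γ * (y * ρ ^ k) := fun k x y hx => by
    rw [abs_mul, abs_of_pos (pow_pos hρ k), ← mul_assoc]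
    exact mul_le_mul_of_nonneg_right hx (pow_pos hρ k).le
  have scb : ∀ (b : Bool) (x : ℝ), |x| ≤ γ * θ → |x * ρ ^ wt b| ≤ γ * (θ * ρ) := fun b x hx => by
    rw [abs_mul, abs_of_pos (pow_pos hρ _), ← mul_assoc]
    exact mul_le_mul hx (pow_wt_le b hρ.le h1) (pow_pos hρ _).le ((abs_nonneg _).trans hx)
  have lg : ∀ (b : Bool) (l : ℝ),
      l * ρ ^ wt b + θ ^ 2 * (if b then ρ ^ 2 * Real.log (ρ ^ 2) else 0) -
        (if b then (θ * ρ) ^ 2 * Real.log ((θ * ρ) ^ 2) else 0) =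
      (l - if b then θ ^ 2 * Real.log (θ ^ 2) else 0) * ρ ^ wt b := fun b l => by
    cases b
    · simp
    · simp only [wt, if_true]
      rw [mul_pow, Real.log_mul (by positivity) (by positivity)]
      ring
  refine ⟨?_, ?_, ?_, hc, ?_, ?_, ?_, ?_, ?_, ?_⟩
  · simp [Fr.comp, scl, Fr.tm, h.t1]
  · simp [Fr.comp, scl, Fr.sp, Fr.S, h.p]
  · simp [Fr.comp, scl, h.ρ]
  · have := sca (wt τ.1) _ _ h.a
    simp only [Fr.comp, scl, mul_zero, add_zero, mul_pow]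
    rwa [sub_mul] at this
  · simpa only [Fr.comp, scl, mul_zero, zero_add] using scb τ.2 _ h.b
  · simpa only [Fr.comp, scl, mul_zero, add_zero] using scb τ.1 _ h.c
  · have := sca (wt τ.2) _ _ h.e
    simp only [Fr.comp, scl, mul_zero, zero_add, mul_pow]
    rwa [sub_mul] at this
  · have := sca (wt τ.1) _ _ h.l1
    rw [← lg, ← mul_pow] at this
    simpa only [Fr.comp, scl, mul_zero, add_zero, zero_add, h.ρ, Prod.fst_zero] using this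
  · have := sca (wt τ.2) _ _ h.l2
    rw [← lg, ← mul_pow] at this
    simpa only [Fr.comp, scl, mul_zero, add_zero, zero_add, h.ρ, Prod.snd_zero] using this

end Dyad

open Dyad

theorem dyad_ok (h1 : StApi) (h2 : StSup) (h3 : StCac) (h4 : StResc) : StDyad := by
  intro τ Λ
  obtain ⟨C, σ, hC, hσ, hcac⟩ := h3 τ (1 / 4096) (by norm_num)
  obtain ⟨εs, hεs, hsup⟩ := h2 τ Λ σ hσ
  have hA : (1 : ℝ) ≤ 2048 * C + 1 := by linarith
  set A : ℝ := 2048 * C + 1 with hAd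
  have hA2 : 2048 * C ≤ A ^ 2 := by nlinarith
  refine ⟨A, hA, fun n => ⟨εs / A, by positivity, fun d u F ε hτ hN hε hε1 hE hW => ?_⟩⟩
  subst hτ
  have hεA : A * ε ≤ εs := by rwa [le_div_iff₀ (by positivity), mul_comm] at hε1
  have step : ∀ ρ : ℝ, (1 / 2) ^ n ≤ ρ → ρ ≤ 1 → PP d u ρ (A * ρ * ε) →
      PP d u (ρ * (1 / 2)) (A * (ρ * (1 / 2)) * ε) := fun ρ hn hρ1 hP => by
    have hρ : 0 < ρ := lt_of_lt_of_le (by positivity) hn
    have hE' := exc_of h4 hN.toN0 hρ hρ1 hP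
    obtain ⟨-, hN', hNS, -⟩ :=
      h4 d u F ρ hρ 0 0 0 0 0 hρ1 le_rfl (hyp hρ hρ1) (hp1 _ hρ1) (hp2 _ hρ1) hN.toN0
    have hNS' := hNS Λ hN
    have hη : (A * ρ * ε) ^ 2 ≤ εs ^ 2 := by
      refine pow_le_pow_left₀ (by positivity) (le_trans ?_ hεA) 2
      rw [mul_right_comm]
      exact mul_le_of_le_one_right (by positivity) hρ1
    have hS : ∀ t ∈ Icc (-1 : ℝ) 0,
        SupB ((sc d.τ ρ hρ).dm d d.τ) ((sc d.τ ρ hρ).pull u) σ t := fun t ht =>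
      (hsup ((sc d.τ ρ hρ).dm d d.τ) _ _ t rfl ⟨hN'.gs, hN'.tI ht, hN'.bO⟩ (hNS'.en t ht) ((hE'.1 t ht).trans hη)).1
    have hI : ∫ t in (-1 : ℝ)..0, Wq ((sc d.τ ρ hρ).dm d d.τ) ((sc d.τ ρ hρ).pull u) 1 t ≤
        ρ ^ 2 * ε ^ 2 := by
      have e := time_int hρ zero_le_one le_rfl
        fun t ht => (key h4 hN.toN0 hρ hρ1 zero_le_one le_rfl ht).1
      rw [one_pow, mul_one] at e
      rw [e, ← mul_inv, ← pow_add, inv_mul_le_iff₀ (by positivity), ← mul_assoc, ← pow_add]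
      exact hW ρ hn hρ1
    have hAn := (an_le h1 hN').trans hE'.2
    obtain ⟨c1, c2⟩ := hcac ((sc d.τ ρ hρ).dm d d.τ) _ _ ((A * ρ * ε) ^ 2)
      (A ^ 2 * ρ ^ 2 * ε ^ 2 / 1024) rfl hN' hS
      hE'.1 (by
        have b1 := mul_le_mul_of_nonneg_left hI hC
        have b2 : 2048 * C * (ρ ^ 2 * ε ^ 2) ≤ A ^ 2 * (ρ ^ 2 * ε ^ 2) :=
          mul_le_mul_of_nonneg_right hA2 (by positivity)
        refine (add_le_add b1 (mul_le_mul_of_nonneg_left (add_le_add le_rfl hAn)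
          (by norm_num))).trans ?_
        nlinarith)
    have fin : ρ ^ (aa d + 4) * (A ^ 2 * ρ ^ 2 * ε ^ 2 / 1024) ≤
        (ρ * (1 / 2)) ^ (aa d + 4) * (A * (ρ * (1 / 2)) * ε) ^ 2 := by
      have b1 : ((1 : ℝ) / 2) ^ 8 ≤ (1 / 2) ^ (aa d + 4) :=
        pow_le_pow_of_le_one (by norm_num) (by norm_num) (by have := aa_le d; omega)
      have b2 : 0 ≤ ρ ^ (aa d + 4) * (A ^ 2 * ρ ^ 2 * ε ^ 2 / 4) := by positivity
      have b3 := mul_le_mul_of_nonneg_left b1 b2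
      rw [mul_pow ρ]
      nlinarith
    have h0 : 0 < ρ ^ 4 := by positivity
    refine ⟨fun t ht => le_trans ?_ fin, le_trans ?_ fin⟩
    · have ht' : t / ρ ^ 4 ∈ Icc (-1 / 16 : ℝ) 0 := by
        refine ⟨?_, div_nonpos_of_nonpos_of_nonneg ht.2 h0.le⟩
        rw [le_div_iff₀ h0]
        have := ht.1
        rw [mul_pow] at this
        linarith
      have e := (key h4 hN.toN0 hρ hρ1 (s := 1 / 2) (by norm_num) (by norm_num)
        ⟨by linarith [ht'.1], ht'.2⟩).1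
      rw [mul_div_cancel₀ _ h0.ne'] at e
      have b := c1 _ ht'
      rw [← inv_mul_le_iff₀ (by positivity), ← e]
      exact b
    · have e := time_int hρ (s := 1 / 2) (by norm_num) (by norm_num)
        fun t ht => (key h4 hN.toN0 hρ hρ1 (s := 1 / 2) (by norm_num) (by norm_num) ht).2
      rw [← mul_inv, ← pow_add, show -((1 : ℝ) / 2) ^ 4 = -1 / 16 by norm_num] at e
      rw [← inv_mul_le_iff₀ (by positivity), ← e]
      exact c2
  have ind : ∀ k ≤ n, PP d u ((1 / 2) ^ k) (A * (1 / 2) ^ k * ε) := by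
    intro k
    induction k with
    | zero =>
      intro _
      have e : ε ^ 2 ≤ (A * ε) ^ 2 := pow_le_pow_left₀ hε.le (by nlinarith) 2
      simp only [PP, pow_zero, one_pow, mul_one, one_mul]
      exact ⟨fun t ht => (hE.1 t ht).trans e, hE.2.trans e⟩
    | succ k ih =>
      intro hk
      rw [pow_succ]
      exact step _ (pow_le_pow_of_le_one (by norm_num) (by norm_num) (by omega))
        (pow_le_one₀ (by norm_num) (by norm_num)) (ih (by omega))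
  exact exc_of h4 hN.toN0 (by positivity) (pow_le_one₀ (by norm_num) (by norm_num))
    (ind n le_rfl)

theorem decay_ok (h5 : StFG) (h6 : StRenorm) (h7 : StDyad) : StDecay := by
  have h4 : StResc := resc_ok api_ok alg_ok fc_ok fi_ok h5
  intro τ Λ
  obtain ⟨C1, hC1, hren⟩ := h6 τ Λ
  obtain ⟨C2, hC2, hdy⟩ := h7 τ Λ
  obtain ⟨n, hn⟩ := exists_pow_lt_of_lt_one (x := 1 / (2 * C1 * C2)) (y := (1 : ℝ) / 2)
    (by positivity) (by norm_num)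
  have hρ : (0 : ℝ) < (1 / 2) ^ n := by positivity
  have hρ1 : ((1 : ℝ) / 2) ^ n ≤ 1 := pow_le_one₀ (by norm_num) (by norm_num)
  obtain ⟨ε1, hε1, hren⟩ := hren _ hρ
  obtain ⟨ε2, hε2, hdy⟩ := hdy n
  refine ⟨1 / 32 * (1 / 2) ^ n, C1, min ε1 (ε2 / C1), by positivity, by linarith, hC1,
    by positivity, fun d u F ε hτ hN hε hεle hE => ?_⟩
  subst hτ
  obtain ⟨fr, hP, hN', hE', hW⟩ := hren d u F ε rfl hN hε (hεle.trans (min_le_left _ _)) hE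
  have hle : C1 * ε ≤ ε2 := by
    have := hεle.trans (min_le_right _ _)
    rwa [le_div_iff₀ (by positivity), mul_comm] at this
  have hE2 := hdy (fr.dm d d.τ) _ _ (C1 * ε) rfl hN' (by positivity) hle hE' fun r hr hr1 => by
    refine (hW r hr hr1).trans ?_
    have b : 0 ≤ r ^ (wt d.τ.1 + wt d.τ.2 + 10) * ε ^ 2 := by
      have := hρ.le.trans hr
      positivity
    have b2 : C1 ≤ C1 ^ 2 := by nlinarith
    nlinarith
  obtain ⟨hcp, -, hNS, -⟩ := h4 (fr.dm d d.τ) _ _ _ hρ 0 0 0 0 0 hρ1 le_rfl (hyp hρ hρ1)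
    (hp1 _ hρ1) (hp2 _ hρ1) hN'.toN0
  obtain ⟨hcp', hO, hI⟩ := h5.2.1 fr (sc d.τ _ hρ) d d.τ d.τ hP.cp hcp
  have e : (fr.comp (sc d.τ _ hρ)).dm d d.τ = (sc d.τ _ hρ).dm (fr.dm d d.τ) d.τ :=
    dm_ext rfl hI hO
  refine ⟨fr.comp (sc d.τ _ hρ), pert_comp hP hρ hρ1 hcp', ?_, ?_⟩
  · rw [e, Fr.comp_pull, Fr.comp_pullF]
    exact hNS Λ hN'
  · rw [e, Fr.comp_pull]
    refine Exc.mono hE2 (by positivity) ?_
    rw [lt_div_iff₀ (by positivity)] at hn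
    nlinarith

end Pool.Agent.P.MP_2cea5e_gt.I
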