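import Pool.Agent.P.MP_2cea5e_gt.I.St5

/-!
Chapter I: the curvature energy does not increase.
-/

open scoped ContDiff Topology
open MeasureTheory Set Filter

noncomputable section

set_option linter.dupNamespace false

namespace Pool.Agent.P.MP_2cea5e_gt.I

namespace Ener

variable {U : Set X} {f g u v : X → ℝ} {H G : T2} {t : ℝ} {y : ℝ × ℝ}

/-- The time derivative of a field. -/
def dT (H : T2) : T2 := ⟨D e0 H.a, D e0 H.b, D e0 H.c⟩

theorem sm_dT (hU : IsOpen U) (hH : H.SmOn U) : (dT H).SmOn U :=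
  ⟨smO_D hU _ hH.1, smO_D hU _ hH.2.1, smO_D hU _ hH.2.2⟩

theorem DD_congr (hU : IsOpen U) (h : EqOn f g U) (a b : X) : EqOn (D a (D b f)) (D a (D b g)) U :=
  D_congr hU a (D_congr hU b h)

theorem i_congr (hU : IsOpen U) (h : EqOn u v U) :
    EqOn (i11 u) (i11 v) U ∧ EqOn (i12 u) (i12 v) U ∧ EqOn (i22 u) (i22 v) U := by
  have a : ∀ p ∈ U, h11 u p = h11 v p := fun p hp => DD_congr hU h _ _ hp
  have b : ∀ p ∈ U, h12 u p = h12 v p := fun p hp => DD_congr hU h _ _ hp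
  have c : ∀ p ∈ U, h22 u p = h22 v p := fun p hp => DD_congr hU h _ _ hp
  have w : ∀ p ∈ U, W u p = W v p := fun p hp => by
    change h11 u p * h22 u p - h12 u p * h12 u p = h11 v p * h22 v p - h12 v p * h12 v p
    rw [a p hp, b p hp, c p hp]
  refine ⟨fun p hp => ?_, fun p hp => ?_, fun p hp => ?_⟩
  · simp only [i11, Pi.mul_apply, Iv_apply, c p hp, w p hp]
  · simp only [i12, Pi.mul_apply, Pi.neg_apply, Iv_apply, b p hp, w p hp]
  · simp only [i22, Pi.mul_apply, Iv_apply, a p hp, w p hp]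

theorem rm_congr (hU : IsOpen U) (h : EqOn u v U) : EqOn (rm u) (rm v) U := fun p hp => by
  obtain ⟨a, b, c⟩ := i_congr hU h
  simp only [rm, T2.rr, iv2, h11, h12, h22, Pi.add_apply, Pi.mul_apply, DD_congr hU a _ _ hp,
    DD_congr hU b _ _ hp, DD_congr hU c _ _ hp]

theorem sm_iv2 (hU : IsOpen U) (hu : ContDiffOn ℝ ∞ u U) (hW : ∀ p ∈ U, W u p ≠ 0) :
    (iv2 u).SmOn U := by
  have s : ∀ a b, ContDiffOn ℝ ∞ (D a (D b u)) U := fun a b => smO_D hU _ (smO_D hU _ hu)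
  have w : ContDiffOn ℝ ∞ (Iv (W u)) U :=
    ContDiffOn.inv (f := W u) (((s e1 e1).mul (s e2 e2)).sub ((s e1 e2).mul (s e1 e2))) hW
  exact ⟨(s e2 e2).mul w, ((s e1 e2).mul w).neg, (s e1 e1).mul w⟩

theorem DD_t (hU : IsOpen U) (hf : ContDiffOn ℝ ∞ f U) (hp : (t, y) ∈ U) (a b : X) :
    HasDerivAt (fun s => D a (D b f) (s, y)) (D a (D b (D e0 f)) (t, y)) t := by
  have s1 := smO_D hU b hf
  have e : D e0 (D a (D b f)) (t, y) = D a (D b (D e0 f)) (t, y) := by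
    rw [D_comm_on hU s1 e0 a hp]
    exact D_congr hU a (fun p hp => D_comm_on hU hf e0 b hp) hp
  rw [← e]
  exact hasDerivAt_t (diffAt hU (smO_D hU a s1) hp)

theorem rr_t (hU : IsOpen U) (hH : H.SmOn U) (hp : (t, y) ∈ U) :
    HasDerivAt (fun s => H.rr H (s, y)) (2 * (dT H).rr H (t, y)) t := by
  have a := DD_t hU hH.1 hp
  have b := DD_t hU hH.2.1 hp
  have c := DD_t hU hH.2.2 hp
  have := (((((((a e1 e1).mul (a e1 e1)).add ((c e2 e2).mul (c e2 e2))).add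
    ((a e2 e2).mul (c e1 e1))).add ((c e1 e1).mul (a e2 e2))).add
    (((b e1 e2).const_mul 4).mul (b e1 e2))).add
    ((((a e1 e2).mul (b e1 e1)).add ((b e1 e1).mul (a e1 e2))).const_mul 2)).add
    ((((c e1 e2).mul (b e2 e2)).add ((b e2 e2).mul (c e1 e2))).const_mul 2)
  refine HasDerivAt.congr_deriv (f' := _) this ?_
  simp only [T2.rr, dT, h11, h12, h22, Pi.add_apply, Pi.mul_apply, K_apply]
  ring

theorem dd_t (hU : IsOpen U) (hH : H.SmOn U) (hp : (t, y) ∈ U) :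
    HasDerivAt (fun s => H.dd (s, y)) ((dT H).dd (t, y)) t :=
  ((DD_t hU hH.1 hp e1 e1).add ((DD_t hU hH.2.1 hp e1 e2).const_mul 2)).add
    (DD_t hU hH.2.2 hp e2 e2)

theorem ap_t (hU : IsOpen U) (hH : H.SmOn U) (hp : (t, y) ∈ U) (n n' : ℝ × ℝ) :
    HasDerivAt (fun s => H.ap n n' (s, y)) ((dT H).ap n n' (t, y)) t :=
  ((((hasDerivAt_t (diffAt hU hH.1 hp)).mul_const n.1).mul_const n'.1).add
    ((hasDerivAt_t (diffAt hU hH.2.1 hp)).mul_const _)).add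
    (((hasDerivAt_t (diffAt hU hH.2.2 hp)).mul_const n.2).mul_const n'.2)

theorem ev_U (hU : IsOpen U) (hp : (t, y) ∈ U) : ∀ᶠ s in 𝓝 t, (s, y) ∈ U :=
  (continuous_id.prodMk continuous_const).continuousAt.preimage_mem_nhds (hU.mem_nhds hp)

theorem nt_t {d : Dm} {k : X → ℝ} {α β c : ℝ} (hk : Bd d k) (hp : (t, y) ∈ d.U)
    (e : ∀ s, (s, y) ∈ d.U → f (s, y) = α + β * k (s, y))
    (hf : HasDerivAt (fun s => f (s, y)) c t) : c = β * D e0 k (t, y) :=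
  hf.unique ((((hasDerivAt_t (hk.diffAt hp)).const_mul β).const_add α).congr_of_eventuallyEq
    ((ev_U d.isOpen_U hp).mono e))

end Ener

open Ener in
theorem ener_ok (h0 : StApi) (h1 : StFC) (h2 : StCurv) (h3 : StGB) (h4 : StGI) (h5 : StSoft) :
    StEner := by
  intro ι d u d' u' fr G hI
  have A := h0 d u G.gs
  have A' := fun σ => h0 _ _ (G.gs' σ)
  obtain ⟨B1, B2⟩ := h3 ι d u d' u' fr G
  have hU := d.isOpen_U
  have hW : ∀ p ∈ d.U, W u p ≠ 0 := fun p hp => (A.pW p hp).ne'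
  have hH := sm_iv2 hU A.sm hW
  have mU : ∀ σ, ∀ q ∈ (d' σ).U, (fr σ).fm q ∈ d.U := fun σ q hq => by
    rwa [(B1 σ).1] at hq
  have FC := fun σ q hq => ((h1 (fr σ) d.U hU).2.2 u A.sm hW).2 q (mU σ q hq)
  have b1 : ∀ σ, Bd (d' σ) (rm u ∘ (fr σ).fm) := fun σ =>
    (h2 _ _ (G.gs' σ)).2.1.congr fun q hq => by
      rw [rm_congr (d' σ).isOpen_U (G.eq σ) hq, (FC σ q hq).2.2.2.2.2.2.2, G.ρ, one_pow, one_mul]
      rfl
  have b2 : ∀ σ, Bd (d' σ) (D e0 u ∘ (fr σ).fm) := fun σ =>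
    (A' σ).bt.congr fun q hq => by
      rw [D_congr (d' σ).isOpen_U e0 (G.eq σ) hq, (FC σ q hq).1, G.ρ, one_pow, one_mul]
      rfl
  have s1 := (h2 d u G.gs).2.1.sm
  have s2 : ContDiffOn ℝ ∞ (D e0 u * D e0 u) d.U := A.bt.sm.mul A.bt.sm
  have nt : ∀ σ, ∃ k₁ k₂ k₃, NT (d' σ) ((fr σ).pullT (dT (iv2 u))) k₁ k₂ k₃ := by
    intro σ
    obtain ⟨k₁, k₂, k₃, c1, c2, c3, n1, n2, n3⟩ := (A' σ).nt
    obtain ⟨i1, i2, i3⟩ := i_congr (d' σ).isOpen_U (G.eq σ)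
    have ap : ∀ t y, (t, y) ∈ (d' σ).U → ∀ (c : ℝ) n n',
        HasDerivAt (fun s => c * (iv2 u).ap n n' ((fr σ).fm (s, y)))
          (c * (dT (iv2 u)).ap n n' ((fr σ).fm (t, y))) t := fun t y hq c n n' => by
      have hq' := mU σ _ hq
      simp only [(B1 σ).2.2] at hq' ⊢
      exact (ap_t hU hH hq' n n').const_mul c
    refine ⟨D e0 k₁, D e0 k₂, D e0 k₃, c1.D e0, c2.D e0, c3.D e0, ?_, ?_, ?_⟩
    · rintro ⟨t, y⟩ hq
      refine nt_t (f := ((fr σ).pullT (iv2 u)).a) (α := o1 (d' σ).τ (t, y)) c1 hq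
        (fun s hs => ?_) (ap t y hq _ _ _)
      rw [← (FC σ _ hs).2.2.2.2.1.1, ← i1 hs]
      exact sub_eq_iff_eq_add'.1 (n1 hs)
    · rintro ⟨t, y⟩ hq
      refine nt_t (f := ((fr σ).pullT (iv2 u)).b) (α := 0) c2 hq
        (fun s hs => ?_) (ap t y hq _ _ _)
      rw [← (FC σ _ hs).2.2.2.2.1.2.1, ← i2 hs, zero_add]
      exact n2 hs
    · rintro ⟨t, y⟩ hq
      refine nt_t (f := ((fr σ).pullT (iv2 u)).c) (α := o2 (d' σ).τ (t, y)) c3 hq
        (fun s hs => ?_) (ap t y hq _ _ _)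
      rw [← (FC σ _ hs).2.2.2.2.1.2.2, ← i3 hs]
      exact sub_eq_iff_eq_add'.1 (n3 hs)
  have der : ∀ t ∈ d.I, HasDerivAt (fun s => (∫ y in d.S, rm u (s, y)) -
      ∫ y in d.S, D e0 u (s, y) ^ 2) 0 t := by
    intro t ht
    have d1 := (B2 (rm u)).2.2 s1 b1 t ht
    have d2 := (B2 (D e0 u * D e0 u)).2.2 s2 (fun σ => (b2 σ).mul (b2 σ)) t ht
    have gi := (h4 ι d u d' u' fr G _ (sm_dT hU hH) nt t ht).2
    have e1 : ∫ y in d.S, D e0 (rm u) (t, y) =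
        ∫ y in d.S, 2 * (dT (iv2 u)).rr (iv2 u) (t, y) :=
      setIntegral_congr_fun d.isOpen_S.measurableSet fun y hy =>
        (hasDerivAt_t (diffAt hU s1 ⟨ht, hy⟩)).unique (rr_t hU hH ⟨ht, hy⟩)
    have e2 : ∫ y in d.S, D e0 (D e0 u * D e0 u) (t, y) =
        ∫ y in d.S, 2 * ((dT (iv2 u)).dd * ab u) (t, y) :=
      setIntegral_congr_fun d.isOpen_S.measurableSet fun y hy => by
        have hp : (t, y) ∈ d.U := ⟨ht, hy⟩
        have e3 : D e0 (D e0 u) (t, y) = (dT (iv2 u)).dd (t, y) :=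
          (hasDerivAt_t (A.bt.diffAt hp)).unique ((dd_t hU hH hp).congr_of_eventuallyEq
            ((ev_U hU hp).mono fun s hs => G.gs.eqn _ hs))
        simp only [D_mul_at e0 (A.bt.diffAt hp) (A.bt.diffAt hp), e3, G.gs.eqn _ hp, Pi.mul_apply]
        ring
    rw [e1, integral_const_mul, gi] at d1
    rw [e2, integral_const_mul] at d2
    have := d1.sub d2
    rw [sub_self] at this
    simp only [sq]
    exact this
  refine ⟨((B2 (rm u)).2.1 s1.continuousOn fun σ => (b1 σ).bd0).1, ?_⟩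
  have an := antitoneOn_of_deriv_nonpos hI.convex
    (fun t ht => (der t ht).continuousAt.continuousWithinAt)
    (fun t ht => (der t (interior_subset ht)).differentiableAt.differentiableWithinAt)
    (fun t ht => (der t (interior_subset ht)).deriv.le)
  intro s hs t ht hst
  have k1 := an hs ht hst
  have k2 := (h5 ι d u d' u' fr G hI).1 hs ht hst
  dsimp only at k1 k2 ⊢
  linarith

end Pool.Agent.P.MP_2cea5e_gt.I
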