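import Pool.Agent.P.MP_2cea5e_gt.I.St2

/-!
Chapter I: smooth even functions are smooth functions of the squares.
-/

open scoped ContDiff Topology
open MeasureTheory Set Filter

noncomputable section

set_option linter.dupNamespace false

namespace Pool.Agent.P.MP_2cea5e_gt.I

namespace Even

/-- Smooth dependence of an integral on parameters. -/
theorem sm_int_nat (n : ℕ) : ∀ (F : Type) [NormedAddCommGroup F] [NormedSpace ℝ F]
    [CompleteSpace F] (G : X × ℝ → F), ContDiff ℝ ∞ G →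
    ContDiff ℝ n fun p : X => ∫ s in (0 : ℝ)..1, G (p, s) := by
  induction n with
  | zero =>
    intro F _ _ _ G hG
    rw [Nat.cast_zero, contDiff_zero]
    exact intervalIntegral.continuous_parametric_intervalIntegral_of_continuous'
      (f := fun p s => G (p, s)) hG.continuous 0 1
  | succ n ih =>
    intro F _ _ _ G hG
    set G' : X × ℝ → (X →L[ℝ] F) := fun q => (fderiv ℝ G q).comp (ContinuousLinearMap.inl ℝ X ℝ)
      with hG'
    have sG' : ContDiff ℝ ∞ G' :=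
      (hG.fderiv_right (m := ∞) (by simp)).clm_comp contDiff_const
    have hd : ∀ p₀ : X, HasFDerivAt (fun p : X => ∫ s in (0 : ℝ)..1, G (p, s))
        (∫ s in (0 : ℝ)..1, G' (p₀, s)) p₀ := by
      intro p₀
      obtain ⟨C, hC⟩ := ((isCompact_closedBall p₀ 1).prod
        (isCompact_uIcc (a := (0 : ℝ)) (b := 1))).exists_bound_of_continuousOn
        sG'.continuous.continuousOn
      have c1 : ∀ p : X, Continuous fun s : ℝ => G (p, s) := fun p =>
        hG.continuous.comp (continuous_const.prodMk continuous_id)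
      refine intervalIntegral.hasFDerivAt_integral_of_dominated_of_fderiv_le (μ := volume)
        (F := fun p s => G (p, s)) (F' := fun p s => G' (p, s)) (bound := fun _ => C)
        (Metric.closedBall_mem_nhds p₀ one_pos)
        (Eventually.of_forall fun p => (c1 p).aestronglyMeasurable)
        ((c1 p₀).intervalIntegrable _ _)
        (sG'.continuous.comp (continuous_const.prodMk continuous_id)).aestronglyMeasurable
        (Eventually.of_forall fun s hs p hp => hC (p, s) ⟨hp, uIoc_subset_uIcc hs⟩)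
        intervalIntegrable_const (Eventually.of_forall fun s _ p _ => ?_)
      exact ((hG.differentiable (by simp)) (p, s)).hasFDerivAt.comp p (hasFDerivAt_prodMk_left p s)
    rw [Nat.cast_succ, contDiff_succ_iff_hasFDerivAt]
    exact ⟨fun p => ∫ s in (0 : ℝ)..1, G' (p, s), ih _ G' sG', hd⟩

theorem sm_int {G : X × ℝ → ℝ} (hG : ContDiff ℝ ∞ G) :
    ContDiff ℝ ∞ fun p : X => ∫ s in (0 : ℝ)..1, G (p, s) :=
  contDiff_infty.2 fun n => sm_int_nat n ℝ G hG

/-- Division by a linear form, global version. -/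
theorem had_glob {φ : X → ℝ} (hφ : ContDiff ℝ ∞ φ) (l : X →L[ℝ] ℝ) {e : X} (he : l e = 1)
    (h0 : ∀ p, l p = 0 → φ p = 0) : ∃ G : X → ℝ, ContDiff ℝ ∞ G ∧
      ∀ p, φ p = l p * G p ∧ (l p = 0 → G p = D e φ p) := by
  refine ⟨fun p => ∫ s in (0 : ℝ)..1, D e φ (p - l p • e + s • l p • e), ?_, fun p => ⟨?_, ?_⟩⟩
  · refine sm_int (G := fun q => D e φ (q.1 - l q.1 • e + q.2 • l q.1 • e)) ?_
    have : ContDiff ℝ ∞ fun q : X × ℝ => l q.1 := l.contDiff.comp contDiff_fst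
    exact (sm_D e hφ).comp ((contDiff_fst.sub (this.smul contDiff_const)).add
      (contDiff_snd.smul (this.smul contDiff_const)))
  · have hd : ∀ s : ℝ, HasDerivAt (fun s : ℝ => φ (p - l p • e + s • l p • e))
        (l p * D e φ (p - l p • e + s • l p • e)) s := fun s => by
      have := hasDerivAt_ln (f := φ) (l p • e) (p - l p • e) (x := s)
        (hφ.differentiable (by simp) _)
      refine this.congr_deriv ?_
      simp only [D, map_smul, smul_eq_mul]
    have hc : Continuous fun s : ℝ => l p * D e φ (p - l p • e + s • l p • e) :=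
      continuous_const.mul ((sm_D e hφ).continuous.comp (by fun_prop))
    have := intervalIntegral.integral_eq_sub_of_hasDerivAt (a := 0) (b := 1) (fun s _ => hd s)
      (hc.intervalIntegrable _ _)
    rw [intervalIntegral.integral_const_mul] at this
    rw [this, one_smul, sub_add_cancel, zero_smul, add_zero, h0 (p - l p • e) (by simp [he]),
      sub_zero]
  · intro hp
    simp [hp]

/-- Division by a linear form. -/
theorem had {V : Set X} (hV : IsOpen V) {φ : X → ℝ} (hφ : ContDiffOn ℝ ∞ φ V) (l : X →L[ℝ] ℝ)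
    {e : X} (he : l e = 1) (h0 : ∀ p ∈ V, l p = 0 → φ p = 0) : ∃ G : X → ℝ,
      ContDiffOn ℝ ∞ G V ∧ ∀ p ∈ V, φ p = l p * G p ∧ (l p = 0 → G p = D e φ p) := by
  classical
  refine ⟨fun p => if l p = 0 then D e φ p else φ p / l p, fun p₀ hp₀ => ?_, fun p hp => ⟨?_, ?_⟩⟩
  · apply ContDiffAt.contDiffWithinAt
    by_cases hl : l p₀ = 0
    · obtain ⟨r, hr, hb⟩ := Metric.isOpen_iff.1 hV p₀ hp₀
      let χ : ContDiffBump p₀ := ⟨r / 4, r / 2, by positivity, by linarith⟩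
      have hs : ContDiff ℝ ∞ fun p => χ p * φ p := by
        rw [contDiff_iff_contDiffAt]
        intro p
        by_cases hp : p ∈ Metric.ball p₀ r
        · exact χ.contDiff.contDiffAt.mul (hφ.contDiffAt (hV.mem_nhds (hb hp)))
        · have h1 : (Metric.closedBall p₀ (r / 2))ᶜ ∈ 𝓝 p :=
            Metric.isClosed_closedBall.isOpen_compl.mem_nhds fun h =>
              hp (Metric.closedBall_subset_ball (by linarith) h)
          refine (contDiffAt_const (c := (0 : ℝ))).congr_of_eventuallyEq ?_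
          filter_upwards [h1] with q hq
          have : χ q = 0 := χ.zero_of_le_dist
            (not_le.1 fun h => hq (Metric.mem_closedBall.2 h)).le
          rw [this, zero_mul]
      obtain ⟨G, sG, hG⟩ := had_glob hs l he fun p hp => by
        by_cases h : p ∈ Metric.ball p₀ r
        · rw [h0 p (hb h) hp, mul_zero]
        · have : χ p = 0 := χ.zero_of_le_dist (by
            have := not_lt.1 fun h' => h (Metric.mem_ball.2 h')
            show r / 2 ≤ _
            linarith)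
          rw [this, zero_mul]
      have he1 : EqOn (fun p => χ p * φ p) φ (Metric.ball p₀ (r / 4)) := fun p hp => by
        have : χ p = 1 := χ.one_of_mem_closedBall (Metric.ball_subset_closedBall hp)
        simp only [this, one_mul]
      refine sG.contDiffAt.congr_of_eventuallyEq ?_
      filter_upwards [Metric.ball_mem_nhds p₀ (by positivity : 0 < r / 4)] with q hq
      split_ifs with h
      · rw [(hG q).2 h, D_congr Metric.isOpen_ball e he1 hq]
      · rw [← show χ q * φ q = φ q from he1 hq, (hG q).1, mul_div_cancel_left₀ _ h]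
    · have h1 : {p | l p ≠ 0} ∈ 𝓝 p₀ := (isOpen_ne_fun l.continuous continuous_const).mem_nhds hl
      refine ((hφ.contDiffAt (hV.mem_nhds hp₀)).div l.contDiff.contDiffAt hl).congr_of_eventuallyEq
        ?_
      filter_upwards [h1] with q hq
      exact if_neg hq
  · by_cases h : l p = 0
    · rw [h0 p hp h, h, zero_mul]
    · simp only [if_neg h]
      rw [mul_div_cancel₀ _ h]
  · intro h
    exact if_pos h

/-- Reflection in the first space coordinate. -/
def s1 : X →L[ℝ] X := (ContinuousLinearMap.id ℝ ℝ).prodMap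
  ((-ContinuousLinearMap.id ℝ ℝ).prodMap (ContinuousLinearMap.id ℝ ℝ))
/-- Reflection in the second space coordinate. -/
def s2 : X →L[ℝ] X := (ContinuousLinearMap.id ℝ ℝ).prodMap
  ((ContinuousLinearMap.id ℝ ℝ).prodMap (-ContinuousLinearMap.id ℝ ℝ))
/-- The first space coordinate. -/
def l1 : X →L[ℝ] ℝ := (ContinuousLinearMap.fst ℝ ℝ ℝ).comp (ContinuousLinearMap.snd ℝ ℝ (ℝ × ℝ))
/-- The second space coordinate. -/
def l2 : X →L[ℝ] ℝ := (ContinuousLinearMap.snd ℝ ℝ ℝ).comp (ContinuousLinearMap.snd ℝ ℝ (ℝ × ℝ))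

theorem s1_apply (p : X) : s1 p = (p.1, -p.2.1, p.2.2) := rfl
theorem s2_apply (p : X) : s2 p = (p.1, p.2.1, -p.2.2) := rfl
theorem l1_apply (p : X) : l1 p = p.2.1 := rfl
theorem l2_apply (p : X) : l2 p = p.2.2 := rfl

variable {V : Set X} {g : X → ℝ}

theorem D_refl (hV : IsOpen V) (σ : X →L[ℝ] X) (hσ : ∀ p ∈ V, σ p ∈ V) (hg : ContDiffOn ℝ ∞ g V)
    (he : ∀ p ∈ V, g (σ p) = g p) (v : X) {p : X} (hp : p ∈ V) : D v g p = D (σ v) g (σ p) := by
  have h1 : EqOn g (g ∘ σ) V := fun q hq => (he q hq).symm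
  rw [D_congr hV v h1 hp]
  have := ((diffAt hV hg (hσ p hp)).hasFDerivAt.comp p σ.hasFDerivAt).fderiv
  simp only [D, this, ContinuousLinearMap.comp_apply]

theorem D_even (hV : IsOpen V) (σ : X →L[ℝ] X) (hσ : ∀ p ∈ V, σ p ∈ V) (hg : ContDiffOn ℝ ∞ g V)
    (he : ∀ p ∈ V, g (σ p) = g p) {v : X} (hv : σ v = v) : ∀ p ∈ V, D v g (σ p) = D v g p :=
  fun p hp => by rw [D_refl hV σ hσ hg he v hp, hv]

theorem D_odd (hV : IsOpen V) (σ : X →L[ℝ] X) (hσ : ∀ p ∈ V, σ p ∈ V) (hg : ContDiffOn ℝ ∞ g V)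
    (he : ∀ p ∈ V, g (σ p) = g p) {v : X} (hv : σ v = -v) : ∀ p ∈ V, D v g (σ p) = -D v g p :=
  fun p hp => by
    rw [D_refl hV σ hσ hg he v hp, hv]
    simp only [D, map_neg, neg_neg]

/-- The quotient of the derivative of an even function. -/
theorem quot (hV : IsOpen V) (σ : X →L[ℝ] X) (l : X →L[ℝ] ℝ) {e : X} (he : l e = 1)
    (hσe : σ e = -e) (hfix : ∀ p, l p = 0 → σ p = p) (hσ : ∀ p ∈ V, σ p ∈ V)
    (hg : ContDiffOn ℝ ∞ g V) (hev : ∀ p ∈ V, g (σ p) = g p) : ∃ G : X → ℝ,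
      ContDiffOn ℝ ∞ G V ∧ ∀ p ∈ V, D e g p = l p * G p ∧ (l p = 0 → G p = D e (D e g) p) := by
  refine had hV (smO_D hV e hg) l he fun p hp h0 => ?_
  have := D_odd hV σ hσ hg hev hσe p hp
  rw [hfix p h0] at this
  linarith

/-- The quotient is even. -/
theorem quot_even (hV : IsOpen V) (σ σ' : X →L[ℝ] X) (l : X →L[ℝ] ℝ) {e : X}
    (hσe : σ e = -e) (hfix : ∀ p, l p = 0 → σ p = p) (hl : ∀ p, l (σ p) = -l p)
    (hσ : ∀ p ∈ V, σ p ∈ V) (hg : ContDiffOn ℝ ∞ g V) (hev : ∀ p ∈ V, g (σ p) = g p) {G : X → ℝ}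
    (hG : ∀ p ∈ V, D e g p = l p * G p ∧ (l p = 0 → G p = D e (D e g) p)) :
    (∀ p ∈ V, G (σ p) = G p) ∧ (σ' e = e → (∀ p, l (σ' p) = l p) → (∀ p ∈ V, σ' p ∈ V) →
      (∀ p ∈ V, g (σ' p) = g p) → ∀ p ∈ V, G (σ' p) = G p) := by
  refine ⟨fun p hp => ?_, fun h1 h2 h3 h4 p hp => ?_⟩
  · by_cases h : l p = 0
    · rw [hfix p h]
    · have e1 := D_odd hV σ hσ hg hev hσe p hp
      rw [(hG p hp).1, (hG _ (hσ p hp)).1, hl, neg_mul, neg_inj] at e1
      exact mul_left_cancel₀ h e1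
  · have e1 := D_even hV σ' h3 hg h4 h1
    by_cases h : l p = 0
    · rw [(hG p hp).2 h, (hG _ (h3 p hp)).2 ((h2 p).trans h)]
      exact D_even hV σ' h3 (smO_D hV e hg) e1 h1 p hp
    · have e2 := e1 p hp
      rw [(hG p hp).1, (hG _ (h3 p hp)).1, h2] at e2
      exact mul_left_cancel₀ h e2

theorem s1_e0 : s1 e0 = e0 := by simp [s1_apply, e0]
theorem s1_e1 : s1 e1 = -e1 := by simp [s1_apply, e1]
theorem s1_e2 : s1 e2 = e2 := by simp [s1_apply, e2]
theorem s2_e0 : s2 e0 = e0 := by simp [s2_apply, e0]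
theorem s2_e1 : s2 e1 = e1 := by simp [s2_apply, e1]
theorem s2_e2 : s2 e2 = -e2 := by simp [s2_apply, e2]
theorem s1_fix (p : X) (h : l1 p = 0) : s1 p = p := by
  rw [l1_apply] at h
  rw [s1_apply, h, neg_zero, ← h]
theorem s2_fix (p : X) (h : l2 p = 0) : s2 p = p := by
  rw [l2_apply] at h
  rw [s2_apply, h, neg_zero, ← h]

/-- The domain in the square root coordinates. -/
def VV (d : Dm) : Set X := sq2 d.τ ⁻¹' (d.I ×ˢ d.O)

theorem cont_sq2 (τ : Ty) : Continuous (sq2 τ) := by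
  obtain ⟨a, b⟩ := τ
  unfold sq2
  cases a <;> cases b <;> simp only [Bool.false_eq_true, if_true, if_false] <;> fun_prop

theorem cont_rt2 (τ : Ty) : Continuous (rt2 τ) := by
  obtain ⟨a, b⟩ := τ
  unfold rt2
  cases a <;> cases b <;> simp only [Bool.false_eq_true, if_true, if_false] <;> fun_prop

theorem isOpen_VV (d : Dm) : IsOpen (VV d) := (d.oI.prod d.oO).preimage (cont_sq2 _)

theorem VV_s1 (d : Dm) (h : d.τ.1 = true) : ∀ p ∈ VV d, s1 p ∈ VV d := fun p hp => by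
  have : sq2 d.τ (s1 p) = sq2 d.τ p := by simp [sq2, s1_apply, h]
  show sq2 d.τ (s1 p) ∈ d.I ×ˢ d.O
  rw [this]
  exact hp

theorem VV_s2 (d : Dm) (h : d.τ.2 = true) : ∀ p ∈ VV d, s2 p ∈ VV d := fun p hp => by
  have : sq2 d.τ (s2 p) = sq2 d.τ p := by simp [sq2, s2_apply, h]
  show sq2 d.τ (s2 p) ∈ d.I ×ˢ d.O
  rw [this]
  exact hp

theorem sq_rt {b : Bool} {x : ℝ} (h : x ∈ okc b) :
    (if b then (if b then √x else x) ^ 2 else if b then √x else x) = x := by
  cases b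
  · simp
  · simpa using Real.sq_sqrt (by simpa [okc] using h)

theorem rt2_mem (d : Dm) {p : X} (hp : p ∈ d.Uc) : rt2 d.τ p ∈ VV d := by
  have : sq2 d.τ (rt2 d.τ p) = p := by
    simp only [sq2, rt2]
    rw [sq_rt hp.2.2.1, sq_rt hp.2.2.2]
  show sq2 d.τ (rt2 d.τ p) ∈ d.I ×ˢ d.O
  rw [this]
  exact ⟨hp.1, hp.2.1⟩

theorem rt_contDiffAt {b : Bool} {x : ℝ} (h : x ∈ ok b) :
    ContDiffAt ℝ ∞ (fun x : ℝ => if b then √x else x) x := by
  cases b
  · exact contDiffAt_id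
  · exact Real.contDiffAt_sqrt (ne_of_gt (by simpa [ok] using h))

theorem rt_deriv {b : Bool} {x : ℝ} (h : x ∈ ok b) :
    HasDerivAt (fun x : ℝ => if b then √x else x) (if b then 1 / (2 * √x) else 1) x := by
  cases b
  · exact hasDerivAt_id x
  · exact Real.hasDerivAt_sqrt (ne_of_gt (by simpa [ok] using h))

theorem sm_rt2 (d : Dm) : ContDiffOn ℝ ∞ (rt2 d.τ) d.U := fun p hp =>
  (contDiffAt_fst.prodMk (((rt_contDiffAt hp.2.2.1).comp p (f := fun q : X => q.2.1)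
    (contDiffAt_fst.comp p contDiffAt_snd)).prodMk ((rt_contDiffAt hp.2.2.2).comp p
    (f := fun q : X => q.2.2) (contDiffAt_snd.comp p contDiffAt_snd)))).contDiffWithinAt

theorem D_rt2 (d : Dm) (hg : ContDiffOn ℝ ∞ g (VV d)) (v : X) {p : X} (hp : p ∈ d.U) :
    D v (g ∘ rt2 d.τ) p = v.1 * D e0 g (rt2 d.τ p) +
      v.2.1 * ((if d.τ.1 then 1 / (2 * √p.2.1) else 1) * D e1 g (rt2 d.τ p)) +
      v.2.2 * ((if d.τ.2 then 1 / (2 * √p.2.2) else 1) * D e2 g (rt2 d.τ p)) := by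
  have h1 := (rt_deriv hp.2.2.1).comp_hasFDerivAt p l1.hasFDerivAt
  have h2 := (rt_deriv hp.2.2.2).comp_hasFDerivAt p l2.hasFDerivAt
  have h3 : HasFDerivAt (rt2 d.τ) _ p := hasFDerivAt_fst.prodMk (h1.prodMk h2)
  have h4 := ((diffAt (isOpen_VV d) hg (rt2_mem d (d.U_subset hp))).hasFDerivAt.comp p h3).fderiv
  simp only [D, h4]
  generalize (if d.τ.1 then 1 / (2 * √p.2.1) else 1 : ℝ) = a
  generalize (if d.τ.2 then 1 / (2 * √p.2.2) else 1 : ℝ) = b
  simp only [ContinuousLinearMap.comp_apply, ← smul_eq_mul, ← map_smul, ← map_add]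
  congr 1
  ext <;> simp [e0, e1, e2, l1_apply, l2_apply, mul_comm]

/-- Smooth functions that are even in the face coordinates. -/
structure Ev (d : Dm) (g : X → ℝ) : Prop where
  sm : ContDiffOn ℝ ∞ g (VV d)
  v1 : d.τ.1 = true → ∀ p ∈ VV d, g (s1 p) = g p
  v2 : d.τ.2 = true → ∀ p ∈ VV d, g (s2 p) = g p

variable {d : Dm}

theorem Ev.d0 (h : Ev d g) : Ev d (D e0 g) :=
  ⟨smO_D (isOpen_VV d) _ h.sm,
    fun b => D_even (isOpen_VV d) s1 (VV_s1 d b) h.sm (h.v1 b) s1_e0,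
    fun b => D_even (isOpen_VV d) s2 (VV_s2 d b) h.sm (h.v2 b) s2_e0⟩

theorem Ev.d1 (h : Ev d g) : ∃ G, Ev d G ∧ ∀ p ∈ d.U, G (rt2 d.τ p) =
    (if d.τ.1 then 1 / (2 * √p.2.1) else 1) * D e1 g (rt2 d.τ p) := by
  by_cases b : d.τ.1 = true
  · obtain ⟨G, sG, hG⟩ := quot (isOpen_VV d) s1 l1 (e := e1) rfl s1_e1 s1_fix (VV_s1 d b) h.sm
      (h.v1 b)
    obtain ⟨a1, a2⟩ := quot_even (isOpen_VV d) s1 s2 l1 s1_e1 s1_fix (fun _ => rfl) (VV_s1 d b)
      h.sm (h.v1 b) hG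
    refine ⟨fun p => G p / 2, ⟨sG.div_const _, fun _ p hp => by simp only [a1 p hp],
      fun c p hp => by simp only [a2 s2_e1 (fun _ => rfl) (VV_s2 d c) (h.v2 c) p hp]⟩,
      fun p hp => ?_⟩
    have hx : 0 < p.2.1 := by simpa [ok, b] using hp.2.2.1
    have hs : √p.2.1 ≠ 0 := (Real.sqrt_pos.2 hx).ne'
    have e : l1 (rt2 d.τ p) = √p.2.1 := by simp [l1_apply, rt2, b]
    rw [(hG _ (rt2_mem d (d.U_subset hp))).1, e, if_pos b]
    field_simp
  · refine ⟨D e1 g, ⟨smO_D (isOpen_VV d) _ h.sm, fun c => absurd c b,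
      fun c => D_even (isOpen_VV d) s2 (VV_s2 d c) h.sm (h.v2 c) s2_e1⟩, fun p _ => ?_⟩
    rw [if_neg b, one_mul]

theorem Ev.d2 (h : Ev d g) : ∃ G, Ev d G ∧ ∀ p ∈ d.U, G (rt2 d.τ p) =
    (if d.τ.2 then 1 / (2 * √p.2.2) else 1) * D e2 g (rt2 d.τ p) := by
  by_cases b : d.τ.2 = true
  · obtain ⟨G, sG, hG⟩ := quot (isOpen_VV d) s2 l2 (e := e2) rfl s2_e2 s2_fix (VV_s2 d b) h.sm
      (h.v2 b)
    obtain ⟨a1, a2⟩ := quot_even (isOpen_VV d) s2 s1 l2 s2_e2 s2_fix (fun _ => rfl) (VV_s2 d b)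
      h.sm (h.v2 b) hG
    refine ⟨fun p => G p / 2, ⟨sG.div_const _,
      fun c p hp => by simp only [a2 s1_e2 (fun _ => rfl) (VV_s1 d c) (h.v1 c) p hp],
      fun _ p hp => by simp only [a1 p hp]⟩, fun p hp => ?_⟩
    have hx : 0 < p.2.2 := by simpa [ok, b] using hp.2.2.2
    have hs : √p.2.2 ≠ 0 := (Real.sqrt_pos.2 hx).ne'
    have e : l2 (rt2 d.τ p) = √p.2.2 := by simp [l2_apply, rt2, b]
    rw [(hG _ (rt2_mem d (d.U_subset hp))).1, e, if_pos b]
    field_simp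
  · refine ⟨D e2 g, ⟨smO_D (isOpen_VV d) _ h.sm,
      fun c => D_even (isOpen_VV d) s1 (VV_s1 d c) h.sm (h.v1 c) s1_e2, fun c => absurd c b⟩,
      fun p _ => ?_⟩
    rw [if_neg b, one_mul]

theorem Ev.cont (h : Ev d g) : ContinuousOn (g ∘ rt2 d.τ) d.Uc :=
  h.sm.continuousOn.comp (cont_rt2 _).continuousOn fun _ hp => rt2_mem d hp

theorem Ev.der (h : Ev d g) (v : X) : ∃ G, Ev d G ∧ EqOn (G ∘ rt2 d.τ) (D v (g ∘ rt2 d.τ)) d.U := by
  obtain ⟨G1, a1, b1⟩ := h.d1
  obtain ⟨G2, a2, b2⟩ := h.d2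
  have a0 := h.d0
  refine ⟨fun p => v.1 * D e0 g p + v.2.1 * G1 p + v.2.2 * G2 p,
    ⟨((contDiffOn_const.mul a0.sm).add (contDiffOn_const.mul a1.sm)).add
      (contDiffOn_const.mul a2.sm), fun c p hp => ?_, fun c p hp => ?_⟩, fun p hp => ?_⟩
  · simp only [a0.v1 c p hp, a1.v1 c p hp, a2.v1 c p hp]
  · simp only [a0.v2 c p hp, a1.v2 c p hp, a2.v2 c p hp]
  · rw [D_rt2 d h.sm v hp, ← b1 p hp, ← b2 p hp]
    rfl

theorem Ev.bk (k : ℕ) : ∀ g, Ev d g → Bk d k (g ∘ rt2 d.τ) := by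
  induction k with
  | zero => exact fun g h => bd0_of_cont h.cont
  | succ k ih =>
    refine fun g h => ⟨bd0_of_cont h.cont, fun v => ?_⟩
    obtain ⟨G, a, b⟩ := h.der v
    exact (ih G a).congr b

end Even

open Pool.Agent.P.MP_2cea5e_gt.I.Even in
theorem even_ok : StEven := by
  refine ⟨fun V g hV hσ hg he => ?_, fun V g hV hσ hg he => ?_, fun d g hg h1 h2 => ?_⟩
  · exact quot hV s1 l1 (e := e1) rfl s1_e1 s1_fix hσ hg he
  · exact quot hV s2 l2 (e := e2) rfl s2_e2 s2_fix hσ hg he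
  · have h : Ev d g := ⟨hg, h1, h2⟩
    exact ⟨⟨hg.comp (sm_rt2 d) fun p hp => rt2_mem d (d.U_subset hp), fun k => Ev.bk k g h⟩, h.cont⟩

end Pool.Agent.P.MP_2cea5e_gt.I
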