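import Pool.Agent.P.MP_2cea5e_gt.I.St2

/-!
Chapter I: solutions in a frame.
-/

open scoped ContDiff Topology
open MeasureTheory Set Filter

noncomputable section

set_option linter.dupNamespace false

namespace Pool.Agent.P.MP_2cea5e_gt.I

namespace FG

theorem coord {b b' : Bool} {r x x' : ℝ} (hr : 0 < r) (h : b' = true → b = true ∧ x = r * x') :
    (x ∈ (if b' then univ else ok b) ∧ x' ∈ ok b') ↔ x ∈ ok b := by
  cases b'
  · simp [ok]
  · obtain ⟨rfl, rfl⟩ := h rfl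
    simp [ok, hr]

theorem coordc {b b' : Bool} {r x x' : ℝ} (hr : 0 < r) (h : b' = true → b = true ∧ x = r * x')
    (h1 : x ∈ (if b' then univ else ok b)) (h2 : x' ∈ okc b') : x ∈ okc b := by
  cases b'
  · exact ok_subset b (by simpa using h1)
  · obtain ⟨rfl, rfl⟩ := h rfl
    simp only [okc, if_true, mem_Ici] at h2 ⊢
    positivity

theorem coord2 {b b' b'' : Bool} {r x x' : ℝ} (hr : 0 < r)
    (h : b' = true → b = true ∧ x = r * x') (h' : b'' = true → b' = true) :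
    x ∈ (if b'' then univ else ok b) ↔
      x ∈ (if b' then univ else ok b) ∧ x' ∈ (if b'' then univ else ok b') := by
  cases b''
  · simpa using (coord hr h).symm
  · simp [h' rfl]

theorem sm_md (b : Bool) : ContDiffOn ℝ ∞ (md b) (ok b) := by
  cases b
  · exact (by fun_prop : ContDiff ℝ ∞ fun x : ℝ => x ^ 2 / 2).contDiffOn
  · exact contDiffOn_id.mul (Real.contDiffOn_log.mono fun x (hx : 0 < x) => hx.ne')

theorem D_cmul (v : X) (c : ℝ) (f : X → ℝ) :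
    D v (fun p => c * f p) = fun p => c * D v f p := by
  funext p
  have := fderiv_const_smul_field (𝕜 := ℝ) (f := f) c
  simp only [D]
  change fderiv ℝ (c • f) p v = _
  rw [this]
  rfl

/-- The difference of the models in one coordinate. -/
theorem sm_model {b b' : Bool} {r : ℝ} (hr : 0 < r) {x x' : X → ℝ} (hx : ContDiff ℝ ∞ x)
    (hx' : ContDiff ℝ ∞ x') (h : b' = true → b = true ∧ ∀ q, x q = r * x' q) {V : Set X}
    (hV : ∀ q ∈ V, x q ∈ (if b' then univ else ok b)) :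
    ContDiffOn ℝ ∞ (fun q => md b (x q) / r - md b' (x' q)) V := by
  cases b'
  · refine (((sm_md b).comp hx.contDiffOn fun q hq => by simpa using hV q hq).div_const r).sub ?_
    exact (sm_md false).comp hx'.contDiffOn fun q _ => by simp [ok]
  · obtain ⟨rfl, e⟩ := h rfl
    refine (hx'.mul (contDiff_const (c := Real.log r))).contDiffOn.congr fun q _ => ?_
    simp only [md, if_true, e]
    rcases eq_or_ne (x' q) 0 with h0 | h0
    · simp [h0]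
    · rw [Real.log_mul hr.ne' h0]
      field_simp
      ring

/-- Comparison of the weights in one coordinate. -/
theorem om_cmp {b b' : Bool} {r : ℝ} (hr : 0 < r) {x x' : X → ℝ} (hx : Continuous x)
    (h : b' = true → b = true ∧ ∀ q, x q = r * x' q) {K : Set X} (hK : IsCompact K) :
    ∃ c, 0 < c ∧ ∀ q ∈ K, c * om b (x q) ≤ om b' (x' q) := by
  cases b'
  · obtain ⟨C, hC⟩ := hK.exists_bound_of_continuousOn
      ((sm_om b).continuous.comp hx).continuousOn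
    refine ⟨(|C| + 1)⁻¹, by positivity, fun q hq => ?_⟩
    have h1 : om b (x q) ≤ |C| + 1 :=
      ((le_abs_self _).trans (hC q hq)).trans ((le_abs_self C).trans (by linarith))
    rw [inv_mul_le_iff₀ (by positivity)]
    simpa [om] using h1
  · obtain ⟨rfl, e⟩ := h rfl
    refine ⟨r⁻¹, inv_pos.2 hr, fun q _ => ?_⟩
    simp only [om, if_true, e]
    rw [inv_mul_cancel_left₀ hr.ne']

variable {fr : Fr} {d : Dm} {τ τ' : Ty}

theorem r2 (fr : Fr) : 0 < fr.ρ ^ 2 := pow_pos fr.ρ_pos 2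

theorem cp1 (h : fr.Cp τ τ') (hb : τ'.1 = true) :
    τ.1 = true ∧ ∀ y : ℝ × ℝ, (fr.sp y).1 = fr.ρ ^ 2 * y.1 := by
  obtain ⟨h1, h2, h3, h4, -⟩ := h.1 hb
  exact ⟨h1, fun y => by simp [Fr.sp, Fr.S, h2, h3, h4]⟩

theorem cp2 (h : fr.Cp τ τ') (hb : τ'.2 = true) :
    τ.2 = true ∧ ∀ y : ℝ × ℝ, (fr.sp y).2 = fr.ρ ^ 2 * y.2 := by
  obtain ⟨h1, h2, h3, -, h4⟩ := h.2 hb
  exact ⟨h1, fun y => by simp [Fr.sp, Fr.S, h2, h3, h4]⟩

theorem S_eq (h : fr.Cp d.τ τ') : (fr.dm d τ').S = fr.sp ⁻¹' d.S := by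
  ext y
  have a1 := coord (x := (fr.sp y).1) (x' := y.1) (r2 fr)
    fun hb => ⟨(cp1 h hb).1, (cp1 h hb).2 y⟩
  have a2 := coord (x := (fr.sp y).2) (x' := y.2) (r2 fr)
    fun hb => ⟨(cp2 h hb).1, (cp2 h hb).2 y⟩
  constructor
  · rintro ⟨⟨h0, h1, h2⟩, h3, h4⟩
    exact ⟨h0, a1.1 ⟨h1, h3⟩, a2.1 ⟨h2, h4⟩⟩
  · rintro ⟨h0, h1, h2⟩
    exact ⟨⟨h0, (a1.2 h1).1, (a2.2 h2).1⟩, (a1.2 h1).2, (a2.2 h2).2⟩

theorem U_eq (h : fr.Cp d.τ τ') : (fr.dm d τ').U = fr.fm ⁻¹' d.U := by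
  rw [Dm.U, S_eq h]
  rfl

theorem Sc_sub (h : fr.Cp d.τ τ') : (fr.dm d τ').Sc ⊆ fr.sp ⁻¹' d.Sc := by
  rintro y ⟨⟨h0, h1, h2⟩, h3, h4⟩
  exact ⟨h0, coordc (r2 fr) (fun hb => ⟨(cp1 h hb).1, (cp1 h hb).2 y⟩) h1 h3,
    coordc (r2 fr) (fun hb => ⟨(cp2 h hb).1, (cp2 h hb).2 y⟩) h2 h4⟩

theorem Uc_sub (h : fr.Cp d.τ τ') : (fr.dm d τ').Uc ⊆ fr.fm ⁻¹' d.Uc :=
  fun _ hq => ⟨hq.1, Sc_sub h hq.2⟩

theorem memU (h : fr.Cp d.τ τ') {q : X} (hq : q ∈ (fr.dm d τ').U) : fr.fm q ∈ d.U := by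
  rwa [U_eq h] at hq

theorem sm_sp (fr : Fr) : ContDiff ℝ ∞ fr.sp := by unfold Fr.sp Fr.S; fun_prop

theorem cont_fm (fr : Fr) : Continuous fr.fm :=
  (fr.cont_tm.comp continuous_fst).prodMk (fr.cont_sp.comp continuous_snd)

theorem sp_inj (fr : Fr) : Function.Injective fr.sp := by
  intro y y' h
  have h1 := congrArg Prod.fst h
  have h2 := congrArg Prod.snd h
  simp only [Fr.sp, Fr.S, Prod.fst_add, Prod.snd_add, add_right_inj] at h1 h2
  have hd := fr.det_ne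
  refine Prod.ext (mul_left_cancel₀ hd ?_) (mul_left_cancel₀ hd ?_)
  · linear_combination fr.e * h1 - fr.b * h2
  · linear_combination fr.a * h2 - fr.c * h1

theorem St_surj (fr : Fr) (m : ℝ × ℝ) : ∃ n, fr.St n = m := by
  have hd := fr.det_ne
  refine ⟨((fr.e * m.1 - fr.c * m.2) / (fr.a * fr.e - fr.b * fr.c),
    (fr.a * m.2 - fr.b * m.1) / (fr.a * fr.e - fr.b * fr.c)), Prod.ext ?_ ?_⟩ <;>
  · simp only [Fr.St]
    rw [mul_div_assoc', mul_div_assoc', ← add_div, div_eq_iff hd]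
    ring

theorem bd0_pull (h : fr.Cp d.τ τ') {f : X → ℝ} (hf : Bd0 d f) :
    Bd0 (fr.dm d τ') (f ∘ fr.fm) := fun K h1 h2 => by
  obtain ⟨C, hC⟩ := hf (fr.fm '' K) (h1.image (cont_fm fr))
    (image_subset_iff.2 (h2.trans (Uc_sub h)))
  exact ⟨C, fun q hq hU => hC _ (mem_image_of_mem _ hq) (memU h hU)⟩

theorem lc_pull (h : fr.Cp d.τ τ') {f : X → ℝ} (hf : Lc d f) : Lc (fr.dm d τ') (f ∘ fr.fm) :=
  ⟨hf.cont.comp (cont_fm fr).continuousOn fun _ hq => memU h hq, bd0_pull h hf.bd⟩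

theorem bd_pull (hF : StFC) (h : fr.Cp d.τ τ') {f : X → ℝ} (hf : Bd d f) :
    Bd (fr.dm d τ') (f ∘ fr.fm) := by
  have h1 := (hF fr d.U d.isOpen_U).1
  refine ⟨by rw [U_eq h]; exact (h1 f hf.sm).1, fun k => ?_⟩
  induction k generalizing f with
  | zero => exact bd0_pull h hf.bd0
  | succ k ih =>
    refine ⟨bd0_pull h hf.bd0, fun v => ?_⟩
    refine (ih (hf.D ((v.1 * fr.ρ ^ 4) • e0 + (1 : ℝ) • sv (fr.S v.2)))).congr fun q hq => ?_
    have e : v = v.1 • e0 + (1 : ℝ) • sv v.2 := by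
      ext <;> simp [e0, sv]
    obtain ⟨a1, a2⟩ := (h1 f hf.sm).2 q (memU h hq)
    conv_rhs => rw [e, D_lin, a1, a2]
    rw [Function.comp_apply, D_lin]
    ring

theorem sm_u {u : X → ℝ} (hu : GS0 d u) : ContDiffOn ℝ ∞ u d.U := by
  have h0 : ContDiffOn ℝ ∞ (u0 d.τ) d.U :=
    ((sm_md _).comp (contDiff_fst.comp contDiff_snd).contDiffOn fun _ hq => hq.2.2.1).add
      ((sm_md _).comp (contDiff_snd.comp contDiff_snd).contDiffOn fun _ hq => hq.2.2.2)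
  exact (hu.bd.sm.add h0).congr fun p _ => by simp [wv]

theorem W_pos {u : X → ℝ} (hu : GS0 d u) {p : X} (hp : p ∈ d.U) : 0 < W u p := by
  have h := hu.nd.pos hp
  simp only [Pi.mul_apply] at h
  exact (mul_pos_iff_of_pos_left (mul_pos (Dm.o1_pos hp) (Dm.o2_pos hp))).1 h

theorem sm_iq {u : X → ℝ} (hu : GS0 d u) (n : ℝ × ℝ) : ContDiffOn ℝ ∞ (iq u n) d.U := by
  have hU := d.isOpen_U
  have s : ∀ v w, ContDiffOn ℝ ∞ (D v (D w u)) d.U := fun v w =>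
    smO_D hU v (smO_D hU w (sm_u hu))
  have sW : ContDiffOn ℝ ∞ (W u) d.U :=
    ((s e1 e1).mul (s e2 e2)).sub ((s e1 e2).mul (s e1 e2))
  have sI : ContDiffOn ℝ ∞ (Iv (W u)) d.U := sW.inv fun p hp => (W_pos hu hp).ne'
  have s11 : ContDiffOn ℝ ∞ (i11 u) d.U := (s e2 e2).mul sI
  have s12 : ContDiffOn ℝ ∞ (i12 u) d.U := ((s e1 e2).mul sI).neg
  have s22 : ContDiffOn ℝ ∞ (i22 u) d.U := (s e1 e1).mul sI
  exact (((s11.mul contDiffOn_const).mul contDiffOn_const).add (s12.mul contDiffOn_const)).add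
    ((s22.mul contDiffOn_const).mul contDiffOn_const)

theorem gs0_pull (hF : StFC) (h : fr.Cp d.τ τ') {u : X → ℝ} (hu : GS0 d u) :
    GS0 (fr.dm d τ') (fr.pull u) := by
  have h3 := ((hF fr d.U d.isOpen_U).2.2 u (sm_u hu) fun p hp => (W_pos hu hp).ne').2
  have hr := r2 fr
  refine ⟨?_, ?_, fun q hq => ?_, fun K k1 k2 => ?_, fun q hq => ?_⟩
  · have hO : IsOpen ((fr.dm d τ').I ×ˢ (fr.dm d τ').O) := (fr.dm d τ').oI.prod (fr.dm d τ').oO
    have hs : (fr.dm d τ').Uc ⊆ (fr.dm d τ').I ×ˢ (fr.dm d τ').O :=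
      prod_mono Subset.rfl inter_subset_left
    have m1 := bd_of_smO hO hs (sm_model (b := d.τ.1) (b' := τ'.1) hr
      (x := fun q => (fr.sp q.2).1) (x' := fun q => q.2.1)
      (contDiff_fst.comp ((sm_sp fr).comp contDiff_snd)) (contDiff_fst.comp contDiff_snd)
      (fun hb => ⟨(cp1 h hb).1, fun q => (cp1 h hb).2 q.2⟩) fun q hq => hq.2.2.1)
    have m2 := bd_of_smO hO hs (sm_model (b := d.τ.2) (b' := τ'.2) hr
      (x := fun q => (fr.sp q.2).2) (x' := fun q => q.2.2)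
      (contDiff_snd.comp ((sm_sp fr).comp contDiff_snd)) (contDiff_snd.comp contDiff_snd)
      (fun hb => ⟨(cp2 h hb).1, fun q => (cp2 h hb).2 q.2⟩) fun q hq => hq.2.2.2)
    have m3 : Bd (fr.dm d τ') (af fr.l0 fr.l1 fr.l2) :=
      bd_of_sm (show ContDiff ℝ ∞ _ by unfold af; fun_prop)
    refine ((((bd_K (fr.ρ ^ 2)⁻¹).mul ((bd_pull hF h hu.bd).sub m3)).add m1).add m2).congr
      fun q _ => ?_
    change (fr.ρ ^ 2)⁻¹ * (u (fr.fm q) - (md d.τ.1 (fr.sp q.2).1 + md d.τ.2 (fr.sp q.2).2) -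
        af fr.l0 fr.l1 fr.l2 q) + (md d.τ.1 (fr.sp q.2).1 / fr.ρ ^ 2 - md τ'.1 q.2.1) +
        (md d.τ.2 (fr.sp q.2).2 / fr.ρ ^ 2 - md τ'.2 q.2.2) =
      (u (fr.fm q) - af fr.l0 fr.l1 fr.l2 q) / fr.ρ ^ 2 - (md τ'.1 q.2.1 + md τ'.2 q.2.2)
    ring
  · refine ((hu.cont.comp (cont_fm fr).continuousOn fun _ hq => Uc_sub h hq).sub ?_).div_const _
    exact (by unfold af; fun_prop : Continuous (af fr.l0 fr.l1 fr.l2)).continuousOn
  · have hp := memU h hq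
    have a1 := (h3 q hp).2.2.1 (1, 0) (1, 0)
    have e1 : hb (fr.pull u) (1, 0) (1, 0) q = h11 (fr.pull u) q := by simp [hb, T2.ap, hs]
    rw [← e1, a1]
    refine div_pos ?_ hr
    have p1 := hu.p11 _ hp
    have p2 : 0 < h11 u (fr.fm q) * h22 u (fr.fm q) - h12 u (fr.fm q) * h12 u (fr.fm q) :=
      W_pos hu hp
    have e2 : h11 u (fr.fm q) * hb u (fr.S (1, 0)) (fr.S (1, 0)) (fr.fm q) =
        (h11 u (fr.fm q) * fr.a + h12 u (fr.fm q) * fr.c) ^ 2 +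
          (h11 u (fr.fm q) * h22 u (fr.fm q) - h12 u (fr.fm q) * h12 u (fr.fm q)) * fr.c ^ 2 := by
      simp only [hb, T2.ap, hs, Fr.S]
      ring
    refine (mul_pos_iff_of_pos_left p1).1 ?_
    rw [e2]
    rcases eq_or_ne fr.c 0 with hc | hc
    · have ha : fr.a ≠ 0 := fun ha => fr.det_ne (by rw [ha, hc]; ring)
      rw [hc]
      have := mul_ne_zero p1.ne' ha
      simp only [mul_zero, add_zero, ne_eq, OfNat.ofNat_ne_zero, not_false_eq_true, zero_pow]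
      positivity
    · positivity
  · obtain ⟨c, hc, hC⟩ := hu.nd (fr.fm '' K) (k1.image (cont_fm fr))
      (image_subset_iff.2 (k2.trans (Uc_sub h)))
    obtain ⟨c₁, hc₁, hC₁⟩ := om_cmp (b := d.τ.1) (b' := τ'.1) hr
      (x := fun q => (fr.sp q.2).1) (x' := fun q => q.2.1)
      (continuous_fst.comp (fr.cont_sp.comp continuous_snd))
      (fun hb => ⟨(cp1 h hb).1, fun q => (cp1 h hb).2 q.2⟩) k1
    obtain ⟨c₂, hc₂, hC₂⟩ := om_cmp (b := d.τ.2) (b' := τ'.2) hr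
      (x := fun q => (fr.sp q.2).2) (x' := fun q => q.2.2)
      (continuous_snd.comp (fr.cont_sp.comp continuous_snd))
      (fun hb => ⟨(cp2 h hb).1, fun q => (cp2 h hb).2 q.2⟩) k1
    have hd : 0 < fr.det ^ 2 / fr.ρ ^ 4 :=
      div_pos (sq_pos_of_ne_zero fr.det_ne) (pow_pos fr.ρ_pos 4)
    refine ⟨fr.det ^ 2 / fr.ρ ^ 4 * (c₁ * c₂ * c), by positivity, fun q hq hU => ?_⟩
    have hp := memU h hU
    have a1 := (h3 q hp).2.2.2.1
    have a2 : c ≤ o1 d.τ (fr.fm q) * o2 d.τ (fr.fm q) * W u (fr.fm q) :=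
      hC _ (mem_image_of_mem _ hq) hp
    have a3 : c₁ * o1 d.τ (fr.fm q) ≤ o1 τ' q := hC₁ q hq
    have a4 : c₂ * o2 d.τ (fr.fm q) ≤ o2 τ' q := hC₂ q hq
    have p1 := Dm.o1_pos hp
    have p2 := Dm.o2_pos hp
    have p3 := W_pos hu hp
    have a5 : c₁ * o1 d.τ (fr.fm q) * (c₂ * o2 d.τ (fr.fm q)) ≤ o1 τ' q * o2 τ' q :=
      mul_le_mul a3 a4 (by positivity) (le_trans (by positivity) a3)
    have a6 := mul_le_mul_of_nonneg_right a5 p3.le
    have a7 := mul_le_mul_of_nonneg_left a2 (mul_pos hc₁ hc₂).le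
    change _ ≤ o1 τ' q * o2 τ' q * W (fr.pull u) q
    rw [a1, mul_left_comm (o1 τ' q * o2 τ' q)]
    exact mul_le_mul_of_nonneg_left (by linarith) hd.le
  · have hp := memU h hq
    rw [(h3 q hp).1, (h3 q hp).2.2.2.2.2.2.1, hu.eqn _ hp]

theorem gs_pull (hF : StFC) (h : fr.Cp d.τ τ') {u F : X → ℝ} (hu : GS d u F) :
    GS (fr.dm d τ') (fr.pull u) (fr.pullF F) := by
  have h1 := (hF fr d.U d.isOpen_U).1
  have h3 := ((hF fr d.U d.isOpen_U).2.2 u (sm_u hu.toGS0)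
    fun p hp => (W_pos hu.toGS0 hp).ne').2
  have hr := r2 fr
  refine ⟨gs0_pull hF h hu.toGS0, (lc_of_cont continuous_const).mul (lc_pull h hu.lcF),
    fun q hq e m => ?_, fun q hq => ?_⟩
  · obtain ⟨n, rfl⟩ := St_surj fr m
    have hU := (fr.dm d τ').isOpen_U
    have hp := memU h hq
    have s0 := sm_iq hu.toGS0 n
    have a0 : EqOn (iq (fr.pull u) (fr.St n)) (fun q => fr.ρ ^ 2 * (iq u n ∘ fr.fm) q)
        (fr.dm d τ').U := fun q hq => (h3 q (memU h hq)).2.2.2.2.2.1 n n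
    have a1 : EqOn (D (sv e) (iq (fr.pull u) (fr.St n)))
        (fun q => fr.ρ ^ 2 * (D (sv (fr.S e)) (iq u n) ∘ fr.fm) q) (fr.dm d τ').U :=
      fun q hq => by
        rw [D_congr hU (sv e) a0 hq, D_cmul]
        simp only [Function.comp_apply]
        rw [((h1 _ s0).2 q (memU h hq)).2 e]
    rw [D_congr hU (sv e) a1 hq, D_cmul]
    simp only
    rw [((h1 _ (smO_D d.isOpen_U _ s0)).2 q hp).2 e, a0 hq, abs_mul, abs_of_pos hr]
    have a2 : I.hq (fr.pull u) e q = I.hq u (fr.S e) (fr.fm q) / fr.ρ ^ 2 := (h3 q hp).2.2.1 e e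
    rw [a2]
    refine (mul_le_mul_of_nonneg_left (hu.f1 _ hp (fr.S e) n) hr.le).trans (le_of_eq ?_)
    simp only [Fr.pullF, Function.comp_apply]
    field_simp
  · have hp := memU h hq
    rw [(h3 q hp).1, abs_mul, abs_of_pos hr]
    exact mul_le_mul_of_nonneg_left (hu.f2 _ hp) hr.le

theorem cp_comp {fr' : Fr} {τ'' : Ty} (h : fr.Cp τ τ') (h' : fr'.Cp τ' τ'') :
    (fr.comp fr').Cp τ τ'' := by
  constructor
  · intro hb
    obtain ⟨a1, a2, a3, a4, a5⟩ := h'.1 hb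
    obtain ⟨b1, b2, b3, b4, b5⟩ := h.1 a1
    refine ⟨b1, ?_, ?_, ?_, ?_⟩ <;>
      simp [Fr.comp, Fr.sp, Fr.S, a2, a3, a4, a5, b2, b3, b4, b5, mul_pow]
  · intro hb
    obtain ⟨a1, a2, a3, a4, a5⟩ := h'.2 hb
    obtain ⟨b1, b2, b3, b4, b5⟩ := h.2 a1
    refine ⟨b1, ?_, ?_, ?_, ?_⟩ <;>
      simp [Fr.comp, Fr.sp, Fr.S, a2, a3, a4, a5, b2, b3, b4, b5, mul_pow]

theorem O_comp {fr' : Fr} {τ'' : Ty} (h : fr.Cp d.τ τ') (h' : fr'.Cp τ' τ'') :
    ((fr.comp fr').dm d τ'').O = (fr'.dm (fr.dm d τ') τ'').O := by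
  ext y
  have a1 := coord2 (x := (fr.sp (fr'.sp y)).1) (x' := (fr'.sp y).1) (r2 fr)
    (fun hb => ⟨(cp1 h hb).1, (cp1 h hb).2 _⟩) fun hb => (h'.1 hb).1
  have a2 := coord2 (x := (fr.sp (fr'.sp y)).2) (x' := (fr'.sp y).2) (r2 fr)
    (fun hb => ⟨(cp2 h hb).1, (cp2 h hb).2 _⟩) fun hb => (h'.2 hb).1
  simp only [Fr.dm, mem_preimage, Fr.comp_sp]
  constructor
  · rintro ⟨h0, h1, h2⟩
    exact ⟨⟨h0, (a1.1 h1).1, (a2.1 h2).1⟩, (a1.1 h1).2, (a2.1 h2).2⟩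
  · rintro ⟨⟨h0, h1, h2⟩, h3, h4⟩
    exact ⟨h0, a1.2 ⟨h1, h3⟩, a2.2 ⟨h2, h4⟩⟩

theorem bd_fz {f : X → ℝ} {s : ℝ} (hs : s ∈ d.I) (hf : Bd d f) : Bd d (fz s f) := by
  have sm : ContDiff ℝ ∞ fun p : X => ((s, p.2) : X) := contDiff_const.prodMk contDiff_snd
  have b0 : ∀ g, Bd0 d g → Bd0 d (fz s g) := fun g hg K h1 h2 => by
    obtain ⟨C, hC⟩ := hg _ (h1.image sm.continuous)
      (image_subset_iff.2 fun q hq => ⟨hs, (h2 hq).2⟩)
    exact ⟨C, fun q hq hU => hC _ (mem_image_of_mem _ hq) ⟨hs, hU.2⟩⟩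
  refine ⟨hf.sm.comp sm.contDiffOn fun q hq => ⟨hs, hq.2⟩, fun k => ?_⟩
  induction k generalizing f with
  | zero => exact b0 f hf.bd0
  | succ k ih =>
    refine ⟨b0 f hf.bd0, fun v => (ih (hf.D (sv v.2))).congr fun q hq => ?_⟩
    have h1 : HasFDerivAt (fun p : X => ((s, p.2) : X))
        ((0 : X →L[ℝ] ℝ).prod (ContinuousLinearMap.snd ℝ ℝ (ℝ × ℝ))) q :=
      (hasFDerivAt_const s q).prodMk hasFDerivAt_snd
    have h2 := ((hf.diffAt (p := (s, q.2)) ⟨hs, hq.2⟩).hasFDerivAt.comp q h1).fderiv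
    change _ = fderiv ℝ (f ∘ fun p : X => ((s, p.2) : X)) q v
    rw [h2]
    rfl

end FG

open FG in
theorem fg_ok (h : StFC) : StFG := by
  refine ⟨fun fr d τ' hc => ⟨S_eq hc, U_eq hc, Sc_sub hc, fun f hf => bd_pull h hc hf,
    fun f hf => lc_pull hc hf, fun A hA => ?_, fun u hu => gs0_pull h hc hu,
    fun u F hu => gs_pull h hc hu⟩,
    fun fr fr' d τ' τ'' h1 h2 => ⟨cp_comp h1 h2, O_comp h1 h2, ?_⟩,
    fun d f s hs hf => bd_fz hs hf⟩
  · obtain ⟨K, k1, k2, k3⟩ := hA.cpt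
    exact ⟨hA.ms.image_of_continuousOn_injOn fr.cont_sp.continuousOn (sp_inj fr).injOn,
      image_subset_iff.2 (S_eq hc ▸ hA.sub), fr.sp '' K, k1.image fr.cont_sp, image_mono k2,
      image_subset_iff.2 (k3.trans (Sc_sub hc))⟩
  · ext t
    have e : (fr.comp fr').tm t = fr.tm (fr'.tm t) := by
      simp only [Fr.comp, Fr.tm]
      ring
    change (fr.comp fr').tm t ∈ d.I ↔ fr.tm (fr'.tm t) ∈ d.I
    rw [e]

end Pool.Agent.P.MP_2cea5e_gt.I
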