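import Pool.Agent.P.MP_2cea5e_gt.I.St5

/-!
Chapter I: integrals over the whole domain.
-/

open scoped ContDiff Topology
open MeasureTheory Set Filter

noncomputable section

set_option linter.dupNamespace false

namespace Pool.Agent.P.MP_2cea5e_gt.I

namespace GB

/-- The inverse of the space part of a frame. -/
def isp (fr : Fr) (x : ℝ × ℝ) : ℝ × ℝ :=
  ((fr.e * (x.1 - fr.p.1) - fr.b * (x.2 - fr.p.2)) / fr.det,
    (fr.a * (x.2 - fr.p.2) - fr.c * (x.1 - fr.p.1)) / fr.det)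

theorem cont_isp (fr : Fr) : Continuous (isp fr) := by unfold isp; fun_prop

theorem sp_isp (fr : Fr) (x : ℝ × ℝ) : fr.sp (isp fr x) = x := by
  have h : fr.det ≠ 0 := fr.det_ne
  ext
  · simp only [Fr.sp, Fr.S, isp, Prod.fst_add]
    field_simp
    simp only [Fr.det]
    ring
  · simp only [Fr.sp, Fr.S, isp, Prod.snd_add]
    field_simp
    simp only [Fr.det]
    ring

theorem isp_sp (fr : Fr) (y : ℝ × ℝ) : isp fr (fr.sp y) = y := by
  have h : fr.det ≠ 0 := fr.det_ne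
  ext
  · simp only [Fr.sp, Fr.S, isp, Prod.fst_add, Prod.snd_add]
    field_simp
    simp only [Fr.det]
    ring
  · simp only [Fr.sp, Fr.S, isp, Prod.fst_add, Prod.snd_add]
    field_simp
    simp only [Fr.det]
    ring

theorem isClosed_okc (b : Bool) : IsClosed (okc b) := by
  cases b <;> simp [okc, isClosed_Ici]

variable {ι : Type} {d : Dm} {u : X → ℝ} {d' : ι → Dm} {u' : ι → X → ℝ} {fr : ι → Fr}

theorem fm_eq (G : Glob d u d' u' fr) (σ : ι) (t : ℝ) (y : ℝ × ℝ) :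
    (fr σ).fm (t, y) = (t, (fr σ).sp y) := by
  simp [Fr.fm, Fr.tm, G.t1 σ, G.ρ σ]

theorem U_eq (G : Glob d u d' u' fr) (σ : ι) : (d' σ).U = (fr σ).fm ⁻¹' d.U := by
  ext ⟨t, y⟩
  simp only [mem_preimage, fm_eq G, Dm.U, mem_prod, G.tI σ, G.S σ]

theorem image_S (G : Glob d u d' u' fr) (σ : ι) : (fr σ).sp '' (d' σ).S = d.S := by
  rw [G.S σ]
  exact image_preimage_eq _ fun x => ⟨_, sp_isp _ x⟩

theorem bound (G : Glob d u d' u' fr) {f : X → ℝ} (hf : ∀ σ, Bd0 (d' σ) (f ∘ (fr σ).fm))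
    {J : Set ℝ} (hJ : IsCompact J) (hs : J ⊆ d.I) :
    ∃ C, ∀ t ∈ J, ∀ y ∈ d.S, |f (t, y)| ≤ C := by
  have key : ∃ C, ∀ t ∈ J, ∀ y ∈ closure d.S, y ∈ d.S → |f (t, y)| ≤ C := by
    refine G.bdd.isCompact_closure.induction_on
      (p := fun s => ∃ C, ∀ t ∈ J, ∀ y ∈ s, y ∈ d.S → |f (t, y)| ≤ C)
      ⟨0, fun _ _ _ h => h.elim⟩ ?_ ?_ ?_
    · rintro s s' hss ⟨C, hC⟩
      exact ⟨C, fun t ht y hy => hC t ht y (hss hy)⟩
    · rintro s s' ⟨C, hC⟩ ⟨C', hC'⟩
      exact ⟨max C C', fun t ht y hy hS => hy.elim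
        (fun h => (hC t ht y h hS).trans (le_max_left _ _))
        fun h => (hC' t ht y h hS).trans (le_max_right _ _)⟩
    · intro x hx
      obtain ⟨σ, y, hy, rfl⟩ := mem_iUnion.mp (G.cov hx)
      obtain ⟨B, hB, hBs, hBc⟩ := local_compact_nhds ((d' σ).oO.mem_nhds hy.1)
      obtain ⟨C, hC⟩ := hf σ (J ×ˢ (B ∩ okc (d' σ).τ.1 ×ˢ okc (d' σ).τ.2))
        (hJ.prod (hBc.inter_right ((isClosed_okc _).prod (isClosed_okc _))))
        (prod_mono (hs.trans (G.tI σ).ge) (inter_subset_inter_left _ hBs))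
      refine ⟨isp (fr σ) ⁻¹' B, mem_nhdsWithin_of_mem_nhds
        ((cont_isp _).continuousAt.preimage_mem_nhds (by rwa [isp_sp])), C, ?_⟩
      intro t ht z hz hS
      have h1 : isp (fr σ) z ∈ (d' σ).S := by
        rw [G.S σ, mem_preimage, sp_isp]; exact hS
      have h2 := hC (t, isp (fr σ) z) ⟨ht, hz, ((d' σ).S_subset h1).2⟩
        ⟨(G.tI σ).ge (hs ht), h1⟩
      rwa [Function.comp_apply, fm_eq G, sp_isp] at h2
  obtain ⟨C, hC⟩ := key
  exact ⟨C, fun t ht y hy => hC t ht y (subset_closure hy) hy⟩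

theorem finite (G : Glob d u d' u' fr) : volume d.S ≠ ⊤ := G.bdd.measure_lt_top.ne

theorem meas {f : X → ℝ} (hc : ContinuousOn f d.U) {t : ℝ} (ht : t ∈ d.I) :
    AEStronglyMeasurable (fun y => f (t, y)) (volume.restrict d.S) :=
  (hc.comp (f := fun y : ℝ × ℝ => ((t, y) : X)) (continuous_const.prodMk continuous_id).continuousOn
    fun _ hy => ⟨ht, hy⟩).aestronglyMeasurable d.isOpen_S.measurableSet

theorem integrableOn (G : Glob d u d' u' fr) {f : X → ℝ} (hc : ContinuousOn f d.U)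
    (hf : ∀ σ, Bd0 (d' σ) (f ∘ (fr σ).fm)) {t : ℝ} (ht : t ∈ d.I) :
    IntegrableOn (fun y => f (t, y)) d.S := by
  obtain ⟨C, hC⟩ := bound G hf isCompact_singleton (singleton_subset_iff.mpr ht)
  exact Integrable.mono' (integrableOn_const (C := C) (finite G)) (meas hc ht)
    ((ae_restrict_iff' d.isOpen_S.measurableSet).mpr
      (Eventually.of_forall fun y hy => hC t rfl y hy))

theorem continuousOn_int (G : Glob d u d' u' fr) {f : X → ℝ} (hc : ContinuousOn f d.U)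
    (hf : ∀ σ, Bd0 (d' σ) (f ∘ (fr σ).fm)) :
    ContinuousOn (fun t => ∫ y in d.S, f (t, y)) d.I := fun t ht => by
  have hm := d.isOpen_S.measurableSet
  obtain ⟨J, hJ, hJs, hJc⟩ := local_compact_nhds (d.oI.mem_nhds ht)
  obtain ⟨C, hC⟩ := bound G hf hJc hJs
  refine (continuousAt_of_dominated (bound := fun _ => C) ?_ ?_ ?_ ?_).continuousWithinAt
  · filter_upwards [d.oI.mem_nhds ht] with s hs using meas hc hs
  · filter_upwards [hJ] with s hs
    exact (ae_restrict_iff' hm).mpr (Eventually.of_forall fun y hy => hC s hs y hy)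
  · exact integrableOn_const (finite G)
  · refine (ae_restrict_iff' hm).mpr (Eventually.of_forall fun y hy => ?_)
    exact (hc.continuousAt (d.isOpen_U.mem_nhds ⟨ht, hy⟩)).comp
      (f := fun s : ℝ => ((s, y) : X)) (continuous_id.prodMk continuous_const).continuousAt

theorem hasDerivAt_int (h : StFC) (G : Glob d u d' u' fr) {f : X → ℝ} (hc : ContDiffOn ℝ ∞ f d.U)
    (hf : ∀ σ, Bd (d' σ) (f ∘ (fr σ).fm)) {t : ℝ} (ht : t ∈ d.I) :
    HasDerivAt (fun s => ∫ y in d.S, f (s, y)) (∫ y in d.S, D e0 f (t, y)) t := by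
  have hm := d.isOpen_S.measurableSet
  have hD : ∀ σ, Bd0 (d' σ) (D e0 f ∘ (fr σ).fm) := fun σ =>
    ((hf σ).D e0).bd0.congr fun q hq => by
      have h1 := (((h (fr σ) d.U d.isOpen_U).1 f hc).2 q (by rwa [U_eq G σ] at hq)).1
      rw [h1, G.ρ σ, one_pow, one_mul, Function.comp_apply]
  obtain ⟨J, hJ, hJs, hJc⟩ := local_compact_nhds (d.oI.mem_nhds ht)
  obtain ⟨C, hC⟩ := bound G hD hJc hJs
  refine (hasDerivAt_integral_of_dominated_loc_of_deriv_le (μ := volume.restrict d.S)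
    (F := fun s y => f (s, y)) (F' := fun s y => D e0 f (s, y)) (bound := fun _ => C) hJ ?_
    (integrableOn G hc.continuousOn (fun σ => (hf σ).bd0) ht)
    (meas (smO_D d.isOpen_U e0 hc).continuousOn ht) ?_ (integrableOn_const (finite G)) ?_).2
  · filter_upwards [d.oI.mem_nhds ht] with s hs using meas hc.continuousOn hs
  · exact (ae_restrict_iff' hm).mpr (Eventually.of_forall fun y hy s hs => hC s hs y hy)
  · exact (ae_restrict_iff' hm).mpr (Eventually.of_forall fun y hy s hs =>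
      hasDerivAt_t (diffAt d.isOpen_U hc ⟨hJs hs, hy⟩))

end GB

theorem gb_ok (h : StFC) : StGB := fun _ _ _ _ _ _ G =>
  ⟨fun σ => ⟨GB.U_eq G σ, GB.image_S G σ, GB.fm_eq G σ⟩, fun _ =>
    ⟨fun hf _ hJ hs => GB.bound G hf hJ hs,
      fun hc hf => ⟨fun _ ht => GB.integrableOn G hc hf ht, GB.continuousOn_int G hc hf⟩,
      fun hc hf _ ht => GB.hasDerivAt_int h G hc hf ht⟩⟩

end Pool.Agent.P.MP_2cea5e_gt.I
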