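import Pool.Agent.P.MP_2cea5e_gt.I.St5

/-!
Chapter I: global integration by parts.
-/

open scoped ContDiff Topology Manifold
open MeasureTheory Set Filter

noncomputable section

set_option linter.dupNamespace false

namespace Pool.Agent.P.MP_2cea5e_gt.I

namespace GI

/-- Additive functionals of cutoffs that vanish locally. -/
theorem pou {A : Set (ℝ × ℝ)} (hA : IsCompact A) (Φ : (ℝ × ℝ → ℝ) → ℝ)
    (hadd : ∀ χ χ', ContDiff ℝ ∞ χ → ContDiff ℝ ∞ χ' → Φ (χ + χ') = Φ χ + Φ χ')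
    (hloc : ∀ x ∈ A, ∃ V, IsOpen V ∧ x ∈ V ∧ ∀ χ, ContDiff ℝ ∞ χ → tsupport χ ⊆ V → Φ χ = 0) :
    ∃ χ, ContDiff ℝ ∞ χ ∧ (∀ y ∈ A, χ y = 1) ∧ Φ χ = 0 := by
  classical
  choose V hV hx hΦ using hloc
  obtain ⟨ρ, hρ⟩ := SmoothPartitionOfUnity.exists_isSubordinate 𝓘(ℝ, ℝ × ℝ) hA.isClosed
    (fun x : A => V x.1 x.2) (fun x => hV x.1 x.2)
    (fun x h => mem_iUnion.2 ⟨⟨x, h⟩, hx x h⟩)
  have hs : ∀ i, ContDiff ℝ ∞ (ρ i : ℝ × ℝ → ℝ) := fun i => (ρ i).contMDiff.contDiff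
  have hfin := ρ.locallyFinite.finite_nonempty_inter_compact hA
  have h0 : Φ 0 = 0 := by
    have := hadd 0 0 contDiff_const contDiff_const
    rw [add_zero] at this
    linarith
  have key : ∀ T : Finset A, ContDiff ℝ ∞ (∑ i ∈ T, (ρ i : ℝ × ℝ → ℝ)) ∧
      Φ (∑ i ∈ T, (ρ i : ℝ × ℝ → ℝ)) = 0 := by
    intro T
    induction T using Finset.induction_on with
    | empty => exact ⟨by rw [Finset.sum_empty]; exact contDiff_const, by rw [Finset.sum_empty, h0]⟩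
    | insert a T ha ih =>
      rw [Finset.sum_insert ha]
      exact ⟨(hs a).add ih.1, by rw [hadd _ _ (hs a) ih.1, ih.2, hΦ a.1 a.2 _ (hs a) (hρ a), add_zero]⟩
  refine ⟨_, (key hfin.toFinset).1, fun y hy => ?_, (key hfin.toFinset).2⟩
  rw [Finset.sum_apply, ← ρ.sum_eq_one hy]
  refine (finsum_eq_sum_of_support_subset _ fun i hi => ?_).symm
  rw [Finite.coe_toFinset]
  exact ⟨y, hi, hy⟩

variable {U : Set X} {f g : X → ℝ} {H H' G G' : T2} {d : Dm}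

/-- The second space derivatives agree on `U`. -/
def SD (U : Set X) (f g : X → ℝ) : Prop :=
  EqOn (h11 f) (h11 g) U ∧ EqOn (h12 f) (h12 g) U ∧ EqOn (h22 f) (h22 g) U

def SD2 (U : Set X) (H G : T2) : Prop := SD U H.a G.a ∧ SD U H.b G.b ∧ SD U H.c G.c

theorem sd_of (hU : IsOpen U) (h : EqOn f g U) : SD U f g :=
  ⟨D_congr hU _ (D_congr hU _ h), D_congr hU _ (D_congr hU _ h), D_congr hU _ (D_congr hU _ h)⟩

theorem SD.rfl' : SD U f f := ⟨fun _ _ => rfl, fun _ _ => rfl, fun _ _ => rfl⟩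

theorem SD2.rfl' : SD2 U H H := ⟨SD.rfl', SD.rfl', SD.rfl'⟩

theorem SD.trans {k : X → ℝ} (h : SD U f g) (h' : SD U g k) : SD U f k :=
  ⟨h.1.trans h'.1, h.2.1.trans h'.2.1, h.2.2.trans h'.2.2⟩

theorem rr_congr (h : SD2 U H H') (h' : SD2 U G G') : EqOn (H.rr G) (H'.rr G') U := by
  intro p hp
  simp only [T2.rr, Pi.add_apply, Pi.mul_apply, h.1.1 hp, h.1.2.1 hp, h.1.2.2 hp, h.2.1.1 hp,
    h.2.1.2.1 hp, h.2.1.2.2 hp, h.2.2.1 hp, h.2.2.2.1 hp, h.2.2.2.2 hp, h'.1.1 hp, h'.1.2.1 hp,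
    h'.1.2.2 hp, h'.2.1.1 hp, h'.2.1.2.1 hp, h'.2.1.2.2 hp, h'.2.2.1 hp, h'.2.2.2.1 hp,
    h'.2.2.2.2 hp]

theorem dd_congr (h : SD2 U H H') : EqOn H.dd H'.dd U := by
  intro p hp
  simp only [T2.dd, Pi.add_apply, Pi.mul_apply, h.1.1 hp, h.2.1.2.1 hp, h.2.2.2.2 hp]

theorem ctr_congr (h : SD U f g) : EqOn (H.ctr f) (H.ctr g) U := by
  intro p hp
  simp only [T2.ctr, Pi.add_apply, Pi.mul_apply, h.1 hp, h.2.1 hp, h.2.2 hp]

theorem add2 (hU : IsOpen U) (hf : ContDiffOn ℝ ∞ f U) (hg : ContDiffOn ℝ ∞ g U) (v w : X) :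
    EqOn (D v (D w (f + g))) (D v (D w f) + D v (D w g)) U := by
  intro p hp
  have e : EqOn (D w (f + g)) (D w f + D w g) U := fun q hq =>
    D_add_at w (diffAt hU hf hq) (diffAt hU hg hq)
  rw [D_congr hU v e hp]
  exact D_add_at v (diffAt hU (smO_D hU w hf) hp) (diffAt hU (smO_D hU w hg) hp)

theorem add3 (hU : IsOpen U) (hf : ContDiffOn ℝ ∞ f U) (hg : ContDiffOn ℝ ∞ g U) {p : X}
    (hp : p ∈ U) : h11 (f + g) p = h11 f p + h11 g p ∧ h12 (f + g) p = h12 f p + h12 g p ∧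
      h22 (f + g) p = h22 f p + h22 g p :=
  ⟨add2 hU hf hg _ _ hp, add2 hU hf hg _ _ hp, add2 hU hf hg _ _ hp⟩

theorem DD_o1 (τ : Ty) (v w : X) : D v (D w (o1 τ)) = 0 := by
  obtain ⟨a, b⟩ := τ
  cases a
  · have : o1 (false, b) = K 1 := by funext p; simp [o1, om]
    rw [this, D_K, D_zero]
  · have : o1 (true, b) = Li 1 0 := by funext p; simp [o1, om, Li]
    rw [this, D_Li, D_K]

theorem DD_o2 (τ : Ty) (v w : X) : D v (D w (o2 τ)) = 0 := by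
  obtain ⟨a, b⟩ := τ
  cases b
  · have : o2 (a, false) = K 1 := by funext p; simp [o2, om]
    rw [this, D_K, D_zero]
  · have : o2 (a, true) = Li 0 1 := by funext p; simp [o2, om, Li]
    rw [this, D_Li, D_K]

theorem sd_sub (hU : IsOpen U) (hf : ContDiffOn ℝ ∞ f U) (hg : Sm g)
    (h0 : ∀ v w, D v (D w g) = 0) : SD U f (f - g) := by
  have e : ∀ v w, EqOn (D v (D w f)) (D v (D w (f - g))) U := fun v w p hp => by
    have := add2 (f := f - g) hU (hf.sub hg.contDiffOn) hg.contDiffOn v w hp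
    rw [sub_add_cancel, h0, add_zero] at this
    exact this
  exact ⟨e _ _, e _ _, e _ _⟩

theorem i_congr (hU : IsOpen U) (h : EqOn f g U) :
    EqOn (i11 f) (i11 g) U ∧ EqOn (i12 f) (i12 g) U ∧ EqOn (i22 f) (i22 g) U := by
  obtain ⟨h1, h2, h3⟩ := sd_of hU h
  have hW : EqOn (W f) (W g) U := fun p hp => by
    change h11 f p * h22 f p - h12 f p * h12 f p = h11 g p * h22 g p - h12 g p * h12 g p
    rw [h1 hp, h2 hp, h3 hp]
  refine ⟨fun p hp => ?_, fun p hp => ?_, fun p hp => ?_⟩ <;>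
    simp only [i11, i12, i22, Pi.mul_apply, Pi.neg_apply, Iv_apply, h1 hp, h2 hp, h3 hp, hW hp]

theorem sm2 (hU : IsOpen U) (hf : ContDiffOn ℝ ∞ f U) :
    ContDiffOn ℝ ∞ (h11 f) U ∧ ContDiffOn ℝ ∞ (h12 f) U ∧ ContDiffOn ℝ ∞ (h22 f) U :=
  ⟨smO_D hU _ (smO_D hU _ hf), smO_D hU _ (smO_D hU _ hf), smO_D hU _ (smO_D hU _ hf)⟩

theorem bd2 (hf : Bd d f) : Bd d (h11 f) ∧ Bd d (h12 f) ∧ Bd d (h22 f) :=
  ⟨(hf.D _).D _, (hf.D _).D _, (hf.D _).D _⟩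

theorem cK (c : ℝ) : ContinuousOn (K c) U := continuousOn_const

theorem cont_ctr (hU : IsOpen U) (hH : H.SmOn U) (hf : ContDiffOn ℝ ∞ f U) :
    ContinuousOn (H.ctr f) U := by
  obtain ⟨h1, h2, h3⟩ := sm2 hU hf
  exact ((hH.1.continuousOn.mul h1.continuousOn).add
    (((cK 2).mul hH.2.1.continuousOn).mul h2.continuousOn)).add
      (hH.2.2.continuousOn.mul h3.continuousOn)

theorem cont_dd (hU : IsOpen U) (hH : H.SmOn U) : ContinuousOn H.dd U :=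
  ((sm2 hU hH.1).1.continuousOn.add ((cK 2).mul (sm2 hU hH.2.1).2.1.continuousOn)).add
    (sm2 hU hH.2.2).2.2.continuousOn

theorem cont_rr (hU : IsOpen U) (hH : H.SmOn U) (hG : G.SmOn U) : ContinuousOn (H.rr G) U := by
  have k : ∀ {f : X → ℝ}, ContDiffOn ℝ ∞ f U →
      ContinuousOn (h11 f) U ∧ ContinuousOn (h12 f) U ∧ ContinuousOn (h22 f) U := fun hf =>
    ⟨(sm2 hU hf).1.continuousOn, (sm2 hU hf).2.1.continuousOn, (sm2 hU hf).2.2.continuousOn⟩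
  obtain ⟨a1, a2, a3⟩ := k hH.1
  obtain ⟨b1, b2, b3⟩ := k hH.2.1
  obtain ⟨c1, c2, c3⟩ := k hH.2.2
  obtain ⟨x1, x2, x3⟩ := k hG.1
  obtain ⟨y1, y2, y3⟩ := k hG.2.1
  obtain ⟨z1, z2, z3⟩ := k hG.2.2
  exact ((((((a1.mul x1).add (c3.mul z3)).add (a3.mul z1)).add (c1.mul x3)).add
    (((cK 4).mul b2).mul y2)).add ((cK 2).mul ((a2.mul y1).add (b1.mul x2)))).add
      ((cK 2).mul ((c2.mul y3).add (b3.mul z2)))

/-- All components are bounded up to the faces. -/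
def B2 (d : Dm) (H : T2) : Prop := Bd d H.a ∧ Bd d H.b ∧ Bd d H.c

theorem b2_of {k₁ k₂ k₃ : X → ℝ} (h : NT d H k₁ k₂ k₃) : B2 d H :=
  ⟨((bd_o1.mul bd_o1).mul h.1).congr h.2.2.2.1.symm,
    ((bd_o1.mul bd_o2).mul h.2.1).congr h.2.2.2.2.1.symm,
    ((bd_o2.mul bd_o2).mul h.2.2.1).congr h.2.2.2.2.2.symm⟩

theorem B2.mul (h : B2 d H) (hg : Bd d g) : B2 d (H.mul g) :=
  ⟨hg.mul h.1, hg.mul h.2.1, hg.mul h.2.2⟩

theorem B2.ctr (h : B2 d H) (hf : Bd d f) : Bd d (H.ctr f) :=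
  ((h.1.mul (bd2 hf).1).add (((bd_K 2).mul h.2.1).mul (bd2 hf).2.1)).add (h.2.2.mul (bd2 hf).2.2)

theorem B2.dd (h : B2 d H) : Bd d H.dd :=
  ((bd2 h.1).1.add ((bd_K 2).mul (bd2 h.2.1).2.1)).add (bd2 h.2.2).2.2

theorem B2.rr (hH : B2 d H) (hG : B2 d G) : Bd d (H.rr G) := by
  obtain ⟨a1, a2, a3⟩ := bd2 hH.1
  obtain ⟨b1, b2, b3⟩ := bd2 hH.2.1
  obtain ⟨c1, c2, c3⟩ := bd2 hH.2.2
  obtain ⟨x1, x2, x3⟩ := bd2 hG.1
  obtain ⟨y1, y2, y3⟩ := bd2 hG.2.1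
  obtain ⟨z1, z2, z3⟩ := bd2 hG.2.2
  exact ((((((a1.mul x1).add (c3.mul z3)).add (a3.mul z1)).add (c1.mul x3)).add
    (((bd_K 4).mul b2).mul y2)).add ((bd_K 2).mul ((a2.mul y1).add (b1.mul x2)))).add
      ((bd_K 2).mul ((c2.mul y3).add (b3.mul z2)))

theorem sm_cx {χ : ℝ × ℝ → ℝ} (h : ContDiff ℝ ∞ χ) : Sm (cx χ) := h.comp contDiff_snd

theorem smOn_mul (hH : H.SmOn U) (hg : Sm g) : (H.mul g).SmOn U :=
  ⟨hg.contDiffOn.mul hH.1, hg.contDiffOn.mul hH.2.1, hg.contDiffOn.mul hH.2.2⟩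

theorem pull_mul (fr : Fr) (H : T2) (χ : ℝ × ℝ → ℝ) :
    fr.pullT (H.mul (cx χ)) = (fr.pullT H).mul (cx (χ ∘ fr.sp)) := by
  simp only [Fr.pullT, T2.mul, T2.mk.injEq]
  refine ⟨?_, ?_, ?_⟩ <;> funext q <;>
    simp only [T2.ap, Pi.mul_apply, cx, Fr.fm, Function.comp] <;> ring

theorem sm_sp (fr : Fr) : ContDiff ℝ ∞ fr.sp := by
  unfold Fr.sp Fr.S
  fun_prop

/-- The inverse of the space part of a frame. -/
def spi (fr : Fr) (x : ℝ × ℝ) : ℝ × ℝ :=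
  ((fr.e * (x.1 - fr.p.1) - fr.b * (x.2 - fr.p.2)) / fr.det,
    (fr.a * (x.2 - fr.p.2) - fr.c * (x.1 - fr.p.1)) / fr.det)

theorem spi_sp (fr : Fr) (y : ℝ × ℝ) : spi fr (fr.sp y) = y := by
  have h : fr.det ≠ 0 := fr.det_ne
  ext
  · simp only [spi, Fr.sp, Fr.S, Prod.fst_add, Prod.snd_add]
    rw [div_eq_iff h, Fr.det]; ring
  · simp only [spi, Fr.sp, Fr.S, Prod.fst_add, Prod.snd_add]
    rw [div_eq_iff h, Fr.det]; ring

theorem cont_spi (fr : Fr) : Continuous (spi fr) := by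
  unfold spi
  fun_prop

theorem tsupp (fr : Fr) {χ : ℝ × ℝ → ℝ} {V : Set (ℝ × ℝ)} (h : tsupport χ ⊆ spi fr ⁻¹' V) :
    tsupport (χ ∘ fr.sp) ⊆ V := by
  intro y hy
  have h1 : tsupport (χ ∘ fr.sp) ⊆ fr.sp ⁻¹' tsupport χ :=
    closure_minimal (fun z hz => subset_tsupport χ hz) ((isClosed_tsupport χ).preimage fr.cont_sp)
  have := h (h1 hy)
  rwa [mem_preimage, spi_sp] at this

end GI

open GI in
theorem gi_ok (h0 : StApi) (h1 : StFC) (h2 : StFI) (h3 : StGB) (h4 : StLoc) : StGI := by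
  intro ι d u d' u' fr gl H hH hNT t ht
  obtain ⟨g1, g2⟩ := h3 ι d u d' u' fr gl
  have hU := d.isOpen_U
  have hmS := d.isOpen_S.measurableSet
  have memU : ∀ σ q, q ∈ (d' σ).U → (fr σ).fm q ∈ d.U := fun σ q hq => by
    rw [(g1 σ).1] at hq; exact hq
  have tI : ∀ σ, t ∈ (d' σ).I := fun σ => by rw [gl.tI]; exact ht
  -- change of chart
  have tr : ∀ σ (F F' : X → ℝ), EqOn F' (F ∘ (fr σ).fm) (d' σ).U →
      ∫ y in (d' σ).S, F' (t, y) = ∫ y in d.S, F (t, y) := by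
    intro σ F F' e
    have hm := (d' σ).isOpen_S.measurableSet
    have := (((h2 (fr σ) _ hm).2.1 fun y => F (t, y))).2
    rw [(g1 σ).2.1, gl.det, inv_one, one_mul] at this
    rw [← this]
    refine setIntegral_congr_fun hm fun y hy => ?_
    have := e (show ((t, y) : X) ∈ (d' σ).U from ⟨tI σ, hy⟩)
    simpa only [Function.comp, (g1 σ).2.2] using this
  have ig : ∀ F : X → ℝ, ContinuousOn F d.U →
      (∀ σ, ∃ F', Bd (d' σ) F' ∧ EqOn F' (F ∘ (fr σ).fm) (d' σ).U) →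
      IntegrableOn (fun y => F (t, y)) d.S := fun F hc hb =>
    ((g2 F).2.1 hc fun σ => let ⟨_, b, e⟩ := hb σ; b.bd0.congr e).1 t ht
  -- the abstract step
  have main : ∀ (L R : (ℝ × ℝ → ℝ) → X → ℝ) (L' R' : ι → (ℝ × ℝ → ℝ) → X → ℝ),
      (∀ χ χ', ContDiff ℝ ∞ χ → ContDiff ℝ ∞ χ' →
        EqOn (L (χ + χ')) (L χ + L χ') d.U ∧ EqOn (R (χ + χ')) (R χ + R χ') d.U) →
      (∀ χ, ContDiff ℝ ∞ χ → ContinuousOn (L χ) d.U ∧ ContinuousOn (R χ) d.U) →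
      (∀ σ χ, ContDiff ℝ ∞ χ → Bd (d' σ) (L' σ χ) ∧ Bd (d' σ) (R' σ χ)) →
      (∀ σ χ, ContDiff ℝ ∞ χ → EqOn (L' σ (χ ∘ (fr σ).sp)) (L χ ∘ (fr σ).fm) (d' σ).U ∧
        EqOn (R' σ (χ ∘ (fr σ).sp)) (R χ ∘ (fr σ).fm) (d' σ).U) →
      (∀ σ, ∀ p ∈ (d' σ).Sc, ∃ V, IsOpen V ∧ p ∈ V ∧ ∀ χ, ContDiff ℝ ∞ χ → tsupport χ ⊆ V →
        ∫ y in (d' σ).S, L' σ χ (t, y) = ∫ y in (d' σ).S, R' σ χ (t, y)) →
      ∃ χ, ContDiff ℝ ∞ χ ∧ EqOn (cx χ) 1 d.U ∧
        ∫ y in d.S, L χ (t, y) = ∫ y in d.S, R χ (t, y) := by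
    intro L R L' R' hadd hc hb he hl
    have hi : ∀ χ, ContDiff ℝ ∞ χ → IntegrableOn (fun y => L χ (t, y)) d.S ∧
        IntegrableOn (fun y => R χ (t, y)) d.S := fun χ hχ =>
      ⟨ig _ (hc χ hχ).1 fun σ => ⟨_, (hb σ _ (hχ.comp (sm_sp _))).1, (he σ χ hχ).1⟩,
        ig _ (hc χ hχ).2 fun σ => ⟨_, (hb σ _ (hχ.comp (sm_sp _))).2, (he σ χ hχ).2⟩⟩
    obtain ⟨χ, hχ, h1', hΦ⟩ := pou gl.bdd.isCompact_closure
      (fun χ => (∫ y in d.S, L χ (t, y)) - ∫ y in d.S, R χ (t, y)) (by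
        intro χ χ' hχ hχ'
        have e1 : ∫ y in d.S, L (χ + χ') (t, y) =
            (∫ y in d.S, L χ (t, y)) + ∫ y in d.S, L χ' (t, y) := by
          rw [← integral_add (hi χ hχ).1 (hi χ' hχ').1]
          exact setIntegral_congr_fun hmS fun y hy => (hadd χ χ' hχ hχ').1 ⟨ht, hy⟩
        have e2 : ∫ y in d.S, R (χ + χ') (t, y) =
            (∫ y in d.S, R χ (t, y)) + ∫ y in d.S, R χ' (t, y) := by
          rw [← integral_add (hi χ hχ).2 (hi χ' hχ').2]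
          exact setIntegral_congr_fun hmS fun y hy => (hadd χ χ' hχ hχ').2 ⟨ht, hy⟩
        simp only [e1, e2]
        ring) (by
        intro x hx
        obtain ⟨σ, p, hp, rfl⟩ := mem_iUnion.1 (gl.cov hx)
        obtain ⟨V, hV, hpV, hVl⟩ := hl σ p hp
        refine ⟨spi (fr σ) ⁻¹' V, hV.preimage (cont_spi _), by rwa [mem_preimage, spi_sp],
          fun χ hχ hs => ?_⟩
        have := hVl _ (hχ.comp (sm_sp _)) (tsupp _ hs)
        rw [tr σ _ _ (he σ χ hχ).1, tr σ _ _ (he σ χ hχ).2] at this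
        exact sub_eq_zero.2 this)
    exact ⟨χ, hχ, fun p hp => h1' _ (subset_closure hp.2), sub_eq_zero.1 hΦ⟩
  have bH : ∀ σ, B2 (d' σ) ((fr σ).pullT H) := fun σ => let ⟨_, _, _, h⟩ := hNT σ; b2_of h
  constructor
  · intro f hf hbf
    obtain ⟨χ, hχ, h1', hE⟩ := main (fun χ => H.ctr (cx χ * f)) (fun χ => cx χ * f * H.dd)
      (fun σ χ => ((fr σ).pullT H).ctr (cx χ * (f ∘ (fr σ).fm)))
      (fun σ χ => cx χ * (f ∘ (fr σ).fm) * ((fr σ).pullT H).dd) (by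
        intro χ χ' hχ hχ'
        have e : cx (χ + χ') * f = cx χ * f + cx χ' * f := by
          funext p; simp only [cx, Pi.mul_apply, Pi.add_apply]; ring
        refine ⟨fun p hp => ?_, fun p _ => ?_⟩
        · obtain ⟨a1, a2, a3⟩ := add3 hU ((sm_cx hχ).contDiffOn.mul hf)
            ((sm_cx hχ').contDiffOn.mul hf) hp
          change h11 (cx χ * f + cx χ' * f) p = h11 (cx χ * f) p + h11 (cx χ' * f) p at a1
          change h12 (cx χ * f + cx χ' * f) p = h12 (cx χ * f) p + h12 (cx χ' * f) p at a2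
          change h22 (cx χ * f + cx χ' * f) p = h22 (cx χ * f) p + h22 (cx χ' * f) p at a3
          simp only [e, T2.ctr, Pi.add_apply, Pi.mul_apply, a1, a2, a3]
          ring
        · simp only [e, Pi.add_apply, Pi.mul_apply]
          ring)
      (fun χ hχ => ⟨cont_ctr hU hH ((sm_cx hχ).contDiffOn.mul hf),
        ((sm_cx hχ).continuous.continuousOn.mul hf.continuousOn).mul (cont_dd hU hH)⟩)
      (fun σ χ hχ => ⟨(bH σ).ctr ((bd_of_sm (sm_cx hχ)).mul (hbf σ)),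
        ((bd_of_sm (sm_cx hχ)).mul (hbf σ)).mul (bH σ).dd⟩) (by
        intro σ χ hχ
        have k := ((h1 (fr σ) d.U hU).2.1 H H hH hH).2
        refine ⟨fun q hq => ?_, fun q hq => ?_⟩
        · have := (k q (memU σ q hq)).2.2.2 (cx χ * f) ((sm_cx hχ).contDiffOn.mul hf)
          rw [gl.ρ, one_pow, one_mul] at this
          exact this
        · have := (k q (memU σ q hq)).2.1
          rw [gl.ρ, one_pow, one_mul] at this
          simp only [Pi.mul_apply, Function.comp, this]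
          rfl) (by
        intro σ p hp
        obtain ⟨V, hV, hpV, hl⟩ := h4 (d' σ) p hp
        obtain ⟨k₁, k₂, k₃, hk⟩ := hNT σ
        exact ⟨V, hV, hpV, fun χ hχ hs => (hl χ hχ hs t (tI σ) _ k₁ k₂ k₃ hk).1 _ (hbf σ)⟩)
    have e : EqOn (cx χ * f) f d.U := fun p hp => by
      rw [Pi.mul_apply, h1' hp, Pi.one_apply, one_mul]
    calc ∫ y in d.S, H.ctr f (t, y) = ∫ y in d.S, H.ctr (cx χ * f) (t, y) :=
          setIntegral_congr_fun hmS fun y hy => (ctr_congr (sd_of hU e) ⟨ht, hy⟩).symm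
      _ = _ := hE
      _ = _ := setIntegral_congr_fun hmS fun y hy => by
          have := e (show ((t, y) : X) ∈ d.U from ⟨ht, hy⟩)
          simp only [Pi.mul_apply] at this ⊢
          rw [this]
  · have A := h0 d u gl.gs
    have A' := fun σ => h0 _ _ (gl.gs' σ)
    have sI : (iv2 u).SmOn d.U := ⟨A.bi11.sm, A.bi12.sm, A.bi22.sm⟩
    have bN : ∀ σ, B2 (d' σ) (nn (d' σ).τ (u' σ)) := fun σ =>
      let ⟨_, _, _, h⟩ := (A' σ).nt; b2_of h
    have sd : ∀ σ, SD2 (d' σ).U ((fr σ).pullT (iv2 u)) (nn (d' σ).τ (u' σ)) := by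
      intro σ
      have hU' := (d' σ).isOpen_U
      have k := ((h1 (fr σ) d.U hU).2.2 u A.sm fun p hp => (A.pW p hp).ne').2
      obtain ⟨c1, c2, c3⟩ := i_congr hU' (gl.eq σ)
      refine ⟨(sd_of hU' fun q hq => ?_).trans (sd_sub hU' (A' σ).bi11.sm (sm_o1 _) (DD_o1 _)),
        sd_of hU' fun q hq => ?_,
        (sd_of hU' fun q hq => ?_).trans (sd_sub hU' (A' σ).bi22.sm (sm_o2 _) (DD_o2 _))⟩
      · rw [c1 hq]; exact (k q (memU σ q hq)).2.2.2.2.1.1.symm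
      · exact (k q (memU σ q hq)).2.2.2.2.1.2.1.symm.trans (c2 hq).symm
      · rw [c3 hq]; exact (k q (memU σ q hq)).2.2.2.2.1.2.2.symm
    obtain ⟨χ, hχ, h1', hE⟩ := main (fun χ => (H.mul (cx χ)).rr (iv2 u))
      (fun χ => (H.mul (cx χ)).dd * ab u)
      (fun σ χ => (((fr σ).pullT H).mul (cx χ)).rr (nn (d' σ).τ (u' σ)))
      (fun σ χ => (((fr σ).pullT H).mul (cx χ)).dd * (nn (d' σ).τ (u' σ)).dd) (by
        intro χ χ' hχ hχ'
        have e : ∀ g : X → ℝ, cx (χ + χ') * g = cx χ * g + cx χ' * g := fun g => by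
          funext p; simp only [cx, Pi.mul_apply, Pi.add_apply]; ring
        have k : ∀ g : X → ℝ, ContDiffOn ℝ ∞ g d.U → ∀ p ∈ d.U,
            h11 (cx χ * g + cx χ' * g) p = h11 (cx χ * g) p + h11 (cx χ' * g) p ∧
            h12 (cx χ * g + cx χ' * g) p = h12 (cx χ * g) p + h12 (cx χ' * g) p ∧
            h22 (cx χ * g + cx χ' * g) p = h22 (cx χ * g) p + h22 (cx χ' * g) p :=
          fun g hg p hp => add3 hU ((sm_cx hχ).contDiffOn.mul hg)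
            ((sm_cx hχ').contDiffOn.mul hg) hp
        refine ⟨fun p hp => ?_, fun p hp => ?_⟩ <;>
        · obtain ⟨a1, a2, a3⟩ := k _ hH.1 p hp
          obtain ⟨b1, b2, b3⟩ := k _ hH.2.1 p hp
          obtain ⟨c1, c2, c3⟩ := k _ hH.2.2 p hp
          simp only [T2.mul, e, T2.rr, T2.dd, Pi.add_apply, Pi.mul_apply, a1, a2, a3, b1, b2, b3,
            c1, c2, c3]
          ring)
      (fun χ hχ => ⟨cont_rr hU (smOn_mul hH (sm_cx hχ)) sI,
        (cont_dd hU (smOn_mul hH (sm_cx hχ))).mul (cont_dd hU sI)⟩)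
      (fun σ χ hχ => ⟨((bH σ).mul (bd_of_sm (sm_cx hχ))).rr (bN σ),
        ((bH σ).mul (bd_of_sm (sm_cx hχ))).dd.mul (bN σ).dd⟩) (by
        intro σ χ hχ
        have k := ((h1 (fr σ) d.U hU).2.1 _ _ (smOn_mul hH (sm_cx hχ)) sI).2
        have k' := ((h1 (fr σ) d.U hU).2.1 _ _ sI sI).2
        refine ⟨fun q hq => ?_, fun q hq => ?_⟩
        · have := (k q (memU σ q hq)).2.2.1
          rw [gl.ρ, one_pow, one_mul, pull_mul, rr_congr SD2.rfl' (sd σ) hq] at this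
          exact this
        · have e1 := (k q (memU σ q hq)).2.1
          have e2 := (k' q (memU σ q hq)).2.1
          rw [gl.ρ, one_pow, one_mul] at e1 e2
          rw [pull_mul] at e1
          rw [dd_congr (sd σ) hq] at e2
          simp only [Pi.mul_apply, Function.comp, e1, e2, ab]) (by
        intro σ p hp
        obtain ⟨V, hV, hpV, hl⟩ := h4 (d' σ) p hp
        obtain ⟨k₁, k₂, k₃, hk⟩ := hNT σ
        obtain ⟨n₁, n₂, n₃, hn⟩ := (A' σ).nt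
        exact ⟨V, hV, hpV, fun χ hχ hs => (hl χ hχ hs t (tI σ) _ k₁ k₂ k₃ hk).2 _ n₁ n₂ n₃ hn⟩)
    have e : ∀ g : X → ℝ, SD d.U (cx χ * g) g := fun g => sd_of hU fun p hp => by
      rw [Pi.mul_apply, h1' hp, Pi.one_apply, one_mul]
    have e2 : SD2 d.U (H.mul (cx χ)) H := ⟨e _, e _, e _⟩
    calc ∫ y in d.S, H.rr (iv2 u) (t, y) = ∫ y in d.S, (H.mul (cx χ)).rr (iv2 u) (t, y) :=
          setIntegral_congr_fun hmS fun y hy => (rr_congr e2 SD2.rfl' ⟨ht, hy⟩).symm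
      _ = _ := hE
      _ = _ := setIntegral_congr_fun hmS fun y hy => by
          have := dd_congr e2 (show ((t, y) : X) ∈ d.U from ⟨ht, hy⟩)
          simp only [Pi.mul_apply] at this ⊢
          rw [this]

end Pool.Agent.P.MP_2cea5e_gt.I
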