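import Pool.Agent.P.MP_2cea5e_gt.I.GradAA

/-!
Chapter I: the gradient estimate in the annulus.
-/

open scoped ContDiff Topology
open MeasureTheory Set Filter

noncomputable section

set_option linter.dupNamespace false

namespace Pool.Agent.P.MP_2cea5e_gt.I

namespace GradA

theorem alg {a b c s s1 s2 s11 s12 s22 w w1 w2 tw G K σ : ℝ}
    (hq : ∀ n1 n2 : ℝ, 0 ≤ a * n1 * n1 + b * (n1 * n2 + n2 * n1) + c * n2 * n2 ∧
      a * n1 * n1 + b * (n1 * n2 + n2 * n1) + c * n2 * n2 ≤ (2 + 2 * G) * (n1 ^ 2 + n2 ^ 2))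
    (hG : 0 ≤ G) (htw : |tw| ≤ 3 * (√G + G)) (hσ : 0 < σ) (hσ1 : σ ≤ 1) (hw : |w| ≤ σ)
    (k0 : |s| ≤ K) (k1 : |s1| ≤ K) (k2 : |s2| ≤ K) (k11 : |s11| ≤ K) (k12 : |s12| ≤ K)
    (k22 : |s22| ≤ K) :
    s ^ 2 * (a * w1 * w1 + b * (w1 * w2 + w2 * w1) + c * w2 * w2) ≤
      2 * (s * w) * (w * (a * s11 + 2 * b * s12 + c * s22) +
        2 * (a * s1 * w1 + b * (s1 * w2 + s2 * w1) + c * s2 * w2) + s * tw) +
      2 * (a * (s1 * w + s * w1) ^ 2 + 2 * b * (s1 * w + s * w1) * (s2 * w + s * w2) +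
        c * (s2 * w + s * w2) ^ 2) + K ^ 2 * (84 * σ * G + (72 + 2 / σ) * w ^ 2) := by
  have hK : 0 ≤ K := (abs_nonneg _).trans k0
  have h0 := (hq (s * w1 + 4 * w * s1) (s * w2 + 4 * w * s2)).1
  have ha := hq 1 0
  have hc := hq 0 1
  have hb1 := (hq 1 1).1
  have hb2 := (hq 1 (-1)).1
  have ha0 : 0 ≤ a := by linarith [ha.1]
  have hc0 : 0 ≤ c := by linarith [hc.1]
  have hac : a + c ≤ 2 * (2 + 2 * G) := by linarith [ha.2, hc.2]
  have hb : |2 * b| ≤ a + c := abs_le.2 ⟨by linarith, by linarith⟩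
  have w2' : w ^ 2 ≤ σ := by
    have := sq_le_sq' (abs_le.1 hw).1 (abs_le.1 hw).2
    nlinarith
  have wG : w ^ 2 * G ≤ σ * G := mul_le_mul_of_nonneg_right w2' hG
  have T1 : a * s1 * s1 + b * (s1 * s2 + s2 * s1) + c * s2 * s2 ≤ (2 + 2 * G) * (2 * K ^ 2) := by
    refine (hq s1 s2).2.trans (mul_le_mul_of_nonneg_left ?_ (by linarith))
    linarith [sq_le_sq' (abs_le.1 k1).1 (abs_le.1 k1).2, sq_le_sq' (abs_le.1 k2).1 (abs_le.1 k2).2]
  have T2 : |a * s11 + 2 * b * s12 + c * s22| ≤ K * (4 * (2 + 2 * G)) := by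
    have e1 : |a * s11| ≤ a * K := by
      rw [abs_mul, abs_of_nonneg ha0]
      exact mul_le_mul_of_nonneg_left k11 ha0
    have e2 : |c * s22| ≤ c * K := by
      rw [abs_mul, abs_of_nonneg hc0]
      exact mul_le_mul_of_nonneg_left k22 hc0
    have e3 : |2 * b * s12| ≤ (a + c) * K := by
      rw [abs_mul]
      exact mul_le_mul hb k12 (abs_nonneg _) (by linarith)
    have e4 := mul_le_mul_of_nonneg_right hac hK
    linarith [abs_add_three (a * s11) (2 * b * s12) (c * s22)]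
  have T2' : |s * (a * s11 + 2 * b * s12 + c * s22)| ≤ K * (K * (4 * (2 + 2 * G))) := by
    rw [abs_mul]
    exact mul_le_mul k0 T2 (abs_nonneg _) hK
  have T3 : |w * tw| ≤ 6 * σ * G + w ^ 2 / σ := by
    rw [abs_mul]
    have e1 : |w| * |tw| ≤ |w| * (3 * (√G + G)) := mul_le_mul_of_nonneg_left htw (abs_nonneg _)
    have e2 : |w| * G ≤ σ * G := mul_le_mul_of_nonneg_right hw hG
    have e3 : 3 * (|w| * √G) ≤ 3 * σ * G + w ^ 2 / σ := by
      rw [← sub_le_iff_le_add', le_div_iff₀ hσ, ← sq_abs w]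
      have e4 : σ ^ 2 * √G ^ 2 = σ ^ 2 * G := by rw [Real.sq_sqrt hG]
      nlinarith [sq_nonneg (|w| - 3 / 2 * σ * √G), sq_nonneg (σ * √G)]
    linarith
  have s2' : s ^ 2 ≤ K ^ 2 := sq_le_sq' (abs_le.1 k0).1 (abs_le.1 k0).2
  have T3' : -(K ^ 2 * (6 * σ * G + w ^ 2 / σ)) ≤ s ^ 2 * (w * tw) := by
    have e1 : |s ^ 2 * (w * tw)| ≤ K ^ 2 * (6 * σ * G + w ^ 2 / σ) := by
      rw [abs_mul, abs_of_nonneg (sq_nonneg s)]
      exact mul_le_mul s2' T3 (abs_nonneg _) (sq_nonneg _)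
    exact (abs_le.1 e1).1
  have U1 := mul_le_mul_of_nonneg_left T1 (sq_nonneg w)
  have U2 := mul_le_mul_of_nonneg_left (abs_le.1 T2').1 (sq_nonneg w)
  have U3 := mul_le_mul_of_nonneg_left wG (sq_nonneg K)
  have e : K ^ 2 * (84 * σ * G + (72 + 2 / σ) * w ^ 2) =
      84 * (K ^ 2 * (σ * G)) + 72 * (K ^ 2 * w ^ 2) + 2 * (K ^ 2 * (w ^ 2 / σ)) := by ring
  rw [e]
  linarith

variable {ς : ℝ × ℝ → ℝ} {d : Dm} {f g u : X → ℝ} {t : ℝ} {p : X}

theorem ctr_sq (hf : Bd d f) (hg : Bd d g) (H : T2) (hp : p ∈ d.U) :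
    H.ctr (f * g * (f * g)) p =
      2 * (f p * g p) * (g p * (H.a p * h11 f p + 2 * H.b p * h12 f p + H.c p * h22 f p) +
        2 * (H.a p * D e1 f p * D e1 g p + H.b p * (D e1 f p * D e2 g p + D e2 f p * D e1 g p) +
          H.c p * D e2 f p * D e2 g p) + f p * H.ctr g p) +
      2 * (H.a p * (D e1 f p * g p + f p * D e1 g p) ^ 2 +
        2 * H.b p * (D e1 f p * g p + f p * D e1 g p) * (D e2 f p * g p + f p * D e2 g p) +
        H.c p * (D e2 f p * g p + f p * D e2 g p) ^ 2) := by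
  simp only [T2.ctr, h11, h12, h22, Pi.add_apply, Pi.mul_apply, K_apply,
    DD_mul (hf.mul hg) (hf.mul hg) _ _ hp, DD_mul hf hg _ _ hp,
    D_mul_at _ (hf.diffAt hp) (hg.diffAt hp)]
  ring

theorem iv_of {b : Bool} {x : ℝ} (h1 : x ∈ iv b 1) (h2 : x ∈ ivc b (29 / 50)) :
    x ∈ iv b (3 / 5) := by
  cases b
  · simp only [iv, ivc, Bool.false_eq_true, if_false, mem_Ioo, mem_Icc] at *
    constructor <;> linarith [h2.1, h2.2]
  · simp only [iv, ivc, if_true, mem_Ioo, mem_Icc] at *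
    exact ⟨h1.1, by linarith [h2.2]⟩

theorem ev_zero {τ : Ty} (h : ∀ y ∈ bx τ 1, ς y ≠ 0 → y ∈ An τ (29 / 50) (3 / 10))
    {y : ℝ × ℝ} (hy : y ∈ bx τ 1) (hn : y ∉ An τ (3 / 5) (1 / 5)) : ς =ᶠ[𝓝 y] fun _ => 0 := by
  have hZ : IsClosed {z : ℝ × ℝ | z ∈ bxc τ (29 / 50) ∧
      ((3 / 10) ^ 2 ≤ om τ.1 z.1 ∨ (3 / 10) ^ 2 ≤ om τ.2 z.2)} :=
    (isCompact_bxc τ _).isClosed.inter
      ((isClosed_le continuous_const ((sm_om _).continuous.comp continuous_fst)).union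
        (isClosed_le continuous_const ((sm_om _).continuous.comp continuous_snd)))
  have hy' : y ∉ {z : ℝ × ℝ | z ∈ bxc τ (29 / 50) ∧
      ((3 / 10) ^ 2 ≤ om τ.1 z.1 ∨ (3 / 10) ^ 2 ≤ om τ.2 z.2)} := by
    rintro ⟨h1, h2⟩
    refine hn ⟨⟨iv_of hy.1 h1.1, iv_of hy.2 h1.2⟩, ?_⟩
    rcases h2 with h2 | h2
    · exact Or.inl (le_trans (by norm_num) h2)
    · exact Or.inr (le_trans (by norm_num) h2)
  filter_upwards [(isOpen_bx τ 1).mem_nhds hy, hZ.isOpen_compl.mem_nhds hy'] with z h1 h2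
  by_contra h0
  exact h2 ⟨bx_subset_bxc _ _ (h z h1 h0).1, (h z h1 h0).2⟩

theorem An_sub (τ : Ty) : An τ (3 / 5) (1 / 5) ⊆ An τ (19 / 20) (1 / 10) := fun _ h =>
  ⟨bx_mono τ (by norm_num) (by norm_num) h.1,
    h.2.imp (le_trans (by norm_num)) (le_trans (by norm_num))⟩

/-- The trace estimate under a sup bound. -/
theorem trace_sq (h5 : StTR) {w G : X → ℝ} (v : X) (hw : Bd d w) (hG : Lc d G)
    {A : Set (ℝ × ℝ)} (hA : Reg d A) (ht : t ∈ d.I) {γ : ℝ → ℝ × ℝ} (hγ : Continuous γ) {s : ℝ}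
    (hs : 0 < s) (hm : ∀ x ∈ Ioc 0 (2 * s), γ x ∈ A)
    (hd : ∀ (f : X → ℝ) (x : ℝ), DifferentiableAt ℝ f (t, γ x) →
      HasDerivAt (fun s => f (t, γ s)) (D v f (t, γ x)) x)
    (hb : ∀ x ∈ Ioo 0 (2 * s), 0 ≤ G (t, γ x) ∧
      x * |D v (D v w) (t, γ x)| ≤ √(G (t, γ x)) + G (t, γ x))
    (hσ : ∀ y ∈ A, |w (t, y)| ≤ s) {x : ℝ} (hx : x ∈ Ioo 0 s) :
    w (t, γ x) ^ 2 ≤ ∫ y in Ioo 0 (2 * s), (156 * s * G (t, γ y) + 1800 / s * w (t, γ y) ^ 2) := by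
  obtain ⟨a, e, h1, h2, h3, h4⟩ := trace h5 v hw hG hA ht hγ hs hm hd hb
  have hm' : ∀ x ∈ Ioo 0 (2 * s), γ x ∈ A := fun x hx => hm x (Ioo_subset_Ioc_self hx)
  rw [integral_add ((line_int hG hA ht hγ hm').const_mul _)
    ((line_int (hw.lc.pow 2) hA ht hγ hm').const_mul _), integral_const_mul, integral_const_mul]
  have h6 := h4 x (Ioo_subset_Ioc_self hx)
  have h7 := hσ _ (hm x ⟨hx.1, by linarith [hx.2, hx.1]⟩)
  rw [← sq_abs (w (t, γ x))]
  have h8 := abs_nonneg (w (t, γ x))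
  set I := ∫ y in Ioo 0 (2 * s), G (t, γ y)
  set J := ∫ y in Ioo 0 (2 * s), w (t, γ y) ^ 2
  set z := |w (t, γ x)|
  have e1 : 1800 / s * J = 2 * (900 / s * J) := by ring
  have e2 : z * I ≤ s * I := mul_le_mul_of_nonneg_right h7 h3
  rcases le_total z (6 * I) with h | h
  · nlinarith [sq_nonneg a, sq_nonneg e]
  · have e3 : (z - 6 * I) ^ 2 ≤ (a + e) ^ 2 := sq_le_sq' (by linarith) (by linarith)
    nlinarith [sq_nonneg (a - e), sq_nonneg I]

/-- The lines on which the cutoff does not vanish near the face. -/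
def JJ (b : Bool) : Set ℝ := {x | x ∈ iv b (29 / 50) ∧ (3 / 10) ^ 2 ≤ om b x}

theorem ms_JJ (b : Bool) : MeasurableSet (JJ b) :=
  (isOpen_iv b _).measurableSet.inter
    (isClosed_le continuous_const (sm_om _).continuous).measurableSet

theorem JJ_sub (b : Bool) : JJ b ⊆ iv b 1 := fun _ h =>
  iv_mono b (by norm_num) (by norm_num) h.1

theorem mem_iv {b : Bool} (hb : b = true) {s x : ℝ} (hs : s ≤ 1 / 20) (hx : x ∈ Ioc 0 (2 * s)) :
    x ∈ iv b (3 / 5) := by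
  subst hb
  simp only [iv, if_true, mem_Ioo]
  exact ⟨hx.1, by linarith [hx.2]⟩

theorem om_small {b : Bool} (hb : b = true) {s x : ℝ} (hs : s ≤ 1 / 20) (hx : x ∈ Ioo 0 s) :
    ¬ (3 / 10) ^ 2 ≤ om b x := by
  subst hb
  simp only [om, if_true, not_le]
  linarith [hx.2]

end GradA

open GradA in
theorem gradA_ok (h1 : StApi) (h2 : StAlg) (h3 : StIBP1) (h4 : StIBP2) (h5 : StTR) :
    StGradA := by
  intro τ ς hς hsup κ hκ
  obtain ⟨K0, k0⟩ := bound τ hς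
  obtain ⟨K1, k1⟩ := bound τ (sm_dd e1 hς)
  obtain ⟨K2, k2⟩ := bound τ (sm_dd e2 hς)
  obtain ⟨K11, k11⟩ := bound τ (sm_dd e1 (sm_dd e1 hς))
  obtain ⟨K12, k12⟩ := bound τ (sm_dd e1 (sm_dd e2 hς))
  obtain ⟨K22, k22⟩ := bound τ (sm_dd e2 (sm_dd e2 hς))
  obtain ⟨K, hK, l0, l1, l2, l11, l12, l22⟩ : ∃ K : ℝ, 0 < K ∧ K0 ≤ K ∧ K1 ≤ K ∧ K2 ≤ K ∧
      K11 ≤ K ∧ K12 ≤ K ∧ K22 ≤ K := by
    refine ⟨1 + |K0| + |K1| + |K2| + |K11| + |K12| + |K22|, by positivity, ?_, ?_, ?_, ?_, ?_,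
      ?_⟩ <;>
    linarith [le_abs_self K0, le_abs_self K1, le_abs_self K2, le_abs_self K11, le_abs_self K12,
      le_abs_self K22, abs_nonneg K0, abs_nonneg K1, abs_nonneg K2, abs_nonneg K11,
      abs_nonneg K12, abs_nonneg K22]
  obtain ⟨σ, hσ, hσ1, hσ2⟩ : ∃ σ : ℝ, 0 < σ ∧ σ ≤ 1 / 20 ∧ K ^ 2 * (396 * σ) ≤ κ := by
    refine ⟨min (1 / 20) (κ / (396 * K ^ 2)), by positivity, min_le_left _ _, ?_⟩
    have := min_le_right (1 / 20) (κ / (396 * K ^ 2))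
    rw [le_div_iff₀ (by positivity)] at this
    linarith
  refine ⟨K ^ 2 * (72 + 3602 / σ), σ, hσ, ?_⟩
  rintro d u F t rfl hS hB
  have A := h1 d u hS.gs.toGS0
  have ht := hS.tI
  have hO := hS.bO
  have hw := hS.gs.bd
  have hR := reg_bx hO
  have hAn : An d.τ (3 / 5) (1 / 5) ⊆ bx d.τ 1 :=
    (An_subset _ _ _).trans (bx_mono _ (by norm_num) (by norm_num))
  have hRA := hR.mono (measurableSet_An _ _ _) hAn
  have hs : Bd d (L ς) := bd_of_sm (sm_L hς)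
  have hf := (hs.mul hw).mul (hs.mul hw)
  have hv : Van d.τ (L ς * wv d.τ u * (L ς * wv d.τ u)) t := by
    refine ⟨29 / 50, by norm_num, by norm_num, fun y hy hn => ?_⟩
    have : ς y = 0 := by
      by_contra h0
      exact hn (hsup y hy h0).1
    simp [L, this]
  have hU : ∀ y ∈ bx d.τ 1, (t, y) ∈ d.U := fun y hy => ⟨ht, hR.sub hy⟩
  have hpt := fun y hy => pt h2 A (hU y hy) hy
  have hwσ : ∀ y ∈ An d.τ (3 / 5) (1 / 5), |wv d.τ u (t, y)| ≤ σ := fun y hy => hB y (An_sub _ hy)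
  have iG := A.bg.lc.integrableOn hRA ht
  have iW := (hw.lc.pow 2).integrableOn hRA ht
  have iP : ∀ a b : ℝ, IntegrableOn
      (fun y => K ^ 2 * (a * gex d.τ u (t, y) + b * wv d.τ u (t, y) ^ 2))
      (An d.τ (3 / 5) (1 / 5)) := fun a b => ((iG.const_mul a).add (iW.const_mul b)).const_mul _
  have eP : ∀ a b : ℝ, ∫ y in An d.τ (3 / 5) (1 / 5),
      K ^ 2 * (a * gex d.τ u (t, y) + b * wv d.τ u (t, y) ^ 2) =
      K ^ 2 * (a * (∫ y in An d.τ (3 / 5) (1 / 5), gex d.τ u (t, y)) +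
        b * ∫ y in An d.τ (3 / 5) (1 / 5), wv d.τ u (t, y) ^ 2) := fun a b => by
    rw [integral_const_mul, integral_add (iG.const_mul a) (iW.const_mul b), integral_const_mul,
      integral_const_mul]
  have nP : ∀ y ∈ An d.τ (3 / 5) (1 / 5),
      0 ≤ K ^ 2 * (156 * σ * gex d.τ u (t, y) + 1800 / σ * wv d.τ u (t, y) ^ 2) := fun y hy => by
    have := (hpt y (hAn hy)).1
    positivity
  have nI := setIntegral_nonneg (μ := volume) hRA.ms nP
  have fle : ∀ y ∈ bx d.τ 1, ∀ z : ℝ, wv d.τ u (t, y) ^ 2 ≤ z →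
      (L ς * wv d.τ u * (L ς * wv d.τ u)) (t, y) ≤ K ^ 2 * z := by
    intro y hy z hz
    have e : (L ς * wv d.τ u * (L ς * wv d.τ u)) (t, y) = ς y ^ 2 * wv d.τ u (t, y) ^ 2 := by
      simp only [Pi.mul_apply, L]
      ring
    have := abs_le.1 ((k0 y hy).trans l0)
    rw [e]
    exact mul_le_mul (sq_le_sq' this.1 this.2) hz (sq_nonneg _) (sq_nonneg _)
  have f0 : ∀ y, ς y = 0 → (L ς * wv d.τ u * (L ς * wv d.τ u)) (t, y) = 0 := fun y h => by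
    simp [L, h]
  obtain ⟨-, -, F1, F2, -⟩ := h3 d _ t hf ht hO hv
  have face1 : -∫ y in bx d.τ 1, D e1 (L ς * wv d.τ u * (L ς * wv d.τ u)) (t, y) ≤
      ∫ y in An d.τ (3 / 5) (1 / 5),
        K ^ 2 * (156 * σ * gex d.τ u (t, y) + 1800 / σ * wv d.τ u (t, y) ^ 2) := by
    by_cases hb : d.τ.1 = true
    · have hm : ∀ b ∈ JJ d.τ.2, ∀ x ∈ Ioc 0 (2 * σ), (x, b) ∈ An d.τ (3 / 5) (1 / 5) :=
        fun b hb' x hx => ⟨⟨mem_iv hb hσ1 hx, iv_mono _ (by norm_num) (by norm_num) hb'.1⟩,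
          Or.inr (le_trans (by norm_num) hb'.2)⟩
      have hsub : Ioo 0 (2 * σ) ×ˢ JJ d.τ.2 ⊆ An d.τ (3 / 5) (1 / 5) := fun y hy =>
        hm _ hy.2 _ (Ioo_subset_Ioc_self hy.1)
      obtain ⟨-, j1, j2⟩ := fub ((iP (156 * σ) (1800 / σ)).mono_set hsub)
      obtain ⟨j3, j4⟩ := ind (ms_JJ _) (JJ_sub _) j1
      refine (F1 _ σ hσ j3 fun b hb' => ?_).trans ?_
      · by_cases hJ : b ∈ JJ d.τ.2
        · rw [indicator_of_mem hJ]
          refine ⟨setIntegral_nonneg measurableSet_Ioo fun x hx => nP _ (hsub ⟨hx, hJ⟩),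
            fun _ x hx => ?_⟩
          rw [integral_const_mul]
          refine fle _ (hAn (hm b hJ x ⟨hx.1, by linarith [hx.1, hx.2]⟩)) _ ?_
          refine trace_sq h5 e1 hw A.bg.lc hRA ht (γ := fun x => (x, b)) (by fun_prop) hσ
            (hm b hJ) (fun f x h => hasDerivAt_y1 h) (fun x hx => ?_) hwσ hx
          obtain ⟨q1, q2, -⟩ := hpt _ (hAn (hsub (show (x, b) ∈ _ from ⟨hx, hJ⟩)))
          refine ⟨q1, ?_⟩
          have e : o1 d.τ (t, x, b) = x := by simp [o1, om, hb]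
          rwa [e, abs_mul, abs_of_pos hx.1] at q2
        · rw [indicator_of_notMem hJ]
          refine ⟨le_rfl, fun _ x hx => (f0 _ ?_).le⟩
          by_contra h0
          have := hsup (x, b) ⟨iv_mono _ (by norm_num) (by norm_num)
            (mem_iv hb hσ1 ⟨hx.1, by linarith [hx.1, hx.2]⟩), hb'⟩ h0
          exact hJ ⟨this.1.2, this.2.resolve_left (om_small hb hσ1 hx)⟩
      · rw [j4, j2]
        exact setIntegral_mono_set (iP _ _)
          ((ae_restrict_iff' hRA.ms).mpr (Eventually.of_forall nP)) hsub.eventuallyLE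
    · refine (F1 (fun _ => 0) 1 one_pos integrableOn_zero
        fun b _ => ⟨le_rfl, fun h => absurd h hb⟩).trans ?_
      simpa using nI
  have face2 : -∫ y in bx d.τ 1, D e2 (L ς * wv d.τ u * (L ς * wv d.τ u)) (t, y) ≤
      ∫ y in An d.τ (3 / 5) (1 / 5),
        K ^ 2 * (156 * σ * gex d.τ u (t, y) + 1800 / σ * wv d.τ u (t, y) ^ 2) := by
    by_cases hb : d.τ.2 = true
    · have hm : ∀ b ∈ JJ d.τ.1, ∀ x ∈ Ioc 0 (2 * σ), (b, x) ∈ An d.τ (3 / 5) (1 / 5) :=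
        fun b hb' x hx => ⟨⟨iv_mono _ (by norm_num) (by norm_num) hb'.1, mem_iv hb hσ1 hx⟩,
          Or.inl (le_trans (by norm_num) hb'.2)⟩
      have hsub : JJ d.τ.1 ×ˢ Ioo 0 (2 * σ) ⊆ An d.τ (3 / 5) (1 / 5) := fun y hy =>
        hm _ hy.1 _ (Ioo_subset_Ioc_self hy.2)
      obtain ⟨⟨j1, j2⟩, -⟩ := fub ((iP (156 * σ) (1800 / σ)).mono_set hsub)
      obtain ⟨j3, j4⟩ := ind (ms_JJ _) (JJ_sub _) j1
      refine (F2 _ σ hσ j3 fun b hb' => ?_).trans ?_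
      · by_cases hJ : b ∈ JJ d.τ.1
        · rw [indicator_of_mem hJ]
          refine ⟨setIntegral_nonneg measurableSet_Ioo fun x hx => nP _ (hsub ⟨hJ, hx⟩),
            fun _ x hx => ?_⟩
          rw [integral_const_mul]
          refine fle _ (hAn (hm b hJ x ⟨hx.1, by linarith [hx.1, hx.2]⟩)) _ ?_
          refine trace_sq h5 e2 hw A.bg.lc hRA ht (γ := fun x => (b, x)) (by fun_prop) hσ
            (hm b hJ) (fun f x h => hasDerivAt_y2 h) (fun x hx => ?_) hwσ hx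
          obtain ⟨q1, -, q2, -⟩ := hpt _ (hAn (hsub (show (b, x) ∈ _ from ⟨hJ, hx⟩)))
          refine ⟨q1, ?_⟩
          have e : o2 d.τ (t, b, x) = x := by simp [o2, om, hb]
          rwa [e, abs_mul, abs_of_pos hx.1] at q2
        · rw [indicator_of_notMem hJ]
          refine ⟨le_rfl, fun _ x hx => (f0 _ ?_).le⟩
          by_contra h0
          have := hsup (b, x) ⟨hb', iv_mono _ (by norm_num) (by norm_num)
            (mem_iv hb hσ1 ⟨hx.1, by linarith [hx.1, hx.2]⟩)⟩ h0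
          exact hJ ⟨this.1.1, this.2.resolve_right (om_small hb hσ1 hx)⟩
      · rw [j4, j2]
        exact setIntegral_mono_set (iP _ _)
          ((ae_restrict_iff' hRA.ms).mpr (Eventually.of_forall nP)) hsub.eventuallyLE
    · refine (F2 (fun _ => 0) 1 one_pos integrableOn_zero
        fun b _ => ⟨le_rfl, fun h => absurd h hb⟩).trans ?_
      simpa using nI
  have hk := key h3 h4 A hf ht hO hv
  have iC := (bd_ctr (H := iv2 u) A.bi11 A.bi12 A.bi22 hf).lc.integrableOn hR ht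
  have iI := ((integrable_indicator_iff hRA.ms).2 (iP (84 * σ) (72 + 2 / σ))).integrableOn
    (s := bx d.τ 1)
  have main : ∫ y in bx d.τ 1, ς y ^ 2 * gu u (wv d.τ u) (t, y) ≤
      ∫ y in bx d.τ 1, ((iv2 u).ctr (L ς * wv d.τ u * (L ς * wv d.τ u)) (t, y) +
        (An d.τ (3 / 5) (1 / 5)).indicator (fun y => K ^ 2 * (84 * σ * gex d.τ u (t, y) +
          (72 + 2 / σ) * wv d.τ u (t, y) ^ 2)) y) := by
    refine setIntegral_mono_on (((hs.lc.pow 2).mul (bd_gu A hw).lc).integrableOn hR ht)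
      (iC.add iI) hR.ms fun y hy => ?_
    rw [ctr_sq hs hw _ (hU y hy)]
    simp only [h11, h12, h22, D_L _ hς, D_L _ (sm_dd _ hς), L]
    by_cases hy' : y ∈ An d.τ (3 / 5) (1 / 5)
    · rw [indicator_of_mem hy']
      obtain ⟨q1, -, -, q2, q3⟩ := hpt y hy
      exact alg (fun n1 n2 => q3 (n1, n2)) q1 q2 hσ (by linarith) (hwσ y hy')
        ((k0 y hy).trans l0) ((k1 y hy).trans l1) ((k2 y hy).trans l2) ((k11 y hy).trans l11)
        ((k12 y hy).trans l12) ((k22 y hy).trans l22)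
    · have z0 := ev_zero hsup hy hy'
      rw [indicator_of_notMem hy', z0.eq_of_nhds, (dd_zero e1 z0).eq_of_nhds,
        (dd_zero e2 z0).eq_of_nhds]
      simp
  rw [integral_add iC iI, setIntegral_indicator hRA.ms, inter_eq_right.2 hAn, hk, eP] at main
  rw [eP] at face1 face2
  have e5 : ∫ y in bx d.τ 1, (L ς * wv d.τ u * (L ς * wv d.τ u)) (t, y) * D e0 u (t, y) =
      ∫ y in bx d.τ 1, ς y ^ 2 * wv d.τ u (t, y) ^ 2 * D e0 u (t, y) := by
    refine setIntegral_congr_fun hR.ms fun y _ => ?_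
    simp only [Pi.mul_apply, L]
    ring
  rw [e5] at main
  have nG : 0 ≤ ∫ y in An d.τ (3 / 5) (1 / 5), gex d.τ u (t, y) :=
    setIntegral_nonneg hRA.ms fun y hy => (hpt y (hAn hy)).1
  have e6 := mul_le_mul_of_nonneg_right hσ2 nG
  have e7 : ∀ a b : ℝ, K ^ 2 * (84 * σ * a + (72 + 2 / σ) * b) +
      2 * (K ^ 2 * (156 * σ * a + 1800 / σ * b)) =
      K ^ 2 * (396 * σ) * a + K ^ 2 * (72 + 3602 / σ) * b := fun a b => by ring
  have e8 := e7 (∫ y in An d.τ (3 / 5) (1 / 5), gex d.τ u (t, y))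
    (∫ y in An d.τ (3 / 5) (1 / 5), wv d.τ u (t, y) ^ 2)
  linarith

end Pool.Agent.P.MP_2cea5e_gt.I
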