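import Pool.Agent.P.MP_2cea5e_gt.I.St1

/-!
Green formula on an interval, almost concave functions, trace estimate.
-/

open scoped Topology
open MeasureTheory Set Filter

noncomputable section

namespace Pool.Agent.P.MP_2cea5e_gt.I

namespace Green

theorem C2On_mono {f f' f'' : ℝ → ℝ} {s t : Set ℝ} (h : C2On f f' f'' s) (hts : t ⊆ s) :
    C2On f f' f'' t :=
  ⟨fun x hx => h.d1 x (hts hx), fun x hx => h.d2 x (hts hx), h.c2.mono hts⟩

theorem cheap_mono {F : ℝ → ℝ} {a b c d ε : ℝ} (h : Cheap F a b ε) (hac : a ≤ c) (hdb : d ≤ b) :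
    Cheap F c d ε := by
  have hsub : Ioo c d ⊆ Ioo a b := Ioo_subset_Ioo hac hdb
  refine ⟨fun x hx => h.nn x (hsub hx), h.int.mono_set hsub, le_trans ?_ h.le⟩
  refine setIntegral_mono_set h.int ?_ hsub.eventuallyLE
  exact (ae_restrict_iff' measurableSet_Ioo).2 (Eventually.of_forall h.nn)

theorem cheap_nonneg {F : ℝ → ℝ} {a b ε : ℝ} (h : Cheap F a b ε) : 0 ≤ ε :=
  le_trans (setIntegral_nonneg measurableSet_Ioo h.nn) h.le

theorem green_cont (a b x : ℝ) : Continuous (fun s => green a b x s) := by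
  unfold green
  fun_prop

theorem green_nonneg {a b x s : ℝ} (hab : a < b) (hx : x ∈ Icc a b) (hs : s ∈ Icc a b) :
    0 ≤ green a b x s := by
  unfold green
  have h1 : 0 ≤ min x s - a := sub_nonneg.2 (le_min hx.1 hs.1)
  have h2 : 0 ≤ b - max x s := sub_nonneg.2 (max_le hx.2 hs.2)
  exact div_nonneg (mul_nonneg h1 h2) (sub_pos.2 hab).le

theorem green_le_left {a b x s : ℝ} (hab : a < b) (hx : x ∈ Icc a b) (hs : s ∈ Icc a b) :
    green a b x s ≤ min x s - a := by
  unfold green
  have h1 : 0 ≤ min x s - a := sub_nonneg.2 (le_min hx.1 hs.1)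
  have h3 : b - max x s ≤ b - a := by
    have := le_max_left x s
    linarith [hx.1]
  rw [div_le_iff₀ (sub_pos.2 hab)]
  exact mul_le_mul_of_nonneg_left h3 h1

theorem green_le_right {a b x s : ℝ} (hab : a < b) (hx : x ∈ Icc a b) (hs : s ∈ Icc a b) :
    green a b x s ≤ b - max x s := by
  unfold green
  have h2 : 0 ≤ b - max x s := sub_nonneg.2 (max_le hx.2 hs.2)
  have h3 : min x s - a ≤ b - a := by
    have := min_le_left x s
    linarith [hx.2]
  rw [div_le_iff₀ (sub_pos.2 hab), mul_comm (b - max x s)]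
  exact mul_le_mul_of_nonneg_right h3 h2

theorem green_le_min {a b x s : ℝ} (hab : a < b) (hx : x ∈ Icc a b) (hs : s ∈ Icc a b) :
    green a b x s ≤ min (x - a) (b - x) := by
  refine le_min ?_ ?_
  · have := green_le_left hab hx hs
    have := min_le_left x s
    linarith
  · have := green_le_right hab hx hs
    have := le_max_left x s
    linarith

theorem ioo_eq {f : ℝ → ℝ} {a b : ℝ} (hab : a ≤ b) :
    ∫ s in Ioo a b, f s = ∫ s in a..b, f s := by
  rw [intervalIntegral.integral_of_le hab, integral_Ioc_eq_integral_Ioo]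

theorem int_green {y y' y'' : ℝ → ℝ} {a b : ℝ} (x : ℝ) (h : C2On y y' y'' (Icc a b)) :
    IntegrableOn (fun s => green a b x s * y'' s) (Ioo a b) :=
  (((green_cont a b x).continuousOn.mul h.c2).integrableOn_compact isCompact_Icc).mono_set
    Ioo_subset_Icc_self

theorem exists_small {f : ℝ → ℝ} {p q c d : ℝ} (hf : ContinuousOn f (Icc p q))
    (h0 : ∀ x, 0 ≤ f x) (hpc : p ≤ c) (hcd : c < d) (hdq : d ≤ q) :
    ∃ a ∈ Icc c d, f a * (d - c) ≤ ∫ y in Ioo p q, f y := by
  have hsub : Icc c d ⊆ Icc p q := Icc_subset_Icc hpc hdq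
  obtain ⟨a, ha, hmin⟩ := isCompact_Icc.exists_isMinOn (nonempty_Icc.2 hcd.le) (hf.mono hsub)
  refine ⟨a, ha, ?_⟩
  have hint : IntegrableOn f (Ioo p q) :=
    (hf.integrableOn_compact isCompact_Icc).mono_set Ioo_subset_Icc_self
  have hsub' : Ioo c d ⊆ Ioo p q := Ioo_subset_Ioo hpc hdq
  have h1 : ∫ y in Ioo c d, f y ≤ ∫ y in Ioo p q, f y :=
    setIntegral_mono_set hint (Eventually.of_forall h0) hsub'.eventuallyLE
  have h2 : ∫ _ in Ioo c d, f a ≤ ∫ y in Ioo c d, f y := by
    refine setIntegral_mono_on ?_ (hint.mono_set hsub') measurableSet_Ioo ?_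
    · exact (continuousOn_const.integrableOn_compact isCompact_Icc).mono_set Ioo_subset_Icc_self
    · intro y hy
      exact hmin (Ioo_subset_Icc_self hy)
  have h3 : ∫ _ in Ioo c d, f a = f a * (d - c) := by
    rw [ioo_eq hcd.le, intervalIntegral.integral_const, smul_eq_mul, mul_comm]
  linarith

end Green

open Green

theorem green_ok : StGreen := by
  intro y y' y'' a b x hab h hx
  have hba : b - a ≠ 0 := (sub_pos.2 hab).ne'
  have hcont : ContinuousOn (fun s => green a b x s * y'' s) (Icc a b) :=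
    (green_cont a b x).continuousOn.mul h.c2
  have hs1 : uIcc a x ⊆ Icc a b := by
    rw [uIcc_of_le hx.1]; exact Icc_subset_Icc le_rfl hx.2
  have hs2 : uIcc x b ⊆ Icc a b := by
    rw [uIcc_of_le hx.2]; exact Icc_subset_Icc hx.1 le_rfl
  have hi1 : IntervalIntegrable (fun s => green a b x s * y'' s) volume a x :=
    (hcont.mono hs1).intervalIntegrable
  have hi2 : IntervalIntegrable (fun s => green a b x s * y'' s) volume x b :=
    (hcont.mono hs2).intervalIntegrable
  have e1 : ∫ s in a..x, green a b x s * y'' s =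
      (b - x) / (b - a) * ((x - a) * y' x - y x) - (b - x) / (b - a) * ((a - a) * y' a - y a) := by
    refine intervalIntegral.integral_eq_sub_of_hasDerivAt
      (f := fun s => (b - x) / (b - a) * ((s - a) * y' s - y s)) ?_ hi1
    intro s hs
    have hs' := hs1 hs
    rw [uIcc_of_le hx.1] at hs
    have := ((((hasDerivAt_id s).sub_const a).mul (h.d2 s hs')).sub (h.d1 s hs')).const_mul
      ((b - x) / (b - a))
    refine this.congr_deriv ?_
    unfold green
    rw [min_eq_right hs.2, max_eq_left hs.2]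
    simp only [id]
    field_simp
    ring
  have e2 : ∫ s in x..b, green a b x s * y'' s =
      (x - a) / (b - a) * ((b - b) * y' b + y b) - (x - a) / (b - a) * ((b - x) * y' x + y x) := by
    refine intervalIntegral.integral_eq_sub_of_hasDerivAt
      (f := fun s => (x - a) / (b - a) * ((b - s) * y' s + y s)) ?_ hi2
    intro s hs
    have hs' := hs2 hs
    rw [uIcc_of_le hx.2] at hs
    have := ((((hasDerivAt_id s).const_sub b).mul (h.d2 s hs')).add (h.d1 s hs')).const_mul
      ((x - a) / (b - a))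
    refine this.congr_deriv ?_
    unfold green
    rw [min_eq_left hs.1, max_eq_right hs.1]
    simp only [id]
    field_simp
    ring
  rw [ioo_eq hab.le, ← intervalIntegral.integral_add_adjacent_intervals hi1 hi2, e1, e2]
  unfold chord
  field_simp
  ring

namespace Green

theorem conc1 (m m' m'' F : ℝ → ℝ) (a b ε x : ℝ) (hab : a < b) (h : C2On m m' m'' (Icc a b))
    (hF : Cheap F a b ε) (hle : ∀ s ∈ Ioo a b, m'' s ≤ F s) (hx : x ∈ Icc a b) :
    chord m a b x - min (x - a) (b - x) * ε ≤ m x := by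
  have hg := green_ok m m' m'' a b x hab h hx
  have hmin : 0 ≤ min (x - a) (b - x) := le_min (sub_nonneg.2 hx.1) (sub_nonneg.2 hx.2)
  have h1 : ∫ s in Ioo a b, green a b x s * m'' s ≤
      ∫ s in Ioo a b, min (x - a) (b - x) * F s := by
    refine setIntegral_mono_on (int_green x h) (hF.int.const_mul _) measurableSet_Ioo ?_
    intro s hs
    have hs' := Ioo_subset_Icc_self hs
    exact (mul_le_mul_of_nonneg_left (hle s hs) (green_nonneg hab hx hs')).trans
      (mul_le_mul_of_nonneg_right (green_le_min hab hx hs') (hF.nn s hs))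
  rw [integral_const_mul] at h1
  have h2 := mul_le_mul_of_nonneg_left hF.le hmin
  linarith

end Green

theorem conc_ok : StConc := by
  refine ⟨conc1, ?_, ?_⟩
  · intro m m' m'' F a b ε x hab h hF hle h0 hx
    have hε := cheap_nonneg hF
    have hlim : Tendsto (fun t => (x - t) * (m b / (b - t) - ε)) (𝓝[>] a)
        (𝓝 ((x - a) * (m b / (b - a) - ε))) := by
      refine Tendsto.mono_left (ContinuousAt.tendsto ?_) nhdsWithin_le_nhds
      have : b - a ≠ 0 := (sub_pos.2 hab).ne'
      fun_prop (disch := exact this)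
    refine le_of_tendsto hlim ?_
    filter_upwards [Ioo_mem_nhdsGT hx.1] with t ht
    have htb : t < b := ht.2.trans_le hx.2
    have hc := conc1 m m' m'' F t b ε x htb (C2On_mono h (Icc_subset_Ioc_left ht.1))
      (cheap_mono hF ht.1.le le_rfl) (fun s hs => hle s ⟨ht.1.trans hs.1, hs.2⟩) ⟨ht.2.le, hx.2⟩
    have hmt := h0 t ⟨ht.1, htb⟩
    have h1 : (x - t) * (m b / (b - t)) ≤ chord m t b x := by
      unfold chord
      rw [← mul_div_assoc]
      refine div_le_div_of_nonneg_right ?_ (sub_pos.2 htb).le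
      have := mul_nonneg (sub_nonneg.2 hx.2) hmt
      linarith
    have h2 := mul_le_mul_of_nonneg_right (min_le_left (x - t) (b - x)) hε
    rw [mul_sub]
    linarith
  · intro m m' m'' F a b ε x hab h hF hle h0 hx
    have hε := cheap_nonneg hF
    have hlim : Tendsto (fun t => (t - x) * (m a / (t - a) - ε)) (𝓝[<] b)
        (𝓝 ((b - x) * (m a / (b - a) - ε))) := by
      refine Tendsto.mono_left (ContinuousAt.tendsto ?_) nhdsWithin_le_nhds
      have : b - a ≠ 0 := (sub_pos.2 hab).ne'
      fun_prop (disch := exact this)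
    refine le_of_tendsto hlim ?_
    filter_upwards [Ioo_mem_nhdsLT hx.2] with t ht
    have hat : a < t := hx.1.trans_lt ht.1
    have hc := conc1 m m' m'' F a t ε x hat (C2On_mono h (Icc_subset_Ico_right ht.2))
      (cheap_mono hF le_rfl ht.2.le) (fun s hs => hle s ⟨hs.1, hs.2.trans ht.2⟩) ⟨hx.1, ht.1.le⟩
    have hmt := h0 t ⟨hat, ht.2⟩
    have h1 : (t - x) * (m a / (t - a)) ≤ chord m a t x := by
      unfold chord
      rw [← mul_div_assoc]
      refine div_le_div_of_nonneg_right ?_ (sub_pos.2 hat).le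
      have := mul_nonneg (sub_nonneg.2 hx.1) hmt
      linarith
    have h2 := mul_le_mul_of_nonneg_right (min_le_right (x - a) (t - x)) hε
    rw [mul_sub]
    linarith

theorem tr_ok : StTR := by
  intro h h' h'' s x hs hC hint hx
  set I := ∫ y in Ioo 0 (2 * s), y * |h'' y| with hI
  set J := ∫ y in Ioo s (2 * s), |h y| with hJ
  have hcont : ContinuousOn (fun y => |h y|) (Icc s (2 * s)) := by
    intro y hy
    exact (hC.d1 y ⟨hs.trans_le hy.1, hy.2⟩).continuousAt.abs.continuousWithinAt
  obtain ⟨a, ha, hA⟩ := exists_small (c := s) (d := 4 * s / 3) hcont (fun y => abs_nonneg _)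
    le_rfl (by linarith) (by linarith)
  obtain ⟨b, hb, hB⟩ := exists_small (c := 5 * s / 3) (d := 2 * s) hcont (fun y => abs_nonneg _)
    (by linarith) (by linarith) le_rfl
  rw [← hJ] at hA hB
  have hxb : x < b := by linarith [hx.2, hb.1]
  have hax : a ∈ Icc x b := ⟨by linarith [hx.2, ha.1], by linarith [ha.2, hb.1]⟩
  have hsub : Icc x b ⊆ Ioc 0 (2 * s) := fun y hy => ⟨hx.1.trans_le hy.1, hy.2.trans hb.2⟩
  have hC' := C2On_mono hC hsub
  have hg := green_ok h h' h'' x b a hxb hC' hax
  have hsub' : Ioo x b ⊆ Ioo 0 (2 * s) := Ioo_subset_Ioo hx.1.le hb.2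
  have h1 : |∫ y in Ioo x b, green x b a y * h'' y| ≤ I := by
    have h2 : ∫ y in Ioo x b, y * |h'' y| ≤ I := by
      refine setIntegral_mono_set hint ?_ hsub'.eventuallyLE
      refine (ae_restrict_iff' measurableSet_Ioo).2 (Eventually.of_forall fun y hy => ?_)
      exact mul_nonneg hy.1.le (abs_nonneg _)
    refine le_trans ?_ h2
    refine (abs_integral_le_integral_abs).trans ?_
    refine setIntegral_mono_on (int_green a hC').abs (hint.mono_set hsub') measurableSet_Ioo ?_
    intro y hy
    have hy' := Ioo_subset_Icc_self hy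
    rw [abs_mul, abs_of_nonneg (green_nonneg hxb hax hy')]
    refine mul_le_mul_of_nonneg_right ?_ (abs_nonneg _)
    have := green_le_left hxb hax hy'
    have := min_le_right a y
    linarith [hx.1]
  rw [← hg] at h1
  have hI0 : 0 ≤ I := (abs_nonneg _).trans h1
  have hbx : 0 < b - x := sub_pos.2 hxb
  have key : (b - a) * h x = (b - x) * (chord h x b a - h a) + (b - x) * h a - (a - x) * h b := by
    unfold chord
    field_simp
    ring
  have hba : s / 3 ≤ b - a := by linarith [ha.2, hb.1]
  have hax0 : 0 ≤ a - x := sub_nonneg.2 hax.1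
  have h3 : (b - a) * |h x| ≤ (b - x) * I + (b - x) * |h a| + (a - x) * |h b| := by
    have e : (b - a) * |h x| = |(b - a) * h x| := by
      rw [abs_mul, abs_of_nonneg (by linarith : 0 ≤ b - a)]
    rw [e, key]
    refine (abs_sub _ _).trans (add_le_add ((abs_add_le _ _).trans (add_le_add ?_ ?_)) ?_)
    · rw [abs_mul, abs_of_pos hbx]
      exact mul_le_mul_of_nonneg_left h1 hbx.le
    · rw [abs_mul, abs_of_pos hbx]
    · rw [abs_mul, abs_of_nonneg hax0]
  have h4 : (b - x) * I ≤ 2 * s * I :=
    mul_le_mul_of_nonneg_right (by linarith [hx.1, hb.2]) hI0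
  have h5 : (b - x) * |h a| ≤ 2 * s * |h a| :=
    mul_le_mul_of_nonneg_right (by linarith [hx.1, hb.2]) (abs_nonneg _)
  have h6 : (a - x) * |h b| ≤ 4 * s / 3 * |h b| :=
    mul_le_mul_of_nonneg_right (by linarith [hx.1, ha.2]) (abs_nonneg _)
  have h7 : s / 3 * |h x| ≤ (b - a) * |h x| := mul_le_mul_of_nonneg_right hba (abs_nonneg _)
  have h8 : s * |h x| ≤ s * (6 * I + 30 / s * J) := by
    have e : s * (6 * I + 30 / s * J) = 6 * s * I + 30 * J := by
      field_simp
    rw [e]
    nlinarith
  exact le_of_mul_le_mul_left h8 hs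

end Pool.Agent.P.MP_2cea5e_gt.I
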