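import Pool.Agent.P.MP_2cea5e_gt.I.St2

/-!
Chapter I: integration by parts on the unit box.
-/

open scoped ContDiff Topology
open MeasureTheory Set Filter

noncomputable section

set_option linter.dupNamespace false

namespace Pool.Agent.P.MP_2cea5e_gt.I

namespace IBP1

/-- The boundary value at the left end of a function that vanishes near the right end. -/
theorem lim_left {lo : ℝ} (hlo : lo < 1) {φ φ' : ℝ → ℝ}
    (hd : ∀ x ∈ Ioo lo 1, HasDerivAt φ (φ' x) x) (hi : IntegrableOn φ' (Ioo lo 1))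
    (hz : ∀ᶠ x in 𝓝[<] (1 : ℝ), φ x = 0) :
    Tendsto φ (𝓝[>] lo) (𝓝 (-∫ x in Ioo lo 1, φ' x)) := by
  have hi' : IntegrableOn φ' (uIcc lo 1) := by
    rw [uIcc_of_le hlo.le]
    exact (integrableOn_Icc_iff_integrableOn_Ioo).2 hi
  have hc := (intervalIntegral.continuousOn_primitive_interval_left hi' lo left_mem_uIcc).neg
  have h1 : 𝓝[>] lo ≤ 𝓝[uIcc lo 1] lo := by
    rw [uIcc_of_le hlo.le]
    exact nhdsWithin_le_iff.2 (Icc_mem_nhdsGT hlo)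
  have h2 := hc.tendsto.mono_left h1
  rw [← integral_Ioc_eq_integral_Ioo, ← intervalIntegral.integral_of_le hlo.le]
  refine h2.congr' ?_
  filter_upwards [Ioo_mem_nhdsGT hlo] with x hx
  have h3 : IntervalIntegrable φ' volume x 1 :=
    (hi'.mono_set (uIcc_subset_uIcc (by rw [uIcc_of_le hlo.le]; exact Ioo_subset_Icc_self hx)
      right_mem_uIcc)).intervalIntegrable
  have h4 := intervalIntegral.integral_eq_sub_of_hasDerivAt_of_tendsto (f := φ) (fa := φ x)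
    (fb := 0) hx.2 (fun y hy => hd y ⟨hx.1.trans hy.1, hy.2⟩) h3
    ((hd x hx).continuousAt.tendsto.mono_left nhdsWithin_le_nhds)
    (tendsto_const_nhds.congr' (hz.mono fun _ h => h.symm))
  show -∫ t in x..1, φ' t = φ x
  rw [h4]
  ring

theorem oneD (b : Bool) {φ φ' : ℝ → ℝ} {r : ℝ} (hr0 : 0 < r) (hr : r < 1)
    (hd : ∀ x ∈ iv b 1, HasDerivAt φ (φ' x) x) (hi : IntegrableOn φ' (iv b 1))
    (hz : ∀ x ∈ iv b 1, x ∉ iv b r → φ x = 0) :
    (b = false → ∫ x in iv b 1, φ' x = 0) ∧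
      (b = true → Tendsto φ (𝓝[>] 0) (𝓝 (-∫ x in iv b 1, φ' x))) := by
  cases b
  · refine ⟨fun _ => ?_, fun h => absurd h (by simp)⟩
    simp only [iv, Bool.false_eq_true, if_false] at hd hi hz ⊢
    have h1 := lim_left (by norm_num : (-1 : ℝ) < 1) hd hi (by
      filter_upwards [Ioo_mem_nhdsLT hr] with x hx
      exact hz x ⟨by linarith [hx.1], hx.2⟩ fun h => lt_asymm h.2 hx.1)
    have h2 : Tendsto φ (𝓝[>] (-1)) (𝓝 0) := tendsto_const_nhds.congr' (by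
      filter_upwards [Ioo_mem_nhdsGT (by linarith : (-1 : ℝ) < -r)] with x hx
      exact (hz x ⟨hx.1, by linarith [hx.2]⟩ fun h => lt_asymm h.1 hx.2).symm)
    exact neg_eq_zero.1 (tendsto_nhds_unique h1 h2)
  · refine ⟨fun h => absurd h (by simp), fun _ => ?_⟩
    simp only [iv, if_true, one_pow] at hd hi hz ⊢
    have hr2 : r ^ 2 < 1 := by nlinarith
    refine lim_left one_pos hd hi ?_
    filter_upwards [Ioo_mem_nhdsLT hr2] with x hx
    exact hz x ⟨lt_of_le_of_lt (sq_nonneg r) hx.1, hx.2⟩ fun h => lt_asymm h.2 hx.1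

theorem twoD (b c : Bool) {φ φ' : ℝ → ℝ → ℝ} {r : ℝ} (hr0 : 0 < r) (hr : r < 1)
    (hd : ∀ y ∈ iv c 1, ∀ x ∈ iv b 1, HasDerivAt (fun x => φ x y) (φ' x y) x)
    (hi : Integrable (fun z : ℝ × ℝ => φ' z.1 z.2)
      ((volume.restrict (iv b 1)).prod (volume.restrict (iv c 1))))
    (hz : ∀ y ∈ iv c 1, ∀ x ∈ iv b 1, x ∉ iv b r → φ x y = 0) :
    ((b = true → ∃ C, ∀ y ∈ iv c 1, ∀ x ∈ iv b 1, |φ x y| ≤ C * |x|) →
      ∫ y in iv c 1, ∫ x in iv b 1, φ' x y = 0) ∧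
    ∀ (g : ℝ → ℝ) (s : ℝ), 0 < s → IntegrableOn g (iv c 1) →
      (∀ y ∈ iv c 1, 0 ≤ g y ∧ (b = true → ∀ x ∈ Ioo 0 s, φ x y ≤ g y)) →
      -(∫ y in iv c 1, ∫ x in iv b 1, φ' x y) ≤ ∫ y in iv c 1, g y := by
  have key : ∀ᵐ y ∂volume.restrict (iv c 1), y ∈ iv c 1 ∧
      (b = false → ∫ x in iv b 1, φ' x y = 0) ∧
      (b = true → Tendsto (fun x => φ x y) (𝓝[>] 0) (𝓝 (-∫ x in iv b 1, φ' x y))) := by
    filter_upwards [hi.prod_left_ae, ae_restrict_mem (isOpen_iv c 1).measurableSet] with y h1 h2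
    exact ⟨h2, oneD b hr0 hr (hd y h2) h1 (hz y h2)⟩
  refine ⟨fun hC => integral_eq_zero_of_ae ?_, fun g s hs hg h => ?_⟩
  · filter_upwards [key] with y ⟨hy, h1, h2⟩
    cases b
    · exact h1 rfl
    · obtain ⟨C, hC⟩ := hC rfl
      have h3 : Tendsto (fun x : ℝ => C * |x|) (𝓝[>] 0) (𝓝 0) := by
        have : Continuous fun x : ℝ => C * |x| := by fun_prop
        simpa using (this.tendsto 0).mono_left (nhdsWithin_le_nhds (s := Ioi 0))
      have h4 : Tendsto (fun x => φ x y) (𝓝[>] 0) (𝓝 0) := by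
        refine squeeze_zero_norm' ?_ h3
        filter_upwards [Ioo_mem_nhdsGT (one_pos : (0 : ℝ) < 1)] with x hx
        exact hC y hy x (by simpa [iv] using hx)
      exact neg_eq_zero.1 (tendsto_nhds_unique (h2 rfl) h4)
  · rw [← integral_neg]
    refine integral_mono_ae hi.integral_prod_right.neg hg ?_
    filter_upwards [key] with y ⟨hy, h1, h2⟩
    cases b
    · rw [h1 rfl, neg_zero]
      exact (h y hy).1
    · refine le_of_tendsto (h2 rfl) ?_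
      filter_upwards [Ioo_mem_nhdsGT hs] with x hx
      exact (h y hy).2 rfl x hx

variable {d : Dm} {f : X → ℝ} {t : ℝ}

theorem integ (hf : Bd d f) (ht : t ∈ d.I) (hO : bxc d.τ 1 ⊆ d.O) :
    Integrable (fun z : ℝ × ℝ => f (t, z))
      ((volume.restrict (iv d.τ.1 1)).prod (volume.restrict (iv d.τ.2 1))) := by
  rw [Measure.prod_restrict]
  exact hf.lc.integrableOn (reg_bx hO) ht

theorem int_eq (τ : Ty) (h : ℝ × ℝ → ℝ) : ∫ y in bx τ 1, h y =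
    ∫ y, h y ∂((volume.restrict (iv τ.1 1)).prod (volume.restrict (iv τ.2 1))) := by
  rw [Measure.prod_restrict]
  rfl

theorem memU (ht : t ∈ d.I) (hO : bxc d.τ 1 ⊆ d.O) {y : ℝ × ℝ} (hy : y ∈ bx d.τ 1) :
    ((t, y) : X) ∈ d.U := ⟨ht, (reg_bx hO).sub hy⟩

theorem dir1 (hf : Bd d f) (ht : t ∈ d.I) (hO : bxc d.τ 1 ⊆ d.O) (hv : Van d.τ f t) :
    ((d.τ.1 = true → ∃ C, ∀ y ∈ bx d.τ 1, |f (t, y)| ≤ C * |y.1|) →
      ∫ y in bx d.τ 1, D e1 f (t, y) = 0) ∧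
    ∀ (g : ℝ → ℝ) (s : ℝ), 0 < s → IntegrableOn g (iv d.τ.2 1) →
      (∀ b ∈ iv d.τ.2 1, 0 ≤ g b ∧ (d.τ.1 = true → ∀ x ∈ Ioo 0 s, f (t, x, b) ≤ g b)) →
      -∫ y in bx d.τ 1, D e1 f (t, y) ≤ ∫ b in iv d.τ.2 1, g b := by
  obtain ⟨r, h0, h1, hz⟩ := hv
  have hi := integ (hf.D e1) ht hO
  obtain ⟨k1, k2⟩ := twoD d.τ.1 d.τ.2 (φ := fun x y => f (t, x, y))
    (φ' := fun x y => D e1 f (t, x, y)) h0 h1
    (fun y hy x hx => hasDerivAt_y1 (hf.diffAt (memU ht hO (y := (x, y)) ⟨hx, hy⟩))) hi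
    fun y hy x hx hn => hz (x, y) ⟨hx, hy⟩ fun h => hn h.1
  rw [int_eq, integral_prod_symm _ hi]
  exact ⟨fun h => k1 fun e => let ⟨C, hC⟩ := h e; ⟨C, fun y hy x hx => hC (x, y) ⟨hx, hy⟩⟩, k2⟩

theorem dir2 (hf : Bd d f) (ht : t ∈ d.I) (hO : bxc d.τ 1 ⊆ d.O) (hv : Van d.τ f t) :
    ((d.τ.2 = true → ∃ C, ∀ y ∈ bx d.τ 1, |f (t, y)| ≤ C * |y.2|) →
      ∫ y in bx d.τ 1, D e2 f (t, y) = 0) ∧
    ∀ (g : ℝ → ℝ) (s : ℝ), 0 < s → IntegrableOn g (iv d.τ.1 1) →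
      (∀ b ∈ iv d.τ.1 1, 0 ≤ g b ∧ (d.τ.2 = true → ∀ x ∈ Ioo 0 s, f (t, b, x) ≤ g b)) →
      -∫ y in bx d.τ 1, D e2 f (t, y) ≤ ∫ b in iv d.τ.1 1, g b := by
  obtain ⟨r, h0, h1, hz⟩ := hv
  have hi := integ (hf.D e2) ht hO
  obtain ⟨k1, k2⟩ := twoD d.τ.2 d.τ.1 (φ := fun x y => f (t, y, x))
    (φ' := fun x y => D e2 f (t, y, x)) h0 h1
    (fun y hy x hx => hasDerivAt_y2 (hf.diffAt (memU ht hO (y := (y, x)) ⟨hy, hx⟩))) hi.swap
    fun y hy x hx hn => hz (y, x) ⟨hy, hx⟩ fun h => hn h.2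
  rw [int_eq, integral_prod _ hi]
  exact ⟨fun h => k1 fun e => let ⟨C, hC⟩ := h e; ⟨C, fun y hy x hx => hC (y, x) ⟨hy, hx⟩⟩, k2⟩

theorem ivc_iv (b : Bool) {r r' x : ℝ} (h0 : 0 < r) (h : r < r') (h1 : x ∈ iv b 1)
    (h2 : x ∈ ivc b r) : x ∈ iv b r' := by
  cases b
  · simp only [iv, ivc, Bool.false_eq_true, if_false] at *
    exact ⟨by linarith [h2.1], by linarith [h2.2]⟩
  · simp only [iv, ivc, if_true] at *
    exact ⟨h1.1, h2.2.trans_lt (by nlinarith)⟩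

theorem van_D (hf : Bd d f) (ht : t ∈ d.I) (hO : bxc d.τ 1 ⊆ d.O) (hv : Van d.τ f t) :
    Van d.τ (D e1 f) t ∧ Van d.τ (D e2 f) t := by
  obtain ⟨r, h0, h1, hz⟩ := hv
  have key : ∀ y ∈ bx d.τ 1, y ∉ bx d.τ ((r + 1) / 2) → ∀ᶠ z in 𝓝 y, f (t, z) = 0 := by
    intro y hy hn
    have hc : y ∉ bxc d.τ r := fun h =>
      hn ⟨ivc_iv _ h0 (by linarith) hy.1 h.1, ivc_iv _ h0 (by linarith) hy.2 h.2⟩
    filter_upwards [(isOpen_bx d.τ 1).mem_nhds hy,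
      (isCompact_bxc d.τ r).isClosed.isOpen_compl.mem_nhds hc] with z k1 k2
    exact hz z k1 fun h => k2 (bx_subset_bxc _ _ h)
  refine ⟨⟨(r + 1) / 2, by linarith, by linarith, fun y hy hn => ?_⟩,
    ⟨(r + 1) / 2, by linarith, by linarith, fun y hy hn => ?_⟩⟩
  · have c : ContinuousAt (fun s : ℝ => ((s, y.2) : ℝ × ℝ)) y.1 := by fun_prop
    exact (hasDerivAt_y1 (hf.diffAt (memU ht hO hy))).unique
      ((hasDerivAt_const y.1 (0 : ℝ)).congr_of_eventuallyEq (c.eventually (key y hy hn)))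
  · have c : ContinuousAt (fun s : ℝ => ((y.1, s) : ℝ × ℝ)) y.2 := by fun_prop
    exact (hasDerivAt_y2 (hf.diffAt (memU ht hO hy))).unique
      ((hasDerivAt_const y.2 (0 : ℝ)).congr_of_eventuallyEq (c.eventually (key y hy hn)))

theorem van_mul {τ : Ty} (g : X → ℝ) (hv : Van τ f t) : Van τ (g * f) t :=
  let ⟨r, h0, h1, hz⟩ := hv
  ⟨r, h0, h1, fun y hy hn => by rw [Pi.mul_apply, hz y hy hn, mul_zero]⟩

theorem zero1 (hf : Bd d f) (ht : t ∈ d.I) (hO : bxc d.τ 1 ⊆ d.O) (hv : Van d.τ f t) :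
    ∫ y in bx d.τ 1, D e1 (o1 d.τ * f) (t, y) = 0 := by
  refine (dir1 (bd_o1.mul hf) ht hO (van_mul _ hv)).1 fun e => ?_
  obtain ⟨C, hC⟩ := hf.bd0.bound (reg_bx hO) isCompact_singleton (singleton_subset_iff.2 ht)
  refine ⟨C, fun y hy => ?_⟩
  simp only [Pi.mul_apply, o1, om, e, if_true]
  rw [abs_mul, mul_comm]
  exact mul_le_mul_of_nonneg_right (hC t rfl y hy) (abs_nonneg _)

theorem zero2 (hf : Bd d f) (ht : t ∈ d.I) (hO : bxc d.τ 1 ⊆ d.O) (hv : Van d.τ f t) :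
    ∫ y in bx d.τ 1, D e2 (o2 d.τ * f) (t, y) = 0 := by
  refine (dir2 (bd_o2.mul hf) ht hO (van_mul _ hv)).1 fun e => ?_
  obtain ⟨C, hC⟩ := hf.bd0.bound (reg_bx hO) isCompact_singleton (singleton_subset_iff.2 ht)
  refine ⟨C, fun y hy => ?_⟩
  simp only [Pi.mul_apply, o2, om, e, if_true]
  rw [abs_mul, mul_comm]
  exact mul_le_mul_of_nonneg_right (hC t rfl y hy) (abs_nonneg _)

theorem hasDerivAt_om (b : Bool) (x : ℝ) : HasDerivAt (om b) (if b then 1 else 0) x := by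
  cases b
  · exact hasDerivAt_const x 1
  · exact hasDerivAt_id x

theorem D_o1 (τ : Ty) (p : X) : D e1 (o1 τ) p = if τ.1 then 1 else 0 :=
  (hasDerivAt_y1 (t := p.1) (a := p.2.1) (b := p.2.2) ((sm_o1 τ).diff _)).unique
    (hasDerivAt_om τ.1 p.2.1)

theorem D_o2 (τ : Ty) (p : X) : D e2 (o2 τ) p = if τ.2 then 1 else 0 :=
  (hasDerivAt_y2 (t := p.1) (a := p.2.1) (b := p.2.2) ((sm_o2 τ).diff _)).unique
    (hasDerivAt_om τ.2 p.2.2)

theorem sec1 (hf : Bd d f) (ht : t ∈ d.I) (hO : bxc d.τ 1 ⊆ d.O) (hv : Van d.τ f t) :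
    ∫ y in bx d.τ 1, (o1 d.τ * D e1 (D e1 f)) (t, y) = -∫ y in bx d.τ 1, D e1 f (t, y) := by
  have h1 := zero1 (hf.D e1) ht hO (van_D hf ht hO hv).1
  rw [setIntegral_congr_fun (isOpen_bx _ _).measurableSet
    (g := fun y => (if d.τ.1 then 1 else 0) * D e1 f (t, y) + (o1 d.τ * D e1 (D e1 f)) (t, y))
    fun y hy => by
      rw [← D_o1 d.τ (t, y)]
      exact D_mul_at e1 ((sm_o1 _).diff _) ((hf.D e1).diffAt (memU ht hO hy)),
    integral_add (((hf.D e1).lc.integrableOn (reg_bx hO) ht).const_mul _)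
      ((bd_o1.mul ((hf.D e1).D e1)).lc.integrableOn (reg_bx hO) ht), integral_const_mul] at h1
  by_cases e : d.τ.1 = true
  · rw [if_pos e] at h1
    linarith
  · rw [if_neg e] at h1
    have h2 := (dir1 hf ht hO hv).1 fun h => absurd h e
    linarith

theorem sec2 (hf : Bd d f) (ht : t ∈ d.I) (hO : bxc d.τ 1 ⊆ d.O) (hv : Van d.τ f t) :
    ∫ y in bx d.τ 1, (o2 d.τ * D e2 (D e2 f)) (t, y) = -∫ y in bx d.τ 1, D e2 f (t, y) := by
  have h1 := zero2 (hf.D e2) ht hO (van_D hf ht hO hv).2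
  rw [setIntegral_congr_fun (isOpen_bx _ _).measurableSet
    (g := fun y => (if d.τ.2 then 1 else 0) * D e2 f (t, y) + (o2 d.τ * D e2 (D e2 f)) (t, y))
    fun y hy => by
      rw [← D_o2 d.τ (t, y)]
      exact D_mul_at e2 ((sm_o2 _).diff _) ((hf.D e2).diffAt (memU ht hO hy)),
    integral_add (((hf.D e2).lc.integrableOn (reg_bx hO) ht).const_mul _)
      ((bd_o2.mul ((hf.D e2).D e2)).lc.integrableOn (reg_bx hO) ht), integral_const_mul] at h1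
  by_cases e : d.τ.2 = true
  · rw [if_pos e] at h1
    linarith
  · rw [if_neg e] at h1
    have h2 := (dir2 hf ht hO hv).1 fun h => absurd h e
    linarith

end IBP1

theorem ibp1_ok : StIBP1 := by
  intro d f t hf ht hO hv
  refine ⟨IBP1.van_D hf ht hO hv, ⟨IBP1.zero1 hf ht hO hv, IBP1.zero2 hf ht hO hv⟩,
    (IBP1.dir1 hf ht hO hv).2, (IBP1.dir2 hf ht hO hv).2, ?_⟩
  rw [← IBP1.sec1 hf ht hO hv, sub_eq_add_neg, ← IBP1.sec2 hf ht hO hv]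
  exact integral_add ((bd_o1.mul ((hf.D e1).D e1)).lc.integrableOn (reg_bx hO) ht)
    ((bd_o2.mul ((hf.D e2).D e2)).lc.integrableOn (reg_bx hO) ht)

end Pool.Agent.P.MP_2cea5e_gt.I
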