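import Pool.Agent.P.MP_2cea5e_gt.I.St2

/-!
Chapter I: double integration by parts and the null Lagrangian.
-/

open scoped ContDiff Topology
open MeasureTheory Set Filter

noncomputable section

set_option linter.dupNamespace false

namespace Pool.Agent.P.MP_2cea5e_gt.I

namespace IBP2

variable {d : Dm} {f g o : X → ℝ} {t : ℝ}

/-- Multiples of `o` by bounded functions. -/
def Mo (d : Dm) (o g : X → ℝ) : Prop := ∃ φ, Bd d φ ∧ EqOn g (o * φ) d.U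

theorem Mo.bd (ho : Bd d o) (h : Mo d o g) : Bd d g :=
  let ⟨_, h1, h2⟩ := h; (ho.mul h1).congr h2.symm

theorem Mo.congr (h : Mo d o f) (e : EqOn g f d.U) : Mo d o g :=
  let ⟨φ, h1, h2⟩ := h; ⟨φ, h1, e.trans h2⟩

theorem Mo.mul (h : Mo d o f) (hg : Bd d g) : Mo d o (f * g) :=
  let ⟨φ, h1, h2⟩ := h
  ⟨φ * g, h1.mul hg, fun p hp => by simp only [Pi.mul_apply, h2 hp]; ring⟩

theorem Mo.mul' (h : Mo d o f) (hg : Bd d g) : Mo d o (g * f) := by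
  rw [mul_comm]; exact h.mul hg

theorem Mo.add (h : Mo d o f) (h' : Mo d o g) : Mo d o (f + g) :=
  let ⟨φ, h1, h2⟩ := h
  let ⟨ψ, h3, h4⟩ := h'
  ⟨φ + ψ, h1.add h3, fun p hp => by simp only [Pi.mul_apply, Pi.add_apply, h2 hp, h4 hp]; ring⟩

theorem Mo.D0 (ho : Bd d o) {v : X} (h0 : ∀ p, D v o p = 0) (h : Mo d o g) : Mo d o (D v g) :=
  let ⟨φ, h1, h2⟩ := h
  ⟨D v φ, h1.D v, fun p hp => by
    rw [D_congr d.isOpen_U v h2 hp, D_mul_at v (ho.diffAt hp) (h1.diffAt hp), h0]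
    simp⟩

theorem Mo.Dsq (ho : Bd d o) {k : X → ℝ} (hk : Bd d k) (e : EqOn g (o * o * k) d.U) (v : X) :
    Mo d o (D v g) := by
  have h1 : Mo d o (o * k) := ⟨k, hk, fun _ _ => rfl⟩
  have h2 : Mo d o o := ⟨K 1, bd_K 1, fun _ _ => by simp⟩
  refine ((h1.mul' (ho.D v)).add (h2.mul ((ho.mul hk).D v))).congr fun p hp => ?_
  rw [mul_assoc] at e
  rw [D_congr d.isOpen_U v e hp, D_mul_at v (ho.diffAt hp) ((ho.mul hk).diffAt hp)]
  rfl

theorem D2_o1 (τ : Ty) (p : X) : D e2 (o1 τ) p = 0 :=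
  (hasDerivAt_y2 (t := p.1) (a := p.2.1) (b := p.2.2) ((sm_o1 τ).diff _)).unique
    (hasDerivAt_const _ (om τ.1 p.2.1))

theorem D1_o2 (τ : Ty) (p : X) : D e1 (o2 τ) p = 0 :=
  (hasDerivAt_y1 (t := p.1) (a := p.2.1) (b := p.2.2) ((sm_o2 τ).diff _)).unique
    (hasDerivAt_const _ (om τ.2 p.2.2))

theorem Mo.D2 (h : Mo d (o1 d.τ) g) : Mo d (o1 d.τ) (D e2 g) := h.D0 bd_o1 (D2_o1 _)
theorem Mo.D1 (h : Mo d (o2 d.τ) g) : Mo d (o2 d.τ) (D e1 g) := h.D0 bd_o2 (D1_o2 _)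

theorem van_of {τ : Ty} (h : Van τ f t) (e : ∀ y ∈ bx τ 1, f (t, y) = 0 → g (t, y) = 0) :
    Van τ g t :=
  let ⟨r, h0, h1, h2⟩ := h; ⟨r, h0, h1, fun y hy hn => e y hy (h2 y hy hn)⟩

theorem van_mul {τ : Ty} (h : Van τ f t ∨ Van τ g t) : Van τ (f * g) t :=
  h.elim (fun h => van_of h fun _ _ e => by simp [e]) fun h => van_of h fun _ _ e => by simp [e]

/-- Bounded functions with vanishing integral over the unit box. -/
def Z (d : Dm) (t : ℝ) (f : X → ℝ) : Prop := Bd d f ∧ ∫ y in bx d.τ 1, f (t, y) = 0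

section

variable (h : StIBP1) (ht : t ∈ d.I) (hO : bxc d.τ 1 ⊆ d.O)
include ht hO

theorem memU {y : ℝ × ℝ} (hy : y ∈ bx d.τ 1) : ((t, y) : X) ∈ d.U := ⟨ht, (reg_bx hO).sub hy⟩

theorem int_congr (e : EqOn f g d.U) :
    ∫ y in bx d.τ 1, f (t, y) = ∫ y in bx d.τ 1, g (t, y) :=
  setIntegral_congr_fun (reg_bx hO).ms fun _ hy => e (memU ht hO hy)

theorem Z.congr (hf : Z d t f) (e : EqOn f g d.U) : Z d t g :=
  ⟨hf.1.congr e, by rw [← int_congr ht hO e]; exact hf.2⟩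

theorem Z.add (hf : Z d t f) (hg : Z d t g) : Z d t (f + g) :=
  ⟨hf.1.add hg.1, by
    have := integral_add (hf.1.lc.integrableOn (reg_bx hO) ht) (hg.1.lc.integrableOn (reg_bx hO) ht)
    rw [hf.2, hg.2, add_zero] at this
    exact this⟩

theorem Z.sub (hf : Z d t f) (hg : Z d t g) : Z d t (f - g) :=
  ⟨hf.1.sub hg.1, by
    have := integral_sub (hf.1.lc.integrableOn (reg_bx hO) ht) (hg.1.lc.integrableOn (reg_bx hO) ht)
    rw [hf.2, hg.2, sub_zero] at this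
    exact this⟩

theorem Z.eq (hf : Bd d f) (hg : Bd d g) (hz : Z d t (f - g)) :
    ∫ y in bx d.τ 1, f (t, y) = ∫ y in bx d.τ 1, g (t, y) := by
  have := integral_sub (hf.lc.integrableOn (reg_bx hO) ht) (hg.lc.integrableOn (reg_bx hO) ht)
  exact sub_eq_zero.1 (this.symm.trans hz.2)

theorem van_sq {k o' : X → ℝ} (hk : Van d.τ k t) (e : EqOn g (o * o' * k) d.U) : Van d.τ g t :=
  van_of hk fun _ hy h0 => by rw [e (memU ht hO hy)]; simp [h0]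

include h

theorem van1 (hf : Bd d f) (hv : Van d.τ f t) : Van d.τ (D e1 f) t := (h d f t hf ht hO hv).1.1
theorem van2 (hf : Bd d f) (hv : Van d.τ f t) : Van d.τ (D e2 f) t := (h d f t hf ht hO hv).1.2

theorem ibp1 (hf : Bd d f) (hg : Bd d g) (hm : Mo d (o1 d.τ) (f * g)) (hv : Van d.τ (f * g) t) :
    Z d t (D e1 f * g + f * D e1 g) := by
  obtain ⟨φ, h1, h2⟩ := hm
  have hφ : Van d.τ φ t := van_of hv fun y hy h0 => by
    rw [h2 (memU ht hO hy)] at h0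
    exact (mul_eq_zero.1 h0).resolve_left (Dm.o1_pos (memU ht hO hy)).ne'
  refine Z.congr ht hO ⟨(bd_o1.mul h1).D e1, (h d φ t h1 ht hO hφ).2.1.1⟩ fun p hp => ?_
  rw [← D_congr d.isOpen_U e1 h2 hp, D_mul_at e1 (hf.diffAt hp) (hg.diffAt hp)]
  rfl

theorem ibp2 (hf : Bd d f) (hg : Bd d g) (hm : Mo d (o2 d.τ) (f * g)) (hv : Van d.τ (f * g) t) :
    Z d t (D e2 f * g + f * D e2 g) := by
  obtain ⟨φ, h1, h2⟩ := hm
  have hφ : Van d.τ φ t := van_of hv fun y hy h0 => by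
    rw [h2 (memU ht hO hy)] at h0
    exact (mul_eq_zero.1 h0).resolve_left (Dm.o2_pos (memU ht hO hy)).ne'
  refine Z.congr ht hO ⟨(bd_o2.mul h1).D e2, (h d φ t h1 ht hO hφ).2.1.2⟩ fun p hp => ?_
  rw [← D_congr d.isOpen_U e2 h2 hp, D_mul_at e2 (hf.diffAt hp) (hg.diffAt hp)]
  rfl

/-- The Jacobian determinant is a divergence. -/
theorem jac (hf : Bd d f) (hg : Bd d g) (m1 : Mo d (o1 d.τ) (f * D e2 g))
    (m2 : Mo d (o2 d.τ) (f * D e1 g)) (hv : Van d.τ f t ∨ Van d.τ g t) :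
    Z d t (D e1 f * D e2 g - D e2 f * D e1 g) := by
  refine Z.congr ht hO (Z.sub ht hO
    (ibp1 h ht hO hf (hg.D e2) m1 (van_mul (hv.imp_right (van2 h ht hO hg))))
    (ibp2 h ht hO hf (hg.D e1) m2 (van_mul (hv.imp_right (van1 h ht hO hg))))) fun p hp => ?_
  simp only [Pi.sub_apply, Pi.add_apply, Pi.mul_apply, D_comm_on d.isOpen_U hg.sm e1 e2 hp]
  ring

end

/-- The multiplicative structure of a field. -/
structure Fd (d : Dm) (H : T2) : Prop where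
  a : Mo d (o1 d.τ) H.a
  da : ∀ v, Mo d (o1 d.τ) (D v H.a)
  b1 : Mo d (o1 d.τ) H.b
  b2 : Mo d (o2 d.τ) H.b
  c : Mo d (o2 d.τ) H.c
  dc : ∀ v, Mo d (o2 d.τ) (D v H.c)

theorem fd_of {H : T2} {k₁ k₂ k₃ : X → ℝ} (h : NT d H k₁ k₂ k₃) : Fd d H := by
  obtain ⟨h1, h2, h3, e1, e2, e3⟩ := h
  refine ⟨⟨_, bd_o1.mul h1, by rwa [← mul_assoc]⟩, Mo.Dsq bd_o1 h1 e1,
    ⟨_, bd_o2.mul h2, by rwa [← mul_assoc]⟩, ⟨_, bd_o1.mul h2, ?_⟩,
    ⟨_, bd_o2.mul h3, by rwa [← mul_assoc]⟩, Mo.Dsq bd_o2 h3 e3⟩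
  rwa [← mul_assoc, mul_comm (o2 d.τ)]

theorem Fd.ba {H : T2} (h : Fd d H) : Bd d H.a := h.a.bd bd_o1
theorem Fd.bb {H : T2} (h : Fd d H) : Bd d H.b := h.b1.bd bd_o1
theorem Fd.bc {H : T2} (h : Fd d H) : Bd d H.c := h.c.bd bd_o2

theorem Fd.dd {H : T2} (h : Fd d H) : Bd d H.dd :=
  (((h.ba.D _).D _).add ((bd_K 2).mul ((h.bb.D _).D _))).add ((h.bc.D _).D _)

section

variable (h : StIBP1) (ht : t ∈ d.I) (hO : bxc d.τ 1 ⊆ d.O) {H G : T2} (hH : Fd d H) (hG : Fd d G)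
include h ht hO hH

theorem part1 (hf : Bd d f) (va : Van d.τ H.a t ∨ Van d.τ f t) (vb : Van d.τ H.b t ∨ Van d.τ f t)
    (vc : Van d.τ H.c t ∨ Van d.τ f t) :
    ∫ y in bx d.τ 1, H.ctr f (t, y) = ∫ y in bx d.τ 1, (f * H.dd) (t, y) := by
  have a := hH.ba
  have b := hH.bb
  have c := hH.bc
  have z1 := ibp1 h ht hO a (hf.D e1) (hH.a.mul (hf.D e1))
    (van_mul (va.imp_right (van1 h ht hO hf)))
  have z2 := ibp1 h ht hO hf (a.D e1) ((hH.da e1).mul' hf)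
    (van_mul (va.imp_left (van1 h ht hO a)).symm)
  have z3 := ibp2 h ht hO c (hf.D e2) (hH.c.mul (hf.D e2))
    (van_mul (vc.imp_right (van2 h ht hO hf)))
  have z4 := ibp2 h ht hO hf (c.D e2) ((hH.dc e2).mul' hf)
    (van_mul (vc.imp_left (van2 h ht hO c)).symm)
  have z5 := ibp1 h ht hO b (hf.D e2) (hH.b1.mul (hf.D e2))
    (van_mul (vb.imp_right (van2 h ht hO hf)))
  have z6 := ibp2 h ht hO hf (b.D e1) (hH.b2.D1.mul' hf)
    (van_mul (vb.imp_left (van1 h ht hO b)).symm)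
  have z7 := Z.sub ht hO z5 z6
  refine Z.eq ht hO (((a.mul ((hf.D _).D _)).add (((bd_K 2).mul b).mul ((hf.D _).D _))).add
    (c.mul ((hf.D _).D _))) (hf.mul hH.dd) (Z.congr ht hO (Z.add ht hO (Z.add ht hO
      (Z.sub ht hO z1 z2) (Z.sub ht hO z3 z4)) (Z.add ht hO z7 z7)) fun p hp => ?_)
  simp only [T2.ctr, T2.dd, h11, h12, h22, Pi.sub_apply, Pi.add_apply, Pi.mul_apply, K_apply,
    D_comm_on d.isOpen_U b.sm e2 e1 hp]
  ring

include hG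

theorem half (v : (Van d.τ H.a t ∧ Van d.τ H.c t) ∨
      (Van d.τ G.a t ∧ Van d.τ G.b t ∧ Van d.τ G.c t)) :
    Z d t (h22 H.a * h11 G.c - h11 H.a * h22 G.c + K 2 * (h12 H.a * h11 G.b - h11 H.a * h12 G.b) +
      K 2 * (h12 H.c * h22 G.b - h22 H.c * h12 G.b)) := by
  have a := hH.ba
  have c := hH.bc
  have B := hG.bb
  have C := hG.bc
  have z1 := jac h ht hO (a.D e1) (B.D e1) ((hH.da e1).mul ((B.D _).D _))
    (hG.b2.D1.D1.mul' (a.D e1)) (v.imp (fun v => van1 h ht hO a v.1) fun v => van1 h ht hO B v.2.1)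
  have z2 := jac h ht hO (c.D e2) (B.D e2) (hG.b1.D2.D2.mul' (c.D e2))
    ((hH.dc e2).mul ((B.D _).D _))
    (v.imp (fun v => van2 h ht hO c v.2) fun v => van2 h ht hO B v.2.1)
  have z3 := jac h ht hO (C.D e1) (a.D e2) (hH.a.D2.D2.mul' (C.D e1))
    (hG.c.D1.mul ((a.D _).D _))
    (v.imp (fun v => van2 h ht hO a v.1) fun v => van1 h ht hO C v.2.2).symm
  have z4 := jac h ht hO (C.D e2) (a.D e1) ((hH.da e1).D2.mul' (C.D e2))
    ((hG.dc e2).mul ((a.D _).D _))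
    (v.imp (fun v => van1 h ht hO a v.1) fun v => van2 h ht hO C v.2.2).symm
  refine Z.congr ht hO (Z.sub ht hO (Z.add ht hO (Z.add ht hO z3 z4) (Z.add ht hO z2 z2))
    (Z.add ht hO z1 z1)) fun p hp => ?_
  simp only [h11, h12, h22, Pi.sub_apply, Pi.add_apply, Pi.mul_apply, K_apply,
    D_comm_on d.isOpen_U a.sm e2 e1 hp, D_comm_on d.isOpen_U B.sm e2 e1 hp,
    D_comm_on d.isOpen_U C.sm e2 e1 hp]
  ring

theorem part2 (va : Van d.τ H.a t) (vb : Van d.τ H.b t) (vc : Van d.τ H.c t) :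
    ∫ y in bx d.τ 1, H.rr G (t, y) = ∫ y in bx d.τ 1, (H.dd * G.dd) (t, y) := by
  have z := Z.add ht hO (half h ht hO hH hG (Or.inl ⟨va, vc⟩))
    (half h ht hO hG hH (Or.inr ⟨va, vb, vc⟩))
  have z' : Z d t (H.rr G - H.dd * G.dd) := Z.congr ht hO z fun p _ => by
    simp only [T2.rr, T2.dd, Pi.sub_apply, Pi.add_apply, Pi.mul_apply, K_apply]
    ring
  exact Z.eq ht hO ((z'.1.add (hH.dd.mul hG.dd)).congr fun p _ => by simp) (hH.dd.mul hG.dd) z'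

end

end IBP2

theorem ibp2_ok (h : StIBP1) : StIBP2 := by
  intro d H k₁ k₂ k₃ t hN ht hO
  have hH := IBP2.fd_of hN
  have va := fun v => IBP2.van_sq ht hO v hN.2.2.2.1
  have vb := fun v => IBP2.van_sq ht hO v hN.2.2.2.2.1
  have vc := fun v => IBP2.van_sq ht hO v hN.2.2.2.2.2
  exact ⟨fun f hf hv => IBP2.part1 h ht hO hH hf (hv.imp_right fun v => va v.1).symm
      (hv.imp_right fun v => vb v.2.1).symm (hv.imp_right fun v => vc v.2.2).symm,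
    fun G _ _ _ hG v1 v2 v3 => IBP2.part2 h ht hO hH (IBP2.fd_of hG) (va v1) (vb v2) (vc v3)⟩

end Pool.Agent.P.MP_2cea5e_gt.I
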