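import Pool.Agent.P.MP_2cea5e_gt.I.St1

/-!
The differential identities of the kernels.
-/

open scoped Topology ContDiff
open MeasureTheory Set Filter

noncomputable section

namespace Pool.Agent.P.MP_2cea5e_gt.I

namespace Ker2

open Complex (I)

theorem tst_bd {δ : ℝ} {f : ℂ → ℝ} (h : Tst δ f) : ∃ M : ℝ, 0 ≤ M ∧ ∀ z, |f z| ≤ M := by
  have hc : HasCompactSupport f := by
    refine HasCompactSupport.intro (isCompact_closedBall (0 : ℂ) δ) fun z hz => h.supp z ?_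
    simpa using hz
  obtain ⟨M, hM⟩ := h.sm.continuous.bounded_above_of_compact_support hc
  exact ⟨M, le_trans (norm_nonneg _) (hM 0), hM⟩

theorem fd_apply (f : ℂ → ℝ) (z : ℂ) (a b : ℝ) :
    fderiv ℝ f z (a + b * I) = a * dc 1 f z + b * dc I f z := by
  have e : ((a : ℂ) + b * I) = a • (1 : ℂ) + b • I := by simp
  rw [e, map_add, map_smul, map_smul]
  simp [dc]

/-- The point of the circle. -/
def zz (Z : ℂ) (x θ : ℝ) : ℂ := Z - (2 * x : ℝ) * Complex.exp (θ * I)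

theorem zz_eq (Z : ℂ) (x θ : ℝ) :
    zz Z x θ = Z - (((2 * x * Real.cos θ : ℝ) : ℂ) + ((2 * x * Real.sin θ : ℝ) : ℂ) * I) := by
  unfold zz
  rw [Complex.exp_mul_I]
  push_cast
  ring

theorem zz_cont (Z : ℂ) (x : ℝ) : Continuous (zz Z x) := by
  unfold zz
  fun_prop

theorem path_deriv {f : ℂ → ℝ} (hf : ContDiff ℝ ∞ f) (Z : ℂ) {p q : ℝ → ℝ} {p' q' t : ℝ}
    (hp : HasDerivAt p p' t) (hq : HasDerivAt q q' t) :
    HasDerivAt (fun u => f (Z - ((p u : ℂ) + (q u : ℂ) * I)))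
      (-p' * dc 1 f (Z - ((p t : ℂ) + (q t : ℂ) * I)) +
        -q' * dc I f (Z - ((p t : ℂ) + (q t : ℂ) * I))) t := by
  have h1 : HasDerivAt (fun u => Z - ((p u : ℂ) + (q u : ℂ) * I))
      (((-p' : ℝ) : ℂ) + ((-q' : ℝ) : ℂ) * I) t := by
    have := ((hp.ofReal_comp).fun_add ((hq.ofReal_comp).mul_const I)).const_sub Z
    refine this.congr_deriv ?_
    push_cast
    ring
  have h2 := (hf.differentiable (by simp) (Z - ((p t : ℂ) + (q t : ℂ) * I))).hasFDerivAt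
  have h3 := h2.comp_hasDerivAt t h1
  rw [fd_apply] at h3
  exact h3

theorem dx {f : ℂ → ℝ} (hf : ContDiff ℝ ∞ f) (Z : ℂ) (x θ : ℝ) :
    HasDerivAt (fun u => f (zz Z u θ))
      (-2 * (Real.cos θ * dc 1 f (zz Z x θ) + Real.sin θ * dc I f (zz Z x θ))) x := by
  have hp : HasDerivAt (fun u : ℝ => 2 * u * Real.cos θ) (2 * Real.cos θ) x := by
    simpa using ((hasDerivAt_id x).const_mul 2).mul_const (Real.cos θ)
  have hq : HasDerivAt (fun u : ℝ => 2 * u * Real.sin θ) (2 * Real.sin θ) x := by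
    simpa using ((hasDerivAt_id x).const_mul 2).mul_const (Real.sin θ)
  have := path_deriv hf Z hp hq
  simp only [← zz_eq] at this
  convert this using 1
  ring

theorem dth {f : ℂ → ℝ} (hf : ContDiff ℝ ∞ f) (Z : ℂ) (x θ : ℝ) :
    HasDerivAt (fun u => f (zz Z x u))
      (-2 * x * (-Real.sin θ * dc 1 f (zz Z x θ) + Real.cos θ * dc I f (zz Z x θ))) θ := by
  have hp : HasDerivAt (fun u : ℝ => 2 * x * Real.cos u) (2 * x * -Real.sin θ) θ :=
    (Real.hasDerivAt_cos θ).const_mul (2 * x)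
  have hq : HasDerivAt (fun u : ℝ => 2 * x * Real.sin u) (2 * x * Real.cos θ) θ :=
    (Real.hasDerivAt_sin θ).const_mul (2 * x)
  have := path_deriv hf Z hp hq
  simp only [← zz_eq] at this
  convert this using 1
  ring

theorem param {Φ Φ' : ℝ → ℝ → ℝ} {M : ℝ} (hc : ∀ x, Continuous (Φ x))
    (hc' : ∀ x, Continuous (Φ' x)) (hd : ∀ x θ, HasDerivAt (fun u => Φ u θ) (Φ' x θ) x)
    (hM : ∀ x θ, |Φ' x θ| ≤ M) (x : ℝ) :
    HasDerivAt (fun u => ∫ θ in (0 : ℝ)..2 * Real.pi, Φ u θ)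
      (∫ θ in (0 : ℝ)..2 * Real.pi, Φ' x θ) x :=
  (intervalIntegral.hasDerivAt_integral_of_dominated_loc_of_deriv_le (s := univ)
    (bound := fun _ => M) univ_mem
    (Eventually.of_forall fun u => (hc u).aestronglyMeasurable) ((hc x).intervalIntegrable _ _)
    (hc' x).aestronglyMeasurable (Eventually.of_forall fun θ _ u _ => hM u θ)
    intervalIntegrable_const (Eventually.of_forall fun θ _ u _ => hd u θ)).2

theorem int_bd {g : ℝ → ℝ} {M : ℝ} (hM : ∀ θ, |g θ| ≤ M) :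
    |∫ θ in (0 : ℝ)..2 * Real.pi, g θ| ≤ M * |2 * Real.pi - 0| :=
  intervalIntegral.norm_integral_le_of_norm_le_const (f := g) fun θ _ => hM θ

/-- The radial derivative. -/
def R1 (f : ℂ → ℝ) (Z : ℂ) (x θ : ℝ) : ℝ :=
  -2 * (Real.cos θ * dc 1 f (zz Z x θ) + Real.sin θ * dc I f (zz Z x θ))

/-- The second radial derivative. -/
def R2 (f : ℂ → ℝ) (Z : ℂ) (x θ : ℝ) : ℝ :=
  -2 * (Real.cos θ * R1 (dc 1 f) Z x θ + Real.sin θ * R1 (dc I f) Z x θ)

theorem comb_bd {a b M N θ : ℝ} (ha : |a| ≤ M) (hb : |b| ≤ N) :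
    |-2 * (Real.cos θ * a + Real.sin θ * b)| ≤ 2 * (M + N) := by
  have h1 : |Real.cos θ * a| ≤ M := by
    rw [abs_mul]
    exact (mul_le_of_le_one_left (abs_nonneg _) (Real.abs_cos_le_one θ)).trans ha
  have h2 : |Real.sin θ * b| ≤ N := by
    rw [abs_mul]
    exact (mul_le_of_le_one_left (abs_nonneg _) (Real.abs_sin_le_one θ)).trans hb
  rw [abs_mul, abs_neg, abs_two]
  linarith [abs_add_le (Real.cos θ * a) (Real.sin θ * b)]

section
variable (hT : ∀ (δ : ℝ) (r : ℂ → ℝ), Tst δ r → ∀ v, Tst δ (dc v r))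
include hT

theorem R1_cont {δ : ℝ} {f : ℂ → ℝ} (h : Tst δ f) (Z : ℂ) (x : ℝ) : Continuous (R1 f Z x) := by
  have h1 := (hT δ f h 1).sm.continuous.comp (zz_cont Z x)
  have h2 := (hT δ f h I).sm.continuous.comp (zz_cont Z x)
  exact continuous_const.mul ((Real.continuous_cos.mul h1).add (Real.continuous_sin.mul h2))

theorem R2_cont {δ : ℝ} {f : ℂ → ℝ} (h : Tst δ f) (Z : ℂ) (x : ℝ) : Continuous (R2 f Z x) :=
  continuous_const.mul ((Real.continuous_cos.mul (R1_cont hT (hT δ f h 1) Z x)).add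
    (Real.continuous_sin.mul (R1_cont hT (hT δ f h I) Z x)))

theorem R1_bd {δ : ℝ} {f : ℂ → ℝ} (h : Tst δ f) : ∃ M : ℝ, ∀ Z x θ, |R1 f Z x θ| ≤ M := by
  obtain ⟨M, -, hM⟩ := tst_bd (hT δ f h 1)
  obtain ⟨N, -, hN⟩ := tst_bd (hT δ f h I)
  exact ⟨2 * (M + N), fun Z x θ => comb_bd (hM _) (hN _)⟩

theorem R2_bd {δ : ℝ} {f : ℂ → ℝ} (h : Tst δ f) : ∃ M : ℝ, ∀ Z x θ, |R2 f Z x θ| ≤ M := by
  obtain ⟨M, hM⟩ := R1_bd hT (hT δ f h 1)
  obtain ⟨N, hN⟩ := R1_bd hT (hT δ f h I)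
  exact ⟨2 * (M + N), fun Z x θ => comb_bd (hM _ _ _) (hN _ _ _)⟩

theorem g_d1 {δ : ℝ} {f : ℂ → ℝ} (h : Tst δ f) (Z : ℂ) (x : ℝ) :
    HasDerivAt (fun u => ∫ θ in (0 : ℝ)..2 * Real.pi, f (zz Z u θ))
      (∫ θ in (0 : ℝ)..2 * Real.pi, R1 f Z x θ) x := by
  obtain ⟨M, hM⟩ := R1_bd hT h
  exact param (Φ := fun u θ => f (zz Z u θ)) (fun u => h.sm.continuous.comp (zz_cont Z u))
    (R1_cont hT h Z) (fun u θ => dx h.sm Z u θ) (hM Z) x

theorem g_d2 {δ : ℝ} {f : ℂ → ℝ} (h : Tst δ f) (Z : ℂ) (x : ℝ) :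
    HasDerivAt (fun u => ∫ θ in (0 : ℝ)..2 * Real.pi, R1 f Z u θ)
      (∫ θ in (0 : ℝ)..2 * Real.pi, R2 f Z x θ) x := by
  obtain ⟨M, hM⟩ := R2_bd hT h
  refine param (R1_cont hT h Z) (R2_cont hT h Z) (fun u θ => ?_) (hM Z) x
  exact (((dx (hT δ f h 1).sm Z u θ).const_mul (Real.cos θ)).add
    ((dx (hT δ f h I).sm Z u θ).const_mul (Real.sin θ))).const_mul (-2)

/-- The polar form of the Laplacian, integrated over the circle. -/
theorem polar {δ : ℝ} {f : ℂ → ℝ} (h : Tst δ f) (Z : ℂ) (x : ℝ) :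
    (∫ θ in (0 : ℝ)..2 * Real.pi, R1 f Z x θ) + x * ∫ θ in (0 : ℝ)..2 * Real.pi, R2 f Z x θ =
      4 * x * ((∫ θ in (0 : ℝ)..2 * Real.pi, dc 1 (dc 1 f) (zz Z x θ)) +
        ∫ θ in (0 : ℝ)..2 * Real.pi, dc I (dc I f) (zz Z x θ)) := by
  have h1 := hT δ f h 1
  have h2 := hT δ f h I
  have c1 := R1_cont hT h Z x
  have c2 := R2_cont hT h Z x
  have c3 : Continuous fun θ => dc 1 (dc 1 f) (zz Z x θ) :=
    (hT δ _ h1 1).sm.continuous.comp (zz_cont Z x)
  have c4 : Continuous fun θ => dc I (dc I f) (zz Z x θ) :=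
    (hT δ _ h2 I).sm.continuous.comp (zz_cont Z x)
  have hd : ∀ θ : ℝ, HasDerivAt
      (fun u => 2 * (-Real.sin u * dc 1 f (zz Z x u) + Real.cos u * dc I f (zz Z x u)))
      (R1 f Z x θ + x * R2 f Z x θ -
        4 * x * (dc 1 (dc 1 f) (zz Z x θ) + dc I (dc I f) (zz Z x θ))) θ := by
    intro θ
    have := ((((Real.hasDerivAt_sin θ).fun_neg).fun_mul (dth h1.sm Z x θ)).fun_add
      ((Real.hasDerivAt_cos θ).fun_mul (dth h2.sm Z x θ))).const_mul 2
    refine this.congr_deriv ?_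
    simp only [R2, R1]
    linear_combination (-4 * x * (dc 1 (dc 1 f) (zz Z x θ) + dc I (dc I f) (zz Z x θ))) *
      Real.sin_sq_add_cos_sq θ
  have c5 : Continuous fun θ => x * R2 f Z x θ := continuous_const.mul c2
  have c6 : Continuous fun θ => R1 f Z x θ + x * R2 f Z x θ := c1.add c5
  have c7 : Continuous fun θ =>
      4 * x * (dc 1 (dc 1 f) (zz Z x θ) + dc I (dc I f) (zz Z x θ)) :=
    continuous_const.mul (c3.add c4)
  have hc : Continuous fun θ => R1 f Z x θ + x * R2 f Z x θ -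
      4 * x * (dc 1 (dc 1 f) (zz Z x θ) + dc I (dc I f) (zz Z x θ)) := c6.sub c7
  have h0 := intervalIntegral.integral_eq_sub_of_hasDerivAt (a := 0) (b := 2 * Real.pi)
    (fun θ _ => hd θ) (hc.intervalIntegrable _ _)
  have hz : zz Z x (2 * Real.pi) = zz Z x 0 := by
    rw [zz_eq, zz_eq, Real.cos_two_pi, Real.sin_two_pi, Real.cos_zero, Real.sin_zero]
  rw [hz, Real.cos_two_pi, Real.sin_two_pi, Real.cos_zero, Real.sin_zero, sub_self,
    intervalIntegral.integral_sub (c6.intervalIntegrable _ _) (c7.intervalIntegrable _ _),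
    intervalIntegral.integral_add (c1.intervalIntegrable _ _) (c5.intervalIntegrable _ _),
    intervalIntegral.integral_const_mul, intervalIntegral.integral_const_mul,
    intervalIntegral.integral_add (c3.intervalIntegrable _ _) (c4.intervalIntegrable _ _)] at h0
  linarith

omit hT in
theorem kk_true (f : ℂ → ℝ) (Z : ℂ) :
    kk true f Z = fun y => 2 * ∫ θ in (0 : ℝ)..2 * Real.pi, f (zz Z (√y) θ) := by
  funext y
  simp only [kk, zz, if_true]

theorem k_d1 {δ : ℝ} {f : ℂ → ℝ} (h : Tst δ f) (Z : ℂ) {y : ℝ} (hy : 0 < y) :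
    deriv (kk true f Z) y = (∫ θ in (0 : ℝ)..2 * Real.pi, R1 f Z (√y) θ) / √y := by
  rw [kk_true]
  have := (((g_d1 hT h Z (√y)).comp y (Real.hasDerivAt_sqrt hy.ne')).const_mul 2).deriv
  refine Eq.trans this ?_
  have hs : 0 < √y := Real.sqrt_pos.2 hy
  field_simp

theorem true_case {δ : ℝ} {r : ℂ → ℝ} (h : Tst δ r) :
    (∀ Z, ∀ y ∈ ok true, deriv (fun x => om true x * deriv (kk true r Z) x) y =
      kk true (dc 1 (dc 1 r)) Z y + kk true (dc I (dc I r)) Z y) ∧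
    ∃ C : ℝ, ∀ Z, ∀ y ∈ ok true, om true y * deriv (kk true r Z) y ^ 2 ≤ C ∧
      |om true y * deriv (deriv (kk true r Z)) y| ≤ C := by
  have hok : ∀ y ∈ ok true, (0 : ℝ) < y := fun y hy => by simpa [ok] using hy
  have hom : ∀ y, om true y = y := fun y => by simp [om]
  constructor
  · intro Z y hy
    have hy0 := hok y hy
    have hs : 0 < √y := Real.sqrt_pos.2 hy0
    have he : (fun x => om true x * deriv (kk true r Z) x) =ᶠ[𝓝 y]
        fun x => √x * ∫ θ in (0 : ℝ)..2 * Real.pi, R1 r Z (√x) θ := by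
      filter_upwards [lt_mem_nhds hy0] with x hx
      rw [hom, k_d1 hT h Z hx]
      have hsx : 0 < √x := Real.sqrt_pos.2 hx
      have := Real.mul_self_sqrt hx.le
      field_simp
      rw [sq, this, mul_comm]
    rw [he.deriv_eq]
    have h1 := ((Real.hasDerivAt_sqrt hy0.ne').mul
      ((g_d2 hT h Z (√y)).comp y (Real.hasDerivAt_sqrt hy0.ne'))).deriv
    refine Eq.trans h1 ?_
    have h2 := polar hT h Z (√y)
    simp only [kk_true, Function.comp_apply]
    field_simp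
    linarith
  · obtain ⟨M, hM⟩ := R1_bd hT h
    obtain ⟨N, hN⟩ := R2_bd hT h
    obtain ⟨A, -, hA⟩ := tst_bd (hT δ _ (hT δ r h 1) 1)
    obtain ⟨B, -, hB⟩ := tst_bd (hT δ _ (hT δ r h I) I)
    set p := |2 * Real.pi - 0|
    refine ⟨max ((M * p) ^ 2) (N * p + 2 * (A * p + B * p)), fun Z y hy => ⟨?_, ?_⟩⟩
    · have hy0 := hok y hy
      refine le_trans ?_ (le_max_left _ _)
      rw [hom, k_d1 hT h Z hy0, div_pow, Real.sq_sqrt hy0.le, mul_div_cancel₀ _ hy0.ne']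
      exact sq_le_sq' (abs_le.1 (int_bd (hM Z _))).1 (abs_le.1 (int_bd (hM Z _))).2
    · have hy0 := hok y hy
      have hs : 0 < √y := Real.sqrt_pos.2 hy0
      refine le_trans ?_ (le_max_right _ _)
      have he : deriv (kk true r Z) =ᶠ[𝓝 y]
          fun x => (∫ θ in (0 : ℝ)..2 * Real.pi, R1 r Z (√x) θ) / √x := by
        filter_upwards [lt_mem_nhds hy0] with x hx
        exact k_d1 hT h Z hx
      have h1 := (((g_d2 hT h Z (√y)).comp y (Real.hasDerivAt_sqrt hy0.ne')).div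
        (Real.hasDerivAt_sqrt hy0.ne') hs.ne').deriv
      have h2 := polar hT h Z (√y)
      have h3 : om true y * deriv (deriv (kk true r Z)) y =
          (∫ θ in (0 : ℝ)..2 * Real.pi, R2 r Z (√y) θ) -
            2 * ((∫ θ in (0 : ℝ)..2 * Real.pi, dc 1 (dc 1 r) (zz Z (√y) θ)) +
              ∫ θ in (0 : ℝ)..2 * Real.pi, dc I (dc I r) (zz Z (√y) θ)) := by
        rw [he.deriv_eq, hom]
        refine Eq.trans (congrArg (fun t => y * t) h1) ?_
        simp only [Function.comp_apply]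
        rw [Real.sq_sqrt hy0.le]
        field_simp
        linarith
      rw [h3]
      have b1 := abs_le.1 (int_bd (hN Z (√y)))
      have b2 := abs_le.1 (int_bd fun θ => hA (zz Z (√y) θ))
      have b3 := abs_le.1 (int_bd fun θ => hB (zz Z (√y) θ))
      rw [abs_le]
      constructor <;> linarith [b1.1, b1.2, b2.1, b2.2, b3.1, b3.2]

end

theorem kk_shift (f : ℂ → ℝ) (Z : ℂ) (y : ℝ) : kk false f Z y = kk false f (Z - y) 0 := by
  simp [kk]

theorem kk_vert (f : ℂ → ℝ) (Z : ℂ) (y t : ℝ) : kk false f (Z + t * I) y = kk false f Z y := by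
  simp only [kk, Bool.false_eq_true, if_false]
  rw [← integral_sub_right_eq_self (fun s : ℝ => f (Z - y - s * I)) t]
  congr 1
  funext s
  congr 1
  push_cast
  ring

theorem false_d (h : StKer1) {δ : ℝ} {f : ℂ → ℝ} (hf : Tst δ f) (Z : ℂ) :
    deriv (kk false f Z) = fun y => -kk false (dc 1 f) Z y := by
  funext y
  obtain ⟨h1, h2⟩ := (h false δ f hf).2.2.1 0 (by simp [ok]) (Z - y)
  have h3 : HasDerivAt (fun u : ℝ => Z - (u : ℂ)) (-1 : ℂ) y := by
    simpa using ((hasDerivAt_id y).ofReal_comp).const_sub Z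
  have h4 := h1.hasFDerivAt.comp_hasDerivAt y h3
  have e : kk false f Z = (fun W => kk false f W 0) ∘ fun u : ℝ => Z - (u : ℂ) := by
    funext u
    exact kk_shift f Z u
  rw [e, h4.deriv, map_neg, h2, ← kk_shift]

theorem false_vert (h : StKer1) {δ : ℝ} {f : ℂ → ℝ} (hf : Tst δ f) (Z : ℂ) (y : ℝ) :
    kk false (dc I f) Z y = 0 := by
  obtain ⟨h1, h2⟩ := (h false δ f hf).2.2.1 y (by simp [ok]) Z
  have h3 : HasDerivAt (fun u : ℝ => Z + (u : ℂ) * I) I 0 := by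
    simpa using (((hasDerivAt_id (0 : ℝ)).ofReal_comp).mul_const I).const_add Z
  have h4 := h1.hasFDerivAt.comp_hasDerivAt_of_eq (0 : ℝ) h3 (by simp)
  have e : ((fun W => kk false f W y) ∘ fun u : ℝ => Z + (u : ℂ) * I) =
      fun _ => kk false f Z y := by
    funext u
    exact kk_vert f Z y u
  rw [e, h2] at h4
  exact h4.unique (hasDerivAt_const _ _)

end Ker2

open Ker2 in
theorem ker2_ok (h : StKer1) : StKer2 := by
  have hT : ∀ (δ : ℝ) (r : ℂ → ℝ), Tst δ r → ∀ v, Tst δ (dc v r) :=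
    fun δ r hr => (h true δ r hr).1
  intro b δ r hr
  cases b with
  | true => exact true_case hT hr
  | false =>
    have hom : ∀ y, om false y = 1 := fun y => by simp [om]
    have h1 := hT δ r hr 1
    have hd : ∀ Z y, deriv (deriv (kk false r Z)) y = kk false (dc 1 (dc 1 r)) Z y := by
      intro Z y
      rw [false_d h hr Z, deriv.fun_neg, false_d h h1 Z, neg_neg]
    constructor
    · intro Z y _
      simp only [hom, one_mul]
      rw [false_vert h (hT δ r hr Complex.I), add_zero]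
      exact hd Z y
    · obtain ⟨A, hA⟩ := (h false δ _ h1).2.2.2.2.2
      obtain ⟨B, hB⟩ := (h false δ _ (hT δ _ h1 1)).2.2.2.2.2
      refine ⟨max (A ^ 2) B, fun Z y hy => ⟨?_, ?_⟩⟩
      · refine le_trans ?_ (le_max_left _ _)
        rw [hom, one_mul, false_d h hr Z, neg_sq]
        exact sq_le_sq' (abs_le.1 (hA Z y hy)).1 (abs_le.1 (hA Z y hy)).2
      · rw [hom, one_mul, hd]
        exact (hB Z y hy).trans (le_max_right _ _)

end Pool.Agent.P.MP_2cea5e_gt.I
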