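import Pool.Agent.P.MP_2cea5e_gt.I.St1

/-!
Radial probability kernels.
-/

open scoped ContDiff Topology
open MeasureTheory Set Filter

noncomputable section

namespace Pool.Agent.P.MP_2cea5e_gt.I

namespace Ker3

theorem ex (δ : ℝ) (hδ : 0 < δ) : ∃ r : ℂ → ℝ, Tst δ r ∧ (∀ z, 0 ≤ r z) ∧
    (∀ z w, ‖z‖ = ‖w‖ → r z = r w) ∧ ∫ z, r z = 1 := by
  set φ : ℂ → ℝ := fun z => expNegInvGlue (δ ^ 2 - ‖z‖ ^ 2) with hφ
  have hsm : ContDiff ℝ ∞ φ :=
    expNegInvGlue.contDiff.comp (contDiff_const.sub (contDiff_norm_sq ℝ))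
  have hs : ∀ z, δ < ‖z‖ → φ z = 0 := fun z hz =>
    expNegInvGlue.zero_of_nonpos (by nlinarith)
  have hnn : ∀ z, 0 ≤ φ z := fun z => expNegInvGlue.nonneg _
  have hc : HasCompactSupport φ :=
    HasCompactSupport.intro (isCompact_closedBall (0 : ℂ) δ) fun z hz =>
      hs z (by simpa using hz)
  have h0 : φ 0 ≠ 0 := by
    refine (expNegInvGlue.pos_of_pos ?_).ne'
    simpa using pow_pos hδ 2
  have hp : 0 < ∫ z, φ z :=
    hsm.continuous.integral_pos_of_hasCompactSupport_nonneg_nonzero hc hnn h0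
  refine ⟨fun z => (∫ z, φ z)⁻¹ * φ z, ⟨contDiff_const.mul hsm, fun z hz => by simp [hs z hz]⟩,
    fun z => mul_nonneg (inv_nonneg.2 hp.le) (hnn z), fun z w h => by simp only [hφ, h], ?_⟩
  rw [integral_const_mul, inv_mul_cancel₀ hp.ne']

theorem nn (b : Bool) {r : ℂ → ℝ} (h0 : ∀ z, 0 ≤ r z) (Z : ℂ) (y : ℝ) : 0 ≤ kk b r Z y := by
  unfold kk
  split_ifs
  · exact mul_nonneg zero_le_two
      (intervalIntegral.integral_nonneg (by positivity) fun _ _ => h0 _)
  · exact integral_nonneg fun _ => h0 _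

theorem per (r : ℂ → ℝ) (Z c : ℂ) :
    Function.Periodic (fun θ : ℝ => r (Z - c * Complex.exp (θ * Complex.I))) (2 * Real.pi) := by
  intro θ
  have : Complex.exp (((θ + 2 * Real.pi : ℝ) : ℂ) * Complex.I) = Complex.exp (θ * Complex.I) := by
    push_cast
    rw [add_mul, Complex.exp_add, Complex.exp_two_pi_mul_I, mul_one]
  simp only [this]

theorem mass_false {r : ℂ → ℝ} (h1 : ∫ z, r z = 1) (Z : ℂ) : ∫ y, kk false r Z y = 1 := by
  have e1 : ∫ z, r (Z - z) = 1 := by rw [integral_sub_left_eq_self, h1]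
  have e2 : ∫ p : ℝ × ℝ, r (Z - Complex.measurableEquivRealProd.symm p) = 1 := by
    rw [← e1]
    exact (Complex.volume_preserving_equiv_real_prod.symm).integral_comp
      Complex.measurableEquivRealProd.symm.measurableEmbedding (fun z => r (Z - z))
  have hi : Integrable (fun p : ℝ × ℝ => r (Z - Complex.measurableEquivRealProd.symm p))
      (volume.prod volume) := Integrable.of_integral_ne_zero (by
        rw [← Measure.volume_eq_prod, e2]; exact one_ne_zero)
  rw [Measure.volume_eq_prod, integral_prod _ hi] at e2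
  rw [← e2]
  refine integral_congr_ae (Eventually.of_forall fun y => ?_)
  simp only [kk, Bool.false_eq_true, if_false]
  refine integral_congr_ae (Eventually.of_forall fun s => ?_)
  simp only
  congr 1
  apply Complex.ext <;> simp

theorem mass_true {r : ℂ → ℝ} (h1 : ∫ z, r z = 1) (Z : ℂ) :
    ∫ y in Ioi (0 : ℝ), kk true r Z y = 1 := by
  have e1 : ∫ z, r (Z - z) = 1 := by rw [integral_sub_left_eq_self, h1]
  have e2 := Complex.integral_comp_polarCoord_symm (fun z => r (Z - z))
  rw [e1] at e2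
  have ht : polarCoord.target = Ioi (0 : ℝ) ×ˢ Ioo (-Real.pi) Real.pi := rfl
  rw [ht] at e2
  have hi : IntegrableOn (fun p : ℝ × ℝ => p.1 • r (Z - Complex.polarCoord.symm p))
      (Ioi (0 : ℝ) ×ˢ Ioo (-Real.pi) Real.pi) (volume.prod volume) :=
    Integrable.of_integral_ne_zero (by rw [← Measure.volume_eq_prod, e2]; exact one_ne_zero)
  rw [Measure.volume_eq_prod, setIntegral_prod _ hi] at e2
  have him : (fun x : ℝ => x ^ 2 / 4) '' Ioi 0 = Ioi 0 := by
    ext y
    constructor
    · rintro ⟨x, hx, rfl⟩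
      have : (0 : ℝ) < x := hx
      show (0 : ℝ) < x ^ 2 / 4
      positivity
    · intro hy
      have hy' : (0 : ℝ) < y := hy
      refine ⟨2 * √y, show (0 : ℝ) < 2 * √y by positivity, ?_⟩
      show (2 * √y) ^ 2 / 4 = y
      rw [mul_pow, Real.sq_sqrt hy'.le]; ring
  have hd : ∀ x ∈ Ioi (0 : ℝ), HasDerivWithinAt (fun x : ℝ => x ^ 2 / 4) (x / 2) (Ioi 0) x := by
    intro x _
    have := ((hasDerivAt_pow 2 x).div_const 4).hasDerivWithinAt (s := Ioi 0)
    have e : x / 2 = ((2 : ℕ) : ℝ) * x ^ (2 - 1) / 4 := by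
      rw [show (2 - 1 : ℕ) = 1 from rfl, pow_one]; push_cast; ring
    rw [e]
    exact this
  have hj : InjOn (fun x : ℝ => x ^ 2 / 4) (Ioi 0) := by
    intro x hx y hy h
    have hx' : (0 : ℝ) < x := hx
    have hy' : (0 : ℝ) < y := hy
    have h' : x ^ 2 = y ^ 2 := by
      have : x ^ 2 / 4 = y ^ 2 / 4 := h
      linarith
    exact (pow_left_inj₀ hx'.le hy'.le two_ne_zero).1 h'
  have e3 := integral_image_eq_integral_abs_deriv_smul measurableSet_Ioi hd hj (kk true r Z)
  rw [him] at e3
  rw [e3, ← e2]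
  refine setIntegral_congr_fun measurableSet_Ioi fun x hx => ?_
  have hx' : (0 : ℝ) < x := hx
  have hs : 2 * √(x ^ 2 / 4) = x := by
    rw [show x ^ 2 / 4 = (x / 2) ^ 2 by ring, Real.sqrt_sq (by positivity)]; ring
  simp only [kk, if_true, hs, smul_eq_mul]
  have e4 := (per r Z x).intervalIntegral_add_eq 0 (-Real.pi)
  rw [zero_add, show -Real.pi + 2 * Real.pi = Real.pi by ring] at e4
  rw [e4, intervalIntegral.integral_of_le (by linarith [Real.pi_pos]), integral_Ioc_eq_integral_Ioo,
    integral_const_mul, abs_of_pos (by positivity), ← mul_assoc, show x / 2 * 2 = x by ring]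
  congr 1
  refine integral_congr_ae (Eventually.of_forall fun θ => ?_)
  simp only [Complex.polarCoord_symm_apply, Complex.exp_mul_I]
  simp

theorem symm (b : Bool) {r : ℂ → ℝ} (hr : ∀ z w, ‖z‖ = ‖w‖ → r z = r w) (y y' : ℝ) :
    kk b r (th b y) y' = kk b r (th b y') y := by
  cases b
  · simp only [kk, th, Bool.false_eq_true, if_false]
    refine integral_congr_ae (Eventually.of_forall fun s => hr _ _ ?_)
    rw [Complex.norm_eq_sqrt_sq_add_sq, Complex.norm_eq_sqrt_sq_add_sq]
    congr 1
    simp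
    ring
  · simp only [kk, th, if_true]
    congr 1
    refine intervalIntegral.integral_congr fun θ _ => hr _ _ ?_
    generalize 2 * √y = a
    generalize 2 * √y' = c
    rw [Complex.norm_eq_sqrt_sq_add_sq, Complex.norm_eq_sqrt_sq_add_sq]
    congr 1
    simp only [Complex.sub_re, Complex.sub_im, Complex.mul_re, Complex.mul_im, Complex.ofReal_re,
      Complex.ofReal_im, Complex.exp_ofReal_mul_I_re, Complex.exp_ofReal_mul_I_im]
    have := Real.sin_sq_add_cos_sq θ
    linear_combination (c ^ 2 - a ^ 2) * this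

theorem neg {r : ℂ → ℝ} (hr : ∀ z w, ‖z‖ = ‖w‖ → r z = r w) (Z : ℂ) (y : ℝ) :
    kk true r (-Z) y = kk true r Z y := by
  simp only [kk, if_true]
  congr 1
  generalize ((2 * √y : ℝ) : ℂ) = c
  have e4 := (per r Z c).intervalIntegral_add_eq 0 Real.pi
  rw [zero_add] at e4
  rw [e4]
  have e5 := intervalIntegral.integral_comp_add_right (a := 0) (b := 2 * Real.pi)
    (fun θ : ℝ => r (Z - c * Complex.exp (θ * Complex.I))) Real.pi
  rw [zero_add, add_comm (2 * Real.pi)] at e5
  rw [← e5]
  refine intervalIntegral.integral_congr fun θ _ => hr _ _ ?_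
  have : Complex.exp (((θ + Real.pi : ℝ) : ℂ) * Complex.I) = -Complex.exp (θ * Complex.I) := by
    push_cast
    rw [add_mul, Complex.exp_add, Complex.exp_pi_mul_I]; ring
  rw [this, ← norm_neg]
  congr 1
  ring

theorem ball_false {r : ℂ → ℝ} (h0 : ∀ z, 0 ≤ r z) (hr : ∀ z w, ‖z‖ = ‖w‖ → r z = r w)
    (h1 : ∫ z, r z = 1) (y : ℝ) : ∫ Z in Metric.ball (0 : ℂ) 1, kk false r Z y ≤ 13 := by
  set g : ℝ → ℝ := fun x => kk false r y x with hg
  have hg1 : ∫ x, g x = 1 := mass_false h1 y
  have hgi : Integrable g := Integrable.of_integral_ne_zero (by rw [hg1]; exact one_ne_zero)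
  have hk : ∀ Z : ℂ, kk false r Z y = g Z.re := by
    intro Z
    have := symm false hr y Z.re
    simp only [th, Bool.false_eq_true, if_false] at this
    simp only [hg]
    rw [this]
    simp only [kk, Bool.false_eq_true, if_false]
    rw [← integral_add_right_eq_self (fun s : ℝ => r (Z - y - s * Complex.I)) Z.im]
    refine integral_congr_ae (Eventually.of_forall fun s => ?_)
    simp only
    congr 1
    apply Complex.ext <;> simp
  set u : ℝ → ℝ := (Icc (-1 : ℝ) 1).indicator fun _ => 1 with hu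
  have hui : Integrable u := by
    rw [hu, integrable_indicator_iff measurableSet_Icc]
    exact integrableOn_const (by simp)
  have hu2 : ∫ x, u x = 2 := by
    rw [hu, integral_indicator measurableSet_Icc]
    simp; norm_num
  have hP : Integrable (fun p : ℝ × ℝ => g p.1 * u p.2) volume := by
    rw [Measure.volume_eq_prod]; exact hgi.mul_prod hui
  have hC : Integrable (fun Z : ℂ => g Z.re * u Z.im) :=
    (Complex.volume_preserving_equiv_real_prod.integrable_comp_emb
      Complex.measurableEquivRealProd.measurableEmbedding).2 hP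
  have hI : ∫ Z : ℂ, g Z.re * u Z.im = 2 := by
    have := Complex.volume_preserving_equiv_real_prod.integral_comp
      Complex.measurableEquivRealProd.measurableEmbedding (fun p : ℝ × ℝ => g p.1 * u p.2)
    rw [Measure.volume_eq_prod, integral_prod_mul, hg1, hu2, one_mul] at this
    exact this
  rw [← integral_indicator Metric.isOpen_ball.measurableSet]
  refine le_trans (integral_mono_of_nonneg ?_ hC ?_) (by rw [hI]; norm_num)
  · exact Eventually.of_forall fun Z => indicator_nonneg (fun Z _ => nn false h0 Z y) Z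
  · refine Eventually.of_forall fun Z => ?_
    have hgn : 0 ≤ g Z.re := nn false h0 _ _
    by_cases hZ : Z ∈ Metric.ball (0 : ℂ) 1
    · have h2 : |Z.im| ≤ 1 := (Complex.abs_im_le_norm Z).trans (by
        simpa using (mem_ball_zero_iff.1 hZ).le)
      have h3 : Z.im ∈ Icc (-1 : ℝ) 1 := abs_le.1 h2
      simp only [indicator_of_mem hZ, hu, indicator_of_mem h3, mul_one, hk, le_refl]
    · simp only [indicator_of_notMem hZ]
      exact mul_nonneg hgn (indicator_nonneg (fun _ _ => zero_le_one) _)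

theorem ball_true {δ : ℝ} {r : ℂ → ℝ} (ht : Tst δ r) (h0 : ∀ z, 0 ≤ r z)
    (h1 : ∫ z, r z = 1) (y : ℝ) : ∫ Z in Metric.ball (0 : ℂ) 1, kk true r Z y ≤ 13 := by
  simp only [kk, if_true]
  generalize ((2 * √y : ℝ) : ℂ) = c
  have hc : HasCompactSupport r :=
    HasCompactSupport.intro (isCompact_closedBall (0 : ℂ) δ) fun z hz =>
      ht.supp z (by simpa using hz)
  have hcont := ht.sm.continuous
  obtain ⟨C, hC⟩ := hcont.bounded_above_of_compact_support hc
  have hri : Integrable r := hcont.integrable_of_hasCompactSupport hc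
  have hpi : (0 : ℝ) ≤ 2 * Real.pi := by positivity
  simp only [intervalIntegral.integral_of_le hpi]
  have hF : Continuous fun p : ℂ × ℝ => r (p.1 - c * Complex.exp (p.2 * Complex.I)) := by
    fun_prop
  have : IsFiniteMeasure (volume.restrict (Metric.ball (0 : ℂ) 1)) :=
    isFiniteMeasure_restrict.2 measure_ball_lt_top.ne
  have hi : Integrable (Function.uncurry fun (Z : ℂ) (θ : ℝ) =>
      r (Z - c * Complex.exp (θ * Complex.I)))
      ((volume.restrict (Metric.ball (0 : ℂ) 1)).prod (volume.restrict (Ioc 0 (2 * Real.pi)))) :=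
    (integrable_const C).mono' hF.aestronglyMeasurable (Eventually.of_forall fun p => hC _)
  rw [integral_const_mul, integral_integral_swap hi]
  have hb : ∀ θ : ℝ, ∫ Z in Metric.ball (0 : ℂ) 1, r (Z - c * Complex.exp (θ * Complex.I)) ≤ 1 := by
    intro θ
    refine le_trans (setIntegral_le_integral (hri.comp_sub_right _)
      (Eventually.of_forall fun Z => h0 _)) ?_
    rw [integral_sub_right_eq_self, h1]
  have h2 : ∫ θ in Ioc 0 (2 * Real.pi), ∫ Z in Metric.ball (0 : ℂ) 1,
      r (Z - c * Complex.exp ((θ : ℝ) * Complex.I)) ≤ ∫ _ in Ioc 0 (2 * Real.pi), (1 : ℝ) :=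
    integral_mono_of_nonneg (Eventually.of_forall fun θ => integral_nonneg fun _ => h0 _)
      (integrable_const _) (Eventually.of_forall hb)
  have h3 : ∫ _ in Ioc 0 (2 * Real.pi), (1 : ℝ) = 2 * Real.pi := by
    simp [Real.pi_pos.le]
  rw [h3] at h2
  linarith [Real.pi_lt_d2]

end Ker3

theorem ker3_ok (_h : StKer1) : StKer3 := by
  refine ⟨Ker3.ex, fun b δ r ht h0 hr h1 => ⟨Ker3.nn b h0, fun Z => ?_,
    fun y _ y' _ => Ker3.symm b hr y y', fun y _ => ?_, ?_⟩⟩
  · have : ∫ y in ok b, kk b r Z y = 1 := by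
      cases b
      · simpa [ok] using Ker3.mass_false h1 Z
      · simpa [ok] using Ker3.mass_true h1 Z
    exact ⟨Integrable.of_integral_ne_zero (by rw [this]; exact one_ne_zero), this⟩
  · cases b
    · exact Ker3.ball_false h0 hr h1 y
    · exact Ker3.ball_true ht h0 h1 y
  · rintro rfl
    exact Ker3.neg hr

end Pool.Agent.P.MP_2cea5e_gt.I
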