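import Pool.Agent.P.MP_2cea5e_gt.I.St5

/-!
Chapter I: the symplectic potential of a chart.
-/

open scoped ContDiff Topology
open MeasureTheory Set Filter

noncomputable section

set_option linter.dupNamespace false

namespace Pool.Agent.P.MP_2cea5e_gt.I

namespace LegP

/-- The data of `StSig`. -/
structure SD (I : Set ℝ) (f : ℝ × C2 → ℝ) (g₁ g₂ : X → ℝ) (Θ : X → X) : Prop where
  s1 : ContDiffOn ℝ ∞ g₁ (I ×ˢ univ)
  s2 : ContDiffOn ℝ ∞ g₂ (I ×ˢ univ)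
  pt : ∀ p : X, p.1 ∈ I → 0 < g₁ p ∧ 0 < g₂ p ∧ mm f p = (p.2.1 ^ 2 * g₁ p, p.2.2 ^ 2 * g₂ p) ∧
    g₁ (p.1, -p.2.1, p.2.2) = g₁ p ∧ g₁ (p.1, p.2.1, -p.2.2) = g₁ p ∧
    g₂ (p.1, -p.2.1, p.2.2) = g₂ p ∧ g₂ (p.1, p.2.1, -p.2.2) = g₂ p ∧ Θ (sg g₁ g₂ p) = p
  op : IsOpen (sg g₁ g₂ '' (I ×ˢ univ))
  sm : ContDiffOn ℝ ∞ Θ (sg g₁ g₂ '' (I ×ˢ univ))

/-- The open quadrant. -/
def Q : Set (ℝ × ℝ) := ok true ×ˢ ok true

theorem mem_Q {y : ℝ × ℝ} : y ∈ Q ↔ 0 < y.1 ∧ 0 < y.2 := by simp [Q, ok]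

/-- The domain. -/
def dom (I : Set ℝ) (hI : IsOpen I) (P : Set (ℝ × ℝ)) : Dm :=
  ⟨(true, true), I, interior (P ∪ Qᶜ), hI, isOpen_interior⟩

/-- The point of the real slice over `p`. -/
def ex (p : X) : X := (p.1, Real.exp (p.2.1 / 2), Real.exp (p.2.2 / 2))

variable {I : Set ℝ} {f : ℝ × C2 → ℝ} {g₁ g₂ : X → ℝ} {Θ : X → X} {P : Set (ℝ × ℝ)} {p q : X}

theorem sq2_tt (q : X) : sq2 (true, true) q = (q.1, q.2.1 ^ 2, q.2.2 ^ 2) := by simp [sq2]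
theorem rt2_tt (q : X) : rt2 (true, true) q = (q.1, √q.2.1, √q.2.2) := by simp [rt2]

theorem cont_rt2 : Continuous (rt2 (true, true)) := by
  rw [show rt2 (true, true) = fun q : X => (q.1, √q.2.1, √q.2.2) from funext rt2_tt]
  fun_prop

theorem SD.sg1 (S : SD I f g₁ g₂ Θ) (hp : p.1 ∈ I) : sg g₁ g₂ (p.1, -p.2.1, p.2.2) =
    ((sg g₁ g₂ p).1, -(sg g₁ g₂ p).2.1, (sg g₁ g₂ p).2.2) := by
  obtain ⟨-, -, -, a, -, b, -, -⟩ := S.pt p hp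
  simp only [sg, a, b, neg_mul]

theorem SD.sg2 (S : SD I f g₁ g₂ Θ) (hp : p.1 ∈ I) : sg g₁ g₂ (p.1, p.2.1, -p.2.2) =
    ((sg g₁ g₂ p).1, (sg g₁ g₂ p).2.1, -(sg g₁ g₂ p).2.2) := by
  obtain ⟨-, -, -, -, a, -, b, -⟩ := S.pt p hp
  simp only [sg, a, b, neg_mul]

theorem SD.refl1 (S : SD I f g₁ g₂ Θ) (hq : q ∈ sg g₁ g₂ '' (I ×ˢ univ)) :
    ((q.1, -q.2.1, q.2.2) : X) ∈ sg g₁ g₂ '' (I ×ˢ univ) := by
  obtain ⟨p, hp, rfl⟩ := hq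
  exact ⟨(p.1, -p.2.1, p.2.2), ⟨hp.1, mem_univ _⟩, S.sg1 hp.1⟩

theorem SD.refl2 (S : SD I f g₁ g₂ Θ) (hq : q ∈ sg g₁ g₂ '' (I ×ˢ univ)) :
    ((q.1, q.2.1, -q.2.2) : X) ∈ sg g₁ g₂ '' (I ×ˢ univ) := by
  obtain ⟨p, hp, rfl⟩ := hq
  exact ⟨(p.1, p.2.1, -p.2.2), ⟨hp.1, mem_univ _⟩, S.sg2 hp.1⟩

theorem SD.abs_iff (S : SD I f g₁ g₂ Θ) (t a b : ℝ) :
    ((t, |a|, |b|) : X) ∈ sg g₁ g₂ '' (I ×ˢ univ) ↔ ((t, a, b) : X) ∈ sg g₁ g₂ '' (I ×ˢ univ) := by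
  have h1 : ∀ a b : ℝ, ((t, -a, b) : X) ∈ sg g₁ g₂ '' (I ×ˢ univ) ↔
      ((t, a, b) : X) ∈ sg g₁ g₂ '' (I ×ˢ univ) := fun a b =>
    ⟨fun h => by simpa only [neg_neg] using S.refl1 h, fun h => S.refl1 h⟩
  have h2 : ∀ a b : ℝ, ((t, a, -b) : X) ∈ sg g₁ g₂ '' (I ×ˢ univ) ↔
      ((t, a, b) : X) ∈ sg g₁ g₂ '' (I ×ˢ univ) := fun a b =>
    ⟨fun h => by simpa only [neg_neg] using S.refl2 h, fun h => S.refl2 h⟩
  rcases abs_choice a with ha | ha <;> rcases abs_choice b with hb | hb <;> rw [ha, hb]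
  · exact h2 a b
  · exact h1 a b
  · rw [h1, h2]

theorem SD.sq (S : SD I f g₁ g₂ Θ) (hp : p.1 ∈ I) :
    sq2 (true, true) (sg g₁ g₂ p) = (p.1, mm f p) := by
  obtain ⟨a, b, c, -⟩ := S.pt p hp
  simp only [sq2_tt, sg, c, mul_pow, Real.sq_sqrt a.le, Real.sq_sqrt b.le]

theorem SD.rt (S : SD I f g₁ g₂ Θ) (hp : p.1 ∈ I) (h1 : 0 ≤ p.2.1) (h2 : 0 ≤ p.2.2) :
    rt2 (true, true) (p.1, mm f p) = sg g₁ g₂ p := by
  obtain ⟨a, b, c, -⟩ := S.pt p hp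
  simp only [rt2_tt, sg, c, Real.sqrt_mul (sq_nonneg _), Real.sqrt_sq h1, Real.sqrt_sq h2]

theorem SD.cont_mm (S : SD I f g₁ g₂ Θ) : ContinuousOn (mm f) (I ×ˢ univ) := by
  have h : ContinuousOn (fun p : X => (p.2.1 ^ 2 * g₁ p, p.2.2 ^ 2 * g₂ p)) (I ×ˢ univ) :=
    (ContinuousOn.mul (by fun_prop) S.s1.continuousOn).prodMk
      (ContinuousOn.mul (by fun_prop) S.s2.continuousOn)
  exact h.congr fun p hp => (S.pt p hp.1).2.2.1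

theorem P_sub (L : LogP I f) (S : SD I f g₁ g₂ Θ) (hn : I.Nonempty)
    (hP : ∀ t ∈ I, range (gr (lg f) t) = P) : P ⊆ Q := by
  obtain ⟨t, ht⟩ := hn
  rw [← hP t ht]
  rintro _ ⟨ζ, rfl⟩
  have h1 : gr (lg f) t ζ = mm f (ex (t, ζ)) := L.gm (t, ζ) ht
  obtain ⟨a, b, c, -⟩ := S.pt (ex (t, ζ)) ht
  rw [h1, c, mem_Q]
  exact ⟨mul_pos (pow_pos (Real.exp_pos _) 2) a, mul_pos (pow_pos (Real.exp_pos _) 2) b⟩

theorem mm_mem (L : LogP I f) (hP : ∀ t ∈ I, range (gr (lg f) t) = P) (hp : p.1 ∈ I)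
    (h1 : 0 < p.2.1) (h2 : 0 < p.2.2) : mm f p ∈ P := by
  rw [← hP p.1 hp]
  refine ⟨(2 * Real.log p.2.1, 2 * Real.log p.2.2), ?_⟩
  refine (L.gm (p.1, 2 * Real.log p.2.1, 2 * Real.log p.2.2) hp).trans ?_
  simp only [mul_div_cancel_left₀ _ (two_ne_zero' ℝ), Real.exp_log h1, Real.exp_log h2]

theorem claimA (L : LogP I f) (S : SD I f g₁ g₂ Θ) (hP : ∀ t ∈ I, range (gr (lg f) t) = P) :
    sg g₁ g₂ '' (I ×ˢ univ) ⊆ sq2 (true, true) ⁻¹' (I ×ˢ interior (P ∪ Qᶜ)) := by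
  intro q hq
  have ht : q.1 ∈ I := by
    obtain ⟨p, hp, rfl⟩ := hq
    exact hp.1
  rw [mem_preimage, sq2_tt]
  refine ⟨ht, ?_⟩
  have ho : IsOpen {y : ℝ × ℝ | rt2 (true, true) (q.1, y) ∈ sg g₁ g₂ '' (I ×ˢ univ)} :=
    S.op.preimage (cont_rt2.comp (continuous_const.prodMk continuous_id))
  refine interior_maximal (fun y hy => ?_) ho ?_
  · by_cases hQ : y ∈ Q
    · left
      obtain ⟨p, hp, e⟩ := hy
      obtain ⟨a, b, -⟩ := S.pt p hp.1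
      have hy' := mem_Q.mp hQ
      have e0 := congrArg (sq2 (true, true)) e
      rw [S.sq hp.1, rt2_tt, sq2_tt] at e0
      simp only [Real.sq_sqrt hy'.1.le, Real.sq_sqrt hy'.2.le] at e0
      have e3 : mm f p = y := congrArg Prod.snd e0
      rw [rt2_tt] at e
      have e1 : p.2.1 * √(g₁ p) = √y.1 := congrArg (fun x : X => x.2.1) e
      have e2 : p.2.2 * √(g₂ p) = √y.2 := congrArg (fun x : X => x.2.2) e
      rw [← e3]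
      exact mm_mem L hP hp.1
        ((mul_pos_iff_of_pos_right (Real.sqrt_pos.mpr a)).mp (e1 ▸ Real.sqrt_pos.mpr hy'.1))
        ((mul_pos_iff_of_pos_right (Real.sqrt_pos.mpr b)).mp (e2 ▸ Real.sqrt_pos.mpr hy'.2))
    · exact Or.inr hQ
  · simp only [mem_ofPred_eq, rt2_tt, Real.sqrt_sq_eq_abs]
    exact (S.abs_iff _ _ _).mpr hq

theorem UU_eq (Φ : X → ℝ) (t : ℝ) (ζ : ℝ × ℝ) :
    UU Φ (t, ζ) = ip (gr Φ t ζ) ζ - Φ (t, ζ) := by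
  simp only [UU, ip, gr, grad, Pi.sub_apply, Pi.add_apply, Pi.mul_apply, Li_apply]
  ring

theorem claimB (h2 : StChg) (L : LogP I f) (S : SD I f g₁ g₂ Θ)
    (hP : ∀ t ∈ I, range (gr (lg f) t) = P) (hC : ∀ t ∈ I, ∃ C, ∀ ζ, |UU (lg f) (t, ζ)| ≤ C) :
    sq2 (true, true) ⁻¹' (I ×ˢ interior (P ∪ Qᶜ)) ⊆ sg g₁ g₂ '' (I ×ˢ univ) := by
  rintro ⟨t, a, b⟩ hq
  rw [mem_preimage, sq2_tt] at hq
  obtain ⟨ht, hy⟩ := hq
  simp only at ht hy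
  obtain ⟨C, hC⟩ := hC t ht
  obtain ⟨r, hr, hb⟩ := Metric.isOpen_iff.mp isOpen_interior _ hy
  have hin : ∀ α β : ℝ, 0 < α → α < r → 0 < β → β < r → ∃ ζ, gr (lg f) t ζ = (a ^ 2 + α, b ^ 2 + β) :=
    fun α β h1 h2 h3 h4 => by
      have h5 : ((a ^ 2 + α, b ^ 2 + β) : ℝ × ℝ) ∈ Metric.ball ((a ^ 2, b ^ 2) : ℝ × ℝ) r := by
        simp only [Metric.mem_ball, Prod.dist_eq, Real.dist_eq, add_sub_cancel_left, abs_of_pos h1,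
          abs_of_pos h3, max_lt_iff]
        exact ⟨h2, h4⟩
      rcases interior_subset (hb h5) with h | h
      · rw [← hP t ht] at h; exact h
      · exact absurd (mem_Q.mpr ⟨by positivity, by positivity⟩) h
  have cv := (h2 I _ L.pot t ht).2.1
  set M := Real.exp (2 * C / r) with hM
  have hK : IsCompact (({t} : Set ℝ) ×ˢ (Icc (0 : ℝ) M ×ˢ Icc (0 : ℝ) M)) :=
    isCompact_singleton.prod (isCompact_Icc.prod isCompact_Icc)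
  have hKs : ({t} : Set ℝ) ×ˢ (Icc (0 : ℝ) M ×ˢ Icc (0 : ℝ) M) ⊆ I ×ˢ univ :=
    prod_mono (singleton_subset_iff.mpr ht) (subset_univ _)
  have hcl := (hK.image_of_continuousOn (S.cont_mm.mono hKs)).isClosed
  have hε : ∀ ε ∈ Ioo 0 (r / 2), ((a ^ 2 + ε, b ^ 2 + ε) : ℝ × ℝ) ∈
      mm f '' (({t} : Set ℝ) ×ˢ (Icc (0 : ℝ) M ×ˢ Icc (0 : ℝ) M)) := fun ε hε => by
    obtain ⟨ζ, e⟩ := hin ε ε hε.1 (by linarith [hε.2]) hε.1 (by linarith [hε.2])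
    obtain ⟨ζ₁, e1⟩ := hin (ε + r / 2) ε (by linarith [hε.1]) (by linarith [hε.2]) hε.1
      (by linarith [hε.2])
    obtain ⟨ζ₂, e2⟩ := hin ε (ε + r / 2) hε.1 (by linarith [hε.2]) (by linarith [hε.1])
      (by linarith [hε.2])
    have c0 := (abs_le.mp (hC ζ)).1
    have c1 := (cv ζ₁ ζ).trans (abs_le.mp (hC ζ₁)).2
    have c2 := (cv ζ₂ ζ).trans (abs_le.mp (hC ζ₂)).2
    rw [UU_eq, e] at c0
    rw [e1] at c1
    rw [e2] at c2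
    simp only [ip] at c0 c1 c2
    refine ⟨ex (t, ζ), ⟨rfl, ⟨(Real.exp_pos _).le, Real.exp_le_exp.mpr ?_⟩,
      (Real.exp_pos _).le, Real.exp_le_exp.mpr ?_⟩, (L.gm (t, ζ) ht).symm.trans e⟩
    · rw [le_div_iff₀ hr]; simp only; linarith
    · rw [le_div_iff₀ hr]; simp only; linarith
  have hlim : Tendsto (fun ε : ℝ => ((a ^ 2 + ε, b ^ 2 + ε) : ℝ × ℝ)) (𝓝[>] 0)
      (𝓝 (a ^ 2, b ^ 2)) := by
    have : Continuous fun ε : ℝ => ((a ^ 2 + ε, b ^ 2 + ε) : ℝ × ℝ) := by fun_prop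
    simpa using (this.tendsto 0).mono_left nhdsWithin_le_nhds
  obtain ⟨p, hp, e⟩ := hcl.mem_of_tendsto hlim
    (mem_of_superset (Ioo_mem_nhdsGT (half_pos hr)) hε)
  have hpt : p.1 = t := hp.1
  have hpI : p.1 ∈ I := hpt ▸ ht
  have h3 := S.rt hpI hp.2.1.1 hp.2.2.1
  rw [e, rt2_tt, hpt] at h3
  simp only [Real.sqrt_sq_eq_abs] at h3
  exact (S.abs_iff _ _ _).mp ⟨p, ⟨hpI, mem_univ _⟩, h3.symm⟩

/-- The regular part as a function of the square roots. -/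
def wt2 (f : ℝ × C2 → ℝ) (g₁ g₂ : X → ℝ) (Θ : X → X) : X → ℝ := fun q =>
  -(q.2.1 ^ 2 * Real.log (g₁ (Θ q)) + q.2.2 ^ 2 * Real.log (g₂ (Θ q))) - rl f (Θ q)

theorem SD.maps (S : SD I f g₁ g₂ Θ) : MapsTo Θ (sg g₁ g₂ '' (I ×ˢ univ)) (I ×ˢ univ) := by
  rintro _ ⟨p, hp, rfl⟩
  rw [(S.pt p hp.1).2.2.2.2.2.2.2]
  exact hp

theorem sm_wt2 (L : LogP I f) (S : SD I f g₁ g₂ Θ) :
    ContDiffOn ℝ ∞ (wt2 f g₁ g₂ Θ) (sg g₁ g₂ '' (I ×ˢ univ)) := by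
  have a1 := (S.s1.comp S.sm S.maps).log fun q hq => (S.pt _ (S.maps hq).1).1.ne'
  have a2 := (S.s2.comp S.sm S.maps).log fun q hq => (S.pt _ (S.maps hq).1).2.1.ne'
  have b1 : ContDiff ℝ ∞ fun q : X => q.2.1 ^ 2 := by fun_prop
  have b2 : ContDiff ℝ ∞ fun q : X => q.2.2 ^ 2 := by fun_prop
  exact ((b1.contDiffOn.mul a1).add (b2.contDiffOn.mul a2)).neg.sub (L.smr.comp S.sm S.maps)

theorem ev1 (L : LogP I f) (S : SD I f g₁ g₂ Θ) (hq : q ∈ sg g₁ g₂ '' (I ×ˢ univ)) :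
    wt2 f g₁ g₂ Θ (q.1, -q.2.1, q.2.2) = wt2 f g₁ g₂ Θ q := by
  obtain ⟨p, hp, rfl⟩ := hq
  obtain ⟨-, -, -, a, -, b, -, c⟩ := S.pt p hp.1
  have c' := (S.pt (p.1, -p.2.1, p.2.2) hp.1).2.2.2.2.2.2.2
  rw [S.sg1 hp.1] at c'
  simp only [wt2, c, c', a, b, L.ev1 p hp.1, neg_sq]

theorem ev2 (L : LogP I f) (S : SD I f g₁ g₂ Θ) (hq : q ∈ sg g₁ g₂ '' (I ×ˢ univ)) :
    wt2 f g₁ g₂ Θ (q.1, q.2.1, -q.2.2) = wt2 f g₁ g₂ Θ q := by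
  obtain ⟨p, hp, rfl⟩ := hq
  obtain ⟨-, -, -, -, a, -, b, c⟩ := S.pt p hp.1
  have c' := (S.pt (p.1, p.2.1, -p.2.2) hp.1).2.2.2.2.2.2.2
  rw [S.sg2 hp.1] at c'
  simp only [wt2, c, c', a, b, L.ev2 p hp.1, neg_sq]

theorem u0_tt : u0 (true, true) = fun p : X =>
    p.2.1 * Real.log p.2.1 + p.2.2 * Real.log p.2.2 := by
  funext p; simp [u0, md]

theorem cont_u0 : Continuous (u0 (true, true)) := by
  rw [u0_tt]
  exact (Real.continuous_mul_log.comp (continuous_fst.comp continuous_snd)).add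
    (Real.continuous_mul_log.comp (continuous_snd.comp continuous_snd))

theorem sm_u0 : ContDiffOn ℝ ∞ (u0 (true, true)) (univ ×ˢ Q) := by
  rw [u0_tt]
  have b1 : ContDiff ℝ ∞ fun q : X => q.2.1 := by fun_prop
  have b2 : ContDiff ℝ ∞ fun q : X => q.2.2 := by fun_prop
  exact (b1.contDiffOn.mul (b1.contDiffOn.log fun p hp => (mem_Q.mp hp.2).1.ne')).add
    (b2.contDiffOn.mul (b2.contDiffOn.log fun p hp => (mem_Q.mp hp.2).2.ne'))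

theorem exp_sq (x : ℝ) : Real.exp (x / 2) ^ 2 = Real.exp x := by
  rw [← Real.exp_nat_mul]; congr 1; push_cast; ring

theorem grad_eq (L : LogP I f) (S : SD I f g₁ g₂ Θ) (hp : p.1 ∈ I) :
    grad (lg f) p = (Real.exp p.2.1 * g₁ (ex p), Real.exp p.2.2 * g₂ (ex p)) := by
  have h := (S.pt (ex p) hp).2.2.1
  rw [L.gm p hp]
  refine h.trans ?_
  simp only [ex, exp_sq]

theorem th_eq (L : LogP I f) (S : SD I f g₁ g₂ Θ) (hp : p.1 ∈ I) :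
    rt2 (true, true) (p.1, grad (lg f) p) = sg g₁ g₂ (ex p) := by
  rw [L.gm p hp]
  exact S.rt (p := ex p) hp (Real.exp_pos _).le (Real.exp_pos _).le

theorem u_eq (L : LogP I f) (S : SD I f g₁ g₂ Θ) (hp : p.1 ∈ I) :
    (u0 (true, true) + wt2 f g₁ g₂ Θ ∘ rt2 (true, true)) (p.1, grad (lg f) p) = UU (lg f) p := by
  obtain ⟨a, b, -, -, -, -, -, c⟩ := S.pt (ex p) hp
  have e0 : UU (lg f) p = ip (grad (lg f) p) p.2 - lg f p := UU_eq (lg f) p.1 p.2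
  have e1 : lg f p = rl f (ex p) := rfl
  rw [Pi.add_apply, Function.comp_apply, th_eq L S hp, e0, e1, grad_eq L S hp, u0_tt]
  simp only [wt2, c, ip, Real.log_mul (Real.exp_pos _).ne' a.ne',
    Real.log_mul (Real.exp_pos _).ne' b.ne', Real.log_exp]
  simp only [sg, mul_pow, Real.sq_sqrt a.le, Real.sq_sqrt b.le]
  simp only [ex, exp_sq]
  ring

end LegP

open LegP in
theorem leg_ok (h1 : StEven) (h2 : StChg) (h3 : StAbreu) (h4 : StSig) : StLeg := by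
  intro I f P L hn hP hC
  obtain ⟨g₁, g₂, Θ, s1, s2, pt, op, sm⟩ := h4 I f L
  have S : SD I f g₁ g₂ Θ := ⟨s1, s2, pt, op, sm⟩
  have hN : sq2 (true, true) ⁻¹' (I ×ˢ interior (P ∪ Qᶜ)) = sg g₁ g₂ '' (I ×ˢ univ) :=
    (claimB h2 L S hP hC).antisymm (claimA L S hP)
  set d := dom I L.pot.oI P with hd
  have hO : ∀ p : X, p.1 ∈ I → mm f p ∈ interior (P ∪ Qᶜ) := fun p hp => by
    have h := claimA L S hP ⟨p, ⟨hp, mem_univ _⟩, rfl⟩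
    rw [mem_preimage, S.sq hp] at h
    exact h.2
  have hS : d.S = P := by
    refine Subset.antisymm (fun y hy => (interior_subset hy.1).resolve_right fun h => h hy.2)
      fun y hy => ⟨?_, P_sub L S hn hP hy⟩
    obtain ⟨t, ht⟩ := hn
    rw [← hP t ht] at hy
    obtain ⟨ζ, rfl⟩ := hy
    have e : gr (lg f) t ζ = mm f (ex (t, ζ)) := L.gm (t, ζ) ht
    rw [e]
    exact hO _ ht
  have hU : d.U = I ×ˢ P := by rw [Dm.U, hS]; rfl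
  obtain ⟨hb, hc⟩ := h1.2.2 d (wt2 f g₁ g₂ Θ) (by
      show ContDiffOn ℝ ∞ _ (sq2 (true, true) ⁻¹' (I ×ˢ interior (P ∪ Qᶜ)))
      rw [hN]; exact sm_wt2 L S)
    (fun _ q hq => ev1 L S (hN ▸ hq)) (fun _ q hq => ev2 L S (hN ▸ hq))
  set u := u0 (true, true) + wt2 f g₁ g₂ Θ ∘ rt2 (true, true) with hu
  have su : ContDiffOn ℝ ∞ u (I ×ˢ P) :=
    (sm_u0.mono (prod_mono (subset_univ _) (P_sub L S hn hP))).add (hU ▸ hb.sm)
  have hA := h3 I (lg f) u P L.pot (hS ▸ d.isOpen_S) su fun p hp =>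
    ⟨hP p.1 hp ▸ ⟨p.2, rfl⟩, u_eq L S hp⟩
  have hpt : ∀ q ∈ d.U, ∃ p : X, p.1 ∈ I ∧ q = (p.1, grad (lg f) p) := fun q hq => by
    rw [hU] at hq
    obtain ⟨ζ, e⟩ : q.2 ∈ range (gr (lg f) q.1) := hP q.1 hq.1 ▸ hq.2
    exact ⟨(q.1, ζ), hq.1, Prod.ext rfl e.symm⟩
  refine ⟨d, u, rfl, rfl, ⟨?_, cont_u0.continuousOn.add hc, fun q hq => ?_, ?_, fun q hq => ?_⟩,
    fun t ht => (hP t ht).trans hS.symm, fun p hp => u_eq L S hp, fun p hp => ⟨hO p hp, ?_⟩⟩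
  · have e : wv d.τ u = wt2 f g₁ g₂ Θ ∘ rt2 (true, true) := add_sub_cancel_left _ _
    rw [e]; exact hb
  · obtain ⟨p, hp, rfl⟩ := hpt q hq
    exact (hA p hp).2.2.2.2.1
  · obtain ⟨V, cV, pV, eV⟩ := L.vl
    have m1 : MapsTo (rt2 (true, true)) d.Uc (sg g₁ g₂ '' (I ×ˢ univ)) := fun q hq => by
      have a1 : 0 ≤ q.2.1 := by simpa [okc, hd, dom] using hq.2.2.1
      have a2 : 0 ≤ q.2.2 := by simpa [okc, hd, dom] using hq.2.2.2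
      rw [← hN, mem_preimage, rt2_tt, sq2_tt]
      simp only [Real.sq_sqrt a1, Real.sq_sqrt a2]
      exact ⟨hq.1, hq.2.1⟩
    have m2 := S.maps.comp m1
    have cΘ : ContinuousOn (Θ ∘ rt2 (true, true)) d.Uc :=
      S.sm.continuousOn.comp cont_rt2.continuousOn m1
    have cG : ContinuousOn ((fun p => g₁ p * g₂ p / V p) ∘ Θ ∘ rt2 (true, true)) d.Uc :=
      ((s1.continuousOn.mul s2.continuousOn).div cV fun p hp => (pV p hp.1).ne').comp cΘ m2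
    intro K hK hKs
    obtain ⟨c, hc0, hc⟩ := hK.exists_forall_le' (cG.mono hKs) (a := 0) fun q hq => by
      have h := (m2 (hKs hq)).1
      exact div_pos (mul_pos (pt _ h).1 (pt _ h).2.1) (pV _ h)
    refine ⟨c, hc0, fun q hq hqU => (hc q hq).trans (le_of_eq ?_)⟩
    obtain ⟨p, hp, rfl⟩ := hpt q hqU
    have e1 : W (lg f) p = Real.exp (p.2.1 + p.2.2) * V (ex p) := eV p hp
    have e2 := (pV (ex p) hp).ne'
    simp only [Function.comp_apply, th_eq L S hp, (pt (ex p) hp).2.2.2.2.2.2.2, Pi.mul_apply,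
      (hA p hp).2.2.2.1, e1, Real.exp_add]
    simp only [o1, o2, om, hd, dom, grad_eq L S hp, if_true]
    field_simp
  · obtain ⟨p, hp, rfl⟩ := hpt q hq
    rw [(hA p hp).2.2.1, (hA p hp).2.2.2.2.2.2, L.eqn p hp]
  · obtain ⟨a, b, c, -⟩ := pt p hp
    rw [c]
    simp only [hd, dom, okc, if_true, mem_prod, mem_Ici]
    exact ⟨by positivity, by positivity⟩

end Pool.Agent.P.MP_2cea5e_gt.I
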