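import Pool.Agent.P.MP_2cea5e_gt.I.St5

/-!
Chapter I: local integration by parts near any point of the closed domain.
-/

open scoped ContDiff Topology
open MeasureTheory Set Filter

noncomputable section

set_option linter.dupNamespace false

namespace Pool.Agent.P.MP_2cea5e_gt.I

namespace Loc

/-- The type of the frame at `p`. -/
def ty (τ : Ty) (p : ℝ × ℝ) : Ty := (τ.1 && decide (p.1 = 0), τ.2 && decide (p.2 = 0))

/-- The frame at `p`. -/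
def frm (p : ℝ × ℝ) (ρ : ℝ) (hρ : 0 < ρ) : Fr where
  t1 := 0
  ρ := ρ
  p := p
  a := ρ ^ 2
  b := 0
  c := 0
  e := ρ ^ 2
  l0 := 0
  l1 := 0
  l2 := 0
  ρ_pos := hρ
  det_ne := by simp [hρ.ne']

theorem cp (τ : Ty) (p : ℝ × ℝ) (ρ : ℝ) (hρ : 0 < ρ) : (frm p ρ hρ).Cp τ (ty τ p) := by
  constructor <;> intro h <;> simp only [ty, Bool.and_eq_true, decide_eq_true_eq] at h <;>
    simp [frm, h.1, h.2]

theorem sp_eq (p : ℝ × ℝ) (ρ : ℝ) (hρ : 0 < ρ) (y : ℝ × ℝ) :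
    (frm p ρ hρ).sp y = (p.1 + ρ ^ 2 * y.1, p.2 + ρ ^ 2 * y.2) := by
  ext <;> simp [Fr.sp, Fr.S, frm]

/-- The ratio of the weights. -/
def mu (b : Bool) (x ρ : ℝ) (z : ℝ) : ℝ :=
  if (b && decide (x = 0)) then ρ ^ 2 else om b (x + ρ ^ 2 * z)

theorem om_mu (b : Bool) (x ρ z : ℝ) :
    om b (x + ρ ^ 2 * z) = om (b && decide (x = 0)) z * mu b x ρ z := by
  cases b
  · simp [om, mu]
  · by_cases h : x = 0
    · simp [om, mu, h, mul_comm]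
    · simp [om, mu, h]

theorem sm_mu (b : Bool) (x ρ : ℝ) : ContDiff ℝ ∞ (mu b x ρ) := by
  unfold mu
  split_ifs
  · exact contDiff_const
  · exact (sm_om b).comp (by fun_prop)

def m1 (τ : Ty) (p : ℝ × ℝ) (ρ : ℝ) : X → ℝ := fun q => mu τ.1 p.1 ρ q.2.1
def m2 (τ : Ty) (p : ℝ × ℝ) (ρ : ℝ) : X → ℝ := fun q => mu τ.2 p.2 ρ q.2.2

theorem sm_m1 (τ : Ty) (p : ℝ × ℝ) (ρ : ℝ) : Sm (m1 τ p ρ) :=
  (sm_mu _ _ _).comp (contDiff_fst.comp contDiff_snd)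
theorem sm_m2 (τ : Ty) (p : ℝ × ℝ) (ρ : ℝ) : Sm (m2 τ p ρ) :=
  (sm_mu _ _ _).comp (contDiff_snd.comp contDiff_snd)

theorem o1_fm (τ : Ty) (p : ℝ × ℝ) (ρ : ℝ) (hρ : 0 < ρ) (q : X) :
    o1 τ ((frm p ρ hρ).fm q) = o1 (ty τ p) q * m1 τ p ρ q := by
  simp only [o1, Fr.fm, sp_eq, m1, ty]
  exact om_mu _ _ _ _

theorem o2_fm (τ : Ty) (p : ℝ × ℝ) (ρ : ℝ) (hρ : 0 < ρ) (q : X) :
    o2 τ ((frm p ρ hρ).fm q) = o2 (ty τ p) q * m2 τ p ρ q := by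
  simp only [o2, Fr.fm, sp_eq, m2, ty]
  exact om_mu _ _ _ _

theorem pullT_eq (p : ℝ × ℝ) (ρ : ℝ) (hρ : 0 < ρ) (H : T2) (q : X) :
    ((frm p ρ hρ).pullT H).a q = (ρ ^ 2)⁻¹ * H.a ((frm p ρ hρ).fm q) ∧
    ((frm p ρ hρ).pullT H).b q = (ρ ^ 2)⁻¹ * H.b ((frm p ρ hρ).fm q) ∧
    ((frm p ρ hρ).pullT H).c q = (ρ ^ 2)⁻¹ * H.c ((frm p ρ hρ).fm q) := by
  have h := hρ.ne'
  generalize hq : (frm p ρ hρ).fm q = w
  simp only [Fr.pullT, T2.ap, hq]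
  simp only [frm, Fr.det]
  refine ⟨?_, ?_, ?_⟩ <;> field_simp <;> ring

theorem nt_sm {d : Dm} {H : T2} {k₁ k₂ k₃ : X → ℝ} (h : NT d H k₁ k₂ k₃) : H.SmOn d.U :=
  ⟨((bd_o1.mul bd_o1).mul h.1).sm.congr h.2.2.2.1,
    ((bd_o1.mul bd_o2).mul h.2.1).sm.congr h.2.2.2.2.1,
    ((bd_o2.mul bd_o2).mul h.2.2.1).sm.congr h.2.2.2.2.2⟩

theorem nt_mul {d : Dm} {H : T2} {k₁ k₂ k₃ g : X → ℝ} (h : NT d H k₁ k₂ k₃) (hg : Bd d g) :
    NT d (H.mul g) (g * k₁) (g * k₂) (g * k₃) := by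
  refine ⟨hg.mul h.1, hg.mul h.2.1, hg.mul h.2.2.1, fun q hq => ?_, fun q hq => ?_,
    fun q hq => ?_⟩
  · have := h.2.2.2.1 hq
    simp only [T2.mul, Pi.mul_apply] at this ⊢
    rw [this]; ring
  · have := h.2.2.2.2.1 hq
    simp only [T2.mul, Pi.mul_apply] at this ⊢
    rw [this]; ring
  · have := h.2.2.2.2.2 hq
    simp only [T2.mul, Pi.mul_apply] at this ⊢
    rw [this]; ring

theorem nt_pull (h4 : StFG) {d : Dm} (p : ℝ × ℝ) (ρ : ℝ) (hρ : 0 < ρ) {H : T2}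
    {k₁ k₂ k₃ : X → ℝ} (h : NT d H k₁ k₂ k₃) :
    NT ((frm p ρ hρ).dm d (ty d.τ p)) ((frm p ρ hρ).pullT H)
      (K (ρ ^ 2)⁻¹ * m1 d.τ p ρ * m1 d.τ p ρ * (k₁ ∘ (frm p ρ hρ).fm))
      (K (ρ ^ 2)⁻¹ * m1 d.τ p ρ * m2 d.τ p ρ * (k₂ ∘ (frm p ρ hρ).fm))
      (K (ρ ^ 2)⁻¹ * m2 d.τ p ρ * m2 d.τ p ρ * (k₃ ∘ (frm p ρ hρ).fm)) := by
  obtain ⟨-, hU, -, hB, -⟩ := h4.1 (frm p ρ hρ) d (ty d.τ p) (cp d.τ p ρ hρ)
  have b1 : Bd ((frm p ρ hρ).dm d (ty d.τ p)) (m1 d.τ p ρ) := bd_of_sm (sm_m1 _ _ _)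
  have b2 : Bd ((frm p ρ hρ).dm d (ty d.τ p)) (m2 d.τ p ρ) := bd_of_sm (sm_m2 _ _ _)
  have hτ : ((frm p ρ hρ).dm d (ty d.τ p)).τ = ty d.τ p := rfl
  refine ⟨(((bd_K _).mul b1).mul b1).mul (hB _ h.1), (((bd_K _).mul b1).mul b2).mul (hB _ h.2.1),
    (((bd_K _).mul b2).mul b2).mul (hB _ h.2.2.1), fun q hq => ?_, fun q hq => ?_,
    fun q hq => ?_⟩
  · rw [hU] at hq
    have := h.2.2.2.1 hq
    rw [(pullT_eq p ρ hρ H q).1, this, hτ]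
    simp only [Pi.mul_apply, o1_fm, K_apply, Function.comp]
    ring
  · rw [hU] at hq
    have := h.2.2.2.2.1 hq
    rw [(pullT_eq p ρ hρ H q).2.1, this, hτ]
    simp only [Pi.mul_apply, o1_fm, o2_fm, K_apply, Function.comp]
    ring
  · rw [hU] at hq
    have := h.2.2.2.2.2 hq
    rw [(pullT_eq p ρ hρ H q).2.2, this, hτ]
    simp only [Pi.mul_apply, o2_fm, K_apply, Function.comp]
    ring

theorem ev_D {g : X → ℝ} {q : X} (v : X) (h : g =ᶠ[𝓝 q] 0) : D v g =ᶠ[𝓝 q] 0 := by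
  filter_upwards [h.fderiv (𝕜 := ℝ)] with x hx
  simp only [D, hx]
  simp

theorem ev_h {g : X → ℝ} {q : X} (h : g =ᶠ[𝓝 q] 0) :
    h11 g q = 0 ∧ h12 g q = 0 ∧ h22 g q = 0 :=
  ⟨(ev_D e1 (ev_D e1 h)).eq_of_nhds, (ev_D e1 (ev_D e2 h)).eq_of_nhds,
    (ev_D e2 (ev_D e2 h)).eq_of_nhds⟩

theorem ev_cx {χ : ℝ × ℝ → ℝ} {t : ℝ} {y : ℝ × ℝ} (hy : y ∉ tsupport χ) (f : X → ℝ) :
    cx χ * f =ᶠ[𝓝 ((t, y) : X)] 0 := by
  have h1 : χ =ᶠ[𝓝 y] 0 := notMem_tsupport_iff_eventuallyEq.1 hy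
  have h2 : ∀ᶠ q : X in 𝓝 (t, y), χ q.2 = 0 :=
    (continuous_snd.tendsto ((t, y) : X)).eventually h1
  filter_upwards [h2] with q hq
  simp [cx, hq]

theorem mem_iv {b : Bool} {x ρ z r : ℝ} (b' : Bool) (hb : b' = (b && decide (x = 0)))
    (hρ : 0 < ρ) (hz : |z| < 1 / 4) (hr : 1 / 2 ≤ r) (hx : x + ρ ^ 2 * z ∈ ok b) :
    z ∈ iv b' r := by
  have h1 := abs_lt.1 hz
  have h2 : 0 < ρ ^ 2 := by positivity
  cases b'
  · simp only [iv, Bool.false_eq_true, if_false, mem_Ioo]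
    constructor <;> linarith
  · have h3 := hb.symm
    simp only [Bool.and_eq_true, decide_eq_true_eq] at h3
    obtain ⟨rfl, rfl⟩ := h3
    simp only [ok, if_true, mem_Ioi, zero_add] at hx
    simp only [iv, if_true, mem_Ioo]
    exact ⟨(mul_pos_iff_of_pos_left h2).1 hx, by nlinarith⟩

theorem abs_of_ivc {b : Bool} {z : ℝ} (h : z ∈ ivc b 1) : |z| ≤ 1 := by
  cases b
  · simp only [ivc, Bool.false_eq_true, if_false, mem_Icc] at h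
    exact abs_le.2 h
  · simp only [ivc, if_true, mem_Icc, one_pow] at h
    exact abs_le.2 ⟨by linarith [h.1], h.2⟩

theorem mem_if {b : Bool} {x : ℝ} (h : x ∈ okc b) :
    x ∈ (if (b && decide (x = 0)) then univ else ok b : Set ℝ) := by
  cases b
  · simp [ok]
  · by_cases h0 : x = 0
    · simp [h0]
    · simp only [okc, if_true, mem_Ici] at h
      simpa [h0, ok] using lt_of_le_of_ne h (Ne.symm h0)

/-- The geometry of the frame. -/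
theorem exists_frm (d : Dm) (p : ℝ × ℝ) (hp : p ∈ d.Sc) : ∃ (ρ : ℝ) (hρ : 0 < ρ),
    bxc (ty d.τ p) 1 ⊆ ((frm p ρ hρ).dm d (ty d.τ p)).O := by
  have hO : IsOpen (d.O ∩ (if (ty d.τ p).1 then univ else ok d.τ.1) ×ˢ
      (if (ty d.τ p).2 then univ else ok d.τ.2)) :=
    d.oO.inter (IsOpen.prod (by split_ifs; exacts [isOpen_univ, isOpen_ok _])
      (by split_ifs; exacts [isOpen_univ, isOpen_ok _]))
  obtain ⟨ε, hε, hb⟩ := Metric.isOpen_iff.1 hO p ⟨hp.1, mem_if hp.2.1, mem_if hp.2.2⟩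
  refine ⟨√(ε / 2), Real.sqrt_pos.2 (by positivity), fun y hy => hb ?_⟩
  rw [sp_eq, Real.sq_sqrt (by positivity), Metric.mem_ball, Prod.dist_eq, max_lt_iff,
    Real.dist_eq, Real.dist_eq]
  have h1 := abs_of_ivc hy.1
  have h2 := abs_of_ivc hy.2
  simp only [add_sub_cancel_left, abs_mul, abs_of_pos (half_pos hε)]
  constructor <;> nlinarith

theorem small_of_ball {p : ℝ × ℝ} {ρ : ℝ} (hρ : 0 < ρ) {y : ℝ × ℝ}
    (h : (frm p ρ hρ).sp y ∈ Metric.ball p (ρ ^ 2 / 4)) : |y.1| < 1 / 4 ∧ |y.2| < 1 / 4 := by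
  rw [sp_eq, Metric.mem_ball, Prod.dist_eq, max_lt_iff, Real.dist_eq, Real.dist_eq] at h
  have h2 : 0 < ρ ^ 2 := by positivity
  simp only [add_sub_cancel_left, abs_mul, abs_of_pos h2] at h
  constructor <;> nlinarith [h.1, h.2]

theorem sp_surj (p : ℝ × ℝ) {ρ : ℝ} (hρ : 0 < ρ) (y : ℝ × ℝ) : ∃ z, (frm p ρ hρ).sp z = y := by
  have h := hρ.ne'
  refine ⟨((y.1 - p.1) / ρ ^ 2, (y.2 - p.2) / ρ ^ 2), ?_⟩
  rw [sp_eq]
  ext <;> simp only <;> field_simp <;> ring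

end Loc

open Loc in
theorem loc_ok (h1 : StIBP2) (h2 : StFC) (h3 : StFI) (h4 : StFG) : StLoc := by
  intro d p hp
  obtain ⟨ρ, hρ, hbx⟩ := exists_frm d p hp
  refine ⟨Metric.ball p (ρ ^ 2 / 4), Metric.isOpen_ball, Metric.mem_ball_self (by positivity),
    fun χ hχ hs t ht H k₁ k₂ k₃ hH => ?_⟩
  set fr := frm p ρ hρ with hfr
  set τ' := ty d.τ p with hτ'
  set d' := fr.dm d τ' with hd'
  obtain ⟨hS, hU, -, hB, -⟩ := h4.1 fr d τ' (cp d.τ p ρ hρ)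
  have hτ : d'.τ = τ' := rfl
  set s : ℝ := t / ρ ^ 4 with hsdef
  have hts : fr.tm s = t := by
    have := hρ.ne'
    simp only [Fr.tm, hfr, frm, hsdef]
    field_simp
    ring
  have hs' : s ∈ d'.I := by
    show fr.tm s ∈ d.I
    rwa [hts]
  have hfm : ∀ y, fr.fm (s, y) = (t, fr.sp y) := fun y => by simp only [Fr.fm, hts]
  have hin : ∀ y ∈ bx τ' 1, fr.sp y ∈ d.S := fun y hy => by
    have : y ∈ d'.S := (reg_bx (d := d') hbx).sub hy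
    rwa [hS] at this
  have hsm : ∀ y r, 1 / 2 ≤ r → fr.sp y ∈ d.S → fr.sp y ∈ tsupport χ → y ∈ bx τ' r := by
    intro y r hr hy hy'
    obtain ⟨a1, a2⟩ := small_of_ball hρ (hs hy')
    have b1 := hy.2.1
    have b2 := hy.2.2
    rw [hfr, sp_eq] at b1 b2
    exact ⟨mem_iv _ rfl hρ a1 hr b1, mem_iv _ rfl hρ a2 hr b2⟩
  have hmb : MeasurableSet (bx τ' 1) := (isOpen_bx _ _).measurableSet
  have hdet : |fr.det| ≠ 0 := abs_ne_zero.2 fr.det_ne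
  -- moving an integral to the frame
  have key : ∀ Φ : X → ℝ, (∀ y ∈ d.S, y ∉ tsupport χ → Φ (t, y) = 0) →
      ∫ y in d.S, Φ (t, y) = |fr.det| * ∫ y in bx τ' 1, Φ (t, fr.sp y) := by
    intro Φ hΦ
    rw [((h3 fr _ hmb).2.1 (fun y => Φ (t, y))).2, ← mul_assoc, mul_inv_cancel₀ hdet, one_mul]
    refine setIntegral_eq_of_subset_of_forall_sdiff_eq_zero d.isOpen_S.measurableSet ?_ ?_
    · rintro _ ⟨y, hy, rfl⟩
      exact hin y hy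
    · intro y hy
      refine hΦ y hy.1 fun hy' => hy.2 ?_
      obtain ⟨z, rfl⟩ := sp_surj p hρ y
      exact ⟨z, hsm z 1 (by norm_num) hy.1 hy', rfl⟩
  have hcx : Bd d (cx χ) := bd_of_sm (hχ.comp contDiff_snd)
  have hvan : ∀ g k : X → ℝ, Van τ' (g * ((cx χ * k) ∘ fr.fm)) s := by
    intro g k
    refine ⟨1 / 2, by norm_num, by norm_num, fun y hy hy' => ?_⟩
    have : χ (fr.sp y) = 0 := by
      by_contra hn
      exact hy' (hsm y _ le_rfl (hin y hy) (subset_tsupport χ hn))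
    simp [cx, hfm, this]
  have hρ2 : ρ ^ 2 ≠ 0 := by positivity
  have hfρ : fr.ρ = ρ := rfl
  have hmem : ∀ y ∈ bx τ' 1, fr.fm (s, y) ∈ d.U := fun y hy => by
    rw [hfm]
    exact ⟨ht, hin y hy⟩
  obtain ⟨-, hC, -⟩ := h2 fr d.U d.isOpen_U
  constructor
  · intro f hf
    have hg : Bd d (cx χ * f) := hcx.mul hf
    have hv : Van d'.τ ((cx χ * f) ∘ fr.fm) s := by
      have := hvan 1 f
      rwa [one_mul] at this
    have e := (h1 d' _ _ _ _ s (nt_pull h4 p ρ hρ hH) hs' hbx).1 _ (hB _ hg) (Or.inl hv)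
    rw [hτ] at e
    obtain ⟨-, hq⟩ := hC H H (nt_sm hH) (nt_sm hH)
    have e1 : ∫ y in bx τ' 1, (fr.pullT H).ctr ((cx χ * f) ∘ fr.fm) (s, y) =
        ρ ^ 2 * ∫ y in bx τ' 1, H.ctr (cx χ * f) (t, fr.sp y) := by
      rw [← integral_const_mul]
      refine setIntegral_congr_fun hmb fun y hy => ?_
      rw [(hq _ (hmem y hy)).2.2.2 _ hg.sm, hfm, hfρ]
    have e2 : ∫ y in bx τ' 1, ((cx χ * f) ∘ fr.fm * (fr.pullT H).dd) (s, y) =
        ρ ^ 2 * ∫ y in bx τ' 1, (cx χ * f * H.dd) (t, fr.sp y) := by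
      rw [← integral_const_mul]
      refine setIntegral_congr_fun hmb fun y hy => ?_
      simp only [Pi.mul_apply, Function.comp]
      rw [(hq _ (hmem y hy)).2.1, hfm, hfρ]
      ring
    rw [key (H.ctr (cx χ * f)) ?_, key (cx χ * f * H.dd) ?_]
    · congr 1
      refine mul_left_cancel₀ hρ2 ?_
      rw [← e1, ← e2]
      exact e
    · intro y _ hy
      have := (ev_cx (t := t) hy f).eq_of_nhds
      simp only [Pi.mul_apply, Pi.zero_apply] at this ⊢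
      rw [this, zero_mul]
    · intro y _ hy
      obtain ⟨a1, a2, a3⟩ := ev_h (ev_cx (t := t) hy f)
      simp only [T2.ctr, Pi.add_apply, Pi.mul_apply, a1, a2, a3]
      ring
  · intro G g₁ g₂ g₃ hG
    have hH' := nt_mul hH hcx
    have e := (h1 d' _ _ _ _ s (nt_pull h4 p ρ hρ hH') hs' hbx).2 _ _ _ _
      (nt_pull h4 p ρ hρ hG) (hvan _ _) (hvan _ _) (hvan _ _)
    rw [hτ] at e
    obtain ⟨-, hq⟩ := hC (H.mul (cx χ)) G (nt_sm hH') (nt_sm hG)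
    obtain ⟨-, hq'⟩ := hC G G (nt_sm hG) (nt_sm hG)
    have e1 : ∫ y in bx τ' 1, (fr.pullT (H.mul (cx χ))).rr (fr.pullT G) (s, y) =
        ρ ^ 4 * ∫ y in bx τ' 1, (H.mul (cx χ)).rr G (t, fr.sp y) := by
      rw [← integral_const_mul]
      refine setIntegral_congr_fun hmb fun y hy => ?_
      rw [(hq _ (hmem y hy)).2.2.1, hfm, hfρ]
    have e2 : ∫ y in bx τ' 1, ((fr.pullT (H.mul (cx χ))).dd * (fr.pullT G).dd) (s, y) =
        ρ ^ 4 * ∫ y in bx τ' 1, ((H.mul (cx χ)).dd * G.dd) (t, fr.sp y) := by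
      rw [← integral_const_mul]
      refine setIntegral_congr_fun hmb fun y hy => ?_
      simp only [Pi.mul_apply]
      rw [(hq _ (hmem y hy)).2.1, (hq' _ (hmem y hy)).2.1, hfm, hfρ]
      ring
    have hρ4 : ρ ^ 4 ≠ 0 := by positivity
    rw [key ((H.mul (cx χ)).rr G) ?_, key ((H.mul (cx χ)).dd * G.dd) ?_]
    · congr 1
      refine mul_left_cancel₀ hρ4 ?_
      rw [← e1, ← e2]
      exact e
    · intro y _ hy
      obtain ⟨a1, -, -⟩ := ev_h (ev_cx (t := t) hy H.a)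
      obtain ⟨-, b2, -⟩ := ev_h (ev_cx (t := t) hy H.b)
      obtain ⟨-, -, c3⟩ := ev_h (ev_cx (t := t) hy H.c)
      simp only [T2.dd, T2.mul, Pi.add_apply, Pi.mul_apply, a1, b2, c3]
      ring
    · intro y _ hy
      obtain ⟨a1, a2, a3⟩ := ev_h (ev_cx (t := t) hy H.a)
      obtain ⟨b1, b2, b3⟩ := ev_h (ev_cx (t := t) hy H.b)
      obtain ⟨c1, c2, c3⟩ := ev_h (ev_cx (t := t) hy H.c)
      simp only [T2.rr, T2.mul, Pi.add_apply, Pi.mul_apply, a1, a2, a3, b1, b2, b3, c1, c2, c3]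
      ring

end Pool.Agent.P.MP_2cea5e_gt.I
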