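import Pool.Agent.P.MP_2cea5e_gt.I.St5
import Pool.Agent.P.MP_2cea5e_gt.Hess
import Pool.Agent.P.MP_2cea5e_gt.Vol
import Pool.Agent.P.MP_2cea5e_gt.TorB

/-!
Chapter I: the flow in logarithmic coordinates and on the real slice.
-/

open scoped ContDiff Topology ComplexOrder ComplexConjugate
open Set Filter Matrix

noncomputable section

set_option linter.dupNamespace false

namespace Pool.Agent.P.MP_2cea5e_gt.I

namespace Log

open Hess

theorem exists_clock {I : Set ℝ} (hI : IsOpen I) {t : ℝ} (ht : t ∈ I) :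
    ∃ c : ℝ → ℝ, ContDiff ℝ ∞ c ∧ (∀ s, c s ∈ I) ∧ ∀ᶠ s in 𝓝 t, c s = s := by
  obtain ⟨ε, hε, hb⟩ := Metric.isOpen_iff.1 hI t ht
  let b : ContDiffBump t := ⟨ε / 4, ε / 2, by positivity, by linarith⟩
  refine ⟨fun s => t + b s * (s - t),
    contDiff_const.add (b.contDiff.mul (contDiff_id.sub contDiff_const)), fun s => hb ?_, ?_⟩
  · rw [Metric.mem_ball, Real.dist_eq, add_sub_cancel_left, abs_mul, abs_of_nonneg b.nonneg]
    by_cases h : dist s t < ε / 2
    · rw [Real.dist_eq] at h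
      have := mul_le_of_le_one_left (abs_nonneg (s - t)) (b.le_one (x := s))
      linarith
    · rw [b.zero_of_le_dist (not_lt.1 h), zero_mul]
      exact hε
  · filter_upwards [b.eventuallyEq_one] with s hs
    rw [hs]
    simp

/-- The identity chart. -/
def k0 : Ch := ⟨1, 0, 0, 1, by norm_num⟩

theorem n1_eq : k0.n1 = e1 := by simp [k0, Ch.n1, Ch.dt, e1]
theorem n2_eq : k0.n2 = e2 := by simp [k0, Ch.n2, Ch.dt, e2]
theorem z1_eq (p : X) : k0.z1 p = p.2.1 := by simp [k0, Ch.z1, Li_apply]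
theorem z2_eq (p : X) : k0.z2 p = p.2.2 := by simp [k0, Ch.z2, Li_apply]
theorem pt_eq (p : X) : k0.pt p = (p.1, Real.exp (p.2.1 / 2), Real.exp (p.2.2 / 2)) := by
  simp only [Ch.pt, z1_eq, z2_eq]
theorem zp_eq (p : X) : k0.zp p = ez p.2 := by simp only [Ch.zp, pt_eq, ez]
theorem lift_eq' (f : ℝ × C2 → ℝ) : k0.lift f = lg f := by
  funext p
  simp only [Ch.lift, zp_eq, lg]
theorem rl_eq (f : ℝ × C2 → ℝ) : rl f = f ∘ emb := by
  funext p
  simp only [rl, Function.comp_apply, emb_apply]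

section ev

variable {p : X} {g g' : X → ℝ}

theorem ev_D (v : X) (h : g =ᶠ[𝓝 p] g') : D v g =ᶠ[𝓝 p] D v g' := by
  filter_upwards [h.fderiv (𝕜 := ℝ)] with q hq
  simp only [D, hq]

theorem ev_W (h : g =ᶠ[𝓝 p] g') : W g =ᶠ[𝓝 p] W g' :=
  ((ev_D _ (ev_D _ h)).mul (ev_D _ (ev_D _ h))).sub
    ((ev_D _ (ev_D _ h)).mul (ev_D _ (ev_D _ h)))

theorem ev_RR (h : g =ᶠ[𝓝 p] g') : RR g p = RR g' p := by
  have hW := ev_W h
  have hL : LL g =ᶠ[𝓝 p] LL g' := hW.fun_comp Real.log
  simp only [RR, Lap, DD, DDv, iW, Pi.neg_apply, Pi.mul_apply, Pi.add_apply, Pi.sub_apply,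
    Iv_apply, hW.eq_of_nhds, fun u v => (ev_D u (ev_D v h)).eq_of_nhds,
    fun u v => (ev_D u (ev_D v hL)).eq_of_nhds]

end ev

/-- A globally defined family that agrees with `f` near the time `t`. -/
theorem exists_glob {I : Set ℝ} {f : ℝ × C2 → ℝ} (h : C1 I f) {t : ℝ} (ht : t ∈ I) :
    ∃ g : ℝ × C2 → ℝ, ContDiff ℝ ∞ g ∧ (∀ s, Inv (sl g s)) ∧
      (∀ s z, (hess (sl g s) z).PosDef) ∧ ∀ᶠ s in 𝓝 t, sl g s = sl f s := by
  obtain ⟨c, h1, h2, h3⟩ := exists_clock h.oI ht
  have h4 : ContDiff ℝ ∞ fun q : ℝ × C2 => f (c q.1, q.2) :=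
    h.sm.comp_contDiff (f := fun q : ℝ × C2 => (c q.1, q.2))
      ((h1.comp contDiff_fst).prodMk contDiff_snd) fun q => ⟨h2 _, mem_univ _⟩
  have e : ∀ s, sl (fun q : ℝ × C2 => f (c q.1, q.2)) s = sl f (c s) := fun s => rfl
  refine ⟨_, h4, fun s => ?_, fun s z => ?_, ?_⟩
  · rw [e]
    exact h.inv _ (h2 s)
  · rw [e]
    exact h.pos _ (h2 s) z
  · filter_upwards [h3] with s hs
    rw [e, hs]

section loc

variable {f g : ℝ × C2 → ℝ} {p : X} (h : ∀ᶠ s in 𝓝 p.1, sl g s = sl f s)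
include h

theorem ev_lg : lg g =ᶠ[𝓝 p] lg f := by
  filter_upwards [continuous_fst.continuousAt.eventually h] with q hq
  exact congrFun hq _

theorem ev_rl : rl g =ᶠ[𝓝 p] rl f := by
  filter_upwards [continuous_fst.continuousAt.eventually h] with q hq
  exact congrFun hq _

end loc

section axis

variable {F : C2 → ℝ} (hF : ContDiff ℝ ∞ F) (hI : Inv F) (j : Fin 2)
include hF hI

theorem rot3 (z : C2) (h0 : (z j).im = 0) :
    (z j).re * d (JJ j) (d (JJ j) F) z = d (EE j) F z := by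
  have := rot2 hF hI j z (JJ j)
  simp only [JJ, Pi.single_eq_same, Complex.I_im, Complex.I_re, h0] at this
  simp only [JJ]
  linarith

theorem jj_zero (z : C2) (h0 : z j = 0) :
    d (JJ j) (d (JJ j) F) z = d (EE j) (d (EE j) F) z := by
  have hl : HasDerivAt (fun s : ℝ => z + s • EE j) (EE j) 0 := by
    simpa using ((hasDerivAt_id (0 : ℝ)).smul_const (EE j)).const_add z
  have key : ∀ G : C2 → ℝ, ContDiff ℝ ∞ G →
      HasDerivAt (fun s : ℝ => G (z + s • EE j)) (d (EE j) G z) 0 := fun G hG => by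
    have h1 : HasFDerivAt G (fderiv ℝ G z) (z + (0 : ℝ) • EE j) := by simpa using hfd hG z
    exact h1.comp_hasDerivAt (0 : ℝ) hl
  have h1 := (hasDerivAt_id (0 : ℝ)).mul (key _ (sm_d (JJ j) (sm_d (JJ j) hF)))
  have h2 := key _ (sm_d (EE j) hF)
  have e : (id * fun s : ℝ => d (JJ j) (d (JJ j) F) (z + s • EE j)) =
      fun s : ℝ => d (EE j) F (z + s • EE j) := by
    funext s
    have := rot3 hF hI j (z + s • EE j) (by simp [EE, h0])
    simpa [EE, h0] using this
  rw [e] at h1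
  simpa using h1.unique h2

theorem axis_pos (z : C2) (h0 : (z j).im = 0) (hp : (hess F z).PosDef) :
    ((z j).re = 0 → 0 < d (EE j) (d (EE j) F) z) ∧
      ((z j).re ≠ 0 → 0 < (z j).re * (d (EE j) F z + (z j).re * d (EE j) (d (EE j) F) z)) := by
  have h1 : 0 < (hess F z j j).re := (Complex.pos_iff.mp hp.diag_pos).1
  have h2 : (hess F z j j).re = (d (EE j) (d (EE j) F) z + d (JJ j) (d (JJ j) F) z) / 4 := by
    rw [hess_eq hF, d_comm (JJ j) (EE j) hF, sub_self, mul_zero, add_zero, ← Complex.ofReal_add,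
      ← Complex.ofReal_ofNat, ← Complex.ofReal_div, Complex.ofReal_re]
  rw [h2] at h1
  refine ⟨fun h => ?_, fun h => ?_⟩
  · rw [jj_zero hF hI j z (Complex.ext h h0)] at h1
    linarith
  · rw [← rot3 hF hI j z h0, ← mul_add, ← mul_assoc]
    exact mul_pos (mul_self_pos.2 h) (by linarith)

end axis

section glob

variable {g : ℝ × C2 → ℝ} (hg : ContDiff ℝ ∞ g)
include hg

theorem D1_rl (p : X) : D e1 (rl g) p = d (EE 0) (sl g p.1) ![(p.2.1 : ℂ), (p.2.2 : ℂ)] := by
  rw [rl_eq, D_emb hg, emb_e1, d_sl hg]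
  simp only [Function.comp_apply, emb_apply, sl]

theorem D2_rl (p : X) : D e2 (rl g) p = d (EE 1) (sl g p.1) ![(p.2.1 : ℂ), (p.2.2 : ℂ)] := by
  rw [rl_eq, D_emb hg, emb_e2, d_sl hg]
  simp only [Function.comp_apply, emb_apply, sl]

theorem h11_rl (p : X) :
    h11 (rl g) p = d (EE 0) (d (EE 0) (sl g p.1)) ![(p.2.1 : ℂ), (p.2.2 : ℂ)] := by
  rw [h11, rl_eq, D_emb hg, D_emb (sm_d _ hg), emb_e1, d_sl hg, d_sl (sm_d _ hg)]
  simp only [Function.comp_apply, emb_apply, sl]

theorem h22_rl (p : X) :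
    h22 (rl g) p = d (EE 1) (d (EE 1) (sl g p.1)) ![(p.2.1 : ℂ), (p.2.2 : ℂ)] := by
  rw [h22, rl_eq, D_emb hg, D_emb (sm_d _ hg), emb_e2, d_sl hg, d_sl (sm_d _ hg)]
  simp only [Function.comp_apply, emb_apply, sl]

theorem grad_lg (p : X) :
    grad (lg g) p = mm g (p.1, Real.exp (p.2.1 / 2), Real.exp (p.2.2 / 2)) := by
  have hk : Sm (g ∘ emb) := ContDiff.comp hg emb.contDiff
  have a1 := congrFun (D1 k0 hk) p
  have a2 := congrFun (D2 k0 hk) p
  rw [← lift_eq, lift_eq', ← rl_eq] at a1 a2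
  rw [n1_eq] at a1
  rw [n2_eq] at a2
  simp only [Function.comp_apply, pt_eq, Pi.mul_apply, Li_apply] at a1 a2
  simp only [grad, mm, a1, a2]
  ext <;> simp only <;> ring

theorem qf_eq (hi : ∀ s, Inv (sl g s)) (t : ℝ) (z v : C2) (hz : ∀ k, z k ≠ 0) :
    qf (sl g t) z v = hq (lg g) ((av z v 0).re, (av z v 1).re) (t, lz z) +
      hq (lg g) ((av z v 0).im, (av z v 1).im) (t, lz z) := by
  have hn : ∀ k, (‖z k‖ : ℂ) ≠ 0 := fun k => by simpa using hz k
  have hc : ∀ k, conj (z k) ≠ 0 := fun k => by simpa using hz k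
  have hm : ∀ k, z k * conj (z k) = (‖z k‖ : ℂ) ^ 2 := fun k => Complex.mul_conj' _
  have hx : ∀ k, Real.exp (Real.log (‖z k‖ ^ 2) / 2) = ‖z k‖ := fun k => by
    rw [Real.log_pow, Nat.cast_ofNat, mul_div_cancel_left₀ _ two_ne_zero,
      Real.exp_log (norm_pos_iff.2 (hz k))]
  set θ : C2 := fun k => conj (z k) / ‖z k‖ with hθ
  have h1 : ∀ k, ‖θ k‖ = 1 := fun k => by
    simp [hθ, hz k]
  have h2 : θ * z = ez (lz z) := by
    have : ∀ k, (θ * z) k = ‖z k‖ := fun k => by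
      have := hn k
      simp only [hθ, Pi.mul_apply]
      field_simp
      rw [mul_comm, hm]
    simp only [ez, lz, hx]
    funext k
    rw [this]
    fin_cases k <;> rfl
  have h3 := hess_ok k0 g hg hi (t, lz z)
  rw [zp_eq, lift_eq', n1_eq, n2_eq, pt_eq] at h3
  simp only [lz, hx] at h3
  have h4 : ∀ (j k : Fin 2) (x : ℝ), conj (v j) *
      (conj (θ k) * θ j * ((x / (‖z j‖ * ‖z k‖) : ℝ) : ℂ) * v k) =
      x * (conj (av z v j) * av z v k) := fun j k x => by
    have := hn j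
    have := hn k
    have := hc j
    have := hc k
    have := hz j
    have := hz k
    simp only [hθ, av, map_div₀, Complex.conj_conj, Complex.conj_ofReal]
    push_cast
    field_simp
    linear_combination (conj (v j) * x * v k) * (z j * conj (z j) * hm k + ‖z k‖ ^ 2 * hm j)
  have h5 := Vol.hess_rot (sm_sl hg t) (hi t) h1 z
  simp only [qf, dotProduct, mulVec, Fin.sum_univ_two, Pi.star_apply, h5, h2, lz, h3, mul_add,
    Matrix.of_apply, Matrix.cons_val', Matrix.cons_val_zero, Matrix.cons_val_one,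
    Matrix.cons_val_fin_one, RCLike.star_def]
  rw [h4 0 0, h4 0 1, h4 1 1, mul_comm ‖z 0‖ ‖z 1‖, h4 1 0]
  simp only [hq, hb, hs, T2.ap, h11, h12, h22, Complex.add_re, Complex.mul_re, Complex.ofReal_re,
    Complex.ofReal_im, Complex.conj_re, Complex.conj_im]
  ring

end glob

end Log

open Log in
theorem log_ok : StLog := by
  intro I f h
  have se : ContDiff ℝ ∞ fun p : X => (p.1, ez p.2) := by
    have : (fun p : X => (p.1, ez p.2)) = Hess.emb ∘ fun p : X =>
        (p.1, Real.exp (p.2.1 / 2), Real.exp (p.2.2 / 2)) := by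
      funext p
      simp only [Function.comp_apply, Hess.emb_apply, ez]
    rw [this]
    exact Hess.emb.contDiff.comp (by fun_prop)
  have sm : ContDiffOn ℝ ∞ (lg f) (I ×ˢ univ) :=
    h.sm.comp se.contDiffOn fun p hp => ⟨hp.1, mem_univ _⟩
  have hU : IsOpen (I ×ˢ (univ : Set (ℝ × ℝ))) := h.oI.prod isOpen_univ
  refine ⟨⟨h.oI, sm, fun p hp => ?_, fun p hp => ?_⟩, fun p hp => ?_, ?_, fun p hp => ?_,
    fun p hp => ?_, fun p hp => ?_, fun p hp => ?_,
    ⟨fun p => vol (sl f p.1) (TorB.em p).2, fun p hp => ?_,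
      fun p hp => TorB.vol_pos (h.pos _ hp _), fun p hp => ?_⟩,
    fun p hp => ?_, fun t ht z v hz => ?_, fun t ht v => ?_⟩
  · obtain ⟨g, hg, hi, hpos, he⟩ := exists_glob h hp
    have := (TorB.pot hess_ok k0 hg hi hpos).p11 p
    rwa [lift_eq', (ev_D _ (ev_D _ (ev_lg he))).eq_of_nhds] at this
  · obtain ⟨g, hg, hi, hpos, he⟩ := exists_glob h hp
    have := (TorB.pot hess_ok k0 hg hi hpos).pw p
    rwa [lift_eq', (ev_W (ev_lg he)).eq_of_nhds] at this
  · obtain ⟨g, hg, hi, hpos, he⟩ := exists_glob h hp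
    have h1 := TorB.scal_eq hess_ok k0 hg hi hpos vol_ok p
    rw [lift_eq', ev_RR (ev_lg he), zp_eq, he.self_of_nhds] at h1
    rw [← h1]
    exact (hasDerivAt_t (diffAt hU sm (p := (p.1, p.2)) ⟨hp, mem_univ _⟩)).unique
      (h.flow _ hp (ez p.2))
  · rw [rl_eq]
    exact h.sm.comp Hess.emb.contDiff.contDiffOn fun p hp => ⟨by
      rw [Hess.emb_apply]
      exact hp.1, mem_univ _⟩
  · have := h.inv _ hp ![-1, 1] ![(p.2.1 : ℂ), (p.2.2 : ℂ)] fun j => by fin_cases j <;> simp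
    refine Eq.trans ?_ this
    simp only [rl, sl]
    congr 2
    funext j
    fin_cases j <;> simp
  · have := h.inv _ hp ![1, -1] ![(p.2.1 : ℂ), (p.2.2 : ℂ)] fun j => by fin_cases j <;> simp
    refine Eq.trans ?_ this
    simp only [rl, sl]
    congr 2
    funext j
    fin_cases j <;> simp
  · obtain ⟨g, hg, hi, hpos, he⟩ := exists_glob h hp
    have := axis_pos (Hess.sm_sl hg p.1) (hi _) 0 ![(p.2.1 : ℂ), (p.2.2 : ℂ)] (by simp) (hpos _ _)
    rw [← D1_rl hg, ← h11_rl hg, h11, (ev_D _ (ev_rl he)).eq_of_nhds,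
      (ev_D _ (ev_D _ (ev_rl he))).eq_of_nhds] at this
    simpa only [h11, Matrix.cons_val_zero, Complex.ofReal_re] using this
  · obtain ⟨g, hg, hi, hpos, he⟩ := exists_glob h hp
    have := axis_pos (Hess.sm_sl hg p.1) (hi _) 1 ![(p.2.1 : ℂ), (p.2.2 : ℂ)] (by simp) (hpos _ _)
    rw [← D2_rl hg, ← h22_rl hg, h22, (ev_D _ (ev_rl he)).eq_of_nhds,
      (ev_D _ (ev_D _ (ev_rl he))).eq_of_nhds] at this
    simpa only [h22, Matrix.cons_val_one, Matrix.cons_val_fin_one, Complex.ofReal_re] using this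
  · obtain ⟨g, hg, -, -, he⟩ := exists_glob h hp.1
    have h1 := ((TorB.sm_vol vol_ok hg).comp TorB.sm_em).continuous.continuousAt (x := p)
    refine (h1.congr ?_).continuousWithinAt
    filter_upwards [continuous_fst.continuousAt.eventually he] with q hq
    exact congrArg (fun F => vol F (TorB.em q).2) hq
  · obtain ⟨g, hg, hi, -, he⟩ := exists_glob h hp
    have := TorB.w_eq hess_ok k0 hg hi p
    rw [lift_eq', (ev_W (ev_lg he)).eq_of_nhds, z1_eq, z2_eq, one_mul, one_mul, zp_eq,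
      he.self_of_nhds] at this
    exact this
  · obtain ⟨g, hg, -, -, he⟩ := exists_glob h hp
    have h1 := grad_lg hg p
    have h2 := ev_rl (p := (p.1, Real.exp (p.2.1 / 2), Real.exp (p.2.2 / 2))) he
    simp only [grad, mm, fun v => (ev_D v (ev_lg he)).eq_of_nhds,
      fun v => (ev_D v h2).eq_of_nhds] at h1
    exact h1
  · obtain ⟨g, hg, hi, -, he⟩ := exists_glob h ht
    have h1 := qf_eq hg hi t z v hz
    have h2 := ev_lg (p := (t, lz z)) he
    rw [he.self_of_nhds] at h1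
    simp only [hq, hb, hs, T2.ap, h11, h12, h22,
      fun u v => (ev_D u (ev_D v h2)).eq_of_nhds] at h1
    exact h1
  · obtain ⟨g, hg, -, -, he⟩ := exists_glob h ht
    rw [← he.self_of_nhds]
    have h1 : ∀ j k, Continuous fun z => hess (sl g t) z j k := fun j k =>
      (vol_ok.1 g hg j k).continuous.comp (f := fun z : C2 => (t, z))
        (continuous_const.prodMk continuous_id)
    have h2 : Continuous fun z => star (v 0) * (hess (sl g t) z 0 0 * v 0 +
        hess (sl g t) z 0 1 * v 1) + star (v 1) * (hess (sl g t) z 1 0 * v 0 +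
        hess (sl g t) z 1 1 * v 1) :=
      (continuous_const.mul (((h1 0 0).mul continuous_const).add
        ((h1 0 1).mul continuous_const))).add (continuous_const.mul
        (((h1 1 0).mul continuous_const).add ((h1 1 1).mul continuous_const)))
    refine (Complex.continuous_re.comp h2).congr fun z => ?_
    simp only [qf, dotProduct, mulVec, Fin.sum_univ_two, Function.comp_apply, Pi.star_apply]

end Pool.Agent.P.MP_2cea5e_gt.I
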