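import Pool.Agent.P.MP_2cea5e_gt.I.St1

/-!
Smoothing by a symmetric Markov kernel of small range moves a function little.
-/

open scoped Topology ENNReal
open MeasureTheory Set Filter

noncomputable section

namespace Pool.Agent.P.MP_2cea5e_gt.I

namespace Mark

theorem w_pos {b : Bool} {x : ℝ} (hx : x ∈ ok b) : 0 < √(om b x) := by
  cases b
  · simp [om]
  · have : 0 < x := by simpa [ok] using hx
    simpa [om] using this

theorem w_cont (b : Bool) : Continuous fun x => √(om b x) := by
  cases b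
  · simpa [om] using continuous_const
  · simpa [om] using Real.continuous_sqrt

theorem ok_meas (b : Bool) : MeasurableSet (ok b) := by
  cases b
  · simp [ok]
  · simp [ok]

theorem th_deriv {b : Bool} {x : ℝ} (hx : x ∈ ok b) : HasDerivAt (th b) (√(om b x))⁻¹ x := by
  cases b
  · have : th false = fun x => x := by funext x; simp [th]
    rw [this]
    simpa [om] using hasDerivAt_id' x
  · have hx0 : 0 < x := by simpa [ok] using hx
    have : th true = fun x => 2 * √x := by funext x; simp [th]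
    rw [this]
    have h := (Real.hasDerivAt_sqrt hx0.ne').const_mul 2
    have hs : 0 < √x := Real.sqrt_pos.2 hx0
    have e : (√(om true x))⁻¹ = 2 * (1 / (2 * √x)) := by
      have : om true x = x := rfl
      rw [this]
      field_simp
    rw [e]
    exact h

theorem near {b : Bool} {δ y y' x : ℝ} (hy : y ∈ ok b) (h1 : y < x) (h2 : x ≤ y')
    (h : |th b y - th b y'| ≤ δ) : x - δ * √(om b x) ≤ y := by
  have h' := (abs_le.1 h).1
  cases b
  · simp only [th, om] at h' ⊢
    simp at h' ⊢
    linarith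
  · have hy0 : 0 < y := by simpa [ok] using hy
    simp only [th, om, if_true] at h' ⊢
    have a1 : √y ≤ √x := Real.sqrt_le_sqrt h1.le
    have a2 : √x ≤ √y' := Real.sqrt_le_sqrt h2
    have a3 : √y * √y = y := Real.mul_self_sqrt hy0.le
    have a4 : √x * √x = x := Real.mul_self_sqrt (hy0.trans h1).le
    have a5 : 0 ≤ √y := Real.sqrt_nonneg y
    have a6 : 2 * (√x - √y) ≤ δ := by linarith
    nlinarith [mul_le_mul_of_nonneg_right a6 (a5.trans a1), mul_nonneg (sub_nonneg.2 a1) (sub_nonneg.2 a1)]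

theorem seg {b : Bool} {δ : ℝ} {J' : Set ℝ} {W W' α β : ℝ → ℝ} (hδ : 0 < δ) (hJ : J' ⊆ ok b)
    (hc : OrdConnected J')
    (hW : ∀ x ∈ J', HasDerivAt W (W' x) x ∧ |W x| ≤ 2 ∧ 0 ≤ α x ∧ 0 ≤ β x ∧
      √(om b x) * |W' x| ≤ α x + β x)
    (cW : ContinuousOn W' J') (cα : ContinuousOn α J') (cβ : ContinuousOn β J')
    {y y' : ℝ} (hy : y ∈ J') (hy' : y' ∈ J') (hlt : y ≤ y') (hd : |th b y - th b y'| ≤ δ) :
    ENNReal.ofReal ((W y - W y') ^ 2) ≤
      ∫⁻ x in Ioc y y', ENNReal.ofReal ((4 * δ * α x ^ 2 + 8 * β x) * (√(om b x))⁻¹) := by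
  have hI : Icc y y' ⊆ J' := hc.out hy hy'
  have hU : uIcc y y' = Icc y y' := uIcc_of_le hlt
  set u : ℝ → ℝ := fun x => (√(om b x))⁻¹ with hu
  have cu : ContinuousOn u (Icc y y') :=
    (w_cont b).continuousOn.inv₀ fun x hx => (w_pos (hJ (hI hx))).ne'
  have upos : ∀ x ∈ Icc y y', 0 < u x := fun x hx => inv_pos.2 (w_pos (hJ (hI hx)))
  have cα' := cα.mono hI
  have cβ' := cβ.mono hI
  have cW' := cW.mono hI
  have ii : ∀ {f : ℝ → ℝ}, ContinuousOn f (Icc y y') → IntervalIntegrable f volume y y' :=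
    fun h => h.intervalIntegrable_of_Icc hlt
  have iu := ii cu
  have iA : IntervalIntegrable (fun x => α x * u x) volume y y' := ii (cα'.mul cu)
  have iB : IntervalIntegrable (fun x => β x * u x) volume y y' := ii (cβ'.mul cu)
  have iP : IntervalIntegrable (fun x => α x ^ 2 * u x) volume y y' := ii ((cα'.pow 2).mul cu)
  have hL : ∫ x in y..y', u x = th b y' - th b y :=
    intervalIntegral.integral_eq_sub_of_hasDerivAt
      (fun x hx => th_deriv (hJ (hI (hU ▸ hx)))) iu
  have hL' : ∫ x in y..y', u x ≤ δ := by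
    rw [hL]; have := (abs_le.1 hd).1; linarith
  have hD : ∫ x in y..y', W' x = W y' - W y :=
    intervalIntegral.integral_eq_sub_of_hasDerivAt
      (fun x hx => (hW x (hI (hU ▸ hx))).1) (ii cW')
  set A := ∫ x in y..y', α x * u x with hA
  set B := ∫ x in y..y', β x * u x with hB
  set P := ∫ x in y..y', α x ^ 2 * u x with hP
  have A0 : 0 ≤ A := intervalIntegral.integral_nonneg hlt fun x hx =>
    mul_nonneg (hW x (hI hx)).2.2.1 (upos x hx).le
  have B0 : 0 ≤ B := intervalIntegral.integral_nonneg hlt fun x hx =>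
    mul_nonneg (hW x (hI hx)).2.2.2.1 (upos x hx).le
  have h1 : |W y' - W y| ≤ A + B := by
    rw [← hD, hA, hB, ← intervalIntegral.integral_add iA iB]
    refine (intervalIntegral.abs_integral_le_integral_abs hlt).trans ?_
    refine intervalIntegral.integral_mono_on hlt (ii cW'.abs) (iA.add iB) fun x hx => ?_
    have h := (hW x (hI hx)).2.2.2.2
    have hw := w_pos (hJ (hI hx))
    rw [← add_mul, hu]
    simp only
    rw [← div_eq_mul_inv, le_div_iff₀ hw, mul_comm]
    exact h
  have h2 : A ^ 2 ≤ δ * P := by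
    have e : ∫ x in y..y', 2 * (A / δ) * (α x * u x) ≤
        ∫ x in y..y', (α x ^ 2 * u x + (A / δ) ^ 2 * u x) := by
      refine intervalIntegral.integral_mono_on hlt (iA.const_mul _) (iP.add (iu.const_mul _))
        fun x hx => ?_
      nlinarith [mul_nonneg (sq_nonneg (α x - A / δ)) (upos x hx).le]
    rw [intervalIntegral.integral_add iP (iu.const_mul _), intervalIntegral.integral_const_mul,
      intervalIntegral.integral_const_mul, ← hA, ← hP] at e
    have e2 : (A / δ) ^ 2 * ∫ x in y..y', u x ≤ (A / δ) ^ 2 * δ :=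
      mul_le_mul_of_nonneg_left hL' (sq_nonneg _)
    have e3 : 2 * (A / δ) * A - (A / δ) ^ 2 * δ = A ^ 2 / δ := by field_simp; ring
    have e4 : A ^ 2 / δ ≤ P := by linarith
    rw [div_le_iff₀ hδ] at e4
    linarith
  have h3 : |W y' - W y| ≤ 4 := by
    have a := abs_le.1 (hW y hy).2.1
    have a' := abs_le.1 (hW y' hy').2.1
    rw [abs_le]; constructor <;> linarith
  have h4 : (W y - W y') ^ 2 ≤ 4 * δ * P + 8 * B := by
    have e : (W y - W y') ^ 2 = |W y' - W y| ^ 2 := by rw [sq_abs]; ring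
    rw [e]
    have n := abs_nonneg (W y' - W y)
    rcases le_total A B with h | h
    · nlinarith [sq_nonneg A]
    · nlinarith
  have h5 : 4 * δ * P + 8 * B = ∫ x in Ioc y y', (4 * δ * α x ^ 2 + 8 * β x) * u x := by
    rw [← intervalIntegral.integral_of_le hlt, hP, hB, ← intervalIntegral.integral_const_mul,
      ← intervalIntegral.integral_const_mul,
      ← intervalIntegral.integral_add (iP.const_mul _) (iB.const_mul _)]
    congr 1; funext x; ring
  have i5 : IntegrableOn (fun x => (4 * δ * α x ^ 2 + 8 * β x) * u x) (Ioc y y') := by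
    have := ii ((((cα'.pow 2).const_smul (4 * δ)).add (cβ'.const_smul (8 : ℝ))).mul cu)
    exact this.1
  rw [← ofReal_integral_eq_lintegral_ofReal i5]
  · exact ENNReal.ofReal_le_ofReal (h4.trans h5.le)
  · filter_upwards [ae_restrict_mem measurableSet_Ioc] with x hx
    have hx' := Ioc_subset_Icc_self hx
    have := (hW x (hI hx')).2.2.2.1
    exact mul_nonneg (by positivity) (upos x hx').le

end Mark

open Mark in
theorem mark_ok : StMark := by
  classical
  intro b δ s J J' W W' α β hδ mJ hJ oJ cJ sJ cs hs hm hW cW cα cβ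
  have mo := ok_meas b
  have mJ' := oJ.measurableSet
  -- measurable versions
  set S : ℝ × ℝ → ℝ≥0∞ := fun q =>
    ENNReal.ofReal ((ok b ×ˢ ok b).piecewise (fun q : ℝ × ℝ => s q.1 q.2) (fun _ => 0) q) with hS
  have mS : Measurable S :=
    (cs.measurable_piecewise continuousOn_const (mo.prod mo)).ennreal_ofReal
  set φ : ℝ → ℝ := fun x => (4 * δ * α x ^ 2 + 8 * β x) * (√(om b x))⁻¹ with hφ
  have cφ : ContinuousOn φ J' :=
    (((cα.pow 2).const_smul (4 * δ)).add (cβ.const_smul (8 : ℝ))).mul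
      ((w_cont b).continuousOn.inv₀ fun x hx => (w_pos (hJ hx)).ne')
  set Φ : ℝ → ℝ≥0∞ := fun x => ENNReal.ofReal (J'.piecewise φ (fun _ => 0) x) with hΦ
  have mΦ : Measurable Φ := (cφ.measurable_piecewise continuousOn_const mJ').ennreal_ofReal
  set K : Set (ℝ × ℝ) := {q | q.2 - δ * √(om b q.2) ≤ q.1 ∧ q.1 < q.2} with hK
  have mK : MeasurableSet K := by
    refine MeasurableSet.inter (measurableSet_le ?_ measurable_fst)
      (measurableSet_lt measurable_fst measurable_snd)
    exact (continuous_snd.sub (continuous_const.mul ((w_cont b).comp continuous_snd))).measurable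
  set H : ℝ × ℝ → ℝ≥0∞ := K.indicator fun q => Φ q.2 with hH
  have mH : Measurable H := (mΦ.comp measurable_snd).indicator mK
  set G : ℝ → ℝ≥0∞ := fun y => ∫⁻ x, H (y, x) with hG
  have mG : Measurable G := mH.lintegral_prod_right'
  have S_ok : ∀ y ∈ ok b, ∀ y' ∈ ok b, S (y, y') = ENNReal.ofReal (s y y') := by
    intro y hy y' hy'
    simp only [hS]
    rw [piecewise_eq_of_mem _ _ _ (show (y, y') ∈ ok b ×ˢ ok b from ⟨hy, hy'⟩)]
  have S_no : ∀ y y', ¬(y ∈ ok b ∧ y' ∈ ok b) → S (y, y') = 0 := by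
    intro y y' h
    simp only [hS]
    rw [piecewise_eq_of_notMem _ _ _ (show (y, y') ∉ ok b ×ˢ ok b from h)]
    simp
  have S_symm : ∀ y y', S (y, y') = S (y', y) := by
    intro y y'
    by_cases h : y ∈ ok b ∧ y' ∈ ok b
    · rw [S_ok y h.1 y' h.2, S_ok y' h.2 y h.1, (hs y h.1 y' h.2).2.1]
    · rw [S_no y y' h, S_no y' y fun h' => h ⟨h'.2, h'.1⟩]
  have S_mass : ∀ y, ∫⁻ y', S (y, y') ≤ 1 := by
    intro y
    by_cases hy : y ∈ ok b
    · have e : (fun y' => S (y, y')) = (ok b).indicator fun y' => ENNReal.ofReal (s y y') := by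
        funext y'
        by_cases hy' : y' ∈ ok b
        · rw [indicator_of_mem hy', S_ok y hy y' hy']
        · rw [indicator_of_notMem hy', S_no y y' fun h => hy' h.2]
      rw [e, lintegral_indicator mo, ← ofReal_integral_eq_lintegral_ofReal (hm y hy).1, (hm y hy).2]
      · simp
      · filter_upwards [ae_restrict_mem mo] with y' hy'
        exact (hs y hy y' hy').1
    · have e : (fun y' => S (y, y')) = fun _ => 0 := by
        funext y'; exact S_no y y' fun h => hy h.1
      rw [e]; simp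
  -- one segment
  have key : ∀ y ∈ J', ∀ y' ∈ J', y ≤ y' → |th b y - th b y'| ≤ δ →
      ENNReal.ofReal ((W y - W y') ^ 2) ≤ G y := by
    intro y hy y' hy' hlt hd
    refine (seg hδ hJ cJ hW cW cα cβ hy hy' hlt hd).trans ?_
    rw [← lintegral_indicator measurableSet_Ioc]
    refine lintegral_mono fun x => ?_
    by_cases hx : x ∈ Ioc y y'
    · have hxJ : x ∈ J' := cJ.out hy hy' (Ioc_subset_Icc_self hx)
      have hxK : (y, x) ∈ K := ⟨near (hJ hy) hx.1 hx.2 hd, hx.1⟩
      rw [indicator_of_mem hx, hH, indicator_of_mem hxK]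
      simp only [hΦ]
      rw [piecewise_eq_of_mem _ _ _ hxJ]
    · rw [indicator_of_notMem hx]; exact zero_le
  have pt : ∀ y ∈ J, ∀ y' ∈ ok b,
      ENNReal.ofReal (s y y' * (W y - W y') ^ 2) ≤ S (y, y') * G y + S (y, y') * G y' := by
    intro y hy y' hy'
    have hyo := hJ (sJ hy)
    obtain ⟨h0, -, h2⟩ := hs y hyo y' hy'
    by_cases hz : s y y' = 0
    · simp [hz]
    obtain ⟨hd, hj⟩ := h2 hz
    rw [ENNReal.ofReal_mul h0, S_ok y hyo y' hy', ← mul_add]
    refine mul_le_mul_right ?_ _
    rcases le_total y y' with h | h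
    · exact (key y (sJ hy) y' (hj hy) h hd).trans le_self_add
    · have := key y' (hj hy) y (sJ hy) h (by rwa [abs_sub_comm])
      have e : (W y - W y') ^ 2 = (W y' - W y) ^ 2 := by ring
      rw [e]
      exact this.trans le_add_self
  have mS1 : ∀ y, Measurable fun y' => S (y, y') := fun y => mS.comp measurable_prodMk_left
  have m1 : Measurable fun q : ℝ × ℝ => S q * G q.1 := mS.mul (mG.comp measurable_fst)
  have m2 : Measurable fun q : ℝ × ℝ => S q * G q.2 := mS.mul (mG.comp measurable_snd)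
  have T1 : ∫⁻ y, ∫⁻ y', S (y, y') * G y ≤ ∫⁻ y, G y := by
    refine lintegral_mono fun y => ?_
    simp only
    rw [lintegral_mul_const _ (mS1 y)]
    exact (mul_le_mul_left (S_mass y) _).trans (one_mul _).le
  have T2 : ∫⁻ y, ∫⁻ y', S (y, y') * G y' ≤ ∫⁻ y, G y := by
    rw [lintegral_lintegral_swap (f := fun y y' => S (y, y') * G y') m2.aemeasurable]
    refine le_trans (le_of_eq ?_) T1
    congr 1; funext y; congr 1; funext y'
    rw [S_symm]
  have T3 : ∫⁻ y, G y = ∫⁻ x, Φ x * ENNReal.ofReal (δ * √(om b x)) := by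
    simp only [hG]
    rw [lintegral_lintegral_swap (f := fun y x => H (y, x)) mH.aemeasurable]
    congr 1; funext x
    have e : (fun y => H (y, x)) = (Ico (x - δ * √(om b x)) x).indicator fun _ => Φ x := by
      funext y
      by_cases hy : y ∈ Ico (x - δ * √(om b x)) x
      · rw [indicator_of_mem hy, hH, indicator_of_mem (show (y, x) ∈ K from hy)]
      · rw [indicator_of_notMem hy, hH, indicator_of_notMem (show (y, x) ∉ K from hy)]
    rw [e, lintegral_indicator measurableSet_Ico, setLIntegral_const, Real.volume_Ico]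
    congr 2; ring
  have T4 : (∫⁻ y, G y) + ∫⁻ y, G y ≤
      ∫⁻ x in J', ENNReal.ofReal (8 * δ ^ 2 * α x ^ 2 + 16 * δ * β x) := by
    rw [← two_mul, T3, ← lintegral_const_mul' _ _ (by simp), ← lintegral_indicator mJ']
    refine lintegral_mono fun x => ?_
    by_cases hx : x ∈ J'
    · rw [indicator_of_mem hx]
      simp only [hΦ]
      rw [piecewise_eq_of_mem _ _ _ hx]
      have hw := w_pos (hJ hx)
      have hβ := (hW x hx).2.2.2.1
      have p0 : 0 ≤ φ x := mul_nonneg (by positivity) (inv_pos.2 hw).le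
      rw [← ENNReal.ofReal_mul p0, ← ENNReal.ofReal_ofNat 2, ← ENNReal.ofReal_mul (by norm_num)]
      refine le_of_eq ?_
      congr 1
      simp only [hφ]
      field_simp
      ring
    · rw [indicator_of_notMem hx]
      simp only [hΦ]
      rw [piecewise_eq_of_notMem _ _ _ hx]
      simp
  calc ∫⁻ y in J, ∫⁻ y' in ok b, ENNReal.ofReal (s y y' * (W y - W y') ^ 2)
      ≤ ∫⁻ y in J, ∫⁻ y', (S (y, y') * G y + S (y, y') * G y') := by
        refine setLIntegral_mono' mJ fun y hy => ?_
        refine le_trans (setLIntegral_mono' mo fun y' hy' => pt y hy y' hy') ?_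
        exact setLIntegral_le_lintegral _ _
    _ ≤ ∫⁻ y, ∫⁻ y', (S (y, y') * G y + S (y, y') * G y') := setLIntegral_le_lintegral _ _
    _ = (∫⁻ y, ∫⁻ y', S (y, y') * G y) + ∫⁻ y, ∫⁻ y', S (y, y') * G y' := by
        rw [← lintegral_add_left (m1.lintegral_prod_right')]
        congr 1; funext y
        rw [lintegral_add_left ((mS1 y).mul_const _)]
    _ ≤ (∫⁻ y, G y) + ∫⁻ y, G y := add_le_add T1 T2
    _ ≤ _ := T4

end Pool.Agent.P.MP_2cea5e_gt.I
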