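import Pool.Agent.P.MP_2cea5e_gt.I.St3

/-!
Chapter I: a bounded function is close to its smoothing (two variables).
-/

open scoped ContDiff Topology ENNReal
open MeasureTheory Set Filter

noncomputable section

set_option linter.dupNamespace false

namespace Pool.Agent.P.MP_2cea5e_gt.I

namespace Mark2

/-- A symmetric Markov kernel of small range. -/
structure MK (b : Bool) (δ : ℝ) (s : ℝ → ℝ → ℝ) : Prop where
  cont : ContinuousOn (fun q : ℝ × ℝ => s q.1 q.2) (ok b ×ˢ ok b)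
  pt : ∀ y ∈ ok b, ∀ y' ∈ ok b, 0 ≤ s y y' ∧ s y y' = s y' y ∧
    (s y y' ≠ 0 → |th b y - th b y'| ≤ δ ∧ (y ∈ iv b (1 / 8) → y' ∈ iv b (1 / 2)))
  one : ∀ y ∈ ok b, IntegrableOn (s y) (ok b) ∧ ∫ y' in ok b, s y y' = 1

theorem cont_th (b : Bool) : Continuous (th b) := by
  cases b
  · exact continuous_id
  · exact continuous_const.mul Real.continuous_sqrt

theorem mk_kk (h1 : StKer1) (h3 : StKer3) (b : Bool) {δ : ℝ} {r : ℂ → ℝ} (hr : Prob δ r)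
    (hδ : δ ≤ 1 / 20) : MK b δ fun y y' => kk b r (th b y) y' := by
  obtain ⟨-, k2, -, k4, -⟩ := h1 b δ r hr.tst
  obtain ⟨m1, m2, m3, -⟩ := h3.2 b δ r hr.tst hr.nn hr.rad hr.one
  refine ⟨?_, fun y hy y' hy' => ⟨m1 _ _, m3 y hy y' hy', fun h => ?_⟩, fun y _ => m2 _⟩
  · exact k2.comp (f := fun q : ℝ × ℝ => (((th b q.1 : ℝ) : ℂ), q.2))
      ((Complex.continuous_ofReal.comp ((cont_th b).comp continuous_fst)).prodMk
        continuous_snd).continuousOn fun q hq => ⟨mem_univ _, hq.2⟩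
  · have e := k4 _ y' hy' h
    have e' : |th b y - th b y'| ≤ δ := by
      rw [abs_sub_comm]
      cases b
      · simpa using e
      · have : ‖((th true y : ℝ) : ℂ)‖ = th true y := by
          rw [Complex.norm_real, Real.norm_of_nonneg]
          simp only [th, if_true]
          positivity
        simpa only [if_true, this] using e
    refine ⟨e', fun hy8 => ?_⟩
    obtain ⟨a1, a2⟩ := abs_le.1 e'
    cases b
    · simp only [iv, th, Bool.false_eq_true, if_false, mem_Ioo] at hy8 a1 a2 ⊢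
      constructor <;> linarith [hy8.1, hy8.2]
    · simp only [iv, th, ok, if_true, mem_Ioo, mem_Ioi] at hy8 a1 a2 hy' ⊢
      refine ⟨hy', ?_⟩
      have c1 : √y < 1 / 8 := (Real.sqrt_lt' (by norm_num)).2 hy8.2
      exact (Real.sqrt_lt' (by norm_num)).1 (by linarith)

theorem sub8 (b : Bool) : iv b (1 / 8) ⊆ iv b (1 / 2) := iv_mono b (by norm_num) (by norm_num)

theorem ms (b : Bool) (r : ℝ) : MeasurableSet (iv b r) := (isOpen_iv b r).measurableSet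

theorem oc (b : Bool) (r : ℝ) : OrdConnected (iv b r) := by
  cases b <;> simp [iv, ordConnected_Ioo]

variable {b b₁ b₂ : Bool} {δ : ℝ} {s s₁ s₂ : ℝ → ℝ → ℝ}

theorem MK.zero (h : MK b δ s) {y y' : ℝ} (hy : y ∈ iv b (1 / 8)) (hy' : y' ∈ ok b)
    (hn : y' ∉ iv b (1 / 2)) : s y y' = 0 := by
  by_contra h0
  exact hn (((h.pt y (iv_subset_ok _ _ hy) y' hy').2.2 h0).2 hy)

theorem MK.mass (h : MK b δ s) {y : ℝ} (hy : y ∈ iv b (1 / 8)) :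
    ∫ y' in iv b (1 / 2), s y y' = 1 :=
  (setIntegral_eq_of_subset_of_forall_sdiff_eq_zero (isOpen_ok b).measurableSet
    (iv_subset_ok _ _) fun _ hx => h.zero hy hx.1 hx.2).symm.trans
    (h.one y (iv_subset_ok _ _ hy)).2

theorem MK.lmass (h : MK b δ s) {y r : ℝ} (hy : y ∈ ok b) :
    ∫⁻ y' in iv b r, ENNReal.ofReal (s y y') ≤ 1 := by
  refine (lintegral_mono_set (iv_subset_ok b r)).trans (le_of_eq ?_)
  rw [← ofReal_integral_eq_lintegral_ofReal (h.one y hy).1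
    ((ae_restrict_iff' (isOpen_ok b).measurableSet).2
      (Eventually.of_forall fun y' hy' => (h.pt y hy y' hy').1)), (h.one y hy).2,
    ENNReal.ofReal_one]

/-- Jensen's inequality for the product kernel. -/
theorem jensen (k₁ : MK b₁ δ s₁) (k₂ : MK b₂ δ s₂) {φ : ℝ × ℝ → ℝ}
    (hc : ContinuousOn φ (bx (b₁, b₂) (1 / 2))) (hb : ∀ y ∈ bx (b₁, b₂) (1 / 2), |φ y| ≤ 2)
    {y : ℝ × ℝ} (hy : y ∈ bx (b₁, b₂) (1 / 8)) :
    ENNReal.ofReal ((φ y - ∫ z in bx (b₁, b₂) 1, φ z * (s₁ y.1 z.1 * s₂ y.2 z.2)) ^ 2) ≤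
      ∫⁻ z in bx (b₁, b₂) (1 / 2), ENNReal.ofReal ((φ y - φ z) ^ 2 * (s₁ y.1 z.1 * s₂ y.2 z.2)) := by
  have mB : MeasurableSet (bx (b₁, b₂) (1 / 2)) := (isOpen_bx _ _).measurableSet
  have o1 := iv_subset_ok _ _ hy.1
  have o2 := iv_subset_ok _ _ hy.2
  have e : ∫ z in bx (b₁, b₂) 1, φ z * (s₁ y.1 z.1 * s₂ y.2 z.2) =
      ∫ z in bx (b₁, b₂) (1 / 2), φ z * (s₁ y.1 z.1 * s₂ y.2 z.2) := by
    refine setIntegral_eq_of_subset_of_forall_sdiff_eq_zero (isOpen_bx _ _).measurableSet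
      (bx_mono _ (by norm_num) (by norm_num)) fun z hz => ?_
    by_cases h : z.1 ∈ iv b₁ (1 / 2)
    · rw [k₂.zero hy.2 (iv_subset_ok _ _ hz.1.2) fun h' => hz.2 ⟨h, h'⟩, mul_zero, mul_zero]
    · rw [k₁.zero hy.1 (iv_subset_ok _ _ hz.1.1) h, zero_mul, mul_zero]
  have ik : IntegrableOn (fun z : ℝ × ℝ => s₁ y.1 z.1 * s₂ y.2 z.2) (bx (b₁, b₂) (1 / 2)) := by
    have := Integrable.mul_prod ((k₁.one _ o1).1.mono_set (iv_subset_ok b₁ (1 / 2)))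
      ((k₂.one _ o2).1.mono_set (iv_subset_ok b₂ (1 / 2)))
    rwa [Measure.prod_restrict] at this
  have mk : ∫ z in bx (b₁, b₂) (1 / 2), s₁ y.1 z.1 * s₂ y.2 z.2 = 1 := by
    have := setIntegral_prod_mul (μ := volume) (ν := volume) (s₁ y.1) (s₂ y.2) (iv b₁ (1 / 2))
      (iv b₂ (1 / 2))
    rw [k₁.mass hy.1, k₂.mass hy.2, mul_one] at this
    exact this
  have nk : ∀ z ∈ bx (b₁, b₂) (1 / 2), 0 ≤ s₁ y.1 z.1 * s₂ y.2 z.2 := fun z hz =>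
    mul_nonneg (k₁.pt _ o1 _ (iv_subset_ok _ _ hz.1)).1 (k₂.pt _ o2 _ (iv_subset_ok _ _ hz.2)).1
  have i1 : IntegrableOn (fun z => φ z * (s₁ y.1 z.1 * s₂ y.2 z.2)) (bx (b₁, b₂) (1 / 2)) :=
    Integrable.bdd_mul ik (hc.aestronglyMeasurable mB)
      ((ae_restrict_iff' mB).2 (Eventually.of_forall hb))
  have i2 : IntegrableOn (fun z => (φ y - φ z) ^ 2 * (s₁ y.1 z.1 * s₂ y.2 z.2))
      (bx (b₁, b₂) (1 / 2)) := by
    refine Integrable.bdd_mul (c := (|φ y| + 2) ^ 2) ik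
      (((continuousOn_const.sub hc).pow 2).aestronglyMeasurable mB)
      ((ae_restrict_iff' mB).2 (Eventually.of_forall fun z hz => ?_))
    rw [Real.norm_of_nonneg (sq_nonneg _), ← sq_abs]
    exact pow_le_pow_left₀ (abs_nonneg _) ((abs_sub _ _).trans (by linarith [hb z hz])) 2
  rw [e, ← ofReal_integral_eq_lintegral_ofReal i2 ((ae_restrict_iff' mB).2
    (Eventually.of_forall fun z hz => mul_nonneg (sq_nonneg _) (nk z hz)))]
  refine ENNReal.ofReal_le_ofReal ?_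
  obtain ⟨m, hm⟩ : ∃ m, m = ∫ z in bx (b₁, b₂) (1 / 2), φ z * (s₁ y.1 z.1 * s₂ y.2 z.2) := ⟨_, rfl⟩
  rw [← hm]
  have e2 : (φ y - m) ^ 2 = ∫ z in bx (b₁, b₂) (1 / 2),
      ((2 * (φ y - m) * φ y - (φ y - m) ^ 2) * (s₁ y.1 z.1 * s₂ y.2 z.2) -
        2 * (φ y - m) * (φ z * (s₁ y.1 z.1 * s₂ y.2 z.2))) := by
    rw [integral_sub (ik.const_mul _) (i1.const_mul _), integral_const_mul, integral_const_mul,
      mk, ← hm]
    ring
  rw [e2]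
  refine setIntegral_mono_on ((ik.const_mul _).sub (i1.const_mul _)) i2 mB fun z hz => ?_
  have := mul_nonneg (sq_nonneg (φ y - φ z - (φ y - m))) (nk z hz)
  nlinarith

/-- Tonelli for the two halves. -/
theorem tonelli (μ₁ μ₂ ν₁ ν₂ : Measure ℝ) [SFinite μ₁] [SFinite μ₂] [SFinite ν₁] [SFinite ν₂]
    {S₁ S₂ : ℝ × ℝ → ℝ≥0∞} {g : ℝ × ℝ → ℝ} (h₁ : Measurable S₁) (h₂ : Measurable S₂)
    (hg : Measurable g) (m₁ : ∀ᵐ x ∂ν₁, ∫⁻ y, S₁ (y, x) ∂μ₁ ≤ 1)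
    (m₂ : ∀ᵐ y ∂μ₂, ∫⁻ x, S₂ (y, x) ∂ν₂ ≤ 1) :
    ∫⁻ y, ∫⁻ z, (S₁ (y.1, z.1) * ENNReal.ofReal ((g y - g (z.1, y.2)) ^ 2) * S₂ (y.2, z.2) +
        S₁ (y.1, z.1) * (S₂ (y.2, z.2) * ENNReal.ofReal ((g (z.1, y.2) - g z) ^ 2)))
        ∂ν₁.prod ν₂ ∂μ₁.prod μ₂ ≤
      (∫⁻ v, ∫⁻ u, ∫⁻ x, S₁ (u, x) * ENNReal.ofReal ((g (u, v) - g (x, v)) ^ 2) ∂ν₁ ∂μ₁ ∂μ₂) +
      ∫⁻ x, ∫⁻ v, ∫⁻ w, S₂ (v, w) * ENNReal.ofReal ((g (x, v) - g (x, w)) ^ 2) ∂ν₂ ∂μ₂ ∂ν₁ := by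
  have mX : Measurable fun q : (ℝ × ℝ) × ℝ × ℝ => S₁ (q.1.1, q.2.1) *
      ENNReal.ofReal ((g q.1 - g (q.2.1, q.1.2)) ^ 2) * S₂ (q.1.2, q.2.2) := by fun_prop
  have mY : Measurable fun q : (ℝ × ℝ) × ℝ × ℝ => S₁ (q.1.1, q.2.1) *
      (S₂ (q.1.2, q.2.2) * ENNReal.ofReal ((g (q.2.1, q.1.2) - g q.2) ^ 2)) := by fun_prop
  have e : ∀ y : ℝ × ℝ, ∫⁻ z, (S₁ (y.1, z.1) * ENNReal.ofReal ((g y - g (z.1, y.2)) ^ 2) *
        S₂ (y.2, z.2) + S₁ (y.1, z.1) * (S₂ (y.2, z.2) * ENNReal.ofReal ((g (z.1, y.2) - g z) ^ 2)))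
        ∂ν₁.prod ν₂ =
      (∫⁻ z, S₁ (y.1, z.1) * ENNReal.ofReal ((g y - g (z.1, y.2)) ^ 2) * S₂ (y.2, z.2)
        ∂ν₁.prod ν₂) +
      ∫⁻ z, S₁ (y.1, z.1) * (S₂ (y.2, z.2) * ENNReal.ofReal ((g (z.1, y.2) - g z) ^ 2))
        ∂ν₁.prod ν₂ := fun y => lintegral_add_left (by fun_prop) _
  simp only [e]
  rw [lintegral_add_left mX.lintegral_prod_right']
  refine add_le_add ?_ ?_
  · rw [lintegral_prod_symm' _ mX.lintegral_prod_right']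
    refine lintegral_mono_ae (m₂.mono fun v hv => lintegral_mono fun u => ?_)
    have := lintegral_prod_mul (μ := ν₁) (ν := ν₂)
      (f := fun x => S₁ (u, x) * ENNReal.ofReal ((g (u, v) - g (x, v)) ^ 2))
      (g := fun w => S₂ (v, w)) (Measurable.aemeasurable (by fun_prop))
      (Measurable.aemeasurable (by fun_prop))
    exact this.trans_le (mul_le_of_le_one_right' hv)
  · rw [lintegral_lintegral_swap mY.aemeasurable,
      lintegral_prod _ mY.lintegral_prod_left'.aemeasurable]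
    refine lintegral_mono_ae (m₁.mono fun x hx => ?_)
    rw [lintegral_lintegral_swap (f := fun v w =>
      S₂ (v, w) * ENNReal.ofReal ((g (x, v) - g (x, w)) ^ 2)) (Measurable.aemeasurable (by
        unfold Function.uncurry; fun_prop))]
    refine lintegral_mono fun w => ?_
    have := lintegral_prod_mul (μ := μ₁) (ν := μ₂) (f := fun u => S₁ (u, x))
      (g := fun v => S₂ (v, w) * ENNReal.ofReal ((g (x, v) - g (x, w)) ^ 2))
      (Measurable.aemeasurable (by fun_prop)) (Measurable.aemeasurable (by fun_prop))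
    exact this.trans_le (mul_le_of_le_one_left' hx)

theorem exists_meas {φ : ℝ × ℝ → ℝ} {A : Set (ℝ × ℝ)} (hc : ContinuousOn φ A)
    (hA : MeasurableSet A) : ∃ g, Measurable g ∧ ∀ y ∈ A, g y = φ y := by
  classical
  exact ⟨A.piecewise φ 0, hc.measurable_piecewise continuousOn_const hA,
    fun y hy => piecewise_eq_of_mem _ _ _ hy⟩

/-- The estimate in terms of the two one dimensional estimates. -/
theorem core (k₁ : MK b₁ δ s₁) (k₂ : MK b₂ δ s₂) {φ : ℝ × ℝ → ℝ} {Φ : ℝ × ℝ → ℝ≥0∞}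
    (hc : ContinuousOn φ (bx (b₁, b₂) (1 / 2))) (hb : ∀ y ∈ bx (b₁, b₂) (1 / 2), |φ y| ≤ 2)
    (hΦ : AEMeasurable Φ (volume.restrict (bx (b₁, b₂) (1 / 2))))
    (t₁ : ∀ v ∈ iv b₂ (1 / 8), ∫⁻ u in iv b₁ (1 / 8), ∫⁻ x in ok b₁,
      ENNReal.ofReal (s₁ u x * (φ (u, v) - φ (x, v)) ^ 2) ≤ ∫⁻ x in iv b₁ (1 / 2), Φ (x, v))
    (t₂ : ∀ x ∈ iv b₁ (1 / 2), ∫⁻ v in iv b₂ (1 / 8), ∫⁻ w in ok b₂,
      ENNReal.ofReal (s₂ v w * (φ (x, v) - φ (x, w)) ^ 2) ≤ ∫⁻ w in iv b₂ (1 / 2), Φ (x, w)) :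
    ∫⁻ y in bx (b₁, b₂) (1 / 8),
      ENNReal.ofReal ((φ y - ∫ z in bx (b₁, b₂) 1, φ z * (s₁ y.1 z.1 * s₂ y.2 z.2)) ^ 2) ≤
      4 * ∫⁻ y in bx (b₁, b₂) (1 / 2), Φ y := by
  obtain ⟨σ₁, hσ₁, e₁⟩ := exists_meas k₁.cont
    ((isOpen_ok b₁).measurableSet.prod (isOpen_ok b₁).measurableSet)
  obtain ⟨σ₂, hσ₂, e₂⟩ := exists_meas k₂.cont
    ((isOpen_ok b₂).measurableSet.prod (isOpen_ok b₂).measurableSet)
  obtain ⟨g, hg, eg⟩ := exists_meas hc (isOpen_bx _ _).measurableSet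
  have ok8 : ∀ {b : Bool} {y : ℝ}, y ∈ iv b (1 / 8) → y ∈ ok b := fun h => iv_subset_ok _ _ h
  have ok2 : ∀ {b : Bool} {y : ℝ}, y ∈ iv b (1 / 2) → y ∈ ok b := fun h => iv_subset_ok _ _ h
  have T := tonelli (volume.restrict (iv b₁ (1 / 8))) (volume.restrict (iv b₂ (1 / 8)))
    (volume.restrict (iv b₁ (1 / 2))) (volume.restrict (iv b₂ (1 / 2)))
    hσ₁.ennreal_ofReal hσ₂.ennreal_ofReal hg
    ((ae_restrict_iff' (ms _ _)).2 (Eventually.of_forall fun x hx => by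
      refine le_trans (le_of_eq (setLIntegral_congr_fun (ms _ _) fun y hy => ?_))
        (k₁.lmass (r := 1 / 8) (ok2 hx))
      simp only [e₁ (y, x) ⟨ok8 hy, ok2 hx⟩, (k₁.pt y (ok8 hy) x (ok2 hx)).2.1]))
    ((ae_restrict_iff' (ms _ _)).2 (Eventually.of_forall fun y hy => by
      refine le_trans (le_of_eq (setLIntegral_congr_fun (ms _ _) fun x hx => ?_))
        (k₂.lmass (r := 1 / 2) (ok8 hy))
      simp only [e₂ (y, x) ⟨ok8 hy, ok2 hx⟩]))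
  rw [Measure.prod_restrict, Measure.prod_restrict] at T
  have A₁ : ∫⁻ v in iv b₂ (1 / 8), ∫⁻ u in iv b₁ (1 / 8), ∫⁻ x in iv b₁ (1 / 2),
      ENNReal.ofReal (σ₁ (u, x)) * ENNReal.ofReal ((g (u, v) - g (x, v)) ^ 2) ≤
      ∫⁻ y in bx (b₁, b₂) (1 / 2), Φ y := by
    refine le_trans (setLIntegral_mono' (ms _ _) fun v hv => le_trans ?_ (t₁ v hv))
      ((lintegral_mono_set (sub8 b₂)).trans (setLIntegral_prod_symm Φ hΦ).ge)
    refine setLIntegral_mono' (ms _ _) fun u hu => le_trans (le_of_eq ?_)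
      (lintegral_mono_set (iv_subset_ok b₁ (1 / 2)))
    refine setLIntegral_congr_fun (ms _ _) fun x hx => ?_
    simp only [e₁ (u, x) ⟨ok8 hu, ok2 hx⟩, eg (u, v) ⟨sub8 _ hu, sub8 _ hv⟩,
      eg (x, v) ⟨hx, sub8 _ hv⟩, ENNReal.ofReal_mul (k₁.pt u (ok8 hu) x (ok2 hx)).1]
  have A₂ : ∫⁻ x in iv b₁ (1 / 2), ∫⁻ v in iv b₂ (1 / 8), ∫⁻ w in iv b₂ (1 / 2),
      ENNReal.ofReal (σ₂ (v, w)) * ENNReal.ofReal ((g (x, v) - g (x, w)) ^ 2) ≤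
      ∫⁻ y in bx (b₁, b₂) (1 / 2), Φ y := by
    refine le_trans (setLIntegral_mono' (ms _ _) fun x hx => le_trans ?_ (t₂ x hx))
      (setLIntegral_prod Φ hΦ).ge
    refine setLIntegral_mono' (ms _ _) fun v hv => le_trans (le_of_eq ?_)
      (lintegral_mono_set (iv_subset_ok b₂ (1 / 2)))
    refine setLIntegral_congr_fun (ms _ _) fun w hw => ?_
    simp only [e₂ (v, w) ⟨ok8 hv, ok2 hw⟩, eg (x, v) ⟨hx, sub8 _ hv⟩,
      eg (x, w) ⟨hx, hw⟩, ENNReal.ofReal_mul (k₂.pt v (ok8 hv) w (ok2 hw)).1]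
  have T2 := mul_le_mul_right (T.trans (add_le_add A₁ A₂)) 2
  rw [← two_mul, ← mul_assoc, show (2 : ℝ≥0∞) * 2 = 4 by norm_num,
    ← lintegral_const_mul' _ _ (by norm_num)] at T2
  refine le_trans (setLIntegral_mono' (isOpen_bx _ _).measurableSet fun y hy =>
    (jensen k₁ k₂ hc hb hy).trans ?_) T2
  rw [← lintegral_const_mul' _ _ (by norm_num)]
  refine setLIntegral_mono' (isOpen_bx _ _).measurableSet fun z hz => ?_
  have n₁ := (k₁.pt _ (ok8 hy.1) _ (ok2 hz.1)).1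
  have n₂ := (k₂.pt _ (ok8 hy.2) _ (ok2 hz.2)).1
  rw [e₁ (y.1, z.1) ⟨ok8 hy.1, ok2 hz.1⟩, e₂ (y.2, z.2) ⟨ok8 hy.2, ok2 hz.2⟩,
    eg y ⟨sub8 _ hy.1, sub8 _ hy.2⟩, eg z hz, eg (z.1, y.2) ⟨hz.1, sub8 _ hy.2⟩,
    ← ENNReal.ofReal_mul n₁, ← ENNReal.ofReal_mul (by positivity), ← ENNReal.ofReal_mul n₂,
    ← ENNReal.ofReal_mul n₁, ← ENNReal.ofReal_add (by positivity) (by positivity),
    ← ENNReal.ofReal_ofNat 2, ← ENNReal.ofReal_mul (by norm_num)]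
  refine ENNReal.ofReal_le_ofReal ?_
  have := mul_nonneg (sq_nonneg (φ y - 2 * φ (z.1, y.2) + φ z)) (mul_nonneg n₁ n₂)
  nlinarith

end Mark2

open Mark2

theorem mark2_ok (h1 : StKer1) (h3 : StKer3) (h4 : StMark) : StMark2 := by
  intro d f α β δ t r hf hα hβ hr hδ0 hδ ht hO hyp
  have hO' : bxc d.τ (1 / 2) ⊆ d.O := (bxc_mono _ (by norm_num) (by norm_num)).trans hO
  have R := reg_bx hO'
  have k₁ := mk_kk h1 h3 d.τ.1 hr hδ
  have k₂ := mk_kk h1 h3 d.τ.2 hr hδ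
  have lc : Lc d fun p => 8 * δ ^ 2 * α p ^ 2 + 16 * δ * β p :=
    Lc.comp₂ (Φ := fun q => 8 * δ ^ 2 * q.1 ^ 2 + 16 * δ * q.2) (by fun_prop) hα hβ
  have iΦ := lc.integrableOn R ht
  have nΦ : ∀ y ∈ bx d.τ (1 / 2), 0 ≤ 8 * δ ^ 2 * α (t, y) ^ 2 + 16 * δ * β (t, y) := fun y hy =>
    add_nonneg (by positivity) (mul_nonneg (by positivity) (hyp y hy).2.2.1)
  have sl : ∀ {g : X → ℝ}, Lc d g → ContinuousOn (fun y => g (t, y)) (bx d.τ (1 / 2)) :=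
    fun hg => (hg.slice ht).mono R.sub
  have c₁ : ∀ {g : X → ℝ}, Lc d g → ∀ v ∈ iv d.τ.2 (1 / 2),
      ContinuousOn (fun x => g (t, x, v)) (iv d.τ.1 (1 / 2)) := fun hg v hv =>
    (sl hg).comp (f := fun x => (x, v)) (by fun_prop) fun x hx => ⟨hx, hv⟩
  have c₂ : ∀ {g : X → ℝ}, Lc d g → ∀ x ∈ iv d.τ.1 (1 / 2),
      ContinuousOn (fun v => g (t, x, v)) (iv d.τ.2 (1 / 2)) := fun hg x hx =>
    (sl hg).comp (f := fun v => (x, v)) (by fun_prop) fun v hv => ⟨hx, hv⟩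
  have key := core k₁ k₂ (φ := fun y => f (t, y))
    (Φ := fun y => ENNReal.ofReal (8 * δ ^ 2 * α (t, y) ^ 2 + 16 * δ * β (t, y)))
    (sl hf.lc) (fun y hy => (hyp y hy).1) iΦ.aemeasurable.ennreal_ofReal
    (fun v hv => h4 d.τ.1 δ _ _ _ (fun x => f (t, x, v)) (fun x => D e1 f (t, x, v))
      (fun x => α (t, x, v)) (fun x => β (t, x, v)) hδ0 (ms _ _) (iv_subset_ok _ _) (isOpen_iv _ _)
      (oc _ _) (sub8 _) k₁.cont k₁.pt k₁.one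
      (fun x hx => by
        obtain ⟨a1, a2, a3, a4, -⟩ := hyp (x, v) ⟨hx, sub8 _ hv⟩
        exact ⟨hasDerivAt_y1 (hf.diffAt ⟨ht, R.sub ⟨hx, sub8 _ hv⟩⟩), a1, a2, a3, a4⟩)
      (c₁ (hf.D e1).lc v (sub8 _ hv)) (c₁ hα v (sub8 _ hv)) (c₁ hβ v (sub8 _ hv)))
    (fun x hx => h4 d.τ.2 δ _ _ _ (fun v => f (t, x, v)) (fun v => D e2 f (t, x, v))
      (fun v => α (t, x, v)) (fun v => β (t, x, v)) hδ0 (ms _ _) (iv_subset_ok _ _) (isOpen_iv _ _)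
      (oc _ _) (sub8 _) k₂.cont k₂.pt k₂.one
      (fun v hv => by
        obtain ⟨a1, a2, a3, -, a5⟩ := hyp (x, v) ⟨hx, hv⟩
        exact ⟨hasDerivAt_y2 (hf.diffAt ⟨ht, R.sub ⟨hx, hv⟩⟩), a1, a2, a3, a5⟩)
      (c₂ (hf.D e2).lc x hx) (c₂ hα x hx) (c₂ hβ x hx))
  have p : 0 ≤ ∫ y in bx d.τ (1 / 2), (8 * δ ^ 2 * α (t, y) ^ 2 + 16 * δ * β (t, y)) :=
    setIntegral_nonneg R.ms nΦ
  have e : ∫ y in bx d.τ (1 / 2), (32 * δ ^ 2 * α (t, y) ^ 2 + 64 * δ * β (t, y)) =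
      4 * ∫ y in bx d.τ (1 / 2), (8 * δ ^ 2 * α (t, y) ^ 2 + 16 * δ * β (t, y)) := by
    rw [← integral_const_mul]
    congr 1
    funext y
    ring
  rw [e]
  by_cases hi : IntegrableOn (fun y => (f (t, y) - mv d.τ r r f t (tz d.τ y)) ^ 2) (bx d.τ (1 / 8))
  · rw [← ENNReal.ofReal_le_ofReal_iff (by positivity),
      ofReal_integral_eq_lintegral_ofReal hi (Eventually.of_forall fun y => sq_nonneg _),
      ENNReal.ofReal_mul (by norm_num), ENNReal.ofReal_ofNat,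
      ofReal_integral_eq_lintegral_ofReal iΦ ((ae_restrict_iff' R.ms).2 (Eventually.of_forall nΦ))]
    exact key
  · rw [integral_undef hi]
    positivity

end Pool.Agent.P.MP_2cea5e_gt.I
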