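import Pool.Agent.P.MP_2cea5e_gt.I.St3

/-!
Chapter I: the smoothing almost solves the biharmonic heat equation.
-/

open scoped ContDiff Topology
open MeasureTheory Set Filter

noncomputable section

set_option linter.dupNamespace false

namespace Pool.Agent.P.MP_2cea5e_gt.I

namespace Moll2

/-! ### Calculus on `ℂ²` -/

section Calc

variable {f g : C2 → ℝ}

theorem sm_pd (a : Fin 4) (hf : ContDiff ℝ ∞ f) : ContDiff ℝ ∞ (pd a f) :=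
  (ContDiff.fderiv_right hf (m := ∞) (by simp)).clm_apply contDiff_const

theorem pd_add (a : Fin 4) (hf : ContDiff ℝ ∞ f) (hg : ContDiff ℝ ∞ g) :
    pd a (f + g) = pd a f + pd a g := by
  funext z
  simp only [pd, Pi.add_apply]
  rw [fderiv_add (hf.differentiable (by simp) z) (hg.differentiable (by simp) z)]
  rfl

theorem pd_comm (a b : Fin 4) (hf : ContDiff ℝ ∞ f) : pd a (pd b f) = pd b (pd a f) := by
  funext p
  have h1 : ContDiffAt ℝ ∞ f p := hf.contDiffAt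
  have h2 : IsSymmSndFDerivAt ℝ f p := h1.isSymmSndFDerivAt (by
    simp only [minSmoothness_of_isRCLikeNormedField]
    exact WithTop.coe_le_coe.2 (le_top : ((2 : ℕ) : ℕ∞) ≤ ⊤))
  have h3 : DifferentiableAt ℝ (fderiv ℝ f) p :=
    (h1.fderiv_right (m := ∞) (by simp)).differentiableAt (by simp)
  have h4 : ∀ a b : Fin 4, pd a (pd b f) p = fderiv ℝ (fderiv ℝ f) p (dir a) (dir b) :=
    fun a b => by
      show fderiv ℝ (fun q => fderiv ℝ f q (dir b)) p (dir a) = _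
      rw [fderiv_clm_apply h3 (differentiableAt_const _)]
      simp
  rw [h4, h4, h2.eq]

theorem lap_eq (f : C2 → ℝ) :
    lap f = pd 0 (pd 0 f) + pd 1 (pd 1 f) + pd 2 (pd 2 f) + pd 3 (pd 3 f) := by
  funext z
  simp [lap, Fin.sum_univ_four]

theorem sm_add' (hf : ContDiff ℝ ∞ f) (hg : ContDiff ℝ ∞ g) : ContDiff ℝ ∞ (f + g) := hf.add hg

theorem sm_lap (hf : ContDiff ℝ ∞ f) : ContDiff ℝ ∞ (lap f) := by
  rw [lap_eq]
  have h := fun a => sm_pd a (sm_pd a hf)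
  exact sm_add' (sm_add' (sm_add' (h 0) (h 1)) (h 2)) (h 3)

theorem lap_add (hf : ContDiff ℝ ∞ f) (hg : ContDiff ℝ ∞ g) : lap (f + g) = lap f + lap g := by
  funext z
  simp only [lap, Pi.add_apply, ← Finset.sum_add_distrib]
  refine Finset.sum_congr rfl fun a _ => ?_
  rw [pd_add a hf hg, pd_add a (sm_pd a hf) (sm_pd a hg)]
  rfl

theorem pd_lap (a : Fin 4) (hf : ContDiff ℝ ∞ f) : pd a (lap f) = lap (pd a f) := by
  have h := fun a => sm_pd a (sm_pd a hf)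
  have e : ∀ b, pd a (pd b (pd b f)) = pd b (pd b (pd a f)) := fun b => by
    rw [pd_comm a b (sm_pd b hf), pd_comm a b hf]
  rw [lap_eq, lap_eq, pd_add a (sm_add' (sm_add' (h 0) (h 1)) (h 2)) (h 3),
    pd_add a (sm_add' (h 0) (h 1)) (h 2), pd_add a (h 0) (h 1), e, e, e, e]

theorem sm_pdl (l : List (Fin 4)) (hf : ContDiff ℝ ∞ f) : ContDiff ℝ ∞ (pdl l f) := by
  induction l with
  | nil => exact hf
  | cons a l ih => exact sm_pd a ih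

theorem pdl_eq (l : List (Fin 4)) (hf : ContDiff ℝ ∞ f) (hg : ContDiff ℝ ∞ g) :
    pdl l (f + lap (lap g)) = pdl l f + lap (lap (pdl l g)) := by
  induction l with
  | nil => rfl
  | cons a l ih =>
    simp only [pdl]
    rw [ih, pd_add a (sm_pdl l hf) (sm_lap (sm_lap (sm_pdl l hg))),
      pd_lap a (sm_lap (sm_pdl l hg)), pd_lap a (sm_pdl l hg)]

end Calc

/-! ### Functions of one variable -/

/-- Smooth on the admissible range. -/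
abbrev S1 (b : Bool) (k : ℝ → ℝ) : Prop := ContDiffOn ℝ ∞ k (ok b)

/-- Vanishing far from the origin. -/
def Vn (b : Bool) (k : ℝ → ℝ) : Prop := ∀ y ∈ ok b, 3 / 10 < |th b y| → k y = 0

section One

variable {b : Bool} {k k' : ℝ → ℝ} {y : ℝ}

theorem S1.diff (h : S1 b k) (hy : y ∈ ok b) : DifferentiableAt ℝ k y :=
  (h.contDiffAt ((isOpen_ok b).mem_nhds hy)).differentiableAt (by simp)

theorem S1.der (h : S1 b k) : S1 b (deriv k) :=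
  ContDiffOn.deriv_of_isOpen h (isOpen_ok b) (m := ∞) (by simp)

theorem S1.om_mul (h : S1 b k) : S1 b fun x => om b x * k x := (sm_om b).contDiffOn.mul h

theorem der_congr (h : ∀ x ∈ ok b, k x = k' x) (hy : y ∈ ok b) : deriv k y = deriv k' y :=
  EventuallyEq.deriv_eq (eventually_of_mem ((isOpen_ok b).mem_nhds hy) h)

theorem cont_th (b : Bool) : Continuous (th b) := by
  cases b
  · exact continuous_id
  · exact continuous_const.mul Real.continuous_sqrt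

theorem Vn.der (h : Vn b k) : Vn b (deriv k) := fun y hy h3 => by
  have ho : IsOpen (ok b ∩ {x | 3 / 10 < |th b x|}) :=
    (isOpen_ok b).inter (isOpen_lt continuous_const (cont_th b).abs)
  have e : k =ᶠ[𝓝 y] fun _ => 0 :=
    eventually_of_mem (ho.mem_nhds ⟨hy, h3⟩) fun x hx => h x hx.1 hx.2
  rw [e.deriv_eq, deriv_const]

theorem far (hy : y ∈ ok b) (h : y ∉ iv b (1 / 2)) : 3 / 10 < |th b y| := by
  cases b
  · simp only [iv, th, Bool.false_eq_true, if_false, mem_Ioo, not_and_or, not_lt] at h ⊢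
    rcases h with h | h
    · rw [abs_of_neg (by linarith)]; linarith
    · rw [abs_of_pos (by linarith)]; linarith
  · simp only [iv, th, ok, if_true, mem_Ioo, mem_Ioi, not_and_or, not_lt] at h hy ⊢
    have h1 : (1 / 2 : ℝ) ^ 2 ≤ y := h.resolve_left (by linarith)
    have h2 : (1 / 2 : ℝ) ≤ √y := Real.le_sqrt_of_sq_le h1
    rw [abs_of_pos (by linarith)]; linarith

theorem om_sq (h : S1 b k) (hy : y ∈ ok b) :
    deriv (fun x => om b x * (om b x * deriv (deriv k) x)) y =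
      om b y * deriv (deriv fun x => om b x * deriv k x) y := by
  cases b
  · simp [om]
  · have e1 : ∀ x ∈ ok true, deriv (fun x => om true x * deriv k x) x =
        deriv k x + x * deriv (deriv k) x := fun x hx => by
      have := (hasDerivAt_id x).mul (h.der.diff hx).hasDerivAt
      refine Eq.trans this.deriv ?_
      simp
    rw [der_congr e1 hy]
    have d2 := (h.der.diff hy).hasDerivAt
    have d3 := (h.der.der.diff hy).hasDerivAt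
    have a1 := (hasDerivAt_id y).mul ((hasDerivAt_id y).mul d3)
    have a2 := d2.add ((hasDerivAt_id y).mul d3)
    have b1 : deriv (fun x => om true x * (om true x * deriv (deriv k) x)) y = _ := a1.deriv
    have b2 : deriv (fun x => deriv k x + x * deriv (deriv k) x) y = _ := a2.deriv
    rw [b1, b2]
    simp only [om, if_true, id, Pi.mul_apply]
    ring

end One

/-- The two second derivatives of a test function. -/
def d1 (r : ℂ → ℝ) : ℂ → ℝ := dc 1 (dc 1 r)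
def d2 (r : ℂ → ℝ) : ℂ → ℝ := dc Complex.I (dc Complex.I r)

section Ker

variable {δ : ℝ} {r : ℂ → ℝ}

theorem tst_dc (h5 : StKer1) (h : Tst δ r) (v : ℂ) : Tst δ (dc v r) := (h5 true δ r h).1 v
theorem tst_d1 (h5 : StKer1) (h : Tst δ r) : Tst δ (d1 r) := tst_dc h5 (tst_dc h5 h _) _
theorem tst_d2 (h5 : StKer1) (h : Tst δ r) : Tst δ (d2 r) := tst_dc h5 (tst_dc h5 h _) _

theorem s1_kk (h5 : StKer1) (h : Tst δ r) (b : Bool) (Z : ℂ) : S1 b (kk b r Z) := by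
  obtain ⟨g, hg, -, e⟩ := (h5 b δ r h).2.2.2.2.1 Z
  refine ContDiffOn.congr ?_ e
  cases b
  · simpa using hg.contDiffOn
  · simp only [if_true]
    exact hg.comp_contDiffOn (contDiffOn_id.sqrt fun x hx => ne_of_gt hx)

theorem vn_kk (h5 : StKer1) (h : Tst δ r) (hδ : δ ≤ 1 / 20) (b : Bool) {Z : ℂ}
    (hZ : ‖Z‖ < 1 / 4) : Vn b (kk b r Z) := fun y hy h3 => by
  by_contra hne
  have h1 := (h5 b δ r h).2.2.2.1 Z y hy hne
  have h2 : |if b then ‖Z‖ else Z.re| ≤ ‖Z‖ := by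
    cases b
    · simpa using Complex.abs_re_le_norm Z
    · simp
  have h4 := abs_sub_abs_le_abs_sub (th b y) (if b then ‖Z‖ else Z.re)
  linarith

theorem LL_kk (h5 : StKer1) (h6 : StKer2) (h : Tst δ r) (b : Bool) (Z : ℂ) {y : ℝ}
    (hy : y ∈ ok b) :
    deriv (deriv fun x => om b x * (om b x * deriv (deriv (kk b r Z)) x)) y =
      kk b (d1 (d1 r)) Z y + kk b (d2 (d1 r)) Z y +
        (kk b (d1 (d2 r)) Z y + kk b (d2 (d2 r)) Z y) := by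
  have s1 := s1_kk h5 (tst_d1 h5 h) b Z
  have s2 := s1_kk h5 (tst_d2 h5 h) b Z
  have e1 : ∀ x ∈ ok b, deriv (fun x => om b x * (om b x * deriv (deriv (kk b r Z)) x)) x =
      om b x * deriv (kk b (d1 r) Z) x + om b x * deriv (kk b (d2 r) Z) x := fun x hx => by
    rw [om_sq (s1_kk h5 h b Z) hx, der_congr ((h6 b δ r h).1 Z) hx, ← mul_add]
    congr 1
    exact ((s1.diff hx).hasDerivAt.add (s2.diff hx).hasDerivAt).deriv
  rw [der_congr e1 hy]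
  have e2 := ((s1.der.om_mul.diff hy).hasDerivAt.add (s2.der.om_mul.diff hy).hasDerivAt).deriv
  refine Eq.trans e2 ?_
  rw [(h6 b δ _ (tst_d1 h5 h)).1 Z y hy, (h6 b δ _ (tst_d2 h5 h)).1 Z y hy]
  rfl

end Ker

/-! ### Products -/

/-- A product of functions of the two space variables. -/
def PP (a b : ℝ → ℝ) : X → ℝ := fun p => a p.2.1 * b p.2.2

section Prod

variable {d : Dm} {a b : ℝ → ℝ} {f : X → ℝ}

theorem PP_diff {p : X} (ha : DifferentiableAt ℝ a p.2.1) (hb : DifferentiableAt ℝ b p.2.2) :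
    DifferentiableAt ℝ (PP a b) p :=
  (ha.comp p (f := fun q : X => q.2.1) (by fun_prop)).mul
    (hb.comp p (f := fun q : X => q.2.2) (by fun_prop))

theorem D1_PP (ha : S1 d.τ.1 a) (hb : S1 d.τ.2 b) (e : EqOn f (PP a b) d.U) :
    EqOn (D e1 f) (PP (deriv a) b) d.U := fun p hp => by
  rw [D_congr d.isOpen_U e1 e hp]
  have h1 := ha.diff hp.2.2.1
  have h2 := hb.diff hp.2.2.2
  exact (hasDerivAt_y1 (t := p.1) (a := p.2.1) (b := p.2.2) (PP_diff h1 h2)).unique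
    (h1.hasDerivAt.mul_const (b p.2.2))

theorem D2_PP (ha : S1 d.τ.1 a) (hb : S1 d.τ.2 b) (e : EqOn f (PP a b) d.U) :
    EqOn (D e2 f) (PP a (deriv b)) d.U := fun p hp => by
  rw [D_congr d.isOpen_U e2 e hp]
  have h1 := ha.diff hp.2.2.1
  have h2 := hb.diff hp.2.2.2
  exact (hasDerivAt_y2 (t := p.1) (a := p.2.1) (b := p.2.2) (PP_diff h1 h2)).unique
    (h2.hasDerivAt.const_mul (a p.2.1))

theorem h11_PP (ha : S1 d.τ.1 a) (hb : S1 d.τ.2 b) (e : EqOn f (PP a b) d.U) :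
    EqOn (h11 f) (PP (deriv (deriv a)) b) d.U := D1_PP ha.der hb (D1_PP ha hb e)
theorem h12_PP (ha : S1 d.τ.1 a) (hb : S1 d.τ.2 b) (e : EqOn f (PP a b) d.U) :
    EqOn (h12 f) (PP (deriv a) (deriv b)) d.U := D1_PP ha hb.der (D2_PP ha hb e)
theorem h22_PP (ha : S1 d.τ.1 a) (hb : S1 d.τ.2 b) (e : EqOn f (PP a b) d.U) :
    EqOn (h22 f) (PP a (deriv (deriv b))) d.U := D2_PP ha hb.der (D2_PP ha hb e)

theorem mem_U {t : ℝ} (ht : t ∈ d.I) (hO : bxc d.τ 1 ⊆ d.O) {y : ℝ × ℝ} (hy : y ∈ bx d.τ 1) :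
    ((t, y) : X) ∈ d.U := ⟨ht, (reg_bx hO).sub hy⟩

theorem zero_PP {t : ℝ} (ht : t ∈ d.I) (hO : bxc d.τ 1 ⊆ d.O) (ha : Vn d.τ.1 a)
    (hb : Vn d.τ.2 b) (e : EqOn f (PP a b) d.U) :
    ∀ y ∈ bx d.τ 1, y ∉ bx d.τ (1 / 2) → f (t, y) = 0 := fun y hy hn => by
  have hp := mem_U ht hO hy
  rw [e hp]
  show a y.1 * b y.2 = 0
  by_cases h1 : y.1 ∈ iv d.τ.1 (1 / 2)
  · rw [hb _ hp.2.2.2 (far hp.2.2.2 fun h2 => hn ⟨h1, h2⟩), mul_zero]
  · rw [ha _ hp.2.2.1 (far hp.2.2.1 h1), zero_mul]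

theorem van_PP {t : ℝ} (ht : t ∈ d.I) (hO : bxc d.τ 1 ⊆ d.O) (ha : Vn d.τ.1 a)
    (hb : Vn d.τ.2 b) (e : EqOn f (PP a b) d.U) : Van d.τ f t :=
  ⟨1 / 2, by norm_num, by norm_num, zero_PP ht hO ha hb e⟩

end Prod

/-- The kernel of the smoothing. -/
def KK (τ : Ty) (Z : C2) (r₁ r₂ : ℂ → ℝ) : X → ℝ := PP (kk τ.1 r₁ (Z 0)) (kk τ.2 r₂ (Z 1))

/-- The kernel of the Laplacian of the smoothing. -/
def LK (τ : Ty) (Z : C2) (r₁ r₂ : ℂ → ℝ) : X → ℝ :=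
  KK τ Z (d1 r₁) r₂ + KK τ Z (d2 r₁) r₂ + KK τ Z r₁ (d1 r₂) + KK τ Z r₁ (d2 r₂)

/-- The kernel of the bilaplacian of the smoothing. -/
def BK (τ : Ty) (Z : C2) (r₁ r₂ : ℂ → ℝ) : X → ℝ :=
  LK τ Z (d1 r₁) r₂ + LK τ Z (d2 r₁) r₂ + LK τ Z r₁ (d1 r₂) + LK τ Z r₁ (d2 r₂)

section Main

variable {d : Dm} {δ t : ℝ} {r₁ r₂ : ℂ → ℝ} {f : X → ℝ}

theorem bd_KK (h4 : StEven) (h5 : StKer1) (t₁ : Tst δ r₁) (t₂ : Tst δ r₂) (Z : C2) :
    Bd d (KK d.τ Z r₁ r₂) := by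
  obtain ⟨g₁, s₁, v₁, e₁⟩ := (h5 d.τ.1 δ r₁ t₁).2.2.2.2.1 (Z 0)
  obtain ⟨g₂, s₂, v₂, e₂⟩ := (h5 d.τ.2 δ r₂ t₂).2.2.2.2.1 (Z 1)
  have hs : ContDiff ℝ ∞ (PP g₁ g₂) :=
    (s₁.comp (contDiff_fst.comp contDiff_snd)).mul (s₂.comp (contDiff_snd.comp contDiff_snd))
  refine (h4.2.2 d (PP g₁ g₂) hs.contDiffOn (fun h p _ => ?_) (fun h p _ => ?_)).1.congr
    fun p hp => ?_
  · simp only [PP, v₁ h]
  · simp only [PP, v₂ h]
  · simp only [KK, PP, Function.comp, rt2, e₁ _ hp.2.2.1, e₂ _ hp.2.2.2]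

theorem bd_LK (h4 : StEven) (h5 : StKer1) (t₁ : Tst δ r₁) (t₂ : Tst δ r₂) (Z : C2) :
    Bd d (LK d.τ Z r₁ r₂) :=
  (((bd_KK h4 h5 (tst_d1 h5 t₁) t₂ Z).add (bd_KK h4 h5 (tst_d2 h5 t₁) t₂ Z)).add
    (bd_KK h4 h5 t₁ (tst_d1 h5 t₂) Z)).add (bd_KK h4 h5 t₁ (tst_d2 h5 t₂) Z)

theorem int4 (hf : Bd d f) (ht : t ∈ d.I) (hO : bxc d.τ 1 ⊆ d.O) {k₁ k₂ k₃ k₄ : X → ℝ}
    (b₁ : Bd d k₁) (b₂ : Bd d k₂) (b₃ : Bd d k₃) (b₄ : Bd d k₄) :
    (∫ y in bx d.τ 1, (f * k₁) (t, y)) + (∫ y in bx d.τ 1, (f * k₂) (t, y)) +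
      (∫ y in bx d.τ 1, (f * k₃) (t, y)) + (∫ y in bx d.τ 1, (f * k₄) (t, y)) =
      ∫ y in bx d.τ 1, (f * (k₁ + k₂ + k₃ + k₄)) (t, y) := by
  have i := fun {k : X → ℝ} (hk : Bd d k) => (hf.mul hk).lc.integrableOn (reg_bx hO) ht
  have j : ∀ {k k' : X → ℝ}, Bd d k → Bd d k' → ∫ y in bx d.τ 1, (f * (k + k')) (t, y) =
      (∫ y in bx d.τ 1, (f * k) (t, y)) + ∫ y in bx d.τ 1, (f * k') (t, y) := fun hk hk' => by
    rw [← integral_add (i hk) (i hk'), mul_add]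
    rfl
  rw [j ((b₁.add b₂).add b₃) b₄, j (b₁.add b₂) b₃, j b₁ b₂]

theorem lap_mv (h5 : StKer1) (h7 : StMoll1) (hf : Bd d f) (ht : t ∈ d.I) (hO : bxc d.τ 1 ⊆ d.O)
    (t₁ : Tst δ r₁) (t₂ : Tst δ r₂) :
    lap (mv d.τ r₁ r₂ f t) = mv d.τ (d1 r₁) r₂ f t + mv d.τ (d2 r₁) r₂ f t +
      mv d.τ r₁ (d1 r₂) f t + mv d.τ r₁ (d2 r₂) f t := by
  have m := fun {a b : ℂ → ℝ} (ha : Tst δ a) (hb : Tst δ b) => (h7 d f δ a b hf ha hb hO).2.2 t ht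
  rw [lap_eq, (m t₁ t₂).1, (m t₁ t₂).2.1, (m t₁ t₂).2.2.1, (m t₁ t₂).2.2.2,
    (m (tst_dc h5 t₁ _) t₂).1, (m (tst_dc h5 t₁ _) t₂).2.1, (m t₁ (tst_dc h5 t₂ _)).2.2.1,
    (m t₁ (tst_dc h5 t₂ _)).2.2.2]
  rfl

theorem lap_mv_int (h4 : StEven) (h5 : StKer1) (h7 : StMoll1) (hf : Bd d f) (ht : t ∈ d.I)
    (hO : bxc d.τ 1 ⊆ d.O) (t₁ : Tst δ r₁) (t₂ : Tst δ r₂) (Z : C2) :
    lap (mv d.τ r₁ r₂ f t) Z = ∫ y in bx d.τ 1, (f * LK d.τ Z r₁ r₂) (t, y) := by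
  rw [lap_mv h5 h7 hf ht hO t₁ t₂]
  exact int4 hf ht hO (bd_KK h4 h5 (tst_d1 h5 t₁) t₂ Z) (bd_KK h4 h5 (tst_d2 h5 t₁) t₂ Z)
    (bd_KK h4 h5 t₁ (tst_d1 h5 t₂) Z) (bd_KK h4 h5 t₁ (tst_d2 h5 t₂) Z)

theorem bilap_mv (h4 : StEven) (h5 : StKer1) (h7 : StMoll1) (hf : Bd d f) (ht : t ∈ d.I)
    (hO : bxc d.τ 1 ⊆ d.O) (t₁ : Tst δ r₁) (t₂ : Tst δ r₂) (Z : C2) :
    lap (lap (mv d.τ r₁ r₂ f t)) Z = ∫ y in bx d.τ 1, (f * BK d.τ Z r₁ r₂) (t, y) := by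
  have s := fun {a b : ℂ → ℝ} (ha : Tst δ a) (hb : Tst δ b) =>
    (h7 d f δ a b hf ha hb hO).1.sm t ht
  have a1 := tst_d1 h5 t₁
  have a2 := tst_d2 h5 t₁
  have b1 := tst_d1 h5 t₂
  have b2 := tst_d2 h5 t₂
  rw [lap_mv h5 h7 hf ht hO t₁ t₂,
    lap_add (sm_add' (sm_add' (s a1 t₂) (s a2 t₂)) (s t₁ b1)) (s t₁ b2),
    lap_add (sm_add' (s a1 t₂) (s a2 t₂)) (s t₁ b1), lap_add (s a1 t₂) (s a2 t₂)]
  simp only [Pi.add_apply]
  rw [lap_mv_int h4 h5 h7 hf ht hO a1 t₂, lap_mv_int h4 h5 h7 hf ht hO a2 t₂,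
    lap_mv_int h4 h5 h7 hf ht hO t₁ b1, lap_mv_int h4 h5 h7 hf ht hO t₁ b2]
  exact int4 hf ht hO (bd_LK h4 h5 a1 t₂ Z) (bd_LK h4 h5 a2 t₂ Z) (bd_LK h4 h5 t₁ b1 Z)
    (bd_LK h4 h5 t₁ b2 Z)

/-- The weighted Hessian of a function. -/
def wH (τ : Ty) (k : X → ℝ) : T2 :=
  ⟨o1 τ * o1 τ * h11 k, o1 τ * o2 τ * h12 k, o2 τ * o2 τ * h22 k⟩

theorem wH_dd (h5 : StKer1) (h6 : StKer2) (t₁ : Tst δ r₁) (t₂ : Tst δ r₂) (Z : C2) :
    EqOn (wH d.τ (KK d.τ Z r₁ r₂)).dd (BK d.τ Z r₁ r₂) d.U := fun p hp => by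
  have s₁ := s1_kk h5 t₁ d.τ.1 (Z 0)
  have s₂ := s1_kk h5 t₂ d.τ.2 (Z 1)
  have e0 : EqOn (KK d.τ Z r₁ r₂) (PP _ _) d.U := fun _ _ => rfl
  have ea := h11_PP (f := (wH d.τ (KK d.τ Z r₁ r₂)).a) s₁.der.der.om_mul.om_mul s₂
    (fun q hq => by
      simp only [wH, Pi.mul_apply, h11_PP s₁ s₂ e0 hq, PP, o1]; ring) hp
  have eb := h12_PP (f := (wH d.τ (KK d.τ Z r₁ r₂)).b) s₁.der.om_mul s₂.der.om_mul
    (fun q hq => by
      simp only [wH, Pi.mul_apply, h12_PP s₁ s₂ e0 hq, PP, o1, o2]; ring) hp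
  have ec := h22_PP (f := (wH d.τ (KK d.τ Z r₁ r₂)).c) s₁ s₂.der.der.om_mul.om_mul
    (fun q hq => by
      simp only [wH, Pi.mul_apply, h22_PP s₁ s₂ e0 hq, PP, o2]; ring) hp
  simp only [T2.dd, Pi.add_apply, Pi.mul_apply, K_apply, ea, eb, ec, PP]
  rw [LL_kk h5 h6 t₁ _ _ hp.2.2.1, LL_kk h5 h6 t₂ _ _ hp.2.2.2,
    (h6 _ δ r₁ t₁).1 _ _ hp.2.2.1, (h6 _ δ r₂ t₂).1 _ _ hp.2.2.2]
  simp only [BK, LK, KK, PP, Pi.add_apply, d1, d2]
  ring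

theorem alg_bound {o o' A B C G k₁ k₂ k₃ : ℝ} (ho : 0 < o) (ho' : 0 < o')
    (hW : 0 < o * A * (o' * C) - (√(o * o') * B) ^ 2)
    (g1 : |o' * C / (o * A * (o' * C) - (√(o * o') * B) ^ 2) - 1 + (o * A - 1)| ≤ G)
    (g2 : |-(√(o * o') * B) / (o * A * (o' * C) - (√(o * o') * B) ^ 2) + √(o * o') * B| ≤ G)
    (g3 : |o * A / (o * A * (o' * C) - (√(o * o') * B) ^ 2) - 1 + (o' * C - 1)| ≤ G) :
    |(C * (A * C - B * B)⁻¹ - o) * k₁ + 2 * -(B * (A * C - B * B)⁻¹) * k₂ +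
        (A * (A * C - B * B)⁻¹ - o') * k₃ +
      (o * o * k₁ * (A - o⁻¹) + 2 * (o * o' * k₂) * B + o' * o' * k₃ * (C - o'⁻¹))| ≤
      G * (|o * k₁| + 2 * |√(o * o') * k₂| + |o' * k₃|) := by
  have hs : √(o * o') * √(o * o') = o * o' := Real.mul_self_sqrt (by positivity)
  have hD : o * A * (o' * C) - (√(o * o') * B) ^ 2 = o * o' * (A * C - B * B) := by
    rw [mul_pow, sq, hs]; ring
  rw [hD] at hW g1 g2 g3
  have hW' : A * C - B * B ≠ 0 := fun h => by rw [h, mul_zero] at hW; exact lt_irrefl _ hW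
  generalize A * C - B * B = V at *
  have e2 : (-(√(o * o') * B) / (o * o' * V) + √(o * o') * B) * (√(o * o') * k₂) =
      -(B * V⁻¹) * k₂ + o * o' * k₂ * B := by
    have : (-(√(o * o') * B) / (o * o' * V) + √(o * o') * B) * (√(o * o') * k₂) =
        (√(o * o') * √(o * o')) * ((-B / (o * o' * V) + B) * k₂) := by ring
    rw [this, hs]
    field_simp
  have e : (C * V⁻¹ - o) * k₁ + 2 * -(B * V⁻¹) * k₂ + (A * V⁻¹ - o') * k₃ +
      (o * o * k₁ * (A - o⁻¹) + 2 * (o * o' * k₂) * B + o' * o' * k₃ * (C - o'⁻¹)) =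
      (o' * C / (o * o' * V) - 1 + (o * A - 1)) * (o * k₁) +
      2 * ((-(√(o * o') * B) / (o * o' * V) + √(o * o') * B) * (√(o * o') * k₂)) +
      (o * A / (o * o' * V) - 1 + (o' * C - 1)) * (o' * k₃) := by
    rw [e2]
    field_simp
    ring
  rw [e]
  refine (abs_add_three _ _ _).trans ?_
  rw [abs_mul, abs_mul 2, abs_mul _ (√(o * o') * k₂), abs_mul _ (o' * k₃), abs_two]
  have m1 := mul_le_mul_of_nonneg_right g1 (abs_nonneg (o * k₁))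
  have m2 := mul_le_mul_of_nonneg_right g2 (abs_nonneg (√(o * o') * k₂))
  have m3 := mul_le_mul_of_nonneg_right g3 (abs_nonneg (o' * k₃))
  linarith

theorem gex_nn (h1 : StApi) (h2 : StAlg) {u : X → ℝ} (hu : GS0 d u) {p : X} (hp : p ∈ d.U) :
    0 ≤ gex d.τ u p := by
  have A := h1 d u hu
  rw [A.gx2 p hp]
  exact (h2.1 _ _ _ (A.gx1 p hp).1 (A.gx1 p hp).2).1

theorem pt_bound (h1 : StApi) (h2 : StAlg) {u : X → ℝ} (hu : GS0 d u) (k : X → ℝ) {p : X}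
    (hp : p ∈ d.U) :
    |(nn d.τ u).ctr k p + (wH d.τ k).ctr (wv d.τ u) p| ≤ gex d.τ u p *
      (|o1 d.τ p * h11 k p| + 2 * |√(o1 d.τ p * o2 d.τ p) * h12 k p| + |o2 d.τ p * h22 k p|) := by
  have A := h1 d u hu
  obtain ⟨g1, g2, g3⟩ := (h2.1 _ _ _ (A.gx1 p hp).1 (A.gx1 p hp).2).2.2.2.1
  rw [← A.gx2 p hp] at g1 g2 g3
  have := alg_bound (k₁ := h11 k p) (k₂ := h12 k p) (k₃ := h22 k p) (d.o1_pos hp) (d.o2_pos hp)
    (A.gx1 p hp).2 g1 g2 g3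
  have q1 : h11 (wv d.τ u) p = h11 u p - (o1 d.τ p)⁻¹ := by rw [A.q11 p hp]; ring
  have q2 : h12 (wv d.τ u) p = h12 u p := (A.q12 p hp).symm
  have q3 : h22 (wv d.τ u) p = h22 u p - (o2 d.τ p)⁻¹ := by rw [A.q22 p hp]; ring
  have hW : W u p = h11 u p * h22 u p - h12 u p * h12 u p := rfl
  simp only [T2.ctr, nn, wH, i11, i12, i22, Pi.add_apply, Pi.mul_apply, Pi.sub_apply,
    Pi.neg_apply, K_apply, Iv_apply, q1, q2, q3, hW]
  exact this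

theorem core (h1 : StApi) (h2 : StAlg) (h3 : StIBP2) (h4 : StEven) (h5 : StKer1) (h6 : StKer2)
    (h7 : StMoll1) (τ : Ty) (hδ : δ ≤ 1 / 20) (t₁ : Tst δ r₁) (t₂ : Tst δ r₂) :
    ∃ C, 0 ≤ C ∧ ∀ d u F t, d.τ = τ → SS 1 d u F t → ∀ Z ∈ Metric.ball (0 : C2) (1 / 4),
      |(mv τ r₁ r₂ (D e0 (wv τ u)) t + lap (lap (mv τ r₁ r₂ (wv τ u) t))) Z| ≤
        C * ∫ y in bx τ (1 / 2), gex τ u (t, y) := by
  obtain ⟨A₁, hA₁⟩ := (h5 τ.1 δ r₁ t₁).2.2.2.2.2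
  obtain ⟨A₂, hA₂⟩ := (h5 τ.2 δ r₂ t₂).2.2.2.2.2
  obtain ⟨B₁, hB₁⟩ := (h6 τ.1 δ r₁ t₁).2
  obtain ⟨B₂, hB₂⟩ := (h6 τ.2 δ r₂ t₂).2
  refine ⟨|B₁| * |A₂| + (|B₁| + |B₂|) + |A₁| * |B₂|, by positivity, ?_⟩
  rintro d u F t rfl ⟨hg, ht, hO⟩ Z hZ
  have hu := hg.toGS0
  have A := h1 d u hu
  have hn : ∀ j, ‖Z j‖ < 1 / 4 := fun j =>
    (norm_le_pi_norm Z j).trans_lt (mem_ball_zero_iff.1 hZ)
  have s₁ := s1_kk h5 t₁ d.τ.1 (Z 0)
  have s₂ := s1_kk h5 t₂ d.τ.2 (Z 1)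
  have v₁ := vn_kk h5 t₁ hδ d.τ.1 (hn 0)
  have v₂ := vn_kk h5 t₂ hδ d.τ.2 (hn 1)
  set k := KK d.τ Z r₁ r₂ with hk
  have bk : Bd d k := bd_KK h4 h5 t₁ t₂ Z
  have e0' : EqOn k (PP _ _) d.U := fun _ _ => rfl
  have e11 := h11_PP s₁ s₂ e0'
  have e12 := h12_PP s₁ s₂ e0'
  have e22 := h22_PP s₁ s₂ e0'
  have b11 : Bd d (h11 k) := (bk.D e1).D e1
  have b12 : Bd d (h12 k) := (bk.D e2).D e1
  have b22 : Bd d (h22 k) := (bk.D e2).D e2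
  obtain ⟨k₁, k₂, k₃, hnt⟩ := A.nt
  have i1 := (h3 d _ _ _ _ t hnt ht hO).1 k bk (Or.inl (van_PP ht hO v₁ v₂ e0'))
  have hnt' : NT d (wH d.τ k) (h11 k) (h12 k) (h22 k) :=
    ⟨b11, b12, b22, fun _ _ => rfl, fun _ _ => rfl, fun _ _ => rfl⟩
  have i2 := (h3 d _ _ _ _ t hnt' ht hO).1 _ hu.bd (Or.inr ⟨van_PP ht hO v₁.der.der v₂ e11,
    van_PP ht hO v₁.der v₂.der e12, van_PP ht hO v₁ v₂.der.der e22⟩)
  have hm := (isOpen_bx d.τ 1).measurableSet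
  have j1 : mv d.τ r₁ r₂ (D e0 (wv d.τ u)) t Z = ∫ y in bx d.τ 1, (nn d.τ u).ctr k (t, y) := by
    rw [i1]
    refine setIntegral_congr_fun hm fun y hy => ?_
    have hp := mem_U ht hO hy
    simp only [Pi.mul_apply, A.ddn _ hp, A.q0 _ hp]
    exact mul_comm _ _
  have j2 : lap (lap (mv d.τ r₁ r₂ (wv d.τ u) t)) Z =
      ∫ y in bx d.τ 1, (wH d.τ k).ctr (wv d.τ u) (t, y) := by
    rw [i2, bilap_mv h4 h5 h7 hu.bd ht hO t₁ t₂]
    refine setIntegral_congr_fun hm fun y hy => ?_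
    simp only [Pi.mul_apply, hk, wH_dd h5 h6 t₁ t₂ Z (mem_U ht hO hy)]
  have c1 : Bd d ((nn d.τ u).ctr k) :=
    (((A.bi11.sub bd_o1).mul b11).add (((bd_K 2).mul A.bi12).mul b12)).add
      ((A.bi22.sub bd_o2).mul b22)
  have c2 : Bd d ((wH d.τ k).ctr (wv d.τ u)) :=
    ((((bd_o1.mul bd_o1).mul b11).mul ((hu.bd.D e1).D e1)).add
      (((bd_K 2).mul ((bd_o1.mul bd_o2).mul b12)).mul ((hu.bd.D e2).D e1))).add
      (((bd_o2.mul bd_o2).mul b22).mul ((hu.bd.D e2).D e2))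
  have hsub : bx d.τ (1 / 2) ⊆ bx d.τ 1 := bx_mono _ (by norm_num) (by norm_num)
  have hr : Reg d (bx d.τ (1 / 2)) := (reg_bx hO).mono (isOpen_bx _ _).measurableSet hsub
  rw [Pi.add_apply, j1, j2, ← integral_add (c1.lc.integrableOn (reg_bx hO) ht)
    (c2.lc.integrableOn (reg_bx hO) ht),
    setIntegral_eq_of_subset_of_forall_sdiff_eq_zero hm hsub, ← integral_const_mul]
  · refine (abs_integral_le_integral_abs).trans (setIntegral_mono_on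
      ((c1.add c2).lc.abs.integrableOn hr ht) ((A.bg.lc.integrableOn hr ht).const_mul _) hr.ms
      fun y hy => ?_)
    have hp := mem_U ht hO (hsub hy)
    refine (pt_bound h1 h2 hu k hp).trans ?_
    rw [mul_comm]
    refine mul_le_mul_of_nonneg_right ?_ (gex_nn h1 h2 hu hp)
    have y1 := hp.2.2.1
    have y2 := hp.2.2.2
    rw [e11 hp, e12 hp, e22 hp]
    simp only [PP, o1, o2]
    have a1 := (hA₁ (Z 0) _ y1).trans (le_abs_self _)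
    have a2 := (hA₂ (Z 1) _ y2).trans (le_abs_self _)
    have c1 := (hB₁ (Z 0) _ y1).1.trans (le_abs_self _)
    have c2 := (hB₂ (Z 1) _ y2).1.trans (le_abs_self _)
    have f1 := (hB₁ (Z 0) _ y1).2.trans (le_abs_self _)
    have f2 := (hB₂ (Z 1) _ y2).2.trans (le_abs_self _)
    have o1p := om_pos y1
    have o2p := om_pos y2
    generalize om d.τ.1 y.1 = o at *
    generalize om d.τ.2 y.2 = o' at *
    refine add_le_add (add_le_add ?_ ?_) ?_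
    · rw [← mul_assoc, abs_mul]
      exact mul_le_mul f1 a2 (abs_nonneg _) (abs_nonneg _)
    · rw [Real.sqrt_mul o1p.le, mul_mul_mul_comm, abs_mul]
      have n1 : |√o * deriv (kk d.τ.1 r₁ (Z 0)) y.1| ^ 2 ≤ |B₁| := by
        rw [sq_abs, mul_pow, Real.sq_sqrt o1p.le]; exact c1
      have n2 : |√o' * deriv (kk d.τ.2 r₂ (Z 1)) y.2| ^ 2 ≤ |B₂| := by
        rw [sq_abs, mul_pow, Real.sq_sqrt o2p.le]; exact c2
      nlinarith [sq_nonneg (|√o * deriv (kk d.τ.1 r₁ (Z 0)) y.1| -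
        |√o' * deriv (kk d.τ.2 r₂ (Z 1)) y.2|)]
    · rw [mul_left_comm, abs_mul]
      exact mul_le_mul a1 f2 (abs_nonneg _) (abs_nonneg _)
  · rintro y ⟨hy, hn'⟩
    have z1 := zero_PP ht hO v₁.der.der v₂ e11 y hy hn'
    have z2 := zero_PP ht hO v₁.der v₂.der e12 y hy hn'
    have z3 := zero_PP ht hO v₁ v₂.der.der e22 y hy hn'
    simp only [T2.ctr, wH, Pi.add_apply, Pi.mul_apply, z1, z2, z3]
    ring

theorem pdl_mv (h5 : StKer1) (h7 : StMoll1) (t₁ : Tst δ r₁) (t₂ : Tst δ r₂) (l : List (Fin 4)) :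
    ∃ s₁ s₂, Tst δ s₁ ∧ Tst δ s₂ ∧ ∀ (d : Dm) (f : X → ℝ) (t : ℝ), Bd d f → t ∈ d.I →
      bxc d.τ 1 ⊆ d.O → pdl l (mv d.τ r₁ r₂ f t) = mv d.τ s₁ s₂ f t := by
  induction l with
  | nil => exact ⟨r₁, r₂, t₁, t₂, fun _ _ _ _ _ _ => rfl⟩
  | cons a l ih =>
    obtain ⟨s₁, s₂, u₁, u₂, e⟩ := ih
    have m := fun (d : Dm) f t hf ht hO => (h7 d f δ s₁ s₂ hf u₁ u₂ hO).2.2 t ht
    fin_cases a
    · exact ⟨_, _, tst_dc h5 u₁ _, u₂, fun d f t hf ht hO => by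
        rw [pdl, e d f t hf ht hO]; exact (m d f t hf ht hO).1⟩
    · exact ⟨_, _, tst_dc h5 u₁ _, u₂, fun d f t hf ht hO => by
        rw [pdl, e d f t hf ht hO]; exact (m d f t hf ht hO).2.1⟩
    · exact ⟨_, _, u₁, tst_dc h5 u₂ _, fun d f t hf ht hO => by
        rw [pdl, e d f t hf ht hO]; exact (m d f t hf ht hO).2.2.1⟩
    · exact ⟨_, _, u₁, tst_dc h5 u₂ _, fun d f t hf ht hO => by
        rw [pdl, e d f t hf ht hO]; exact (m d f t hf ht hO).2.2.2⟩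

end Main

end Moll2

open Moll2 in
theorem moll2_ok (h1 : StApi) (h2 : StAlg) (h3 : StIBP2) (h4 : StEven) (h5 : StKer1)
    (h6 : StKer2) (h7 : StMoll1) : StMoll2 := by
  intro τ δ r₁ r₂ hδ t₁ t₂ n
  choose s₁ s₂ u₁ u₂ e using pdl_mv h5 h7 t₁ t₂
  choose C hC0 hC using fun l => core h1 h2 h3 h4 h5 h6 h7 τ hδ (u₁ l) (u₂ l)
  obtain ⟨M, hM⟩ := ((List.finite_length_le (Fin 4) n).image C).bddAbove
  refine ⟨|M|, abs_nonneg _, ?_⟩
  rintro d u F t rfl hs Z hZ l hl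
  have hu := hs.gs.toGS0
  have m := fun f hf => (h7 d f δ r₁ r₂ hf t₁ t₂ hs.bO).1.sm t hs.tI
  rw [pdl_eq l (m _ (hu.bd.D e0)) (m _ hu.bd), e l d _ t (hu.bd.D e0) hs.tI hs.bO,
    e l d _ t hu.bd hs.tI hs.bO]
  refine (hC l d u F t rfl hs Z hZ).trans (mul_le_mul_of_nonneg_right
    ((hM ⟨l, hl, rfl⟩).trans (le_abs_self _)) ?_)
  exact setIntegral_nonneg (isOpen_bx _ _).measurableSet fun y hy => gex_nn h1 h2 hu
    (mem_U hs.tI hs.bO (bx_mono _ (by norm_num) (by norm_num) hy))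

end Pool.Agent.P.MP_2cea5e_gt.I
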