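import Pool.Agent.P.MP_2cea5e_gt.I.St3

/-!
Chapter I: the smoothing with a radial probability density is bounded on `L²`.
-/

open scoped ContDiff Topology
open MeasureTheory Set Filter

noncomputable section

set_option linter.dupNamespace false

namespace Pool.Agent.P.MP_2cea5e_gt.I

namespace Moll3

/-- Schur test for a nonnegative bounded kernel on finite measure spaces. -/
theorem schur {Y W : Type} [MeasurableSpace Y] [MeasurableSpace W] {μ : Measure Y}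
    {ν : Measure W} [IsFiniteMeasure μ] [IsFiniteMeasure ν] {K : Y → W → ℝ} {g : W → ℝ}
    {C M : ℝ} (hK : AEStronglyMeasurable (fun q : Y × W => K q.1 q.2) (μ.prod ν))
    (hg : AEStronglyMeasurable g ν) (gb : ∀ᵐ y ∂ν, |g y| ≤ C)
    (Kb : ∀ᵐ q ∂μ.prod ν, |K q.1 q.2| ≤ C) (K0 : ∀ z y, 0 ≤ K z y)
    (h1 : ∀ᵐ z ∂μ, ∫ y, K z y ∂ν ≤ 1) (h2 : ∀ᵐ y ∂ν, ∫ z, K z y ∂μ ≤ M) :
    Integrable (fun z => (∫ y, g y * K z y ∂ν) ^ 2) μ ∧
      ∫ z, (∫ y, g y * K z y ∂ν) ^ 2 ∂μ ≤ M * ∫ y, g y ^ 2 ∂ν := by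
  have gb' : ∀ᵐ q ∂μ.prod ν, |g q.2| ≤ C := Measure.quasiMeasurePreserving_snd.ae gb
  have hg' : AEStronglyMeasurable (fun q : Y × W => g q.2) (μ.prod ν) := hg.comp_snd
  have i0 : Integrable (fun q : Y × W => K q.1 q.2) (μ.prod ν) :=
    Integrable.of_bound hK C Kb
  have i1 : Integrable (fun q : Y × W => g q.2 * K q.1 q.2) (μ.prod ν) :=
    i0.bdd_mul hg' gb'
  have i2 : Integrable (fun q : Y × W => g q.2 ^ 2 * K q.1 q.2) (μ.prod ν) := by
    have := i1.bdd_mul hg' gb'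
    refine this.congr (Eventually.of_forall fun q => ?_)
    simp only; ring
  have ig : Integrable (fun y => g y ^ 2) ν := by
    have := (Integrable.of_bound hg C gb).bdd_mul hg gb
    refine this.congr (Eventually.of_forall fun q => ?_)
    simp only; ring
  have key : ∀ᵐ z ∂μ, (∫ y, g y * K z y ∂ν) ^ 2 ≤ ∫ y, g y ^ 2 * K z y ∂ν := by
    filter_upwards [h1, i0.prod_right_ae, i1.prod_right_ae, i2.prod_right_ae] with z a b c e
    set m := ∫ y, g y * K z y ∂ν with hm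
    have p : 0 ≤ ∫ y, (g y ^ 2 * K z y - 2 * m * (g y * K z y) + m ^ 2 * K z y) ∂ν :=
      integral_nonneg fun y => by
        have := mul_nonneg (sq_nonneg (g y - m)) (K0 z y)
        simp only [Pi.zero_apply]
        nlinarith
    have e' : Integrable (fun y => g y ^ 2 * K z y - 2 * m * (g y * K z y)) ν :=
      e.sub (c.const_mul _)
    rw [integral_add e' (b.const_mul _), integral_sub e (c.const_mul _),
      integral_const_mul, integral_const_mul, ← hm] at p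
    nlinarith [mul_le_mul_of_nonneg_left a (sq_nonneg m)]
  have j2 := i2.integral_prod_left
  have im : Integrable (fun z => (∫ y, g y * K z y ∂ν) ^ 2) μ := by
    refine j2.mono' (i1.aestronglyMeasurable.integral_prod_right'.pow 2) ?_
    filter_upwards [key] with z hz
    rwa [Real.norm_of_nonneg (sq_nonneg _)]
  refine ⟨im, (integral_mono_ae im j2 key).trans ?_⟩
  rw [integral_integral_swap (f := fun z y => g y ^ 2 * K z y) i2, ← integral_const_mul]
  refine integral_mono_ae i2.integral_prod_right (ig.const_mul _) ?_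
  filter_upwards [h2] with y hy
  rw [integral_const_mul, mul_comm M]
  exact mul_le_mul_of_nonneg_left hy (sq_nonneg _)

theorem supp {b : Bool} {δ : ℝ} {z : ℂ} {y : ℝ} (hδ : δ ≤ 1 / 20) (hz : ‖z‖ < 1 / 4)
    (hy : y ∈ ok b) (h : |th b y - (if b then ‖z‖ else z.re)| ≤ δ) : y ∈ iv b (1 / 2) := by
  have h' := abs_le.1 h
  cases b
  · have := abs_le.1 (Complex.abs_re_le_norm z)
    simp only [th, Bool.false_eq_true, if_false] at h'
    simp only [iv, Bool.false_eq_true, if_false, mem_Ioo]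
    constructor <;> linarith [h'.1, h'.2]
  · have hy0 : 0 < y := by simpa [ok] using hy
    simp only [th, if_true] at h'
    simp only [iv, if_true, mem_Ioo]
    refine ⟨hy0, ?_⟩
    have := Real.mul_self_sqrt hy0.le
    have := Real.sqrt_nonneg y
    nlinarith [h'.2]

theorem norm_th {b : Bool} {y : ℝ} (hy : y ∈ iv b (1 / 8)) : ‖(th b y : ℂ)‖ < 1 / 4 := by
  rw [Complex.norm_real, Real.norm_eq_abs, abs_lt]
  cases b
  · simp only [iv, Bool.false_eq_true, if_false, mem_Ioo] at hy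
    simp only [th, Bool.false_eq_true, if_false]
    constructor <;> linarith [hy.1, hy.2]
  · simp only [iv, if_true, mem_Ioo] at hy
    simp only [th, if_true]
    have := Real.mul_self_sqrt hy.1.le
    have := Real.sqrt_nonneg y
    constructor <;> nlinarith [hy.2]

theorem cont_th (b : Bool) : Continuous fun y => (th b y : ℂ) := by
  refine Complex.continuous_ofReal.comp ?_
  cases b
  · exact continuous_id
  · exact continuous_const.mul Real.continuous_sqrt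

theorem mass {k₁ k₂ : ℝ → ℝ} {s₁ s₂ t₁ t₂ : Set ℝ} (p₁ : ∀ y, 0 ≤ k₁ y) (p₂ : ∀ y, 0 ≤ k₂ y)
    (h₁ : IntegrableOn k₁ t₁ ∧ ∫ y in t₁, k₁ y = 1) (h₂ : IntegrableOn k₂ t₂ ∧ ∫ y in t₂, k₂ y = 1)
    (a₁ : s₁ ⊆ t₁) (a₂ : s₂ ⊆ t₂) : ∫ y in s₁ ×ˢ s₂, k₁ y.1 * k₂ y.2 ≤ 1 := by
  rw [Measure.volume_eq_prod, setIntegral_prod_mul]
  have b₁ : ∫ y in s₁, k₁ y ≤ 1 :=
    h₁.2 ▸ setIntegral_mono_set h₁.1 (Eventually.of_forall p₁) a₁.eventuallyLE
  have b₂ : ∫ y in s₂, k₂ y ≤ 1 :=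
    h₂.2 ▸ setIntegral_mono_set h₂.1 (Eventually.of_forall p₂) a₂.eventuallyLE
  exact mul_le_one₀ b₁ (integral_nonneg p₂) b₂

end Moll3

open Moll3 in
theorem moll3_ok (h1 : StKer1) (h3 : StKer3) : StMoll3 := by
  intro d f δ t r hf hr hδ ht hO
  obtain ⟨-, c₁, -, s₁, -, C₁, b₁⟩ := h1 d.τ.1 δ r hr.tst
  obtain ⟨-, c₂, -, s₂, -, C₂, b₂⟩ := h1 d.τ.2 δ r hr.tst
  obtain ⟨p₁, m₁, y₁, n₁, e₁⟩ := h3.2 d.τ.1 δ r hr.tst hr.nn hr.rad hr.one
  obtain ⟨p₂, m₂, y₂, n₂, e₂⟩ := h3.2 d.τ.2 δ r hr.tst hr.nn hr.rad hr.one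
  have rA : Reg d (bx d.τ 1) := reg_bx hO
  have sBA : bx d.τ (1 / 2) ⊆ bx d.τ 1 := bx_mono _ (by norm_num) (by norm_num)
  have mB : MeasurableSet (bx d.τ (1 / 2)) := (isOpen_bx _ _).measurableSet
  have rB : Reg d (bx d.τ (1 / 2)) := rA.mono mB sBA
  have mE : MeasurableSet (bx d.τ (1 / 8)) := (isOpen_bx _ _).measurableSet
  have rE : Reg d (bx d.τ (1 / 8)) := rA.mono mE (bx_mono _ (by norm_num) (by norm_num))
  obtain ⟨C₀, b₀⟩ := hf.bd.bound rB (isCompact_singleton (x := t)) (by simpa using ht)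
  have fB : IsFiniteMeasure (volume.restrict (bx d.τ (1 / 2))) := ⟨by
    rw [Measure.restrict_apply_univ]; exact rB.finite.lt_top⟩
  have fE : IsFiniteMeasure (volume.restrict (bx d.τ (1 / 8))) := ⟨by
    rw [Measure.restrict_apply_univ]; exact rE.finite.lt_top⟩
  have fZ : IsFiniteMeasure (volume.restrict (Metric.ball (0 : C2) (1 / 4))) := ⟨by
    rw [Measure.restrict_apply_univ]; exact measure_ball_lt_top⟩
  set C := max C₀ (|C₁| * |C₂|) with hC
  have gm := hf.meas rB ht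
  have gb : ∀ᵐ y ∂volume.restrict (bx d.τ (1 / 2)), |f (t, y)| ≤ C :=
    (ae_restrict_iff' mB).2 (Eventually.of_forall fun y hy =>
      (b₀ t rfl y hy).trans (le_max_left _ _))
  have okB : ∀ y ∈ bx d.τ (1 / 2), y.1 ∈ ok d.τ.1 ∧ y.2 ∈ ok d.τ.2 := fun y hy =>
    ⟨iv_subset_ok _ _ hy.1, iv_subset_ok _ _ hy.2⟩
  have Kb : ∀ z₁ z₂ : ℂ, ∀ y ∈ bx d.τ (1 / 2),
      |kk d.τ.1 r z₁ y.1 * kk d.τ.2 r z₂ y.2| ≤ C := fun z₁ z₂ y hy => by
    rw [abs_mul]
    exact (mul_le_mul ((b₁ z₁ _ (okB y hy).1).trans (le_abs_self _))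
      ((b₂ z₂ _ (okB y hy).2).trans (le_abs_self _)) (abs_nonneg _) (abs_nonneg _)).trans
      (le_max_right _ _)
  have red : ∀ Z : C2, ‖Z 0‖ < 1 / 4 → ‖Z 1‖ < 1 / 4 → mv d.τ r r f t Z =
      ∫ y in bx d.τ (1 / 2), f (t, y) * (kk d.τ.1 r (Z 0) y.1 * kk d.τ.2 r (Z 1) y.2) := by
    intro Z z0 z1
    refine setIntegral_eq_of_subset_of_forall_sdiff_eq_zero rA.ms sBA fun y hy => ?_
    by_contra hne
    have a := mul_ne_zero_iff.1 (mul_ne_zero_iff.1 hne).2
    have o₁ := iv_subset_ok _ _ hy.1.1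
    have o₂ := iv_subset_ok _ _ hy.1.2
    exact hy.2 ⟨supp hδ z0 o₁ (s₁ _ _ o₁ a.1), supp hδ z1 o₂ (s₂ _ _ o₂ a.2)⟩
  have cK : ∀ {Y : Type} [TopologicalSpace Y] (a₁ a₂ : Y → ℂ), Continuous a₁ → Continuous a₂ →
      ∀ Ω : Set Y, ContinuousOn (fun q : Y × ℝ × ℝ =>
        kk d.τ.1 r (a₁ q.1) q.2.1 * kk d.τ.2 r (a₂ q.1) q.2.2) (Ω ×ˢ bx d.τ (1 / 2)) := by
    intro Y _ a₁ a₂ h₁ h₂ Ω
    refine ContinuousOn.mul ?_ ?_
    · exact c₁.comp (f := fun q : Y × ℝ × ℝ => (a₁ q.1, q.2.1))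
        (by fun_prop) fun q hq => ⟨trivial, (okB _ hq.2).1⟩
    · exact c₂.comp (f := fun q : Y × ℝ × ℝ => (a₂ q.1, q.2.2))
        (by fun_prop) fun q hq => ⟨trivial, (okB _ hq.2).2⟩
  have ms : ∀ z₁ z₂ : ℂ, ∀ ρ, ∫ y in bx d.τ ρ, kk d.τ.1 r z₁ y.1 * kk d.τ.2 r z₂ y.2 ≤ 1 :=
    fun z₁ z₂ ρ => mass (p₁ z₁) (p₂ z₂) (m₁ z₁) (m₂ z₂) (iv_subset_ok _ _) (iv_subset_ok _ _)
  have one := schur (μ := volume.restrict (Metric.ball (0 : C2) (1 / 4)))
    (ν := volume.restrict (bx d.τ (1 / 2)))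
    (K := fun Z y => kk d.τ.1 r (Z 0) y.1 * kk d.τ.2 r (Z 1) y.2) (g := fun y => f (t, y))
    (C := C) (M := 169)
    (by
      rw [Measure.prod_restrict]
      exact (cK (fun Z : C2 => Z 0) (fun Z => Z 1) (by fun_prop) (by fun_prop) _).aestronglyMeasurable
        (Metric.isOpen_ball.measurableSet.prod mB))
    gm gb
    (by
      rw [Measure.prod_restrict]
      exact (ae_restrict_iff' (Metric.isOpen_ball.measurableSet.prod mB)).2
        (Eventually.of_forall fun q hq => Kb _ _ _ hq.2))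
    (fun Z y => mul_nonneg (p₁ _ _) (p₂ _ _)) (Eventually.of_forall fun Z => ms _ _ _)
    ((ae_restrict_iff' mB).2 (Eventually.of_forall fun y hy => by
      have disc : ∀ (k : ℂ → ℝ), Continuous k → (∀ z, 0 ≤ k z) →
          ∫ z in Metric.ball (0 : ℂ) 1, k z ≤ 13 → ∫ z in Metric.ball (0 : ℂ) (1 / 4), k z ≤ 13 :=
        fun k ck pk hk => le_trans (setIntegral_mono_set
          ((ck.continuousOn.integrableOn_compact (isCompact_closedBall 0 1)).mono_set
            Metric.ball_subset_closedBall) (Eventually.of_forall pk)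
          (Metric.ball_subset_ball (by norm_num)).eventuallyLE) hk
      have k₁ : Continuous fun z => kk d.τ.1 r z y.1 := continuousOn_univ.1
        (c₁.comp (f := fun z : ℂ => (z, y.1)) (by fun_prop) fun z _ => ⟨trivial, (okB y hy).1⟩)
      have k₂ : Continuous fun z => kk d.τ.2 r z y.2 := continuousOn_univ.1
        (c₂.comp (f := fun z : ℂ => (z, y.2)) (by fun_prop) fun z _ => ⟨trivial, (okB y hy).2⟩)
      have a₁ := disc _ k₁ (fun z => p₁ z _) (n₁ _ (okB y hy).1)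
      have a₂ := disc _ k₂ (fun z => p₂ z _) (n₂ _ (okB y hy).2)
      have e := integral_fintype_prod_eq_prod (ι := Fin 2) (E := fun _ => ℂ)
        (μ := fun _ => volume.restrict (Metric.ball (0 : ℂ) (1 / 4)))
        ![fun z => kk d.τ.1 r z y.1, fun z => kk d.τ.2 r z y.2]
      rw [← Measure.restrict_pi_pi] at e
      simp only [Fin.prod_univ_two, Matrix.cons_val_zero, Matrix.cons_val_one] at e
      rw [ball_pi' (0 : C2), volume_pi]
      refine le_trans (le_of_eq e) ?_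
      calc _ ≤ (13 : ℝ) * 13 := mul_le_mul a₁ a₂ (integral_nonneg fun z => p₂ z _) (by norm_num)
        _ = 169 := by norm_num))
  have two := schur (μ := volume.restrict (bx d.τ (1 / 8)))
    (ν := volume.restrict (bx d.τ (1 / 2)))
    (K := fun x y => kk d.τ.1 r (th d.τ.1 x.1) y.1 * kk d.τ.2 r (th d.τ.2 x.2) y.2)
    (g := fun y => f (t, y)) (C := C) (M := 1)
    (by
      rw [Measure.prod_restrict]
      exact (cK (fun x : ℝ × ℝ => (th d.τ.1 x.1 : ℂ)) (fun x => (th d.τ.2 x.2 : ℂ))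
        ((cont_th _).comp continuous_fst) ((cont_th _).comp continuous_snd) _).aestronglyMeasurable
        (mE.prod mB))
    gm gb
    (by
      rw [Measure.prod_restrict]
      exact (ae_restrict_iff' (mE.prod mB)).2 (Eventually.of_forall fun q hq => Kb _ _ _ hq.2))
    (fun Z y => mul_nonneg (p₁ _ _) (p₂ _ _)) (Eventually.of_forall fun Z => ms _ _ _)
    ((ae_restrict_iff' mB).2 (Eventually.of_forall fun y hy => by
      refine le_trans (le_of_eq ?_) (ms (th d.τ.1 y.1) (th d.τ.2 y.2) (1 / 8))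
      refine setIntegral_congr_fun mE fun x hx => ?_
      rw [y₁ _ (iv_subset_ok _ _ hx.1) _ (okB y hy).1, y₂ _ (iv_subset_ok _ _ hx.2) _ (okB y hy).2]))
  have eqE : EqOn (fun y => mv d.τ r r f t (tz d.τ y) ^ 2)
      (fun x => (∫ y in bx d.τ (1 / 2), f (t, y) *
        (kk d.τ.1 r (th d.τ.1 x.1) y.1 * kk d.τ.2 r (th d.τ.2 x.2) y.2)) ^ 2) (bx d.τ (1 / 8)) :=
    fun x hx => by
      simp only
      rw [red (tz d.τ x) (norm_th hx.1) (norm_th hx.2)]
      rfl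
  refine ⟨le_trans (le_of_eq ?_) one.2, ?_, (integrableOn_congr_fun eqE mE).2 two.1,
    fun h Z => ?_, fun h Z => ?_⟩
  · refine setIntegral_congr_fun Metric.isOpen_ball.measurableSet fun Z hZ => ?_
    have hZ' := mem_ball_zero_iff.1 hZ
    rw [red Z ((norm_le_pi_norm Z 0).trans_lt hZ') ((norm_le_pi_norm Z 1).trans_lt hZ')]
  · rw [setIntegral_congr_fun mE eqE]
    simpa using two.2
  · simp only [mv, Matrix.cons_val_zero, Matrix.cons_val_one, e₁ h]
  · simp only [mv, Matrix.cons_val_zero, Matrix.cons_val_one, e₂ h]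

end Pool.Agent.P.MP_2cea5e_gt.I
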