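import Pool.Agent.P.MP_2cea5e_gt.I.St5

/-!
Chapter I: assembly of the oscillation estimate.
-/

open scoped ContDiff Topology ComplexOrder
open MeasureTheory Set Filter

noncomputable section

set_option linter.dupNamespace false

namespace Pool.Agent.P.MP_2cea5e_gt.I

namespace OscA

/-- The inverse of the space part of a frame. -/
def spi (fr : Fr) (y : ℝ × ℝ) : ℝ × ℝ :=
  ((fr.e * (y.1 - fr.p.1) - fr.b * (y.2 - fr.p.2)) / (fr.a * fr.e - fr.b * fr.c),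
    (fr.a * (y.2 - fr.p.2) - fr.c * (y.1 - fr.p.1)) / (fr.a * fr.e - fr.b * fr.c))

theorem cont_spi (fr : Fr) : Continuous (spi fr) := by unfold spi; fun_prop

theorem sp_spi (fr : Fr) (y : ℝ × ℝ) : fr.sp (spi fr y) = y := by
  have h := mul_inv_cancel₀ fr.det_ne
  ext
  · simp only [spi, Fr.sp, Fr.S, Prod.fst_add, div_eq_mul_inv]
    linear_combination (y.1 - fr.p.1) * h
  · simp only [spi, Fr.sp, Fr.S, Prod.snd_add, div_eq_mul_inv]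
    linear_combination (y.2 - fr.p.2) * h

theorem spi_sp (fr : Fr) (y : ℝ × ℝ) : spi fr (fr.sp y) = y := by
  have h := mul_inv_cancel₀ fr.det_ne
  ext
  · simp only [spi, Fr.sp, Fr.S, Prod.fst_add, Prod.snd_add, div_eq_mul_inv]
    linear_combination y.1 * h
  · simp only [spi, Fr.sp, Fr.S, Prod.fst_add, Prod.snd_add, div_eq_mul_inv]
    linear_combination y.2 * h

theorem spi_p (fr : Fr) : spi fr fr.p = 0 := by
  ext <;> simp [spi]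

theorem mem_iv {b : Bool} {x : ℝ} (h : |x| < (1 / 48) ^ 2) (h0 : b = true → 0 < x) :
    x ∈ iv b (1 / 48) := by
  obtain ⟨h1, h2⟩ := abs_lt.mp h
  cases b
  · exact ⟨by linarith, by linarith⟩
  · exact ⟨h0 rfl, h2⟩

theorem mem_bx {fr : Fr} {τ : Ty} (hc : fr.Cp (true, true) τ) {y : ℝ × ℝ} (h1 : 0 < y.1)
    (h2 : 0 < y.2) (hy : spi fr y ∈ Metric.ball (0 : ℝ × ℝ) ((1 / 48) ^ 2)) :
    y ∈ fr.sp '' bx τ (1 / 48) := by
  refine ⟨spi fr y, ?_, sp_spi fr y⟩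
  have e := sp_spi fr y
  generalize spi fr y = q at hy e
  rw [mem_ball_zero_iff] at hy
  have hρ := pow_pos fr.ρ_pos 2
  refine ⟨mem_iv ((norm_fst_le q).trans_lt hy) fun ht => ?_,
    mem_iv ((norm_snd_le q).trans_lt hy) fun ht => ?_⟩
  · obtain ⟨-, k1, k2, k3, -⟩ := hc.1 ht
    have : y.1 = fr.ρ ^ 2 * q.1 := by
      rw [← e]; simp [Fr.sp, Fr.S, k1, k2, k3]
    rw [this] at h1
    exact (mul_pos_iff_of_pos_left hρ).mp h1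
  · obtain ⟨-, k1, k2, -, k3⟩ := hc.2 ht
    have : y.2 = fr.ρ ^ 2 * q.2 := by
      rw [← e]; simp [Fr.sp, Fr.S, k1, k2, k3]
    rw [this] at h2
    exact (mul_pos_iff_of_pos_left hρ).mp h2

theorem osc_mono {f : ℝ × C2 → ℝ} {δ δ' ρ Λ t : ℝ} {z : C2} (h0 : 0 < δ) (h1 : δ ≤ δ')
    (h : Osc f δ ρ Λ t z) : Osc f δ' ρ Λ t z :=
  ⟨h.1, h.2.1, fun s hs y hy v => by
    have k := h.2.2 s hs y hy v
    have : 0 ≤ qf (sl f t) z v := (mul_nonneg_iff_of_pos_left h0).mp ((abs_nonneg _).trans k)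
    exact k.trans (mul_le_mul_of_nonneg_right h1 this)⟩

/-- The estimate near one point of the closed chart domain. -/
theorem loc (h7 : StNear) (h8 : StBack) {f : ℝ × C2 → ℝ} {d : Dm} {u : X → ℝ} {T Λ₀ δ : ℝ}
    (hT : 0 < T) (hI : d.I = Ioo 0 T) (hl : LogP d.I f) (hg : Leg f d u) (hc : Convex ℝ d.S)
    (hs : CS (d.res (T / 2) T) u (fc u) (T / 2) T Λ₀) (hδ : 0 < δ) {p : ℝ × ℝ} (hp : p ∈ d.Sc) :
    ∃ V ∈ 𝓝 p, ∃ η ρ Λ : ℝ, 0 < η ∧ 0 < ρ ∧ ∀ ρ' Λ', ρ' ≤ ρ → Λ ≤ Λ' → ∀ t ∈ Ioo (T - η) T,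
      t ∈ Ioo 0 T → ∀ z : C2, (∀ k, z k ≠ 0) → gr (lg f) t (lz z) ∈ V → Osc f δ ρ' Λ' t z := by
  have h0 : 0 < min (δ / 10) (1 / 1000) := lt_min (by positivity) (by norm_num)
  obtain ⟨fr, τ, e1, e2, e3, -, -, e4, e5, e6⟩ := h7 _ _ _ _ _ _ hs p hp _ h0
  obtain ⟨ρ, Λ, hρ, k⟩ := h8 f d u fr τ T _ hl hg hc e2 e3 e4
    (fun s hs => hI ▸ ⟨by linarith [hs.1], hs.2⟩) h0 (min_le_right _ _) e6
  refine ⟨spi fr ⁻¹' Metric.ball 0 ((1 / 48) ^ 2), ?_, fr.ρ ^ 4 / 4, ρ, Λ,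
    by have := fr.ρ_pos; positivity, hρ, fun ρ' Λ' a1 a2 t ht ht' z hz hV => ?_⟩
  · refine (cont_spi fr).continuousAt.preimage_mem_nhds ?_
    rw [← e1, spi_p]
    exact Metric.ball_mem_nhds _ (by norm_num)
  · have hS : gr (lg f) t (lz z) ∈ d.S := hg.rg t (hI ▸ ht') ▸ mem_range_self _
    have hS2 := hS.2
    rw [hg.ty] at hS2
    have e3' : fr.Cp (true, true) τ := hg.ty ▸ e3
    refine osc_mono (by positivity) ?_
      (k ρ' Λ' a1 a2 t ht z hz (mem_bx e3' hS2.1 hS2.2 hV))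
    linarith [min_le_left (δ / 10) (1 / 1000)]

theorem hess_add_const (g : C2 → ℝ) (c : ℝ) : hess (fun z => g z + c) = hess g := by
  funext z
  have : ∀ k, (dzb k fun w => ((g w + c : ℝ) : ℂ)) = dzb k fun w => (g w : ℂ) := fun k => by
    funext y
    simp only [dzb, Complex.ofReal_add, fderiv_add_const]
  simp only [hess, this]

theorem scal_add_const (g : C2 → ℝ) (c : ℝ) : scal (fun z => g z + c) = scal g := by
  funext z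
  simp only [scal, vol, hess_add_const]

theorem qf_add_const (g : C2 → ℝ) (c : ℝ) : qf (fun z => g z + c) = qf g := by
  funext z v
  simp only [qf, hess_add_const]

/-- The normalised flow. -/
def nf {ι : Type} (ψ : ι → C2 → ℝ) (κ c : ℝ) (φ : ℝ → ι → C2 → ℝ) (σ : ι) : ℝ × C2 → ℝ :=
  fun q => (ψ σ + φ (q.1 / κ) σ) q.2 + c * (q.1 / κ)

theorem sl_nf {ι : Type} (ψ : ι → C2 → ℝ) (κ c : ℝ) (φ : ℝ → ι → C2 → ℝ) (σ : ι) (t : ℝ) :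
    sl (nf ψ κ c φ σ) t = fun z => (ψ σ + φ (t / κ) σ) z + c * (t / κ) := rfl

theorem cf_nf {ι : Type} {m : ι → Matrix (Fin 2) (Fin 2) ℤ} {ψ : ι → C2 → ℝ} {κ c T : ℝ}
    {φ : ℝ → ι → C2 → ℝ} (hψ : IsToricKaehler m ψ) (hκ : 0 < κ)
    (hφ : IsCalabiFlow m ψ κ c T φ) : CF m (nf ψ κ c φ) (κ * T) := by
  have hm : ∀ t ∈ Ioo 0 (κ * T), t / κ ∈ Ioo 0 T := fun t ht =>
    ⟨div_pos ht.1 hκ, by rw [div_lt_iff₀ hκ]; linarith [ht.2]⟩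
  refine ⟨fun σ => ⟨isOpen_Ioo, ?_, fun t ht θ z hθ => ?_, fun t ht z => ?_, fun t ht z => ?_⟩,
    fun σ τ => ?_⟩
  · have a : ContDiffOn ℝ ∞ (fun q : ℝ × C2 => φ (q.1 / κ) σ q.2) (Ioo 0 (κ * T) ×ˢ univ) :=
      (hφ.smooth σ).comp (f := fun q : ℝ × C2 => (q.1 / κ, q.2)) (by fun_prop)
        fun q hq => ⟨hm _ hq.1, trivial⟩
    have b : ContDiffOn ℝ ∞ (fun q : ℝ × C2 => ψ σ q.2) (Ioo 0 (κ * T) ×ˢ univ) :=
      ((hψ.smooth σ).comp contDiff_snd).contDiffOn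
    exact (b.add a).add (by fun_prop)
  · simp only [sl_nf, Pi.add_apply, hψ.inv σ θ z hθ, hφ.inv _ (hm t ht) σ θ z hθ]
  · rw [sl_nf, hess_add_const]
    exact hφ.pos _ (hm t ht) σ z
  · rw [sl_nf, scal_add_const]
    have a : HasDerivAt (fun s : ℝ => s / κ) (1 / κ) t := (hasDerivAt_id t).div_const κ
    have b := (hφ.flow _ (hm t ht) σ z).comp t a
    have e := (b.const_add (ψ σ z)).add (a.const_mul c)
    refine e.congr_deriv ?_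
    field_simp
    ring
  · obtain ⟨a, b, h⟩ := hψ.glue σ τ
    refine ⟨a, b, fun t ht w hw => ?_⟩
    simp only [nf, Pi.add_apply, hφ.glue _ (hm t ht) σ τ w hw]
    linarith [h w hw]

end OscA

open OscA in
theorem osc1_ok (h1 : StLog) (h2 : StTrans) (h3 : StAB) (h4 : StLeg) (h5 : StGLc) (h6 : StCS)
    (h7 : StNear) (h8 : StBack) (_h9 : StFG) : StOsc1 := by
  intro ι _ m f T hm hT hf δ hδ
  obtain ⟨s₀, -⟩ := hm.cover 0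
  have hT2 : T / 2 ∈ Ioo 0 T := ⟨by linarith, by linarith⟩
  have hl : ∀ σ, LogP (Ioo 0 T) (f σ) := fun σ => h1 _ _ (hf.c1 σ)
  have hab := h3 ι m f T hm hf
  choose P hPc hPb hP using fun σ => (hab σ).1
  have hleg : ∀ σ, ∃ d u, d.I = Ioo 0 T ∧ Leg (f σ) d u := fun σ =>
    h4 _ _ (P σ) (hl σ) ⟨_, hT2⟩ (hP σ) fun t ht => by
      obtain ⟨_, C, -, hC⟩ := (hab σ).2 t ht.1
      exact ⟨C, (hC t ⟨le_rfl, ht.2⟩).1⟩
  choose d u hI hg using hleg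
  have hS : ∀ σ, (d σ).S = P σ := fun σ =>
    ((hg σ).rg _ (hI σ ▸ hT2)).symm.trans (hP σ _ hT2)
  choose fr hfr using h2.2 ι m f T hm hf
  have hG : ∀ σ, Glob (d σ) (u σ) d u (fr σ) := fun σ =>
    h5 ι m f T d u σ (fr σ) hm hT (fun τ => ⟨hl τ, hI τ, hg τ, hfr σ τ⟩) (hS σ ▸ hPb σ)
  have hcs : ∀ σ, ∃ Λ, CS ((d σ).res (T / 2) T) (u σ) (fc (u σ)) (T / 2) T Λ := fun σ => by
    obtain ⟨η, C, hη, hC⟩ := (hab σ).2 (T / 2) hT2.1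
    exact h6 ι (f σ) T η C (d σ) (u σ) d u (fr σ) hT hη (hI σ) (hI σ ▸ hl σ) (hg σ) (hG σ) hC
  have hK : IsCompact (closure (d s₀).S) := (hG s₀).bdd.isCompact_closure
  have key : ∃ η ρ Λ : ℝ, 0 < η ∧ 0 < ρ ∧ ∀ ρ' Λ', ρ' ≤ ρ → Λ ≤ Λ' → ∀ t ∈ Ioo (T - η) T,
      t ∈ Ioo 0 T → ∀ w : C2, (∀ k, w k ≠ 0) →
      gr (lg (f s₀)) t (mz (m s₀) (lz w)) ∈ closure (d s₀).S →
      ∃ σ, Osc (f σ) δ ρ' Λ' t (mon (m σ) w) := by
    refine hK.induction_on (p := fun K => ∃ η ρ Λ : ℝ, 0 < η ∧ 0 < ρ ∧ ∀ ρ' Λ', ρ' ≤ ρ → Λ ≤ Λ' →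
      ∀ t ∈ Ioo (T - η) T, t ∈ Ioo 0 T → ∀ w : C2, (∀ k, w k ≠ 0) →
      gr (lg (f s₀)) t (mz (m s₀) (lz w)) ∈ K → ∃ σ, Osc (f σ) δ ρ' Λ' t (mon (m σ) w))
      ?_ ?_ ?_ ?_
    · exact ⟨1, 1, 0, one_pos, one_pos, fun _ _ _ _ _ _ _ _ _ h => h.elim⟩
    · rintro A B hAB ⟨η, ρ, Λ, a1, a2, a3⟩
      exact ⟨η, ρ, Λ, a1, a2, fun ρ' Λ' b1 b2 t b3 b4 w b5 b6 =>
        a3 ρ' Λ' b1 b2 t b3 b4 w b5 (hAB b6)⟩
    · rintro A B ⟨η, ρ, Λ, a1, a2, a3⟩ ⟨η', ρ₂, Λ₂, c1, c2, c3⟩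
      refine ⟨min η η', min ρ ρ₂, max Λ Λ₂, lt_min a1 c1, lt_min a2 c2,
        fun ρ' Λ' b1 b2 t b3 b4 w b5 b6 => ?_⟩
      rcases b6 with b6 | b6
      · exact a3 ρ' Λ' (b1.trans (min_le_left _ _)) ((le_max_left _ _).trans b2) t
          ⟨by linarith [b3.1, min_le_left η η'], b3.2⟩ b4 w b5 b6
      · exact c3 ρ' Λ' (b1.trans (min_le_right _ _)) ((le_max_right _ _).trans b2) t
          ⟨by linarith [b3.1, min_le_right η η'], b3.2⟩ b4 w b5 b6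
    · intro x hx
      obtain ⟨σ, p, hp, rfl⟩ := mem_iUnion.mp ((hG s₀).cov hx)
      obtain ⟨Λ₀, hs⟩ := hcs σ
      obtain ⟨V, hV, η, ρ, Λ, a1, a2, a3⟩ := loc h7 h8 hT (hI σ) (hI σ ▸ hl σ) (hg σ)
        (hS σ ▸ hPc σ) hs hδ hp
      refine ⟨spi (fr s₀ σ) ⁻¹' V, mem_nhdsWithin_of_mem_nhds
        ((cont_spi _).continuousAt.preimage_mem_nhds (by rwa [spi_sp])), η, ρ, Λ, a1, a2,
        fun ρ' Λ' b1 b2 t b3 b4 w b5 b6 => ⟨σ, ?_⟩⟩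
      obtain ⟨c1, c2⟩ := (h2.1 (m σ) (hm.unimod σ)).2.2 w b5
      refine a3 ρ' Λ' b1 b2 t b3 b4 _ c1 ?_
      rw [(hfr s₀ σ).gr t b4, mem_preimage, spi_sp] at b6
      rwa [c2]
  obtain ⟨η, ρ, Λ, a1, a2, a3⟩ := key
  have m1 := min_le_left η (T / 2)
  have m2 := min_le_right η (T / 2)
  have m3 : 0 < min η (T / 2) := lt_min a1 hT2.1
  refine ⟨min η (T / 2) / 2, min ρ (T / 4), Λ, by linarith, lt_min a2 (by linarith),
    by linarith [min_le_right ρ (T / 4)], fun t ht w hw => ?_⟩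
  have ht' : t ∈ Ioo 0 T := ⟨by linarith [ht.1], ht.2⟩
  refine a3 _ _ (min_le_left _ _) le_rfl t ⟨by linarith [ht.1], ht.2⟩ ht' w hw
    (subset_closure ?_)
  exact (hg s₀).rg t (hI s₀ ▸ ht') ▸ mem_range_self _

open OscA in
theorem osc_ok (h : StOsc1) : StOsc := by
  intro ι _ m ψ κ c T φ hm hψ hκ hT hφ δ hδ
  obtain ⟨τ, ρ, Λ, a1, a2, a3, a4⟩ := h ι m _ _ hm (mul_pos hκ hT) (cf_nf hψ hκ hφ) δ hδ
  have hq : ∀ σ s, qf (sl (nf ψ κ c φ σ) (κ * s)) = qf (ψ σ + φ s σ) := fun σ s => by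
    rw [sl_nf, qf_add_const, mul_div_cancel_left₀ _ hκ.ne']
  have m1 := min_le_left ρ (ρ / κ)
  have m2 := min_le_right ρ (ρ / κ)
  have m3 : κ * min ρ (ρ / κ) ≤ ρ := by
    have := mul_le_mul_of_nonneg_left m2 hκ.le
    rwa [mul_div_cancel₀ _ hκ.ne'] at this
  have m4 : κ * (τ / κ) = τ := mul_div_cancel₀ _ hκ.ne'
  refine ⟨τ / κ, min ρ (ρ / κ), Λ, div_pos a1 hκ, lt_min a2 (div_pos a2 hκ), ?_,
    fun t ht w hw => ?_⟩
  · refine lt_of_mul_lt_mul_left ?_ hκ.le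
    rw [mul_add]
    linarith
  · have b1 := mul_le_mul_of_nonneg_left ht.1 hκ.le
    have b2 := mul_lt_mul_of_pos_left ht.2 hκ
    rw [mul_sub] at b1
    obtain ⟨σ, c1, c2, c3⟩ := a4 (κ * t) ⟨by linarith, b2⟩ w hw
    rw [hq] at c2 c3
    refine ⟨σ, c1, c2, fun s hs z hz v => ?_⟩
    have b3 := mul_le_mul_of_nonneg_left hs.1 hκ.le
    have b4 := mul_le_mul_of_nonneg_left hs.2 hκ.le
    rw [mul_sub] at b3
    have := c3 (κ * s) ⟨by linarith, b4⟩ z (hz.trans m1) v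
    rwa [hq] at this

end Pool.Agent.P.MP_2cea5e_gt.I
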