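import Pool.Agent.P.MP_2cea5e_gt.I.St3

/-!
Chapter I: going back through a perturbed scaling, change of type.
-/

open scoped ContDiff Topology
open MeasureTheory Set Filter

noncomputable section

set_option linter.dupNamespace false

namespace Pool.Agent.P.MP_2cea5e_gt.I

namespace PertS

/-- The derivative of the model. -/
def gm (b : Bool) (x : ℝ) : ℝ := if b then Real.log x + 1 else x

theorem D_sv (a c : ℝ) (f : X → ℝ) (p : X) : D (sv (a, c)) f p = a * D e1 f p + c * D e2 f p := by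
  have : sv (a, c) = a • e1 + c • e2 := by simp [sv, e1, e2]
  rw [this, D_lin]

theorem back (h1 : StApi) (h3 : StFC) (h5 : StFG) {d : Dm} {u F : X → ℝ} (hg : GS d u F)
    (fr : Fr) {τ' : Ty} (hc : fr.Cp d.τ τ') {q : X} (hU : q ∈ (fr.dm d τ').U) :
    fr.fm q ∈ d.U ∧ (∀ e, hq u (fr.S e) (fr.fm q) = fr.ρ ^ 2 * hq (fr.pull u) e q) ∧
    fr.ρ ^ 2 * (D e1 (wv τ' (fr.pull u)) q + gm τ'.1 q.2.1) =
      fr.a * (D e1 (wv d.τ u) (fr.fm q) + gm d.τ.1 (fr.fm q).2.1) +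
      fr.c * (D e2 (wv d.τ u) (fr.fm q) + gm d.τ.2 (fr.fm q).2.2) - fr.l1 ∧
    fr.ρ ^ 2 * (D e2 (wv τ' (fr.pull u)) q + gm τ'.2 q.2.2) =
      fr.b * (D e1 (wv d.τ u) (fr.fm q) + gm d.τ.1 (fr.fm q).2.1) +
      fr.e * (D e2 (wv d.τ u) (fr.fm q) + gm d.τ.2 (fr.fm q).2.2) - fr.l2 := by
  obtain ⟨-, gU, -, -, -, -, g0, -⟩ := h5.1 fr d τ' hc
  have A := h1 d u hg.toGS0
  have A' := h1 _ _ (g0 u hg.toGS0)
  have hp : fr.fm q ∈ d.U := by
    have : q ∈ fr.fm ⁻¹' d.U := gU ▸ hU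
    exact this
  obtain ⟨-, hFC⟩ := (h3 fr d.U d.isOpen_U).2.2 u A.sm fun q hq => (A.pW q hq).ne'
  obtain ⟨-, c0, c1, -⟩ := hFC q hp
  have hρ := fr.ρ_pos.ne'
  have a1 : D e1 u (fr.fm q) = D e1 (wv d.τ u) (fr.fm q) + gm d.τ.1 (fr.fm q).2.1 := A.q1 _ hp
  have a2 : D e2 u (fr.fm q) = D e2 (wv d.τ u) (fr.fm q) + gm d.τ.2 (fr.fm q).2.2 := A.q2 _ hp
  have b1 : D e1 (fr.pull u) q = D e1 (wv τ' (fr.pull u)) q + gm τ'.1 q.2.1 := A'.q1 _ hU
  have b2 : D e2 (fr.pull u) q = D e2 (wv τ' (fr.pull u)) q + gm τ'.2 q.2.2 := A'.q2 _ hU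
  refine ⟨hp, fun e => ?_, ?_, ?_⟩
  · simp only [hq]
    rw [c1]
    field_simp
  · rw [← a1, ← a2, ← b1, show e1 = sv (1, 0) from rfl, c0]
    simp only [Fr.S, mul_one, mul_zero, add_zero]
    rw [D_sv, show sv (1, 0) = e1 from rfl]
    field_simp
  · rw [← a1, ← a2, ← b2, show e2 = sv (0, 1) from rfl, c0]
    simp only [Fr.S, mul_one, mul_zero, zero_add]
    rw [D_sv, show sv (0, 1) = e2 from rfl]
    field_simp

theorem S_surj (fr : Fr) (e : ℝ × ℝ) : ∃ e', fr.S e' = e := by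
  have h := fr.det_ne
  refine ⟨((fr.e * e.1 - fr.b * e.2) / (fr.a * fr.e - fr.b * fr.c),
    (fr.a * e.2 - fr.c * e.1) / (fr.a * fr.e - fr.b * fr.c)), ?_⟩
  generalize hD : fr.a * fr.e - fr.b * fr.c = D at h
  ext
  · simp only [Fr.S]; field_simp; rw [← hD]; ring
  · simp only [Fr.S]; field_simp; rw [← hD]; ring

theorem nearH_back {τ τ' : Ty} {u u' : X → ℝ} {p q : X} (fr : Fr) {κ μ δ : ℝ} (hκ : 0 ≤ κ)
    (hμ : 0 ≤ μ) (hδ : (1 + μ) * κ ≤ 1 + δ) (o1p : 0 < o1 τ p) (o2p : 0 < o2 τ p)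
    (o1q : 0 < o1 τ' q) (o2q : 0 < o2 τ' q)
    (hh : ∀ e, hq u (fr.S e) p = fr.ρ ^ 2 * hq u' e q)
    (hc : ∀ e, fr.ρ ^ 2 * hq0 τ' e q ≤ κ * hq0 τ (fr.S e) p ∧
      hq0 τ (fr.S e) p ≤ κ * (fr.ρ ^ 2 * hq0 τ' e q)) (hn : NearH τ' u' μ q) :
    NearH τ u δ p := by
  intro e
  obtain ⟨e', rfl⟩ := S_surj fr e
  obtain ⟨n1, n2⟩ := hn e'
  obtain ⟨k1, k2⟩ := hc e'
  have r : 0 < fr.ρ ^ 2 := pow_pos fr.ρ_pos 2
  have z1 : 0 ≤ hq0 τ (fr.S e') p := by unfold hq0; positivity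
  have z2 : 0 ≤ hq0 τ' e' q := by unfold hq0; positivity
  have z3 : 0 ≤ hq u' e' q := by
    by_contra h
    have : (1 + μ) * hq u' e' q < 0 := mul_neg_of_pos_of_neg (by linarith) (not_le.mp h)
    linarith
  rw [hh]
  constructor
  · calc _ ≤ fr.ρ ^ 2 * ((1 + μ) * hq0 τ' e' q) := mul_le_mul_of_nonneg_left n1 r.le
      _ = (1 + μ) * (fr.ρ ^ 2 * hq0 τ' e' q) := by ring
      _ ≤ (1 + μ) * (κ * hq0 τ (fr.S e') p) := mul_le_mul_of_nonneg_left k1 (by linarith)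
      _ = (1 + μ) * κ * hq0 τ (fr.S e') p := by ring
      _ ≤ _ := mul_le_mul_of_nonneg_right hδ z1
  · calc _ ≤ κ * (fr.ρ ^ 2 * hq0 τ' e' q) := k2
      _ ≤ κ * (fr.ρ ^ 2 * ((1 + μ) * hq u' e' q)) :=
          mul_le_mul_of_nonneg_left (mul_le_mul_of_nonneg_left n2 r.le) hκ
      _ = (1 + μ) * κ * (fr.ρ ^ 2 * hq u' e' q) := by ring
      _ ≤ _ := mul_le_mul_of_nonneg_right hδ (mul_nonneg r.le z3)

theorem lin_bd {s r x y γ : ℝ} (hs : |s| ≤ γ) (hr : |r| ≤ γ) :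
    (s * x + r * y) ^ 2 ≤ 2 * γ ^ 2 * (x ^ 2 + y ^ 2) := by
  have h1 : s ^ 2 ≤ γ ^ 2 := sq_le_sq' (abs_le.mp hs).1 (abs_le.mp hs).2
  have h2 : r ^ 2 ≤ γ ^ 2 := sq_le_sq' (abs_le.mp hr).1 (abs_le.mp hr).2
  nlinarith [sq_nonneg (s * y - r * x), mul_le_mul_of_nonneg_right h1 (sq_nonneg x),
    mul_le_mul_of_nonneg_right h1 (sq_nonneg y), mul_le_mul_of_nonneg_right h2 (sq_nonneg x),
    mul_le_mul_of_nonneg_right h2 (sq_nonneg y)]

theorem cmp0 {x y v w γ : ℝ} (h0 : 0 ≤ γ) (h1 : γ ≤ 1 / 100)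
    (h : v ^ 2 + w ^ 2 ≤ 4 * γ ^ 2 * (x ^ 2 + y ^ 2)) :
    x ^ 2 + y ^ 2 ≤ (1 + 5 * γ) * ((x + v) ^ 2 + (y + w) ^ 2) ∧
      (x + v) ^ 2 + (y + w) ^ 2 ≤ (1 + 5 * γ) * (x ^ 2 + y ^ 2) := by
  have hN : 0 ≤ x ^ 2 + y ^ 2 := by positivity
  have hc : (x * v + y * w) ^ 2 ≤ (2 * γ * (x ^ 2 + y ^ 2)) ^ 2 := by
    nlinarith [sq_nonneg (x * w - y * v), mul_le_mul_of_nonneg_left h hN]
  obtain ⟨c1, c2⟩ := abs_le_of_sq_le_sq' hc (by positivity)
  have e : (x + v) ^ 2 + (y + w) ^ 2 = (x ^ 2 + y ^ 2) + 2 * (x * v + y * w) + (v ^ 2 + w ^ 2) := by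
    ring
  have hv : 0 ≤ v ^ 2 + w ^ 2 := by positivity
  rw [e]
  generalize x ^ 2 + y ^ 2 = N at *
  generalize x * v + y * w = C at *
  generalize v ^ 2 + w ^ 2 = V at *
  have g1 : 0 ≤ γ * N := mul_nonneg h0 hN
  have g2 : γ * (γ * N) ≤ 1 / 100 * (γ * N) := mul_le_mul_of_nonneg_right h1 g1
  constructor
  · nlinarith [mul_le_mul_of_nonneg_left c1 h0, mul_nonneg h0 hv]
  · nlinarith

theorem cmpLL {a b c e θ γ x y : ℝ} (h0 : 0 ≤ γ) (h1 : γ ≤ 1 / 100) (ha : |a - θ| ≤ γ * θ)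
    (hb : |b| ≤ γ * θ) (hc : |c| ≤ γ * θ) (he : |e - θ| ≤ γ * θ) :
    θ ^ 2 * (x ^ 2 + y ^ 2) ≤ (1 + 5 * γ) * ((a * x + b * y) ^ 2 + (c * x + e * y) ^ 2) ∧
      (a * x + b * y) ^ 2 + (c * x + e * y) ^ 2 ≤ (1 + 5 * γ) * (θ ^ 2 * (x ^ 2 + y ^ 2)) := by
  have k1 := lin_bd (x := x) (y := y) ha hb
  have k2 := lin_bd (x := x) (y := y) hc he
  have := cmp0 (x := θ * x) (y := θ * y) (v := (a - θ) * x + b * y) (w := c * x + (e - θ) * y)
    h0 h1 (by nlinarith)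
  rw [show θ * x + ((a - θ) * x + b * y) = a * x + b * y by ring,
    show θ * y + (c * x + (e - θ) * y) = c * x + e * y by ring,
    show (θ * x) ^ 2 + (θ * y) ^ 2 = θ ^ 2 * (x ^ 2 + y ^ 2) by ring] at this
  exact this

/-- One index of a diagonal frame. -/
theorem diag1 (b : Bool) {a θ γ μ z l w w' : ℝ} (hθ : 0 < θ) (hθ1 : θ ≤ 1 / 32) (h0 : 0 ≤ γ)
    (h1 : γ ≤ 1 / 100) (hμ : 0 ≤ μ) (ha : |a - θ ^ wt b| ≤ γ * θ ^ wt b)
    (hP : b = true → a = θ ^ 2) (hz : z ∈ ok b) (hL : b = false → z = 0)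
    (hl : |l - if b then θ ^ 2 * Real.log (θ ^ 2) else 0| ≤ γ * θ ^ wt b) (hw : |w'| ≤ μ)
    (he : θ ^ 2 * (w' + gm b z) = a * (w + gm b (a * z)) - l) :
    |w| ≤ μ + 20 * γ ∧ ∀ x, θ ^ 2 * (x ^ 2 / om b z) ≤ (1 + 5 * γ) * ((a * x) ^ 2 / om b (a * z)) ∧
      (a * x) ^ 2 / om b (a * z) ≤ (1 + 5 * γ) * (θ ^ 2 * (x ^ 2 / om b z)) := by
  have hθ2 : 0 < θ ^ 2 := by positivity
  cases b
  · simp only [Bool.false_eq_true, if_false, wt, pow_one, om, gm, div_one, sub_zero] at *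
    rw [hL trivial] at he
    constructor
    · have k1 := abs_le.mp ha
      have k2 : a * |w| ≤ θ ^ 2 * μ + γ * θ := by
        have : a * w = θ ^ 2 * w' + l := by linarith
        have ha0 : 0 ≤ a := by nlinarith
        rw [← abs_of_nonneg ha0, ← abs_mul, this]
        refine (abs_add_le _ _).trans (add_le_add ?_ hl)
        rw [abs_mul, abs_of_pos hθ2]
        exact mul_le_mul_of_nonneg_left hw hθ2.le
      have k3 : θ * (1 - γ) * |w| ≤ a * |w| :=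
        mul_le_mul_of_nonneg_right (by linarith) (abs_nonneg w)
      have k4 : (1 - γ) * |w| ≤ θ * μ + γ := by
        refine le_of_mul_le_mul_left ?_ hθ
        nlinarith
      nlinarith [abs_nonneg w, mul_le_mul_of_nonneg_right h1 (abs_nonneg w),
        mul_le_mul_of_nonneg_right hθ1 hμ]
    · intro x
      have z0 : |(0 : ℝ)| ≤ γ * θ := by rw [abs_zero]; positivity
      have := cmpLL (x := x) (y := 0) h0 h1 ha z0 z0 (e := θ) (by rw [sub_self]; exact z0)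
      simpa using this
  · simp only [if_true, wt, om, gm, ok, mem_Ioi] at *
    rw [hP trivial] at he ⊢
    constructor
    · rw [Real.log_mul hθ2.ne' hz.ne'] at he
      have k : θ ^ 2 * |w| ≤ θ ^ 2 * (μ + γ) := by
        have : θ ^ 2 * w = θ ^ 2 * w' + (l - θ ^ 2 * Real.log (θ ^ 2)) := by linarith
        calc θ ^ 2 * |w| = |θ ^ 2 * w| := by rw [abs_mul, abs_of_pos hθ2]
          _ ≤ |θ ^ 2 * w'| + |l - θ ^ 2 * Real.log (θ ^ 2)| := by rw [this]; exact abs_add_le _ _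
          _ ≤ θ ^ 2 * μ + γ * θ ^ 2 := by
            refine add_le_add ?_ hl
            rw [abs_mul, abs_of_pos hθ2]
            exact mul_le_mul_of_nonneg_left hw hθ2.le
          _ = _ := by ring
      have := le_of_mul_le_mul_left k hθ2
      linarith
    · intro x
      have e : (θ ^ 2 * x) ^ 2 / (θ ^ 2 * z) = θ ^ 2 * (x ^ 2 / z) := by field_simp
      have z0 : 0 ≤ θ ^ 2 * (x ^ 2 / z) := by positivity
      rw [e]
      exact ⟨by nlinarith, by nlinarith⟩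

theorem gradLL {a b c e θ γ μ l l' w v w' v' : ℝ} (hθ : 0 < θ) (hθ1 : θ ≤ 1 / 32) (h0 : 0 ≤ γ)
    (h1 : γ ≤ 1 / 100) (hμ : 0 ≤ μ) (ha : |a - θ| ≤ γ * θ) (hb : |b| ≤ γ * θ) (hc : |c| ≤ γ * θ)
    (he : |e - θ| ≤ γ * θ) (hl : |l| ≤ γ * θ) (hl' : |l'| ≤ γ * θ) (hw : |w'| ≤ μ) (hv : |v'| ≤ μ)
    (e1 : θ ^ 2 * w' = a * w + c * v - l) (e2 : θ ^ 2 * v' = b * w + e * v - l') :
    |w| ≤ μ + 20 * γ ∧ |v| ≤ μ + 20 * γ := by
  have hθ2 : 0 < θ ^ 2 := by positivity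
  have key : ∀ {a c l w v w' : ℝ}, |a - θ| ≤ γ * θ → |c| ≤ γ * θ → |l| ≤ γ * θ → |w'| ≤ μ →
      θ ^ 2 * w' = a * w + c * v - l → |w| ≤ θ * μ + γ + γ * |w| + γ * |v| := by
    intro a c l w v w' ha hc hl hw e
    refine le_of_mul_le_mul_left ?_ hθ
    have e' : θ * w = θ ^ 2 * w' + l - (a - θ) * w - c * v := by linarith
    have t1 : |θ ^ 2 * w'| ≤ θ ^ 2 * μ := by
      rw [abs_mul, abs_of_pos hθ2]; exact mul_le_mul_of_nonneg_left hw hθ2.le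
    have t2 : |(a - θ) * w| ≤ γ * θ * |w| := by
      rw [abs_mul]; exact mul_le_mul_of_nonneg_right ha (abs_nonneg _)
    have t3 : |c * v| ≤ γ * θ * |v| := by
      rw [abs_mul]; exact mul_le_mul_of_nonneg_right hc (abs_nonneg _)
    have t4 : θ * |w| = |θ * w| := by rw [abs_mul, abs_of_pos hθ]
    rw [t4, e']
    have s1 := abs_sub (θ ^ 2 * w' + l - (a - θ) * w) (c * v)
    have s2 := abs_sub (θ ^ 2 * w' + l) ((a - θ) * w)
    have s3 := abs_add_le (θ ^ 2 * w') l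
    nlinarith
  have k1 := key ha hc hl hw e1
  have k2 := key (v := w) (w := v) he hb hl' hv (by linarith)
  have p1 := mul_le_mul_of_nonneg_right h1 (abs_nonneg w)
  have p2 := mul_le_mul_of_nonneg_right h1 (abs_nonneg v)
  have p3 := mul_le_mul_of_nonneg_right hθ1 hμ
  have := abs_nonneg w
  have := abs_nonneg v
  constructor <;> linarith

theorem taylor {s : ℝ} (hs : |s| ≤ 1 / 2) :
    |(1 + s) * Real.log (1 + s) - s - s ^ 2 / 2| ≤ 4 * |s| ^ 3 := by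
  have h := Real.abs_log_sub_add_sum_range_le (x := -s) (by rw [abs_neg]; linarith) 2
  simp only [Finset.sum_range_succ, Finset.sum_range_zero, abs_neg, sub_neg_eq_add] at h
  norm_num at h
  have h0 := abs_nonneg s
  have h3 : 0 ≤ |s| ^ 3 := by positivity
  have h1 : |s| ^ 3 / (1 - |s|) ≤ 2 * |s| ^ 3 := by
    rw [div_le_iff₀ (by linarith)]
    nlinarith
  have e : (1 + s) * Real.log (1 + s) - s - s ^ 2 / 2 =
      (1 + s) * (-s + s ^ 2 / 2 + Real.log (1 + s)) - s ^ 3 / 2 := by ring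
  have h2 : |1 + s| ≤ 3 / 2 := (abs_add_le _ _).trans (by rw [abs_one]; linarith)
  have h4 : |(1 + s) * (-s + s ^ 2 / 2 + Real.log (1 + s))| ≤ 3 / 2 * (2 * |s| ^ 3) := by
    rw [abs_mul]
    exact mul_le_mul h2 (h.trans h1) (abs_nonneg _) (by norm_num)
  have h5 : |s ^ 3 / 2| = |s| ^ 3 / 2 := by rw [abs_div, abs_pow, abs_two]
  rw [e]
  have := abs_sub ((1 + s) * (-s + s ^ 2 / 2 + Real.log (1 + s))) (s ^ 3 / 2)
  linarith

/-- One index of the frame that changes the type. -/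
theorem one (b b' : Bool) (hb : b' = true → b = true) {c₀ ρ c η : ℝ} (h0 : 0 < c₀) (hρ : 0 < ρ)
    (h1 : ρ ≤ 1) (h2 : 2 * ρ ≤ √c₀) (h3 : 4 * ρ ≤ η * √c₀)
    (hc : if b = b' then c = 0 else c ∈ Icc c₀ (1 / 4)) :
    ∃ A l : ℝ, ρ ^ 2 ≤ A ∧ (b' = true → b = true ∧ c = 0 ∧ A = ρ ^ 2) ∧
      (∀ x ∈ ivc b' 1, c + A * x ∈ ivc b 1 ∧ c + A * x ∈ (if b' then univ else ok b)) ∧
      (∀ x ∈ iv b' 1, c + A * x ∈ iv b 1 ∧
        |(md b (c + A * x) - md b c - l * x) / ρ ^ 2 - md b' x| ≤ η) ∧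
      ∀ x ∈ iv b' 1, (b' = false → x = 0) → c + A * x = c + ρ ^ 2 * x ∧
        (∀ z, (A * z) ^ 2 / om b (c + A * x) = ρ ^ 2 * (z ^ 2 / om b' x)) ∧
        A * gm b (c + A * x) - l = ρ ^ 2 * gm b' x := by
  have hρ2 : 0 < ρ ^ 2 := by positivity
  have hs0 : 0 < √c₀ := Real.sqrt_pos.mpr h0
  have hη : 0 ≤ η := by
    by_contra h
    have := mul_neg_of_neg_of_pos (not_le.mp h) hs0
    linarith
  have h11 : ρ ^ 2 ≤ 1 := pow_le_one₀ hρ.le h1
  cases b' <;> cases b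
  · simp only [if_true] at hc
    subst hc
    refine ⟨ρ, 0, by nlinarith, by simp, fun x hx => ⟨?_, by simp [ok]⟩, fun x hx => ⟨?_, ?_⟩,
      fun x _ hx => ?_⟩
    · simp only [ivc, Bool.false_eq_true, if_false, mem_Icc] at hx ⊢
      constructor <;> nlinarith
    · simp only [iv, Bool.false_eq_true, if_false, mem_Ioo] at hx ⊢
      constructor <;> nlinarith
    · have : (md false (0 + ρ * x) - md false 0 - 0 * x) / ρ ^ 2 - md false x = 0 := by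
        simp only [md, Bool.false_eq_true, if_false]
        field_simp
        ring
      rw [this, abs_zero]; exact hη
    · rw [hx rfl]
      simp [om, gm, mul_pow]
  · simp only [Bool.true_eq_false, if_false, mem_Icc] at hc
    have hcp : 0 < c := h0.trans_le hc.1
    have hsc : √c₀ ≤ √c := Real.sqrt_le_sqrt hc.1
    have hs : 0 < √c := Real.sqrt_pos.mpr hcp
    have hq : √c * √c = c := Real.mul_self_sqrt hcp.le
    have hA : ρ * √c ≤ c / 2 := by nlinarith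
    have hA0 : 0 < ρ * √c := by positivity
    refine ⟨ρ * √c, (Real.log c + 1) * (ρ * √c), by nlinarith, by simp, fun x hx => ?_,
      fun x hx => ⟨?_, ?_⟩, fun x _ hx => ?_⟩
    · simp only [ivc, ok, Bool.false_eq_true, if_false, if_true, mem_Icc, mem_Ioi, one_pow] at hx ⊢
      refine ⟨⟨?_, ?_⟩, ?_⟩ <;> nlinarith
    · simp only [iv, Bool.false_eq_true, if_false, if_true, mem_Ioo, one_pow] at hx ⊢
      constructor <;> nlinarith
    · simp only [iv, Bool.false_eq_true, if_false, mem_Ioo] at hx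
      have hx1 : |x| ≤ 1 := abs_le.mpr ⟨hx.1.le, hx.2.le⟩
      have hs1 : |ρ * x / √c| ≤ ρ / √c := by
        rw [abs_div, abs_mul, abs_of_pos hρ, abs_of_pos hs]
        exact div_le_div_of_nonneg_right (mul_le_of_le_one_right hρ.le hx1) hs.le
      have hs2 : ρ / √c ≤ 1 / 2 := by rw [div_le_iff₀ hs]; linarith
      have ht := taylor (hs1.trans hs2)
      have hp : 0 < 1 + ρ * x / √c := by
        have := (abs_le.mp (hs1.trans hs2)).1
        linarith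
      have e1 : c + ρ * √c * x = c * (1 + ρ * x / √c) := by
        generalize √c = r at *
        rw [← hq]
        field_simp
      have e2 : (md true (c + ρ * √c * x) - md true c - (Real.log c + 1) * (ρ * √c) * x) / ρ ^ 2 -
          md false x = c / ρ ^ 2 * ((1 + ρ * x / √c) * Real.log (1 + ρ * x / √c) - ρ * x / √c -
            (ρ * x / √c) ^ 2 / 2) := by
        simp only [md, Bool.false_eq_true, if_false, if_true]
        rw [e1, Real.log_mul hcp.ne' hp.ne']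
        generalize Real.log (1 + ρ * x / √c) = L
        generalize Real.log c = M
        generalize √c = r at *
        rw [← hq]
        field_simp
        ring
      rw [e2, abs_mul, abs_of_pos (by positivity)]
      have k1 : |ρ * x / √c| ^ 3 ≤ (ρ / √c) ^ 3 := pow_le_pow_left₀ (abs_nonneg _) hs1 3
      have k2 : c / ρ ^ 2 * (4 * (ρ / √c) ^ 3) = 4 * ρ / √c := by
        generalize √c = r at *
        rw [← hq]
        field_simp
      have k3 : 4 * ρ / √c ≤ η := by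
        rw [div_le_iff₀ hs]
        exact h3.trans (mul_le_mul_of_nonneg_left hsc hη)
      calc _ ≤ c / ρ ^ 2 * (4 * (ρ / √c) ^ 3) :=
            mul_le_mul_of_nonneg_left (ht.trans (by linarith)) (by positivity)
        _ ≤ η := k2 ▸ k3
    · rw [hx rfl]
      refine ⟨by simp, fun z => ?_, ?_⟩
      · simp only [om, Bool.false_eq_true, if_false, if_true, mul_zero, add_zero, div_one]
        generalize √c = r at *
        rw [← hq]
        field_simp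
      · simp only [gm, Bool.false_eq_true, if_false, if_true, mul_zero, add_zero]
        ring
  · simp at hb
  · simp only [if_true] at hc
    subst hc
    refine ⟨ρ ^ 2, ρ ^ 2 * Real.log (ρ ^ 2), le_rfl, by simp, fun x hx => ⟨?_, by simp⟩,
      fun x hx => ⟨?_, ?_⟩, fun x hx _ => ⟨rfl, fun z => ?_, ?_⟩⟩
    · simp only [ivc, if_true, mem_Icc, one_pow] at hx ⊢
      constructor <;> nlinarith
    · simp only [iv, if_true, mem_Ioo, one_pow] at hx ⊢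
      constructor <;> nlinarith
    · simp only [iv, if_true, mem_Ioo] at hx
      have : (md true (0 + ρ ^ 2 * x) - md true 0 - ρ ^ 2 * Real.log (ρ ^ 2) * x) / ρ ^ 2 -
          md true x = 0 := by
        simp only [md, if_true, zero_add]
        rw [Real.log_mul hρ2.ne' hx.1.ne']
        field_simp
        ring
      rw [this, abs_zero]; exact hη
    · simp only [iv, if_true, mem_Ioo] at hx
      have := hx.1.ne'
      simp only [om, if_true, zero_add]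
      field_simp
    · simp only [iv, if_true, mem_Ioo] at hx
      simp only [gm, if_true, zero_add]
      rw [Real.log_mul hρ2.ne' hx.1.ne']
      ring

theorem vol_iv (b : Bool) : volume (iv b 1) ≤ 2 := by
  cases b
  · simp only [iv, Bool.false_eq_true, if_false, Real.volume_Ioo]
    norm_num
  · simp [iv]

theorem vol_bx (τ : Ty) : volume.real (bx τ 1) ≤ 4 := by
  have h : volume (bx τ 1) ≤ 4 := by
    rw [bx, Measure.volume_eq_prod, Measure.prod_prod]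
    exact (mul_le_mul' (vol_iv _) (vol_iv _)).trans (by norm_num)
  have := ENNReal.toReal_mono (by norm_num) h
  simpa [Measure.real] using this

theorem le_of_mul {A ρ w w' δ : ℝ} (hρ : 0 < ρ) (hA : ρ ^ 2 ≤ A) (h : ρ ^ 2 * w' = A * w)
    (hw : |w'| ≤ δ) : |w| ≤ δ := by
  have h2 : 0 < ρ ^ 2 := by positivity
  have h3 := congrArg abs h
  rw [abs_mul, abs_mul, abs_of_pos h2, abs_of_pos (h2.trans_le hA)] at h3
  refine le_of_mul_le_mul_left ?_ h2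
  nlinarith [mul_le_mul_of_nonneg_right hA (abs_nonneg w)]

end PertS

open PertS in
theorem pert_ok (h1 : StApi) (h3 : StFC) (h5 : StFG) : StPert := by
  intro d u F fr θ γ μ hg hP hθ1 h0 hγ hμ hμ1 q hU z1 z2 hn
  obtain ⟨hp, k0, k1, k2⟩ := back h1 h3 h5 hg fr hP.cp hU
  have hθ : 0 < θ := hP.ρ ▸ fr.ρ_pos
  have hδ : (1 + μ) * (1 + 5 * γ) ≤ 1 + (μ + 20 * γ) := by nlinarith
  have f1 : (fr.fm q).2.1 = fr.a * q.2.1 + fr.b * q.2.2 := by simp [Fr.fm, Fr.sp, Fr.S, hP.p]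
  have f2 : (fr.fm q).2.2 = fr.c * q.2.1 + fr.e * q.2.2 := by simp [Fr.fm, Fr.sp, Fr.S, hP.p]
  have nb := nearH_back (τ := d.τ) (τ' := d.τ) fr (by linarith) hμ hδ (Dm.o1_pos hp)
    (Dm.o2_pos hp) (Dm.o1_pos (d := fr.dm d d.τ) hU) (Dm.o2_pos (d := fr.dm d d.τ) hU) k0
  rw [hP.ρ] at k1 k2 nb
  by_cases hD : fr.b = 0 ∧ fr.c = 0
  · rw [hD.1, zero_mul, add_zero] at f1
    rw [hD.2, zero_mul, zero_add] at f2
    rw [hD.2, zero_mul, add_zero, f1] at k1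
    rw [hD.1, zero_mul, zero_add, f2] at k2
    obtain ⟨a1, a2⟩ := diag1 d.τ.1 hθ hθ1 h0 hγ hμ hP.a
      (fun h => hP.ρ ▸ (hP.cp.1 h).2.2.1) hU.2.2.1 z1 hP.l1 hn.2.1 k1
    obtain ⟨b1, b2⟩ := diag1 d.τ.2 hθ hθ1 h0 hγ hμ hP.e
      (fun h => hP.ρ ▸ (hP.cp.2 h).2.2.1) hU.2.2.2 z2 hP.l2 hn.2.2 k2
    refine ⟨nb (fun e => ?_) hn.1, a1, b1⟩
    simp only [hq0, o1, o2, Fr.S, hD.1, hD.2, zero_mul, add_zero, zero_add, f1, f2]
    have := a2 e.1
    have := b2 e.2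
    constructor <;> linarith
  · have t1 : d.τ.1 = false := by
      by_contra h
      have := hP.cp.1 (by simpa using h)
      exact hD ⟨this.2.2.2.1, this.2.2.2.2⟩
    have t2 : d.τ.2 = false := by
      by_contra h
      have := hP.cp.2 (by simpa using h)
      exact hD ⟨this.2.2.2.1, this.2.2.2.2⟩
    have ha := hP.a
    have he := hP.e
    have hl1 := hP.l1
    have hl2 := hP.l2
    rw [z1 t1, z2 t2, mul_zero, mul_zero, add_zero] at f1 f2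
    rw [f1, f2] at k1 k2
    rw [z1 t1] at k1
    rw [z2 t2] at k2
    simp only [t1, t2, gm, wt, Bool.false_eq_true, if_false, pow_one, add_zero, sub_zero]
      at k1 k2 ha he hl1 hl2
    obtain ⟨a1, b1⟩ := gradLL hθ hθ1 h0 hγ hμ ha hP.b hP.c he hl1 hl2 hn.2.1 hn.2.2 k1 k2
    refine ⟨nb (fun e => ?_) hn.1, a1, b1⟩
    simp only [hq0, o1, o2, om, t1, t2, Bool.false_eq_true, if_false, div_one, Fr.S]
    exact cmpLL h0 hγ ha hP.b hP.c he

open PertS in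
theorem switch_ok (h1 : StApi) (h3 : StFC) (h4 : StFI) (h5 : StFG) : StSwitch := by
  intro τ τ' Λ c₀ ε' hb1 hb2 h0 hε
  have hs0 : 0 < √c₀ := Real.sqrt_pos.mpr h0
  refine ⟨min 1 (min (√c₀ / 2) (ε' * √c₀ / 32)), by positivity, fun ρ hρ hρ0 => ?_⟩
  simp only [le_min_iff] at hρ0
  refine ⟨ε' * ρ ^ 4 / 2, by positivity, ?_⟩
  rintro d u F p rfl hN hC hp1 hp2
  obtain ⟨A, l, a1, a2, a3, a4, a5⟩ := one d.τ.1 τ'.1 hb1 (η := ε' / 8) h0 hρ hρ0.1
    (by linarith) (by linarith) hp1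
  obtain ⟨B, m, b1, b2, b3, b4, b5⟩ := one d.τ.2 τ'.2 hb2 (η := ε' / 8) h0 hρ hρ0.1
    (by linarith) (by linarith) hp2
  have hρ2 : 0 < ρ ^ 2 := by positivity
  have hρ4 : 0 < ρ ^ 4 := by positivity
  have hA : 0 < A := hρ2.trans_le a1
  have hB : 0 < B := hρ2.trans_le b1
  obtain ⟨fr, hfr⟩ : ∃ fr : Fr, fr = ⟨0, ρ, p, A, 0, 0, B, md d.τ.1 p.1 + md d.τ.2 p.2, l, m, hρ,
    by simp [hA.ne', hB.ne']⟩ := ⟨_, rfl⟩
  have sp1 : ∀ y : ℝ × ℝ, (fr.sp y).1 = p.1 + A * y.1 := fun y => by simp [hfr, Fr.sp, Fr.S]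
  have sp2 : ∀ y : ℝ × ℝ, (fr.sp y).2 = p.2 + B * y.2 := fun y => by simp [hfr, Fr.sp, Fr.S]
  have hS : ∀ y : ℝ × ℝ, fr.S y = (A * y.1, B * y.2) := fun y => by simp [hfr, Fr.S]
  have htm : ∀ t, fr.tm t = ρ ^ 4 * t := fun t => by simp [hfr, Fr.tm]
  have hfρ : fr.ρ = ρ := by rw [hfr]
  have hdet : |fr.det|⁻¹ ≤ (ρ ^ 4)⁻¹ := by
    have : fr.det = A * B := by simp [hfr, Fr.det]
    rw [this, abs_of_pos (mul_pos hA hB)]
    refine inv_anti₀ hρ4 ?_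
    have := mul_le_mul a1 b1 hρ2.le hA.le
    nlinarith
  have hCp : fr.Cp d.τ τ' := by
    rw [hfr]
    exact ⟨fun h => ⟨(a2 h).1, (a2 h).2.1, (a2 h).2.2, rfl, rfl⟩,
      fun h => ⟨(b2 h).1, (b2 h).2.1, (b2 h).2.2, rfl, rfl⟩⟩
  obtain ⟨-, -, -, g1, -, -, -, gGS⟩ := h5.1 fr d τ' hCp
  have htI : ∀ t ∈ Icc (-1 : ℝ) 0, fr.tm t ∈ Icc (-1 : ℝ) 0 := fun t ht => by
    have : ρ ^ 4 ≤ 1 := pow_le_one₀ hρ.le hρ0.1
    rw [htm]
    constructor <;> nlinarith [ht.1, ht.2]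
  have hN' : N0 (fr.dm d τ') (fr.pull u) (fr.pullF F) := by
    refine ⟨gGS u F hN.gs, fun t ht => hN.tI (htI t ht), fun y hy => ?_⟩
    refine ⟨hN.bO ⟨?_, ?_⟩, ?_, ?_⟩
    · rw [sp1]; exact (a3 _ hy.1).1
    · rw [sp2]; exact (b3 _ hy.2).1
    · rw [sp1]; exact (a3 _ hy.1).2
    · rw [sp2]; exact (b3 _ hy.2).2
  have hsub : fr.sp '' bx τ' 1 ⊆ bx d.τ 1 := by
    rintro _ ⟨y, hy, rfl⟩
    constructor
    · rw [sp1]; exact (a4 _ hy.1).1
    · rw [sp2]; exact (b4 _ hy.2).1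
  have hR : Reg d (bx d.τ 1) := reg_bx hN.bO
  have hR' : Reg (fr.dm d τ') (bx τ' 1) := reg_bx hN'.bO
  have key : ∀ (g : X → ℝ) (M : ℝ), Lc d g → (∀ t ∈ Icc (-1 : ℝ) 0,
      ∫ y in bx d.τ 1, g (t, y) ^ 2 ≤ M) → ∀ t ∈ Icc (-1 : ℝ) 0,
      ∫ y in bx τ' 1, g (fr.fm (t, y)) ^ 2 ≤ (ρ ^ 4)⁻¹ * M := by
    intro g M hg hM t ht
    have hI := hN.tI (htI t ht)
    have e : ∫ y in bx τ' 1, g (fr.fm (t, y)) ^ 2 = _ :=
      ((h4 fr _ hR'.ms).2.1 fun y => g (fr.tm t, y) ^ 2).2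
    rw [e]
    refine mul_le_mul hdet (le_trans ?_ (hM _ (htI t ht))) (integral_nonneg fun _ => sq_nonneg _)
      (inv_pos.mpr hρ4).le
    exact setIntegral_mono_set ((hg.pow 2).integrableOn hR hI)
      (Eventually.of_forall fun _ => sq_nonneg _) hsub.eventuallyLE
  refine ⟨fr.dm d τ', fr.pull u, fr.pullF F, rfl, ⟨hN', fun t ht => ?_⟩, fun t ht => ?_,
    fun δ y hy z1 z2 hn => ?_⟩
  · have k3 : ∀ y, fr.pullF F (t, y) ^ 2 = ρ ^ 4 * F (fr.fm (t, y)) ^ 2 := fun y => by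
      simp only [Fr.pullF, hfρ]; ring
    show ∫ y in bx τ' 1, fr.pullF F (t, y) ^ 2 ≤ _
    simp only [k3]
    rw [integral_const_mul]
    calc _ ≤ ρ ^ 4 * ((ρ ^ 4)⁻¹ * Λ) :=
          mul_le_mul_of_nonneg_left (key F Λ hN.gs.lcF hN.en t ht) hρ4.le
      _ = Λ := by field_simp
  · have hI := hN'.tI ht
    have i1 : IntegrableOn (fun y => wv d.τ u (fr.fm (t, y)) ^ 2) (bx τ' 1) :=
      ((g1 _ hN.gs.bd).lc.pow 2).integrableOn hR' hI
    have i2 : IntegrableOn (fun _ : ℝ × ℝ => ε' ^ 2 / 8) (bx τ' 1) := integrableOn_const hR'.finite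
    have pt : ∀ y ∈ bx τ' 1, wv τ' (fr.pull u) (t, y) ^ 2 ≤
        2 * (ρ ^ 4)⁻¹ * wv d.τ u (fr.fm (t, y)) ^ 2 + ε' ^ 2 / 8 := by
      intro y hy
      have k1 := abs_le.mp (a4 _ hy.1).2
      have k2 := abs_le.mp (b4 _ hy.2).2
      have e1 : u0 d.τ (fr.fm (t, y)) = md d.τ.1 (fr.sp y).1 + md d.τ.2 (fr.sp y).2 := rfl
      rw [sp1, sp2] at e1
      have e2 : wv τ' (fr.pull u) (t, y) = wv d.τ u (fr.fm (t, y)) / ρ ^ 2 +
          (((md d.τ.1 (p.1 + A * y.1) - md d.τ.1 p.1 - l * y.1) / ρ ^ 2 - md τ'.1 y.1) +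
          ((md d.τ.2 (p.2 + B * y.2) - md d.τ.2 p.2 - m * y.2) / ρ ^ 2 - md τ'.2 y.2)) := by
        simp only [wv, Pi.sub_apply, Fr.pull]
        rw [e1]
        generalize u (fr.fm (t, y)) = U
        simp only [hfr, af, u0]
        ring
      have e3 : (ρ ^ 4)⁻¹ * wv d.τ u (fr.fm (t, y)) ^ 2 = (wv d.τ u (fr.fm (t, y)) / ρ ^ 2) ^ 2 := by
        field_simp
      rw [e2, mul_assoc, e3]
      generalize wv d.τ u (fr.fm (t, y)) / ρ ^ 2 = w
      generalize (md d.τ.1 (p.1 + A * y.1) - md d.τ.1 p.1 - l * y.1) / ρ ^ 2 - md τ'.1 y.1 = r at *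
      generalize (md d.τ.2 (p.2 + B * y.2) - md d.τ.2 p.2 - m * y.2) / ρ ^ 2 - md τ'.2 y.2 = s at *
      have k3 : (r + s) ^ 2 ≤ (ε' / 4) ^ 2 := sq_le_sq' (by linarith) (by linarith)
      nlinarith [sq_nonneg (w - (r + s))]
    have k := key _ _ hN.gs.bd.lc hC t ht
    show ∫ y in bx τ' 1, wv τ' (fr.pull u) (t, y) ^ 2 ≤ _
    calc _ ≤ ∫ y in bx τ' 1, (2 * (ρ ^ 4)⁻¹ * wv d.τ u (fr.fm (t, y)) ^ 2 + ε' ^ 2 / 8) :=
          setIntegral_mono_on ((hN'.gs.bd.lc.pow 2).integrableOn hR' hI)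
            (by exact (i1.const_mul (2 * (ρ ^ 4)⁻¹)).add i2) hR'.ms pt
      _ = 2 * (ρ ^ 4)⁻¹ * (∫ y in bx τ' 1, wv d.τ u (fr.fm (t, y)) ^ 2) +
            volume.real (bx τ' 1) * (ε' ^ 2 / 8) := by
          rw [integral_add (i1.const_mul _) i2, integral_const_mul, setIntegral_const, smul_eq_mul]
      _ ≤ 2 * (ρ ^ 4)⁻¹ * ((ρ ^ 4)⁻¹ * (ε' * ρ ^ 4 / 2) ^ 2) + 4 * (ε' ^ 2 / 8) :=
          add_le_add (mul_le_mul_of_nonneg_left k (by positivity))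
            (mul_le_mul_of_nonneg_right (vol_bx _) (by positivity))
      _ = ε' ^ 2 := by field_simp; ring
  · have hU : ((0, y) : X) ∈ (fr.dm d τ').U := ⟨hN'.tI ⟨by norm_num, le_rfl⟩, hR'.sub hy⟩
    obtain ⟨hp, k0, k1, k2⟩ := back h1 h3 h5 hN.gs fr hCp hU
    obtain ⟨c1, c2, c3⟩ := a5 _ hy.1 z1
    obtain ⟨d1, d2, d3⟩ := b5 _ hy.2 z2
    have f1 : (fr.fm (0, y)).2.1 = p.1 + A * y.1 := sp1 y
    have f2 : (fr.fm (0, y)).2.2 = p.2 + B * y.2 := sp2 y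
    have hfm : fr.fm (0, y) = (0, p.1 + ρ ^ 2 * y.1, p.2 + ρ ^ 2 * y.2) := by
      refine Prod.ext ?_ (Prod.ext (f1.trans c1) (f2.trans d1))
      show fr.tm 0 = 0
      rw [htm, mul_zero]
    rw [← hfm]
    rw [f1, f2] at k1 k2
    have fa : fr.a = A := by rw [hfr]
    have fb : fr.b = 0 := by rw [hfr]
    have fc : fr.c = 0 := by rw [hfr]
    have fe : fr.e = B := by rw [hfr]
    have fl : fr.l1 = l := by rw [hfr]
    have fm : fr.l2 = m := by rw [hfr]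
    rw [hfρ, fa, fc, fl] at k1
    rw [hfρ, fb, fe, fm] at k2
    refine ⟨nearH_back (κ := 1) fr zero_le_one ((abs_nonneg _).trans hn.2.1) (by linarith)
      (Dm.o1_pos hp) (Dm.o2_pos hp) (Dm.o1_pos (d := fr.dm d τ') hU)
      (Dm.o2_pos (d := fr.dm d τ') hU) k0 (fun e => ?_) hn.1,
      le_of_mul hρ a1 (by simp only at k1; linarith) hn.2.1,
      le_of_mul hρ b1 (by simp only at k2; linarith) hn.2.2⟩
    have e3 : hq0 d.τ (fr.S e) (fr.fm (0, y)) = fr.ρ ^ 2 * hq0 τ' e (0, y) := by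
      simp only [hq0, o1, o2, hS, f1, f2, hfρ]
      rw [c2, d2]
      ring
    rw [e3]
    exact ⟨(one_mul _).ge, (one_mul _).ge⟩

end Pool.Agent.P.MP_2cea5e_gt.I
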