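import Pool.Agent.P.MP_2cea5e_gt.I.St3

/-!
Chapter I: regularity at an interior point.
-/

open scoped ContDiff Topology
open MeasureTheory Set Filter

noncomputable section

set_option linter.dupNamespace false

namespace Pool.Agent.P.MP_2cea5e_gt.I

namespace RegLL

theorem one_dim {ψ ψ' ψ'' : ℝ → ℝ} {q σ η : ℝ}
    (h1 : ∀ s ∈ Icc (-1 / 2 : ℝ) (1 / 2), HasDerivAt ψ (ψ' s) s)
    (h2 : ∀ s ∈ Icc (-1 / 2 : ℝ) (1 / 2), HasDerivAt ψ' (ψ'' s) s)
    (h3 : ∀ s ∈ Icc (-1 / 2 : ℝ) (1 / 2), |ψ'' s - ψ'' 0| ≤ η)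
    (h4 : ∀ s ∈ Icc (-1 / 2 : ℝ) (1 / 2), |ψ s - s ^ 2 * q / 2| ≤ σ) :
    |ψ'' 0 - q| ≤ 16 * σ + 2 * η ∧ |ψ' 0| ≤ 2 * σ + η := by
  have h0 : (0 : ℝ) ∈ Icc (-1 / 2 : ℝ) (1 / 2) := ⟨by norm_num, by norm_num⟩
  have hη : 0 ≤ η := (abs_nonneg _).trans (h3 0 h0)
  have habs : ∀ s ∈ Icc (-1 / 2 : ℝ) (1 / 2), ‖s - 0‖ ≤ 1 / 2 := fun s hs => by
    rw [sub_zero, Real.norm_eq_abs, abs_le]
    exact ⟨by linarith [hs.1], hs.2⟩
  have a1 : ∀ s ∈ Icc (-1 / 2 : ℝ) (1 / 2), ‖ψ' s - ψ' 0 - ψ'' 0 * s‖ ≤ η / 2 := by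
    intro s hs
    have := (convex_Icc (-1 / 2 : ℝ) (1 / 2)).norm_image_sub_le_of_norm_hasDerivWithin_le
      (f := fun s => ψ' s - ψ'' 0 * s) (f' := fun s => ψ'' s - ψ'' 0) (C := η)
      (fun x hx => by
        simpa using ((h2 x hx).fun_sub ((hasDerivAt_id x).const_mul (ψ'' 0))).hasDerivWithinAt)
      h3 h0 hs
    have h5 := mul_le_mul_of_nonneg_left (habs s hs) hη
    rw [show ψ' s - ψ' 0 - ψ'' 0 * s = ψ' s - ψ'' 0 * s - (ψ' 0 - ψ'' 0 * 0) by ring]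
    linarith
  have a2 : ∀ s ∈ Icc (-1 / 2 : ℝ) (1 / 2),
      |ψ s - ψ' 0 * s - ψ'' 0 * s ^ 2 / 2 - ψ 0| ≤ η / 4 := by
    intro s hs
    have := (convex_Icc (-1 / 2 : ℝ) (1 / 2)).norm_image_sub_le_of_norm_hasDerivWithin_le
      (f := fun s => ψ s - ψ' 0 * s - ψ'' 0 * s ^ 2 / 2)
      (f' := fun s => ψ' s - ψ' 0 - ψ'' 0 * s) (C := η / 2)
      (fun x hx => by
        have := (((h1 x hx).fun_sub ((hasDerivAt_id' x).const_mul (ψ' 0))).fun_sub
          (((hasDerivAt_pow 2 x).const_mul (ψ'' 0)).div_const 2))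
        refine (this.congr_deriv ?_).hasDerivWithinAt
        push_cast
        ring)
      a1 h0 hs
    have h5 := mul_le_mul_of_nonneg_left (habs s hs) (half_pos_or hη)
    rw [Real.norm_eq_abs] at this
    simp only [mul_zero, sub_zero, ne_eq, OfNat.ofNat_ne_zero, not_false_eq_true, zero_pow,
      zero_div] at this h5
    linarith
  have b1 := abs_le.1 (a2 (1 / 2) ⟨by norm_num, le_rfl⟩)
  have b2 := abs_le.1 (a2 (-1 / 2) ⟨le_rfl, by norm_num⟩)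
  have c0 := abs_le.1 (h4 0 h0)
  have c1 := abs_le.1 (h4 (1 / 2) ⟨by norm_num, le_rfl⟩)
  have c2 := abs_le.1 (h4 (-1 / 2) ⟨le_rfl, by norm_num⟩)
  constructor <;> rw [abs_le] <;> constructor <;>
    linarith [b1.1, b1.2, b2.1, b2.2, c0.1, c0.2, c1.1, c1.2, c2.1, c2.2]
where half_pos_or {η : ℝ} (h : 0 ≤ η) : 0 ≤ η / 2 := by linarith

/-- The interior type. -/
abbrev TL0 : Ty := (false, false)

theorem mem_bx {r : ℝ} {y : ℝ × ℝ} (h : ‖y‖ < r) : y ∈ bx TL0 r := by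
  have h1 := (norm_fst_le y).trans_lt h
  have h2 := (norm_snd_le y).trans_lt h
  rw [Real.norm_eq_abs, abs_lt] at h1 h2
  exact ⟨h1, h2⟩

theorem mem_U {d : Dm} {u F : X → ℝ} (hτ : d.τ = TL0) (h : N0 d u F) {y : ℝ × ℝ} (hy : ‖y‖ < 1) :
    ((0 : ℝ), y) ∈ d.U :=
  ⟨h.tI ⟨by norm_num, le_rfl⟩, (reg_bx h.bO).sub (hτ ▸ mem_bx hy)⟩

theorem hq0_eq (e : ℝ × ℝ) (p : X) : hq0 TL0 e p = e.1 ^ 2 + e.2 ^ 2 := by
  simp [hq0, o1, o2, om]

theorem hq_eq (u : X → ℝ) (e : ℝ × ℝ) (p : X) :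
    hq u e p = h11 u p * e.1 ^ 2 + 2 * h12 u p * e.1 * e.2 + h22 u p * e.2 ^ 2 := by
  simp only [hq, hb, hs, T2.ap]
  ring

theorem near_mono {d : Dm} {u : X → ℝ} (hA : Api d u) {p : X} (hp : p ∈ d.U) {a b : ℝ}
    (hab : a ≤ b) (h : Near TL0 u a p) : Near TL0 u b p := by
  refine ⟨fun e => ?_, h.2.1.trans hab, h.2.2.trans hab⟩
  have h1 : 0 ≤ hq u e p := by
    rcases eq_or_ne e 0 with rfl | he
    · simp [hq_eq]
    · exact (hA.hqp p hp e he).1.le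
  have h2 : 0 ≤ hq0 TL0 e p := by
    rw [hq0_eq]
    positivity
  exact ⟨(h.1 e).1.trans (mul_le_mul_of_nonneg_right (by linarith) h2),
    (h.1 e).2.trans (mul_le_mul_of_nonneg_right (by linarith) h1)⟩

/-- Small values and small oscillation of the Hessian give closeness at the centre. -/
theorem near_of {d : Dm} {u F : X → ℝ} (hτ : d.τ = TL0) (h : N0 d u F) (hA : Api d u)
    {μ : ℝ} (hμ : 0 < μ) (hμ1 : μ ≤ 1) (hw : SupB d u (μ / 100) 0)
    (ho : ∀ y e : ℝ × ℝ, ‖y‖ < 1 → ‖e‖ ≤ 1 → |hq u e (0, y) - hq u e 0| ≤ μ / 100) :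
    Near TL0 u μ 0 := by
  have h0 : (0 : X) ∈ d.U := mem_U hτ h (y := 0) (by simp)
  have key : ∀ e : ℝ × ℝ, ‖e‖ ≤ 1 →
      |hq u e 0 - (e.1 ^ 2 + e.2 ^ 2)| ≤ 16 * (μ / 100) + 2 * (μ / 100) ∧
        |D (sv e) u 0| ≤ 2 * (μ / 100) + μ / 100 := by
    intro e he
    have hn : ∀ s ∈ Icc (-1 / 2 : ℝ) (1 / 2), ‖s • e‖ ≤ 1 / 2 := fun s hs => by
      rw [norm_smul, Real.norm_eq_abs]
      have : |s| ≤ 1 / 2 := abs_le.2 ⟨by linarith [hs.1], hs.2⟩
      nlinarith [abs_nonneg s, norm_nonneg e]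
    have hp : ∀ s : ℝ, (0 : X) + s • sv e = (0, s • e) := fun s => by simp [sv]
    have hU : ∀ s ∈ Icc (-1 / 2 : ℝ) (1 / 2), (0 : X) + s • sv e ∈ d.U := fun s hs => by
      rw [hp]
      exact mem_U hτ h (by linarith [hn s hs])
    have := one_dim (ψ := fun s => u (0 + s • sv e)) (ψ' := fun s => D (sv e) u (0 + s • sv e))
      (ψ'' := fun s => hq u e (0 + s • sv e)) (q := e.1 ^ 2 + e.2 ^ 2) (σ := μ / 100)
      (η := μ / 100)
      (fun s hs => hasDerivAt_ln _ _ (diffAt d.isOpen_U hA.sm (hU s hs)))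
      (fun s hs => by
        have := hasDerivAt_ln (sv e) 0 (diffAt d.isOpen_U (smO_D d.isOpen_U (sv e) hA.sm) (hU s hs))
        rwa [hA.hqD _ (hU s hs)] at this)
      (fun s hs => by
        simp only [zero_smul, add_zero]
        rw [hp]
        exact ho _ e (by linarith [hn s hs]) he)
      (fun s hs => by
        have h1 := hw (s • e) (by
          rw [hτ]
          exact ⟨mem_bx (by linarith [hn s hs]), Or.inl (by simp [om]; norm_num)⟩)
        rw [hτ] at h1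
        convert h1 using 2
        simp only [hp, wv, u0, md, Pi.sub_apply, Prod.smul_fst, Prod.smul_snd, smul_eq_mul,
          Bool.false_eq_true, if_false]
        ring)
    simpa only [zero_smul, add_zero] using this
  obtain ⟨a1, g1⟩ := key (1, 0) (by simp [Prod.norm_def])
  obtain ⟨a2, g2⟩ := key (0, 1) (by simp [Prod.norm_def])
  obtain ⟨a3, -⟩ := key (1, 1) (by simp [Prod.norm_def])
  simp only [hq_eq] at a1 a2 a3
  rw [abs_le] at a1 a2 a3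
  refine ⟨fun e => ?_, ?_, ?_⟩
  · rw [hq0_eq, hq_eq]
    have b1 : |h11 u 0 - 1| ≤ 18 / 100 * μ := abs_le.2 ⟨by linarith [a1.1], by linarith [a1.2]⟩
    have b2 : |h22 u 0 - 1| ≤ 18 / 100 * μ := abs_le.2 ⟨by linarith [a2.1], by linarith [a2.2]⟩
    have b3 : |h12 u 0| ≤ 27 / 100 * μ :=
      abs_le.2 ⟨by linarith [a1.2, a2.2, a3.1], by linarith [a1.1, a2.1, a3.2]⟩
    have c1 := mul_le_mul_of_nonneg_right b1 (sq_nonneg e.1)
    have c2 := mul_le_mul_of_nonneg_right b2 (sq_nonneg e.2)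
    have c3 : |2 * h12 u 0 * e.1 * e.2| ≤ 27 / 100 * μ * (e.1 ^ 2 + e.2 ^ 2) := by
      rw [show 2 * h12 u 0 * e.1 * e.2 = h12 u 0 * (2 * e.1 * e.2) by ring, abs_mul]
      refine mul_le_mul b3 (abs_le.2 ⟨?_, ?_⟩) (abs_nonneg _) (by positivity)
      · nlinarith [sq_nonneg (e.1 + e.2)]
      · nlinarith [sq_nonneg (e.1 - e.2)]
    rw [← abs_sq e.1, ← abs_mul, abs_sq, abs_le] at c1
    rw [← abs_sq e.2, ← abs_mul, abs_sq, abs_le] at c2
    rw [abs_le] at c3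
    have hs : 0 ≤ e.1 ^ 2 + e.2 ^ 2 := by positivity
    have lo : (1 - μ / 2) * (e.1 ^ 2 + e.2 ^ 2) ≤
        h11 u 0 * e.1 ^ 2 + 2 * h12 u 0 * e.1 * e.2 + h22 u 0 * e.2 ^ 2 := by
      nlinarith [mul_nonneg hμ.le hs]
    constructor
    · nlinarith [mul_nonneg hμ.le hs]
    · refine le_trans ?_ (mul_le_mul_of_nonneg_left lo (by linarith))
      nlinarith [mul_nonneg (mul_nonneg hμ.le (sub_nonneg.2 hμ1)) hs]
  · have := hA.q1 0 h0
    rw [hτ] at this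
    simp only [Bool.false_eq_true, if_false, Prod.snd_zero, Prod.fst_zero, add_zero] at this
    rw [← this]
    exact le_trans g1 (by linarith)
  · have := hA.q2 0 h0
    rw [hτ] at this
    simp only [Bool.false_eq_true, if_false, Prod.snd_zero, add_zero] at this
    rw [← this]
    exact le_trans g2 (by linarith)

theorem norm_S {fr : Fr} {θ γ : ℝ} (h : Pert TL0 fr θ γ) (e : ℝ × ℝ) :
    ‖fr.S e‖ ≤ (1 + 2 * γ) * θ * ‖e‖ := by
  have hθ : 0 < θ := h.ρ ▸ fr.ρ_pos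
  have ha := h.a
  have he := h.e
  simp only [wt, Bool.false_eq_true, if_false, pow_one] at ha he
  have h1 : |e.1| ≤ ‖e‖ := norm_fst_le e
  have h2 : |e.2| ≤ ‖e‖ := norm_snd_le e
  have key : ∀ x y z w : ℝ, |x - θ| ≤ γ * θ → |y| ≤ γ * θ → |z| ≤ ‖e‖ → |w| ≤ ‖e‖ →
      |x * z + y * w| ≤ (1 + 2 * γ) * θ * ‖e‖ := by
    intro x y z w hx hy hz hw
    have h3 : |x| ≤ θ + γ * θ := by
      have := abs_add_le (x - θ) θ
      rw [sub_add_cancel, abs_of_pos hθ] at this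
      linarith
    have h4 := mul_le_mul h3 hz (abs_nonneg _) ((abs_nonneg _).trans h3)
    have h5 := mul_le_mul hy hw (abs_nonneg _) ((abs_nonneg _).trans hy)
    have h6 := abs_add_le (x * z) (y * w)
    rw [abs_mul, abs_mul] at h6
    linarith
  refine norm_prod_le_iff.2 ⟨key _ _ _ _ ha h.b h1 h2, ?_⟩
  change |fr.c * e.1 + fr.e * e.2| ≤ _
  rw [add_comm]
  exact key _ _ _ _ he h.c h2 h1

end RegLL

open RegLL in
theorem regLL_ok (h1 : StApi) (h2 : StSup) (h3 : StFC) (h5 : StFG) (h6 : StDecay)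
    (h7 : StPert) : StRegE (false, false) := by
  intro Λ δ hδ
  obtain ⟨θ, C, ε₁, hθ, hθ1, hC, hε₁, hD⟩ := h6 TL0 Λ
  set μ := min δ 1 / 2 with hμ
  have hμ0 : 0 < μ := half_pos (lt_min hδ one_pos)
  have hμ1 : 2 * μ ≤ 1 := by linarith [min_le_right δ 1]
  have hμ2 : 2 * μ ≤ δ := by linarith [min_le_left δ 1]
  set ε := min ε₁ (μ / (100 * C)) with hε
  have hε0 : 0 < ε := lt_min hε₁ (by positivity)
  have hCε : C * ε ≤ μ / 100 := by
    have := min_le_right ε₁ (μ / (100 * C))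
    rw [← hε, le_div_iff₀ (by positivity)] at this
    linarith
  refine ⟨ε, hε0, fun d u F hτ hN hE y _ hy1 hy2 => ?_⟩
  obtain rfl : y = 0 := Prod.ext (hy1 rfl) (hy2 rfl)
  have hA := h1 d u hN.gs.toGS0
  have h0 : (0 : X) ∈ d.U := mem_U hτ hN.toN0 (y := 0) (by simp)
  have key : ∀ k : ℕ, ∃ (d' : Dm) (u' F' : X → ℝ) (S : ℝ × ℝ → ℝ × ℝ), d'.τ = TL0 ∧
      NS Λ d' u' F' ∧ Exc d' u' (ε * (1 / 2) ^ k) ∧
      (∀ m, 0 ≤ m → m + 40 * (C * ε) * (1 - (1 / 2) ^ k) ≤ 1 → Near TL0 u' m 0 →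
        Near TL0 u (m + 40 * (C * ε) * (1 - (1 / 2) ^ k)) 0) ∧
      (∀ e, ‖S e‖ ≤ (2 - (1 / 2) ^ k) * θ ^ k * ‖e‖) ∧
      ∀ y, ((0 : ℝ), y) ∈ d'.U → ∀ e, hq u' e (0, y) = hq u (S e) (0, S y) / (θ ^ k) ^ 2 := by
    intro k
    induction k with
    | zero =>
      exact ⟨d, u, F, id, hτ, hN, by simpa using hE, fun m _ _ h => by simpa using h,
        fun e => by norm_num, fun y _ e => by simp⟩
    | succ k ih =>
      obtain ⟨d', u', F', S, hτ', hN', hE', hn, hS, hq'⟩ := ih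
      have hp0 : (0 : ℝ) < (1 / 2) ^ k := by positivity
      have hp1 : ((1 : ℝ) / 2) ^ k ≤ 1 := pow_le_one₀ (by norm_num) (by norm_num)
      have hCp : C * (ε * (1 / 2) ^ k) = C * ε * (1 / 2) ^ k := by ring
      have hCε0 : 0 < C * ε := by positivity
      obtain ⟨fr, hP, hN'', hE''⟩ := hD d' u' F' (ε * (1 / 2) ^ k) hτ' hN' (by positivity)
        ((mul_le_of_le_one_right hε0.le hp1).trans (min_le_left _ _)) hE'
      have hA' := h1 d' u' hN'.gs.toGS0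
      have hfm : ∀ y : ℝ × ℝ, fr.fm (0, y) = (0, fr.S y) := fun y => by
        simp [Fr.fm, Fr.tm, Fr.sp, hP.t1, hP.p]
      have hU := (h5.1 fr d' TL0 (hτ' ▸ hP.cp)).2.1
      refine ⟨fr.dm d' TL0, fr.pull u', fr.pullF F', fun e => S (fr.S e), rfl, hN'', ?_,
        fun m hm hm1 h => ?_, fun e => ?_, fun y hy e => ?_⟩
      · rw [pow_succ, ← mul_assoc, mul_one_div]
        exact hE''
      · have e1 : m + 40 * (C * ε) * (1 - (1 / 2) ^ (k + 1)) =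
            m + 20 * (C * (ε * (1 / 2) ^ k)) + 40 * (C * ε) * (1 - (1 / 2) ^ k) := by ring
        rw [e1] at hm1 ⊢
        have h8 := h7 d' u' F' fr θ (C * (ε * (1 / 2) ^ k)) m hN'.gs (hτ' ▸ hP) hθ1
          (by positivity) (by rw [hCp]; nlinarith) hm
          (by nlinarith [mul_nonneg hCε0.le (sub_nonneg.2 hp1), mul_pos hCε0 hp0]) 0
          (by rw [hτ']; exact mem_U rfl hN''.toN0 (y := 0) (by simp)) (fun _ => rfl)
          (fun _ => rfl) (hτ' ▸ h)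
        have e2 : fr.fm 0 = 0 := by
          change fr.fm ((0 : ℝ), (0 : ℝ × ℝ)) = 0
          rw [hfm]
          simp [Fr.S]
        rw [e2, hτ'] at h8
        exact hn _ (by positivity) hm1 h8
      · refine (hS _).trans ?_
        have h8 := mul_le_mul_of_nonneg_left (norm_S hP e)
          (show 0 ≤ (2 - (1 / 2) ^ k) * θ ^ k from mul_nonneg (by linarith) (by positivity))
        refine h8.trans ?_
        have h9 : (2 - (1 / 2 : ℝ) ^ k) * (1 + 2 * (C * (ε * (1 / 2) ^ k))) ≤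
            2 - (1 / 2) ^ (k + 1) := by
          rw [hCp, pow_succ]
          nlinarith [mul_pos (mul_pos hCε0 hp0) hp0, mul_le_mul_of_nonneg_right hCε hp0.le]
        have := mul_le_mul_of_nonneg_right h9 (show 0 ≤ θ ^ (k + 1) * ‖e‖ by positivity)
        rw [pow_succ θ] at this ⊢
        linarith
      · rw [hU, mem_preimage, hfm] at hy
        have h8 := (((h3 fr d'.U d'.isOpen_U).2.2 u' hA'.sm fun p hp => (hA'.pW p hp).ne').2 (0, y)
          (by rw [hfm]; exact hy)).2.2.1 e e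
        rw [hfm, hP.ρ] at h8
        rw [hq, h8, ← hq, hq' _ hy, div_div, ← mul_pow, pow_succ θ k]
  obtain ⟨ε₂, hε₂, hs⟩ := h2 TL0 Λ (μ / 100) (by positivity)
  have hc : ∀ v w : X, ∀ᶠ y : ℝ × ℝ in 𝓝 0,
      |D v (D w u) (0, y) - D v (D w u) 0| < μ / 1600 := by
    intro v w
    have a1 : ContinuousAt (D v (D w u)) ((0 : ℝ), (0 : ℝ × ℝ)) :=
      (diffAt d.isOpen_U (smO_D d.isOpen_U v (smO_D d.isOpen_U w hA.sm)) h0).continuousAt
    have a2 : ContinuousAt (fun y : ℝ × ℝ => D v (D w u) (0, y)) 0 :=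
      a1.comp_of_eq (f := fun y : ℝ × ℝ => ((0 : ℝ), y)) (by fun_prop) rfl
    exact Metric.tendsto_nhds.1 a2 _ (by positivity)
  obtain ⟨r, hr, hr'⟩ :=
    Metric.eventually_nhds_iff.1 ((hc e1 e1).and ((hc e1 e2).and (hc e2 e2)))
  obtain ⟨k, hk⟩ := exists_pow_lt_of_lt_one (show 0 < min (r / 2) (ε₂ / ε) by positivity)
    (show (1 / 2 : ℝ) < 1 by norm_num)
  obtain ⟨d', u', F', S, hτ', hN', hE', hn, hS, hq'⟩ := key k
  have hp0 : (0 : ℝ) < (1 / 2) ^ k := by positivity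
  have hθk : 0 < θ ^ k := by positivity
  have hθk' : θ ^ k ≤ (1 / 2) ^ k := pow_le_pow_left₀ hθ.le (by linarith) k
  have hS' : ∀ e, ‖e‖ ≤ 1 → ‖S e‖ ≤ 2 * θ ^ k := fun e he => by
    refine (hS e).trans ?_
    nlinarith [mul_pos hp0 hθk, norm_nonneg e, mul_nonneg (mul_pos hp0 hθk).le (norm_nonneg e),
      mul_le_mul_of_nonneg_left he hθk.le]
  have hI : (0 : ℝ) ∈ Icc (-1 : ℝ) 0 := ⟨by norm_num, le_rfl⟩
  have hsup := (hs d' u' F' 0 hτ' ⟨hN'.gs, hN'.tI hI, hN'.bO⟩ (hτ' ▸ hN'.en 0 hI) (by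
    have a1 := hE'.1 0 hI
    rw [hτ'] at a1
    refine a1.trans (pow_le_pow_left₀ (by positivity) ?_ 2)
    have := (hk.trans_le (min_le_right _ _)).le
    rw [le_div_iff₀ hε0] at this
    linarith)).1
  have hnear := near_of hτ' hN'.toN0 (h1 d' u' hN'.gs.toGS0) hμ0 (by linarith) hsup (by
    intro y e hy he
    have hS0 : S 0 = 0 := by
      have := hS 0
      rw [norm_zero, mul_zero] at this
      exact norm_le_zero_iff.1 this
    have a0 := hq' 0 (mem_U hτ' hN'.toN0 (by simp)) e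
    rw [hS0] at a0
    change |hq u' e (0, y) - hq u' e ((0 : ℝ), (0 : ℝ × ℝ))| ≤ _
    rw [hq' y (mem_U hτ' hN'.toN0 hy) e, a0, ← sub_div, abs_div,
      abs_of_pos (pow_pos hθk 2), div_le_iff₀ (pow_pos hθk 2), hq_eq, hq_eq]
    obtain ⟨b1, b2, b3⟩ := hr' (y := S y) (by
      rw [dist_zero_right]
      have := hk.trans_le (min_le_left _ _)
      linarith [hS' y hy.le])
    have c1 : |(S e).1| ≤ 2 * θ ^ k := (norm_fst_le _).trans (hS' e he)
    have c2 : |(S e).2| ≤ 2 * θ ^ k := (norm_snd_le _).trans (hS' e he)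
    have c3 : ∀ a x z : ℝ, |a| < μ / 1600 → |x| ≤ 2 * θ ^ k → |z| ≤ 2 * θ ^ k →
        |a * x * z| ≤ μ / 1600 * (2 * θ ^ k) * (2 * θ ^ k) := fun a x z ha hx hz => by
      rw [abs_mul, abs_mul]
      exact mul_le_mul (mul_le_mul ha.le hx (abs_nonneg _) (by positivity)) hz (abs_nonneg _)
        (by positivity)
    have d1 := abs_le.1 (c3 _ _ _ b1 c1 c1)
    have d2 := abs_le.1 (c3 _ _ _ b2 c1 c2)
    have d3 := abs_le.1 (c3 _ _ _ b3 c2 c2)
    simp only [h11, h12, h22, Prod.mk_zero_zero]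
    rw [abs_le]
    constructor <;> linarith [d1.1, d1.2, d2.1, d2.2, d3.1, d3.2])
  have hL : 40 * (C * ε) * (1 - (1 / 2) ^ k) ≤ μ := by
    nlinarith [mul_pos (mul_pos (show 0 < C by linarith) hε0) hp0]
  exact near_mono hA h0 (show μ + 40 * (C * ε) * (1 - (1 / 2) ^ k) ≤ δ by linarith)
    (hn μ hμ0.le (by linarith) hnear)

end Pool.Agent.P.MP_2cea5e_gt.I
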