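import Pool.Agent.P.MP_2cea5e_gt.I.St3

/-!
Chapter I: regularity on the central set for the types with a face.
-/

open scoped ContDiff Topology
open MeasureTheory Set Filter

noncomputable section

set_option linter.dupNamespace false

namespace Pool.Agent.P.MP_2cea5e_gt.I

namespace RegP

theorem close_mono {d : Dm} {u : X → ℝ} {ε ε' : ℝ} (h : Close d u ε) (h0 : 0 ≤ ε) (h1 : ε ≤ ε') :
    Close d u ε' := fun t ht => (h t ht).trans (pow_le_pow_left₀ h0 h1 2)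

theorem near_mono {τ : Ty} {u : X → ℝ} {δ δ' : ℝ} {p : X} (h : Near τ u δ p) (hδ : δ ≤ δ')
    (h1 : 0 ≤ o1 τ p) (h2 : 0 ≤ o2 τ p) : Near τ u δ' p := by
  obtain ⟨hH, a1, a2⟩ := h
  have d0 : 0 ≤ δ := (abs_nonneg _).trans a1
  refine ⟨fun e => ?_, a1.trans hδ, a2.trans hδ⟩
  obtain ⟨b1, b2⟩ := hH e
  have q0 : 0 ≤ hq0 τ e p := by unfold hq0; positivity
  have q1 : 0 ≤ hq u e p := by
    by_contra hc
    have : (1 + δ) * hq u e p < 0 := mul_neg_of_pos_of_neg (by linarith) (not_le.1 hc)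
    linarith
  exact ⟨b1.trans (mul_le_mul_of_nonneg_right (by linarith) q0),
    b2.trans (mul_le_mul_of_nonneg_right (by linarith) q1)⟩

theorem mem_U {d : Dm} {u F : X → ℝ} (h : N0 d u F) {y : ℝ × ℝ} (hy : y ∈ bx d.τ 1) :
    ((0 : ℝ), y) ∈ d.U :=
  ⟨h.tI ⟨by norm_num, le_rfl⟩, h.bO (bx_subset_bxc _ _ hy), iv_subset_ok _ _ hy.1,
    iv_subset_ok _ _ hy.2⟩

theorem iv_div {b : Bool} {x θ : ℝ} (hθ : 0 < θ) (hx : x ∈ iv b (1 / 2)) (h0 : b = false → x = 0)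
    (h1 : x < θ ^ 2 / 4) : x / θ ^ 2 ∈ iv b (1 / 2) := by
  cases b
  · rw [h0 rfl]
    simp [iv]
  · simp only [iv, if_true, mem_Ioo] at hx ⊢
    refine ⟨div_pos hx.1 (by positivity), ?_⟩
    rw [div_lt_iff₀ (by positivity)]
    linarith

/-- Regularity when some coordinate is bounded below. -/
def Base (τ : Ty) : Prop := ∀ Λ δ c₀ : ℝ, 0 < δ → 0 < c₀ → ∃ ε, 0 < ε ∧ ∀ d u F, d.τ = τ →
  NS Λ d u F → Close d u ε → ∀ y ∈ bx τ (1 / 2), (τ.1 = false → y.1 = 0) →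
  (τ.2 = false → y.2 = 0) → (c₀ ≤ y.1 ∨ c₀ ≤ y.2) → Near τ u δ (0, y)

theorem iter (h6 : StDecay) (h7 : StPert) {τ : Ty} (hτ : τ.1 = true) (hb : Base τ) :
    StRegE τ := by
  intro Λ δ₀ hδ₀
  obtain ⟨δ, hδ, hδ1, hδ2⟩ : ∃ δ : ℝ, 0 < δ ∧ δ ≤ 1 ∧ δ ≤ δ₀ :=
    ⟨min 1 δ₀, lt_min one_pos hδ₀, min_le_left _ _, min_le_right _ _⟩
  obtain ⟨θ, C, ε₁, t0, t1, hC, e1, hdec⟩ := h6 τ Λ
  obtain ⟨εb, eb, hbase⟩ := hb Λ (δ / 2) (θ ^ 2 / 4) (by positivity) (by positivity)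
  obtain ⟨εs, s0, s1, s2, s3⟩ : ∃ εs : ℝ, 0 < εs ∧ εs ≤ ε₁ ∧ εs ≤ εb ∧ C * εs ≤ δ / 100 := by
    refine ⟨min ε₁ (min εb (δ / 100 / C)), by positivity, min_le_left _ _,
      (min_le_right _ _).trans (min_le_left _ _), ?_⟩
    rw [mul_comm, ← le_div_iff₀ (by linarith)]
    exact (min_le_right _ _).trans (min_le_right _ _)
  have hpos : ∀ y ∈ bx τ (1 / 2), 0 ≤ o1 τ (0, y) ∧ 0 ≤ o2 τ (0, y) := fun y hy =>
    ⟨(om_pos (iv_subset_ok _ _ hy.1)).le, (om_pos (iv_subset_ok _ _ hy.2)).le⟩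
  have base' : ∀ d u F ε, d.τ = τ → NS Λ d u F → 0 < ε → ε ≤ εs → Exc d u ε →
      ∀ y ∈ bx τ (1 / 2), (τ.1 = false → y.1 = 0) → (τ.2 = false → y.2 = 0) →
      (θ ^ 2 / 4 ≤ y.1 ∨ θ ^ 2 / 4 ≤ y.2) → Near τ u (δ / 2 + 40 * (C * ε)) (0, y) := by
    intro d u F ε hd hN p0 p1 hE y hy z1 z2 hc
    have : 0 ≤ C * ε := by positivity
    exact near_mono (hbase d u F hd hN (close_mono hE.1 p0.le (p1.trans s2)) y hy z1 z2 hc)
      (by linarith) (hpos y hy).1 (hpos y hy).2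
  have key : ∀ k : ℕ, ∀ d u F ε, d.τ = τ → NS Λ d u F → 0 < ε → ε ≤ εs → Exc d u ε →
      ∀ y ∈ bx τ (1 / 2), (τ.1 = false → y.1 = 0) → (τ.2 = false → y.2 = 0) →
      ((θ ^ 2) ^ (k + 1) / 4 ≤ y.1 ∨ (θ ^ 2) ^ (k + 1) / 4 ≤ y.2) →
      Near τ u (δ / 2 + 40 * (C * ε)) (0, y) := by
    intro k
    induction k with
    | zero =>
      intro d u F ε hd hN p0 p1 hE y hy z1 z2 hc
      rw [zero_add, pow_one] at hc
      exact base' d u F ε hd hN p0 p1 hE y hy z1 z2 hc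
    | succ k ih =>
      intro d u F ε hd hN p0 p1 hE y hy z1 z2 hc
      by_cases hc' : θ ^ 2 / 4 ≤ y.1 ∨ θ ^ 2 / 4 ≤ y.2
      · exact base' d u F ε hd hN p0 p1 hE y hy z1 z2 hc'
      rw [not_or, not_le, not_le] at hc'
      obtain ⟨fr, hP, hN', hE'⟩ := hdec d u F ε hd hN p0 (p1.trans s1) hE
      subst hd
      have t2 : 0 < θ ^ 2 := by positivity
      have hy' : (y.1 / θ ^ 2, y.2 / θ ^ 2) ∈ bx d.τ (1 / 2) :=
        ⟨iv_div t0 hy.1 z1 hc'.1, iv_div t0 hy.2 z2 hc'.2⟩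
      have z1' : d.τ.1 = false → y.1 / θ ^ 2 = 0 := fun h => by rw [z1 h, zero_div]
      have z2' : d.τ.2 = false → y.2 / θ ^ 2 = 0 := fun h => by rw [z2 h, zero_div]
      have hn := ih (fr.dm d d.τ) (fr.pull u) (fr.pullF F) (ε / 2) rfl hN' (by positivity)
        (by linarith) hE' _ hy' z1' z2' (by
          rw [pow_succ] at hc
          rcases hc with hc | hc
          · left; rw [le_div_iff₀ t2]; linarith
          · right; rw [le_div_iff₀ t2]; linarith)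
      have c0 : 0 ≤ C * ε := by positivity
      have c1 : C * ε ≤ δ / 100 := (mul_le_mul_of_nonneg_left p1 (by linarith)).trans s3
      have hq := h7 d u F fr θ (C * ε) (δ / 2 + 40 * (C * (ε / 2))) hN.gs hP t1 c0 (by linarith)
        (by positivity) (by linarith) (0, y.1 / θ ^ 2, y.2 / θ ^ 2)
        (mem_U hN'.toN0 (bx_mono _ (by norm_num) (by norm_num) hy')) z1' z2' hn
      obtain ⟨-, -, ha, hb0, hc0⟩ := hP.cp.1 hτ
      have e : fr.fm (0, y.1 / θ ^ 2, y.2 / θ ^ 2) = (0, y) := by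
        have e2 : fr.e * (y.2 / θ ^ 2) = y.2 := by
          cases h2 : d.τ.2
          · rw [z2 h2]; simp
          · rw [(hP.cp.2 h2).2.2.1, hP.ρ]; field_simp
        simp only [Fr.fm, Fr.tm, Fr.sp, Fr.S, hP.t1, hP.p, ha, hb0, hc0, hP.ρ, e2, mul_zero,
          zero_mul, add_zero, zero_add, mul_div_cancel₀ _ t2.ne']
      rw [e] at hq
      convert hq using 1
      ring
  refine ⟨εs, s0, fun d u F hd hN hE y hy z1 z2 => ?_⟩
  have y0 : 0 < y.1 := by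
    have := hy.1
    simp only [iv, hτ, if_true, mem_Ioo] at this
    exact this.1
  have t3 : θ ^ 2 < 1 := by nlinarith
  obtain ⟨k, hk⟩ := exists_pow_lt_of_lt_one y0 t3
  have t4 : (θ ^ 2) ^ (k + 1) ≤ (θ ^ 2) ^ k :=
    pow_le_pow_of_le_one (by positivity) t3.le (Nat.le_succ k)
  have t5 : 0 ≤ (θ ^ 2) ^ (k + 1) := by positivity
  exact near_mono (key k d u F εs hd hN s0 le_rfl hE y hy z1 z2 (Or.inl (by linarith)))
    (by linarith) (hpos y hy).1 (hpos y hy).2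

/-- One change of type followed by regularity for the new type. -/
theorem sw_reg (h8 : StSwitch) (τ τ' : Ty) (a1 : τ'.1 = true → τ.1 = true)
    (a2 : τ'.2 = true → τ.2 = true) (h : StReg τ') (Λ δ c₀ : ℝ) (hδ : 0 < δ) (hc : 0 < c₀) :
    ∃ ρ ε, 0 < ρ ∧ 0 < ε ∧ ∀ d u F (p : ℝ × ℝ), d.τ = τ → NS Λ d u F → Close d u ε →
      (if τ.1 = τ'.1 then p.1 = 0 else p.1 ∈ Icc c₀ (1 / 4)) →
      (if τ.2 = τ'.2 then p.2 = 0 else p.2 ∈ Icc c₀ (1 / 4)) →
      ∀ y ∈ bx τ' (1 / 8), (τ'.1 = false → y.1 = 0) → (τ'.2 = false → y.2 = 0) →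
        Near τ u δ (0, p.1 + ρ ^ 2 * y.1, p.2 + ρ ^ 2 * y.2) := by
  obtain ⟨ε', e0, hr⟩ := h Λ δ hδ
  obtain ⟨ρ, r0, hs⟩ := h8 τ τ' Λ c₀ ε' a1 a2 hc e0
  obtain ⟨ε, e1, hs'⟩ := hs ρ r0 le_rfl
  refine ⟨ρ, ε, r0, e1, fun d u F p hd hN hC p1 p2 y hy z1 z2 => ?_⟩
  obtain ⟨d', u', F', hd', hN', hC', hb⟩ := hs' d u F p hd hN hC p1 p2
  exact hb δ y (bx_mono _ (by norm_num) (by norm_num) hy) z1 z2 (hr d' u' F' hd' hN' hC' y hy)

theorem zero_mem : ((0 : ℝ), (0 : ℝ)) ∈ bx (false, false) (1 / 8) := by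
  simp [bx, iv]

theorem basePL (h8 : StSwitch) (h9 : StReg (false, false)) : Base (true, false) := by
  intro Λ δ c₀ hδ hc
  obtain ⟨ρ, ε, -, e0, h⟩ := sw_reg h8 (true, false) (false, false) (by simp) (by simp) h9 Λ δ c₀
    hδ hc
  refine ⟨ε, e0, fun d u F hd hN hC y hy _ z2 hy0 => ?_⟩
  have y1 := hy.1
  simp only [iv, if_true, mem_Ioo] at y1
  have y2 := z2 rfl
  have := h d u F y hd hN hC (by
    rw [if_neg (by simp)]
    exact ⟨hy0.resolve_right (by rw [y2]; exact not_le.2 hc), by linarith [y1.2]⟩)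
    (by rw [if_pos rfl]; exact y2) _ zero_mem (fun _ => rfl) fun _ => rfl
  simpa using this

theorem basePP (h8 : StSwitch) (h9 : StReg (false, false)) (h10 : StReg (true, false))
    (h11 : StReg (false, true)) : Base (true, true) := by
  intro Λ δ c₀ hδ hc
  obtain ⟨ρA, εA, rA, eA, hA⟩ := sw_reg h8 (true, true) (true, false) (by simp) (by simp) h10
    Λ δ c₀ hδ hc
  obtain ⟨ρB, εB, rB, eB, hB⟩ := sw_reg h8 (true, true) (false, true) (by simp) (by simp) h11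
    Λ δ c₀ hδ hc
  obtain ⟨ρ, εC, -, eC, hC⟩ := sw_reg h8 (true, true) (false, false) (by simp) (by simp) h9
    Λ δ (min c₀ (min (ρA ^ 2 / 64) (ρB ^ 2 / 64))) hδ (by positivity)
  refine ⟨min εA (min εB εC), by positivity, fun d u F hd hN hE y hy _ _ hy0 => ?_⟩
  have e0 : 0 ≤ min εA (min εB εC) := by positivity
  have y1 := hy.1
  have y2 := hy.2
  simp only [iv, if_true, mem_Ioo] at y1 y2
  have LL : min c₀ (min (ρA ^ 2 / 64) (ρB ^ 2 / 64)) ≤ y.1 →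
      min c₀ (min (ρA ^ 2 / 64) (ρB ^ 2 / 64)) ≤ y.2 → Near (true, true) u δ (0, y) := by
    intro b1 b2
    have := hC d u F y hd hN (close_mono hE e0 ((min_le_right _ _).trans (min_le_right _ _)))
      (by rw [if_neg (by simp)]; exact ⟨b1, by linarith [y1.2]⟩)
      (by rw [if_neg (by simp)]; exact ⟨b2, by linarith [y2.2]⟩) _ zero_mem (fun _ => rfl)
      fun _ => rfl
    simpa using this
  rcases hy0 with b | b
  · by_cases c : y.2 < ρB ^ 2 / 64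
    · have r2 : 0 < ρB ^ 2 := by positivity
      have := hB d u F (y.1, 0) hd hN
        (close_mono hE e0 ((min_le_right _ _).trans (min_le_left _ _)))
        (by rw [if_neg (by simp)]; exact ⟨b, by linarith [y1.2]⟩) (by rw [if_pos rfl])
        (0, y.2 / ρB ^ 2) ⟨by simp [iv], by
          simp only [iv, if_true, mem_Ioo]
          exact ⟨div_pos y2.1 r2, by rw [div_lt_iff₀ r2]; linarith⟩⟩ (fun _ => rfl) (by simp)
      simpa [mul_div_cancel₀ _ r2.ne'] using this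
    · exact LL ((min_le_left _ _).trans b)
        (((min_le_right _ _).trans (min_le_right _ _)).trans (not_lt.1 c))
  · by_cases c : y.1 < ρA ^ 2 / 64
    · have r2 : 0 < ρA ^ 2 := by positivity
      have := hA d u F (0, y.2) hd hN (close_mono hE e0 (min_le_left _ _))
        (by rw [if_pos rfl]) (by rw [if_neg (by simp)]; exact ⟨b, by linarith [y2.2]⟩)
        (y.1 / ρA ^ 2, 0) ⟨by
          simp only [iv, if_true, mem_Ioo]
          exact ⟨div_pos y1.1 r2, by rw [div_lt_iff₀ r2]; linarith⟩, by simp [iv]⟩ (by simp)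
        (fun _ => rfl)
      simpa [mul_div_cancel₀ _ r2.ne'] using this
    · exact LL (((min_le_right _ _).trans (min_le_left _ _)).trans (not_lt.1 c))
        ((min_le_left _ _).trans b)

end RegP

theorem regPL_ok (_h5 : StFG) (_h1 : StApi) (h6 : StDecay) (h7 : StPert) (h8 : StSwitch)
    (h9 : StReg (false, false)) : StRegE (true, false) :=
  RegP.iter h6 h7 rfl (RegP.basePL h8 h9)

theorem regPP_ok (_h5 : StFG) (_h1 : StApi) (h6 : StDecay) (h7 : StPert) (h8 : StSwitch)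
    (h9 : StReg (false, false)) (h10 : StReg (true, false)) (h11 : StReg (false, true)) :
    StRegE (true, true) :=
  RegP.iter h6 h7 rfl (RegP.basePP h8 h9 h10 h11)

end Pool.Agent.P.MP_2cea5e_gt.I
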