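import Pool.Agent.P.MP_2cea5e_gt.I.St3
import Pool.Agent.P.MP_2cea5e_gt.I.Resc

/-!
Chapter I: epsilon regularity from the regularity on the central set; the result of chapter I.
-/

open scoped ContDiff Topology
open MeasureTheory Set Filter

noncomputable section

set_option linter.dupNamespace false

namespace Pool.Agent.P.MP_2cea5e_gt.I

namespace RegS

open Resc

theorem memU {d : Dm} {u F : X → ℝ} (h : N0 d u F) {t : ℝ} (ht : t ∈ Icc (-1 : ℝ) 0) {y : ℝ × ℝ}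
    (hy : y ∈ bx d.τ 1) : ((t, y) : X) ∈ d.U := ⟨h.tI ht, (reg_bx h.bO).sub hy⟩

theorem zero_mem : (0 : ℝ) ∈ Icc (-1 : ℝ) 0 := ⟨by norm_num, le_rfl⟩

theorem scl_fm (τ : Ty) (ρ : ℝ) (hρ : 0 < ρ) (t₁ : ℝ) (p : ℝ × ℝ) (l₀ l₁ l₂ t : ℝ) (y : ℝ × ℝ) :
    (scl τ ρ hρ t₁ p l₀ l₁ l₂).fm (t, y) =
      (t₁ + ρ ^ 4 * t, p.1 + ρ ^ wt τ.1 * y.1, p.2 + ρ ^ wt τ.2 * y.2) := by
  simp only [Fr.fm, Fr.tm, Fr.sp, Fr.S, scl]
  ext <;> simp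

theorem inv_wt (τ : Ty) : (((1 : ℝ) / 2) ^ (wt τ.1 + wt τ.2))⁻¹ ≤ 16 := by
  have h : (((1 : ℝ) / 2) ^ (wt τ.1 + wt τ.2))⁻¹ ≤ (((1 : ℝ) / 2) ^ 4)⁻¹ :=
    inv_anti₀ (by positivity) (pow_le_pow_of_le_one (by norm_num) (by norm_num) (by
      have := wt_le τ.1
      have := wt_le τ.2
      omega))
  refine h.trans (by norm_num)

theorem c0 (b : Bool) : if b then (0 : ℝ) = 0 else |(0 : ℝ)| + 1 / 2 ≤ 1 := by
  cases b <;> norm_num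

/-- The excess after a rescaling by one half. -/
theorem exc_half (h2 : StResc) {d : Dm} {u F : X → ℝ} (hN : N0 d u F) {ε : ℝ}
    (hw : ∀ t ∈ Icc (-1 / 16 : ℝ) 0, ∫ y in bx d.τ (1 / 2), wv d.τ u (t, y) ^ 2 ≤ ε ^ 2)
    (hg : ∫ t in (-1 / 16 : ℝ)..0, ∫ y in bx d.τ (1 / 2), gex d.τ u (t, y) ≤ ε ^ 2) :
    Exc ((scl d.τ (1 / 2) (by norm_num) 0 0 0 0 0).dm d d.τ)
      ((scl d.τ (1 / 2) (by norm_num) 0 0 0 0 0).pull u) (16 * ε) := by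
  obtain ⟨-, hN', -, -, himg, hq, hint, -⟩ := h2 d u F (1 / 2) (by norm_num) 0 0 0 0 0
    (by norm_num) le_rfl (by norm_num) (c0 _) (c0 _) hN
  have hm : MeasurableSet (bx d.τ 1) := (isOpen_bx _ _).measurableSet
  have hi := himg rfl 1
  rw [mul_one] at hi
  have hc := inv_wt d.τ
  have hc0 : 0 < (((1 : ℝ) / 2) ^ (wt d.τ.1 + wt d.τ.2))⁻¹ := by positivity
  have he : 0 ≤ ε ^ 2 := sq_nonneg ε
  constructor
  · intro t ht
    show ∫ y in bx d.τ 1, _ ≤ _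
    rw [setIntegral_congr_fun hm (g := fun y => 16 * wv d.τ u
      ((scl d.τ (1 / 2) (by norm_num) 0 0 0 0 0).fm (t, y)) ^ 2) (fun y hy => by
        have := (hq (t, y) (memU hN' ht hy)).1
        simp only [af, zero_mul, add_zero, sub_zero] at this
        show wv d.τ _ (t, y) ^ 2 = _
        rw [this]; ring), integral_const_mul, hint (fun q => wv d.τ u q ^ 2) t _ hm, hi]
    have := hw (0 + (1 / 2) ^ 4 * t) ⟨by linarith [ht.1], by linarith [ht.2]⟩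
    have h3 := mul_le_mul_of_nonneg_left this hc0.le
    nlinarith
  · show ∫ t in (-1 : ℝ)..0, ∫ y in bx d.τ 1, _ ≤ _
    rw [intervalIntegral.integral_congr (g := fun t => (((1 : ℝ) / 2) ^ (wt d.τ.1 + wt d.τ.2))⁻¹ *
      (fun s => ∫ y in bx d.τ (1 / 2), gex d.τ u (s, y)) ((1 / 2) ^ 4 * t)) (fun t ht => by
        rw [uIcc_of_le (by norm_num)] at ht
        have := hint (gex d.τ u) t _ hm
        rw [hi, zero_add] at this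
        exact (setIntegral_congr_fun hm fun y hy => (hq (t, y) (memU hN' ht hy)).2.1).trans this),
      intervalIntegral.integral_const_mul,
      intervalIntegral.integral_comp_mul_left
        (fun s => ∫ y in bx d.τ (1 / 2), gex d.τ u (s, y)) (by norm_num),
      show ((1 : ℝ) / 2) ^ 4 * -1 = -1 / 16 by norm_num, mul_zero, smul_eq_mul,
      show (((1 : ℝ) / 2) ^ 4)⁻¹ = 16 by norm_num]
    have h3 := mul_le_mul_of_nonneg_left hg hc0.le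
    nlinarith

/-- Rescaling at a time such that only the rescaled cylinder lies in the domain. -/
theorem resc2 (h1 : StApi) (h3 : StFC) (h4 : StFI) (h5 : StFG) {d : Dm} {u F : X → ℝ}
    (hG : GS d u F) (hO : bxc d.τ 1 ⊆ d.O) {ρ : ℝ} (hρ : 0 < ρ) (hρ1 : ρ ≤ 1) (t₁ : ℝ)
    (hI : ∀ t ∈ Icc (-1 : ℝ) 0, t₁ + ρ ^ 4 * t ∈ d.I) (fr : Fr)
    (hfr : fr = scl d.τ ρ hρ t₁ 0 0 0 0) :
    N0 (fr.dm d d.τ) (fr.pull u) (fr.pullF F) ∧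
    (∀ g : X → ℝ, Lc d g → (∀ q, 0 ≤ g q) → ∀ t ∈ Icc (-1 : ℝ) 0,
      ∫ y in bx d.τ 1, g (fr.fm (t, y)) ≤ (ρ ^ 4)⁻¹ * ∫ y in bx d.τ 1, g (t₁ + ρ ^ 4 * t, y)) ∧
    (∀ q, wv d.τ (fr.pull u) q = wv d.τ u (fr.fm q) / ρ ^ 2) ∧
    ∀ q ∈ (fr.dm d d.τ).U, ∀ δ, Near d.τ (fr.pull u) δ q → Near d.τ u δ (fr.fm q) := by
  have hp : ∀ b : Bool, if b then (0 : ℝ) = 0 else |(0 : ℝ)| + ρ ≤ 1 := fun b => by
    cases b <;> simp [hρ1]
  have sp1 : ∀ y : ℝ × ℝ, (fr.sp y).1 = 0 + ρ ^ wt d.τ.1 * y.1 := fun y => by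
    simp [hfr, scl, Fr.sp, Fr.S]
  have sp2 : ∀ y : ℝ × ℝ, (fr.sp y).2 = 0 + ρ ^ wt d.τ.2 * y.2 := fun y => by
    simp [hfr, scl, Fr.sp, Fr.S]
  have hS : ∀ y : ℝ × ℝ, fr.S y = (ρ ^ wt d.τ.1 * y.1, ρ ^ wt d.τ.2 * y.2) := fun y => by
    simp [hfr, scl, Fr.S]
  have htm : ∀ t, fr.tm t = t₁ + ρ ^ 4 * t := fun t => by rw [hfr]; rfl
  have hfρ : fr.ρ = ρ := by rw [hfr]; rfl
  have hdet : fr.det = ρ ^ (wt d.τ.1 + wt d.τ.2) := by simp [hfr, scl, Fr.det, pow_add]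
  have hρ4 : 0 < ρ ^ 4 := by positivity
  have hρ2 : 0 < ρ ^ 2 := by positivity
  have hw : 0 < ρ ^ (wt d.τ.1 + wt d.τ.2) := by positivity
  have hw4 : (ρ ^ (wt d.τ.1 + wt d.τ.2))⁻¹ ≤ (ρ ^ 4)⁻¹ :=
    inv_anti₀ hρ4 (pow_le_pow_of_le_one hρ.le hρ1 (by
      have := wt_le d.τ.1
      have := wt_le d.τ.2
      omega))
  have ha1 : ρ ^ 2 ≤ ρ ^ wt d.τ.1 := pow_le_pow_of_le_one hρ.le hρ1 (wt_le _)
  have ha2 : ρ ^ 2 ≤ ρ ^ wt d.τ.2 := pow_le_pow_of_le_one hρ.le hρ1 (wt_le _)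
  have hCp : fr.Cp d.τ d.τ := by
    rw [hfr]
    constructor
    · intro h
      exact ⟨h, rfl, by simp [scl, wt, h], rfl, rfl⟩
    · intro h
      exact ⟨h, rfl, by simp [scl, wt, h], rfl, rfl⟩
  obtain ⟨-, gU, -, -, -, -, -, gGS⟩ := h5.1 fr d d.τ hCp
  have hR : Reg d (bx d.τ 1) := reg_bx hO
  have hsub : fr.sp '' bx d.τ 1 ⊆ bx d.τ 1 := by
    rintro _ ⟨y, hy, rfl⟩
    constructor
    · rw [sp1]; exact iv_map hρ hρ1 (hp _) hy.1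
    · rw [sp2]; exact iv_map hρ hρ1 (hp _) hy.2
  have A := h1 d u hG.toGS0
  have hU : ∀ q ∈ (fr.dm d d.τ).U, fr.fm q ∈ d.U := fun q hq => by
    have : q ∈ fr.fm ⁻¹' d.U := gU ▸ hq
    exact this
  have ho1 : ∀ q : X, o1 d.τ (fr.fm q) = (ρ ^ wt d.τ.1) ^ 2 / ρ ^ 2 * o1 d.τ q := fun q => by
    show om _ (fr.sp q.2).1 = _
    rw [sp1]; exact om_map hρ (hp _) _
  have ho2 : ∀ q : X, o2 d.τ (fr.fm q) = (ρ ^ wt d.τ.2) ^ 2 / ρ ^ 2 * o2 d.τ q := fun q => by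
    show om _ (fr.sp q.2).2 = _
    rw [sp2]; exact om_map hρ (hp _) _
  have hwv : ∀ q : X, wv d.τ (fr.pull u) q = wv d.τ u (fr.fm q) / ρ ^ 2 := fun q => by
    have e1 : u0 d.τ (fr.fm q) = md d.τ.1 (fr.sp q.2).1 + md d.τ.2 (fr.sp q.2).2 := rfl
    rw [sp1, sp2, md_map hρ (hp _), md_map hρ (hp _)] at e1
    simp only [wv, Pi.sub_apply, Fr.pull]
    rw [e1]
    simp only [hfr, scl, af, u0, Prod.fst_zero, Prod.snd_zero]
    field_simp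
    ring
  obtain ⟨-, hFC⟩ := (h3 fr d.U d.isOpen_U).2.2 u A.sm fun q hq => (A.pW q hq).ne'
  refine ⟨⟨gGS u F hG, fun t ht => ?_, fun y hy => ⟨hO ⟨?_, ?_⟩, ?_⟩⟩, fun g hg h0 t ht => ?_,
    hwv, fun q hq δ hn => ?_⟩
  · show fr.tm t ∈ d.I
    rw [htm]; exact hI t ht
  · rw [sp1]; exact ivc_map hρ hρ1 (hp _) hy.1
  · rw [sp2]; exact ivc_map hρ hρ1 (hp _) hy.2
  · rw [if_univ, if_univ]; exact ⟨trivial, trivial⟩
  · have := ((h4 fr _ hR.ms).2.1 fun y => g (t₁ + ρ ^ 4 * t, y)).2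
    rw [hdet, abs_of_pos hw] at this
    have e : ∀ y, fr.fm (t, y) = (t₁ + ρ ^ 4 * t, fr.sp y) := fun y => by
      rw [← htm]; rfl
    simp only [e]
    rw [this]
    exact mul_le_mul hw4 (setIntegral_mono_set (hg.integrableOn hR (hI t ht))
      (Eventually.of_forall fun y => h0 _) hsub.eventuallyLE)
      (integral_nonneg fun y => h0 _) (inv_pos.mpr hρ4).le
  · obtain ⟨-, -, c1, -⟩ := hFC q (hU q hq)
    have p1 : o1 d.τ q ≠ 0 := (Dm.o1_pos (d := fr.dm d d.τ) hq).ne'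
    have p2 : o2 d.τ q ≠ 0 := (Dm.o2_pos (d := fr.dm d d.τ) hq).ne'
    obtain ⟨sm, hD⟩ := (h3 fr d.U d.isOpen_U).1 _ hG.bd.sm
    have hdf : DifferentiableAt ℝ (wv d.τ u ∘ fr.fm) q :=
      diffAt (fr.dm d d.τ).isOpen_U (gU ▸ sm) hq
    have hDw : ∀ e, D (sv e) (wv d.τ (fr.pull u)) q =
        (ρ ^ 2)⁻¹ * D (sv (fr.S e)) (wv d.τ u) (fr.fm q) := fun e => by
      have e3 : wv d.τ (fr.pull u) =
          fun q => (fun x : ℝ => x / ρ ^ 2) ((wv d.τ u ∘ fr.fm) q) := funext hwv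
      rw [e3, D_comp_at (Φ := fun x : ℝ => x / ρ ^ 2) _
        ((hasDerivAt_id _).div_const (ρ ^ 2)) hdf, (hD q (hU q hq)).2, one_div]
    refine ⟨fun e => ?_, ?_, ?_⟩
    · obtain ⟨n1, n2⟩ := hn.1 (e.1 / ρ ^ wt d.τ.1, e.2 / ρ ^ wt d.τ.2)
      have hSe : fr.S (e.1 / ρ ^ wt d.τ.1, e.2 / ρ ^ wt d.τ.2) = e := by
        rw [hS]
        ext <;> field_simp
      have r1 : I.hq (fr.pull u) (e.1 / ρ ^ wt d.τ.1, e.2 / ρ ^ wt d.τ.2) q =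
          I.hq u e (fr.fm q) / ρ ^ 2 := by
        simp only [I.hq]
        rw [c1, hSe, hfρ]
      have r2 : hq0 d.τ (e.1 / ρ ^ wt d.τ.1, e.2 / ρ ^ wt d.τ.2) q =
          hq0 d.τ e (fr.fm q) / ρ ^ 2 := by
        simp only [hq0]
        rw [ho1, ho2]
        field_simp
      rw [r1, r2, ← mul_div_assoc, div_le_div_iff_of_pos_right hρ2] at n1 n2
      exact ⟨n1, n2⟩
    · have := hn.2.1
      rw [show e1 = sv (1, 0) from rfl, hDw, hS, mul_one, mul_zero, D_sv1] at this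
      exact abs_le_of hρ ha1 this
    · have := hn.2.2
      rw [show e2 = sv (0, 1) from rfl, hDw, hS, mul_one, mul_zero, D_sv2] at this
      exact abs_le_of hρ ha2 this

/-- The centre of the first rescaling. -/
theorem ctr_ok {b : Bool} {x : ℝ} (hx : x ∈ iv b (1 / 8)) :
    if b then (if b then 0 else x) = 0 else |if b then 0 else x| + 1 / 2 ≤ 1 := by
  cases b
  · simp only [iv, Bool.false_eq_true, if_false, mem_Ioo] at hx ⊢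
    have : |x| ≤ 1 / 8 := abs_le.mpr ⟨hx.1.le, hx.2.le⟩
    linarith
  · simp

theorem pt_ok {b : Bool} {x : ℝ} (hx : x ∈ iv b (1 / 8)) :
    (if b then 16 * x else 0) ∈ iv b (1 / 2) ∧
    (0 + (1 / 2 : ℝ) ^ wt b * if b then 16 * x else 0) ∈ iv b 1 ∧
    (if b then 0 else x) + (1 / 2 : ℝ) ^ wt b * (0 + (1 / 2 : ℝ) ^ wt b * if b then 16 * x else 0)
      = x := by
  cases b
  · simp only [iv, Bool.false_eq_true, if_false, mem_Ioo]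
    norm_num
  · simp only [iv, wt, if_true, mem_Ioo] at hx ⊢
    refine ⟨⟨?_, ?_⟩, ⟨?_, ?_⟩, ?_⟩ <;> linarith [hx.1, hx.2]

end RegS

open RegS

theorem reg_of (_h1 : StApi) (h2 : StResc) (h3 : StStart0) (τ : Ty) (h : StRegE τ) : StReg τ := by
  intro Λ δ hδ
  obtain ⟨ε₁, e1, h⟩ := h Λ δ hδ
  obtain ⟨ε₂, e2, h3⟩ := h3 τ Λ (ε₁ / 16) (by positivity)
  refine ⟨ε₂ / 16, by positivity, ?_⟩
  rintro d u F rfl hN hc y hy
  obtain ⟨-, N1, S1, -, -, q1, -, x1⟩ := h2 d u F (1 / 2) (by norm_num) 0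
    (if d.τ.1 then 0 else y.1, if d.τ.2 then 0 else y.2) 0 0 0
    (by norm_num) le_rfl (by norm_num) (ctr_ok hy.1) (ctr_ok hy.2) hN.toN0
  have c1 := (x1 (ε₂ / 16) rfl rfl rfl (by positivity)).1 hc
  rw [show ε₂ / 16 / (1 / 2) ^ 4 = ε₂ by ring] at c1
  obtain ⟨a1, a2⟩ := h3 _ _ _ (by rfl) (S1 Λ hN) c1
  have x2 := exc_half h2 N1 a1 a2
  rw [show 16 * (ε₁ / 16) = ε₁ by ring] at x2
  obtain ⟨-, N2, S2, -, -, q2, -, -⟩ := h2 _ _ _ (1 / 2) (by norm_num) 0 0 0 0 0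
    (by norm_num) le_rfl (by norm_num) (c0 _) (c0 _) N1
  obtain ⟨b1, b2, b3⟩ := pt_ok hy.1
  obtain ⟨b4, b5, b6⟩ := pt_ok hy.2
  have m2 : ((if d.τ.1 then 16 * y.1 else 0, if d.τ.2 then 16 * y.2 else 0) : ℝ × ℝ) ∈
      bx d.τ (1 / 2) := ⟨b1, b4⟩
  have m1 : ((0 + (1 / 2 : ℝ) ^ wt d.τ.1 * if d.τ.1 then 16 * y.1 else 0,
      0 + (1 / 2 : ℝ) ^ wt d.τ.2 * if d.τ.2 then 16 * y.2 else 0) : ℝ × ℝ) ∈ bx d.τ 1 := ⟨b2, b5⟩
  have n2 := h _ _ _ (by rfl) (S2 Λ (S1 Λ hN)) x2 _ m2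
    (fun e => by simp [e]) (fun e => by simp [e])
  have n1 := (q2 _ (memU N2 zero_mem (bx_mono d.τ (by norm_num) (by norm_num) m2))).2.2 δ
    rfl rfl n2
  rw [scl_fm, mul_zero, add_zero] at n1
  have n0 := (q1 _ (memU N1 zero_mem m1)).2.2 δ rfl rfl n1
  rw [scl_fm, mul_zero, add_zero] at n0
  dsimp only at n0
  rw [b3, b6] at n0
  exact n0

theorem reg_swap (h1 : StSwap) (h : StReg (true, false)) : StReg (false, true) := by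
  intro Λ δ hδ
  obtain ⟨ε, e1, h⟩ := h Λ δ hδ
  refine ⟨ε, e1, fun d u F hd hN hc y hy => ?_⟩
  obtain ⟨-, -, s3, s4, -, s6, -⟩ := h1 d u F
  have e : d.swap.τ = (true, false) := by
    show (d.τ.2, d.τ.1) = _
    rw [hd]
  have n := h d.swap _ _ e (s3 Λ hN) (s4 ε hc) y.swap ⟨hy.2, hy.1⟩
  rw [← e] at n
  rw [← hd] at hy ⊢
  exact s6 hN.gs δ (0, y) (memU hN.toN0 zero_mem (bx_mono _ (by norm_num) (by norm_num) hy)) n

theorem near_ok (h1 : StApi) (h3 : StFC) (h4 : StFI) (h5 : StFG) (h6 : StStart)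
    (h7 : ∀ τ, StReg τ) : StNear := by
  intro d u F T₀ T Λ hC p hp δ hδ
  choose ε e1 h7 using fun τ => h7 τ Λ δ hδ
  obtain ⟨τ₀, hmin⟩ := Finite.exists_min ε
  obtain ⟨fr, τ, a1, a2, a3, a4, a5, a6, a7, a8⟩ := h6 d u F T₀ T Λ hC p hp (ε τ₀ / 16)
    (by have := e1 τ₀; positivity)
  refine ⟨fr, τ, a1, a2, a3, a4, a5, a6, a7, fun s hs y hy => ?_⟩
  have hG : GS (fr.dm d τ) (fr.pull u) (fr.pullF F) := (h5.1 fr d τ a3).2.2.2.2.2.2.2 u F hC.gs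
  have hρ : (0 : ℝ) < 1 / 2 := by norm_num
  have ht : ∀ t ∈ Icc (-1 : ℝ) 0, s + (1 / 2) ^ 4 * t ∈ Ioo (-1 : ℝ) 0 := fun t ht =>
    ⟨by linarith [hs.1, ht.1], by linarith [hs.2, ht.2]⟩
  have hI : ∀ t ∈ Icc (-1 : ℝ) 0, s + (1 / 2) ^ 4 * t ∈ (fr.dm d τ).I := fun t h => by
    show fr.t1 + fr.ρ ^ 4 * _ ∈ d.I
    have h4 : 0 < fr.ρ ^ 4 := pow_pos fr.ρ_pos 4
    rw [hC.tI, a2]
    constructor <;> nlinarith [(ht t h).1, (ht t h).2]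
  obtain ⟨N, k, hw, hn⟩ := resc2 h1 h3 h4 h5 hG a6 hρ (by norm_num) s hI _ rfl
  have hNS : NS Λ _ _ _ := ⟨N, fun t h => by
    have k1 := k (fun q => fr.pullF F q ^ 2) (hG.lcF.pow 2) (fun q => sq_nonneg _) t h
    have k2 := (a8 _ (ht t h)).1
    have k3 : ∀ y, (scl τ (1 / 2) hρ s 0 0 0 0).pullF (fr.pullF F) (t, y) ^ 2 =
        (1 / 2) ^ 4 * fr.pullF F ((scl τ (1 / 2) hρ s 0 0 0 0).fm (t, y)) ^ 2 := fun y => by
      show ((1 / 2 : ℝ) ^ 2 * _) ^ 2 = _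
      ring
    show ∫ y in bx τ 1, (scl τ (1 / 2) hρ s 0 0 0 0).pullF (fr.pullF F) (t, y) ^ 2 ≤ Λ
    simp only [k3]
    rw [integral_const_mul]
    change ∫ y in bx τ 1, fr.pullF F ((scl τ (1 / 2) hρ s 0 0 0 0).fm (t, y)) ^ 2 ≤
      _ * ∫ y in bx τ 1, fr.pullF F (s + (1 / 2) ^ 4 * t, y) ^ 2 at k1
    linarith⟩
  have hcl : Close ((scl τ (1 / 2) hρ s 0 0 0 0).dm (fr.dm d τ) τ)
      ((scl τ (1 / 2) hρ s 0 0 0 0).pull (fr.pull u)) (ε τ) := fun t h => by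
    have k1 := k (fun q => wv τ (fr.pull u) q ^ 2) (hG.bd.lc.pow 2) (fun q => sq_nonneg _) t h
    have k2 := (a8 _ (ht t h)).2
    have k3 : ∀ y, wv τ ((scl τ (1 / 2) hρ s 0 0 0 0).pull (fr.pull u)) (t, y) ^ 2 =
        16 * wv τ (fr.pull u) ((scl τ (1 / 2) hρ s 0 0 0 0).fm (t, y)) ^ 2 := fun y => by
      have := hw (t, y)
      change wv τ ((scl τ (1 / 2) hρ s 0 0 0 0).pull (fr.pull u)) (t, y) =
        wv τ (fr.pull u) ((scl τ (1 / 2) hρ s 0 0 0 0).fm (t, y)) / _ at this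
      rw [this]
      ring
    show ∫ y in bx τ 1, wv τ ((scl τ (1 / 2) hρ s 0 0 0 0).pull (fr.pull u)) (t, y) ^ 2 ≤ _
    simp only [k3]
    rw [integral_const_mul]
    change ∫ y in bx τ 1, wv τ (fr.pull u) ((scl τ (1 / 2) hρ s 0 0 0 0).fm (t, y)) ^ 2 ≤
      _ * ∫ y in bx τ 1, wv τ (fr.pull u) (s + (1 / 2) ^ 4 * t, y) ^ 2 at k1
    have k4 : ε τ₀ ^ 2 ≤ ε τ ^ 2 := pow_le_pow_left₀ (e1 τ₀).le (hmin τ) 2
    linarith
  have q1 : (1 / 2 : ℝ) ^ wt τ.1 * (y.1 / (1 / 2) ^ wt τ.1) = y.1 := by field_simp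
  have q2 : (1 / 2 : ℝ) ^ wt τ.2 * (y.2 / (1 / 2) ^ wt τ.2) = y.2 := by field_simp
  have hy' : (y.1 / (1 / 2) ^ wt τ.1, y.2 / (1 / 2) ^ wt τ.2) ∈ bx τ (1 / 8) := by
    rw [show (1 / 16 : ℝ) = 1 / 2 * (1 / 8) by norm_num] at hy
    constructor
    · rw [← Resc.iv_iff hρ, q1]; exact hy.1
    · rw [← Resc.iv_iff hρ, q2]; exact hy.2
  have n1 := h7 τ _ _ _ rfl hNS hcl _ hy'
  have n0 := hn _ (memU N zero_mem (bx_mono _ (by norm_num) (by norm_num) hy')) δ n1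
  change Near τ (fr.pull u) δ ((scl τ (1 / 2) hρ s 0 0 0 0).fm _) at n0
  rw [scl_fm, mul_zero, add_zero] at n0
  simp only [Prod.fst_zero, Prod.snd_zero, zero_add, q1, q2] at n0
  exact n0

end Pool.Agent.P.MP_2cea5e_gt.I
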