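import Pool.Agent.P.MP_2cea5e_gt.I.St3
import Pool.Agent.P.MP_2cea5e_gt.I.Resc

/-!
Chapter I: renormalisation of the model.
-/

open scoped ContDiff Topology
open MeasureTheory Set Filter

noncomputable section

set_option linter.dupNamespace false

namespace Pool.Agent.P.MP_2cea5e_gt.I

namespace Renorm

theorem ex_root {m κ : ℝ} (h : |m - 1| ≤ κ) (hκ : κ ≤ 1 / 2) :
    ∃ s : ℝ, s ^ 2 * m = 1 ∧ |s - 1| ≤ 2 * κ ∧ (m = 1 → s = 1) := by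
  have h1 := abs_le.mp h
  have hm : 0 < m := by linarith
  have hs : 0 < (√m)⁻¹ := inv_pos.mpr (Real.sqrt_pos.mpr hm)
  have e : (√m)⁻¹ ^ 2 * m = 1 := by
    rw [inv_pow, Real.sq_sqrt hm.le, inv_mul_cancel₀ hm.ne']
  refine ⟨(√m)⁻¹, e, ?_, fun h => by simp [h]⟩
  generalize (√m)⁻¹ = s at hs e
  have h0 : 0 ≤ s ^ 2 := sq_nonneg s
  have h2 : s ^ 2 ≤ 2 := by nlinarith
  have hκ0 : 0 ≤ κ := (abs_nonneg _).trans h
  have h3 : s ^ 2 - 1 ≤ 2 * κ := by nlinarith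
  have h4 : -(2 * κ) ≤ s ^ 2 - 1 := by nlinarith
  rw [abs_le]
  rcases le_total s 1 with h5 | h5
  · constructor <;> nlinarith
  · constructor <;> nlinarith

/-- A triangular matrix normalising `I + Q`. -/
structure Ch (τ : Ty) (γ s₁ s₂ s₃ q₁ q₂ q₃ : ℝ) : Prop where
  n1 : |s₁ - 1| ≤ γ
  n2 : |s₂| ≤ γ
  n3 : |s₃ - 1| ≤ γ
  e1 : s₁ ^ 2 * (1 + q₁) = 1
  e2 : (1 + q₁) * s₂ + q₂ * s₃ = 0
  e3 : (1 + q₁) * s₂ ^ 2 + 2 * q₂ * s₂ * s₃ + (1 + q₃) * s₃ ^ 2 = 1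
  p1 : τ.1 = true → s₁ = 1 ∧ s₂ = 0 ∧ q₁ = 0 ∧ q₂ = 0
  p2 : τ.2 = true → s₃ = 1 ∧ s₂ = 0 ∧ q₃ = 0 ∧ q₂ = 0

theorem ex_ch {τ : Ty} {η q₁ q₂ q₃ : ℝ} (hη : η ≤ 1 / 400) (h1 : |q₁| ≤ η) (h2 : |q₂| ≤ η)
    (h3 : |q₃| ≤ η) (p1 : τ.1 = true → q₁ = 0 ∧ q₂ = 0) (p2 : τ.2 = true → q₃ = 0 ∧ q₂ = 0) :
    ∃ s₁ s₂ s₃, Ch τ (4 * η) s₁ s₂ s₃ q₁ q₂ q₃ := by
  have h0 : 0 ≤ η := (abs_nonneg _).trans h1
  have a1 := abs_le.mp h1
  have a2 := abs_le.mp h2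
  have a3 := abs_le.mp h3
  have hm : 0 < 1 + q₁ := by linarith
  obtain ⟨s₁, e1, n1, z1⟩ := ex_root (m := 1 + q₁) (κ := η) (by simpa using h1) (by linarith)
  have k0 : 0 ≤ q₂ ^ 2 / (1 + q₁) := by positivity
  have k1 : q₂ ^ 2 / (1 + q₁) ≤ η := by
    rw [div_le_iff₀ hm]; nlinarith
  obtain ⟨s₃, e3, n3, z3⟩ := ex_root (m := 1 + q₃ - q₂ ^ 2 / (1 + q₁)) (κ := 2 * η)
    (abs_le.mpr ⟨by linarith, by linarith⟩) (by linarith)
  have b3 := abs_le.mp n3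
  refine ⟨s₁, -(q₂ * s₃) / (1 + q₁), s₃, n1.trans (by linarith), ?_, n3.trans (by linarith), e1,
    by field_simp; ring, ?_, fun h => ?_, fun h => ?_⟩
  · rw [abs_div, abs_neg, abs_mul, abs_of_pos hm, div_le_iff₀ hm, abs_of_pos (a := s₃) (by linarith)]
    have := abs_nonneg q₂
    nlinarith
  · refine Eq.trans ?_ e3
    field_simp; ring
  · obtain ⟨r1, r2⟩ := p1 h
    exact ⟨z1 (by rw [r1, add_zero]), by simp [r2], r1, r2⟩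
  · obtain ⟨r1, r2⟩ := p2 h
    exact ⟨z3 (by simp [r1, r2]), by simp [r2], r1, r2⟩

/-- The renormalising frame. -/
def mk (τ : Ty) (s₁ s₂ s₃ l₀ l₁ l₂ : ℝ) (h₁ : s₁ ≠ 0) (h₃ : s₃ ≠ 0) : Fr where
  t1 := 0
  ρ := 1 / 32
  p := 0
  a := (1 / 32) ^ wt τ.1 * s₁
  b := (1 / 32) ^ wt τ.2 * s₂
  c := 0
  e := (1 / 32) ^ wt τ.2 * s₃
  l0 := l₀
  l1 := l₁ * ((1 / 32) ^ wt τ.1 * s₁) + if τ.1 then (1 / 32) ^ 2 * Real.log ((1 / 32) ^ 2) else 0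
  l2 := l₁ * ((1 / 32) ^ wt τ.2 * s₂) + l₂ * ((1 / 32) ^ wt τ.2 * s₃) +
    if τ.2 then (1 / 32) ^ 2 * Real.log ((1 / 32) ^ 2) else 0
  ρ_pos := by norm_num
  det_ne := by simp [h₁, h₃]

variable {τ : Ty} {γ s₁ s₂ s₃ q₁ q₂ q₃ l₀ l₁ l₂ : ℝ} {h₁ : s₁ ≠ 0} {h₃ : s₃ ≠ 0}

theorem sp_eq (y : ℝ × ℝ) : (mk τ s₁ s₂ s₃ l₀ l₁ l₂ h₁ h₃).sp y =
    ((1 / 32) ^ wt τ.1 * s₁ * y.1 + (1 / 32) ^ wt τ.2 * s₂ * y.2, (1 / 32) ^ wt τ.2 * s₃ * y.2) := by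
  simp [mk, Fr.sp, Fr.S]

theorem cp (h : Ch τ γ s₁ s₂ s₃ q₁ q₂ q₃) : (mk τ s₁ s₂ s₃ l₀ l₁ l₂ h₁ h₃).Cp τ τ := by
  constructor
  · intro b
    obtain ⟨r1, r2, -⟩ := h.p1 b
    exact ⟨b, rfl, by simp [mk, wt, b, r1], by simp [mk, r2], rfl⟩
  · intro b
    obtain ⟨r1, r2, -⟩ := h.p2 b
    exact ⟨b, rfl, by simp [mk, wt, b, r1], by simp [mk, r2], rfl⟩

theorem pert {η : ℝ} (h : Ch τ (4 * η) s₁ s₂ s₃ q₁ q₂ q₃) (hη : η ≤ 1 / 400) (hγ : 4 * η ≤ γ)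
    (b1 : |l₁| ≤ η) (b2 : |l₂| ≤ η) : Pert τ (mk τ s₁ s₂ s₃ l₀ l₁ l₂ h₁ h₃) (1 / 32) γ := by
  have h0 : 0 ≤ η := (abs_nonneg _).trans b1
  have w1 : (0 : ℝ) < (1 / 32) ^ wt τ.1 := by positivity
  have w2 : (0 : ℝ) < (1 / 32) ^ wt τ.2 := by positivity
  have w3 : (1 / 32 : ℝ) ^ wt τ.2 ≤ 1 / 32 := by
    rcases τ with ⟨_, _ | _⟩ <;> norm_num [wt]
  have n1 := abs_le.mp h.n1
  have n3 := abs_le.mp h.n3
  have m1 : |s₁| ≤ 2 := abs_le.mpr ⟨by linarith, by linarith⟩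
  have m2 : |s₂| ≤ 2 := h.n2.trans (by linarith)
  have m3 : |s₃| ≤ 2 := abs_le.mpr ⟨by linarith, by linarith⟩
  have k : ∀ l s : ℝ, |l| ≤ η → |s| ≤ 2 → |l * s| ≤ η * 2 := fun l s a b => by
    rw [abs_mul]; exact mul_le_mul a b (abs_nonneg _) h0
  refine ⟨rfl, rfl, rfl, cp h, ?_, ?_, ?_, ?_, ?_, ?_⟩
  · show |(1 / 32) ^ wt τ.1 * s₁ - (1 / 32) ^ wt τ.1| ≤ _
    rw [← mul_sub_one, abs_mul, abs_of_pos w1, mul_comm]
    exact mul_le_mul_of_nonneg_right (h.n1.trans hγ) w1.le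
  · show |(1 / 32) ^ wt τ.2 * s₂| ≤ _
    rw [abs_mul, abs_of_pos w2, mul_comm]
    exact mul_le_mul (h.n2.trans hγ) w3 w2.le (by linarith)
  · show |(0 : ℝ)| ≤ _
    rw [abs_zero]; linarith
  · show |(1 / 32) ^ wt τ.2 * s₃ - (1 / 32) ^ wt τ.2| ≤ _
    rw [← mul_sub_one, abs_mul, abs_of_pos w2, mul_comm]
    exact mul_le_mul_of_nonneg_right (h.n3.trans hγ) w2.le
  · simp only [mk, add_sub_cancel_right]
    rw [show l₁ * ((1 / 32) ^ wt τ.1 * s₁) = l₁ * s₁ * (1 / 32) ^ wt τ.1 by ring, abs_mul,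
      abs_of_pos w1]
    exact mul_le_mul_of_nonneg_right ((k _ _ b1 m1).trans (by linarith)) w1.le
  · simp only [mk, add_sub_cancel_right]
    rw [show l₁ * ((1 / 32) ^ wt τ.2 * s₂) + l₂ * ((1 / 32) ^ wt τ.2 * s₃) =
      (l₁ * s₂ + l₂ * s₃) * (1 / 32) ^ wt τ.2 by ring, abs_mul, abs_of_pos w2]
    refine mul_le_mul_of_nonneg_right ((abs_add_le _ _).trans ?_) w2.le
    linarith [k _ _ b1 m2, k _ _ b2 m3]

theorem det_ge (h : Ch τ γ s₁ s₂ s₃ q₁ q₂ q₃) (hγ : γ ≤ 1 / 100) :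
    (1 / 32) ^ 4 ≤ (mk τ s₁ s₂ s₃ l₀ l₁ l₂ h₁ h₃).det := by
  have n1 := abs_le.mp h.n1
  have n3 := abs_le.mp h.n3
  have k : 1 / 2 ≤ s₁ * s₃ := by nlinarith
  simp only [mk, Fr.det, mul_zero, sub_zero]
  rcases τ with ⟨_ | _, _ | _⟩
  · simp only [wt, Bool.false_eq_true, if_false]; nlinarith
  · simp only [wt, Bool.false_eq_true, if_false, if_true]; nlinarith
  · simp only [wt, Bool.false_eq_true, if_false, if_true]; nlinarith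
  · simp only [wt, if_true, (h.p1 rfl).1, (h.p2 rfl).1]; norm_num

theorem lin1 {s x r : ℝ} (hs : |s - 1| ≤ 1 / 100) (hx : |x| ≤ r) : |s * x| ≤ 101 / 100 * r := by
  have n := abs_le.mp hs
  rw [abs_mul]
  exact mul_le_mul (abs_le.mpr ⟨by linarith, by linarith⟩) hx (abs_nonneg _) (by norm_num)

theorem lin2 {s x r : ℝ} (hs : |s| ≤ 1 / 100) (hx : |x| ≤ r) : |s * x| ≤ 1 / 100 * r := by
  rw [abs_mul]
  exact mul_le_mul hs hx (abs_nonneg _) (by norm_num)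

theorem map_bxc (h : Ch τ γ s₁ s₂ s₃ q₁ q₂ q₃) (hγ : γ ≤ 1 / 100) {r : ℝ} (hr : 0 < r)
    {y : ℝ × ℝ} (hy : y ∈ bxc τ r) :
    (mk τ s₁ s₂ s₃ l₀ l₁ l₂ h₁ h₃).sp y ∈ bxc τ (r / 20) := by
  rw [sp_eq]
  have n1 := h.n1.trans hγ
  have n2 := h.n2.trans hγ
  have n3 := h.n3.trans hγ
  have hr2 : 0 < r ^ 2 := by positivity
  obtain ⟨y1, y2⟩ := hy
  rcases τ with ⟨_ | _, _ | _⟩
  · simp only [wt, bxc, ivc, Bool.false_eq_true, if_false, mem_prod, mem_Icc] at y1 y2 ⊢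
    have a1 := abs_le.mp (lin1 n1 (abs_le.mpr y1))
    have a2 := abs_le.mp (lin2 n2 (abs_le.mpr y2))
    have a3 := abs_le.mp (lin1 n3 (abs_le.mpr y2))
    refine ⟨⟨?_, ?_⟩, ?_, ?_⟩ <;> nlinarith
  · simp only [wt, bxc, ivc, Bool.false_eq_true, if_false, if_true, mem_prod, mem_Icc,
      (h.p2 rfl).1, (h.p2 rfl).2.1] at y1 y2 ⊢
    have a1 := abs_le.mp (lin1 n1 (abs_le.mpr y1))
    refine ⟨⟨?_, ?_⟩, ?_, ?_⟩ <;> nlinarith
  · simp only [wt, bxc, ivc, Bool.false_eq_true, if_false, if_true, mem_prod, mem_Icc,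
      (h.p1 rfl).1, (h.p1 rfl).2.1] at y1 y2 ⊢
    have a3 := abs_le.mp (lin1 n3 (abs_le.mpr y2))
    refine ⟨⟨?_, ?_⟩, ?_, ?_⟩ <;> nlinarith
  · simp only [wt, bxc, ivc, if_true, mem_prod, mem_Icc,
      (h.p1 rfl).1, (h.p1 rfl).2.1, (h.p2 rfl).1] at y1 y2 ⊢
    refine ⟨⟨?_, ?_⟩, ?_, ?_⟩ <;> nlinarith

theorem mem_iv {b : Bool} {r s x : ℝ} (hr : 0 < r) (hs : r < s) (h1 : x ∈ ivc b r)
    (h2 : x ∈ ok b) : x ∈ iv b s := by
  cases b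
  · exact ⟨by linarith [h1.1], by linarith [h1.2]⟩
  · exact ⟨h2, h1.2.trans_lt (pow_lt_pow_left₀ hs hr.le two_ne_zero)⟩

theorem md_P (x : ℝ) : md true ((1 / 32) ^ 2 * x) =
    (1 / 32) ^ 2 * md true x + (1 / 32) ^ 2 * Real.log ((1 / 32) ^ 2) * x := by
  have := Resc.md_map (b := true) (ρ := 1 / 32) (c := 0) (by norm_num) rfl x
  simpa only [wt, if_true, zero_add, md, zero_mul, add_zero] using this

theorem wv_eq (h : Ch τ γ s₁ s₂ s₃ q₁ q₂ q₃) (u : X → ℝ) (q : X) :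
    wv τ ((mk τ s₁ s₂ s₃ l₀ l₁ l₂ h₁ h₃).pull u) q =
      (wv τ u ((mk τ s₁ s₂ s₃ l₀ l₁ l₂ h₁ h₃).fm q) -
        qp l₀ l₁ l₂ q₁ q₂ q₃ ((mk τ s₁ s₂ s₃ l₀ l₁ l₂ h₁ h₃).fm q).2) / (1 / 32) ^ 2 := by
  simp only [wv, Pi.sub_apply, Fr.pull, u0]
  generalize u ((mk τ s₁ s₂ s₃ l₀ l₁ l₂ h₁ h₃).fm q) = v
  simp only [Fr.fm, sp_eq]
  simp only [mk, af, qp]
  have e1 := h.e1
  have e2 := h.e2
  have e3 := h.e3
  rcases τ with ⟨_ | _, _ | _⟩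
  · simp only [wt, md, Bool.false_eq_true, if_false]
    linear_combination (q.2.1 ^ 2 / 2) * e1 + (s₁ * q.2.1 * q.2.2) * e2 + (q.2.2 ^ 2 / 2) * e3
  · obtain ⟨r1, r2, r3, r4⟩ := h.p2 rfl
    simp only [wt, Bool.false_eq_true, if_false, if_true, r1, r2, r3, r4, mul_one, md_P]
    simp only [md, Bool.false_eq_true, if_false]
    linear_combination (q.2.1 ^ 2 / 2) * e1
  · obtain ⟨r1, r2, r3, r4⟩ := h.p1 rfl
    simp only [r2, r3, r4] at e3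
    simp only [wt, Bool.false_eq_true, if_false, if_true, r1, r2, r3, r4, mul_one, mul_zero,
      zero_mul, add_zero, md_P]
    simp only [md, Bool.false_eq_true, if_false]
    linear_combination (q.2.2 ^ 2 / 2) * e3
  · obtain ⟨r1, r2, r3, r4⟩ := h.p1 rfl
    obtain ⟨r5, -, r6, -⟩ := h.p2 rfl
    simp only [wt, if_true, r1, r2, r3, r4, r5, r6, mul_one, mul_zero, zero_mul, add_zero, md_P]
    ring

theorem gx_congr {a b c a' b' c' : ℝ} (h1 : a = a') (h2 : b = b') (h3 : c = c') :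
    gx a b c = gx a' b' c' := by rw [h1, h2, h3]

theorem sqrt_sc {k x : ℝ} (hk : 0 ≤ k) : √(k ^ 2 * x) = k * √x := by
  rw [Real.sqrt_mul (sq_nonneg k), Real.sqrt_sq hk]

theorem gx_pull (h : Ch τ γ s₁ s₂ s₃ q₁ q₂ q₃) {u v : X → ℝ} {q : X}
    (c : ∀ e e', hb v e e' q = hb u ((mk τ s₁ s₂ s₃ l₀ l₁ l₂ h₁ h₃).S e)
      ((mk τ s₁ s₂ s₃ l₀ l₁ l₂ h₁ h₃).S e') ((mk τ s₁ s₂ s₃ l₀ l₁ l₂ h₁ h₃).fm q) /
        (mk τ s₁ s₂ s₃ l₀ l₁ l₂ h₁ h₃).ρ ^ 2)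
    {a b k : ℝ} (ha : a = o1 τ ((mk τ s₁ s₂ s₃ l₀ l₁ l₂ h₁ h₃).fm q) *
      h11 u ((mk τ s₁ s₂ s₃ l₀ l₁ l₂ h₁ h₃).fm q))
    (hb' : b = √(o1 τ ((mk τ s₁ s₂ s₃ l₀ l₁ l₂ h₁ h₃).fm q) *
      o2 τ ((mk τ s₁ s₂ s₃ l₀ l₁ l₂ h₁ h₃).fm q)) * h12 u ((mk τ s₁ s₂ s₃ l₀ l₁ l₂ h₁ h₃).fm q))
    (hk : k = o2 τ ((mk τ s₁ s₂ s₃ l₀ l₁ l₂ h₁ h₃).fm q) *
      h22 u ((mk τ s₁ s₂ s₃ l₀ l₁ l₂ h₁ h₃).fm q)) :
    gx (o1 τ q * h11 v q) (√(o1 τ q * o2 τ q) * h12 v q) (o2 τ q * h22 v q) =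
      gx (qx a b k (s₁, 0)) (a * s₁ * s₂ + b * (s₁ * s₃ + 0 * s₂) + k * 0 * s₃)
        (qx a b k (s₂, s₃)) := by
  have d1 := c (1, 0) (1, 0)
  have d2 := c (1, 0) (0, 1)
  have d3 := c (0, 1) (0, 1)
  simp only [hb, hs, T2.ap] at d1 d2 d3
  generalize h11 u ((mk τ s₁ s₂ s₃ l₀ l₁ l₂ h₁ h₃).fm q) = x at *
  generalize h12 u ((mk τ s₁ s₂ s₃ l₀ l₁ l₂ h₁ h₃).fm q) = y at *
  generalize h22 u ((mk τ s₁ s₂ s₃ l₀ l₁ l₂ h₁ h₃).fm q) = z at *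
  simp only [o1, o2, Fr.fm, sp_eq] at ha hb' hk
  simp only [mk, Fr.S, mul_one, mul_zero, add_zero, zero_add, zero_mul] at d1 d2 d3
  rw [d1, d2, d3, ha, hb', hk]
  simp only [o1, o2, qx]
  rcases τ with ⟨_ | _, _ | _⟩
  · simp only [wt, om, Bool.false_eq_true, if_false, mul_one, Real.sqrt_one]
    refine gx_congr ?_ ?_ ?_ <;> ring
  · obtain ⟨r1, r2, -⟩ := h.p2 rfl
    simp only [wt, om, Bool.false_eq_true, if_false, if_true, mul_one, one_mul, r1, r2,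
      sqrt_sc (k := 1 / 32) (by norm_num)]
    refine gx_congr ?_ ?_ ?_ <;> ring
  · obtain ⟨r1, r2, -⟩ := h.p1 rfl
    simp only [wt, om, Bool.false_eq_true, if_false, if_true, mul_one, r1, r2, mul_zero,
      zero_mul, add_zero, sqrt_sc (k := 1 / 32) (by norm_num)]
    refine gx_congr ?_ ?_ ?_ <;> ring
  · obtain ⟨r1, r2, -⟩ := h.p1 rfl
    obtain ⟨r3, -⟩ := h.p2 rfl
    simp only [wt, om, if_true, mul_one, r1, r2, r3, mul_zero, zero_mul, add_zero]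
    rw [show (1 / 32 : ℝ) ^ 2 * q.2.1 * ((1 / 32) ^ 2 * q.2.2) =
      ((1 / 32) ^ 2) ^ 2 * (q.2.1 * q.2.2) by ring, sqrt_sc (by norm_num)]
    refine gx_congr ?_ ?_ ?_ <;> ring

theorem abs_iv {b : Bool} {x : ℝ} (h : x ∈ iv b 1) : |x| ≤ 1 := by
  cases b
  · exact abs_le.mpr ⟨h.1.le, h.2.le⟩
  · exact abs_le.mpr ⟨by linarith [h.1], by simpa using h.2.le⟩

theorem qp_le {η : ℝ} {y : ℝ × ℝ} (hy : y ∈ bx τ 1) (b0 : |l₀| ≤ η) (b1 : |l₁| ≤ η)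
    (b2 : |l₂| ≤ η) (c1 : |q₁| ≤ η) (c2 : |q₂| ≤ η) (c3 : |q₃| ≤ η) :
    |qp l₀ l₁ l₂ q₁ q₂ q₃ y| ≤ 5 * η := by
  have y1 := abs_iv hy.1
  have y2 := abs_iv hy.2
  have k : ∀ l s : ℝ, |l| ≤ η → |s| ≤ 1 → |l * s| ≤ η := fun l s a b => by
    rw [abs_mul]; exact (mul_le_of_le_one_right (abs_nonneg _) b).trans a
  have a0 := abs_le.mp b0
  have a1 := abs_le.mp (k _ _ b1 y1)
  have a2 := abs_le.mp (k _ _ b2 y2)
  have a3 := abs_le.mp (k _ _ (k _ _ c1 y1) y1)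
  have a4 := abs_le.mp (k _ _ (k _ _ c2 y1) y2)
  have a5 := abs_le.mp (k _ _ (k _ _ c3 y2) y2)
  simp only [qp]
  rw [abs_le]
  constructor <;> nlinarith

theorem vol_le (τ : Ty) : volume.real (bx τ 1) ≤ 4 := by
  have k : ∀ b, volume.real (iv b 1) ≤ 2 := fun b => by
    cases b
    · simp [iv, Real.volume_real_Ioo]; norm_num
    · simp [iv, Real.volume_real_Ioo]
  rw [bx, Measure.volume_eq_prod, measureReal_prod_prod]
  nlinarith [k τ.1, k τ.2, measureReal_nonneg (μ := volume) (s := iv τ.1 1),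
    measureReal_nonneg (μ := volume) (s := iv τ.2 1)]

end Renorm

open Renorm in
theorem renorm_ok (h1 : StApi) (h2 : StAlg) (h3 : StFC) (h4 : StFI) (h5 : StFG) (h6 : StApprox) :
    StRenorm := by
  intro τ Λ
  obtain ⟨C, hC, hA⟩ := h6 τ Λ
  refine ⟨32 ^ 12 * C, by nlinarith, fun θ hθ => ?_⟩
  obtain ⟨ε₁, hε₁, hB⟩ := hA (θ / 16) (by positivity)
  have hC0 : 0 < C := by linarith
  refine ⟨min ε₁ (1 / (400 * C)), by positivity, fun d u F ε hτ hs hε hle hx => ?_⟩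
  obtain ⟨l₀, l₁, l₂, q₁, q₂, q₃, ⟨b0, b1, b2, c1, c2, c3⟩, p1, p2, happ⟩ :=
    hB d u F ε hτ hs hε (hle.trans (min_le_left _ _)) hx
  subst hτ
  have hη : C * ε ≤ 1 / 400 := by
    have := hle.trans (min_le_right _ _)
    rw [le_div_iff₀ (by positivity)] at this
    linarith
  have hη0 : 0 < C * ε := by positivity
  have hεη : ε ≤ C * ε := le_mul_of_one_le_left hε.le hC
  obtain ⟨s₁, s₂, s₃, hc⟩ := ex_ch hη c1 c2 c3 p1 p2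
  have hγ : 4 * (C * ε) ≤ 1 / 100 := by linarith
  have h₁ : s₁ ≠ 0 := fun h => by
    have := abs_le.mp hc.n1
    linarith
  have h₃ : s₃ ≠ 0 := fun h => by
    have := abs_le.mp hc.n3
    linarith
  have hP := pert (h₁ := h₁) (h₃ := h₃) (l₀ := l₀) (γ := 32 ^ 12 * C * ε) hc hη (by linarith) b1 b2
  have hdet := det_ge (h₁ := h₁) (h₃ := h₃) (l₀ := l₀) (l₁ := l₁) (l₂ := l₂) hc hγ
  have hmap := fun r hr y hy =>
    map_bxc (h₁ := h₁) (h₃ := h₃) (l₀ := l₀) (l₁ := l₁) (l₂ := l₂) hc hγ (r := r) hr (y := y) hy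
  have hwv := wv_eq (h₁ := h₁) (h₃ := h₃) (l₀ := l₀) (l₁ := l₁) (l₂ := l₂) hc u
  have hgx := fun v q c =>
    gx_pull (h₁ := h₁) (h₃ := h₃) (l₀ := l₀) (l₁ := l₁) (l₂ := l₂) hc (u := u) (v := v) (q := q) c
      rfl rfl rfl
  generalize mk d.τ s₁ s₂ s₃ l₀ l₁ l₂ h₁ h₃ = fr at hP hdet hmap hwv hgx
  have hN := hs.toN0
  have hρ := hP.ρ
  have htm : ∀ t, fr.tm t = (1 / 32) ^ 4 * t := fun t => by
    simp only [Fr.tm, hP.t1, hρ, zero_add]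
  obtain ⟨gS, gU, -, -, gL, -, -, gGS⟩ := h5.1 fr d d.τ hP.cp
  have htI : ∀ t ∈ Icc (-1 : ℝ) 0, fr.tm t ∈ Icc (-1 : ℝ) 0 := fun t ht => by
    rw [htm]
    constructor <;> linarith [ht.1, ht.2]
  have hN' : N0 (fr.dm d d.τ) (fr.pull u) (fr.pullF F) := by
    refine ⟨gGS u F hN.gs, fun t ht => hN.tI (htI t ht), fun y hy => ?_⟩
    refine ⟨hN.bO (bxc_mono _ (by norm_num) (by norm_num) (hmap 1 one_pos y hy)), ?_⟩
    rw [Resc.if_univ, Resc.if_univ]; exact ⟨trivial, trivial⟩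
  have hR : ∀ r, 0 < r → r ≤ 1 → Reg d (bx d.τ r) := fun r a b =>
    reg_bx ((bxc_mono _ a.le b).trans hN.bO)
  have hR' : ∀ r, 0 < r → r ≤ 1 → Reg (fr.dm d d.τ) (bx d.τ r) := fun r a b =>
    reg_bx (d := fr.dm d d.τ) ((bxc_mono _ a.le b).trans hN'.bO)
  have hsub : ∀ r s, 0 < r → r ≤ 1 → r / 16 ≤ s → fr.sp '' bx d.τ r ⊆ bx d.τ s := by
    rintro r s a b c _ ⟨y, hy, rfl⟩
    have k1 := hmap r a y (bx_subset_bxc _ _ hy)
    have k2 : y ∈ fr.sp ⁻¹' d.S := gS ▸ (hR' r a b).sub hy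
    exact ⟨mem_iv (by positivity) (by linarith) k1.1 k2.2.1,
      mem_iv (by positivity) (by linarith) k1.2 k2.2.2⟩
  have hnn : ∀ g : X → ℝ, (∀ q ∈ d.U, 0 ≤ g q) → ∀ s, 0 < s → s ≤ 1 → ∀ t ∈ Icc (-1 : ℝ) 0,
      0 ≤ ∫ y in bx d.τ s, g (t, y) := fun g hg s a b t ht =>
    setIntegral_nonneg (hR s a b).ms fun y hy => hg _ ⟨hN.tI ht, (hR s a b).sub hy⟩
  have key : ∀ g : X → ℝ, Lc d g → (∀ q ∈ d.U, 0 ≤ g q) → ∀ r s, 0 < r → r ≤ 1 → r / 16 ≤ s →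
      s ≤ 1 → ∀ t ∈ Icc (-1 : ℝ) 0,
      ∫ y in bx d.τ r, g (fr.fm (t, y)) ≤ 32 ^ 4 * ∫ y in bx d.τ s, g (fr.tm t, y) := by
    intro g hg h0 r s a b c e t ht
    have s0 : 0 < s := by linarith
    have hI := hN.tI (htI t ht)
    have hd0 : 0 < fr.det := lt_of_lt_of_le (by norm_num) hdet
    have k1 := ((h4 fr _ (hR r a b).ms).2.1 fun y => g (fr.tm t, y)).2
    rw [abs_of_pos hd0] at k1
    have k2 : ∫ y in fr.sp '' bx d.τ r, g (fr.tm t, y) ≤ ∫ y in bx d.τ s, g (fr.tm t, y) := by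
      refine setIntegral_mono_set (hg.integrableOn (hR s s0 e) hI) ?_
        (hsub r s a b c).eventuallyLE
      exact (ae_restrict_iff' (hR s s0 e).ms).mpr
        (Eventually.of_forall fun y hy => h0 _ ⟨hI, (hR s s0 e).sub hy⟩)
    have k3 : fr.det⁻¹ ≤ 32 ^ 4 := (inv_anti₀ (by norm_num) hdet).trans (by norm_num)
    exact k1.le.trans ((mul_le_mul_of_nonneg_left k2 (inv_pos.mpr hd0).le).trans
      (mul_le_mul_of_nonneg_right k3 (hnn g h0 s s0 e _ (htI t ht))))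
  have both : ∀ g : X → ℝ, Lc d g → (∀ q ∈ d.U, 0 ≤ g q) → ∀ r s, 0 < r → r ≤ 1 → r / 16 ≤ s →
      s ≤ 1 → ∫ t in (-r ^ 4)..0, ∫ y in bx d.τ r, g (fr.fm (t, y)) ≤
        32 ^ 8 * ∫ t in (-s ^ 4)..0, ∫ y in bx d.τ s, g (t, y) := by
    intro g hg h0 r s a b c e
    have s0 : 0 < s := by linarith
    have r4 : -r ^ 4 ≤ 0 := neg_nonpos.mpr (by positivity)
    have s4 : -s ^ 4 ≤ 0 := neg_nonpos.mpr (by positivity)
    have rI : Icc (-r ^ 4) 0 ⊆ Icc (-1 : ℝ) 0 :=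
      Icc_subset_Icc (neg_le_neg (pow_le_one₀ a.le b)) le_rfl
    have sI : Icc (-s ^ 4) 0 ⊆ Icc (-1 : ℝ) 0 :=
      Icc_subset_Icc (neg_le_neg (pow_le_one₀ s0.le e)) le_rfl
    have k1 : ContinuousOn (fun t => ∫ y in bx d.τ s, g (t, y)) (Icc (-1 : ℝ) 0) :=
      (hg.continuousOn_int (hR s s0 e)).mono hN.tI
    have k2 : ContinuousOn (fun t => ∫ y in bx d.τ r, g (fr.fm (t, y))) (Icc (-1 : ℝ) 0) :=
      ((gL g hg).continuousOn_int (hR' r a b)).mono hN'.tI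
    have k3 : ContinuousOn (fun t => 32 ^ 4 * ∫ y in bx d.τ s, g (fr.tm t, y)) (Icc (-1 : ℝ) 0) :=
      continuousOn_const.mul (k1.comp fr.cont_tm.continuousOn htI)
    calc _ ≤ ∫ t in (-r ^ 4)..0, 32 ^ 4 * ∫ y in bx d.τ s, g (fr.tm t, y) :=
          intervalIntegral.integral_mono_on r4 ((k2.mono rI).intervalIntegrable_of_Icc r4)
            ((k3.mono rI).intervalIntegrable_of_Icc r4) fun t ht =>
              key g hg h0 r s a b c e t (rI ht)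
      _ = 32 ^ 8 * ∫ t in fr.tm (-r ^ 4)..fr.tm 0, ∫ y in bx d.τ s, g (t, y) := by
          rw [intervalIntegral.integral_const_mul,
            (h4 fr univ MeasurableSet.univ).2.2.2 (fun t => ∫ y in bx d.τ s, g (t, y)), hρ]
          ring
      _ ≤ _ := by
          refine mul_le_mul_of_nonneg_left ?_ (by norm_num)
          have k4 : (r / 16) ^ 4 ≤ s ^ 4 := pow_le_pow_left₀ (by positivity) c 4
          refine intervalIntegral.integral_mono_interval (by rw [htm]; nlinarith)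
            (by rw [htm, htm]; linarith) (by rw [htm]; linarith) ?_
            ((k1.mono sI).intervalIntegrable_of_Icc s4)
          exact (ae_restrict_iff' measurableSet_Ioc).mpr (Eventually.of_forall fun t ht =>
            hnn g h0 s s0 e t (sI (Ioc_subset_Icc_self ht)))
  have A := h1 d u hN.gs.toGS0
  have A' := h1 _ _ hN'.gs.toGS0
  have hU : ∀ q ∈ (fr.dm d d.τ).U, fr.fm q ∈ d.U := fun q hq => by
    have : q ∈ fr.fm ⁻¹' d.U := gU ▸ hq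
    exact this
  obtain ⟨-, hFC⟩ := (h3 fr d.U d.isOpen_U).2.2 u A.sm fun q hq => (A.pW q hq).ne'
  have hgex : ∀ q ∈ (fr.dm d d.τ).U, gex d.τ (fr.pull u) q ≤
      2 * gex d.τ u (fr.fm q) + 1000 * (4 * (C * ε)) ^ 2 := fun q hq => by
    have k := A'.gx2 q hq
    have k' := hU q hq
    refine (k.trans (hgx _ q (hFC q k').2.2.1)).le.trans ?_
    rw [A.gx2 _ k']
    exact h2.2.1 _ _ _ s₁ s₂ 0 s₃ _ (A.gx1 _ k').1 (A.gx1 _ k').2 hγ hc.n1 hc.n2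
      (by rw [abs_zero]; linarith) hc.n3
  have hg0 : ∀ q ∈ d.U, 0 ≤ gex d.τ u q := fun q hq => by
    rw [A.gx2 q hq]
    exact (h2.1 _ _ _ (A.gx1 q hq).1 (A.gx1 q hq).2).1
  have hq : Lc d fun q => qp l₀ l₁ l₂ q₁ q₂ q₃ q.2 := lc_of_cont (by unfold qp; fun_prop)
  have hg : Lc d fun q => (wv d.τ u q - qp l₀ l₁ l₂ q₁ q₂ q₃ q.2) ^ 2 := (hN.gs.bd.lc.sub hq).pow 2
  have hw2 : ∀ q : X, wv d.τ (fr.pull u) q ^ 2 =
      32 ^ 4 * (wv d.τ u (fr.fm q) - qp l₀ l₁ l₂ q₁ q₂ q₃ (fr.fm q).2) ^ 2 := fun q => by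
    rw [hwv]; ring
  have R1 := hR 1 one_pos le_rfl
  have R1' := hR' 1 one_pos le_rfl
  have hvol : ∀ c : ℝ, 0 ≤ c → ∫ _ in bx d.τ 1, c ≤ 4 * c := fun c hc => by
    rw [setIntegral_const, smul_eq_mul]
    exact mul_le_mul_of_nonneg_right (vol_le _) hc
  have hε2 : ε ^ 2 ≤ (C * ε) ^ 2 := pow_le_pow_left₀ hε.le hεη 2
  have hη2 : 0 < (C * ε) ^ 2 := by positivity
  refine ⟨fr, hP, ⟨hN', fun t ht => ?_⟩, ⟨fun t ht => ?_, ?_⟩, fun r hr hr1 => ?_⟩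
  · have k := key (fun q => F q ^ 2) (hN.gs.lcF.pow 2) (fun q _ => sq_nonneg _) 1 1 one_pos le_rfl
      (by norm_num) le_rfl t ht
    have k2 := hs.en _ (htI t ht)
    have k3 : ∀ y, fr.pullF F (t, y) ^ 2 = (1 / 32) ^ 4 * F (fr.fm (t, y)) ^ 2 := fun y => by
      simp only [Fr.pullF, hρ]; ring
    show ∫ y in bx d.τ 1, fr.pullF F (t, y) ^ 2 ≤ _
    simp only [k3]
    rw [integral_const_mul]
    linarith
  · have k := key _ hg (fun q _ => sq_nonneg _) 1 1 one_pos le_rfl (by norm_num) le_rfl t ht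
    have hI := hN.tI (htI t ht)
    have i1 := (hN.gs.bd.lc.pow 2).integrableOn R1 hI
    have k2 : ∫ y in bx d.τ 1, (wv d.τ u (fr.tm t, y) - qp l₀ l₁ l₂ q₁ q₂ q₃ y) ^ 2 ≤
        ∫ y in bx d.τ 1, (2 * wv d.τ u (fr.tm t, y) ^ 2 + 50 * (C * ε) ^ 2) := by
      refine setIntegral_mono_on (hg.integrableOn R1 hI)
        ((i1.const_mul 2).add (integrableOn_const R1.finite)) R1.ms fun y hy => ?_
      have k4 := sq_le_sq' (abs_le.mp (qp_le hy b0 b1 b2 c1 c2 c3)).1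
        (abs_le.mp (qp_le hy b0 b1 b2 c1 c2 c3)).2
      nlinarith [sq_nonneg (wv d.τ u (fr.tm t, y) + qp l₀ l₁ l₂ q₁ q₂ q₃ y)]
    rw [integral_add (i1.const_mul 2) (integrableOn_const R1.finite), integral_const_mul] at k2
    have k5 := hx.1 _ (htI t ht)
    have k6 := hvol (50 * (C * ε) ^ 2) (by positivity)
    show ∫ y in bx d.τ 1, wv d.τ (fr.pull u) (t, y) ^ 2 ≤ _
    simp only [hw2]
    rw [integral_const_mul, mul_assoc, mul_pow]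
    linarith
  · have hle : (-1 : ℝ) ≤ 0 := by norm_num
    have k := both _ A.bg.lc hg0 1 1 one_pos le_rfl (by norm_num) le_rfl
    rw [one_pow] at k
    have L1 := gL _ A.bg.lc
    have k1 : ContinuousOn (fun t => ∫ y in bx d.τ 1, gex d.τ (fr.pull u) (t, y))
        (Icc (-1 : ℝ) 0) := (A'.bg.lc.continuousOn_int R1').mono hN'.tI
    have k2 : ContinuousOn (fun t => ∫ y in bx d.τ 1, gex d.τ u (fr.fm (t, y)))
        (Icc (-1 : ℝ) 0) := (L1.continuousOn_int R1').mono hN'.tI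
    have i2 := (k2.intervalIntegrable_of_Icc (μ := volume) hle).const_mul 2
    have k3 : ∫ t in (-1 : ℝ)..0, ∫ y in bx d.τ 1, gex d.τ (fr.pull u) (t, y) ≤
        ∫ t in (-1 : ℝ)..0, (2 * (∫ y in bx d.τ 1, gex d.τ u (fr.fm (t, y))) +
          64000 * (C * ε) ^ 2) := by
      refine intervalIntegral.integral_mono_on hle (k1.intervalIntegrable_of_Icc hle)
        (i2.add intervalIntegrable_const) fun t ht => ?_
      have hI := hN'.tI ht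
      have i1 : IntegrableOn (fun y => gex d.τ u (fr.fm (t, y))) (bx d.τ 1) :=
        L1.integrableOn R1' hI
      have k4 := setIntegral_mono_on (A'.bg.lc.integrableOn R1' hI)
        ((i1.const_mul 2).add (integrableOn_const (C := 1000 * (4 * (C * ε)) ^ 2) R1.finite))
        R1.ms fun y hy => hgex (t, y) ⟨hI, R1'.sub hy⟩
      simp only [Pi.add_apply] at k4
      rw [integral_add (i1.const_mul 2) (integrableOn_const R1.finite), integral_const_mul] at k4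
      have k6 := hvol (1000 * (4 * (C * ε)) ^ 2) (by positivity)
      refine k4.trans ?_
      linarith
    rw [intervalIntegral.integral_add i2 intervalIntegrable_const,
      intervalIntegral.integral_const_mul, intervalIntegral.integral_const, smul_eq_mul] at k3
    have k5 := hx.2
    show ∫ t in (-1 : ℝ)..0, ∫ y in bx d.τ 1, gex d.τ (fr.pull u) (t, y) ≤ _
    rw [mul_assoc, mul_pow]
    linarith
  · have r0 : 0 < r := hθ.trans_le hr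
    have k := both _ hg (fun q _ => sq_nonneg _) r (r / 16) r0 hr1 le_rfl (by linarith)
    have k2 := happ (r / 16) (by linarith) (by linarith)
    have k3 : (r / 16) ^ (wt d.τ.1 + wt d.τ.2 + 10) ≤ r ^ (wt d.τ.1 + wt d.τ.2 + 10) :=
      pow_le_pow_left₀ (by positivity) (by linarith) _
    have k4 := mul_le_mul_of_nonneg_right (mul_le_mul_of_nonneg_left k3 hC0.le) (sq_nonneg ε)
    simp only [hw2, integral_const_mul, intervalIntegral.integral_const_mul]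
    linarith

end Pool.Agent.P.MP_2cea5e_gt.I
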