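import Pool.Agent.P.MP_2cea5e_gt.I.St5

/-!
Chapter I: the square root of the moment map is a diffeomorphism onto its image.
-/

open scoped ContDiff Topology
open MeasureTheory Set Filter

noncomputable section

set_option linter.dupNamespace false

namespace Pool.Agent.P.MP_2cea5e_gt.I

namespace Sig

variable {J : Set ℝ} {F : X → ℝ}

theorem oV (hJ : IsOpen J) : IsOpen (J ×ˢ (univ : Set (ℝ × ℝ))) := hJ.prod isOpen_univ

theorem dA (hJ : IsOpen J) (hF : ContDiffOn ℝ ∞ F (J ×ˢ univ)) {p : X} (hp : p.1 ∈ J) :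
    DifferentiableAt ℝ F p := diffAt (oV hJ) hF ⟨hp, trivial⟩

theorem same1 (hJ : IsOpen J) (hF : ContDiffOn ℝ ∞ F (J ×ˢ univ))
    (h : ∀ p : X, p.1 ∈ J → F (p.1, p.2.1, -p.2.2) = F p) (p : X) (hp : p.1 ∈ J) :
    D e1 F (p.1, p.2.1, -p.2.2) = D e1 F p := by
  obtain ⟨t, a, b⟩ := p
  have h1 := hasDerivAt_y1 (dA hJ hF (p := (t, a, -b)) hp)
  have h2 := hasDerivAt_y1 (dA hJ hF (p := (t, a, b)) hp)
  have e : (fun s : ℝ => F (t, s, -b)) = fun s => F (t, s, b) := funext fun s => h (t, s, b) hp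
  rw [e] at h1
  exact h1.unique h2

theorem same2 (hJ : IsOpen J) (hF : ContDiffOn ℝ ∞ F (J ×ˢ univ))
    (h : ∀ p : X, p.1 ∈ J → F (p.1, -p.2.1, p.2.2) = F p) (p : X) (hp : p.1 ∈ J) :
    D e2 F (p.1, -p.2.1, p.2.2) = D e2 F p := by
  obtain ⟨t, a, b⟩ := p
  have h1 := hasDerivAt_y2 (dA hJ hF (p := (t, -a, b)) hp)
  have h2 := hasDerivAt_y2 (dA hJ hF (p := (t, a, b)) hp)
  have e : (fun s : ℝ => F (t, -a, s)) = fun s => F (t, a, s) := funext fun s => h (t, a, s) hp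
  rw [e] at h1
  exact h1.unique h2

theorem opp1 (hJ : IsOpen J) (hF : ContDiffOn ℝ ∞ F (J ×ˢ univ))
    (h : ∀ p : X, p.1 ∈ J → F (p.1, -p.2.1, p.2.2) = F p) (p : X) (hp : p.1 ∈ J) :
    D e1 F (p.1, -p.2.1, p.2.2) = -D e1 F p := by
  obtain ⟨t, a, b⟩ := p
  have h1 := (hasDerivAt_y1 (dA hJ hF (p := (t, -a, b)) hp)).comp a (hasDerivAt_neg a)
  have h2 := hasDerivAt_y1 (dA hJ hF (p := (t, a, b)) hp)
  have e : ((fun s : ℝ => F (t, s, b)) ∘ Neg.neg) = fun s => F (t, s, b) :=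
    funext fun s => h (t, s, b) hp
  rw [e] at h1
  have := h1.unique h2
  simp only at this ⊢
  linarith

theorem opp2 (hJ : IsOpen J) (hF : ContDiffOn ℝ ∞ F (J ×ˢ univ))
    (h : ∀ p : X, p.1 ∈ J → F (p.1, p.2.1, -p.2.2) = F p) (p : X) (hp : p.1 ∈ J) :
    D e2 F (p.1, p.2.1, -p.2.2) = -D e2 F p := by
  obtain ⟨t, a, b⟩ := p
  have h1 := (hasDerivAt_y2 (dA hJ hF (p := (t, a, -b)) hp)).comp b (hasDerivAt_neg b)
  have h2 := hasDerivAt_y2 (dA hJ hF (p := (t, a, b)) hp)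
  have e : ((fun s : ℝ => F (t, a, s)) ∘ Neg.neg) = fun s => F (t, a, s) :=
    funext fun s => h (t, a, s) hp
  rw [e] at h1
  have := h1.unique h2
  simp only at this ⊢
  linarith

/-- A function whose derivative has the sign of the variable. -/
theorem one {φ φ' : ℝ → ℝ} (hd : ∀ s, HasDerivAt φ (φ' s) s) (h0 : φ 0 = 0)
    (hs : ∀ s, s ≠ 0 → 0 < s * φ' s) : StrictMonoOn φ (Ici 0) ∧ ∀ s, s ≠ 0 → 0 < φ s := by
  have hc : Continuous φ := continuous_iff_continuousAt.2 fun s => (hd s).continuousAt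
  have h1 : StrictMonoOn φ (Ici 0) := by
    refine strictMonoOn_of_deriv_pos (convex_Ici 0) hc.continuousOn fun s hs' => ?_
    rw [interior_Ici] at hs'
    rw [(hd s).deriv]
    exact (mul_pos_iff_of_pos_left hs').1 (hs s (ne_of_gt hs'))
  have h2 : StrictAntiOn φ (Iic 0) := by
    refine strictAntiOn_of_deriv_neg (convex_Iic 0) hc.continuousOn fun s hs' => ?_
    rw [interior_Iic] at hs'
    rw [(hd s).deriv]
    have := hs s (ne_of_lt hs')
    have h3 : s < 0 := hs'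
    by_contra hc
    nlinarith [not_lt.1 hc]
  refine ⟨h1, fun s hs => ?_⟩
  rcases lt_or_gt_of_ne hs with h | h
  · rw [← h0]; exact h2 h.le self_mem_Iic h
  · rw [← h0]; exact h1 self_mem_Ici h.le h

theorem sgn {a a' x x' : ℝ} (hx : 0 < x) (hx' : 0 < x') (h : a * √x = a' * √x') :
    a ^ 2 * x = a' ^ 2 * x' ∧ (|a| = |a'| → a = a') ∧ (a = 0 ↔ a' = 0) := by
  have s1 := Real.sqrt_pos.2 hx
  have s2 := Real.sqrt_pos.2 hx'
  refine ⟨?_, fun e => ?_, fun e => ?_, fun e => ?_⟩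
  · rw [← Real.sq_sqrt hx.le, ← Real.sq_sqrt hx'.le, ← mul_pow, ← mul_pow, h]
  · rcases abs_eq_abs.1 e with e | e
    · exact e
    · have : a' * (√x + √x') = 0 := by rw [e] at h; linarith
      have h0 : a' = 0 := (mul_eq_zero.1 this).resolve_right (by positivity)
      rw [e, h0, neg_zero]
  · rw [e, zero_mul] at h
    exact (mul_eq_zero.1 h.symm).resolve_right s2.ne'
  · rw [e, zero_mul] at h
    exact (mul_eq_zero.1 h).resolve_right s1.ne'

theorem axis {γ : ℝ → ℝ} (hp : ∀ s, 0 < γ s) (he : ∀ s, γ (-s) = γ s)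
    (hm : StrictMonoOn (fun s => s ^ 2 * γ s) (Ici 0)) {a a' : ℝ}
    (h : a * √(γ a) = a' * √(γ a')) : a = a' := by
  obtain ⟨h1, h2, -⟩ := sgn (hp a) (hp a') h
  have ha : ∀ s, γ |s| = γ s := fun s => by
    rcases abs_choice s with e | e <;> rw [e]
    exact he s
  refine h2 (hm.injOn (abs_nonneg a) (abs_nonneg a') ?_)
  simp only [sq_abs, ha]
  exact h1

theorem D_c1 (v p : X) : D v (fun q : X => q.2.1) p = v.2.1 := by
  have : HasFDerivAt (fun q : X => q.2.1)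
      ((ContinuousLinearMap.fst ℝ ℝ ℝ).comp (ContinuousLinearMap.snd ℝ ℝ (ℝ × ℝ))) p :=
    ((ContinuousLinearMap.fst ℝ ℝ ℝ).comp (ContinuousLinearMap.snd ℝ ℝ (ℝ × ℝ))).hasFDerivAt
  simp only [D, this.fderiv]
  rfl

theorem D_c2 (v p : X) : D v (fun q : X => q.2.2) p = v.2.2 := by
  have : HasFDerivAt (fun q : X => q.2.2)
      ((ContinuousLinearMap.snd ℝ ℝ ℝ).comp (ContinuousLinearMap.snd ℝ ℝ (ℝ × ℝ))) p :=
    ((ContinuousLinearMap.snd ℝ ℝ ℝ).comp (ContinuousLinearMap.snd ℝ ℝ (ℝ × ℝ))).hasFDerivAt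
  simp only [D, this.fderiv]
  rfl

theorem D3 (v : X) (F : X → ℝ) (p : X) :
    D v F p = v.1 * D e0 F p + v.2.1 * D e1 F p + v.2.2 * D e2 F p := by
  rw [D_dir3 v F]
  rfl

/-- The facts on `g₁`, `g₂`. -/
structure Dat (J : Set ℝ) (f : ℝ × C2 → ℝ) (g₁ g₂ : X → ℝ) : Prop where
  s1 : ContDiffOn ℝ ∞ g₁ (J ×ˢ univ)
  s2 : ContDiffOn ℝ ∞ g₂ (J ×ˢ univ)
  p1 : ∀ p : X, p.1 ∈ J → 0 < g₁ p
  p2 : ∀ p : X, p.1 ∈ J → 0 < g₂ p
  m1 : ∀ p : X, p.1 ∈ J → p.2.1 * D e1 (rl f) p = 2 * (p.2.1 ^ 2 * g₁ p)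
  m2 : ∀ p : X, p.1 ∈ J → p.2.2 * D e2 (rl f) p = 2 * (p.2.2 ^ 2 * g₂ p)
  e11 : ∀ p : X, p.1 ∈ J → g₁ (p.1, -p.2.1, p.2.2) = g₁ p
  e12 : ∀ p : X, p.1 ∈ J → g₁ (p.1, p.2.1, -p.2.2) = g₁ p
  e21 : ∀ p : X, p.1 ∈ J → g₂ (p.1, -p.2.1, p.2.2) = g₂ p
  e22 : ∀ p : X, p.1 ∈ J → g₂ (p.1, p.2.1, -p.2.2) = g₂ p

variable {f : ℝ × C2 → ℝ} {g₁ g₂ : X → ℝ}

theorem line1 (L : LogP J f) {t : ℝ} (ht : t ∈ J) (b : ℝ) :
    StrictMonoOn (fun s => s * D e1 (rl f) (t, s, b)) (Ici 0) ∧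
      ∀ s, s ≠ 0 → 0 < s * D e1 (rl f) (t, s, b) := by
  refine one (φ' := fun s => D e1 (rl f) (t, s, b) + s * h11 (rl f) (t, s, b)) (fun s => ?_)
    (zero_mul _) fun s hs => (L.ax1 (t, s, b) ht).2 hs
  have := (hasDerivAt_id' s).mul
    (hasDerivAt_y1 (dA L.pot.oI (smO_D (oV L.pot.oI) e1 L.smr) (p := (t, s, b)) ht))
  rw [one_mul] at this
  exact this

theorem line2 (L : LogP J f) {t : ℝ} (ht : t ∈ J) (a : ℝ) :
    StrictMonoOn (fun s => s * D e2 (rl f) (t, a, s)) (Ici 0) ∧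
      ∀ s, s ≠ 0 → 0 < s * D e2 (rl f) (t, a, s) := by
  refine one (φ' := fun s => D e2 (rl f) (t, a, s) + s * h22 (rl f) (t, a, s)) (fun s => ?_)
    (zero_mul _) fun s hs => (L.ax2 (t, a, s) ht).2 hs
  have := (hasDerivAt_id' s).mul
    (hasDerivAt_y2 (dA L.pot.oI (smO_D (oV L.pot.oI) e2 L.smr) (p := (t, a, s)) ht))
  rw [one_mul] at this
  exact this

theorem exists_dat (h1 : StEven) (L : LogP J f) : ∃ g₁ g₂, Dat J f g₁ g₂ := by
  have hJ := L.pot.oI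
  obtain ⟨G₁, a1, a2⟩ := h1.1 _ (rl f) (oV hJ) (fun p hp => ⟨hp.1, trivial⟩) L.smr
    fun p hp => L.ev1 p hp.1
  obtain ⟨G₂, b1, b2⟩ := h1.2.1 _ (rl f) (oV hJ) (fun p hp => ⟨hp.1, trivial⟩) L.smr
    fun p hp => L.ev2 p hp.1
  have a3 := fun (p : X) (hp : p.1 ∈ J) => a2 p ⟨hp, trivial⟩
  have b3 := fun (p : X) (hp : p.1 ∈ J) => b2 p ⟨hp, trivial⟩
  refine ⟨fun p => G₁ p / 2, fun p => G₂ p / 2, a1.div_const 2, b1.div_const 2, fun p hp => ?_,
    fun p hp => ?_, fun p hp => ?_, fun p hp => ?_, fun p hp => ?_, fun p hp => ?_,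
    fun p hp => ?_, fun p hp => ?_⟩
  · by_cases h : p.2.1 = 0
    · rw [(a3 p hp).2 h]
      exact half_pos ((L.ax1 p hp).1 h)
    · have := (line1 L hp p.2.2).2 p.2.1 h
      rw [show ((p.1, p.2.1, p.2.2) : X) = p from rfl, (a3 p hp).1, ← mul_assoc] at this
      exact half_pos ((mul_pos_iff_of_pos_left (mul_self_pos.2 h)).1 this)
  · by_cases h : p.2.2 = 0
    · rw [(b3 p hp).2 h]
      exact half_pos ((L.ax2 p hp).1 h)
    · have := (line2 L hp p.2.1).2 p.2.2 h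
      rw [show ((p.1, p.2.1, p.2.2) : X) = p from rfl, (b3 p hp).1, ← mul_assoc] at this
      exact half_pos ((mul_pos_iff_of_pos_left (mul_self_pos.2 h)).1 this)
  · rw [(a3 p hp).1]; ring
  · rw [(b3 p hp).1]; ring
  · by_cases h : p.2.1 = 0
    · rw [show ((p.1, -p.2.1, p.2.2) : X) = p by ext <;> simp [h]]
    · have := opp1 hJ L.smr L.ev1 p hp
      rw [(a3 p hp).1, (a3 (p.1, -p.2.1, p.2.2) hp).1] at this
      have e : G₁ (p.1, -p.2.1, p.2.2) = G₁ p := mul_left_cancel₀ h (by linarith)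
      simp only [e]
  · by_cases h : p.2.1 = 0
    · have := same1 hJ (smO_D (oV hJ) e1 L.smr) (same1 hJ L.smr L.ev2) p hp
      simp only [(a3 p hp).2 h, (a3 (p.1, p.2.1, -p.2.2) hp).2 h]
      exact congrArg (· / 2) this
    · have := same1 hJ L.smr L.ev2 p hp
      rw [(a3 p hp).1, (a3 (p.1, p.2.1, -p.2.2) hp).1] at this
      have e : G₁ (p.1, p.2.1, -p.2.2) = G₁ p := mul_left_cancel₀ h this
      simp only [e]
  · by_cases h : p.2.2 = 0
    · have := same2 hJ (smO_D (oV hJ) e2 L.smr) (same2 hJ L.smr L.ev1) p hp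
      simp only [(b3 p hp).2 h, (b3 (p.1, -p.2.1, p.2.2) hp).2 h]
      exact congrArg (· / 2) this
    · have := same2 hJ L.smr L.ev1 p hp
      rw [(b3 p hp).1, (b3 (p.1, -p.2.1, p.2.2) hp).1] at this
      have e : G₂ (p.1, -p.2.1, p.2.2) = G₂ p := mul_left_cancel₀ h this
      simp only [e]
  · by_cases h : p.2.2 = 0
    · rw [show ((p.1, p.2.1, -p.2.2) : X) = p by ext <;> simp [h]]
    · have := opp2 hJ L.smr L.ev2 p hp
      rw [(b3 p hp).1, (b3 (p.1, p.2.1, -p.2.2) hp).1] at this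
      have e : G₂ (p.1, p.2.1, -p.2.2) = G₂ p := mul_left_cancel₀ h (by linarith)
      simp only [e]

theorem Dat.mm_eq (A : Dat J f g₁ g₂) (p : X) (hp : p.1 ∈ J) :
    mm f p = (p.2.1 ^ 2 * g₁ p, p.2.2 ^ 2 * g₂ p) := by
  simp only [mm, A.m1 p hp, A.m2 p hp]
  ext <;> simp

theorem Dat.abs_eq (A : Dat J f g₁ g₂) {t : ℝ} (ht : t ∈ J) (a b : ℝ) :
    mm f (t, |a|, |b|) = mm f (t, a, b) := by
  rw [A.mm_eq _ ht, A.mm_eq _ ht]
  simp only [sq_abs]
  have k1 := A.e11 (t, a, b) ht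
  have k2 := A.e12 (t, a, b) ht
  have k3 := A.e12 (t, -a, b) ht
  have k4 := A.e21 (t, a, b) ht
  have k5 := A.e22 (t, a, b) ht
  have k6 := A.e22 (t, -a, b) ht
  simp only at k1 k2 k3 k4 k5 k6
  rcases abs_choice a with e | e <;> rcases abs_choice b with e' | e' <;>
    simp only [e, e', k1, k2, k3, k4, k5, k6]

theorem exp_log {a : ℝ} (ha : a ≠ 0) : Real.exp (Real.log (a ^ 2) / 2) = |a| := by
  rw [Real.log_pow, show ((2 : ℕ) : ℝ) * Real.log a / 2 = Real.log a by push_cast; ring,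
    Real.exp_log_eq_abs ha]

theorem Dat.gm (A : Dat J f g₁ g₂) (L : LogP J f) {t a b : ℝ} (ht : t ∈ J) (ha : a ≠ 0)
    (hb : b ≠ 0) : grad (lg f) (t, Real.log (a ^ 2), Real.log (b ^ 2)) = mm f (t, a, b) := by
  rw [L.gm _ ht]
  simp only [exp_log ha, exp_log hb]
  exact A.abs_eq ht a b

theorem Dat.inj (A : Dat J f g₁ g₂) (h2 : StChg) (L : LogP J f) :
    InjOn (sg g₁ g₂) (J ×ˢ univ) := by
  rintro ⟨t, a, b⟩ ⟨ht, -⟩ ⟨t', a', b'⟩ - h
  simp only [sg, Prod.mk.injEq] at h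
  obtain ⟨rfl, h1, h3⟩ := h
  simp only at ht
  obtain ⟨u1, u2, u3⟩ := sgn (A.p1 (t, a, b) ht) (A.p1 (t, a', b') ht) h1
  obtain ⟨w1, w2, w3⟩ := sgn (A.p2 (t, a, b) ht) (A.p2 (t, a', b') ht) h3
  by_cases ha : a = 0
  · have ha' := u3.1 ha
    subst ha ha'
    have hm : StrictMonoOn (fun s => s ^ 2 * g₂ (t, 0, s)) (Ici 0) := fun x hx y hy hxy => by
      have := (line2 L ht 0).1 hx hy hxy
      have e1 := A.m2 (t, 0, x) ht
      have e2 := A.m2 (t, 0, y) ht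
      simp only at this e1 e2 ⊢
      linarith
    rw [axis (γ := fun s => g₂ (t, 0, s)) (fun s => A.p2 _ ht) (fun s => A.e22 (t, 0, s) ht) hm h3]
  by_cases hb : b = 0
  · have hb' := w3.1 hb
    subst hb hb'
    have hm : StrictMonoOn (fun s => s ^ 2 * g₁ (t, s, 0)) (Ici 0) := fun x hx y hy hxy => by
      have := (line1 L ht 0).1 hx hy hxy
      have e1 := A.m1 (t, x, 0) ht
      have e2 := A.m1 (t, y, 0) ht
      simp only at this e1 e2 ⊢
      linarith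
    rw [axis (γ := fun s => g₁ (t, s, 0)) (fun s => A.p1 _ ht) (fun s => A.e11 (t, s, 0) ht) hm h1]
  have ha' : a' ≠ 0 := fun e => ha (u3.2 e)
  have hb' : b' ≠ 0 := fun e => hb (w3.2 e)
  have e : gr (lg f) t (Real.log (a ^ 2), Real.log (b ^ 2)) =
      gr (lg f) t (Real.log (a' ^ 2), Real.log (b' ^ 2)) := by
    unfold gr
    rw [A.gm L ht ha hb, A.gm L ht ha' hb', A.mm_eq _ ht, A.mm_eq _ ht]
    simp only [u1, w1]
  have e2 := (h2 J _ L.pot t ht).1 e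
  simp only [Prod.mk.injEq] at e2
  rw [u2 (by rw [← exp_log ha, ← exp_log ha', e2.1]), w2 (by rw [← exp_log hb, ← exp_log hb', e2.2])]

theorem Dat.q1 (A : Dat J f g₁ g₂) : ContDiffOn ℝ ∞ (fun p => √(g₁ p)) (J ×ˢ univ) :=
  A.s1.sqrt fun p hp => (A.p1 p hp.1).ne'

theorem Dat.q2 (A : Dat J f g₁ g₂) : ContDiffOn ℝ ∞ (fun p => √(g₂ p)) (J ×ˢ univ) :=
  A.s2.sqrt fun p hp => (A.p2 p hp.1).ne'

theorem c1 : ContDiffOn ℝ ∞ (fun p : X => p.2.1) (J ×ˢ univ) := by fun_prop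
theorem c2 : ContDiffOn ℝ ∞ (fun p : X => p.2.2) (J ×ˢ univ) := by fun_prop

theorem Dat.sm (A : Dat J f g₁ g₂) : ContDiffOn ℝ ∞ (sg g₁ g₂) (J ×ˢ univ) :=
  contDiffOn_fst.prodMk ((c1.mul A.q1).prodMk (c2.mul A.q2))

/-- Off the axes the derivative of the moment map is injective. -/
theorem Dat.off (A : Dat J f g₁ g₂) (L : LogP J f) {t a b x y : ℝ} (ht : t ∈ J) (ha : a ≠ 0)
    (hb : b ≠ 0) (h1 : D (0, x, y) ((fun q : X => q.2.1) * D e1 (rl f)) (t, a, b) = 0)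
    (h2 : D (0, x, y) ((fun q : X => q.2.2) * D e2 (rl f)) (t, a, b) = 0) : x = 0 ∧ y = 0 := by
  have hJ := L.pot.oI
  have hc : HasDerivAt (fun r : ℝ => ((t, a * Real.exp (r * (x / a)), b * Real.exp (r * (y / b))) : X))
      (0, x, y) 0 := by
    have k : ∀ c z : ℝ, c ≠ 0 → HasDerivAt (fun r : ℝ => c * Real.exp (r * (z / c))) z 0 := by
      intro c z hc
      have := (((hasDerivAt_id' (0 : ℝ)).mul_const (z / c)).exp).const_mul c
      rwa [zero_mul, Real.exp_zero, one_mul, one_mul, mul_div_cancel₀ _ hc] at this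
    exact (hasDerivAt_const _ t).prodMk ((k a x ha).prodMk (k b y hb))
  set q : X := (t, Real.log (a ^ 2), Real.log (b ^ 2)) with hq
  set w : X := (0, 2 * (x / a), 2 * (y / b)) with hw
  have key : ∀ r : ℝ, grad (lg f) (q + r • w) =
      mm f (t, a * Real.exp (r * (x / a)), b * Real.exp (r * (y / b))) := by
    intro r
    rw [← A.gm L ht (mul_ne_zero ha (Real.exp_ne_zero _)) (mul_ne_zero hb (Real.exp_ne_zero _))]
    congr 1
    have k : ∀ c z : ℝ, c ≠ 0 → Real.log ((c * Real.exp z) ^ 2) = Real.log (c ^ 2) + 2 * z := by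
      intro c z hc
      rw [mul_pow, Real.log_mul (pow_ne_zero _ hc) (pow_ne_zero _ (Real.exp_ne_zero _)),
        Real.log_pow (Real.exp z) 2, Real.log_exp]
      norm_num
    rw [k _ _ ha, k _ _ hb]
    ext <;> simp [hq, hw] <;> ring
  have p0 : ((t, a * Real.exp (0 * (x / a)), b * Real.exp (0 * (y / b))) : X) = (t, a, b) := by simp
  have s1 := smO_D (oV hJ) e1 L.pot.sm
  have s2 := smO_D (oV hJ) e2 L.pot.sm
  have hq1 : (q + (0 : ℝ) • w).1 ∈ J := by simpa [hq] using ht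
  have z1 : D w (D e1 (lg f)) q = 0 := by
    have d1 := dA hJ (F := (fun q : X => q.2.1) * D e1 (rl f))
      (c1.mul (smO_D (oV hJ) e1 L.smr)) (p := (t, a, b)) ht
    rw [← p0] at d1
    have d2 := (d1.hasFDerivAt.comp_hasDerivAt (0 : ℝ) hc).div_const 2
    have d3 := hasDerivAt_ln w q (dA hJ s1 hq1)
    have e : (fun s : ℝ => D e1 (lg f) (q + s • w)) = fun r =>
        (((fun q : X => q.2.1) * D e1 (rl f)) ∘ fun r : ℝ =>
          ((t, a * Real.exp (r * (x / a)), b * Real.exp (r * (y / b))) : X)) r / 2 :=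
      funext fun r => congrArg Prod.fst (key r)
    rw [e] at d3
    have := d3.unique d2
    rw [p0, zero_smul, add_zero] at this
    rw [this]
    change D (0, x, y) _ (t, a, b) / 2 = 0
    rw [h1, zero_div]
  have z2 : D w (D e2 (lg f)) q = 0 := by
    have d1 := dA hJ (F := (fun q : X => q.2.2) * D e2 (rl f))
      (c2.mul (smO_D (oV hJ) e2 L.smr)) (p := (t, a, b)) ht
    rw [← p0] at d1
    have d2 := (d1.hasFDerivAt.comp_hasDerivAt (0 : ℝ) hc).div_const 2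
    have d3 := hasDerivAt_ln w q (dA hJ s2 hq1)
    have e : (fun s : ℝ => D e2 (lg f) (q + s • w)) = fun r =>
        (((fun q : X => q.2.2) * D e2 (rl f)) ∘ fun r : ℝ =>
          ((t, a * Real.exp (r * (x / a)), b * Real.exp (r * (y / b))) : X)) r / 2 :=
      funext fun r => congrArg Prod.snd (key r)
    rw [e] at d3
    have := d3.unique d2
    rw [p0, zero_smul, add_zero] at this
    rw [this]
    change D (0, x, y) _ (t, a, b) / 2 = 0
    rw [h2, zero_div]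
  rw [D3] at z1 z2
  rw [D_comm_on (oV hJ) L.pot.sm e2 e1 (p := q) ⟨ht, trivial⟩] at z1
  have hW := L.pot.pw q ht
  simp only [W, Pi.sub_apply, Pi.mul_apply] at hW
  simp only [hw, zero_mul, zero_add] at z1 z2
  set α := D e1 (D e1 (lg f)) q
  set β := D e1 (D e2 (lg f)) q
  set γ := D e2 (D e2 (lg f)) q
  have x0 : x / a * (α * γ - β * β) = 0 := by linear_combination γ / 2 * z1 - β / 2 * z2
  have y0 : y / b * (α * γ - β * β) = 0 := by linear_combination α / 2 * z2 - β / 2 * z1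
  exact ⟨(div_eq_zero_iff.1 ((mul_eq_zero.1 x0).resolve_right hW.ne')).resolve_right ha,
    (div_eq_zero_iff.1 ((mul_eq_zero.1 y0).resolve_right hW.ne')).resolve_right hb⟩

theorem Dat.ker (A : Dat J f g₁ g₂) (L : LogP J f) {p v : X} (hp : p.1 ∈ J) (h0 : v.1 = 0)
    (h1 : D v ((fun q : X => q.2.1) * fun q => √(g₁ q)) p = 0)
    (h2 : D v ((fun q : X => q.2.2) * fun q => √(g₂ q)) p = 0) : v = 0 := by
  have hJ := L.pot.oI
  have d1 := dA hJ (F := (fun q : X => q.2.1) * fun q => √(g₁ q)) (c1.mul A.q1) hp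
  have d2 := dA hJ (F := (fun q : X => q.2.2) * fun q => √(g₂ q)) (c2.mul A.q2) hp
  have dk : DifferentiableAt ℝ (K 2) p := (sm_K 2).diff p
  have E1 : EqOn ((fun q : X => q.2.1) * D e1 (rl f))
      (K 2 * (((fun q : X => q.2.1) * fun q => √(g₁ q)) *
        ((fun q : X => q.2.1) * fun q => √(g₁ q)))) (J ×ˢ univ) := fun q hq => by
    have := Real.mul_self_sqrt (A.p1 q hq.1).le
    simp only [Pi.mul_apply, K_apply, A.m1 q hq.1]
    linear_combination (-2 * q.2.1 ^ 2) * this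
  have E2 : EqOn ((fun q : X => q.2.2) * D e2 (rl f))
      (K 2 * (((fun q : X => q.2.2) * fun q => √(g₂ q)) *
        ((fun q : X => q.2.2) * fun q => √(g₂ q)))) (J ×ˢ univ) := fun q hq => by
    have := Real.mul_self_sqrt (A.p2 q hq.1).le
    simp only [Pi.mul_apply, K_apply, A.m2 q hq.1]
    linear_combination (-2 * q.2.2 ^ 2) * this
  have M1 : D v ((fun q : X => q.2.1) * D e1 (rl f)) p = 0 := by
    rw [D_congr (oV hJ) v E1 ⟨hp, trivial⟩, D_mul_at v dk (d1.mul d1), D_mul_at v d1 d1, D_K, h1]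
    simp
  have M2 : D v ((fun q : X => q.2.2) * D e2 (rl f)) p = 0 := by
    rw [D_congr (oV hJ) v E2 ⟨hp, trivial⟩, D_mul_at v dk (d2.mul d2), D_mul_at v d2 d2, D_K, h2]
    simp
  rw [D_mul_at v (dA hJ c1 hp) (dA hJ A.q1 hp), D_c1] at h1
  rw [D_mul_at v (dA hJ c2 hp) (dA hJ A.q2 hp), D_c2] at h2
  have r1 := (Real.sqrt_pos.2 (A.p1 p hp)).ne'
  have r2 := (Real.sqrt_pos.2 (A.p2 p hp)).ne'
  have a1 : p.2.1 = 0 → v.2.1 = 0 := fun h => by
    rw [h, zero_mul, add_zero] at h1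
    exact (mul_eq_zero.1 h1).resolve_right r1
  have a2 : p.2.2 = 0 → v.2.2 = 0 := fun h => by
    rw [h, zero_mul, add_zero] at h2
    exact (mul_eq_zero.1 h2).resolve_right r2
  have fin : v.2.1 = 0 ∧ v.2.2 = 0 := by
    by_cases ha : p.2.1 = 0
    · refine ⟨a1 ha, ?_⟩
      by_cases hb : p.2.2 = 0
      · exact a2 hb
      · rw [D3, h0, a1 ha, zero_mul, zero_mul, zero_add, zero_add,
          D_mul_at e2 (dA hJ c2 hp) (dA hJ (smO_D (oV hJ) e2 L.smr) hp), D_c2] at M2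
        refine (mul_eq_zero.1 M2).resolve_right fun h => ?_
        have := (L.ax2 p hp).2 hb
        simp only [e2, one_mul] at h
        change D e2 (rl f) p + p.2.2 * h22 (rl f) p = 0 at h
        rw [h, mul_zero] at this
        exact lt_irrefl _ this
    · by_cases hb : p.2.2 = 0
      · refine ⟨?_, a2 hb⟩
        rw [D3, h0, a2 hb, zero_mul, zero_mul, zero_add, add_zero,
          D_mul_at e1 (dA hJ c1 hp) (dA hJ (smO_D (oV hJ) e1 L.smr) hp), D_c1] at M1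
        refine (mul_eq_zero.1 M1).resolve_right fun h => ?_
        have := (L.ax1 p hp).2 ha
        simp only [e1, one_mul] at h
        change D e1 (rl f) p + p.2.1 * h11 (rl f) p = 0 at h
        rw [h, mul_zero] at this
        exact lt_irrefl _ this
      · have ev : v = (0, v.2.1, v.2.2) := by ext <;> simp [h0]
        rw [ev] at M1 M2
        exact A.off L (t := p.1) hp ha hb M1 M2
  ext
  · exact h0
  · exact fin.1
  · exact fin.2

theorem Dat.equiv (A : Dat J f g₁ g₂) (L : LogP J f) {p : X} (hp : p.1 ∈ J) :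
    ∃ E : X ≃L[ℝ] X, HasFDerivAt (sg g₁ g₂) (E : X →L[ℝ] X) p := by
  have hJ := L.pot.oI
  have d1 := dA hJ (F := (fun q : X => q.2.1) * fun q => √(g₁ q)) (c1.mul A.q1) hp
  have d2 := dA hJ (F := (fun q : X => q.2.2) * fun q => √(g₂ q)) (c2.mul A.q2) hp
  have hd := (hasFDerivAt_fst (𝕜 := ℝ) (p := p)).prodMk (d1.hasFDerivAt.prodMk d2.hasFDerivAt)
  set M := (ContinuousLinearMap.fst ℝ ℝ (ℝ × ℝ)).prod
    ((fderiv ℝ ((fun q : X => q.2.1) * fun q => √(g₁ q)) p).prod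
      (fderiv ℝ ((fun q : X => q.2.2) * fun q => √(g₂ q)) p)) with hM
  have hi : Function.Injective (M : X →ₗ[ℝ] X) := by
    rw [injective_iff_map_eq_zero]
    intro v hv
    exact A.ker L hp (congrArg Prod.fst hv) (congrArg (fun z : X => z.2.1) hv)
      (congrArg (fun z : X => z.2.2) hv)
  refine ⟨(LinearEquiv.ofInjectiveEndo _ hi).toContinuousLinearEquiv, ?_⟩
  have e : ((LinearEquiv.ofInjectiveEndo _ hi).toContinuousLinearEquiv : X →L[ℝ] X) = M :=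
    ContinuousLinearMap.ext fun _ => rfl
  rw [e]
  exact hd

end Sig

theorem sig_ok (h1 : StEven) (h2 : StChg) : StSig := by
  intro J f L
  have hJ := L.pot.oI
  obtain ⟨g₁, g₂, A⟩ := Sig.exists_dat h1 L
  have hi := A.inj h2 L
  have hl : LeftInvOn (Function.invFunOn (sg g₁ g₂) (J ×ˢ univ)) (sg g₁ g₂) (J ×ˢ univ) :=
    hi.leftInvOn_invFunOn
  have hn : (∞ : WithTop ℕ∞) ≠ 0 := by simp
  refine ⟨g₁, g₂, Function.invFunOn (sg g₁ g₂) (J ×ˢ univ), A.s1, A.s2, fun p hp =>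
    ⟨A.p1 p hp, A.p2 p hp, A.mm_eq p hp, A.e11 p hp, A.e12 p hp, A.e21 p hp, A.e22 p hp,
      hl ⟨hp, trivial⟩⟩, ?_, ?_⟩
  · rw [isOpen_iff_mem_nhds]
    rintro _ ⟨p, hp, rfl⟩
    obtain ⟨E, hE⟩ := A.equiv L hp.1
    have hc := A.sm.contDiffAt ((Sig.oV hJ).mem_nhds hp)
    rw [← (hc.hasStrictFDerivAt' hE hn).map_nhds_eq_of_equiv]
    exact image_mem_map ((Sig.oV hJ).mem_nhds hp)
  · rintro _ ⟨p, hp, rfl⟩
    obtain ⟨E, hE⟩ := A.equiv L hp.1
    have hc := A.sm.contDiffAt ((Sig.oV hJ).mem_nhds hp)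
    have hu := (hc.hasStrictFDerivAt' hE hn).localInverse_unique
      (g := Function.invFunOn (sg g₁ g₂) (J ×ˢ univ))
      (Filter.eventually_of_mem ((Sig.oV hJ).mem_nhds hp) fun x hx => hl hx)
    exact ((hc.to_localInverse hE hn).congr_of_eventuallyEq hu).contDiffWithinAt

end Pool.Agent.P.MP_2cea5e_gt.I
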