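import Pool.Agent.P.MP_2cea5e_gt.I.St5

/-!
Chapter I: the soft estimate for the velocity.
-/

open scoped ContDiff Topology
open MeasureTheory Set Filter

noncomputable section

set_option linter.dupNamespace false

namespace Pool.Agent.P.MP_2cea5e_gt.I

namespace Soft

variable {d : Dm} {f g : X → ℝ} {s : ℝ} {U : Set X}

theorem sm_fz (hs : s ∈ d.I) (hf : ContDiffOn ℝ ∞ f d.U) : ContDiffOn ℝ ∞ (fz s f) d.U :=
  hf.comp (f := fun p : X => ((s, p.2) : X)) (by fun_prop) fun _ hp => ⟨hs, hp.2⟩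

theorem D0_fz (s : ℝ) (f : X → ℝ) (p : X) : D e0 (fz s f) p = 0 := by
  by_cases h : DifferentiableAt ℝ (fz s f) p
  · exact (hasDerivAt_t (t := p.1) (y := p.2) h).unique (hasDerivAt_const p.1 (f (s, p.2)))
  · simp [D, fderiv_zero_of_not_differentiableAt h]

theorem D1_fz (hs : s ∈ d.I) (hf : ContDiffOn ℝ ∞ f d.U) :
    EqOn (D e1 (fz s f)) (fz s (D e1 f)) d.U := fun p hp =>
  (hasDerivAt_y1 (t := p.1) (a := p.2.1) (b := p.2.2)
    (diffAt d.isOpen_U (sm_fz hs hf) hp)).unique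
    (hasDerivAt_y1 (t := s) (a := p.2.1) (b := p.2.2) (diffAt d.isOpen_U hf ⟨hs, hp.2⟩))

theorem D2_fz (hs : s ∈ d.I) (hf : ContDiffOn ℝ ∞ f d.U) :
    EqOn (D e2 (fz s f)) (fz s (D e2 f)) d.U := fun p hp =>
  (hasDerivAt_y2 (t := p.1) (a := p.2.1) (b := p.2.2)
    (diffAt d.isOpen_U (sm_fz hs hf) hp)).unique
    (hasDerivAt_y2 (t := s) (a := p.2.1) (b := p.2.2) (diffAt d.isOpen_U hf ⟨hs, hp.2⟩))

theorem DD_congr (hU : IsOpen U) (v w : X) (h : EqOn f g U) :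
    EqOn (D v (D w f)) (D v (D w g)) U := D_congr hU v (D_congr hU w h)

theorem smDD (hU : IsOpen U) (v w : X) (hf : ContDiffOn ℝ ∞ f U) :
    ContDiffOn ℝ ∞ (D v (D w f)) U := smO_D hU v (smO_D hU w hf)

theorem DD_sub (hU : IsOpen U) (v w : X) (hf : ContDiffOn ℝ ∞ f U) (hg : ContDiffOn ℝ ∞ g U) :
    EqOn (D v (D w (f - g))) (D v (D w f) - D v (D w g)) U := fun p hp => by
  have h : EqOn (D w (f - g)) (D w f - D w g) U := fun q hq =>
    D_sub_at w (diffAt hU hf hq) (diffAt hU hg hq)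
  rw [D_congr hU v h hp]
  exact D_sub_at v (diffAt hU (smO_D hU w hf) hp) (diffAt hU (smO_D hU w hg) hp)

theorem D0_DD (hU : IsOpen U) (v w : X) (hf : ContDiffOn ℝ ∞ f U) :
    EqOn (D e0 (D v (D w f))) (D v (D w (D e0 f))) U := fun p hp => by
  rw [D_comm_on hU (smO_D hU w hf) e0 v hp]
  exact D_congr hU v (fun q hq => D_comm_on hU hf e0 w hq) hp

/-- Second derivatives of the difference to the frozen function. -/
theorem h_fz (hs : s ∈ d.I) (hf : ContDiffOn ℝ ∞ f d.U) {p : X} (hp : p ∈ d.U) :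
    h11 (fz s f - f) p = h11 f (s, p.2) - h11 f p ∧ h12 (fz s f - f) p = h12 f (s, p.2) - h12 f p ∧
      h22 (fz s f - f) p = h22 f (s, p.2) - h22 f p := by
  have hU := d.isOpen_U
  refine ⟨(DD_sub hU _ _ (sm_fz hs hf) hf hp).trans ?_, (DD_sub hU _ _ (sm_fz hs hf) hf hp).trans ?_,
    (DD_sub hU _ _ (sm_fz hs hf) hf hp).trans ?_⟩
  · rw [Pi.sub_apply, D_congr hU e1 (D1_fz hs hf) hp, D1_fz hs (smO_D hU e1 hf) hp]; rfl
  · rw [Pi.sub_apply, D_congr hU e1 (D2_fz hs hf) hp, D1_fz hs (smO_D hU e2 hf) hp]; rfl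
  · rw [Pi.sub_apply, D_congr hU e2 (D2_fz hs hf) hp, D2_fz hs (smO_D hU e2 hf) hp]; rfl

theorem W_congr (hU : IsOpen U) (h : EqOn f g U) : EqOn (W f) (W g) U := fun p hp => by
  simp only [W, Pi.sub_apply, Pi.mul_apply]
  rw [DD_congr hU e1 e1 h hp, DD_congr hU e2 e2 h hp, DD_congr hU e1 e2 h hp]

theorem i_congr (hU : IsOpen U) (h : EqOn f g U) {p : X} (hp : p ∈ U) :
    i11 f p = i11 g p ∧ i12 f p = i12 g p ∧ i22 f p = i22 g p := by
  simp only [i11, i12, i22, h11, h12, h22, Pi.mul_apply, Pi.neg_apply, Iv_apply]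
  rw [DD_congr hU e1 e1 h hp, DD_congr hU e2 e2 h hp, DD_congr hU e1 e2 h hp, W_congr hU h hp]
  exact ⟨rfl, rfl, rfl⟩

theorem alg {a b c a' b' c' : ℝ} (ha : 0 < a) (hD : 0 < a * c - b * b) (ha' : 0 < a')
    (hD' : 0 < a' * c' - b' * b') :
    0 ≤ Real.log (a * c - b * b) - Real.log (a' * c' - b' * b') -
      (c * (a * c - b * b)⁻¹ * (a - a') + 2 * -(b * (a * c - b * b)⁻¹) * (b - b') +
        a * (a * c - b * b)⁻¹ * (c - c')) := by
  have h1 := Real.log_le_sub_one_of_pos (div_pos ha' ha)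
  have h2 := Real.log_le_sub_one_of_pos (div_pos (mul_pos hD' ha) (mul_pos hD ha'))
  rw [Real.log_div ha'.ne' ha.ne'] at h1
  rw [Real.log_div (mul_pos hD' ha).ne' (mul_pos hD ha').ne', Real.log_mul hD'.ne' ha.ne',
    Real.log_mul hD.ne' ha'.ne'] at h2
  have h3 : -(c * (a * c - b * b)⁻¹ * (a - a') + 2 * -(b * (a * c - b * b)⁻¹) * (b - b') +
      a * (a * c - b * b)⁻¹ * (c - c')) = (a' / a - 1) +
      ((a' * c' - b' * b') * a / ((a * c - b * b) * a') - 1) +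
      (b * a' - b' * a) ^ 2 / ((a * c - b * b) * a * a') := by
    obtain ⟨e, he⟩ : ∃ e, e = a * c - b * b := ⟨_, rfl⟩
    obtain rfl : c = (e + b * b) / a := by rw [he]; field_simp; ring
    rw [← he] at hD ⊢
    field_simp
    ring
  have h4 : 0 ≤ (b * a' - b' * a) ^ 2 / ((a * c - b * b) * a * a') := by positivity
  linarith

theorem sm_ctr {H : T2} (hU : IsOpen U) (hH : H.SmOn U) (hf : ContDiffOn ℝ ∞ f U) :
    ContDiffOn ℝ ∞ (H.ctr f) U :=
  ((hH.1.mul (smDD hU _ _ hf)).add ((contDiffOn_const.mul hH.2.1).mul (smDD hU _ _ hf))).add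
    (hH.2.2.mul (smDD hU _ _ hf))

theorem bd_ctr {H : T2} (ha : Bd d H.a) (hb : Bd d H.b) (hc : Bd d H.c) (hf : Bd d f) :
    Bd d (H.ctr f) :=
  ((ha.mul ((hf.D _).D _)).add (((bd_K 2).mul hb).mul ((hf.D _).D _))).add
    (hc.mul ((hf.D _).D _))

theorem D0_ctr {H : T2} (hU : IsOpen U) (hH : H.SmOn U) (hf : ContDiffOn ℝ ∞ f U) {p : X}
    (hp : p ∈ U) (ha : D e0 H.a p = 0) (hb : D e0 H.b p = 0) (hc : D e0 H.c p = 0) :
    D e0 (H.ctr f) p = H.ctr (D e0 f) p := by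
  have d1 := diffAt hU hH.1 hp
  have d2 := diffAt hU hH.2.1 hp
  have d3 := diffAt hU hH.2.2 hp
  have d4 : DifferentiableAt ℝ (h11 f) p := diffAt hU (smDD hU _ _ hf) hp
  have d5 : DifferentiableAt ℝ (h12 f) p := diffAt hU (smDD hU _ _ hf) hp
  have d6 : DifferentiableAt ℝ (h22 f) p := diffAt hU (smDD hU _ _ hf) hp
  have d7 : DifferentiableAt ℝ (K 2) p := (sm_K 2).diff p
  have q1 : D e0 (h11 f) p = h11 (D e0 f) p := D0_DD hU _ _ hf hp
  have q2 : D e0 (h12 f) p = h12 (D e0 f) p := D0_DD hU _ _ hf hp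
  have q3 : D e0 (h22 f) p = h22 (D e0 f) p := D0_DD hU _ _ hf hp
  rw [T2.ctr, D_add_at _ ((d1.mul d4).add ((d7.mul d2).mul d5)) (d3.mul d6),
    D_add_at _ (d1.mul d4) ((d7.mul d2).mul d5), D_mul_at _ d1 d4, D_mul_at _ (d7.mul d2) d5,
    D_mul_at _ d7 d2, D_mul_at _ d3 d6, ha, hb, hc, q1, q2, q3, D_K]
  simp [T2.ctr]

theorem D0_LW (hU : IsOpen U) (hf : ContDiffOn ℝ ∞ f U) {p : X} (hp : p ∈ U) (h0 : W f p ≠ 0) :
    D e0 (Lg (W f)) p = (iv2 f).ctr (D e0 f) p := by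
  have d4 : DifferentiableAt ℝ (h11 f) p := diffAt hU (smDD hU _ _ hf) hp
  have d5 : DifferentiableAt ℝ (h12 f) p := diffAt hU (smDD hU _ _ hf) hp
  have d6 : DifferentiableAt ℝ (h22 f) p := diffAt hU (smDD hU _ _ hf) hp
  have q1 : D e0 (h11 f) p = h11 (D e0 f) p := D0_DD hU _ _ hf hp
  have q2 : D e0 (h12 f) p = h12 (D e0 f) p := D0_DD hU _ _ hf hp
  have q3 : D e0 (h22 f) p = h22 (D e0 f) p := D0_DD hU _ _ hf hp
  have dW : DifferentiableAt ℝ (W f) p := (d4.mul d6).sub (d5.mul d5)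
  have e1 : D e0 (W f) p = D e0 (h11 f * h22 f) p - D e0 (h12 f * h12 f) p :=
    D_sub_at e0 (d4.mul d6) (d5.mul d5)
  rw [D_mul_at _ d4 d6, D_mul_at _ d5 d5, q1, q2, q3] at e1
  refine (D_comp_at e0 (Real.hasDerivAt_log h0) dW).trans ?_
  rw [e1]
  simp only [T2.ctr, iv2, i11, i12, i22, Pi.add_apply, Pi.mul_apply, Pi.neg_apply, Iv_apply, K_apply]
  ring

/-- The abstract one dimensional argument. -/
theorem fin {I : Set ℝ} (oI : IsOpen I) (hI : I.OrdConnected) {e e' : ℝ → ℝ} {Q E E' : ℝ → ℝ → ℝ}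
    (he : ∀ t ∈ I, HasDerivAt e (e' t) t) (hE : ∀ s ∈ I, ∀ t ∈ I, HasDerivAt (E s) (E' s t) t)
    (hc : ∀ s ∈ I, ContinuousOn (E' s) I) (h0 : ∀ s ∈ I, E s s = 0)
    (hp : ∀ s ∈ I, ∀ t ∈ I, 0 ≤ E s t) (hQ : ∀ s ∈ I, ∀ t ∈ I, Q s t = e s - e t - 2 * E' s t)
    (hQ0 : ∀ s t, 0 ≤ Q s t) :
    AntitoneOn e I ∧ ∀ s ∈ I, ∀ t ∈ I, s < t → ∫ r in s..t, Q s r ≤ (t - s) * (e s - e t) := by
  have ce : ContinuousOn e I := fun t ht => (he t ht).continuousAt.continuousWithinAt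
  have key : ∀ s ∈ I, ∀ t ∈ I, s < t →
      ∫ r in s..t, Q s r ≤ ∫ r in s..t, (e s - e r) := by
    intro s hs t ht hst
    have hsub : uIcc s t ⊆ I := hI.uIcc_subset hs ht
    have i1 : IntervalIntegrable (fun r => e s - e r) volume s t :=
      ((continuousOn_const.sub ce).mono hsub).intervalIntegrable
    have i2 : IntervalIntegrable (E' s) volume s t := ((hc s hs).mono hsub).intervalIntegrable
    rw [intervalIntegral.integral_congr (fun r hr => hQ s hs r (hsub hr)),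
      intervalIntegral.integral_sub i1 (i2.const_mul 2), intervalIntegral.integral_const_mul,
      intervalIntegral.integral_eq_sub_of_hasDerivAt (fun r hr => hE s hs r (hsub hr)) i2, h0 s hs]
    linarith [hp s hs t ht]
  have anti : AntitoneOn e I := by
    refine antitoneOn_of_deriv_nonpos hI.convex ce
      (fun t ht => (he t (interior_subset ht)).differentiableAt.differentiableWithinAt) ?_
    intro s hs
    replace hs := interior_subset hs
    rw [(he s hs).deriv]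
    by_contra hneg
    have h1 : ∀ᶠ r in 𝓝[>] s, 0 < slope e s r :=
      ((hasDerivAt_iff_tendsto_slope_left_right.mp (he s hs)).2).eventually
        (lt_mem_nhds (not_le.mp hneg))
    have h2 : ∀ᶠ r in 𝓝[>] s, r ∈ I := mem_nhdsWithin_of_mem_nhds (oI.mem_nhds hs)
    obtain ⟨t, hst, ht⟩ := mem_nhdsGT_iff_exists_Ioc_subset.mp (h1.and h2)
    have htI : t ∈ I := (ht ⟨hst, le_rfl⟩).2
    have hsub : uIcc s t ⊆ I := hI.uIcc_subset hs htI
    have h3 : 0 < ∫ r in s..t, (e r - e s) :=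
      intervalIntegral.intervalIntegral_pos_of_pos_on
        ((ce.sub continuousOn_const).mono hsub).intervalIntegrable (fun r hr => by
          have := (ht (Ioo_subset_Ioc_self hr)).1
          rw [slope_def_field] at this
          exact (div_pos_iff_of_pos_right (sub_pos.mpr hr.1)).mp this) hst
    have h4 := key s hs t htI hst
    have h5 : 0 ≤ ∫ r in s..t, Q s r :=
      intervalIntegral.integral_nonneg (le_of_lt hst) fun r _ => hQ0 s r
    have h6 : ∫ r in s..t, (e s - e r) = -∫ r in s..t, (e r - e s) := by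
      rw [← intervalIntegral.integral_neg]
      simp only [neg_sub]
    linarith
  refine ⟨anti, fun s hs t ht hst => (key s hs t ht hst).trans ?_⟩
  have hsub : uIcc s t ⊆ I := hI.uIcc_subset hs ht
  have := intervalIntegral.integral_mono_on (f := fun r => e s - e r) hst.le
    ((continuousOn_const.sub ce).mono hsub).intervalIntegrable
    (intervalIntegrable_const (μ := volume) (c := e s - e t)) fun r hr =>
      sub_le_sub_left (anti (hI.out hs ht hr) ht hr.2) (e s)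
  simpa only [intervalIntegral.integral_const, smul_eq_mul] using this

/-- Smooth, and of class `Bd` in all charts. -/
structure GB {ι : Type} (d : Dm) (d' : ι → Dm) (fr : ι → Fr) (f : X → ℝ) : Prop where
  sm : ContDiffOn ℝ ∞ f d.U
  bd : ∀ σ, Bd (d' σ) (f ∘ (fr σ).fm)

variable {ι : Type} {d' : ι → Dm} {fr : ι → Fr}

theorem GB.sub (hf : GB d d' fr f) (hg : GB d d' fr g) : GB d d' fr (f - g) :=
  ⟨hf.sm.sub hg.sm, fun σ => (hf.bd σ).sub (hg.bd σ)⟩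

theorem GB.mul (hf : GB d d' fr f) (hg : GB d d' fr g) : GB d d' fr (f * g) :=
  ⟨hf.sm.mul hg.sm, fun σ => (hf.bd σ).mul (hg.bd σ)⟩

/-- The frozen field. -/
def fT (s : ℝ) (H : T2) : T2 := ⟨fz s H.a, fz s H.b, fz s H.c⟩
/-- The difference to the frozen field. -/
def dT (s : ℝ) (H : T2) : T2 := ⟨fz s H.a - H.a, fz s H.b - H.b, fz s H.c - H.c⟩

end Soft

open Soft in
theorem soft_ok (h0 : StApi) (h1 : StFC) (h2 : StFG) (h3 : StGB) (h4 : StGI) : StSoft := by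
  intro ι d u d' u' fr G hI
  obtain ⟨hfm, hGB⟩ := h3 ι d u d' u' fr G
  have A := h0 d u G.gs
  have A' := fun σ => h0 _ _ (G.gs' σ)
  have oU := d.isOpen_U
  have hU : ∀ σ, ∀ q ∈ (d' σ).U, (fr σ).fm q ∈ d.U := fun σ q hq => by
    have : q ∈ (fr σ).fm ⁻¹' d.U := (hfm σ).1 ▸ hq
    exact this
  have hs' : ∀ σ, ∀ s ∈ d.I, s ∈ (d' σ).I := fun σ s hs => (G.tI σ).symm ▸ hs
  have hfz : ∀ σ (q : X), (fr σ).fm q = (q.1, (fr σ).sp q.2) := fun σ q =>
    (hfm σ).2.2 q.1 q.2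
  have FC := fun σ => ((h1 (fr σ) d.U oU).2.2 u A.sm fun q hq => (A.pW q hq).ne').2
  have gv : GB d d' fr (D e0 u) := ⟨A.bt.sm, fun σ => (A' σ).bt.congr fun q hq => by
    rw [D_congr (d' σ).isOpen_U e0 (G.eq σ) hq, (FC σ q (hU σ q hq)).1, G.ρ σ]
    simp⟩
  have gfz : ∀ f, GB d d' fr f → ∀ s ∈ d.I, GB d d' fr (fz s f) := fun f hf s hs =>
    ⟨sm_fz hs hf.sm, fun σ => (h2.2.2 _ _ s (hs' σ s hs) (hf.bd σ)).congr fun q _ => by
      simp only [fz, Function.comp_apply, hfz]⟩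
  have eW : ∀ σ, ∀ q ∈ (d' σ).U, W (u' σ) q = W u ((fr σ).fm q) := fun σ q hq => by
    rw [W_congr (d' σ).isOpen_U (G.eq σ) hq, (FC σ q (hU σ q hq)).2.2.2.1, G.ρ σ, ← sq_abs, G.det σ]
    simp
  have ei : ∀ σ, ∀ q ∈ (d' σ).U, i11 (u' σ) q = ((fr σ).pullT (iv2 u)).a q ∧
      i12 (u' σ) q = ((fr σ).pullT (iv2 u)).b q ∧ i22 (u' σ) q = ((fr σ).pullT (iv2 u)).c q :=
    fun σ q hq => by
      obtain ⟨a1, a2, a3⟩ := i_congr (d' σ).isOpen_U (G.eq σ) hq
      rw [a1, a2, a3]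
      exact (FC σ q (hU σ q hq)).2.2.2.2.1
  have gu : ∀ s ∈ d.I, GB d d' fr (fz s u - u) := fun s hs =>
    ⟨(sm_fz hs A.sm).sub A.sm, fun σ =>
      ((h2.2.2 _ _ s (hs' σ s hs) (G.gs' σ).bd).sub (G.gs' σ).bd).congr fun q hq => by
        have a1 := G.eq σ hq
        have a2 := G.eq σ (show ((s, q.2) : X) ∈ (d' σ).U from ⟨hs' σ s hs, hq.2⟩)
        simp only [Fr.pull, G.ρ σ, hfz, af] at a1 a2
        simp only [fz, wv, u0, Pi.sub_apply, Function.comp_apply, a1, a2, hfz]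
        ring⟩
  have sL : ContDiffOn ℝ ∞ (Lg (W u)) d.U :=
    (((smDD oU _ _ A.sm).mul (smDD oU _ _ A.sm)).sub
      ((smDD oU _ _ A.sm).mul (smDD oU _ _ A.sm))).log fun q hq => (A.pW q hq).ne'
  have gL : ∀ s ∈ d.I, GB d d' fr (fz s (Lg (W u)) - Lg (W u)) := fun s hs =>
    ⟨(sm_fz hs sL).sub sL, fun σ => by
      have b := (A' σ).bW.log (G.gs' σ).nd
      refine ((h2.2.2 _ _ s (hs' σ s hs) b).sub b).congr fun q hq => ?_
      have hq' : ((s, q.2) : X) ∈ (d' σ).U := ⟨hs' σ s hs, hq.2⟩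
      have p1 := (mul_pos (Dm.o1_pos hq) (Dm.o2_pos hq)).ne'
      simp only [fz, Pi.sub_apply, Function.comp_apply, Lg_apply, Pi.mul_apply]
      rw [Real.log_mul p1 ((A' σ).pW q hq).ne',
        Real.log_mul (show o1 _ (s, q.2) * o2 _ (s, q.2) ≠ 0 from p1) ((A' σ).pW _ hq').ne',
        eW σ q hq, eW σ _ hq']
      simp only [hfz]
      show _ + _ - (Real.log (o1 _ (s, q.2) * o2 _ (s, q.2)) + _) = _
      ring⟩
  have sI : (iv2 u).SmOn d.U := ⟨A.bi11.sm, A.bi12.sm, A.bi22.sm⟩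
  have sF : ∀ s ∈ d.I, (fT s (iv2 u)).SmOn d.U := fun s hs =>
    ⟨sm_fz hs sI.1, sm_fz hs sI.2.1, sm_fz hs sI.2.2⟩
  have eF : ∀ σ s (q : X), ((fr σ).pullT (fT s (iv2 u))).a q = ((fr σ).pullT (iv2 u)).a (s, q.2) ∧
      ((fr σ).pullT (fT s (iv2 u))).b q = ((fr σ).pullT (iv2 u)).b (s, q.2) ∧
      ((fr σ).pullT (fT s (iv2 u))).c q = ((fr σ).pullT (iv2 u)).c (s, q.2) := fun σ s q => by
    simp only [Fr.pullT, fT, T2.ap, fz, hfz, and_self]
  have gC : ∀ s ∈ d.I, GB d d' fr ((fT s (iv2 u)).ctr (fz s u - u)) := fun s hs =>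
    ⟨sm_ctr oU (sF s hs) (gu s hs).sm, fun σ => by
      have hs1 := hs' σ s hs
      refine (bd_ctr (H := (fr σ).pullT (fT s (iv2 u))) ?_ ?_ ?_ ((gu s hs).bd σ)).congr
        fun q hq => ?_
      · exact (h2.2.2 _ _ s hs1 (A' σ).bi11).congr fun q hq =>
          ((ei σ (s, q.2) ⟨hs1, hq.2⟩).1).trans (eF σ s q).1.symm
      · exact (h2.2.2 _ _ s hs1 (A' σ).bi12).congr fun q hq =>
          ((ei σ (s, q.2) ⟨hs1, hq.2⟩).2.1).trans (eF σ s q).2.1.symm
      · exact (h2.2.2 _ _ s hs1 (A' σ).bi22).congr fun q hq =>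
          ((ei σ (s, q.2) ⟨hs1, hq.2⟩).2.2).trans (eF σ s q).2.2.symm
      · rw [(((h1 (fr σ) d.U oU).2.1 _ _ (sF s hs) (sF s hs)).2 q (hU σ q hq)).2.2.2 _
          (gu s hs).sm, G.ρ σ]
        simp⟩
  have gΦ := fun s hs => (gL s hs).sub (gC s hs)
  have hval : ∀ s ∈ d.I, ∀ p ∈ d.U,
      (fz s (Lg (W u)) - Lg (W u) - (fT s (iv2 u)).ctr (fz s u - u)) p =
        Real.log (W u (s, p.2)) - Real.log (W u p) -
          (i11 u (s, p.2) * (h11 u (s, p.2) - h11 u p) +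
            2 * i12 u (s, p.2) * (h12 u (s, p.2) - h12 u p) +
            i22 u (s, p.2) * (h22 u (s, p.2) - h22 u p)) := fun s hs p hp => by
    obtain ⟨a1, a2, a3⟩ := h_fz hs A.sm hp
    simp only [T2.ctr, Pi.sub_apply, Pi.add_apply, Pi.mul_apply, a1, a2, a3]
    rfl
  have hder : ∀ s ∈ d.I, ∀ p ∈ d.U,
      D e0 (fz s (Lg (W u)) - Lg (W u) - (fT s (iv2 u)).ctr (fz s u - u)) p =
        (dT s (iv2 u)).ctr (D e0 u) p := fun s hs p hp => by
    have e1 : EqOn (D e0 (fz s u - u)) (K 0 - D e0 u) d.U := fun q hq => by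
      rw [D_sub_at e0 (diffAt oU (sm_fz hs A.sm) hq) (diffAt oU A.sm hq), D0_fz]
      rfl
    have e2 : ∀ v w, D v (D w (D e0 (fz s u - u))) p = -D v (D w (D e0 u)) p := fun v w => by
      rw [DD_congr oU v w e1 hp, DD_sub oU v w (sm_K 0).contDiffOn gv.sm hp, D_K, D_zero]
      simp
    rw [D_sub_at e0 (diffAt oU (gL s hs).sm hp) (diffAt oU (gC s hs).sm hp),
      D_sub_at e0 (diffAt oU (sm_fz hs sL) hp) (diffAt oU sL hp), D0_fz,
      D0_LW oU A.sm hp (A.pW p hp).ne',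
      D0_ctr oU (sF s hs) (gu s hs).sm hp (D0_fz s (i11 u) p) (D0_fz s (i12 u) p)
        (D0_fz s (i22 u) p)]
    simp only [T2.ctr, dT, fT, h11, h12, h22, Pi.sub_apply, Pi.add_apply, Pi.mul_apply, e2]
    ring
  have hnt : ∀ s ∈ d.I, ∀ σ, ∃ k₁ k₂ k₃, NT (d' σ) ((fr σ).pullT (dT s (iv2 u))) k₁ k₂ k₃ := by
    intro s hs σ
    have hs1 := hs' σ s hs
    obtain ⟨k₁, k₂, k₃, b1, b2, b3, c1, c2, c3⟩ := (A' σ).nt
    have eD : ∀ q : X, ((fr σ).pullT (dT s (iv2 u))).a q =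
          ((fr σ).pullT (iv2 u)).a (s, q.2) - ((fr σ).pullT (iv2 u)).a q ∧
        ((fr σ).pullT (dT s (iv2 u))).b q =
          ((fr σ).pullT (iv2 u)).b (s, q.2) - ((fr σ).pullT (iv2 u)).b q ∧
        ((fr σ).pullT (dT s (iv2 u))).c q =
          ((fr σ).pullT (iv2 u)).c (s, q.2) - ((fr σ).pullT (iv2 u)).c q := fun q => by
      simp only [Fr.pullT, dT, T2.ap, fz, hfz, Pi.sub_apply]
      exact ⟨by ring, by ring, by ring⟩
    refine ⟨_, _, _, (h2.2.2 _ _ s hs1 b1).sub b1, (h2.2.2 _ _ s hs1 b2).sub b2,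
      (h2.2.2 _ _ s hs1 b3).sub b3, fun q hq => ?_, fun q hq => ?_, fun q hq => ?_⟩
    · have hq' : ((s, q.2) : X) ∈ (d' σ).U := ⟨hs1, hq.2⟩
      have a1 := c1 hq
      have a2 := c1 hq'
      rw [(eD q).1, ← (ei σ q hq).1, ← (ei σ _ hq').1]
      simp only [nn, o1, fz, Pi.sub_apply, Pi.mul_apply] at a1 a2 ⊢
      linear_combination a2 - a1
    · have hq' : ((s, q.2) : X) ∈ (d' σ).U := ⟨hs1, hq.2⟩
      have a1 := c2 hq
      have a2 := c2 hq'
      rw [(eD q).2.1, ← (ei σ q hq).2.1, ← (ei σ _ hq').2.1]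
      simp only [nn, o1, o2, fz, Pi.sub_apply, Pi.mul_apply] at a1 a2 ⊢
      linear_combination a2 - a1
    · have hq' : ((s, q.2) : X) ∈ (d' σ).U := ⟨hs1, hq.2⟩
      have a1 := c3 hq
      have a2 := c3 hq'
      rw [(eD q).2.2, ← (ei σ q hq).2.2, ← (ei σ _ hq').2.2]
      simp only [nn, o2, fz, Pi.sub_apply, Pi.mul_apply] at a1 a2 ⊢
      linear_combination a2 - a1
  have hdd : ∀ s ∈ d.I, ∀ p ∈ d.U, (dT s (iv2 u)).dd p = D e0 u (s, p.2) - D e0 u p := by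
    intro s hs p hp
    rw [G.gs.eqn p hp, G.gs.eqn (s, p.2) ⟨hs, hp.2⟩]
    simp only [T2.dd, dT, ab, Pi.add_apply, Pi.mul_apply, (h_fz hs sI.1 hp).1,
      (h_fz hs sI.2.1 hp).2.1, (h_fz hs sI.2.2 hp).2.2, K_apply]
    ring
  have mS : MeasurableSet d.S := d.isOpen_S.measurableSet
  have hint := fun f (hf : GB d d' fr f) =>
    (hGB f).2.1 hf.sm.continuousOn fun σ => (hf.bd σ).bd0
  have hvv := gv.mul gv
  have hx := fun s hs => gv.mul ((gfz _ gv s hs).sub gv)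
  have main := fin d.oI hI (e := fun t => ∫ y in d.S, D e0 u (t, y) ^ 2)
    (e' := fun t => ∫ y in d.S, D e0 (D e0 u * D e0 u) (t, y))
    (Q := fun s r => ∫ y in d.S, (D e0 u (r, y) - D e0 u (s, y)) ^ 2)
    (E := fun s t => ∫ y in d.S,
      (fz s (Lg (W u)) - Lg (W u) - (fT s (iv2 u)).ctr (fz s u - u)) (t, y))
    (E' := fun s t => ∫ y in d.S, (D e0 u * (fz s (D e0 u) - D e0 u)) (t, y))
    (fun t ht => by
      have := (hGB _).2.2 hvv.sm hvv.bd t ht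
      simpa only [Pi.mul_apply, sq] using this)
    (fun s hs t ht => by
      have a1 := (hGB _).2.2 (gΦ s hs).sm (gΦ s hs).bd t ht
      have a2 := (h4 ι d u d' u' fr G (dT s (iv2 u))
        ⟨(sF s hs).1.sub sI.1, (sF s hs).2.1.sub sI.2.1, (sF s hs).2.2.sub sI.2.2⟩
        (hnt s hs) t ht).1 _ gv.sm gv.bd
      rw [setIntegral_congr_fun mS (fun y hy => hder s hs (t, y) ⟨ht, hy⟩), a2,
        setIntegral_congr_fun mS (g := fun y => (D e0 u * (fz s (D e0 u) - D e0 u)) (t, y))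
          (fun y hy => by
            simp only [Pi.mul_apply, hdd s hs (t, y) ⟨ht, hy⟩]
            rfl)] at a1
      exact a1)
    (fun s hs => (hint _ (hx s hs)).2)
    (fun s hs => setIntegral_eq_zero_of_forall_eq_zero fun y hy => by
      rw [hval s hs (s, y) ⟨hs, hy⟩]
      simp)
    (fun s hs t ht => setIntegral_nonneg mS fun y hy => by
      rw [hval s hs (t, y) ⟨ht, hy⟩]
      exact alg (G.gs.p11 (s, y) ⟨hs, hy⟩) (A.pW (s, y) ⟨hs, hy⟩) (G.gs.p11 (t, y) ⟨ht, hy⟩)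
        (A.pW (t, y) ⟨ht, hy⟩))
    (fun s hs t ht => by
      have i1 := (hint _ hvv).1 s hs
      have i2 := (hint _ hvv).1 t ht
      have i3 := (hint _ (hx s hs)).1 t ht
      simp only [Pi.mul_apply, ← sq] at i1 i2
      rw [← integral_sub i1 i2, ← integral_const_mul,
        ← integral_sub (f := fun y => D e0 u (s, y) ^ 2 - D e0 u (t, y) ^ 2) (Integrable.sub i1 i2)
          (i3.const_mul 2)]
      refine integral_congr_ae (Eventually.of_forall fun y => ?_)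
      simp only [Pi.mul_apply, Pi.sub_apply, fz]
      ring)
    (fun s t => integral_nonneg fun y => sq_nonneg _)
  refine ⟨main.1, fun s hs => ?_, main.2⟩
  have := (hint _ ((gv.sub (gfz _ gv s hs)).mul (gv.sub (gfz _ gv s hs)))).2
  simpa only [Pi.mul_apply, Pi.sub_apply, fz, sq] using this

end Pool.Agent.P.MP_2cea5e_gt.I
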