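import Pool.Agent.P.MP_2cea5e_gt.I.St3

/-!
Chapter I: sup bounds from `L²` closeness, convexity and the energy bound.
-/

open scoped ContDiff Topology
open MeasureTheory Set Filter

noncomputable section

set_option linter.dupNamespace false

namespace Pool.Agent.P.MP_2cea5e_gt.I

namespace Sup

/-- Mean value theorem for second differences. -/
theorem second_diff {g g' g'' : ℝ → ℝ} {x h : ℝ} (hh : 0 < h)
    (d1 : ∀ s ∈ Icc x (x + 2 * h), HasDerivAt g (g' s) s)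
    (d2 : ∀ s ∈ Icc x (x + 2 * h), HasDerivAt g' (g'' s) s) :
    ∃ ξ ∈ Ioo x (x + 2 * h), g x - 2 * g (x + h) + g (x + 2 * h) = h ^ 2 * g'' ξ := by
  have k1 : ∀ s ∈ Icc x (x + h), HasDerivAt (fun s => g (s + h) - g s) (g' (s + h) - g' s) s :=
    fun s hs => ((d1 (s + h) ⟨by linarith [hs.1], by linarith [hs.2]⟩).comp_add_const s h).sub
      (d1 s ⟨hs.1, by linarith [hs.2]⟩)
  obtain ⟨c, hc, e1⟩ := exists_hasDerivAt_eq_slope (fun s => g (s + h) - g s)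
    (fun s => g' (s + h) - g' s) (show x < x + h by linarith)
    (fun s hs => (k1 s hs).continuousAt.continuousWithinAt)
    (fun s hs => k1 s (Ioo_subset_Icc_self hs))
  have k2 : ∀ s ∈ Icc c (c + h), HasDerivAt g' (g'' s) s :=
    fun s hs => d2 s ⟨by linarith [hs.1, hc.1], by linarith [hs.2, hc.2]⟩
  obtain ⟨ξ, hξ, e2⟩ := exists_hasDerivAt_eq_slope g' g'' (show c < c + h by linarith)
    (fun s hs => (k2 s hs).continuousAt.continuousWithinAt)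
    (fun s hs => k2 s (Ioo_subset_Icc_self hs))
  refine ⟨ξ, ⟨by linarith [hξ.1, hc.1], by linarith [hξ.2, hc.2]⟩, ?_⟩
  rw [show x + h - x = h by ring, show x + h + h = x + 2 * h by ring] at e1
  rw [show c + h - c = h by ring] at e2
  rw [e2, e1]
  field_simp
  ring

theorem Cheap.mono {F : ℝ → ℝ} {a b b' ε : ℝ} (h : Cheap F a b ε) (hb : b' ≤ b) :
    Cheap F a b' ε := by
  have hs : Ioo a b' ⊆ Ioo a b := Ioo_subset_Ioo le_rfl hb
  refine ⟨fun x hx => h.nn x (hs hx), h.int.mono_set hs, le_trans ?_ h.le⟩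
  exact setIntegral_mono_set h.int
    ((ae_restrict_iff' measurableSet_Ioo).mpr (Eventually.of_forall h.nn)) hs.eventuallyLE

theorem C2On.mono {f f' f'' : ℝ → ℝ} {s s' : Set ℝ} (h : C2On f f' f'' s) (hs : s' ⊆ s) :
    C2On f f' f'' s' :=
  ⟨fun x hx => h.d1 x (hs hx), fun x hx => h.d2 x (hs hx), h.c2.mono hs⟩

/-- The upper bound on a cheap normal line. -/
theorem face1 (h3 : StConc) {g g' g'' m' m'' F : ℝ → ℝ} {β σ η k : ℝ} (hβ : 0 < β)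
    (hg : C2On g g' g'' (Ioc 0 (3 * β))) (hp : ∀ x ∈ Ioc 0 (3 * β), 0 < g'' x)
    (hm : C2On (fun x => (g'' x)⁻¹) m' m'' (Ioc 0 (3 * β)))
    (hF : ∀ x ∈ Ioc 0 (3 * β), m'' x ≤ F x) (hc : Cheap F 0 (3 * β) (1 / 12))
    (hcl : ∀ x ∈ Icc (β / 2) (3 * β), |g x - (x * Real.log x + k)| ≤ σ) (hσ : σ ≤ β / 20)
    (hη : ∀ x ∈ Ioc 0 β, ∀ x' ∈ Ioc 0 β, |x * Real.log x - x' * Real.log x'| ≤ η) :
    ∀ x ∈ Ioo 0 β, g x - (x * Real.log x + k) ≤ 3 * σ + 11 * η := by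
  have s1 : Icc β (β + 2 * β) ⊆ Ioc 0 (3 * β) := fun s hs =>
    ⟨by linarith [hs.1], by linarith [hs.2]⟩
  obtain ⟨ξ, hξ, e⟩ := second_diff hβ (fun s hs => hg.d1 s (s1 hs)) (fun s hs => hg.d2 s (s1 hs))
  have hξ' : ξ ∈ Ioc 0 (3 * β) := s1 (Ioo_subset_Icc_self hξ)
  have hlog : β * Real.log β - 2 * ((β + β) * Real.log (β + β)) +
      (β + 2 * β) * Real.log (β + 2 * β) ≤ 11 / 16 * β := by
    rw [show β + β = 2 * β by ring, show β + 2 * β = 3 * β by ring,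
      Real.log_mul (by norm_num) hβ.ne', Real.log_mul (by norm_num) hβ.ne']
    have h1 : Real.log (27 / 16) ≤ 27 / 16 - 1 := Real.log_le_sub_one_of_pos (by norm_num)
    have h2 : Real.log (27 / 16) = 3 * Real.log 3 - 4 * Real.log 2 := by
      rw [Real.log_div (by norm_num) (by norm_num), show (27 : ℝ) = 3 ^ 3 by norm_num,
        show (16 : ℝ) = 2 ^ 4 by norm_num, Real.log_pow, Real.log_pow]
      norm_num
    nlinarith
  have a1 := abs_le.1 (hcl β ⟨by linarith, by linarith⟩)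
  have a2 := abs_le.1 (hcl (β + β) ⟨by linarith, by linarith⟩)
  have a3 := abs_le.1 (hcl (β + 2 * β) ⟨by linarith, by linarith⟩)
  have hb : β ^ 2 * g'' ξ ≤ β := by linarith [a1.2, a2.1, a3.2]
  have hpξ := hp ξ hξ'
  have hmξ : β ≤ (g'' ξ)⁻¹ := by
    rw [le_inv_comm₀ hβ hpξ, ← one_div, le_div_iff₀ hβ]
    nlinarith
  have s2 : Ioc 0 ξ ⊆ Ioc 0 (3 * β) := Ioc_subset_Ioc le_rfl hξ'.2
  have hlow : ∀ x ∈ Ioc 0 ξ, g'' x ≤ 4 / x := by
    intro x hx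
    have := h3.2.1 _ m' m'' F 0 ξ (1 / 12) x hξ'.1 (C2On.mono hm s2) (Cheap.mono hc hξ'.2)
      (fun s hs => hF s (s2 (Ioo_subset_Ioc_self hs)))
      (fun s hs => (inv_pos.2 (hp s (s2 (Ioo_subset_Ioc_self hs)))).le) hx
    rw [sub_zero, sub_zero] at this
    have h1 : 1 / 3 ≤ (g'' ξ)⁻¹ / ξ := by
      rw [le_div_iff₀ hξ'.1]
      linarith [hξ.2]
    have h2 : x / 4 ≤ (g'' x)⁻¹ := by nlinarith [hx.1]
    have h4 := hp x (s2 hx)
    rw [le_inv_comm₀ (by linarith [hx.1]) h4, inv_div] at h2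
    exact h2
  intro x hx
  have hh : 0 < (β - x) / 2 := by linarith [hx.2]
  have s3 : Icc x (x + 2 * ((β - x) / 2)) ⊆ Ioc 0 ξ := fun s hs =>
    ⟨by linarith [hs.1, hx.1], by linarith [hs.2, hξ.1]⟩
  obtain ⟨ζ, hζ, e'⟩ := second_diff (g := fun s => 4 * (s * Real.log s) - g s)
    (g' := fun s => 4 * (Real.log s + 1) - g' s) (g'' := fun s => 4 / s - g'' s) hh
    (fun s hs => ((Real.hasDerivAt_mul_log (s3 hs).1.ne').const_mul 4).sub (hg.d1 s (s2 (s3 hs))))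
    (fun s hs => by
      have := (((Real.hasDerivAt_log (s3 hs).1.ne').add_const 1).const_mul 4).sub
        (hg.d2 s (s2 (s3 hs)))
      rwa [← div_eq_mul_inv] at this)
  have h0 : 0 ≤ ((β - x) / 2) ^ 2 * (4 / ζ - g'' ζ) :=
    mul_nonneg (sq_nonneg _) (sub_nonneg.2 (hlow ζ (s3 (Ioo_subset_Icc_self hζ))))
  rw [← e', show x + 2 * ((β - x) / 2) = β by ring] at h0
  have b1 := abs_le.1 (hcl (x + (β - x) / 2) ⟨by linarith [hx.1], by linarith [hx.2]⟩)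
  have m0 : x ∈ Ioc 0 β := Ioo_subset_Ioc_self hx
  have m1 : x + (β - x) / 2 ∈ Ioc 0 β := ⟨by linarith [hx.1], by linarith [hx.2]⟩
  have m2 : β ∈ Ioc 0 β := ⟨hβ, le_rfl⟩
  have c1 := abs_le.1 (hη _ m0 _ m1)
  have c2 := abs_le.1 (hη _ m2 _ m1)
  have c3 := abs_le.1 (hη _ m0 _ m2)
  linarith [b1.2, a1.1, c1.1, c1.2, c2.1, c2.2, c3.1, c3.2]

theorem cont_md (b : Bool) : Continuous (md b) := by
  cases b
  · show Continuous fun x : ℝ => x ^ 2 / 2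
    fun_prop
  · exact Real.continuous_mul_log

/-- A modulus of continuity for both models. -/
theorem modulus {η : ℝ} (hη : 0 < η) : ∃ h, 0 < h ∧ ∀ (b : Bool) (x x' : ℝ), |x| ≤ 1 → |x'| ≤ 1 →
    |x - x'| ≤ h → |md b x - md b x'| ≤ η := by
  have key : ∀ b : Bool, ∃ h, 0 < h ∧ ∀ x x' : ℝ, |x| ≤ 1 → |x'| ≤ 1 → |x - x'| ≤ h →
      |md b x - md b x'| ≤ η := by
    intro b
    obtain ⟨h, h0, hh⟩ := Metric.uniformContinuousOn_iff_le.1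
      ((isCompact_Icc (a := (-1 : ℝ)) (b := 1)).uniformContinuousOn_of_continuous
        (cont_md b).continuousOn) η hη
    exact ⟨h, h0, fun x x' h1 h2 h3 => hh x (abs_le.1 h1) x' (abs_le.1 h2) h3⟩
  obtain ⟨h1, p1, q1⟩ := key true
  obtain ⟨h2, p2, q2⟩ := key false
  refine ⟨min h1 h2, lt_min p1 p2, fun b x x' a1 a2 a3 => ?_⟩
  cases b
  · exact q2 x x' a1 a2 (a3.trans (min_le_right _ _))
  · exact q1 x x' a1 a2 (a3.trans (min_le_left _ _))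

theorem abs_le_of_iv {b : Bool} {x : ℝ} (h : x ∈ iv b 1) : |x| ≤ 1 := by
  cases b
  · exact abs_le.2 ⟨h.1.le, h.2.le⟩
  · have h' : x ∈ Ioo (0 : ℝ) (1 ^ 2) := h
    exact abs_le.2 ⟨by linarith [h'.1], by linarith [h'.2]⟩

theorem iv_add {b : Bool} {x h : ℝ} (hx : x ∈ iv b (97 / 100)) (h0 : 0 ≤ h) (h1 : h ≤ 1 / 50) :
    x + h ∈ iv b 1 := by
  cases b
  · have h' : x ∈ Ioo (-(97 / 100) : ℝ) (97 / 100) := hx
    exact ⟨by linarith [h'.1], by linarith [h'.2]⟩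
  · have h' : x ∈ Ioo (0 : ℝ) ((97 / 100) ^ 2) := hx
    exact ⟨by linarith [h'.1], by linarith [h'.2]⟩

theorem iv_sub {b : Bool} {x h : ℝ} (hx : x ∈ iv b (97 / 100)) (h0 : 0 ≤ h) (h1 : h ≤ 1 / 50)
    (h2 : h < om b x) : x - h ∈ iv b 1 := by
  cases b
  · have h' : x ∈ Ioo (-(97 / 100) : ℝ) (97 / 100) := hx
    exact ⟨by linarith [h'.1], by linarith [h'.2]⟩
  · have h' : x ∈ Ioo (0 : ℝ) ((97 / 100) ^ 2) := hx
    have h3 : h < x := h2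
    exact ⟨by linarith, by linarith [h'.2]⟩

theorem iv_near {b : Bool} {x x' : ℝ} (hx : x ∈ iv b (19 / 20)) (h1 : |x' - x| ≤ 1 / 250)
    (h2 : 1 / 100 ≤ om b x) : x' ∈ iv b (97 / 100) ∧ 1 / 200 ≤ om b x' := by
  have h3 := abs_le.1 h1
  cases b
  · have h' : x ∈ Ioo (-(19 / 20) : ℝ) (19 / 20) := hx
    exact ⟨⟨by linarith [h'.1], by linarith [h'.2]⟩, by norm_num [om]⟩
  · have h' : x ∈ Ioo (0 : ℝ) ((19 / 20) ^ 2) := hx
    have h4 : 1 / 100 ≤ x := h2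
    exact ⟨⟨by linarith, by linarith [h'.2]⟩, show 1 / 200 ≤ x' by linarith⟩

theorem vol_aff (B : Set (ℝ × ℝ)) (y : ℝ × ℝ) {c : ℝ} (hc : 1 ≤ |c|) :
    volume {h : ℝ × ℝ | y + c • h ∈ B} ≤ volume B := by
  have h0 : c ≠ 0 := by
    rintro rfl
    norm_num at hc
  have e : {h : ℝ × ℝ | y + c • h ∈ B} = (c • ·) ⁻¹' ((y + ·) ⁻¹' B) := rfl
  rw [e, Measure.addHaar_preimage_smul volume h0, measure_preimage_add]
  have h1 : |(c ^ Module.finrank ℝ (ℝ × ℝ))⁻¹| ≤ 1 := by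
    rw [abs_inv, abs_pow]
    exact inv_le_one_of_one_le₀ (one_le_pow₀ hc)
  calc _ ≤ 1 * volume B := by
        gcongr
        exact ENNReal.ofReal_le_one.2 h1
    _ = _ := one_mul _

theorem pick {B : Set (ℝ × ℝ)} {a : ℝ} (ha : 0 < a) (hB : volume B ≤ ENNReal.ofReal (a ^ 2 / 4))
    (y : ℝ × ℝ) {c c' : ℝ} (hc : 1 ≤ |c|) (hc' : 1 ≤ |c'|) :
    ∃ h ∈ Ioo 0 a ×ˢ Ioo 0 a, y + c • h ∉ B ∧ y + c' • h ∉ B := by
  by_contra H
  have hs : Ioo 0 a ×ˢ Ioo 0 a ⊆ {h : ℝ × ℝ | y + c • h ∈ B} ∪ {h : ℝ × ℝ | y + c' • h ∈ B} := by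
    intro h hh
    by_contra H'
    exact H ⟨h, hh, fun h1 => H' (Or.inl h1), fun h1 => H' (Or.inr h1)⟩
  have h1 := (measure_mono hs).trans ((measure_union_le _ _).trans
    (add_le_add ((vol_aff B y hc).trans hB) ((vol_aff B y hc').trans hB)))
  rw [Measure.volume_eq_prod, Measure.prod_prod, Real.volume_Ioo, sub_zero,
    ← ENNReal.ofReal_mul ha.le, ← ENNReal.ofReal_add (by positivity) (by positivity),
    ENNReal.ofReal_le_ofReal_iff (by positivity)] at h1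
  nlinarith

theorem markov {A : Set (ℝ × ℝ)} (hA : IsOpen A) {W : ℝ × ℝ → ℝ} (hW : ContinuousOn W A)
    (hi : IntegrableOn (fun y => W y ^ 2) A) {σ E : ℝ} (hσ : 0 < σ)
    (hE : ∫ y in A, W y ^ 2 ≤ σ ^ 2 * E) :
    volume {y | y ∈ A ∧ σ < |W y|} ≤ ENNReal.ofReal E := by
  have ho : IsOpen {y | y ∈ A ∧ σ < |W y|} :=
    (hW.abs).isOpen_inter_preimage hA isOpen_Ioi
  have hs : {y | y ∈ A ∧ σ < |W y|} ⊆ {y | σ ^ 2 ≤ W y ^ 2} := fun y hy => by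
    have := hy.2
    show σ ^ 2 ≤ W y ^ 2
    rw [← sq_abs (W y)]
    exact pow_le_pow_left₀ hσ.le this.le 2
  have h1 := mul_meas_ge_le_integral_of_nonneg
    (Eventually.of_forall fun y => sq_nonneg (W y)) hi (σ ^ 2)
  have h2 := hi.measure_ge_lt_top (ε := σ ^ 2) (by positivity)
  have h3 : (volume.restrict A).real {y | σ ^ 2 ≤ W y ^ 2} ≤ E :=
    le_of_mul_le_mul_left (h1.trans hE) (by positivity)
  calc volume {y | y ∈ A ∧ σ < |W y|} = (volume.restrict A) {y | y ∈ A ∧ σ < |W y|} := by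
        rw [Measure.restrict_apply ho.measurableSet, inter_eq_left.2 fun y hy => hy.1]
    _ ≤ (volume.restrict A) {y | σ ^ 2 ≤ W y ^ 2} := measure_mono hs
    _ ≤ _ := by
        rw [← ENNReal.ofReal_toReal h2.ne]
        exact ENNReal.ofReal_le_ofReal h3

/-- Bounds from convexity alone. -/
theorem interior (τ : Ty) {β σ : ℝ} (hβ : 0 < β) (hσ : 0 < σ) : ∃ ε, 0 < ε ∧
    ∀ U W : ℝ × ℝ → ℝ, (∀ y, W y = U y - (md τ.1 y.1 + md τ.2 y.2)) → ConvexOn ℝ (bx τ 1) U →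
    ContinuousOn W (bx τ 1) → IntegrableOn (fun y => W y ^ 2) (bx τ 1) →
    ∫ y in bx τ 1, W y ^ 2 ≤ ε ^ 2 → ∀ y ∈ bx τ (97 / 100), -σ ≤ W y ∧
      (β ≤ om τ.1 y.1 → β ≤ om τ.2 y.2 → W y ≤ σ) := by
  obtain ⟨h0, p0, q0⟩ := modulus (η := σ / 12) (by positivity)
  obtain ⟨a, ha, a1, a2, a3⟩ : ∃ a, 0 < a ∧ a ≤ h0 / 2 ∧ a ≤ β ∧ a ≤ 1 / 100 :=
    ⟨min (h0 / 2) (min β (1 / 100)), by positivity, min_le_left _ _,
      (min_le_right _ _).trans (min_le_left _ _), (min_le_right _ _).trans (min_le_right _ _)⟩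
  refine ⟨σ / 6 * (a / 2), by positivity, fun U W hW hU hc hi hE y hy => ?_⟩
  have hB := markov (isOpen_bx τ 1) hc hi (σ := σ / 6) (E := a ^ 2 / 4) (by positivity)
    (hE.trans_eq (by ring))
  have hy1 : y ∈ bx τ 1 := bx_mono τ (by norm_num) (by norm_num) hy
  have good : ∀ z ∈ bx τ 1, z ∉ {y | y ∈ bx τ 1 ∧ σ / 6 < |W y|} → |z.1 - y.1| ≤ h0 →
      |z.2 - y.2| ≤ h0 → |U z - (md τ.1 y.1 + md τ.2 y.2)| ≤ σ / 3 := by
    intro z hz hn k1 k2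
    have e1 : |W z| ≤ σ / 6 := not_lt.1 fun h => hn ⟨hz, h⟩
    have e2 := abs_le.1 (q0 τ.1 _ _ (abs_le_of_iv hz.1) (abs_le_of_iv hy1.1) k1)
    have e3 := abs_le.1 (q0 τ.2 _ _ (abs_le_of_iv hz.2) (abs_le_of_iv hy1.2) k2)
    rw [hW, abs_le] at e1
    rw [abs_le]
    constructor <;> linarith [e1.1, e1.2, e2.1, e2.2, e3.1, e3.2]
  have mem : ∀ h ∈ Ioo 0 a ×ˢ Ioo 0 a, ∀ c : ℝ, 0 ≤ c → c ≤ 2 → y + c • h ∈ bx τ 1 := by
    intro h hh c c0 c2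
    exact ⟨iv_add (h := c * h.1) hy.1 (mul_nonneg c0 hh.1.1.le) (by nlinarith [hh.1.1, hh.1.2]),
      iv_add (h := c * h.2) hy.2 (mul_nonneg c0 hh.2.1.le) (by nlinarith [hh.2.1, hh.2.2])⟩
  have near : ∀ h ∈ Ioo 0 a ×ˢ Ioo 0 a, ∀ c : ℝ, |c| ≤ 2 →
      |(y + c • h).1 - y.1| ≤ h0 ∧ |(y + c • h).2 - y.2| ≤ h0 := by
    intro h hh c c2
    have e1 : (y + c • h).1 - y.1 = c * h.1 := by simp
    have e2 : (y + c • h).2 - y.2 = c * h.2 := by simp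
    rw [e1, e2, abs_mul, abs_mul, abs_of_pos hh.1.1, abs_of_pos hh.2.1]
    constructor <;> nlinarith [hh.1.1, hh.1.2, hh.2.1, hh.2.2, abs_nonneg c]
  constructor
  · obtain ⟨h, hh, g1, g2⟩ := pick ha hB y (c := 1) (c' := 2) (by norm_num) (by norm_num)
    have m1 := mem h hh 1 (by norm_num) (by norm_num)
    have m2 := mem h hh 2 (by norm_num) (by norm_num)
    have n1 := near h hh 1 (by norm_num)
    have n2 := near h hh 2 (by norm_num)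
    have k1 := abs_le.1 (good _ m1 g1 n1.1 n1.2)
    have k2 := abs_le.1 (good _ m2 g2 n2.1 n2.2)
    have cv := hU.2 hy1 m2 (show (0 : ℝ) ≤ 1 / 2 by norm_num) (show (0 : ℝ) ≤ 1 / 2 by norm_num)
      (by norm_num)
    rw [show (1 / 2 : ℝ) • y + (1 / 2 : ℝ) • (y + (2 : ℝ) • h) = y + (1 : ℝ) • h by module,
      smul_eq_mul, smul_eq_mul] at cv
    rw [hW]
    linarith [k1.1, k2.2]
  · intro b1 b2
    obtain ⟨h, hh, g1, g2⟩ := pick ha hB y (c := 1) (c' := -1) (by norm_num) (by norm_num)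
    have m1 := mem h hh 1 (by norm_num) (by norm_num)
    have m2 : y + (-1 : ℝ) • h ∈ bx τ 1 := by
      rw [neg_one_smul, ← sub_eq_add_neg]
      exact ⟨iv_sub hy.1 hh.1.1.le (by linarith [hh.1.2]) (by linarith [hh.1.2]),
        iv_sub hy.2 hh.2.1.le (by linarith [hh.2.2]) (by linarith [hh.2.2])⟩
    have n1 := near h hh 1 (by norm_num)
    have n2 := near h hh (-1) (by norm_num)
    have k1 := abs_le.1 (good _ m1 g1 n1.1 n1.2)
    have k2 := abs_le.1 (good _ m2 g2 n2.1 n2.2)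
    have cv := hU.2 m1 m2 (show (0 : ℝ) ≤ 1 / 2 by norm_num) (show (0 : ℝ) ≤ 1 / 2 by norm_num)
      (by norm_num)
    rw [show (1 / 2 : ℝ) • (y + (1 : ℝ) • h) + (1 / 2 : ℝ) • (y + (-1 : ℝ) • h) = y by module,
      smul_eq_mul, smul_eq_mul] at cv
    rw [hW]
    linarith [k1.2, k2.2]

theorem convex_iv (b : Bool) (r : ℝ) : Convex ℝ (iv b r) := by
  cases b <;> exact convex_Ioo _ _

theorem zero_lt_iv (b : Bool) : (1 / 2 : ℝ) ∈ iv b 1 := by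
  cases b
  · exact ⟨by norm_num, by norm_num⟩
  · exact ⟨by norm_num, by norm_num⟩

theorem cvx (h1 : StApi) {d : Dm} {u F : X → ℝ} {t : ℝ} (h : SS 1 d u F t) :
    ConvexOn ℝ (bx d.τ 1) fun y => u (t, y) := by
  have hr := reg_bx h.bO
  have hm : ((1 / 2, 1 / 2) : ℝ × ℝ) ∈ bx d.τ 1 := ⟨zero_lt_iv _, zero_lt_iv _⟩
  exact (h1 d u h.gs.toGS0).cvx t h.tI _ ((convex_iv _ _).prod (convex_iv _ _))
    (hr.sub.trans d.S_subset) ⟨_, hm, hr.sub hm⟩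

/-- The bounds from convexity for a solution. -/
theorem inner (h1 : StApi) (τ : Ty) {β σ : ℝ} (hβ : 0 < β) (hσ : 0 < σ) : ∃ ε, 0 < ε ∧
    ∀ d u F t, d.τ = τ → SS 1 d u F t → ∫ y in bx τ 1, wv τ u (t, y) ^ 2 ≤ ε ^ 2 →
    ∀ y ∈ bx τ (97 / 100), -σ ≤ wv τ u (t, y) ∧
      (β ≤ om τ.1 y.1 → β ≤ om τ.2 y.2 → wv τ u (t, y) ≤ σ) := by
  obtain ⟨ε, h0, hε⟩ := interior τ hβ hσ
  refine ⟨ε, h0, ?_⟩
  rintro d u F t rfl h hE
  have hr := reg_bx h.bO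
  exact hε (fun y => u (t, y)) (fun y => wv d.τ u (t, y)) (fun _ => rfl) (cvx h1 h)
    ((h.gs.bd.lc.slice h.tI).mono hr.sub) ((h.gs.bd.lc.pow 2).integrableOn hr h.tI) hE

/-- The upper bound near the first face. -/
theorem face (h1 : StApi) (h2 : StT1) (h3 : StConc) (h4 : StCheb) (τ : Ty) (Λ : ℝ) {σ : ℝ}
    (hσ : 0 < σ) : ∃ β ε, 0 < β ∧ β ≤ 1 / 100 ∧ 0 < ε ∧ ∀ d u F t, d.τ = τ → SS 1 d u F t →
    ∫ y in bx τ 1, F (t, y) ^ 2 ≤ Λ → ∫ y in bx τ 1, wv τ u (t, y) ^ 2 ≤ ε ^ 2 →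
    ∀ y ∈ bx τ (19 / 20), om τ.1 y.1 < β → 1 / 100 ≤ om τ.2 y.2 → wv τ u (t, y) ≤ σ := by
  obtain ⟨h0, p0, q0⟩ := modulus (η := σ / 15) (by positivity)
  obtain ⟨s, hs, s1, s2⟩ : ∃ s, 0 < s ∧ s ≤ h0 ∧ s ≤ 1 / 250 :=
    ⟨min h0 (1 / 250), by positivity, min_le_left _ _, min_le_right _ _⟩
  have hΛ : 0 < |Λ| + 1 := by positivity
  obtain ⟨β, hβ, b1, b2⟩ : ∃ β, 0 < β ∧ β ≤ s ∧ β * (1000 * (|Λ| + 1)) ≤ s :=
    ⟨s / (1000 * (|Λ| + 1)), by positivity,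
      div_le_self hs.le (by linarith [abs_nonneg Λ]), (div_mul_cancel₀ _ (by positivity)).le⟩
  obtain ⟨σ', hσ', t1, t2⟩ : ∃ σ', 0 < σ' ∧ σ' ≤ β / 20 ∧ σ' ≤ σ / 15 :=
    ⟨min (β / 20) (σ / 15), by positivity, min_le_left _ _, min_le_right _ _⟩
  obtain ⟨ε, hε, hin⟩ := inner h1 τ (β := β / 2) (by positivity) hσ'
  refine ⟨β, ε, hβ, by linarith, hε, ?_⟩
  rintro d u F t rfl h hE hw y hy o1 o2
  have hin' := hin d u F t rfl h hw
  have hr := reg_bx h.bO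
  have api := h1 d u h.gs.toGS0
  have hτ : d.τ.1 = true := by
    by_contra H
    rw [Bool.not_eq_true] at H
    rw [H] at o1
    have : (1 : ℝ) < β := o1
    linarith
  have iv1 : ∀ (r x : ℝ), x ∈ iv d.τ.1 r ↔ x ∈ Ioo 0 (r ^ 2) := fun r x => by rw [hτ]; rfl
  have om1 : ∀ x : ℝ, om d.τ.1 x = x := fun x => by rw [hτ]; rfl
  have md1 : ∀ x : ℝ, md d.τ.1 x = x * Real.log x := fun x => by rw [hτ]; rfl
  have hx : y.1 ∈ Ioo 0 β := ⟨((iv1 _ _).1 hy.1).1, om1 y.1 ▸ o1⟩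
  have pt : ∀ b x : ℝ, (0 : ℝ × ℝ) + b • ((0, 1) : ℝ × ℝ) + x • ((1, 0) : ℝ × ℝ) = (x, b) :=
    fun b x => by simp
  have mem : ∀ b, |b - y.2| ≤ s → ∀ x ∈ Ioc 0 (3 * β), ((x, b) : ℝ × ℝ) ∈ bx d.τ (97 / 100) :=
    fun b hb x hx' => ⟨(iv1 _ _).2 ⟨hx'.1, by linarith [hx'.2]⟩,
      (iv_near hy.2 (hb.trans s2) o2).1⟩
  have mem1 : ∀ b, |b - y.2| ≤ s → ∀ x ∈ Ioc 0 (3 * β), ((x, b) : ℝ × ℝ) ∈ bx d.τ 1 :=
    fun b hb x hx' => bx_mono _ (by norm_num) (by norm_num) (mem b hb x hx')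
  -- the bound on a cheap line
  have line : ∀ c : ℝ, y.2 - s ≤ c → c ≤ y.2 → ∃ b ∈ Ioo c (c + s),
      u (t, y.1, b) - (md d.τ.1 y.1 + md d.τ.2 y.2) ≤ σ := by
    intro c c1 c2
    have hb : ∀ b ∈ Ioo c (c + s), |b - y.2| ≤ s := fun b hb =>
      abs_le.2 ⟨by linarith [hb.1], by linarith [hb.2]⟩
    have ch := h4 (fun z => F (t, z)) (bx d.τ 1) Λ (1 / 12) (3 * β) 0 (1, 0) (0, 1)
      (fun _ => 0) (fun _ => 3 * β) (Ioo c (c + s)) hr.ms ((h.gs.lcF.slice h.tI).mono hr.sub)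
      (fun z hz => (abs_nonneg _).trans (h.gs.f2 (t, z) ⟨h.tI, hr.sub hz⟩))
      ((h.gs.lcF.pow 2).integrableOn hr h.tI) hE (by norm_num) continuous_const continuous_const
      measurableSet_Ioo (by norm_num) (by positivity)
      (fun b hb' => ⟨by simp, fun x hx' => by
        rw [pt]; exact mem1 b (hb b hb') x (Ioo_subset_Ioc_self hx')⟩)
    obtain ⟨b, hb', hc⟩ : ∃ b ∈ Ioo c (c + s), Cheap (fun x => F (t, (0 : ℝ × ℝ) +
        b • ((0, 1) : ℝ × ℝ) + x • ((1, 0) : ℝ × ℝ))) 0 (3 * β) (1 / 12) := by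
      by_contra H
      have e : Ioo c (c + s) ⊆ {b ∈ Ioo c (c + s) | ¬Cheap (fun x => F (t, (0 : ℝ × ℝ) +
          b • ((0, 1) : ℝ × ℝ) + x • ((1, 0) : ℝ × ℝ))) 0 (3 * β) (1 / 12)} :=
        fun b hb' => ⟨hb', fun hc => H ⟨b, hb', hc⟩⟩
      have e2 := (measure_mono e).trans ch
      rw [Real.volume_Ioo, add_sub_cancel_left] at e2
      refine absurd e2 (not_le.2 ((ENNReal.ofReal_lt_ofReal_iff hs).2 ?_))
      norm_num
      nlinarith [le_abs_self Λ]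
    refine ⟨b, hb', ?_⟩
    have hS : ∀ x ∈ Ioc 0 (3 * β), (0 : ℝ × ℝ) + b • ((0, 1) : ℝ × ℝ) + x • ((1, 0) : ℝ × ℝ) ∈
        d.S := fun x hx' => by rw [pt]; exact hr.sub (mem1 b (hb b hb') x hx')
    have he : ((1, 0) : ℝ × ℝ) ≠ 0 := by simp
    obtain ⟨k1, -, -, -, -, -, ⟨m', m'', k2, k3⟩, -⟩ :=
      h2 d u F t (0 + b • (0, 1)) (1, 0) (Ioc 0 (3 * β)) h.gs h.tI he hS
    have nb := iv_near hy.2 ((hb b hb').trans s2) o2
    have key := face1 h3 (σ := σ') (η := σ / 15) (k := md d.τ.2 b) hβ k1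
      (fun x hx' => (api.hqp (t, _) ⟨h.tI, hS x hx'⟩ _ he).1) k2 k3 hc
      (fun x hx' => by
        have := hin' _ (mem b (hb b hb') x ⟨by linarith [hx'.1], hx'.2⟩)
        have h5 := this.2 (by rw [om1]; exact hx'.1) (by linarith [nb.2])
        have e : ln t (0 + b • (0, 1)) (1, 0) u x - (x * Real.log x + md d.τ.2 b) =
            wv d.τ u (t, x, b) := by
          simp only [ln, pt, wv, u0, Pi.sub_apply, md1]
        rw [e]
        exact abs_le.2 ⟨this.1, h5⟩) t1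
      (fun x hx' x' hx'' => q0 true x x' (abs_le.2 ⟨by linarith [hx'.1], by linarith [hx'.2]⟩)
        (abs_le.2 ⟨by linarith [hx''.1], by linarith [hx''.2]⟩)
        (abs_le.2 ⟨by linarith [hx'.1, hx''.2], by linarith [hx'.2, hx''.1]⟩)) y.1 hx
    simp only [ln, pt] at key
    have e3 := abs_le.1 (q0 d.τ.2 b y.2
      (abs_le_of_iv (iv_mono _ (by norm_num) (by norm_num) nb.1))
      (abs_le_of_iv (iv_mono _ (by norm_num) (by norm_num) hy.2)) ((hb b hb').trans s1))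
    rw [md1]
    linarith [e3.2]
  obtain ⟨b₁, hb₁, k₁⟩ := line (y.2 - s) le_rfl (by linarith)
  obtain ⟨b₂, hb₂, k₂⟩ := line y.2 (by linarith) le_rfl
  have hx3 : y.1 ∈ Ioc 0 (3 * β) := ⟨hx.1, by linarith [hx.2]⟩
  have m₁ := mem1 b₁ (abs_le.2 ⟨by linarith [hb₁.1], by linarith [hb₁.2]⟩) _ hx3
  have m₂ := mem1 b₂ (abs_le.2 ⟨by linarith [hb₂.1], by linarith [hb₂.2]⟩) _ hx3
  have sg : y ∈ segment ℝ ((y.1, b₁) : ℝ × ℝ) (y.1, b₂) := by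
    have : y.2 ∈ segment ℝ b₁ b₂ := by
      rw [segment_eq_Icc (by linarith [hb₁.2, hb₂.1])]
      exact ⟨by linarith [hb₁.2], hb₂.1.le⟩
    obtain ⟨p, q, hp, hq, hpq, e⟩ := this
    refine ⟨p, q, hp, hq, hpq, Prod.ext ?_ e⟩
    show p * y.1 + q * y.1 = y.1
    rw [← add_mul, hpq, one_mul]
  have cv := (cvx h1 h).le_on_segment m₁ m₂ sg
  show u (t, y) - (md d.τ.1 y.1 + md d.τ.2 y.2) ≤ σ
  rcases le_max_iff.1 cv with H | H <;> linarith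

end Sup

theorem sup_ok (h1 : StApi) (h2 : StT1) (h3 : StConc) (h4 : StCheb) (h5 : StSwap) : StSup := by
  intro τ Λ σ hσ
  obtain ⟨β₁, ε₁, p1, q1, r1, k1⟩ := Sup.face h1 h2 h3 h4 τ Λ hσ
  obtain ⟨β₂, ε₂, p2, q2, r2, k2⟩ := Sup.face h1 h2 h3 h4 (τ.2, τ.1) Λ hσ
  obtain ⟨ε₃, r3, k3⟩ := Sup.inner h1 τ (lt_min p1 p2) hσ
  have r0 : 0 < min ε₁ (min ε₂ ε₃) := lt_min r1 (lt_min r2 r3)
  refine ⟨min ε₁ (min ε₂ ε₃), r0, ?_⟩
  rintro d u F t rfl h hE hw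
  have w1 := hw.trans (pow_le_pow_left₀ r0.le (min_le_left _ _) 2)
  have w2 := hw.trans (pow_le_pow_left₀ r0.le ((min_le_right _ _).trans (min_le_left _ _)) 2)
  have w3 := hw.trans (pow_le_pow_left₀ r0.le ((min_le_right _ _).trans (min_le_right _ _)) 2)
  have l3 := fun y (hy : y ∈ bx d.τ (19 / 20)) =>
    k3 d u F t rfl h w3 y (bx_mono _ (by norm_num) (by norm_num) hy)
  refine ⟨fun y hy => abs_le.2 ⟨(l3 y hy.1).1, ?_⟩, fun y hy => (l3 y hy).1⟩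
  have hy2 : 1 / 100 ≤ om d.τ.1 y.1 ∨ 1 / 100 ≤ om d.τ.2 y.2 := by
    have := hy.2
    rwa [show (1 / 10 : ℝ) ^ 2 = 1 / 100 by norm_num] at this
  by_cases c1 : om d.τ.1 y.1 < β₁
  · exact k1 d u F t rfl h hE w1 y hy.1 c1 (hy2.resolve_left (by linarith))
  by_cases c2 : om d.τ.2 y.2 < β₂
  · obtain ⟨-, s2, -, -, -, -, -, s8, s9⟩ := h5 d u F
    have eb : ∀ r, bx (d.τ.2, d.τ.1) r = Prod.swap ⁻¹' bx d.τ r := fun r => by
      ext z
      exact and_comm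
    have := k2 d.swap (u ∘ sw) (F ∘ sw) t rfl (s2 1 t h)
      (by rw [eb]; exact (s9 (fun y => F (t, y) ^ 2) _).trans_le hE)
      (by
        rw [eb]
        refine le_of_eq_of_le ?_ ((s9 (fun y => wv d.τ u (t, y) ^ 2) _).trans_le w2)
        congr 1
        funext z
        rw [← (s8 (t, z.swap)).1]
        rfl) y.swap (by rw [eb]; exact hy.1) c2 (hy2.resolve_right (by linarith))
    rw [← (s8 (t, y)).1]
    exact this
  exact (l3 y hy.1).2 ((min_le_left _ _).trans (not_lt.1 c1))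
    ((min_le_right _ _).trans (not_lt.1 c2))

end Pool.Agent.P.MP_2cea5e_gt.I
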