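import Pool.Agent.P.MP_2cea5e_gt.I.St2

/-!
Chapter I: exchange of the two space coordinates.
-/

open scoped ContDiff Topology
open MeasureTheory Set Filter

noncomputable section

set_option linter.dupNamespace false

namespace Pool.Agent.P.MP_2cea5e_gt.I

namespace Swap

/-- The exchange as a continuous linear equivalence. -/
def L : X ≃L[ℝ] X :=
  (ContinuousLinearEquiv.refl ℝ ℝ).prodCongr (ContinuousLinearEquiv.prodComm ℝ ℝ ℝ)

theorem L_eq : (L : X → X) = sw := rfl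

theorem sw_sw (p : X) : sw (sw p) = p := rfl

theorem cont_sw : Continuous sw := L.continuous

theorem sm_sw : ContDiff ℝ ∞ sw := L.contDiff

theorem D_sw (v : X) (f : X → ℝ) : D v (f ∘ sw) = D (sw v) f ∘ sw := by
  funext p
  have := ContinuousLinearEquiv.comp_right_fderiv L (f := f) (x := p)
  rw [L_eq] at this
  simp only [D, Function.comp_apply, this]
  rfl

theorem D0 (f : X → ℝ) : D e0 (f ∘ sw) = D e0 f ∘ sw := D_sw _ _
theorem D1 (f : X → ℝ) : D e1 (f ∘ sw) = D e2 f ∘ sw := D_sw _ _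
theorem D2 (f : X → ℝ) : D e2 (f ∘ sw) = D e1 f ∘ sw := D_sw _ _
theorem Dsv (e : ℝ × ℝ) (f : X → ℝ) : D (sv e) (f ∘ sw) = D (sv e.swap) f ∘ sw := D_sw _ _

theorem h11_sw (f : X → ℝ) : h11 (f ∘ sw) = h22 f ∘ sw := by simp only [h11, h22, D1]
theorem h22_sw (f : X → ℝ) : h22 (f ∘ sw) = h11 f ∘ sw := by simp only [h11, h22, D2]
theorem h12_sw (f : X → ℝ) : h12 (f ∘ sw) = D e2 (D e1 f) ∘ sw := by simp only [h12, D1, D2]

variable {d : Dm} {f g u F : X → ℝ} {p : X}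

theorem mem_S {y : ℝ × ℝ} : y ∈ d.swap.S ↔ y.swap ∈ d.S :=
  ⟨fun h => ⟨h.1, h.2.2, h.2.1⟩, fun h => ⟨h.1, h.2.2, h.2.1⟩⟩

theorem S_eq (d : Dm) : d.swap.S = Prod.swap ⁻¹' d.S := Set.ext fun _ => mem_S

theorem mem_U : p ∈ d.swap.U ↔ sw p ∈ d.U :=
  ⟨fun h => ⟨h.1, h.2.1, h.2.2.2, h.2.2.1⟩, fun h => ⟨h.1, h.2.1, h.2.2.2, h.2.2.1⟩⟩

theorem mem_Uc : p ∈ d.swap.Uc ↔ sw p ∈ d.Uc :=
  ⟨fun h => ⟨h.1, h.2.1, h.2.2.2, h.2.2.1⟩, fun h => ⟨h.1, h.2.1, h.2.2.2, h.2.2.1⟩⟩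

theorem bx_eq (d : Dm) (r : ℝ) : bx d.swap.τ r = Prod.swap ⁻¹' bx d.τ r :=
  Set.ext fun _ => ⟨fun h => ⟨h.2, h.1⟩, fun h => ⟨h.2, h.1⟩⟩

theorem bO {r : ℝ} (h : bxc d.τ r ⊆ d.O) : bxc d.swap.τ r ⊆ d.swap.O :=
  fun y hy => h (show y.swap ∈ bxc d.τ r from ⟨hy.2, hy.1⟩)

theorem img {K : Set X} (h : K ⊆ d.swap.Uc) : sw '' K ⊆ d.Uc := by
  rintro _ ⟨q, hq, rfl⟩
  exact mem_Uc.mp (h hq)

theorem bd0 (h : Bd0 d f) : Bd0 d.swap (f ∘ sw) := fun _ h1 h2 =>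
  let ⟨C, hC⟩ := h _ (h1.image cont_sw) (img h2)
  ⟨C, fun p hp hU => hC _ ⟨p, hp, rfl⟩ (mem_U.mp hU)⟩

theorem lw (h : Lw d f) : Lw d.swap (f ∘ sw) := fun _ h1 h2 =>
  let ⟨c, h0, hC⟩ := h _ (h1.image cont_sw) (img h2)
  ⟨c, h0, fun p hp hU => hC _ ⟨p, hp, rfl⟩ (mem_U.mp hU)⟩

theorem bk {k : ℕ} (h : Bk d k f) : Bk d.swap k (f ∘ sw) := by
  induction k generalizing f with
  | zero => exact bd0 h
  | succ k ih => exact ⟨bd0 h.1, fun v => by rw [D_sw]; exact ih (h.2 _)⟩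

theorem smo (h : ContDiffOn ℝ ∞ f d.U) : ContDiffOn ℝ ∞ (f ∘ sw) d.swap.U :=
  h.comp sm_sw.contDiffOn fun _ hp => mem_U.mp hp

theorem bd (h : Bd d f) : Bd d.swap (f ∘ sw) := ⟨smo h.sm, fun k => bk (h.bk k)⟩

theorem lc (h : Lc d f) : Lc d.swap (f ∘ sw) :=
  ⟨h.cont.comp cont_sw.continuousOn fun _ hp => mem_U.mp hp, bd0 h.bd⟩

theorem wv_sw (d : Dm) (u : X → ℝ) : wv d.swap.τ (u ∘ sw) = wv d.τ u ∘ sw := by
  funext p
  simp only [wv, u0, Pi.sub_apply, Function.comp_apply, sw, Dm.swap]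
  ring

theorem sm_md (b : Bool) : ContDiffOn ℝ ∞ (md b) (ok b) := by
  cases b
  · have : md false = fun x : ℝ => x ^ 2 / 2 := by funext x; simp [md]
    rw [this]; fun_prop
  · have : md true = fun x : ℝ => x * Real.log x := by funext x; simp [md]
    rw [this]
    exact contDiffOn_id.mul (contDiffOn_id.log fun x hx => by
      simp only [ok, if_true, mem_Ioi] at hx; exact hx.ne')

theorem sm_u (h : GS0 d u) : ContDiffOn ℝ ∞ u d.U := by
  have h0 : ContDiffOn ℝ ∞ (u0 d.τ) d.U :=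
    ((sm_md _).comp (contDiff_fst.comp contDiff_snd).contDiffOn fun _ hp => hp.2.2.1).add
      ((sm_md _).comp (contDiff_snd.comp contDiff_snd).contDiffOn fun _ hp => hp.2.2.2)
  exact (h.bd.sm.add h0).congr fun p _ => by simp [wv]

theorem h12_on (hs : ContDiffOn ℝ ∞ f d.U) (hp : p ∈ d.swap.U) :
    h12 (f ∘ sw) p = h12 f (sw p) := by
  rw [h12_sw]
  exact D_comm_on d.isOpen_U hs _ _ (mem_U.mp hp)

theorem W_on (hs : ContDiffOn ℝ ∞ u d.U) (hp : p ∈ d.swap.U) : W (u ∘ sw) p = W u (sw p) := by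
  have h1 := h12_on hs hp
  have h2 := congrFun (h11_sw u) p
  have h3 := congrFun (h22_sw u) p
  change h11 (u ∘ sw) p * h22 (u ∘ sw) p - h12 (u ∘ sw) p * h12 (u ∘ sw) p =
    h11 u (sw p) * h22 u (sw p) - h12 u (sw p) * h12 u (sw p)
  rw [h1, h2, h3]
  simp only [Function.comp_apply]
  ring

theorem i11_on (hs : ContDiffOn ℝ ∞ u d.U) : EqOn (i11 (u ∘ sw)) (i22 u ∘ sw) d.swap.U :=
  fun p hp => by
    simp only [i11, i22, Pi.mul_apply, Iv_apply, W_on hs hp, h22_sw, Function.comp_apply]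

theorem i22_on (hs : ContDiffOn ℝ ∞ u d.U) : EqOn (i22 (u ∘ sw)) (i11 u ∘ sw) d.swap.U :=
  fun p hp => by
    simp only [i11, i22, Pi.mul_apply, Iv_apply, W_on hs hp, h11_sw, Function.comp_apply]

theorem i12_on (hs : ContDiffOn ℝ ∞ u d.U) : EqOn (i12 (u ∘ sw)) (i12 u ∘ sw) d.swap.U :=
  fun p hp => by
    simp only [i12, Pi.mul_apply, Pi.neg_apply, Iv_apply, W_on hs hp, h12_on hs hp,
      Function.comp_apply]

theorem DD_on (v w : X) (h : EqOn f (g ∘ sw) d.swap.U) (hp : p ∈ d.swap.U) :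
    D v (D w f) p = D (sw v) (D (sw w) g) (sw p) := by
  rw [D_congr d.swap.isOpen_U v (D_congr d.swap.isOpen_U w h) hp, D_sw, D_sw]
  rfl

theorem W_pos (h : GS0 d u) (hp : p ∈ d.U) : 0 < W u p := by
  have := h.nd.pos hp
  simp only [Pi.mul_apply] at this
  exact (mul_pos_iff_of_pos_left (mul_pos (Dm.o1_pos hp) (Dm.o2_pos hp))).mp this

theorem p22 (h : GS0 d u) (hp : p ∈ d.U) : 0 < h22 u p := by
  have h1 := W_pos h hp
  have h2 := h.p11 p hp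
  change 0 < h11 u p * h22 u p - h12 u p * h12 u p at h1
  by_contra h3
  nlinarith [mul_self_nonneg (h12 u p), mul_nonneg h2.le (neg_nonneg.mpr (not_lt.mp h3))]

theorem sm_i12 (h : GS0 d u) : ContDiffOn ℝ ∞ (i12 u) d.U := by
  have hs := sm_u h
  have hD := fun v w => smO_D d.isOpen_U v (smO_D d.isOpen_U w hs)
  have hW : ContDiffOn ℝ ∞ (W u) d.U := ((hD _ _).mul (hD _ _)).sub ((hD _ _).mul (hD _ _))
  exact ((hD _ _).mul (hW.inv fun p hp => (W_pos h hp).ne')).neg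

theorem ab_on (h : GS0 d u) (hp : p ∈ d.swap.U) : ab (u ∘ sw) p = ab u (sw p) := by
  have hs := sm_u h
  have h1 := DD_on e1 e1 (i11_on hs) hp
  have h2 := DD_on e1 e2 (i12_on hs) hp
  have h3 := DD_on e2 e2 (i22_on hs) hp
  have h4 := D_comm_on d.isOpen_U (sm_i12 h) e2 e1 (mem_U.mp hp)
  change D e1 (D e1 (i11 (u ∘ sw))) p + 2 * D e1 (D e2 (i12 (u ∘ sw))) p +
      D e2 (D e2 (i22 (u ∘ sw))) p =
    D e1 (D e1 (i11 u)) (sw p) + 2 * D e1 (D e2 (i12 u)) (sw p) + D e2 (D e2 (i22 u)) (sw p)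
  rw [h1, h2, h3, ← h4]
  change D e2 (D e2 (i22 u)) (sw p) + 2 * D e2 (D e1 (i12 u)) (sw p) +
    D e1 (D e1 (i11 u)) (sw p) = _
  ring

theorem gs0 (h : GS0 d u) : GS0 d.swap (u ∘ sw) where
  bd := by rw [wv_sw]; exact bd h.bd
  cont := h.cont.comp cont_sw.continuousOn fun _ hp => mem_Uc.mp hp
  p11 := fun p hp => by rw [h11_sw]; exact p22 h (mem_U.mp hp)
  nd := fun K h1 h2 => by
    obtain ⟨c, h0, hC⟩ := lw h.nd K h1 h2
    refine ⟨c, h0, fun p hp hU => (hC p hp hU).trans_eq ?_⟩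
    simp only [Function.comp_apply, Pi.mul_apply, W_on (sm_u h) hU, o1, o2, sw, Dm.swap]
    ring
  eqn := fun p hp => by
    rw [ab_on h hp, D0]
    exact h.eqn _ (mem_U.mp hp)

theorem iq_on (hs : ContDiffOn ℝ ∞ u d.U) (n : ℝ × ℝ) :
    EqOn (iq (u ∘ sw) n) (iq u n.swap ∘ sw) d.swap.U := fun p hp => by
  simp only [iq, ib, T2.ap, iv2, i11_on hs hp, i12_on hs hp, i22_on hs hp, Function.comp_apply,
    Prod.fst_swap, Prod.snd_swap]
  ring

theorem hq_on (hs : ContDiffOn ℝ ∞ u d.U) (e : ℝ × ℝ) (hp : p ∈ d.swap.U) :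
    hq (u ∘ sw) e p = hq u e.swap (sw p) := by
  simp only [hq, hb, T2.ap, I.hs, h11_sw, h22_sw, h12_on hs hp, Function.comp_apply,
    Prod.fst_swap, Prod.snd_swap]
  ring

theorem gs (h : GS d u F) : GS d.swap (u ∘ sw) (F ∘ sw) where
  toGS0 := gs0 h.toGS0
  lcF := lc h.lcF
  f1 := fun p hp e n => by
    have hs := sm_u h.toGS0
    rw [DD_on _ _ (iq_on hs n) hp, iq_on hs n hp, hq_on hs e hp]
    exact h.f1 _ (mem_U.mp hp) e.swap n.swap
  f2 := fun p hp => by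
    rw [D0]
    exact h.f2 _ (mem_U.mp hp)

theorem mp : MeasurePreserving (Prod.swap : ℝ × ℝ → ℝ × ℝ) volume volume :=
  Measure.measurePreserving_swap

theorem me : MeasurableEmbedding (Prod.swap : ℝ × ℝ → ℝ × ℝ) :=
  MeasurableEquiv.prodComm.measurableEmbedding

theorem int_sw (f : ℝ × ℝ → ℝ) (A : Set (ℝ × ℝ)) :
    ∫ y in Prod.swap ⁻¹' A, f y.swap = ∫ y in A, f y :=
  mp.setIntegral_preimage_emb me f A

theorem intOn_sw {f : ℝ × ℝ → ℝ} {A : Set (ℝ × ℝ)} (h : IntegrableOn f A) :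
    IntegrableOn (fun y => f y.swap) (Prod.swap ⁻¹' A) :=
  (mp.integrableOn_comp_preimage me).mpr h

theorem n0 (h : N0 d u F) : N0 d.swap (u ∘ sw) (F ∘ sw) := ⟨gs h.gs, h.tI, bO h.bO⟩

theorem close {ε : ℝ} (h : Close d u ε) : Close d.swap (u ∘ sw) ε := fun t ht => by
  rw [wv_sw, bx_eq]
  exact (int_sw (fun y => wv d.τ u (t, y) ^ 2) _).trans_le (h t ht)

theorem gex_on (hs : ContDiffOn ℝ ∞ u d.U) (hp : p ∈ d.swap.U) :
    gex d.swap.τ (u ∘ sw) p = gex d.τ u (sw p) := by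
  simp only [gex, i11_on hs hp, i22_on hs hp, h11_sw, h22_sw, Function.comp_apply, o1, o2]
  simp only [sw, Dm.swap]
  ring

theorem exc {ε : ℝ} (h0 : N0 d u F) (h : Exc d u ε) : Exc d.swap (u ∘ sw) ε := by
  refine ⟨close h.1, le_of_eq_of_le (intervalIntegral.integral_congr fun t ht => ?_) h.2⟩
  rw [uIcc_of_le (by norm_num)] at ht
  refine Eq.trans ?_ (int_sw (fun y => gex d.τ u (t, y)) _)
  rw [← bx_eq]
  exact setIntegral_congr_fun (isOpen_bx _ _).measurableSet fun y hy =>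
    gex_on (sm_u h0.gs.toGS0) ⟨h0.tI ht, (reg_bx (bO h0.bO)).sub hy⟩

theorem near (h : GS d u F) {δ : ℝ} (hp : p ∈ d.U) (hn : Near d.swap.τ (u ∘ sw) δ (sw p)) :
    Near d.τ u δ p := by
  obtain ⟨h1, h2, h3⟩ := hn
  rw [wv_sw, D1] at h2
  rw [wv_sw, D2] at h3
  refine ⟨fun e => ?_, h3, h2⟩
  have h4 := h1 e.swap
  rw [hq_on (sm_u h.toGS0) _ ((mem_U (p := sw p)).mpr hp)] at h4
  have h5 : hq0 d.swap.τ e.swap (sw p) = hq0 d.τ e p := by
    simp only [hq0, o1, o2, sw, Dm.swap, Prod.fst_swap, Prod.snd_swap]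
    ring
  rw [h5] at h4
  exact h4

theorem ball_sw {y : ℝ × ℝ} {r : ℝ} (h : Metric.ball y r ⊆ d.swap.S) :
    Metric.ball y.swap r ⊆ d.S := fun z hz => by
  have : z.swap ∈ Metric.ball y r := by
    rw [Metric.mem_ball, Prod.dist_eq] at hz ⊢
    rw [max_comm]
    exact hz
  exact mem_S.mp (h this)

theorem cs {T₀ T Λ : ℝ} (h : CS d u F T₀ T Λ) : CS d.swap (u ∘ sw) (F ∘ sw) T₀ T Λ := by
  have hs := sm_u h.gs.toGS0
  have e1 : ∀ r s : ℝ, ∫ y in d.swap.S, (D e0 (u ∘ sw) (r, y) - D e0 (u ∘ sw) (s, y)) ^ 2 =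
      ∫ y in d.S, (D e0 u (r, y) - D e0 u (s, y)) ^ 2 := fun r s => by
    rw [D0, S_eq]
    exact int_sw (fun y => (D e0 u (r, y) - D e0 u (s, y)) ^ 2) _
  have e2 : ∀ s : ℝ, ∫ y in d.swap.S, D e0 (u ∘ sw) (s, y) ^ 2 =
      ∫ y in d.S, D e0 u (s, y) ^ 2 := fun s => by
    rw [D0, S_eq]
    exact int_sw (fun y => D e0 u (s, y) ^ 2) _
  refine ⟨gs h.gs, ?_, h.lt, h.tI, h.one, fun p hp => h.c0 _ (mem_U.mp hp), ?_, ?_, ?_, ?_, ?_⟩
  · simp only [Dm.swap, h.ty]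
  · intro t ht y r h0 h1 h2
    rw [D1, D2]
    exact (h.lg t ht _ r h0 h1 (ball_sw h2)).symm
  · intro t ht
    have hm := d.swap.isOpen_S.measurableSet
    have e : EqOn (fun y : ℝ × ℝ => (√(√(W u (t, y.swap))))⁻¹)
        (fun y => (√(√(W (u ∘ sw) (t, y))))⁻¹) d.swap.S := fun y hy => by
      simp only [W_on (p := (t, y)) hs ⟨ht, hy⟩]
      rfl
    refine ⟨IntegrableOn.congr_fun ?_ e hm, ?_⟩
    · rw [S_eq]
      exact intOn_sw (h.dt t ht).1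
    · rw [← setIntegral_congr_fun hm e, S_eq]
      exact (int_sw (fun y => (√(√(W u (t, y))))⁻¹) _).trans_le (h.dt t ht).2
  · intro t ht
    rw [S_eq]
    exact ⟨intOn_sw (h.en t ht).1, (int_sw (fun y => F (t, y) ^ 2) _).trans_le (h.en t ht).2⟩
  · intro s hs
    simp only [e1]
    exact h.vc s hs
  · intro s hs t ht
    simp only [e1, e2]
    exact h.soft s hs t ht

end Swap

open Swap in
theorem swap_ok : StSwap := fun d u F =>
  ⟨gs, fun _ _ h => ⟨gs h.gs, h.tI, bO h.bO⟩,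
    fun _ h => ⟨n0 h.toN0, fun t ht => by
      rw [bx_eq]
      exact (int_sw (fun y => F (t, y) ^ 2) _).trans_le (h.en t ht)⟩,
    fun _ => close, fun _ => exc, fun h _ _ hp => near h hp, fun _ _ _ => cs,
    fun p => ⟨congrFun (wv_sw d u) (sw p), mem_U, congrFun (D0 u) (sw p), congrFun (D1 u) (sw p),
      congrFun (D2 u) (sw p)⟩, int_sw⟩

end Pool.Agent.P.MP_2cea5e_gt.I
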