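import Pool.Agent.P.MP_2cea5e_gt.I.St2

/-!
Chapter I: the functions along a line.
-/

open scoped ContDiff Topology
open MeasureTheory Set Filter

noncomputable section

set_option linter.dupNamespace false

namespace Pool.Agent.P.MP_2cea5e_gt.I

namespace T1

variable {d : Dm} {f g u F : X → ℝ} {p : X} {U : Set X} {t : ℝ} {y e : ℝ × ℝ} {J : Set ℝ}

theorem pt (t : ℝ) (y e : ℝ × ℝ) (s : ℝ) : ((t, y) : X) + s • sv e = (t, y + s • e) := by
  simp [sv]

theorem ln_der (hg : ContDiffOn ℝ ∞ g d.U) (ht : t ∈ d.I) {x : ℝ} (hx : y + x • e ∈ d.S) :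
    HasDerivAt (ln t y e g) (ln t y e (D (sv e) g) x) x := by
  have h1 : DifferentiableAt ℝ g (((t, y) : X) + x • sv e) := by
    rw [pt]; exact diffAt d.isOpen_U hg ⟨ht, hx⟩
  have h2 := hasDerivAt_ln (sv e) (t, y) h1
  simp only [pt] at h2
  exact h2

theorem ln_cont (hg : ContinuousOn g d.U) (ht : t ∈ d.I) (hJ : ∀ x ∈ J, y + x • e ∈ d.S) :
    ContinuousOn (ln t y e g) J :=
  hg.comp (f := fun x : ℝ => ((t, y + x • e) : X)) (by fun_prop) fun x hx => ⟨ht, hJ x hx⟩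

theorem c2 (hg : ContDiffOn ℝ ∞ g d.U) (ht : t ∈ d.I) (hJ : ∀ x ∈ J, y + x • e ∈ d.S) :
    C2On (ln t y e g) (ln t y e (D (sv e) g)) (ln t y e (D (sv e) (D (sv e) g))) J :=
  ⟨fun x hx => ln_der hg ht (hJ x hx), fun x hx => ln_der (smO_D d.isOpen_U _ hg) ht (hJ x hx),
    ln_cont (smO_D d.isOpen_U _ (smO_D d.isOpen_U _ hg)).continuousOn ht hJ⟩

theorem c2_congr {a a' a'' b : ℝ → ℝ} (h : C2On a a' a'' J) (hb : ∀ x ∈ J, a'' x = b x) :
    C2On a a' b J :=
  ⟨h.d1, fun x hx => hb x hx ▸ h.d2 x hx, h.c2.congr fun x hx => (hb x hx).symm⟩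

theorem D_cmul (v : X) (c : ℝ) (hf : DifferentiableAt ℝ f p) :
    D v (fun q => f q * c) p = D v f p * c := by
  have h := D_mul_at v hf (differentiableAt_const c)
  have h0 : D v (fun _ : X => c) p = 0 := by simp [D]
  rw [h0, mul_zero, add_zero] at h
  exact h

theorem D_comb (v : X) {a b c : X → ℝ} (α β γ : ℝ) (ha : DifferentiableAt ℝ a p)
    (hb : DifferentiableAt ℝ b p) (hc : DifferentiableAt ℝ c p) :
    D v (fun q => a q * α + b q * β + c q * γ) p = D v a p * α + D v b p * β + D v c p * γ := by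
  have h1 := D_add_at v ((ha.mul_const α).add (hb.mul_const β)) (hc.mul_const γ)
  have h2 := D_add_at v (ha.mul_const α) (hb.mul_const β)
  rw [h2, D_cmul v α ha, D_cmul v β hb, D_cmul v γ hc] at h1
  exact h1

theorem ap_eq (H : T2) (n n' : ℝ × ℝ) : H.ap n n' = fun q =>
    H.a q * (n.1 * n'.1) + H.b q * (n.1 * n'.2 + n.2 * n'.1) + H.c q * (n.2 * n'.2) := by
  funext q; simp only [T2.ap]; ring

theorem sm_ap {H : T2} (hH : H.SmOn U) (n n' : ℝ × ℝ) : ContDiffOn ℝ ∞ (H.ap n n') U := by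
  rw [ap_eq]
  exact ((hH.1.mul contDiffOn_const).add (hH.2.1.mul contDiffOn_const)).add
    (hH.2.2.mul contDiffOn_const)

/-- The derivative of a field. -/
def DT (v : X) (H : T2) : T2 := ⟨D v H.a, D v H.b, D v H.c⟩

theorem sm_DT (hU : IsOpen U) (v : X) {H : T2} (hH : H.SmOn U) : (DT v H).SmOn U :=
  ⟨smO_D hU v hH.1, smO_D hU v hH.2.1, smO_D hU v hH.2.2⟩

theorem D_ap (hU : IsOpen U) (v : X) {H : T2} (hH : H.SmOn U) (n n' : ℝ × ℝ) :
    EqOn (D v (H.ap n n')) ((DT v H).ap n n') U := fun p hp => by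
  rw [ap_eq, ap_eq, D_comb v _ _ _ (diffAt hU hH.1 hp) (diffAt hU hH.2.1 hp)
    (diffAt hU hH.2.2 hp)]
  rfl

theorem DD_ap (hU : IsOpen U) (v : X) {H : T2} (hH : H.SmOn U) (n n' : ℝ × ℝ) :
    EqOn (D v (D v (H.ap n n'))) ((DT v (DT v H)).ap n n') U :=
  (D_congr hU v (D_ap hU v hH n n')).trans (D_ap hU v (sm_DT hU v hH) n n')

theorem D_sv (e : ℝ × ℝ) (f : X → ℝ) (p : X) :
    D (sv e) f p = e.1 * D e1 f p + e.2 * D e2 f p := by
  rw [← D_lin]
  congr 1
  simp [sv, e1, e2]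

theorem DD_sv (hU : IsOpen U) (hf : ContDiffOn ℝ ∞ f U) (e e' : ℝ × ℝ) (hp : p ∈ U) :
    D (sv e) (D (sv e') f) p = hb f e e' p := by
  have h1 : D (sv e') f = fun q => D e1 f q * e'.1 + D e2 f q * e'.2 + D e2 f q * 0 := by
    funext q; rw [D_sv]; ring
  have a1 := diffAt hU (smO_D hU e1 hf) hp
  have a2 := diffAt hU (smO_D hU e2 hf) hp
  rw [D_sv, h1, D_comb _ _ _ _ a1 a2 a2, D_comb _ _ _ _ a1 a2 a2, D_comm_on hU hf e2 e1 hp]
  simp only [hb, hs, T2.ap, h11, h12, h22]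
  ring

theorem sm_hs (hU : IsOpen U) (hf : ContDiffOn ℝ ∞ f U) : (hs f).SmOn U :=
  ⟨smO_D hU _ (smO_D hU _ hf), smO_D hU _ (smO_D hU _ hf), smO_D hU _ (smO_D hU _ hf)⟩

/-- The second derivative of `P - Q ^ 2 / S`. -/
theorem key (hU : IsOpen U) (v : X) {P Q S L M : X → ℝ} (hP : ContDiffOn ℝ ∞ P U)
    (hQ : ContDiffOn ℝ ∞ Q U) (hS : ContDiffOn ℝ ∞ S U) (hL : ContDiffOn ℝ ∞ L U)
    (h1 : EqOn (Q + L * S) (K 0) U) (h2 : EqOn M (P + L * Q) U) (hp : p ∈ U) :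
    D v (D v M) p + 2 * S p * D v L p ^ 2 =
      D v (D v P) p + 2 * L p * D v (D v Q) p + L p ^ 2 * D v (D v S) p := by
  have h3 : ∀ q ∈ U, D v Q q + (D v L q * S q + L q * D v S q) = 0 := fun q hq => by
    have h := D_congr hU v h1 hq
    rw [D_add_at v (diffAt hU hQ hq) ((diffAt hU hL hq).mul (diffAt hU hS hq)),
      D_mul_at v (diffAt hU hL hq) (diffAt hU hS hq), D_K] at h
    exact h
  have h4 : EqOn (D v M) (D v P + (L * D v Q + L * D v Q) + L * (L * D v S)) U := fun q hq => by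
    have h := D_congr hU v h2 hq
    rw [D_add_at v (diffAt hU hP hq) ((diffAt hU hL hq).mul (diffAt hU hQ hq)),
      D_mul_at v (diffAt hU hL hq) (diffAt hU hQ hq)] at h
    have a := h1 hq
    have b := h3 q hq
    simp only [Pi.add_apply, Pi.mul_apply, K_apply] at a ⊢
    rw [h]
    linear_combination D v L q * a - L q * b
  have dP := diffAt hU (smO_D hU v hP) hp
  have dQ := diffAt hU (smO_D hU v hQ) hp
  have dS := diffAt hU (smO_D hU v hS) hp
  have dL := diffAt hU hL hp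
  have h := D_congr hU v h4 hp
  rw [D_add_at v (dP.add ((dL.mul dQ).add (dL.mul dQ))) (dL.mul (dL.mul dS)),
    D_add_at v dP ((dL.mul dQ).add (dL.mul dQ)), D_add_at v (dL.mul dQ) (dL.mul dQ),
    D_mul_at v dL dQ, D_mul_at v dL (dL.mul dS), D_mul_at v dL dS] at h
  have b := h3 p hp
  simp only [Pi.mul_apply] at h
  rw [h]
  linear_combination 2 * D v L p * b

theorem sm_iv2 (A : Api d u) : (iv2 u).SmOn d.U := ⟨A.bi11.sm, A.bi12.sm, A.bi22.sm⟩

theorem W_eq (u : X → ℝ) (p : X) : W u p = h11 u p * h22 u p - h12 u p * h12 u p := rfl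

theorem ib_eq (u : X → ℝ) (n n' : ℝ × ℝ) (p : X) : ib u n n' p =
    (h22 u p * n.1 * n'.1 - h12 u p * (n.1 * n'.2 + n.2 * n'.1) + h11 u p * n.2 * n'.2) *
      (W u p)⁻¹ := by
  simp only [ib, iv2, T2.ap, i11, i12, i22, Pi.mul_apply, Pi.neg_apply, Iv_apply]
  ring

theorem hb_eq (u : X → ℝ) (n n' : ℝ × ℝ) (p : X) : hb u n n' p =
    h11 u p * n.1 * n'.1 + h12 u p * (n.1 * n'.2 + n.2 * n'.1) + h22 u p * n.2 * n'.2 := rfl

/-- The dual covectors. -/
theorem dual {e r h : ℝ × ℝ} (he : e ≠ 0) (h1 : h.1 * e.1 + h.2 * e.2 = 0)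
    (h2 : h.1 * r.1 + h.2 * r.2 = 1) : e.1 * r.2 - e.2 * r.1 ≠ 0 ∧
    h = (-e.2 / (e.1 * r.2 - e.2 * r.1), e.1 / (e.1 * r.2 - e.2 * r.1)) := by
  have a : h.1 * (e.1 * r.2 - e.2 * r.1) = -e.2 := by linear_combination r.2 * h1 - e.2 * h2
  have b : h.2 * (e.1 * r.2 - e.2 * r.1) = e.1 := by linear_combination e.1 * h2 - r.1 * h1
  have c : e.1 * r.2 - e.2 * r.1 ≠ 0 := fun h0 => by
    rw [h0] at a b
    exact he (Prod.ext (by simpa using b.symm) (by simpa using a))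
  exact ⟨c, Prod.ext (by simp only; field_simp; exact a) (by simp only; field_simp; exact b)⟩

theorem alg {e r : ℝ × ℝ} (hδ : e.1 * r.2 - e.2 * r.1 ≠ 0) (hW : W u p ≠ 0) :
    let δ := e.1 * r.2 - e.2 * r.1
    iq u (r.2 / δ, -r.1 / δ) p = hq u r p / (W u p * δ ^ 2) ∧
    ib u (r.2 / δ, -r.1 / δ) (-e.2 / δ, e.1 / δ) p = -hb u e r p / (W u p * δ ^ 2) ∧
    iq u (-e.2 / δ, e.1 / δ) p = hq u e p / (W u p * δ ^ 2) ∧
    hq u r p * hq u e p - hb u e r p ^ 2 = W u p * δ ^ 2 := by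
  intro δ
  have hδ' : δ ≠ 0 := hδ
  refine ⟨?_, ?_, ?_, ?_⟩
  · simp only [iq, hq, ib_eq, hb_eq]; field_simp; ring
  · simp only [ib_eq, hb_eq]; field_simp; ring
  · simp only [iq, hq, ib_eq, hb_eq]; field_simp; ring
  · simp only [hq, hb_eq, W_eq, δ]; ring

theorem last (A : Api d u) (G : GS d u F) (ht : t ∈ d.I) (he : e ≠ 0)
    (hJ : ∀ x ∈ J, y + x • e ∈ d.S) (r h : ℝ × ℝ) (h1 : h.1 * e.1 + h.2 * e.2 = 0)
    (h2 : h.1 * r.1 + h.2 * r.2 = 1) :
    (∀ x ∈ J, ∀ β : ℝ, ln t y e (hq u (r + β • e)) x = ln t y e (hq u e) x *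
      (β + ln t y e (hb u e r) x / ln t y e (hq u e) x) ^ 2 + (ln t y e (iq u h) x)⁻¹) ∧
    ∃ m' m'' l', C2On (fun x => (ln t y e (hq u e) x)⁻¹) m' m'' J ∧ ContinuousOn l' J ∧ ∀ x ∈ J,
      HasDerivAt (fun x => ln t y e (hb u e r) x / ln t y e (hq u e) x) (l' x) x ∧
      |m'' x + 2 * ln t y e (iq u h) x * l' x ^ 2| ≤ ln t y e F x := by
  obtain ⟨hδ, hh⟩ := dual he h1 h2
  have hU := d.isOpen_U
  set δ := e.1 * r.2 - e.2 * r.1 with hδe
  set n₀ : ℝ × ℝ := (r.2 / δ, -r.1 / δ) with hn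
  have al : ∀ p ∈ d.U, iq u n₀ p = hq u r p / (W u p * δ ^ 2) ∧
      ib u n₀ h p = -hb u e r p / (W u p * δ ^ 2) ∧ iq u h p = hq u e p / (W u p * δ ^ 2) ∧
      hq u r p * hq u e p - hb u e r p ^ 2 = W u p * δ ^ 2 := fun p hp => by
    rw [hh]; exact alg hδ (A.pW p hp).ne'
  have hne : ∀ p ∈ d.U, hq u e p ≠ 0 := fun p hp => (A.hqp p hp e he).1.ne'
  constructor
  · intro x hx β
    have hp : ((t, y + x • e) : X) ∈ d.U := ⟨ht, hJ x hx⟩
    obtain ⟨-, -, a3, a4⟩ := al _ hp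
    have a0 := hne _ hp
    have a5 : ∀ p, hq u (r + β • e) p = hq u r p + 2 * β * hb u e r p + β ^ 2 * hq u e p :=
      fun p => by
        simp only [hq, hb_eq, Prod.fst_add, Prod.snd_add, Prod.smul_fst, Prod.smul_snd,
          smul_eq_mul]
        ring
    simp only [ln]
    rw [a5, a3, ← a4, inv_div]
    field_simp
    ring
  · have sH := sm_hs hU A.sm
    have sM : ContDiffOn ℝ ∞ (Iv (hq u e)) d.U := (sm_ap sH e e).inv hne
    have sL : ContDiffOn ℝ ∞ (hb u e r * Iv (hq u e)) d.U := (sm_ap sH e r).mul sM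
    refine ⟨_, _, ln t y e (D (sv e) (hb u e r * Iv (hq u e))), c2 sM ht hJ,
      ln_cont (smO_D hU _ sL).continuousOn ht hJ, fun x hx => ⟨?_, ?_⟩⟩
    · have := ln_der (y := y) (e := e) sL ht (hJ x hx)
      simp only [div_eq_mul_inv]
      exact this
    · have hp : ((t, y + x • e) : X) ∈ d.U := ⟨ht, hJ x hx⟩
      have sI := sm_iv2 A
      have e1 : EqOn (ib u n₀ h + hb u e r * Iv (hq u e) * iq u h) (K 0) d.U := fun p hp => by
        obtain ⟨-, a2, a3, -⟩ := al _ hp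
        have a0 := hne _ hp
        have a1 := (A.pW p hp).ne'
        simp only [Pi.add_apply, Pi.mul_apply, Iv_apply, K_apply, a2, a3]
        field_simp
        ring
      have e2 : EqOn (Iv (hq u e)) (iq u n₀ + hb u e r * Iv (hq u e) * ib u n₀ h) d.U :=
        fun p hp => by
          obtain ⟨a1, a2, -, a4⟩ := al _ hp
          have a0 := hne _ hp
          have a5 := (A.pW p hp).ne'
          simp only [Pi.add_apply, Pi.mul_apply, Iv_apply, a1, a2]
          field_simp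
          linear_combination -a4
      have k := key hU (sv e) (sm_ap sI n₀ n₀) (sm_ap sI n₀ h) (sm_ap sI h h) sL e1 e2 hp
      rw [DD_ap hU _ sI _ _ hp, DD_ap hU _ sI _ _ hp, DD_ap hU _ sI _ _ hp] at k
      set p : X := (t, y + x • e) with hpe
      set l := (hb u e r * Iv (hq u e)) p with hl
      have f1 := G.f1 p hp e (n₀ + l • h)
      have b1 : D (sv e) (D (sv e) (iq u (n₀ + l • h))) p =
          D (sv e) (D (sv e) (Iv (hq u e))) p +
            2 * iq u h p * D (sv e) (hb u e r * Iv (hq u e)) p ^ 2 := by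
        refine (DD_ap hU _ sI _ _ hp).trans (Eq.trans ?_ k.symm)
        simp only [T2.ap, Prod.fst_add, Prod.snd_add, Prod.smul_fst, Prod.smul_snd, smul_eq_mul]
        ring
      have b2 : iq u (n₀ + l • h) p = (hq u e p)⁻¹ := by
        have c1 : ib u n₀ h p + l * iq u h p = 0 := e1 hp
        have c2 : (hq u e p)⁻¹ = iq u n₀ p + l * ib u n₀ h p := e2 hp
        have c3 : iq u (n₀ + l • h) p = iq u n₀ p + 2 * l * ib u n₀ h p + l ^ 2 * iq u h p := by
          simp only [iq, ib, T2.ap, Prod.fst_add, Prod.snd_add, Prod.smul_fst, Prod.smul_snd,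
            smul_eq_mul]
          ring
        rw [c2, c3]
        linear_combination l * c1
      rw [b1, b2, mul_assoc (F p), inv_mul_cancel₀ (hne p hp), mul_one] at f1
      exact f1

end T1

open T1 in
theorem t1_ok (h1 : StApi) (h2 : StAlg) : StT1 := by
  intro d u F t y e J G ht he hJ
  have A := h1 d u G.toGS0
  have hU := d.isOpen_U
  have hm : ∀ x ∈ J, ((t, y + x • e) : X) ∈ d.U := fun x hx => ⟨ht, hJ x hx⟩
  refine ⟨c2_congr (c2 A.sm ht hJ) fun x hx => A.hqD _ (hm x hx) e e,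
    c2_congr (c2 G.bd.sm ht hJ) fun x hx => ?_, fun e' x hx => ?_,
    fun e' => ln_cont (sm_ap (sm_hs hU A.sm) e e').continuousOn ht hJ, ln_cont G.lcF.cont ht hJ,
    fun n n' => ⟨_, _, c2 (sm_ap (sm_iv2 A) n n') ht hJ, fun x hx => ?_⟩, ?_,
    last A G ht he hJ⟩
  · have hp := hm x hx
    simp only [ln]
    rw [DD_sv hU G.bd.sm e e hp]
    simp only [hq, hb_eq, hq0, A.q11 _ hp, A.q12 _ hp, A.q22 _ hp]
    ring
  · have := ln_der (y := y) (e := e) (smO_D hU (sv e') A.sm) ht (hJ x hx)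
    have h3 : ln t y e (D (sv e) (D (sv e') u)) x = ln t y e (hb u e e') x :=
      A.hqD _ (hm x hx) e e'
    rwa [h3] at this
  · have hp := hm x hx
    simp only [ln]
    set p : X := (t, y + x • e) with hpe
    have sI := sm_iv2 A
    have hk : 0 ≤ F p * hq u e p :=
      mul_nonneg ((abs_nonneg _).trans (G.f2 p hp)) (A.hqp p hp e he).1.le
    have q1 : ∀ (H : T2) (m : ℝ × ℝ), qx (H.a p) (H.b p) (H.c p) m = H.ap m m p := fun H m => by
      simp only [qx, T2.ap]; ring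
    have h3 := h2.2.2.2.2 ((iv2 u).a p) ((iv2 u).b p) ((iv2 u).c p)
      ((DT (sv e) (DT (sv e) (iv2 u))).a p) ((DT (sv e) (DT (sv e) (iv2 u))).b p)
      ((DT (sv e) (DT (sv e) (iv2 u))).c p) (F p * hq u e p) (fun m => by
        rw [q1, q1, ← DD_ap hU _ sI m m hp]
        exact (G.f1 p hp e m).trans (le_of_eq (by simp only [iq, ib]; ring))) n n'
    rw [q1, q1, mul_assoc ((F p * hq u e p) ^ 2)] at h3
    have h4 := Real.abs_le_sqrt h3
    rw [Real.sqrt_mul (sq_nonneg _), Real.sqrt_sq hk] at h4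
    have h5 : D (sv e) (D (sv e) (ib u n n')) p = _ := DD_ap hU _ sI n n' hp
    rw [h5]
    exact h4.trans (le_of_eq (by simp only [iq, ib]; ring))
  · have hn : e.1 ^ 2 + e.2 ^ 2 ≠ 0 := fun h0 => he (Prod.ext
      (by simpa using (by nlinarith [sq_nonneg e.1, sq_nonneg e.2] : e.1 ^ 2 = 0))
      (by simpa using (by nlinarith [sq_nonneg e.1, sq_nonneg e.2] : e.2 ^ 2 = 0)))
    have hh : ((-e.2, e.1) : ℝ × ℝ) ≠ 0 := fun h0 => by
      have a := congrArg Prod.fst h0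
      have b := congrArg Prod.snd h0
      exact he (Prod.ext (by simpa using b) (by simpa using a))
    obtain ⟨-, m', m'', l', c, -, h3⟩ := last A G ht he hJ
      (-e.2 / (e.1 ^ 2 + e.2 ^ 2), e.1 / (e.1 ^ 2 + e.2 ^ 2)) (-e.2, e.1) (by simp only; ring)
      (by simp only; field_simp; ring)
    refine ⟨m', m'', c, fun x hx => ?_⟩
    have a := (le_abs_self _).trans (h3 x hx).2
    have b : 0 < ln t y e (iq u (-e.2, e.1)) x := (A.hqp _ (hm x hx) _ hh).2
    nlinarith [mul_nonneg b.le (sq_nonneg (l' x))]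

end Pool.Agent.P.MP_2cea5e_gt.I
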