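import Pool.Agent.P.MP_2cea5e_gt.I.St3

/-!
Chapter I: Taylor expansion on the real slice.
-/

open scoped ContDiff Topology
open MeasureTheory Set Filter

noncomputable section

set_option linter.dupNamespace false

namespace Pool.Agent.P.MP_2cea5e_gt.I

namespace Tay

theorem step {g g' : ℝ → ℝ} {M : ℝ} (h : ∀ s, HasDerivAt g (g' s) s)
    (hM : ∀ s ∈ Icc (0 : ℝ) 1, |g' s| ≤ M) : ∀ s ∈ Icc (0 : ℝ) 1, |g s - g 0| ≤ M := by
  intro s hs
  have h0 : 0 ≤ M := (abs_nonneg _).trans (hM 0 ⟨le_rfl, zero_le_one⟩)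
  have := norm_image_sub_le_of_norm_deriv_le_segment' (f := g) (f' := g') (a := 0) (b := 1) (C := M)
    (fun x _ => (h x).hasDerivWithinAt) (fun x hx => hM x ⟨hx.1, hx.2.le⟩) s hs
  rw [Real.norm_eq_abs] at this
  nlinarith [hs.1, hs.2]

theorem tay3 {g0 g1 g2 g3 : ℝ → ℝ} {M : ℝ} (h0 : ∀ s, HasDerivAt g0 (g1 s) s)
    (h1 : ∀ s, HasDerivAt g1 (g2 s) s) (h2 : ∀ s, HasDerivAt g2 (g3 s) s)
    (hM : ∀ s ∈ Icc (0 : ℝ) 1, |g3 s| ≤ M) : |g0 1 - (g0 0 + g1 0 + g2 0 / 2)| ≤ M := by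
  have a2 := step h2 hM
  have a1 := step (g := fun s => g1 s - s * g2 0) (g' := fun s => g2 s - g2 0)
    (fun s => ((h1 s).sub ((hasDerivAt_id s).mul_const (g2 0))).congr_deriv (by ring)) a2
  have a0 := step (g := fun s => g0 s - s * g1 0 - s ^ 2 / 2 * g2 0)
    (g' := fun s => g1 s - s * g2 0 - (g1 0 - 0 * g2 0))
    (fun s => (((h0 s).sub ((hasDerivAt_id s).mul_const (g1 0))).sub
        (((hasDerivAt_pow 2 s).div_const 2).mul_const (g2 0))).congr_deriv (by simp; ring)) a1 1 ⟨zero_le_one, le_rfl⟩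
  convert a0 using 2
  ring

theorem sm_pd {f : C2 → ℝ} (hf : ContDiff ℝ ∞ f) (i : Fin 4) : ContDiff ℝ ∞ (pd i f) :=
  (ContDiff.fderiv_right hf (m := ∞) (by simp)).clm_apply contDiff_const

/-- The point with real coordinates `a`, `b`. -/
def pt (a b : ℝ) : C2 := a • dir 0 + b • dir 2

theorem pt_eq (a b : ℝ) : pt a b = ![(a : ℂ), (b : ℂ)] := by
  funext i
  fin_cases i <;> simp [pt, dir]

theorem line {f : C2 → ℝ} (hf : ContDiff ℝ ∞ f) (a b s : ℝ) :
    HasDerivAt (fun s : ℝ => f (s • pt a b))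
      (a * pd 0 f (s • pt a b) + b * pd 2 f (s • pt a b)) s := by
  have h : HasDerivAt (fun s : ℝ => s • pt a b) (pt a b) s := by
    simpa using (hasDerivAt_id s).smul_const (pt a b)
  refine (((hf.differentiable (by simp)) (s • pt a b)).hasFDerivAt.comp_hasDerivAt s h).congr_deriv ?_
  generalize s • pt a b = Z
  simp [pt, pd]

theorem par {f : C2 → ℝ} (hf : ContDiff ℝ ∞ f) (σ : C2 →L[ℝ] C2) {ε δ : ℝ} {i : Fin 4}
    (hδ : δ * δ = 1) (hσ : σ (dir i) = δ • dir i) (h : ∀ Z, f (σ Z) = ε * f Z) (Z : C2) :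
    pd i f (σ Z) = (ε * δ) * pd i f Z := by
  have hd := hf.differentiable (by simp)
  have h1 := ((hd (σ Z)).hasFDerivAt.comp Z σ.hasFDerivAt).fderiv
  have h2 : f ∘ σ = fun Z => ε * f Z := funext h
  have h3 := ((hd Z).hasFDerivAt.const_mul ε).fderiv
  rw [h2, h3] at h1
  have h4 := congrArg (fun L : C2 →L[ℝ] ℝ => L (dir i)) h1
  simp only [ContinuousLinearMap.comp_apply, hσ, map_smul, smul_eq_mul,
    smul_apply] at h4
  simp only [pd]
  linear_combination (-δ) * h4 - (fderiv ℝ f (σ Z)) (dir i) * hδ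

theorem odd0 {f : C2 → ℝ} (σ : C2 →L[ℝ] C2) {ε : ℝ} (hε : ε = -1) (h : ∀ Z, f (σ Z) = ε * f Z) :
    f 0 = 0 := by
  have := h 0
  rw [map_zero, hε] at this
  linarith

theorem van {v : C2 → ℝ} (hv : ContDiff ℝ ∞ v) (σ : C2 →L[ℝ] C2) {i j : Fin 4}
    (hi : σ (dir i) = (-1 : ℝ) • dir i) (hj : σ (dir j) = (1 : ℝ) • dir j)
    (h : ∀ Z, v (σ Z) = v Z) : pd i v 0 = 0 ∧ pd j (pd i v) 0 = 0 ∧ pd i (pd j v) 0 = 0 := by
  have h0 : ∀ Z, v (σ Z) = 1 * v Z := fun Z => by rw [h, one_mul]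
  have h1 := par hv σ (by norm_num) hi h0
  have h2 := par hv σ (by norm_num) hj h0
  exact ⟨odd0 σ (by norm_num) h1, odd0 σ (by norm_num) (par (sm_pd hv i) σ (by norm_num) hj h1),
    odd0 σ (by norm_num) (par (sm_pd hv j) σ (by norm_num) hi h2)⟩

/-- Reflection of the first coordinate. -/
def s1 : C2 →L[ℝ] C2 :=
  ContinuousLinearMap.pi ![-ContinuousLinearMap.proj 0, ContinuousLinearMap.proj 1]
/-- Reflection of the second coordinate. -/
def s2 : C2 →L[ℝ] C2 :=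
  ContinuousLinearMap.pi ![ContinuousLinearMap.proj 0, -ContinuousLinearMap.proj 1]

theorem s1_eq (Z : C2) : s1 Z = ![-Z 0, Z 1] := by
  funext i
  fin_cases i <;> simp [s1]

theorem s2_eq (Z : C2) : s2 Z = ![Z 0, -Z 1] := by
  funext i
  fin_cases i <;> simp [s2]

theorem th_lt {b : Bool} {r x : ℝ} (hr : 0 < r) (hx : x ∈ iv b r) : |th b x| < 2 * r := by
  cases b
  · simp only [iv, th, Bool.false_eq_true, if_false] at hx ⊢
    rw [abs_lt]
    constructor <;> linarith [hx.1, hx.2]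
  · simp only [iv, th, if_true] at hx ⊢
    have : √x < r := (Real.sqrt_lt' hr).mpr hx.2
    rw [abs_of_nonneg (by positivity)]
    linarith

theorem th_sq {r x : ℝ} (hx : x ∈ iv true r) : th true x ^ 2 = 4 * x := by
  simp only [iv, th, if_true] at hx ⊢
  rw [mul_pow, Real.sq_sqrt hx.1.le]
  norm_num

theorem comb {a b x y R A : ℝ} (ha : |a| ≤ R) (hb : |b| ≤ R) (hx : |x| ≤ A) (hy : |y| ≤ A) :
    |a * x + b * y| ≤ 2 * R * A := by
  have h1 := mul_le_mul ha hx (abs_nonneg _) ((abs_nonneg _).trans ha)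
  have h2 := mul_le_mul hb hy (abs_nonneg _) ((abs_nonneg _).trans hb)
  have := abs_add_le (a * x) (b * y)
  rw [abs_mul, abs_mul] at this
  linarith

theorem main {v : C2 → ℝ} {A r a b : ℝ} (hv : ContDiff ℝ ∞ v)
    (hA : ∀ Z ∈ Metric.ball (0 : C2) (1 / 8), ∀ l : List (Fin 4), l.length ≤ 3 → |pdl l v Z| ≤ A)
    (hr : r ≤ 1 / 16) (ha : |a| < 2 * r) (hb : |b| < 2 * r) :
    |v (pt a b) - (v 0 + (a * pd 0 v 0 + b * pd 2 v 0) +
      (a * (a * pd 0 (pd 0 v) 0 + b * pd 2 (pd 0 v) 0) +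
        b * (a * pd 0 (pd 2 v) 0 + b * pd 2 (pd 2 v) 0)) / 2)| ≤ 64 * A * r ^ 3 := by
  have l1 := fun i => line (sm_pd hv i) a b
  have l2 := fun i j => line (sm_pd (sm_pd hv j) i) a b
  have key := tay3 (M := 2 * (2 * r) * (2 * (2 * r) * (2 * (2 * r) * A))) (line hv a b)
    (fun s => ((l1 0 s).const_mul a).add ((l1 2 s).const_mul b))
    (fun s => ((((l2 0 0 s).const_mul a).add ((l2 2 0 s).const_mul b)).const_mul a).add
      ((((l2 0 2 s).const_mul a).add ((l2 2 2 s).const_mul b)).const_mul b)) (fun s hs => ?_)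
  · simp only [one_smul, zero_smul] at key
    exact key.trans_eq (by ring)
  · have hZ : s • pt a b ∈ Metric.ball (0 : C2) (1 / 8) := by
      have : ‖pt a b‖ < 1 / 8 := by
        rw [pt_eq, pi_norm_lt_iff (by norm_num)]
        intro i
        fin_cases i
        · simpa using ha.trans_le (by linarith)
        · simpa using hb.trans_le (by linarith)
      rw [mem_ball_zero_iff, norm_smul, Real.norm_eq_abs, abs_of_nonneg hs.1]
      nlinarith [hs.1, hs.2, norm_nonneg (pt a b)]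
    have h3 : ∀ i j k, |pd i (pd j (pd k v)) (s • pt a b)| ≤ A := fun i j k =>
      hA _ hZ [i, j, k] le_rfl
    have c := fun j k => comb ha.le hb.le (h3 0 j k) (h3 2 j k)
    exact comb ha.le hb.le (comb ha.le hb.le (c _ _) (c _ _)) (comb ha.le hb.le (c _ _) (c _ _))

end Tay

open Tay in
theorem tay_ok : StTay := by
  refine ⟨64, by norm_num, fun τ v A hv hA e1 e2 => ?_⟩
  have hz : (0 : C2) ∈ Metric.ball (0 : C2) (1 / 8) := Metric.mem_ball_self (by norm_num)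
  have b0 : |v 0| ≤ A := hA 0 hz [] (by simp)
  have b1 : ∀ i, |pd i v 0| ≤ A := fun i => hA 0 hz [i] (by simp)
  have b2 : ∀ i j, |pd i (pd j v) 0| ≤ A := fun i j => hA 0 hz [i, j] (by simp)
  have h0 : 0 ≤ A := (abs_nonneg _).trans b0
  have v1 : τ.1 = true → pd 0 v 0 = 0 ∧ pd 2 (pd 0 v) 0 = 0 ∧ pd 0 (pd 2 v) 0 = 0 := fun h =>
    van hv s1 (by rw [s1_eq]; funext i; fin_cases i <;> simp [dir])
      (by rw [s1_eq]; funext i; fin_cases i <;> simp [dir]) fun Z => by rw [s1_eq]; exact e1 h Z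
  have v2 : τ.2 = true → pd 2 v 0 = 0 ∧ pd 0 (pd 2 v) 0 = 0 ∧ pd 2 (pd 0 v) 0 = 0 := fun h =>
    van hv s2 (by rw [s2_eq]; funext i; fin_cases i <;> simp [dir])
      (by rw [s2_eq]; funext i; fin_cases i <;> simp [dir]) fun Z => by rw [s2_eq]; exact e2 h Z
  have bl : ∀ (b : Bool) (i : Fin 4),
      |if b then 2 * pd i (pd i v) 0 else pd i v 0| ≤ 64 * A := fun b i => by
    cases b
    · simpa using (b1 i).trans (by linarith)
    · have := b2 i i
      simp only [if_true, abs_mul, abs_two]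
      linarith
  have bq : ∀ (b : Bool) (i : Fin 4), |if b then 0 else pd i (pd i v) 0| ≤ 64 * A := fun b i => by
    cases b
    · simpa using (b2 i i).trans (by linarith)
    · simpa using h0
  refine ⟨v 0, if τ.1 then 2 * pd 0 (pd 0 v) 0 else pd 0 v 0,
    if τ.2 then 2 * pd 2 (pd 2 v) 0 else pd 2 v 0, if τ.1 then 0 else pd 0 (pd 0 v) 0,
    (pd 2 (pd 0 v) 0 + pd 0 (pd 2 v) 0) / 2, if τ.2 then 0 else pd 2 (pd 2 v) 0,
    ⟨by linarith, bl _ _, bl _ _, bq _ _, ?_, bq _ _⟩,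
    fun h => ⟨by simp [h], by simp [v1 h]⟩, fun h => ⟨by simp [h], by simp [v2 h]⟩,
    fun r hr0 hr y hy => ?_⟩
  · have := abs_add_le (pd 2 (pd 0 v) 0) (pd 0 (pd 2 v) 0)
    rw [abs_div, abs_two]
    linarith [b2 2 0, b2 0 2]
  · have key := main hv hA hr (th_lt hr0 hy.1) (th_lt hr0 hy.2)
    rw [pt_eq] at key
    refine le_of_eq_of_le ?_ key
    obtain ⟨τ1, τ2⟩ := τ
    obtain ⟨hy1, hy2⟩ := hy
    congr 2
    cases τ1 <;> cases τ2
    · simp only [qp, th, Bool.false_eq_true, if_false]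
      ring
    · obtain ⟨a1, a2, a3⟩ := v2 rfl
      have := th_sq hy2
      simp only [qp, Bool.false_eq_true, if_false, if_true, a1, a2, a3]
      rw [show th false y.1 = y.1 from rfl]
      linear_combination (-pd 2 (pd 2 v) 0 / 2) * this
    · obtain ⟨a1, a2, a3⟩ := v1 rfl
      have := th_sq hy1
      simp only [qp, Bool.false_eq_true, if_false, if_true, a1, a2, a3]
      rw [show th false y.2 = y.2 from rfl]
      linear_combination (-pd 0 (pd 0 v) 0 / 2) * this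
    · obtain ⟨a1, a2, a3⟩ := v1 rfl
      obtain ⟨a4, -, -⟩ := v2 rfl
      have t1 := th_sq hy1
      have t2 := th_sq hy2
      simp only [qp, if_true, a1, a2, a3, a4]
      linear_combination (-pd 0 (pd 0 v) 0 / 2) * t1 + (-pd 2 (pd 2 v) 0 / 2) * t2

end Pool.Agent.P.MP_2cea5e_gt.I
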