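import Pool.Agent.P.MP_2cea5e_gt.I.St5

/-!
Chapter I: transition between the moment coordinates of two charts.
-/

open scoped ContDiff Topology ComplexOrder
open MeasureTheory Set Filter

noncomputable section

set_option linter.dupNamespace false

namespace Pool.Agent.P.MP_2cea5e_gt.I

namespace Trans

theorem det_abs {m : Matrix (Fin 2) (Fin 2) ℤ} (h : IsUnit m.det) :
    |(m 0 0 : ℝ) * m 1 1 - m 0 1 * m 1 0| = 1 := by
  rw [Matrix.det_fin_two] at h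
  have : (m 0 0 : ℝ) * m 1 1 - m 0 1 * m 1 0 = ((m 0 0 * m 1 1 - m 0 1 * m 1 0 : ℤ) : ℝ) := by
    push_cast; ring
  rw [this]
  rcases Int.isUnit_iff.1 h with e | e <;> rw [e] <;> simp

theorem det_inv {m : Matrix (Fin 2) (Fin 2) ℤ} (h : IsUnit m.det) :
    ∃ k : ℝ, |k| = 1 ∧ k * ((m 0 0 : ℝ) * m 1 1 - m 0 1 * m 1 0) = 1 :=
  ⟨_, det_abs h, by rw [← abs_mul_abs_self, det_abs h, mul_one]⟩

theorem mz_surj {m : Matrix (Fin 2) (Fin 2) ℤ} (h : IsUnit m.det) : Function.Surjective (mz m) := by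
  intro ζ
  obtain ⟨k, -, hk⟩ := det_inv h
  refine ⟨(k * (m 1 1 * ζ.1 - m 0 1 * ζ.2), k * (m 0 0 * ζ.2 - m 1 0 * ζ.1)), ?_⟩
  ext
  · simp only [mz]; linear_combination ζ.1 * hk
  · simp only [mz]; linear_combination ζ.2 * hk

theorem mon_ez (m : Matrix (Fin 2) (Fin 2) ℤ) (ξ : ℝ × ℝ) : mon m (ez ξ) = ez (mz m ξ) := by
  have e : ∀ j : Fin 2, mon m (ez ξ) j =
      (Real.exp (((m j 0 : ℝ) * ξ.1 + (m j 1 : ℝ) * ξ.2) / 2) : ℂ) := fun j => by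
    simp only [mon, ez, Fin.prod_univ_two, Matrix.cons_val_zero, Matrix.cons_val_one,
      ← Complex.ofReal_zpow, ← Complex.ofReal_mul, ← Real.rpow_intCast, ← Real.exp_mul,
      ← Real.exp_add]
    congr 2
    ring
  funext j
  rw [e]
  fin_cases j <;> rfl

theorem mon_ne (m : Matrix (Fin 2) (Fin 2) ℤ) {w : C2} (hw : ∀ k, w k ≠ 0) (j : Fin 2) :
    mon m w j ≠ 0 :=
  Finset.prod_ne_zero_iff.2 fun k _ => zpow_ne_zero _ (hw k)

theorem lz_mon (m : Matrix (Fin 2) (Fin 2) ℤ) {w : C2} (hw : ∀ k, w k ≠ 0) :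
    lz (mon m w) = mz m (lz w) := by
  have e : ∀ j : Fin 2, Real.log (‖mon m w j‖ ^ 2) =
      m j 0 * Real.log (‖w 0‖ ^ 2) + m j 1 * Real.log (‖w 1‖ ^ 2) := fun j => by
    simp only [mon, Fin.prod_univ_two, norm_mul, norm_zpow, Real.log_pow]
    rw [Real.log_mul (zpow_ne_zero _ (norm_ne_zero_iff.2 (hw 0)))
      (zpow_ne_zero _ (norm_ne_zero_iff.2 (hw 1))), Real.log_zpow, Real.log_zpow]
    ring
  exact Prod.ext (e 0) (e 1)

theorem dline {I : Set ℝ} {Φ : X → ℝ} (h : PotI I Φ) {t : ℝ} (ht : t ∈ I) (ζ : ℝ × ℝ) (a b : ℝ) :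
    HasDerivAt (fun s : ℝ => Φ (t, ζ.1 + s * a, ζ.2 + s * b))
      (a * D e1 Φ (t, ζ) + b * D e2 Φ (t, ζ)) 0 := by
  have hd : DifferentiableAt ℝ Φ ((t, ζ) + (0 : ℝ) • (a • e1 + b • e2)) := by
    rw [zero_smul, add_zero]
    exact diffAt (h.oI.prod isOpen_univ) h.sm ⟨ht, trivial⟩
  have := hasDerivAt_ln (a • e1 + b • e2) (t, ζ) hd
  rw [zero_smul, add_zero, D_lin] at this
  convert this using 3 with s
  ext <;> simp [e1, e2]

theorem sp_inj (fr : Fr) : Function.Injective fr.sp := by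
  intro y y' h
  have h1 := congrArg Prod.fst h
  have h2 := congrArg Prod.snd h
  simp only [Fr.sp, Fr.S, Prod.fst_add, Prod.snd_add] at h1 h2
  have k1 : (fr.a * fr.e - fr.b * fr.c) * (y.1 - y'.1) = 0 := by
    linear_combination fr.e * h1 - fr.b * h2
  have k2 : (fr.a * fr.e - fr.b * fr.c) * (y.2 - y'.2) = 0 := by
    linear_combination fr.a * h2 - fr.c * h1
  exact Prod.ext (sub_eq_zero.1 ((mul_eq_zero.1 k1).resolve_left fr.det_ne))
    (sub_eq_zero.1 ((mul_eq_zero.1 k2).resolve_left fr.det_ne))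

theorem main {m m' : Matrix (Fin 2) (Fin 2) ℤ} (hm : IsUnit m.det) (hm' : IsUnit m'.det)
    {f f' : ℝ × C2 → ℝ} {I : Set ℝ} (h : PotI I (lg f)) (h' : PotI I (lg f')) {a : ℝ}
    {b : Fin 2 → ℝ} (hg : ∀ t ∈ I, ∀ w : C2, (∀ k, w k ≠ 0) →
      f (t, mon m w) - f' (t, mon m' w) = a + ∑ k, b k * Real.log ‖w k‖) :
    ∃ fr, Tr m m' f f' I fr := by
  obtain ⟨k, hk1, hk⟩ := det_inv hm
  have key : ∀ t ∈ I, ∀ ξ : ℝ × ℝ,
      lg f (t, mz m ξ) - lg f' (t, mz m' ξ) = a + (b 0 * (ξ.1 / 2) + b 1 * (ξ.2 / 2)) := by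
    intro t ht ξ
    have := hg t ht (ez ξ) fun k => by fin_cases k <;> simp [ez]
    rw [mon_ez, mon_ez] at this
    refine this.trans ?_
    simp only [Fin.sum_univ_two, ez, Matrix.cons_val_zero, Matrix.cons_val_one, Complex.norm_real,
      Real.norm_eq_abs, Real.abs_exp, Real.log_exp]
  have der : ∀ t ∈ I, ∀ (ξ : ℝ × ℝ) (c₁ c₂ : ℝ),
      ((m 0 0 * c₁ + m 0 1 * c₂) * D e1 (lg f) (t, mz m ξ) +
        (m 1 0 * c₁ + m 1 1 * c₂) * D e2 (lg f) (t, mz m ξ)) -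
      ((m' 0 0 * c₁ + m' 0 1 * c₂) * D e1 (lg f') (t, mz m' ξ) +
        (m' 1 0 * c₁ + m' 1 1 * c₂) * D e2 (lg f') (t, mz m' ξ)) =
      b 0 * (c₁ / 2) + b 1 * (c₂ / 2) := by
    intro t ht ξ c₁ c₂
    have d1 := (dline h ht (mz m ξ) (m 0 0 * c₁ + m 0 1 * c₂) (m 1 0 * c₁ + m 1 1 * c₂)).sub
      (dline h' ht (mz m' ξ) (m' 0 0 * c₁ + m' 0 1 * c₂) (m' 1 0 * c₁ + m' 1 1 * c₂))
    have d2 : HasDerivAt (fun s : ℝ => a + (b 0 * ((ξ.1 + s * c₁) / 2) +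
        b 1 * ((ξ.2 + s * c₂) / 2))) (b 0 * (c₁ / 2) + b 1 * (c₂ / 2)) 0 := by
      have q : ∀ x c : ℝ, HasDerivAt (fun s : ℝ => (x + s * c) / 2) (c / 2) 0 := fun x c => by
        simpa using (((hasDerivAt_id (0 : ℝ)).mul_const c).const_add x).div_const 2
      exact (((q _ _).const_mul _).add ((q _ _).const_mul _)).const_add a
    refine d1.unique (d2.congr_of_eventuallyEq (Eventually.of_forall fun s => ?_))
    have := key t ht (ξ.1 + s * c₁, ξ.2 + s * c₂)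
    refine Eq.trans ?_ this
    simp only [Pi.sub_apply, mz]
    congr 4 <;> ring
  have hd : |k * (m 1 1 * m' 0 0 - m 1 0 * m' 0 1) * (k * (m 0 0 * m' 1 1 - m 0 1 * m' 1 0)) -
      k * (m 1 1 * m' 1 0 - m 1 0 * m' 1 1) * (k * (m 0 0 * m' 0 1 - m 0 1 * m' 0 0))| = 1 := by
    rw [show _ - _ = k * ((m' 0 0 : ℝ) * m' 1 1 - m' 0 1 * m' 1 0) by
      linear_combination k * ((m' 0 0 : ℝ) * m' 1 1 - m' 0 1 * m' 1 0) * hk, abs_mul, hk1,
      det_abs hm', mul_one]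
  refine ⟨⟨0, 1, (k * (m 1 1 * (b 0 / 2) - m 1 0 * (b 1 / 2)),
      k * (m 0 0 * (b 1 / 2) - m 0 1 * (b 0 / 2))),
    k * (m 1 1 * m' 0 0 - m 1 0 * m' 0 1), k * (m 1 1 * m' 1 0 - m 1 0 * m' 1 1),
    k * (m 0 0 * m' 0 1 - m 0 1 * m' 0 0), k * (m 0 0 * m' 1 1 - m 0 1 * m' 1 0), -a, 0, 0,
    one_pos, fun e => ?_⟩, rfl, rfl, hd, rfl, rfl, fun t ht ξ => ?_, fun t ht ξ => ?_⟩
  · rw [e] at hd
    simp at hd
  · have k1 := der t ht ξ 1 0
    have k2 := der t ht ξ 0 1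
    ext
    · simp only [gr, grad, Fr.sp, Fr.S, Prod.fst_add]
      linear_combination k * (m 1 1 : ℝ) * k1 - k * (m 1 0 : ℝ) * k2 -
        D e1 (lg f) (t, mz m ξ) * hk
    · simp only [gr, grad, Fr.sp, Fr.S, Prod.snd_add]
      linear_combination k * (m 0 0 : ℝ) * k2 - k * (m 0 1 : ℝ) * k1 -
        D e2 (lg f) (t, mz m ξ) * hk
  · have k1 := der t ht ξ ξ.1 ξ.2
    have k2 := key t ht ξ
    simp only [UU, Pi.sub_apply, Pi.add_apply, Pi.mul_apply, Li_apply]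
    simp only [mz] at k1 k2 ⊢
    linear_combination k2 - k1

end Trans

theorem trans_ok (h : StLog) : StTrans :=
  ⟨fun m hm => ⟨Trans.mz_surj hm, Trans.mon_ez m,
      fun _ hw => ⟨Trans.mon_ne m hw, Trans.lz_mon m hw⟩⟩,
    fun _ _ _ _ hm hf σ τ =>
      let ⟨_, _, hg⟩ := hf.glue σ τ
      Trans.main (hm.unimod σ) (hm.unimod τ) (h _ _ (hf.c1 σ)).pot (h _ _ (hf.c1 τ)).pot hg⟩

theorem glc_ok : StGLc := by
  intro ι _ m f T d u σ fr hm hT h hb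
  have lp := fun τ => (h τ).1
  have hI := fun τ => (h τ).2.1
  have lg' := fun τ => (h τ).2.2.1
  have tr := fun τ => (h τ).2.2.2
  have ht : T / 2 ∈ Ioo 0 T := ⟨by linarith, by linarith⟩
  have rg : ∀ τ, ∀ t ∈ Ioo 0 T, ∀ y, y ∈ (d τ).S ↔ ∃ ξ, gr (lg (f τ)) t (mz (m τ) ξ) = y := by
    intro τ t ht' y
    rw [← (lg' τ).rg t (by rw [hI]; exact ht')]
    exact (Trans.mz_surj (hm.unimod τ)).exists
  refine ⟨(lg' σ).gs, hb, fun τ => (lg' τ).gs, fun τ => by rw [hI, hI], fun τ => (tr τ).t1,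
    fun τ => (tr τ).ρ, fun τ => (tr τ).det, fun τ => ?_, fun τ => ?_, ?_⟩
  · ext y
    rw [mem_preimage, rg τ _ ht, rg σ _ ht]
    refine exists_congr fun ξ => ?_
    rw [(tr τ).gr _ ht, (Trans.sp_inj _).eq_iff]
  · rintro ⟨t, y⟩ ⟨h1, h2⟩
    have h1' : t ∈ Ioo 0 T := hI τ ▸ h1
    obtain ⟨ξ, rfl⟩ := (rg τ t h1' y).1 h2
    have e1 := (lg' τ).eq (t, mz (m τ) ξ) h1
    have e2 := (lg' σ).eq (t, mz (m σ) ξ) (by rw [hI]; exact h1')
    have e3 := (tr τ).gr t h1' ξ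
    have e4 := (tr τ).uu t h1' ξ
    simp only [gr] at e3 ⊢
    simp only [Fr.pull, Fr.fm, Fr.tm, af, (tr τ).t1, (tr τ).ρ, (tr τ).l1, (tr τ).l2, ← e3]
    rw [e1, e4, one_pow, one_mul, zero_add, e2]
    ring
  · have hc : ∀ ρ, IsCompact ((fr ρ).sp '' (mm (f ρ) '' ({T / 2} ×ˢ (Icc 0 1 ×ˢ Icc 0 1)))) := by
      intro ρ
      have ho : IsOpen (Ioo 0 T ×ˢ (univ : Set (ℝ × ℝ))) := isOpen_Ioo.prod isOpen_univ
      have c1 := (smO_D ho e1 (lp ρ).smr).continuousOn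
      have c2 := (smO_D ho e2 (lp ρ).smr).continuousOn
      have c3 : ContinuousOn (mm (f ρ)) (Ioo 0 T ×ˢ univ) :=
        (((continuous_fst.comp continuous_snd).continuousOn.mul c1).div_const 2).prodMk
          (((continuous_snd.comp continuous_snd).continuousOn.mul c2).div_const 2)
      exact ((isCompact_singleton.prod (isCompact_Icc.prod isCompact_Icc)).image_of_continuousOn
        (c3.mono (prod_mono (singleton_subset_iff.2 ht) (subset_univ _)))).image (fr ρ).cont_sp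
    refine (closure_minimal ?_ (isClosed_iUnion_of_finite fun ρ => (hc ρ).isClosed)).trans
      (iUnion_mono fun ρ => image_mono ?_)
    · intro y hy
      obtain ⟨ξ, rfl⟩ := (rg σ _ ht y).1 hy
      obtain ⟨ρ, hρ⟩ := hm.cover ![ξ.1, ξ.2]
      have k0 := hρ 0
      have k1 := hρ 1
      simp only [Fin.sum_univ_two, Matrix.cons_val_zero, Matrix.cons_val_one] at k0 k1
      refine mem_iUnion.2 ⟨ρ, _, ⟨(T / 2, Real.exp ((mz (m ρ) ξ).1 / 2),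
        Real.exp ((mz (m ρ) ξ).2 / 2)), ⟨rfl, ⟨(Real.exp_pos _).le, ?_⟩, (Real.exp_pos _).le, ?_⟩,
        rfl⟩, ?_⟩
      · exact Real.exp_le_one_iff.2 (by simp only [mz]; linarith)
      · exact Real.exp_le_one_iff.2 (by simp only [mz]; linarith)
      · rw [(tr ρ).gr _ ht, gr, (lp ρ).gm (T / 2, mz (m ρ) ξ) ht]
    · rintro _ ⟨p, hp, rfl⟩
      exact (lg' ρ).cl p (by rw [hI, show p.1 = T / 2 from hp.1]; exact ht)

end Pool.Agent.P.MP_2cea5e_gt.I
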