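import Pool.Agent.P.MP_2cea5e_gt.I.St5
import Pool.Agent.P.MP_2cea5e_gt.AllA

/-!
Chapter I: the moment polygon and the estimates of part A in the coordinates of one chart.
-/

open scoped ContDiff Topology ComplexOrder ENNReal
open MeasureTheory Set Filter

noncomputable section

set_option linter.dupNamespace false

namespace Pool.Agent.P.MP_2cea5e_gt.I

namespace AB

open Polar

theorem lin_fst (κ : Ch) (s : ℝ) (ξ : ℝ × ℝ) : (lin κ ξ).1 = κ.z1 (s, ξ) := by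
  rw [lin_apply]; rfl

theorem lin_snd (κ : Ch) (s : ℝ) (ξ : ℝ × ℝ) : (lin κ ξ).2 = κ.z2 (s, ξ) := by
  rw [lin_apply]; rfl

theorem lin_n1 (κ : Ch) : ((0, lin κ κ.n1.2) : X) = e1 :=
  Prod.ext rfl (Prod.ext ((lin_fst κ 0 _).trans κ.z1_n1) ((lin_snd κ 0 _).trans κ.z2_n1))

theorem lin_n2 (κ : Ch) : ((0, lin κ κ.n2.2) : X) = e2 :=
  Prod.ext rfl (Prod.ext ((lin_fst κ 0 _).trans κ.z1_n2) ((lin_snd κ 0 _).trans κ.z2_n2))

theorem lin_surj (κ : Ch) : Function.Surjective (lin κ) := fun ζ => by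
  refine ⟨ζ.1 • κ.n1.2 + ζ.2 • κ.n2.2, ?_⟩
  have h1 : lin κ κ.n1.2 = (1, 0) := congrArg Prod.snd (lin_n1 κ)
  have h2 : lin κ κ.n2.2 = (0, 1) := congrArg Prod.snd (lin_n2 κ)
  rw [map_add, map_smul, map_smul, h1, h2]
  ext <;> simp

theorem lin_inj (κ : Ch) : Function.Injective (lin κ) := by
  rw [injective_iff_map_eq_zero]
  intro η h
  refine Poly.eq_zero_of κ ?_ ?_
  · rw [← lin_fst, h]; rfl
  · rw [← lin_snd, h]; rfl

theorem lint_lin (κ : Ch) (G : ℝ × ℝ → ℝ≥0∞) : ∫⁻ ζ, G ζ = ∫⁻ ξ, G (lin κ ξ) := by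
  have hc : Continuous (lin κ) := LinearMap.continuous_of_finiteDimensional _
  have hm : MeasurePreserving (lin κ) volume volume := ⟨hc.measurable, map_lin κ⟩
  exact (hm.lintegral_comp_emb (hc.measurableEmbedding (lin_inj κ)) G).symm

theorem lin_norm (κ : Ch) : ∃ M : ℝ, 0 < M ∧ ∀ ξ, ‖lin κ ξ‖ ≤ M * ‖ξ‖ := by
  obtain ⟨M, h1, h2⟩ := (LinearMap.toContinuousLinearMap (lin κ)).bound
  exact ⟨M, h1, h2⟩

/-- Spatial derivatives only depend on the time slice. -/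
theorem D_slice (κ : Ch) {I : Set ℝ} (hI : IsOpen I) {g Φ : X → ℝ}
    (hg : ContDiffOn ℝ ∞ g (I ×ˢ univ)) (hΦ : Sm Φ) {s t : ℝ} (ht : t ∈ I)
    (h : ∀ ξ, Φ (s, ξ) = g (t, lin κ ξ)) {n : X} (hn : n.1 = 0) (ξ : ℝ × ℝ) :
    D n Φ (s, ξ) = D (0, lin κ n.2) g (t, lin κ ξ) := by
  have h1 := hasDerivAt_line hΦ (s, ξ) n 0
  have h2 := hasDerivAt_ln (f := g) (x := 0) ((0, lin κ n.2) : X) (t, lin κ ξ)
    (diffAt (hI.prod isOpen_univ) hg (by simpa using ht))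
  have e : (fun r : ℝ => Φ ((s, ξ) + r • n)) =
      fun r : ℝ => g ((t, lin κ ξ) + r • ((0, lin κ n.2) : X)) := by
    funext r
    have e1 : ((s, ξ) + r • n : X) = (s, ξ + r • n.2) := by
      ext <;> simp [hn]
    have e2 : ((t, lin κ ξ) + r • ((0, lin κ n.2) : X) : X) = (t, lin κ (ξ + r • n.2)) := by
      rw [map_add, map_smul]
      ext <;> simp
    rw [e1, e2, h]
  rw [e] at h1
  simpa using h1.unique h2

section Slice

variable (κ : Ch) {I : Set ℝ} (hI : IsOpen I) {g Φ : X → ℝ}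
  (hg : ContDiffOn ℝ ∞ g (I ×ˢ univ)) (hΦ : Sm Φ) {s t : ℝ} (ht : t ∈ I)
  (h : ∀ ξ, Φ (s, ξ) = g (t, lin κ ξ))
include hI hg hΦ ht h

theorem D_n1 (ξ : ℝ × ℝ) : D κ.n1 Φ (s, ξ) = D e1 g (t, lin κ ξ) := by
  rw [D_slice κ hI hg hΦ ht h rfl, lin_n1]

theorem D_n2 (ξ : ℝ × ℝ) : D κ.n2 Φ (s, ξ) = D e2 g (t, lin κ ξ) := by
  rw [D_slice κ hI hg hΦ ht h rfl, lin_n2]

theorem W_slice (ξ : ℝ × ℝ) : W Φ (s, ξ) = W g (t, lin κ ξ) := by
  have hU : IsOpen (I ×ˢ (univ : Set (ℝ × ℝ))) := hI.prod isOpen_univ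
  have a1 := D_n1 κ hI hg hΦ ht h
  have a2 := D_n2 κ hI hg hΦ ht h
  have b11 := D_n1 κ hI (smO_D hU e1 hg) (sm_D κ.n1 hΦ) ht a1 ξ
  have b12 := D_n1 κ hI (smO_D hU e2 hg) (sm_D κ.n2 hΦ) ht a2 ξ
  have b22 := D_n2 κ hI (smO_D hU e2 hg) (sm_D κ.n2 hΦ) ht a2 ξ
  rw [κ.W_eq hΦ]
  simp only [W, Pi.sub_apply, Pi.mul_apply, b11, b12, b22]

theorem UU_slice (ξ : ℝ × ℝ) : UU Φ (s, ξ) = UU g (t, lin κ ξ) := by
  have e : Φ - Lv (0, 0) = Φ := by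
    funext p
    simp [Li_apply]
  have a := congrFun (UU_chart κ hΦ (0, 0)) (s, ξ)
  rw [e] at a
  rw [a]
  simp only [UU, Pi.add_apply, Pi.sub_apply, Pi.mul_apply, Li_apply, D_n1 κ hI hg hΦ ht h,
    D_n2 κ hI hg hΦ ht h, h, lin_fst κ s, lin_snd κ s]
  ring

theorem gr_slice (ξ : ℝ × ℝ) :
    gr g t (lin κ ξ) = (Lv (grad Φ (s, ξ)) κ.n1, Lv (grad Φ (s, ξ)) κ.n2) := by
  rw [Poly.Lv_grad Φ _ rfl, Poly.Lv_grad Φ _ rfl, D_n1 κ hI hg hΦ ht h, D_n2 κ hI hg hΦ ht h]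
  rfl

end Slice

theorem sm_lg {I : Set ℝ} {f : ℝ × C2 → ℝ} (hf : ContDiffOn ℝ ∞ f (I ×ˢ univ)) :
    ContDiffOn ℝ ∞ (lg f) (I ×ˢ univ) := by
  have h1 : ContDiff ℝ ∞ fun p : X =>
      ((p.1, Real.exp (p.2.1 / 2), Real.exp (p.2.2 / 2)) : X) := by fun_prop
  exact hf.comp (f := fun p : X => (p.1, ez p.2)) (TorB.sm_em.comp h1).contDiffOn
    fun p hp => ⟨hp.1, mem_univ _⟩

/-- The dual linear map. -/
def dl (κ : Ch) : ℝ × ℝ →ₗ[ℝ] ℝ × ℝ where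
  toFun x := (Lv x κ.n1, Lv x κ.n2)
  map_add' x y := by
    ext <;> simp only [Li_apply, Prod.fst_add, Prod.snd_add] <;> ring
  map_smul' c x := by
    ext <;> simp only [Li_apply, Prod.smul_fst, Prod.smul_snd, smul_eq_mul, RingHom.id_apply] <;>
      ring

theorem den_ge (κ : Ch) {Φ : X → ℝ} (P : Pot Φ) {s : ℝ} {ξ : ℝ × ℝ} (hξ : ξ ∈ κ.cn) :
    W Φ (s, ξ) * √(√(W Φ (s, ξ))) ≤ κ.den Φ (1 / 4) (s, ξ) := by
  have h1 : κ.z1 (s, ξ) ≤ 0 := hξ.1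
  have h2 : κ.z2 (s, ξ) ≤ 0 := hξ.2
  have e : √(√(W Φ (s, ξ))) = Real.exp (LL Φ (s, ξ) / 2 / 2) := by
    rw [Real.exp_half, Real.exp_half, P.exL]
  rw [Ch.den, mul_comm, e]
  exact mul_le_mul_of_nonneg_right (Real.exp_le_exp.mpr (by linarith)) (P.pw _).le

end AB

open AB Polar MainB in
theorem ab_ok (h : StTrans) : StAB := by
  have _ := h
  intro ι _ m f T hm hF σ
  choose a b hab using fun ρ => hF.glue ρ σ
  set F := fanOf hm with hFd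
  set κ := F.ch σ with hκ
  set v : F.ι → ℝ × ℝ := fun ρ => (-(b ρ 0) / 2, -(b ρ 1) / 2) with hv
  have hg := sm_lg (hF.c1 σ).sm
  have key : ∀ c τ : ℝ → ℝ, ContDiff ℝ ∞ c → ContDiff ℝ ∞ τ → (∀ s, 0 < τ s) →
      (∀ s, HasDerivAt c (τ s) s) → (∀ s, c s ∈ Ioo 0 T) →
      ∃ Φ, Flow F Φ v c τ 0 T ∧ ∀ s ξ, Φ (s, ξ) = lg (f σ) (c s, lin κ ξ) := by
    intro c τ hc hτ hτ0 hd hmem
    set g : ι → ℝ × C2 → ℝ := fun ρ q => f ρ (c q.1, q.2) with hgd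
    have sg : ∀ ρ, ContDiff ℝ ∞ (g ρ) := fun ρ =>
      (hF.c1 ρ).sm.comp_contDiff (f := fun q : ℝ × C2 => (c q.1, q.2))
        ((hc.comp contDiff_fst).prodMk contDiff_snd) fun q => ⟨hmem q.1, mem_univ _⟩
    obtain ⟨T1, E1⟩ := tor_ok hess_ok vol_ok ι m hm g a b σ sg
      (fun ρ s => (hF.c1 ρ).inv _ (hmem s)) (fun ρ s z => (hF.c1 ρ).pos _ (hmem s) z)
      fun ρ s w hw => hab ρ _ (hmem s) w hw
    refine ⟨κ.lift (g σ), ⟨T1, ⟨T1.pot, hτ, hτ0, ?_⟩, hd, fun s => (hmem s).2.le⟩, fun s ξ => ?_⟩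
    · funext ⟨s, ξ⟩
      have e1 := (((hF.c1 σ).flow _ (hmem s) (κ.zp (s, ξ))).comp s (hd s)).unique
        (hasDerivAt_time T1.pot.sm s ξ)
      have e2 : scal (sl (f σ) (c s)) (κ.zp (s, ξ)) = RR (κ.lift (g σ)) (s, ξ) :=
        (E1 σ (s, ξ)).2.2
      rw [← e1, e2]
      simp only [Pi.mul_apply, Pi.sub_apply, Tm_apply, K_apply]
      ring
    · simp only [lg, ez, lin_fst κ s, lin_snd κ s]
      rfl
  have := F.fin
  constructor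
  · rcases le_or_gt T 0 with hT | hT
    · exact ⟨∅, convex_empty, Bornology.isBounded_empty,
        fun t ht => absurd (ht.1.trans ht.2) (not_lt.mpr hT)⟩
    have st : ∀ t ∈ Ioo 0 T, Convex ℝ (Pint v) ∧ range (gr (lg (f σ)) t) = dl κ '' Pint v := by
      intro t ht
      obtain ⟨c, τ, hc, hτ, hτ0, hd, hmem, hsurj⟩ := exists_clock ht.1 ht.2
      obtain ⟨s, -, rfl⟩ := hsurj t ⟨le_rfl, ht.2⟩
      obtain ⟨Φ, hfl, hΦ⟩ := key c τ hc hτ hτ0 hd hmem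
      obtain ⟨p1, p2, p3, -⟩ := poly_all F Φ v hfl.tor
      have e := gr_slice κ isOpen_Ioo hg hfl.tor.pot.sm ht (hΦ s)
      refine ⟨p3, Subset.antisymm ?_ ?_⟩
      · rintro _ ⟨ζ, rfl⟩
        obtain ⟨ξ, rfl⟩ := lin_surj κ ζ
        exact ⟨_, p1 (s, ξ), (e ξ).symm⟩
      · rintro _ ⟨x, hx, rfl⟩
        obtain ⟨ξ, rfl⟩ := p2 x hx s
        exact ⟨_, e ξ⟩
    refine ⟨dl κ '' Pint v, (st (T / 2) ⟨by linarith, by linarith⟩).1.linear_image _, ?_,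
      fun t ht => (st t ht).2⟩
    obtain ⟨M, hM⟩ := Poly.bounded F v
    exact (LinearMap.toContinuousLinearMap (dl κ)).lipschitz.isBounded_image
      (isBounded_iff_forall_norm_le.mpr ⟨M, hM⟩)
  · intro t₀ ht₀
    rcases le_or_gt T t₀ with hT | hT
    · exact ⟨1, 0, one_pos, fun t ht => absurd (ht.1.trans_lt ht.2) (not_lt.mpr hT)⟩
    obtain ⟨c, τ, hc, hτ, hτ0, hd, hmem, hsurj⟩ := exists_clock ht₀ hT
    obtain ⟨Φ, hfl, hΦ⟩ := key c τ hc hτ hτ0 hd hmem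
    have P := hfl.tor.pot
    obtain ⟨C1, hC1⟩ := core_all F Φ v c τ 0 T (1 / 4) hfl (by norm_num) (by norm_num)
    obtain ⟨δ, C2, hδ, hC2⟩ := mom_ok F (1 / 4) C1 (by norm_num) (by norm_num)
    obtain ⟨M, hM0, hM⟩ := lin_norm κ
    set E : ℝ≥0∞ := ∑' _ : F.ι, ENNReal.ofReal C1 with hE
    have hEt : E ≠ ⊤ := by
      have := Fintype.ofFinite F.ι
      rw [hE, tsum_fintype]
      exact ENNReal.sum_ne_top.mpr fun _ _ => ENNReal.ofReal_ne_top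
    refine ⟨δ / M, max C1 (max E.toReal C2), by positivity, fun t ht => ?_⟩
    obtain ⟨s, hs, rfl⟩ := hsurj t ht
    have eW := W_slice κ isOpen_Ioo hg P.sm (hmem s) (hΦ s)
    have eU := UU_slice κ isOpen_Ioo hg P.sm (hmem s) (hΦ s)
    refine ⟨fun ζ => le_max_of_le_left ?_, ?_, ?_⟩
    · obtain ⟨ξ, rfl⟩ := lin_surj κ ζ
      rw [← eU]
      obtain ⟨ρ, hρ⟩ := F.cover (0, ξ)
      have a0 := (hC1 s hs ρ).1 0 ⟨by simp [Ch.z1, Li_apply], by simp [Ch.z2, Li_apply]⟩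
      have a1 := (hC1 s hs ρ).1 ξ hρ
      have a2 := conv_ok Φ P s ξ 0
      have a3 := congrFun (UU_chart (F.ch ρ) P.sm (v ρ)) (s, ξ)
      obtain ⟨a4, a5, -⟩ := g1_ok F Φ v hfl.tor ρ (s, ξ)
      have a6 : (F.ch ρ).z1 (s, ξ) ≤ 0 := hρ.1
      have a7 : (F.ch ρ).z2 (s, ξ) ≤ 0 := hρ.2
      have a8 := mul_nonpos_of_nonpos_of_nonneg a6 a4.le
      have a9 := mul_nonpos_of_nonpos_of_nonneg a7 a5.le
      have b0 : (Φ - Lv (v ρ)) (s, 0) = Φ (s, 0) := by simp [Li_apply]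
      have b1 : ip (grad Φ (s, ξ)) 0 = 0 := by simp [ip]
      rw [b0, abs_le] at a0
      rw [Pi.sub_apply, Pi.add_apply, Pi.mul_apply, Pi.mul_apply] at a3
      rw [abs_le] at a1 ⊢
      constructor <;> linarith [a0.1, a0.2, a1.1, a1.2]
    · rw [lint_lin κ]
      simp only [← eW]
      refine (lint_le F _).trans ((ENNReal.tsum_le_tsum fun ρ => ?_).trans
        ((ENNReal.ofReal_toReal hEt).symm.le.trans (ENNReal.ofReal_le_ofReal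
          (le_max_of_le_right (le_max_left _ _)))))
      exact (setLIntegral_mono' (measurableSet_cn _) fun ξ hξ =>
        ENNReal.ofReal_le_ofReal (den_ge _ P hξ)).trans (hC1 s hs ρ).2
    · rw [lint_lin κ]
      simp only [← eW]
      refine (lintegral_mono fun ξ => ENNReal.ofReal_le_ofReal ?_).trans
        ((hC2 Φ s P fun ρ => (hC1 s hs ρ).2).trans (ENNReal.ofReal_le_ofReal
          (le_max_of_le_right (le_max_right _ _))))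
      refine mul_le_mul_of_nonneg_right (Real.exp_le_exp.mpr ?_) (P.pw _).le
      calc δ / M * ‖lin κ ξ‖ ≤ δ / M * (M * ‖ξ‖) :=
            mul_le_mul_of_nonneg_left (hM ξ) (by positivity)
        _ = δ * ‖ξ‖ := by field_simp

end Pool.Agent.P.MP_2cea5e_gt.I
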