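import Mathlib

/-!
Chapter I: one dimensional lemmas, pointwise algebra, kernels, abstract drift (statements).
-/

open scoped ContDiff Topology
open MeasureTheory Set Filter

noncomputable section

namespace Pool.Agent.P.MP_2cea5e_gt.I

/-- `f` has first and second derivatives `f'`, `f''` on `s`, and `f''` is continuous on `s`. -/
structure C2On (f f' f'' : ℝ → ℝ) (s : Set ℝ) : Prop where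
  d1 : ∀ x ∈ s, HasDerivAt f (f' x) x
  d2 : ∀ x ∈ s, HasDerivAt f' (f'' x) x
  c2 : ContinuousOn f'' s

/-- `F ≥ 0` is integrable on `(a,b)` with integral at most `ε`. -/
structure Cheap (F : ℝ → ℝ) (a b ε : ℝ) : Prop where
  nn : ∀ x ∈ Ioo a b, 0 ≤ F x
  int : IntegrableOn F (Ioo a b)
  le : ∫ x in Ioo a b, F x ≤ ε

/-- The chord of `y` over `[a,b]`. -/
def chord (y : ℝ → ℝ) (a b x : ℝ) : ℝ := ((b - x) * y a + (x - a) * y b) / (b - a)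

/-- The Green function of `[a,b]`. -/
def green (a b x s : ℝ) : ℝ := (min x s - a) * (b - max x s) / (b - a)

def StGreen : Prop := ∀ (y y' y'' : ℝ → ℝ) (a b x : ℝ), a < b → C2On y y' y'' (Icc a b) →
  x ∈ Icc a b → chord y a b x - y x = ∫ s in Ioo a b, green a b x s * y'' s

/-- Almost concave positive functions. -/
def StConc : Prop :=
  (∀ (m m' m'' F : ℝ → ℝ) (a b ε x : ℝ), a < b → C2On m m' m'' (Icc a b) → Cheap F a b ε →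
    (∀ s ∈ Ioo a b, m'' s ≤ F s) → x ∈ Icc a b →
    chord m a b x - min (x - a) (b - x) * ε ≤ m x) ∧
  (∀ (m m' m'' F : ℝ → ℝ) (a b ε x : ℝ), a < b → C2On m m' m'' (Ioc a b) → Cheap F a b ε →
    (∀ s ∈ Ioo a b, m'' s ≤ F s) → (∀ s ∈ Ioo a b, 0 ≤ m s) → x ∈ Ioc a b →
    (x - a) * (m b / (b - a) - ε) ≤ m x) ∧
  (∀ (m m' m'' F : ℝ → ℝ) (a b ε x : ℝ), a < b → C2On m m' m'' (Ico a b) → Cheap F a b ε →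
    (∀ s ∈ Ioo a b, m'' s ≤ F s) → (∀ s ∈ Ioo a b, 0 ≤ m s) → x ∈ Ico a b →
    (b - x) * (m a / (b - a) - ε) ≤ m x)

/-- Trace estimate. -/
def StTR : Prop := ∀ (h h' h'' : ℝ → ℝ) (s x : ℝ), 0 < s → C2On h h' h'' (Ioc 0 (2 * s)) →
  IntegrableOn (fun y => y * |h'' y|) (Ioo 0 (2 * s)) → x ∈ Ioc 0 s →
  |h x| ≤ 6 * (∫ y in Ioo 0 (2 * s), y * |h'' y|) + 30 / s * ∫ y in Ioo s (2 * s), |h y|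

/-- A cheap interior segment: `1 / m` is the second derivative along the line. -/
def StLine : Prop := ∀ (m m' m'' F : ℝ → ℝ) (c L o ε : ℝ), 0 < L → 0 < o →
  C2On m m' m'' (Icc (c - L) (c + L)) → (∀ x ∈ Icc (c - L) (c + L), 0 < m x) →
  Cheap F (c - L) (c + L) ε → (∀ x ∈ Ioo (c - L) (c + L), m'' x ≤ F x) →
  ∫ x in Ioo (c - L) (c + L), (m x)⁻¹ ≤ o → o * ε ≤ 1 / 100 →
  (∀ x ∈ Icc (c - L / 2) (c + L / 2), (m x)⁻¹ ≤ 8 * o / L) ∧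
  ∀ y y' y'' : ℝ → ℝ, C2On y y' y'' (Icc (c - L) (c + L)) →
    (∀ x ∈ Icc (c - L) (c + L), 0 < y x) →
    (∀ x ∈ Ioo (c - L) (c + L), |y'' x| ≤ F x * y x * (m x)⁻¹) →
    (∀ x ∈ Icc (c - L / 2) (c + L / 2), |y x - y c| ≤ 8 * (|x - c| / L) * y c) ∧
    ∀ x ∈ Icc (c - L / 4) (c + L / 4), ∀ x' ∈ Icc (c - L / 4) (c + L / 4), y x ≤ 8 * y x'

/-- A cheap segment normal to an edge. -/
def StNorm : Prop :=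
  (∀ (y y' y'' F : ℝ → ℝ) (a Θ ε Y : ℝ), 0 < a → 0 ≤ Θ → C2On y y' y'' (Ioc 0 a) →
    Cheap F 0 a ε → Θ * ε ≤ 1 / 10 → (∀ x ∈ Ioc 0 a, 0 < y x ∧ y x ≤ Y) →
    (∀ x ∈ Ioo 0 a, |y'' x| ≤ F x * y x * (Θ / x)) →
    (∀ x ∈ Ioc 0 a, ∀ x' ∈ Ioc 0 a, |y x - y x'| ≤ Y * (|x - x'| / a + 2 * (Θ * ε))) ∧
    (∀ s₀ : ℝ, 0 < s₀ → 4 * (Θ * ε) ≤ s₀ → ∀ x₁ ∈ Icc (s₀ * a) (a / 2), ∀ x ∈ Ioc 0 a,
      y x ≤ 2 / s₀ * y x₁) ∧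
    (Tendsto (fun x => y x / x) (𝓝[>] 0) (𝓝 1) →
      ∀ x ∈ Ioc 0 a, |y x / x - 1| ≤ 2 * (Θ * ε) ∧ |y' x - 1| ≤ 2 * (Θ * ε))) ∧
  ∀ (z z' z'' F : ℝ → ℝ) (a Γ ε : ℝ), 0 < a → 0 ≤ Γ → C2On z z' z'' (Ioc 0 a) → Cheap F 0 a ε →
    Tendsto z (𝓝[>] 0) (𝓝 0) → (∀ x ∈ Ioo 0 a, |z'' x| ≤ F x * (Γ / √x)) →
    ∀ x ∈ Ioc 0 a, |z x - x / a * z a| ≤ √x * (Γ * ε)

/-- Lemma K: bounded radial second derivatives bound the transversal ones. -/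
def StK : Prop := ∀ (m m' m'' l l' S F : ℝ → ℝ) (V ε : ℝ), 1 ≤ V → C2On m m' m'' (Ioo 0 1) →
  (∀ x ∈ Ioo (0 : ℝ) 1, 0 < m x ∧ 0 < S x ∧ HasDerivAt l (l' x) x) →
  ContinuousOn l' (Ioo 0 1) → ContinuousOn S (Ioo 0 1) → Cheap F 0 1 ε →
  (∀ x ∈ Ioo (0 : ℝ) 1, |m'' x + 2 * S x * l' x ^ 2| ≤ F x) →
  ∫ x in Ioo (1 / 4 : ℝ) (3 / 4), ((x + l x) ^ 2 / m x + (S x)⁻¹) ≤ V → ε * V ≤ 1 / 10000 →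
  ∀ x ∈ Ioo (0 : ℝ) 1, x * (1 - x) / (10000 * V) ≤ m x

/-- Rigidity on a segment between the two edges. -/
def StRig : Prop :=
  (∀ (y y' y'' F : ℝ → ℝ) (Θ ε Y : ℝ), 0 ≤ Θ → C2On y y' y'' (Ioo 0 1) → Cheap F 0 1 ε →
    Θ * ε ≤ 1 / 100 → (∀ x ∈ Ioo (0 : ℝ) 1, 0 < y x ∧ y x ≤ Y) →
    (∀ x ∈ Ioo (0 : ℝ) 1, |y'' x| ≤ F x * y x * (Θ / (x * (1 - x)))) →
    (Tendsto (fun x => y x / x) (𝓝[>] 0) (𝓝 1) →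
      ∀ x ∈ Ioo (0 : ℝ) 1, |y x / x - 1| ≤ 10 * (Θ * ε)) ∧
    (Tendsto (fun x => y x / (1 - x)) (𝓝[<] 1) (𝓝 1) →
      ∀ x ∈ Ioo (0 : ℝ) 1, |y x / (1 - x) - 1| ≤ 10 * (Θ * ε))) ∧
  ∀ (z z' z'' F : ℝ → ℝ) (Γ ε : ℝ), 0 ≤ Γ → C2On z z' z'' (Ioo 0 1) → Cheap F 0 1 ε →
    Tendsto z (𝓝[>] 0) (𝓝 0) → Tendsto z (𝓝[<] 1) (𝓝 0) →
    (∀ x ∈ Ioo (0 : ℝ) 1, |z'' x| ≤ F x * (Γ / √(x * (1 - x)))) →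
    ∀ x ∈ Ioo (0 : ℝ) 1, |z x| ≤ √(x * (1 - x)) * (Γ * ε)

/-- Convexity fills the gaps of a dense good set. -/
def StFill1 : Prop :=
  (∀ (g g₀ : ℝ → ℝ) (G : Set ℝ) (a b η δ ϖ : ℝ), 0 < η → ConvexOn ℝ (Icc a b) g →
    (∀ x ∈ Icc a b, ∀ x' ∈ Icc a b, |x - x'| ≤ 3 * η → |g₀ x - g₀ x'| ≤ ϖ) →
    volume (Icc a b \ G) < ENNReal.ofReal η → (∀ x ∈ Icc a b ∩ G, |g x - g₀ x| ≤ δ) →
    ∀ x ∈ Icc (a + η) (b - 3 * η), |g x - g₀ x| ≤ 5 * δ + 3 * ϖ) ∧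
  ∀ (B : Set ℝ) (a η : ℝ), volume B < ENNReal.ofReal η → ∃ x ∈ Ioo a (a + η), x ∉ B

/-! ### Pointwise algebra of a positive matrix `X = (a b; b c)` -/

/-- `tr X + tr X⁻¹ - 4`. -/
def gx (a b c : ℝ) : ℝ := a + c + (a + c) / (a * c - b ^ 2) - 4
/-- The quadratic form of `X`. -/
def qx (a b c : ℝ) (e : ℝ × ℝ) : ℝ := a * e.1 ^ 2 + 2 * b * e.1 * e.2 + c * e.2 ^ 2
/-- The quadratic form of `X⁻¹`. -/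
def qi (a b c : ℝ) (n : ℝ × ℝ) : ℝ :=
  (c * n.1 ^ 2 - 2 * b * n.1 * n.2 + a * n.2 ^ 2) / (a * c - b ^ 2)

def StAlg : Prop :=
  (∀ a b c : ℝ, 0 < a → 0 < a * c - b ^ 2 → 0 ≤ gx a b c ∧
    (|a - 1| ≤ √(gx a b c) + gx a b c ∧ |b| ≤ √(gx a b c) + gx a b c ∧
      |c - 1| ≤ √(gx a b c) + gx a b c) ∧
    (|c / (a * c - b ^ 2) - 1| ≤ √(gx a b c) + gx a b c ∧
      |b / (a * c - b ^ 2)| ≤ √(gx a b c) + gx a b c ∧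
      |a / (a * c - b ^ 2) - 1| ≤ √(gx a b c) + gx a b c) ∧
    (|c / (a * c - b ^ 2) - 1 + (a - 1)| ≤ gx a b c ∧ |-b / (a * c - b ^ 2) + b| ≤ gx a b c ∧
      |a / (a * c - b ^ 2) - 1 + (c - 1)| ≤ gx a b c) ∧
    (∀ p q : ℝ × ℝ, ((c / (a * c - b ^ 2) - 1) * p.1 * q.1 +
        -b / (a * c - b ^ 2) * (p.1 * q.2 + p.2 * q.1) + (a / (a * c - b ^ 2) - 1) * p.2 * q.2) ^ 2 ≤
      gx a b c * (p.1 ^ 2 + p.2 ^ 2) * qi a b c q) ∧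
    (∀ q : ℝ × ℝ, q.1 ^ 2 + q.2 ^ 2 ≤ (1 + √(gx a b c)) ^ 2 * qi a b c q) ∧
    (∀ q : ℝ × ℝ, 0 ≤ qi a b c q ∧ qi a b c q ≤ (2 + 2 * gx a b c) * (q.1 ^ 2 + q.2 ^ 2))) ∧
  (∀ a b c s₁₁ s₁₂ s₂₁ s₂₂ γ : ℝ, 0 < a → 0 < a * c - b ^ 2 → γ ≤ 1 / 100 → |s₁₁ - 1| ≤ γ →
    |s₁₂| ≤ γ → |s₂₁| ≤ γ → |s₂₂ - 1| ≤ γ →
    gx (qx a b c (s₁₁, s₂₁))
      (a * s₁₁ * s₁₂ + b * (s₁₁ * s₂₂ + s₂₁ * s₁₂) + c * s₂₁ * s₂₂) (qx a b c (s₁₂, s₂₂)) ≤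
      2 * gx a b c + 1000 * γ ^ 2) ∧
  (∀ a b c a' b' c' μ : ℝ, 0 < a → 0 < a * c - b ^ 2 → 0 < a' → 0 < a' * c' - b' ^ 2 →
    ((∀ n, qi a b c n ≤ μ * qi a' b' c' n) ↔ ∀ e, qx a' b' c' e ≤ μ * qx a b c e)) ∧
  (∀ a b c δ : ℝ, 0 < a → 0 < a * c - b ^ 2 → δ ≤ 1 / 10 → |c / (a * c - b ^ 2) - 1| ≤ δ →
    |b / (a * c - b ^ 2)| ≤ δ → |a / (a * c - b ^ 2) - 1| ≤ δ →
    |a - 1| ≤ 4 * δ ∧ |b| ≤ 4 * δ ∧ |c - 1| ≤ 4 * δ) ∧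
  ∀ (p q r p' q' r' k : ℝ), (∀ n : ℝ × ℝ, |qx p' q' r' n| ≤ k * qx p q r n) →
    ∀ n n' : ℝ × ℝ, (p' * n.1 * n'.1 + q' * (n.1 * n'.2 + n.2 * n'.1) + r' * n.2 * n'.2) ^ 2 ≤
      k ^ 2 * qx p q r n * qx p q r n'

/-! ### The drift of the velocity -/

def StDrift : Prop := ∀ (P : Set (ℝ × ℝ)) (v : ℝ → ℝ × ℝ → ℝ) (T₀ T Λ γ : ℝ), T₀ < T → 0 < γ →
  (∀ t ∈ Ioo T₀ T, MemLp (v t) 2 (volume.restrict P)) →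
  (∀ t ∈ Ioo T₀ T, ∫ y in P, v t y ^ 2 ≤ Λ) →
  (∀ s ∈ Ioo T₀ T, ContinuousOn (fun r => ∫ y in P, (v r y - v s y) ^ 2) (Ioo T₀ T)) →
  (∀ s ∈ Ioo T₀ T, ∀ t ∈ Ioo s T, ∫ r in s..t, ∫ y in P, (v r y - v s y) ^ 2 ≤
    (t - s) * ((∫ y in P, v s y ^ 2) - ∫ y in P, v t y ^ 2)) →
  ∃ l₀ : ℕ, ∀ l : ℕ, l₀ ≤ l → T₀ < T - (1 / 4) ^ (l ^ 6) ∧
    (∀ j, l ^ 6 ≤ j → ∀ t ∈ Ioo (T - (1 / 4) ^ j) T,
      (∫ y in P, v (T - (1 / 4) ^ j) y ^ 2) - ∫ y in P, v t y ^ 2 ≤ γ) ∧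
    ∀ A : ℕ → Set (ℝ × ℝ), (∀ j, MeasurableSet (A j) ∧ A j ⊆ P) →
      (∀ i j, i + l ≤ j → Disjoint (A i) (A j)) →
      ∑ j ∈ Finset.Ico (l ^ 6) (2 * l ^ 6), ∫ y in A j, v (T - (1 / 4) ^ j) y ^ 2 ≤ γ * l ^ 6

/-! ### Kernels -/

/-- The weight of a coordinate of type `b` (`true`: with a face). -/
def om (b : Bool) (x : ℝ) : ℝ := if b then x else 1
/-- The admissible open range of a coordinate. -/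
def ok (b : Bool) : Set ℝ := if b then Ioi 0 else univ
/-- The arc length coordinate. -/
def th (b : Bool) (x : ℝ) : ℝ := if b then 2 * √x else x
/-- The fibre integral of `r (Z - ·)`. -/
def kk (b : Bool) (r : ℂ → ℝ) (Z : ℂ) (y : ℝ) : ℝ :=
  if b then 2 * ∫ θ in (0 : ℝ)..2 * Real.pi, r (Z - (2 * √y : ℝ) * Complex.exp (θ * Complex.I))
  else ∫ s : ℝ, r (Z - y - s * Complex.I)
/-- Directional derivative on `ℂ`. -/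
def dc (v : ℂ) (r : ℂ → ℝ) : ℂ → ℝ := fun z => fderiv ℝ r z v
/-- Test functions on `ℂ` supported in the closed disc of radius `δ`. -/
structure Tst (δ : ℝ) (r : ℂ → ℝ) : Prop where
  sm : ContDiff ℝ ∞ r
  supp : ∀ z, δ < ‖z‖ → r z = 0

/-- Regularity of the kernels. -/
def StKer1 : Prop := ∀ (b : Bool) (δ : ℝ) (r : ℂ → ℝ), Tst δ r →
  (∀ v, Tst δ (dc v r)) ∧
  ContinuousOn (fun q : ℂ × ℝ => kk b r q.1 q.2) (univ ×ˢ ok b) ∧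
  (∀ y ∈ ok b, ∀ Z, DifferentiableAt ℝ (fun Z => kk b r Z y) Z ∧
    ∀ v, fderiv ℝ (fun Z => kk b r Z y) Z v = kk b (dc v r) Z y) ∧
  (∀ Z, ∀ y ∈ ok b, kk b r Z y ≠ 0 → |th b y - (if b then ‖Z‖ else Z.re)| ≤ δ) ∧
  (∀ Z, ∃ g : ℝ → ℝ, ContDiff ℝ ∞ g ∧ (b = true → ∀ x, g (-x) = g x) ∧
    ∀ y ∈ ok b, kk b r Z y = g (if b then √y else y)) ∧
  ∃ C : ℝ, ∀ Z, ∀ y ∈ ok b, |kk b r Z y| ≤ C

/-- The differential identities of the kernels. -/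
def StKer2 : Prop := ∀ (b : Bool) (δ : ℝ) (r : ℂ → ℝ), Tst δ r →
  (∀ Z, ∀ y ∈ ok b, deriv (fun x => om b x * deriv (kk b r Z) x) y =
    kk b (dc 1 (dc 1 r)) Z y + kk b (dc Complex.I (dc Complex.I r)) Z y) ∧
  ∃ C : ℝ, ∀ Z, ∀ y ∈ ok b, om b y * deriv (kk b r Z) y ^ 2 ≤ C ∧
    |om b y * deriv (deriv (kk b r Z)) y| ≤ C

/-- Radial probability kernels. -/
def StKer3 : Prop :=
  (∀ δ : ℝ, 0 < δ → ∃ r : ℂ → ℝ, Tst δ r ∧ (∀ z, 0 ≤ r z) ∧ (∀ z w, ‖z‖ = ‖w‖ → r z = r w) ∧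
    ∫ z, r z = 1) ∧
  ∀ (b : Bool) (δ : ℝ) (r : ℂ → ℝ), Tst δ r → (∀ z, 0 ≤ r z) →
    (∀ z w, ‖z‖ = ‖w‖ → r z = r w) → ∫ z, r z = 1 →
    (∀ Z y, 0 ≤ kk b r Z y) ∧
    (∀ Z, IntegrableOn (kk b r Z) (ok b) ∧ ∫ y in ok b, kk b r Z y = 1) ∧
    (∀ y ∈ ok b, ∀ y' ∈ ok b, kk b r (th b y) y' = kk b r (th b y') y) ∧
    (∀ y ∈ ok b, ∫ Z in Metric.ball (0 : ℂ) 1, kk b r Z y ≤ 13) ∧
    (b = true → ∀ Z y, kk b r (-Z) y = kk b r Z y)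

/-- Smoothing by a symmetric Markov kernel of small range moves a function little. -/
def StMark : Prop := ∀ (b : Bool) (δ : ℝ) (s : ℝ → ℝ → ℝ) (J J' : Set ℝ) (W W' α β : ℝ → ℝ),
  0 < δ → MeasurableSet J → J' ⊆ ok b → IsOpen J' → OrdConnected J' → J ⊆ J' →
  ContinuousOn (fun q : ℝ × ℝ => s q.1 q.2) (ok b ×ˢ ok b) →
  (∀ y ∈ ok b, ∀ y' ∈ ok b, 0 ≤ s y y' ∧ s y y' = s y' y ∧
    (s y y' ≠ 0 → |th b y - th b y'| ≤ δ ∧ (y ∈ J → y' ∈ J'))) →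
  (∀ y ∈ ok b, IntegrableOn (s y) (ok b) ∧ ∫ y' in ok b, s y y' = 1) →
  (∀ x ∈ J', HasDerivAt W (W' x) x ∧ |W x| ≤ 2 ∧ 0 ≤ α x ∧ 0 ≤ β x ∧
    √(om b x) * |W' x| ≤ α x + β x) →
  ContinuousOn W' J' → ContinuousOn α J' → ContinuousOn β J' →
  ∫⁻ y in J, ∫⁻ y' in ok b, ENNReal.ofReal (s y y' * (W y - W y') ^ 2) ≤
    ∫⁻ x in J', ENNReal.ofReal (8 * δ ^ 2 * α x ^ 2 + 16 * δ * β x)

end Pool.Agent.P.MP_2cea5e_gt.I
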