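import Pool.Agent.P.MP_2cea5e_gt.Calc
import Pool.Agent.P.MP_2cea5e_gt.I.St1

/-!
Chapter I: domains with faces, the class of functions bounded up to the faces, toolbox.
-/

open scoped ContDiff Topology
open MeasureTheory Set Filter

noncomputable section

set_option linter.dupNamespace false

namespace Pool.Agent.P.MP_2cea5e_gt.I

abbrev Ty := Bool × Bool

/-- The closed range of a coordinate. -/
def okc (b : Bool) : Set ℝ := if b then Ici 0 else univ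
/-- The flat model. -/
def md (b : Bool) (x : ℝ) : ℝ := if b then x * Real.log x else x ^ 2 / 2
/-- The parabolic weight. -/
def wt (b : Bool) : ℕ := if b then 2 else 1
def iv (b : Bool) (r : ℝ) : Set ℝ := if b then Ioo 0 (r ^ 2) else Ioo (-r) r
def ivc (b : Bool) (r : ℝ) : Set ℝ := if b then Icc 0 (r ^ 2) else Icc (-r) r
/-- The open box of radius `r`. -/
def bx (τ : Ty) (r : ℝ) : Set (ℝ × ℝ) := iv τ.1 r ×ˢ iv τ.2 r
/-- The closed box of radius `r`. -/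
def bxc (τ : Ty) (r : ℝ) : Set (ℝ × ℝ) := ivc τ.1 r ×ˢ ivc τ.2 r
/-- The box without the corner. -/
def An (τ : Ty) (r s : ℝ) : Set (ℝ × ℝ) :=
  {y | y ∈ bx τ r ∧ (s ^ 2 ≤ om τ.1 y.1 ∨ s ^ 2 ≤ om τ.2 y.2)}

/-- A space-time domain with faces. -/
structure Dm where
  τ : Ty
  I : Set ℝ
  O : Set (ℝ × ℝ)
  oI : IsOpen I
  oO : IsOpen O

def Dm.S (d : Dm) : Set (ℝ × ℝ) := d.O ∩ ok d.τ.1 ×ˢ ok d.τ.2
def Dm.Sc (d : Dm) : Set (ℝ × ℝ) := d.O ∩ okc d.τ.1 ×ˢ okc d.τ.2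
def Dm.U (d : Dm) : Set X := d.I ×ˢ d.S
def Dm.Uc (d : Dm) : Set X := d.I ×ˢ d.Sc

def u0 (τ : Ty) : X → ℝ := fun p => md τ.1 p.2.1 + md τ.2 p.2.2
def o1 (τ : Ty) : X → ℝ := fun p => om τ.1 p.2.1
def o2 (τ : Ty) : X → ℝ := fun p => om τ.2 p.2.2

/-- Locally bounded up to the faces. -/
def Bd0 (d : Dm) (f : X → ℝ) : Prop :=
  ∀ K, IsCompact K → K ⊆ d.Uc → ∃ C, ∀ p ∈ K, p ∈ d.U → |f p| ≤ C

/-- Locally bounded below by a positive constant up to the faces. -/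
def Lw (d : Dm) (f : X → ℝ) : Prop :=
  ∀ K, IsCompact K → K ⊆ d.Uc → ∃ c, 0 < c ∧ ∀ p ∈ K, p ∈ d.U → c ≤ f p

def Bk (d : Dm) : ℕ → (X → ℝ) → Prop
  | 0, f => Bd0 d f
  | k + 1, f => Bd0 d f ∧ ∀ v, Bk d k (D v f)

/-- Smooth, all derivatives locally bounded up to the faces. -/
structure Bd (d : Dm) (f : X → ℝ) : Prop where
  sm : ContDiffOn ℝ ∞ f d.U
  bk : ∀ k, Bk d k f

/-- Continuous and locally bounded up to the faces. -/
structure Lc (d : Dm) (f : X → ℝ) : Prop where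
  cont : ContinuousOn f d.U
  bd : Bd0 d f

/-- A relatively compact measurable region. -/
structure Reg (d : Dm) (A : Set (ℝ × ℝ)) : Prop where
  ms : MeasurableSet A
  sub : A ⊆ d.S
  cpt : ∃ K, IsCompact K ∧ A ⊆ K ∧ K ⊆ d.Sc

theorem isOpen_ok (b : Bool) : IsOpen (ok b) := by
  cases b <;> simp [ok, isOpen_Ioi]
theorem ok_subset (b : Bool) : ok b ⊆ okc b := by
  cases b <;> simp [ok, okc]
theorem iv_subset_ok (b : Bool) (r : ℝ) : iv b r ⊆ ok b := by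
  cases b <;> simp [ok, iv, Ioo_subset_Ioi_self]
theorem ivc_subset_okc (b : Bool) (r : ℝ) : ivc b r ⊆ okc b := by
  cases b <;> simp [okc, ivc, Icc_subset_Ici_self]
theorem iv_subset_ivc (b : Bool) (r : ℝ) : iv b r ⊆ ivc b r := by
  cases b <;> simp [iv, ivc, Ioo_subset_Icc_self]
theorem isOpen_iv (b : Bool) (r : ℝ) : IsOpen (iv b r) := by
  cases b <;> simp [iv, isOpen_Ioo]
theorem isCompact_ivc (b : Bool) (r : ℝ) : IsCompact (ivc b r) := by
  cases b <;> simp [ivc, isCompact_Icc]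
theorem iv_mono (b : Bool) {r s : ℝ} (h0 : 0 ≤ r) (h : r ≤ s) : iv b r ⊆ iv b s := by
  cases b
  · exact Ioo_subset_Ioo (neg_le_neg h) h
  · exact Ioo_subset_Ioo le_rfl (pow_le_pow_left₀ h0 h 2)
theorem ivc_mono (b : Bool) {r s : ℝ} (h0 : 0 ≤ r) (h : r ≤ s) : ivc b r ⊆ ivc b s := by
  cases b
  · exact Icc_subset_Icc (neg_le_neg h) h
  · exact Icc_subset_Icc le_rfl (pow_le_pow_left₀ h0 h 2)
theorem om_pos {b : Bool} {x : ℝ} (h : x ∈ ok b) : 0 < om b x := by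
  cases b
  · simp [om]
  · simpa [om, ok] using h
theorem isOpen_bx (τ : Ty) (r : ℝ) : IsOpen (bx τ r) := (isOpen_iv _ _).prod (isOpen_iv _ _)
theorem isCompact_bxc (τ : Ty) (r : ℝ) : IsCompact (bxc τ r) :=
  (isCompact_ivc _ _).prod (isCompact_ivc _ _)
theorem bx_subset_bxc (τ : Ty) (r : ℝ) : bx τ r ⊆ bxc τ r :=
  prod_mono (iv_subset_ivc _ _) (iv_subset_ivc _ _)
theorem bx_mono (τ : Ty) {r s : ℝ} (h0 : 0 ≤ r) (h : r ≤ s) : bx τ r ⊆ bx τ s :=
  prod_mono (iv_mono _ h0 h) (iv_mono _ h0 h)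
theorem bxc_mono (τ : Ty) {r s : ℝ} (h0 : 0 ≤ r) (h : r ≤ s) : bxc τ r ⊆ bxc τ s :=
  prod_mono (ivc_mono _ h0 h) (ivc_mono _ h0 h)
theorem An_subset (τ : Ty) (r s : ℝ) : An τ r s ⊆ bx τ r := fun _ h => h.1
theorem sm_om (b : Bool) : ContDiff ℝ ∞ (om b) := by
  cases b
  · exact contDiff_const
  · exact contDiff_id
theorem measurableSet_An (τ : Ty) (r s : ℝ) : MeasurableSet (An τ r s) :=
  (isOpen_bx τ r).measurableSet.inter
    ((isClosed_le continuous_const ((sm_om _).continuous.comp continuous_fst)).union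
      (isClosed_le continuous_const ((sm_om _).continuous.comp continuous_snd))).measurableSet

variable {d : Dm} {f g : X → ℝ} {p : X} {U : Set X}

theorem Dm.isOpen_S (d : Dm) : IsOpen d.S := d.oO.inter ((isOpen_ok _).prod (isOpen_ok _))
theorem Dm.isOpen_U (d : Dm) : IsOpen d.U := d.oI.prod d.isOpen_S
theorem Dm.S_subset (d : Dm) : d.S ⊆ d.Sc :=
  inter_subset_inter_right _ (prod_mono (ok_subset _) (ok_subset _))
theorem Dm.U_subset (d : Dm) : d.U ⊆ d.Uc := prod_mono Subset.rfl d.S_subset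
theorem Dm.o1_pos (hp : p ∈ d.U) : 0 < o1 d.τ p := om_pos hp.2.2.1
theorem Dm.o2_pos (hp : p ∈ d.U) : 0 < o2 d.τ p := om_pos hp.2.2.2

theorem Reg.mono {A B : Set (ℝ × ℝ)} (h : Reg d A) (hB : MeasurableSet B) (hs : B ⊆ A) :
    Reg d B :=
  ⟨hB, hs.trans h.sub, let ⟨K, h1, h2, h3⟩ := h.cpt; ⟨K, h1, hs.trans h2, h3⟩⟩

theorem reg_bx {r : ℝ} (h : bxc d.τ r ⊆ d.O) : Reg d (bx d.τ r) :=
  ⟨(isOpen_bx _ _).measurableSet,
    fun _ hy => ⟨h (bx_subset_bxc _ _ hy), iv_subset_ok _ _ hy.1, iv_subset_ok _ _ hy.2⟩,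
    _, isCompact_bxc _ _, bx_subset_bxc _ _,
    fun _ hy => ⟨h hy, ivc_subset_okc _ _ hy.1, ivc_subset_okc _ _ hy.2⟩⟩

/-! ### Local calculus -/

theorem diffAt (hU : IsOpen U) (hf : ContDiffOn ℝ ∞ f U) (hp : p ∈ U) : DifferentiableAt ℝ f p :=
  (hf.contDiffAt (hU.mem_nhds hp)).differentiableAt (by simp)

theorem smO_D (hU : IsOpen U) (v : X) (hf : ContDiffOn ℝ ∞ f U) : ContDiffOn ℝ ∞ (D v f) U :=
  (hf.fderiv_of_isOpen hU (m := ∞) (by simp)).clm_apply contDiffOn_const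

theorem D_congr (hU : IsOpen U) (v : X) (h : EqOn f g U) : EqOn (D v f) (D v g) U := fun p hp => by
  have : f =ᶠ[𝓝 p] g := h.eventuallyEq_of_mem (hU.mem_nhds hp)
  simp only [D, this.fderiv_eq]

theorem D_add_at (v : X) (hf : DifferentiableAt ℝ f p) (hg : DifferentiableAt ℝ g p) :
    D v (f + g) p = D v f p + D v g p := by
  simp only [D]; rw [fderiv_add hf hg]; rfl

theorem D_sub_at (v : X) (hf : DifferentiableAt ℝ f p) (hg : DifferentiableAt ℝ g p) :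
    D v (f - g) p = D v f p - D v g p := by
  simp only [D]; rw [fderiv_sub hf hg]; rfl

theorem D_mul_at (v : X) (hf : DifferentiableAt ℝ f p) (hg : DifferentiableAt ℝ g p) :
    D v (f * g) p = D v f p * g p + f p * D v g p := by
  simp only [D]
  rw [fderiv_mul hf hg]
  simp only [add_apply, smul_apply, smul_eq_mul]
  ring

theorem D_comp_at (v : X) {Φ : ℝ → ℝ} {c : ℝ} (hΦ : HasDerivAt Φ c (f p))
    (hf : DifferentiableAt ℝ f p) : D v (fun q => Φ (f q)) p = c * D v f p := by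
  have := (hΦ.comp_hasFDerivAt p hf.hasFDerivAt).fderiv
  simp only [D]
  change fderiv ℝ (Φ ∘ f) p v = _
  rw [this]; simp

theorem D_Iv_at (v : X) (hf : DifferentiableAt ℝ f p) (h0 : f p ≠ 0) :
    D v (Iv f) p = -(D v f p * Iv f p * Iv f p) := by
  have := D_comp_at v (hasDerivAt_inv h0) hf
  refine this.trans ?_
  simp only [Iv_apply]; field_simp

theorem D_comm_on (hU : IsOpen U) (hf : ContDiffOn ℝ ∞ f U) (v w : X) (hp : p ∈ U) :
    D v (D w f) p = D w (D v f) p := by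
  have h1 : ContDiffAt ℝ ∞ f p := hf.contDiffAt (hU.mem_nhds hp)
  have h2 : IsSymmSndFDerivAt ℝ f p := h1.isSymmSndFDerivAt (by
    simp only [minSmoothness_of_isRCLikeNormedField]
    exact WithTop.coe_le_coe.2 (le_top : ((2 : ℕ) : ℕ∞) ≤ ⊤))
  have h3 : DifferentiableAt ℝ (fderiv ℝ f) p :=
    (h1.fderiv_right (m := ∞) (by simp)).differentiableAt (by simp)
  have h4 : ∀ a b : X, D a (D b f) p = fderiv ℝ (fderiv ℝ f) p a b := fun a b => by
    show fderiv ℝ (fun q => fderiv ℝ f q b) p a = _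
    rw [fderiv_clm_apply h3 (differentiableAt_const b)]
    simp
  rw [h4, h4, h2.eq]

theorem D_lin (v w : X) (a b : ℝ) (f : X → ℝ) (p : X) :
    D (a • v + b • w) f p = a * D v f p + b * D w f p := by
  simp [D]

/-- Derivative along a line. -/
theorem hasDerivAt_ln (v q : X) {x : ℝ} (hf : DifferentiableAt ℝ f (q + x • v)) :
    HasDerivAt (fun s : ℝ => f (q + s • v)) (D v f (q + x • v)) x := by
  have h : HasDerivAt (fun s : ℝ => q + s • v) v x := by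
    simpa using ((hasDerivAt_id x).smul_const v).const_add q
  exact hf.hasFDerivAt.comp_hasDerivAt x h

theorem hasDerivAt_t {t : ℝ} {y : ℝ × ℝ} (hf : DifferentiableAt ℝ f (t, y)) :
    HasDerivAt (fun s : ℝ => f (s, y)) (D e0 f (t, y)) t := by
  have h : HasDerivAt (fun s : ℝ => ((s, y) : X)) e0 t :=
    (hasDerivAt_id t).prodMk (hasDerivAt_const t y)
  exact hf.hasFDerivAt.comp_hasDerivAt t h

theorem hasDerivAt_y1 {t a b : ℝ} (hf : DifferentiableAt ℝ f (t, a, b)) :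
    HasDerivAt (fun s : ℝ => f (t, s, b)) (D e1 f (t, a, b)) a := by
  have h : HasDerivAt (fun s : ℝ => ((t, s, b) : X)) e1 a :=
    (hasDerivAt_const a t).prodMk ((hasDerivAt_id a).prodMk (hasDerivAt_const a b))
  exact hf.hasFDerivAt.comp_hasDerivAt a h

theorem hasDerivAt_y2 {t a b : ℝ} (hf : DifferentiableAt ℝ f (t, a, b)) :
    HasDerivAt (fun s : ℝ => f (t, a, s)) (D e2 f (t, a, b)) b := by
  have h : HasDerivAt (fun s : ℝ => ((t, a, s) : X)) e2 b :=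
    (hasDerivAt_const b t).prodMk ((hasDerivAt_const b a).prodMk (hasDerivAt_id b))
  exact hf.hasFDerivAt.comp_hasDerivAt b h

/-! ### The classes `Lc` and `Bd` -/

theorem Bd0.congr (h : Bd0 d f) (e : EqOn f g d.U) : Bd0 d g := fun K h1 h2 =>
  let ⟨C, hC⟩ := h K h1 h2; ⟨C, fun p hp hU => e hU ▸ hC p hp hU⟩

theorem Bd0.of_le (h : Bd0 d f) (e : ∀ p ∈ d.U, |g p| ≤ |f p|) : Bd0 d g := fun K h1 h2 =>
  let ⟨C, hC⟩ := h K h1 h2; ⟨C, fun p hp hU => (e p hU).trans (hC p hp hU)⟩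

theorem bd0_of_cont (h : ContinuousOn f d.Uc) : Bd0 d f := fun _ h1 h2 =>
  let ⟨C, hC⟩ := h1.exists_bound_of_continuousOn (h.mono h2); ⟨C, fun p hp _ => hC p hp⟩

theorem Bd0.comp₂ {Φ : ℝ × ℝ → ℝ} (hΦ : Continuous Φ) (hf : Bd0 d f) (hg : Bd0 d g) :
    Bd0 d fun p => Φ (f p, g p) := fun K h1 h2 => by
  obtain ⟨A, hA⟩ := hf K h1 h2
  obtain ⟨B, hB⟩ := hg K h1 h2
  obtain ⟨C, hC⟩ := (isCompact_Icc (a := ((-A, -B) : ℝ × ℝ)) (b := (A, B))).exists_bound_of_continuousOn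
    hΦ.continuousOn
  exact ⟨C, fun p hp hU => hC _ ⟨⟨(abs_le.mp (hA p hp hU)).1, (abs_le.mp (hB p hp hU)).1⟩,
    (abs_le.mp (hA p hp hU)).2, (abs_le.mp (hB p hp hU)).2⟩⟩

theorem Bd0.comp {Φ : ℝ → ℝ} (hΦ : Continuous Φ) (hf : Bd0 d f) : Bd0 d fun p => Φ (f p) :=
  Bd0.comp₂ (Φ := fun q => Φ q.1) (hΦ.comp continuous_fst) hf hf
theorem Bd0.add (hf : Bd0 d f) (hg : Bd0 d g) : Bd0 d (f + g) := Bd0.comp₂ continuous_add hf hg
theorem Bd0.mul (hf : Bd0 d f) (hg : Bd0 d g) : Bd0 d (f * g) := Bd0.comp₂ continuous_mul hf hg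

theorem Lw.pos (h : Lw d f) (hp : p ∈ d.U) : 0 < f p :=
  let ⟨_, h1, h2⟩ := h {p} isCompact_singleton (singleton_subset_iff.mpr (d.U_subset hp))
  h1.trans_le (h2 p rfl hp)

theorem Lw.inv (h : Lw d f) : Bd0 d (Iv f) := fun K h1 h2 =>
  let ⟨c, hc, hC⟩ := h K h1 h2
  ⟨c⁻¹, fun p hp hU => by
    have := hC p hp hU
    rw [Iv_apply, abs_of_pos (inv_pos.mpr (hc.trans_le this))]
    exact inv_anti₀ hc this⟩

theorem Lc.congr (h : Lc d f) (e : EqOn f g d.U) : Lc d g := ⟨h.cont.congr e.symm, h.bd.congr e⟩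
theorem Lc.comp₂ {Φ : ℝ × ℝ → ℝ} (hΦ : Continuous Φ) (hf : Lc d f) (hg : Lc d g) :
    Lc d fun p => Φ (f p, g p) :=
  ⟨hΦ.comp_continuousOn (hf.cont.prodMk hg.cont), hf.bd.comp₂ hΦ hg.bd⟩
theorem Lc.comp {Φ : ℝ → ℝ} (hΦ : Continuous Φ) (hf : Lc d f) : Lc d fun p => Φ (f p) :=
  ⟨hΦ.comp_continuousOn hf.cont, hf.bd.comp hΦ⟩
theorem Lc.add (hf : Lc d f) (hg : Lc d g) : Lc d (f + g) := Lc.comp₂ continuous_add hf hg
theorem Lc.sub (hf : Lc d f) (hg : Lc d g) : Lc d (f - g) := Lc.comp₂ continuous_sub hf hg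
theorem Lc.mul (hf : Lc d f) (hg : Lc d g) : Lc d (f * g) := Lc.comp₂ continuous_mul hf hg
theorem Lc.neg (hf : Lc d f) : Lc d (-f) := Lc.comp continuous_neg hf
theorem Lc.abs (hf : Lc d f) : Lc d fun p => |f p| := Lc.comp continuous_abs hf
theorem Lc.sqrt (hf : Lc d f) : Lc d fun p => √(f p) := Lc.comp Real.continuous_sqrt hf
theorem Lc.pow (hf : Lc d f) (n : ℕ) : Lc d fun p => f p ^ n := Lc.comp (continuous_pow n) hf
theorem lc_of_cont (h : Continuous f) : Lc d f := ⟨h.continuousOn, bd0_of_cont h.continuousOn⟩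

theorem Bk.bd0 {k : ℕ} (h : Bk d k f) : Bd0 d f := by
  cases k
  · exact h
  · exact h.1

theorem Bk.mono {k : ℕ} (h : Bk d (k + 1) f) : Bk d k f := by
  induction k generalizing f with
  | zero => exact h.1
  | succ k ih => exact ⟨h.1, fun v => ih (h.2 v)⟩

theorem Bk.congr {k : ℕ} (h : Bk d k f) (e : EqOn f g d.U) : Bk d k g := by
  induction k generalizing f g with
  | zero => exact Bd0.congr h e
  | succ k ih => exact ⟨h.1.congr e, fun v => ih (h.2 v) (D_congr d.isOpen_U v e)⟩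

theorem Bk.add {k : ℕ} (sf : ContDiffOn ℝ ∞ f d.U) (sg : ContDiffOn ℝ ∞ g d.U) (hf : Bk d k f)
    (hg : Bk d k g) : Bk d k (f + g) := by
  induction k generalizing f g with
  | zero => exact Bd0.add hf hg
  | succ k ih =>
    exact ⟨hf.1.add hg.1, fun v => (ih (smO_D d.isOpen_U v sf) (smO_D d.isOpen_U v sg) (hf.2 v)
      (hg.2 v)).congr fun p hp =>
        (D_add_at v (diffAt d.isOpen_U sf hp) (diffAt d.isOpen_U sg hp)).symm⟩

theorem Bk.mul {k : ℕ} (sf : ContDiffOn ℝ ∞ f d.U) (sg : ContDiffOn ℝ ∞ g d.U) (hf : Bk d k f)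
    (hg : Bk d k g) : Bk d k (f * g) := by
  induction k generalizing f g with
  | zero => exact Bd0.mul hf hg
  | succ k ih =>
    refine ⟨hf.1.mul hg.1, fun v => ?_⟩
    have s1 := smO_D d.isOpen_U v sf
    have s2 := smO_D d.isOpen_U v sg
    exact (Bk.add (s1.mul sg) (sf.mul s2) (ih s1 sg (hf.2 v) hg.mono)
      (ih sf s2 hf.mono (hg.2 v))).congr fun p hp =>
        (D_mul_at v (diffAt d.isOpen_U sf hp) (diffAt d.isOpen_U sg hp)).symm

theorem Bd.bd0 (h : Bd d f) : Bd0 d f := h.bk 0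
theorem Bd.lc (h : Bd d f) : Lc d f := ⟨h.sm.continuousOn, h.bd0⟩
theorem Bd.diffAt (h : Bd d f) (hp : p ∈ d.U) : DifferentiableAt ℝ f p :=
  I.diffAt d.isOpen_U h.sm hp
theorem Bd.congr (h : Bd d f) (e : EqOn f g d.U) : Bd d g :=
  ⟨h.sm.congr e.symm, fun k => (h.bk k).congr e⟩
theorem Bd.D (h : Bd d f) (v : X) : Bd d (D v f) :=
  ⟨smO_D d.isOpen_U v h.sm, fun k => (h.bk (k + 1)).2 v⟩
theorem Bd.add (hf : Bd d f) (hg : Bd d g) : Bd d (f + g) :=
  ⟨hf.sm.add hg.sm, fun k => Bk.add hf.sm hg.sm (hf.bk k) (hg.bk k)⟩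
theorem Bd.mul (hf : Bd d f) (hg : Bd d g) : Bd d (f * g) :=
  ⟨hf.sm.mul hg.sm, fun k => Bk.mul hf.sm hg.sm (hf.bk k) (hg.bk k)⟩

/-- A function smooth on an open set containing the closed domain. -/
theorem bd_of_smO (hU : IsOpen U) (hs : d.Uc ⊆ U) (hf : ContDiffOn ℝ ∞ f U) : Bd d f := by
  refine ⟨hf.mono (d.U_subset.trans hs), fun k => ?_⟩
  induction k generalizing f with
  | zero => exact bd0_of_cont (hf.continuousOn.mono hs)
  | succ k ih => exact ⟨bd0_of_cont (hf.continuousOn.mono hs), fun v => ih (smO_D hU v hf)⟩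

theorem bd_of_sm (hf : Sm f) : Bd d f := bd_of_smO isOpen_univ (subset_univ _) hf.contDiffOn
theorem bd_K (c : ℝ) : Bd d (K c) := bd_of_sm (sm_K c)
theorem Bd.neg (hf : Bd d f) : Bd d (-f) :=
  ((bd_K (-1)).mul hf).congr fun p _ => by simp
theorem Bd.sub (hf : Bd d f) (hg : Bd d g) : Bd d (f - g) :=
  (hf.add hg.neg).congr fun p _ => by simp [sub_eq_add_neg]
theorem sm_o1 (τ : Ty) : Sm (o1 τ) := (sm_om _).comp (contDiff_fst.comp contDiff_snd)
theorem sm_o2 (τ : Ty) : Sm (o2 τ) := (sm_om _).comp (contDiff_snd.comp contDiff_snd)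
theorem bd_o1 : Bd d (o1 d.τ) := bd_of_sm (sm_o1 _)
theorem bd_o2 : Bd d (o2 d.τ) := bd_of_sm (sm_o2 _)

theorem Bd.comp {Φ : ℝ → ℝ} (hΦ : ContDiff ℝ ∞ Φ) (hf : Bd d f) : Bd d fun p => Φ (f p) := by
  refine ⟨hΦ.comp_contDiffOn hf.sm, fun k => ?_⟩
  induction k generalizing Φ with
  | zero => exact hf.bd0.comp hΦ.continuous
  | succ k ih =>
    have h1 : ContDiff ℝ ∞ (deriv Φ) := (contDiff_infty_iff_deriv.mp hΦ).2
    exact ⟨hf.bd0.comp hΦ.continuous, fun v =>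
      (Bk.mul (h1.comp_contDiffOn hf.sm) (hf.D v).sm (ih h1) ((hf.D v).bk k)).congr fun p hp =>
        (D_comp_at v (hΦ.differentiable (by simp) _).hasDerivAt (hf.diffAt hp)).symm⟩

theorem Bd.inv (hf : Bd d f) (hl : Lw d f) : Bd d (Iv f) := by
  have hs : ContDiffOn ℝ ∞ (Iv f) d.U := hf.sm.inv fun p hp => (hl.pos hp).ne'
  refine ⟨hs, fun k => ?_⟩
  induction k with
  | zero => exact hl.inv
  | succ k ih =>
    refine ⟨hl.inv, fun v => ?_⟩
    have h1 := (hf.D v).neg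
    exact (Bk.mul (h1.sm.mul hs) hs (Bk.mul h1.sm hs (h1.bk k) ih) ih).congr fun p hp => by
      rw [D_Iv_at v (hf.diffAt hp) (hl.pos hp).ne']; simp

theorem Bd.log (hf : Bd d f) (hl : Lw d f) : Bd d (Lg f) := by
  have h0 : Bd0 d (Lg f) := fun K h1 h2 => by
    obtain ⟨c, hc, hC⟩ := hl K h1 h2
    obtain ⟨A, hA⟩ := hf.bd0 K h1 h2
    obtain ⟨C, h3⟩ := (isCompact_Icc (a := c) (b := A)).exists_bound_of_continuousOn
      (Real.continuousOn_log.mono fun x hx => (hc.trans_le hx.1).ne')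
    exact ⟨C, fun p hp hU => h3 _ ⟨hC p hp hU, (le_abs_self _).trans (hA p hp hU)⟩⟩
  refine ⟨hf.sm.log fun p hp => (hl.pos hp).ne', fun k => ?_⟩
  cases k with
  | zero => exact h0
  | succ k =>
    exact ⟨h0, fun v => (((hf.inv hl).mul (hf.D v)).bk k).congr fun p hp =>
      (D_comp_at v (Real.hasDerivAt_log (hl.pos hp).ne') (hf.diffAt hp)).symm⟩

/-! ### Integration over relatively compact regions -/

variable {A : Set (ℝ × ℝ)} {t : ℝ}

theorem Reg.finite (h : Reg d A) : volume A ≠ ⊤ :=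
  let ⟨_, h1, h2, _⟩ := h.cpt; ((measure_mono h2).trans_lt h1.measure_lt_top).ne

theorem Lc.slice (hf : Lc d f) (ht : t ∈ d.I) : ContinuousOn (fun y => f (t, y)) d.S :=
  hf.cont.comp (continuous_const.prodMk continuous_id).continuousOn fun _ hy => ⟨ht, hy⟩

/-- A bound on a compact time set times a region. -/
theorem Bd0.bound (hf : Bd0 d f) (hA : Reg d A) {J : Set ℝ} (hJ : IsCompact J) (hs : J ⊆ d.I) :
    ∃ C, ∀ s ∈ J, ∀ y ∈ A, |f (s, y)| ≤ C := by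
  obtain ⟨K, h1, h2, h3⟩ := hA.cpt
  obtain ⟨C, hC⟩ := hf (J ×ˢ K) (hJ.prod h1) (prod_mono hs h3)
  exact ⟨C, fun s hs' y hy => hC (s, y) ⟨hs', h2 hy⟩ ⟨hs hs', hA.sub hy⟩⟩

theorem Lc.meas (hf : Lc d f) (hA : Reg d A) (ht : t ∈ d.I) :
    AEStronglyMeasurable (fun y => f (t, y)) (volume.restrict A) :=
  ((hf.slice ht).mono hA.sub).aestronglyMeasurable hA.ms

theorem Lc.integrableOn (hf : Lc d f) (hA : Reg d A) (ht : t ∈ d.I) :
    IntegrableOn (fun y => f (t, y)) A := by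
  obtain ⟨C, hC⟩ := hf.bd.bound hA isCompact_singleton (singleton_subset_iff.mpr ht)
  exact Integrable.mono' (integrableOn_const (C := C) hA.finite) (hf.meas hA ht)
    ((ae_restrict_iff' hA.ms).mpr (Eventually.of_forall fun y hy => hC t rfl y hy))

theorem Lc.continuousOn_int (hf : Lc d f) (hA : Reg d A) :
    ContinuousOn (fun t => ∫ y in A, f (t, y)) d.I := fun t ht => by
  obtain ⟨J, hJ, hJs, hJc⟩ := local_compact_nhds (d.oI.mem_nhds ht)
  obtain ⟨C, hC⟩ := hf.bd.bound hA hJc hJs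
  refine (continuousAt_of_dominated (bound := fun _ => C) ?_ ?_ ?_ ?_).continuousWithinAt
  · filter_upwards [d.oI.mem_nhds ht] with s hs using hf.meas hA hs
  · filter_upwards [hJ] with s hs
    exact (ae_restrict_iff' hA.ms).mpr (Eventually.of_forall fun y hy => hC s hs y hy)
  · exact integrableOn_const hA.finite
  · refine (ae_restrict_iff' hA.ms).mpr (Eventually.of_forall fun y hy => ?_)
    exact (hf.cont.continuousAt (d.isOpen_U.mem_nhds ⟨ht, hA.sub hy⟩)).comp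
      (f := fun s : ℝ => ((s, y) : X)) (continuous_id.prodMk continuous_const).continuousAt

theorem Bd.hasDerivAt_int (hf : Bd d f) (hA : Reg d A) (ht : t ∈ d.I) :
    HasDerivAt (fun t => ∫ y in A, f (t, y)) (∫ y in A, MP_2cea5e_gt.D e0 f (t, y)) t := by
  obtain ⟨J, hJ, hJs, hJc⟩ := local_compact_nhds (d.oI.mem_nhds ht)
  obtain ⟨C, hC⟩ := (hf.D e0).bd0.bound hA hJc hJs
  refine (hasDerivAt_integral_of_dominated_loc_of_deriv_le (μ := volume.restrict A)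
    (F := fun s y => f (s, y)) (F' := fun s y => MP_2cea5e_gt.D e0 f (s, y)) (bound := fun _ => C) hJ ?_
    (hf.lc.integrableOn hA ht) ((hf.D e0).lc.meas hA ht) ?_ (integrableOn_const hA.finite) ?_).2
  · filter_upwards [d.oI.mem_nhds ht] with s hs using hf.lc.meas hA hs
  · exact (ae_restrict_iff' hA.ms).mpr (Eventually.of_forall fun y hy s hs => hC s hs y hy)
  · exact (ae_restrict_iff' hA.ms).mpr (Eventually.of_forall fun y hy s hs =>
      hasDerivAt_t (hf.diffAt ⟨hJs hs, hA.sub hy⟩))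

end Pool.Agent.P.MP_2cea5e_gt.I
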