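import Pool.Agent.P.MP_2cea5e_gt.I.St3

/-!
Chapter I: the crude bound for the excess away from the corner.
-/

open scoped ContDiff Topology
open MeasureTheory Set Filter

noncomputable section

set_option linter.dupNamespace false

namespace Pool.Agent.P.MP_2cea5e_gt.I

namespace Crude

variable {d : Dm} {f g : X → ℝ} {t : ℝ} {V : Set (ℝ × ℝ)} {p : X}

/-- Spatial derivatives only depend on the time slice. -/
theorem slice (hf : Bd d f) (hg : Bd d g) (ht : t ∈ d.I) (hV : IsOpen V) (hs : V ⊆ d.S)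
    (h : ∀ y ∈ V, f (t, y) = g (t, y)) :
    (∀ y ∈ V, D e1 f (t, y) = D e1 g (t, y)) ∧ ∀ y ∈ V, D e2 f (t, y) = D e2 g (t, y) := by
  refine ⟨fun y hy => ?_, fun y hy => ?_⟩
  · obtain ⟨a, b⟩ := y
    have h1 := hasDerivAt_y1 (t := t) (a := a) (b := b) (hf.diffAt ⟨ht, hs hy⟩)
    have h2 := hasDerivAt_y1 (t := t) (a := a) (b := b) (hg.diffAt ⟨ht, hs hy⟩)
    refine h1.unique (h2.congr_of_eventuallyEq ?_)
    have : ∀ᶠ s in 𝓝 a, (s, b) ∈ V :=
      (continuous_id.prodMk continuous_const).continuousAt.eventually (hV.mem_nhds hy)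
    filter_upwards [this] with s hs' using h _ hs'
  · obtain ⟨a, b⟩ := y
    have h1 := hasDerivAt_y2 (t := t) (a := a) (b := b) (hf.diffAt ⟨ht, hs hy⟩)
    have h2 := hasDerivAt_y2 (t := t) (a := a) (b := b) (hg.diffAt ⟨ht, hs hy⟩)
    refine h1.unique (h2.congr_of_eventuallyEq ?_)
    have : ∀ᶠ s in 𝓝 b, (a, s) ∈ V :=
      (continuous_const.prodMk continuous_id).continuousAt.eventually (hV.mem_nhds hy)
    filter_upwards [this] with s hs' using h _ hs'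

theorem ctr_slice (H : T2) (hf : Bd d f) (hg : Bd d g) (ht : t ∈ d.I) (hV : IsOpen V)
    (hs : V ⊆ d.S) (h : ∀ y ∈ V, f (t, y) = g (t, y)) {y : ℝ × ℝ} (hy : y ∈ V) :
    H.ctr f (t, y) = H.ctr g (t, y) := by
  obtain ⟨h1, h2⟩ := slice hf hg ht hV hs h
  have h3 := (slice (hf.D e1) (hg.D e1) ht hV hs h1).1 y hy
  obtain ⟨h4, h5⟩ := slice (hf.D e2) (hg.D e2) ht hV hs h2
  simp only [T2.ctr, h11, h12, h22, Pi.add_apply, Pi.mul_apply, h3, h4 y hy, h5 y hy]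

theorem DD_comp {Φ Φ₁ Φ₂ : ℝ → ℝ} (h1 : ∀ x, HasDerivAt Φ (Φ₁ x) x)
    (h2 : ∀ x, HasDerivAt Φ₁ (Φ₂ x) x) (hf : Bd d f) (v w : X) (hp : p ∈ d.U) :
    D v (D w fun q => Φ (f q)) p =
      Φ₂ (f p) * D v f p * D w f p + Φ₁ (f p) * D v (D w f) p := by
  have e : EqOn (D w fun q => Φ (f q)) ((fun q => Φ₁ (f q)) * D w f) d.U := fun q hq =>
    D_comp_at w (h1 _) (hf.diffAt hq)
  have k : DifferentiableAt ℝ (fun q => Φ₁ (f q)) p :=
    (h2 (f p)).differentiableAt.comp p (hf.diffAt hp)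
  rw [D_congr d.isOpen_U v e hp, D_mul_at v k ((hf.D w).diffAt hp),
    D_comp_at v (h2 _) (hf.diffAt hp)]

/-- The quadratic function `|y|² / 4`. -/
def qd : X → ℝ := K (1 / 4) * (Li 1 0 * Li 1 0 + Li 0 1 * Li 0 1)

theorem sm_qd : Sm qd :=
  sm_mul (sm_K _) (sm_add (sm_mul (sm_Li _ _) (sm_Li _ _)) (sm_mul (sm_Li _ _) (sm_Li _ _)))

theorem qd_apply (p : X) : qd p = (p.2.1 ^ 2 + p.2.2 ^ 2) / 4 := by
  simp [qd, Li_apply]; ring

theorem D_qd (v : X) : D v qd = Li (v.2.1 / 2) (v.2.2 / 2) := by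
  rw [qd, D_mul v (sm_K _) (sm_add (sm_mul (sm_Li _ _) (sm_Li _ _)) (sm_mul (sm_Li _ _) (sm_Li _ _))),
    D_add v (sm_mul (sm_Li _ _) (sm_Li _ _)) (sm_mul (sm_Li _ _) (sm_Li _ _)),
    D_mul v (sm_Li _ _) (sm_Li _ _), D_mul v (sm_Li _ _) (sm_Li _ _), D_K, D_Li, D_Li]
  funext p
  simp [Li_apply]; ring

theorem DD_add (hf : Bd d f) (hg : Bd d g) (v w : X) (hp : p ∈ d.U) :
    D v (D w (f + g)) p = D v (D w f) p + D v (D w g) p := by
  have e : EqOn (D w (f + g)) (D w f + D w g) d.U := fun q hq =>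
    D_add_at w (hf.diffAt hq) (hg.diffAt hq)
  rw [D_congr d.isOpen_U v e hp, D_add_at v ((hf.D w).diffAt hp) ((hg.D w).diffAt hp)]

/-- The barrier profile. -/
theorem exists_profile : ∃ (Φ Φ₁ Φ₂ : ℝ → ℝ) (c : ℝ), 0 < c ∧ ContDiff ℝ ∞ Φ ∧
    (∀ x, HasDerivAt Φ (Φ₁ x) x) ∧ (∀ x, HasDerivAt Φ₁ (Φ₂ x) x) ∧
    (∀ x, 0 ≤ Φ x ∧ Φ x ≤ 1) ∧ (∀ x, 19 / 100 ≤ x → Φ x = 0) ∧ (∀ x, -2 ≤ Φ₁ x ∧ Φ₁ x ≤ 0) ∧
    (∀ x, -1 / 10 ≤ x → 0 ≤ Φ₂ x) ∧ ∀ x, -1 / 10 ≤ x → x ≤ 37 / 200 → Φ₁ x ≤ -c := by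
  have d1 : ∀ x : ℝ, HasDerivAt expNegInvGlue (x⁻¹ ^ 2 * expNegInvGlue x) x := fun x => by
    simpa using expNegInvGlue.hasDerivAt_polynomial_eval_inv_mul 1 x
  have d2 : ∀ x : ℝ, HasDerivAt (fun x : ℝ => x⁻¹ ^ 2 * expNegInvGlue x)
      (x⁻¹ ^ 2 * (x⁻¹ ^ 2 - 2 * x⁻¹) * expNegInvGlue x) x := fun x => by
    have := expNegInvGlue.hasDerivAt_polynomial_eval_inv_mul (Polynomial.X ^ 2) x
    convert this using 1
    · funext z; simp
    · simp only [Polynomial.derivative_X_pow, Polynomial.eval_mul, Polynomial.eval_sub,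
        Polynomial.eval_pow, Polynomial.eval_X, Polynomial.eval_C]
      norm_num
  have dl : ∀ x : ℝ, HasDerivAt (fun x : ℝ => 19 / 100 - x) (-1) x := fun x => by
    simpa using (hasDerivAt_id x).const_sub (19 / 100 : ℝ)
  refine ⟨fun x => expNegInvGlue (19 / 100 - x),
    fun x => -((19 / 100 - x)⁻¹ ^ 2 * expNegInvGlue (19 / 100 - x)),
    fun x => (19 / 100 - x)⁻¹ ^ 2 * ((19 / 100 - x)⁻¹ ^ 2 - 2 * (19 / 100 - x)⁻¹) *
      expNegInvGlue (19 / 100 - x), expNegInvGlue (1 / 200), expNegInvGlue.pos_of_pos (by norm_num),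
    expNegInvGlue.contDiff.comp (contDiff_const.sub contDiff_id), fun x => ?_, fun x => ?_,
    fun x => ⟨expNegInvGlue.nonneg _, ?_⟩, fun x hx => expNegInvGlue.zero_of_nonpos (by linarith),
    fun x => ⟨?_, ?_⟩, fun x hx => ?_, fun x h1 h2 => ?_⟩
  · have := (d1 (19 / 100 - x)).comp x (dl x)
    rw [mul_neg_one] at this
    exact this
  · have := ((d2 (19 / 100 - x)).comp x (dl x)).neg
    rw [mul_neg_one, neg_neg] at this
    exact this
  · simp only [expNegInvGlue]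
    split_ifs with h
    · norm_num
    · exact Real.exp_le_one_iff.2 (neg_nonpos.2 (inv_nonneg.2 (le_of_lt (not_le.1 h))))
  · rw [neg_le_neg_iff]
    unfold expNegInvGlue
    split_ifs with h
    · norm_num
    · have h0 : 0 ≤ (19 / 100 - x)⁻¹ := inv_nonneg.2 (le_of_lt (not_le.1 h))
      generalize (19 / 100 - x)⁻¹ = s at h0
      have := Real.quadratic_le_exp_of_nonneg h0
      rw [Real.exp_neg, ← div_eq_mul_inv, div_le_iff₀ (Real.exp_pos s)]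
      linarith
  · exact neg_nonpos.2 (mul_nonneg (sq_nonneg _) (expNegInvGlue.nonneg _))
  · by_cases h : 19 / 100 - x ≤ 0
    · simp only [expNegInvGlue.zero_of_nonpos h, mul_zero, le_refl]
    · have h2 : 2 ≤ (19 / 100 - x)⁻¹ := by
        rw [le_inv_comm₀ (by norm_num) (not_le.1 h)]
        linarith
      refine mul_nonneg (mul_nonneg (sq_nonneg _) ?_) (expNegInvGlue.nonneg _)
      nlinarith
  · rw [neg_le_neg_iff]
    have h3 : 1 ≤ (19 / 100 - x)⁻¹ := by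
      rw [le_inv_comm₀ (by norm_num) (by linarith)]
      linarith
    have h4 : expNegInvGlue (1 / 200) ≤ expNegInvGlue (19 / 100 - x) :=
      expNegInvGlue.monotone (by linarith)
    have h5 : 1 ≤ (19 / 100 - x)⁻¹ ^ 2 := one_le_pow₀ h3
    have h6 := expNegInvGlue.nonneg (19 / 100 - x)
    nlinarith

theorem om_le_one {b : Bool} {x : ℝ} (h : x ∈ iv b 1) : om b x ≤ 1 := by
  cases b
  · simp [om]
  · simp only [iv, om, if_true, mem_Ioo] at h ⊢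
    linarith [h.2]

theorem sq_ge {b : Bool} {x : ℝ} (h : x ∈ iv b 1) (h' : x ∉ ivc b (47 / 50)) :
    39 / 50 ≤ x ^ 2 := by
  cases b
  · simp only [iv, ivc, Bool.false_eq_true, if_false, mem_Icc, not_and_or, not_le] at h h'
    rcases h' with h' | h' <;> nlinarith
  · simp only [iv, ivc, if_true, mem_Icc, mem_Ioo, not_and_or, not_le] at h h'
    rcases h' with h' | h' <;> nlinarith [h.1]

theorem sq_le {b : Bool} {x : ℝ} (h : x ∈ iv b (3 / 5)) : x ^ 2 ≤ 9 / 25 := by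
  cases b
  · simp only [iv, Bool.false_eq_true, if_false, mem_Ioo] at h
    nlinarith [h.1, h.2]
  · simp only [iv, if_true, mem_Ioo] at h
    nlinarith [h.1, h.2]

theorem ivc_iv (b : Bool) {r r' x : ℝ} (h0 : 0 < r) (h : r < r') (h1 : x ∈ iv b 1)
    (h2 : x ∈ ivc b r) : x ∈ iv b r' := by
  cases b
  · simp only [iv, ivc, Bool.false_eq_true, if_false] at *
    exact ⟨by linarith [h2.1], by linarith [h2.2]⟩
  · simp only [iv, ivc, if_true] at *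
    exact ⟨h1.1, by nlinarith [h2.2]⟩

theorem isClosed_bxc (τ : Ty) (r : ℝ) : IsClosed (bxc τ r) := (isCompact_bxc τ r).isClosed

/-- A product cutoff. -/
theorem exists_cut (h0 : StCut) (τ : Ty) {r R : ℝ} (hr : 0 < r) (hR : r < R) :
    ∃ η : ℝ × ℝ → ℝ, ContDiff ℝ ∞ η ∧ (∀ y, 0 ≤ η y ∧ η y ≤ 1) ∧ (∀ y ∈ bxc τ r, η y = 1) ∧
      ∀ y ∈ bx τ 1, y ∉ bxc τ R → η y = 0 := by
  obtain ⟨a, a1, a2, a3, a4, -⟩ := h0 τ.1 r R hr hR
  obtain ⟨b, b1, b2, b3, b4, -⟩ := h0 τ.2 r R hr hR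
  refine ⟨fun y => a y.1 * b y.2, (a1.comp contDiff_fst).mul (b1.comp contDiff_snd),
    fun y => ⟨mul_nonneg (a2 _).1 (b2 _).1, mul_le_one₀ (a2 _).2 (b2 _).1 (b2 _).2⟩,
    fun y hy => by simp only [(a3 _ hy.1).1, (b3 _ hy.2).1, mul_one], fun y hy hn => ?_⟩
  by_contra H
  exact hn ⟨(a4 _ (ok_subset _ (iv_subset_ok _ _ hy.1)) (left_ne_zero_of_mul H)).1,
    (b4 _ (ok_subset _ (iv_subset_ok _ _ hy.2)) (right_ne_zero_of_mul H)).1⟩

/-- A cutoff that avoids the corner. -/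
theorem exists_eta (h0 : StCut) (τ : Ty) : ∃ (η : ℝ × ℝ → ℝ) (V : Set (ℝ × ℝ)), ContDiff ℝ ∞ η ∧
    (∀ y, 0 ≤ η y ∧ η y ≤ 1) ∧ (∀ y ∈ An τ (3 / 5) (1 / 5), η y = 1) ∧ IsOpen V ∧ V ⊆ bx τ 1 ∧
    (∀ y ∈ V, η y = 0) ∧ ∀ y ∈ bx τ 1, y ∉ V → y ∈ An τ (19 / 20) (1 / 10) := by
  obtain ⟨a, a1, a2, a3, a4⟩ := exists_cut h0 τ (r := 3 / 5) (R := 9 / 10) (by norm_num) (by norm_num)
  obtain ⟨c, c1, c2, c3, c4, -⟩ := h0 true (3 / 20) (19 / 100) (by norm_num) (by norm_num)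
  have c5 : ∀ x : ℝ, (1 / 5) ^ 2 ≤ x → c x = 0 := fun x hx => by
    by_contra H
    have := (c4 x (by simp only [okc, if_true, mem_Ici]; nlinarith) H).1
    simp only [ivc, if_true, mem_Icc] at this
    nlinarith [this.2]
  have cl : IsClosed {y : ℝ × ℝ | (3 / 20) ^ 2 ≤ om τ.1 y.1 ∨ (3 / 20) ^ 2 ≤ om τ.2 y.2} :=
    (isClosed_le continuous_const ((sm_om _).continuous.comp continuous_fst)).union
      (isClosed_le continuous_const ((sm_om _).continuous.comp continuous_snd))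
  refine ⟨fun y => a y * (1 - c (om τ.1 y.1) * c (om τ.2 y.2)),
    bx τ 1 ∩ (bxc τ (9 / 10) ∩ {y | (3 / 20) ^ 2 ≤ om τ.1 y.1 ∨ (3 / 20) ^ 2 ≤ om τ.2 y.2})ᶜ,
    a1.mul (contDiff_const.sub ((c1.comp ((sm_om _).comp contDiff_fst)).mul
      (c1.comp ((sm_om _).comp contDiff_snd)))), fun y => ?_, fun y hy => ?_,
    (isOpen_bx _ _).inter ((isClosed_bxc _ _).inter cl).isOpen_compl, inter_subset_left,
    fun y hy => ?_, fun y hy hn => ?_⟩
  · have k1 := mul_nonneg (c2 (om τ.1 y.1)).1 (c2 (om τ.2 y.2)).1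
    have k2 := mul_le_one₀ (c2 (om τ.1 y.1)).2 (c2 (om τ.2 y.2)).1 (c2 (om τ.2 y.2)).2
    exact ⟨mul_nonneg (a2 y).1 (by linarith), mul_le_one₀ (a2 y).2 (by linarith) (by linarith)⟩
  · have k := a3 y (bx_subset_bxc _ _ hy.1)
    rcases hy.2 with h | h <;> simp only [k, c5 _ h, zero_mul, mul_zero, sub_zero, mul_one]
  · by_cases k : y ∈ bxc τ (9 / 10)
    · have k' : ¬ ((3 / 20) ^ 2 ≤ om τ.1 y.1 ∨ (3 / 20) ^ 2 ≤ om τ.2 y.2) := fun H => hy.2 ⟨k, H⟩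
      rw [not_or, not_le, not_le] at k'
      have e1 := (c3 (om τ.1 y.1) ⟨(om_pos (iv_subset_ok _ _ hy.1.1)).le, k'.1.le⟩).1
      have e2 := (c3 (om τ.2 y.2) ⟨(om_pos (iv_subset_ok _ _ hy.1.2)).le, k'.2.le⟩).1
      simp only [e1, e2, mul_one, sub_self, mul_zero]
    · simp only [a4 y hy.1 k, zero_mul]
  · have k : y ∈ bxc τ (9 / 10) ∩
        {y | (3 / 20) ^ 2 ≤ om τ.1 y.1 ∨ (3 / 20) ^ 2 ≤ om τ.2 y.2} := by
      by_contra H
      exact hn ⟨hy, H⟩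
    refine ⟨⟨ivc_iv _ (by norm_num) (by norm_num) hy.1 k.1.1,
      ivc_iv _ (by norm_num) (by norm_num) hy.2 k.1.2⟩, ?_⟩
    rcases k.2 with h | h
    · left; linarith
    · right; linarith

/-- Functions that do not depend on time. -/
def Stat (a : X → ℝ) : Prop := ∀ t y, a (t, y) = a (0, y)

theorem Stat.D {a : X → ℝ} (h : Stat a) (ha : Sm a) : Stat (D e1 a) ∧ Stat (D e2 a) := by
  refine ⟨fun t y => ?_, fun t y => ?_⟩
  · obtain ⟨b, c⟩ := y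
    have h1 := hasDerivAt_y1 (t := t) (a := b) (b := c) (ha.diff _)
    have h2 := hasDerivAt_y1 (t := 0) (a := b) (b := c) (ha.diff _)
    simp only [h t] at h1
    exact h1.unique h2
  · obtain ⟨b, c⟩ := y
    have h1 := hasDerivAt_y2 (t := t) (a := b) (b := c) (ha.diff _)
    have h2 := hasDerivAt_y2 (t := 0) (a := b) (b := c) (ha.diff _)
    simp only [h t] at h1
    exact h1.unique h2

theorem Stat.bound {a : X → ℝ} (h : Stat a) (ha : Sm a) (τ : Ty) :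
    ∃ C, 0 ≤ C ∧ ∀ t, ∀ y ∈ bx τ 1, |a (t, y)| ≤ C := by
  obtain ⟨C, hC⟩ := (isCompact_bxc τ 1).exists_bound_of_continuousOn
    (f := fun y => a (0, y)) (ha.cont.comp (continuous_const.prodMk continuous_id)).continuousOn
  exact ⟨max C 0, le_max_right _ _, fun t y hy => by
    rw [h t]; exact (hC y (bx_subset_bxc _ _ hy)).trans (le_max_left _ _)⟩

theorem iadd {μ : Measure (ℝ × ℝ)} {a b : ℝ × ℝ → ℝ} (ha : Integrable a μ) (hb : Integrable b μ) :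
    Integrable (fun x => a x + b x) μ := ha.add hb

theorem isub {μ : Measure (ℝ × ℝ)} {a b : ℝ × ℝ → ℝ} (ha : Integrable a μ) (hb : Integrable b μ) :
    Integrable (fun x => a x - b x) μ := ha.sub hb

/-- One direction of the bound for the trace of the Hessian. -/
theorem trace_dir {e : X} {o η w : X → ℝ} {C m : ℝ} (ho : Bd d o) (hη : Bd d η) (hw : Bd d w)
    (ht : t ∈ d.I) (hO : bxc d.τ 1 ⊆ d.O) (hC : 0 ≤ C)
    (hZ : ∀ f, Bd d f → Van d.τ f t → ∫ y in bx d.τ 1, D e (o * f) (t, y) = 0)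
    (hL : ∀ f, Bd d f → Van d.τ f t → (∀ y ∈ bx d.τ 1, f (t, y) ≤ C) →
      -∫ y in bx d.τ 1, D e f (t, y) ≤ C * m)
    (hb : ∀ y ∈ bx d.τ 1, |D e (o * η) (t, y)| ≤ C ∧ |D e (D e (o * η)) (t, y)| ≤ C)
    (hV : ∀ y ∈ bx d.τ 1, (η (t, y) = 0 ∧ D e (o * η) (t, y) = 0 ∧ D e (D e (o * η)) (t, y) = 0) ∨
      (y ∈ bx d.τ (19 / 20) ∧ |w (t, y)| ≤ 1)) :
    ∫ y in bx d.τ 1, (η * (o * D e (D e w))) (t, y) ≤ C * m + ∫ _ in bx d.τ 1, C := by
  have hR := reg_bx hO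
  have ha := ho.mul hη
  have hU : ∀ y ∈ bx d.τ 1, ((t, y) : X) ∈ d.U := fun y hy => ⟨ht, hR.sub hy⟩
  have key : ∀ c : X → ℝ, (∀ y ∈ bx d.τ 1, |c (t, y)| ≤ C) →
      (∀ y ∈ bx d.τ 1, c (t, y) = 0 ∨ |w (t, y)| ≤ 1) → ∀ y ∈ bx d.τ 1, (c * w) (t, y) ≤ C := by
    intro c h1 h2 y hy
    rw [Pi.mul_apply]
    rcases h2 y hy with h | h
    · rw [h, zero_mul]; exact hC
    · refine (le_abs_self _).trans ?_
      rw [abs_mul]
      exact (mul_le_of_le_one_right (abs_nonneg _) h).trans (h1 y hy)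
  have z1 := hZ (η * D e w) (hη.mul (hw.D e)) ⟨19 / 20, by norm_num, by norm_num, fun y hy hn => by
    rcases hV y hy with h | h
    · rw [Pi.mul_apply, h.1, zero_mul]
    · exact absurd h.1 hn⟩
  have z2 := hL (D e (o * η) * w) ((ha.D e).mul hw) ⟨19 / 20, by norm_num, by norm_num,
    fun y hy hn => by
      rcases hV y hy with h | h
      · rw [Pi.mul_apply, h.2.1, zero_mul]
      · exact absurd h.1 hn⟩
    (key _ (fun y hy => (hb y hy).1) fun y hy => (hV y hy).imp (fun h => h.2.1) fun h => h.2)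
  have z3 : ∫ y in bx d.τ 1, (D e (D e (o * η)) * w) (t, y) ≤ ∫ _ in bx d.τ 1, C :=
    setIntegral_mono_on ((((ha.D e).D e).mul hw).lc.integrableOn hR ht)
      (integrableOn_const hR.finite) hR.ms
      (key _ (fun y hy => (hb y hy).2) fun y hy => (hV y hy).imp (fun h => h.2.2) fun h => h.2)
  have i1 := ((ho.mul (hη.mul (hw.D e))).D e).lc.integrableOn hR ht
  have i2 := (((ha.D e).mul hw).D e).lc.integrableOn hR ht
  have i3 := (((ha.D e).D e).mul hw).lc.integrableOn hR ht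
  have e0 : ∫ y in bx d.τ 1, (η * (o * D e (D e w))) (t, y) =
      ∫ y in bx d.τ 1, (D e (o * (η * D e w)) (t, y) - D e (D e (o * η) * w) (t, y) +
        (D e (D e (o * η)) * w) (t, y)) := by
    refine setIntegral_congr_fun hR.ms fun y hy => ?_
    have hp := hU y hy
    rw [← mul_assoc o η, D_mul_at e (ha.diffAt hp) ((hw.D e).diffAt hp),
      D_mul_at e ((ha.D e).diffAt hp) (hw.diffAt hp)]
    simp only [Pi.mul_apply]
    ring
  rw [e0, integral_add (isub i1 i2) i3, integral_sub i1 i2, z1]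
  linarith

end Crude

open Crude in
theorem crude_ok (h0 : StCut) (h1 : StApi) (h2 : StAlg) (h3 : StIBP1) (h4 : StIBP2) : StCrude := by
  intro τ Λ
  obtain ⟨Φ, Φ₁, Φ₂, c, hc, hΦ, dΦ, dΦ₁, hΦ0, hΦz, hΦ₁, hΦ₂, hΦc⟩ := exists_profile
  obtain ⟨χ, χ1, χ2, χ3, χ4⟩ :=
    exists_cut h0 τ (r := 47 / 50) (R := 189 / 200) (by norm_num) (by norm_num)
  obtain ⟨η, V, η1, η2, η3, hV, hVs, η4, η5⟩ := exists_eta h0 τ
  have sη : Sm fun p : X => η p.2 := η1.comp contDiff_snd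
  have sχ : Sm fun p : X => χ p.2 := χ1.comp contDiff_snd
  have s1 : Sm (o1 τ * fun p : X => η p.2) := sm_mul (sm_o1 τ) sη
  have s2 : Sm (o2 τ * fun p : X => η p.2) := sm_mul (sm_o2 τ) sη
  have t1 : Stat (o1 τ * fun p : X => η p.2) := fun _ _ => rfl
  have t2 : Stat (o2 τ * fun p : X => η p.2) := fun _ _ => rfl
  obtain ⟨A₁, hA₁, kA₁⟩ := (t1.D s1).1.bound (sm_D e1 s1) τ
  obtain ⟨A₂, hA₂, kA₂⟩ := ((t1.D s1).1.D (sm_D e1 s1)).1.bound (sm_D e1 (sm_D e1 s1)) τ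
  obtain ⟨A₃, hA₃, kA₃⟩ := (t2.D s2).2.bound (sm_D e2 s2) τ
  obtain ⟨A₄, hA₄, kA₄⟩ := ((t2.D s2).2.D (sm_D e2 s2)).2.bound (sm_D e2 (sm_D e2 s2)) τ
  set m₁ : ℝ := ∫ _ in iv τ.1 1, (1 : ℝ) with hm₁
  set m₂ : ℝ := ∫ _ in iv τ.2 1, (1 : ℝ) with hm₂
  refine ⟨2 / c * ((∫ _ in bx τ 1, (1 : ℝ)) + Λ + m₂ + m₁ + ∫ _ in bx τ 1, (4 : ℝ)) +
    (((A₁ + A₂) * m₂ + ∫ _ in bx τ 1, (A₁ + A₂)) + ((A₃ + A₄) * m₁ + ∫ _ in bx τ 1, (A₃ + A₄)) +
      ∫ _ in bx τ 1, (2 : ℝ)), 1 / 250, by norm_num, ?_⟩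
  rintro d u F t rfl hS hF hsup hlow
  have A := h1 d u hS.gs.toGS0
  have ht := hS.tI
  have hO := hS.bO
  have hR := reg_bx hO
  have hw := hS.gs.bd
  have hU : ∀ y ∈ bx d.τ 1, ((t, y) : X) ∈ d.U := fun y hy => ⟨ht, hR.sub hy⟩
  have fin : ∀ b : Bool, volume (iv b 1) ≠ ⊤ := fun b =>
    ((measure_mono (iv_subset_ivc b 1)).trans_lt (isCompact_ivc b 1).measure_lt_top).ne
  have hL1 : ∀ C, 0 ≤ C → ∀ f, Bd d f → Van d.τ f t → (∀ y ∈ bx d.τ 1, f (t, y) ≤ C) →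
      -∫ y in bx d.τ 1, D e1 f (t, y) ≤ C * m₂ := by
    intro C hC f hf hv hb
    have := (h3 d f t hf ht hO hv).2.2.1 (fun _ => C) 1 one_pos (integrableOn_const (fin _))
      fun b hb' => ⟨hC, fun e x hx => hb (x, b) ⟨by simpa [iv, e] using hx, hb'⟩⟩
    rw [hm₂, ← integral_const_mul, mul_one]
    exact this
  have hL2 : ∀ C, 0 ≤ C → ∀ f, Bd d f → Van d.τ f t → (∀ y ∈ bx d.τ 1, f (t, y) ≤ C) →
      -∫ y in bx d.τ 1, D e2 f (t, y) ≤ C * m₁ := by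
    intro C hC f hf hv hb
    have := (h3 d f t hf ht hO hv).2.2.2.1 (fun _ => C) 1 one_pos (integrableOn_const (fin _))
      fun b hb' => ⟨hC, fun e x hx => hb (b, x) ⟨hb', by simpa [iv, e] using hx⟩⟩
    rw [hm₁, ← integral_const_mul, mul_one]
    exact this
  -- the trace of the Hessian
  have bη : Bd d fun p : X => η p.2 := bd_of_sm sη
  have hVS : V ⊆ d.S := hVs.trans hR.sub
  have hw1 : ∀ y ∈ bx d.τ 1, y ∉ V → y ∈ bx d.τ (19 / 20) ∧ |wv d.τ u (t, y)| ≤ 1 :=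
    fun y hy hn => ⟨(η5 y hy hn).1, (hsup y (η5 y hy hn)).trans (by norm_num)⟩
  have z0 : ∀ v, D v (K 0) = K 0 := fun v => D_K v 0
  have T1 := trace_dir (e := e1) (C := A₁ + A₂) (m := m₂) bd_o1 bη hw ht hO (by linarith)
    (fun f hf hv => (h3 d f t hf ht hO hv).2.1.1) (hL1 _ (by linarith))
    (fun y hy => ⟨by linarith [kA₁ t y hy], by linarith [kA₂ t y hy]⟩)
    (fun y hy => by
      by_cases hn : y ∈ V
      · have k1 := (slice (bd_o1.mul bη) (bd_K 0) ht hV hVS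
          (fun y hy => by simp [η4 y hy])).1
        rw [z0] at k1
        have k2 := (slice ((bd_o1.mul bη).D e1) (bd_K 0) ht hV hVS k1).1
        rw [z0] at k2
        exact Or.inl ⟨η4 y hn, k1 y hn, k2 y hn⟩
      · exact Or.inr (hw1 y hy hn))
  have T2' := trace_dir (e := e2) (C := A₃ + A₄) (m := m₁) bd_o2 bη hw ht hO (by linarith)
    (fun f hf hv => (h3 d f t hf ht hO hv).2.1.2) (hL2 _ (by linarith))
    (fun y hy => ⟨by linarith [kA₃ t y hy], by linarith [kA₄ t y hy]⟩)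
    (fun y hy => by
      by_cases hn : y ∈ V
      · have k1 := (slice (bd_o2.mul bη) (bd_K 0) ht hV hVS
          (fun y hy => by simp [η4 y hy])).2
        rw [z0] at k1
        have k2 := (slice ((bd_o2.mul bη).D e2) (bd_K 0) ht hV hVS k1).2
        rw [z0] at k2
        exact Or.inl ⟨η4 y hn, k1 y hn, k2 y hn⟩
      · exact Or.inr (hw1 y hy hn))
  -- the barrier
  have bφ : Bd d (wv d.τ u + qd) := hw.add (bd_of_sm sm_qd)
  have bψ : Bd d fun p => Φ ((wv d.τ u + qd) p) := bφ.comp hΦ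
  obtain ⟨f, hfe⟩ : ∃ f : X → ℝ, f = (fun p : X => χ p.2) * fun p => Φ ((wv d.τ u + qd) p) :=
    ⟨_, rfl⟩
  have bf : Bd d f := hfe ▸ (bd_of_sm sχ).mul bψ
  have f01 : ∀ p, 0 ≤ f p ∧ f p ≤ 1 := fun p => by
    rw [hfe]
    exact ⟨mul_nonneg (χ2 _).1 (hΦ0 _).1, mul_le_one₀ (χ2 _).2 (hΦ0 _).1 (hΦ0 _).2⟩
  have fout : ∀ y ∈ bx d.τ 1 ∩ (bxc d.τ (189 / 200))ᶜ, f (t, y) = K 0 (t, y) := fun y hy => by
    rw [hfe]; simp [χ4 y hy.1 hy.2]
  have sub95 : bx d.τ (19 / 20) ⊆ bx d.τ 1 := bx_mono _ (by norm_num) (by norm_num)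
  have hout : ∀ y ∈ bx d.τ 1, y ∉ bx d.τ (19 / 20) → y ∈ bx d.τ 1 ∩ (bxc d.τ (189 / 200))ᶜ :=
    fun y hy hn => ⟨hy, fun H => hn ⟨ivc_iv _ (by norm_num) (by norm_num) hy.1 H.1,
      ivc_iv _ (by norm_num) (by norm_num) hy.2 H.2⟩⟩
  have fin' : ∀ y ∈ bx d.τ (19 / 20), f (t, y) = Φ ((wv d.τ u + qd) (t, y)) := fun y hy => by
    rw [hfe]
    by_cases k : y ∈ bxc d.τ (47 / 50)
    · simp [χ3 y k]
    · have k1 : 39 / 50 ≤ y.1 ^ 2 + y.2 ^ 2 := by
        by_cases k2 : y.1 ∈ ivc d.τ.1 (47 / 50)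
        · have := sq_ge (sub95 hy).2 fun H => k ⟨k2, H⟩
          nlinarith [sq_nonneg y.1]
        · have := sq_ge (sub95 hy).1 k2
          nlinarith [sq_nonneg y.2]
      have k3 : Φ ((wv d.τ u + qd) (t, y)) = 0 := hΦz _ (by
        rw [Pi.add_apply, qd_apply]
        have := hlow y hy
        simp only
        linarith)
      simp only [Pi.mul_apply, k3, mul_zero]
  have vf : Van d.τ f t := ⟨19 / 20, by norm_num, by norm_num, fun y hy hn => fout y (hout y hy hn)⟩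
  have bctr : Bd d ((iv2 u).ctr f) :=
    ((A.bi11.mul ((bf.D e1).D e1)).add (((bd_K 2).mul A.bi12).mul ((bf.D e2).D e1))).add
      (A.bi22.mul ((bf.D e2).D e2))
  have ipos : ∀ p ∈ d.U, 0 < i11 u p ∧ 0 < i22 u p := fun p hp =>
    ⟨mul_pos (A.p22 p hp) (inv_pos.2 (A.pW p hp)), mul_pos (hS.gs.p11 p hp) (inv_pos.2 (A.pW p hp))⟩
  -- pointwise lower bound
  have low : ∀ y ∈ bx d.τ (19 / 20), -Φ₁ ((wv d.τ u + qd) (t, y)) *
      ((i11 u (t, y) / o1 d.τ (t, y) + i22 u (t, y) / o2 d.τ (t, y)) / 2) ≤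
      (iv2 u).ctr f (t, y) + 4 := by
    intro y hy
    have hp := hU y (sub95 hy)
    rw [ctr_slice (iv2 u) bf bψ ht (isOpen_bx _ _) (sub95.trans hR.sub) fin' hy]
    have q1 := DD_comp dΦ dΦ₁ bφ e1 e1 hp
    have q2 := DD_comp dΦ dΦ₁ bφ e1 e2 hp
    have q3 := DD_comp dΦ dΦ₁ bφ e2 e2 hp
    rw [DD_add hw (bd_of_sm sm_qd) _ _ hp, D_qd, D_Li] at q1 q2 q3
    have r1 := A.q11 _ hp
    have r2 := A.q12 _ hp
    have r3 := A.q22 _ hp
    have hq : 0 ≤ iq u (D e1 (wv d.τ u + qd) (t, y), D e2 (wv d.τ u + qd) (t, y)) (t, y) := by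
      rw [A.gx3 _ hp]
      exact (((h2.1 _ _ _ (A.gx1 _ hp).1 (A.gx1 _ hp).2).2.2.2.2.2.2) _).1
    have hΦ2 := hΦ₂ ((wv d.τ u + qd) (t, y)) (by
      rw [Pi.add_apply, qd_apply]
      have := hlow y hy
      simp only
      nlinarith [sq_nonneg y.1, sq_nonneg y.2])
    have hW : i11 u (t, y) * h11 u (t, y) + 2 * i12 u (t, y) * h12 u (t, y) +
        i22 u (t, y) * h22 u (t, y) = 2 := by
      have := (A.pW _ hp).ne'
      have e : W u (t, y) = h11 u (t, y) * h22 u (t, y) - h12 u (t, y) * h12 u (t, y) := rfl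
      simp only [i11, i12, i22, Pi.mul_apply, Pi.neg_apply, Iv_apply]
      field_simp
      rw [e]; ring
    have o1p := d.o1_pos hp
    have o2p := d.o2_pos hp
    have o1l : o1 d.τ (t, y) ≤ 1 := om_le_one (sub95 hy).1
    have o2l : o2 d.τ (t, y) ≤ 1 := om_le_one (sub95 hy).2
    have j1 : i11 u (t, y) ≤ i11 u (t, y) / o1 d.τ (t, y) :=
      le_div_self (ipos _ hp).1.le o1p o1l
    have j2 : i22 u (t, y) ≤ i22 u (t, y) / o2 d.τ (t, y) :=
      le_div_self (ipos _ hp).2.le o2p o2l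
    have e : (iv2 u).ctr (fun p => Φ ((wv d.τ u + qd) p)) (t, y) =
        Φ₂ ((wv d.τ u + qd) (t, y)) *
          iq u (D e1 (wv d.τ u + qd) (t, y), D e2 (wv d.τ u + qd) (t, y)) (t, y) +
        Φ₁ ((wv d.τ u + qd) (t, y)) * (2 - i11 u (t, y) / o1 d.τ (t, y) -
          i22 u (t, y) / o2 d.τ (t, y) + (i11 u (t, y) + i22 u (t, y)) / 2) := by
      simp only [T2.ctr, iv2, iq, ib, T2.ap, Pi.add_apply, Pi.mul_apply, K_apply]
      simp only [h11, h12, h22] at r1 r2 r3 hW ⊢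
      simp only [Pi.add_apply] at q1 q2 q3
      rw [q1, q2, q3]
      rw [r1, r2, r3] at hW
      have a1 : (e1 : X).2.1 = 1 := rfl
      have a2 : (e1 : X).2.2 = 0 := rfl
      have a3 : (e2 : X).2.1 = 0 := rfl
      have a4 : (e2 : X).2.2 = 1 := rfl
      simp only [K_apply, a1, a2, a3, a4]
      linear_combination Φ₁ (wv d.τ u (t, y) + qd (t, y)) * hW
    rw [e]
    have k1 := mul_nonneg hΦ2 hq
    obtain ⟨k2, k3⟩ := hΦ₁ ((wv d.τ u + qd) (t, y))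
    nlinarith
  have trp : ∀ y ∈ bx d.τ 1, 0 ≤ i11 u (t, y) / o1 d.τ (t, y) + i22 u (t, y) / o2 d.τ (t, y) :=
    fun y hy => add_nonneg (div_nonneg (ipos _ (hU y hy)).1.le (d.o1_pos (hU y hy)).le)
      (div_nonneg (ipos _ (hU y hy)).2.le (d.o2_pos (hU y hy)).le)
  have low0 : ∀ y ∈ bx d.τ 1, 0 ≤ (iv2 u).ctr f (t, y) + 4 := by
    intro y hy
    by_cases k : y ∈ bx d.τ (19 / 20)
    · exact le_trans (mul_nonneg (neg_nonneg.2 (hΦ₁ _).2) (by linarith [trp y hy])) (low y k)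
    · rw [ctr_slice (iv2 u) bf (bd_K 0) ht ((isOpen_bx _ _).inter (isClosed_bxc _ _).isOpen_compl)
        (inter_subset_left.trans hR.sub) fout (hout y hy k)]
      simp [T2.ctr, h11, h12, h22, z0]
  -- the integral of the barrier
  obtain ⟨k₁, k₂, k₃, hk⟩ := A.nt
  have I1 := (h4 d _ k₁ k₂ k₃ t hk ht hO).1 f bf (Or.inl vf)
  have I2 := (h3 d f t bf ht hO vf).2.2.2.2
  have I3 := hL1 1 zero_le_one f bf vf fun y _ => (f01 _).2
  have I4 := hL2 1 zero_le_one f bf vf fun y _ => (f01 _).2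
  have bo : Bd d (o1 d.τ * h11 f + o2 d.τ * h22 f) :=
    (bd_o1.mul ((bf.D e1).D e1)).add (bd_o2.mul ((bf.D e2).D e2))
  have I5 : ∫ y in bx d.τ 1, (nn d.τ u).ctr f (t, y) =
      (∫ y in bx d.τ 1, (iv2 u).ctr f (t, y)) -
        ∫ y in bx d.τ 1, (o1 d.τ * h11 f + o2 d.τ * h22 f) (t, y) := by
    rw [← integral_sub (bctr.lc.integrableOn hR ht) (bo.lc.integrableOn hR ht)]
    congr 1
    funext y
    simp only [T2.ctr, nn, iv2, Pi.add_apply, Pi.mul_apply, Pi.sub_apply]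
    ring
  have iF := (hS.gs.lcF.pow 2).integrableOn hR ht
  have I6 : ∫ y in bx d.τ 1, (f * (nn d.τ u).dd) (t, y) ≤ (∫ _ in bx d.τ 1, (1 : ℝ)) + Λ := by
    rw [setIntegral_congr_fun hR.ms (g := fun y => (f * D e0 u) (t, y))
      (fun y hy => by simp only [Pi.mul_apply, A.ddn _ (hU y hy)])]
    refine le_trans (setIntegral_mono_on ((bf.mul A.bt).lc.integrableOn hR ht)
      ((integrableOn_const (C := (1 : ℝ)) hR.finite).add iF) hR.ms fun y hy => ?_) ?_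
    · have a1 := hS.gs.f2 _ (hU y hy)
      have a2 := f01 (t, y)
      have a3 := le_abs_self (D e0 u (t, y))
      have a4 := abs_nonneg (D e0 u (t, y))
      simp only [Pi.mul_apply, Pi.add_apply]
      nlinarith [sq_nonneg (F (t, y) - 1)]
    · simp only [Pi.add_apply]
      rw [integral_add (integrableOn_const (C := (1 : ℝ)) hR.finite) iF]
      linarith
  -- conclusion
  have bt1 : Bd d ((fun p : X => η p.2) * (o1 d.τ * D e1 (D e1 (wv d.τ u)))) :=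
    bη.mul (bd_o1.mul ((hw.D e1).D e1))
  have bt2 : Bd d ((fun p : X => η p.2) * (o2 d.τ * D e2 (D e2 (wv d.τ u)))) :=
    bη.mul (bd_o2.mul ((hw.D e2).D e2))
  have j0 := bctr.lc.integrableOn hR ht
  have j1 := bt1.lc.integrableOn hR ht
  have j2 := bt2.lc.integrableOn hR ht
  have jc : ∀ C : ℝ, IntegrableOn (fun _ : ℝ × ℝ => C) (bx d.τ 1) := fun C =>
    integrableOn_const hR.finite
  have subA : An d.τ (3 / 5) (1 / 5) ⊆ bx d.τ (19 / 20) :=
    (An_subset _ _ _).trans (bx_mono _ (by norm_num) (by norm_num))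
  have hRA := hR.mono (measurableSet_An _ (3 / 5) (1 / 5)) (subA.trans sub95)
  have jH : IntegrableOn (fun y => 2 / c * ((iv2 u).ctr f (t, y) + 4) +
      (((fun p : X => η p.2) * (o1 d.τ * D e1 (D e1 (wv d.τ u)))) (t, y) +
        ((fun p : X => η p.2) * (o2 d.τ * D e2 (D e2 (wv d.τ u)))) (t, y) + 2)) (bx d.τ 1) :=
    ((j0.add (jc 4)).const_mul _).add ((j1.add j2).add (jc 2))
  have trX : ∀ y ∈ bx d.τ 1, o1 d.τ (t, y) * D e1 (D e1 (wv d.τ u)) (t, y) +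
      o2 d.τ (t, y) * D e2 (D e2 (wv d.τ u)) (t, y) + 2 =
      o1 d.τ (t, y) * h11 u (t, y) + o2 d.τ (t, y) * h22 u (t, y) := fun y hy => by
    have hp := hU y hy
    rw [A.q11 _ hp, A.q22 _ hp, mul_add, mul_add, mul_inv_cancel₀ (d.o1_pos hp).ne',
      mul_inv_cancel₀ (d.o2_pos hp).ne']
    simp only [h11, h22]
    ring
  have c2 : 0 ≤ 2 / c := by positivity
  refine le_trans (setIntegral_mono_on (A.bg.lc.integrableOn hRA ht)
    (jH.mono_set (subA.trans sub95)) hRA.ms fun y hy => ?_)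
    (le_trans (setIntegral_mono_set jH ?_ (subA.trans sub95).eventuallyLE) ?_)
  · have hy1 := sub95 (subA hy)
    have a1 := low y (subA hy)
    have a2 := abs_le.1 (hsup y ⟨subA hy, hy.2.imp (fun h => by linarith) fun h => by linarith⟩)
    have a3 := hΦc ((wv d.τ u + qd) (t, y))
      (by rw [Pi.add_apply, qd_apply]; simp only; nlinarith [sq_nonneg y.1, sq_nonneg y.2])
      (by rw [Pi.add_apply, qd_apply]; simp only; linarith [sq_le hy.1.1, sq_le hy.1.2])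
    have a4 := trp y hy1
    have a5 := trX y hy1
    have a6 : i11 u (t, y) / o1 d.τ (t, y) + i22 u (t, y) / o2 d.τ (t, y) ≤
        2 / c * ((iv2 u).ctr f (t, y) + 4) := by
      rw [div_mul_eq_mul_div, le_div_iff₀ hc]
      nlinarith
    simp only [gex, Pi.mul_apply, η3 y hy, one_mul]
    linarith
  · refine (ae_restrict_iff' hR.ms).2 (Eventually.of_forall fun y hy => ?_)
    have hp := hU y hy
    have a1 := mul_nonneg c2 (low0 y hy)
    have a2 := trX y hy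
    have a3 := mul_pos (d.o1_pos hp) (hS.gs.p11 _ hp)
    have a4 := mul_pos (d.o2_pos hp) (A.p22 _ hp)
    have a5 := η2 y
    simp only [Pi.mul_apply, Pi.zero_apply]
    nlinarith
  · rw [integral_add ((iadd j0 (jc 4)).const_mul _) (iadd (iadd j1 j2) (jc 2)), integral_const_mul,
      integral_add j0 (jc 4), integral_add (iadd j1 j2) (jc 2), integral_add j1 j2]
    have : (∫ y in bx d.τ 1, (iv2 u).ctr f (t, y)) ≤
        (∫ _ in bx d.τ 1, (1 : ℝ)) + Λ + m₂ + m₁ := by linarith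
    have := mul_le_mul_of_nonneg_left (add_le_add_left this (∫ _ in bx d.τ 1, (4 : ℝ))) c2
    linarith

end Pool.Agent.P.MP_2cea5e_gt.I
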