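import Pool.Agent.P.MP_2cea5e_gt.I.St1

/-!
Chapter I: the drift of the velocity.
-/

open scoped Topology
open MeasureTheory Set Filter

noncomputable section

namespace Pool.Agent.P.MP_2cea5e_gt.I

namespace Drift

variable {α : Type} [MeasurableSpace α] {μ : Measure α}

theorem int_sq {f : α → ℝ} (hf : MemLp f 2 μ) : Integrable (fun y => f y ^ 2) μ :=
  hf.integrable_sq

theorem int_sub_sq {f g : α → ℝ} (hf : MemLp f 2 μ) (hg : MemLp g 2 μ) :
    Integrable (fun y => (f y - g y) ^ 2) μ :=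
  (hf.sub hg).integrable_sq

/-- The triangle inequality for squares. -/
theorem tri {f g h : α → ℝ} (hf : MemLp f 2 μ) (hg : MemLp g 2 μ) (hh : MemLp h 2 μ) :
    ∫ y, (f y - g y) ^ 2 ∂μ ≤ 2 * ∫ y, (h y - g y) ^ 2 ∂μ + 2 * ∫ y, (h y - f y) ^ 2 ∂μ := by
  rw [← integral_const_mul, ← integral_const_mul,
    ← integral_add ((int_sub_sq hh hg).const_mul 2) ((int_sub_sq hh hf).const_mul 2)]
  refine integral_mono (int_sub_sq hf hg)
    (((int_sub_sq hh hg).const_mul 2).add ((int_sub_sq hh hf).const_mul 2)) fun y => ?_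
  nlinarith [sq_nonneg (h y - g y + (h y - f y))]

/-- Telescoping. -/
theorem chain (w : ℕ → α → ℝ) (k : ℕ) (hw : ∀ i, MemLp (w i) 2 μ) :
    ∫ y, (w k y - w 0 y) ^ 2 ∂μ ≤
      k * ∑ i ∈ Finset.range k, ∫ y, (w (i + 1) y - w i y) ^ 2 ∂μ := by
  rw [← integral_finset_sum _ fun i _ => int_sub_sq (hw (i + 1)) (hw i), ← integral_const_mul]
  refine integral_mono (int_sub_sq (hw k) (hw 0))
    ((integrable_finset_sum _ fun i _ => int_sub_sq (hw (i + 1)) (hw i)).const_mul _) fun y => ?_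
  have h := sq_sum_le_card_mul_sum_sq (s := Finset.range k) (f := fun i => w (i + 1) y - w i y)
  rw [Finset.sum_range_sub (fun i => w i y), Finset.card_range] at h
  exact h

/-- Bounded multiplicity. -/
theorem mult {g : α → ℝ} (hg : Integrable g μ) (h0 : ∀ y, 0 ≤ g y) (A : ℕ → Set α)
    (hA : ∀ j, MeasurableSet (A j)) (l : ℕ) (hd : ∀ i j, i + l ≤ j → Disjoint (A i) (A j))
    (s : Finset ℕ) : ∑ j ∈ s, ∫ y in A j, g y ∂μ ≤ l * ∫ y, g y ∂μ := by
  classical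
  have e : ∀ j ∈ s, ∫ y in A j, g y ∂μ = ∫ y, (A j).indicator g y ∂μ := fun j _ =>
    (integral_indicator (hA j)).symm
  rw [Finset.sum_congr rfl e, ← integral_finset_sum _ fun j _ => hg.indicator (hA j),
    ← integral_const_mul]
  refine integral_mono (integrable_finset_sum _ fun j _ => hg.indicator (hA j)) (hg.const_mul _)
    fun y => ?_
  have e2 : ∑ j ∈ s, (A j).indicator g y = ∑ j ∈ s.filter (fun j => y ∈ A j), g y := by
    rw [Finset.sum_filter]
    exact Finset.sum_congr rfl fun j _ => by rw [Set.indicator_apply]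
  change ∑ j ∈ s, (A j).indicator g y ≤ l * g y
  rw [e2, Finset.sum_const, nsmul_eq_mul]
  refine mul_le_mul_of_nonneg_right (Nat.cast_le.2 ?_) (h0 y)
  rcases (s.filter (fun j => y ∈ A j)).eq_empty_or_nonempty with h | h
  · rw [h]; simp
  · set m := (s.filter (fun j => y ∈ A j)).min' h with hm
    have hy : y ∈ A m := (Finset.mem_filter.1 (Finset.min'_mem _ h)).2
    have hs : s.filter (fun j => y ∈ A j) ⊆ Finset.Ico m (m + l) := fun j hj => by
      refine Finset.mem_Ico.2 ⟨Finset.min'_le _ _ hj, ?_⟩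
      by_contra hc
      exact Set.disjoint_left.1 (hd m j (by omega)) hy (Finset.mem_filter.1 hj).2
    have := Finset.card_le_card hs
    rwa [Nat.card_Ico, Nat.add_sub_cancel_left] at this

/-- One block. -/
theorem block (w : ℕ → α → ℝ) (hw : ∀ i, MemLp (w i) 2 μ) (φ : ℕ → ℝ) (Λ : ℝ)
    (hΛ : ∀ i, ∫ y, w i y ^ 2 ∂μ ≤ Λ)
    (hφ : ∀ i, ∫ y, (w (i + 1) y - w i y) ^ 2 ∂μ ≤ φ i - φ (i + 1))
    (A : ℕ → Set α) (hA : ∀ j, MeasurableSet (A j)) (l : ℕ)
    (hd : ∀ i j, i + l ≤ j → Disjoint (A i) (A j)) (J L : ℕ) :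
    ∑ k ∈ Finset.range L, ∫ y in A (J + k), w (J + k) y ^ 2 ∂μ ≤
      2 * (l * Λ) + 2 * L ^ 2 * (φ J - φ (J + L)) := by
  have hanti : Antitone φ := antitone_nat_of_succ_le fun i => by
    have := hφ i
    have h0 : 0 ≤ ∫ y, (w (i + 1) y - w i y) ^ 2 ∂μ := integral_nonneg fun y => sq_nonneg _
    linarith
  have h1 : ∀ k ∈ Finset.range L, ∫ y in A (J + k), w (J + k) y ^ 2 ∂μ ≤
      2 * ∫ y in A (J + k), w J y ^ 2 ∂μ + 2 * L * (φ J - φ (J + L)) := by
    intro k hk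
    have hk' := (Finset.mem_range.1 hk).le
    have a1 := tri (μ := μ.restrict (A (J + k))) ((hw (J + k)).restrict _)
      (MemLp.zero (p := 2)) ((hw J).restrict _)
    simp only [Pi.zero_apply, sub_zero] at a1
    have a2 : ∫ y in A (J + k), (w J y - w (J + k) y) ^ 2 ∂μ ≤ ∫ y, (w J y - w (J + k) y) ^ 2 ∂μ :=
      setIntegral_le_integral (int_sub_sq (hw J) (hw (J + k)))
        (Eventually.of_forall fun y => sq_nonneg _)
    have a3 := chain (μ := μ) (fun i => w (J + i)) k fun i => hw _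
    have a4 : ∑ i ∈ Finset.range k, ∫ y, (w (J + (i + 1)) y - w (J + i) y) ^ 2 ∂μ ≤
        φ J - φ (J + L) := by
      refine (Finset.sum_le_sum fun i _ => hφ (J + i)).trans ?_
      have := Finset.sum_range_sub' (fun i => φ (J + i)) k
      simp only [add_zero, ← add_assoc] at this
      rw [this]
      have := hanti (show J + k ≤ J + L by omega)
      linarith
    have a5 : ∫ y, (w J y - w (J + k) y) ^ 2 ∂μ = ∫ y, (w (J + k) y - w (J + 0) y) ^ 2 ∂μ := by
      refine integral_congr_ae (Eventually.of_forall fun y => ?_)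
      simp only [add_zero]
      ring
    have a6 : 0 ≤ φ J - φ (J + L) := sub_nonneg.2 (hanti (by omega))
    have a7 : (k : ℝ) * ∑ i ∈ Finset.range k, ∫ y, (w (J + (i + 1)) y - w (J + i) y) ^ 2 ∂μ ≤
        L * (φ J - φ (J + L)) :=
      (mul_le_mul_of_nonneg_left a4 (Nat.cast_nonneg k)).trans
        (mul_le_mul_of_nonneg_right (Nat.cast_le.2 hk') a6)
    linarith
  refine (Finset.sum_le_sum h1).trans ?_
  rw [Finset.sum_add_distrib, ← Finset.mul_sum, Finset.sum_const, Finset.card_range, nsmul_eq_mul]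
  have h2 := mult (int_sq (hw J)) (fun y => sq_nonneg _) (fun k => A (J + k)) (fun k => hA _) l
    (fun i j hij => hd _ _ (by omega)) (Finset.range L)
  have h3 : (l : ℝ) * ∫ y, w J y ^ 2 ∂μ ≤ l * Λ :=
    mul_le_mul_of_nonneg_left (hΛ J) (Nat.cast_nonneg l)
  nlinarith

/-- All blocks. -/
theorem blocks (w : ℕ → α → ℝ) (hw : ∀ i, MemLp (w i) 2 μ) (φ : ℕ → ℝ) (Λ : ℝ)
    (hΛ : ∀ i, ∫ y, w i y ^ 2 ∂μ ≤ Λ)
    (hφ : ∀ i, ∫ y, (w (i + 1) y - w i y) ^ 2 ∂μ ≤ φ i - φ (i + 1))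
    (A : ℕ → Set α) (hA : ∀ j, MeasurableSet (A j)) (l : ℕ)
    (hd : ∀ i j, i + l ≤ j → Disjoint (A i) (A j)) (L m : ℕ) :
    ∑ k ∈ Finset.range (m * L), ∫ y in A k, w k y ^ 2 ∂μ ≤
      m * (2 * (l * Λ)) + 2 * L ^ 2 * (φ 0 - φ (m * L)) := by
  induction m with
  | zero => simp
  | succ m ih =>
    rw [Nat.succ_mul, Finset.sum_range_add]
    have := block w hw φ Λ hΛ hφ A hA l hd (m * L) L
    push_cast
    linarith

end Drift

open Drift in
theorem drift_ok : StDrift := by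
  intro P v T₀ T Λ γ hT hγ hmem hΛ hcont hint
  set μ : Measure (ℝ × ℝ) := volume.restrict P with hμ
  set e : ℝ → ℝ := fun t => ∫ y, v t y ^ 2 ∂μ with he
  set D : ℝ → ℝ → ℝ := fun s r => ∫ y, (v r y - v s y) ^ 2 ∂μ with hD
  have hD0 : ∀ s r, 0 ≤ D s r := fun s r => integral_nonneg fun y => sq_nonneg _
  have he0 : ∀ t, 0 ≤ e t := fun t => integral_nonneg fun y => sq_nonneg _
  have hanti : ∀ s ∈ Ioo T₀ T, ∀ t ∈ Ioo s T, e t ≤ e s := by
    intro s hs t ht
    have h1 := hint s hs t ht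
    have h2 : 0 ≤ ∫ r in s..t, D s r :=
      intervalIntegral.integral_nonneg ht.1.le fun r _ => hD0 s r
    have h3 : 0 ≤ (t - s) * (e s - e t) := h2.trans h1
    have := nonneg_of_mul_nonneg_right h3 (sub_pos.2 ht.1)
    linarith
  have hii : ∀ s ∈ Ioo T₀ T, ∀ a ∈ Ioo T₀ T, ∀ b ∈ Ioo T₀ T,
      IntervalIntegrable (D s) volume a b := fun s hs a ha b hb =>
    ((hcont s hs).mono (Set.ordConnected_Ioo.uIcc_subset ha hb)).intervalIntegrable
  set s : ℕ → ℝ := fun j => T - (1 / 4) ^ j with hs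
  have hsT : ∀ j, s j < T := fun j => sub_lt_self _ (by positivity)
  have hmono : StrictMono s := strictMono_nat_of_lt_succ fun j => by
    have : (0 : ℝ) < (1 / 4) ^ j := by positivity
    simp only [hs, pow_succ]
    linarith
  have hex : ∀ t < T, ∃ j, t < s j := fun t ht => by
    obtain ⟨j, hj⟩ := exists_pow_lt_of_lt_one (sub_pos.2 ht) (show (1 / 4 : ℝ) < 1 by norm_num)
    exact ⟨j, by simp only [hs]; linarith⟩
  obtain ⟨j₀, hj₀⟩ := hex T₀ hT
  have hin : ∀ j, j₀ ≤ j → s j ∈ Ioo T₀ T := fun j hj =>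
    ⟨hj₀.trans_le (hmono.monotone hj), hsT j⟩
  have hanti' : ∀ i j, j₀ ≤ i → i ≤ j → e (s j) ≤ e (s i) := fun i j hi hij => by
    rcases hij.eq_or_lt with rfl | h
    · exact le_rfl
    · exact hanti _ (hin i hi) _ ⟨hmono h, hsT j⟩
  have hstep : ∀ j, j₀ ≤ j → D (s j) (s (j + 1)) ≤ 12 * (e (s j) - e (s (j + 2))) := by
    intro j hj
    have m0 := hin j hj
    have m1 := hin (j + 1) (by omega)
    have m2 := hin (j + 2) (by omega)
    have l01 : s j < s (j + 1) := hmono (by omega)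
    have l12 : s (j + 1) < s (j + 2) := hmono (by omega)
    have b0 := hint _ m0 (s (j + 2)) ⟨l01.trans l12, m2.2⟩
    have b1 := hint _ m1 (s (j + 2)) ⟨l12, m2.2⟩
    change ∫ r in s j..s (j + 2), D (s j) r ≤ _ * (e (s j) - e (s (j + 2))) at b0
    change ∫ r in s (j + 1)..s (j + 2), D (s (j + 1)) r ≤
      _ * (e (s (j + 1)) - e (s (j + 2))) at b1
    have c0 := intervalIntegral.integral_add_adjacent_intervals (hii _ m0 _ m0 _ m1)
      (hii _ m0 _ m1 _ m2)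
    have c1 : 0 ≤ ∫ r in s j..s (j + 1), D (s j) r :=
      intervalIntegral.integral_nonneg l01.le fun r _ => hD0 _ r
    have c2 : ∫ _ in s (j + 1)..s (j + 2), D (s j) (s (j + 1)) ≤
        ∫ r in s (j + 1)..s (j + 2), (2 * D (s j) r + 2 * D (s (j + 1)) r) := by
      refine intervalIntegral.integral_mono_on l12.le intervalIntegrable_const
        (((hii _ m0 _ m1 _ m2).const_mul 2).add ((hii _ m1 _ m1 _ m2).const_mul 2)) fun r hr => ?_
      exact tri (hmem _ m1) (hmem _ m0) (hmem r ⟨m1.1.trans_le hr.1, hr.2.trans_lt m2.2⟩)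
    rw [intervalIntegral.integral_const, intervalIntegral.integral_add
      ((hii _ m0 _ m1 _ m2).const_mul 2) ((hii _ m1 _ m1 _ m2).const_mul 2),
      intervalIntegral.integral_const_mul, intervalIntegral.integral_const_mul, smul_eq_mul] at c2
    have q0 : (0 : ℝ) < (1 / 4) ^ j := by positivity
    have q1 : s (j + 2) - s (j + 1) = 3 / 16 * (1 / 4) ^ j := by simp only [hs, pow_succ]; ring
    have q2 : s (j + 2) - s j = 15 / 16 * (1 / 4) ^ j := by simp only [hs, pow_succ]; ring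
    rw [q1] at c2 b1
    rw [q2] at b0
    have a1 := hanti' j (j + 1) hj (by omega)
    have a2 : 3 / 16 * (1 / 4 : ℝ) ^ j * (e (s (j + 1)) - e (s (j + 2))) ≤
        3 / 16 * (1 / 4 : ℝ) ^ j * (e (s j) - e (s (j + 2))) :=
      mul_le_mul_of_nonneg_left (by linarith) (by positivity)
    have a3 : 3 / 16 * (1 / 4 : ℝ) ^ j * D (s j) (s (j + 1)) ≤
        3 / 16 * (1 / 4 : ℝ) ^ j * (12 * (e (s j) - e (s (j + 2)))) := by linarith
    exact le_of_mul_le_mul_left a3 (by positivity)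
  have hbdd : BddBelow (Set.range fun k => e (s (j₀ + k))) := ⟨0, by rintro _ ⟨k, rfl⟩; exact he0 _⟩
  obtain ⟨k₁, hk₁⟩ : ∃ k, e (s (j₀ + k)) < (⨅ k, e (s (j₀ + k))) + γ :=
    exists_lt_of_ciInf_lt (lt_add_of_pos_right _ hγ)
  obtain ⟨n, hn⟩ := exists_nat_ge (50 * Λ / γ)
  have hΛ0 : 0 ≤ Λ := (he0 _).trans (hΛ _ (hin j₀ le_rfl))
  refine ⟨j₀ + k₁ + n + 1, fun l hl => ?_⟩
  have hl1 : 1 ≤ l := by omega
  have hl6 : l ≤ l ^ 6 := Nat.le_self_pow (by norm_num) l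
  refine ⟨(hin _ (by omega)).1, fun j hj t ht => ?_, fun A hA hd => ?_⟩
  · obtain ⟨i, hi⟩ := hex t ht.2
    have h1 : e (s (j₀ + i)) ≤ e t :=
      hanti t ⟨(hin j (by omega)).1.trans ht.1, ht.2⟩ _
        ⟨hi.trans_le (hmono.monotone (by omega)), hsT _⟩
    have h2 := ciInf_le hbdd i
    have h3 := hanti' (j₀ + k₁) j (by omega) (by omega)
    change e (s j) - e t ≤ γ
    linarith
  · have hb := blocks (μ := μ) (fun k => v (s (l ^ 6 + k))) (fun k => hmem _ (hin _ (by omega)))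
      (fun k => 12 * (e (s (l ^ 6 + k)) + e (s (l ^ 6 + k + 1)))) Λ
      (fun k => hΛ _ (hin _ (by omega))) (fun k => by
        have := hstep (l ^ 6 + k) (by omega)
        change D (s (l ^ 6 + k)) (s (l ^ 6 + k + 1)) ≤
          12 * (e (s (l ^ 6 + k)) + e (s (l ^ 6 + k + 1))) -
            12 * (e (s (l ^ 6 + k + 1)) + e (s (l ^ 6 + k + 2)))
        linarith)
      (fun k => A (l ^ 6 + k)) (fun k => (hA _).1) l (fun i j hij => hd _ _ (by omega))
      (l ^ 2) (l ^ 4)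
    have e1 : l ^ 4 * l ^ 2 = l ^ 6 := by ring
    rw [e1] at hb
    have e2 : ∀ k ∈ Finset.range (l ^ 6),
        ∫ y in A (l ^ 6 + k), v (T - (1 / 4) ^ (l ^ 6 + k)) y ^ 2 =
          ∫ y in A (l ^ 6 + k), v (s (l ^ 6 + k)) y ^ 2 ∂μ := fun k _ => by
      rw [hμ, Measure.restrict_restrict (hA _).1, Set.inter_eq_left.2 (hA _).2]
    rw [Finset.sum_Ico_eq_sum_range, show 2 * l ^ 6 - l ^ 6 = l ^ 6 by omega,
      Finset.sum_congr rfl e2]
    refine hb.trans ?_
    have u1 : e (s (l ^ 6 + 0)) ≤ Λ := hΛ _ (hin _ (by omega))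
    have u2 : e (s (l ^ 6 + 0 + 1)) ≤ Λ := hΛ _ (hin _ (by omega))
    have u3 := he0 (s (l ^ 6 + l ^ 6))
    have u4 := he0 (s (l ^ 6 + l ^ 6 + 1))
    have hlr : (1 : ℝ) ≤ l := by exact_mod_cast hl1
    have hnl : (n : ℝ) ≤ l := by exact_mod_cast (show n ≤ l by omega)
    have hg : 50 * Λ ≤ γ * l := by
      have := (div_le_iff₀ hγ).1 (hn.trans hnl)
      linarith
    have p4 : (0 : ℝ) ≤ (l : ℝ) ^ 4 := by positivity
    have p5 : (0 : ℝ) ≤ (l : ℝ) ^ 5 := by positivity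
    have w1 : (2 : ℝ) * ((l : ℝ) ^ 2) ^ 2 * (12 * (e (s (l ^ 6 + 0)) + e (s (l ^ 6 + 0 + 1))) -
        12 * (e (s (l ^ 6 + l ^ 6)) + e (s (l ^ 6 + l ^ 6 + 1)))) ≤
        2 * ((l : ℝ) ^ 2) ^ 2 * (24 * Λ) :=
      mul_le_mul_of_nonneg_left (by linarith) (by positivity)
    have w2 : (l : ℝ) ^ 4 * Λ ≤ (l : ℝ) ^ 5 * Λ := by
      refine mul_le_mul_of_nonneg_right ?_ hΛ0
      exact pow_le_pow_right₀ hlr (by norm_num)
    have w3 : (l : ℝ) ^ 5 * (50 * Λ) ≤ (l : ℝ) ^ 5 * (γ * l) := mul_le_mul_of_nonneg_left hg p5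
    push_cast
    nlinarith

end Pool.Agent.P.MP_2cea5e_gt.I
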