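import Pool.Agent.P.MP_2cea5e_gt.I.St1

/-! Convexity fills the gaps of a dense good set. -/

open MeasureTheory Set

namespace Pool.Agent.P.MP_2cea5e_gt.I

namespace Fill1

theorem exists_notMem (B : Set ℝ) (a η : ℝ) (h : volume B < ENNReal.ofReal η) :
    ∃ x ∈ Ioo a (a + η), x ∉ B := by
  by_contra hc
  push Not at hc
  have h1 : volume (Ioo a (a + η)) ≤ volume B := measure_mono hc
  rw [Real.volume_Ioo, add_sub_cancel_left] at h1
  exact absurd h (not_lt.2 h1)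

end Fill1

theorem fill1_ok : StFill1 := by
  refine ⟨fun g g₀ G a b η δ ϖ hη hg hosc hvol hgood x hx => ?_, Fill1.exists_notMem⟩
  obtain ⟨hx1, hx2⟩ := hx
  have good : ∀ c, a ≤ c → c + η ≤ b → ∃ y ∈ Ioo c (c + η), y ∈ Icc a b ∧ |g y - g₀ y| ≤ δ := by
    intro c h1 h2
    obtain ⟨y, hy, hn⟩ := Fill1.exists_notMem _ c η hvol
    have hyI : y ∈ Icc a b := ⟨by linarith [hy.1], by linarith [hy.2]⟩
    have hyG : y ∈ G := by
      by_contra h
      exact hn ⟨hyI, h⟩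
    exact ⟨y, hy, hyI, hgood y ⟨hyI, hyG⟩⟩
  obtain ⟨y₀, ⟨h01, h02⟩, h0I, h0⟩ := good (x - η) (by linarith) (by linarith)
  obtain ⟨y₁, ⟨h11, h12⟩, h1I, h1⟩ := good x (by linarith) (by linarith)
  obtain ⟨y₂, ⟨h21, h22⟩, h2I, h2⟩ := good (x + 2 * η) (by linarith) (by linarith)
  have hxI : x ∈ Icc a b := ⟨by linarith, by linarith⟩
  have o0 := abs_le.1 (hosc y₀ h0I x hxI (abs_le.2 ⟨by linarith, by linarith⟩))
  have o1 := abs_le.1 (hosc y₁ h1I x hxI (abs_le.2 ⟨by linarith, by linarith⟩))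
  have o2 := abs_le.1 (hosc y₁ h1I y₂ h2I (abs_le.2 ⟨by linarith, by linarith⟩))
  have hδ : 0 ≤ δ := (abs_nonneg _).trans h0
  have hϖ : 0 ≤ ϖ := by linarith [o0.1, o0.2]
  rw [abs_le] at h0 h1 h2 ⊢
  constructor
  · have hd : 0 < y₂ - x := by linarith
    set l := (y₂ - y₁) / (y₂ - x) with hl
    have hl3 : 1 / 3 ≤ l := by
      rw [hl, le_div_iff₀ hd]; linarith
    have hl1 : l ≤ 1 := by
      rw [hl, div_le_one hd]; linarith
    have hcomb : l • x + (1 - l) • y₂ = y₁ := by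
      simp only [smul_eq_mul, hl]
      field_simp
      ring
    have hcv := hg.2 hxI h2I (by linarith : 0 ≤ l) (by linarith : 0 ≤ 1 - l) (by ring)
    rw [hcomb] at hcv
    simp only [smul_eq_mul] at hcv
    have e1 : (1 - l) * g y₂ ≤ (1 - l) * (g₀ y₁ + ϖ + δ) :=
      mul_le_mul_of_nonneg_left (by linarith [h2.2, o2.1]) (by linarith)
    have e2 : l * (g₀ x - ϖ) ≤ l * g₀ y₁ :=
      mul_le_mul_of_nonneg_left (by linarith [o1.1]) (by linarith)
    have key : l * (-(5 * δ + 3 * ϖ)) ≤ l * (g x - g₀ x) := by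
      nlinarith [h1.1, mul_nonneg (sub_nonneg.2 hl3) hδ, mul_nonneg (sub_nonneg.2 hl3) hϖ]
    exact le_of_mul_le_mul_left key (by linarith)
  · have hm := hg.le_on_segment h0I h1I (show x ∈ segment ℝ y₀ y₁ by
      rw [segment_eq_Icc (by linarith)]; exact ⟨by linarith, by linarith⟩)
    have : g x ≤ g₀ x + ϖ + δ :=
      hm.trans (max_le (by linarith [h0.2, o0.2]) (by linarith [h1.2, o1.2]))
    linarith

end Pool.Agent.P.MP_2cea5e_gt.I
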