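import Pool.Agent.P.MP_2cea5e_gt.I.St3

/-!
Chapter I: tools for the gradient estimates (key identity, traces, algebra).
-/

open scoped ContDiff Topology
open MeasureTheory Set Filter

noncomputable section

set_option linter.dupNamespace false

namespace Pool.Agent.P.MP_2cea5e_gt.I

namespace GradA

/-- A function of the space variables only. -/
def L (ς : ℝ × ℝ → ℝ) : X → ℝ := fun p => ς p.2
/-- Directional derivative in the plane. -/
def dd (v : X) (ς : ℝ × ℝ → ℝ) : ℝ × ℝ → ℝ := fun y => fderiv ℝ ς y v.2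

variable {ς : ℝ × ℝ → ℝ} {d : Dm} {f g u : X → ℝ} {t : ℝ} {p : X}

theorem sm_L (h : ContDiff ℝ ∞ ς) : Sm (L ς) := h.comp contDiff_snd

theorem sm_dd (v : X) (h : ContDiff ℝ ∞ ς) : ContDiff ℝ ∞ (dd v ς) :=
  (h.fderiv_right (m := ∞) (by simp)).clm_apply contDiff_const

theorem D_L (v : X) (h : ContDiff ℝ ∞ ς) : D v (L ς) = L (dd v ς) := by
  funext p
  have h1 : HasFDerivAt (L ς) ((fderiv ℝ ς p.2).comp (ContinuousLinearMap.snd ℝ ℝ (ℝ × ℝ))) p :=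
    ((h.differentiable (by simp)) p.2).hasFDerivAt.comp p hasFDerivAt_snd
  simp only [D, h1.fderiv]
  rfl

theorem dd_zero (v : X) {y : ℝ × ℝ} (h : ς =ᶠ[𝓝 y] fun _ => 0) :
    dd v ς =ᶠ[𝓝 y] fun _ => 0 := by
  filter_upwards [h.fderiv (𝕜 := ℝ)] with z hz
  simp [dd, hz]

theorem bound (τ : Ty) (h : ContDiff ℝ ∞ ς) : ∃ C, ∀ y ∈ bx τ 1, |ς y| ≤ C :=
  let ⟨C, hC⟩ := (isCompact_bxc τ 1).exists_bound_of_continuousOn h.continuous.continuousOn
  ⟨C, fun y hy => hC y (bx_subset_bxc _ _ hy)⟩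

theorem DD_mul (hf : Bd d f) (hg : Bd d g) (v v' : X) (hp : p ∈ d.U) :
    D v (D v' (f * g)) p = D v (D v' f) p * g p + D v' f p * D v g p + D v f p * D v' g p +
      f p * D v (D v' g) p := by
  have e : EqOn (D v' (f * g)) (D v' f * g + f * D v' g) d.U := fun q hq =>
    D_mul_at v' (hf.diffAt hq) (hg.diffAt hq)
  rw [D_congr d.isOpen_U v e hp, D_add_at v (((hf.D v').mul hg).diffAt hp)
    ((hf.mul (hg.D v')).diffAt hp), D_mul_at v ((hf.D v').diffAt hp) (hg.diffAt hp),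
    D_mul_at v (hf.diffAt hp) ((hg.D v').diffAt hp)]
  ring

theorem bd_ctr {H : T2} (ha : Bd d H.a) (hb : Bd d H.b) (hc : Bd d H.c) (hf : Bd d f) :
    Bd d (H.ctr f) :=
  ((ha.mul ((hf.D _).D _)).add (((bd_K 2).mul hb).mul ((hf.D _).D _))).add
    (hc.mul ((hf.D _).D _))

theorem bd_gu (A : Api d u) (hf : Bd d f) : Bd d (gu u f) :=
  ((((A.bi11.mul (hf.D e1)).mul (hf.D e1)).add
    (A.bi12.mul (((hf.D e1).mul (hf.D e2)).add ((hf.D e2).mul (hf.D e1))))).add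
    ((A.bi22.mul (hf.D e2)).mul (hf.D e2))).congr fun _ _ => rfl

/-- The key identity. -/
theorem key (h3 : StIBP1) (h4 : StIBP2) (A : Api d u) (hf : Bd d f) (ht : t ∈ d.I)
    (hO : bxc d.τ 1 ⊆ d.O) (hv : Van d.τ f t) :
    ∫ y in bx d.τ 1, (iv2 u).ctr f (t, y) = (∫ y in bx d.τ 1, f (t, y) * D e0 u (t, y)) -
      (∫ y in bx d.τ 1, D e1 f (t, y)) - ∫ y in bx d.τ 1, D e2 f (t, y) := by
  obtain ⟨k₁, k₂, k₃, hk⟩ := A.nt
  have hR := reg_bx hO
  have e1' := (h4 d _ k₁ k₂ k₃ t hk ht hO).1 f hf (Or.inl hv)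
  have e2' := (h3 d f t hf ht hO hv).2.2.2.2
  have b1 : Bd d ((nn d.τ u).ctr f) :=
    bd_ctr (A.bi11.sub bd_o1) A.bi12 (A.bi22.sub bd_o2) hf
  have b2 : Bd d (o1 d.τ * h11 f + o2 d.τ * h22 f) :=
    (bd_o1.mul ((hf.D _).D _)).add (bd_o2.mul ((hf.D _).D _))
  have e3 : ∫ y in bx d.τ 1, (f * (nn d.τ u).dd) (t, y) =
      ∫ y in bx d.τ 1, f (t, y) * D e0 u (t, y) :=
    setIntegral_congr_fun hR.ms fun y hy => by
      simp only [Pi.mul_apply, A.ddn (t, y) ⟨ht, hR.sub hy⟩]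
  have e4 : ∀ y, (iv2 u).ctr f (t, y) =
      (nn d.τ u).ctr f (t, y) + (o1 d.τ * h11 f + o2 d.τ * h22 f) (t, y) := by
    intro y
    simp only [T2.ctr, iv2, nn, Pi.add_apply, Pi.mul_apply, Pi.sub_apply, K_apply]
    ring
  simp only [e4]
  rw [integral_add (b1.lc.integrableOn hR ht) (b2.lc.integrableOn hR ht), e1', e2', e3]
  ring

theorem line_int (hf : Lc d f) {A : Set (ℝ × ℝ)} (hA : Reg d A) (ht : t ∈ d.I)
    {γ : ℝ → ℝ × ℝ} (hγ : Continuous γ) {a b : ℝ} (hm : ∀ x ∈ Ioo a b, γ x ∈ A) :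
    IntegrableOn (fun x => f (t, γ x)) (Ioo a b) := by
  obtain ⟨C, hC⟩ := hf.bd.bound hA isCompact_singleton (singleton_subset_iff.mpr ht)
  have hc : ContinuousOn (fun x => f (t, γ x)) (Ioo a b) :=
    (hf.slice ht).comp hγ.continuousOn fun x hx => hA.sub (hm x hx)
  refine IntegrableOn.of_bound (by simp) (hc.aestronglyMeasurable measurableSet_Ioo) C ?_
  exact (ae_restrict_iff' measurableSet_Ioo).mpr
    (Eventually.of_forall fun x hx => hC t rfl _ (hm x hx))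

theorem cs {φ : ℝ → ℝ} {a b : ℝ} (hab : a < b) (h1 : IntegrableOn φ (Ioo a b))
    (h2 : IntegrableOn (fun x => φ x ^ 2) (Ioo a b)) :
    (∫ x in Ioo a b, φ x) ^ 2 ≤ (b - a) * ∫ x in Ioo a b, φ x ^ 2 := by
  have hL : 0 < b - a := sub_pos.2 hab
  have hc : ∀ c : ℝ, IntegrableOn (fun _ : ℝ => c) (Ioo a b) := fun c =>
    integrableOn_const (by simp)
  have h : ∀ m : ℝ, 2 * m * (∫ x in Ioo a b, φ x) ≤ (∫ x in Ioo a b, φ x ^ 2) + (b - a) * m ^ 2 := by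
    intro m
    have := integral_mono (μ := volume.restrict (Ioo a b)) (h1.const_mul (2 * m))
      (h2.add (hc (m ^ 2))) fun x => by
        have := sq_nonneg (φ x - m)
        simp only [Pi.add_apply]
        nlinarith
    rw [integral_const_mul] at this
    simp only [Pi.add_apply] at this
    rw [integral_add h2 (hc _)] at this
    simpa [hL.le] using this
  have := h ((∫ x in Ioo a b, φ x) / (b - a))
  set I := ∫ x in Ioo a b, φ x
  set J := ∫ x in Ioo a b, φ x ^ 2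
  have e : I = I / (b - a) * (b - a) := by field_simp
  set m := I / (b - a)
  rw [e] at this ⊢
  nlinarith

/-- The trace estimate in the form `|h| ≤ a + e + B`. -/
theorem trace (h5 : StTR) {w G : X → ℝ} (v : X) (hw : Bd d w) (hG : Lc d G) {A : Set (ℝ × ℝ)}
    (hA : Reg d A) (ht : t ∈ d.I) {γ : ℝ → ℝ × ℝ} (hγ : Continuous γ) {s : ℝ} (hs : 0 < s)
    (hm : ∀ x ∈ Ioc 0 (2 * s), γ x ∈ A)
    (hd : ∀ (f : X → ℝ) (x : ℝ), DifferentiableAt ℝ f (t, γ x) →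
      HasDerivAt (fun s => f (t, γ s)) (D v f (t, γ x)) x)
    (hb : ∀ x ∈ Ioo 0 (2 * s), 0 ≤ G (t, γ x) ∧
      x * |D v (D v w) (t, γ x)| ≤ √(G (t, γ x)) + G (t, γ x)) :
    ∃ a e : ℝ, a ^ 2 ≤ 72 * s * ∫ y in Ioo 0 (2 * s), G (t, γ y) ∧
      e ^ 2 ≤ 900 / s * ∫ y in Ioo 0 (2 * s), w (t, γ y) ^ 2 ∧
      0 ≤ ∫ y in Ioo 0 (2 * s), G (t, γ y) ∧
      ∀ x ∈ Ioc 0 s, |w (t, γ x)| ≤ a + e + 6 * ∫ y in Ioo 0 (2 * s), G (t, γ y) := by
  have hU : ∀ x ∈ Ioc 0 (2 * s), (t, γ x) ∈ d.U := fun x hx => ⟨ht, hA.sub (hm x hx)⟩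
  have hm' : ∀ x ∈ Ioo 0 (2 * s), γ x ∈ A := fun x hx => hm x (Ioo_subset_Ioc_self hx)
  have hsub : Ioo s (2 * s) ⊆ Ioo 0 (2 * s) := Ioo_subset_Ioo_left hs.le
  have c2 : C2On (fun x => w (t, γ x)) (fun x => D v w (t, γ x)) (fun x => D v (D v w) (t, γ x))
      (Ioc 0 (2 * s)) :=
    ⟨fun x hx => hd _ x (hw.diffAt (hU x hx)), fun x hx => hd _ x ((hw.D v).diffAt (hU x hx)),
      (((hw.D v).D v).lc.slice ht).comp hγ.continuousOn fun x hx => hA.sub (hm x hx)⟩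
  have iG := line_int hG hA ht hγ hm'
  have iS := line_int hG.sqrt hA ht hγ hm'
  have iW := line_int hw.lc.abs hA ht hγ hm'
  have iW2 := line_int (hw.lc.pow 2) hA ht hγ hm'
  have iH := line_int ((hw.D v).D v).lc.abs hA ht hγ hm'
  have iX : IntegrableOn (fun y => y * |D v (D v w) (t, γ y)|) (Ioo 0 (2 * s)) := by
    refine Integrable.mono' (iS.add iG) (aestronglyMeasurable_id.mul iH.1) ?_
    refine (ae_restrict_iff' measurableSet_Ioo).mpr (Eventually.of_forall fun x hx => ?_)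
    rw [Real.norm_eq_abs, abs_of_nonneg (mul_nonneg hx.1.le (abs_nonneg _))]
    exact (hb x hx).2
  have eS : ∫ y in Ioo 0 (2 * s), √(G (t, γ y)) ^ 2 = ∫ y in Ioo 0 (2 * s), G (t, γ y) :=
    setIntegral_congr_fun measurableSet_Ioo fun x hx => Real.sq_sqrt (hb x hx).1
  have iS2 : IntegrableOn (fun y => √(G (t, γ y)) ^ 2) (Ioo 0 (2 * s)) :=
    line_int (hG.sqrt.pow 2) hA ht hγ hm'
  have c1 := cs (by linarith) iS iS2
  rw [eS] at c1
  have iW2' : IntegrableOn (fun y => |w (t, γ y)| ^ 2) (Ioo s (2 * s)) := by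
    simpa only [sq_abs] using iW2.mono_set hsub
  have c3 := cs (by linarith) (iW.mono_set hsub) iW2'
  simp only [sq_abs] at c3
  have c4 : ∫ y in Ioo s (2 * s), w (t, γ y) ^ 2 ≤ ∫ y in Ioo 0 (2 * s), w (t, γ y) ^ 2 :=
    setIntegral_mono_set iW2 (Eventually.of_forall fun _ => sq_nonneg _) hsub.eventuallyLE
  have c5 : ∫ y in Ioo 0 (2 * s), y * |D v (D v w) (t, γ y)| ≤
      (∫ y in Ioo 0 (2 * s), √(G (t, γ y))) + ∫ y in Ioo 0 (2 * s), G (t, γ y) := by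
    rw [← integral_add iS iG]
    exact setIntegral_mono_on iX (iS.add iG) measurableSet_Ioo fun x hx => (hb x hx).2
  refine ⟨6 * ∫ y in Ioo 0 (2 * s), √(G (t, γ y)), 30 / s * ∫ y in Ioo s (2 * s), |w (t, γ y)|,
    by nlinarith, ?_, setIntegral_nonneg measurableSet_Ioo fun x hx => (hb x hx).1,
    fun x hx => ?_⟩
  · have e : (30 / s * ∫ y in Ioo s (2 * s), |w (t, γ y)|) ^ 2 =
        900 / s * ((∫ y in Ioo s (2 * s), |w (t, γ y)|) ^ 2 / s) := by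
      field_simp
      ring
    rw [e]
    refine mul_le_mul_of_nonneg_left ?_ (by positivity)
    rw [div_le_iff₀ hs]
    nlinarith
  · have := h5 _ _ _ s x hs c2 iX hx
    linarith

theorem fub {P : ℝ × ℝ → ℝ} {A B : Set ℝ} (hP : IntegrableOn P (A ×ˢ B)) :
    (IntegrableOn (fun a => ∫ b in B, P (a, b)) A ∧
      ∫ a in A, ∫ b in B, P (a, b) = ∫ y in A ×ˢ B, P y) ∧
    IntegrableOn (fun b => ∫ a in A, P (a, b)) B ∧
      ∫ b in B, ∫ a in A, P (a, b) = ∫ y in A ×ˢ B, P y := by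
  have e : (volume : Measure (ℝ × ℝ)).restrict (A ×ˢ B) =
      (volume.restrict A).prod (volume.restrict B) := by
    rw [Measure.prod_restrict]
    rfl
  unfold IntegrableOn at hP
  rw [e] at hP ⊢
  exact ⟨⟨hP.integral_prod_left, (integral_prod _ hP).symm⟩, hP.integral_prod_right,
    (integral_prod_symm _ hP).symm⟩

theorem ind {I J : Set ℝ} {φ : ℝ → ℝ} (hJ : MeasurableSet J) (hs : J ⊆ I)
    (hφ : IntegrableOn φ J) :
    IntegrableOn (J.indicator φ) I ∧ ∫ b in I, J.indicator φ b = ∫ b in J, φ b :=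
  ⟨((integrable_indicator_iff hJ).2 hφ).integrableOn, by
    rw [setIntegral_indicator hJ, inter_eq_right.2 hs]⟩

theorem om_le {b : Bool} {x : ℝ} (h : x ∈ iv b 1) : om b x ≤ 1 := by
  cases b
  · simp [om]
  · have : 0 < x ∧ x < 1 := by simpa [iv] using h
    simpa [om] using this.2.le

/-- Pointwise facts on the unit box. -/
theorem pt (h2 : StAlg) (A : Api d u) (hp : p ∈ d.U) (hy : p.2 ∈ bx d.τ 1) :
    0 ≤ gex d.τ u p ∧
    |o1 d.τ p * h11 (wv d.τ u) p| ≤ √(gex d.τ u p) + gex d.τ u p ∧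
    |o2 d.τ p * h22 (wv d.τ u) p| ≤ √(gex d.τ u p) + gex d.τ u p ∧
    |(iv2 u).ctr (wv d.τ u) p| ≤ 3 * (√(gex d.τ u p) + gex d.τ u p) ∧
    ∀ n : ℝ × ℝ, 0 ≤ iq u n p ∧ iq u n p ≤ (2 + 2 * gex d.τ u p) * (n.1 ^ 2 + n.2 ^ 2) := by
  obtain ⟨a1, a2⟩ := A.gx1 p hp
  obtain ⟨g0, ⟨g1, -, g3⟩, -, -, -, -, g7⟩ := h2.1 _ _ _ a1 a2
  rw [← A.gx2 p hp] at g0 g1 g3 g7
  have p1 := d.o1_pos hp
  have p2 := d.o2_pos hp
  have e1' : o1 d.τ p * h11 (wv d.τ u) p = o1 d.τ p * h11 u p - 1 := by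
    rw [A.q11 p hp]
    field_simp
    ring
  have e2' : o2 d.τ p * h22 (wv d.τ u) p = o2 d.τ p * h22 u p - 1 := by
    rw [A.q22 p hp]
    field_simp
    ring
  rw [← e1'] at g1
  rw [← e2'] at g3
  refine ⟨g0, g1, g3, ?_, fun n => ?_⟩
  · have e3 := A.gxn p hp
    have e4 : (iv2 u).ctr (wv d.τ u) p = (nn d.τ u).ctr (wv d.τ u) p +
        (o1 d.τ p * h11 (wv d.τ u) p + o2 d.τ p * h22 (wv d.τ u) p) := by
      simp only [T2.ctr, iv2, nn, Pi.add_apply, Pi.mul_apply, Pi.sub_apply, K_apply]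
      ring
    rw [e4, e3, abs_le]
    have := Real.sqrt_nonneg (gex d.τ u p)
    constructor <;> linarith [abs_le.1 g1, abs_le.1 g3]
  · obtain ⟨q1, q2⟩ := g7 (√(o1 d.τ p) * n.1, √(o2 d.τ p) * n.2)
    rw [← A.gx3 p hp] at q1 q2
    refine ⟨q1, q2.trans (mul_le_mul_of_nonneg_left ?_ (by linarith))⟩
    have l1 : o1 d.τ p ≤ 1 := om_le hy.1
    have l2 : o2 d.τ p ≤ 1 := om_le hy.2
    simp only [mul_pow, Real.sq_sqrt p1.le, Real.sq_sqrt p2.le]
    nlinarith [sq_nonneg n.1, sq_nonneg n.2]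

end GradA

end Pool.Agent.P.MP_2cea5e_gt.I
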