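import Pool.Agent.P.MP_2cea5e_gt.I.St3

/-!
Chapter I: the gradient estimate for the truncated function.
-/

open scoped ContDiff Topology
open MeasureTheory Set Filter

noncomputable section

set_option linter.dupNamespace false

namespace Pool.Agent.P.MP_2cea5e_gt.I

namespace GradB

/-! ### The functions of one variable -/

def Ph (x : ℝ) : ℝ := x * Real.arctan x
def Ph1 (x : ℝ) : ℝ := Real.arctan x + x / (1 + x ^ 2)
def Ph2 (x : ℝ) : ℝ := 2 / (1 + x ^ 2) ^ 2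
def Ps (x : ℝ) : ℝ := (x ^ 2 + 1) / 2 * Real.arctan x - x / 2

theorem sm_Ph : ContDiff ℝ ∞ Ph := contDiff_id.mul Real.contDiff_arctan

theorem sm_Ph1 : ContDiff ℝ ∞ Ph1 :=
  Real.contDiff_arctan.add (contDiff_id.div (contDiff_const.add (contDiff_id.pow 2))
    fun x => by positivity)

theorem sm_Ps : ContDiff ℝ ∞ Ps :=
  ((((contDiff_id.pow 2).add contDiff_const).div_const 2).mul Real.contDiff_arctan).sub
    (contDiff_id.div_const 2)

theorem ct_Ph2 : Continuous Ph2 :=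
  continuous_const.div (by fun_prop) fun x => by positivity

theorem d_Ph (x : ℝ) : HasDerivAt Ph (Ph1 x) x := by
  refine HasDerivAt.congr_deriv ((hasDerivAt_id' x).mul (Real.hasDerivAt_arctan x)) ?_
  simp only [Ph1]
  ring

theorem d_Ph1 (x : ℝ) : HasDerivAt Ph1 (Ph2 x) x := by
  have h0 : 1 + x ^ 2 ≠ 0 := by positivity
  have h1 : HasDerivAt (fun x : ℝ => 1 + x ^ 2) (2 * x) x := by
    simpa using (hasDerivAt_pow 2 x).const_add 1
  refine HasDerivAt.congr_deriv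
    ((Real.hasDerivAt_arctan x).add ((hasDerivAt_id' x).div h1 h0)) ?_
  simp only [Ph2]
  field_simp
  ring

theorem d_Ps (x : ℝ) : HasDerivAt Ps (Ph x) x := by
  have h0 : 1 + x ^ 2 ≠ 0 := by positivity
  have h1 : HasDerivAt (fun x : ℝ => (x ^ 2 + 1) / 2) x x := by
    simpa using ((hasDerivAt_pow 2 x).add_const 1).div_const 2
  refine HasDerivAt.congr_deriv
    ((h1.mul (Real.hasDerivAt_arctan x)).sub ((hasDerivAt_id' x).div_const 2)) ?_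
  simp only [Ph]
  field_simp
  ring

theorem at_nonneg {x : ℝ} (h : 0 ≤ x) :
    0 ≤ Real.arctan x ∧ Real.arctan x ≤ x ∧ Real.arctan x ≤ 2 := by
  have h0 := Real.arctan_nonneg.2 h
  have h1 := Real.arctan_lt_pi_div_two x
  have h2 := Real.le_tan h0 h1
  rw [Real.tan_arctan] at h2
  exact ⟨h0, h2, by linarith [Real.pi_le_four]⟩

theorem at_abs (x : ℝ) : |Real.arctan x| = Real.arctan |x| := by
  rcases le_total 0 x with h | h
  · rw [abs_of_nonneg h, abs_of_nonneg (at_nonneg h).1]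
  · rw [abs_of_nonpos h, Real.arctan_neg, abs_of_nonpos (Real.arctan_le_zero.2 h)]

theorem ph_eq (x : ℝ) : Ph x = |x| * Real.arctan |x| := by
  rcases le_total 0 x with h | h
  · rw [abs_of_nonneg h, Ph]
  · rw [abs_of_nonpos h, Real.arctan_neg, Ph]; ring

theorem ph_bd (x : ℝ) : 0 ≤ Ph x ∧ Ph x ≤ x ^ 2 ∧ Ph x ≤ 2 * |x| := by
  obtain ⟨h1, h2, h3⟩ := at_nonneg (abs_nonneg x)
  have h0 := abs_nonneg x
  rw [ph_eq, ← sq_abs x]
  exact ⟨mul_nonneg h0 h1, by nlinarith, by nlinarith⟩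

theorem ph1_bd (x : ℝ) : |Ph1 x| ≤ 2 * |x| ∧ |Ph1 x| ≤ 3 := by
  obtain ⟨h1, h2, h3⟩ := at_nonneg (abs_nonneg x)
  have h0 := abs_nonneg x
  have h4 : |Ph1 x| ≤ Real.arctan |x| + |x| / (1 + x ^ 2) := by
    refine (abs_add_le _ _).trans (le_of_eq ?_)
    rw [at_abs, abs_div, abs_of_pos (by positivity : 0 < 1 + x ^ 2)]
  have h5 : |x| / (1 + x ^ 2) ≤ |x| := div_le_self h0 (by nlinarith [sq_nonneg x])
  have h6 : |x| / (1 + x ^ 2) ≤ 1 := by
    rw [div_le_one (by positivity), ← sq_abs x]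
    nlinarith [sq_nonneg (|x| - 1)]
  exact ⟨by linarith, by linarith⟩

theorem ph2_bd (x : ℝ) : 0 ≤ Ph2 x ∧ (|x| ≤ 1 → 1 / 2 ≤ Ph2 x) := by
  refine ⟨by unfold Ph2; positivity, fun h => ?_⟩
  have h1 : x ^ 2 ≤ 1 := by
    rw [← sq_abs]
    nlinarith [abs_nonneg x]
  unfold Ph2
  rw [le_div_iff₀ (by positivity)]
  nlinarith [sq_nonneg x]

theorem ps_bd (x : ℝ) : |Ps x| ≤ 2 * x ^ 2 := by
  have h := (convex_Icc (-|x|) |x|).norm_image_sub_le_of_norm_hasDerivWithin_le (f := Ps)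
    (f' := Ph) (C := 2 * |x|) (x := 0) (y := x) (fun y _ => (d_Ps y).hasDerivWithinAt)
    (fun y hy => by
      rw [Real.norm_eq_abs, abs_of_nonneg (ph_bd y).1]
      have := abs_le.2 hy
      linarith [(ph_bd y).2.2])
    ⟨by linarith [abs_nonneg x], abs_nonneg x⟩ (abs_le.1 le_rfl)
  have h0 : Ps 0 = 0 := by simp [Ps]
  rw [h0, sub_zero, sub_zero, Real.norm_eq_abs, Real.norm_eq_abs] at h
  rw [← sq_abs x]
  linarith

/-! ### The face term in one variable -/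

theorem vol01 : volume (Ioo (0 : ℝ) 1) ≠ ⊤ := by simp

theorem sq_int {k : ℝ → ℝ} (h1 : IntegrableOn k (Ioo 0 1))
    (h2 : IntegrableOn (fun x => k x ^ 2) (Ioo 0 1)) :
    (∫ x in Ioo (0 : ℝ) 1, k x) ^ 2 ≤ ∫ x in Ioo (0 : ℝ) 1, k x ^ 2 := by
  set c := ∫ x in Ioo (0 : ℝ) 1, k x with hc
  have h4 : IntegrableOn (fun _ : ℝ => c ^ 2) (Ioo (0 : ℝ) 1) := integrableOn_const vol01
  have h3 : ∫ x in Ioo (0 : ℝ) 1, 2 * c * k x ≤ ∫ x in Ioo (0 : ℝ) 1, (c ^ 2 + k x ^ 2) :=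
    integral_mono (h1.const_mul _) (h4.add h2) fun x => by
      show 2 * c * k x ≤ c ^ 2 + k x ^ 2
      nlinarith [sq_nonneg (c - k x)]
  rw [integral_const_mul, integral_add h4 h2, ← hc] at h3
  simp only [integral_const, MeasurableSet.univ, measureReal_restrict_apply, univ_inter,
    Real.volume_real_Ioo, sub_zero, zero_le_one, sup_of_le_left, smul_eq_mul, one_mul] at h3
  nlinarith

theorem face1 (h5 : StTR) {h h' h'' g : ℝ → ℝ} (hc : C2On h h' h'' (Ioo 0 1))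
    (ih : IntegrableOn h (Ioo 0 1)) (ih2 : IntegrableOn (fun x => h x ^ 2) (Ioo 0 1))
    (ig : IntegrableOn g (Ioo 0 1)) (is : IntegrableOn (fun x => √(g x)) (Ioo 0 1))
    (h0 : ∀ x ∈ Ioo (0 : ℝ) 1, 0 ≤ g x ∧ x * |h'' x| ≤ √(g x) + g x) {x : ℝ}
    (hx : x ∈ Ioo (0 : ℝ) (1 / 10)) :
    Ph (h x) ≤ 720000 * ∫ x in Ioo (0 : ℝ) 1, (h x ^ 2 + g x) := by
  have s1 : Ioc (0 : ℝ) (2 * (1 / 10)) ⊆ Ioo 0 1 := fun y hy => ⟨hy.1, by linarith [hy.2]⟩
  have s2 : Ioo (0 : ℝ) (2 * (1 / 10)) ⊆ Ioo 0 1 := Ioo_subset_Ioc_self.trans s1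
  have s3 : Ioo (1 / 10 : ℝ) (2 * (1 / 10)) ⊆ Ioo 0 1 :=
    fun y hy => ⟨by linarith [hy.1], by linarith [hy.2]⟩
  have i1 : IntegrableOn (fun y => y * |h'' y|) (Ioo 0 1) := by
    refine Integrable.mono' (is.add ig)
      ((continuousOn_id.mul hc.c2.abs).aestronglyMeasurable measurableSet_Ioo) ?_
    filter_upwards [ae_restrict_mem measurableSet_Ioo] with y hy
    rw [Real.norm_eq_abs, abs_of_nonneg (mul_nonneg hy.1.le (abs_nonneg _))]
    exact (h0 y hy).2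
  have k := h5 h h' h'' (1 / 10) x (by norm_num)
    ⟨fun y hy => hc.d1 y (s1 hy), fun y hy => hc.d2 y (s1 hy), hc.c2.mono s1⟩ (i1.mono_set s2)
    (Ioo_subset_Ioc_self hx)
  have k1 : ∫ y in Ioo (0 : ℝ) (2 * (1 / 10)), y * |h'' y| ≤ ∫ y in Ioo (0 : ℝ) 1, y * |h'' y| :=
    setIntegral_mono_set i1 (by
      filter_upwards [ae_restrict_mem measurableSet_Ioo] with y hy
      exact mul_nonneg hy.1.le (abs_nonneg _)) s2.eventuallyLE
  have k2 : ∫ y in Ioo (0 : ℝ) 1, y * |h'' y| ≤ ∫ y in Ioo (0 : ℝ) 1, (√(g y) + g y) :=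
    setIntegral_mono_on i1 (is.add ig) measurableSet_Ioo fun y hy => (h0 y hy).2
  have k3 : ∫ y in Ioo (1 / 10 : ℝ) (2 * (1 / 10)), |h y| ≤ ∫ y in Ioo (0 : ℝ) 1, |h y| :=
    setIntegral_mono_set ih.abs (Eventually.of_forall fun y => abs_nonneg _) s3.eventuallyLE
  have e1 : ∫ y in Ioo (0 : ℝ) 1, √(g y) ^ 2 = ∫ y in Ioo (0 : ℝ) 1, g y :=
    setIntegral_congr_fun measurableSet_Ioo fun y hy => Real.sq_sqrt (h0 y hy).1
  have k4 := sq_int is ((integrableOn_congr_fun (fun y hy => Real.sq_sqrt (h0 y hy).1)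
    measurableSet_Ioo).2 ig)
  have k5 := sq_int ih.abs (by simpa only [sq_abs] using ih2)
  simp only [sq_abs] at k5
  rw [e1] at k4
  rw [integral_add is ig] at k2
  rw [integral_add ih2 ig]
  have p1 : 0 ≤ ∫ y in Ioo (0 : ℝ) 1, g y :=
    setIntegral_nonneg measurableSet_Ioo fun y hy => (h0 y hy).1
  have p2 : 0 ≤ ∫ y in Ioo (0 : ℝ) 1, h y ^ 2 := integral_nonneg fun y => sq_nonneg _
  generalize ∫ y in Ioo (0 : ℝ) 1, √(g y) = a at *
  generalize ∫ y in Ioo (0 : ℝ) 1, g y = b at *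
  generalize ∫ y in Ioo (0 : ℝ) 1, |h y| = e at *
  generalize ∫ y in Ioo (0 : ℝ) 1, h y ^ 2 = c at *
  have k6 : |h x| ≤ 6 * a + 300 * e + 6 * b := by linarith
  obtain ⟨-, b1, b2⟩ := ph_bd (h x)
  rcases le_total |h x| (2 * (6 * a + 300 * e)) with q | q
  · have q1 : h x ^ 2 ≤ (2 * (6 * a + 300 * e)) ^ 2 := by
      rw [← sq_abs (h x)]
      exact pow_le_pow_left₀ (abs_nonneg _) q 2
    nlinarith [sq_nonneg (6 * a - 300 * e)]
  · linarith

/-! ### The cutoff -/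

def pr (a b : ℝ → ℝ) : X → ℝ := fun p => a p.2.1 * b p.2.2

theorem sm_pr {a b : ℝ → ℝ} (ha : ContDiff ℝ ∞ a) (hb : ContDiff ℝ ∞ b) : Sm (pr a b) :=
  (ha.comp (contDiff_fst.comp contDiff_snd)).mul (hb.comp (contDiff_snd.comp contDiff_snd))

theorem pr_D {a b : ℝ → ℝ} (ha : ContDiff ℝ ∞ a) (hb : ContDiff ℝ ∞ b) :
    D e0 (pr a b) = 0 ∧ D e1 (pr a b) = pr (deriv a) b ∧ D e2 (pr a b) = pr a (deriv b) := by
  have da := fun x => (ha.differentiable (by simp) x).hasDerivAt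
  have db := fun x => (hb.differentiable (by simp) x).hasDerivAt
  refine ⟨funext fun p => ?_, funext fun p => ?_, funext fun p => ?_⟩
  · exact (hasDerivAt_t (t := p.1) (y := p.2) ((sm_pr ha hb).diff _)).unique
      (hasDerivAt_const p.1 (a p.2.1 * b p.2.2))
  · exact (hasDerivAt_y1 (t := p.1) (a := p.2.1) (b := p.2.2) ((sm_pr ha hb).diff _)).unique
      ((da p.2.1).mul_const (b p.2.2))
  · exact (hasDerivAt_y2 (t := p.1) (a := p.2.1) (b := p.2.2) ((sm_pr ha hb).diff _)).unique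
      ((db p.2.2).const_mul (a p.2.1))

structure Cs (τ : Ty) (s : X → ℝ) (C : ℝ) : Prop where
  sm : Sm s
  t0 : D e0 s = 0
  bd : ∀ p, 0 ≤ s p ∧ s p ≤ 1
  one : ∀ t, ∀ y ∈ bx τ (1 / 2), s (t, y) = 1
  van : ∀ t, ∀ y ∈ bx τ 1, y ∉ bx τ (29 / 50) → s (t, y) = 0
  db : ∀ p, |D e1 s p| ≤ C ∧ |D e2 s p| ≤ C ∧ |h11 s p| ≤ C ∧ |h12 s p| ≤ C ∧ |h22 s p| ≤ C
  dz : ∀ t, ∀ y ∈ bx τ 1, y ∉ An τ (19 / 20) (1 / 10) → D e1 s (t, y) = 0 ∧ D e2 s (t, y) = 0 ∧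
    h11 s (t, y) = 0 ∧ h12 s (t, y) = 0 ∧ h22 s (t, y) = 0

theorem cut1 (h0 : StCut) (b : Bool) : ∃ χ : ℝ → ℝ, ∃ C, 1 ≤ C ∧ ContDiff ℝ ∞ χ ∧
    (∀ x, 0 ≤ χ x ∧ χ x ≤ 1) ∧
    (∀ x ∈ ivc b (1 / 2), χ x = 1 ∧ deriv χ x = 0 ∧ deriv (deriv χ) x = 0) ∧
    (∀ x ∈ iv b 1, x ∉ iv b (29 / 50) → χ x = 0) ∧
    (∀ x ∈ iv b 1, x ∉ iv b (19 / 20) → χ x = 0 ∧ deriv χ x = 0 ∧ deriv (deriv χ) x = 0) ∧
    ∀ x, |χ x| ≤ C ∧ |deriv χ x| ≤ C ∧ |deriv (deriv χ) x| ≤ C := by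
  obtain ⟨χ, h1, h2, h3, h4, C, h5⟩ := h0 b (1 / 2) (29 / 50) (by norm_num) (by norm_num)
  have z : ∀ x ∈ iv b 1, x ∉ iv b (29 / 50) → χ x = 0 := fun x hx hn => by
    by_contra h
    exact hn ((h4 x (ok_subset b (iv_subset_ok b 1 hx)) h).2 (iv_subset_ok b 1 hx))
  refine ⟨χ, max C 1, le_max_right _ _, h1, h2, h3, z, fun x hx hn => ?_, fun x => ⟨?_,
    (h5 x).1.trans (le_max_left _ _), (h5 x).2.trans (le_max_left _ _)⟩⟩
  · have hc : x ∉ ivc b (29 / 50) := fun h => hn (by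
      cases b
      · simp only [iv, ivc, Bool.false_eq_true, if_false] at *
        exact ⟨by linarith [h.1], by linarith [h.2]⟩
      · simp only [iv, ivc, if_true] at *
        exact ⟨hx.1, by linarith [h.2]⟩)
    have e1 : χ =ᶠ[𝓝 x] fun _ => 0 := by
      filter_upwards [(isOpen_iv b 1).mem_nhds hx,
        (isCompact_ivc b (29 / 50)).isClosed.isOpen_compl.mem_nhds hc] with y k1 k2
      exact z y k1 fun h => k2 (iv_subset_ivc _ _ h)
    have e2 : deriv χ =ᶠ[𝓝 x] fun _ => 0 := by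
      have := e1.deriv
      simpa only [deriv_const'] using this
    refine ⟨e1.eq_of_nhds, e2.eq_of_nhds, ?_⟩
    rw [e2.deriv_eq, deriv_const]
  · rw [abs_of_nonneg (h2 x).1]
    exact (h2 x).2.trans (le_max_right _ _)

theorem om_big {b : Bool} {x : ℝ} (h1 : x ∈ iv b 1) (h2 : x ∉ ivc b (1 / 2)) :
    (1 / 10 : ℝ) ^ 2 ≤ om b x := by
  cases b
  · simp only [om, Bool.false_eq_true, if_false]
    norm_num
  · simp only [iv, ivc, om, if_true] at *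
    by_contra h
    exact h2 ⟨h1.1.le, by linarith⟩

theorem exists_cs (h0 : StCut) (τ : Ty) : ∃ s C, 0 ≤ C ∧ Cs τ s C := by
  obtain ⟨a, A, a0, a1, a2, a3, a4, a5, a6⟩ := cut1 h0 τ.1
  obtain ⟨b, B, b0, b1, b2, b3, b4, b5, b6⟩ := cut1 h0 τ.2
  have a1' := (contDiff_infty_iff_deriv.1 a1).2
  have b1' := (contDiff_infty_iff_deriv.1 b1).2
  have e1 := (pr_D a1 b1).2.1
  have e2 := (pr_D a1 b1).2.2
  have e11 : h11 (pr a b) = pr (deriv (deriv a)) b := by rw [h11, e1, (pr_D a1' b1).2.1]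
  have e12 : h12 (pr a b) = pr (deriv a) (deriv b) := by rw [h12, e2, (pr_D a1 b1').2.1]
  have e22 : h22 (pr a b) = pr a (deriv (deriv b)) := by rw [h22, e2, (pr_D a1 b1').2.2]
  have mm : ∀ {x y : ℝ}, |x| ≤ A → |y| ≤ B → |x * y| ≤ A * B := fun hx hy => by
    rw [abs_mul]
    exact mul_le_mul hx hy (abs_nonneg _) (by linarith)
  refine ⟨pr a b, A * B, by positivity, sm_pr a1 b1, (pr_D a1 b1).1, fun p => ⟨?_, ?_⟩,
    fun t y hy => ?_, fun t y hy hn => ?_, fun p => ?_, fun t y hy hn => ?_⟩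
  · exact mul_nonneg (a2 _).1 (b2 _).1
  · exact mul_le_one₀ (a2 _).2 (b2 _).1 (b2 _).2
  · simp only [pr]
    rw [(a3 _ (iv_subset_ivc _ _ hy.1)).1, (b3 _ (iv_subset_ivc _ _ hy.2)).1, one_mul]
  · simp only [pr]
    by_cases h : y.1 ∈ iv τ.1 (29 / 50)
    · rw [b4 _ hy.2 fun k => hn ⟨h, k⟩, mul_zero]
    · rw [a4 _ hy.1 h, zero_mul]
  · rw [e1, e2, e11, e12, e22]
    exact ⟨mm (a6 _).2.1 (b6 _).1, mm (a6 _).1 (b6 _).2.1, mm (a6 _).2.2 (b6 _).1,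
      mm (a6 _).2.1 (b6 _).2.1, mm (a6 _).1 (b6 _).2.2⟩
  · rw [e1, e2, e11, e12, e22]
    simp only [pr]
    by_cases k1 : y.1 ∈ iv τ.1 (19 / 20)
    · by_cases k2 : y.2 ∈ iv τ.2 (19 / 20)
      · have m1 : y.1 ∈ ivc τ.1 (1 / 2) := by
          by_contra h
          exact hn ⟨⟨k1, k2⟩, Or.inl (om_big hy.1 h)⟩
        have m2 : y.2 ∈ ivc τ.2 (1 / 2) := by
          by_contra h
          exact hn ⟨⟨k1, k2⟩, Or.inr (om_big hy.2 h)⟩
        simp [a3 _ m1, b3 _ m2]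
      · simp [b5 _ hy.2 k2]
    · simp [a5 _ hy.1 k1]

/-! ### Pointwise calculus -/

variable {d : Dm} {u F s w : X → ℝ} {p : X} {t C : ℝ}

theorem DD_mul {f g : X → ℝ} (hf : Bd d f) (hg : Bd d g) (v v' : X) (hp : p ∈ d.U) :
    D v (D v' (f * g)) p = D v (D v' f) p * g p + D v' f p * D v g p +
      (D v f p * D v' g p + f p * D v (D v' g) p) := by
  have e : EqOn (D v' (f * g)) (D v' f * g + f * D v' g) d.U := fun q hq =>
    D_mul_at v' (hf.diffAt hq) (hg.diffAt hq)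
  rw [D_congr d.isOpen_U v e hp,
    D_add_at v (((hf.D v').mul hg).diffAt hp) ((hf.mul (hg.D v')).diffAt hp),
    D_mul_at v ((hf.D v').diffAt hp) (hg.diffAt hp),
    D_mul_at v (hf.diffAt hp) ((hg.D v').diffAt hp)]

theorem D_ph (hw : Bd d w) (v : X) (hp : p ∈ d.U) :
    D v (fun q => Ph (w q)) p = Ph1 (w p) * D v w p := D_comp_at v (d_Ph _) (hw.diffAt hp)

theorem DD_ph (hw : Bd d w) (v v' : X) (hp : p ∈ d.U) :
    D v (D v' fun q => Ph (w q)) p =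
      Ph2 (w p) * D v w p * D v' w p + Ph1 (w p) * D v (D v' w) p := by
  have e : EqOn (D v' fun q => Ph (w q)) ((fun q => Ph1 (w q)) * D v' w) d.U := fun q hq =>
    D_ph hw v' hq
  rw [D_congr d.isOpen_U v e hp,
    D_mul_at v ((hw.comp sm_Ph1).diffAt hp) ((hw.D v').diffAt hp),
    D_comp_at v (d_Ph1 _) (hw.diffAt hp)]

/-- The test function. -/
def ff (s w : X → ℝ) : X → ℝ := s * s * fun q => Ph (w q)

theorem bd_ff (hs : Sm s) (hw : Bd d w) : Bd d (ff s w) :=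
  ((bd_of_sm hs).mul (bd_of_sm hs)).mul (hw.comp sm_Ph)

theorem DD_ff (hs : Sm s) (hw : Bd d w) (v v' : X) (hp : p ∈ d.U) :
    D v (D v' (ff s w)) p =
      2 * (D v s p * D v' s p + s p * D v (D v' s) p) * Ph (w p) +
      2 * s p * Ph1 (w p) * (D v' s p * D v w p + D v s p * D v' w p) +
      s p ^ 2 * (Ph2 (w p) * D v w p * D v' w p + Ph1 (w p) * D v (D v' w) p) := by
  have hb : Bd d s := bd_of_sm hs
  rw [ff, DD_mul (hb.mul hb) (hw.comp sm_Ph) v v' hp, DD_mul hb hb v v' hp, DD_ph hw v v' hp,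
    D_ph hw v hp, D_ph hw v' hp, D_mul_at v (hb.diffAt hp) (hb.diffAt hp),
    D_mul_at v' (hb.diffAt hp) (hb.diffAt hp), Pi.mul_apply]
  ring

theorem alg {A B E G r w w1 w2 cw s s1 s2 s11 s12 s22 C : ℝ} (hC : 0 ≤ C) (hG : 0 ≤ G)
    (hr0 : 0 ≤ r) (hr : r ^ 2 = G)
    (hq : ∀ x y : ℝ, 0 ≤ A * x * x + B * (x * y + y * x) + E * y * y ∧
      A * x * x + B * (x * y + y * x) + E * y * y ≤ (2 + 2 * G) * (x ^ 2 + y ^ 2))
    (hcw : |cw| ≤ 2 * r + 3 * G) (hs : 0 ≤ s ∧ s ≤ 1)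
    (hb : |s1| ≤ C ∧ |s2| ≤ C ∧ |s11| ≤ C ∧ |s12| ≤ C ∧ |s22| ≤ C)
    (hz : |w| ≤ 1 ∨ (s1 = 0 ∧ s2 = 0 ∧ s11 = 0 ∧ s12 = 0 ∧ s22 = 0)) :
    s ^ 2 * Ph2 w * (A * w1 * w1 + B * (w1 * w2 + w2 * w1) + E * w2 * w2) / 2 ≤
      2 * Ph w * (A * s1 * s1 + B * (s1 * s2 + s2 * s1) + E * s2 * s2) +
      2 * s * Ph w * (A * s11 + 2 * B * s12 + E * s22) +
      4 * s * Ph1 w * (A * s1 * w1 + B * (s1 * w2 + s2 * w1) + E * s2 * w2) +
      s ^ 2 * Ph2 w * (A * w1 * w1 + B * (w1 * w2 + w2 * w1) + E * w2 * w2) +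
      s ^ 2 * Ph1 w * cw + (16 * C + 256 * C ^ 2 + 11) * (w ^ 2 + G) := by
  obtain ⟨p0, p1, -⟩ := ph_bd w
  obtain ⟨p2, p3⟩ := ph1_bd w
  obtain ⟨p4, p5⟩ := ph2_bd w
  have g0 := (hq w1 w2).1
  have g1 := hq s1 s2
  have g2 := (hq (s / 2 * w1 + 4 * Ph1 w * s1) (s / 2 * w2 + 4 * Ph1 w * s2)).1
  have hw2 := sq_nonneg w
  have s2' : s ^ 2 ≤ 1 := by nlinarith [hs.1, hs.2]
  -- the last term
  have t1 : -(11 * (w ^ 2 + G)) ≤ s ^ 2 * Ph1 w * cw := by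
    have k1 : |Ph1 w * cw| ≤ |Ph1 w| * (2 * r + 3 * G) := by
      rw [abs_mul]
      exact mul_le_mul_of_nonneg_left hcw (abs_nonneg _)
    have k2 : |Ph1 w| * r ≤ 2 * |w| * r := mul_le_mul_of_nonneg_right p2 hr0
    have k3 : |Ph1 w| * G ≤ 3 * G := mul_le_mul_of_nonneg_right p3 hG
    have k4 : 2 * |w| * r ≤ w ^ 2 + G := by
      rw [← hr, ← sq_abs w]
      nlinarith [sq_nonneg (|w| - r)]
    have k5 : |s ^ 2 * (Ph1 w * cw)| ≤ |Ph1 w * cw| := by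
      rw [abs_mul, abs_of_nonneg (sq_nonneg s)]
      exact mul_le_of_le_one_left (abs_nonneg _) s2'
    have k6 := neg_abs_le (s ^ 2 * (Ph1 w * cw))
    rw [mul_assoc]
    linarith
  have t0 := mul_nonneg (mul_nonneg (sq_nonneg s) p4) g0
  have c0 : 0 ≤ C * (w ^ 2 + G) := by positivity
  have c1 : 0 ≤ C ^ 2 * (w ^ 2 + G) := by positivity
  rcases hz with hz | ⟨rfl, rfl, rfl, rfl, rfl⟩
  swap
  · simp only [mul_zero, zero_mul, add_zero, zero_add]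
    linarith
  have w1' : w ^ 2 ≤ 1 := by
    rw [← sq_abs]
    nlinarith [abs_nonneg w]
  have wG : w ^ 2 * (2 + 2 * G) ≤ 2 * (w ^ 2 + G) := by nlinarith
  have t2 := mul_nonneg p0 g1.1
  -- second derivatives of the cutoff
  have t3 : -(16 * (C * (w ^ 2 + G))) ≤ 2 * s * Ph w * (A * s11 + 2 * B * s12 + E * s22) := by
    have a0 := hq 1 0
    have a1 := hq 0 1
    have a2 := (hq 1 1).1
    have a3 := (hq 1 (-1)).1
    have b0 : |A| ≤ 2 + 2 * G := abs_le.2 ⟨by linarith [a0.1], by linarith [a0.2]⟩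
    have b1 : |E| ≤ 2 + 2 * G := abs_le.2 ⟨by linarith [a1.1], by linarith [a1.2]⟩
    have b2 : |B| ≤ 2 + 2 * G :=
      abs_le.2 ⟨by linarith [a0.2, a1.2], by linarith [a0.2, a1.2]⟩
    have mm : ∀ {x y : ℝ}, |x| ≤ 2 + 2 * G → |y| ≤ C → -((2 + 2 * G) * C) ≤ x * y :=
      fun {x y} hx hy => by
        have := mul_le_mul hx hy (abs_nonneg _) (by linarith)
        rw [← abs_mul] at this
        linarith [neg_abs_le (x * y)]
    have k1 : -(4 * ((2 + 2 * G) * C)) ≤ A * s11 + 2 * B * s12 + E * s22 := by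
      linarith [mm b0 hb.2.2.1, mm b2 hb.2.2.2.1, mm b1 hb.2.2.2.2]
    have k2 : 0 ≤ s * Ph w := mul_nonneg hs.1 p0
    have k3 : s * Ph w ≤ w ^ 2 := (mul_le_of_le_one_left p0 hs.2).trans p1
    have k4 := mul_le_mul_of_nonneg_left k1 k2
    have k5 := mul_le_mul_of_nonneg_right k3 (show 0 ≤ (2 + 2 * G) * C by positivity)
    have k6 := mul_le_mul_of_nonneg_right wG hC
    linarith
  -- the cross term
  have t4 : Ph1 w ^ 2 * (A * s1 * s1 + B * (s1 * s2 + s2 * s1) + E * s2 * s2) ≤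
      16 * (C ^ 2 * (w ^ 2 + G)) := by
    have k1 : Ph1 w ^ 2 ≤ 4 * w ^ 2 := by
      have := pow_le_pow_left₀ (abs_nonneg _) p2 2
      rw [sq_abs, mul_pow, sq_abs] at this
      linarith
    have k2 : s1 ^ 2 ≤ C ^ 2 := by
      rw [← sq_abs]
      exact pow_le_pow_left₀ (abs_nonneg _) hb.1 2
    have k3 : s2 ^ 2 ≤ C ^ 2 := by
      rw [← sq_abs]
      exact pow_le_pow_left₀ (abs_nonneg _) hb.2.1 2
    have k4 : (2 + 2 * G) * (s1 ^ 2 + s2 ^ 2) ≤ (2 + 2 * G) * (2 * C ^ 2) :=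
      mul_le_mul_of_nonneg_left (by linarith) (by linarith)
    have k5 := mul_le_mul k1 (g1.2.trans k4) g1.1 (by linarith)
    have k6 := mul_le_mul_of_nonneg_right wG (sq_nonneg C)
    linarith
  have t5 := mul_le_mul_of_nonneg_right (p5 hz) (mul_nonneg (sq_nonneg s) g0)
  linarith

theorem om_le {b : Bool} {x : ℝ} (h : x ∈ iv b 1) : om b x ≤ 1 := by
  cases b
  · simp [om]
  · simp only [iv, om, if_true, one_pow] at *
    exact h.2.le

theorem facts (A : Api d u) (h2 : StAlg) (hp : p ∈ d.U) : 0 ≤ gex d.τ u p ∧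
    |o1 d.τ p * h11 (wv d.τ u) p| ≤ √(gex d.τ u p) + gex d.τ u p ∧
    |o2 d.τ p * h22 (wv d.τ u) p| ≤ √(gex d.τ u p) + gex d.τ u p ∧
    ∀ n : ℝ × ℝ, 0 ≤ iq u n p ∧
      iq u n p ≤ (2 + 2 * gex d.τ u p) * (o1 d.τ p * n.1 ^ 2 + o2 d.τ p * n.2 ^ 2) := by
  obtain ⟨a1, ⟨a2, -, a3⟩, -, -, -, -, a4⟩ := h2.1 _ _ _ (A.gx1 p hp).1 (A.gx1 p hp).2
  rw [← A.gx2 p hp] at a1 a2 a3 a4
  have b1 := d.o1_pos hp
  have b2 := d.o2_pos hp
  rw [A.q11 p hp, mul_add, mul_inv_cancel₀ b1.ne', add_sub_cancel_right] at a2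
  rw [A.q22 p hp, mul_add, mul_inv_cancel₀ b2.ne', add_sub_cancel_right] at a3
  refine ⟨a1, a2, a3, fun n => ?_⟩
  have := a4 (√(o1 d.τ p) * n.1, √(o2 d.τ p) * n.2)
  rw [← A.gx3 p hp n] at this
  simpa only [mul_pow, Real.sq_sqrt b1.le, Real.sq_sqrt b2.le] using this

theorem ctr_split (τ : Ty) (u f : X → ℝ) (p : X) :
    (iv2 u).ctr f p = (nn τ u).ctr f p + (o1 τ * h11 f + o2 τ * h22 f) p := by
  simp only [T2.ctr, iv2, nn, Pi.add_apply, Pi.mul_apply, Pi.sub_apply, K_apply]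
  ring

theorem pointwise (A : Api d u) (h2 : StAlg) (hw : Bd d (wv d.τ u)) (hC : 0 ≤ C)
    (hs : Cs d.τ s C) {y : ℝ × ℝ} (hy : y ∈ bx d.τ 1) (hp : ((t, y) : X) ∈ d.U)
    (hb : SupB d u 1 t) :
    s (t, y) ^ 2 * Ph2 (wv d.τ u (t, y)) * gu u (wv d.τ u) (t, y) / 2 ≤
      (iv2 u).ctr (ff s (wv d.τ u)) (t, y) +
        (16 * C + 256 * C ^ 2 + 11) * (wv d.τ u (t, y) ^ 2 + gex d.τ u (t, y)) := by
  obtain ⟨f1, f2, f3, f4⟩ := facts A h2 hp
  have c1 := ctr_split d.τ u (wv d.τ u) (t, y)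
  rw [A.gxn _ hp] at c1
  have l1 : o1 d.τ (t, y) ≤ 1 := om_le hy.1
  have l2 : o2 d.τ (t, y) ≤ 1 := om_le hy.2
  have k := alg (A := i11 u (t, y)) (B := i12 u (t, y)) (E := i22 u (t, y))
    (w := wv d.τ u (t, y)) (w1 := D e1 (wv d.τ u) (t, y)) (w2 := D e2 (wv d.τ u) (t, y))
    (cw := (iv2 u).ctr (wv d.τ u) (t, y)) hC f1 (Real.sqrt_nonneg _) (Real.sq_sqrt f1)
    (fun a b => ⟨(f4 (a, b)).1, (f4 (a, b)).2.trans (mul_le_mul_of_nonneg_left
      (add_le_add (mul_le_of_le_one_left (sq_nonneg _) l1)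
        (mul_le_of_le_one_left (sq_nonneg _) l2)) (by linarith))⟩)
    (by
      rw [c1, Pi.add_apply, Pi.mul_apply, Pi.mul_apply]
      obtain ⟨g1, g2⟩ := abs_le.1 f2
      obtain ⟨g3, g4⟩ := abs_le.1 f3
      exact abs_le.2 ⟨by linarith, by linarith⟩)
    (hs.bd (t, y)) (hs.db (t, y)) (by
      by_cases h : y ∈ An d.τ (19 / 20) (1 / 10)
      · exact Or.inl (hb y h)
      · exact Or.inr (hs.dz t y hy h))
  refine k.trans (le_of_eq ?_)
  simp only [T2.ctr, iv2, Pi.add_apply, Pi.mul_apply, K_apply, h11, h12, h22,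
    DD_ff hs.sm hw _ _ hp]
  ring

/-! ### One time -/

variable (ht : t ∈ d.I) (hO : bxc d.τ 1 ⊆ d.O)
include ht hO

theorem memU {y : ℝ × ℝ} (hy : y ∈ bx d.τ 1) : ((t, y) : X) ∈ d.U := ⟨ht, (reg_bx hO).sub hy⟩

theorem slice {k : X → ℝ} (hk : Lc d k) {ι : ℝ → ℝ × ℝ} (hι : Continuous ι)
    (hm : ∀ x ∈ Ioo (0 : ℝ) 1, ι x ∈ bx d.τ 1) :
    ContinuousOn (fun x => k (t, ι x)) (Ioo 0 1) ∧
      IntegrableOn (fun x => k (t, ι x)) (Ioo 0 1) := by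
  have hc : ContinuousOn (fun x => k (t, ι x)) (Ioo 0 1) :=
    (hk.slice ht).comp hι.continuousOn fun x hx => (reg_bx hO).sub (hm x hx)
  obtain ⟨M, hM⟩ := hk.bd.bound (reg_bx hO) isCompact_singleton (singleton_subset_iff.2 ht)
  have h0 : IntegrableOn (fun _ : ℝ => M) (Ioo (0 : ℝ) 1) := integrableOn_const vol01
  refine ⟨hc, Integrable.mono' h0 (hc.aestronglyMeasurable measurableSet_Ioo) ?_⟩
  filter_upwards [ae_restrict_mem measurableSet_Ioo] with x hx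
  exact hM t rfl _ (hm x hx)

theorem face (h5 : StTR) (hw : Bd d w) {G : X → ℝ} (hG : Lc d G) (v : X) {ι : ℝ → ℝ × ℝ}
    (hι : Continuous ι) (hm : ∀ x ∈ Ioo (0 : ℝ) 1, ι x ∈ bx d.τ 1)
    (hd : ∀ (k : X → ℝ) (x : ℝ), DifferentiableAt ℝ k (t, ι x) →
      HasDerivAt (fun x => k (t, ι x)) (D v k (t, ι x)) x)
    (h0 : ∀ x ∈ Ioo (0 : ℝ) 1, 0 ≤ G (t, ι x) ∧
      x * |D v (D v w) (t, ι x)| ≤ √(G (t, ι x)) + G (t, ι x))
    {x : ℝ} (hx : x ∈ Ioo (0 : ℝ) (1 / 10)) :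
    Ph (w (t, ι x)) ≤ 720000 * ∫ x in Ioo (0 : ℝ) 1, (w (t, ι x) ^ 2 + G (t, ι x)) :=
  face1 h5 (h := fun x => w (t, ι x)) (h' := fun x => D v w (t, ι x))
    (h'' := fun x => D v (D v w) (t, ι x)) (g := fun x => G (t, ι x))
    ⟨fun x hx => hd _ x (hw.diffAt (memU ht hO (hm x hx))),
      fun x hx => hd _ x ((hw.D v).diffAt (memU ht hO (hm x hx))),
      (slice ht hO ((hw.D v).D v).lc hι hm).1⟩
    (slice ht hO hw.lc hι hm).2 (slice ht hO (hw.lc.pow 2) hι hm).2 (slice ht hO hG hι hm).2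
    (slice ht hO hG.sqrt hι hm).2 h0 hx

theorem integ {k : X → ℝ} (hk : Lc d k) : Integrable (fun z : ℝ × ℝ => k (t, z))
    ((volume.restrict (iv d.τ.1 1)).prod (volume.restrict (iv d.τ.2 1))) := by
  rw [Measure.prod_restrict]
  exact hk.integrableOn (reg_bx hO) ht

omit ht hO in
theorem int_eq (τ : Ty) (h : ℝ × ℝ → ℝ) : ∫ y in bx τ 1, h y =
    ∫ y, h y ∂((volume.restrict (iv τ.1 1)).prod (volume.restrict (iv τ.2 1))) := by
  rw [Measure.prod_restrict]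
  rfl

omit ht hO in
theorem ff_le (hs : Cs d.τ s C) (p : X) : ff s w p ≤ Ph (w p) :=
  mul_le_of_le_one_left (ph_bd _).1 (mul_le_one₀ (hs.bd p).2 (hs.bd p).1 (hs.bd p).2)

omit ht hO in
theorem van_ff (hs : Cs d.τ s C) : Van d.τ (ff s w) t :=
  ⟨29 / 50, by norm_num, by norm_num, fun y hy hn => by
    simp only [ff, Pi.mul_apply, hs.van t y hy hn, zero_mul]⟩

theorem faces (A : Api d u) (h2 : StAlg) (h3 : StIBP1) (h5 : StTR) (hw : Bd d (wv d.τ u))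
    (hs : Cs d.τ s C) :
    -∫ y in bx d.τ 1, D e1 (ff s (wv d.τ u)) (t, y) ≤
      720000 * ∫ y in bx d.τ 1, (wv d.τ u (t, y) ^ 2 + gex d.τ u (t, y)) ∧
    -∫ y in bx d.τ 1, D e2 (ff s (wv d.τ u)) (t, y) ≤
      720000 * ∫ y in bx d.τ 1, (wv d.τ u (t, y) ^ 2 + gex d.τ u (t, y)) := by
  obtain ⟨-, -, k1, k2, -⟩ := h3 d _ t (bd_ff hs.sm hw) ht hO (van_ff hs)
  have hi := integ ht hO ((hw.lc.pow 2).add A.bg.lc)
  simp only [Pi.add_apply] at hi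
  have f := fun y hy => facts A h2 (memU ht hO (y := y) hy)
  have iv1 : iv true 1 = Ioo 0 1 := by simp [iv]
  constructor
  · refine (k1 (fun b => 720000 * ∫ x in iv d.τ.1 1,
      (wv d.τ u (t, x, b) ^ 2 + gex d.τ u (t, x, b))) (1 / 10) (by norm_num)
      (hi.integral_prod_right.const_mul _) fun b hb => ⟨?_, fun e x hx => ?_⟩).trans ?_
    · exact mul_nonneg (by norm_num) (setIntegral_nonneg (isOpen_iv _ _).measurableSet
        fun x hx => add_nonneg (sq_nonneg _) (f (x, b) ⟨hx, hb⟩).1)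
    · have hm : ∀ x ∈ Ioo (0 : ℝ) 1, (x, b) ∈ bx d.τ 1 := fun x hx =>
        ⟨by rw [e, iv1]; exact hx, hb⟩
      refine (ff_le hs _).trans ?_
      rw [e, iv1]
      refine face ht hO h5 hw A.bg.lc e1 (ι := fun x => (x, b)) (by fun_prop) hm
        (fun k x hk => hasDerivAt_y1 hk) (fun x hx => ⟨(f _ (hm x hx)).1, ?_⟩) hx
      have := (f _ (hm x hx)).2.1
      simp only [o1, om, e, if_true] at this
      rwa [abs_mul, abs_of_pos hx.1] at this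
    · rw [integral_const_mul, int_eq, integral_prod_symm _ hi]
  · refine (k2 (fun b => 720000 * ∫ x in iv d.τ.2 1,
      (wv d.τ u (t, b, x) ^ 2 + gex d.τ u (t, b, x))) (1 / 10) (by norm_num)
      (hi.integral_prod_left.const_mul _) fun b hb => ⟨?_, fun e x hx => ?_⟩).trans ?_
    · exact mul_nonneg (by norm_num) (setIntegral_nonneg (isOpen_iv _ _).measurableSet
        fun x hx => add_nonneg (sq_nonneg _) (f (b, x) ⟨hb, hx⟩).1)
    · have hm : ∀ x ∈ Ioo (0 : ℝ) 1, (b, x) ∈ bx d.τ 1 := fun x hx =>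
        ⟨hb, by rw [e, iv1]; exact hx⟩
      refine (ff_le hs _).trans ?_
      rw [e, iv1]
      refine face ht hO h5 hw A.bg.lc e2 (ι := fun x => (b, x)) (by fun_prop) hm
        (fun k x hk => hasDerivAt_y2 hk) (fun x hx => ⟨(f _ (hm x hx)).1, ?_⟩) hx
      have := (f _ (hm x hx)).2.2.1
      simp only [o2, om, e, if_true] at this
      rwa [abs_mul, abs_of_pos hx.1] at this
    · rw [integral_const_mul, int_eq, integral_prod _ hi]

omit ht hO in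
theorem bd_ctr {H : T2} {f : X → ℝ} (ha : Bd d H.a) (hb : Bd d H.b) (hc : Bd d H.c)
    (hf : Bd d f) : Bd d (H.ctr f) :=
  ((ha.mul ((hf.D e1).D e1)).add (((bd_K 2).mul hb).mul ((hf.D e2).D e1))).add
    (hc.mul ((hf.D e2).D e2))

theorem key (A : Api d u) (h3 : StIBP1) (h4 : StIBP2) {f : X → ℝ} (hf : Bd d f)
    (hv : Van d.τ f t) : ∫ y in bx d.τ 1, (iv2 u).ctr f (t, y) =
      (∫ y in bx d.τ 1, (f * D e0 u) (t, y)) +
        (-(∫ y in bx d.τ 1, D e1 f (t, y)) - ∫ y in bx d.τ 1, D e2 f (t, y)) := by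
  obtain ⟨k₁, k₂, k₃, hk⟩ := A.nt
  have e1 := (h4 d _ k₁ k₂ k₃ t hk ht hO).1 f hf (Or.inl hv)
  have e2 := (h3 d f t hf ht hO hv).2.2.2.2
  have e3 : ∫ y in bx d.τ 1, (f * (nn d.τ u).dd) (t, y) = ∫ y in bx d.τ 1, (f * D e0 u) (t, y) :=
    setIntegral_congr_fun (isOpen_bx _ _).measurableSet fun y hy => by
      simp only [Pi.mul_apply, A.ddn _ (memU ht hO hy)]
  rw [← e3, ← e1, ← e2]
  simp only [ctr_split d.τ u f]
  exact integral_add
    ((bd_ctr (H := nn d.τ u) (A.bi11.sub bd_o1) A.bi12 (A.bi22.sub bd_o2) hf).lc.integrableOn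
      (reg_bx hO) ht)
    (((bd_o1.mul ((hf.D _).D _)).add (bd_o2.mul ((hf.D _).D _))).lc.integrableOn (reg_bx hO) ht)

omit ht hO in
theorem lc_gu (A : Api d u) (hw : Bd d w) : Lc d (gu u w) :=
  ((((A.bi11.mul (hw.D e1)).mul (hw.D e1)).add (A.bi12.mul
    (((hw.D e1).mul (hw.D e2)).add ((hw.D e2).mul (hw.D e1))))).add
    ((A.bi22.mul (hw.D e2)).mul (hw.D e2))).lc

omit ht hO in
theorem lc_q (A : Api d u) (hw : Bd d w) : Lc d fun p => gu u w p / (1 + w p ^ 2) ^ 2 :=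
  (((lc_gu A hw).mul (hw.lc.comp ct_Ph2)).mul (bd_K (1 / 2)).lc).congr fun p _ => by
    simp only [Pi.mul_apply, K_apply, Ph2]
    ring

omit ht in
theorem reg_half : Reg d (bx d.τ (1 / 2)) :=
  (reg_bx hO).mono (isOpen_bx _ _).measurableSet (bx_mono _ (by norm_num) (by norm_num))

theorem onetime (A : Api d u) (h2 : StAlg) (h3 : StIBP1) (h4 : StIBP2) (h5 : StTR)
    (hw : Bd d (wv d.τ u)) (hC : 0 ≤ C) (hs : Cs d.τ s C) (hb : SupB d u 1 t) :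
    ∫ y in bx d.τ (1 / 2), gu u (wv d.τ u) (t, y) / (1 + wv d.τ u (t, y) ^ 2) ^ 2 ≤
      (∫ y in bx d.τ 1, (ff s (wv d.τ u) * D e0 u) (t, y)) +
      (16 * C + 256 * C ^ 2 + 1440011) *
        ((∫ y in bx d.τ 1, wv d.τ u (t, y) ^ 2) + ∫ y in bx d.τ 1, gex d.τ u (t, y)) := by
  have hf := bd_ff hs.sm hw
  have k1 := key ht hO A h3 h4 hf (van_ff hs)
  obtain ⟨k2, k3⟩ := faces ht hO A h2 h3 h5 hw hs
  have i1 := (hw.lc.pow 2).integrableOn (reg_bx hO) ht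
  have i2 := A.bg.lc.integrableOn (reg_bx hO) ht
  have i3 := (bd_ctr (H := iv2 u) A.bi11 A.bi12 A.bi22 hf).lc.integrableOn (reg_bx hO) ht
  have i4 : IntegrableOn (fun y => s (t, y) ^ 2 * Ph2 (wv d.τ u (t, y)) *
      gu u (wv d.τ u) (t, y) / 2) (bx d.τ 1) :=
    ((((bd_of_sm hs.sm).lc.pow 2).mul (hw.lc.comp ct_Ph2)).mul (lc_gu A hw)).integrableOn
      (reg_bx hO) ht |>.div_const 2
  have i5 : IntegrableOn (fun y => (16 * C + 256 * C ^ 2 + 11) *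
      (wv d.τ u (t, y) ^ 2 + gex d.τ u (t, y))) (bx d.τ 1) := (i1.add i2).const_mul _
  have k4 := setIntegral_mono_on i4 (i3.add i5) (isOpen_bx _ _).measurableSet
    fun y hy => pointwise A h2 hw hC hs hy (memU ht hO hy) hb
  simp only [Pi.add_apply] at k4
  rw [integral_add i3 i5, integral_const_mul, k1] at k4
  have k5 : ∫ y in bx d.τ (1 / 2), gu u (wv d.τ u) (t, y) / (1 + wv d.τ u (t, y) ^ 2) ^ 2 =
      ∫ y in bx d.τ (1 / 2), s (t, y) ^ 2 * Ph2 (wv d.τ u (t, y)) * gu u (wv d.τ u) (t, y) / 2 :=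
    setIntegral_congr_fun (isOpen_bx _ _).measurableSet fun y hy => by
      simp only [hs.one t y hy, Ph2]
      ring
  have k6 := setIntegral_mono_set i4 (by
    filter_upwards [ae_restrict_mem (isOpen_bx d.τ 1).measurableSet] with y hy
    exact div_nonneg (mul_nonneg (mul_nonneg (sq_nonneg _) (ph2_bd _).1)
      ((facts A h2 (memU ht hO hy)).2.2.2 _).1) (by norm_num))
    (bx_mono d.τ (r := 1 / 2) (s := 1) (by norm_num) (by norm_num)).eventuallyLE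
  rw [integral_add i1 i2] at k2 k3 k4
  linarith

theorem energy (A : Api d u) (hw : Bd d (wv d.τ u)) (hs : Cs d.τ s C) :
    HasDerivAt (fun t => ∫ y in bx d.τ 1, (s * s * fun q => Ps (wv d.τ u q)) (t, y))
      (∫ y in bx d.τ 1, (ff s (wv d.τ u) * D e0 u) (t, y)) t ∧
    |∫ y in bx d.τ 1, (s * s * fun q => Ps (wv d.τ u q)) (t, y)| ≤
      2 * ∫ y in bx d.τ 1, wv d.τ u (t, y) ^ 2 := by
  have hb : Bd d s := bd_of_sm hs.sm
  have h1 := (hb.mul hb).mul (hw.comp sm_Ps)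
  constructor
  · refine (h1.hasDerivAt_int (reg_bx hO) ht).congr_deriv
      (setIntegral_congr_fun (isOpen_bx _ _).measurableSet fun y hy => ?_)
    have hp := memU ht hO hy
    rw [D_mul_at e0 ((hb.mul hb).diffAt hp) ((hw.comp sm_Ps).diffAt hp),
      D_mul_at e0 (hb.diffAt hp) (hb.diffAt hp), D_comp_at e0 (d_Ps _) (hw.diffAt hp), hs.t0]
    simp only [ff, Pi.mul_apply, Pi.zero_apply, A.q0 _ hp]
    ring
  · rw [← integral_const_mul, ← Real.norm_eq_abs]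
    refine norm_integral_le_of_norm_le
      (((hw.lc.pow 2).integrableOn (reg_bx hO) ht).const_mul 2) (Eventually.of_forall fun y => ?_)
    have := hs.bd (t, y)
    rw [Pi.mul_apply, Pi.mul_apply, Real.norm_eq_abs, abs_mul,
      abs_of_nonneg (mul_nonneg this.1 this.1)]
    exact (mul_le_of_le_one_left (abs_nonneg _) (mul_le_one₀ this.2 this.1 this.2)).trans (ps_bd _)

end GradB

open GradB in
theorem gradB_ok (h0 : StCut) (h1 : StApi) (h2 : StAlg) (h3 : StIBP1) (h4 : StIBP2) (h5 : StTR) :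
    StGradB := by
  intro τ
  obtain ⟨s, C, hC, hs⟩ := exists_cs h0 τ
  refine ⟨4 + 2 * (16 * C + 256 * C ^ 2 + 1440011), ?_⟩
  rintro d u F ε rfl hN hb ⟨c1, c2⟩
  have A := h1 d u hN.gs.toGS0
  have hw := hN.gs.bd
  have hO := hN.bO
  have ii : ∀ {k : X → ℝ} {B : Set (ℝ × ℝ)}, Lc d k → Reg d B →
      IntervalIntegrable (fun t => ∫ y in B, k (t, y)) volume (-1) 0 := fun hk hB =>
    ((hk.continuousOn_int hB).mono hN.tI).intervalIntegrable_of_Icc (by norm_num)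
  have i1 := ii (lc_q A hw) (reg_half hO)
  have i2 := ii ((bd_ff hs.sm hw).mul A.bt).lc (reg_bx hO)
  have i3 := ii (hw.lc.pow 2) (reg_bx hO)
  have i4 := ii A.bg.lc (reg_bx hO)
  have k1 := intervalIntegral.integral_mono_on (by norm_num) i1
    (i2.add ((i3.add i4).const_mul (16 * C + 256 * C ^ 2 + 1440011)))
    fun t ht => onetime (hN.tI ht) hO A h2 h3 h4 h5 hw hC hs (hb t ht)
  rw [intervalIntegral.integral_add i2 ((i3.add i4).const_mul _),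
    intervalIntegral.integral_const_mul, intervalIntegral.integral_add i3 i4,
    intervalIntegral.integral_eq_sub_of_hasDerivAt (fun t ht => (energy (hN.tI (by
      rwa [uIcc_of_le (by norm_num)] at ht)) hO A hw hs).1) i2] at k1
  have m0 : (0 : ℝ) ∈ Icc (-1 : ℝ) 0 := ⟨by norm_num, le_rfl⟩
  have m1 : (-1 : ℝ) ∈ Icc (-1 : ℝ) 0 := ⟨le_rfl, by norm_num⟩
  have k2 := (abs_le.1 (energy (hN.tI m0) hO A hw hs).2).2
  have k3 := (abs_le.1 (energy (hN.tI m1) hO A hw hs).2).1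
  have k4 := intervalIntegral.integral_mono_on (by norm_num) i3
    (intervalIntegrable_const (c := ε ^ 2)) c1
  rw [intervalIntegral.integral_const] at k4
  have k5 := mul_le_mul_of_nonneg_left (add_le_add k4 c2)
    (show 0 ≤ 16 * C + 256 * C ^ 2 + 1440011 by positivity)
  have k6 := c1 0 m0
  have k7 := c1 (-1) m1
  simp only [sub_neg_eq_add, zero_add, one_smul] at k5
  linarith

end Pool.Agent.P.MP_2cea5e_gt.I
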