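import Pool.Agent.P.MP_2cea5e_gt.I.St1

/-! Lemma K. -/

open scoped ContDiff Topology
open MeasureTheory Set Filter

noncomputable section

namespace Pool.Agent.P.MP_2cea5e_gt.I

namespace LemK

theorem mono_sub {f : ℝ → ℝ} {a b c d : ℝ} (h0 : ∀ x ∈ Ioo a b, 0 ≤ f x)
    (hi : IntegrableOn f (Ioo a b)) (hac : a ≤ c) (hdb : d ≤ b) :
    ∫ x in Ioo c d, f x ≤ ∫ x in Ioo a b, f x :=
  setIntegral_mono_set hi ((ae_restrict_iff' measurableSet_Ioo).2 (ae_of_all _ h0))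
    (Ioo_subset_Ioo hac hdb).eventuallyLE

theorem cheap_sub {F : ℝ → ℝ} {a b c d ε : ℝ} (h : Cheap F a b ε) (hac : a ≤ c) (hdb : d ≤ b) :
    Cheap F c d ε :=
  ⟨fun x hx => h.nn x (Ioo_subset_Ioo hac hdb hx), h.int.mono_set (Ioo_subset_Ioo hac hdb),
    (mono_sub h.nn h.int hac hdb).trans h.le⟩

theorem c2_sub {f f' f'' : ℝ → ℝ} {s t : Set ℝ} (h : C2On f f' f'' s) (hts : t ⊆ s) :
    C2On f f' f'' t :=
  ⟨fun x hx => h.d1 x (hts hx), fun x hx => h.d2 x (hts hx), h.c2.mono hts⟩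

theorem int_of_cont {f : ℝ → ℝ} {a b : ℝ} (h : ContinuousOn f (Icc a b)) :
    IntegrableOn f (Ioo a b) :=
  (h.integrableOn_compact isCompact_Icc).mono_set Ioo_subset_Icc_self

theorem ftc {f f' : ℝ → ℝ} {a b : ℝ} (hab : a ≤ b) (h : ∀ x ∈ Icc a b, HasDerivAt f (f' x) x)
    (hc : ContinuousOn f' (Icc a b)) : ∫ x in Ioo a b, f' x = f b - f a := by
  rw [← integral_Ioc_eq_integral_Ioo, ← intervalIntegral.integral_of_le hab]
  exact intervalIntegral.integral_eq_sub_of_hasDerivAt (by rwa [uIcc_of_le hab])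
    (hc.intervalIntegrable_of_Icc hab)

theorem exists_small {g : ℝ → ℝ} {c d : ℝ} (hcd : c ≤ d) (hg : ContinuousOn g (Icc c d)) :
    ∃ x ∈ Icc c d, (d - c) * g x ≤ ∫ y in Ioo c d, g y := by
  obtain ⟨x, hx, hmin⟩ := isCompact_Icc.exists_isMinOn (nonempty_Icc.2 hcd) hg
  refine ⟨x, hx, ?_⟩
  have h1 : ∫ _ in Ioo c d, g x ≤ ∫ y in Ioo c d, g y :=
    setIntegral_mono_on (int_of_cont continuousOn_const) (int_of_cont hg) measurableSet_Ioo
      fun y hy => hmin (Ioo_subset_Icc_self hy)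
  simpa [Real.volume_real_Ioo_of_le hcd] using h1

end LemK

open LemK

theorem k_ok (hC : StConc) : StK := by
  intro m m' m'' l l' S F V ε hV hm hp hl' hS hF hb hI hε
  obtain ⟨-, hC2, hC3⟩ := hC
  have hV0 : 0 < V := by linarith
  have hε0 : 0 ≤ ε := (setIntegral_nonneg measurableSet_Ioo hF.nn).trans hF.le
  have hsq : ∀ x ∈ Ioo (0 : ℝ) 1, 0 ≤ S x * l' x ^ 2 := fun x hx =>
    mul_nonneg (hp x hx).2.1.le (sq_nonneg _)
  have hle : ∀ x ∈ Ioo (0 : ℝ) 1, 2 * (S x * l' x ^ 2) ≤ F x - m'' x := fun x hx => by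
    have := (abs_le.1 (hb x hx)).2
    linarith
  have hF' : ∀ x ∈ Ioo (0 : ℝ) 1, m'' x ≤ F x := fun x hx => by
    have := hle x hx
    have := hsq x hx
    linarith
  have hL : ∀ b ∈ Ioo (0 : ℝ) 1, ∀ x ∈ Ioc 0 b, x * (m b / b - ε) ≤ m x := fun b hb x hx => by
    have s1 : Ioc 0 b ⊆ Ioo (0 : ℝ) 1 := Ioc_subset_Ioo_right hb.2
    have s2 : Ioo 0 b ⊆ Ioo (0 : ℝ) 1 := Ioo_subset_Ioo_right hb.2.le
    simpa using hC2 m m' m'' F 0 b ε x hb.1 (c2_sub hm s1) (cheap_sub hF le_rfl hb.2.le)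
      (fun s hs => hF' s (s2 hs)) (fun s hs => (hp s (s2 hs)).1.le) hx
  have hR : ∀ a ∈ Ioo (0 : ℝ) 1, ∀ x ∈ Ico a 1, (1 - x) * (m a / (1 - a) - ε) ≤ m x :=
    fun a ha x hx => by
    have s1 : Ico a 1 ⊆ Ioo (0 : ℝ) 1 := Ico_subset_Ioo_left ha.1
    have s2 : Ioo a 1 ⊆ Ioo (0 : ℝ) 1 := Ioo_subset_Ioo_left ha.1.le
    exact hC3 m m' m'' F a 1 ε x ha.2 (c2_sub hm s1) (cheap_sub hF ha.1.le le_rfl)
      (fun s hs => hF' s (s2 hs)) (fun s hs => (hp s (s2 hs)).1.le) hx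
  have hh : (1 / 2 : ℝ) ∈ Ioo (0 : ℝ) 1 := by constructor <;> norm_num
  have hμ : 0 < m (1 / 2) := (hp _ hh).1
  set M := 2 * m (1 / 2) + ε with hM
  have hM0 : 0 < M := by positivity
  have hup : ∀ x ∈ Ioo (0 : ℝ) 1, m x ≤ M := fun x hx => by
    have hx0 := (hp x hx).1
    rcases le_total (1 / 2) x with h | h
    · have h1 := hL x hx (1 / 2) ⟨by norm_num, h⟩
      have h2 : m x ≤ m x / x := by
        rw [le_div_iff₀ hx.1]
        nlinarith [hx.2]
      linarith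
    · have h1 := hR x hx (1 / 2) ⟨h, by norm_num⟩
      have h2 : m x ≤ m x / (1 - x) := by
        rw [le_div_iff₀ (by linarith [hx.2])]
        nlinarith [hx.1]
      linarith
  have hsub : ∀ a b : ℝ, 0 < a → b < 1 → Icc a b ⊆ Ioo (0 : ℝ) 1 := fun a b ha hb x hx =>
    ⟨ha.trans_le hx.1, hx.2.trans_lt hb⟩
  have hmc : ContinuousOn m (Ioo 0 1) := fun x hx =>
    (hm.d1 x hx).continuousAt.continuousWithinAt
  have hlc : ContinuousOn l (Ioo 0 1) := fun x hx =>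
    (hp x hx).2.2.continuousAt.continuousWithinAt
  have mvt : ∀ a b : ℝ, 0 < a → a < b → b < 1 → ∃ c ∈ Ioo a b, m' c = (m b - m a) / (b - a) :=
    fun a b ha hab hb => exists_hasDerivAt_eq_slope m m' hab (hmc.mono (hsub a b ha hb))
      fun x hx => hm.d1 x (hsub a b ha hb (Ioo_subset_Icc_self hx))
  obtain ⟨ba, hba, ea⟩ := mvt (1 / 8) (1 / 4) (by norm_num) (by norm_num) (by norm_num)
  obtain ⟨bb, hbb, eb⟩ := mvt (3 / 4) (7 / 8) (by norm_num) (by norm_num) (by norm_num)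
  have ea' : m' ba ≤ 8 * M := by
    have h1 := hup (1 / 4) (by constructor <;> norm_num)
    have h2 := (hp (1 / 8) (by constructor <;> norm_num)).1
    rw [ea]
    norm_num
    linarith
  have eb' : -(8 * M) ≤ m' bb := by
    have h1 := hup (3 / 4) (by constructor <;> norm_num)
    have h2 := (hp (7 / 8) (by constructor <;> norm_num)).1
    rw [eb]
    norm_num
    linarith
  have sab : Icc ba bb ⊆ Ioo (0 : ℝ) 1 := hsub _ _ (by linarith [hba.1]) (by linarith [hbb.2])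
  have hab : ba ≤ bb := by linarith [hba.2, hbb.1]
  have hqc : ContinuousOn (fun x => S x * l' x ^ 2) (Ioo 0 1) := hS.mul (hl'.pow 2)
  have hq : ∫ x in Ioo ba bb, S x * l' x ^ 2 ≤ 9 * M := by
    have c1 := cheap_sub hF (c := ba) (d := bb) (by linarith [hba.1]) (by linarith [hbb.2])
    have i1 : IntegrableOn m'' (Ioo ba bb) := int_of_cont (hm.c2.mono sab)
    have h1 : ∫ x in Ioo ba bb, 2 * (S x * l' x ^ 2) ≤ ∫ x in Ioo ba bb, (F x - m'' x) :=
      setIntegral_mono_on ((int_of_cont (hqc.mono sab)).const_mul 2) (c1.int.sub i1)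
        measurableSet_Ioo fun x hx => hle x (sab (Ioo_subset_Icc_self hx))
    rw [integral_const_mul, integral_sub c1.int i1,
      ftc hab (fun x hx => hm.d2 x (sab hx)) (hm.c2.mono sab)] at h1
    have := c1.le
    linarith
  have hSi : ContinuousOn (fun x => (S x)⁻¹) (Ioo 0 1) := hS.inv₀ fun x hx => (hp x hx).2.1.ne'
  have hgc : ContinuousOn (fun x => (x + l x) ^ 2 / m x + (S x)⁻¹) (Ioo 0 1) :=
    (((continuousOn_id.add hlc).pow 2).div hmc fun x hx => (hp x hx).1.ne').add hSi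
  have s4 : Icc (1 / 4 : ℝ) (3 / 4) ⊆ Ioo (0 : ℝ) 1 := hsub _ _ (by norm_num) (by norm_num)
  have g1 : ∀ x ∈ Ioo (0 : ℝ) 1, 0 ≤ (x + l x) ^ 2 / m x := fun x hx =>
    div_nonneg (sq_nonneg _) (hp x hx).1.le
  have g2 : ∀ x ∈ Ioo (0 : ℝ) 1, 0 ≤ (S x)⁻¹ := fun x hx => inv_nonneg.2 (hp x hx).2.1.le
  have hg : ∀ c d : ℝ, 1 / 4 ≤ c → d ≤ 3 / 4 →
      ∫ x in Ioo c d, ((x + l x) ^ 2 / m x + (S x)⁻¹) ≤ V := fun c d hc hd =>
    (mono_sub (fun x hx => add_nonneg (g1 x (s4 (Ioo_subset_Icc_self hx)))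
      (g2 x (s4 (Ioo_subset_Icc_self hx)))) (int_of_cont (hgc.mono s4)) hc hd).trans hI
  have pt : ∀ c d : ℝ, 1 / 4 ≤ c → d ≤ 3 / 4 → d - c = 1 / 8 →
      ∃ x ∈ Icc c d, (x + l x) ^ 2 ≤ 8 * (M * V) := fun c d hc hd e => by
    have s5 : Icc c d ⊆ Ioo (0 : ℝ) 1 := (Icc_subset_Icc hc hd).trans s4
    obtain ⟨x, hx, h1⟩ := exists_small (by linarith) (hgc.mono s5)
    refine ⟨x, hx, ?_⟩
    have h2 := hg c d hc hd
    have h3 := g2 x (s5 hx)
    have h4 : (x + l x) ^ 2 / m x ≤ 8 * V := by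
      rw [e] at h1
      linarith
    rw [div_le_iff₀ (hp x (s5 hx)).1] at h4
    have h5 := hup x (s5 hx)
    nlinarith
  obtain ⟨b1, hb1, e1⟩ := pt (1 / 4) (3 / 8) le_rfl (by norm_num) (by norm_num)
  obtain ⟨b2, hb2, e2⟩ := pt (5 / 8) (3 / 4) (by norm_num) le_rfl (by norm_num)
  have h12 : b1 ≤ b2 := by linarith [hb1.2, hb2.1]
  have s6 : Icc b1 b2 ⊆ Ioo (0 : ℝ) 1 := (Icc_subset_Icc hb1.1 hb2.2).trans s4
  have hdiff : l b1 - l b2 ≤ 5 * V * (9 * M) + (20 * V)⁻¹ * V := by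
    have i1 := int_of_cont (hqc.mono s6)
    have i2 := int_of_cont (hgc.mono s6)
    have h1 : ∫ x in Ioo b1 b2, -l' x ≤ ∫ x in Ioo b1 b2,
        (5 * V * (S x * l' x ^ 2) + (20 * V)⁻¹ * ((x + l x) ^ 2 / m x + (S x)⁻¹)) := by
      refine setIntegral_mono_on (int_of_cont (hl'.mono s6)).neg
        ((i1.const_mul _).add (i2.const_mul _)) measurableSet_Ioo fun x hx => ?_
      have hx' := s6 (Ioo_subset_Icc_self hx)
      have k1 := (hp x hx').2.1
      have k2 := mul_nonneg (inv_nonneg.2 (by positivity : 0 ≤ 20 * V)) (g1 x hx')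
      have k3 : 0 ≤ (20 * V * S x)⁻¹ * (10 * V * S x * l' x + 1) ^ 2 := by positivity
      have k4 : (20 * V * S x)⁻¹ * (10 * V * S x * l' x + 1) ^ 2 =
          5 * V * (S x * l' x ^ 2) + l' x + (20 * V)⁻¹ * (S x)⁻¹ := by
        field_simp
        ring
      rw [mul_add]
      linarith
    rw [integral_neg, integral_add (i1.const_mul _) (i2.const_mul _), integral_const_mul,
      integral_const_mul, ftc h12 (fun x hx => (hp x (s6 hx)).2.2) (hl'.mono s6)] at h1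
    have h2 : ∫ x in Ioo b1 b2, S x * l' x ^ 2 ≤ 9 * M :=
      (mono_sub (fun x hx => hsq x (sab (Ioo_subset_Icc_self hx))) (int_of_cont (hqc.mono sab))
        (by linarith [hba.2, hb1.1]) (by linarith [hbb.1, hb2.2])).trans hq
    have h3 := hg b1 b2 hb1.1 hb2.2
    have h4 := mul_le_mul_of_nonneg_left h2 (by positivity : 0 ≤ 5 * V)
    have h5 := mul_le_mul_of_nonneg_left h3 (by positivity : 0 ≤ (20 * V)⁻¹)
    linarith
  have hW : 1 / 2000 ≤ M * V := by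
    by_contra hn
    have k1 : (20 * V)⁻¹ * V = 1 / 20 := by field_simp
    have k2 : |b1 + l b1| ≤ 7 / 100 := abs_le_of_sq_le_sq' (by linarith) (by norm_num) |> abs_le.2
    have k3 : |b2 + l b2| ≤ 7 / 100 := abs_le_of_sq_le_sq' (by linarith) (by norm_num) |> abs_le.2
    have k4 := (abs_le.1 k2).1
    have k5 := (abs_le.1 k3).2
    nlinarith [hb1.2, hb2.1]
  have hlow : 1 / (10000 * V) ≤ m (1 / 2) / (1 / 2) - ε := by
    rw [div_le_iff₀ (by positivity)]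
    have : (m (1 / 2) / (1 / 2) - ε) * (10000 * V) = 10000 * (M * V) - 20000 * (ε * V) := by
      rw [hM]; ring
    linarith
  intro x hx
  have hpos : 0 ≤ 1 / (10000 * V) := by positivity
  have e3 : x * (1 - x) / (10000 * V) = x * (1 - x) * (1 / (10000 * V)) := by ring
  rw [e3]
  rcases le_total x (1 / 2) with h | h
  · have h1 := hL _ hh x ⟨hx.1, h⟩
    have h2 := mul_le_mul_of_nonneg_left hlow hx.1.le
    have h3 := mul_nonneg (mul_nonneg hx.1.le hx.1.le) hpos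
    linarith
  · have h1 := hR _ hh x ⟨h, hx.2⟩
    have h0 : 0 ≤ 1 - x := by linarith [hx.2]
    have h2 := mul_le_mul_of_nonneg_left hlow h0
    have h3 := mul_nonneg (mul_nonneg h0 h0) hpos
    rw [show (1 : ℝ) - 1 / 2 = 1 / 2 by norm_num] at h1
    linarith

end Pool.Agent.P.MP_2cea5e_gt.I
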