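import Pool.Agent.P.MP_2cea5e_gt.I.St1

/-!
A cheap interior segment.
-/

open scoped Topology
open MeasureTheory Set Filter

noncomputable section

namespace Pool.Agent.P.MP_2cea5e_gt.I

namespace Line

theorem c2_mono {f f' f'' : ℝ → ℝ} {s t : Set ℝ} (h : C2On f f' f'' s) (hts : t ⊆ s) :
    C2On f f' f'' t :=
  ⟨fun x hx => h.d1 x (hts hx), fun x hx => h.d2 x (hts hx), h.c2.mono hts⟩

theorem c2_cont {f f' f'' : ℝ → ℝ} {s : Set ℝ} (h : C2On f f' f'' s) : ContinuousOn f s :=
  fun x hx => (h.d1 x hx).continuousAt.continuousWithinAt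

theorem cheap_mono {F : ℝ → ℝ} {a b a' b' ε : ℝ} (h : Cheap F a b ε) (ha : a ≤ a')
    (hb : b' ≤ b) : Cheap F a' b' ε := by
  have hs : Ioo a' b' ⊆ Ioo a b := Ioo_subset_Ioo ha hb
  refine ⟨fun x hx => h.nn x (hs hx), h.int.mono_set hs, le_trans ?_ h.le⟩
  refine setIntegral_mono_set h.int ?_ hs.eventuallyLE
  exact (ae_restrict_iff' measurableSet_Ioo).2 (Eventually.of_forall h.nn)

theorem cheap_nn {F : ℝ → ℝ} {a b ε : ℝ} (h : Cheap F a b ε) : 0 ≤ ε :=
  le_trans (setIntegral_nonneg measurableSet_Ioo h.nn) h.le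

theorem cheap_bd {F g : ℝ → ℝ} {a b ε K : ℝ} (h : Cheap F a b ε) (hK : 0 ≤ K)
    (hg : ∀ s ∈ Ioo a b, |g s| ≤ K * F s) : |∫ s in Ioo a b, g s| ≤ K * ε := by
  have h1 : ‖∫ s in Ioo a b, g s‖ ≤ ∫ s in Ioo a b, K * F s :=
    norm_integral_le_of_norm_le (h.int.const_mul K)
      ((ae_restrict_iff' measurableSet_Ioo).2 (Eventually.of_forall hg))
  rw [integral_const_mul, Real.norm_eq_abs] at h1
  exact h1.trans (mul_le_mul_of_nonneg_left h.le hK)

/-- A point where a positive continuous function is below its mean. -/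
theorem exists_small {g : ℝ → ℝ} {A B a b o : ℝ} (hab : a < b) (hA : A ≤ a) (hB : b ≤ B)
    (hg : ContinuousOn g (Icc A B)) (hp : ∀ x ∈ Icc A B, 0 ≤ g x)
    (ho : ∫ x in Ioo A B, g x ≤ o) : ∃ x ∈ Icc a b, (b - a) * g x ≤ o := by
  have hs : Icc a b ⊆ Icc A B := Icc_subset_Icc hA hB
  obtain ⟨x, hx, hmin⟩ := isCompact_Icc.exists_isMinOn (nonempty_Icc.2 hab.le) (hg.mono hs)
  refine ⟨x, hx, le_trans ?_ ho⟩
  have hI : IntegrableOn g (Ioo A B) := (hg.integrableOn_Icc).mono_set Ioo_subset_Icc_self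
  have hs' : Ioo a b ⊆ Ioo A B := Ioo_subset_Ioo hA hB
  have h1 : ∫ y in Ioo a b, g y ≤ ∫ y in Ioo A B, g y := by
    refine setIntegral_mono_set hI ?_ hs'.eventuallyLE
    exact (ae_restrict_iff' measurableSet_Ioo).2
      (Eventually.of_forall fun y hy => hp y (Ioo_subset_Icc_self hy))
  refine le_trans ?_ h1
  have h2 : ∫ _ in Ioo a b, g x ≤ ∫ y in Ioo a b, g y := by
    refine setIntegral_mono_on (integrableOn_const (by simp)) (hI.mono_set hs') measurableSet_Ioo ?_
    intro y hy
    exact hmin (Ioo_subset_Icc_self hy)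
  rw [setIntegral_const, Real.volume_real_Ioo_of_le hab.le, smul_eq_mul] at h2
  exact h2

theorem green_bd {a b x s : ℝ} (hab : a < b) (hx : x ∈ Icc a b) (hs : s ∈ Ioo a b) :
    |green a b x s| ≤ (b - a) / 4 := by
  have hd : 0 < b - a := sub_pos.2 hab
  have h1 : 0 ≤ min x s - a := sub_nonneg.2 (le_min hx.1 hs.1.le)
  have h2 : 0 ≤ b - max x s := sub_nonneg.2 (max_le hx.2 hs.2.le)
  have h3 : min x s ≤ max x s := min_le_max
  unfold green
  rw [abs_of_nonneg (div_nonneg (mul_nonneg h1 h2) hd.le), div_le_iff₀ hd]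
  set u := min x s - a
  set v := b - max x s
  have h4 : u + v ≤ b - a := by simp only [u, v]; linarith
  nlinarith [sq_nonneg (u - v), mul_self_le_mul_self (add_nonneg h1 h2) h4]

theorem green_lip {a b x x' s : ℝ} (hab : a < b) (hs : s ∈ Ioo a b) :
    |green a b x s - green a b x' s| ≤ |x - x'| := by
  have hd : 0 < b - a := sub_pos.2 hab
  have h1 := hs.1
  have h2 := hs.2
  unfold green
  rw [← sub_div, abs_div, abs_of_pos hd, div_le_iff₀ hd]
  have key : ∀ u v : ℝ, u ≤ v →
      |(min u s - a) * (b - max u s) - (min v s - a) * (b - max v s)| ≤ (v - u) * (b - a) := by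
    intro u v huv
    rw [abs_le]
    rcases le_total u s with hu | hu <;> rcases le_total v s with hv | hv
    · rw [min_eq_left hu, max_eq_right hu, min_eq_left hv, max_eq_right hv]
      constructor <;> nlinarith [mul_nonneg (sub_nonneg.2 huv) (sub_nonneg.2 h1.le),
        mul_nonneg (sub_nonneg.2 huv) (sub_nonneg.2 h2.le)]
    · rw [min_eq_left hu, max_eq_right hu, min_eq_right hv, max_eq_left hv]
      constructor <;> nlinarith [mul_nonneg (sub_nonneg.2 hu) (sub_nonneg.2 h1.le),
        mul_nonneg (sub_nonneg.2 hu) (sub_nonneg.2 h2.le),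
        mul_nonneg (sub_nonneg.2 hv) (sub_nonneg.2 h1.le),
        mul_nonneg (sub_nonneg.2 hv) (sub_nonneg.2 h2.le)]
    · have : u = s := le_antisymm (huv.trans hv) hu
      have hv' : v = s := le_antisymm hv (hu.trans huv)
      rw [this, hv']
      simp
    · rw [min_eq_right hu, max_eq_left hu, min_eq_right hv, max_eq_left hv]
      constructor <;> nlinarith [mul_nonneg (sub_nonneg.2 huv) (sub_nonneg.2 h1.le),
        mul_nonneg (sub_nonneg.2 huv) (sub_nonneg.2 h2.le)]
  rcases le_total x x' with h | h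
  · rw [abs_sub_comm x x', abs_of_nonneg (sub_nonneg.2 h)]
    exact key x x' h
  · rw [abs_sub_comm, abs_of_nonneg (sub_nonneg.2 h)]
    exact key x' x h

theorem green_cont (a b x : ℝ) : Continuous (green a b x) := by
  unfold green
  fun_prop

/-- The second part on an interval `[a,b]` with `|y''| ≤ (8 / 100) F y / (ε (b - a))`. -/
theorem core (hG : StGreen) {y y' y'' F : ℝ → ℝ} {a b ε K : ℝ} (hab : a < b)
    (hy : C2On y y' y'' (Icc a b)) (hF : Cheap F a b ε) (hp : ∀ x ∈ Icc a b, 0 < y x)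
    (hK : 0 ≤ K) (hKε : K * ε * (b - a) ≤ 8 / 100)
    (hb : ∀ x ∈ Ioo a b, |y'' x| ≤ F x * y x * K) :
    ∃ Y : ℝ, 0 < Y ∧ (∀ x ∈ Icc a b, y x ≤ Y) ∧
      (∀ x ∈ Icc a b, ∀ t : ℝ, 0 ≤ t → t * (b - a) ≤ x - a → t * (b - a) ≤ b - x →
        (98 / 100 * t - 2 / 100) * Y ≤ y x) ∧
      ∀ x ∈ Icc a b, ∀ x' ∈ Icc a b, |y x - y x'| * (b - a) ≤ 108 / 100 * |x - x'| * Y := by
  have hd : 0 < b - a := sub_pos.2 hab
  have ha : a ∈ Icc a b := left_mem_Icc.2 hab.le
  have hbb : b ∈ Icc a b := right_mem_Icc.2 hab.le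
  obtain ⟨z, hz, hmax⟩ := isCompact_Icc.exists_isMaxOn (nonempty_Icc.2 hab.le) (c2_cont hy)
  set Y := y z with hY
  have hY0 : 0 < Y := hp z hz
  have hle : ∀ x ∈ Icc a b, y x ≤ Y := fun x hx => hmax hx
  have hε := cheap_nn hF
  have hb' : ∀ x ∈ Ioo a b, |y'' x| ≤ Y * K * F x := by
    intro x hx
    refine (hb x hx).trans ?_
    have h1 := hle x (Ioo_subset_Icc_self hx)
    have h2 := mul_le_mul_of_nonneg_left h1 (mul_nonneg (hF.nn x hx) hK)
    nlinarith
  have hch : ∀ x ∈ Icc a b, |chord y a b x - y x| ≤ 2 / 100 * Y := by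
    intro x hx
    rw [hG y y' y'' a b x hab hy hx]
    have h1 := cheap_bd (g := fun s => green a b x s * y'' s) (K := (b - a) / 4 * (Y * K)) hF
      (by positivity) (by
        intro s hs
        rw [abs_mul, mul_assoc]
        exact mul_le_mul (green_bd hab hx hs) (hb' s hs) (abs_nonneg _) (by positivity))
    refine h1.trans ?_
    nlinarith [mul_le_mul_of_nonneg_left hKε hY0.le]
  have hya := hp a ha
  have hyb := hp b hbb
  have hsum : 98 / 100 * Y ≤ y a + y b := by
    have h1 := (abs_le.1 (hch z hz)).1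
    have h2 : chord y a b z ≤ y a + y b := by
      unfold chord
      rw [div_le_iff₀ hd]
      nlinarith [mul_nonneg (sub_nonneg.2 hz.1) hya.le, mul_nonneg (sub_nonneg.2 hz.2) hyb.le]
    linarith
  refine ⟨Y, hY0, hle, ?_, ?_⟩
  · intro x hx t ht h1 h2
    have h3 := (abs_le.1 (hch x hx)).2
    have h4 : t * (y a + y b) ≤ chord y a b x := by
      unfold chord
      rw [le_div_iff₀ hd]
      nlinarith [mul_le_mul_of_nonneg_right h1 hyb.le, mul_le_mul_of_nonneg_right h2 hya.le]
    nlinarith [mul_le_mul_of_nonneg_left hsum ht]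
  · intro x hx x' hx'
    have hI : ∀ u : ℝ, IntegrableOn (fun s => green a b u s * y'' s) (Ioo a b) := fun u =>
      (((green_cont a b u).continuousOn.mul hy.c2).integrableOn_Icc).mono_set Ioo_subset_Icc_self
    have e1 := hG y y' y'' a b x hab hy hx
    have e2 := hG y y' y'' a b x' hab hy hx'
    have h1 := cheap_bd (g := fun s => green a b x s * y'' s - green a b x' s * y'' s)
      (K := |x - x'| * (Y * K)) hF (by positivity) (by
        intro s hs
        rw [← sub_mul, abs_mul, mul_assoc]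
        exact mul_le_mul (green_lip hab hs) (hb' s hs) (abs_nonneg _) (abs_nonneg _))
    rw [integral_sub (hI x) (hI x'), ← e1, ← e2] at h1
    have h2 : |chord y a b x - chord y a b x'| * (b - a) ≤ |x - x'| * Y := by
      have e : chord y a b x - chord y a b x' = (x - x') * (y b - y a) / (b - a) := by
        unfold chord
        field_simp
        ring
      rw [e, abs_div, abs_of_pos hd, div_mul_cancel₀ _ hd.ne', abs_mul]
      refine mul_le_mul_of_nonneg_left ?_ (abs_nonneg _)
      rw [abs_le]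
      constructor <;> linarith [hle a ha, hle b hbb]
    have h3 : |y x - y x'| ≤ |chord y a b x - chord y a b x'| +
        |chord y a b x - y x - (chord y a b x' - y x')| := by
      have e : y x - y x' = (chord y a b x - chord y a b x') -
          (chord y a b x - y x - (chord y a b x' - y x')) := by ring
      rw [e]
      exact abs_sub _ _
    have h4 := mul_le_mul_of_nonneg_right (h3.trans (add_le_add le_rfl h1)) hd.le
    have h5 := mul_le_mul_of_nonneg_left hKε (mul_nonneg (abs_nonneg (x - x')) hY0.le)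
    nlinarith

end Line

open Line in
theorem line_ok (hG : StGreen) (hC : StConc) : StLine := by
  intro m m' m'' F c L o ε hL ho hm hmp hF hmF hint hoε
  have hε := cheap_nn hF
  have hg : ContinuousOn (fun x => (m x)⁻¹) (Icc (c - L) (c + L)) :=
    (c2_cont hm).inv₀ fun x hx => (hmp x hx).ne'
  have hg0 : ∀ x ∈ Icc (c - L) (c + L), 0 ≤ (m x)⁻¹ := fun x hx => (inv_pos.2 (hmp x hx)).le
  obtain ⟨α, hα, hα'⟩ := exists_small (a := c - L) (b := c - 3 * L / 4) (by linarith) le_rfl
    (by linarith) hg hg0 hint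
  obtain ⟨β, hβ, hβ'⟩ := exists_small (a := c + 3 * L / 4) (b := c + L) (by linarith)
    (by linarith) le_rfl hg hg0 hint
  have hα1 := hα.1
  have hα2 := hα.2
  have hβ1 := hβ.1
  have hβ2 := hβ.2
  have hmα := hmp α ⟨hα1, by linarith⟩
  have hmβ := hmp β ⟨by linarith, hβ2⟩
  have hα3 : L / 4 ≤ o * m α := by
    rw [← div_eq_mul_inv, div_le_iff₀ hmα] at hα'
    linarith
  have hβ3 : L / 4 ≤ o * m β := by
    rw [← div_eq_mul_inv, div_le_iff₀ hmβ] at hβ'
    linarith
  have h1 : ∀ x ∈ Icc (c - L / 2) (c + L / 2), (m x)⁻¹ ≤ 8 * o / L := by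
    intro x hx
    have hx1 := hx.1
    have hx2 := hx.2
    have hαβ : α < β := by linarith
    have hd : 0 < β - α := sub_pos.2 hαβ
    have h2 := hC.1 m m' m'' F α β ε x hαβ (c2_mono hm (Icc_subset_Icc hα1 hβ2))
      (cheap_mono hF hα1 hβ2) (fun s hs => hmF s (Ioo_subset_Ioo hα1 hβ2 hs))
      ⟨by linarith, by linarith⟩
    have h3 : min (x - α) (β - x) ≤ L := by
      rcases le_total (x - α) (β - x) with h | h
      · rw [min_eq_left h]; linarith
      · rw [min_eq_right h]; linarith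
    have h4 : L / 4 ≤ o * chord m α β x := by
      unfold chord
      rw [← mul_div_assoc, le_div_iff₀ hd]
      nlinarith [mul_le_mul_of_nonneg_left hα3 (show 0 ≤ β - x by linarith),
        mul_le_mul_of_nonneg_left hβ3 (show 0 ≤ x - α by linarith)]
    have hmx := hmp x ⟨by linarith, by linarith⟩
    have h5 := mul_le_mul_of_nonneg_right h3 hε
    have h6 := mul_le_mul_of_nonneg_left h2 ho.le
    have h7 := mul_le_mul_of_nonneg_left h5 ho.le
    have h8 := mul_le_mul_of_nonneg_left hoε hL.le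
    rw [inv_eq_one_div, div_le_div_iff₀ hmx hL]
    nlinarith
  refine ⟨h1, ?_⟩
  intro y y' y'' hy hyp hyb
  have hs : Icc (c - L / 2) (c + L / 2) ⊆ Icc (c - L) (c + L) :=
    Icc_subset_Icc (by linarith) (by linarith)
  have hs' : Ioo (c - L / 2) (c + L / 2) ⊆ Ioo (c - L) (c + L) :=
    Ioo_subset_Ioo (by linarith) (by linarith)
  have hLL : c + L / 2 - (c - L / 2) = L := by ring
  obtain ⟨Y, hY0, hle, hlow, hlip⟩ := core hG (a := c - L / 2) (b := c + L / 2) (K := 8 * o / L)
    (by linarith) (c2_mono hy hs) (cheap_mono hF (by linarith) (by linarith))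
    (fun x hx => hyp x (hs hx)) (by positivity) (by
      rw [hLL]
      have : 8 * o / L * ε * L = 8 * (o * ε) := by field_simp
      rw [this]
      linarith) (by
      intro x hx
      refine (hyb x (hs' hx)).trans (mul_le_mul_of_nonneg_left (h1 x (Ioo_subset_Icc_self hx)) ?_)
      exact mul_nonneg (hF.nn x (hs' hx)) (hyp x (hs (Ioo_subset_Icc_self hx))).le)
  rw [hLL] at hlow hlip
  have hc : c ∈ Icc (c - L / 2) (c + L / 2) := ⟨by linarith, by linarith⟩
  constructor
  · intro x hx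
    have h2 := hlow c hc (1 / 2) (by norm_num) (by linarith) (by linarith)
    have h3 := hlip x hx c hc
    have e : 8 * (|x - c| / L) * y c = 8 * |x - c| * y c / L := by ring
    rw [e, le_div_iff₀ hL]
    have h4 := mul_le_mul_of_nonneg_left h2 (abs_nonneg (x - c))
    nlinarith [mul_nonneg (abs_nonneg (x - c)) hY0.le]
  · intro x hx x' hx'
    have h2 := hlow x' ⟨by linarith [hx'.1], by linarith [hx'.2]⟩ (1 / 4) (by norm_num)
      (by linarith [hx'.1]) (by linarith [hx'.2])
    have h3 := hle x ⟨by linarith [hx.1], by linarith [hx.2]⟩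
    nlinarith

end Pool.Agent.P.MP_2cea5e_gt.I
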