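import Pool.Agent.P.MP_2cea5e_gt.I.St3

/-!
Regularity of the smoothing.
-/

open scoped ContDiff Topology
open MeasureTheory Set Filter

noncomputable section

set_option linter.dupNamespace false

namespace Pool.Agent.P.MP_2cea5e_gt.I

namespace Moll1

/-- The product kernel. -/
def PK (τ : Ty) (r₁ r₂ : ℂ → ℝ) (Z : C2) (y : ℝ × ℝ) : ℝ :=
  kk τ.1 r₁ (Z 0) y.1 * kk τ.2 r₂ (Z 1) y.2

/-- Real part of a coordinate. -/
def LR (j : Fin 2) : C2 →L[ℝ] ℝ := Complex.reCLM.comp (ContinuousLinearMap.proj j)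
/-- Imaginary part of a coordinate. -/
def LI (j : Fin 2) : C2 →L[ℝ] ℝ := Complex.imCLM.comp (ContinuousLinearMap.proj j)

/-- A linear form with given coordinates. -/
def cmb (a b c e : ℝ) : C2 →L[ℝ] ℝ := a • LR 0 + b • LI 0 + c • LR 1 + e • LI 1

theorem cmb_apply (a b c e : ℝ) (v : C2) :
    cmb a b c e v = a * (v 0).re + b * (v 0).im + c * (v 1).re + e * (v 1).im := by
  simp [cmb, LR, LI]

theorem cmb_dir0 (a b c e : ℝ) : cmb a b c e (dir 0) = a := by simp [cmb_apply, dir]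
theorem cmb_dir1 (a b c e : ℝ) : cmb a b c e (dir 1) = b := by simp [cmb_apply, dir]
theorem cmb_dir2 (a b c e : ℝ) : cmb a b c e (dir 2) = c := by simp [cmb_apply, dir]
theorem cmb_dir3 (a b c e : ℝ) : cmb a b c e (dir 3) = e := by simp [cmb_apply, dir]

theorem norm_cmb (a b c e : ℝ) :
    ‖cmb a b c e‖ ≤ |a| * ‖LR 0‖ + |b| * ‖LI 0‖ + |c| * ‖LR 1‖ + |e| * ‖LI 1‖ := by
  unfold cmb
  refine (norm_add_le _ _).trans (add_le_add ((norm_add_le _ _).trans (add_le_add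
    ((norm_add_le _ _).trans (add_le_add ?_ ?_)) ?_)) ?_) <;>
  rw [norm_smul, Real.norm_eq_abs]

variable {δ : ℝ} {r r₁ r₂ : ℂ → ℝ} {τ : Ty}

theorem tst_dc (h : StKer1) (hr : Tst δ r) (v : ℂ) : Tst δ (dc v r) := (h true δ r hr).1 v

theorem kk_der (h : StKer1) (hr : Tst δ r) (b : Bool) {y : ℝ} (hy : y ∈ ok b) (z : ℂ) :
    HasFDerivAt (fun z => kk b r z y)
      (kk b (dc 1 r) z y • Complex.reCLM + kk b (dc Complex.I r) z y • Complex.imCLM) z := by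
  obtain ⟨h1, h2⟩ := (h b δ r hr).2.2.1 y hy z
  convert h1.hasFDerivAt using 1
  ext v
  have e : v = v.re • (1 : ℂ) + v.im • Complex.I := by
    apply Complex.ext <;> simp
  conv_rhs => rw [e]
  rw [map_add, map_smul, map_smul, h2, h2]
  simp [mul_comm]

theorem pk_der (h : StKer1) (h1 : Tst δ r₁) (h2 : Tst δ r₂) {y : ℝ × ℝ}
    (hy : y ∈ ok τ.1 ×ˢ ok τ.2) (Z : C2) :
    HasFDerivAt (fun Z => PK τ r₁ r₂ Z y)
      (cmb (PK τ (dc 1 r₁) r₂ Z y) (PK τ (dc Complex.I r₁) r₂ Z y) (PK τ r₁ (dc 1 r₂) Z y)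
        (PK τ r₁ (dc Complex.I r₂) Z y)) Z := by
  have p0 : HasFDerivAt (fun Z : C2 => Z 0)
      (ContinuousLinearMap.proj (R := ℝ) (φ := fun _ : Fin 2 => ℂ) 0) Z :=
    (ContinuousLinearMap.proj (R := ℝ) (φ := fun _ : Fin 2 => ℂ) 0).hasFDerivAt
  have p1 : HasFDerivAt (fun Z : C2 => Z 1)
      (ContinuousLinearMap.proj (R := ℝ) (φ := fun _ : Fin 2 => ℂ) 1) Z :=
    (ContinuousLinearMap.proj (R := ℝ) (φ := fun _ : Fin 2 => ℂ) 1).hasFDerivAt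
  have a := (kk_der h h1 τ.1 hy.1 (Z 0)).comp Z p0
  have b := (kk_der h h2 τ.2 hy.2 (Z 1)).comp Z p1
  refine (a.mul b).congr_fderiv (ContinuousLinearMap.ext fun v => ?_)
  simp [cmb_apply, PK]
  ring

theorem pk_cont (h : StKer1) (h1 : Tst δ r₁) (h2 : Tst δ r₂) :
    ContinuousOn (fun q : C2 × (ℝ × ℝ) => PK τ r₁ r₂ q.1 q.2) (univ ×ˢ (ok τ.1 ×ˢ ok τ.2)) := by
  have a := (h τ.1 δ r₁ h1).2.1.comp (f := fun q : C2 × (ℝ × ℝ) => (q.1 0, q.2.1))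
    (s := univ ×ˢ (ok τ.1 ×ˢ ok τ.2)) (by fun_prop) fun q hq => ⟨trivial, hq.2.1⟩
  have b := (h τ.2 δ r₂ h2).2.1.comp (f := fun q : C2 × (ℝ × ℝ) => (q.1 1, q.2.2))
    (s := univ ×ˢ (ok τ.1 ×ˢ ok τ.2)) (by fun_prop) fun q hq => ⟨trivial, hq.2.2⟩
  exact a.mul b

theorem pk_bd (h : StKer1) (h1 : Tst δ r₁) (h2 : Tst δ r₂) :
    ∃ C, 0 ≤ C ∧ ∀ Z, ∀ y ∈ ok τ.1 ×ˢ ok τ.2, |PK τ r₁ r₂ Z y| ≤ C := by
  obtain ⟨A, hA⟩ := (h τ.1 δ r₁ h1).2.2.2.2.2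
  obtain ⟨B, hB⟩ := (h τ.2 δ r₂ h2).2.2.2.2.2
  refine ⟨|A| * |B|, by positivity, fun Z y hy => ?_⟩
  rw [PK, abs_mul]
  exact mul_le_mul ((hA _ _ hy.1).trans (le_abs_self _)) ((hB _ _ hy.2).trans (le_abs_self _))
    (abs_nonneg _) (abs_nonneg _)

variable {d : Dm} {f : X → ℝ} {t : ℝ}

theorem bx_ok (τ : Ty) : bx τ 1 ⊆ ok τ.1 ×ˢ ok τ.2 :=
  prod_mono (iv_subset_ok _ _) (iv_subset_ok _ _)

theorem pk_meas (h : StKer1) (h1 : Tst δ r₁) (h2 : Tst δ r₂) (Z : C2) :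
    AEStronglyMeasurable (fun y => PK τ r₁ r₂ Z y) (volume.restrict (bx τ 1)) := by
  have : ContinuousOn (fun y => PK τ r₁ r₂ Z y) (bx τ 1) :=
    (pk_cont h h1 h2).comp (f := fun y : ℝ × ℝ => (Z, y)) (by fun_prop)
      fun y hy => ⟨trivial, bx_ok τ hy⟩
  exact this.aestronglyMeasurable (isOpen_bx _ _).measurableSet

theorem int_meas (h : StKer1) (h1 : Tst δ r₁) (h2 : Tst δ r₂) (hf : Lc d f)
    (hO : bxc d.τ 1 ⊆ d.O) (ht : t ∈ d.I) (Z : C2) :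
    AEStronglyMeasurable (fun y => f (t, y) * PK d.τ r₁ r₂ Z y) (volume.restrict (bx d.τ 1)) :=
  (hf.meas (reg_bx hO) ht).mul (pk_meas h h1 h2 Z)

theorem int_int (h : StKer1) (h1 : Tst δ r₁) (h2 : Tst δ r₂) (hf : Lc d f)
    (hO : bxc d.τ 1 ⊆ d.O) (ht : t ∈ d.I) (Z : C2) :
    Integrable (fun y => f (t, y) * PK d.τ r₁ r₂ Z y) (volume.restrict (bx d.τ 1)) := by
  obtain ⟨C, -, hC⟩ := pk_bd (τ := d.τ) h h1 h2
  refine (hf.integrableOn (reg_bx hO) ht).mul_bdd (c := C) (pk_meas h h1 h2 Z) ?_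
  exact (ae_restrict_iff' (isOpen_bx _ _).measurableSet).mpr
    (Eventually.of_forall fun y hy => hC Z y (bx_ok _ hy))

theorem mv_eq (τ : Ty) (r₁ r₂ : ℂ → ℝ) (f : X → ℝ) (t : ℝ) (Z : C2) :
    mv τ r₁ r₂ f t Z = ∫ y in bx τ 1, f (t, y) * PK τ r₁ r₂ Z y := rfl

theorem mv_der (h : StKer1) (h1 : Tst δ r₁) (h2 : Tst δ r₂) (hf : Lc d f)
    (hO : bxc d.τ 1 ⊆ d.O) (ht : t ∈ d.I) (Z : C2) :
    HasFDerivAt (mv d.τ r₁ r₂ f t)
      (cmb (mv d.τ (dc 1 r₁) r₂ f t Z) (mv d.τ (dc Complex.I r₁) r₂ f t Z)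
        (mv d.τ r₁ (dc 1 r₂) f t Z) (mv d.τ r₁ (dc Complex.I r₂) f t Z)) Z := by
  have ta := tst_dc h h1 1
  have tb := tst_dc h h1 Complex.I
  have tc := tst_dc h h2 1
  have te := tst_dc h h2 Complex.I
  obtain ⟨A, -, hA⟩ := pk_bd (τ := d.τ) h ta h2
  obtain ⟨B, -, hB⟩ := pk_bd (τ := d.τ) h tb h2
  obtain ⟨C, -, hC⟩ := pk_bd (τ := d.τ) h h1 tc
  obtain ⟨E, -, hE⟩ := pk_bd (τ := d.τ) h h1 te
  have ms := (isOpen_bx d.τ 1).measurableSet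
  have fi := hf.integrableOn (reg_bx hO) ht
  have key := hasFDerivAt_integral_of_dominated_of_fderiv_le (𝕜 := ℝ)
    (μ := volume.restrict (bx d.τ 1)) (F := fun Z y => f (t, y) * PK d.τ r₁ r₂ Z y)
    (F' := fun Z y => cmb (f (t, y) * PK d.τ (dc 1 r₁) r₂ Z y)
      (f (t, y) * PK d.τ (dc Complex.I r₁) r₂ Z y) (f (t, y) * PK d.τ r₁ (dc 1 r₂) Z y)
      (f (t, y) * PK d.τ r₁ (dc Complex.I r₂) Z y)) (x₀ := Z) (s := univ)
    (bound := fun y => |f (t, y)| * (A * ‖LR 0‖ + B * ‖LI 0‖ + C * ‖LR 1‖ + E * ‖LI 1‖))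
    univ_mem (Eventually.of_forall fun Z => int_meas h h1 h2 hf hO ht Z)
    (int_int h h1 h2 hf hO ht Z) ?_ ?_ (fi.abs.mul_const _) ?_
  · refine key.congr_fderiv ?_
    have i1 := (int_int h ta h2 hf hO ht Z).smul_const (LR 0)
    have i2 := (int_int h tb h2 hf hO ht Z).smul_const (LI 0)
    have i3 := (int_int h h1 tc hf hO ht Z).smul_const (LR 1)
    have i4 := (int_int h h1 te hf hO ht Z).smul_const (LI 1)
    simp only [cmb, mv_eq]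
    have j1 := integral_add i1 i2
    have j2 := integral_add (i1.add i2) i3
    have j3 := integral_add ((i1.add i2).add i3) i4
    simp only [Pi.add_apply] at j2 j3
    rw [j3, j2, j1,
      integral_smul_const, integral_smul_const, integral_smul_const, integral_smul_const]
  · exact ((((int_meas h ta h2 hf hO ht Z).smul_const (LR 0)).add
      ((int_meas h tb h2 hf hO ht Z).smul_const (LI 0))).add
      ((int_meas h h1 tc hf hO ht Z).smul_const (LR 1))).add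
      ((int_meas h h1 te hf hO ht Z).smul_const (LI 1))
  · refine (ae_restrict_iff' ms).mpr (Eventually.of_forall fun y hy Z _ => ?_)
    refine (norm_cmb _ _ _ _).trans ?_
    have hy' := bx_ok _ hy
    have a := hA Z y hy'
    have b := hB Z y hy'
    have c := hC Z y hy'
    have e := hE Z y hy'
    simp only [abs_mul]
    have := abs_nonneg (f (t, y))
    calc _ = |f (t, y)| * (|PK d.τ (dc 1 r₁) r₂ Z y| * ‖LR 0‖ +
          |PK d.τ (dc Complex.I r₁) r₂ Z y| * ‖LI 0‖ + |PK d.τ r₁ (dc 1 r₂) Z y| * ‖LR 1‖ +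
          |PK d.τ r₁ (dc Complex.I r₂) Z y| * ‖LI 1‖) := by ring
      _ ≤ _ := by gcongr
  · refine (ae_restrict_iff' ms).mpr (Eventually.of_forall fun y hy Z _ => ?_)
    refine ((pk_der h h1 h2 (bx_ok _ hy) Z).const_mul (f (t, y))).congr_fderiv
      (ContinuousLinearMap.ext fun v => ?_)
    simp [cmb_apply]
    ring

theorem mv_cont (h : StKer1) (h1 : Tst δ r₁) (h2 : Tst δ r₂) (hf : Lc d f)
    (hO : bxc d.τ 1 ⊆ d.O) :
    ContinuousOn (fun q : ℝ × C2 => mv d.τ r₁ r₂ f q.1 q.2) (d.I ×ˢ univ) := fun q hq => by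
  have hA := reg_bx hO
  obtain ⟨J, hJ, hJs, hJc⟩ := local_compact_nhds (d.oI.mem_nhds hq.1)
  obtain ⟨C, hC⟩ := hf.bd.bound hA hJc hJs
  obtain ⟨B, hB0, hB⟩ := pk_bd (τ := d.τ) h h1 h2
  have hJ' : ∀ᶠ s : ℝ × C2 in 𝓝 q, s.1 ∈ J := continuous_fst.continuousAt hJ
  refine (continuousAt_of_dominated (bound := fun _ => C * B)
    (F := fun (s : ℝ × C2) y => f (s.1, y) * PK d.τ r₁ r₂ s.2 y) ?_ ?_ ?_ ?_).continuousWithinAt
  · filter_upwards [hJ'] with s hs using int_meas h h1 h2 hf hO (hJs hs) s.2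
  · filter_upwards [hJ'] with s hs
    refine (ae_restrict_iff' hA.ms).mpr (Eventually.of_forall fun y hy => ?_)
    rw [Real.norm_eq_abs, abs_mul]
    exact mul_le_mul (hC _ hs y hy) (hB _ y (bx_ok _ hy)) (abs_nonneg _)
      ((abs_nonneg _).trans (hC _ hs y hy))
  · exact integrableOn_const hA.finite
  · refine (ae_restrict_iff' hA.ms).mpr (Eventually.of_forall fun y hy => ?_)
    refine ContinuousAt.mul ?_ ?_
    · exact (hf.cont.continuousAt (d.isOpen_U.mem_nhds ⟨hq.1, hA.sub hy⟩)).comp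
        (f := fun s : ℝ × C2 => ((s.1, y) : X)) (by fun_prop)
    · exact ((pk_cont h h1 h2).continuousAt (x := (q.2, y))
        ((isOpen_univ.prod ((isOpen_ok _).prod (isOpen_ok _))).mem_nhds
          ⟨trivial, bx_ok _ hy⟩)).comp (f := fun s : ℝ × C2 => (s.2, y)) (by fun_prop)

theorem mv_pd (h : StKer1) (h1 : Tst δ r₁) (h2 : Tst δ r₂) (hf : Lc d f)
    (hO : bxc d.τ 1 ⊆ d.O) (ht : t ∈ d.I) :
    pd 0 (mv d.τ r₁ r₂ f t) = mv d.τ (dc 1 r₁) r₂ f t ∧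
    pd 1 (mv d.τ r₁ r₂ f t) = mv d.τ (dc Complex.I r₁) r₂ f t ∧
    pd 2 (mv d.τ r₁ r₂ f t) = mv d.τ r₁ (dc 1 r₂) f t ∧
    pd 3 (mv d.τ r₁ r₂ f t) = mv d.τ r₁ (dc Complex.I r₂) f t := by
  refine ⟨funext fun Z => ?_, funext fun Z => ?_, funext fun Z => ?_, funext fun Z => ?_⟩ <;>
  simp only [pd, (mv_der h h1 h2 hf hO ht Z).fderiv, cmb_dir0, cmb_dir1, cmb_dir2, cmb_dir3]

/-- Iterated partial derivatives of a smoothing are smoothings. -/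
theorem mv_pdl (h : StKer1) (h1 : Tst δ r₁) (h2 : Tst δ r₂) (l : List (Fin 4)) :
    ∃ s₁ s₂, Tst δ s₁ ∧ Tst δ s₂ ∧ ∀ (d : Dm) (f : X → ℝ) (t : ℝ), Lc d f → bxc d.τ 1 ⊆ d.O →
      t ∈ d.I → pdl l (mv d.τ r₁ r₂ f t) = mv d.τ s₁ s₂ f t := by
  induction l with
  | nil => exact ⟨r₁, r₂, h1, h2, fun _ _ _ _ _ _ => rfl⟩
  | cons a l ih =>
    obtain ⟨s₁, s₂, k1, k2, k⟩ := ih
    fin_cases a
    · exact ⟨_, _, tst_dc h k1 1, k2, fun d f t hf hO ht => by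
        rw [pdl, k d f t hf hO ht]; exact (mv_pd h k1 k2 hf hO ht).1⟩
    · exact ⟨_, _, tst_dc h k1 Complex.I, k2, fun d f t hf hO ht => by
        rw [pdl, k d f t hf hO ht]; exact (mv_pd h k1 k2 hf hO ht).2.1⟩
    · exact ⟨_, _, k1, tst_dc h k2 1, fun d f t hf hO ht => by
        rw [pdl, k d f t hf hO ht]; exact (mv_pd h k1 k2 hf hO ht).2.2.1⟩
    · exact ⟨_, _, k1, tst_dc h k2 Complex.I, fun d f t hf hO ht => by
        rw [pdl, k d f t hf hO ht]; exact (mv_pd h k1 k2 hf hO ht).2.2.2⟩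

theorem mv_sm (h : StKer1) (hf : Lc d f) (hO : bxc d.τ 1 ⊆ d.O) (ht : t ∈ d.I) (n : ℕ) :
    ∀ r₁ r₂, Tst δ r₁ → Tst δ r₂ → ContDiff ℝ n (mv d.τ r₁ r₂ f t) := by
  induction n with
  | zero =>
    intro r₁ r₂ h1 h2
    exact contDiff_zero.mpr
      (continuous_iff_continuousAt.mpr fun Z => (mv_der h h1 h2 hf hO ht Z).continuousAt)
  | succ n ih =>
    intro r₁ r₂ h1 h2
    rw [Nat.cast_succ]
    refine contDiff_succ_iff_hasFDerivAt.mpr ⟨_, ?_, fun Z => mv_der h h1 h2 hf hO ht Z⟩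
    exact ((((ih _ _ (tst_dc h h1 1) h2).smul contDiff_const).add
      ((ih _ _ (tst_dc h h1 Complex.I) h2).smul contDiff_const)).add
      ((ih _ _ h1 (tst_dc h h2 1)).smul contDiff_const)).add
      ((ih _ _ h1 (tst_dc h h2 Complex.I)).smul contDiff_const)

/-- Space regularity holds for every continuous locally bounded function. -/
theorem mv_cl (h : StKer1) (h1 : Tst δ r₁) (h2 : Tst δ r₂) (hf : Lc d f)
    (hO : bxc d.τ 1 ⊆ d.O) : Cl d.I (mv d.τ r₁ r₂ f) := by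
  refine ⟨fun t ht => contDiff_infty.mpr fun n => mv_sm h hf hO ht n _ _ h1 h2, fun l => ?_⟩
  obtain ⟨s₁, s₂, k1, k2, k⟩ := mv_pdl h h1 h2 l
  exact (mv_cont h k1 k2 hf hO).congr fun q hq => by
    simp only [k d f q.1 hf hO hq.1]

theorem mv_dt (h : StKer1) (h1 : Tst δ r₁) (h2 : Tst δ r₂) (hf : Bd d f)
    (hO : bxc d.τ 1 ⊆ d.O) (ht : t ∈ d.I) (Z : C2) :
    HasDerivAt (fun s => mv d.τ r₁ r₂ f s Z) (mv d.τ r₁ r₂ (D e0 f) t Z) t := by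
  have hA := reg_bx hO
  obtain ⟨J, hJ, hJs, hJc⟩ := local_compact_nhds (d.oI.mem_nhds ht)
  obtain ⟨C, hC⟩ := (hf.D e0).bd0.bound hA hJc hJs
  obtain ⟨B, hB0, hB⟩ := pk_bd (τ := d.τ) h h1 h2
  refine (hasDerivAt_integral_of_dominated_loc_of_deriv_le (μ := volume.restrict (bx d.τ 1))
    (F := fun s y => f (s, y) * PK d.τ r₁ r₂ Z y)
    (F' := fun s y => D e0 f (s, y) * PK d.τ r₁ r₂ Z y) (bound := fun _ => C * B) hJ ?_
    (int_int h h1 h2 hf.lc hO ht Z) (int_meas h h1 h2 (hf.D e0).lc hO ht Z) ?_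
    (integrableOn_const hA.finite) ?_).2
  · filter_upwards [d.oI.mem_nhds ht] with s hs using int_meas h h1 h2 hf.lc hO hs Z
  · refine (ae_restrict_iff' hA.ms).mpr (Eventually.of_forall fun y hy s hs => ?_)
    rw [Real.norm_eq_abs, abs_mul]
    exact mul_le_mul (hC _ hs y hy) (hB _ y (bx_ok _ hy)) (abs_nonneg _)
      ((abs_nonneg _).trans (hC _ hs y hy))
  · exact (ae_restrict_iff' hA.ms).mpr (Eventually.of_forall fun y hy s hs =>
      (hasDerivAt_t (hf.diffAt ⟨hJs hs, hA.sub hy⟩)).mul_const _)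

end Moll1

theorem moll1_ok (h : StKer1) : StMoll1 := fun _ _ _ _ _ hf h1 h2 hO =>
  ⟨Moll1.mv_cl h h1 h2 hf.lc hO, fun _ ht Z => Moll1.mv_dt h h1 h2 hf hO ht Z,
    fun _ ht => Moll1.mv_pd h h1 h2 hf.lc hO ht⟩

end Pool.Agent.P.MP_2cea5e_gt.I
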