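import Pool.Agent.P.MP_2cea5e_gt.I.St1

/-!
Chapter I: a cheap segment normal to an edge.
-/

open scoped Topology
open MeasureTheory Set Filter

noncomputable section

namespace Pool.Agent.P.MP_2cea5e_gt.I

namespace Norm

theorem eps_nn {F : ℝ → ℝ} {a b ε : ℝ} (h : Cheap F a b ε) : 0 ≤ ε :=
  le_trans (setIntegral_nonneg measurableSet_Ioo h.nn) h.le

theorem int_le {F g : ℝ → ℝ} {a ε K t u : ℝ} (h : Cheap F 0 a ε) (hK : 0 ≤ K) (ht : 0 ≤ t)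
    (hu : u ≤ a) (hg : ∀ s ∈ Ioo t u, |g s| ≤ K * F s) : |∫ s in Ioo t u, g s| ≤ K * ε := by
  have hsub : Ioo t u ⊆ Ioo 0 a := Ioo_subset_Ioo ht hu
  have hi : IntegrableOn F (Ioo t u) := h.int.mono_set hsub
  have h1 : ‖∫ s in Ioo t u, g s‖ ≤ ∫ s in Ioo t u, K * F s := by
    refine norm_integral_le_of_norm_le (hi.const_mul K) ?_
    filter_upwards [ae_restrict_mem measurableSet_Ioo] with s hs
    exact hg s hs
  rw [integral_const_mul] at h1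
  have h2 : ∫ s in Ioo t u, F s ≤ ∫ s in Ioo 0 a, F s := by
    refine setIntegral_mono_set h.int ?_ hsub.eventuallyLE
    filter_upwards [ae_restrict_mem measurableSet_Ioo] with s hs
    exact h.nn s hs
  exact h1.trans (mul_le_mul_of_nonneg_left (h2.trans h.le) hK)

/-- The chord estimate on `[t,a]`. -/
theorem chord_est (hG : StGreen) {y y' y'' F : ℝ → ℝ} {a ε K t x : ℝ}
    (hy : C2On y y' y'' (Ioc 0 a)) (h : Cheap F 0 a ε) (hK : 0 ≤ K) (ht : 0 < t) (hta : t < a)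
    (hx : x ∈ Icc t a) (hb : ∀ s ∈ Ioo 0 a, min x s * |y'' s| ≤ K * F s) :
    |chord y t a x - y x| ≤ K * ε := by
  have hsub : Icc t a ⊆ Ioc 0 a := fun s hs => ⟨ht.trans_le hs.1, hs.2⟩
  rw [hG y y' y'' t a x hta ⟨fun s hs => hy.d1 s (hsub hs), fun s hs => hy.d2 s (hsub hs),
    hy.c2.mono hsub⟩ hx]
  refine int_le h hK ht.le le_rfl fun s hs => ?_
  have hat : 0 < a - t := sub_pos.2 hta
  have h1 : t ≤ min x s := le_min hx.1 hs.1.le
  have h2 : max x s ≤ a := max_le hx.2 hs.2.le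
  have h3 : t ≤ max x s := hx.1.trans (le_max_left _ _)
  have hg0 : 0 ≤ green t a x s :=
    div_nonneg (mul_nonneg (sub_nonneg.2 h1) (sub_nonneg.2 h2)) hat.le
  have hg1 : green t a x s ≤ min x s := by
    rw [green, div_le_iff₀ hat]
    exact mul_le_mul (by linarith) (by linarith) (sub_nonneg.2 h2) (ht.le.trans h1)
  rw [abs_mul, abs_of_nonneg hg0]
  exact (mul_le_mul_of_nonneg_right hg1 (abs_nonneg _)).trans (hb s ⟨ht.trans hs.1, hs.2⟩)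

/-- The oscillation of the derivative. -/
theorem osc {y y' y'' F : ℝ → ℝ} {a ε K : ℝ} (hy : C2On y y' y'' (Ioc 0 a)) (h : Cheap F 0 a ε)
    (hK : 0 ≤ K) (hb : ∀ s ∈ Ioo 0 a, |y'' s| ≤ K * F s) :
    ∀ x ∈ Ioc 0 a, ∀ x' ∈ Ioc 0 a, |y' x - y' x'| ≤ K * ε := by
  have key : ∀ x ∈ Ioc 0 a, ∀ x' ∈ Ioc 0 a, x' ≤ x → |y' x - y' x'| ≤ K * ε := by
    intro x hx x' hx' hle
    have hsub : uIcc x' x ⊆ Ioc 0 a := by
      rw [uIcc_of_le hle]
      exact fun s hs => ⟨hx'.1.trans_le hs.1, hs.2.trans hx.2⟩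
    rw [← intervalIntegral.integral_eq_sub_of_hasDerivAt (fun s hs => hy.d2 s (hsub hs))
      (hy.c2.mono hsub).intervalIntegrable, intervalIntegral.integral_of_le hle,
      integral_Ioc_eq_integral_Ioo]
    exact int_le h hK hx'.1.le hx.2 fun s hs => hb s ⟨hx'.1.trans hs.1, hs.2.trans_le hx.2⟩
  intro x hx x' hx'
  rcases le_total x' x with hle | hle
  · exact key x hx x' hx' hle
  · rw [abs_sub_comm]; exact key x' hx' x hx hle

theorem ev_lt {x : ℝ} (hx : 0 < x) : ∀ᶠ t in 𝓝[>] (0 : ℝ), 0 < t ∧ t < x :=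
  Ioo_mem_nhdsGT hx

theorem tend_id : Tendsto (fun t : ℝ => t) (𝓝[>] 0) (𝓝 0) := tendsto_nhdsWithin_of_tendsto_nhds tendsto_id

/-- The chord estimate for the weight `Θ / x`. -/
theorem chordA (hG : StGreen) {y y' y'' F : ℝ → ℝ} {a Θ ε Y t x : ℝ} (hΘ : 0 ≤ Θ)
    (hy : C2On y y' y'' (Ioc 0 a)) (h : Cheap F 0 a ε) (hY : ∀ x ∈ Ioc 0 a, 0 < y x ∧ y x ≤ Y)
    (hb : ∀ x ∈ Ioo 0 a, |y'' x| ≤ F x * y x * (Θ / x)) (ht : 0 < t) (hta : t < a)
    (hx : x ∈ Icc t a) : |chord y t a x - y x| ≤ Y * (Θ * ε) := by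
  have hY0 : 0 ≤ Y := (hY a ⟨ht.trans hta, le_rfl⟩).1.le.trans (hY a ⟨ht.trans hta, le_rfl⟩).2
  rw [← mul_assoc]
  refine chord_est hG hy h (mul_nonneg hY0 hΘ) ht hta hx fun s hs => ?_
  have hs0 := hs.1
  have h1 := hY s ⟨hs.1, hs.2.le⟩
  have h2 := h.nn s hs
  calc min x s * |y'' s| ≤ s * (F s * y s * (Θ / s)) :=
        mul_le_mul (min_le_right _ _) (hb s hs) (abs_nonneg _) hs0.le
    _ = y s * Θ * F s := by field_simp
    _ ≤ Y * Θ * F s := mul_le_mul_of_nonneg_right (mul_le_mul_of_nonneg_right h1.2 hΘ) h2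

theorem item1 (hG : StGreen) {y y' y'' F : ℝ → ℝ} {a Θ ε Y : ℝ} (ha : 0 < a) (hΘ : 0 ≤ Θ)
    (hy : C2On y y' y'' (Ioc 0 a)) (h : Cheap F 0 a ε) (hY : ∀ x ∈ Ioc 0 a, 0 < y x ∧ y x ≤ Y)
    (hb : ∀ x ∈ Ioo 0 a, |y'' x| ≤ F x * y x * (Θ / x)) :
    ∀ x ∈ Ioc 0 a, ∀ x' ∈ Ioc 0 a, |y x - y x'| ≤ Y * (|x - x'| / a + 2 * (Θ * ε)) := by
  intro x hx x' hx'
  have hlim : Tendsto (fun t : ℝ => Y * (|x - x'| / (a - t) + 2 * (Θ * ε))) (𝓝[>] 0)
      (𝓝 (Y * (|x - x'| / (a - 0) + 2 * (Θ * ε)))) :=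
    (((tendsto_const_nhds.div (tendsto_const_nhds.sub tend_id) (by simpa using ha.ne')).add
      tendsto_const_nhds).const_mul Y)
  rw [sub_zero] at hlim
  refine ge_of_tendsto hlim ?_
  filter_upwards [ev_lt (lt_min (lt_min hx.1 hx'.1) ha)] with t ht
  have ht0 := ht.1
  have htx : t < x := ht.2.trans_le ((min_le_left _ _).trans (min_le_left _ _))
  have htx' : t < x' := ht.2.trans_le ((min_le_left _ _).trans (min_le_right _ _))
  have hta : t < a := ht.2.trans_le (min_le_right _ _)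
  have hat : 0 < a - t := sub_pos.2 hta
  have e1 := chordA hG hΘ hy h hY hb ht0 hta ⟨htx.le, hx.2⟩
  have e2 := chordA hG hΘ hy h hY hb ht0 hta ⟨htx'.le, hx'.2⟩
  have h1 := hY t ⟨ht0, hta.le⟩
  have h2 := hY a ⟨ha, le_rfl⟩
  have e3 : |chord y t a x - chord y t a x'| ≤ Y * (|x - x'| / (a - t)) := by
    have : chord y t a x - chord y t a x' = (y a - y t) * ((x - x') / (a - t)) := by
      simp only [chord]; field_simp; ring
    rw [this, abs_mul, abs_div, abs_of_pos hat]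
    refine mul_le_mul_of_nonneg_right ?_ (div_nonneg (abs_nonneg _) hat.le)
    rw [abs_le]; constructor <;> linarith [h1.1, h1.2, h2.1, h2.2]
  rw [abs_le] at e1 e2 e3 ⊢
  constructor <;> nlinarith [e1.1, e1.2, e2.1, e2.2, e3.1, e3.2]

theorem item2 (hG : StGreen) {y y' y'' F : ℝ → ℝ} {a Θ ε Y : ℝ} (ha : 0 < a) (hΘ : 0 ≤ Θ)
    (hy : C2On y y' y'' (Ioc 0 a)) (h : Cheap F 0 a ε) (hδ : Θ * ε ≤ 1 / 10)
    (hY : ∀ x ∈ Ioc 0 a, 0 < y x ∧ y x ≤ Y)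
    (hb : ∀ x ∈ Ioo 0 a, |y'' x| ≤ F x * y x * (Θ / x)) :
    ∀ s₀ : ℝ, 0 < s₀ → 4 * (Θ * ε) ≤ s₀ → ∀ x₁ ∈ Icc (s₀ * a) (a / 2), ∀ x ∈ Ioc 0 a,
      y x ≤ 2 / s₀ * y x₁ := by
  intro s₀ hs₀ hs4 x₁ hx₁
  have hδ0 : 0 ≤ Θ * ε := mul_nonneg hΘ (eps_nn h)
  set δ := Θ * ε with hδdef
  have hbdd : BddAbove (y '' Ioc 0 a) := ⟨Y, by rintro _ ⟨s, hs, rfl⟩; exact (hY s hs).2⟩
  have hne : (y '' Ioc 0 a).Nonempty := ⟨_, a, ⟨ha, le_rfl⟩, rfl⟩
  set Z := sSup (y '' Ioc 0 a) with hZ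
  have hZ1 : ∀ x ∈ Ioc 0 a, 0 < y x ∧ y x ≤ Z := fun x hx =>
    ⟨(hY x hx).1, le_csSup hbdd ⟨x, hx, rfl⟩⟩
  have hZ0 : 0 ≤ Z := (hZ1 a ⟨ha, le_rfl⟩).1.le.trans (hZ1 a ⟨ha, le_rfl⟩).2
  have hx₁0 : 0 < x₁ := (mul_pos hs₀ ha).trans_le hx₁.1
  have hx₁a : x₁ ≤ a := by linarith [hx₁.2]
  have hs2 : s₀ ≤ 1 / 2 := by
    have : s₀ * a ≤ 1 / 2 * a := by linarith [hx₁.1, hx₁.2]
    exact le_of_mul_le_mul_right this ha
  have key : ∀ x ∈ Ioc 0 a, s₀ * (y x - Z * δ) - Z * δ ≤ y x₁ := by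
    intro x hx
    have hlim : Tendsto (fun t : ℝ => (s₀ - t / a) * (y x - Z * δ) - Z * δ) (𝓝[>] 0)
        (𝓝 ((s₀ - 0 / a) * (y x - Z * δ) - Z * δ)) :=
      ((tendsto_const_nhds.sub (tend_id.div_const a)).mul_const _).sub_const _
    rw [zero_div, sub_zero] at hlim
    refine le_of_tendsto hlim ?_
    filter_upwards [ev_lt (lt_min hx.1 (mul_pos hs₀ ha))] with t ht
    have ht0 := ht.1
    have htx : t < x := ht.2.trans_le (min_le_left _ _)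
    have hts : t < s₀ * a := ht.2.trans_le (min_le_right _ _)
    have htx₁ : t < x₁ := hts.trans_le hx₁.1
    have hta : t < a := htx₁.trans_le hx₁a
    have hat : 0 < a - t := sub_pos.2 hta
    have e1 := (abs_le.1 (chordA hG hΘ hy h hZ1 hb ht0 hta ⟨htx.le, hx.2⟩)).1
    have e2 := (abs_le.1 (chordA hG hΘ hy h hZ1 hb ht0 hta ⟨htx₁.le, hx₁a⟩)).2
    have h1 := (hY t ⟨ht0, hta.le⟩).1
    have h2 := (hY a ⟨ha, le_rfl⟩).1
    set M := max (y t) (y a) with hM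
    have hMt : y t ≤ M := le_max_left _ _
    have hMa : y a ≤ M := le_max_right _ _
    have c1 : chord y t a x ≤ M := by
      rw [chord, div_le_iff₀ hat]
      have := mul_le_mul_of_nonneg_left hMt (sub_nonneg.2 hx.2)
      have := mul_le_mul_of_nonneg_left hMa (sub_nonneg.2 htx.le)
      nlinarith
    set w := s₀ - t / a with hw
    have hwa : w * a = s₀ * a - t := by rw [hw]; field_simp
    have hw0 : 0 ≤ w := by
      by_contra hneg
      have := mul_neg_of_neg_of_pos (not_le.1 hneg) ha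
      linarith
    have hw1 : w * (a - t) ≤ x₁ - t := by nlinarith [hx₁.1, mul_nonneg hw0 ht0.le]
    have hw2 : w * (a - t) ≤ a - x₁ := by nlinarith [hx₁.1, hx₁.2, mul_nonneg hw0 ht0.le]
    have c2 : w * M ≤ chord y t a x₁ := by
      rw [chord, le_div_iff₀ hat]
      have p1 : 0 ≤ (a - x₁) * y t := mul_nonneg (sub_nonneg.2 hx₁a) h1.le
      have p2 : 0 ≤ (x₁ - t) * y a := mul_nonneg (sub_nonneg.2 htx₁.le) h2.le
      rcases max_choice (y t) (y a) with hm | hm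
      · rw [hM, hm]
        have := mul_le_mul_of_nonneg_right hw2 h1.le
        nlinarith
      · rw [hM, hm]
        have := mul_le_mul_of_nonneg_right hw1 h2.le
        nlinarith
    have c3 : w * (y x - Z * δ) ≤ w * M := mul_le_mul_of_nonneg_left (by linarith) hw0
    linarith
  have hZle : Z ≤ (y x₁ + Z * δ) / s₀ + Z * δ := by
    refine csSup_le hne ?_
    rintro _ ⟨x, hx, rfl⟩
    have := key x hx
    have h3 : y x - Z * δ ≤ (y x₁ + Z * δ) / s₀ := by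
      rw [le_div_iff₀ hs₀]; linarith
    linarith
  have h4 : s₀ * Z ≤ 2 * y x₁ := by
    have h5 : (Z - Z * δ) * s₀ ≤ y x₁ + Z * δ := by
      rw [← le_div_iff₀ hs₀]; linarith
    have h6 : Z * δ ≤ Z * (s₀ / 4) := mul_le_mul_of_nonneg_left (by linarith) hZ0
    have h7 : Z * δ * s₀ ≤ Z * (1 / 10) * s₀ :=
      mul_le_mul_of_nonneg_right (mul_le_mul_of_nonneg_left hδ hZ0) hs₀.le
    have h8 : 0 ≤ Z * s₀ := mul_nonneg hZ0 hs₀.le
    nlinarith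
  intro x hx
  refine (hZ1 x hx).2.trans ?_
  rw [div_mul_eq_mul_div, le_div_iff₀ hs₀]
  linarith

theorem item3 {y y' y'' F : ℝ → ℝ} {a Θ ε Y : ℝ} (ha : 0 < a) (hΘ : 0 ≤ Θ)
    (hy : C2On y y' y'' (Ioc 0 a)) (h : Cheap F 0 a ε) (hδ : Θ * ε ≤ 1 / 10)
    (hY : ∀ x ∈ Ioc 0 a, 0 < y x ∧ y x ≤ Y)
    (hb : ∀ x ∈ Ioo 0 a, |y'' x| ≤ F x * y x * (Θ / x))
    (hl : Tendsto (fun x => y x / x) (𝓝[>] 0) (𝓝 1)) :
    ∀ x ∈ Ioc 0 a, |y x / x - 1| ≤ 2 * (Θ * ε) ∧ |y' x - 1| ≤ 2 * (Θ * ε) := by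
  have hδ0 : 0 ≤ Θ * ε := mul_nonneg hΘ (eps_nn h)
  have hbdd : BddAbove ((fun x => y x / x) '' Ioc 0 a) := by
    have hev : ∀ᶠ x in 𝓝[>] (0 : ℝ), y x / x < 2 := hl.eventually (gt_mem_nhds (by norm_num))
    obtain ⟨u, hu, hsub⟩ := mem_nhdsGT_iff_exists_Ioo_subset.1 hev
    have hu0 : 0 < u := hu
    refine ⟨max 2 (Y / u), ?_⟩
    rintro _ ⟨s, hs, rfl⟩
    by_cases hsu : s < u
    · exact le_max_of_le_left (le_of_lt (hsub ⟨hs.1, hsu⟩))
    · refine le_max_of_le_right ?_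
      exact div_le_div₀ ((hY s hs).1.le.trans (hY s hs).2) (hY s hs).2 hu0 (not_lt.1 hsu)
  have hne : ((fun x => y x / x) '' Ioc 0 a).Nonempty := ⟨_, a, ⟨ha, le_rfl⟩, rfl⟩
  set L := sSup ((fun x => y x / x) '' Ioc 0 a) with hL
  have hL1 : ∀ x ∈ Ioc 0 a, y x / x ≤ L := fun x hx => le_csSup hbdd ⟨x, hx, rfl⟩
  have hL0 : 0 ≤ L := (div_pos (hY a ⟨ha, le_rfl⟩).1 ha).le.trans (hL1 a ⟨ha, le_rfl⟩)
  have ho := osc hy h (mul_nonneg hL0 hΘ) (K := L * Θ) fun s hs => by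
    refine (hb s hs).trans ?_
    have : F s * y s * (Θ / s) = y s / s * Θ * F s := by ring
    rw [this]
    exact mul_le_mul_of_nonneg_right
      (mul_le_mul_of_nonneg_right (hL1 s ⟨hs.1, hs.2.le⟩) hΘ) (h.nn s hs)
  have hy0 : Tendsto y (𝓝[>] 0) (𝓝 0) := by
    have := hl.mul tend_id
    rw [mul_zero] at this
    refine this.congr' ?_
    filter_upwards [self_mem_nhdsWithin] with t ht
    have : t ≠ 0 := ne_of_gt ht
    field_simp
  -- the quotient `y x / x` is a limit of values of the derivative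
  have hq : ∀ (c K : ℝ), (∀ s ∈ Ioc 0 a, |y' s - c| ≤ K) → ∀ x ∈ Ioc 0 a, |y x / x - c| ≤ K := by
    intro c K hK x hx
    have hlim : Tendsto (fun t => |(y x - y t) / (x - t) - c|) (𝓝[>] 0)
        (𝓝 |(y x - 0) / (x - 0) - c|) :=
      (((tendsto_const_nhds.sub hy0).div (tendsto_const_nhds.sub tend_id)
        (by simpa using hx.1.ne')).sub_const c).abs
    rw [sub_zero, sub_zero] at hlim
    refine le_of_tendsto hlim ?_
    filter_upwards [ev_lt hx.1] with t ht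
    have hsub : Icc t x ⊆ Ioc 0 a := fun s hs => ⟨ht.1.trans_le hs.1, hs.2.trans hx.2⟩
    obtain ⟨ξ, hξ, he⟩ := exists_hasDerivAt_eq_slope y y' ht.2
      (fun s hs => (hy.d1 s (hsub hs)).continuousAt.continuousWithinAt)
      (fun s hs => hy.d1 s (hsub (Ioo_subset_Icc_self hs)))
    rw [← he]
    exact hK ξ (hsub (Ioo_subset_Icc_self hξ))
  have hd : ∀ x ∈ Ioc 0 a, |y' x - 1| ≤ L * Θ * ε := by
    intro x hx
    have hlim : Tendsto (fun t => |y t / t - y' x|) (𝓝[>] 0) (𝓝 |1 - y' x|) :=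
      (hl.sub_const _).abs
    rw [abs_sub_comm]
    refine le_of_tendsto hlim ?_
    filter_upwards [ev_lt ha] with t ht
    exact hq _ _ (fun s hs => ho s hs x hx) t ⟨ht.1, ht.2.le⟩
  have hq1 := hq 1 _ hd
  have hLle : L ≤ 1 + L * Θ * ε := by
    refine csSup_le hne ?_
    rintro _ ⟨x, hx, rfl⟩
    have := (abs_le.1 (hq1 x hx)).2
    show y x / x ≤ _
    linarith
  have hL2 : L ≤ 2 := by
    have := mul_le_mul_of_nonneg_left hδ hL0
    rw [mul_assoc] at hLle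
    linarith
  have hfin : L * Θ * ε ≤ 2 * (Θ * ε) := by
    rw [mul_assoc]; exact mul_le_mul_of_nonneg_right hL2 hδ0
  exact fun x hx => ⟨(hq1 x hx).trans hfin, (hd x hx).trans hfin⟩

theorem part2 (hG : StGreen) {z z' z'' F : ℝ → ℝ} {a Γ ε : ℝ} (ha : 0 < a) (hΓ : 0 ≤ Γ)
    (hz : C2On z z' z'' (Ioc 0 a)) (h : Cheap F 0 a ε) (hl : Tendsto z (𝓝[>] 0) (𝓝 0))
    (hb : ∀ x ∈ Ioo 0 a, |z'' x| ≤ F x * (Γ / √x)) :
    ∀ x ∈ Ioc 0 a, |z x - x / a * z a| ≤ √x * (Γ * ε) := by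
  intro x hx
  have hlim : Tendsto (fun t => |chord z t a x - z x|) (𝓝[>] 0)
      (𝓝 |((a - x) * 0 + (x - 0) * z a) / (a - 0) - z x|) :=
    ((((hl.const_mul _).add ((tendsto_const_nhds.sub tend_id).mul_const _)).div
      (tendsto_const_nhds.sub tend_id) (by simpa using ha.ne')).sub_const _).abs
  have e : ((a - x) * 0 + (x - 0) * z a) / (a - 0) = x / a * z a := by
    rw [mul_zero, zero_add, sub_zero, sub_zero]; ring
  rw [e] at hlim
  rw [abs_sub_comm]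
  refine le_of_tendsto hlim ?_
  filter_upwards [ev_lt (lt_min hx.1 ha)] with t ht
  rw [← mul_assoc]
  refine chord_est hG hz h (mul_nonneg (Real.sqrt_nonneg _) hΓ) ht.1
    (ht.2.trans_le (min_le_right _ _)) ⟨(ht.2.trans_le (min_le_left _ _)).le, hx.2⟩
    fun s hs => ?_
  have hs0 : 0 < √s := Real.sqrt_pos.2 hs.1
  have hmin : min x s ≤ √x * √s := by
    rw [← Real.sqrt_mul hx.1.le]
    refine Real.le_sqrt_of_sq_le ?_
    rw [sq]
    exact mul_le_mul (min_le_left _ _) (min_le_right _ _) (le_min hx.1.le hs.1.le) hx.1.le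
  calc min x s * |z'' s| ≤ √x * √s * (F s * (Γ / √s)) :=
        mul_le_mul hmin (hb s hs) (abs_nonneg _) (mul_nonneg (Real.sqrt_nonneg _) hs0.le)
    _ = √x * Γ * F s := by field_simp

end Norm

theorem norm_ok (hG : StGreen) : StNorm :=
  ⟨fun _ _ _ _ _ _ _ _ ha hΘ hy h hδ hY hb =>
    ⟨Norm.item1 hG ha hΘ hy h hY hb, Norm.item2 hG ha hΘ hy h hδ hY hb,
      Norm.item3 ha hΘ hy h hδ hY hb⟩,
    fun _ _ _ _ _ _ _ ha hΓ hz h hl hb => Norm.part2 hG ha hΓ hz h hl hb⟩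

end Pool.Agent.P.MP_2cea5e_gt.I
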