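import Pool.Agent.P.MP_2cea5e_gt.I.St1

/-! Rigidity on a segment between the two edges. -/

open scoped Topology
open MeasureTheory Set Filter

noncomputable section

namespace Pool.Agent.P.MP_2cea5e_gt.I

namespace Rig

theorem cheap_sub {F : ℝ → ℝ} {a b a' b' ε : ℝ} (h : Cheap F a b ε) (ha : a ≤ a') (hb : b' ≤ b) :
    Cheap F a' b' ε := by
  have hs : Ioo a' b' ⊆ Ioo a b := Ioo_subset_Ioo ha hb
  refine ⟨fun x hx => h.nn x (hs hx), h.int.mono_set hs, le_trans ?_ h.le⟩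
  refine setIntegral_mono_set h.int ?_ hs.eventuallyLE
  exact (ae_restrict_iff' measurableSet_Ioo).2 (Eventually.of_forall h.nn)

theorem c2_sub {f f' f'' : ℝ → ℝ} {s t : Set ℝ} (h : C2On f f' f'' s) (hs : t ⊆ s) :
    C2On f f' f'' t :=
  ⟨fun x hx => h.d1 x (hs hx), fun x hx => h.d2 x (hs hx), h.c2.mono hs⟩

theorem int_bound {F g : ℝ → ℝ} {a b ε K : ℝ} (h : Cheap F a b ε) (hK : 0 ≤ K)
    (hg : ∀ s ∈ Ioo a b, |g s| ≤ F s * K) : |∫ s in Ioo a b, g s| ≤ ε * K := by
  have h1 : ‖∫ s in Ioo a b, g s‖ ≤ ∫ s in Ioo a b, F s * K :=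
    norm_integral_le_of_norm_le (h.int.mul_const K)
      ((ae_restrict_iff' measurableSet_Ioo).2 (Eventually.of_forall hg))
  rw [integral_mul_const] at h1
  exact le_trans h1 (mul_le_mul_of_nonneg_right h.le hK)

theorem cheap_refl {F : ℝ → ℝ} {ε : ℝ} (h : Cheap F 0 1 ε) : Cheap (fun x => F (1 - x)) 0 1 ε := by
  have hi : IntervalIntegrable F volume 0 1 :=
    (intervalIntegrable_iff_integrableOn_Ioo_of_le zero_le_one).2 h.int
  refine ⟨fun x hx => h.nn _ ⟨by linarith [hx.2], by linarith [hx.1]⟩, ?_, ?_⟩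
  · have := (hi.comp_sub_left 1).symm
    simp only [sub_zero, sub_self] at this
    exact (intervalIntegrable_iff_integrableOn_Ioo_of_le zero_le_one).1 this
  · have e := intervalIntegral.integral_comp_sub_left (a := 0) (b := 1) F 1
    simp only [sub_zero, sub_self] at e
    rw [intervalIntegral.integral_of_le zero_le_one, intervalIntegral.integral_of_le zero_le_one,
      integral_Ioc_eq_integral_Ioo, integral_Ioc_eq_integral_Ioo] at e
    rw [e]
    exact h.le

theorem taylor {y y' y'' : ℝ → ℝ} {a x : ℝ} (hax : a ≤ x) (h : C2On y y' y'' (Icc a x)) :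
    y x - y a - (x - a) * y' a = ∫ s in Ioo a x, (x - s) * y'' s := by
  have hd : ∀ s ∈ uIcc a x, HasDerivAt (fun s => y s + (x - s) * y' s) ((x - s) * y'' s) s := by
    intro s hs
    rw [uIcc_of_le hax] at hs
    have := (h.d1 s hs).add (((hasDerivAt_id s).const_sub x).mul (h.d2 s hs))
    exact this.congr_deriv (by simp)
  have hc : ContinuousOn (fun s => (x - s) * y'' s) (uIcc a x) := by
    rw [uIcc_of_le hax]
    exact (continuousOn_const.sub continuousOn_id).mul h.c2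
  have e := intervalIntegral.integral_eq_sub_of_hasDerivAt hd hc.intervalIntegrable
  rw [intervalIntegral.integral_of_le hax, integral_Ioc_eq_integral_Ioo] at e
  rw [e]
  ring

theorem first (hN : StNorm) (y y' y'' F : ℝ → ℝ) (Θ ε Y : ℝ) (hΘ : 0 ≤ Θ)
    (hc : C2On y y' y'' (Ioo 0 1)) (hF : Cheap F 0 1 ε) (hs : Θ * ε ≤ 1 / 100)
    (hy : ∀ x ∈ Ioo (0 : ℝ) 1, 0 < y x ∧ y x ≤ Y)
    (hb : ∀ x ∈ Ioo (0 : ℝ) 1, |y'' x| ≤ F x * y x * (Θ / (x * (1 - x))))
    (ht : Tendsto (fun x => y x / x) (𝓝[>] 0) (𝓝 1)) :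
    ∀ x ∈ Ioo (0 : ℝ) 1, |y x / x - 1| ≤ 10 * (Θ * ε) := by
  have hε : 0 ≤ ε := le_trans (setIntegral_nonneg measurableSet_Ioo hF.nn) hF.le
  have hδ : 0 ≤ Θ * ε := mul_nonneg hΘ hε
  have hsub : Ioc (0 : ℝ) (1 / 2) ⊆ Ioo 0 1 := fun x hx => ⟨hx.1, by linarith [hx.2]⟩
  have h1 := (hN.1 y y' y'' F (1 / 2) (2 * Θ) ε Y (by norm_num) (by linarith) (c2_sub hc hsub)
    (cheap_sub hF le_rfl (by norm_num)) (by linarith) (fun x hx => hy x (hsub hx))
    (fun x hx => by
      have hx' : x ∈ Ioo (0 : ℝ) 1 := ⟨hx.1, by linarith [hx.2]⟩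
      refine le_trans (hb x hx') (mul_le_mul_of_nonneg_left ?_
        (mul_nonneg (hF.nn x hx') (hy x hx').1.le))
      rw [div_le_div_iff₀ (mul_pos hx.1 (by linarith [hx.2])) hx.1]
      nlinarith [mul_nonneg (mul_nonneg hΘ hx.1.le) (by linarith [hx.2] : 0 ≤ 1 - 2 * x)])).2.2 ht
  obtain ⟨k1, k2⟩ := h1 (1 / 2) ⟨by norm_num, le_rfl⟩
  have key : ∀ Z : ℝ, (∀ x ∈ Ioo (0 : ℝ) 1, y x ≤ Z) → ∀ x ∈ Ico (1 / 2 : ℝ) 1,
      |y x - x| ≤ 4 * (Θ * ε) * x + 2 * (Θ * ε) * Z := by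
    intro Z hZ x hx
    have hZ0 : 0 ≤ Z := le_trans (hy (1 / 2) ⟨by norm_num, by norm_num⟩).1.le
      (hZ (1 / 2) ⟨by norm_num, by norm_num⟩)
    have e := taylor hx.1 (c2_sub hc (fun s hs => ⟨by linarith [hs.1], by linarith [hs.2, hx.2]⟩))
    have b := int_bound (g := fun s => (x - s) * y'' s) (K := 2 * Θ * Z)
      (cheap_sub hF (by norm_num : (0 : ℝ) ≤ 1 / 2) hx.2.le) (by positivity) (fun s hs => by
        have hs' : s ∈ Ioo (0 : ℝ) 1 := ⟨by linarith [hs.1], by linarith [hs.2, hx.2]⟩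
        have p1 : 0 < x - s := by linarith [hs.2]
        have p2 : 0 < s * (1 - s) := mul_pos hs'.1 (by linarith [hs'.2])
        have q : (x - s) * (Θ / (s * (1 - s))) ≤ 2 * Θ := by
          rw [← mul_div_assoc, div_le_iff₀ p2]
          have : x - s ≤ 2 * (s * (1 - s)) := by nlinarith [hs.1, hs.2, hx.2]
          nlinarith [mul_le_mul_of_nonneg_left this hΘ]
        rw [abs_mul, abs_of_pos p1]
        calc (x - s) * |y'' s| ≤ (x - s) * (F s * y s * (Θ / (s * (1 - s)))) :=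
              mul_le_mul_of_nonneg_left (hb s hs') p1.le
          _ = F s * (y s * ((x - s) * (Θ / (s * (1 - s))))) := by ring
          _ ≤ F s * (Z * (2 * Θ)) := mul_le_mul_of_nonneg_left
              (mul_le_mul (hZ s hs') q (by positivity) hZ0) (hF.nn s hs')
          _ = F s * (2 * Θ * Z) := by ring)
    rw [← e] at b
    rw [abs_le] at b k1 k2 ⊢
    have p : 0 ≤ x - 1 / 2 := by linarith [hx.1]
    have m1 := mul_le_mul_of_nonneg_left k2.1 p
    have m2 := mul_le_mul_of_nonneg_left k2.2 p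
    constructor <;> nlinarith [b.1, b.2, k1.1, k1.2]
  have hbdd : BddAbove (y '' Ioo 0 1) := ⟨Y, by rintro _ ⟨x, hx, rfl⟩; exact (hy x hx).2⟩
  have hle : ∀ x ∈ Ioo (0 : ℝ) 1, y x ≤ sSup (y '' Ioo 0 1) := fun x hx =>
    le_csSup hbdd ⟨x, hx, rfl⟩
  have hZ0 : 0 ≤ sSup (y '' Ioo 0 1) := le_trans (hy (1 / 2) ⟨by norm_num, by norm_num⟩).1.le
    (hle (1 / 2) ⟨by norm_num, by norm_num⟩)
  have hsup : sSup (y '' Ioo 0 1) ≤ 1 + 4 * (Θ * ε) + 2 * (Θ * ε) * sSup (y '' Ioo 0 1) := by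
    refine csSup_le ⟨_, ⟨1 / 2, ⟨by norm_num, by norm_num⟩, rfl⟩⟩ ?_
    rintro _ ⟨x, hx, rfl⟩
    have p0 := mul_nonneg hδ hZ0
    rcases le_total x (1 / 2) with h | h
    · have k := (abs_le.1 (h1 x ⟨hx.1, h⟩).1).2
      have : y x / x ≤ 1 + 4 * (Θ * ε) := by linarith
      rw [div_le_iff₀ hx.1] at this
      nlinarith [hx.2]
    · have k := (abs_le.1 (key _ hle x ⟨h, hx.2⟩)).2
      nlinarith [hx.2]
  have hsup2 : sSup (y '' Ioo 0 1) ≤ 107 / 100 := by nlinarith
  intro x hx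
  rcases le_total x (1 / 2) with h | h
  · have := (h1 x ⟨hx.1, h⟩).1
    linarith
  · have k := key _ hle x ⟨h, hx.2⟩
    rw [div_sub_one hx.1.ne', abs_div, abs_of_pos hx.1, div_le_iff₀ hx.1]
    nlinarith [mul_le_mul_of_nonneg_left hsup2 hδ, mul_le_mul_of_nonneg_left h hδ]

theorem green_le {t x s : ℝ} (ht : 0 < t) (ht2 : t < 1 / 2) (hx : x ∈ Icc t (1 - t))
    (hs : s ∈ Ioo t (1 - t)) :
    |green t (1 - t) x s| ≤ √(x * (1 - x)) * √(s * (1 - s)) / (1 - 2 * t) := by
  have p : 0 < 1 - t - t := by linarith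
  have a1 : 0 ≤ min x s - t := by
    have := le_min hx.1 hs.1.le
    linarith
  have a2 : 0 ≤ 1 - t - max x s := by
    have := max_le hx.2 hs.2.le
    linarith
  unfold green
  rw [abs_of_nonneg (div_nonneg (mul_nonneg a1 a2) p.le), show 1 - 2 * t = 1 - t - t by ring]
  refine div_le_div_of_nonneg_right ?_ p.le
  have x0 : 0 ≤ x := by linarith [hx.1]
  have x1 : 0 ≤ 1 - x := by linarith [hx.2]
  have s0 : 0 ≤ s := by linarith [hs.1]
  have s1 : 0 ≤ 1 - s := by linarith [hs.2]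
  rw [← Real.sqrt_mul (mul_nonneg x0 x1)]
  refine le_trans (mul_le_mul (by linarith : min x s - t ≤ min x s)
    (by linarith : 1 - t - max x s ≤ 1 - max x s) a2 (by linarith)) (Real.le_sqrt_of_sq_le ?_)
  rcases le_total x s with h | h
  · rw [min_eq_left h, max_eq_right h]
    nlinarith [mul_nonneg (mul_nonneg x0 s1) (sub_nonneg.2 h)]
  · rw [min_eq_right h, max_eq_left h]
    nlinarith [mul_nonneg (mul_nonneg s0 x1) (sub_nonneg.2 h)]

end Rig

open Rig in
theorem rig_ok (hG : StGreen) (hN : StNorm) : StRig := by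
  refine ⟨fun y y' y'' F Θ ε Y hΘ hc hF hs hy hb =>
    ⟨first hN y y' y'' F Θ ε Y hΘ hc hF hs hy hb, fun ht x hx => ?_⟩,
    fun z z' z'' F Γ ε hΓ hc hF h0 h1 hb x hx => ?_⟩
  · have hm : ∀ x ∈ Ioo (0 : ℝ) 1, 1 - x ∈ Ioo (0 : ℝ) 1 := fun x hx =>
      ⟨by linarith [hx.2], by linarith [hx.1]⟩
    have hr : Tendsto (fun x : ℝ => 1 - x) (𝓝[>] 0) (𝓝[<] 1) := by
      refine tendsto_nhdsWithin_iff.2 ⟨?_, ?_⟩
      · have : Tendsto (fun x : ℝ => 1 - x) (𝓝 0) (𝓝 (1 - 0)) :=
          (continuous_const.sub continuous_id).tendsto 0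
        rw [sub_zero] at this
        exact this.mono_left nhdsWithin_le_nhds
      · filter_upwards [self_mem_nhdsWithin] with x hx
        have : 0 < x := hx
        show 1 - x < 1
        linarith
    have := first hN (fun x => y (1 - x)) (fun x => -y' (1 - x)) (fun x => y'' (1 - x))
      (fun x => F (1 - x)) Θ ε Y hΘ
      ⟨fun x hx => by
        have := (hc.d1 _ (hm x hx)).comp x ((hasDerivAt_id x).const_sub 1)
        exact this.congr_deriv (by simp),
      fun x hx => by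
        have := ((hc.d2 _ (hm x hx)).comp x ((hasDerivAt_id x).const_sub 1)).neg
        exact this.congr_deriv (by simp),
      hc.c2.comp (continuousOn_const.sub continuousOn_id) hm⟩
      (cheap_refl hF) hs (fun x hx => hy _ (hm x hx))
      (fun x hx => by
        have := hb _ (hm x hx)
        rwa [sub_sub_cancel, mul_comm (1 - x) x] at this)
      (by
        have := ht.comp hr
        refine this.congr fun x => ?_
        simp) (1 - x) (hm x hx)
    simpa using this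
  · have hl : Tendsto (fun t : ℝ => |chord z t (1 - t) x - z x|) (𝓝[>] 0) (𝓝 |z x|) := by
      have i0 : Tendsto (fun t : ℝ => t) (𝓝[>] 0) (𝓝 0) := tendsto_id.mono_left nhdsWithin_le_nhds
      have hr : Tendsto (fun x : ℝ => 1 - x) (𝓝[>] 0) (𝓝[<] 1) := by
        refine tendsto_nhdsWithin_iff.2 ⟨by simpa using i0.const_sub 1, ?_⟩
        filter_upwards [self_mem_nhdsWithin] with x hx
        have : 0 < x := hx
        show 1 - x < 1
        linarith
      have := (((((i0.const_sub 1).sub_const x).mul h0).add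
        ((i0.const_sub x).mul (h1.comp hr))).div ((i0.const_sub 1).sub i0)
          (by norm_num)).sub_const (z x)
      have := this.abs
      simp only [mul_zero, add_zero, zero_div, zero_sub, abs_neg] at this
      exact this
    have hr : Tendsto (fun t : ℝ => ε * (Γ * √(x * (1 - x)) / (1 - 2 * t))) (𝓝[>] 0)
        (𝓝 (√(x * (1 - x)) * (Γ * ε))) := by
      have i0 : Tendsto (fun t : ℝ => t) (𝓝[>] 0) (𝓝 0) := tendsto_id.mono_left nhdsWithin_le_nhds
      have := ((tendsto_const_nhds (x := Γ * √(x * (1 - x)))).div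
        ((i0.const_mul 2).const_sub 1) (by norm_num)).const_mul ε
      rw [show √(x * (1 - x)) * (Γ * ε) = ε * (Γ * √(x * (1 - x)) / (1 - 2 * 0)) by ring]
      exact this
    refine le_of_tendsto_of_tendsto hl hr ?_
    have hp : 0 < min (1 / 2) (min x (1 - x)) := lt_min (by norm_num) (lt_min hx.1 (by linarith [hx.2]))
    filter_upwards [Ioo_mem_nhdsGT hp] with t ht
    have t1 : t < 1 / 2 := lt_of_lt_of_le ht.2 (min_le_left _ _)
    have t2 : t < x := lt_of_lt_of_le ht.2 (le_trans (min_le_right _ _) (min_le_left _ _))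
    have t3 : t < 1 - x := lt_of_lt_of_le ht.2 (le_trans (min_le_right _ _) (min_le_right _ _))
    have hxt : x ∈ Icc t (1 - t) := ⟨t2.le, by linarith⟩
    show |chord z t (1 - t) x - z x| ≤ _
    rw [hG z z' z'' t (1 - t) x (by linarith)
      (c2_sub hc (fun s hs => ⟨by linarith [hs.1, ht.1], by linarith [hs.2, ht.1]⟩)) hxt]
    have p : 0 < 1 - 2 * t := by linarith
    refine int_bound (cheap_sub hF ht.1.le (by linarith [ht.1])) (by positivity) fun s hs => ?_
    have hs' : s ∈ Ioo (0 : ℝ) 1 := ⟨by linarith [hs.1, ht.1], by linarith [hs.2, ht.1]⟩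
    have q : 0 < √(s * (1 - s)) := Real.sqrt_pos.2 (mul_pos hs'.1 (by linarith [hs'.2]))
    rw [abs_mul]
    refine le_trans (mul_le_mul (green_le ht.1 t1 hxt hs) (hb s hs') (abs_nonneg _)
      (by positivity)) (le_of_eq ?_)
    field_simp

end Pool.Agent.P.MP_2cea5e_gt.I
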