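import Pool.Agent.P.MP_2cea5e_gt.I.St2

/-!
Chapter I, section 2 (Start): definitions and statements.
-/

open scoped ContDiff Topology ENNReal
open MeasureTheory Set Filter

noncomputable section

set_option linter.dupNamespace false

namespace Pool.Agent.P.MP_2cea5e_gt.I.S4

abbrev tLL : Ty := (false, false)
abbrev tPL : Ty := (true, false)
abbrev tPP : Ty := (true, true)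

/-- The data at one time `t`: type `τ`, and the set `A` lies in the domain. -/
structure SK (τ : Ty) (A : Set (ℝ × ℝ)) (d : Dm) (u F : X → ℝ) (t : ℝ) : Prop where
  gs : GS d u F
  tI : t ∈ d.I
  ty : d.τ = τ
  sub : A ⊆ d.O

/-- Curvature energy. -/
def En (F : X → ℝ) (t : ℝ) (A : Set (ℝ × ℝ)) : ℝ := ∫ y in A, F (t, y) ^ 2
/-- `det ^ (-1/4)`. -/
def dq (u : X → ℝ) : X → ℝ := fun p => (√(√(W u p)))⁻¹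
def Dt (u : X → ℝ) (t : ℝ) (A : Set (ℝ × ℝ)) : ℝ := ∫ y in A, dq u (t, y)
/-- The entries of the normalised Hessian are within `δ` of the identity. -/
def NE (τ : Ty) (u : X → ℝ) (δ : ℝ) (p : X) : Prop :=
  |o1 τ p * h11 u p - 1| ≤ δ ∧ |o2 τ p * h22 u p - 1| ≤ δ ∧ √(o1 τ p * o2 τ p) * |h12 u p| ≤ δ
/-- Closed rectangle at an edge. -/
def rc (a L : ℝ) : Set (ℝ × ℝ) := Icc 0 a ×ˢ Icc (-L) L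
/-- Open rectangle. -/
def ro (a a' L : ℝ) : Set (ℝ × ℝ) := Ioo a a' ×ˢ Ioo (-L) L
/-- Open square at the vertex. -/
def qo (r : ℝ) : Set (ℝ × ℝ) := Ioo 0 r ×ˢ Ioo 0 r
/-- Closed square at the vertex. -/
def qc (r : ℝ) : Set (ℝ × ℝ) := Icc 0 r ×ˢ Icc 0 r
/-- Tangential second difference. -/
def TT (u : X → ℝ) (t x L : ℝ) : ℝ := u (t, x, L) + u (t, x, -L) - 2 * u (t, x, 0)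
/-- Normal second difference. -/
def N3 (u : X → ℝ) (t z b : ℝ) : ℝ := u (t, z / 4, b) - 2 * u (t, z / 2, b) + u (t, 3 * z / 4, b)
def mu0 : ℝ := (1 / 2) ^ 200
/-- The point of the antidiagonal `y₁ + y₂ = s`. -/
def ad (s b : ℝ) : ℝ × ℝ := (s * (1 - b), s * b)
def tri (η R : ℝ) : Set (ℝ × ℝ) := {y | 0 < y.1 ∧ 0 < y.2 ∧ η < y.1 + y.2 ∧ y.1 + y.2 < R}
def trc (R : ℝ) : Set (ℝ × ℝ) := {y | 0 ≤ y.1 ∧ 0 ≤ y.2 ∧ y.1 + y.2 ≤ R}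
/-- The radial second derivative `s u_{ww}` at `s w`, `w = (1 - b, b)`. -/
def rad (u : X → ℝ) (t s b : ℝ) : ℝ := s * hq u (1 - b, b) (t, ad s b)
def Vi (u : X → ℝ) (t r : ℝ) : ℝ≥0∞ :=
  ∫⁻ q in Ioo (0 : ℝ) 4 ×ˢ Ioo (1 / 4 : ℝ) (3 / 4), ENNReal.ofReal (rad u t (r * q.1) q.2)

/-- A frame at time `t` in which `u` is uniformly close to the model. -/
structure Good (d : Dm) (u : X → ℝ) (t : ℝ) (τ : Ty) (A : Set (ℝ × ℝ)) (ρ₀ ε : ℝ) (fr : Fr) :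
    Prop where
  t1 : fr.t1 = t
  cp : fr.Cp d.τ τ
  lo : ρ₀ ≤ fr.ρ
  hi : fr.ρ ≤ ε
  fac : fr.ρ ^ 4 ≤ ε * |fr.det|
  mp : MapsTo fr.sp (bxc τ 1) A
  cl : ∀ y ∈ bx τ 1, |wv τ (fr.pull u) (0, y)| ≤ ε

/-- The conclusion of `StStart` for the frame `fr` of type `τ`. -/
def Fin (d : Dm) (u F : X → ℝ) (T₀ T Λ ε : ℝ) (τ : Ty) (fr : Fr) : Prop :=
  fr.t1 = T ∧ fr.Cp d.τ τ ∧ bxc τ 1 ⊆ (fr.dm d τ).O ∧ T₀ ≤ T - fr.ρ ^ 4 ∧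
    ∀ s ∈ Ioo (-1 : ℝ) 0, (∫ y in bx τ 1, fr.pullF F (s, y) ^ 2 ≤ Λ) ∧
      ∫ y in bx τ 1, wv τ (fr.pull u) (s, y) ^ 2 ≤ ε ^ 2

/-! ### Filling -/

def StFill : Prop := ∀ ε : ℝ, 0 < ε → ∃ δ : ℝ, 0 < δ ∧
  ∀ (b : Bool) (d : Dm) (u F : X → ℝ) (t : ℝ) (G : Set ℝ),
  SK (b, false) (bxc (b, false) 2) d u F t → volume (Ioo (-2 : ℝ) 2 \ G) < ENNReal.ofReal δ →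
  (∀ c ∈ G, c ∈ Ioo (-2 : ℝ) 2 → ∀ x ∈ iv b 2, NE (b, false) u δ (t, x, c)) →
  En F t (bx (b, false) 2) ≤ δ →
  ∃ l₀ l₁ l₂ : ℝ, ∀ y ∈ bx (b, false) 1, |wv (b, false) u (t, y) - af l₀ l₁ l₂ (t, y)| ≤ ε

/-! ### Interior points -/

def StLLa : Prop := ∀ (Λ θ : ℝ) (d : Dm) (u F : X → ℝ) (t a₀ b₀ : ℝ), 1 ≤ Λ → 0 < θ →
  θ ≤ 1 / 100 → SK tLL (bxc tLL 1) d u F t →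
  (∀ y ∈ bxc tLL 1, |D e1 u (t, y)| ≤ Λ ∧ |D e2 u (t, y)| ≤ Λ) → |a₀| ≤ θ → |b₀| ≤ θ →
  Cheap (fun y => F (t, a₀, y)) (-1) 1 (1 / (200 * Λ)) →
  Cheap (fun x => F (t, x, b₀)) (-1) 1 (1 / (200 * Λ)) →
  h11 u (t, a₀, b₀) ≤ 16 * Λ ∧ h22 u (t, a₀, b₀) ≤ 16 * Λ ∧
  ∀ a b : ℝ, |a| ≤ θ → |b| ≤ θ →
    (Cheap (fun x => F (t, x, b)) (-1) 1 (1 / (200 * Λ)) ∨
      Cheap (fun y => F (t, a, y)) (-1) 1 (1 / (200 * Λ))) →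
    ∀ e, hq u e (t, a, b) ≤ (1 + 100 * θ) * hq u e (t, a₀, b₀) ∧
      hq u e (t, a₀, b₀) ≤ (1 + 100 * θ) * hq u e (t, a, b)

def StLLb : Prop := ∀ Λ ε : ℝ, 1 ≤ Λ → 0 < ε → ∃ θ η : ℝ, 0 < θ ∧ θ ≤ 1 / 100 ∧ 0 < η ∧
  ∀ D₀ : ℝ, 0 < D₀ → ∃ ρ₀ : ℝ, 0 < ρ₀ ∧
  ∀ (d : Dm) (u F : X → ℝ) (t : ℝ) (y₀ : ℝ × ℝ) (G : Set ℝ), SK tLL (bxc tLL θ) d u F t →
  En F t (bx tLL θ) ≤ Λ → Dt u t (bx tLL θ) ≤ D₀ → y₀ ∈ bxc tLL θ →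
  h22 u (t, y₀) ≤ h11 u (t, y₀) → h11 u (t, y₀) ≤ 16 * Λ →
  volume (Ioo (-θ) θ \ G) < ENNReal.ofReal η →
  (∀ b ∈ G, |b| ≤ θ → ∀ a : ℝ, |a| ≤ θ → ∀ e, hq u e (t, a, b) ≤ (1 + 100 * θ) * hq u e (t, y₀) ∧
    hq u e (t, y₀) ≤ (1 + 100 * θ) * hq u e (t, a, b)) →
  ∃ fr : Fr, fr.p = 0 ∧ Good d u t tLL (bxc tLL θ) ρ₀ ε fr

def StLLc : Prop := ∀ Λ ε : ℝ, 1 ≤ Λ → 0 < ε → ∃ η e : ℝ, 0 < η ∧ η < 1 ∧ 0 < e ∧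
  ∀ D₀ : ℝ, 0 < D₀ → ∃ ρ₀ : ℝ, 0 < ρ₀ ∧
  ∀ (d : Dm) (u F : X → ℝ) (t : ℝ), SK tLL (bxc tLL 1) d u F t →
  (∀ y ∈ bxc tLL 1, |D e1 u (t, y)| ≤ Λ ∧ |D e2 u (t, y)| ≤ Λ) → En F t (bx tLL 1) ≤ Λ →
  En F t (bx tLL 1 \ bxc tLL η) ≤ e → Dt u t (bx tLL 1) ≤ D₀ →
  ∃ fr : Fr, fr.p = 0 ∧ Good d u t tLL (bxc tLL 1) ρ₀ ε fr

def StLL : Prop := ∀ Λ r₀ ε : ℝ, 1 ≤ Λ → 0 < r₀ → r₀ ≤ 1 → 0 < ε → ∃ ρ₀ : ℝ, 0 < ρ₀ ∧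
  ∀ (d : Dm) (u F : X → ℝ) (t : ℝ), SK tLL (bxc tLL r₀) d u F t →
  (∀ y ∈ bxc tLL r₀, |D e1 u (t, y)| ≤ Λ ∧ |D e2 u (t, y)| ≤ Λ) → En F t (bx tLL r₀) ≤ Λ →
  Dt u t (bx tLL r₀) ≤ Λ →
  ∃ fr : Fr, fr.p = 0 ∧ Good d u t tLL (bxc tLL r₀) ρ₀ ε fr

/-! ### Edge points -/

def StStrA : Prop := ∀ (d : Dm) (u F : X → ℝ) (t a b Θ ε κ : ℝ), 0 < a → 0 < Θ → 0 < κ →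
  SK tPL (Icc 0 (2 * a) ×ˢ {b}) d u F t → D e1 u (t, 2 * a, b) - D e1 u (t, a, b) ≤ Θ / 4 →
  Cheap (fun x => F (t, x, b)) 0 (2 * a) ε → Θ * ε ≤ 1 / 16 →
  ∫⁻ x in Ioo (a / 4) (a / 2), ENNReal.ofReal (dq u (t, x, b)) ≤ ENNReal.ofReal κ →
  ∀ x ∈ Ioc 0 a, 1 ≤ 32 * Θ / a * (4 * κ / a) ^ 4 * h22 u (t, x, b)

/-- Quantitative strict convexity along the edge. -/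
def Strict (u : X → ℝ) (t c L₀ : ℝ) : Prop :=
  ∀ L ∈ Ioc 0 L₀, ∀ x : ℝ, 0 < x → x ≤ c * L ^ 2 → c * L ^ 20 ≤ TT u t x L

def StStrict : Prop := ∀ a₀ L₀ Λ : ℝ, 0 < a₀ → a₀ ≤ 1 → 0 < L₀ → L₀ ≤ 1 → 1 ≤ Λ →
  ∃ c : ℝ, 0 < c ∧ ∀ (d : Dm) (u F : X → ℝ) (t : ℝ), SK tPL (rc a₀ L₀) d u F t →
  (∀ y ∈ ro 0 a₀ L₀, |D e1 u (t, y)| ≤ Λ * (1 - Real.log y.1)) → En F t (ro 0 a₀ L₀) ≤ Λ →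
  Dt u t (ro 0 a₀ L₀) ≤ Λ → Strict u t c L₀

def StPLa : Prop := ∀ a₀ L₀ Λ c : ℝ, 0 < a₀ → a₀ ≤ 1 → 0 < L₀ → L₀ ≤ 1 → 1 ≤ Λ → 0 < c →
  ∃ V : ℝ, 0 < V ∧ ∀ σ e : ℝ, 0 < σ → 0 < e → ∃ zm : ℝ, 0 < zm ∧
  ∀ (d : Dm) (u F : X → ℝ) (t : ℝ), SK tPL (rc a₀ L₀) d u F t →
  (∀ y ∈ ro 0 a₀ L₀, |D e1 u (t, y)| ≤ Λ * (1 - Real.log y.1) ∧ |D e2 u (t, y)| ≤ Λ) →
  En F t (ro 0 a₀ L₀) ≤ Λ → Strict u t c L₀ →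
  ∃ z L : ℝ, zm ≤ z ∧ z ≤ a₀ ∧ 0 < L ∧ L ≤ L₀ ∧ z ≤ 4 * Λ * L ∧
    (∀ x ∈ Ioc 0 z, TT u t x L ≤ z) ∧ (∃ x ∈ Ioc 0 (mu0 * z), mu0 * z < TT u t x (L / 8)) ∧
    N3 u t z 0 ≤ V * z ∧ En F t (ro (σ * z) z L₀) ≤ e

def StPLb1 : Prop := ∀ (V : ℝ) (d : Dm) (u F : X → ℝ) (t b ε : ℝ), 0 ≤ V →
  SK tPL (rc 1 1) d u F t → (∀ x ∈ Ioc (0 : ℝ) 1, TT u t x 1 ≤ 1) → N3 u t 1 0 ≤ V → |b| ≤ 1 →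
  Cheap (fun x => F (t, x, b)) 0 1 ε → 64 * (2 * V + 4) * ε ≤ 1 / 10 →
  ∀ x ∈ Ioc (0 : ℝ) (1 / 4), h11 u (t, x, b) ≤ 64 * (2 * V + 4) / x ∧
    |i11 u (t, x, b) / x - 1| ≤ 2 * (64 * (2 * V + 4) * ε)

def StPLb2 : Prop := ∀ Θ : ℝ, 1 ≤ Θ → ∃ s₀ C₂ : ℝ, 0 < s₀ ∧ s₀ ≤ 1 / 16 ∧ 1 ≤ C₂ ∧
  ∀ (d : Dm) (u F : X → ℝ) (t ε : ℝ) (G H : Set ℝ), SK tPL (rc 1 1) d u F t →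
  (∃ x ∈ Ioc 0 mu0, mu0 < TT u t x (1 / 8)) →
  volume (Ioo (-1 : ℝ) 1 \ G) < ENNReal.ofReal (1 / 16) →
  (∀ b ∈ G, b ∈ Ioo (-1 : ℝ) 1 → Cheap (fun x => F (t, x, b)) 0 1 ε ∧
    ∀ x ∈ Ioc (0 : ℝ) (1 / 4), h11 u (t, x, b) ≤ Θ / x ∧ i11 u (t, x, b) ≤ 2 * x) →
  Θ * ε ≤ s₀ / 2 → volume (Ioo (s₀ / 2) 1 \ H) < ENNReal.ofReal (s₀ / 2) →
  (∀ x ∈ H, x ∈ Ioo (s₀ / 2) 1 → Cheap (fun y => F (t, x, y)) (-1) 1 1) →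
  ∀ b ∈ G, b ∈ Ioo (-1 : ℝ) 1 → ∀ x ∈ Ioc (0 : ℝ) (1 / 4), i22 u (t, x, b) ≤ C₂

def StPLb3 : Prop := ∀ Θ C₂ Λ ε : ℝ, 1 ≤ Θ → 1 ≤ C₂ → 1 ≤ Λ → 0 < ε →
  ∃ ρ δ : ℝ, 0 < ρ ∧ ρ ≤ 1 / 8 ∧ 0 < δ ∧
  ∀ (d : Dm) (u F : X → ℝ) (t x₂ : ℝ) (G : Set ℝ), SK tPL (rc 1 1) d u F t →
  En F t (ro 0 1 1) ≤ Λ → x₂ ∈ Icc (ρ ^ 2) (2 * ρ ^ 2) → TT u t x₂ 1 ≤ 1 →
  Cheap (fun y => F (t, x₂, y)) (-1) 1 (1 / 200) →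
  volume (Ioo (-1 : ℝ) 1 \ G) < ENNReal.ofReal δ →
  (∀ b ∈ G, b ∈ Ioo (-1 : ℝ) 1 → Cheap (fun x => F (t, x, b)) 0 1 δ ∧
    ∀ x ∈ Ioc (0 : ℝ) (1 / 4), h11 u (t, x, b) ≤ Θ / x ∧
      |i11 u (t, x, b) / x - 1| ≤ 2 * (Θ * δ) ∧ i22 u (t, x, b) ≤ C₂) →
  ∃ fr : Fr, fr.p = 0 ∧ Good d u t tPL (rc 1 1) ρ ε fr

def StPLb : Prop := ∀ V Λ ε : ℝ, 0 < V → 1 ≤ Λ → 0 < ε → ∃ σ e ρ₀ : ℝ, 0 < σ ∧ 0 < e ∧ 0 < ρ₀ ∧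
  ∀ (d : Dm) (u F : X → ℝ) (t : ℝ), SK tPL (rc 1 1) d u F t →
  (∀ x ∈ Ioc (0 : ℝ) 1, TT u t x 1 ≤ 1) → (∃ x ∈ Ioc 0 mu0, mu0 < TT u t x (1 / 8)) →
  N3 u t 1 0 ≤ V → En F t (ro 0 1 1) ≤ Λ → En F t (ro σ 1 1) ≤ e →
  ∃ fr : Fr, fr.p = 0 ∧ Good d u t tPL (rc 1 1) ρ₀ ε fr

def StPL : Prop := ∀ a₀ L₀ Λ ε : ℝ, 0 < a₀ → a₀ ≤ 1 → 0 < L₀ → L₀ ≤ 1 → 1 ≤ Λ → 0 < ε →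
  ∃ ρ₀ : ℝ, 0 < ρ₀ ∧ ∀ (d : Dm) (u F : X → ℝ) (t : ℝ), SK tPL (rc a₀ L₀) d u F t →
  (∀ y ∈ ro 0 a₀ L₀, |D e1 u (t, y)| ≤ Λ * (1 - Real.log y.1) ∧ |D e2 u (t, y)| ≤ Λ) →
  En F t (ro 0 a₀ L₀) ≤ Λ → Dt u t (ro 0 a₀ L₀) ≤ Λ →
  ∃ fr : Fr, fr.p = 0 ∧ Good d u t tPL (rc a₀ L₀) ρ₀ ε fr

/-! ### The vertex -/

def StAnti : Prop := ∀ (d : Dm) (u F : X → ℝ) (t s V ε : ℝ), 0 < s → 1 ≤ V →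
  SK tPP (ad s '' Icc 0 1) d u F t → Cheap (fun b => s * F (t, ad s b)) 0 1 ε →
  ∫⁻ b in Ioo (1 / 4 : ℝ) (3 / 4), ENNReal.ofReal (rad u t s b) ≤ ENNReal.ofReal V →
  V * ε ≤ 1 / 10 ^ 6 → ∀ b ∈ Ioo (0 : ℝ) 1, NE tPP u (400000 * (V * ε)) (t, ad s b)

def StPPg : Prop := ∀ η δ : ℝ, 0 < η → η ≤ 1 / 100 → 0 < δ → ∃ γ : ℝ, 0 < γ ∧
  ∀ (d : Dm) (u F : X → ℝ) (t h₁ h₂ : ℝ) (G : Set ℝ), SK tPP (trc 4) d u F t →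
  volume (Ioo η 4 \ G) < ENNReal.ofReal γ →
  (∀ s ∈ G, s ∈ Ioo η 4 → ∀ b ∈ Ioo (0 : ℝ) 1, NE tPP u γ (t, ad s b)) →
  h₁ ∈ Icc η (2 * η) → h₂ ∈ Icc η (2 * η) →
  Cheap (fun y => F (t, h₁, y)) 0 (7 / 2) (1 / 2) → Cheap (fun x => F (t, x, h₂)) 0 (7 / 2) (1 / 2) →
  ∃ l₀ l₁ l₂ : ℝ, ∀ s ∈ G, s ∈ Icc (3 * η) 3 → ∀ b ∈ Ioo (0 : ℝ) 1,
    |wv tPP u (t, ad s b) - af l₀ l₁ l₂ (t, ad s b)| ≤ δ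

def StPPf : Prop := ∀ V ε : ℝ, 0 < V → 0 < ε → ∃ η δ : ℝ, 0 < η ∧ η ≤ 1 / 100 ∧ 0 < δ ∧
  ∀ (d : Dm) (u F : X → ℝ) (t l₀ l₁ l₂ b₀ : ℝ) (G : Set ℝ), SK tPP (trc 4) d u F t →
  volume (Ioo η 4 \ G) < ENNReal.ofReal δ →
  (∀ s ∈ G, s ∈ Icc (3 * η) 3 → ∀ b ∈ Ioo (0 : ℝ) 1,
    |wv tPP u (t, ad s b) - af l₀ l₁ l₂ (t, ad s b)| ≤ δ) → b₀ ∈ Ioo (0 : ℝ) 1 →
  ∫⁻ s in Ioo (0 : ℝ) 4, ENNReal.ofReal (rad u t s b₀) ≤ ENNReal.ofReal V →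
  ∫ y in bx tPP 1, (wv tPP u (t, y) - af l₀ l₁ l₂ (t, y)) ^ 2 ≤ ε

def StPP1 : Prop := ∀ V ε : ℝ, 0 < V → 0 < ε → ∃ η e : ℝ, 0 < η ∧ η ≤ 1 / 100 ∧ 0 < e ∧
  ∀ (d : Dm) (u F : X → ℝ) (t : ℝ), SK tPP (trc 4) d u F t → Vi u t 1 ≤ ENNReal.ofReal V →
  En F t (tri η 4) ≤ e →
  ∃ l₀ l₁ l₂ : ℝ, ∫ y in bx tPP 1, (wv tPP u (t, y) - af l₀ l₁ l₂ (t, y)) ^ 2 ≤ ε

def StPPv : Prop := ∃ C : ℝ, 0 < C ∧ ∀ (Λ : ℝ) (n : ℕ) (d : Dm) (u F : X → ℝ) (t : ℝ), 0 ≤ Λ →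
  4 ≤ n → SK tPP (trc (16 * (1 / 2) ^ n)) d u F t →
  (∀ y ∈ tri 0 (16 * (1 / 2) ^ n), |D e1 u (t, y)| ≤ Λ * (1 - Real.log (min y.1 y.2)) ∧
    |D e2 u (t, y)| ≤ Λ * (1 - Real.log (min y.1 y.2))) →
  ∑ j ∈ Finset.Ico n (2 * n), Vi u t ((1 / 2) ^ j) ≤ ENNReal.ofReal (C * Λ * n)

/-- Oscillation on a small square at the vertex. -/
def StOsc2 : Prop := ∀ (Λ ρ : ℝ) (d : Dm) (u F : X → ℝ) (t : ℝ), 0 ≤ Λ → 0 < ρ →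
  SK tPP (qc (2 * ρ)) d u F t →
  (∀ y ∈ qo (2 * ρ), |D e1 u (t, y)| ≤ Λ * (1 - Real.log (min y.1 y.2)) ∧
    |D e2 u (t, y)| ≤ Λ * (1 - Real.log (min y.1 y.2))) →
  ∀ y ∈ qo (2 * ρ), |u (t, y) - u (t, ρ, ρ)| ≤ 2 * Λ * ρ * (5 - Real.log ρ)

/-! ### Time -/

def StDr1 : Prop := ∀ (d : Dm) (u F : X → ℝ) (A : Set (ℝ × ℝ)) (t t' s c : ℝ), GS d u F →
  Reg d A → uIcc t' t ⊆ d.I → s ∈ d.I →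
  ∫ y in A, (u (t, y) - u (t', y) - (t - t') * (c * D e0 u (s, y))) ^ 2 ≤
    |t - t'| * |∫ r in t'..t, ∫ y in A, (D e0 u (r, y) - c * D e0 u (s, y)) ^ 2|

def StTime : Prop := ∀ (d : Dm) (u F : X → ℝ) (T₀ T Λ ε : ℝ), CS d u F T₀ T Λ → 0 < ε →
  ∃ ε' : ℝ, 0 < ε' ∧ ∀ (τ : Ty) (fr : Fr) (ρ₀ t' : ℝ) (A : Set (ℝ × ℝ)), 0 < ρ₀ → t' ∈ d.I →
  T - t' < ρ₀ ^ 4 → bxc τ 1 ⊆ (fr.dm d τ).O → Good d u t' τ A ρ₀ ε' fr →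
  Fin d u F T₀ T Λ ε τ (fr.atT T)

def StPPd : Prop := ∀ (d : Dm) (u F : X → ℝ) (T₀ T Λ r ρ t t' α γ : ℝ), CS d u F T₀ T Λ →
  0 < ρ → 2 * ρ ≤ r → r ≤ 1 / 2 → qc (2 * r) ⊆ d.O → T - r ^ 2 ∈ d.I →
  t ∈ Ioo (T - r ^ 2) T → t' ∈ Ioo (T - r ^ 2) T →
  ∫ y in qo r \ qo ρ, D e0 u (T - r ^ 2, y) ^ 2 ≤ α →
  (∀ s ∈ Ioo (T - r ^ 2) T,
    (∫ y in d.S, D e0 u (T - r ^ 2, y) ^ 2) - ∫ y in d.S, D e0 u (s, y) ^ 2 ≤ γ) →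
  ∫ y in qo r, (u (t, y) - u (t', y)) ^ 2 ≤
    6 * r ^ 4 * (α + γ) + 128 * Λ ^ 2 * ρ ^ 4 * (5 - Real.log ρ) ^ 2

/-- The choice of the scale at the vertex. -/
def StPPj : Prop := ∀ (d : Dm) (u F : X → ℝ) (T₀ T Λ : ℝ), CS d u F T₀ T Λ → (0 : ℝ × ℝ) ∈ d.O →
  ∃ V : ℝ, 0 < V ∧ ∀ η e γ : ℝ, 0 < η → 0 < e → 0 < γ →
  ∃ r t' : ℝ, 0 < r ∧ trc (4 * r) ⊆ d.O ∧ T₀ < T - r ^ 2 ∧ t' ∈ Ioo (T - r ^ 2) T ∧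
    Vi u t' r ≤ ENNReal.ofReal V ∧ En F t' (tri (η * r) (4 * r)) ≤ e ∧
    ∀ t ∈ Ioo (T - r ^ 2) T, ∫ y in qo r, (u (t, y) - u (t', y)) ^ 2 ≤ γ * r ^ 4

def StStartLL : Prop := ∀ (d : Dm) (u F : X → ℝ) (T₀ T Λ ε : ℝ) (p : ℝ × ℝ), CS d u F T₀ T Λ →
  0 < ε → p ∈ d.O → 0 < p.1 → 0 < p.2 → ∃ fr : Fr, fr.p = p ∧ Fin d u F T₀ T Λ ε tLL fr

def StStartPL : Prop := ∀ (d : Dm) (u F : X → ℝ) (T₀ T Λ ε : ℝ) (p : ℝ × ℝ), CS d u F T₀ T Λ →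
  0 < ε → p ∈ d.O → p.1 = 0 → 0 < p.2 → ∃ fr : Fr, fr.p = p ∧ Fin d u F T₀ T Λ ε tPL fr

def StStartPP : Prop := ∀ (d : Dm) (u F : X → ℝ) (T₀ T Λ ε : ℝ), CS d u F T₀ T Λ →
  0 < ε → (0 : ℝ × ℝ) ∈ d.O → ∃ fr : Fr, fr.p = 0 ∧ Fin d u F T₀ T Λ ε tPP fr

end Pool.Agent.P.MP_2cea5e_gt.I.S4
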