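import Pool.Agent.P.MP_2cea5e_gt.I.Base

/-!
Chapter I: local solutions in the symplectic picture, frames.
-/

open scoped ContDiff Topology
open MeasureTheory Set Filter

noncomputable section

set_option linter.dupNamespace false

namespace Pool.Agent.P.MP_2cea5e_gt.I

def h11 (u : X → ℝ) : X → ℝ := D e1 (D e1 u)
def h12 (u : X → ℝ) : X → ℝ := D e1 (D e2 u)
def h22 (u : X → ℝ) : X → ℝ := D e2 (D e2 u)
def i11 (u : X → ℝ) : X → ℝ := h22 u * Iv (W u)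
def i12 (u : X → ℝ) : X → ℝ := -(h12 u * Iv (W u))
def i22 (u : X → ℝ) : X → ℝ := h11 u * Iv (W u)

/-- A spatial vector. -/
def sv (e : ℝ × ℝ) : X := (0, e)

/-- A field of symmetric matrices. -/
structure T2 where
  a : X → ℝ
  b : X → ℝ
  c : X → ℝ

/-- The bilinear form of the field. -/
def T2.ap (H : T2) (n n' : ℝ × ℝ) : X → ℝ := fun p =>
  H.a p * n.1 * n'.1 + H.b p * (n.1 * n'.2 + n.2 * n'.1) + H.c p * n.2 * n'.2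
/-- `H^{ij} f_{ij}`. -/
def T2.ctr (H : T2) (f : X → ℝ) : X → ℝ := H.a * h11 f + K 2 * H.b * h12 f + H.c * h22 f
/-- `∂_i ∂_j H^{ij}`. -/
def T2.dd (H : T2) : X → ℝ := h11 H.a + K 2 * h12 H.b + h22 H.c
/-- `H^{ij}_{kl} G^{kl}_{ij}`. -/
def T2.rr (H G : T2) : X → ℝ :=
  h11 H.a * h11 G.a + h22 H.c * h22 G.c + h22 H.a * h11 G.c + h11 H.c * h22 G.a +
    K 4 * h12 H.b * h12 G.b + K 2 * (h12 H.a * h11 G.b + h11 H.b * h12 G.a) +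
    K 2 * (h12 H.c * h22 G.b + h22 H.b * h12 G.c)
def T2.SmOn (H : T2) (U : Set X) : Prop :=
  ContDiffOn ℝ ∞ H.a U ∧ ContDiffOn ℝ ∞ H.b U ∧ ContDiffOn ℝ ∞ H.c U

/-- The Hessian. -/
def hs (u : X → ℝ) : T2 := ⟨h11 u, h12 u, h22 u⟩
/-- The inverse Hessian. -/
def iv2 (u : X → ℝ) : T2 := ⟨i11 u, i12 u, i22 u⟩
def hb (u : X → ℝ) (e e' : ℝ × ℝ) : X → ℝ := (hs u).ap e e'
def hq (u : X → ℝ) (e : ℝ × ℝ) : X → ℝ := hb u e e
def ib (u : X → ℝ) (n n' : ℝ × ℝ) : X → ℝ := (iv2 u).ap n n'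
def iq (u : X → ℝ) (n : ℝ × ℝ) : X → ℝ := ib u n n
/-- Abreu's operator. -/
def ab (u : X → ℝ) : X → ℝ := (iv2 u).dd
/-- The squared norm of the curvature. -/
def rm (u : X → ℝ) : X → ℝ := (iv2 u).rr (iv2 u)
/-- The curvature bound. -/
def fc (u : X → ℝ) : X → ℝ := fun p => 2 * √(rm u p)

/-- The difference to the flat model. -/
def wv (τ : Ty) (u : X → ℝ) : X → ℝ := u - u0 τ
/-- The excess density `tr X + tr X⁻¹ - 4`. -/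
def gex (τ : Ty) (u : X → ℝ) : X → ℝ := fun p =>
  o1 τ p * h11 u p + o2 τ p * h22 u p + i11 u p / o1 τ p + i22 u p / o2 τ p - 4
/-- `u^{ij} f_i f_j`. -/
def gu (u f : X → ℝ) : X → ℝ := fun p => iq u (D e1 f p, D e2 f p) p
/-- The Hessian form of the model. -/
def hq0 (τ : Ty) (e : ℝ × ℝ) : X → ℝ := fun p => e.1 ^ 2 / o1 τ p + e.2 ^ 2 / o2 τ p
/-- The Hessian is within the factor `1 + δ` of the model. -/
def NearH (τ : Ty) (u : X → ℝ) (δ : ℝ) (p : X) : Prop :=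
  ∀ e, hq u e p ≤ (1 + δ) * hq0 τ e p ∧ hq0 τ e p ≤ (1 + δ) * hq u e p
def Near (τ : Ty) (u : X → ℝ) (δ : ℝ) (p : X) : Prop :=
  NearH τ u δ p ∧ |D e1 (wv τ u) p| ≤ δ ∧ |D e2 (wv τ u) p| ≤ δ
/-- An affine function of the space variables. -/
def af (l₀ l₁ l₂ : ℝ) : X → ℝ := fun p => l₀ + l₁ * p.2.1 + l₂ * p.2.2
/-- A function frozen at time `s`. -/
def fz (s : ℝ) (f : X → ℝ) : X → ℝ := fun p => f (s, p.2)
/-- Restriction to a line. -/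
def ln (t : ℝ) (y e : ℝ × ℝ) (f : X → ℝ) : ℝ → ℝ := fun x => f (t, y + x • e)

/-- A local solution with Guillemin boundary behaviour, without the curvature bound. -/
structure GS0 (d : Dm) (u : X → ℝ) : Prop where
  bd : Bd d (wv d.τ u)
  cont : ContinuousOn u d.Uc
  p11 : ∀ p ∈ d.U, 0 < h11 u p
  nd : Lw d (o1 d.τ * o2 d.τ * W u)
  eqn : ∀ p ∈ d.U, D e0 u p = ab u p

/-- A local solution with curvature bound `F`. -/
structure GS (d : Dm) (u F : X → ℝ) : Prop extends GS0 d u where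
  lcF : Lc d F
  f1 : ∀ p ∈ d.U, ∀ e n, |D (sv e) (D (sv e) (iq u n)) p| ≤ F p * iq u n p * hq u e p
  f2 : ∀ p ∈ d.U, |D e0 u p| ≤ F p

/-- A field vanishing to the natural order along the faces. -/
def NT (d : Dm) (H : T2) (k₁ k₂ k₃ : X → ℝ) : Prop :=
  Bd d k₁ ∧ Bd d k₂ ∧ Bd d k₃ ∧ EqOn H.a (o1 d.τ * o1 d.τ * k₁) d.U ∧
    EqOn H.b (o1 d.τ * o2 d.τ * k₂) d.U ∧ EqOn H.c (o2 d.τ * o2 d.τ * k₃) d.U

/-- `u^{ij} - ω_i δ_{ij}`. -/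
def nn (τ : Ty) (u : X → ℝ) : T2 := ⟨i11 u - o1 τ, i12 u, i22 u - o2 τ⟩

/-- Vanishing near the outer faces of the unit box at time `t`. -/
def Van (τ : Ty) (f : X → ℝ) (t : ℝ) : Prop :=
  ∃ r, 0 < r ∧ r < 1 ∧ ∀ y ∈ bx τ 1, y ∉ bx τ r → f (t, y) = 0

/-- The data at one time, on the closed box of radius `r`. -/
structure SS (r : ℝ) (d : Dm) (u F : X → ℝ) (t : ℝ) : Prop where
  gs : GS d u F
  tI : t ∈ d.I
  bO : bxc d.τ r ⊆ d.O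

/-- A solution on the unit cylinder. -/
structure N0 (d : Dm) (u F : X → ℝ) : Prop where
  gs : GS d u F
  tI : Icc (-1) 0 ⊆ d.I
  bO : bxc d.τ 1 ⊆ d.O

/-- A solution on the unit cylinder with curvature energy at most `Λ`. -/
structure NS (Λ : ℝ) (d : Dm) (u F : X → ℝ) : Prop extends N0 d u F where
  en : ∀ t ∈ Icc (-1 : ℝ) 0, ∫ y in bx d.τ 1, F (t, y) ^ 2 ≤ Λ

def Close (d : Dm) (u : X → ℝ) (ε : ℝ) : Prop :=
  ∀ t ∈ Icc (-1 : ℝ) 0, ∫ y in bx d.τ 1, wv d.τ u (t, y) ^ 2 ≤ ε ^ 2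
def Exc (d : Dm) (u : X → ℝ) (ε : ℝ) : Prop :=
  Close d u ε ∧ ∫ t in (-1 : ℝ)..0, ∫ y in bx d.τ 1, gex d.τ u (t, y) ≤ ε ^ 2
/-- The sup bound away from the corner. -/
def SupB (d : Dm) (u : X → ℝ) (σ t : ℝ) : Prop :=
  ∀ y ∈ An d.τ (19 / 20) (1 / 10), |wv d.τ u (t, y)| ≤ σ

/-! ### Frames -/

structure Fr where
  t1 : ℝ
  ρ : ℝ
  p : ℝ × ℝ
  a : ℝ
  b : ℝ
  c : ℝ
  e : ℝ
  l0 : ℝ
  l1 : ℝ
  l2 : ℝ
  ρ_pos : 0 < ρ
  det_ne : a * e - b * c ≠ 0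

namespace Fr

variable (fr : Fr)

def det : ℝ := fr.a * fr.e - fr.b * fr.c
def S (y : ℝ × ℝ) : ℝ × ℝ := (fr.a * y.1 + fr.b * y.2, fr.c * y.1 + fr.e * y.2)
/-- The transpose. -/
def St (n : ℝ × ℝ) : ℝ × ℝ := (fr.a * n.1 + fr.c * n.2, fr.b * n.1 + fr.e * n.2)
def sp (y : ℝ × ℝ) : ℝ × ℝ := fr.p + fr.S y
def tm (t : ℝ) : ℝ := fr.t1 + fr.ρ ^ 4 * t
def fm (q : X) : X := (fr.tm q.1, fr.sp q.2)
def pull (u : X → ℝ) : X → ℝ := fun q => (u (fr.fm q) - af fr.l0 fr.l1 fr.l2 q) / fr.ρ ^ 2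
def pullF (F : X → ℝ) : X → ℝ := fun q => fr.ρ ^ 2 * F (fr.fm q)
/-- `ρ² S⁻¹ H S⁻ᵀ`. -/
def pullT (H : T2) : T2 where
  a := fun q => fr.ρ ^ 2 / fr.det ^ 2 * H.ap (fr.e, -fr.b) (fr.e, -fr.b) (fr.fm q)
  b := fun q => fr.ρ ^ 2 / fr.det ^ 2 * H.ap (fr.e, -fr.b) (-fr.c, fr.a) (fr.fm q)
  c := fun q => fr.ρ ^ 2 / fr.det ^ 2 * H.ap (-fr.c, fr.a) (-fr.c, fr.a) (fr.fm q)
/-- Compatibility with the faces. -/
def Cp (τ τ' : Ty) : Prop :=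
  (τ'.1 = true → τ.1 = true ∧ fr.p.1 = 0 ∧ fr.a = fr.ρ ^ 2 ∧ fr.b = 0 ∧ fr.c = 0) ∧
  (τ'.2 = true → τ.2 = true ∧ fr.p.2 = 0 ∧ fr.e = fr.ρ ^ 2 ∧ fr.b = 0 ∧ fr.c = 0)

theorem cont_sp : Continuous fr.sp := by unfold sp S; fun_prop
theorem cont_tm : Continuous fr.tm := by unfold tm; fun_prop

/-- The domain in the new coordinates. -/
def dm (d : Dm) (τ' : Ty) : Dm where
  τ := τ'
  I := fr.tm ⁻¹' d.I
  O := fr.sp ⁻¹' (d.O ∩ (if τ'.1 then univ else ok d.τ.1) ×ˢ (if τ'.2 then univ else ok d.τ.2))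
  oI := d.oI.preimage fr.cont_tm
  oO := (d.oO.inter (IsOpen.prod (by split_ifs; exacts [isOpen_univ, isOpen_ok _])
    (by split_ifs; exacts [isOpen_univ, isOpen_ok _]))).preimage fr.cont_sp

/-- The same frame based at another time. -/
def atT (T : ℝ) : Fr := { fr with t1 := T }

/-- First `fr`, then `fr'` in the coordinates of `fr`. -/
def comp (fr' : Fr) : Fr where
  t1 := fr.tm fr'.t1
  ρ := fr.ρ * fr'.ρ
  p := fr.sp fr'.p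
  a := fr.a * fr'.a + fr.b * fr'.c
  b := fr.a * fr'.b + fr.b * fr'.e
  c := fr.c * fr'.a + fr.e * fr'.c
  e := fr.c * fr'.b + fr.e * fr'.e
  l0 := fr.l0 + fr.l1 * fr'.p.1 + fr.l2 * fr'.p.2 + fr.ρ ^ 2 * fr'.l0
  l1 := fr.l1 * fr'.a + fr.l2 * fr'.c + fr.ρ ^ 2 * fr'.l1
  l2 := fr.l1 * fr'.b + fr.l2 * fr'.e + fr.ρ ^ 2 * fr'.l2
  ρ_pos := mul_pos fr.ρ_pos fr'.ρ_pos
  det_ne := by
    have := mul_ne_zero fr.det_ne fr'.det_ne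
    convert this using 1; ring

theorem comp_sp (fr' : Fr) (y : ℝ × ℝ) : (fr.comp fr').sp y = fr.sp (fr'.sp y) := by
  ext <;> simp [comp, sp, S] <;> ring
theorem comp_fm (fr' : Fr) (q : X) : (fr.comp fr').fm q = fr.fm (fr'.fm q) := by
  simp only [fm, comp_sp]
  congr 1
  simp [comp, tm]; ring
theorem comp_det (fr' : Fr) : (fr.comp fr').det = fr.det * fr'.det := by
  simp [comp, det]; ring
theorem comp_pull (fr' : Fr) (u : X → ℝ) : (fr.comp fr').pull u = fr'.pull (fr.pull u) := by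
  funext q
  have h1 := fr.ρ_pos.ne'
  have h2 := fr'.ρ_pos.ne'
  simp only [pull, comp_fm]
  simp only [comp, af, fm, sp, S, Prod.fst_add, Prod.snd_add]
  field_simp
  ring
theorem comp_pullF (fr' : Fr) (F : X → ℝ) : (fr.comp fr').pullF F = fr'.pullF (fr.pullF F) := by
  funext q
  simp only [pullF, comp_fm]
  simp only [comp]
  ring

end Fr

/-- The parabolic rescaling with centre `(t₁, p)`; the affine function `l` is subtracted from `w`. -/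
def scl (τ : Ty) (ρ : ℝ) (hρ : 0 < ρ) (t₁ : ℝ) (p : ℝ × ℝ) (l₀ l₁ l₂ : ℝ) : Fr where
  t1 := t₁
  ρ := ρ
  p := p
  a := ρ ^ wt τ.1
  b := 0
  c := 0
  e := ρ ^ wt τ.2
  l0 := l₀ + md τ.1 p.1 + md τ.2 p.2
  l1 := l₁ + if τ.1 then ρ ^ 2 * Real.log (ρ ^ 2) else ρ * p.1
  l2 := l₂ + if τ.2 then ρ ^ 2 * Real.log (ρ ^ 2) else ρ * p.2
  ρ_pos := hρ
  det_ne := by simp [hρ.ne']

/-- Exchange of the two space coordinates. -/
def sw (q : X) : X := (q.1, q.2.2, q.2.1)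
def Dm.swap (d : Dm) : Dm where
  τ := (d.τ.2, d.τ.1)
  I := d.I
  O := Prod.swap ⁻¹' d.O
  oI := d.oI
  oO := d.oO.preimage continuous_swap

/-- The data of one vertex chart up to the time `T`. -/
structure CS (d : Dm) (u F : X → ℝ) (T₀ T Λ : ℝ) : Prop where
  gs : GS d u F
  ty : d.τ = (true, true)
  lt : T₀ < T
  tI : d.I = Ioo T₀ T
  one : 1 ≤ Λ
  c0 : ∀ p ∈ d.U, |u p| ≤ Λ
  lg : ∀ t ∈ d.I, ∀ y r, 0 < r → r ≤ 1 → Metric.ball y r ⊆ d.S →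
    |D e1 u (t, y)| ≤ Λ * (1 - Real.log r) ∧ |D e2 u (t, y)| ≤ Λ * (1 - Real.log r)
  dt : ∀ t ∈ d.I, IntegrableOn (fun y => (√(√(W u (t, y))))⁻¹) d.S ∧
    ∫ y in d.S, (√(√(W u (t, y))))⁻¹ ≤ Λ
  en : ∀ t ∈ d.I, IntegrableOn (fun y => F (t, y) ^ 2) d.S ∧ ∫ y in d.S, F (t, y) ^ 2 ≤ Λ
  vc : ∀ s ∈ d.I, ContinuousOn (fun r => ∫ y in d.S, (D e0 u (r, y) - D e0 u (s, y)) ^ 2) d.I
  soft : ∀ s ∈ d.I, ∀ t ∈ Ioo s T,
    ∫ r in s..t, ∫ y in d.S, (D e0 u (r, y) - D e0 u (s, y)) ^ 2 ≤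
      (t - s) * ((∫ y in d.S, D e0 u (s, y) ^ 2) - ∫ y in d.S, D e0 u (t, y) ^ 2)

end Pool.Agent.P.MP_2cea5e_gt.I
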