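import Pool.Agent.P.MP_2cea5e_gt.I.Sol

/-!
Chapter I: statements of the core calculus (API, integration by parts, frames, lines).
-/

open scoped ContDiff Topology
open MeasureTheory Set Filter

noncomputable section

set_option linter.dupNamespace false

namespace Pool.Agent.P.MP_2cea5e_gt.I

/-- Consequences of `GS0`. -/
structure Api (d : Dm) (u : X → ℝ) : Prop where
  sm : ContDiffOn ℝ ∞ u d.U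
  pW : ∀ p ∈ d.U, 0 < W u p
  p22 : ∀ p ∈ d.U, 0 < h22 u p
  q11 : ∀ p ∈ d.U, h11 u p = h11 (wv d.τ u) p + (o1 d.τ p)⁻¹
  q12 : ∀ p ∈ d.U, h12 u p = h12 (wv d.τ u) p
  q22 : ∀ p ∈ d.U, h22 u p = h22 (wv d.τ u) p + (o2 d.τ p)⁻¹
  q0 : ∀ p ∈ d.U, D e0 u p = D e0 (wv d.τ u) p
  q1 : ∀ p ∈ d.U, D e1 u p = D e1 (wv d.τ u) p + if d.τ.1 then Real.log p.2.1 + 1 else p.2.1
  q2 : ∀ p ∈ d.U, D e2 u p = D e2 (wv d.τ u) p + if d.τ.2 then Real.log p.2.2 + 1 else p.2.2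
  b11 : Bd d (o1 d.τ * h11 u)
  b12 : Bd d (h12 u)
  b22 : Bd d (o2 d.τ * h22 u)
  bW : Bd d (o1 d.τ * o2 d.τ * W u)
  bi11 : Bd d (i11 u)
  bi12 : Bd d (i12 u)
  bi22 : Bd d (i22 u)
  bt : Bd d (D e0 u)
  bg : Bd d (gex d.τ u)
  nt : ∃ k₁ k₂ k₃, NT d (nn d.τ u) k₁ k₂ k₃
  ddn : ∀ p ∈ d.U, (nn d.τ u).dd p = D e0 u p
  hqp : ∀ p ∈ d.U, ∀ e, e ≠ 0 → 0 < hq u e p ∧ 0 < iq u e p
  hqD : ∀ p ∈ d.U, ∀ e e', D (sv e) (D (sv e') u) p = hb u e e' p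
  gx1 : ∀ p ∈ d.U, 0 < o1 d.τ p * h11 u p ∧
    0 < o1 d.τ p * h11 u p * (o2 d.τ p * h22 u p) - (√(o1 d.τ p * o2 d.τ p) * h12 u p) ^ 2
  gx2 : ∀ p ∈ d.U, gex d.τ u p =
    gx (o1 d.τ p * h11 u p) (√(o1 d.τ p * o2 d.τ p) * h12 u p) (o2 d.τ p * h22 u p)
  gx3 : ∀ p ∈ d.U, ∀ n : ℝ × ℝ, iq u n p =
    qi (o1 d.τ p * h11 u p) (√(o1 d.τ p * o2 d.τ p) * h12 u p) (o2 d.τ p * h22 u p)
      (√(o1 d.τ p) * n.1, √(o2 d.τ p) * n.2)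
  gxn : ∀ p ∈ d.U, (nn d.τ u).ctr (wv d.τ u) p = -gex d.τ u p
  cvx : ∀ t ∈ d.I, ∀ C : Set (ℝ × ℝ), Convex ℝ C → C ⊆ d.Sc → (C ∩ d.S).Nonempty →
    ConvexOn ℝ C fun y => u (t, y)
  tan : ∀ t ∈ d.I, ∀ y ∈ d.S, ∀ y', segment ℝ y y' ⊆ d.Sc →
    u (t, y) + D (sv (y' - y)) u (t, y) ≤ u (t, y')

def StApi : Prop := ∀ d u, GS0 d u → Api d u

/-- Integration by parts on the unit box. -/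
def StIBP1 : Prop := ∀ (d : Dm) (f : X → ℝ) (t : ℝ), Bd d f → t ∈ d.I → bxc d.τ 1 ⊆ d.O →
  Van d.τ f t →
  (Van d.τ (D e1 f) t ∧ Van d.τ (D e2 f) t) ∧
  (∫ y in bx d.τ 1, D e1 (o1 d.τ * f) (t, y) = 0 ∧
    ∫ y in bx d.τ 1, D e2 (o2 d.τ * f) (t, y) = 0) ∧
  (∀ (g : ℝ → ℝ) (s : ℝ), 0 < s → IntegrableOn g (iv d.τ.2 1) →
    (∀ b ∈ iv d.τ.2 1, 0 ≤ g b ∧ (d.τ.1 = true → ∀ x ∈ Ioo 0 s, f (t, x, b) ≤ g b)) →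
    -∫ y in bx d.τ 1, D e1 f (t, y) ≤ ∫ b in iv d.τ.2 1, g b) ∧
  (∀ (g : ℝ → ℝ) (s : ℝ), 0 < s → IntegrableOn g (iv d.τ.1 1) →
    (∀ b ∈ iv d.τ.1 1, 0 ≤ g b ∧ (d.τ.2 = true → ∀ x ∈ Ioo 0 s, f (t, b, x) ≤ g b)) →
    -∫ y in bx d.τ 1, D e2 f (t, y) ≤ ∫ b in iv d.τ.1 1, g b) ∧
  ∫ y in bx d.τ 1, (o1 d.τ * h11 f + o2 d.τ * h22 f) (t, y) =
    -(∫ y in bx d.τ 1, D e1 f (t, y)) - ∫ y in bx d.τ 1, D e2 f (t, y)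

/-- Double integration by parts, and the null Lagrangian. -/
def StIBP2 : Prop := ∀ (d : Dm) (H : T2) (k₁ k₂ k₃ : X → ℝ) (t : ℝ), NT d H k₁ k₂ k₃ →
  t ∈ d.I → bxc d.τ 1 ⊆ d.O →
  (∀ f, Bd d f → (Van d.τ f t ∨ (Van d.τ k₁ t ∧ Van d.τ k₂ t ∧ Van d.τ k₃ t)) →
    ∫ y in bx d.τ 1, H.ctr f (t, y) = ∫ y in bx d.τ 1, (f * H.dd) (t, y)) ∧
  ∀ (G : T2) (g₁ g₂ g₃ : X → ℝ), NT d G g₁ g₂ g₃ → Van d.τ k₁ t → Van d.τ k₂ t → Van d.τ k₃ t →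
    ∫ y in bx d.τ 1, H.rr G (t, y) = ∫ y in bx d.τ 1, (H.dd * G.dd) (t, y)

/-- Pointwise transformation rules. -/
def StFC : Prop := ∀ (fr : Fr) (U : Set X), IsOpen U →
  (∀ g : X → ℝ, ContDiffOn ℝ ∞ g U → ContDiffOn ℝ ∞ (g ∘ fr.fm) (fr.fm ⁻¹' U) ∧
    ∀ q, fr.fm q ∈ U → D e0 (g ∘ fr.fm) q = fr.ρ ^ 4 * D e0 g (fr.fm q) ∧
      ∀ e, D (sv e) (g ∘ fr.fm) q = D (sv (fr.S e)) g (fr.fm q)) ∧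
  (∀ H G : T2, H.SmOn U → G.SmOn U → (fr.pullT H).SmOn (fr.fm ⁻¹' U) ∧ ∀ q, fr.fm q ∈ U →
    (∀ n n', (fr.pullT H).ap (fr.St n) (fr.St n') q = fr.ρ ^ 2 * H.ap n n' (fr.fm q)) ∧
    (fr.pullT H).dd q = fr.ρ ^ 2 * H.dd (fr.fm q) ∧
    (fr.pullT H).rr (fr.pullT G) q = fr.ρ ^ 4 * H.rr G (fr.fm q) ∧
    ∀ g, ContDiffOn ℝ ∞ g U → (fr.pullT H).ctr (g ∘ fr.fm) q = fr.ρ ^ 2 * H.ctr g (fr.fm q)) ∧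
  ∀ u : X → ℝ, ContDiffOn ℝ ∞ u U → (∀ p ∈ U, W u p ≠ 0) →
    ContDiffOn ℝ ∞ (fr.pull u) (fr.fm ⁻¹' U) ∧ ∀ q, fr.fm q ∈ U →
    D e0 (fr.pull u) q = fr.ρ ^ 2 * D e0 u (fr.fm q) ∧
    (∀ e, D (sv e) (fr.pull u) q =
      (D (sv (fr.S e)) u (fr.fm q) - (fr.l1 * e.1 + fr.l2 * e.2)) / fr.ρ ^ 2) ∧
    (∀ e e', hb (fr.pull u) e e' q = hb u (fr.S e) (fr.S e') (fr.fm q) / fr.ρ ^ 2) ∧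
    W (fr.pull u) q = fr.det ^ 2 / fr.ρ ^ 4 * W u (fr.fm q) ∧
    (i11 (fr.pull u) q = (fr.pullT (iv2 u)).a q ∧ i12 (fr.pull u) q = (fr.pullT (iv2 u)).b q ∧
      i22 (fr.pull u) q = (fr.pullT (iv2 u)).c q) ∧
    (∀ n n', ib (fr.pull u) (fr.St n) (fr.St n') q = fr.ρ ^ 2 * ib u n n' (fr.fm q)) ∧
    ab (fr.pull u) q = fr.ρ ^ 2 * ab u (fr.fm q) ∧ rm (fr.pull u) q = fr.ρ ^ 4 * rm u (fr.fm q)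

/-- Change of variables. -/
def StFI : Prop := ∀ (fr : Fr) (A : Set (ℝ × ℝ)), MeasurableSet A → MeasurableSet (fr.sp '' A) ∧
  (∀ f : ℝ × ℝ → ℝ, (IntegrableOn (fun y => f (fr.sp y)) A ↔ IntegrableOn f (fr.sp '' A)) ∧
    ∫ y in A, f (fr.sp y) = |fr.det|⁻¹ * ∫ y in fr.sp '' A, f y) ∧
  (∀ f : ℝ × ℝ → ENNReal,
    ∫⁻ y in A, f (fr.sp y) = ENNReal.ofReal |fr.det|⁻¹ * ∫⁻ y in fr.sp '' A, f y) ∧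
  ∀ (g : ℝ → ℝ) (a b : ℝ),
    ∫ t in a..b, g (fr.tm t) = (fr.ρ ^ 4)⁻¹ * ∫ t in fr.tm a..fr.tm b, g t

/-- Solutions in a frame. -/
def StFG : Prop :=
  (∀ (fr : Fr) (d : Dm) (τ' : Ty), fr.Cp d.τ τ' →
    (fr.dm d τ').S = fr.sp ⁻¹' d.S ∧ (fr.dm d τ').U = fr.fm ⁻¹' d.U ∧
    (fr.dm d τ').Sc ⊆ fr.sp ⁻¹' d.Sc ∧
    (∀ f, Bd d f → Bd (fr.dm d τ') (f ∘ fr.fm)) ∧ (∀ f, Lc d f → Lc (fr.dm d τ') (f ∘ fr.fm)) ∧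
    (∀ A, Reg (fr.dm d τ') A → Reg d (fr.sp '' A)) ∧
    (∀ u, GS0 d u → GS0 (fr.dm d τ') (fr.pull u)) ∧
    ∀ u F, GS d u F → GS (fr.dm d τ') (fr.pull u) (fr.pullF F)) ∧
  (∀ (fr fr' : Fr) (d : Dm) (τ' τ'' : Ty), fr.Cp d.τ τ' → fr'.Cp τ' τ'' →
    (fr.comp fr').Cp d.τ τ'' ∧ ((fr.comp fr').dm d τ'').O = (fr'.dm (fr.dm d τ') τ'').O ∧
    ((fr.comp fr').dm d τ'').I = (fr'.dm (fr.dm d τ') τ'').I) ∧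
  ∀ (d : Dm) (f : X → ℝ) (s : ℝ), s ∈ d.I → Bd d f → Bd d (fz s f)

/-- Exchange of the coordinates. -/
def StSwap : Prop := ∀ (d : Dm) (u F : X → ℝ),
  (GS d u F → GS d.swap (u ∘ sw) (F ∘ sw)) ∧
  (∀ r t, SS r d u F t → SS r d.swap (u ∘ sw) (F ∘ sw) t) ∧
  (∀ Λ, NS Λ d u F → NS Λ d.swap (u ∘ sw) (F ∘ sw)) ∧
  (∀ ε, Close d u ε → Close d.swap (u ∘ sw) ε) ∧
  (∀ ε, N0 d u F → Exc d u ε → Exc d.swap (u ∘ sw) ε) ∧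
  (GS d u F → ∀ δ, ∀ p ∈ d.U, Near d.swap.τ (u ∘ sw) δ (sw p) → Near d.τ u δ p) ∧
  (∀ T₀ T Λ, CS d u F T₀ T Λ → CS d.swap (u ∘ sw) (F ∘ sw) T₀ T Λ) ∧
  (∀ p, wv d.swap.τ (u ∘ sw) (sw p) = wv d.τ u p ∧ (sw p ∈ d.swap.U ↔ p ∈ d.U) ∧
    D e0 (u ∘ sw) (sw p) = D e0 u p ∧ D e1 (u ∘ sw) (sw p) = D e2 u p ∧
    D e2 (u ∘ sw) (sw p) = D e1 u p) ∧
  ∀ (f : ℝ × ℝ → ℝ) (A : Set (ℝ × ℝ)), ∫ y in Prod.swap ⁻¹' A, f y.swap = ∫ y in A, f y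

/-- Parabolic rescaling inside the unit cylinder. -/
def StResc : Prop := ∀ (d : Dm) (u F : X → ℝ) (ρ : ℝ) (hρ : 0 < ρ) (t₁ : ℝ) (p : ℝ × ℝ)
  (l₀ l₁ l₂ : ℝ), ρ ≤ 1 → t₁ ≤ 0 → -1 ≤ t₁ - ρ ^ 4 →
  (if d.τ.1 then p.1 = 0 else |p.1| + ρ ≤ 1) → (if d.τ.2 then p.2 = 0 else |p.2| + ρ ≤ 1) →
  N0 d u F →
  let fr := scl d.τ ρ hρ t₁ p l₀ l₁ l₂
  let d' := fr.dm d d.τ
  fr.Cp d.τ d.τ ∧ N0 d' (fr.pull u) (fr.pullF F) ∧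
  (∀ Λ, NS Λ d u F → NS Λ d' (fr.pull u) (fr.pullF F)) ∧
  fr.sp '' bx d.τ 1 ⊆ bx d.τ 1 ∧ (p = 0 → ∀ r, fr.sp '' bx d.τ r = bx d.τ (ρ * r)) ∧
  (∀ q ∈ d'.U, wv d.τ (fr.pull u) q = (wv d.τ u (fr.fm q) - af l₀ l₁ l₂ q) / ρ ^ 2 ∧
    gex d.τ (fr.pull u) q = gex d.τ u (fr.fm q) ∧
    ∀ δ, l₁ = 0 → l₂ = 0 → Near d.τ (fr.pull u) δ q → Near d.τ u δ (fr.fm q)) ∧
  (∀ (g : X → ℝ) (t : ℝ) (A : Set (ℝ × ℝ)), MeasurableSet A →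
    ∫ y in A, g (fr.fm (t, y)) =
      (ρ ^ (wt d.τ.1 + wt d.τ.2))⁻¹ * ∫ y in fr.sp '' A, g (t₁ + ρ ^ 4 * t, y)) ∧
  ∀ ε, l₀ = 0 → l₁ = 0 → l₂ = 0 → 0 ≤ ε →
    (Close d u ε → Close d' (fr.pull u) (ε / ρ ^ 4)) ∧ (Exc d u ε → Exc d' (fr.pull u) (ε / ρ ^ 4))

/-- The functions along a line. -/
def StT1 : Prop := ∀ (d : Dm) (u F : X → ℝ) (t : ℝ) (y e : ℝ × ℝ) (J : Set ℝ), GS d u F →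
  t ∈ d.I → e ≠ 0 → (∀ x ∈ J, y + x • e ∈ d.S) →
  C2On (ln t y e u) (ln t y e (D (sv e) u)) (ln t y e (hq u e)) J ∧
  C2On (ln t y e (wv d.τ u)) (ln t y e (D (sv e) (wv d.τ u)))
    (fun x => ln t y e (hq u e) x - ln t y e (hq0 d.τ e) x) J ∧
  (∀ e', ∀ x ∈ J, HasDerivAt (ln t y e (D (sv e') u)) (ln t y e (hb u e e') x) x) ∧
  (∀ e', ContinuousOn (ln t y e (hb u e e')) J) ∧ ContinuousOn (ln t y e F) J ∧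
  (∀ n n', ∃ z' z'', C2On (ln t y e (ib u n n')) z' z'' J ∧ ∀ x ∈ J, |z'' x| ≤
    ln t y e F x * √(ln t y e (iq u n) x * ln t y e (iq u n') x) * ln t y e (hq u e) x) ∧
  (∃ m' m'', C2On (fun x => (ln t y e (hq u e) x)⁻¹) m' m'' J ∧ ∀ x ∈ J, m'' x ≤ ln t y e F x) ∧
  ∀ r h : ℝ × ℝ, h.1 * e.1 + h.2 * e.2 = 0 → h.1 * r.1 + h.2 * r.2 = 1 →
    (∀ x ∈ J, ∀ β : ℝ, ln t y e (hq u (r + β • e)) x = ln t y e (hq u e) x *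
      (β + ln t y e (hb u e r) x / ln t y e (hq u e) x) ^ 2 + (ln t y e (iq u h) x)⁻¹) ∧
    ∃ m' m'' l', C2On (fun x => (ln t y e (hq u e) x)⁻¹) m' m'' J ∧ ContinuousOn l' J ∧ ∀ x ∈ J,
      HasDerivAt (fun x => ln t y e (hb u e r) x / ln t y e (hq u e) x) (l' x) x ∧
      |m'' x + 2 * ln t y e (iq u h) x * l' x ^ 2| ≤ ln t y e F x

/-- Most lines of a family are cheap. -/
def StCheb : Prop := ∀ (f : ℝ × ℝ → ℝ) (A : Set (ℝ × ℝ)) (E ε L : ℝ) (y e r : ℝ × ℝ)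
  (a a' : ℝ → ℝ) (B : Set ℝ), MeasurableSet A → ContinuousOn f A → (∀ z ∈ A, 0 ≤ f z) →
  IntegrableOn (fun z => f z ^ 2) A → ∫ z in A, f z ^ 2 ≤ E → e.1 * r.2 - e.2 * r.1 ≠ 0 →
  Continuous a → Continuous a' → MeasurableSet B → 0 < ε → 0 ≤ L →
  (∀ b ∈ B, a' b - a b ≤ L ∧ ∀ x ∈ Ioo (a b) (a' b), y + b • r + x • e ∈ A) →
  volume {b ∈ B | ¬Cheap (fun x => f (y + b • r + x • e)) (a b) (a' b) ε} ≤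
    ENNReal.ofReal (L * E / (|e.1 * r.2 - e.2 * r.1| * ε ^ 2))

/-- The curvature bound. -/
def StCurv : Prop := ∀ (d : Dm) (u : X → ℝ), GS0 d u →
  GS d u (fc u) ∧ Bd d (rm u) ∧ ∀ p ∈ d.U, 0 ≤ rm u p

/-- The square of a coordinate with a face. -/
def sq2 (τ : Ty) (p : X) : X :=
  (p.1, if τ.1 then p.2.1 ^ 2 else p.2.1, if τ.2 then p.2.2 ^ 2 else p.2.2)
/-- The square root of a coordinate with a face. -/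
def rt2 (τ : Ty) (p : X) : X :=
  (p.1, if τ.1 then √p.2.1 else p.2.1, if τ.2 then √p.2.2 else p.2.2)

/-- Smooth even functions are smooth functions of the squares. -/
def StEven : Prop :=
  (∀ (V : Set X) (g : X → ℝ), IsOpen V → (∀ p ∈ V, (p.1, -p.2.1, p.2.2) ∈ V) →
    ContDiffOn ℝ ∞ g V → (∀ p ∈ V, g (p.1, -p.2.1, p.2.2) = g p) →
    ∃ g₁, ContDiffOn ℝ ∞ g₁ V ∧ ∀ p ∈ V, D e1 g p = p.2.1 * g₁ p ∧ (p.2.1 = 0 → g₁ p = h11 g p)) ∧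
  (∀ (V : Set X) (g : X → ℝ), IsOpen V → (∀ p ∈ V, (p.1, p.2.1, -p.2.2) ∈ V) →
    ContDiffOn ℝ ∞ g V → (∀ p ∈ V, g (p.1, p.2.1, -p.2.2) = g p) →
    ∃ g₂, ContDiffOn ℝ ∞ g₂ V ∧ ∀ p ∈ V, D e2 g p = p.2.2 * g₂ p ∧ (p.2.2 = 0 → g₂ p = h22 g p)) ∧
  ∀ (d : Dm) (g : X → ℝ), ContDiffOn ℝ ∞ g (sq2 d.τ ⁻¹' (d.I ×ˢ d.O)) →
    (d.τ.1 = true → ∀ p ∈ sq2 d.τ ⁻¹' (d.I ×ˢ d.O), g (p.1, -p.2.1, p.2.2) = g p) →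
    (d.τ.2 = true → ∀ p ∈ sq2 d.τ ⁻¹' (d.I ×ˢ d.O), g (p.1, p.2.1, -p.2.2) = g p) →
    Bd d (g ∘ rt2 d.τ) ∧ ContinuousOn (g ∘ rt2 d.τ) d.Uc

end Pool.Agent.P.MP_2cea5e_gt.I
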