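import Pool.Agent.P.MP_2cea5e_gt.I.St2
import Pool.Agent.P.MP_2cea5e_gt.Top

/-!
Chapter I: statements of the epsilon regularity theory.
-/

open scoped ContDiff Topology
open MeasureTheory Set Filter

noncomputable section

set_option linter.dupNamespace false

namespace Pool.Agent.P.MP_2cea5e_gt.I

/-- Smooth cutoffs adapted to the boxes. -/
def StCut : Prop := ∀ (b : Bool) (r R : ℝ), 0 < r → r < R → ∃ χ : ℝ → ℝ, ContDiff ℝ ∞ χ ∧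
  (∀ x, 0 ≤ χ x ∧ χ x ≤ 1) ∧ (∀ x ∈ ivc b r, χ x = 1 ∧ deriv χ x = 0 ∧ deriv (deriv χ) x = 0) ∧
  (∀ x ∈ okc b, χ x ≠ 0 → x ∈ ivc b R ∧ (x ∈ ok b → x ∈ iv b R)) ∧
  ∃ C, ∀ x, |deriv χ x| ≤ C ∧ |deriv (deriv χ) x| ≤ C

def StSup : Prop := ∀ (τ : Ty) (Λ σ : ℝ), 0 < σ → ∃ ε, 0 < ε ∧ ∀ d u F t, d.τ = τ →
  SS 1 d u F t → ∫ y in bx τ 1, F (t, y) ^ 2 ≤ Λ → ∫ y in bx τ 1, wv τ u (t, y) ^ 2 ≤ ε ^ 2 →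
  SupB d u σ t ∧ ∀ y ∈ bx τ (19 / 20), -σ ≤ wv τ u (t, y)

def StGradA : Prop := ∀ (τ : Ty) (ς : ℝ × ℝ → ℝ), ContDiff ℝ ∞ ς →
  (∀ y ∈ bx τ 1, ς y ≠ 0 → y ∈ An τ (29 / 50) (3 / 10)) → ∀ κ : ℝ, 0 < κ → ∃ C σ, 0 < σ ∧
  ∀ d u F t, d.τ = τ → SS 1 d u F t → SupB d u σ t →
  ∫ y in bx τ 1, ς y ^ 2 * gu u (wv τ u) (t, y) ≤
    (∫ y in bx τ 1, ς y ^ 2 * wv τ u (t, y) ^ 2 * D e0 u (t, y)) +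
    κ * (∫ y in An τ (3 / 5) (1 / 5), gex τ u (t, y)) +
    C * ∫ y in An τ (3 / 5) (1 / 5), wv τ u (t, y) ^ 2

def StGradB : Prop := ∀ τ : Ty, ∃ C, ∀ d u F ε, d.τ = τ → N0 d u F →
  (∀ t ∈ Icc (-1 : ℝ) 0, SupB d u 1 t) → Exc d u ε →
  ∫ t in (-1 : ℝ)..0, ∫ y in bx τ (1 / 2),
    gu u (wv τ u) (t, y) / (1 + wv τ u (t, y) ^ 2) ^ 2 ≤ C * ε ^ 2

def StCac : Prop := ∀ (τ : Ty) (κ : ℝ), 0 < κ → ∃ C σ, 0 ≤ C ∧ 0 < σ ∧ ∀ d u F Z Y, d.τ = τ →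
  N0 d u F → (∀ t ∈ Icc (-1 : ℝ) 0, SupB d u σ t) →
  (∀ t ∈ Icc (-1 : ℝ) 0, ∫ y in bx τ 1, wv τ u (t, y) ^ 2 ≤ Z) →
  C * (∫ t in (-1 : ℝ)..0, ∫ y in bx τ 1, wv τ u (t, y) ^ 2) +
    κ * (Z + ∫ t in (-1 : ℝ)..0, ∫ y in An τ (3 / 5) (1 / 5), gex τ u (t, y)) ≤ Y →
  (∀ t ∈ Icc (-1 / 16 : ℝ) 0, ∫ y in bx τ (1 / 2), wv τ u (t, y) ^ 2 ≤ Y) ∧
    ∫ t in (-1 / 16 : ℝ)..0, ∫ y in bx τ (1 / 2), gex τ u (t, y) ≤ Y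

def StCrude : Prop := ∀ (τ : Ty) (Λ : ℝ), ∃ C σ, 0 < σ ∧ ∀ d u F t, d.τ = τ → SS 1 d u F t →
  ∫ y in bx τ 1, F (t, y) ^ 2 ≤ Λ → SupB d u σ t → (∀ y ∈ bx τ (19 / 20), -σ ≤ wv τ u (t, y)) →
  ∫ y in An τ (3 / 5) (1 / 5), gex τ u (t, y) ≤ C

def StStart0 : Prop := ∀ (τ : Ty) (Λ ε' : ℝ), 0 < ε' → ∃ ε, 0 < ε ∧ ∀ d u F, d.τ = τ →
  NS Λ d u F → Close d u ε →
  (∀ t ∈ Icc (-1 / 16 : ℝ) 0, ∫ y in bx τ (1 / 2), wv τ u (t, y) ^ 2 ≤ ε' ^ 2) ∧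
    ∫ t in (-1 / 16 : ℝ)..0, ∫ y in bx τ (1 / 2), gex τ u (t, y) ≤ ε' ^ 2

def StVT : Prop := ∀ (τ : Ty) (σ : ℝ), 0 < σ → ∃ C σ', 0 ≤ C ∧ 0 < σ' ∧ ∀ d u F t, d.τ = τ →
  SS 1 d u F t → SupB d u σ' t →
  ∫ y in bx τ (1 / 2), max (|wv τ u (t, y)| - σ) 0 ^ 2 ≤
    (C * ∫ y in bx τ (1 / 2), gex τ u (t, y)) ^ 2

/-- The smoothing of `f` as a function on `ℂ²`. -/
def mv (τ : Ty) (r₁ r₂ : ℂ → ℝ) (f : X → ℝ) (t : ℝ) (Z : C2) : ℝ :=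
  ∫ y in bx τ 1, f (t, y) * (kk τ.1 r₁ (Z 0) y.1 * kk τ.2 r₂ (Z 1) y.2)
/-- The real point over `y`. -/
def tz (τ : Ty) (y : ℝ × ℝ) : C2 := ![(th τ.1 y.1 : ℂ), (th τ.2 y.2 : ℂ)]
/-- A radial probability density. -/
structure Prob (δ : ℝ) (r : ℂ → ℝ) : Prop where
  tst : Tst δ r
  nn : ∀ z, 0 ≤ r z
  rad : ∀ z w, ‖z‖ = ‖w‖ → r z = r w
  one : ∫ z, r z = 1

/-- Regularity of the smoothing. -/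
def StMoll1 : Prop := ∀ (d : Dm) (f : X → ℝ) (δ : ℝ) (r₁ r₂ : ℂ → ℝ), Bd d f → Tst δ r₁ →
  Tst δ r₂ → bxc d.τ 1 ⊆ d.O → Cl d.I (mv d.τ r₁ r₂ f) ∧
  (∀ t ∈ d.I, ∀ Z, HasDerivAt (fun s => mv d.τ r₁ r₂ f s Z) (mv d.τ r₁ r₂ (D e0 f) t Z) t) ∧
  ∀ t ∈ d.I, pd 0 (mv d.τ r₁ r₂ f t) = mv d.τ (dc 1 r₁) r₂ f t ∧
    pd 1 (mv d.τ r₁ r₂ f t) = mv d.τ (dc Complex.I r₁) r₂ f t ∧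
    pd 2 (mv d.τ r₁ r₂ f t) = mv d.τ r₁ (dc 1 r₂) f t ∧
    pd 3 (mv d.τ r₁ r₂ f t) = mv d.τ r₁ (dc Complex.I r₂) f t

/-- The smoothing almost solves the biharmonic heat equation. -/
def StMoll2 : Prop := ∀ (τ : Ty) (δ : ℝ) (r₁ r₂ : ℂ → ℝ), δ ≤ 1 / 20 → Tst δ r₁ → Tst δ r₂ →
  ∀ n : ℕ, ∃ C, 0 ≤ C ∧ ∀ d u F t, d.τ = τ → SS 1 d u F t → ∀ Z ∈ Metric.ball (0 : C2) (1 / 4),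
  ∀ l : List (Fin 4), l.length ≤ n →
  |pdl l (mv τ r₁ r₂ (D e0 (wv τ u)) t + lap (lap (mv τ r₁ r₂ (wv τ u) t))) Z| ≤
    C * ∫ y in bx τ (1 / 2), gex τ u (t, y)

/-- Properties of the smoothing with a radial probability density. -/
def StMoll3 : Prop := ∀ (d : Dm) (f : X → ℝ) (δ t : ℝ) (r : ℂ → ℝ), Lc d f → Prob δ r →
  δ ≤ 1 / 20 → t ∈ d.I → bxc d.τ 1 ⊆ d.O →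
  ∫ Z in Metric.ball (0 : C2) (1 / 4), mv d.τ r r f t Z ^ 2 ≤
    169 * ∫ y in bx d.τ (1 / 2), f (t, y) ^ 2 ∧
  ∫ y in bx d.τ (1 / 8), mv d.τ r r f t (tz d.τ y) ^ 2 ≤ ∫ y in bx d.τ (1 / 2), f (t, y) ^ 2 ∧
  IntegrableOn (fun y => mv d.τ r r f t (tz d.τ y) ^ 2) (bx d.τ (1 / 8)) ∧
  (d.τ.1 = true → ∀ Z : C2, mv d.τ r r f t ![-Z 0, Z 1] = mv d.τ r r f t Z) ∧
  (d.τ.2 = true → ∀ Z : C2, mv d.τ r r f t ![Z 0, -Z 1] = mv d.τ r r f t Z)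

/-- A bounded function is close to its smoothing. -/
def StMark2 : Prop := ∀ (d : Dm) (f α β : X → ℝ) (δ t : ℝ) (r : ℂ → ℝ), Bd d f → Lc d α →
  Lc d β → Prob δ r → 0 < δ → δ ≤ 1 / 20 → t ∈ d.I → bxc d.τ 1 ⊆ d.O →
  (∀ y ∈ bx d.τ (1 / 2), |f (t, y)| ≤ 2 ∧ 0 ≤ α (t, y) ∧ 0 ≤ β (t, y) ∧
    √(o1 d.τ (t, y)) * |D e1 f (t, y)| ≤ α (t, y) + β (t, y) ∧
    √(o2 d.τ (t, y)) * |D e2 f (t, y)| ≤ α (t, y) + β (t, y)) →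
  ∫ y in bx d.τ (1 / 8), (f (t, y) - mv d.τ r r f t (tz d.τ y)) ^ 2 ≤
    ∫ y in bx d.τ (1 / 2), (32 * δ ^ 2 * α (t, y) ^ 2 + 64 * δ * β (t, y))

/-- Compactness. -/
def StComp : Prop := ∀ (τ : Ty) (γ : ℝ), 0 < γ → ∃ δ₀, 0 < δ₀ ∧ δ₀ ≤ 1 / 20 ∧ ∃ σ ε₀, 0 < σ ∧
  0 < ε₀ ∧ ∀ δ r, 0 < δ → δ ≤ δ₀ → Prob δ r → ∀ d u F ε, d.τ = τ → N0 d u F →
  (∀ t ∈ Icc (-1 : ℝ) 0, SupB d u σ t) → 0 ≤ ε → ε ≤ ε₀ → Exc d u ε →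
  IntervalIntegrable (fun t => ∫ y in bx τ (1 / 8),
    (wv τ u (t, y) - mv τ r r (wv τ u) t (tz τ y)) ^ 2) volume (-1) 0 ∧
  ∫ t in (-1 : ℝ)..0, ∫ y in bx τ (1 / 8),
    (wv τ u (t, y) - mv τ r r (wv τ u) t (tz τ y)) ^ 2 ≤ γ * ε ^ 2

/-- A polynomial of parabolic weight at most two. -/
def qp (l₀ l₁ l₂ q₁ q₂ q₃ : ℝ) (y : ℝ × ℝ) : ℝ :=
  l₀ + l₁ * y.1 + l₂ * y.2 + (q₁ * y.1 ^ 2 + 2 * q₂ * y.1 * y.2 + q₃ * y.2 ^ 2) / 2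

/-- Taylor expansion on the real slice. -/
def StTay : Prop := ∃ C, 0 ≤ C ∧ ∀ (τ : Ty) (v : C2 → ℝ) (A : ℝ), ContDiff ℝ ∞ v →
  (∀ Z ∈ Metric.ball (0 : C2) (1 / 8), ∀ l : List (Fin 4), l.length ≤ 3 → |pdl l v Z| ≤ A) →
  (τ.1 = true → ∀ Z : C2, v ![-Z 0, Z 1] = v Z) → (τ.2 = true → ∀ Z : C2, v ![Z 0, -Z 1] = v Z) →
  ∃ l₀ l₁ l₂ q₁ q₂ q₃ : ℝ, (|l₀| ≤ C * A ∧ |l₁| ≤ C * A ∧ |l₂| ≤ C * A ∧ |q₁| ≤ C * A ∧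
    |q₂| ≤ C * A ∧ |q₃| ≤ C * A) ∧ (τ.1 = true → q₁ = 0 ∧ q₂ = 0) ∧
    (τ.2 = true → q₃ = 0 ∧ q₂ = 0) ∧ ∀ r, 0 < r → r ≤ 1 / 16 → ∀ y ∈ bx τ r,
      |v (tz τ y) - qp l₀ l₁ l₂ q₁ q₂ q₃ y| ≤ C * A * r ^ 3

def StApprox : Prop := ∀ (τ : Ty) (Λ : ℝ), ∃ C, 1 ≤ C ∧ ∀ θ, 0 < θ → ∃ ε₁, 0 < ε₁ ∧
  ∀ d u F ε, d.τ = τ → NS Λ d u F → 0 < ε → ε ≤ ε₁ → Exc d u ε →
  ∃ l₀ l₁ l₂ q₁ q₂ q₃ : ℝ, (|l₀| ≤ C * ε ∧ |l₁| ≤ C * ε ∧ |l₂| ≤ C * ε ∧ |q₁| ≤ C * ε ∧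
    |q₂| ≤ C * ε ∧ |q₃| ≤ C * ε) ∧ (τ.1 = true → q₁ = 0 ∧ q₂ = 0) ∧
    (τ.2 = true → q₃ = 0 ∧ q₂ = 0) ∧ ∀ r, θ ≤ r → r ≤ 1 / 16 →
      ∫ t in (-r ^ 4)..0, ∫ y in bx τ r, (wv τ u (t, y) - qp l₀ l₁ l₂ q₁ q₂ q₃ y) ^ 2 ≤
        C * r ^ (wt τ.1 + wt τ.2 + 10) * ε ^ 2

/-- A frame centred at the origin which is a small perturbation of the scaling by `θ`. -/
structure Pert (τ : Ty) (fr : Fr) (θ γ : ℝ) : Prop where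
  t1 : fr.t1 = 0
  p : fr.p = 0
  ρ : fr.ρ = θ
  cp : fr.Cp τ τ
  a : |fr.a - θ ^ wt τ.1| ≤ γ * θ ^ wt τ.1
  b : |fr.b| ≤ γ * θ
  c : |fr.c| ≤ γ * θ
  e : |fr.e - θ ^ wt τ.2| ≤ γ * θ ^ wt τ.2
  l1 : |fr.l1 - if τ.1 then θ ^ 2 * Real.log (θ ^ 2) else 0| ≤ γ * θ ^ wt τ.1
  l2 : |fr.l2 - if τ.2 then θ ^ 2 * Real.log (θ ^ 2) else 0| ≤ γ * θ ^ wt τ.2

/-- Renormalisation of the model. -/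
def StRenorm : Prop := ∀ (τ : Ty) (Λ : ℝ), ∃ C, 1 ≤ C ∧ ∀ θ, 0 < θ → ∃ ε₁, 0 < ε₁ ∧
  ∀ d u F ε, d.τ = τ → NS Λ d u F → 0 < ε → ε ≤ ε₁ → Exc d u ε →
  ∃ fr, Pert τ fr (1 / 32) (C * ε) ∧ NS Λ (fr.dm d τ) (fr.pull u) (fr.pullF F) ∧
    Exc (fr.dm d τ) (fr.pull u) (C * ε) ∧ ∀ r, θ ≤ r → r ≤ 1 →
      ∫ t in (-r ^ 4)..0, ∫ y in bx τ r, wv τ (fr.pull u) (t, y) ^ 2 ≤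
        C * r ^ (wt τ.1 + wt τ.2 + 10) * ε ^ 2

/-- Decay of the excess at dyadic scales. -/
def StDyad : Prop := ∀ (τ : Ty) (Λ : ℝ), ∃ C, 1 ≤ C ∧ ∀ n : ℕ, ∃ ε₁, 0 < ε₁ ∧
  ∀ d u F ε, d.τ = τ → NS Λ d u F → 0 < ε → ε ≤ ε₁ → Exc d u ε →
  (∀ r, (1 / 2) ^ n ≤ r → r ≤ 1 → ∫ t in (-r ^ 4)..0, ∫ y in bx τ r, wv τ u (t, y) ^ 2 ≤
    r ^ (wt τ.1 + wt τ.2 + 10) * ε ^ 2) →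
  Exc ((scl τ ((1 / 2) ^ n) (by positivity) 0 0 0 0 0).dm d τ)
    ((scl τ ((1 / 2) ^ n) (by positivity) 0 0 0 0 0).pull u) (C * (1 / 2) ^ n * ε)

def StDecay : Prop := ∀ (τ : Ty) (Λ : ℝ), ∃ θ C ε₁, 0 < θ ∧ θ ≤ 1 / 32 ∧ 1 ≤ C ∧ 0 < ε₁ ∧
  ∀ d u F ε, d.τ = τ → NS Λ d u F → 0 < ε → ε ≤ ε₁ → Exc d u ε →
  ∃ fr, Pert τ fr θ (C * ε) ∧ NS Λ (fr.dm d τ) (fr.pull u) (fr.pullF F) ∧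
    Exc (fr.dm d τ) (fr.pull u) (ε / 2)

/-- Going back through a perturbed scaling. -/
def StPert : Prop := ∀ (d : Dm) (u F : X → ℝ) (fr : Fr) (θ γ μ : ℝ), GS d u F →
  Pert d.τ fr θ γ → θ ≤ 1 / 32 → 0 ≤ γ → γ ≤ 1 / 100 → 0 ≤ μ → μ ≤ 1 →
  ∀ q ∈ (fr.dm d d.τ).U, (d.τ.1 = false → q.2.1 = 0) → (d.τ.2 = false → q.2.2 = 0) →
  Near d.τ (fr.pull u) μ q → Near d.τ u (μ + 20 * γ) (fr.fm q)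

/-- Change of type away from a face. -/
def StSwitch : Prop := ∀ (τ τ' : Ty) (Λ c₀ ε' : ℝ), (τ'.1 = true → τ.1 = true) →
  (τ'.2 = true → τ.2 = true) → 0 < c₀ → 0 < ε' → ∃ ρ₀, 0 < ρ₀ ∧ ∀ ρ, 0 < ρ → ρ ≤ ρ₀ →
  ∃ ε, 0 < ε ∧ ∀ d u F (p : ℝ × ℝ), d.τ = τ → NS Λ d u F → Close d u ε →
  (if τ.1 = τ'.1 then p.1 = 0 else p.1 ∈ Icc c₀ (1 / 4)) →
  (if τ.2 = τ'.2 then p.2 = 0 else p.2 ∈ Icc c₀ (1 / 4)) →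
  ∃ d' u' F', d'.τ = τ' ∧ NS Λ d' u' F' ∧ Close d' u' ε' ∧
    ∀ δ, ∀ y ∈ bx τ' 1, (τ'.1 = false → y.1 = 0) → (τ'.2 = false → y.2 = 0) →
      Near τ' u' δ (0, y) → Near τ u δ (0, p.1 + ρ ^ 2 * y.1, p.2 + ρ ^ 2 * y.2)

/-- Regularity on the central set, from small excess. -/
def StRegE (τ : Ty) : Prop := ∀ Λ δ : ℝ, 0 < δ → ∃ ε, 0 < ε ∧ ∀ d u F, d.τ = τ → NS Λ d u F →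
  Exc d u ε → ∀ y ∈ bx τ (1 / 2), (τ.1 = false → y.1 = 0) → (τ.2 = false → y.2 = 0) →
  Near τ u δ (0, y)

/-- Epsilon regularity. -/
def StReg (τ : Ty) : Prop := ∀ Λ δ : ℝ, 0 < δ → ∃ ε, 0 < ε ∧ ∀ d u F, d.τ = τ → NS Λ d u F →
  Close d u ε → ∀ y ∈ bx τ (1 / 8), Near τ u δ (0, y)

/-- Every point of the closed chart domain has a frame in which the solution is close to a model. -/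
def StStart : Prop := ∀ d u F T₀ T Λ, CS d u F T₀ T Λ → ∀ p ∈ d.Sc, ∀ ε : ℝ, 0 < ε →
  ∃ (fr : Fr) (τ : Ty), fr.p = p ∧ fr.t1 = T ∧ fr.Cp d.τ τ ∧ (τ.1 = true ↔ p.1 = 0) ∧
    (τ.2 = true ↔ p.2 = 0) ∧ bxc τ 1 ⊆ (fr.dm d τ).O ∧ T₀ ≤ T - fr.ρ ^ 4 ∧
    ∀ s ∈ Ioo (-1 : ℝ) 0, ∫ y in bx τ 1, fr.pullF F (s, y) ^ 2 ≤ Λ ∧
      ∫ y in bx τ 1, wv τ (fr.pull u) (s, y) ^ 2 ≤ ε ^ 2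

/-- The result of chapter I in the symplectic picture. -/
def StNear : Prop := ∀ d u F T₀ T Λ, CS d u F T₀ T Λ → ∀ p ∈ d.Sc, ∀ δ : ℝ, 0 < δ →
  ∃ (fr : Fr) (τ : Ty), fr.p = p ∧ fr.t1 = T ∧ fr.Cp d.τ τ ∧ (τ.1 = true ↔ p.1 = 0) ∧
    (τ.2 = true ↔ p.2 = 0) ∧ bxc τ 1 ⊆ (fr.dm d τ).O ∧ T₀ ≤ T - fr.ρ ^ 4 ∧
    ∀ s ∈ Ioo (-1 / 2 : ℝ) 0, ∀ y ∈ bx τ (1 / 16), Near τ (fr.pull u) δ (s, y)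

end Pool.Agent.P.MP_2cea5e_gt.I
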