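import Pool.Agent.P.MP_2cea5e_gt.I.St3

/-!
Chapter I: small excess from closeness, and the tail of `w` in the corner.
-/

open scoped ContDiff Topology
open MeasureTheory Set Filter

noncomputable section

set_option linter.dupNamespace false

namespace Pool.Agent.P.MP_2cea5e_gt.I

namespace Start0

theorem time_le {d : Dm} {f : X → ℝ} {A : Set (ℝ × ℝ)} {c : ℝ} (hf : Lc d f) (hA : Reg d A)
    (hI : Icc (-1 : ℝ) 0 ⊆ d.I) (h : ∀ t ∈ Icc (-1 : ℝ) 0, ∫ y in A, f (t, y) ≤ c) :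
    ∫ t in (-1 : ℝ)..0, ∫ y in A, f (t, y) ≤ c := by
  have hle : (-1 : ℝ) ≤ 0 := by norm_num
  have := intervalIntegral.integral_mono_on hle
    (((hf.continuousOn_int hA).mono hI).intervalIntegrable_of_Icc (μ := volume) hle)
    (intervalIntegrable_const (c := c)) h
  simpa using this

theorem sqrt_le {g σ : ℝ} (hg : 0 ≤ g) (hσ : 0 < σ) : √g ≤ σ + g / (4 * σ) := by
  have h1 := Real.sq_sqrt hg
  have h2 := sq_nonneg (√g - 2 * σ)
  rw [← sub_le_iff_le_add', le_div_iff₀ (by positivity)]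
  nlinarith

theorem one (h5 : StTR) {h h' h'' g : ℝ → ℝ} {σ x : ℝ} (hσ : 0 < σ)
    (hc : C2On h h' h'' (Ioc 0 (2 * (1 / 100)))) (hg : IntegrableOn g (Ioo 0 (1 / 4)))
    (h0 : ∀ y ∈ Ioo (0 : ℝ) (1 / 4), 0 ≤ g y)
    (hb : ∀ y ∈ Ioo (0 : ℝ) (1 / 4), y * |h'' y| ≤ √(g y) + g y)
    (hs : ∀ y ∈ Ioo (1 / 100 : ℝ) (1 / 4), |h y| ≤ σ / 60) (hx : x ∈ Ioo (0 : ℝ) (1 / 100)) :
    |h x| - σ ≤ 6 * (1 + 1 / (4 * σ)) * ∫ y in Ioo (0 : ℝ) (1 / 4), g y := by
  have hsub : Ioo (0 : ℝ) (2 * (1 / 100)) ⊆ Ioo 0 (1 / 4) := Ioo_subset_Ioo le_rfl (by norm_num)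
  have hg' : IntegrableOn g (Ioo 0 (2 * (1 / 100))) := hg.mono_set hsub
  have hfin : volume (Ioo (0 : ℝ) (2 * (1 / 100))) ≠ ⊤ := measure_Ioo_lt_top.ne
  have hB : IntegrableOn (fun y => σ + (1 + 1 / (4 * σ)) * g y) (Ioo 0 (2 * (1 / 100))) :=
    (integrableOn_const hfin).add (hg'.const_mul _)
  have hb' : ∀ y ∈ Ioo (0 : ℝ) (2 * (1 / 100)), y * |h'' y| ≤ σ + (1 + 1 / (4 * σ)) * g y :=
    fun y hy => by
      have e1 := hb y (hsub hy)
      have e2 := sqrt_le (h0 y (hsub hy)) hσ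
      have e3 : (1 + 1 / (4 * σ)) * g y = g y + g y / (4 * σ) := by ring
      linarith
  have hi : IntegrableOn (fun y => y * |h'' y|) (Ioo 0 (2 * (1 / 100))) := by
    refine Integrable.mono' hB ((continuousOn_id.mul
      (hc.c2.mono Ioo_subset_Ioc_self).abs).aestronglyMeasurable measurableSet_Ioo) ?_
    refine (ae_restrict_iff' measurableSet_Ioo).mpr (Eventually.of_forall fun y hy => ?_)
    rw [Real.norm_eq_abs, abs_of_nonneg (mul_nonneg hy.1.le (abs_nonneg _))]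
    exact hb' y hy
  have e := h5 h h' h'' (1 / 100) x (by norm_num) hc hi ⟨hx.1, hx.2.le⟩
  have e1 : ∫ y in Ioo (0 : ℝ) (2 * (1 / 100)), y * |h'' y| ≤
      σ / 50 + (1 + 1 / (4 * σ)) * ∫ y in Ioo (0 : ℝ) (1 / 4), g y := by
    refine (setIntegral_mono_on hi hB measurableSet_Ioo hb').trans ?_
    rw [integral_add (integrableOn_const (C := σ) hfin) (hg'.const_mul _), integral_const_mul,
      setIntegral_const]
    refine add_le_add (le_of_eq ?_) (mul_le_mul_of_nonneg_left ?_ (by positivity))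
    · rw [Real.volume_real_Ioo_of_le (by norm_num), smul_eq_mul]
      ring
    · exact setIntegral_mono_set hg ((ae_restrict_iff' measurableSet_Ioo).mpr
        (Eventually.of_forall h0)) hsub.eventuallyLE
  have e2 : ∫ y in Ioo (1 / 100 : ℝ) (2 * (1 / 100)), |h y| ≤ σ / 6000 := by
    have := norm_setIntegral_le_of_norm_le_const (μ := volume)
      (s := Ioo (1 / 100 : ℝ) (2 * (1 / 100))) (f := fun y => |h y|) (C := σ / 60)
      measure_Ioo_lt_top fun y hy => by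
        rw [Real.norm_eq_abs, abs_abs]
        exact hs y ⟨hy.1, hy.2.trans (by norm_num)⟩
    rw [Real.volume_real_Ioo_of_le (by norm_num), Real.norm_eq_abs] at this
    have := (le_abs_self _).trans this
    linarith
  have e3 : (30 : ℝ) / (1 / 100) = 3000 := by norm_num
  rw [e3] at e
  linarith

theorem slice_int {d : Dm} {f : X → ℝ} {A : Set (ℝ × ℝ)} {t : ℝ} (hf : Lc d f) (hA : Reg d A)
    (ht : t ∈ d.I) {γ : ℝ → ℝ × ℝ} (hγ : Continuous γ) {a b : ℝ} (h : ∀ x ∈ Ioo a b, γ x ∈ A) :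
    IntegrableOn (fun x => f (t, γ x)) (Ioo a b) := by
  obtain ⟨C, hC⟩ := hf.bd.bound hA isCompact_singleton (singleton_subset_iff.mpr ht)
  refine Integrable.mono' (integrableOn_const (C := C) measure_Ioo_lt_top.ne)
    (((hf.slice ht).comp hγ.continuousOn fun x hx => hA.sub (h x hx)).aestronglyMeasurable
      measurableSet_Ioo) ?_
  exact (ae_restrict_iff' measurableSet_Ioo).mpr
    (Eventually.of_forall fun x hx => hC t rfl _ (h x hx))

end Start0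

open Start0 in
theorem start0_ok (h0 : StApi) (h1 : StSup) (h2 : StCac) (h3 : StCrude) : StStart0 := by
  intro τ Λ ε' hε'
  obtain ⟨C₁, σ₁, hσ₁, H3⟩ := h3 τ Λ
  have hκ : 0 < ε' ^ 2 / (2 * (1 + |C₁|)) := by positivity
  obtain ⟨C, σ, hC, hσ, H2⟩ := h2 τ _ hκ
  obtain ⟨ε₀, hε₀, H1⟩ := h1 τ Λ (min σ σ₁) (lt_min hσ hσ₁)
  have hε : 0 < min ε₀ (min 1 (ε' / (C + 1))) := lt_min hε₀ (lt_min one_pos (by positivity))
  refine ⟨_, hε, fun d u F hτ hN hcl => ?_⟩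
  generalize hεd : min ε₀ (min 1 (ε' / (C + 1))) = ε at hε hcl
  have a1 : ε ≤ ε₀ := hεd ▸ min_le_left _ _
  have a2 : ε ≤ 1 := hεd ▸ (min_le_right _ _).trans (min_le_left _ _)
  have a3 : ε ≤ ε' / (C + 1) := hεd ▸ (min_le_right _ _).trans (min_le_right _ _)
  subst hτ
  have hSS : ∀ t ∈ Icc (-1 : ℝ) 0, SS 1 d u F t := fun t ht => ⟨hN.gs, hN.tI ht, hN.bO⟩
  have hS := fun t ht => H1 d u F t rfl (hSS t ht) (hN.en t ht)
    ((hcl t ht).trans (pow_le_pow_left₀ hε.le a1 2))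
  have hR : Reg d (bx d.τ 1) := reg_bx hN.bO
  have hR' : Reg d (An d.τ (3 / 5) (1 / 5)) :=
    hR.mono (measurableSet_An _ _ _) ((An_subset _ _ _).trans (bx_mono _ (by norm_num) (by norm_num)))
  have b1 : ∫ t in (-1 : ℝ)..0, ∫ y in bx d.τ 1, wv d.τ u (t, y) ^ 2 ≤ ε ^ 2 :=
    time_le (f := fun q => wv d.τ u q ^ 2) (hN.gs.bd.lc.pow 2) hR hN.tI hcl
  have b2 : ∫ t in (-1 : ℝ)..0, ∫ y in An d.τ (3 / 5) (1 / 5), gex d.τ u (t, y) ≤ C₁ :=
    time_le (h0 d u hN.gs.toGS0).bg.lc hR' hN.tI fun t ht =>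
      H3 d u F t rfl (hSS t ht) (hN.en t ht)
        (fun y hy => ((hS t ht).1 y hy).trans (min_le_right _ _))
        (fun y hy => (neg_le_neg (min_le_right _ _)).trans ((hS t ht).2 y hy))
  refine H2 d u F 1 _ rfl hN.toN0 (fun t ht y hy => ((hS t ht).1 y hy).trans (min_le_left _ _))
    (fun t ht => (hcl t ht).trans (pow_le_one₀ hε.le a2)) ?_
  have c1 : C * ε ^ 2 ≤ ε' ^ 2 / 2 := by
    have e1 : ε * (C + 1) ≤ ε' := (le_div_iff₀ (by positivity)).mp a3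
    have e2 := pow_le_pow_left₀ (by positivity) e1 2
    have e3 : 0 ≤ ε ^ 2 * (C ^ 2 + 1) := by positivity
    nlinarith
  have c2 : ε' ^ 2 / (2 * (1 + |C₁|)) * (1 + |C₁|) = ε' ^ 2 / 2 := by field_simp
  have c3 := mul_le_mul_of_nonneg_left b1 hC
  have c4 := mul_le_mul_of_nonneg_left (add_le_add_right (b2.trans (le_abs_self C₁)) 1) hκ.le
  linarith

open Start0 in
theorem vt_ok (h1 : StApi) (h2 : StAlg) (h5 : StTR) : StVT := by
  intro τ σ hσ
  refine ⟨6 * (1 + 1 / (4 * σ)), σ / 60, by positivity, by positivity,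
    fun d u F t hτ hS hB => ?_⟩
  subst hτ
  have hz : ∀ y ∈ An d.τ (19 / 20) (1 / 10), max (|wv d.τ u (t, y)| - σ) 0 = 0 := fun y hy =>
    max_eq_right (by have := hB y hy; linarith)
  have hb : bx d.τ (1 / 2) ⊆ bx d.τ (19 / 20) := bx_mono _ (by norm_num) (by norm_num)
  by_cases hτ : d.τ.1 = true ∧ d.τ.2 = true
  swap
  · have : ∫ y in bx d.τ (1 / 2), max (|wv d.τ u (t, y)| - σ) 0 ^ 2 = 0 := by
      refine setIntegral_eq_zero_of_forall_eq_zero fun y hy => ?_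
      rw [hz y ⟨hb hy, ?_⟩, zero_pow two_ne_zero]
      rcases not_and_or.mp hτ with h | h
      · left; rw [om, if_neg h]; norm_num
      · right; rw [om, if_neg h]; norm_num
    rw [this]
    positivity
  obtain ⟨τ1, τ2⟩ := hτ
  have A := h1 d u hS.gs.toGS0
  have hw := hS.gs.bd
  have hR : Reg d (bx d.τ (1 / 2)) := reg_bx ((bxc_mono _ (by norm_num) (by norm_num)).trans hS.bO)
  have hJ : bx d.τ (1 / 2) = Ioo (0 : ℝ) (1 / 4) ×ˢ Ioo (0 : ℝ) (1 / 4) := by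
    simp only [bx, iv, τ1, τ2, if_true]
    norm_num
  have hU : ∀ a ∈ Ioo (0 : ℝ) (1 / 4), ∀ b ∈ Ioo (0 : ℝ) (1 / 4), ((t, a, b) : X) ∈ d.U :=
    fun a ha b hb => ⟨hS.tI, hR.sub (hJ ▸ ⟨ha, hb⟩)⟩
  have hal := fun q hq => h2.1 _ _ _ (A.gx1 q hq).1 (A.gx1 q hq).2
  have hg0 : ∀ q ∈ d.U, 0 ≤ gex d.τ u q := fun q hq => by
    rw [A.gx2 q hq]; exact (hal q hq).1
  have hsub : Ioc (0 : ℝ) (2 * (1 / 100)) ⊆ Ioo 0 (1 / 4) := fun x hx =>
    ⟨hx.1, hx.2.trans_lt (by norm_num)⟩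
  have k1 : ∀ b ∈ Ioo (0 : ℝ) (1 / 4), ∀ a ∈ Ioo (0 : ℝ) (1 / 100), |wv d.τ u (t, a, b)| - σ ≤
      6 * (1 + 1 / (4 * σ)) * ∫ x in Ioo (0 : ℝ) (1 / 4), gex d.τ u (t, x, b) := by
    intro b hb' a ha
    refine one h5 (h := fun x => wv d.τ u (t, x, b)) (h' := fun x => D e1 (wv d.τ u) (t, x, b))
      (h'' := fun x => h11 (wv d.τ u) (t, x, b)) hσ ⟨fun x hx => ?_, fun x hx => ?_, ?_⟩
      (slice_int A.bg.lc hR hS.tI (γ := fun x => (x, b)) (by fun_prop)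
        fun x hx => hJ ▸ ⟨hx, hb'⟩) (fun x hx => hg0 _ (hU x hx b hb')) (fun x hx => ?_)
      (fun x hx => ?_) ha
    · exact hasDerivAt_y1 (hw.diffAt (hU x (hsub hx) b hb'))
    · exact hasDerivAt_y1 ((hw.D e1).diffAt (hU x (hsub hx) b hb'))
    · exact ((hw.D e1).D e1).lc.cont.comp (f := fun x : ℝ => ((t, x, b) : X)) (by fun_prop)
        fun x hx => hU x (hsub hx) b hb'
    · have hq := hU x hx b hb'
      have e := (hal _ hq).2.1.1
      rw [← A.gx2 _ hq, A.q11 _ hq] at e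
      have eo : o1 d.τ (t, x, b) = x := by simp [o1, om, τ1]
      rw [eo, mul_add, mul_inv_cancel₀ hx.1.ne', add_sub_cancel_right, abs_mul,
        abs_of_pos hx.1] at e
      exact e
    · refine hB (x, b) ⟨hb (hJ ▸ ⟨⟨lt_trans (by norm_num) hx.1, hx.2⟩, hb'⟩), Or.inl ?_⟩
      rw [om, if_pos τ1]
      linarith [hx.1]
  have k2 : ∀ a ∈ Ioo (0 : ℝ) (1 / 4), ∀ b ∈ Ioo (0 : ℝ) (1 / 100), |wv d.τ u (t, a, b)| - σ ≤
      6 * (1 + 1 / (4 * σ)) * ∫ x in Ioo (0 : ℝ) (1 / 4), gex d.τ u (t, a, x) := by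
    intro a ha' b hb'
    refine one h5 (h := fun x => wv d.τ u (t, a, x)) (h' := fun x => D e2 (wv d.τ u) (t, a, x))
      (h'' := fun x => h22 (wv d.τ u) (t, a, x)) hσ ⟨fun x hx => ?_, fun x hx => ?_, ?_⟩
      (slice_int A.bg.lc hR hS.tI (γ := fun x => (a, x)) (by fun_prop)
        fun x hx => hJ ▸ ⟨ha', hx⟩) (fun x hx => hg0 _ (hU a ha' x hx)) (fun x hx => ?_)
      (fun x hx => ?_) hb'
    · exact hasDerivAt_y2 (hw.diffAt (hU a ha' x (hsub hx)))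
    · exact hasDerivAt_y2 ((hw.D e2).diffAt (hU a ha' x (hsub hx)))
    · exact ((hw.D e2).D e2).lc.cont.comp (f := fun x : ℝ => ((t, a, x) : X)) (by fun_prop)
        fun x hx => hU a ha' x (hsub hx)
    · have hq := hU a ha' x hx
      have e := (hal _ hq).2.1.2.2
      rw [← A.gx2 _ hq, A.q22 _ hq] at e
      have eo : o2 d.τ (t, a, x) = x := by simp [o2, om, τ2]
      rw [eo, mul_add, mul_inv_cancel₀ hx.1.ne', add_sub_cancel_right, abs_mul,
        abs_of_pos hx.1] at e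
      exact e
    · refine hB (a, x) ⟨hb (hJ ▸ ⟨ha', ⟨lt_trans (by norm_num) hx.1, hx.2⟩⟩), Or.inr ?_⟩
      rw [om, if_pos τ2]
      linarith [hx.1]
  have hGi : IntegrableOn (fun y => gex d.τ u (t, y)) (bx d.τ (1 / 2)) :=
    A.bg.lc.integrableOn hR hS.tI
  have hLi : IntegrableOn (fun y => max (|wv d.τ u (t, y)| - σ) 0 ^ 2) (bx d.τ (1 / 2)) :=
    (hw.lc.comp (Φ := fun x => max (|x| - σ) 0 ^ 2) (by fun_prop)).integrableOn hR hS.tI
  rw [hJ] at hGi hLi ⊢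
  have hGp : Integrable (fun y : ℝ × ℝ => gex d.τ u (t, y))
      ((volume.restrict (Ioo (0 : ℝ) (1 / 4))).prod (volume.restrict (Ioo (0 : ℝ) (1 / 4)))) := by
    rw [Measure.prod_restrict]; exact hGi
  generalize hC : 6 * (1 + 1 / (4 * σ)) = C at k1 k2
  have hC0 : 0 ≤ C := by rw [← hC]; positivity
  have i1 := hGp.integral_prod_left.const_mul C
  have i2 := hGp.integral_prod_right.const_mul C
  have hP := i1.mul_prod i2
  rw [Measure.prod_restrict] at hP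
  calc _ ≤ ∫ y in Ioo (0 : ℝ) (1 / 4) ×ˢ Ioo (0 : ℝ) (1 / 4),
        (C * ∫ x in Ioo (0 : ℝ) (1 / 4), gex d.τ u (t, y.1, x)) *
          (C * ∫ x in Ioo (0 : ℝ) (1 / 4), gex d.τ u (t, x, y.2)) := by
        refine setIntegral_mono_on hLi hP (measurableSet_Ioo.prod measurableSet_Ioo) ?_
        rintro ⟨a, b⟩ ⟨ha, hb'⟩
        have n1 : 0 ≤ C * ∫ x in Ioo (0 : ℝ) (1 / 4), gex d.τ u (t, a, x) :=
          mul_nonneg hC0 (setIntegral_nonneg measurableSet_Ioo fun x hx => hg0 _ (hU a ha x hx))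
        have n2 : 0 ≤ C * ∫ x in Ioo (0 : ℝ) (1 / 4), gex d.τ u (t, x, b) :=
          mul_nonneg hC0 (setIntegral_nonneg measurableSet_Ioo fun x hx => hg0 _ (hU x hx b hb'))
        by_cases hc : a < 1 / 100 ∧ b < 1 / 100
        · rw [sq]
          exact mul_le_mul (max_le (k2 a ha b ⟨hb'.1, hc.2⟩) n1)
            (max_le (k1 b hb' a ⟨ha.1, hc.1⟩) n2) (le_max_right _ _) n1
        · rw [hz (a, b) ⟨hb (hJ ▸ ⟨ha, hb'⟩), ?_⟩, zero_pow two_ne_zero]
          · exact mul_nonneg n1 n2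
          · rcases not_and_or.mp hc with h | h
            · left; rw [om, if_pos τ1]; linarith [not_lt.mp h]
            · right; rw [om, if_pos τ2]; linarith [not_lt.mp h]
    _ = _ := by
        rw [Measure.volume_eq_prod, setIntegral_prod_mul
          (fun a => C * ∫ x in Ioo (0 : ℝ) (1 / 4), gex d.τ u (t, a, x))
          (fun b => C * ∫ x in Ioo (0 : ℝ) (1 / 4), gex d.τ u (t, x, b)),
          integral_const_mul, integral_const_mul, ← Measure.prod_restrict, ← integral_prod _ hGp,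
          ← integral_prod_symm _ hGp, sq]

end Pool.Agent.P.MP_2cea5e_gt.I
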